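import Mathlib

/-!
# Basic facts on the divisor sum used for odd perfect numbers
-/

namespace Pool.Agent.Lib.MP_f02ea4_nt.Sb

open Finset

/-- sum of divisors -/
abbrev sg (n : ℕ) : ℕ := ArithmeticFunction.sigma 1 n

theorem sg_one : sg 1 = 1 := by simp [sg]

theorem sg_mul {m n : ℕ} (h : Nat.Coprime m n) : sg (m * n) = sg m * sg n :=
  ArithmeticFunction.isMultiplicative_sigma.map_mul_of_coprime h

theorem sg_pow {p : ℕ} (hp : p.Prime) (a : ℕ) : (p - 1) * sg (p ^ a) + 1 = p ^ (a + 1) := by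
  rw [sg, ArithmeticFunction.sigma_one_apply_prime_pow hp]
  obtain ⟨u, rfl⟩ : ∃ u, p = u + 1 := ⟨p - 1, by have := hp.pos; omega⟩
  simp only [Nat.add_sub_cancel]
  generalize a + 1 = n
  induction n with
  | zero => simp
  | succ n ih =>
    rw [Finset.sum_range_succ, mul_add, pow_succ, ← ih]
    have := ih
    nlinarith

theorem le_sg {n : ℕ} (hn : 0 < n) : n ≤ sg n := by
  rw [sg, ArithmeticFunction.sigma_one_apply]
  exact Finset.single_le_sum (f := fun d => d) (fun _ _ => Nat.zero_le _)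
    (Nat.mem_divisors_self n hn.ne')

theorem sg_pos {n : ℕ} (hn : 0 < n) : 0 < sg n := lt_of_lt_of_le hn (le_sg hn)

theorem sg_prime {p : ℕ} (hp : p.Prime) : sg (p ^ 1) = p + 1 := by
  rw [sg, ArithmeticFunction.sigma_one_apply_prime_pow hp]
  simp [Finset.sum_range_succ]; ring

theorem sg_prime_sq {p : ℕ} (hp : p.Prime) : sg (p ^ 2) = p ^ 2 + p + 1 := by
  rw [sg, ArithmeticFunction.sigma_one_apply_prime_pow hp]
  simp [Finset.sum_range_succ]; ring

theorem coprime_sg_pow {p : ℕ} (hp : p.Prime) (a : ℕ) : Nat.Coprime p (sg (p ^ a)) := by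
  rw [Nat.Prime.coprime_iff_not_dvd hp]
  intro h
  have h1 := sg_pow hp a
  have h2 : p ∣ (p - 1) * sg (p ^ a) + 1 := by rw [h1]; exact dvd_pow_self p (by omega)
  have h3 : p ∣ 1 := (Nat.dvd_add_right (Dvd.dvd.mul_left h (p - 1))).1 h2
  exact hp.one_lt.ne' (Nat.dvd_one.1 h3)


theorem sg_pow_int {p : ℕ} (hp : p.Prime) (a : ℕ) :
    ((p : ℤ) - 1) * (sg (p ^ a) : ℤ) + 1 = (p : ℤ) ^ (a + 1) := by
  have h := sg_pow hp a
  have h1 : ((p - 1 : ℕ) : ℤ) = (p : ℤ) - 1 := by
    have := hp.pos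
    push_cast [Nat.cast_sub (show 1 ≤ p by omega)]
    ring
  rw [← h1]
  exact_mod_cast h

theorem exists_payer {r : ℕ} (hr : r.Prime) (R : ℕ) (hR : 0 < R) (h : r ∣ sg R) :
    ∃ p a M, p.Prime ∧ 0 < a ∧ 0 < M ∧ R = p ^ a * M ∧ Nat.Coprime (p ^ a) M ∧
      r ∣ sg (p ^ a) := by
  induction R using Nat.strong_induction_on with
  | _ R ih =>
    rcases eq_or_ne R 1 with rfl | hR1
    · rw [sg_one] at h
      exact absurd (Nat.dvd_one.1 h) hr.one_lt.ne'
    · set p := R.minFac with hpdef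
      have hp : p.Prime := Nat.minFac_prime hR1
      obtain ⟨a, M, hpM, hRM⟩ := Nat.exists_eq_pow_mul_and_not_dvd hR.ne' p hp.one_lt.ne'
      have ha : 0 < a := by
        rcases Nat.eq_zero_or_pos a with h0 | h0
        · exfalso
          rw [h0, pow_zero, one_mul] at hRM
          exact hpM (hRM ▸ Nat.minFac_dvd R)
        · exact h0
      have hM : 0 < M := by
        rcases Nat.eq_zero_or_pos M with h0 | h0
        · rw [h0] at hpM; exact absurd (dvd_zero p) hpM
        · exact h0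
      have hcop : Nat.Coprime (p ^ a) M :=
        Nat.Coprime.pow_left a ((Nat.Prime.coprime_iff_not_dvd hp).2 hpM)
      rw [hRM, sg_mul hcop] at h
      rcases (Nat.Prime.dvd_mul hr).1 h with h1 | h1
      · exact ⟨p, a, M, hp, ha, hM, hRM, hcop, h1⟩
      · have hlt : M < R := by
          rw [hRM]
          have : 1 < p ^ a := Nat.one_lt_pow ha.ne' hp.one_lt
          nlinarith
        obtain ⟨p', a', M', hp', ha', hM', hMM, hcop', h2⟩ := ih M hlt hM h1
        refine ⟨p', a', p ^ a * M', hp', ha', Nat.mul_pos (pow_pos hp.pos a) hM', ?_, ?_, h2⟩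
        · rw [hRM, hMM]; ring
        · rw [hMM] at hcop
          exact Nat.Coprime.mul_right (Nat.Coprime.coprime_mul_right_right hcop).symm hcop'

/-- every unitary divisor has abundancy at most two -/
def Unit2 (N : ℕ) : Prop := ∀ D E, N = D * E → Nat.Coprime D E → sg D ≤ 2 * D

theorem Unit2.of_perfect {N : ℕ} (hN : 0 < N) (hs : sg N = 2 * N) : Unit2 N := by
  intro D E hDE hcop
  have hE : 0 < E := by
    rcases Nat.eq_zero_or_pos E with h | h
    · rw [h, mul_zero] at hDE; omega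
    · exact h
  have h1 : sg D * sg E = 2 * (D * E) := by rw [← sg_mul hcop, ← hDE, hs]
  have h2 : sg D * E ≤ (2 * D) * E := by
    calc sg D * E ≤ sg D * sg E := Nat.mul_le_mul_left _ (le_sg hE)
      _ = 2 * (D * E) := h1
      _ = (2 * D) * E := by ring
  exact Nat.le_of_mul_le_mul_right h2 hE

theorem Unit2.right {A B : ℕ} (h : Unit2 (A * B)) (hcop : Nat.Coprime A B) : Unit2 B := by
  intro D E hDE hDEc
  apply h D (A * E)
  · rw [hDE]; ring
  · rw [hDE] at hcop
    exact Nat.Coprime.mul_right (Nat.Coprime.coprime_mul_right_right hcop).symm hDEc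

theorem Unit2.self {R : ℕ} (h : Unit2 R) : sg R ≤ 2 * R :=
  h R 1 (by ring) (Nat.coprime_one_right R)


end Pool.Agent.Lib.MP_f02ea4_nt.Sb
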