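import Mathlib

/-! Many large primes, part A: approximation of `exp (x w)` by `w^mu exp (s w)` (Hermite interpolation,
constructed by an operator on sequences). -/

set_option autoImplicit false

namespace Pool.Agent.Lib.MP_f02ea4_nt.Ml

open Finset Real

/-- basis sequence `e_{s,mu}(r) = C(r,mu) s^(r-mu)`: Taylor coefficients (times `r!`) of `w^mu/mu! exp (s w)` -/
def eb (s : ℝ) (μ r : ℕ) : ℝ := (r.choose μ : ℝ) * s ^ (r - μ)

/-- the operator `T`: `(T f)_0 = 0`, `(T f)_(r+1) = s (T f)_r + (x - s) f_r` -/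
def Ts (s x : ℝ) (f : ℕ → ℝ) : ℕ → ℝ
  | 0 => 0
  | r + 1 => s * Ts s x f r + (x - s) * f r

-- BEGIN A1
/-- A1. induction on `r`. -/
lemma Ts_pow (s x : ℝ) (r : ℕ) : Ts s x (fun r => x ^ r) r = x ^ r - s ^ r := by
  induction r with
  | zero => simp [Ts]
  | succ r ih =>
    simp only [Ts]
    rw [ih]
    ring

lemma eb_zero_left (s : ℝ) (r : ℕ) : eb s 0 r = s ^ r := by
  simp [eb]

lemma eb_succ_zero (s : ℝ) (μ : ℕ) : eb s (μ + 1) 0 = 0 := by
  simp [eb]

/-- A1. Pascal; cases `r < μ`, `r = μ`, `r > μ` for the power of `s`. -/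
lemma eb_succ_succ (s : ℝ) (μ r : ℕ) : eb s (μ + 1) (r + 1) = s * eb s (μ + 1) r + eb s μ r := by
  unfold eb
  rw [Nat.add_sub_add_right, Nat.choose_succ_succ]
  push_cast
  rcases Nat.lt_or_ge r (μ + 1) with h | h
  · rw [Nat.choose_eq_zero_of_lt h]
    simp
  · have h1 : r - μ = r - (μ + 1) + 1 := by omega
    rw [h1, pow_succ]
    ring

/-- A1. induction on `r` with `eb_succ_succ`. -/
lemma Ts_eb_same (s x : ℝ) (μ r : ℕ) : Ts s x (eb s μ) r = (x - s) * eb s (μ + 1) r := by
  induction r with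
  | zero => simp [Ts, eb_succ_zero]
  | succ r ih =>
    simp only [Ts]
    rw [ih, eb_succ_succ]
    ring

/-- A1. induction on `r`. -/
lemma Ts_eb_zero (s s' x : ℝ) (h : s' ≠ s) (r : ℕ) :
    Ts s x (eb s' 0) r = (x - s) / (s' - s) * (eb s' 0 r - eb s 0 r) := by
  have h0 : s' - s ≠ 0 := sub_ne_zero.mpr h
  induction r with
  | zero => simp [Ts, eb_zero_left]
  | succ r ih =>
    simp only [Ts]
    rw [ih, eb_zero_left, eb_zero_left, eb_zero_left, eb_zero_left]
    field_simp
    ring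

/-- A1. induction on `r`: with `g r` the right side, `g 0 = 0` and
`g (r+1) - s g r = (1/(s'-s)) ((x-s) (e_(μ+1)(r+1) - s e_(μ+1)(r)) - (x-s) e_μ(r)) = (x-s) e_(μ+1)(r)` because
`e_(μ+1)(r+1) = s' e_(μ+1)(r) + e_μ(r)`. -/
lemma Ts_eb_succ (s s' x : ℝ) (h : s' ≠ s) (μ r : ℕ) :
    Ts s x (eb s' (μ + 1)) r =
      (1 / (s' - s)) * ((x - s) * eb s' (μ + 1) r - Ts s x (eb s' μ) r) := by
  have h0 : s' - s ≠ 0 := sub_ne_zero.mpr h
  induction r with
  | zero => simp [Ts, eb_succ_zero]
  | succ r ih =>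
    simp only [Ts]
    rw [ih, eb_succ_succ]
    field_simp
    ring
-- END A1

-- BEGIN A2
lemma Ts_add (s x : ℝ) (f g : ℕ → ℝ) (r : ℕ) :
    Ts s x (fun r => f r + g r) r = Ts s x f r + Ts s x g r := by
  induction r with
  | zero => simp [Ts]
  | succ r ih =>
    simp only [Ts]
    rw [ih]
    ring

lemma Ts_sub (s x : ℝ) (f g : ℕ → ℝ) (r : ℕ) :
    Ts s x (fun r => f r - g r) r = Ts s x f r - Ts s x g r := by
  induction r with
  | zero => simp [Ts]
  | succ r ih =>
    simp only [Ts]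
    rw [ih]
    ring

lemma Ts_mul (s x c : ℝ) (f : ℕ → ℝ) (r : ℕ) : Ts s x (fun r => c * f r) r = c * Ts s x f r := by
  induction r with
  | zero => simp [Ts]
  | succ r ih =>
    simp only [Ts]
    rw [ih]
    ring

lemma Ts_sum {ι : Type*} (s x : ℝ) (A : Finset ι) (f : ι → ℕ → ℝ) (r : ℕ) :
    Ts s x (fun r => ∑ i ∈ A, f i r) r = ∑ i ∈ A, Ts s x (f i) r := by
  induction r with
  | zero => simp [Ts]
  | succ r ih =>
    simp only [Ts]
    rw [ih, Finset.mul_sum, Finset.mul_sum, ← Finset.sum_add_distrib]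

lemma Ts_vanish (s x : ℝ) (f : ℕ → ℝ) (n : ℕ) (h : ∀ r < n, f r = 0) :
    ∀ r < n + 1, Ts s x f r = 0 := by
  intro r
  induction r with
  | zero => intro _; simp [Ts]
  | succ r ih =>
    intro hr
    simp only [Ts]
    rw [ih (by omega), h r (by omega)]
    ring

/-- A2. induction: `X (3X)^r + 2X (3X)^r = (3X)^(r+1)`. -/
lemma Ts_bound (s x X : ℝ) (hx : |x| ≤ X) (hs : |s| ≤ X) (f : ℕ → ℝ)
    (h : ∀ r, |f r| ≤ (3 * X) ^ r) : ∀ r, |Ts s x f r| ≤ (3 * X) ^ r := by
  intro r
  induction r with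
  | zero => simp [Ts]
  | succ r ih =>
    simp only [Ts]
    have hX : 0 ≤ X := (abs_nonneg x).trans hx
    have h1 := abs_add_le (s * Ts s x f r) ((x - s) * f r)
    rw [abs_mul, abs_mul] at h1
    have h2 : |s| * |Ts s x f r| ≤ X * (3 * X) ^ r :=
      mul_le_mul hs ih (abs_nonneg _) hX
    have h3 : |x - s| ≤ 2 * X := (abs_sub _ _).trans (by linarith)
    have h4 : |x - s| * |f r| ≤ (2 * X) * (3 * X) ^ r :=
      mul_le_mul h3 (h r) (abs_nonneg _) (by linarith)
    calc |s * Ts s x f r + (x - s) * f r| ≤ X * (3 * X) ^ r + (2 * X) * (3 * X) ^ r := by linarith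
      _ = (3 * X) ^ (r + 1) := by ring
-- END A2

-- BEGIN A3
/-- A3. induction on `μ` (A1 `Ts_eb_zero`, `Ts_eb_succ`): `|1/(s'-s)| ≤ 1`.  `μ = 0`: `γ_0 = (x-s)/(s'-s)`,
`δ = -γ_0`.  Step: `γ'_l = -γ_l/(s'-s)` (`l ≤ μ`), `γ'_(μ+1) = (x-s)/(s'-s)`, `δ' = -δ/(s'-s)`. -/
lemma Ts_eb_repr (s s' x : ℝ) (h : 1 ≤ |s' - s|) (μ : ℕ) :
    ∃ (γ : ℕ → ℝ) (δ : ℝ), (∀ l, μ < l → γ l = 0) ∧
      (∀ r, Ts s x (eb s' μ) r = ∑ l ∈ range (μ + 1), γ l * eb s' l r + δ * eb s 0 r) ∧
      ∑ l ∈ range (μ + 1), |γ l| + |δ| ≤ (μ + 2) * |x - s| := by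
  have hne : s' ≠ s := by
    rintro rfl
    rw [sub_self, abs_zero] at h
    linarith
  have hpos : 0 < |s' - s| := by linarith
  have hdiv : ∀ a : ℝ, |a / (s' - s)| ≤ |a| := by
    intro a
    rw [abs_div]
    exact div_le_self (abs_nonneg a) h
  induction μ with
  | zero =>
    refine ⟨fun l => if l = 0 then (x - s) / (s' - s) else 0, -((x - s) / (s' - s)), ?_, ?_, ?_⟩
    · intro l hl
      beta_reduce
      rw [if_neg (by omega)]
    · intro r
      rw [Ts_eb_zero s s' x hne]
      simp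
      ring
    · simp only [zero_add, range_one, sum_singleton, if_true, abs_neg, CharP.cast_eq_zero]
      have := hdiv (x - s)
      linarith
  | succ μ ih =>
    obtain ⟨γ, δ, h1, h2, h3⟩ := ih
    refine ⟨fun l => if l = μ + 1 then (x - s) / (s' - s) else -(γ l) / (s' - s),
      -δ / (s' - s), ?_, ?_, ?_⟩
    · intro l hl
      beta_reduce
      rw [if_neg (by omega), h1 l (by omega)]
      simp
    · intro r
      have e1 : ∑ l ∈ range (μ + 1), (if l = μ + 1 then (x - s) / (s' - s) else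
          -(γ l) / (s' - s)) * eb s' l r = -(1 / (s' - s)) * ∑ l ∈ range (μ + 1), γ l * eb s' l r := by
        rw [Finset.mul_sum]
        refine Finset.sum_congr rfl fun l hl => ?_
        rw [Finset.mem_range] at hl
        rw [if_neg (by omega)]
        ring
      rw [Ts_eb_succ s s' x hne, h2 r, Finset.sum_range_succ _ (μ + 1), e1]
      beta_reduce
      rw [if_pos rfl]
      ring
    · have e1 : ∑ l ∈ range (μ + 1), |if l = μ + 1 then (x - s) / (s' - s) else
          -(γ l) / (s' - s)| ≤ ∑ l ∈ range (μ + 1), |γ l| := by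
        refine Finset.sum_le_sum fun l hl => ?_
        rw [Finset.mem_range] at hl
        rw [if_neg (by omega)]
        have := hdiv (-(γ l))
        rwa [abs_neg] at this
      rw [Finset.sum_range_succ _ (μ + 1)]
      beta_reduce
      rw [if_pos rfl]
      have e2 := hdiv (x - s)
      have e3 := hdiv (-δ)
      rw [abs_neg] at e3
      push_cast
      linarith
-- END A3

/-- representation of a sequence by the `e_{s,mu}`, `s < S`, `mu < M`, with multiplicities `< cnt s` and
`l^1` norm `≤ C` -/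
def Rep (S M : ℕ) (cnt : ℕ → ℕ) (C : ℝ) (g : ℕ → ℝ) : Prop :=
  ∃ β : ℕ → ℕ → ℝ, (∀ s μ, cnt s ≤ μ → β s μ = 0) ∧
    (∀ r, g r = ∑ s ∈ range S, ∑ μ ∈ range M, β s μ * eb s μ r) ∧
    ∑ s ∈ range S, ∑ μ ∈ range M, |β s μ| ≤ C

-- BEGIN A4
/-- A4. One basis element: `T e_{s,mu}` (`s < S`, `mu < cnt s`) has a representation with norm `≤ 2 X (M+1)`.
`s = s0`: `(x - s0) e_{s0,mu+1}`, `mu + 1 < cnt' s0 ≤ M`.  `s ≠ s0`: A3 (`|s - s0| ≥ 1` for naturals, `mu + 2 ≤ M + 1`,
`|x - s0| ≤ 2X`, `0 < cnt' s0 ≤ M`). -/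
lemma Rep_basis (S M : ℕ) (cnt : ℕ → ℕ) (x X : ℝ) (hx : |x| ≤ X) (hSX : (S : ℝ) ≤ X) (s0 : ℕ)
    (hs0 : s0 < S) (hM : ∀ s, Function.update cnt s0 (cnt s0 + 1) s ≤ M) (s μ : ℕ) (hs : s < S)
    (hμ : μ < cnt s) :
    Rep S M (Function.update cnt s0 (cnt s0 + 1)) (2 * X * (M + 1)) (Ts s0 x (eb s μ)) := by
  have hcM : ∀ s', cnt s' ≤ M := by
    intro s'
    refine le_trans ?_ (hM s')
    by_cases h : s' = s0
    · subst h
      rw [Function.update_self]
      exact Nat.le_succ _
    · rw [Function.update_of_ne h]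
  have hs0M : cnt s0 + 1 ≤ M := by
    have := hM s0
    rwa [Function.update_self] at this
  have hs0X : (s0 : ℝ) ≤ X := by
    have : (s0 : ℝ) ≤ S := by exact_mod_cast hs0.le
    linarith
  have hs00 : (0 : ℝ) ≤ s0 := Nat.cast_nonneg _
  have hxs : |x - s0| ≤ 2 * X := by
    rw [abs_le] at hx ⊢
    constructor <;> linarith
  have hX0 : 0 ≤ X := by linarith
  have hM0 : (0 : ℝ) ≤ M := Nat.cast_nonneg _
  by_cases hss : s = s0
  · subst hss
    refine ⟨fun s' μ' => if s' = s ∧ μ' = μ + 1 then x - s else 0, ?_, ?_, ?_⟩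
    · intro s' μ' h
      refine if_neg ?_
      rintro ⟨rfl, rfl⟩
      rw [Function.update_self] at h
      omega
    · intro r
      rw [Ts_eb_same]
      rw [Finset.sum_eq_single s]
      · rw [Finset.sum_eq_single (μ + 1)]
        · simp
        · intro b _ hb
          simp [hb]
        · intro h
          exact absurd (Finset.mem_range.2 (by omega)) h
      · intro b _ hb
        refine Finset.sum_eq_zero fun μ' _ => ?_
        simp [hb]
      · intro h
        exact absurd (Finset.mem_range.2 hs0) h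
    · rw [Finset.sum_eq_single s]
      · rw [Finset.sum_eq_single (μ + 1)]
        · simp only [and_self, if_true]
          nlinarith
        · intro b _ hb
          simp [hb]
        · intro h
          exact absurd (Finset.mem_range.2 (by omega)) h
      · intro b _ hb
        refine Finset.sum_eq_zero fun μ' _ => ?_
        simp [hb]
      · intro h
        exact absurd (Finset.mem_range.2 hs0) h
  · have hss' : (1 : ℝ) ≤ |(s : ℝ) - s0| := by
      have h1 : (1 : ℤ) ≤ |(s : ℤ) - s0| := by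
        apply Int.one_le_abs
        omega
      have h2 : ((1 : ℤ) : ℝ) ≤ ((|(s : ℤ) - s0| : ℤ) : ℝ) := by exact_mod_cast h1
      simpa using h2
    obtain ⟨γ, δ, h1, h2, h3⟩ := Ts_eb_repr s0 s x hss' μ
    have hμM : μ + 1 ≤ M := by
      have := hcM s
      omega
    refine ⟨fun s' μ' => (if s' = s then γ μ' else 0) + (if s' = s0 ∧ μ' = 0 then δ else 0),
      ?_, ?_, ?_⟩
    · intro s' μ' h
      have e1 : (if s' = s then γ μ' else 0) = 0 := by
        split_ifs with h4
        · subst h4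
          rw [Function.update_of_ne hss] at h
          exact h1 _ (by omega)
        · rfl
      have e2 : (if s' = s0 ∧ μ' = 0 then δ else 0) = 0 := by
        rw [if_neg]
        rintro ⟨rfl, rfl⟩
        rw [Function.update_self] at h
        omega
      simp only [e1, e2, add_zero]
    · intro r
      rw [h2 r]
      have e : ∀ s' ∈ range S, ∑ μ' ∈ range M, ((if s' = s then γ μ' else 0) +
          (if s' = s0 ∧ μ' = 0 then δ else 0)) * eb s' μ' r =
          (if s' = s then ∑ μ' ∈ range M, γ μ' * eb s μ' r else 0) +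
          (if s' = s0 then δ * eb s0 0 r else 0) := by
        intro s' _
        simp only [add_mul]
        rw [Finset.sum_add_distrib]
        congr 1
        · split_ifs with h4
          · subst h4
            rfl
          · simp
        · split_ifs with h4
          · subst h4
            rw [Finset.sum_eq_single 0]
            · simp
            · intro b _ hb
              simp [hb]
            · intro h
              exact absurd (Finset.mem_range.2 (by omega)) h
          · refine Finset.sum_eq_zero fun μ' _ => ?_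
            simp [h4]
      rw [Finset.sum_congr rfl e, Finset.sum_add_distrib, Finset.sum_ite_eq' _ s,
        Finset.sum_ite_eq' _ s0, if_pos (Finset.mem_range.2 hs), if_pos (Finset.mem_range.2 hs0)]
      congr 1
      refine Finset.sum_subset (Finset.range_mono hμM) fun l _ hl => ?_
      rw [h1 l (by
        rw [Finset.mem_range] at hl
        omega), zero_mul]
    · have e : ∀ s' ∈ range S, ∑ μ' ∈ range M, |(if s' = s then γ μ' else 0) +
          (if s' = s0 ∧ μ' = 0 then δ else 0)| ≤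
          (if s' = s then ∑ μ' ∈ range M, |γ μ'| else 0) +
          (if s' = s0 then |δ| else 0) := by
        intro s' _
        refine (Finset.sum_le_sum fun μ' _ => abs_add_le _ _).trans ?_
        rw [Finset.sum_add_distrib]
        refine add_le_add ?_ ?_
        · split_ifs with h4
          · exact le_rfl
          · simp
        · split_ifs with h4
          · subst h4
            rw [Finset.sum_eq_single 0]
            · simp
            · intro b _ hb
              simp [hb]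
            · intro h
              exact absurd (Finset.mem_range.2 (by omega)) h
          · refine (Finset.sum_eq_zero fun μ' _ => ?_).le
            simp [h4]
      refine (Finset.sum_le_sum e).trans ?_
      rw [Finset.sum_add_distrib, Finset.sum_ite_eq' _ s,
        Finset.sum_ite_eq' _ s0, if_pos (Finset.mem_range.2 hs), if_pos (Finset.mem_range.2 hs0)]
      have e2 : ∑ μ' ∈ range M, |γ μ'| = ∑ l ∈ range (μ + 1), |γ l| := by
        symm
        refine Finset.sum_subset (Finset.range_mono hμM) fun l _ hl => ?_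
        rw [h1 l (by
          rw [Finset.mem_range] at hl
          omega), abs_zero]
      rw [e2]
      refine h3.trans ?_
      have h5 : (μ : ℝ) + 2 ≤ M + 1 := by
        have : ((μ + 1 : ℕ) : ℝ) ≤ M := by exact_mod_cast hμM
        push_cast at this
        linarith
      have h6 : (0 : ℝ) ≤ μ := Nat.cast_nonneg _
      calc ((μ : ℝ) + 2) * |x - s0| ≤ (M + 1) * (2 * X) :=
            mul_le_mul h5 hxs (abs_nonneg _) (by linarith)
        _ = 2 * X * (M + 1) := by ring
-- END A4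

-- BEGIN A5
/-- A5. closure of `Rep` under sums and multiples (`β` added) -/
lemma Rep_add (S M : ℕ) (cnt : ℕ → ℕ) (C C' : ℝ) (g g' : ℕ → ℝ) (h : Rep S M cnt C g)
    (h' : Rep S M cnt C' g') : Rep S M cnt (C + C') (fun r => g r + g' r) := by
  obtain ⟨β, h1, h2, h3⟩ := h
  obtain ⟨β', h1', h2', h3'⟩ := h'
  refine ⟨fun s μ => β s μ + β' s μ, fun s μ hs => ?_, fun r => ?_, ?_⟩
  · beta_reduce
    rw [h1 s μ hs, h1' s μ hs, add_zero]
  · beta_reduce
    rw [h2, h2', ← Finset.sum_add_distrib]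
    refine Finset.sum_congr rfl fun s _ => ?_
    rw [← Finset.sum_add_distrib]
    refine Finset.sum_congr rfl fun μ _ => ?_
    ring
  · refine le_trans ?_ (add_le_add h3 h3')
    rw [← Finset.sum_add_distrib]
    refine Finset.sum_le_sum fun s _ => ?_
    rw [← Finset.sum_add_distrib]
    exact Finset.sum_le_sum fun μ _ => abs_add_le _ _

lemma Rep_mul (S M : ℕ) (cnt : ℕ → ℕ) (C c : ℝ) (g : ℕ → ℝ) (h : Rep S M cnt C g) :
    Rep S M cnt (|c| * C) (fun r => c * g r) := by
  obtain ⟨β, h1, h2, h3⟩ := h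
  refine ⟨fun s μ => c * β s μ, fun s μ hs => ?_, fun r => ?_, ?_⟩
  · simp only [h1 s μ hs, mul_zero]
  · simp only [h2, Finset.mul_sum, mul_assoc]
  · simp only [abs_mul, ← Finset.mul_sum]
    exact mul_le_mul_of_nonneg_left h3 (abs_nonneg c)

lemma Rep_sum {ι : Type*} (A : Finset ι) (S M : ℕ) (cnt : ℕ → ℕ) (C : ι → ℝ) (g : ι → ℕ → ℝ)
    (h : ∀ i ∈ A, Rep S M cnt (C i) (g i)) :
    Rep S M cnt (∑ i ∈ A, C i) (fun r => ∑ i ∈ A, g i r) := by
  classical
  induction A using Finset.induction_on with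
  | empty =>
    refine ⟨fun _ _ => 0, fun _ _ _ => rfl, fun r => ?_, ?_⟩
    · simp
    · simp
  | insert a A ha ih =>
    have h1 := ih fun i hi => h i (Finset.mem_insert_of_mem hi)
    have h2 := Rep_add S M cnt _ _ _ _ (h a (Finset.mem_insert_self a A)) h1
    rw [Finset.sum_insert ha]
    have h3 : (fun r => ∑ i ∈ insert a A, g i r) = fun r => g a r + ∑ i ∈ A, g i r := by
      funext r
      rw [Finset.sum_insert ha]
    rw [h3]
    exact h2

lemma Rep_mono (S M : ℕ) (cnt : ℕ → ℕ) (C C' : ℝ) (g : ℕ → ℝ) (h : Rep S M cnt C g) (hC : C ≤ C') :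
    Rep S M cnt C' g := by
  obtain ⟨β, h1, h2, h3⟩ := h
  exact ⟨β, h1, h2, h3.trans hC⟩
-- END A5

-- BEGIN A6
private lemma a6_zero (S M : ℕ) (cnt : ℕ → ℕ) (g : ℕ → ℝ) (hg : ∀ r, g r = 0) :
    Rep S M cnt 0 g := by
  refine ⟨fun _ _ => 0, fun _ _ _ => rfl, fun r => by simp [hg r], by simp⟩

private lemma a6_one (S M : ℕ) (cnt : ℕ → ℕ) (s0 : ℕ) (hs0 : s0 < S) (hM : 0 < M)
    (hc : 0 < cnt s0) : Rep S M cnt 1 (fun r => (s0 : ℝ) ^ r) := by
  classical
  refine ⟨fun s μ => if s = s0 then (if μ = 0 then 1 else 0) else 0, ?_, ?_, ?_⟩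
  · intro s μ h
    by_cases h1 : s = s0
    · subst h1
      have : μ ≠ 0 := by omega
      simp [this]
    · simp [h1]
  · intro r
    rw [Finset.sum_eq_single s0]
    · rw [Finset.sum_eq_single 0]
      · simp [eb_zero_left]
      · intro b _ hb
        simp [hb]
      · intro h
        exact absurd (Finset.mem_range.mpr hM) h
    · intro b _ hb
      simp [hb]
    · intro h
      exact absurd (Finset.mem_range.mpr hs0) h
  · rw [Finset.sum_eq_single s0]
    · rw [Finset.sum_eq_single 0]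
      · simp
      · intro b _ hb
        simp [hb]
      · intro h
        exact absurd (Finset.mem_range.mpr hM) h
    · intro b _ hb
      simp [hb]
    · intro h
      exact absurd (Finset.mem_range.mpr hs0) h

/-- A6. one step.  `T g = ∑ β_{s,mu} T e_{s,mu}` (A2 `Ts_sum`, `Ts_mul`), A4, A5; terms with `mu ≥ cnt s` have `β = 0`;
`s0^r = e_{s0,0}(r)` has a representation of norm 1 (`0 < cnt s0 + 1 ≤ M`). -/
lemma Rep_step (S M : ℕ) (cnt : ℕ → ℕ) (C x X : ℝ) (hx : |x| ≤ X) (hSX : (S : ℝ) ≤ X) (s0 : ℕ)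
    (hs0 : s0 < S) (hM : ∀ s, Function.update cnt s0 (cnt s0 + 1) s ≤ M) (g : ℕ → ℝ)
    (h : Rep S M cnt C g) :
    Rep S M (Function.update cnt s0 (cnt s0 + 1)) (1 + 2 * X * (M + 1) * C)
      (fun r => (s0 : ℝ) ^ r + Ts s0 x g r) := by
  obtain ⟨β, hβ0, hβg, hβC⟩ := h
  have hX0 : 0 ≤ X := (abs_nonneg x).trans hx
  have hM0 : 0 < M := by
    have := hM s0
    simp at this
    omega
  have hone : Rep S M (Function.update cnt s0 (cnt s0 + 1)) 1 (fun r => (s0 : ℝ) ^ r) := by
    apply a6_one S M _ s0 hs0 hM0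
    simp
  have hg : g = fun r => ∑ s ∈ range S, ∑ μ ∈ range M, β s μ * eb s μ r := funext hβg
  have hT : ∀ r, Ts s0 x g r = ∑ s ∈ range S, ∑ μ ∈ range M, β s μ * Ts s0 x (eb s μ) r := by
    intro r
    rw [hg, Ts_sum]
    refine Finset.sum_congr rfl fun s _ => ?_
    rw [Ts_sum]
    refine Finset.sum_congr rfl fun μ _ => ?_
    rw [Ts_mul]
  have hterm : ∀ s ∈ range S, ∀ μ ∈ range M,
      Rep S M (Function.update cnt s0 (cnt s0 + 1)) (|β s μ| * (2 * X * (M + 1)))
        (fun r => β s μ * Ts s0 x (eb s μ) r) := by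
    intro s hs μ _
    by_cases hμ : μ < cnt s
    · exact Rep_mul S M _ _ _ _
        (Rep_basis S M cnt x X hx hSX s0 hs0 hM s μ (Finset.mem_range.mp hs) hμ)
    · have hb : β s μ = 0 := hβ0 s μ (by omega)
      have : |β s μ| * (2 * X * (M + 1)) = 0 := by rw [hb]; simp
      rw [this]
      apply a6_zero
      intro r
      rw [hb]; ring
  have hsum : Rep S M (Function.update cnt s0 (cnt s0 + 1))
      (∑ s ∈ range S, ∑ μ ∈ range M, |β s μ| * (2 * X * (M + 1)))
      (fun r => ∑ s ∈ range S, ∑ μ ∈ range M, β s μ * Ts s0 x (eb s μ) r) := by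
    have h1 := Rep_sum (range S) S M (Function.update cnt s0 (cnt s0 + 1))
      (fun s => ∑ μ ∈ range M, |β s μ| * (2 * X * (M + 1)))
      (fun s r => ∑ μ ∈ range M, β s μ * Ts s0 x (eb s μ) r)
      (fun s hs => by
        have h2 := Rep_sum (range M) S M (Function.update cnt s0 (cnt s0 + 1))
          (fun μ => |β s μ| * (2 * X * (M + 1)))
          (fun μ r => β s μ * Ts s0 x (eb s μ) r)
          (fun μ hμ => hterm s hs μ hμ)
        exact h2)
    exact h1
  have hle : ∑ s ∈ range S, ∑ μ ∈ range M, |β s μ| * (2 * X * (M + 1)) ≤ 2 * X * (M + 1) * C := by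
    have : ∑ s ∈ range S, ∑ μ ∈ range M, |β s μ| * (2 * X * (M + 1)) =
        (2 * X * (M + 1)) * ∑ s ∈ range S, ∑ μ ∈ range M, |β s μ| := by
      rw [Finset.mul_sum]
      refine Finset.sum_congr rfl fun s _ => ?_
      rw [Finset.mul_sum]
      refine Finset.sum_congr rfl fun μ _ => ?_
      ring
    rw [this]
    exact mul_le_mul_of_nonneg_left hβC (by positivity)
  have h3 := Rep_mono _ _ _ _ _ _ hsum hle
  have h4 := Rep_add _ _ _ _ _ _ _ hone h3
  have h5 : (fun r => (s0 : ℝ) ^ r + Ts s0 x g r) = (fun r => (s0 : ℝ) ^ r +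
      ∑ s ∈ range S, ∑ μ ∈ range M, β s μ * Ts s0 x (eb s μ) r) := by
    funext r
    rw [hT r]
  rw [h5]
  exact h4
-- END A6

-- BEGIN A7
/-- A7. induction on the list `l` of nodes.  `l = []`: `g = 0`, `|x^r| ≤ (3X)^r`.  `s0 :: l`: `g' = s0^r + T g`,
`x^r - g' = T (x^r - g)` (A1 `Ts_pow`, A2 `Ts_sub`), A2 `Ts_vanish`, `Ts_bound`, A6;
`(s0 :: l).count = update (l.count) s0 (l.count s0 + 1)`; `1 + a (1+a)^n ≤ (1+a)^(n+1)`, `a = 2 X (M+1)`. -/
lemma list_repr (S M : ℕ) (x X : ℝ) (hX : 1 ≤ X) (hx : |x| ≤ X) (hSX : (S : ℝ) ≤ X) (l : List ℕ)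
    (hl : ∀ s ∈ l, s < S) (hc : ∀ s, l.count s ≤ M) :
    ∃ g : ℕ → ℝ, Rep S M (fun s => l.count s) ((1 + 2 * X * (M + 1)) ^ l.length) g ∧
      (∀ r < l.length, x ^ r = g r) ∧ ∀ r, |x ^ r - g r| ≤ (3 * X) ^ r := by
  induction l with
  | nil =>
    refine ⟨fun _ => 0, ⟨fun _ _ => 0, fun _ _ _ => rfl, by simp, by simp⟩, ?_, ?_⟩
    · intro r hr
      simp at hr
    · intro r
      rw [sub_zero, abs_pow]
      refine pow_le_pow_left₀ (abs_nonneg _) ?_ r
      linarith
  | cons s0 l ih =>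
    have hl' : ∀ s ∈ l, s < S := fun s hs => hl s (List.mem_cons_of_mem _ hs)
    have hup : Function.update (fun s => l.count s) s0 (l.count s0 + 1) =
        fun s => (s0 :: l).count s := by
      funext s
      by_cases h : s = s0
      · subst h
        rw [Function.update_self, List.count_cons_self]
      · rw [Function.update_of_ne h, List.count_cons_of_ne (Ne.symm h)]
    have hc' : ∀ s, l.count s ≤ M := fun s => by
      refine le_trans ?_ (hc s)
      rw [List.count_cons]
      exact Nat.le_add_right _ _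
    obtain ⟨g, hg1, hg2, hg3⟩ := ih hl' hc'
    have hs0 : s0 < S := hl s0 List.mem_cons_self
    have hs0X : (s0 : ℝ) ≤ X := by
      have : (s0 : ℝ) ≤ S := by exact_mod_cast hs0.le
      linarith
    have hs00 : (0 : ℝ) ≤ s0 := Nat.cast_nonneg _
    have key : ∀ r, x ^ r - ((s0 : ℝ) ^ r + Ts s0 x g r) =
        Ts s0 x (fun r => x ^ r - g r) r := by
      intro r
      rw [Ts_sub, Ts_pow]
      ring
    refine ⟨fun r => (s0 : ℝ) ^ r + Ts s0 x g r, ?_, ?_, ?_⟩
    · have h1 := Rep_step S M (fun s => l.count s) _ x X hx hSX s0 hs0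
        (by rw [hup]; exact hc) g hg1
      rw [hup] at h1
      refine Rep_mono _ _ _ _ _ _ h1 ?_
      rw [List.length_cons, pow_succ]
      have hM0 : (0 : ℝ) ≤ M := Nat.cast_nonneg _
      have ha : 0 ≤ 2 * X * (M + 1 : ℝ) := by positivity
      have h2 : 1 ≤ (1 + 2 * X * (M + 1 : ℝ)) ^ l.length := one_le_pow₀ (by linarith)
      nlinarith
    · intro r hr
      have h1 := Ts_vanish s0 x (fun r => x ^ r - g r) l.length
        (fun r hr => by rw [hg2 r hr, sub_self]) r (by simpa using hr)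
      have h2 := key r
      rw [h1] at h2
      linarith
    · intro r
      rw [key r]
      refine Ts_bound s0 x X hx ?_ _ hg3 r
      rw [abs_of_nonneg hs00]
      exact hs0X
-- END A7

-- BEGIN A8
private def a8_l (S m : ℕ) : List ℕ := (List.range S).flatMap (fun s => List.replicate m s)

private lemma a8_succ (S m : ℕ) : a8_l (S + 1) m = a8_l S m ++ List.replicate m S := by
  unfold a8_l
  rw [List.range_succ, List.flatMap_append]
  simp

private lemma a8_len (S m : ℕ) : (a8_l S m).length = m * S := by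
  induction S with
  | zero => simp [a8_l]
  | succ S ih =>
    rw [a8_succ, List.length_append, ih, List.length_replicate]
    ring

private lemma a8_mem (S m : ℕ) : ∀ s ∈ a8_l S m, s < S := by
  intro s hs
  unfold a8_l at hs
  rw [List.mem_flatMap] at hs
  obtain ⟨a, ha, hb⟩ := hs
  have := List.eq_of_mem_replicate hb
  rw [this]
  exact List.mem_range.1 ha

private lemma a8_count_le (S m s : ℕ) : (a8_l S m).count s ≤ m := by
  induction S with
  | zero => simp [a8_l]
  | succ S ih =>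
    rw [a8_succ, List.count_append]
    by_cases h : s = S
    · subst h
      have h0 : (a8_l s m).count s = 0 := by
        rw [List.count_eq_zero]
        intro hs
        exact lt_irrefl _ (a8_mem s m s hs)
      rw [h0, List.count_replicate_self]
      omega
    · have h0 : (List.replicate m S).count s = 0 := by
        rw [List.count_eq_zero]
        intro hs
        exact h (List.eq_of_mem_replicate hs)
      omega

/-- A8. A7 for the list of all `s < S`, each `m` times (`(List.range S).flatMap (List.replicate m)`, length `m S`,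
`count s = m` for `s < S`); `1 + 2X(m+1) ≤ 4X(m+1)`. -/
lemma seq_repr (S m : ℕ) (x X : ℝ) (hX : 1 ≤ X) (hx : |x| ≤ X) (hSX : (S : ℝ) ≤ X) :
    ∃ β : ℕ → ℕ → ℝ, ∑ s ∈ range S, ∑ μ ∈ range m, |β s μ| ≤ (4 * X * (m + 1)) ^ (m * S) ∧
      (∀ r < m * S, x ^ r = ∑ s ∈ range S, ∑ μ ∈ range m, β s μ * eb s μ r) ∧
      ∀ r, |x ^ r - ∑ s ∈ range S, ∑ μ ∈ range m, β s μ * eb s μ r| ≤ (3 * X) ^ r := by
  obtain ⟨g, ⟨β, _, hβ2, hβ3⟩, hg1, hg2⟩ :=
    list_repr S m x X hX hx hSX (a8_l S m) (a8_mem S m) (a8_count_le S m)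
  rw [a8_len] at hβ3 hg1
  refine ⟨β, hβ3.trans ?_, fun r hr => ?_, fun r => ?_⟩
  · refine pow_le_pow_left₀ (by positivity) ?_ _
    have hm : (0 : ℝ) ≤ m := Nat.cast_nonneg m
    nlinarith
  · rw [hg1 r hr, hβ2 r]
  · rw [← hβ2 r]
    exact hg2 r
-- END A8

-- BEGIN A9
/-- A9. `∑_r e_{s,mu}(r) w^r / r! = w^mu/mu! exp (s w)` (shift `r = mu + k`: `C(mu+k,mu)/(mu+k)! = 1/(mu! k!)`,
the terms `r < mu` vanish). -/
lemma hasSum_eb (s w : ℝ) (μ : ℕ) :
    HasSum (fun r : ℕ => eb s μ r * (w ^ r / r.factorial)) (w ^ μ / μ.factorial * exp (s * w)) := by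
  rw [← hasSum_nat_add_iff' μ]
  have h0 : ∑ i ∈ range μ, eb s μ i * (w ^ i / (i.factorial : ℝ)) = 0 := by
    refine Finset.sum_eq_zero fun i hi => ?_
    rw [Finset.mem_range] at hi
    unfold eb
    rw [Nat.choose_eq_zero_of_lt hi]
    simp
  rw [h0, sub_zero]
  have h1 : HasSum (fun n : ℕ => (s * w) ^ n / (n.factorial : ℝ)) (exp (s * w)) := by
    have := NormedSpace.expSeries_div_hasSum_exp (𝔸 := ℝ) (s * w)
    rw [← Real.exp_eq_exp_ℝ] at this
    exact this
  have h2 := h1.mul_left (w ^ μ / (μ.factorial : ℝ))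
  have h3 : (fun n : ℕ => eb s μ (n + μ) * (w ^ (n + μ) / ((n + μ).factorial : ℝ)))
      = fun n : ℕ => w ^ μ / (μ.factorial : ℝ) * ((s * w) ^ n / (n.factorial : ℝ)) := by
    funext n
    unfold eb
    rw [Nat.add_sub_cancel]
    have h4 : ((n + μ).choose μ : ℝ) * (μ.factorial : ℝ) * (n.factorial : ℝ)
        = ((n + μ).factorial : ℝ) := by
      have := Nat.choose_mul_factorial_mul_factorial (Nat.le_add_left μ n)
      rw [Nat.add_sub_cancel] at this
      exact_mod_cast this
    have h5 : (μ.factorial : ℝ) ≠ 0 := by positivity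
    have h6 : (n.factorial : ℝ) ≠ 0 := by positivity
    have h7 : ((n + μ).factorial : ℝ) ≠ 0 := by positivity
    rw [mul_div_assoc', div_mul_div_comm, div_eq_div_iff h7 (mul_ne_zero h5 h6), ← h4, mul_pow,
      pow_add]
    ring
  rw [h3]
  exact h2

/-- A9. `n! k! ≤ (n+k)!`. -/
lemma tail_le (y : ℝ) (hy : 0 ≤ y) (n : ℕ) (ρ : ℕ → ℝ) (f : ℝ)
    (hsum : HasSum ρ f) (h0 : ∀ r < n, ρ r = 0) (h1 : ∀ r, |ρ r| ≤ y ^ r / r.factorial) :
    |f| ≤ y ^ n / n.factorial * exp y := by
  have h2 : HasSum (fun r => ρ (r + n)) f := by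
    have := (hasSum_nat_add_iff' (f := ρ) n (g := f)).2 hsum
    rwa [Finset.sum_eq_zero (fun i hi => h0 i (Finset.mem_range.1 hi)), sub_zero] at this
  have h3 : HasSum (fun k : ℕ => y ^ k / (k.factorial : ℝ)) (exp y) := by
    have := NormedSpace.expSeries_div_hasSum_exp (𝔸 := ℝ) y
    rw [← Real.exp_eq_exp_ℝ] at this
    exact this
  have h4 := h3.mul_left (y ^ n / (n.factorial : ℝ))
  have h5 : ∀ k, ‖ρ (k + n)‖ ≤ y ^ n / (n.factorial : ℝ) * (y ^ k / (k.factorial : ℝ)) := by
    intro k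
    rw [Real.norm_eq_abs]
    refine (h1 (k + n)).trans ?_
    have h6 : ((n.factorial : ℝ) * (k.factorial : ℝ)) ≤ ((k + n).factorial : ℝ) := by
      have := Nat.le_of_dvd (Nat.factorial_pos (k + n)) (Nat.factorial_mul_factorial_dvd_factorial_add k n)
      rw [mul_comm]
      exact_mod_cast this
    have h7 : 0 < ((n.factorial : ℝ) * (k.factorial : ℝ)) := by positivity
    rw [div_mul_div_comm, ← pow_add, add_comm n k]
    exact div_le_div_of_nonneg_left (pow_nonneg hy _) h7 h6
  have h8 := tsum_of_norm_bounded h4 h5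
  rw [h2.tsum_eq, Real.norm_eq_abs] at h8
  exact h8
-- END A9

-- BEGIN A10
/-- A10. A8, A9 with `α = β / mu!`, `ρ r = (x^r - ∑ β e) w^r/r!`, `y = 3 X |w|`. -/
theorem hermite_exp (S m : ℕ) (x X : ℝ) (hX : 1 ≤ X) (hx : |x| ≤ X) (hSX : (S : ℝ) ≤ X) :
    ∃ α : ℕ → ℕ → ℝ, ∑ s ∈ range S, ∑ μ ∈ range m, |α s μ| ≤ (4 * X * (m + 1)) ^ (m * S) ∧
      ∀ w : ℝ, |exp (x * w) - ∑ s ∈ range S, ∑ μ ∈ range m, α s μ * (w ^ μ * exp (s * w))| ≤
        (3 * X * |w|) ^ (m * S) / (m * S).factorial * exp (3 * X * |w|) := by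
  obtain ⟨β, h1, h2, h3⟩ := seq_repr S m x X hX hx hSX
  have hX0 : 0 ≤ X := by linarith
  refine ⟨fun s μ => β s μ / μ.factorial, ?_, ?_⟩
  · refine le_trans (sum_le_sum (fun s _ => sum_le_sum (fun μ _ => ?_))) h1
    rw [abs_div, Nat.abs_cast]
    exact div_le_self (abs_nonneg _) (by exact_mod_cast Nat.one_le_iff_ne_zero.mpr (Nat.factorial_ne_zero μ))
  · intro w
    have e1 : HasSum (fun r : ℕ => x ^ r * (w ^ r / r.factorial)) (exp (x * w)) := by
      have h : HasSum (fun n : ℕ => (x * w) ^ n / n.factorial) (NormedSpace.exp (x * w)) :=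
        NormedSpace.expSeries_div_hasSum_exp (x * w)
      rw [← Real.exp_eq_exp_ℝ] at h
      have h' : (fun r : ℕ => x ^ r * (w ^ r / r.factorial)) =
          fun n : ℕ => (x * w) ^ n / n.factorial := by
        funext r
        rw [mul_pow, mul_div_assoc]
      rw [h']
      exact h
    have e2 : HasSum (fun r : ℕ => ∑ s ∈ range S, ∑ μ ∈ range m,
        β s μ * (eb s μ r * (w ^ r / r.factorial)))
        (∑ s ∈ range S, ∑ μ ∈ range m, β s μ * (w ^ μ / μ.factorial * exp (s * w))) := by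
      refine hasSum_sum (fun s _ => hasSum_sum (fun μ _ => ?_))
      exact (hasSum_eb s w μ).mul_left _
    have e3 := e1.sub e2
    have e4 : ∑ s ∈ range S, ∑ μ ∈ range m, β s μ / (μ.factorial : ℝ) * (w ^ μ * exp (s * w)) =
        ∑ s ∈ range S, ∑ μ ∈ range m, β s μ * (w ^ μ / μ.factorial * exp (s * w)) := by
      refine sum_congr rfl (fun s _ => sum_congr rfl (fun μ _ => ?_))
      ring
    rw [e4]
    have e5 : ∀ r : ℕ, x ^ r * (w ^ r / r.factorial) - ∑ s ∈ range S, ∑ μ ∈ range m,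
        β s μ * (eb s μ r * (w ^ r / r.factorial)) =
        (x ^ r - ∑ s ∈ range S, ∑ μ ∈ range m, β s μ * eb s μ r) * (w ^ r / r.factorial) := by
      intro r
      rw [sub_mul, sum_mul]
      congr 1
      refine sum_congr rfl (fun s _ => ?_)
      rw [sum_mul]
      refine sum_congr rfl (fun μ _ => ?_)
      ring
    refine tail_le (3 * X * |w|) (by positivity) (m * S) _ _ e3 ?_ ?_
    · intro r hr
      rw [e5, ← h2 r hr, sub_self, zero_mul]
    · intro r
      rw [e5, abs_mul, abs_div, abs_pow, Nat.abs_cast, mul_pow, mul_div_assoc]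
      exact mul_le_mul_of_nonneg_right (h3 r) (by positivity)
-- END A10

end Pool.Agent.Lib.MP_f02ea4_nt.Ml
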