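import Mathlib
import Pool.Agent.Lib.MP_f02ea4_nt.MlA

/-! Many large primes, part B: the auxiliary function of Baker's method for `t + 1` logarithms
`log (A/B), log a_1, ..., log a_t` with `A` prime to `B` and to all `a_i`. -/

set_option autoImplicit false

namespace Pool.Agent.Lib.MP_f02ea4_nt.Ml

open Finset Real

/-- data of Baker's theorem: integers `a_i ≥ 2`, `A > B ≥ 1`, `A` prime to `B` and to all `a_i`, coefficients
`b0 ≠ 0`, `b_i` -/
structure BD (t : ℕ) where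
  a : Fin t → ℕ
  A : ℕ
  B : ℕ
  b0 : ℤ
  b : Fin t → ℤ
  ha : ∀ i, 2 ≤ a i
  hB : 1 ≤ B
  hBA : B < A
  hAB : Nat.Coprime A B
  hAa : ∀ i, Nat.Coprime A (a i)
  hb0 : b0 ≠ 0

/-- index set of the box: `l = (l_0, (l_1, ..., l_t))`, `l_0 < L0`, `l_i < L` -/
abbrev Ix (t L0 L : ℕ) := Fin L0 × (Fin t → Fin L)

section
variable {t L0 L : ℕ}

/-- `z_i = b0 l_i + b_i l_0` -/
def BD.z (D : BD t) (l : Ix t L0 L) (i : Fin t) : ℤ :=
  D.b0 * ((l.2 i : ℕ) : ℤ) + D.b i * ((l.1 : ℕ) : ℤ)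

/-- `w = (1/b0) ∑ z_i log a_i` -/
noncomputable def BD.w (D : BD t) (l : Ix t L0 L) : ℝ :=
  (∑ i, (D.z l i : ℝ) * log (D.a i)) / D.b0

/-- `B^(s L0) ∏ a_i^(s l_i) (A/B)^(s l_0)` -/
def BD.val (D : BD t) (s : ℕ) (l : Ix t L0 L) : ℕ :=
  (∏ i, D.a i ^ (s * (l.2 i : ℕ))) * D.A ^ (s * (l.1 : ℕ)) * D.B ^ (s * (L0 - (l.1 : ℕ)))

/-- `∏ z_i^(k_i)` -/
def BD.mon (D : BD t) (k : Fin t → ℕ) (l : Ix t L0 L) : ℤ := ∏ i, D.z l i ^ k i

/-- the integers `Phi_k(s) = B^(s L0) f_k(s)` -/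
def BD.Phi (D : BD t) (c : Ix t L0 L → ℤ) (k : Fin t → ℕ) (s : ℕ) : ℤ :=
  ∑ l, c l * D.mon k l * (D.val s l : ℤ)

/-- the entire function `F_k(x) = ∑ c_l z^k exp (x w_l)` -/
noncomputable def BD.F (D : BD t) (c : Ix t L0 L → ℤ) (k : Fin t → ℕ) (x : ℝ) : ℝ :=
  ∑ l, (c l : ℝ) * (D.mon k l : ℝ) * exp (x * D.w l)

/-- the linear form `b0 log (A/B) - ∑ b_i log a_i` -/
noncomputable def BD.lam (D : BD t) : ℝ :=
  D.b0 * (log D.A - log D.B) - ∑ i, (D.b i : ℝ) * log (D.a i)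

/-- bound of the exponents: `L0 log A + t L E + 1` -/
noncomputable def BD.Om (D : BD t) (E : ℝ) (L0 L : ℕ) : ℝ := L0 * log D.A + t * L * E + 1

/-- number of unknowns -/
def NN (t L0 L : ℕ) : ℕ := L0 * L ^ t

-- BEGIN B1
lemma card_Ix (t L0 L : ℕ) : Fintype.card (Ix t L0 L) = NN t L0 L := by
  simp [Ix, NN]

lemma Om_ge_one (D : BD t) (E : ℝ) (hE : 0 ≤ E) (L0 L : ℕ) : 1 ≤ D.Om E L0 L := by
  have h1 : (0 : ℝ) ≤ log D.A := Real.log_natCast_nonneg _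
  have h2 : (0 : ℝ) ≤ (L0 : ℝ) * log D.A := mul_nonneg (Nat.cast_nonneg _) h1
  have h3 : (0 : ℝ) ≤ (t : ℝ) * L * E :=
    mul_nonneg (mul_nonneg (Nat.cast_nonneg _) (Nat.cast_nonneg _)) hE
  unfold BD.Om
  linarith

lemma b1_w (D : BD t) (l : Ix t L0 L) :
    D.w l = ∑ i, ((l.2 i : ℕ) : ℝ) * log (D.a i) + ((l.1 : ℕ) : ℝ) * (log D.A - log D.B)
      - ((l.1 : ℕ) : ℝ) * D.lam / D.b0 := by
  have hb : (D.b0 : ℝ) ≠ 0 := by exact_mod_cast D.hb0
  have h1 : ∑ i, (D.z l i : ℝ) * log (D.a i) =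
      D.b0 * ∑ i, ((l.2 i : ℕ) : ℝ) * log (D.a i) +
        ((l.1 : ℕ) : ℝ) * ∑ i, (D.b i : ℝ) * log (D.a i) := by
    rw [Finset.mul_sum, Finset.mul_sum, ← Finset.sum_add_distrib]
    refine Finset.sum_congr rfl fun i _ => ?_
    unfold BD.z
    push_cast
    ring
  unfold BD.w BD.lam
  rw [h1]
  field_simp
  ring

/-- B1. `log val = s ∑ l_i log a_i + s l_0 log A + s (L0 - l_0) log B` and
`w_l = ∑ l_i log a_i + l_0 (log A - log B) - l_0 lam / b0`. -/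
lemma log_val (D : BD t) (s : ℕ) (l : Ix t L0 L) :
    log (D.val s l : ℝ) =
      s * L0 * log D.B + s * D.w l + s * ((l.1 : ℕ) : ℝ) * D.lam / D.b0 := by
  have hA : (D.A : ℝ) ≠ 0 := by
    have := D.hB; have := D.hBA
    exact_mod_cast (show D.A ≠ 0 by omega)
  have hB : (D.B : ℝ) ≠ 0 := by
    have := D.hB
    exact_mod_cast (show D.B ≠ 0 by omega)
  have ha : ∀ i, (D.a i : ℝ) ≠ 0 := by
    intro i
    have := D.ha i
    exact_mod_cast (show D.a i ≠ 0 by omega)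
  have hl : (l.1 : ℕ) ≤ L0 := le_of_lt l.1.isLt
  have h1 : log (D.val s l : ℝ) = s * ∑ i, ((l.2 i : ℕ) : ℝ) * log (D.a i) +
      s * ((l.1 : ℕ) : ℝ) * log D.A + s * ((L0 : ℝ) - ((l.1 : ℕ) : ℝ)) * log D.B := by
    unfold BD.val
    push_cast [Nat.cast_sub hl]
    rw [Real.log_mul (mul_ne_zero (Finset.prod_ne_zero_iff.mpr fun i _ => pow_ne_zero _ (ha i))
        (pow_ne_zero _ hA)) (pow_ne_zero _ hB),
      Real.log_mul (Finset.prod_ne_zero_iff.mpr fun i _ => pow_ne_zero _ (ha i))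
        (pow_ne_zero _ hA), Real.log_prod (fun i _ => pow_ne_zero _ (ha i)), Real.log_pow,
      Real.log_pow, Finset.mul_sum]
    have h2 : ∑ i, log ((D.a i : ℝ) ^ (s * (l.2 i : ℕ))) =
        ∑ i, (s : ℝ) * (((l.2 i : ℕ) : ℝ) * log (D.a i)) := by
      refine Finset.sum_congr rfl fun i _ => ?_
      rw [Real.log_pow]
      push_cast
      ring
    rw [h2]
    push_cast [Nat.cast_sub hl]
    ring
  rw [h1, b1_w]
  ring

lemma val_pos (D : BD t) (s : ℕ) (l : Ix t L0 L) : 0 < D.val s l := by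
  have hA : 0 < D.A := by
    have := D.hB; have := D.hBA
    omega
  have hB : 0 < D.B := by
    have := D.hB
    omega
  unfold BD.val
  refine Nat.mul_pos (Nat.mul_pos (Finset.prod_pos fun i _ => pow_pos ?_ _) (pow_pos hA _))
    (pow_pos hB _)
  have := D.ha i
  omega

/-- B1. exponentiate `log_val`. -/
lemma val_eq (D : BD t) (s : ℕ) (l : Ix t L0 L) :
    (D.val s l : ℝ) = exp (s * L0 * log D.B) * exp (s * D.w l) *
      exp (s * ((l.1 : ℕ) : ℝ) * D.lam / D.b0) := by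
  have h0 : (0 : ℝ) < (D.val s l : ℝ) := by exact_mod_cast val_pos D s l
  rw [← Real.exp_add, ← Real.exp_add, ← log_val D s l, Real.exp_log h0]

/-- B1. `B < A`, `l_i < L`, `l_0 < L0`. -/
lemma val_le (D : BD t) (E : ℝ) (hE : ∀ i, log (D.a i) ≤ E) (s : ℕ) (l : Ix t L0 L) :
    (D.val s l : ℝ) ≤ exp (s * D.Om E L0 L) := by
  have h0 : (0 : ℝ) < (D.val s l : ℝ) := by exact_mod_cast val_pos D s l
  rw [← Real.log_le_iff_le_exp h0, log_val, b1_w]
  have hl : (((l.1 : ℕ) : ℝ)) ≤ L0 := by exact_mod_cast le_of_lt l.1.isLt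
  have hl0 : (0 : ℝ) ≤ ((l.1 : ℕ) : ℝ) := Nat.cast_nonneg _
  have hB1 : (1 : ℝ) ≤ D.B := by exact_mod_cast D.hB
  have hBA : log (D.B : ℝ) ≤ log (D.A : ℝ) := by
    apply Real.log_le_log (by linarith)
    exact_mod_cast le_of_lt D.hBA
  have hA0 : (0 : ℝ) ≤ log (D.A : ℝ) := Real.log_natCast_nonneg _
  have h1 : ∑ i, ((l.2 i : ℕ) : ℝ) * log (D.a i) ≤ t * L * E := by
    calc ∑ i, ((l.2 i : ℕ) : ℝ) * log (D.a i) ≤ ∑ _i : Fin t, (L : ℝ) * E := by
          refine Finset.sum_le_sum fun i _ => ?_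
          have h3 : (((l.2 i : ℕ) : ℝ)) ≤ L := by exact_mod_cast le_of_lt (l.2 i).isLt
          exact mul_le_mul h3 (hE i) (Real.log_natCast_nonneg _) (Nat.cast_nonneg _)
      _ = t * L * E := by
          rw [Finset.sum_const, Finset.card_univ, Fintype.card_fin, nsmul_eq_mul]
          ring
  have h2 : (L0 : ℝ) * log D.B + ((l.1 : ℕ) : ℝ) * (log D.A - log D.B) ≤ L0 * log D.A := by
    nlinarith
  have e : (s : ℝ) * L0 * log D.B + s * (∑ i, ((l.2 i : ℕ) : ℝ) * log (D.a i) +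
      ((l.1 : ℕ) : ℝ) * (log D.A - log D.B) - ((l.1 : ℕ) : ℝ) * D.lam / D.b0) +
      s * ((l.1 : ℕ) : ℝ) * D.lam / D.b0 =
      s * (L0 * log D.B + ∑ i, ((l.2 i : ℕ) : ℝ) * log (D.a i) +
        ((l.1 : ℕ) : ℝ) * (log D.A - log D.B)) := by ring
  rw [e]
  unfold BD.Om
  exact mul_le_mul_of_nonneg_left (by linarith) (Nat.cast_nonneg _)

/-- B1. `w_l = ∑ l_i log a_i + l_0 (log A - log B) - l_0 lam / b0`, `|b0| ≥ 1`, `0 ≤ log A - log B ≤ log A`. -/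
lemma w_le (D : BD t) (E : ℝ) (hE : ∀ i, log (D.a i) ≤ E) (hlam : L0 * |D.lam| ≤ 1)
    (l : Ix t L0 L) : |D.w l| ≤ D.Om E L0 L := by
  rw [b1_w]
  have hl : (((l.1 : ℕ) : ℝ)) ≤ L0 := by exact_mod_cast le_of_lt l.1.isLt
  have hl0 : (0 : ℝ) ≤ ((l.1 : ℕ) : ℝ) := Nat.cast_nonneg _
  have hB1 : (1 : ℝ) ≤ D.B := by exact_mod_cast D.hB
  have hBA : log (D.B : ℝ) ≤ log (D.A : ℝ) := by
    apply Real.log_le_log (by linarith)
    exact_mod_cast le_of_lt D.hBA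
  have hB0 : (0 : ℝ) ≤ log (D.B : ℝ) := Real.log_natCast_nonneg _
  have hA0 : (0 : ℝ) ≤ log (D.A : ℝ) := Real.log_natCast_nonneg _
  have h1 : ∑ i, ((l.2 i : ℕ) : ℝ) * log (D.a i) ≤ t * L * E := by
    calc ∑ i, ((l.2 i : ℕ) : ℝ) * log (D.a i) ≤ ∑ _i : Fin t, (L : ℝ) * E := by
          refine Finset.sum_le_sum fun i _ => ?_
          have h3 : (((l.2 i : ℕ) : ℝ)) ≤ L := by exact_mod_cast le_of_lt (l.2 i).isLt
          exact mul_le_mul h3 (hE i) (Real.log_natCast_nonneg _) (Nat.cast_nonneg _)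
      _ = t * L * E := by
          rw [Finset.sum_const, Finset.card_univ, Fintype.card_fin, nsmul_eq_mul]
          ring
  have h1' : 0 ≤ ∑ i, ((l.2 i : ℕ) : ℝ) * log (D.a i) :=
    Finset.sum_nonneg fun i _ => mul_nonneg (Nat.cast_nonneg _) (Real.log_natCast_nonneg _)
  have h2 : ((l.1 : ℕ) : ℝ) * (log D.A - log D.B) ≤ L0 * log D.A := by
    refine mul_le_mul hl (by linarith) (by linarith) (Nat.cast_nonneg _)
  have h2' : 0 ≤ ((l.1 : ℕ) : ℝ) * (log D.A - log D.B) := mul_nonneg hl0 (by linarith)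
  have hb1 : (1 : ℝ) ≤ |(D.b0 : ℝ)| := by
    have := Int.one_le_abs D.hb0
    exact_mod_cast this
  have h3 : |((l.1 : ℕ) : ℝ) * D.lam / D.b0| ≤ 1 := by
    rw [abs_div, abs_mul, abs_of_nonneg hl0, div_le_one (by linarith)]
    calc ((l.1 : ℕ) : ℝ) * |D.lam| ≤ L0 * |D.lam| :=
          mul_le_mul_of_nonneg_right hl (abs_nonneg _)
      _ ≤ 1 := hlam
      _ ≤ _ := hb1
  rw [abs_le] at h3
  unfold BD.Om
  rw [abs_le]
  have h4 : 0 ≤ (L0 : ℝ) * log D.A := mul_nonneg (Nat.cast_nonneg _) hA0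
  have h5 : 0 ≤ (t : ℝ) * L * E := h1'.trans h1
  constructor <;> linarith [h3.1, h3.2]
-- END B1

-- BEGIN B2
/-- B2. `|z_i| ≤ Bb (L + L0)`. -/
lemma z_le (D : BD t) (Bb : ℕ) (hb0 : |D.b0| ≤ Bb) (hb : ∀ i, |D.b i| ≤ Bb) (l : Ix t L0 L)
    (i : Fin t) : |(D.z l i : ℝ)| ≤ Bb * (L + L0) := by
  have h0 : (0 : ℤ) ≤ (Bb : ℤ) := Int.natCast_nonneg _
  have h1 : |D.b0 * ((l.2 i : ℕ) : ℤ)| ≤ Bb * L := by
    rw [abs_mul, Nat.abs_cast]
    exact mul_le_mul hb0 (by exact_mod_cast (l.2 i).isLt.le) (by positivity) h0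
  have h2 : |D.b i * ((l.1 : ℕ) : ℤ)| ≤ Bb * L0 := by
    rw [abs_mul, Nat.abs_cast]
    exact mul_le_mul (hb i) (by exact_mod_cast l.1.isLt.le) (by positivity) h0
  have h3 : |D.z l i| ≤ (Bb : ℤ) * (L + L0) := by
    unfold BD.z
    refine le_trans (abs_add_le _ _) ?_
    rw [mul_add]
    exact add_le_add h1 h2
  have h4 : ((|D.z l i| : ℤ) : ℝ) ≤ (((Bb : ℤ) * (L + L0) : ℤ) : ℝ) := by exact_mod_cast h3
  rw [Int.cast_abs] at h4
  push_cast at h4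
  exact h4

/-- B2. `|∏ z_i^(k_i)| ≤ Z^(t K)` for `k_i ≤ K`. -/
lemma mon_le (D : BD t) (Z : ℝ) (hZ1 : 1 ≤ Z) (l : Ix t L0 L) (hZ : ∀ i, |(D.z l i : ℝ)| ≤ Z)
    (K : ℕ) (k : Fin t → ℕ) (hk : ∀ i, k i ≤ K) : |(D.mon k l : ℝ)| ≤ Z ^ (t * K) := by
  unfold BD.mon
  rw [Int.cast_prod, Finset.abs_prod]
  have h1 : ∀ i ∈ (Finset.univ : Finset (Fin t)), |((D.z l i ^ k i : ℤ) : ℝ)| ≤ Z ^ K := by
    intro i _
    rw [Int.cast_pow, abs_pow]
    exact (pow_le_pow_left₀ (abs_nonneg _) (hZ i) _).trans (pow_le_pow_right₀ hZ1 (hk i))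
  refine (Finset.prod_le_prod (fun i _ => abs_nonneg _) h1).trans (le_of_eq ?_)
  rw [Finset.prod_const, Finset.card_univ, Fintype.card_fin, ← pow_mul, mul_comm]

/-- B2. multiplying a monomial by `z_i` -/
lemma mon_succ (D : BD t) (k : Fin t → ℕ) (i : Fin t) (l : Ix t L0 L) :
    D.mon (Function.update k i (k i + 1)) l = D.z l i * D.mon k l := by
  unfold BD.mon
  rw [← Finset.mul_prod_erase Finset.univ
      (fun j => D.z l j ^ Function.update k i (k i + 1) j) (Finset.mem_univ i),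
    ← Finset.mul_prod_erase Finset.univ (fun j => D.z l j ^ k j) (Finset.mem_univ i),
    Function.update_self, pow_succ]
  have h1 : ∏ j ∈ Finset.univ.erase i, D.z l j ^ Function.update k i (k i + 1) j =
      ∏ j ∈ Finset.univ.erase i, D.z l j ^ k j := by
    refine Finset.prod_congr rfl fun j hj => ?_
    rw [Function.update_of_ne (Finset.ne_of_mem_erase hj)]
  rw [h1]
  ring
-- END B2

-- BEGIN B3
/-- B3. the integer `Phi_k(s)` against `F_k(s)`: `val_eq`, `|exp u - 1| ≤ 2 |u|` for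
`u = s l_0 lam / b0`, `|u| ≤ s L0 |lam| ≤ 1`; `exp (s w_l) ≤ exp (s Om)`; `NN` terms. -/
lemma approx (D : BD t) (E : ℝ) (hE0 : 0 ≤ E) (hE : ∀ i, log (D.a i) ≤ E) (Z : ℝ) (hZ1 : 1 ≤ Z)
    (hZ : ∀ (l : Ix t L0 L) i, |(D.z l i : ℝ)| ≤ Z) (Cc : ℝ) (c : Ix t L0 L → ℤ)
    (hc : ∀ l, |(c l : ℝ)| ≤ Cc) (K : ℕ) (k : Fin t → ℕ) (hk : ∀ i, k i ≤ K) (s : ℕ)
    (hlam : L0 * |D.lam| ≤ 1) (hs : s * L0 * |D.lam| ≤ 1) :
    |(D.Phi c k s : ℝ) - exp (s * L0 * log D.B) * D.F c k s| ≤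
      exp (s * L0 * log D.B) * (NN t L0 L * Cc * Z ^ (t * K) * exp (s * D.Om E L0 L) *
        (2 * s * L0 * |D.lam|)) := by
  have hrew : (D.Phi c k s : ℝ) - exp (s * L0 * log D.B) * D.F c k s =
      ∑ l, exp (s * L0 * log D.B) * (((c l : ℝ) * (D.mon k l : ℝ)) * (exp (s * D.w l) *
        (exp (s * ((l.1 : ℕ) : ℝ) * D.lam / D.b0) - 1))) := by
    unfold BD.Phi BD.F
    push_cast
    rw [Finset.mul_sum, ← Finset.sum_sub_distrib]
    refine Finset.sum_congr rfl fun l _ => ?_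
    rw [val_eq]
    ring
  have hb0 : (1 : ℝ) ≤ |(D.b0 : ℝ)| := by
    have := Int.one_le_abs D.hb0
    exact_mod_cast this
  have hterm : ∀ l : Ix t L0 L, |exp (s * L0 * log D.B) * (((c l : ℝ) * (D.mon k l : ℝ)) *
      (exp (s * D.w l) * (exp (s * ((l.1 : ℕ) : ℝ) * D.lam / D.b0) - 1)))| ≤
      exp (s * L0 * log D.B) * ((Cc * Z ^ (t * K)) * (exp (s * D.Om E L0 L) *
        (2 * (s * L0 * |D.lam|)))) := by
    intro l
    have hs0 : (0 : ℝ) ≤ s := Nat.cast_nonneg _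
    have hl0 : (0 : ℝ) ≤ ((l.1 : ℕ) : ℝ) := Nat.cast_nonneg _
    have hlL : ((l.1 : ℕ) : ℝ) ≤ L0 := by exact_mod_cast l.1.2.le
    have hu : |(s : ℝ) * ((l.1 : ℕ) : ℝ) * D.lam / D.b0| ≤ s * L0 * |D.lam| := by
      rw [abs_div, abs_mul, abs_mul, abs_of_nonneg hs0, abs_of_nonneg hl0]
      apply div_le_of_le_mul₀ (abs_nonneg _) (by positivity)
      have e1 : (s : ℝ) * ((l.1 : ℕ) : ℝ) * |D.lam| ≤ s * L0 * |D.lam| := by
        gcongr
      have e2 : 0 ≤ (s : ℝ) * L0 * |D.lam| := by positivity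
      nlinarith
    have hexp := Real.abs_exp_sub_one_le (le_trans hu hs)
    have hw := w_le D E hE hlam l
    have hew : exp (s * D.w l) ≤ exp (s * D.Om E L0 L) := by
      apply exp_le_exp.mpr
      exact mul_le_mul_of_nonneg_left (le_trans (le_abs_self _) hw) hs0
    have hm := mon_le D Z hZ1 l (hZ l) K k hk
    have hCc : 0 ≤ Cc := le_trans (abs_nonneg _) (hc l)
    rw [abs_mul, abs_of_pos (exp_pos _), abs_mul, abs_mul, abs_mul (exp _),
      abs_of_pos (exp_pos ((s : ℝ) * D.w l))]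
    apply mul_le_mul_of_nonneg_left _ (exp_pos _).le
    apply mul_le_mul (mul_le_mul (hc l) hm (abs_nonneg _) hCc) _ (by positivity) (by positivity)
    apply mul_le_mul hew _ (abs_nonneg _) (exp_pos _).le
    linarith
  rw [hrew]
  refine le_trans (Finset.abs_sum_le_sum_abs _ _) ?_
  refine le_trans (Finset.sum_le_sum fun l _ => hterm l) ?_
  rw [Finset.sum_const, Finset.card_univ, card_Ix, nsmul_eq_mul]
  apply le_of_eq
  ring
-- END B3

-- BEGIN B4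
/-- B4. induction on `μ`: `w = (1/b0) ∑ z_i log a_i`, so
`∑ c z^k w^(μ+1) e^(s w) = (1/b0) ∑_i log a_i ∑ c z^(k+e_i) w^μ e^(s w)` (`mon_succ`), `|b0| ≥ 1`,
`0 ≤ log a_i ≤ E`. -/
lemma deriv_fn (D : BD t) (E : ℝ) (hE : ∀ i, log (D.a i) ≤ E) (c : Ix t L0 L → ℤ) (K s : ℕ) (τ : ℝ)
    (hτ : ∀ k : Fin t → ℕ, (∀ i, k i < K) → |D.F c k s| ≤ τ) (μ : ℕ) :
    ∀ k : Fin t → ℕ, (∀ i, k i + μ < K) →
      |∑ l, (c l : ℝ) * (D.mon k l : ℝ) * (D.w l ^ μ * exp (s * D.w l))| ≤ (t * E) ^ μ * τ := by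
  induction μ with
  | zero =>
    intro k hk
    have := hτ k (by simpa using hk)
    simpa [BD.F] using this
  | succ μ ih =>
    intro k hk
    have hb : (1 : ℝ) ≤ |(D.b0 : ℝ)| := by
      have h1 : (1 : ℤ) ≤ |D.b0| := Int.one_le_abs D.hb0
      have h2 : ((1 : ℤ) : ℝ) ≤ ((|D.b0| : ℤ) : ℝ) := by exact_mod_cast h1
      simpa using h2
    set T : Fin t → ℝ := fun i =>
      ∑ l : Ix t L0 L, (c l : ℝ) * (D.mon (Function.update k i (k i + 1)) l : ℝ) *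
        (D.w l ^ μ * exp (s * D.w l)) with hT
    have key : ∑ l : Ix t L0 L, (c l : ℝ) * (D.mon k l : ℝ) * (D.w l ^ (μ + 1) * exp (s * D.w l)) =
        (∑ i, log (D.a i) * T i) / D.b0 := by
      have e1 : ∀ l : Ix t L0 L, (c l : ℝ) * (D.mon k l : ℝ) *
          (D.w l ^ (μ + 1) * exp (s * D.w l)) =
          ∑ i, log (D.a i) * ((c l : ℝ) * (D.mon (Function.update k i (k i + 1)) l : ℝ) *
            (D.w l ^ μ * exp (s * D.w l))) / D.b0 := by
        intro l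
        have e2 : ∀ i, (D.mon (Function.update k i (k i + 1)) l : ℝ) =
            (D.z l i : ℝ) * (D.mon k l : ℝ) := by
          intro i
          rw [mon_succ]
          push_cast
          ring
        rw [pow_succ]
        have e3 : D.w l = ∑ i, (D.z l i : ℝ) * log (D.a i) / D.b0 := by
          rw [BD.w, Finset.sum_div]
        calc (c l : ℝ) * (D.mon k l : ℝ) * (D.w l ^ μ * D.w l * exp (s * D.w l))
            = ((c l : ℝ) * (D.mon k l : ℝ) * (D.w l ^ μ * exp (s * D.w l))) * D.w l := by ring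
          _ = ((c l : ℝ) * (D.mon k l : ℝ) * (D.w l ^ μ * exp (s * D.w l))) *
                ∑ i, (D.z l i : ℝ) * log (D.a i) / D.b0 := by rw [← e3]
          _ = _ := by
            rw [Finset.mul_sum]
            refine Finset.sum_congr rfl fun i _ => ?_
            rw [e2]
            ring
      rw [Finset.sum_congr rfl fun l _ => e1 l, Finset.sum_comm, Finset.sum_div]
      refine Finset.sum_congr rfl fun i _ => ?_
      rw [hT]
      simp only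
      rw [Finset.mul_sum, Finset.sum_div]
    have hTi : ∀ i, |T i| ≤ (t * E) ^ μ * τ := by
      intro i
      refine ih _ fun j => ?_
      have hj := hk j
      by_cases hji : j = i
      · subst hji
        rw [Function.update_self]
        omega
      · rw [Function.update_of_ne hji]
        omega
    have hlog : ∀ i, 0 ≤ log (D.a i) := fun i => Real.log_natCast_nonneg _
    rw [key, abs_div]
    have h1 : |∑ i, log (D.a i) * T i| ≤ (t * E) ^ (μ + 1) * τ := by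
      calc |∑ i, log (D.a i) * T i| ≤ ∑ i, |log (D.a i) * T i| := Finset.abs_sum_le_sum_abs _ _
        _ ≤ ∑ _i : Fin t, E * ((t * E) ^ μ * τ) := by
          refine Finset.sum_le_sum fun i _ => ?_
          rw [abs_mul, abs_of_nonneg (hlog i)]
          exact mul_le_mul (hE i) (hTi i) (abs_nonneg _) ((hlog i).trans (hE i))
        _ = (t * E) ^ (μ + 1) * τ := by
          rw [Finset.sum_const, Finset.card_univ, Fintype.card_fin, nsmul_eq_mul]
          ring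
    refine (div_le_self (abs_nonneg _) hb).trans h1
-- END B4

-- BEGIN B5
private lemma b5_aux {ι : Type*} [Fintype ι] (c M w : ι → ℝ) (S m : ℕ) (α : ℕ → ℕ → ℝ) (x : ℝ)
    (G H A T : ℝ)
    (h1 : ∀ l, |c l * M l| ≤ G)
    (h2 : ∀ l, |exp (x * w l) - ∑ s ∈ range S, ∑ μ ∈ range m, α s μ * (w l ^ μ * exp (s * w l))| ≤ H)
    (hα : ∑ s ∈ range S, ∑ μ ∈ range m, |α s μ| ≤ A) (hT0 : 0 ≤ T) (hG : 0 ≤ G)
    (hT : ∀ s < S, ∀ μ < m, |∑ l, c l * M l * (w l ^ μ * exp (s * w l))| ≤ T) :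
    |∑ l, c l * M l * exp (x * w l)| ≤ Fintype.card ι * (G * H) + A * T := by
  have hsplit : ∑ l, c l * M l * exp (x * w l) =
      ∑ l, c l * M l * (exp (x * w l) -
        ∑ s ∈ range S, ∑ μ ∈ range m, α s μ * (w l ^ μ * exp (s * w l))) +
      ∑ s ∈ range S, ∑ μ ∈ range m, α s μ * ∑ l, c l * M l * (w l ^ μ * exp (s * w l)) := by
    have e1 : ∑ s ∈ range S, ∑ μ ∈ range m, α s μ * ∑ l, c l * M l * (w l ^ μ * exp (s * w l)) =
        ∑ l, c l * M l * ∑ s ∈ range S, ∑ μ ∈ range m, α s μ * (w l ^ μ * exp (s * w l)) := by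
      have e2 : ∀ l, c l * M l * ∑ s ∈ range S, ∑ μ ∈ range m, α s μ * (w l ^ μ * exp (s * w l)) =
          ∑ s ∈ range S, ∑ μ ∈ range m, α s μ * (c l * M l * (w l ^ μ * exp (s * w l))) := by
        intro l
        rw [Finset.mul_sum]
        refine Finset.sum_congr rfl fun s _ => ?_
        rw [Finset.mul_sum]
        refine Finset.sum_congr rfl fun μ _ => ?_
        ring
      rw [Finset.sum_congr rfl (fun l _ => e2 l)]
      symm
      refine Finset.sum_comm.trans ?_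
      refine Finset.sum_congr rfl fun s _ => ?_
      refine Finset.sum_comm.trans ?_
      refine Finset.sum_congr rfl fun μ _ => ?_
      rw [Finset.mul_sum]
    rw [e1, ← Finset.sum_add_distrib]
    refine Finset.sum_congr rfl fun l _ => ?_
    ring
  rw [hsplit]
  refine (abs_add_le _ _).trans (add_le_add ?_ ?_)
  · refine (Finset.abs_sum_le_sum_abs _ _).trans ?_
    have : ∀ l ∈ (Finset.univ : Finset ι), |c l * M l * (exp (x * w l) -
        ∑ s ∈ range S, ∑ μ ∈ range m, α s μ * (w l ^ μ * exp (s * w l)))| ≤ G * H := by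
      intro l _
      rw [abs_mul]
      exact mul_le_mul (h1 l) (h2 l) (abs_nonneg _) hG
    refine (Finset.sum_le_sum this).trans ?_
    rw [Finset.sum_const, nsmul_eq_mul, Finset.card_univ]
  · refine (Finset.abs_sum_le_sum_abs _ _).trans ?_
    have : ∀ s ∈ range S, |∑ μ ∈ range m, α s μ * ∑ l, c l * M l * (w l ^ μ * exp (s * w l))| ≤
        (∑ μ ∈ range m, |α s μ|) * T := by
      intro s hs
      refine (Finset.abs_sum_le_sum_abs _ _).trans ?_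
      rw [Finset.sum_mul]
      refine Finset.sum_le_sum fun μ hμ => ?_
      rw [abs_mul]
      exact mul_le_mul_of_nonneg_left (hT s (Finset.mem_range.mp hs) μ (Finset.mem_range.mp hμ))
        (abs_nonneg _)
    refine (Finset.sum_le_sum this).trans ?_
    rw [← Finset.sum_mul]
    exact mul_le_mul_of_nonneg_right hα hT0

/-- B5. A10 (`hermite_exp`, `X`, nodes `s < S`, multiplicity `m`) applied to `x = x`, summed with the weights
`c_l z^k`; B4 for the main terms: `(t E)^μ ≤ (t E + 1)^m` for `μ < m`. -/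
lemma F_bound (D : BD t) (E : ℝ) (hE0 : 0 ≤ E) (hE : ∀ i, log (D.a i) ≤ E) (Z : ℝ) (hZ1 : 1 ≤ Z)
    (hZ : ∀ (l : Ix t L0 L) i, |(D.z l i : ℝ)| ≤ Z) (Cc : ℝ) (c : Ix t L0 L → ℤ)
    (hc : ∀ l, |(c l : ℝ)| ≤ Cc) (K K' m S : ℕ) (hK : K' + m ≤ K) (τ : ℝ) (hτ0 : 0 ≤ τ)
    (hτ : ∀ s < S, ∀ k : Fin t → ℕ, (∀ i, k i < K) → |D.F c k s| ≤ τ)
    (hlam : L0 * |D.lam| ≤ 1) (x X : ℝ) (hX : 1 ≤ X) (hx : |x| ≤ X) (hSX : (S : ℝ) ≤ X)
    (k : Fin t → ℕ) (hk : ∀ i, k i < K') :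
    |D.F c k x| ≤ NN t L0 L * Cc * Z ^ (t * K) *
        ((3 * X * D.Om E L0 L) ^ (m * S) / (m * S).factorial * exp (3 * X * D.Om E L0 L)) +
      (4 * X * (m + 1)) ^ (m * S) * ((t * E + 1) ^ m * τ) := by
  classical
  rcases isEmpty_or_nonempty (Ix t L0 L) with hemp | hne
  · have h0 : D.F c k x = 0 := by
      unfold BD.F
      exact Finset.sum_eq_zero fun l _ => (hemp.false l).elim
    rw [h0, abs_zero]
    have hN : NN t L0 L = 0 := by
      rw [← card_Ix t L0 L]; exact Fintype.card_eq_zero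
    rw [hN]
    have : 0 ≤ (4 * X * ((m : ℝ) + 1)) ^ (m * S) * ((t * E + 1) ^ m * τ) := by positivity
    simpa using this
  obtain ⟨l0⟩ := hne
  have hCc : 0 ≤ Cc := (abs_nonneg _).trans (hc l0)
  obtain ⟨α, hα, hαw⟩ := hermite_exp S m x X hX hx hSX
  have hOm : 1 ≤ D.Om E L0 L := Om_ge_one D E hE0 L0 L
  have key := b5_aux (fun l => (c l : ℝ)) (fun l => (D.mon k l : ℝ)) (fun l => D.w l) S m α x
    (Cc * Z ^ (t * K))
    ((3 * X * D.Om E L0 L) ^ (m * S) / (m * S).factorial * exp (3 * X * D.Om E L0 L))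
    ((4 * X * (m + 1)) ^ (m * S)) ((t * E + 1) ^ m * τ) ?_ ?_ hα (by positivity) (by positivity) ?_
  · rw [card_Ix] at key
    unfold BD.F
    refine key.trans (le_of_eq ?_)
    ring
  · intro l
    rw [abs_mul]
    exact mul_le_mul (hc l) (mon_le D Z hZ1 l (hZ l) K k
      (fun i => by have := hk i; omega)) (abs_nonneg _) hCc
  · intro l
    refine (hαw (D.w l)).trans ?_
    have hw := w_le D E hE hlam l
    have h1 : 3 * X * |D.w l| ≤ 3 * X * D.Om E L0 L :=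
      mul_le_mul_of_nonneg_left hw (by linarith)
    have h0 : 0 ≤ 3 * X * |D.w l| := by positivity
    have h2 : (3 * X * |D.w l|) ^ (m * S) ≤ (3 * X * D.Om E L0 L) ^ (m * S) :=
      pow_le_pow_left₀ h0 h1 _
    have h3 : exp (3 * X * |D.w l|) ≤ exp (3 * X * D.Om E L0 L) := Real.exp_le_exp.mpr h1
    have h4 : (0 : ℝ) < (m * S).factorial := by exact_mod_cast Nat.factorial_pos _
    exact mul_le_mul (div_le_div_of_nonneg_right h2 h4.le) h3 (Real.exp_pos _).le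
      (div_nonneg (by positivity) h4.le)
  · intro s hs μ hμ
    have h1 := deriv_fn D E hE c K s τ (hτ s hs) μ k (fun i => by have := hk i; omega)
    refine h1.trans ?_
    have htE : 0 ≤ (t : ℝ) * E := by positivity
    have h2 : ((t : ℝ) * E) ^ μ ≤ (t * E + 1) ^ m := by
      calc ((t : ℝ) * E) ^ μ ≤ (t * E + 1) ^ μ := pow_le_pow_left₀ htE (by linarith) _
        _ ≤ (t * E + 1) ^ m := pow_le_pow_right₀ (by linarith) (by omega)
    exact mul_le_mul_of_nonneg_right h2 hτ0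
-- END B5

-- BEGIN B6
/-- B6. `n ≥ 81 y ≥ 81`: `(3y)^n/n! ≤ (3 e y/n)^n ≤ (e/27)^n`, `exp (4 y) ≤ exp (4n/81)`,
total `(exp (2 + 4/81) / 27)^n ≤ 0.288^n ≤ 1/4` (the factor `exp n` is the budget of the coefficients). -/
lemma num_step (n : ℕ) (y : ℝ) (hy : 1 ≤ y) (hn : 81 * y ≤ n) :
    exp n * ((3 * y) ^ n / n.factorial * exp (3 * y)) * exp y ≤ 1 / 4 := by
  have hn0 : (0 : ℝ) ≤ n := Nat.cast_nonneg n
  have hn2 : 2 ≤ n := by
    have h : (2 : ℝ) ≤ n := by linarith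
    exact_mod_cast h
  have hf : (0 : ℝ) < n.factorial := by exact_mod_cast n.factorial_pos
  have h1 : (3 * y) ^ n / n.factorial ≤ exp n / 27 ^ n := by
    have h2 : (3 * y) ^ n ≤ ((n : ℝ) / 27) ^ n :=
      pow_le_pow_left₀ (by linarith) (by linarith) n
    have h3 : (n : ℝ) ^ n / n.factorial ≤ exp n := Real.pow_div_factorial_le_exp _ hn0 n
    calc (3 * y) ^ n / n.factorial ≤ ((n : ℝ) / 27) ^ n / n.factorial :=
          div_le_div_of_nonneg_right h2 hf.le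
      _ = ((n : ℝ) ^ n / n.factorial) / 27 ^ n := by
          rw [div_pow]
          field_simp
      _ ≤ exp n / 27 ^ n := div_le_div_of_nonneg_right h3 (by positivity)
  have h4 : exp (3 * y) * exp y ≤ exp (4 / 81 * n) := by
    rw [← exp_add]
    exact exp_le_exp.2 (by linarith)
  have he : exp ((5 : ℝ) / 2) ≤ 27 / 2 := by
    have h5 : exp ((5 : ℝ) / 2) ^ 2 = exp 1 ^ 5 := by
      rw [← exp_nat_mul, ← exp_nat_mul]
      norm_num
    have h6 : exp 1 ^ 5 ≤ (2.7182818286 : ℝ) ^ 5 :=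
      pow_le_pow_left₀ (exp_pos 1).le (le_of_lt exp_one_lt_d9) 5
    have h7 : exp ((5 : ℝ) / 2) ^ 2 ≤ (27 / 2) ^ 2 := by
      rw [h5]
      refine h6.trans ?_
      norm_num
    exact le_of_sq_le_sq h7 (by norm_num)
  have h8 : exp n * (exp n / 27 ^ n) * exp (4 / 81 * n) ≤ (1 / 2 : ℝ) ^ n := by
    have e1 : exp n * (exp n / 27 ^ n) * exp (4 / 81 * n) = (exp (2 + 4 / 81) / 27) ^ n := by
      rw [div_pow, ← exp_nat_mul]
      have e2 : (n : ℝ) * (2 + 4 / 81) = n + (n + 4 / 81 * n) := by ring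
      rw [e2, exp_add, exp_add]
      ring
    rw [e1]
    refine pow_le_pow_left₀ (by positivity) ?_ n
    have h9 : exp (2 + 4 / 81) ≤ exp ((5 : ℝ) / 2) := exp_le_exp.2 (by norm_num)
    linarith
  calc exp n * ((3 * y) ^ n / n.factorial * exp (3 * y)) * exp y
      = exp n * ((3 * y) ^ n / n.factorial) * (exp (3 * y) * exp y) := by ring
    _ ≤ exp n * (exp n / 27 ^ n) * exp (4 / 81 * n) := by
        refine mul_le_mul (mul_le_mul_of_nonneg_left h1 (exp_pos _).le) h4 (by positivity)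
          (by positivity)
    _ ≤ (1 / 2 : ℝ) ^ n := h8
    _ ≤ (1 / 2 : ℝ) ^ 2 := pow_le_pow_of_le_one (by norm_num) (by norm_num) hn2
    _ = 1 / 4 := by norm_num
-- END B6

-- BEGIN B7
private lemma b7_G (_D : BD t) (Z : ℝ) (hZ1 : 1 ≤ Z) (Cc : ℝ) (c : Ix t L0 L → ℤ)
    (hc : ∀ l, |(c l : ℝ)| ≤ Cc) (K : ℕ) : 0 ≤ NN t L0 L * Cc * Z ^ (t * K) := by
  rcases Nat.eq_zero_or_pos (NN t L0 L) with h | h
  · rw [h]; simp
  · rw [← card_Ix] at h
    obtain ⟨l⟩ := Fintype.card_pos_iff.mp h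
    have hCc : 0 ≤ Cc := le_trans (abs_nonneg _) (hc l)
    positivity

private lemma b7_exp (D : BD t) (E : ℝ) (hE0 : 0 ≤ E) (s S' : ℕ) (hs : s ≤ S') :
    exp (s * L0 * log D.B) ≤ exp (S' * D.Om E L0 L) := by
  apply exp_le_exp.mpr
  have hB : (1 : ℝ) ≤ D.B := by exact_mod_cast D.hB
  have hBA : (D.B : ℝ) ≤ D.A := by exact_mod_cast D.hBA.le
  have hlB : 0 ≤ log (D.B : ℝ) := log_nonneg hB
  have hlA : log (D.B : ℝ) ≤ log (D.A : ℝ) := log_le_log (by linarith) hBA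
  have hs' : (s : ℝ) ≤ S' := by exact_mod_cast hs
  have hL0 : (0 : ℝ) ≤ L0 := Nat.cast_nonneg _
  have hS0 : (0 : ℝ) ≤ s := Nat.cast_nonneg _
  have h1 : (L0 : ℝ) * log D.B ≤ D.Om E L0 L := by
    unfold BD.Om
    have e1 : (L0 : ℝ) * log D.B ≤ L0 * log D.A := mul_le_mul_of_nonneg_left hlA hL0
    have e2 : 0 ≤ (t : ℝ) * L * E := by positivity
    linarith
  have h2 : 0 ≤ (L0 : ℝ) * log D.B := mul_nonneg hL0 hlB
  calc (s : ℝ) * L0 * log D.B = s * (L0 * log D.B) := by ring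
    _ ≤ S' * (L0 * log D.B) := mul_le_mul_of_nonneg_right hs' h2
    _ ≤ S' * D.Om E L0 L := mul_le_mul_of_nonneg_left h1 (by linarith)

/-- B7. THE EXTRAPOLATION STEP.  For `s < S`: `Phi = 0`, so `|F_k(s)| ≤ τ := NN Cc Z^(tK) exp (S Om) 2 S L0 |lam|`
(B3).  B5 with `x = s'`, `X = S'`; B3 at `s'`; `exp (s' L0 log B) ≤ exp (S' Om)` (`B < A`);
`|Phi_k(s')| ≤ 1/4 + 1/4 + 1/4 < 1` (first term: B6 with `n = m S`, `y = S' Om`, budget `NN Cc Z^(tK) ≤ exp (m S)`;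
the other two by `hΛ`: `(4 S' (m+1))^(m S) ≥ 1`, `(tE+1)^m ≥ 1`). -/
lemma step (D : BD t) (E : ℝ) (hE0 : 0 ≤ E) (hE : ∀ i, log (D.a i) ≤ E) (Z : ℝ) (hZ1 : 1 ≤ Z)
    (hZ : ∀ (l : Ix t L0 L) i, |(D.z l i : ℝ)| ≤ Z) (Cc : ℝ) (c : Ix t L0 L → ℤ)
    (hc : ∀ l, |(c l : ℝ)| ≤ Cc) (K K' m S S' : ℕ) (hK : K' + m ≤ K) (hm : 1 ≤ m) (hS : 1 ≤ S)
    (hSS : S ≤ S') (hmS : 81 * (S' * D.Om E L0 L) ≤ m * S)
    (hC : NN t L0 L * Cc * Z ^ (t * K) ≤ exp (m * S))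
    (hL1 : L0 * |D.lam| ≤ 1) (hL2 : S' * L0 * |D.lam| ≤ 1)
    (hΛ : (4 * S' * (m + 1) : ℝ) ^ (m * S) * (t * E + 1) ^ m *
      (NN t L0 L * Cc * Z ^ (t * K)) * exp (2 * S' * D.Om E L0 L) *
        (2 * S' * L0 * |D.lam|) ≤ 1 / 4)
    (h : ∀ s < S, ∀ k : Fin t → ℕ, (∀ i, k i < K) → D.Phi c k s = 0) :
    ∀ s < S', ∀ k : Fin t → ℕ, (∀ i, k i < K') → D.Phi c k s = 0 := by
  have hG := b7_G D Z hZ1 Cc c hc K
  have hΩ1 : 1 ≤ D.Om E L0 L := Om_ge_one D E hE0 L0 L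
  set G : ℝ := NN t L0 L * Cc * Z ^ (t * K) with hGdef
  set Ω : ℝ := D.Om E L0 L with hΩdef
  set δ : ℝ := |D.lam| with hδdef
  have hδ0 : 0 ≤ δ := abs_nonneg _
  have hL0 : (0 : ℝ) ≤ L0 := Nat.cast_nonneg _
  have hSR : (1 : ℝ) ≤ S := by exact_mod_cast hS
  have hSSR : (S : ℝ) ≤ S' := by exact_mod_cast hSS
  have hS'R : (1 : ℝ) ≤ S' := by linarith
  have htE : (1 : ℝ) ≤ t * E + 1 := by
    have : (0 : ℝ) ≤ t * E := by positivity
    linarith
  have hmul : ∀ s : ℕ, s ≤ S' → s * L0 * δ ≤ S' * L0 * δ := by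
    intro s hs
    have : (s : ℝ) ≤ S' := by exact_mod_cast hs
    have h0 : 0 ≤ (L0 : ℝ) * δ := mul_nonneg hL0 hδ0
    nlinarith
  -- the small values
  set τ : ℝ := G * exp (S * Ω) * (2 * S * L0 * δ) with hτdef
  have hτ0 : 0 ≤ τ := by positivity
  have hτ : ∀ s < S, ∀ k : Fin t → ℕ, (∀ i, k i < K) → |D.F c k s| ≤ τ := by
    intro s hs k hk
    have hsS : (s : ℝ) ≤ S := by exact_mod_cast hs.le
    have h1 := approx D E hE0 hE Z hZ1 hZ Cc c hc K k (fun i => (hk i).le) s hL1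
      (le_trans (hmul s (le_trans hs.le hSS)) hL2)
    rw [h s hs k hk, Int.cast_zero, zero_sub, abs_neg, abs_mul, abs_of_pos (exp_pos _)] at h1
    have h2 := le_of_mul_le_mul_left h1 (exp_pos _)
    refine le_trans h2 ?_
    have e1 : exp (s * Ω) ≤ exp (S * Ω) := by
      apply exp_le_exp.mpr
      exact mul_le_mul_of_nonneg_right hsS (by linarith)
    have e2 : 2 * (s : ℝ) * L0 * δ ≤ 2 * S * L0 * δ := by
      have h0 : 0 ≤ (L0 : ℝ) * δ := mul_nonneg hL0 hδ0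
      nlinarith
    calc G * exp (s * Ω) * (2 * s * L0 * δ) ≤ G * exp (S * Ω) * (2 * s * L0 * δ) := by
          apply mul_le_mul_of_nonneg_right _ (by positivity)
          exact mul_le_mul_of_nonneg_left e1 hG
      _ ≤ G * exp (S * Ω) * (2 * S * L0 * δ) :=
          mul_le_mul_of_nonneg_left e2 (by positivity)
  intro s' hs' k hk
  have hs'R : (s' : ℝ) ≤ S' := by exact_mod_cast hs'.le
  have hs'0 : (0 : ℝ) ≤ s' := Nat.cast_nonneg _
  have hF := F_bound D E hE0 hE Z hZ1 hZ Cc c hc K K' m S hK τ hτ0 hτ hL1 (s' : ℝ) (S' : ℝ) hS'R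
    (by rw [abs_of_nonneg hs'0]; exact hs'R) hSSR k hk
  have hA := approx D E hE0 hE Z hZ1 hZ Cc c hc K k (fun i => by have := hk i; omega) s' hL1
    (le_trans (hmul s' hs'.le) hL2)
  rw [← hGdef, ← hΩdef] at hF
  rw [← hGdef, ← hΩdef, ← hδdef] at hA
  have hexp : exp (s' * L0 * log D.B) ≤ exp (S' * Ω) := b7_exp D E hE0 s' S' hs'.le
  set P : ℝ := (4 * S' * (m + 1) : ℝ) ^ (m * S) with hPdef
  set Q : ℝ := (t * E + 1) ^ m with hQdef
  have hP1 : 1 ≤ P := by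
    apply one_le_pow₀
    have : (0 : ℝ) ≤ m := Nat.cast_nonneg _
    nlinarith
  have hQ1 : 1 ≤ Q := one_le_pow₀ htE
  have hbig : 0 ≤ G * exp (2 * S' * Ω) * (2 * S' * L0 * δ) := by positivity
  have hΛ' : P * Q * (G * exp (2 * S' * Ω) * (2 * S' * L0 * δ)) ≤ 1 / 4 := by
    refine le_trans (le_of_eq ?_) hΛ
    ring
  have hexp2 : exp (2 * S' * Ω) = exp (S' * Ω) * exp (S' * Ω) := by
    rw [← exp_add]; congr 1; ring
  -- first term
  have hT1 : exp (S' * Ω) * (G * ((3 * S' * Ω) ^ (m * S) / (m * S).factorial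
      * exp (3 * S' * Ω))) ≤ 1 / 4 := by
    have hy : 1 ≤ (S' : ℝ) * Ω := by nlinarith
    have h1 := num_step (m * S) (S' * Ω) hy (by push_cast; exact hmS)
    have h2 : G ≤ exp ((m * S : ℕ) : ℝ) := by push_cast; exact hC
    have e3 : 3 * (S' : ℝ) * Ω = 3 * (S' * Ω) := by ring
    rw [e3]
    calc exp (S' * Ω) * (G * ((3 * (S' * Ω)) ^ (m * S) / (m * S).factorial
          * exp (3 * (S' * Ω))))
        = G * ((3 * (S' * Ω)) ^ (m * S) / (m * S).factorial * exp (3 * (S' * Ω)))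
          * exp (S' * Ω) := by ring
      _ ≤ exp ((m * S : ℕ) : ℝ) * ((3 * (S' * Ω)) ^ (m * S) / (m * S).factorial
          * exp (3 * (S' * Ω))) * exp (S' * Ω) := by
          apply mul_le_mul_of_nonneg_right _ (exp_pos _).le
          apply mul_le_mul_of_nonneg_right h2
          positivity
      _ ≤ 1 / 4 := h1
  -- second term
  have hT2 : exp (S' * Ω) * (P * (Q * τ)) ≤ 1 / 4 := by
    have e1 : exp (S * Ω) ≤ exp (S' * Ω) := by
      apply exp_le_exp.mpr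
      exact mul_le_mul_of_nonneg_right hSSR (by linarith)
    have e2 : 2 * (S : ℝ) * L0 * δ ≤ 2 * S' * L0 * δ := by
      have h0 : 0 ≤ (L0 : ℝ) * δ := mul_nonneg hL0 hδ0
      nlinarith
    have e3 : τ ≤ G * exp (S' * Ω) * (2 * S' * L0 * δ) := by
      rw [hτdef]
      apply mul_le_mul _ e2 (by positivity) (by positivity)
      exact mul_le_mul_of_nonneg_left e1 hG
    calc exp (S' * Ω) * (P * (Q * τ)) = P * Q * (exp (S' * Ω) * τ) := by ring
      _ ≤ P * Q * (exp (S' * Ω) * (G * exp (S' * Ω) * (2 * S' * L0 * δ))) := by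
          apply mul_le_mul_of_nonneg_left _ (by positivity)
          exact mul_le_mul_of_nonneg_left e3 (exp_pos _).le
      _ = P * Q * (G * exp (2 * S' * Ω) * (2 * S' * L0 * δ)) := by rw [hexp2]; ring
      _ ≤ 1 / 4 := hΛ'
  -- third term
  have hT3 : exp (S' * Ω) * (G * exp (s' * Ω) * (2 * s' * L0 * δ)) ≤ 1 / 4 := by
    have e1 : exp (s' * Ω) ≤ exp (S' * Ω) := by
      apply exp_le_exp.mpr
      exact mul_le_mul_of_nonneg_right hs'R (by linarith)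
    have e2 : 2 * (s' : ℝ) * L0 * δ ≤ 2 * S' * L0 * δ := by
      have h0 : 0 ≤ (L0 : ℝ) * δ := mul_nonneg hL0 hδ0
      nlinarith
    have e3 : G * exp (s' * Ω) * (2 * s' * L0 * δ) ≤ G * exp (S' * Ω) * (2 * S' * L0 * δ) := by
      apply mul_le_mul _ e2 (by positivity) (by positivity)
      exact mul_le_mul_of_nonneg_left e1 hG
    have e4 : 1 ≤ P * Q := one_le_mul_of_one_le_of_one_le hP1 hQ1
    calc exp (S' * Ω) * (G * exp (s' * Ω) * (2 * s' * L0 * δ))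
        ≤ exp (S' * Ω) * (G * exp (S' * Ω) * (2 * S' * L0 * δ)) :=
          mul_le_mul_of_nonneg_left e3 (exp_pos _).le
      _ = G * exp (2 * S' * Ω) * (2 * S' * L0 * δ) := by rw [hexp2]; ring
      _ ≤ P * Q * (G * exp (2 * S' * Ω) * (2 * S' * L0 * δ)) := le_mul_of_one_le_left hbig e4
      _ ≤ 1 / 4 := hΛ'
  -- conclusion
  set W : ℝ := exp (s' * L0 * log D.B) with hWdef
  have hW0 : 0 < W := exp_pos _
  have hPhi : |(D.Phi c k s' : ℝ)| ≤ 3 / 4 := by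
    have h1 : |(D.Phi c k s' : ℝ)| ≤ |(D.Phi c k s' : ℝ) - W * D.F c k s'| + |W * D.F c k s'| := by
      have := abs_add_le ((D.Phi c k s' : ℝ) - W * D.F c k s') (W * D.F c k s')
      rwa [sub_add_cancel] at this
    have h2 : |W * D.F c k s'| = W * |D.F c k s'| := by
      rw [abs_mul, abs_of_pos hW0]
    have h3 : W * |D.F c k s'| ≤ exp (S' * Ω) * (G * ((3 * S' * Ω) ^ (m * S) / (m * S).factorial
        * exp (3 * S' * Ω)) + P * (Q * τ)) := by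
      apply mul_le_mul hexp hF (abs_nonneg _) (exp_pos _).le
    have h4 : W * (G * exp (s' * Ω) * (2 * s' * L0 * δ))
        ≤ exp (S' * Ω) * (G * exp (s' * Ω) * (2 * s' * L0 * δ)) :=
      mul_le_mul_of_nonneg_right hexp (by positivity)
    rw [mul_add] at h3
    linarith
  by_contra hne
  have h1 : (1 : ℤ) ≤ |D.Phi c k s'| := Int.one_le_abs hne
  have h2 : (1 : ℝ) ≤ |(D.Phi c k s' : ℝ)| := by exact_mod_cast h1
  linarith
-- END B7

-- BEGIN B8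
/-- B8. iteration: `S_j = F^j S0`, `K_j = (2I - j) m`, `j ≤ I`; B7 with `S = F^j S0`, `S' = F^(j+1) S0`
(all quantities in `hΛ` are monotone in `S`, `S'`). -/
lemma iterate (D : BD t) (E : ℝ) (hE0 : 0 ≤ E) (hE : ∀ i, log (D.a i) ≤ E) (Z : ℝ) (hZ1 : 1 ≤ Z)
    (hZ : ∀ (l : Ix t L0 L) i, |(D.z l i : ℝ)| ≤ Z) (Cc : ℝ) (c : Ix t L0 L → ℤ)
    (hc : ∀ l, |(c l : ℝ)| ≤ Cc) (I m S0 F : ℕ) (hI : 1 ≤ I) (hm : 1 ≤ m) (hS0 : 1 ≤ S0) (hF : 1 ≤ F)
    (hmF : 81 * (F * D.Om E L0 L) ≤ m)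
    (hC : NN t L0 L * Cc * Z ^ (t * (2 * I * m)) ≤ exp (m * S0))
    (hL : (F ^ I * S0 : ℕ) * L0 * |D.lam| ≤ 1)
    (hΛ : (4 * (F ^ I * S0 : ℕ) * (m + 1) : ℝ) ^ (m * (F ^ I * S0)) * (t * E + 1) ^ m *
      (NN t L0 L * Cc * Z ^ (t * (2 * I * m))) * exp (2 * (F ^ I * S0 : ℕ) * D.Om E L0 L) *
        (2 * (F ^ I * S0 : ℕ) * L0 * |D.lam|) ≤ 1 / 4)
    (h : ∀ s < S0, ∀ k : Fin t → ℕ, (∀ i, k i < 2 * I * m) → D.Phi c k s = 0) :
    ∀ s < F ^ I * S0, ∀ k : Fin t → ℕ, (∀ i, k i < I * m) → D.Phi c k s = 0 := by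
  have hOm := Om_ge_one (L0 := L0) (L := L) D E hE0
  have hNC : 0 ≤ (NN t L0 L : ℝ) * Cc := by
    rcases isEmpty_or_nonempty (Ix t L0 L) with he | ⟨⟨l⟩⟩
    · have h1 := card_Ix t L0 L
      rw [Fintype.card_eq_zero] at h1
      rw [← h1]
      simp
    · exact mul_nonneg (Nat.cast_nonneg _) ((abs_nonneg _).trans (hc l))
  have hlam0 := abs_nonneg D.lam
  have hmono : ∀ j ≤ I, F ^ j * S0 ≤ F ^ I * S0 := fun j hj =>
    Nat.mul_le_mul_right _ (Nat.pow_le_pow_right hF hj)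
  have hpos : ∀ j, 1 ≤ F ^ j * S0 := fun j => Nat.mul_pos (Nat.pow_pos hF) hS0
  have key : ∀ j ≤ I, ∀ s < F ^ j * S0, ∀ k : Fin t → ℕ, (∀ i, k i < (2 * I - j) * m) →
      D.Phi c k s = 0 := by
    intro j
    induction j with
    | zero =>
      intro _ s hs k hk
      refine h s (by simpa using hs) k fun i => ?_
      simpa using hk i
    | succ j ih =>
      intro hj
      have hj' : j ≤ I := by omega
      have hSj : ((F ^ (j + 1) * S0 : ℕ) : ℝ) = F * ((F ^ j * S0 : ℕ) : ℝ) := by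
        push_cast
        ring
      have hle : F ^ j * S0 ≤ F ^ (j + 1) * S0 :=
        Nat.mul_le_mul_right _ (Nat.pow_le_pow_right hF (Nat.le_succ j))
      have hleR : ((F ^ (j + 1) * S0 : ℕ) : ℝ) ≤ ((F ^ I * S0 : ℕ) : ℝ) := by
        exact_mod_cast hmono (j + 1) hj
      have hleR' : ((F ^ j * S0 : ℕ) : ℝ) ≤ ((F ^ I * S0 : ℕ) : ℝ) := by
        exact_mod_cast hmono j hj'
      have h0R : (0 : ℝ) ≤ ((F ^ j * S0 : ℕ) : ℝ) := Nat.cast_nonneg _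
      have h1R : (1 : ℝ) ≤ ((F ^ (j + 1) * S0 : ℕ) : ℝ) := by exact_mod_cast hpos (j + 1)
      have hK : (2 * I - (j + 1)) * m + m ≤ (2 * I - j) * m := by
        have e : 2 * I - j = (2 * I - (j + 1)) + 1 := by omega
        rw [e, Nat.add_mul, one_mul]
      have hZle : Z ^ (t * ((2 * I - j) * m)) ≤ Z ^ (t * (2 * I * m)) :=
        pow_le_pow_right₀ hZ1 (Nat.mul_le_mul_left _ (Nat.mul_le_mul_right _ (Nat.sub_le _ _)))
      have hZ0 : (0 : ℝ) ≤ Z := by linarith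
      have hNCZ : (NN t L0 L : ℝ) * Cc * Z ^ (t * ((2 * I - j) * m)) ≤
          NN t L0 L * Cc * Z ^ (t * (2 * I * m)) := mul_le_mul_of_nonneg_left hZle hNC
      have hm0 : (0 : ℝ) ≤ m := Nat.cast_nonneg _
      have ht0 : (0 : ℝ) ≤ t := Nat.cast_nonneg _
      have hL00 : (0 : ℝ) ≤ L0 := Nat.cast_nonneg _
      refine step D E hE0 hE Z hZ1 hZ Cc c hc ((2 * I - j) * m) ((2 * I - (j + 1)) * m) m
        (F ^ j * S0) (F ^ (j + 1) * S0) hK hm (hpos j) hle ?_ ?_ ?_ ?_ ?_ (ih hj')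
      · rw [hSj]
        have h2 := mul_le_mul_of_nonneg_right hmF h0R
        linarith
      · refine hNCZ.trans (hC.trans (exp_le_exp.2 ?_))
        have h2 : (S0 : ℝ) ≤ ((F ^ j * S0 : ℕ) : ℝ) := by
          have : 1 * S0 ≤ F ^ j * S0 := Nat.mul_le_mul_right _ (Nat.pow_pos hF)
          rw [one_mul] at this
          exact_mod_cast this
        exact mul_le_mul_of_nonneg_left h2 hm0
      · refine le_trans ?_ hL
        have h2 : (1 : ℝ) ≤ ((F ^ I * S0 : ℕ) : ℝ) := by exact_mod_cast hpos I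
        have h3 : 0 ≤ (L0 : ℝ) * |D.lam| := by positivity
        rw [mul_assoc]
        nlinarith
      · refine le_trans ?_ hL
        exact mul_le_mul_of_nonneg_right (mul_le_mul_of_nonneg_right hleR hL00) hlam0
      · refine le_trans ?_ hΛ
        have hb1 : (1 : ℝ) ≤ 4 * ((F ^ (j + 1) * S0 : ℕ) : ℝ) * (m + 1) := by nlinarith
        have hb2 : 4 * ((F ^ (j + 1) * S0 : ℕ) : ℝ) * (m + 1 : ℝ) ≤
            4 * ((F ^ I * S0 : ℕ) : ℝ) * (m + 1) := by nlinarith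
        have e1 : (4 * ((F ^ (j + 1) * S0 : ℕ) : ℝ) * (m + 1)) ^ (m * (F ^ j * S0)) ≤
            (4 * ((F ^ I * S0 : ℕ) : ℝ) * (m + 1)) ^ (m * (F ^ I * S0)) := by
          refine (pow_le_pow_left₀ (by linarith) hb2 _).trans ?_
          exact pow_le_pow_right₀ (hb1.trans hb2) (Nat.mul_le_mul_left _ (hmono j hj'))
        have e2 : exp (2 * ((F ^ (j + 1) * S0 : ℕ) : ℝ) * D.Om E L0 L) ≤
            exp (2 * ((F ^ I * S0 : ℕ) : ℝ) * D.Om E L0 L) := by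
          refine exp_le_exp.2 ?_
          have h2 : (0 : ℝ) ≤ D.Om E L0 L := by linarith
          nlinarith
        have e3 : 2 * ((F ^ (j + 1) * S0 : ℕ) : ℝ) * L0 * |D.lam| ≤
            2 * ((F ^ I * S0 : ℕ) : ℝ) * L0 * |D.lam| := by
          refine mul_le_mul_of_nonneg_right (mul_le_mul_of_nonneg_right ?_ hL00) hlam0
          linarith
        have p1 : (0 : ℝ) ≤ (t * E + 1) ^ m := by positivity
        have p2 : (0 : ℝ) ≤ (4 * ((F ^ (j + 1) * S0 : ℕ) : ℝ) * (m + 1)) ^ (m * (F ^ j * S0)) := by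
          positivity
        have p3 : (0 : ℝ) ≤ (4 * ((F ^ I * S0 : ℕ) : ℝ) * (m + 1)) ^ (m * (F ^ I * S0)) :=
          p2.trans e1
        have p4 : (0 : ℝ) ≤ NN t L0 L * Cc * Z ^ (t * ((2 * I - j) * m)) := by positivity
        have p5 : (0 : ℝ) ≤ NN t L0 L * Cc * Z ^ (t * (2 * I * m)) := p4.trans hNCZ
        have p6 : (0 : ℝ) ≤ 2 * ((F ^ (j + 1) * S0 : ℕ) : ℝ) * L0 * |D.lam| := by positivity
        have s1 := mul_le_mul_of_nonneg_right e1 p1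
        have s2 := mul_le_mul s1 hNCZ p4 (mul_nonneg p3 p1)
        have s3 := mul_le_mul s2 e2 (exp_pos _).le (mul_nonneg (mul_nonneg p3 p1) p5)
        exact mul_le_mul s3 e3 p6 (mul_nonneg (mul_nonneg (mul_nonneg p3 p1) p5) (exp_pos _).le)
  intro s hs k hk
  refine key I le_rfl s hs k fun i => ?_
  have e : 2 * I - I = I := by omega
  rw [e]
  exact hk i
-- END B8

-- BEGIN B9
/-- B9. Siegel's lemma (`Int.Matrix.exists_ne_zero_int_vec_norm_le`) for the equations `(k, s)`,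
`k ∈ (Fin t → Fin K)`, `s < S0`: `K^t S0` equations in `NN ≥ 2 K^t S0` unknowns with coefficients of absolute value
`≤ Z^(tK) exp (S0 Om)` (B2 `mon_le`, B1 `val_le`); the exponent `m/(n-m)` is `≤ 1`. -/
lemma siegel (D : BD t) (E : ℝ) (hE0 : 0 ≤ E) (hE : ∀ i, log (D.a i) ≤ E) (Z : ℝ) (hZ1 : 1 ≤ Z)
    (hZ : ∀ (l : Ix t L0 L) i, |(D.z l i : ℝ)| ≤ Z) (K S0 : ℕ) (hK : 1 ≤ K) (hS0 : 1 ≤ S0)
    (hN : 2 * (K ^ t * S0) ≤ NN t L0 L) :
    ∃ c : Ix t L0 L → ℤ, c ≠ 0 ∧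
      (∀ s < S0, ∀ k : Fin t → ℕ, (∀ i, k i < K) → D.Phi c k s = 0) ∧
      ∀ l, |(c l : ℝ)| ≤ NN t L0 L * (Z ^ (t * K) * exp (S0 * D.Om E L0 L)) := by
  classical
  have hm0 : 0 < K ^ t * S0 := Nat.mul_pos (Nat.pow_pos hK) hS0
  have hcα : Fintype.card ((Fin t → Fin K) × Fin S0) = K ^ t * S0 := by
    rw [Fintype.card_prod, Fintype.card_fun, Fintype.card_fin, Fintype.card_fin, Fintype.card_fin]
  have hcβ : Fintype.card (Ix t L0 L) = NN t L0 L := card_Ix t L0 L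
  have hOm : 0 ≤ D.Om E L0 L := zero_le_one.trans (Om_ge_one D E hE0 L0 L)
  set M : ℝ := Z ^ (t * K) * exp (S0 * D.Om E L0 L) with hM
  have hZp : 1 ≤ Z ^ (t * K) := one_le_pow₀ hZ1
  have hep : 1 ≤ exp (S0 * D.Om E L0 L) := Real.one_le_exp (by positivity)
  have hM1 : 1 ≤ M := by
    rw [hM]
    nlinarith
  have hM0 : 0 ≤ M := zero_le_one.trans hM1
  let A : Matrix ((Fin t → Fin K) × Fin S0) (Ix t L0 L) ℤ :=
    fun p l => D.mon (fun i => (p.1 i : ℕ)) l * (D.val p.2 l : ℤ)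
  let iN : SeminormedAddCommGroup (Matrix ((Fin t → Fin K) × Fin S0) (Ix t L0 L) ℤ) :=
    Matrix.seminormedAddCommGroup
  have hA : ‖A‖ ≤ M := (Matrix.norm_le_iff (A := A) hM0).2 (fun p l => by
    rw [Int.norm_eq_abs]
    have h1 : |(D.mon (fun i => (p.1 i : ℕ)) l : ℝ)| ≤ Z ^ (t * K) :=
      mon_le D Z hZ1 l (hZ l) K _ fun i => (p.1 i).2.le
    have h2 : (D.val p.2 l : ℝ) ≤ exp (S0 * D.Om E L0 L) := by
      refine (val_le D E hE p.2 l).trans (Real.exp_le_exp.2 ?_)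
      apply mul_le_mul_of_nonneg_right _ hOm
      exact_mod_cast p.2.2.le
    have h3 : ((A p l : ℤ) : ℝ) = (D.mon (fun i => (p.1 i : ℕ)) l : ℝ) * (D.val p.2 l : ℝ) := by
      change (((D.mon (fun i => (p.1 i : ℕ)) l * (D.val p.2 l : ℤ) : ℤ)) : ℝ) = _
      push_cast
      rfl
    rw [h3, abs_mul, Nat.abs_cast]
    exact mul_le_mul h1 h2 (Nat.cast_nonneg _) (zero_le_one.trans hZp))
  obtain ⟨c, hc0, hc1, hc2⟩ := Int.Matrix.exists_ne_zero_int_vec_norm_le A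
    (by rw [hcα, hcβ]; omega) (by rw [hcα]; exact hm0)
  rw [hcα, hcβ] at hc2
  refine ⟨c, hc0, ?_, ?_⟩
  · intro s hs k hk
    have h1 := congrFun hc1 (fun i => ⟨k i, hk i⟩, ⟨s, hs⟩)
    rw [Pi.zero_apply] at h1
    rw [← h1]
    unfold BD.Phi Matrix.mulVec dotProduct
    refine Finset.sum_congr rfl fun l _ => ?_
    change c l * D.mon k l * (D.val s l : ℤ) = (D.mon k l * (D.val s l : ℤ)) * c l
    ring
  · intro l
    have hn1 : (1 : ℝ) ≤ (NN t L0 L : ℝ) := by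
      exact_mod_cast (by omega : 1 ≤ NN t L0 L)
    have hmn : ((K ^ t * S0 : ℕ) : ℝ) * 2 ≤ (NN t L0 L : ℝ) := by
      have : K ^ t * S0 * 2 ≤ NN t L0 L := by omega
      exact_mod_cast this
    have hm1 : (1 : ℝ) ≤ ((K ^ t * S0 : ℕ) : ℝ) := by exact_mod_cast hm0
    have h1 : |(c l : ℝ)| ≤ ‖c‖ := by
      rw [← Int.norm_eq_abs]
      exact norm_le_pi_norm c l
    refine h1.trans (hc2.trans ?_)
    have hbase : (1 : ℝ) ≤ (NN t L0 L : ℝ) * max 1 ‖A‖ := by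
      have h2 : (1 : ℝ) ≤ max 1 ‖A‖ := le_max_left _ _
      nlinarith
    have hexp : ((K ^ t * S0 : ℕ) : ℝ) / ((NN t L0 L : ℝ) - ((K ^ t * S0 : ℕ) : ℝ)) ≤ 1 := by
      rw [div_le_one (by linarith)]
      linarith
    refine (Real.rpow_le_rpow_of_exponent_le hbase hexp).trans ?_
    rw [Real.rpow_one]
    apply mul_le_mul_of_nonneg_left _ (Nat.cast_nonneg _)
    exact max_le hM1 hA
-- END B9

-- BEGIN B10
/-- the polynomial `∏_{a < L, a ≠ u} (X - (b0 a + bi m))` -/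
noncomputable def qpol (L u : ℕ) (b0 bi m : ℤ) : Polynomial ℤ :=
  ∏ a ∈ (range L).erase u, (Polynomial.X - Polynomial.C (b0 * a + bi * m))

/-- B10. `u < L`: degree `L - 1 < L`. -/
lemma qpol_degree (L u : ℕ) (hu : u < L) (b0 bi m : ℤ) : (qpol L u b0 bi m).natDegree < L := by
  unfold qpol
  rw [Polynomial.natDegree_prod_of_monic _ _ (fun a _ => Polynomial.monic_X_sub_C _)]
  simp only [Polynomial.natDegree_X_sub_C, sum_const, smul_eq_mul, mul_one]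
  rw [card_erase_of_mem (mem_range.mpr hu), card_range]
  omega

private lemma b10_eval (L u : ℕ) (b0 bi m x : ℤ) :
    (qpol L u b0 bi m).eval x = ∏ a ∈ (range L).erase u, (x - (b0 * a + bi * m)) := by
  unfold qpol
  rw [Polynomial.eval_prod]
  refine prod_congr rfl (fun a _ => ?_)
  rw [Polynomial.eval_sub, Polynomial.eval_X, Polynomial.eval_C]

/-- B10. vanishing: `v < L`, `v ≠ u`. -/
lemma qpol_zero (L u v : ℕ) (hv : v < L) (huv : v ≠ u) (b0 bi m : ℤ) :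
    (qpol L u b0 bi m).eval (b0 * v + bi * m) = 0 := by
  rw [b10_eval]
  exact prod_eq_zero (mem_erase.mpr ⟨huv, mem_range.mpr hv⟩) (sub_self _)

/-- B10. nonvanishing and size: the value is `∏_{a ≠ u} b0 (u - a)`. -/
lemma qpol_val (L u Bb : ℕ) (hu : u < L) (b0 bi m : ℤ) (hb : b0 ≠ 0) (hb0 : |b0| ≤ Bb) :
    (qpol L u b0 bi m).eval (b0 * u + bi * m) ≠ 0 ∧
      |(qpol L u b0 bi m).eval (b0 * u + bi * m)| ≤ (Bb * L) ^ L := by
  have hBb : (1 : ℤ) ≤ Bb := le_trans (Int.one_le_abs hb) hb0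
  have hL : (1 : ℤ) ≤ L := by exact_mod_cast (Nat.one_le_iff_ne_zero.mpr (by omega) : 1 ≤ L)
  have hBL : (1 : ℤ) ≤ (Bb : ℤ) * L := by nlinarith
  rw [b10_eval]
  constructor
  · rw [prod_ne_zero_iff]
    intro a ha
    have h1 := (mem_erase.mp ha).1
    have h2 : b0 * (u : ℤ) + bi * m - (b0 * a + bi * m) = b0 * ((u : ℤ) - a) := by ring
    rw [h2]
    refine mul_ne_zero hb (sub_ne_zero.mpr ?_)
    exact_mod_cast h1.symm
  · rw [abs_prod]
    have h3 : ∏ a ∈ (range L).erase u, |b0 * (u : ℤ) + bi * m - (b0 * a + bi * m)| ≤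
        ∏ _a ∈ (range L).erase u, ((Bb : ℤ) * L) := by
      refine prod_le_prod (fun _ _ => abs_nonneg _) (fun a ha => ?_)
      have h1 := mem_range.mp (mem_erase.mp ha).2
      have h2 : b0 * (u : ℤ) + bi * m - (b0 * a + bi * m) = b0 * ((u : ℤ) - a) := by ring
      rw [h2, abs_mul]
      refine mul_le_mul hb0 ?_ (abs_nonneg _) (by positivity)
      rw [abs_le]
      constructor <;> omega
    refine h3.trans ?_
    rw [prod_const]
    refine pow_le_pow_right₀ hBL ?_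
    rw [card_erase_of_mem (mem_range.mpr hu), card_range]
    omega

/-- B10. expansion of `∏_i q_i(z_i)` in monomials `z^k`, `k_i < L` (`Polynomial.eval_eq_sum_range'`,
`Finset.prod_univ_sum`), so the combination of the `Phi_k(s)` vanishes. -/
lemma comb_zero (D : BD t) (c : Ix t L0 L → ℤ) (s : ℕ)
    (h : ∀ k : Fin t → ℕ, (∀ i, k i < L) → D.Phi c k s = 0) (q : Fin t → Polynomial ℤ)
    (hq : ∀ i, (q i).natDegree < L) :
    ∑ l, c l * (∏ i, (q i).eval (D.z l i)) * (D.val s l : ℤ) = 0 := by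
  have h1 : ∀ l : Ix t L0 L, ∏ i, (q i).eval (D.z l i) =
      ∑ k ∈ Fintype.piFinset (fun _ : Fin t => range L), (∏ i, (q i).coeff (k i)) * D.mon k l := by
    intro l
    have h2 : ∀ i, (q i).eval (D.z l i) = ∑ j ∈ range L, (q i).coeff j * D.z l i ^ j :=
      fun i => Polynomial.eval_eq_sum_range' (hq i) _
    simp only [h2]
    rw [prod_univ_sum]
    refine sum_congr rfl (fun k _ => ?_)
    rw [prod_mul_distrib]
    rfl
  have h3 : ∑ l, c l * (∏ i, (q i).eval (D.z l i)) * (D.val s l : ℤ) =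
      ∑ k ∈ Fintype.piFinset (fun _ : Fin t => range L), (∏ i, (q i).coeff (k i)) * D.Phi c k s := by
    simp only [h1, BD.Phi, mul_sum, sum_mul]
    rw [sum_comm]
    refine sum_congr rfl (fun k _ => sum_congr rfl (fun l _ => ?_))
    ring
  rw [h3]
  refine sum_eq_zero (fun k hk => ?_)
  rw [h k (fun i => mem_range.mp (Fintype.mem_piFinset.mp hk i)), mul_zero]
-- END B10

-- BEGIN B11
/-- B11. THE FINAL CONGRUENCE.  Let `l*` with `c ≠ 0` and `l*_0 = m` minimal, `q_i = qpol L l*_i b0 b_i m`.  In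
`comb_zero` the terms with `l_0 < m` vanish (`c = 0`), those with `l_0 = m`, `l ≠ l*` vanish (B10 `qpol_zero`), those with
`l_0 > m` are divisible by `A^(s(m+1))`.  So `A^(s(m+1)) ∣ c_* ∏ q_i(z_i(l*)) ∏ a^(s l*) A^(s m) B^(..)` and
`A^s ∣ c_* ∏ q_i(z_i(l*))` (coprimality), a nonzero integer. -/
lemma final_dvd (D : BD t) (Bb : ℕ) (hb0 : |D.b0| ≤ Bb) (c : Ix t L0 L → ℤ) (hc0 : c ≠ 0) (s : ℕ)
    (h : ∀ k : Fin t → ℕ, (∀ i, k i < L) → D.Phi c k s = 0) :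
    ∃ (l : Ix t L0 L) (P : ℤ), c l ≠ 0 ∧ P ≠ 0 ∧ |P| ≤ ((Bb : ℤ) * L) ^ (t * L) ∧
      (D.A : ℤ) ^ s ∣ c l * P := by
  classical
  obtain ⟨l0, hl0⟩ := Function.ne_iff.1 hc0
  obtain ⟨ls, hls, hmin⟩ := Finset.exists_min_image (Finset.univ.filter fun l => c l ≠ 0)
    (fun l : Ix t L0 L => (l.1 : ℕ)) ⟨l0, by simpa using hl0⟩
  rw [Finset.mem_filter] at hls
  have hcs : c ls ≠ 0 := hls.2
  set q : Fin t → Polynomial ℤ := fun i => qpol L (ls.2 i : ℕ) D.b0 (D.b i) ((ls.1 : ℕ) : ℤ)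
    with hq
  have hdeg : ∀ i, (q i).natDegree < L := fun i => qpol_degree L _ (ls.2 i).2 _ _ _
  have hsum := comb_zero D c s h q hdeg
  set P : ℤ := ∏ i, (q i).eval (D.z ls i) with hP
  have hval : ∀ i, (q i).eval (D.z ls i) ≠ 0 ∧ |(q i).eval (D.z ls i)| ≤ ((Bb : ℤ) * L) ^ L :=
    fun i => qpol_val L (ls.2 i : ℕ) Bb (ls.2 i).2 D.b0 (D.b i) ((ls.1 : ℕ) : ℤ) D.hb0 hb0
  have hP0 : P ≠ 0 := Finset.prod_ne_zero_iff.2 fun i _ => (hval i).1
  refine ⟨ls, P, hcs, hP0, ?_, ?_⟩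
  · rw [hP, Finset.abs_prod]
    refine (Finset.prod_le_prod (fun i _ => abs_nonneg _) fun i _ => (hval i).2).trans ?_
    rw [Finset.prod_const, Finset.card_univ, Fintype.card_fin, ← pow_mul, mul_comm L t]
  have hother : ∀ l ∈ Finset.univ.erase ls, (D.A : ℤ) ^ (s * ((ls.1 : ℕ) + 1)) ∣
      c l * (∏ i, (q i).eval (D.z l i)) * (D.val s l : ℤ) := by
    intro l hl
    have hne : l ≠ ls := Finset.ne_of_mem_erase hl
    by_cases hcl : c l = 0
    · rw [hcl, zero_mul, zero_mul]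
      exact dvd_zero _
    have hge : (ls.1 : ℕ) ≤ (l.1 : ℕ) := hmin l (Finset.mem_filter.2 ⟨Finset.mem_univ _, hcl⟩)
    rcases hge.eq_or_lt with heq | hlt
    · have h1 : l.1 = ls.1 := Fin.ext heq.symm
      have h2 : l.2 ≠ ls.2 := fun h2 => hne (Prod.ext h1 h2)
      obtain ⟨i, hi⟩ := Function.ne_iff.1 h2
      have h3 : (q i).eval (D.z l i) = 0 := by
        have h4 := qpol_zero L (ls.2 i : ℕ) (l.2 i : ℕ) (l.2 i).2
          (fun h5 => hi (Fin.ext h5)) D.b0 (D.b i) ((ls.1 : ℕ) : ℤ)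
        rw [BD.z, h1]
        exact h4
      rw [Finset.prod_eq_zero (Finset.mem_univ i) h3, mul_zero, zero_mul]
      exact dvd_zero _
    · have h1 : (D.A : ℤ) ^ (s * ((ls.1 : ℕ) + 1)) ∣ (D.A : ℤ) ^ (s * (l.1 : ℕ)) :=
        pow_dvd_pow _ (Nat.mul_le_mul_left _ hlt)
      have h2 : (D.A : ℤ) ^ (s * (l.1 : ℕ)) ∣ (D.val s l : ℤ) := by
        rw [BD.val]
        push_cast
        exact (dvd_mul_left _ _).mul_right _
      exact (h1.trans h2).trans (Dvd.intro_left _ rfl)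
  have hmain : (D.A : ℤ) ^ (s * ((ls.1 : ℕ) + 1)) ∣ c ls * P * (D.val s ls : ℤ) := by
    rw [← Finset.add_sum_erase _ _ (Finset.mem_univ ls)] at hsum
    have h1 := Finset.dvd_sum hother
    have h2 : c ls * P * (D.val s ls : ℤ) = -∑ l ∈ Finset.univ.erase ls,
        c l * (∏ i, (q i).eval (D.z l i)) * (D.val s l : ℤ) := eq_neg_of_add_eq_zero_left hsum
    rw [h2]
    exact (dvd_neg).2 h1
  have hA0 : (D.A : ℤ) ≠ 0 := by
    have := D.hBA
    have : D.A ≠ 0 := by omega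
    exact_mod_cast this
  set R : ℤ := (∏ i, (D.a i : ℤ) ^ (s * (ls.2 i : ℕ))) * (D.B : ℤ) ^ (s * (L0 - (ls.1 : ℕ)))
    with hR
  have hv : (D.val s ls : ℤ) = (D.A : ℤ) ^ (s * (ls.1 : ℕ)) * R := by
    rw [BD.val, hR]
    push_cast
    ring
  have h3 : (D.A : ℤ) ^ (s * (ls.1 : ℕ)) * (D.A : ℤ) ^ s ∣
      (D.A : ℤ) ^ (s * (ls.1 : ℕ)) * (c ls * P * R) := by
    rw [← pow_add]
    have e : s * (ls.1 : ℕ) + s = s * ((ls.1 : ℕ) + 1) := by ring
    rw [e]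
    have e2 : (D.A : ℤ) ^ (s * (ls.1 : ℕ)) * (c ls * P * R) = c ls * P * (D.val s ls : ℤ) := by
      rw [hv]
      ring
    rw [e2]
    exact hmain
  have h4 : (D.A : ℤ) ^ s ∣ c ls * P * R := (mul_dvd_mul_iff_left (pow_ne_zero _ hA0)).1 h3
  have hcop : IsCoprime ((D.A : ℤ) ^ s) R := by
    refine IsCoprime.pow_left ?_
    rw [hR]
    refine IsCoprime.mul_right ?_ ?_
    · refine IsCoprime.prod_right fun i _ => IsCoprime.pow_right ?_
      exact Nat.isCoprime_iff_coprime.2 (D.hAa i)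
    · exact IsCoprime.pow_right (Nat.isCoprime_iff_coprime.2 D.hAB)
  exact hcop.dvd_of_dvd_mul_right h4

/-- B11. logarithms: `s log A ≤ log Cc + t L log (Bb L)` -/
lemma final_log (D : BD t) (Bb : ℕ) (hb0 : |D.b0| ≤ Bb) (c : Ix t L0 L → ℤ) (hc0 : c ≠ 0) (s : ℕ)
    (h : ∀ k : Fin t → ℕ, (∀ i, k i < L) → D.Phi c k s = 0) (Cc : ℝ)
    (hc : ∀ l, |(c l : ℝ)| ≤ Cc) :
    s * log D.A ≤ log Cc + t * L * log (Bb * L) := by
  obtain ⟨l, P, hcl, hP0, hP, hdvd⟩ := final_dvd D Bb hb0 c hc0 s h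
  have hne : c l * P ≠ 0 := mul_ne_zero hcl hP0
  have h1 : (D.A : ℤ) ^ s ≤ |c l * P| := by
    have h2 := Int.le_of_dvd (abs_pos.2 hne) ((dvd_abs _ _).2 hdvd)
    exact h2
  have h2 : ((D.A : ℝ)) ^ s ≤ |(c l : ℝ)| * |(P : ℝ)| := by
    have h3 : (((D.A : ℤ) ^ s : ℤ) : ℝ) ≤ ((|c l * P| : ℤ) : ℝ) := by exact_mod_cast h1
    rw [← abs_mul]
    push_cast at h3
    exact h3
  have hPR : |(P : ℝ)| ≤ ((Bb : ℝ) * L) ^ (t * L) := by
    have h3 : ((|P| : ℤ) : ℝ) ≤ ((((Bb : ℤ) * L) ^ (t * L) : ℤ) : ℝ) := by exact_mod_cast hP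
    push_cast at h3
    exact h3
  have hP1 : (1 : ℝ) ≤ |(P : ℝ)| := by
    have h3 : ((1 : ℤ) : ℝ) ≤ ((|P| : ℤ) : ℝ) := by exact_mod_cast Int.one_le_abs hP0
    push_cast at h3
    exact h3
  have hc1 : (1 : ℝ) ≤ |(c l : ℝ)| := by
    have h3 : ((1 : ℤ) : ℝ) ≤ ((|c l| : ℤ) : ℝ) := by exact_mod_cast Int.one_le_abs hcl
    push_cast at h3
    exact h3
  have hA0 : (0 : ℝ) < D.A := by
    have := D.hBA
    have : 0 < D.A := by omega
    exact_mod_cast this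
  have hCc : 0 < Cc := by linarith [hc l]
  have hX : 0 < ((Bb : ℝ) * L) ^ (t * L) := by linarith
  have h4 : ((D.A : ℝ)) ^ s ≤ Cc * ((Bb : ℝ) * L) ^ (t * L) :=
    h2.trans (mul_le_mul (hc l) hPR (abs_nonneg _) hCc.le)
  have h5 := Real.log_le_log (pow_pos hA0 s) h4
  rw [Real.log_pow, Real.log_mul hCc.ne' hX.ne', Real.log_pow] at h5
  push_cast at h5
  exact h5
-- END B11

-- BEGIN B12
/-- B12. assembly: `c` from B9 with `K = 2 I m`, `Cc = NN Z^(tK) exp (S0 Om)`, `Z = Bb (L + L0)`; if `lam` were small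
B8 and B11 (`s = F^I S0 - 1`, `L ≤ I m`) contradict `h5`.  Here `NN Cc Z^(tK) ≤ exp (m S0)` is `h3`, and it is also
used to simplify `hΛ` of B8. -/
theorem baker_param (D : BD t) (E : ℝ) (hE0 : 0 ≤ E) (hE : ∀ i, log (D.a i) ≤ E) (Bb : ℕ)
    (hBb : 1 ≤ Bb) (hb0 : |D.b0| ≤ Bb) (hb : ∀ i, |D.b i| ≤ Bb) (I m S0 F : ℕ) (hL0 : 1 ≤ L0)
    (hL : 1 ≤ L) (hI : 1 ≤ I) (hm : 1 ≤ m) (hS0 : 1 ≤ S0) (hF : 1 ≤ F)
    (h1 : 81 * (F * D.Om E L0 L) ≤ m)
    (h2 : 2 * ((2 * I * m) ^ t * S0) ≤ NN t L0 L)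
    (h3 : 2 * log (NN t L0 L) + 2 * (t * (2 * I * m)) * log (Bb * (L + L0)) +
      S0 * D.Om E L0 L ≤ m * S0)
    (h4 : L ≤ I * m)
    (h5 : m * S0 < ((F ^ I * S0 : ℕ) - 1 : ℝ) * log D.A) :
    1 / 4 < (4 * (F ^ I * S0 : ℕ) * (m + 1) : ℝ) ^ (m * (F ^ I * S0)) * (t * E + 1) ^ m *
      exp (m * S0) * exp (2 * (F ^ I * S0 : ℕ) * D.Om E L0 L) *
        (2 * (F ^ I * S0 : ℕ) * L0 * |D.lam|) := by
  by_contra hcon
  rw [not_lt] at hcon
  set S1 : ℕ := F ^ I * S0 with hS1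
  have hS1pos : 1 ≤ S1 := Nat.mul_pos (pow_pos hF I) hS0
  have hS1R : (1 : ℝ) ≤ (S1 : ℝ) := by exact_mod_cast hS1pos
  have hLR : (1 : ℝ) ≤ L := by exact_mod_cast hL
  have hL0R : (1 : ℝ) ≤ L0 := by exact_mod_cast hL0
  have hBR : (1 : ℝ) ≤ Bb := by exact_mod_cast hBb
  set Z : ℝ := (Bb : ℝ) * (L + L0) with hZdef
  have hZ1 : 1 ≤ Z := by
    rw [hZdef]
    nlinarith
  have hZ0 : 0 < Z := by linarith
  have hZ : ∀ (l : Ix t L0 L) i, |(D.z l i : ℝ)| ≤ Z := fun l i => z_le D Bb hb0 hb l i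
  have hNNpos : 0 < NN t L0 L := by
    unfold NN
    exact Nat.mul_pos hL0 (pow_pos hL t)
  have hNNR : (1 : ℝ) ≤ (NN t L0 L : ℝ) := by exact_mod_cast hNNpos
  have hK : 1 ≤ 2 * I * m := by
    have : 0 < 2 * I * m := by positivity
    exact this
  obtain ⟨c, hc0, hPhi, hc⟩ := siegel D E hE0 hE Z hZ1 hZ (2 * I * m) S0 hK hS0 h2
  set Om : ℝ := D.Om E L0 L with hOm
  have hOm1 : 1 ≤ Om := Om_ge_one D E hE0 L0 L
  set Cc : ℝ := (NN t L0 L : ℝ) * (Z ^ (t * (2 * I * m)) * exp (S0 * Om)) with hCc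
  have hCcpos : 0 < Cc := by rw [hCc]; positivity
  have hlogNN : 0 ≤ log (NN t L0 L : ℝ) := log_nonneg hNNR
  have hlogZ : 0 ≤ log Z := log_nonneg hZ1
  have hlogCc : log Cc = log (NN t L0 L : ℝ) + (t * (2 * I * m)) * log Z + S0 * Om := by
    rw [hCc, log_mul (by positivity) (by positivity), log_mul (by positivity) (by positivity),
      log_pow, log_exp]
    push_cast
    ring
  have hCle : (NN t L0 L : ℝ) * Cc * Z ^ (t * (2 * I * m)) ≤ exp (m * S0) := by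
    have hpos : 0 < (NN t L0 L : ℝ) * Cc * Z ^ (t * (2 * I * m)) := by positivity
    rw [← log_le_iff_le_exp hpos, log_mul (by positivity) (by positivity),
      log_mul (by positivity) (by positivity), log_pow, hlogCc]
    push_cast
    linarith
  have htE : 1 ≤ (t : ℝ) * E + 1 := by
    have : 0 ≤ (t : ℝ) * E := mul_nonneg (Nat.cast_nonneg t) hE0
    linarith
  have hmR : (0 : ℝ) ≤ m := Nat.cast_nonneg m
  have hp1 : 1 ≤ (4 * (S1 : ℝ) * (m + 1)) ^ (m * S1) := by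
    apply one_le_pow₀
    nlinarith
  have hp2 : 1 ≤ ((t : ℝ) * E + 1) ^ m := one_le_pow₀ htE
  have hp3 : 1 ≤ exp ((m : ℝ) * S0) := one_le_exp (by positivity)
  have hp4 : 1 ≤ exp (2 * (S1 : ℝ) * Om) := one_le_exp (by positivity)
  have hsm0 : 0 ≤ 2 * (S1 : ℝ) * L0 * |D.lam| := by positivity
  have hsmall : 2 * (S1 : ℝ) * L0 * |D.lam| ≤ 1 / 4 := by
    refine le_trans ?_ hcon
    have hq1 : 1 ≤ (4 * (S1 : ℝ) * (m + 1)) ^ (m * S1) * ((t : ℝ) * E + 1) ^ m :=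
      one_le_mul_of_one_le_of_one_le hp1 hp2
    have hq2 := one_le_mul_of_one_le_of_one_le hq1 hp3
    have hq3 := one_le_mul_of_one_le_of_one_le hq2 hp4
    exact le_mul_of_one_le_left hsm0 hq3
  have hL2 : (S1 : ℝ) * L0 * |D.lam| ≤ 1 := by
    have : 0 ≤ (S1 : ℝ) * L0 * |D.lam| := by positivity
    linarith
  have hΛ : (4 * (S1 : ℝ) * (m + 1)) ^ (m * S1) * (t * E + 1) ^ m *
      (NN t L0 L * Cc * Z ^ (t * (2 * I * m))) * exp (2 * (S1 : ℝ) * Om) *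
        (2 * (S1 : ℝ) * L0 * |D.lam|) ≤ 1 / 4 := by
    refine le_trans ?_ hcon
    apply mul_le_mul_of_nonneg_right _ hsm0
    apply mul_le_mul_of_nonneg_right _ (exp_pos _).le
    apply mul_le_mul_of_nonneg_left hCle
    positivity
  have hfin := iterate D E hE0 hE Z hZ1 hZ Cc c hc I m S0 F hI hm hS0 hF h1 hCle
    hL2 hΛ hPhi
  have hlog := final_log D Bb hb0 c hc0 (S1 - 1) (fun k hk => hfin (S1 - 1) (by omega) k
    (fun i => lt_of_lt_of_le (hk i) h4)) Cc hc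
  have hcast : ((S1 - 1 : ℕ) : ℝ) = (S1 : ℝ) - 1 := by
    rw [Nat.cast_sub hS1pos, Nat.cast_one]
  rw [hcast, hlogCc] at hlog
  have hlogBL : log ((Bb : ℝ) * L) ≤ log Z := by
    apply log_le_log (by positivity)
    rw [hZdef]
    nlinarith
  have hlogBL0 : 0 ≤ log ((Bb : ℝ) * L) := log_nonneg (by nlinarith)
  have h4R : (L : ℝ) ≤ 2 * I * m := by
    have h4' : (L : ℝ) ≤ (I : ℝ) * m := by exact_mod_cast h4
    have : (0 : ℝ) ≤ (I : ℝ) * m := by positivity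
    linarith
  have hlast : (t : ℝ) * L * log ((Bb : ℝ) * L) ≤ (t * (2 * I * m)) * log Z := by
    apply mul_le_mul _ hlogBL hlogBL0 (by positivity)
    exact mul_le_mul_of_nonneg_left h4R (Nat.cast_nonneg t)
  linarith
-- END B12

end

end Pool.Agent.Lib.MP_f02ea4_nt.Ml
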