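import Mathlib
import Pool.Agent.Lib.MP_f02ea4_nt.MlB

/-! Many large primes, part C: choice of the parameters, Baker's theorem with all constants, symmetric form. -/

set_option autoImplicit false

namespace Pool.Agent.Lib.MP_f02ea4_nt.Ml

open Finset Real

/-- `R = 100 t E Y` -/
def pR (t E Y : ℕ) : ℕ := 100 * t * E * Y
/-- `Q = R^4`, `S0 = Q`, `F = Q^2`, `I = 2 t + 4` -/
def pQ (t E Y : ℕ) : ℕ := pR t E Y ^ 4
/-- `L0 = Q^(4t+2)` -/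
def pL0 (t E Y : ℕ) : ℕ := pQ t E Y ^ (4 * t + 2)
/-- `L = floor (L0 h / E)` -/
noncomputable def pL (t E Y : ℕ) (h : ℝ) : ℕ := ⌊(pL0 t E Y : ℝ) * h / E⌋₊
/-- `Om = L0 h + t L E + 1` -/
noncomputable def pOm (t E Y : ℕ) (h : ℝ) : ℝ := (pL0 t E Y : ℝ) * h + t * pL t E Y h * E + 1
/-- `m = ceil (81 F Om)` -/
noncomputable def pm (t E Y : ℕ) (h : ℝ) : ℕ := ⌈81 * ((pQ t E Y : ℝ) ^ 2 * pOm t E Y h)⌉₊

section
variable (t E Y : ℕ) (ht : 1 ≤ t) (hE : 1 ≤ E) (hY : 1 ≤ Y) (h : ℝ) (hh : 1 / 2 ≤ h)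

-- BEGIN C1
include ht hE hY in
lemma pR_ge : 100 ≤ pR t E Y ∧ 100 * t ≤ pR t E Y ∧ 100 * E ≤ pR t E Y ∧ 100 * Y ≤ pR t E Y ∧
    100 * (t * E) ≤ pR t E Y := by
  have h1 : 1 ≤ t * E := Nat.mul_pos ht hE
  have h2 : 1 ≤ t * E * Y := Nat.mul_pos h1 hY
  have h3 : 1 ≤ E * Y := Nat.mul_pos hE hY
  have h4 : 1 ≤ t * Y := Nat.mul_pos ht hY
  have e1 : pR t E Y = 100 * (t * E * Y) := by unfold pR; ring
  rw [e1]
  refine ⟨by omega, ?_, ?_, ?_, ?_⟩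
  · have : t ≤ t * E * Y := by
      rw [mul_assoc]
      exact Nat.le_mul_of_pos_right t h3
    omega
  · have : E ≤ t * E * Y := by
      have e2 : t * E * Y = E * (t * Y) := by ring
      rw [e2]
      exact Nat.le_mul_of_pos_right E h4
    omega
  · have : Y ≤ t * E * Y := Nat.le_mul_of_pos_left Y h1
    omega
  · have : t * E ≤ t * E * Y := Nat.le_mul_of_pos_right _ hY
    omega

include ht hE hY in
/-- C1. `R^3 ≥ 10^6 t^3 E^3`, `Q = R^4 = R R^3`. -/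
lemma pQ_ge : 1000000 * (t ^ 3 * E) * pR t E Y ≤ pQ t E Y ∧ 100000000 ≤ pQ t E Y := by
  obtain ⟨h1, -, -, -, h5⟩ := pR_ge t E Y ht hE hY
  unfold pQ
  constructor
  · have h6 : (100 * (t * E)) ^ 3 ≤ pR t E Y ^ 3 := Nat.pow_le_pow_left h5 3
    have h7 : E ≤ E ^ 3 := Nat.le_self_pow (by norm_num) E
    have h8 : 1000000 * (t ^ 3 * E) ≤ pR t E Y ^ 3 := by
      refine le_trans ?_ h6
      have e1 : (100 * (t * E)) ^ 3 = 1000000 * (t ^ 3 * E ^ 3) := by ring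
      rw [e1]
      exact Nat.mul_le_mul_left _ (Nat.mul_le_mul_left _ h7)
    calc 1000000 * (t ^ 3 * E) * pR t E Y ≤ pR t E Y ^ 3 * pR t E Y := Nat.mul_le_mul_right _ h8
      _ = pR t E Y ^ 4 := by ring
  · calc 100000000 = 100 ^ 4 := by norm_num
      _ ≤ pR t E Y ^ 4 := Nat.pow_le_pow_left h1 4

include ht hE hY in
/-- C1. `log Q = 4 log R ≤ 4 R`. -/
lemma log_pQ : log (pQ t E Y : ℝ) ≤ 4 * pR t E Y := by
  obtain ⟨h1, -, -, -, -⟩ := pR_ge t E Y ht hE hY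
  have h2 : (0 : ℝ) < pR t E Y := by exact_mod_cast (by omega : 0 < pR t E Y)
  unfold pQ
  rw [Nat.cast_pow, log_pow]
  have h3 := log_le_sub_one_of_pos h2
  push_cast
  linarith
-- END C1

-- BEGIN C2
include ht hE hY in
private lemma c2_basic : (1 : ℝ) ≤ t ∧ (1 : ℝ) ≤ E ∧ (100 : ℝ) ≤ pR t E Y ∧
    1000000 * ((t : ℝ) ^ 3 * E) * pR t E Y ≤ pQ t E Y ∧ (100000000 : ℝ) ≤ pQ t E Y ∧
    (pQ t E Y : ℝ) ≤ pL0 t E Y := by
  obtain ⟨h1, _, _, _, _⟩ := pR_ge t E Y ht hE hY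
  obtain ⟨h2, h3⟩ := pQ_ge t E Y ht hE hY
  refine ⟨by exact_mod_cast ht, by exact_mod_cast hE, by exact_mod_cast h1, by exact_mod_cast h2,
    by exact_mod_cast h3, ?_⟩
  have h4 : pQ t E Y ≤ pL0 t E Y := by
    unfold pL0
    calc pQ t E Y = pQ t E Y ^ 1 := (pow_one _).symm
      _ ≤ pQ t E Y ^ (4 * t + 2) := Nat.pow_le_pow_right (by omega) (by omega)
  exact_mod_cast h4

include ht hE hY hh in
/-- C2. `L0 h ≥ Q^2/2 ≥ 2 E`. -/
lemma pL0_h_ge : 2 * (E : ℝ) ≤ (pL0 t E Y : ℝ) * h ∧ 1 ≤ (pL0 t E Y : ℝ) * h := by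
  obtain ⟨ht1, hE1, hR, hQ, hQ1, hL0⟩ := c2_basic t E Y ht hE hY
  have h1 : (pQ t E Y : ℝ) / 2 ≤ (pL0 t E Y : ℝ) * h := by
    have : (pL0 t E Y : ℝ) * (1 / 2) ≤ (pL0 t E Y : ℝ) * h :=
      mul_le_mul_of_nonneg_left hh (Nat.cast_nonneg _)
    linarith
  have h2 : (E : ℝ) ≤ (t : ℝ) ^ 3 * E := by
    have : (1 : ℝ) ≤ (t : ℝ) ^ 3 := one_le_pow₀ ht1
    nlinarith
  have h3 : (E : ℝ) * 100 ≤ ((t : ℝ) ^ 3 * E) * pR t E Y :=
    mul_le_mul h2 hR (by norm_num) (by linarith)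
  constructor
  · nlinarith
  · nlinarith

include ht hE hY hh in
/-- C2. floor: `x/E - 1 < L ≤ x/E`, `x/E ≥ 2`. -/
lemma pL_bounds : 1 ≤ pL t E Y h ∧ (pL t E Y h : ℝ) * E ≤ (pL0 t E Y : ℝ) * h ∧
    (pL0 t E Y : ℝ) * h ≤ 2 * E * pL t E Y h := by
  obtain ⟨h1, h2⟩ := pL0_h_ge t E Y ht hE hY h hh
  have hE0 : (0 : ℝ) < E := by exact_mod_cast hE
  have hx : 2 ≤ (pL0 t E Y : ℝ) * h / E := by
    rw [le_div_iff₀ hE0]; linarith
  have hfl : (pL t E Y h : ℝ) ≤ (pL0 t E Y : ℝ) * h / E := Nat.floor_le (by linarith)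
  have hfl2 : (pL0 t E Y : ℝ) * h / E < (pL t E Y h : ℝ) + 1 := Nat.lt_floor_add_one _
  have hL1 : 1 ≤ pL t E Y h := by
    have : (1 : ℝ) < (pL t E Y h : ℝ) + 0 := by linarith
    have h3 : (1 : ℝ) ≤ (pL t E Y h : ℝ) := by linarith
    exact_mod_cast h3
  have hL1' : (1 : ℝ) ≤ (pL t E Y h : ℝ) := by exact_mod_cast hL1
  refine ⟨hL1, ?_, ?_⟩
  · rwa [le_div_iff₀ hE0] at hfl
  · rw [div_lt_iff₀ hE0] at hfl2
    nlinarith

include ht hE hY hh in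
/-- C2. `Om = x + t L E + 1 ≤ (t + 2) x`, `Om ≥ 1`, `Om ≥ x`. -/
lemma pOm_bounds : 1 ≤ pOm t E Y h ∧ (pL0 t E Y : ℝ) * h ≤ pOm t E Y h ∧
    pOm t E Y h ≤ (t + 2) * ((pL0 t E Y : ℝ) * h) := by
  obtain ⟨h1, h2⟩ := pL0_h_ge t E Y ht hE hY h hh
  obtain ⟨h3, h4, h5⟩ := pL_bounds t E Y ht hE hY h hh
  have hp : 0 ≤ (t : ℝ) * pL t E Y h * E := by positivity
  have hle : (t : ℝ) * pL t E Y h * E ≤ t * ((pL0 t E Y : ℝ) * h) := by
    rw [mul_assoc]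
    exact mul_le_mul_of_nonneg_left h4 (Nat.cast_nonneg _)
  unfold pOm
  refine ⟨by linarith, by linarith, ?_⟩
  nlinarith

include ht hE hY hh in
/-- C2. ceiling: `m ≤ 81 F Om + 1 ≤ 82 F (t+2) x`. -/
lemma pm_bounds : 1 ≤ pm t E Y h ∧ 81 * ((pQ t E Y : ℝ) ^ 2 * pOm t E Y h) ≤ pm t E Y h ∧
    (pm t E Y h : ℝ) ≤ 82 * (pQ t E Y : ℝ) ^ 2 * (t + 2) * ((pL0 t E Y : ℝ) * h) := by
  obtain ⟨ht1, hE1, hR, hQ, hQ1, hL0⟩ := c2_basic t E Y ht hE hY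
  obtain ⟨h1, h2, h3⟩ := pOm_bounds t E Y ht hE hY h hh
  have hQ2 : (1 : ℝ) ≤ (pQ t E Y : ℝ) ^ 2 := one_le_pow₀ (by linarith)
  have hQO : (1 : ℝ) ≤ (pQ t E Y : ℝ) ^ 2 * pOm t E Y h := by nlinarith
  have hc1 : 81 * ((pQ t E Y : ℝ) ^ 2 * pOm t E Y h) ≤ pm t E Y h := Nat.le_ceil _
  have hc2 : (pm t E Y h : ℝ) < 81 * ((pQ t E Y : ℝ) ^ 2 * pOm t E Y h) + 1 :=
    Nat.ceil_lt_add_one (by linarith)
  refine ⟨?_, hc1, ?_⟩
  · have : (1 : ℝ) ≤ (pm t E Y h : ℝ) := by linarith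
    exact_mod_cast this
  · have h4 : (pQ t E Y : ℝ) ^ 2 * pOm t E Y h
        ≤ (pQ t E Y : ℝ) ^ 2 * ((t + 2) * ((pL0 t E Y : ℝ) * h)) :=
      mul_le_mul_of_nonneg_left h3 (by linarith)
    calc (pm t E Y h : ℝ) ≤ 82 * ((pQ t E Y : ℝ) ^ 2 * pOm t E Y h) := by linarith
      _ ≤ 82 * ((pQ t E Y : ℝ) ^ 2 * ((t + 2) * ((pL0 t E Y : ℝ) * h))) := by linarith
      _ = 82 * (pQ t E Y : ℝ) ^ 2 * (t + 2) * ((pL0 t E Y : ℝ) * h) := by ring
-- END C2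

-- BEGIN C3
include ht hE hY hh in
/-- C3. `2 I m ≤ 2 (2t+4) 82 F (t+2) 2 E L ≤ Q F L = Q^3 L` (`328 (2t+4)(t+2) E ≤ 5904 t^2 E ≤ Q`). -/
lemma two_I_m : 2 * (2 * t + 4) * pm t E Y h ≤ pQ t E Y ^ 3 * pL t E Y h := by
  obtain ⟨hR1, _, _, _, _⟩ := pR_ge t E Y ht hE hY
  obtain ⟨hQa, hQb⟩ := pQ_ge t E Y ht hE hY
  have ht1 : (1 : ℝ) ≤ t := by exact_mod_cast ht
  have hE1 : (1 : ℝ) ≤ E := by exact_mod_cast hE
  have hR : (100 : ℝ) ≤ pR t E Y := by exact_mod_cast hR1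
  have hQ : 1000000 * ((t : ℝ) ^ 3 * E) * pR t E Y ≤ pQ t E Y := by exact_mod_cast hQa
  obtain ⟨_, _, h1⟩ := pm_bounds t E Y ht hE hY h hh
  obtain ⟨_, _, h2⟩ := pL_bounds t E Y ht hE hY h hh
  have hQ0 : (0 : ℝ) ≤ pQ t E Y := Nat.cast_nonneg _
  have hL0 : (0 : ℝ) ≤ pL t E Y h := Nat.cast_nonneg _
  -- `5904 t^2 E ≤ Q`
  have h3 : 328 * (2 * (t : ℝ) + 4) * (t + 2) * E ≤ pQ t E Y := by
    have e1 : (2 * (t : ℝ) + 4) * (t + 2) ≤ 18 * (t : ℝ) ^ 3 := by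
      have : (1 : ℝ) ≤ (t : ℝ) ^ 2 := one_le_pow₀ ht1
      nlinarith [mul_nonneg (sub_nonneg.mpr ht1) (sub_nonneg.mpr this)]
    have e2 : (2 * (t : ℝ) + 4) * (t + 2) * E ≤ 18 * (t : ℝ) ^ 3 * E :=
      mul_le_mul_of_nonneg_right e1 (by linarith)
    have e3 : 0 ≤ (t : ℝ) ^ 3 * E := by positivity
    have e4 : ((t : ℝ) ^ 3 * E) * 100 ≤ ((t : ℝ) ^ 3 * E) * pR t E Y :=
      mul_le_mul_of_nonneg_left hR e3
    nlinarith
  have h4 : (2 * (2 * (t : ℝ) + 4) * pm t E Y h) ≤ (pQ t E Y : ℝ) ^ 3 * pL t E Y h := by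
    calc (2 * (2 * (t : ℝ) + 4) * pm t E Y h)
        ≤ 2 * (2 * (t : ℝ) + 4) * (82 * (pQ t E Y : ℝ) ^ 2 * (t + 2) * ((pL0 t E Y : ℝ) * h)) :=
          mul_le_mul_of_nonneg_left h1 (by positivity)
      _ ≤ 2 * (2 * (t : ℝ) + 4) * (82 * (pQ t E Y : ℝ) ^ 2 * (t + 2) * (2 * E * pL t E Y h)) :=
          mul_le_mul_of_nonneg_left (mul_le_mul_of_nonneg_left h2 (by positivity)) (by positivity)
      _ = (328 * (2 * (t : ℝ) + 4) * (t + 2) * E) * ((pQ t E Y : ℝ) ^ 2 * pL t E Y h) := by ring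
      _ ≤ (pQ t E Y : ℝ) * ((pQ t E Y : ℝ) ^ 2 * pL t E Y h) :=
          mul_le_mul_of_nonneg_right h3 (by positivity)
      _ = (pQ t E Y : ℝ) ^ 3 * pL t E Y h := by ring
  exact_mod_cast h4

include ht hE hY hh in
/-- C3. `(2 I m)^t S0 ≤ Q^(3t+1) L^t`, `2 Q^(3t+1) ≤ Q^(4t+2)`. -/
lemma param_h2 : 2 * ((2 * (2 * t + 4) * pm t E Y h) ^ t * pQ t E Y) ≤
    NN t (pL0 t E Y) (pL t E Y h) := by
  have h1 := two_I_m t E Y ht hE hY h hh
  obtain ⟨_, hQb⟩ := pQ_ge t E Y ht hE hY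
  have h2 : (2 * (2 * t + 4) * pm t E Y h) ^ t ≤ (pQ t E Y ^ 3 * pL t E Y h) ^ t :=
    Nat.pow_le_pow_left h1 t
  unfold NN pL0
  calc 2 * ((2 * (2 * t + 4) * pm t E Y h) ^ t * pQ t E Y)
      ≤ pQ t E Y * ((pQ t E Y ^ 3 * pL t E Y h) ^ t * pQ t E Y) :=
        Nat.mul_le_mul (by omega) (Nat.mul_le_mul_right _ h2)
    _ = pQ t E Y ^ (3 * t + 2) * pL t E Y h ^ t := by rw [mul_pow]; ring
    _ ≤ pQ t E Y ^ (4 * t + 2) * pL t E Y h ^ t :=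
        Nat.mul_le_mul_right _ (Nat.pow_le_pow_right (by omega) (by omega))

include ht hE hY hh in
/-- C3. `L ≤ x / E ≤ x ≤ Om ≤ m`. -/
lemma param_h4 : pL t E Y h ≤ (2 * t + 4) * pm t E Y h := by
  have hE1 : (1 : ℝ) ≤ E := by exact_mod_cast hE
  obtain ⟨_, hQb⟩ := pQ_ge t E Y ht hE hY
  have hQ1 : (1 : ℝ) ≤ pQ t E Y := by
    have : 1 ≤ pQ t E Y := by omega
    exact_mod_cast this
  obtain ⟨_, h2, _⟩ := pm_bounds t E Y ht hE hY h hh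
  obtain ⟨h3, h4, _⟩ := pOm_bounds t E Y ht hE hY h hh
  obtain ⟨_, h6, _⟩ := pL_bounds t E Y ht hE hY h hh
  have hL0 : (0 : ℝ) ≤ pL t E Y h := Nat.cast_nonneg _
  have hQ2 : (1 : ℝ) ≤ (pQ t E Y : ℝ) ^ 2 := one_le_pow₀ hQ1
  have h7 : (pL t E Y h : ℝ) ≤ pm t E Y h := by
    have e1 : (pL t E Y h : ℝ) ≤ pL t E Y h * E := by nlinarith
    have e2 : pOm t E Y h ≤ (pQ t E Y : ℝ) ^ 2 * pOm t E Y h := by nlinarith
    nlinarith
  have h8 : pL t E Y h ≤ pm t E Y h := by exact_mod_cast h7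
  calc pL t E Y h ≤ 1 * pm t E Y h := by omega
    _ ≤ (2 * t + 4) * pm t E Y h := Nat.mul_le_mul_right _ (by omega)
-- END C3

-- BEGIN C4
include ht hE hY hh in
/-- C4. `L + L0 ≤ L0 (1 + h)`, `log L0 = (4t+2) log Q ≤ (16 t + 8) R`, `Y ≤ R`. -/
lemma log_Z_le (Bb : ℕ) (hBb : 1 ≤ Bb) (hYB : log (Bb : ℝ) + log (1 + h) ≤ Y) :
    log ((Bb : ℝ) * ((pL t E Y h : ℝ) + pL0 t E Y)) ≤ 25 * t * pR t E Y := by
  obtain ⟨hR1, _, _, hRY, _⟩ := pR_ge t E Y ht hE hY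
  obtain ⟨_, hQb⟩ := pQ_ge t E Y ht hE hY
  have hlogQ := log_pQ t E Y ht hE hY
  have ht1 : (1 : ℝ) ≤ t := by exact_mod_cast ht
  have hE1 : (1 : ℝ) ≤ E := by exact_mod_cast hE
  have hR : (100 : ℝ) ≤ pR t E Y := by exact_mod_cast hR1
  have hRY' : (100 : ℝ) * Y ≤ pR t E Y := by exact_mod_cast hRY
  have hQ0 : (0 : ℝ) < pQ t E Y := by
    have : 0 < pQ t E Y := by omega
    exact_mod_cast this
  obtain ⟨_, h6, _⟩ := pL_bounds t E Y ht hE hY h hh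
  have hL0 : (0 : ℝ) ≤ pL t E Y h := Nat.cast_nonneg _
  have hL00 : (0 : ℝ) < pL0 t E Y := by
    have : 0 < pL0 t E Y := by
      unfold pL0
      exact Nat.pow_pos (by omega)
    exact_mod_cast this
  have hBb0 : (0 : ℝ) < Bb := by
    have : 0 < Bb := by omega
    exact_mod_cast this
  have h1 : (pL t E Y h : ℝ) + pL0 t E Y ≤ pL0 t E Y * (1 + h) := by nlinarith
  have hh1 : 0 < 1 + h := by linarith
  have h2 : log ((Bb : ℝ) * ((pL t E Y h : ℝ) + pL0 t E Y))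
      ≤ log ((Bb : ℝ) * (pL0 t E Y * (1 + h))) := by
    apply log_le_log
    · exact mul_pos hBb0 (by linarith)
    · exact mul_le_mul_of_nonneg_left h1 hBb0.le
  rw [log_mul hBb0.ne' (mul_pos hL00 hh1).ne', log_mul hL00.ne' hh1.ne'] at h2
  have h3 : log (pL0 t E Y : ℝ) ≤ (4 * t + 2) * (4 * pR t E Y) := by
    unfold pL0
    rw [Nat.cast_pow, log_pow]
    push_cast
    exact mul_le_mul_of_nonneg_left hlogQ (by positivity)
  nlinarith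

include ht hE hY hh in
/-- C4. `log NN = log L0 + t log L ≤ (t+1) log (Bb (L + L0))`. -/
lemma log_NN_le (Bb : ℕ) (hBb : 1 ≤ Bb) (hYB : log (Bb : ℝ) + log (1 + h) ≤ Y) :
    log (NN t (pL0 t E Y) (pL t E Y h) : ℝ) ≤ (t + 1) * (25 * t * pR t E Y) := by
  have h0 := log_Z_le t E Y ht hE hY h hh Bb hBb hYB
  obtain ⟨_, hQb⟩ := pQ_ge t E Y ht hE hY
  obtain ⟨h5, h6, _⟩ := pL_bounds t E Y ht hE hY h hh
  have hL1 : (1 : ℝ) ≤ pL t E Y h := by exact_mod_cast h5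
  have hL00 : (1 : ℝ) ≤ pL0 t E Y := by
    have : 1 ≤ pL0 t E Y := by
      unfold pL0
      exact Nat.one_le_pow _ _ (by omega)
    exact_mod_cast this
  have hBb0 : (1 : ℝ) ≤ Bb := by exact_mod_cast hBb
  have e1 : (pL0 t E Y : ℝ) ≤ (Bb : ℝ) * ((pL t E Y h : ℝ) + pL0 t E Y) := by nlinarith
  have e2 : (pL t E Y h : ℝ) ≤ (Bb : ℝ) * ((pL t E Y h : ℝ) + pL0 t E Y) := by nlinarith
  have e3 : log (pL0 t E Y : ℝ) ≤ log ((Bb : ℝ) * ((pL t E Y h : ℝ) + pL0 t E Y)) :=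
    log_le_log (by linarith) e1
  have e4 : log (pL t E Y h : ℝ) ≤ log ((Bb : ℝ) * ((pL t E Y h : ℝ) + pL0 t E Y)) :=
    log_le_log (by linarith) e2
  unfold NN
  rw [Nat.cast_mul, Nat.cast_pow, log_mul (by linarith) (by positivity), log_pow]
  have ht0 : (0 : ℝ) ≤ t := Nat.cast_nonneg t
  have e5 : (t : ℝ) * log (pL t E Y h : ℝ) ≤ t * (25 * t * pR t E Y) :=
    mul_le_mul_of_nonneg_left (e4.trans h0) ht0
  linarith [e3.trans h0]
-- END C4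

-- BEGIN C5
include ht hE hY hh in
/-- C5. hypothesis `h3` of `baker_param`: the three terms are `≤ 100 t^2 R ≤ m Q / 100`, `≤ 4 t I m 25 t R ≤ 600 t^3 R m ≤ Q m/100`,
`Q Om ≤ Q m / 81`. -/
lemma param_h3 (Bb : ℕ) (hBb : 1 ≤ Bb) (hYB : log (Bb : ℝ) + log (1 + h) ≤ Y) :
    2 * log (NN t (pL0 t E Y) (pL t E Y h) : ℝ) +
      2 * (t * (2 * ((2 * t + 4 : ℕ) : ℝ) * pm t E Y h)) *
        log ((Bb : ℝ) * ((pL t E Y h : ℝ) + pL0 t E Y)) +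
      pQ t E Y * pOm t E Y h ≤ pm t E Y h * pQ t E Y := by
  have hQ := (pQ_ge t E Y ht hE hY).1
  have hm := pm_bounds t E Y ht hE hY h hh
  have hOm := pOm_bounds t E Y ht hE hY h hh
  have hZ := log_Z_le t E Y ht hE hY h hh Bb hBb hYB
  have hN := log_NN_le t E Y ht hE hY h hh Bb hBb hYB
  set lN := log (NN t (pL0 t E Y) (pL t E Y h) : ℝ)
  set lZ := log ((Bb : ℝ) * ((pL t E Y h : ℝ) + pL0 t E Y))
  have hQR : 1000000 * ((t : ℝ) ^ 3 * E) * pR t E Y ≤ pQ t E Y := by exact_mod_cast hQ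
  have ht1 : (1 : ℝ) ≤ t := by exact_mod_cast ht
  have hE1 : (1 : ℝ) ≤ E := by exact_mod_cast hE
  have hR1 : (1 : ℝ) ≤ pR t E Y := by
    have h1 := (pR_ge t E Y ht hE hY).1
    have : 1 ≤ pR t E Y := by omega
    exact_mod_cast this
  have hm1 : (1 : ℝ) ≤ pm t E Y h := by exact_mod_cast hm.1
  have hQ1 : (1 : ℝ) ≤ pQ t E Y := by
    have h1 := (pQ_ge t E Y ht hE hY).2
    have : 1 ≤ pQ t E Y := by omega
    exact_mod_cast this
  have h2 := hm.2.1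
  push_cast
  generalize (pQ t E Y : ℝ) = Q at *
  generalize (pR t E Y : ℝ) = R at *
  generalize (pm t E Y h : ℝ) = m at *
  generalize pOm t E Y h = Om at *
  generalize (t : ℝ) = T at *
  generalize (E : ℝ) = e at *
  have hT3 : 1 ≤ T ^ 3 := one_le_pow₀ ht1
  have hT3R : 0 ≤ T ^ 3 * R := by positivity
  have hTR : 1000000 * (T ^ 3 * R) ≤ Q := by
    have h3 : T ^ 3 * R ≤ T ^ 3 * e * R := by nlinarith
    nlinarith
  have hOmm : 81 * (Q * Om) ≤ Q * m := by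
    have h3 : Q ≤ Q ^ 2 * Q := by nlinarith
    have h4 : 0 ≤ Om := by linarith [hOm.1]
    have h5 : 81 * (Q ^ 2 * Om) * Q ≤ m * Q := mul_le_mul_of_nonneg_right h2 (by linarith)
    nlinarith
  have hT1 : 2 * lN ≤ 100 * (T ^ 3 * R) := by
    have h3 : (T + 1) * (25 * T * R) ≤ 2 * T * (25 * T * R) := by
      refine mul_le_mul_of_nonneg_right (by linarith) (by positivity)
    have h4 : T ^ 2 * R ≤ T ^ 3 * R := by
      refine mul_le_mul_of_nonneg_right ?_ (by linarith)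
      nlinarith
    nlinarith
  have hT2 : 2 * (T * (2 * (2 * T + 4) * m)) * lZ ≤ 600 * (T ^ 3 * R) * m := by
    have h3 : 0 ≤ 2 * (T * (2 * (2 * T + 4) * m)) := by positivity
    have h4 := mul_le_mul_of_nonneg_left hZ h3
    have h5 : 2 * (T * (2 * (2 * T + 4) * m)) * (25 * T * R) =
        (2 * T + 4) * (100 * T ^ 2 * R * m) := by ring
    have h6 : (2 * T + 4) * (100 * T ^ 2 * R * m) ≤ 6 * T * (100 * T ^ 2 * R * m) :=
      mul_le_mul_of_nonneg_right (by linarith) (by positivity)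
    have h7 : 6 * T * (100 * T ^ 2 * R * m) = 600 * (T ^ 3 * R) * m := by ring
    linarith
  have h8 : 1000000 * (T ^ 3 * R) * m ≤ Q * m := mul_le_mul_of_nonneg_right hTR (by linarith)
  have h9 : T ^ 3 * R ≤ T ^ 3 * R * m := by nlinarith
  have h10 : 0 ≤ Q * m := by positivity
  nlinarith
-- END C5

-- BEGIN C6
include ht hE hY hh in
/-- C6. `m Q ≤ 82 (t+2) Q^(4t+5) h < Q^(4t+6) h / 2`, `F^I S0 = Q^(4t+9)`, `Q^(4t+9) - 1 ≥ Q^(4t+8)`. -/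
lemma param_h5 : (pm t E Y h : ℝ) * pQ t E Y <
    (((pQ t E Y ^ 2) ^ (2 * t + 4) * pQ t E Y : ℕ) - 1 : ℝ) * h := by
  obtain ⟨hR1, _, _, _, _⟩ := pR_ge t E Y ht hE hY
  obtain ⟨hQa, hQb⟩ := pQ_ge t E Y ht hE hY
  have ht1 : (1 : ℝ) ≤ t := by exact_mod_cast ht
  have hE1 : (1 : ℝ) ≤ E := by exact_mod_cast hE
  have hR : (100 : ℝ) ≤ pR t E Y := by exact_mod_cast hR1
  have hQ : 1000000 * ((t : ℝ) ^ 3 * E) * pR t E Y ≤ pQ t E Y := by exact_mod_cast hQa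
  have hQ1 : (1 : ℝ) ≤ pQ t E Y := by
    have : 1 ≤ pQ t E Y := by omega
    exact_mod_cast this
  obtain ⟨_, _, h1⟩ := pm_bounds t E Y ht hE hY h hh
  have hh0 : 0 < h := by linarith
  -- `247 t < Q`
  have h2 : 82 * ((t : ℝ) + 2) + 1 < pQ t E Y := by
    have e0 : (1 : ℝ) ≤ (t : ℝ) ^ 2 := one_le_pow₀ ht1
    have e1 : (t : ℝ) ≤ (t : ℝ) ^ 3 := by nlinarith
    have e2 : (t : ℝ) ≤ (t : ℝ) ^ 3 * E := by
      have : (t : ℝ) ^ 3 * 1 ≤ (t : ℝ) ^ 3 * E :=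
        mul_le_mul_of_nonneg_left hE1 (by positivity)
      linarith
    have e3 : (t : ℝ) * 100 ≤ ((t : ℝ) ^ 3 * E) * pR t E Y :=
      mul_le_mul e2 hR (by norm_num) (by positivity)
    nlinarith
  set P : ℝ := (pQ t E Y : ℝ) ^ (4 * t + 5) with hP
  have hP1 : 1 ≤ P := one_le_pow₀ hQ1
  have hL0 : (pL0 t E Y : ℝ) = (pQ t E Y : ℝ) ^ (4 * t + 2) := by
    unfold pL0
    rw [Nat.cast_pow]
  have h3 : (pm t E Y h : ℝ) * pQ t E Y ≤ 82 * ((t : ℝ) + 2) * P * h := by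
    calc (pm t E Y h : ℝ) * pQ t E Y
        ≤ (82 * (pQ t E Y : ℝ) ^ 2 * (t + 2) * ((pL0 t E Y : ℝ) * h)) * pQ t E Y :=
          mul_le_mul_of_nonneg_right h1 (by linarith)
      _ = 82 * ((t : ℝ) + 2) * P * h := by
          rw [hL0, hP]; ring
  have h4 : (((pQ t E Y ^ 2) ^ (2 * t + 4) * pQ t E Y : ℕ) : ℝ) = (pQ t E Y : ℝ) ^ 4 * P := by
    rw [hP]
    push_cast
    rw [← pow_mul, ← pow_succ, ← pow_add]
    congr 1
    ring
  rw [h4]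
  refine lt_of_le_of_lt h3 ?_
  apply mul_lt_mul_of_pos_right _ hh0
  have h5 : (pQ t E Y : ℝ) ≤ (pQ t E Y : ℝ) ^ 4 := by
    calc (pQ t E Y : ℝ) = (pQ t E Y : ℝ) ^ 1 := (pow_one _).symm
      _ ≤ (pQ t E Y : ℝ) ^ 4 := pow_le_pow_right₀ hQ1 (by norm_num)
  nlinarith
-- END C6

-- BEGIN C7
include ht hE hY in
private lemma c7_R1 : (100 : ℝ) ≤ pR t E Y := by
  exact_mod_cast (pR_ge t E Y ht hE hY).1

include ht hE hY in
private lemma c7_Q : (1000000 : ℝ) * (t * pR t E Y) ≤ pQ t E Y := by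
  have h1 : 1000000 * (t * pR t E Y) ≤ 1000000 * (t ^ 3 * E) * pR t E Y := by
    have e1 : t ≤ t ^ 3 * E := by
      calc t = t ^ 1 * 1 := by ring
        _ ≤ t ^ 3 * E := Nat.mul_le_mul (Nat.pow_le_pow_right ht (by norm_num)) hE
    calc 1000000 * (t * pR t E Y) = 1000000 * t * pR t E Y := by ring
      _ ≤ 1000000 * (t ^ 3 * E) * pR t E Y := by gcongr
  have h2 := h1.trans (pQ_ge t E Y ht hE hY).1
  exact_mod_cast h2

private lemma c7_cast : (((pQ t E Y ^ 2) ^ (2 * t + 4) * pQ t E Y : ℕ) : ℝ) =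
    (pQ t E Y : ℝ) ^ (4 * t + 9) := by
  push_cast
  rw [← pow_mul, ← pow_succ]
  congr 1
  ring

include ht hE hY hh in
private lemma c7_m : (pm t E Y h : ℝ) ≤ 82 * (t + 2) * ((pQ t E Y : ℝ) ^ (4 * t + 4) * h) := by
  refine (pm_bounds t E Y ht hE hY h hh).2.2.trans (le_of_eq ?_)
  have : (pL0 t E Y : ℝ) = (pQ t E Y : ℝ) ^ (4 * t + 2) := by unfold pL0; push_cast; rfl
  rw [this, show 4 * t + 4 = (4 * t + 2) + 2 by ring, pow_add _ (4 * t + 2) 2]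
  ring

include ht hE hY hh in
/-- C7. `log (4 S' (m+1)) ≤ Q/4` for `S' = F^I S0 = Q^(4t+9)`: `m + 1 ≤ Q^(4t+5) (1 + h)`, so the left side is
`≤ log 4 + (8t+14) log Q + Y ≤ 2 + (8t+14) 4R + R`. -/
lemma log_big : log (4 * (((pQ t E Y ^ 2) ^ (2 * t + 4) * pQ t E Y : ℕ) : ℝ) * (pm t E Y h + 1)) ≤
      pQ t E Y / 4 + log (1 + h) := by
  rw [c7_cast]
  have hR := c7_R1 t E Y ht hE hY
  have hQ := c7_Q t E Y ht hE hY
  have hm := c7_m t E Y ht hE hY h hh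
  have hlQ := log_pQ t E Y ht hE hY
  have ht1 : (1 : ℝ) ≤ t := by exact_mod_cast ht
  obtain ⟨R, hRe⟩ : ∃ R : ℝ, R = pR t E Y := ⟨_, rfl⟩
  obtain ⟨Q, hQe⟩ : ∃ Q : ℝ, Q = pQ t E Y := ⟨_, rfl⟩
  obtain ⟨m, hme⟩ : ∃ m : ℝ, m = pm t E Y h := ⟨_, rfl⟩
  rw [← hRe] at hR hQ hlQ
  rw [← hQe] at hQ hm hlQ
  rw [← hme] at hm
  rw [← hQe, ← hme]
  have hm0 : 0 ≤ m := by rw [hme]; exact Nat.cast_nonneg _
  have htR : 100 ≤ (t : ℝ) * R := by nlinarith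
  have hQ1 : 1 ≤ Q := by nlinarith
  have hQ82 : 82 * ((t : ℝ) + 2) ≤ Q := by nlinarith
  have hp0 : 0 ≤ Q ^ (4 * t + 4) := pow_nonneg (by linarith) _
  have hp1 : 1 ≤ Q ^ (4 * t + 5) := one_le_pow₀ hQ1
  have hm1 : m + 1 ≤ Q ^ (4 * t + 5) * (1 + h) := by
    have e1 : 82 * ((t : ℝ) + 2) * (Q ^ (4 * t + 4) * h) ≤ Q * (Q ^ (4 * t + 4) * h) :=
      mul_le_mul_of_nonneg_right hQ82 (mul_nonneg hp0 (by linarith))
    have e2 : Q * (Q ^ (4 * t + 4) * h) = Q ^ (4 * t + 5) * h := by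
      rw [show 4 * t + 5 = (4 * t + 4) + 1 by ring, pow_succ Q (4 * t + 4)]; ring
    rw [e2] at e1
    linarith
  have h4 : 4 * Q ^ (4 * t + 9) * (m + 1) ≤ 4 * Q ^ (8 * t + 14) * (1 + h) := by
    have e1 : 4 * Q ^ (4 * t + 9) * (m + 1) ≤ 4 * Q ^ (4 * t + 9) * (Q ^ (4 * t + 5) * (1 + h)) :=
      mul_le_mul_of_nonneg_left hm1 (mul_nonneg (by norm_num) (pow_nonneg (by linarith) _))
    have e2 : Q ^ (8 * t + 14) = Q ^ (4 * t + 9) * Q ^ (4 * t + 5) := by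
      rw [← pow_add]; congr 1; ring
    rw [e2]
    refine e1.trans (le_of_eq (by ring))
  have hpos : 0 < 4 * Q ^ (4 * t + 9) * (m + 1) :=
    mul_pos (mul_pos (by norm_num) (pow_pos (by linarith) _)) (by linarith)
  have h5 := Real.log_le_log hpos h4
  have hQpos : 0 < Q := by linarith
  have hrhs : log (4 * Q ^ (8 * t + 14) * (1 + h)) =
      log 4 + ((8 * t + 14 : ℕ) : ℝ) * log Q + log (1 + h) := by
    rw [Real.log_mul (mul_pos (by norm_num) (pow_pos hQpos _)).ne' (by linarith),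
      Real.log_mul (by norm_num) (pow_pos hQpos _).ne', Real.log_pow]
  rw [hrhs] at h5
  have h6 : log (4 : ℝ) ≤ 2 := by
    rw [show (4 : ℝ) = 2 ^ 2 by norm_num, Real.log_pow]
    have := Real.log_two_lt_d9
    push_cast; linarith
  have h7 : ((8 * t + 14 : ℕ) : ℝ) * log Q ≤ (8 * t + 14) * (4 * R) := by
    push_cast
    exact mul_le_mul_of_nonneg_left hlQ (by positivity)
  have h8 : (8 * (t : ℝ) + 14) * (4 * R) ≤ 88 * (t * R) := by nlinarith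
  have h9 : 0 ≤ log (1 + h) := Real.log_nonneg (by linarith)
  linarith

private lemma c7_final (Q t h m Om L1 lt T S' L0 P : ℝ) (ht : 1 ≤ t) (hQt : 1000000 * t ≤ Q)
    (hh : 1 / 2 ≤ h) (hP : 1 ≤ P) (hm0 : 0 ≤ m)
    (hm : m ≤ 82 * (t + 2) * (P * h)) (hS' : S' = P * Q ^ 5) (hL0 : L0 * Q ^ 2 = P)
    (hOm : 81 * (Q ^ 2 * Om) ≤ m) (hOm0 : 0 ≤ Om)
    (hL1 : L1 ≤ Q / 2) (hlt : lt ≤ Q) (hT : T ≤ 2 * S' * L0) :
    log 4 + m * S' * L1 + m * lt + m * Q + 2 * S' * Om + T ≤ h * (P ^ 2 * Q ^ 8) := by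
  have hQ1 : 1000000 ≤ Q := by nlinarith
  have hP0 : 0 < P := by linarith
  have hL00 : 0 ≤ L0 := by
    by_contra hneg
    rw [not_le] at hneg
    have : L0 * Q ^ 2 < 0 := mul_neg_of_neg_of_pos hneg (by positivity)
    linarith
  have hS0 : 0 ≤ S' := by rw [hS']; positivity
  have hh0 : 0 < h := by linarith
  have hlog : log (4 : ℝ) ≤ 2 := by
    rw [show (4 : ℝ) = 2 ^ 2 by norm_num, Real.log_pow]
    have := Real.log_two_lt_d9
    push_cast; linarith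
  -- the unit: U = h P^2 Q^7 
  have hcoef : 82 * (t + 2) ≤ Q / 1000 := by nlinarith
  have hm' : m ≤ Q / 1000 * (P * h) :=
    hm.trans (mul_le_mul_of_nonneg_right hcoef (by positivity))
  obtain ⟨U, hU⟩ : ∃ U : ℝ, U = h * (P ^ 2 * Q ^ 8) := ⟨_, rfl⟩
  have hPh : 0 < P * h := by positivity
  have hpw : ∀ n : ℕ, 1 ≤ Q ^ n := fun n => one_le_pow₀ (by linarith)
  have hPP : P ≤ P ^ 2 := by nlinarith
  -- term 1
  have T1 : m * S' * L1 ≤ U / 8 := by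
    have e0 : m * S' * L1 ≤ m * S' * (Q / 2) :=
      mul_le_mul_of_nonneg_left hL1 (mul_nonneg hm0 hS0)
    have e1 : m * S' * (Q / 2) ≤ Q / 1000 * (P * h) * S' * (Q / 2) := by
      have : m * (S' * (Q / 2)) ≤ Q / 1000 * (P * h) * (S' * (Q / 2)) :=
        mul_le_mul_of_nonneg_right hm' (by positivity)
      linarith [this]
    have e2 : Q / 1000 * (P * h) * S' * (Q / 2) = h * (P ^ 2 * Q ^ 7) / 2000 := by
      rw [hS']; ring
    have e3 : h * (P ^ 2 * Q ^ 7) * 1 ≤ h * (P ^ 2 * Q ^ 7) * Q :=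
      mul_le_mul_of_nonneg_left (by linarith) (by positivity)
    have e4 : h * (P ^ 2 * Q ^ 7) * Q = U := by rw [hU]; ring
    have e5 : 0 ≤ h * (P ^ 2 * Q ^ 7) := by positivity
    rw [e4] at e3
    linarith
  have hmQ : m * Q ≤ U / 8 := by
    have e1 : m * Q ≤ Q / 1000 * (P * h) * Q := mul_le_mul_of_nonneg_right hm' (by linarith)
    have e2 : Q / 1000 * (P * h) * Q = h * (P * Q ^ 2) / 1000 := by ring
    have e3 : h * (P * Q ^ 2) ≤ h * (P ^ 2 * Q ^ 8) := by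
      apply mul_le_mul_of_nonneg_left _ hh0.le
      have : Q ^ 2 ≤ Q ^ 8 := pow_le_pow_right₀ (by linarith) (by norm_num)
      exact mul_le_mul hPP this (by positivity) (by positivity)
    have e4 : 0 ≤ h * (P * Q ^ 2) := by positivity
    rw [hU]; linarith
  have T2 : m * lt ≤ U / 8 := (mul_le_mul_of_nonneg_left hlt hm0).trans hmQ
  have T4 : 2 * S' * Om ≤ U / 8 := by
    have e1 : 2 * S' * Om ≤ S' * m := by
      have : 2 * Om ≤ m := by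
        have : 2 * Om ≤ 81 * (Q ^ 2 * Om) := by
          have h1 : 1 * Om ≤ Q ^ 2 * Om := mul_le_mul_of_nonneg_right (hpw 2) hOm0
          linarith
        linarith
      calc 2 * S' * Om = S' * (2 * Om) := by ring
        _ ≤ S' * m := mul_le_mul_of_nonneg_left this hS0
    have e2 : S' * m ≤ S' * (Q / 1000 * (P * h)) := mul_le_mul_of_nonneg_left hm' hS0
    have e3 : S' * (Q / 1000 * (P * h)) = h * (P ^ 2 * Q ^ 6) / 1000 := by rw [hS']; ring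
    have e4 : h * (P ^ 2 * Q ^ 6) ≤ h * (P ^ 2 * Q ^ 8) := by
      apply mul_le_mul_of_nonneg_left _ hh0.le
      apply mul_le_mul_of_nonneg_left _ (by positivity)
      exact pow_le_pow_right₀ (by linarith) (by norm_num)
    have e5 : 0 ≤ h * (P ^ 2 * Q ^ 6) := by positivity
    rw [hU]; linarith
  have T5 : T ≤ U / 8 := by
    have e1 : 2 * S' * L0 = 2 * (P ^ 2 * Q ^ 3) := by
      have : P * (L0 * Q ^ 2) = P ^ 2 := by rw [hL0]; ring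
      rw [hS']
      calc 2 * (P * Q ^ 5) * L0 = 2 * ((P * (L0 * Q ^ 2)) * Q ^ 3) := by ring
        _ = 2 * (P ^ 2 * Q ^ 3) := by rw [this]
    have e2 : P ^ 2 * Q ^ 3 * 1000 ≤ P ^ 2 * Q ^ 8 := by
      have : Q ^ 3 * 1000 ≤ Q ^ 8 := by
        calc Q ^ 3 * 1000 ≤ Q ^ 3 * Q ^ 5 := by
              apply mul_le_mul_of_nonneg_left _ (by positivity)
              calc (1000 : ℝ) ≤ Q := by linarith
                _ = Q ^ 1 := (pow_one _).symm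
                _ ≤ Q ^ 5 := pow_le_pow_right₀ (by linarith) (by norm_num)
          _ = Q ^ 8 := by ring
      have h0 : 0 ≤ P ^ 2 := by positivity
      nlinarith
    have e3 : P ^ 2 * Q ^ 8 ≤ 2 * U := by
      rw [hU]
      have : 0 ≤ P ^ 2 * Q ^ 8 := by positivity
      nlinarith
    have e6 : 0 ≤ P ^ 2 * Q ^ 3 := by positivity
    linarith
  have T0 : log (4 : ℝ) ≤ U / 8 := by
    have e1 : 1000 ≤ P ^ 2 * Q ^ 8 := by
      have a1 : 1000 ≤ Q ^ 8 := by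
        calc (1000 : ℝ) ≤ Q := by linarith
          _ = Q ^ 1 := (pow_one _).symm
          _ ≤ Q ^ 8 := pow_le_pow_right₀ (by linarith) (by norm_num)
      have a2 : 1 ≤ P ^ 2 := one_le_pow₀ hP
      calc (1000 : ℝ) = 1 * 1000 := by ring
        _ ≤ P ^ 2 * Q ^ 8 := mul_le_mul a2 a1 (by norm_num) (by positivity)
    have e2 : 500 ≤ U := by
      rw [hU]
      calc (500 : ℝ) = 1 / 2 * 1000 := by norm_num
        _ ≤ h * (P ^ 2 * Q ^ 8) := mul_le_mul hh e1 (by norm_num) hh0.le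
    linarith
  have hU0 : 0 ≤ U := by rw [hU]; positivity
  rw [← hU]
  linarith

include ht hE hY hh in
/-- C7. the final size: with `S' = Q^(4t+9)`, `m ≤ 82 (t+2) Q^(4t+4) h ≤ Q^(4t+5) h / 1000`:
`m S' log (4S'(m+1)) ≤ m S' Q/2`, `m log (tE+1) ≤ m Q`, `m Q`, `2 S' Om ≤ S' m`, `log (8 S' L0) ≤ Q/4`;
everything `≤ h Q^(8t+16) = h R^(32t+64)`. -/
lemma param_final (hYh : log (1 + h) ≤ Y) :
    log 4 + (pm t E Y h : ℝ) * (((pQ t E Y ^ 2) ^ (2 * t + 4) * pQ t E Y : ℕ) : ℝ) *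
        log (4 * (((pQ t E Y ^ 2) ^ (2 * t + 4) * pQ t E Y : ℕ) : ℝ) * (pm t E Y h + 1)) +
      pm t E Y h * log (t * E + 1) + pm t E Y h * pQ t E Y +
      2 * (((pQ t E Y ^ 2) ^ (2 * t + 4) * pQ t E Y : ℕ) : ℝ) * pOm t E Y h +
      log (2 * (((pQ t E Y ^ 2) ^ (2 * t + 4) * pQ t E Y : ℕ) : ℝ) * pL0 t E Y) ≤
    h * (pR t E Y : ℝ) ^ (32 * t + 64) := by
  have hR := c7_R1 t E Y ht hE hY
  have hQ := c7_Q t E Y ht hE hY
  have hm := c7_m t E Y ht hE hY h hh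
  have hbig := log_big t E Y ht hE hY h hh
  have ht1 : (1 : ℝ) ≤ t := by exact_mod_cast ht
  have hE1 : (1 : ℝ) ≤ E := by exact_mod_cast hE
  have hge := pR_ge t E Y ht hE hY
  have hYR : 100 * (Y : ℝ) ≤ pR t E Y := by exact_mod_cast hge.2.2.2.1
  have htER : 100 * ((t : ℝ) * E) ≤ pR t E Y := by exact_mod_cast hge.2.2.2.2
  have hOmb := pOm_bounds t E Y ht hE hY h hh
  have hmb := pm_bounds t E Y ht hE hY h hh
  have hexp : (pR t E Y : ℝ) ^ (32 * t + 64) =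
      ((pQ t E Y : ℝ) ^ (4 * t + 4)) ^ 2 * (pQ t E Y : ℝ) ^ 8 := by
    have : (pQ t E Y : ℝ) = (pR t E Y : ℝ) ^ 4 := by unfold pQ; push_cast; rfl
    rw [this, ← pow_mul, ← pow_mul, ← pow_mul, ← pow_add]
    congr 1
    ring
  rw [hexp]
  rw [c7_cast] at hbig ⊢
  have hL0 : (pL0 t E Y : ℝ) = (pQ t E Y : ℝ) ^ (4 * t + 2) := by unfold pL0; push_cast; rfl
  have hQR : (pR t E Y : ℝ) ≤ pQ t E Y := by nlinarith
  have hQt : (1000000 : ℝ) * t ≤ pQ t E Y := by nlinarith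
  have hQ1 : (1 : ℝ) ≤ pQ t E Y := by nlinarith
  have hYQ : (Y : ℝ) ≤ pQ t E Y / 4 := by nlinarith
  have hlt : log ((t : ℝ) * E + 1) ≤ pQ t E Y := by
    have h0 : 0 ≤ (t : ℝ) * E := by positivity
    have h1 := Real.log_le_sub_one_of_pos (show (0 : ℝ) < t * E + 1 by linarith)
    linarith
  apply c7_final (pQ t E Y : ℝ) t h (pm t E Y h) (pOm t E Y h) _ _ _
    ((pQ t E Y : ℝ) ^ (4 * t + 9)) (pL0 t E Y) ((pQ t E Y : ℝ) ^ (4 * t + 4)) ht1 hQt hh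
    (one_le_pow₀ hQ1) (Nat.cast_nonneg _) hm
  · rw [← pow_add]
  · rw [hL0, ← pow_add]
  · exact hmb.2.1
  · linarith [hOmb.1]
  · linarith
  · exact hlt
  · have h0 : 0 < 2 * (pQ t E Y : ℝ) ^ (4 * t + 9) * pL0 t E Y := by
      rw [hL0]
      exact mul_pos (mul_pos (by norm_num) (pow_pos (by linarith) _)) (pow_pos (by linarith) _)
    have := Real.log_le_sub_one_of_pos h0
    linarith
-- END C7

end

-- BEGIN C8
/-- C8. BAKER'S THEOREM (coprime form) with explicit constants: `baker_param` with the parameters above (C1-C7),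
`h = log A ≥ log 2 ≥ 1/2`; take logarithms in the conclusion of `baker_param`. -/
theorem baker_BD (t : ℕ) (ht : 1 ≤ t) (D : BD t) (E Y Bb : ℕ) (hE1 : 1 ≤ E) (hY1 : 1 ≤ Y)
    (hBb : 1 ≤ Bb) (hE : ∀ i, log (D.a i : ℝ) ≤ E) (hb0 : |D.b0| ≤ Bb) (hb : ∀ i, |D.b i| ≤ Bb)
    (hY : log (Bb : ℝ) + log (1 + log (D.A : ℝ)) ≤ Y) :
    exp (-(log (D.A : ℝ) * (pR t E Y : ℝ) ^ (32 * t + 64))) ≤ |D.lam| := by
  set h : ℝ := log (D.A : ℝ) with hh'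
  have hA2 : 2 ≤ D.A := by
    have h1 := D.hB
    have h2 := D.hBA
    omega
  have hA2R : (2 : ℝ) ≤ D.A := by exact_mod_cast hA2
  have hh : 1 / 2 ≤ h := by
    have h1 := Real.log_le_log (by norm_num : (0 : ℝ) < 2) hA2R
    have h2 := Real.log_two_gt_d9
    linarith
  have hBlog : 0 ≤ log (Bb : ℝ) := Real.log_nonneg (by exact_mod_cast hBb)
  have hYh : log (1 + h) ≤ Y := by linarith
  have hm := pm_bounds t E Y ht hE1 hY1 h hh
  have hL := pL_bounds t E Y ht hE1 hY1 h hh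
  have hQ := (pQ_ge t E Y ht hE1 hY1).2
  have hQ1 : 1 ≤ pQ t E Y := by omega
  have hL01 : 1 ≤ pL0 t E Y := Nat.pow_pos hQ1
  have hOmeq : D.Om (E : ℝ) (pL0 t E Y) (pL t E Y h) = pOm t E Y h := rfl
  have key := baker_param (L0 := pL0 t E Y) (L := pL t E Y h) D (E : ℝ) (Nat.cast_nonneg _) hE Bb
    hBb hb0 hb (2 * t + 4) (pm t E Y h) (pQ t E Y) (pQ t E Y ^ 2) hL01 hL.1 (by omega) hm.1 hQ1
    (Nat.pow_pos hQ1)
    (by
      rw [hOmeq]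
      push_cast
      exact hm.2.1)
    (param_h2 t E Y ht hE1 hY1 h hh)
    (param_h3 t E Y ht hE1 hY1 h hh Bb hBb hY)
    (param_h4 t E Y ht hE1 hY1 h hh)
    (param_h5 t E Y ht hE1 hY1 h hh)
  rw [hOmeq] at key
  have hfin := param_final t E Y ht hE1 hY1 h hh hYh
  set S' : ℕ := (pQ t E Y ^ 2) ^ (2 * t + 4) * pQ t E Y with hS'
  have hS1 : 1 ≤ S' := Nat.mul_pos (Nat.pow_pos (Nat.pow_pos hQ1)) hQ1
  have hSR : (0 : ℝ) < S' := by exact_mod_cast hS1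
  have hL0R : (0 : ℝ) < pL0 t E Y := by exact_mod_cast hL01
  have hmR : (0 : ℝ) ≤ pm t E Y h := Nat.cast_nonneg _
  have hlam : D.lam ≠ 0 := by
    intro h0
    rw [h0, abs_zero, mul_zero, mul_zero] at key
    norm_num at key
  have hlam0 : 0 < |D.lam| := abs_pos.2 hlam
  have p1 : (0 : ℝ) < (4 * (S' : ℝ) * (pm t E Y h + 1)) ^ (pm t E Y h * S') := by positivity
  have p2 : (0 : ℝ) < ((t : ℝ) * E + 1) ^ pm t E Y h := by positivity
  have p3 : (0 : ℝ) < 2 * (S' : ℝ) * pL0 t E Y := by positivity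
  have h1 := Real.log_lt_log (by norm_num : (0 : ℝ) < 1 / 4) key
  rw [Real.log_mul (by positivity) (by positivity), Real.log_mul (by positivity) (by positivity),
    Real.log_mul (by positivity) (by positivity), Real.log_mul (by positivity) (by positivity),
    Real.log_mul p3.ne' hlam0.ne', Real.log_exp, Real.log_exp, Real.log_pow, Real.log_pow,
    one_div, Real.log_inv] at h1
  push_cast at h1 hfin
  have h2 : -(h * (pR t E Y : ℝ) ^ (32 * t + 64)) ≤ log |D.lam| := by linarith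
  calc exp (-(h * (pR t E Y : ℝ) ^ (32 * t + 64))) ≤ exp (log |D.lam|) := exp_le_exp.2 h2
    _ = |D.lam| := Real.exp_log hlam0
-- END C8

-- BEGIN C9
/-- C9. symmetric form, arbitrary finite index set: if `B < A` use `BD` via `Fintype.equivFin`; if `A < B` exchange
`A`, `B` and the signs of the `b_i`. -/
theorem baker_sym {ι : Type} [Fintype ι] (t : ℕ) (hcard : Fintype.card ι = t) (ht : 1 ≤ t)
    (a : ι → ℕ) (ha : ∀ i, 2 ≤ a i) (A B : ℕ) (hA : 1 ≤ A) (hB : 1 ≤ B) (hne : A ≠ B)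
    (hAB : Nat.Coprime A B) (hAa : ∀ i, Nat.Coprime A (a i)) (hBa : ∀ i, Nat.Coprime B (a i))
    (b0 : ℤ) (hb00 : b0 ≠ 0) (b : ι → ℤ) (E Y Bb : ℕ) (hE1 : 1 ≤ E) (hY1 : 1 ≤ Y)
    (hBb : 1 ≤ Bb) (hE : ∀ i, log (a i : ℝ) ≤ E) (hb0 : |b0| ≤ Bb) (hb : ∀ i, |b i| ≤ Bb) (H : ℝ)
    (hAH : log (A : ℝ) ≤ H) (hBH : log (B : ℝ) ≤ H) (hY : log (Bb : ℝ) + log (1 + H) ≤ Y) :
    exp (-(H * (pR t E Y : ℝ) ^ (32 * t + 64))) ≤
      |b0 * (log A - log B) - ∑ i, (b i : ℝ) * log (a i)| := by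
  have hp : (0 : ℝ) ≤ (pR t E Y : ℝ) ^ (32 * t + 64) := by positivity
  let e : Fin t ≃ ι := (Fintype.equivFinOfCardEq hcard).symm
  have hsum : ∀ f : ι → ℝ, ∑ i : Fin t, f (e i) = ∑ i, f i := fun f => e.sum_comp f
  have hone : ∀ X : ℕ, 1 ≤ X → log (X : ℝ) ≤ H →
      log (Bb : ℝ) + log (1 + log (X : ℝ)) ≤ Y := by
    intro X hX hXH
    have h0 : 0 ≤ log (X : ℝ) := Real.log_nonneg (by exact_mod_cast hX)
    have h1 := Real.log_le_log (by linarith : 0 < 1 + log (X : ℝ))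
      (by linarith : 1 + log (X : ℝ) ≤ 1 + H)
    linarith
  rcases lt_or_gt_of_ne hne with hlt | hlt
  · let D : BD t := ⟨fun i => a (e i), B, A, b0, fun i => -b (e i), fun i => ha _, hA, hlt,
      hAB.symm, fun i => hBa _, hb00⟩
    have h1 := baker_BD t ht D E Y Bb hE1 hY1 hBb (fun i => hE _) hb0
      (fun i => by
        change |-b (e i)| ≤ _
        rw [abs_neg]
        exact hb _) (hone B hB hBH)
    have h2 : D.lam = -(b0 * (log A - log B) - ∑ i, (b i : ℝ) * log (a i)) := by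
      have h3 : D.lam = b0 * (log B - log A) - ∑ i : Fin t, ((-b (e i) : ℤ) : ℝ) * log (a (e i)) :=
        rfl
      rw [h3, ← hsum fun i => (b i : ℝ) * log (a i)]
      push_cast
      simp only [neg_mul, Finset.sum_neg_distrib]
      ring
    rw [h2, abs_neg] at h1
    refine le_trans (exp_le_exp.2 ?_) h1
    have h4 : log (B : ℝ) * (pR t E Y : ℝ) ^ (32 * t + 64) ≤
        H * (pR t E Y : ℝ) ^ (32 * t + 64) := mul_le_mul_of_nonneg_right hBH hp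
    exact neg_le_neg h4
  · let D : BD t := ⟨fun i => a (e i), A, B, b0, fun i => b (e i), fun i => ha _, hB, hlt,
      hAB, fun i => hAa _, hb00⟩
    have h1 := baker_BD t ht D E Y Bb hE1 hY1 hBb (fun i => hE _) hb0
      (fun i => hb _) (hone A hA hAH)
    have h2 : D.lam = b0 * (log A - log B) - ∑ i, (b i : ℝ) * log (a i) := by
      have h3 : D.lam = b0 * (log A - log B) - ∑ i : Fin t, (b (e i) : ℝ) * log (a (e i)) :=
        rfl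
      rw [h3, ← hsum fun i => (b i : ℝ) * log (a i)]
    rw [h2] at h1
    refine le_trans (exp_le_exp.2 ?_) h1
    have h4 : log (A : ℝ) * (pR t E Y : ℝ) ^ (32 * t + 64) ≤
        H * (pR t E Y : ℝ) ^ (32 * t + 64) := mul_le_mul_of_nonneg_right hAH hp
    exact neg_le_neg h4
-- END C9

end Pool.Agent.Lib.MP_f02ea4_nt.Ml
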