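import Mathlib
import Pool.Agent.Lib.MP_f02ea4_nt.Mg.G016
import Pool.Agent.Lib.MP_f02ea4_nt.Mg.G019
import Pool.Agent.Lib.MP_f02ea4_nt.Mg.G018

/-! Many large primes, part F: assembly and final numbers. -/

set_option autoImplicit false

namespace Pool.Agent.Lib.MP_f02ea4_nt.Ml

open Finset Real Sm

/-- the bound `Z` of the elimination -/
noncomputable def ZZ (t Cm E Y : ℕ) (w : ℝ) : ℝ :=
  2 * (t * Cm * w * (pR t E Y : ℝ) ^ (32 * t + 64))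

-- BEGIN F1
private lemma f1_nn_le (N p : ℕ) : nn N p ≤ Nat.log 2 N + 1 := by
  have h1 : N.factorization p ≤ Nat.log 2 N := by
    by_cases hp : p.Prime
    · rw [Nat.factorization_def N hp]
      exact (padicValNat_le_nat_log (p := p) N).trans
        (Nat.log_anti_left (by norm_num) hp.two_le)
    · rw [Nat.factorization_eq_zero_of_not_prime N hp]
      exact Nat.zero_le _
  unfold nn
  omega

/-- F1. fewer than `t` heavy small primes: otherwise take `t` of them, `ι` = that subset, `κ = Lg N y` (subtypes),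
`W` from `cof`, `elimination` with `Z' =` the least `n_p log p` (`> ZZ`). -/
lemma heavy_card (η : ℝ) (hη : 0 < η) : ∃ C1 : ℝ, 1 ≤ C1 ∧
    ∀ (N y M t V Cm E Y Bb : ℕ) (w : ℝ), Odd N → Nat.Perfect N → 3 ≤ y → 1 ≤ M →
      t = (M + 1) * ((Lg N y).card + 1) → V = Nat.log 2 N + 1 → 1 ≤ Cm → t * V ≤ Cm ^ M →
      ((y : ℝ) * ((Lg N y).card + C1 * (y : ℝ) ^ η) + 2) * log y + log V ≤ w →
      log y ≤ E → (E : ℝ) ≤ w → 1 ≤ E → 1 ≤ Y → (Cm * V : ℝ) + 2 * (t * Cm * w) + 1 ≤ Bb →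
      log (Bb : ℝ) + log (1 + t * Cm * w) ≤ Y →
      (N.primeFactors.filter
        (fun p => p ≤ y ∧ ZZ t Cm E Y w < nn N p * log (p : ℝ))).card < t := by
  obtain ⟨C1, hC1, hcof⟩ := cof η hη
  refine ⟨C1, hC1, ?_⟩
  intro N y M t V Cm E Y Bb w hodd hN hy hM ht hV hCm1 hCm hw hyE hEw hE1 hY1 hBb hY
  by_contra hcon
  rw [not_lt] at hcon
  obtain ⟨T, hTsub, hTcard⟩ := Finset.exists_subset_card_eq hcon
  have hT : ∀ p ∈ T, p ∈ N.primeFactors ∧ p ≤ y ∧ ZZ t Cm E Y w < nn N p * log (p : ℝ) := by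
    intro p hp
    have := Finset.mem_filter.mp (hTsub hp)
    exact ⟨this.1, this.2.1, this.2.2⟩
  have htpos : 0 < t := by rw [ht]; positivity
  have hTne : T.Nonempty := by
    rw [← Finset.card_pos, hTcard]; exact htpos
  -- the minimizer
  obtain ⟨p0, hp0, hmin⟩ := Finset.exists_min_image T (fun p => (nn N p : ℝ) * log (p : ℝ)) hTne
  have hch : ∀ p : {p // p ∈ T}, ∃ W : ℕ, 1 ≤ W ∧
      (p : ℕ) ^ nn N p = 1 + W * ∏ r ∈ Lg N y, r ^ ((p : ℕ) ^ nn N p - 1).factorization r ∧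
      (∀ r ∈ Lg N y, ((p : ℕ) ^ nn N p - 1).factorization r ≤ Nat.log 2 N) ∧
      log W ≤ ((y : ℝ) * ((Lg N y).card + C1 * (y : ℝ) ^ η) + 2) * log y + log (nn N p) :=
    fun p => hcof N y hodd hN hy p (hT p p.2).1 (hT p p.2).2.1
  choose W hW1 hWeq hWv hWlog using hch
  have hVpos : 1 ≤ V := by omega
  have helim := elimination (ι := {p // p ∈ T}) (κ := {r // r ∈ Lg N y}) t M
    (by rw [Fintype.card_coe, hTcard]) hM (by rw [Fintype.card_coe, ← ht])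
    (fun p => (p : ℕ)) (fun p => nn N p) W
    (fun p => Nat.prime_of_mem_primeFactors (hT p p.2).1) Subtype.val_injective
    (fun p => by unfold nn; omega) hW1 (fun r => (r : ℕ))
    (fun r => (Nat.prime_of_mem_primeFactors (Finset.mem_filter.mp r.2).1).one_lt.le)
    (fun r p => ((p : ℕ) ^ nn N p - 1).factorization r)
    (fun p => by
      have h1 := hWeq p
      rw [← Finset.prod_coe_sort] at h1
      exact h1)
    V Cm hVpos hCm1
    (fun r p => by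
      have := hWv p r r.2
      omega)
    (fun p => by
      have := f1_nn_le N p
      rw [hV]; exact this)
    hCm w
    (fun p => by
      refine (hWlog p).trans (le_trans ?_ hw)
      have h1 : log ((nn N p : ℕ) : ℝ) ≤ log (V : ℝ) := by
        apply Real.log_le_log
        · exact_mod_cast (by unfold nn; omega : 0 < nn N (p : ℕ))
        · rw [hV]; exact_mod_cast f1_nn_le N p
      linarith)
    E Y Bb hE1 hEw hY1 hBb
    (fun p => by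
      refine le_trans ?_ hyE
      apply Real.log_le_log
      · exact_mod_cast (Nat.prime_of_mem_primeFactors (hT p p.2).1).pos
      · exact_mod_cast (hT p p.2).2.1)
    hY (nn N p0 * log (p0 : ℝ)) (fun p => hmin p p.2)
  have h2 := (hT p0 hp0).2.2
  unfold ZZ at h2
  linarith
-- END F1

-- BEGIN F2
private lemma f2_aux_three {N : ℕ} (hodd : Odd N) (hN : Nat.Perfect N) : 3 ≤ N := by
  have h0 : 0 < N := hN.2
  have h1 : N ≠ 1 := by
    rintro rfl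
    have := hN.1
    simp at this
  obtain ⟨k, hk⟩ := hodd
  omega

private lemma f2_aux_log3 : (1 : ℝ) ≤ log (3 : ℝ) := by
  rw [Real.le_log_iff_exp_le (by norm_num)]
  have := Real.exp_one_lt_d9
  linarith

/-- F2. `3 ≤ N`, `Nat.log 2 N + 1 ≤ 3 log N`, `ω(N) ≤ log N` (`N ≥ 3^ω`). -/
lemma basics (N : ℕ) (hodd : Odd N) (hN : Nat.Perfect N) :
    1 ≤ log (N : ℝ) ∧ ((Nat.log 2 N + 1 : ℕ) : ℝ) ≤ 3 * log N ∧
      (N.primeFactors.card : ℝ) ≤ log N ∧ 1 ≤ N.primeFactors.card := by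
  have h3 : 3 ≤ N := f2_aux_three hodd hN
  have h3' : (3 : ℝ) ≤ N := by exact_mod_cast h3
  have hN0 : (0 : ℝ) < N := by linarith
  have hl : 1 ≤ log (N : ℝ) := f2_aux_log3.trans (Real.log_le_log (by norm_num) h3')
  refine ⟨hl, ?_, ?_, ?_⟩
  · have h1 : (2 : ℝ) ^ (Nat.log 2 N) ≤ N := by
      have := Nat.pow_log_le_self 2 (show N ≠ 0 by omega)
      exact_mod_cast this
    have h2 := Real.log_le_log (by positivity) h1
    rw [Real.log_pow] at h2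
    have h4 := Real.log_two_gt_d9
    push_cast
    have h5 : (0 : ℝ) ≤ (Nat.log 2 N : ℝ) := Nat.cast_nonneg _
    nlinarith
  · have h1 : (3 : ℕ) ^ N.primeFactors.card ≤ ∏ p ∈ N.primeFactors, p := by
      rw [← Finset.prod_const]
      refine Finset.prod_le_prod (fun _ _ => by norm_num) (fun p hp => ?_)
      have hpp : p.Prime := Nat.prime_of_mem_primeFactors hp
      have hpd : p ∣ N := Nat.dvd_of_mem_primeFactors hp
      have : p ≠ 2 := by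
        rintro rfl
        rw [← even_iff_two_dvd] at hpd
        exact (Nat.not_even_iff_odd.2 hodd) hpd
      have := hpp.two_le
      omega
    have h2 : ∏ p ∈ N.primeFactors, p ≤ N :=
      Nat.le_of_dvd (by omega) (Nat.prod_primeFactors_dvd N)
    have h4 : (3 : ℝ) ^ N.primeFactors.card ≤ N := by exact_mod_cast h1.trans h2
    have h5 := Real.log_le_log (by positivity) h4
    rw [Real.log_pow] at h5
    have h6 := f2_aux_log3
    have h7 : (0 : ℝ) ≤ (N.primeFactors.card : ℝ) := Nat.cast_nonneg _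
    nlinarith
  · rw [Nat.one_le_iff_ne_zero, Finset.card_ne_zero]
    exact Nat.nonempty_primeFactors.2 (by omega)
-- END F2

-- BEGIN F3
/-- F3. `Cm = ⌈a^(1/M)⌉`. -/
lemma exists_root (a M : ℕ) (ha : 1 ≤ a) (hM : 1 ≤ M) :
    ∃ Cm : ℕ, 1 ≤ Cm ∧ a ≤ Cm ^ M ∧ (Cm : ℝ) ≤ 2 * (a : ℝ) ^ ((1 : ℝ) / M) := by
  have ha' : (1 : ℝ) ≤ a := by exact_mod_cast ha
  have hM' : (0 : ℝ) < M := by exact_mod_cast hM
  have h1 : 1 ≤ (a : ℝ) ^ ((1 : ℝ) / M) := Real.one_le_rpow ha' (by positivity)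
  have h2 : (a : ℝ) ^ ((1 : ℝ) / M) ≤ (⌈(a : ℝ) ^ ((1 : ℝ) / M)⌉₊ : ℝ) := Nat.le_ceil _
  refine ⟨⌈(a : ℝ) ^ ((1 : ℝ) / M)⌉₊, ?_, ?_, ?_⟩
  · have : (1 : ℝ) ≤ (⌈(a : ℝ) ^ ((1 : ℝ) / M)⌉₊ : ℝ) := h1.trans h2
    exact_mod_cast this
  · have h3 : ((a : ℝ) ^ ((1 : ℝ) / M)) ^ M = a := by
      rw [← Real.rpow_natCast, ← Real.rpow_mul (by linarith), one_div,
        inv_mul_cancel₀ hM'.ne', Real.rpow_one]
    have h4 : (a : ℝ) ≤ (⌈(a : ℝ) ^ ((1 : ℝ) / M)⌉₊ : ℝ) ^ M := by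
      calc (a : ℝ) = ((a : ℝ) ^ ((1 : ℝ) / M)) ^ M := h3.symm
        _ ≤ (⌈(a : ℝ) ^ ((1 : ℝ) / M)⌉₊ : ℝ) ^ M := pow_le_pow_left₀ (by linarith) h2 M
    exact_mod_cast h4
  · have h5 := (Nat.ceil_lt_add_one (show 0 ≤ (a : ℝ) ^ ((1 : ℝ) / M) by linarith)).le
    linarith
-- END F3

-- BEGIN F4
/-- F4. `log y ≤ y^η/η`, `j ≤ λ = 1 + log X`, `log V ≤ log 3 + log X ≤ 2 λ`: `K1 = (C1+3)/η + 2`. -/
lemma w_bound (η : ℝ) (hη : 0 < η) (C1 : ℝ) (hC1 : 1 ≤ C1) : ∃ K1 : ℝ, 1 ≤ K1 ∧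
    ∀ (X : ℝ) (y j V : ℕ), 1 ≤ X → 3 ≤ y → (y : ℝ) ≤ X → ((j : ℝ) + 1) ≤ 1 + log X → 1 ≤ V →
      (V : ℝ) ≤ 3 * X →
      ((y : ℝ) * (j + C1 * (y : ℝ) ^ η) + 2) * log y + log V ≤
        K1 * (y : ℝ) ^ (1 + 2 * η) * (1 + log X) := by
  refine ⟨(C1 + 3) / η + 2, ?_, ?_⟩
  · have : 0 ≤ (C1 + 3) / η := by positivity
    linarith
  intro X y j V hX hy hyX hj hV hVX
  have hy1 : (1 : ℝ) ≤ y := by
    have : 1 ≤ y := by omega
    exact_mod_cast this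
  have hy0 : (0 : ℝ) < y := by linarith
  have hlX : 0 ≤ log X := Real.log_nonneg hX
  have hlam : 1 ≤ 1 + log X := by linarith
  have hjl : (j : ℝ) ≤ 1 + log X := by linarith
  have hyn : 1 ≤ (y : ℝ) ^ η := Real.one_le_rpow hy1 hη.le
  have hly : log (y : ℝ) ≤ (y : ℝ) ^ η / η := Real.log_le_rpow_div hy0.le hη
  have hly0 : 0 ≤ log (y : ℝ) := Real.log_nonneg hy1
  have hpow : (y : ℝ) ^ (1 + 2 * η) = y * ((y : ℝ) ^ η * (y : ℝ) ^ η) := by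
    rw [Real.rpow_add hy0, Real.rpow_one, two_mul, Real.rpow_add hy0]
  have hVl : log (V : ℝ) ≤ 2 * (1 + log X) := by
    have hV0 : (0 : ℝ) < V := by
      have : 0 < V := hV
      exact_mod_cast this
    have h1 := Real.log_le_log hV0 hVX
    rw [Real.log_mul (by norm_num) (by linarith)] at h1
    have h2 : log (3 : ℝ) ≤ 3 - 1 := Real.log_le_sub_one_of_pos (by norm_num)
    linarith
  rw [hpow]
  set P : ℝ := (y : ℝ) ^ η with hP
  set lam : ℝ := 1 + log X with hlamd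
  have hP0 : 0 < P := by linarith
  have hlam0 : 0 < lam := by linarith
  -- first term
  have h1 : (j : ℝ) + C1 * P ≤ (C1 + 1) * (P * lam) := by
    have e1 : (j : ℝ) ≤ P * lam := hjl.trans (by nlinarith)
    have e2 : C1 * P ≤ C1 * (P * lam) := by
      refine mul_le_mul_of_nonneg_left ?_ (by linarith)
      nlinarith
    linarith
  have h2 : (y : ℝ) * (j + C1 * P) + 2 ≤ (C1 + 3) * (y * (P * lam)) := by
    have e1 : (y : ℝ) * (j + C1 * P) ≤ y * ((C1 + 1) * (P * lam)) :=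
      mul_le_mul_of_nonneg_left h1 hy0.le
    have e2 : 1 ≤ (y : ℝ) * (P * lam) := by
      have : 1 ≤ P * lam := by nlinarith
      nlinarith
    nlinarith
  have h3 : ((y : ℝ) * (j + C1 * P) + 2) * log y ≤ (C1 + 3) * (y * (P * lam)) * (P / η) := by
    refine mul_le_mul h2 hly hly0 ?_
    positivity
  have h4 : 2 * lam ≤ 2 * (y * (P * P)) * lam := by
    have e1 : 1 ≤ P * P := by nlinarith
    have e2 : 1 ≤ (y : ℝ) * (P * P) := by nlinarith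
    nlinarith
  have h5 : (C1 + 3) * (y * (P * lam)) * (P / η) = (C1 + 3) / η * (y * (P * P)) * lam := by
    field_simp
  calc ((y : ℝ) * (j + C1 * P) + 2) * log y + log V
      ≤ (C1 + 3) / η * (y * (P * P)) * lam + 2 * (y * (P * P)) * lam := by
        rw [← h5]
        linarith
    _ = ((C1 + 3) / η + 2) * (y * (P * P)) * lam := by ring
-- END F4

-- BEGIN F5
/-- F5. existence of `Bb`, `Y`: `λ = 1 + log X ≤ X`, `t ≤ (M+1) X`, `Cm ≤ 2 t V ≤ 6 (M+1) X^2`,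
`w ≤ K1 X^2 X` (`η ≤ 1/2`, `y ≤ X`), so `Cm V + 2 t Cm w + 1 ≤ C X^6`, `Bb` its ceiling,
`Y = ⌈log Bb + log (1 + t Cm w)⌉ + 1 ≤ K2 λ`. -/
lemma Y_bound (η : ℝ) (hη : 0 < η) (hη1 : η ≤ 1 / 2) (M : ℕ) (hM : 1 ≤ M) (K1 : ℝ)
    (hK1 : 1 ≤ K1) : ∃ K2 : ℝ, 1 ≤ K2 ∧
    ∀ (X : ℝ) (y j t V Cm : ℕ) (w : ℝ), 1 ≤ X → 3 ≤ y → (y : ℝ) ≤ X → ((j : ℝ) + 1) ≤ 1 + log X →
      t = (M + 1) * (j + 1) → 1 ≤ V → (V : ℝ) ≤ 3 * X → 1 ≤ Cm →
      (Cm : ℝ) ≤ 2 * ((t * V : ℕ) : ℝ) ^ ((1 : ℝ) / M) →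
      w = K1 * (y : ℝ) ^ (1 + 2 * η) * (1 + log X) →
      ∃ Bb Y : ℕ, 1 ≤ Y ∧ (Cm * V : ℝ) + 2 * (t * Cm * w) + 1 ≤ Bb ∧
        log (Bb : ℝ) + log (1 + t * Cm * w) ≤ Y ∧ (Y : ℝ) ≤ K2 * (1 + log X) := by
  obtain ⟨A, hA⟩ : ∃ A : ℝ, A = 18 * ((M : ℝ) + 1) + 12 * ((M : ℝ) + 1) ^ 2 * K1 + 1 := ⟨_, rfl⟩
  have hM0 : (1 : ℝ) ≤ M := by exact_mod_cast hM
  have hA1 : 1 ≤ A := by
    rw [hA]
    have : 0 ≤ 12 * ((M : ℝ) + 1) ^ 2 * K1 := by positivity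
    linarith
  have hlA : 0 ≤ log (2 * A) := log_nonneg (by linarith)
  refine ⟨2 * log (2 * A) + 14, by linarith, ?_⟩
  intro X y j t V Cm w hX hy hyX hj ht hV hVX hCm hCmle hw
  have hX0 : 0 < X := by linarith
  have hlX : 0 ≤ log X := log_nonneg hX
  have hlX1 : 1 + log X ≤ X := by
    have := log_le_sub_one_of_pos hX0
    linarith
  have hy0 : (0 : ℝ) < y := by
    have : (3 : ℝ) ≤ y := by exact_mod_cast hy
    linarith
  have ht1 : (t : ℝ) ≤ ((M : ℝ) + 1) * X := by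
    rw [ht]
    push_cast
    refine mul_le_mul_of_nonneg_left (hj.trans hlX1) (by positivity)
  have htV1 : (1 : ℝ) ≤ ((t * V : ℕ) : ℝ) := by
    have h1 : 1 ≤ t := by rw [ht]; exact Nat.mul_pos (by omega) (by omega)
    exact_mod_cast Nat.mul_pos h1 hV
  have htV2 : ((t * V : ℕ) : ℝ) ≤ 3 * ((M : ℝ) + 1) * X ^ 2 := by
    push_cast
    have := mul_le_mul ht1 hVX (by positivity) (by positivity)
    nlinarith
  have hCm2 : (Cm : ℝ) ≤ 6 * ((M : ℝ) + 1) * X ^ 2 := by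
    have h1 : ((t * V : ℕ) : ℝ) ^ ((1 : ℝ) / M) ≤ ((t * V : ℕ) : ℝ) ^ (1 : ℝ) := by
      refine rpow_le_rpow_of_exponent_le htV1 ?_
      rw [div_le_one (by linarith)]
      exact hM0
    rw [rpow_one] at h1
    nlinarith
  have hw0 : 0 ≤ w := by
    rw [hw]
    positivity
  have hyp : (y : ℝ) ^ (1 + 2 * η) ≤ X ^ 2 := by
    have h1 : (y : ℝ) ^ (1 + 2 * η) ≤ (y : ℝ) ^ (2 : ℝ) := by
      refine rpow_le_rpow_of_exponent_le ?_ (by linarith)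
      have : (3 : ℝ) ≤ y := by exact_mod_cast hy
      linarith
    have h2 : (y : ℝ) ^ (2 : ℝ) = (y : ℝ) ^ 2 := by
      rw [← rpow_natCast]
      norm_num
    rw [h2] at h1
    exact h1.trans (pow_le_pow_left₀ hy0.le hyX 2)
  have hw1 : w ≤ K1 * X ^ 3 := by
    rw [hw]
    have h1 : (y : ℝ) ^ (1 + 2 * η) * (1 + log X) ≤ X ^ 2 * X :=
      mul_le_mul hyp hlX1 (by positivity) (by positivity)
    calc K1 * (y : ℝ) ^ (1 + 2 * η) * (1 + log X) = K1 * ((y : ℝ) ^ (1 + 2 * η) * (1 + log X)) := by ring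
      _ ≤ K1 * (X ^ 2 * X) := mul_le_mul_of_nonneg_left h1 (by linarith)
      _ = K1 * X ^ 3 := by ring
  have hX36 : X ^ 3 ≤ X ^ 6 := pow_le_pow_right₀ hX (by norm_num)
  have hX06 : 1 ≤ X ^ 6 := one_le_pow₀ hX
  have hCV : (Cm * V : ℝ) ≤ 18 * ((M : ℝ) + 1) * X ^ 6 := by
    have h1 := mul_le_mul hCm2 hVX (by positivity) (by positivity)
    calc (Cm * V : ℝ) ≤ 6 * ((M : ℝ) + 1) * X ^ 2 * (3 * X) := h1
      _ = 18 * ((M : ℝ) + 1) * X ^ 3 := by ring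
      _ ≤ 18 * ((M : ℝ) + 1) * X ^ 6 := mul_le_mul_of_nonneg_left hX36 (by positivity)
  have htCw0 : 0 ≤ (t : ℝ) * Cm * w := by positivity
  have htCw : (t : ℝ) * Cm * w ≤ 6 * ((M : ℝ) + 1) ^ 2 * K1 * X ^ 6 := by
    have h1 := mul_le_mul ht1 hCm2 (by positivity) (by positivity)
    have h2 := mul_le_mul h1 hw1 hw0 (by positivity)
    calc (t : ℝ) * Cm * w ≤ ((M : ℝ) + 1) * X * (6 * ((M : ℝ) + 1) * X ^ 2) * (K1 * X ^ 3) := h2
      _ = 6 * ((M : ℝ) + 1) ^ 2 * K1 * X ^ 6 := by ring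
  obtain ⟨T, hT⟩ : ∃ T : ℝ, T = (Cm * V : ℝ) + 2 * (t * Cm * w) + 1 := ⟨_, rfl⟩
  have hT1 : 1 ≤ T := by
    rw [hT]
    have : 0 ≤ (Cm * V : ℝ) := by positivity
    linarith
  have hTA : T ≤ A * X ^ 6 := by
    rw [hT, hA]
    nlinarith
  have hTw : 1 + (t : ℝ) * Cm * w ≤ A * X ^ 6 := by
    refine le_trans ?_ hTA
    rw [hT]
    have : 0 ≤ (Cm * V : ℝ) := by positivity
    linarith
  have hBle : (⌈T⌉₊ : ℝ) ≤ 2 * A * X ^ 6 := by
    have h1 := (Nat.ceil_lt_add_one (by linarith : (0 : ℝ) ≤ T)).le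
    nlinarith
  have hB1 : (1 : ℝ) ≤ (⌈T⌉₊ : ℝ) := hT1.trans (Nat.le_ceil T)
  have hlog1 : log (⌈T⌉₊ : ℝ) ≤ log (2 * A) + 6 * log X := by
    have h1 := log_le_log (by linarith) hBle
    rw [log_mul (by linarith) (by positivity), log_pow] at h1
    push_cast at h1
    exact h1
  have hlog2 : log (1 + (t : ℝ) * Cm * w) ≤ log (2 * A) + 6 * log X := by
    have h1 : log (1 + (t : ℝ) * Cm * w) ≤ log (2 * A * X ^ 6) := by
      refine log_le_log (by linarith) (hTw.trans ?_)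
      nlinarith
    rw [log_mul (by linarith) (by positivity), log_pow] at h1
    push_cast at h1
    exact h1
  have hl0 : 0 ≤ log (⌈T⌉₊ : ℝ) + log (1 + (t : ℝ) * Cm * w) :=
    add_nonneg (log_nonneg hB1) (log_nonneg (by linarith))
  refine ⟨⌈T⌉₊, ⌈log (⌈T⌉₊ : ℝ) + log (1 + (t : ℝ) * Cm * w)⌉₊ + 1, by omega, ?_, ?_, ?_⟩
  · rw [← hT]
    exact Nat.le_ceil T
  · push_cast
    have := Nat.le_ceil (log (⌈T⌉₊ : ℝ) + log (1 + (t : ℝ) * Cm * w))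
    linarith
  · push_cast
    have h1 := (Nat.ceil_lt_add_one hl0).le
    have h2 : 0 ≤ log (2 * A) * log X := mul_nonneg hlA hlX
    nlinarith
-- END F5

-- BEGIN F6
private lemma f6_R (B R : ℝ) (hB : 1 ≤ B) (hR0 : 0 ≤ R) (hR : R ≤ B ^ 3) (e n : ℕ)
    (he : e ≤ 96 * n) : R ^ e ≤ B ^ (288 * n) := by
  have h1 : R ^ e ≤ (B ^ 3) ^ e := pow_le_pow_left₀ hR0 hR e
  have h2 : (B ^ 3) ^ e = B ^ (3 * e) := (pow_mul B 3 e).symm
  rw [h2] at h1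
  refine h1.trans (pow_le_pow_right₀ hB (by omega))

private lemma f6_sum (a K1 K lam PP : ℝ) (ha : 2 ≤ a) (hK1 : 1 ≤ K1) (hl : 1 ≤ lam)
    (hPP : 1 ≤ PP) (hK : 15 * a ^ 2 * K1 ≤ K) (hK2 : 2 ≤ K) :
    1 + 12 * a ^ 2 * K1 * lam ^ 3 * PP + 2 * lam ≤ (K * lam) ^ 3 * PP := by
  have hq : (1 : ℝ) ≤ a ^ 2 * K1 := by nlinarith
  have hl3 : lam ≤ lam ^ 3 := by
    calc lam = lam ^ 1 := (pow_one _).symm
      _ ≤ lam ^ 3 := pow_le_pow_right₀ hl (by norm_num)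
  have hl3' : 0 ≤ lam ^ 3 := by positivity
  have h3 : lam ≤ a ^ 2 * K1 * lam ^ 3 * PP := by
    have e1 : lam ^ 3 ≤ a ^ 2 * K1 * lam ^ 3 := by nlinarith
    have e2 : a ^ 2 * K1 * lam ^ 3 ≤ a ^ 2 * K1 * lam ^ 3 * PP := by
      have : 0 ≤ a ^ 2 * K1 * lam ^ 3 := by positivity
      nlinarith
    linarith
  have h5 : 15 * a ^ 2 * K1 ≤ K ^ 3 := by
    have : K * 1 ≤ K * K ^ 2 := by
      apply mul_le_mul_of_nonneg_left _ (by linarith)
      nlinarith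
    calc 15 * a ^ 2 * K1 ≤ K * 1 := by linarith
      _ ≤ K * K ^ 2 := this
      _ = K ^ 3 := by ring
  have h4 : 15 * a ^ 2 * K1 * (lam ^ 3 * PP) ≤ K ^ 3 * (lam ^ 3 * PP) :=
    mul_le_mul_of_nonneg_right h5 (by positivity)
  have h6 : (K * lam) ^ 3 * PP = K ^ 3 * (lam ^ 3 * PP) := by ring
  rw [h6]
  have h7 : 1 ≤ lam := hl
  nlinarith

private lemma f6_num (a K1 K2 K lam xm yp y t w Cm Rp PP : ℝ) (ha : 2 ≤ a) (hK1 : 1 ≤ K1)
    (hl : 1 ≤ lam) (hxm : 1 ≤ xm) (hyp : 0 ≤ yp) (hy : 3 ≤ y) (ht1 : 1 ≤ t) (ht : t ≤ a * lam)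
    (hCm0 : 0 ≤ Cm) (hCm : Cm ≤ 6 * t * xm) (hw : w = K1 * yp * lam) (hRp0 : 0 ≤ Rp)
    (hRp : Rp ≤ PP) :
    y * (2 * (t * Cm * w * Rp)) ≤ xm * (y * yp) * (12 * a ^ 2 * K1 * lam ^ 3 * PP) := by
  have hw0 : 0 ≤ w := by rw [hw]; positivity
  have hPP : 0 ≤ PP := hRp0.trans hRp
  have h1 : t * Cm ≤ a * lam * (6 * (a * lam) * xm) := by
    have e1 : Cm ≤ 6 * (a * lam) * xm := by
      refine hCm.trans ?_
      have : 0 ≤ xm := by linarith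
      nlinarith
    exact mul_le_mul ht e1 hCm0 (by positivity)
  have h2 : t * Cm * w * Rp ≤ a * lam * (6 * (a * lam) * xm) * w * PP := by
    have e1 : t * Cm * w ≤ a * lam * (6 * (a * lam) * xm) * w :=
      mul_le_mul_of_nonneg_right h1 hw0
    exact mul_le_mul e1 hRp hRp0 (by positivity)
  have h3 : y * (2 * (t * Cm * w * Rp)) ≤ y * (2 * (a * lam * (6 * (a * lam) * xm) * w * PP)) := by
    apply mul_le_mul_of_nonneg_left _ (by linarith)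
    linarith
  refine h3.trans (le_of_eq ?_)
  rw [hw]; ring

private lemma f6_Cm (M : ℕ) (hM : 1 ≤ M) (X : ℝ) (hX : 1 ≤ X) (t V Cm : ℕ) (ht : 1 ≤ t)
    (hV : (V : ℝ) ≤ 3 * X) (hCm : (Cm : ℝ) ≤ 2 * ((t * V : ℕ) : ℝ) ^ ((1 : ℝ) / M)) :
    (Cm : ℝ) ≤ 6 * t * X ^ ((1 : ℝ) / M) := by
  have hM' : (1 : ℝ) ≤ M := by exact_mod_cast hM
  have ht1 : (1 : ℝ) ≤ t := by exact_mod_cast ht
  have h1 : (((t * V : ℕ) : ℝ)) ≤ 3 * t * X := by
    push_cast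
    calc (t : ℝ) * V ≤ t * (3 * X) := mul_le_mul_of_nonneg_left hV (by linarith)
      _ = 3 * t * X := by ring
  have h2 : ((t * V : ℕ) : ℝ) ^ ((1 : ℝ) / M) ≤ (3 * t * X) ^ ((1 : ℝ) / M) :=
    Real.rpow_le_rpow (Nat.cast_nonneg _) h1 (by positivity)
  have h3 : (3 * (t : ℝ) * X) ^ ((1 : ℝ) / M) =
      (3 * (t : ℝ)) ^ ((1 : ℝ) / M) * X ^ ((1 : ℝ) / M) :=
    Real.mul_rpow (by positivity) (by linarith)
  have h4 : (3 * (t : ℝ)) ^ ((1 : ℝ) / M) ≤ 3 * t := by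
    calc (3 * (t : ℝ)) ^ ((1 : ℝ) / M) ≤ (3 * (t : ℝ)) ^ (1 : ℝ) := by
          apply Real.rpow_le_rpow_of_exponent_le (by linarith)
          rw [div_le_one (by linarith)]; exact hM'
      _ = 3 * t := Real.rpow_one _
  have h5 : 0 ≤ X ^ ((1 : ℝ) / M) := Real.rpow_nonneg (by linarith) _
  have h6 : (3 * (t : ℝ)) ^ ((1 : ℝ) / M) * X ^ ((1 : ℝ) / M) ≤ 3 * t * X ^ ((1 : ℝ) / M) :=
    mul_le_mul_of_nonneg_right h4 h5
  rw [h3] at h2
  linarith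

/-- F6. final size: `R = 100 t E Y ≤ 100 (M+1) K2 λ^3`, `2 t Cm w ≤ 4 t (3 t X)^(1/M) K1 y^(1+2η) λ`,
`2^(2j+t) = 2^(2j + (M+1)(j+1))`, `y log y ≤ y^2`, `log (4X) ≤ 2 λ`, `32 t + 64 ≤ 96 (M+1) (j+1)`;
everything absorbed in `(K λ)^(K (j+1))` (`λ ≥ 1`). -/
lemma size_bound (η : ℝ) (hη : 0 < η) (M : ℕ) (hM : 1 ≤ M) (K1 K2 : ℝ) (hK1 : 1 ≤ K1)
    (hK2 : 1 ≤ K2) : ∃ K : ℕ, 1 ≤ K ∧
    ∀ (X : ℝ) (y j t V Cm E Y : ℕ) (w : ℝ), 1 ≤ X → 3 ≤ y → (y : ℝ) ≤ X →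
      ((j : ℝ) + 1) ≤ 1 + log X → t = (M + 1) * (j + 1) → 1 ≤ V → (V : ℝ) ≤ 3 * X → 1 ≤ Cm →
      (Cm : ℝ) ≤ 2 * ((t * V : ℕ) : ℝ) ^ ((1 : ℝ) / M) →
      w = K1 * (y : ℝ) ^ (1 + 2 * η) * (1 + log X) → (E : ℝ) ≤ 1 + log X →
      (Y : ℝ) ≤ K2 * (1 + log X) →
      2 ^ (2 * j + t) * (y * log y + y * ZZ t Cm E Y w + log (4 * X)) ≤
        X ^ ((1 : ℝ) / M) * (y : ℝ) ^ (2 + 2 * η) * (K * (1 + log X)) ^ (K * (j + 1)) := by
  obtain ⟨K0, hK0⟩ := exists_nat_ge (1500 * ((M : ℝ) + 1) ^ 2 * K1 * K2)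
  have hM' : (1 : ℝ) ≤ M := by exact_mod_cast hM
  refine ⟨K0 + 300 * (M + 1), by omega, ?_⟩
  intro X y j t V Cm E Y w hX hy hyX hj ht hV1 hV hCm1 hCm hw hE hY
  obtain ⟨a, ha⟩ : ∃ a : ℝ, a = (M : ℝ) + 1 := ⟨_, rfl⟩
  have ha2 : 2 ≤ a := by rw [ha]; linarith
  rw [← ha] at hK0
  obtain ⟨lam, hlam⟩ : ∃ lam : ℝ, lam = 1 + log X := ⟨_, rfl⟩
  have hlogX : 0 ≤ log X := log_nonneg hX
  have hl1 : 1 ≤ lam := by rw [hlam]; linarith
  rw [← hlam] at hj hw hE hY ⊢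
  obtain ⟨K, hK⟩ : ∃ K : ℝ, K = (((K0 + 300 * (M + 1) : ℕ)) : ℝ) := ⟨_, rfl⟩
  rw [← hK]
  have hKa : K = K0 + 300 * a := by rw [hK, ha]; push_cast; ring
  have hy' : (3 : ℝ) ≤ y := by exact_mod_cast hy
  have hK0' : (0 : ℝ) ≤ K0 := Nat.cast_nonneg _
  have hbase1 : 15 * a ^ 2 * K1 ≤ K := by
    have h1 : 15 * a ^ 2 * K1 ≤ 1500 * a ^ 2 * K1 * K2 := by
      have : 0 ≤ a ^ 2 * K1 := by positivity
      nlinarith
    rw [hKa]; linarith
  have hbase2 : 100 * a * K2 ≤ K := by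
    have h1 : 100 * a * K2 ≤ 1500 * a ^ 2 * K1 * K2 := by
      have h2 : 0 ≤ a * K2 := by positivity
      have h3 : 1 ≤ a * K1 := by nlinarith
      have h4 : a * K2 * 1 ≤ a * K2 * (a * K1) := mul_le_mul_of_nonneg_left h3 h2
      nlinarith
    rw [hKa]; linarith
  have hK2' : 2 ≤ K := by rw [hKa]; linarith
  have hKl1 : 1 ≤ K * lam := by nlinarith
  have hKl2 : 2 ≤ K * lam := by nlinarith
  -- the number t
  have htR : (t : ℝ) = a * (j + 1) := by rw [ht, ha]; push_cast; ring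
  have hj0 : (0 : ℝ) ≤ j := Nat.cast_nonneg _
  have htl : (t : ℝ) ≤ a * lam := by rw [htR]; exact mul_le_mul_of_nonneg_left hj (by linarith)
  obtain ⟨n, hn⟩ : ∃ n : ℕ, n = (M + 1) * (j + 1) := ⟨_, rfl⟩
  have hn1 : 1 ≤ n := by rw [hn]; exact Nat.one_le_iff_ne_zero.mpr (by positivity)
  rw [← hn] at ht
  have ht1 : (1 : ℝ) ≤ t := by rw [ht]; exact_mod_cast hn1
  -- R
  have hR : (pR t E Y : ℝ) ≤ 100 * a * K2 * lam ^ 3 := by
    have : (pR t E Y : ℝ) = 100 * t * E * Y := by unfold pR; push_cast; ring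
    rw [this]
    have e1 : (t : ℝ) * E ≤ (a * lam) * lam :=
      mul_le_mul htl hE (Nat.cast_nonneg _) (by positivity)
    have e2 : (t : ℝ) * E * Y ≤ (a * lam) * lam * (K2 * lam) :=
      mul_le_mul e1 hY (Nat.cast_nonneg _) (by positivity)
    have e3 : 100 * (a * lam * lam * (K2 * lam)) = 100 * a * K2 * lam ^ 3 := by ring
    have e4 : 100 * (t : ℝ) * E * Y = 100 * (t * E * Y) := by ring
    rw [e4, ← e3]; linarith
  have hR2 : (pR t E Y : ℝ) ≤ (K * lam) ^ 3 := by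
    have e1 : 100 * a * K2 ≤ K ^ 3 := by
      have : K * 1 ≤ K * K ^ 2 := by
        apply mul_le_mul_of_nonneg_left _ (by linarith)
        nlinarith
      calc 100 * a * K2 ≤ K * 1 := by linarith
        _ ≤ K * K ^ 2 := this
        _ = K ^ 3 := by ring
    calc (pR t E Y : ℝ) ≤ 100 * a * K2 * lam ^ 3 := hR
      _ ≤ K ^ 3 * lam ^ 3 := mul_le_mul_of_nonneg_right e1 (by positivity)
      _ = (K * lam) ^ 3 := by ring
  have hRp : (pR t E Y : ℝ) ^ (32 * t + 64) ≤ (K * lam) ^ (288 * n) :=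
    f6_R (K * lam) _ hKl1 (Nat.cast_nonneg _) hR2 _ _ (by omega)
  have hRp0 : (0 : ℝ) ≤ (pR t E Y : ℝ) ^ (32 * t + 64) := pow_nonneg (Nat.cast_nonneg _) _
  -- Cm
  have hCm2 : (Cm : ℝ) ≤ 6 * t * X ^ ((1 : ℝ) / M) :=
    f6_Cm M hM X hX t V Cm (by omega) hV hCm
  obtain ⟨xm, hxm⟩ : ∃ xm : ℝ, xm = X ^ ((1 : ℝ) / M) := ⟨_, rfl⟩
  have hxm1 : 1 ≤ xm := by rw [hxm]; exact Real.one_le_rpow hX (by positivity)
  rw [← hxm] at hCm2 ⊢
  obtain ⟨yp, hyp⟩ : ∃ yp : ℝ, yp = (y : ℝ) ^ (1 + 2 * η) := ⟨_, rfl⟩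
  have hyp0 : 0 ≤ yp := by rw [hyp]; exact Real.rpow_nonneg (by linarith) _
  have hypp : (y : ℝ) * yp = (y : ℝ) ^ (2 + 2 * η) := by
    rw [hyp]
    have h1 : (y : ℝ) ^ (2 + 2 * η) = (y : ℝ) ^ (1 : ℝ) * (y : ℝ) ^ (1 + 2 * η) := by
      rw [← Real.rpow_add (by linarith)]; congr 1; ring
    rw [h1, Real.rpow_one]
  have hyq2 : (y : ℝ) ^ 2 ≤ (y : ℝ) ^ (2 + 2 * η) := by
    have h1 : (y : ℝ) ^ (2 : ℕ) = (y : ℝ) ^ ((2 : ℕ) : ℝ) := (Real.rpow_natCast _ _).symm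
    rw [h1]
    apply Real.rpow_le_rpow_of_exponent_le (by linarith)
    push_cast; linarith
  rw [← hyp] at hw
  rw [← hypp] at hyq2 ⊢
  have hyq1 : 1 ≤ (y : ℝ) * yp := by nlinarith
  have hyZ : (y : ℝ) * ZZ t Cm E Y w ≤
      xm * (y * yp) * (12 * a ^ 2 * K1 * lam ^ 3 * (K * lam) ^ (288 * n)) := by
    unfold ZZ
    exact f6_num a K1 K2 K lam xm yp y t w Cm _ _ ha2 hK1 hl1 hxm1 hyp0 hy' ht1 htl
      (Nat.cast_nonneg _) hCm2 hw hRp0 hRp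
  have hxy1 : 1 ≤ xm * ((y : ℝ) * yp) := by nlinarith
  have hylog : (y : ℝ) * log y ≤ xm * (y * yp) * 1 := by
    have h1 : log (y : ℝ) ≤ y := by
      have := Real.log_le_sub_one_of_pos (show (0 : ℝ) < y by linarith)
      linarith
    have h2 : (y : ℝ) * log y ≤ y * y := mul_le_mul_of_nonneg_left h1 (by linarith)
    have h3 : (y : ℝ) * yp ≤ xm * (y * yp) := by nlinarith
    nlinarith
  have hlog4 : log (4 * X) ≤ xm * (y * yp) * (2 * lam) := by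
    have h1 : log (4 * X) = log 4 + log X := Real.log_mul (by norm_num) (by linarith)
    have h2 : log (4 : ℝ) ≤ 2 := by
      rw [show (4 : ℝ) = 2 ^ 2 by norm_num, Real.log_pow]
      have := Real.log_two_lt_d9
      push_cast; linarith
    have h3 : log (4 * X) ≤ 2 * lam := by rw [h1, hlam]; linarith
    have h4 : 0 ≤ 2 * lam := by linarith
    nlinarith
  obtain ⟨PP, hPP⟩ : ∃ PP : ℝ, PP = (K * lam) ^ (288 * n) := ⟨_, rfl⟩
  have hpow1 : 1 ≤ PP := by rw [hPP]; exact one_le_pow₀ hKl1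
  rw [← hPP] at hyZ
  have hs := f6_sum a K1 K lam PP ha2 hK1 hl1 hpow1 hbase1 hK2'
  obtain ⟨U, hU⟩ : ∃ U : ℝ, U = xm * (y * yp) := ⟨_, rfl⟩
  rw [← hU] at hyZ hylog hlog4 hxy1 ⊢
  have hsum : (y : ℝ) * log y + y * ZZ t Cm E Y w + log (4 * X) ≤ U * ((K * lam) ^ 3 * PP) := by
    have h0 := mul_le_mul_of_nonneg_left hs (show (0 : ℝ) ≤ U by linarith)
    have h1 : U * (1 + 12 * a ^ 2 * K1 * lam ^ 3 * PP + 2 * lam) =
      U * 1 + U * (12 * a ^ 2 * K1 * lam ^ 3 * PP) + U * (2 * lam) := by ring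
    rw [h1] at h0
    linarith
  have htwo : (2 : ℝ) ^ (2 * j + t) ≤ (K * lam) ^ (2 * n) := by
    have e1 : (2 : ℝ) ^ (2 * j + t) ≤ (K * lam) ^ (2 * j + t) :=
      pow_le_pow_left₀ (by norm_num) hKl2 _
    have e2 : 2 * j + t ≤ 2 * n := by
      have : 2 * (j + 1) ≤ n := by rw [hn]; exact Nat.mul_le_mul_right _ (by omega)
      omega
    exact e1.trans (pow_le_pow_right₀ hKl1 e2)
  have hfin : (K * lam) ^ (2 * n) * ((K * lam) ^ 3 * PP) ≤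
      (K * lam) ^ ((K0 + 300 * (M + 1)) * (j + 1)) := by
    rw [hPP, ← pow_add, ← pow_add]
    apply pow_le_pow_right₀ hKl1
    have h2 : (K0 + 300 * (M + 1)) * (j + 1) = K0 * (j + 1) + 300 * ((M + 1) * (j + 1)) := by ring
    rw [h2, ← hn]
    have h3 : 0 ≤ K0 * (j + 1) := Nat.zero_le _
    omega
  have hU0 : 0 ≤ U := by linarith
  have hS0 : 0 ≤ U * ((K * lam) ^ 3 * PP) :=
    mul_nonneg hU0 (mul_nonneg (pow_nonneg (by linarith) _) (by linarith))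
  calc (2 : ℝ) ^ (2 * j + t) * (y * log y + y * ZZ t Cm E Y w + log (4 * X))
      ≤ 2 ^ (2 * j + t) * (U * ((K * lam) ^ 3 * PP)) :=
        mul_le_mul_of_nonneg_left hsum (by positivity)
    _ ≤ (K * lam) ^ (2 * n) * (U * ((K * lam) ^ 3 * PP)) :=
        mul_le_mul_of_nonneg_right htwo hS0
    _ = U * ((K * lam) ^ (2 * n) * ((K * lam) ^ 3 * PP)) := by ring
    _ ≤ U * (K * lam) ^ ((K0 + 300 * (M + 1)) * (j + 1)) := mul_le_mul_of_nonneg_left hfin hU0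
-- END F6

-- BEGIN F7
/-- F7. assembly of F1-F6 and `process_light` (`E = ⌈log y⌉ ≤ 1 + log y ≤ 1 + log X`, `E ≤ w`). -/
theorem main_ineq (η : ℝ) (hη : 0 < η) (hη1 : η ≤ 1 / 2) (M : ℕ) (hM : 1 ≤ M) :
    ∃ K : ℕ, 1 ≤ K ∧ ∀ N y : ℕ, Odd N → Nat.Perfect N → 3 ≤ y → (y : ℝ) ≤ log N →
      ((Lg N y).card + 1 : ℝ) ≤ 1 + log (log N) →
      log N ≤ (log N) ^ ((1 : ℝ) / M) * (y : ℝ) ^ (2 + 2 * η) *
        (K * (1 + log (log N))) ^ (K * ((Lg N y).card + 1)) := by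
  obtain ⟨C1, hC1, hF1⟩ := heavy_card η hη
  obtain ⟨K1, hK1, hF4⟩ := w_bound η hη C1 hC1
  obtain ⟨K2, hK2, hF5⟩ := Y_bound η hη hη1 M hM K1 hK1
  obtain ⟨K, hK, hF6⟩ := size_bound η hη M hM K1 K2 hK1 hK2
  refine ⟨K, hK, fun N y hodd hN hy hyX hj => ?_⟩
  obtain ⟨hX1, hV3, hom, hom1⟩ := basics N hodd hN
  set X : ℝ := log (N : ℝ) with hX
  set j : ℕ := (Lg N y).card with hjdef
  set V : ℕ := Nat.log 2 N + 1 with hV
  set t : ℕ := (M + 1) * (j + 1) with ht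
  have hV1 : 1 ≤ V := by omega
  have ht1 : 1 ≤ t := by
    rw [ht]
    exact Nat.mul_pos (by omega) (by omega)
  have htV : 1 ≤ t * V := Nat.mul_pos ht1 hV1
  obtain ⟨Cm, hCm1, hCmM, hCm2⟩ := exists_root (t * V) M htV hM
  set w : ℝ := K1 * (y : ℝ) ^ (1 + 2 * η) * (1 + log X) with hw
  have hlogX : 0 ≤ log X := Real.log_nonneg hX1
  have hy1 : (1 : ℝ) ≤ y := by exact_mod_cast (by omega : 1 ≤ y)
  have hy3 : (3 : ℝ) ≤ y := by exact_mod_cast hy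
  have hy0 : (0 : ℝ) < y := by linarith
  have hypow : (1 : ℝ) ≤ (y : ℝ) ^ (1 + 2 * η) := Real.one_le_rpow hy1 (by linarith)
  have hcoef : (1 : ℝ) ≤ K1 * (y : ℝ) ^ (1 + 2 * η) := by nlinarith
  have hw1 : 1 + log X ≤ w := by
    rw [hw]
    nlinarith
  have hlogy : 1 ≤ log (y : ℝ) := by
    rw [Real.le_log_iff_exp_le hy0]
    have := Real.exp_one_lt_d9
    linarith
  have hlogyX : log (y : ℝ) ≤ log X := Real.log_le_log hy0 hyX
  set E : ℕ := ⌈log (y : ℝ)⌉₊ with hE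
  have hE1 : log (y : ℝ) ≤ E := Nat.le_ceil _
  have hE2 : (E : ℝ) < log (y : ℝ) + 1 := Nat.ceil_lt_add_one (by linarith)
  have hE3 : (E : ℝ) ≤ 1 + log X := by linarith
  have hE4 : (E : ℝ) ≤ w := hE3.trans hw1
  have hE5 : 1 ≤ E := by
    have h1 : (1 : ℝ) ≤ E := hlogy.trans hE1
    exact_mod_cast h1
  have hjr : ((j : ℝ) + 1) ≤ 1 + log X := hj
  have h4 := hF4 X y j V hX1 hy hyX hjr hV1 hV3
  obtain ⟨Bb, Y, hY1, hBb, hYl, hY2⟩ := hF5 X y j t V Cm w hX1 hy hyX hjr ht hV1 hV3 hCm1 hCm2 hw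
  have h1 := hF1 N y M t V Cm E Y Bb w hodd hN hy hM ht hV hCm1 hCmM h4 hE1 hE4 hE5 hY1 hBb hYl
  have hw0 : 0 ≤ w := by linarith
  have hZ : 0 ≤ ZZ t Cm E Y w := by
    unfold ZZ
    positivity
  have h5 := process_light N y j t (ZZ t Cm E Y w) hodd hN (by omega) hZ le_rfl h1.le
  have h6 := hF6 X y j t V Cm E Y w hX1 hy hyX hjr ht hV1 hV3 hCm1 hCm2 hw hE3 hY2
  have hlog4 : log (4 * (N.primeFactors.card : ℝ)) ≤ log (4 * X) := by
    have h7 : (0 : ℝ) < N.primeFactors.card := by exact_mod_cast hom1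
    exact Real.log_le_log (by positivity) (by linarith)
  have h8 : (2 : ℝ) ^ (2 * j + t) * (y * log y + y * ZZ t Cm E Y w +
      log (4 * (N.primeFactors.card : ℝ))) ≤
      2 ^ (2 * j + t) * (y * log y + y * ZZ t Cm E Y w + log (4 * X)) :=
    mul_le_mul_of_nonneg_left (by linarith) (by positivity)
  exact (h5.trans h8).trans h6
-- END F7

-- BEGIN F8
/-- F8. `(K λ)^K ≤ C X^δ` for `λ = 1 + log X`, `X ≥ 1` (`1 + log X ≤ C_a X^a` for every `a > 0`). -/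
lemma absorb_log (K : ℕ) (hK : 1 ≤ K) (δ : ℝ) (hδ : 0 < δ) : ∃ C : ℝ, 1 ≤ C ∧ ∀ X : ℝ, 1 ≤ X →
    (K * (1 + log X)) ^ K ≤ C * X ^ δ := by
  have hK0 : (0 : ℝ) < K := by exact_mod_cast hK
  have hK1 : (1 : ℝ) ≤ K := by exact_mod_cast hK
  obtain ⟨a, ha⟩ : ∃ a, a = δ / K := ⟨_, rfl⟩
  have ha0 : 0 < a := by rw [ha]; positivity
  have hinv : 0 ≤ 1 / a := by positivity
  refine ⟨(K * (1 + 1 / a)) ^ K, one_le_pow₀ (by nlinarith), fun X hX => ?_⟩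
  have hX0 : 0 < X := by linarith
  have hl0 : 0 ≤ log X := Real.log_nonneg hX
  have h1 : log X ≤ X ^ a / a := Real.log_le_rpow_div hX0.le ha0
  have h2 : 1 ≤ X ^ a := Real.one_le_rpow hX ha0.le
  have h3 : 1 + log X ≤ (1 + 1 / a) * X ^ a := by
    have : (1 + 1 / a) * X ^ a = X ^ a + X ^ a / a := by ring
    rw [this]
    linarith
  have h4 : (X ^ a) ^ K = X ^ δ := by
    rw [← Real.rpow_natCast, ← Real.rpow_mul hX0.le, ha, div_mul_cancel₀ _ hK0.ne']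
  calc (K * (1 + log X)) ^ K ≤ (K * ((1 + 1 / a) * X ^ a)) ^ K := by
        refine pow_le_pow_left₀ (by positivity) ?_ K
        exact mul_le_mul_of_nonneg_left h3 hK0.le
    _ = (K * (1 + 1 / a)) ^ K * (X ^ a) ^ K := by rw [← mul_pow, mul_assoc]
    _ = (K * (1 + 1 / a)) ^ K * X ^ δ := by rw [h4]

/-- F8. solving for `X`: `X^(1-2/M) ≤ C y^(2+2η) (K λ)^(K j)`, `1/(1-2/M) ≤ 2`. -/
lemma solve (ε : ℝ) (hε : 0 < ε) (η : ℝ) (hη : 0 < η) (M K : ℕ) (hM : 4 ≤ M) (hK : 1 ≤ K)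
    (hεM : (2 + 2 * η) * ((M : ℝ) / (M - 2)) ≤ 2 + ε) : ∃ C : ℕ, 1 ≤ C ∧ ∀ (X : ℝ) (y j : ℕ),
    1 ≤ X → 1 ≤ y →
    X ≤ X ^ ((1 : ℝ) / M) * (y : ℝ) ^ (2 + 2 * η) * (K * (1 + log X)) ^ (K * (j + 1)) →
    X ≤ C * (y : ℝ) ^ (2 + ε) * (C * (1 + log X)) ^ (C * j) := by
  have hM0 : (4 : ℝ) ≤ M := by exact_mod_cast hM
  obtain ⟨C₁, hC₁, habs⟩ := absorb_log K hK (1 / M) (by positivity)
  obtain ⟨p, hp⟩ : ∃ p, p = (M : ℝ) / (M - 2) := ⟨_, rfl⟩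
  rw [← hp] at hεM
  have hM2 : (0 : ℝ) < M - 2 := by linarith
  have hp0 : 0 < p := by rw [hp]; exact div_pos (by linarith) hM2
  have hp2 : p ≤ 2 := by
    rw [hp, div_le_iff₀ hM2]
    linarith
  have hp1 : (1 - 2 / (M : ℝ)) * p = 1 := by
    rw [hp]
    have : (M : ℝ) ≠ 0 := by positivity
    field_simp
  refine ⟨max ⌈C₁ ^ 2⌉₊ (2 * K), le_trans (by omega) (le_max_right _ _), fun X y j hX hy h => ?_⟩
  obtain ⟨C, hC⟩ : ∃ C : ℕ, C = max ⌈C₁ ^ 2⌉₊ (2 * K) := ⟨_, rfl⟩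
  rw [← hC]
  have hCa : C₁ ^ 2 ≤ C := by
    rw [hC]
    exact (Nat.le_ceil _).trans (by exact_mod_cast le_max_left _ _)
  have hCb : 2 * K ≤ C := by
    rw [hC]
    exact le_max_right _ _
  have hX0 : 0 < X := by linarith
  have hl0 : 0 ≤ log X := Real.log_nonneg hX
  have hK1 : (1 : ℝ) ≤ K := by exact_mod_cast hK
  have hy1 : (1 : ℝ) ≤ y := by exact_mod_cast hy
  have hy0 : (0 : ℝ) < y := by linarith
  have hKl : 1 ≤ K * (1 + log X) := by nlinarith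
  obtain ⟨U, hU⟩ : ∃ U, U = (K * (1 + log X)) ^ (K * j) := ⟨_, rfl⟩
  have hU1 : 1 ≤ U := by rw [hU]; exact one_le_pow₀ hKl
  obtain ⟨V, hV⟩ : ∃ V, V = (y : ℝ) ^ (2 + 2 * η) := ⟨_, rfl⟩
  have hV1 : 1 ≤ V := by rw [hV]; exact Real.one_le_rpow hy1 (by linarith)
  have hab := habs X hX
  have h1 : X ≤ X ^ (2 / (M : ℝ)) * (C₁ * V * U) := by
    have e1 : (K * (1 + log X)) ^ (K * (j + 1)) = U * (K * (1 + log X)) ^ K := by
      rw [hU, ← pow_add]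
      congr 1
    rw [e1, ← hV] at h
    have e2 : X ^ (2 / (M : ℝ)) = X ^ (1 / (M : ℝ)) * X ^ (1 / (M : ℝ)) := by
      rw [← Real.rpow_add hX0]
      congr 1
      ring
    have e3 : (0 : ℝ) ≤ X ^ (1 / (M : ℝ)) := Real.rpow_nonneg hX0.le _
    calc X ≤ X ^ (1 / (M : ℝ)) * V * (U * (K * (1 + log X)) ^ K) := h
      _ ≤ X ^ (1 / (M : ℝ)) * V * (U * (C₁ * X ^ (1 / (M : ℝ)))) := by
          refine mul_le_mul_of_nonneg_left ?_ (by positivity)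
          exact mul_le_mul_of_nonneg_left hab (by linarith)
      _ = X ^ (2 / (M : ℝ)) * (C₁ * V * U) := by rw [e2]; ring
  have h2 : X ^ (1 - 2 / (M : ℝ)) ≤ C₁ * V * U := by
    rw [Real.rpow_sub hX0, Real.rpow_one, div_le_iff₀ (Real.rpow_pos_of_pos hX0 _), mul_comm]
    exact h1
  have h3 : X ≤ (C₁ * V * U) ^ p := by
    have e1 : (X ^ (1 - 2 / (M : ℝ))) ^ p = X := by
      rw [← Real.rpow_mul hX0.le, hp1, Real.rpow_one]
    calc X = (X ^ (1 - 2 / (M : ℝ))) ^ p := e1.symm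
      _ ≤ (C₁ * V * U) ^ p := Real.rpow_le_rpow (Real.rpow_nonneg hX0.le _) h2 hp0.le
  have h4 : C₁ ^ p ≤ C := by
    calc C₁ ^ p ≤ C₁ ^ (2 : ℝ) := Real.rpow_le_rpow_of_exponent_le hC₁ hp2
      _ = C₁ ^ 2 := Real.rpow_two C₁
      _ ≤ C := hCa
  have h5 : V ^ p ≤ (y : ℝ) ^ (2 + ε) := by
    rw [hV, ← Real.rpow_mul hy0.le]
    exact Real.rpow_le_rpow_of_exponent_le hy1 hεM
  have h6 : U ^ p ≤ (C * (1 + log X)) ^ (C * j) := by
    calc U ^ p ≤ U ^ (2 : ℝ) := Real.rpow_le_rpow_of_exponent_le hU1 hp2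
      _ = (K * (1 + log X)) ^ (2 * K * j) := by
          rw [Real.rpow_two, hU, ← pow_mul]
          congr 1
          ring
      _ ≤ (C * (1 + log X)) ^ (2 * K * j) := by
          refine pow_le_pow_left₀ (by linarith) ?_ _
          refine mul_le_mul_of_nonneg_right ?_ (by linarith)
          exact_mod_cast (show K ≤ C by omega)
      _ ≤ (C * (1 + log X)) ^ (C * j) := by
          refine pow_le_pow_right₀ ?_ (Nat.mul_le_mul_right j hCb)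
          have : (1 : ℝ) ≤ C := by exact_mod_cast (show 1 ≤ C by omega)
          nlinarith
  calc X ≤ (C₁ * V * U) ^ p := h3
    _ = C₁ ^ p * V ^ p * U ^ p := by
        rw [Real.mul_rpow (by positivity) (by linarith), Real.mul_rpow (by linarith) (by linarith)]
    _ ≤ C * (y : ℝ) ^ (2 + ε) * (C * (1 + log X)) ^ (C * j) := by
        refine mul_le_mul (mul_le_mul h4 h5 (by positivity) (by positivity)) h6 (by positivity)
          (by positivity)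
-- END F8

-- BEGIN F9
private lemma F9_mono (a b : ℕ) (ha : 1 ≤ a) (hab : a ≤ b) (u : ℝ) (hu : 1 ≤ u) (i j : ℕ)
    (hij : i ≤ j) : ((a : ℝ) * u) ^ (a * i) ≤ ((b : ℝ) * u) ^ (b * j) := by
  have h1 : (1 : ℝ) ≤ a := by exact_mod_cast ha
  have h2 : (a : ℝ) ≤ b := by exact_mod_cast hab
  have h3 : 1 ≤ (b : ℝ) * u := by nlinarith
  calc ((a : ℝ) * u) ^ (a * i) ≤ ((b : ℝ) * u) ^ (a * i) :=
        pow_le_pow_left₀ (by positivity) (mul_le_mul_of_nonneg_right h2 (by linarith)) _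
    _ ≤ ((b : ℝ) * u) ^ (b * j) := pow_le_pow_right₀ h3 (Nat.mul_le_mul hab hij)

/-- F9. MAIN THEOREM, first form.  `η`, `M` from `ε` (F8 `solve`); cases: `y ≤ 2` (use `y = 3`, `3^(2+ε) ≤ C 2^(2+ε)`, more
primes above `2` than above `3`); `y > log N` trivial; `j ≥ 1` and `j + 1 > 1 + log X`:
`(C λ)^(C j) ≥ X` (`C ≥ 4`); otherwise F7 and F8. -/
theorem main_form (ε : ℝ) (hε : 0 < ε) : ∃ C : ℕ, 1 ≤ C ∧ ∀ N y : ℕ, Odd N → Nat.Perfect N →
    2 ≤ y → log N ≤ C * (y : ℝ) ^ (2 + ε) * (C * (1 + log (log N))) ^ (C * (Lg N y).card) := by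
  obtain ⟨η, hη⟩ : ∃ η, η = min (ε / 4) (1 / 2) := ⟨_, rfl⟩
  have hη0 : 0 < η := by rw [hη]; exact lt_min (by linarith) (by norm_num)
  have hη1 : η ≤ 1 / 2 := by rw [hη]; exact min_le_right _ _
  have hη2 : η ≤ ε / 4 := by rw [hη]; exact min_le_left _ _
  obtain ⟨M, hM⟩ : ∃ M, M = ⌈12 / ε⌉₊ + 4 := ⟨_, rfl⟩
  have hM4 : 4 ≤ M := by omega
  have hMr : 12 / ε + 4 ≤ (M : ℝ) := by
    rw [hM]
    push_cast
    have := Nat.le_ceil (12 / ε)
    linarith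
  have hM2 : (0 : ℝ) < M - 2 := by
    have : 0 < 12 / ε := by positivity
    linarith
  have hεM : (2 + 2 * η) * ((M : ℝ) / (M - 2)) ≤ 2 + ε := by
    have h1 : 12 / ε ≤ (M : ℝ) - 2 := by linarith
    have h2 : 12 ≤ ((M : ℝ) - 2) * ε := by
      rwa [div_le_iff₀ hε] at h1
    rw [← mul_div_assoc, div_le_iff₀ hM2]
    nlinarith
  obtain ⟨K, hK, hmain⟩ := main_ineq η hη0 hη1 M (by omega)
  obtain ⟨C₂, hC₂, hsolve⟩ := solve ε hε η hη0 M K hM4 hK hεM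
  -- the case `y ≥ 3`
  obtain ⟨D, hD⟩ : ∃ D : ℕ, D = max C₂ 4 := ⟨_, rfl⟩
  have hDa : C₂ ≤ D := by rw [hD]; exact le_max_left _ _
  have hDb : 4 ≤ D := by rw [hD]; exact le_max_right _ _
  have hD4 : (4 : ℝ) ≤ D := by exact_mod_cast hDb
  have h3 : ∀ N y : ℕ, Odd N → Nat.Perfect N → 3 ≤ y →
      log N ≤ D * (y : ℝ) ^ (2 + ε) * (D * (1 + log (log N))) ^ (D * (Lg N y).card) := by
    intro N y hodd hN hy
    have hX := (basics N hodd hN).1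
    have hl0 : 0 ≤ log (log (N : ℝ)) := Real.log_nonneg hX
    have hy3 : (3 : ℝ) ≤ y := by exact_mod_cast hy
    have hyp : (y : ℝ) ≤ (y : ℝ) ^ (2 + ε) := by
      calc (y : ℝ) = (y : ℝ) ^ (1 : ℝ) := (Real.rpow_one _).symm
        _ ≤ (y : ℝ) ^ (2 + ε) := Real.rpow_le_rpow_of_exponent_le (by linarith) (by linarith)
    have hone : 1 ≤ (D * (1 + log (log (N : ℝ)))) ^ (D * (Lg N y).card) :=
      one_le_pow₀ (by nlinarith)
    rcases lt_or_ge (log (N : ℝ)) (y : ℝ) with h | h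
    · have h4 : (y : ℝ) ≤ D * (y : ℝ) ^ (2 + ε) := by nlinarith
      have h5 : D * (y : ℝ) ^ (2 + ε) * 1 ≤
          D * (y : ℝ) ^ (2 + ε) * (D * (1 + log (log (N : ℝ)))) ^ (D * (Lg N y).card) :=
        mul_le_mul_of_nonneg_left hone (by positivity)
      linarith
    · rcases lt_or_ge (1 + log (log (N : ℝ))) ((Lg N y).card + 1 : ℝ) with h' | h'
      · -- many primes
        have h4 : log (log (N : ℝ)) ≤ (Lg N y).card := by linarith
        have h5 : log (N : ℝ) ≤ Real.exp ((Lg N y).card) := by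
          rw [← Real.log_le_iff_le_exp (by linarith)]
          exact h4
        have h6 : Real.exp ((Lg N y).card : ℝ) ≤
            (D * (1 + log (log (N : ℝ)))) ^ (D * (Lg N y).card) := by
          have e1 : Real.exp ((Lg N y).card : ℝ) = Real.exp 1 ^ (Lg N y).card := by
            rw [← Real.exp_nat_mul, mul_one]
          have e2 : Real.exp 1 ≤ D * (1 + log (log (N : ℝ))) := by
            have := Real.exp_one_lt_d9
            nlinarith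
          rw [e1]
          refine (pow_le_pow_left₀ (Real.exp_pos 1).le e2 _).trans ?_
          refine pow_le_pow_right₀ (by nlinarith) ?_
          exact Nat.le_mul_of_pos_left _ (by omega)
        have h7 : (1 : ℝ) ≤ D * (y : ℝ) ^ (2 + ε) := by nlinarith
        have h8 : (0 : ℝ) ≤ (D * (1 + log (log (N : ℝ)))) ^ (D * (Lg N y).card) := by positivity
        nlinarith
      · have h4 := hmain N y hodd hN hy h h'
        have h5 := hsolve (log N) y (Lg N y).card hX (by omega) h4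
        refine h5.trans ?_
        have h6 := F9_mono C₂ D hC₂ hDa (1 + log (log (N : ℝ))) (by linarith) (Lg N y).card
          (Lg N y).card le_rfl
        have h7 : (C₂ : ℝ) ≤ D := by exact_mod_cast hDa
        have h8 : (0 : ℝ) ≤ (y : ℝ) ^ (2 + ε) := by positivity
        exact mul_le_mul (mul_le_mul_of_nonneg_right h7 h8) h6 (by positivity) (by positivity)
  -- all `y`
  refine ⟨⌈D * (3 / 2 : ℝ) ^ (2 + ε)⌉₊ + D, by omega, fun N y hodd hN hy => ?_⟩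
  obtain ⟨C, hC⟩ : ∃ C : ℕ, C = ⌈D * (3 / 2 : ℝ) ^ (2 + ε)⌉₊ + D := ⟨_, rfl⟩
  rw [← hC]
  have hCD : D ≤ C := by omega
  have hCr : D * (3 / 2 : ℝ) ^ (2 + ε) ≤ C := by
    rw [hC]
    push_cast
    have := Nat.le_ceil (D * (3 / 2 : ℝ) ^ (2 + ε))
    linarith
  have hX := (basics N hodd hN).1
  have hl0 : 0 ≤ log (log (N : ℝ)) := Real.log_nonneg hX
  rcases Nat.lt_or_ge y 3 with h | h
  · have hy2 : y = 2 := by omega
    subst hy2
    have h4 := h3 N 3 hodd hN le_rfl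
    have hsub : (Lg N 3).card ≤ (Lg N 2).card := by
      refine Finset.card_le_card fun p hp => ?_
      unfold Lg at hp ⊢
      rw [Finset.mem_filter] at hp ⊢
      exact ⟨hp.1, by have := hp.2; omega⟩
    have h5 := F9_mono D C (by omega) hCD (1 + log (log (N : ℝ))) (by linarith) (Lg N 3).card
      (Lg N 2).card hsub
    have h6 : D * ((3 : ℕ) : ℝ) ^ (2 + ε) ≤ C * ((2 : ℕ) : ℝ) ^ (2 + ε) := by
      push_cast
      have e1 : (3 : ℝ) ^ (2 + ε) = (3 / 2 : ℝ) ^ (2 + ε) * (2 : ℝ) ^ (2 + ε) := by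
        rw [← Real.mul_rpow (by norm_num) (by norm_num)]
        norm_num
      rw [e1, ← mul_assoc]
      exact mul_le_mul_of_nonneg_right hCr (by positivity)
    exact h4.trans (mul_le_mul h6 h5 (by positivity) (by positivity))
  · have h4 := h3 N y hodd hN h
    have h5 := F9_mono D C (by omega) hCD (1 + log (log (N : ℝ))) (by linarith) (Lg N y).card
      (Lg N y).card le_rfl
    have h6 : (D : ℝ) * (y : ℝ) ^ (2 + ε) ≤ C * (y : ℝ) ^ (2 + ε) :=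
      mul_le_mul_of_nonneg_right (by exact_mod_cast hCD) (by positivity)
    exact h4.trans (mul_le_mul h6 h5 (by positivity) (by positivity))
-- END F9

end Pool.Agent.Lib.MP_f02ea4_nt.Ml
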