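import Mathlib
import Pool.Agent.Lib.MP_f02ea4_nt.Mg.G018
import Pool.Agent.Lib.MP_f02ea4_nt.Mg.G020

/-! Many large primes, part I: the final theorem. -/

set_option autoImplicit false

namespace Pool.Agent.Lib.MP_f02ea4_nt.Ml

open Finset Real Sm

lemma i_loglog_pos (N : ℕ) (hodd : Odd N) (hN : Nat.Perfect N) : 1 / 12 ≤ log (log (N : ℝ)) := by
  have := loglog_ge N hodd hN
  linarith

/-- all parts with one constant -/
theorem final (ε : ℝ) (hε : 0 < ε) : ∃ C : ℕ, 1 ≤ C ∧ ∀ N : ℕ, Odd N → Nat.Perfect N →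
    (∀ y : ℕ, 2 ≤ y →
      log N ≤ C * (y : ℝ) ^ ((if (N.primeFactors.filter (y < ·)).card = 0 then 3 / 2 else 2) + ε) *
        (C * log (log N)) ^ (C * (N.primeFactors.filter (y < ·)).card)) ∧
    (C ≤ N → log (log N) ≤
      C * (N.primeFactors.filter (fun p : ℕ => log (N : ℝ) ^ (1 / 2 - ε) < p)).card *
        log (log (log N))) ∧
    (C ≤ N → log (log N) ^ 2 ≤ C * log ((∏ p ∈ N.primeFactors, p : ℕ) : ℝ) *
        log (log (log N))) := by
  obtain ⟨Ca, ha⟩ := part_a ε hε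
  obtain ⟨Cb, hb1, hb⟩ := form2 ε hε
  obtain ⟨c, N0, hc, hcount⟩ := count_large ε hε
  obtain ⟨c', N0', hc', hrad⟩ := radical_large
  obtain ⟨C1, hC1⟩ := exists_nat_ge Ca
  obtain ⟨C2, hC2⟩ := exists_nat_ge (1 / c)
  obtain ⟨C3, hC3⟩ := exists_nat_ge (1 / c')
  obtain ⟨C4, hC4⟩ := exists_nat_ge (exp (exp (exp 1)))
  obtain ⟨C, hC⟩ : ∃ C : ℕ, C = C1 + 12 * Cb + C2 + C3 + C4 + N0 + N0' := ⟨_, rfl⟩
  refine ⟨C, by omega, ?_⟩
  intro N hodd hN
  have hll := i_loglog_pos N hodd hN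
  have hCCb : Cb ≤ C := by omega
  have hC12 : 12 ≤ C := by omega
  have hCR : (12 : ℝ) ≤ C := by exact_mod_cast hC12
  refine ⟨?_, ?_, ?_⟩
  · intro y hy
    have hy0 : (0 : ℝ) ≤ (y : ℝ) := Nat.cast_nonneg y
    by_cases hcard : (N.primeFactors.filter (y < ·)).card = 0
    · rw [if_pos hcard, hcard, mul_zero, pow_zero, mul_one]
      have h1 : ∀ p ∈ N.primeFactors, p ≤ y := by
        intro p hp
        by_contra hcon
        have h2 : p ∈ N.primeFactors.filter (y < ·) :=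
          Finset.mem_filter.2 ⟨hp, not_le.1 hcon⟩
        rw [Finset.card_eq_zero.1 hcard] at h2
        exact Finset.notMem_empty p h2
      refine (ha N y hodd hN h1).trans ?_
      refine mul_le_mul_of_nonneg_right ?_ (rpow_nonneg hy0 _)
      refine hC1.trans ?_
      exact_mod_cast (by omega : C1 ≤ C)
    · rw [if_neg hcard]
      refine (hb N y hodd hN hy).trans ?_
      have hb0 : (0 : ℝ) ≤ (Cb : ℝ) * log (log (N : ℝ)) :=
        mul_nonneg (Nat.cast_nonneg _) (by linarith)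
      have hb2 : (Cb : ℝ) * log (log (N : ℝ)) ≤ (C : ℝ) * log (log (N : ℝ)) :=
        mul_le_mul_of_nonneg_right (by exact_mod_cast hCCb) (by linarith)
      have hb3 : (1 : ℝ) ≤ (C : ℝ) * log (log (N : ℝ)) := by nlinarith
      have h3 : ((Cb : ℝ) * log (log (N : ℝ))) ^ (Cb * (N.primeFactors.filter (y < ·)).card) ≤
          ((C : ℝ) * log (log (N : ℝ))) ^ (C * (N.primeFactors.filter (y < ·)).card) :=
        (pow_le_pow_left₀ hb0 hb2 _).trans
          (pow_le_pow_right₀ hb3 (Nat.mul_le_mul_right _ hCCb))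
      refine mul_le_mul ?_ h3 (pow_nonneg hb0 _) (by positivity)
      exact mul_le_mul_of_nonneg_right (by exact_mod_cast hCCb) (rpow_nonneg hy0 _)
  · intro hCN
    have h1 := hcount N (by omega) hodd hN
    have hN4 : exp (exp (exp 1)) ≤ (N : ℝ) := hC4.trans (by exact_mod_cast (by omega : C4 ≤ N))
    have h2 : exp (exp 1) ≤ log (N : ℝ) := by
      rw [le_log_iff_exp_le (lt_of_lt_of_le (exp_pos _) hN4)]
      exact hN4
    have h3 : exp 1 ≤ log (log (N : ℝ)) := by
      rw [le_log_iff_exp_le (lt_of_lt_of_le (exp_pos _) h2)]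
      exact h2
    have h4 : 1 ≤ log (log (log (N : ℝ))) := by
      rw [le_log_iff_exp_le (lt_of_lt_of_le (exp_pos _) h3)]
      exact h3
    have h5 : 1 / c ≤ (C : ℝ) := hC2.trans (by exact_mod_cast (by omega : C2 ≤ C))
    have h6 : log (log (N : ℝ)) ≤ (1 / c) *
        (((N.primeFactors.filter (fun p : ℕ => (log (N : ℝ)) ^ (1 / 2 - ε) < p)).card : ℝ) *
        log (log (log N))) := by
      rw [one_div, inv_mul_eq_div, le_div_iff₀ hc, mul_comm]
      exact h1
    refine h6.trans ?_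
    rw [mul_assoc]
    exact mul_le_mul_of_nonneg_right h5 (mul_nonneg (Nat.cast_nonneg _) (by linarith))
  · intro hCN
    have h1 := hrad N (by omega) hodd hN
    have h5 : 1 / c' ≤ (C : ℝ) := hC3.trans (by exact_mod_cast (by omega : C3 ≤ C))
    have h6 : log (log (N : ℝ)) ^ 2 ≤ (1 / c') *
        (log ((∏ p ∈ N.primeFactors, p : ℕ) : ℝ) * log (log (log N))) := by
      rw [one_div, inv_mul_eq_div, le_div_iff₀ hc', mul_comm]
      exact h1
    refine h6.trans ?_
    rw [mul_assoc]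
    refine mul_le_mul_of_nonneg_right h5 ?_
    have h7 : 0 ≤ c' * (log (log (N : ℝ))) ^ 2 := mul_nonneg hc'.le (sq_nonneg _)
    exact h7.trans h1

end Pool.Agent.Lib.MP_f02ea4_nt.Ml
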