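import Mathlib

/-!
# Good primes: counting (third inequality for the index of an odd perfect number)

`p` an odd prime.  A prime `q` with data `a, c, κ` is *good* if
`(q - 1) * (c * p ^ κ) + 1 = q ^ (a + 1)` (i.e. `σ(q ^ a) = c * p ^ κ`) and `c ^ 10 < p ^ κ`.
-/

set_option autoImplicit false

namespace Pool.Agent.Lib.MP_f02ea4_nt.IdxK
open Finset

theorem lift {p x y κ : ℕ} (hp : p.Prime) (hp2 : p ≠ 2) (hx : ¬ p ∣ x)
    (hxy : x ≡ y [MOD p]) (h1 : x ^ (p - 1) ≡ 1 [MOD p ^ κ]) (h2 : y ^ (p - 1) ≡ 1 [MOD p ^ κ]) :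
    x ≡ y [MOD p ^ κ] := by
  have hodd : Odd p := hp.odd_of_ne_two hp2
  have h3 : x ^ (p - 1) ≡ y ^ (p - 1) [MOD p ^ κ] := h1.trans h2.symm
  have hy : ¬ (p : ℤ) ∣ (y : ℤ) := by
    intro h
    have h4 : p ∣ y := by exact_mod_cast h
    exact hx ((Nat.ModEq.dvd_iff hxy (dvd_refl p)).2 h4)
  rw [Nat.modEq_iff_dvd] at h3 hxy ⊢
  push_cast at h3 ⊢
  have h5 := Int.emultiplicity_pow_sub_pow hp hodd hxy hy (p - 1)
  have h6 : emultiplicity p (p - 1) = 0 := by
    apply emultiplicity_eq_zero.2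
    intro h
    have := Nat.le_of_dvd (by have := hp.two_le; omega) h
    have := hp.two_le
    omega
  rw [h6, add_zero] at h5
  rw [pow_dvd_iff_le_emultiplicity] at h3 ⊢
  rwa [← h5]

theorem pow_ge {m : ℕ} (hm : 2 ≤ m) : m ^ 11 ≤ 3 ^ (20 * m - 32) := by
  obtain ⟨j, rfl⟩ : ∃ j, m = j + 2 := ⟨m - 2, by omega⟩
  clear hm
  induction j with
  | zero => norm_num
  | succ j ih =>
    have h1 : 20 * (j + 1 + 2) - 32 = (20 * (j + 2) - 32) + 20 := by omega
    rw [h1, pow_add]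
    have h2 : (j + 1 + 2) ^ 11 ≤ (2 * (j + 2)) ^ 11 := Nat.pow_le_pow_left (by omega) _
    calc (j + 1 + 2) ^ 11 ≤ (2 * (j + 2)) ^ 11 := h2
      _ = (j + 2) ^ 11 * 2 ^ 11 := by rw [mul_pow]; ring
      _ ≤ 3 ^ (20 * (j + 2) - 32) * 3 ^ 20 := Nat.mul_le_mul ih (by norm_num)

theorem sq_le_four_pow (a : ℕ) (ha : 1 ≤ a) : (a + 1) ^ 2 ≤ 4 ^ a := by
  induction a with
  | zero => omega
  | succ a ih =>
    rcases Nat.eq_zero_or_pos a with h | h
    · subst h; norm_num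
    · have := ih h
      rw [pow_succ 4 a]
      nlinarith

/-- (ORD) the order of a good prime modulo `p` is exactly `a + 1`. -/
theorem ord {p q a c κ : ℕ} (hp : p.Prime) (hp2 : p ≠ 2) (hq : q.Prime) (hq2 : q ≠ 2)
    (ha : 1 ≤ a) (hc : 1 ≤ c) (hsig : (q - 1) * (c * p ^ κ) + 1 = q ^ (a + 1))
    (hgood : c ^ 10 < p ^ κ) : orderOf (q : ZMod p) = a + 1 := by
  have hFp : Fact p.Prime := ⟨hp⟩
  have hodd : Odd p := hp.odd_of_ne_two hp2
  have hp3 : 3 ≤ p := by have := hp.two_le; omega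
  have hq3 : 3 ≤ q := by have := hq.two_le; omega
  have hκ : 1 ≤ κ := by
    rcases Nat.eq_zero_or_pos κ with h | h
    · rw [h, pow_zero] at hgood
      have : 1 ≤ c ^ 10 := Nat.one_le_pow _ _ hc
      omega
    · exact h
  have hpκ : p ∣ p ^ κ := dvd_pow_self p (by omega)
  -- `q ^ (a+1) = 1` in `ZMod p`
  have h1 : (q : ZMod p) ^ (a + 1) = 1 := by
    have h2 : ((q ^ (a + 1) : ℕ) : ZMod p) = 1 := by
      rw [← hsig]
      push_cast
      have h3 : (p : ZMod p) = 0 := ZMod.natCast_self p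
      rw [h3, zero_pow (by omega)]
      ring
    rw [← h2]
    push_cast
    rfl
  set o := orderOf (q : ZMod p) with ho
  have hdvd : o ∣ a + 1 := orderOf_dvd_of_pow_eq_one h1
  obtain ⟨m, hm⟩ := hdvd
  have ho0 : o ≠ 0 := by
    intro h
    rw [h, zero_mul] at hm
    omega
  have hm0 : m ≠ 0 := by
    intro h
    rw [h, mul_zero] at hm
    omega
  by_contra hne
  have hm2 : 2 ≤ m := by
    by_contra h
    have : m = 1 := by omega
    rw [this, mul_one] at hm
    omega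
  -- LTE
  have hpow : (q : ZMod p) ^ o = 1 := pow_orderOf_eq_one _
  have hqo1 : 1 < q ^ o := Nat.one_lt_pow ho0 hq.one_lt
  have hqo : p ∣ q ^ o - 1 := by
    rw [← Nat.modEq_iff_dvd' hqo1.le]
    rw [← ZMod.natCast_eq_natCast_iff]
    push_cast
    exact hpow.symm
  have hpq : ¬ p ∣ q := by
    intro h
    have h2 : p ∣ q ^ (a + 1) := Dvd.dvd.pow h (by omega)
    rw [← hsig] at h2
    have h3 : p ∣ (q - 1) * (c * p ^ κ) := Dvd.dvd.mul_left (Dvd.dvd.mul_left hpκ c) _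
    have h4 := (Nat.dvd_add_right h3).1 h2
    exact hp.one_lt.ne' (Nat.dvd_one.1 h4)
  have hpqo : ¬ p ∣ q ^ o := fun h => hpq (hp.dvd_of_dvd_pow h)
  have hLTE := padicValNat.pow_sub_pow (p := p) hodd hqo1 hqo hpqo hm0
  rw [one_pow, ← pow_mul, ← hm, ← hsig, Nat.add_sub_cancel] at hLTE
  rw [padicValNat.mul (by omega) (by positivity), padicValNat.mul (by omega) (by positivity),
    padicValNat.prime_pow] at hLTE
  have hvm : p ^ padicValNat p m ≤ m :=
    Nat.le_of_dvd (by omega) pow_padicValNat_dvd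
  have hvo : p ^ padicValNat p (q ^ o - 1) ≤ q ^ o - 1 :=
    Nat.le_of_dvd (by omega) pow_padicValNat_dvd
  have hqa : q ^ a ≤ c * p ^ κ := by
    have h2 : q * q ^ a = (q - 1) * (c * p ^ κ) + 1 := by rw [hsig]; ring
    have h3 : (q - 1) * q ^ a + q ^ a = q * q ^ a := by
      obtain ⟨u, hu⟩ : ∃ u, q = u + 1 := ⟨q - 1, by omega⟩
      rw [hu]; simp only [Nat.add_sub_cancel]; ring
    have h4 : 1 ≤ q ^ a := Nat.one_le_pow _ _ (by omega)
    by_contra hlt
    push Not at hlt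
    have h5 : (q - 1) * (c * p ^ κ) < (q - 1) * q ^ a := Nat.mul_lt_mul_of_pos_left hlt (by omega)
    omega
  have hcp : c ≤ c ^ 10 := Nat.le_self_pow (by norm_num) c
  rcases Nat.lt_or_ge o 2 with ho2 | ho2
  · -- `o = 1`
    have ho1 : o = 1 := by omega
    rw [ho1, pow_one] at hLTE hqo
    have h2 : κ ≤ padicValNat p m := by omega
    have h3 : p ^ κ ≤ m := (Nat.pow_le_pow_right (by omega) h2).trans hvm
    rw [ho1, one_mul] at hm
    rw [← hm] at h3
    have hq4 : 4 ≤ q := by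
      have := Nat.le_of_dvd (by omega) hqo
      omega
    have h4 : 4 ^ a ≤ q ^ a := Nat.pow_le_pow_left hq4 a
    have h5 := sq_le_four_pow a ha
    have h6 : c < a + 1 := by omega
    have h7 : c * p ^ κ < (a + 1) ^ 2 := by
      calc c * p ^ κ ≤ c * (a + 1) := Nat.mul_le_mul_left _ h3
        _ < (a + 1) * (a + 1) := Nat.mul_lt_mul_of_pos_right h6 (by omega)
        _ = (a + 1) ^ 2 := by ring
    omega
  · -- `o ≥ 2`
    have h2 : κ ≤ padicValNat p (q ^ o - 1) + padicValNat p m := by omega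
    have h3 : p ^ κ ≤ q ^ o * m := by
      calc p ^ κ ≤ p ^ (padicValNat p (q ^ o - 1) + padicValNat p m) :=
            Nat.pow_le_pow_right (by omega) h2
        _ = p ^ padicValNat p (q ^ o - 1) * p ^ padicValNat p m := pow_add _ _ _
        _ ≤ q ^ o * m := Nat.mul_le_mul (hvo.trans (Nat.sub_le _ _)) hvm
    have h4 : (q ^ a) ^ 10 < (q ^ o * m) ^ 11 := by
      calc (q ^ a) ^ 10 ≤ (c * p ^ κ) ^ 10 := Nat.pow_le_pow_left hqa _
        _ = c ^ 10 * (p ^ κ) ^ 10 := mul_pow _ _ _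
        _ < p ^ κ * (p ^ κ) ^ 10 := Nat.mul_lt_mul_of_pos_right hgood (by positivity)
        _ = (p ^ κ) ^ 11 := by ring
        _ ≤ (q ^ o * m) ^ 11 := Nat.pow_le_pow_left h3 _
    have h5 : (q ^ o * m) ^ 11 ≤ (q ^ a) ^ 10 := by
      have h6 : m ^ 11 ≤ q ^ (20 * m - 32) :=
        (pow_ge hm2).trans (Nat.pow_le_pow_left hq3 _)
      have h7 : 11 * o + (20 * m - 32) ≤ 10 * a := by
        obtain ⟨m', rfl⟩ : ∃ m', m = m' + 2 := ⟨m - 2, by omega⟩
        obtain ⟨o', ho'⟩ : ∃ o', o = o' + 2 := ⟨o - 2, by omega⟩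
        rw [ho'] at hm ⊢
        have h8 : a + 1 = o' * m' + 2 * o' + 2 * m' + 4 := by rw [hm]; ring
        have h9 : 0 ≤ o' * m' := Nat.zero_le _
        omega
      calc (q ^ o * m) ^ 11 = q ^ (11 * o) * m ^ 11 := by rw [mul_pow, ← pow_mul, mul_comm o 11]
        _ ≤ q ^ (11 * o) * q ^ (20 * m - 32) := Nat.mul_le_mul_left _ h6
        _ = q ^ (11 * o + (20 * m - 32)) := (pow_add _ _ _).symm
        _ ≤ q ^ (10 * a) := Nat.pow_le_pow_right (by omega) h7
        _ = (q ^ a) ^ 10 := by rw [← pow_mul, mul_comm]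
    omega

theorem not_dvd {p q a c κ : ℕ} (hp : p.Prime) (hκ : 1 ≤ κ)
    (hsig : (q - 1) * (c * p ^ κ) + 1 = q ^ (a + 1)) : ¬ p ∣ q := by
  intro h
  have hpκ : p ∣ p ^ κ := dvd_pow_self p (by omega)
  have h2 : p ∣ q ^ (a + 1) := Dvd.dvd.pow h (by omega)
  rw [← hsig] at h2
  have h3 : p ∣ (q - 1) * (c * p ^ κ) := Dvd.dvd.mul_left (Dvd.dvd.mul_left hpκ c) _
  have h4 := (Nat.dvd_add_right h3).1 h2
  exact hp.one_lt.ne' (Nat.dvd_one.1 h4)

theorem kappa_pos {p c κ : ℕ} (hc : 1 ≤ c) (hgood : c ^ 10 < p ^ κ) : 1 ≤ κ := by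
  rcases Nat.eq_zero_or_pos κ with h | h
  · rw [h, pow_zero] at hgood
    have : 1 ≤ c ^ 10 := Nat.one_le_pow _ _ hc
    omega
  · exact h

theorem pow_modEq {p q a c κ : ℕ} (hsig : (q - 1) * (c * p ^ κ) + 1 = q ^ (a + 1)) :
    q ^ (a + 1) ≡ 1 [MOD p ^ κ] := by
  rw [← hsig]
  have h : (q - 1) * (c * p ^ κ) ≡ 0 [MOD p ^ κ] := by
    rw [Nat.modEq_zero_iff_dvd]
    exact Dvd.dvd.mul_left (Dvd.dvd.mul_left (dvd_refl _) c) _
  have := h.add_right 1
  simpa using this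

/-- good primes are `(p-1)`-th roots of unity modulo `p ^ κ`. -/
theorem root {p q a c κ : ℕ} (hp : p.Prime) (hp2 : p ≠ 2) (hq : q.Prime) (hq2 : q ≠ 2)
    (ha : 1 ≤ a) (hc : 1 ≤ c) (hsig : (q - 1) * (c * p ^ κ) + 1 = q ^ (a + 1))
    (hgood : c ^ 10 < p ^ κ) : q ^ (p - 1) ≡ 1 [MOD p ^ κ] := by
  have hFp : Fact p.Prime := ⟨hp⟩
  have h1 := ord hp hp2 hq hq2 ha hc hsig hgood
  have hpq := not_dvd hp (kappa_pos hc hgood) hsig
  have h2 : (q : ZMod p) ≠ 0 := by
    rw [Ne, ZMod.natCast_eq_zero_iff]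
    exact hpq
  have h3 : a + 1 ∣ p - 1 := by
    rw [← h1]
    exact orderOf_dvd_of_pow_eq_one (ZMod.pow_card_sub_one_eq_one h2)
  obtain ⟨j, hj⟩ := h3
  rw [hj, pow_mul]
  have := (pow_modEq hsig).pow j
  rwa [one_pow] at this

theorem le_of_sig {p q a c κ : ℕ} (hq : 1 < q)
    (hsig : (q - 1) * (c * p ^ κ) + 1 = q ^ (a + 1)) : q ^ a ≤ c * p ^ κ := by
  have h2 : q * q ^ a = (q - 1) * (c * p ^ κ) + 1 := by rw [hsig]; ring
  have h3 : (q - 1) * q ^ a + q ^ a = q * q ^ a := by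
    obtain ⟨u, hu⟩ : ∃ u, q = u + 1 := ⟨q - 1, by omega⟩
    rw [hu]; simp only [Nat.add_sub_cancel]; ring
  have h4 : 1 ≤ q ^ a := Nat.one_le_pow _ _ (by omega)
  by_contra hlt
  push Not at hlt
  have h5 : (q - 1) * (c * p ^ κ) < (q - 1) * q ^ a := Nat.mul_lt_mul_of_pos_left hlt (by omega)
  omega

/-- (GAP) two good primes with the same exponent. -/
theorem gap {p q q' a c c' κ κ' : ℕ} (hp : p.Prime) (hp2 : p ≠ 2) (hq : q.Prime) (hq2 : q ≠ 2)
    (hq' : q'.Prime) (hq'2 : q' ≠ 2) (hne : q ≠ q')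
    (ha : 2 ≤ a) (hc : 2 ≤ c) (hc' : 1 ≤ c')
    (hsig : (q - 1) * (c * p ^ κ) + 1 = q ^ (a + 1))
    (hsig' : (q' - 1) * (c' * p ^ κ') + 1 = q' ^ (a + 1))
    (hgood : c ^ 10 < p ^ κ) (hgood' : c' ^ 10 < p ^ κ') (hκ : κ ≤ κ') :
    p ^ κ ≤ c ^ 2 * q' := by
  have hFp : Fact p.Prime := ⟨hp⟩
  have hκ1 : 1 ≤ κ := kappa_pos (by omega) hgood
  have hord := ord hp hp2 hq hq2 (by omega) (by omega) hsig hgood
  have hord' := ord hp hp2 hq' hq'2 (by omega) hc' hsig' hgood'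
  have hpq := not_dvd hp hκ1 hsig
  have hq3 : 3 ≤ q := by have := hq.two_le; omega
  have hq'3 : 3 ≤ q' := by have := hq'.two_le; omega
  -- `q' = q ^ m` in `ZMod p`
  have hprim : IsPrimitiveRoot (q : ZMod p) (a + 1) := by
    rw [← hord]; exact IsPrimitiveRoot.orderOf _
  have hq'1 : (q' : ZMod p) ^ (a + 1) = 1 := by rw [← hord']; exact pow_orderOf_eq_one _
  obtain ⟨m, hm, hqm⟩ := hprim.eq_pow_of_pow_eq_one hq'1
  have hm1 : 1 ≤ m := by
    rcases Nat.eq_zero_or_pos m with h | h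
    · rw [h, pow_zero] at hqm
      rw [← hqm, orderOf_one] at hord'
      omega
    · exact h
  have hmodp : q ^ m ≡ q' [MOD p] := by
    rw [← ZMod.natCast_eq_natCast_iff]
    push_cast
    exact hqm
  have hroot := root hp hp2 hq hq2 (by omega) (by omega) hsig hgood
  have hroot' := root hp hp2 hq' hq'2 (by omega) hc' hsig' hgood'
  have hroot'' : q' ^ (p - 1) ≡ 1 [MOD p ^ κ] := hroot'.of_dvd (pow_dvd_pow p hκ)
  have hrootm : (q ^ m) ^ (p - 1) ≡ 1 [MOD p ^ κ] := by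
    rw [← pow_mul, mul_comm, pow_mul]
    have := hroot.pow m
    rwa [one_pow] at this
  have hmod : q ^ m ≡ q' [MOD p ^ κ] :=
    lift hp hp2 (fun h => hpq (hp.dvd_of_dvd_pow h)) hmodp hrootm hroot''
  have hc4 : 4 ≤ c ^ 2 := by nlinarith
  have hq'c : q' ≤ c ^ 2 * q' := Nat.le_mul_of_pos_left _ (by omega)
  rcases Nat.lt_or_ge (q ^ m) (p ^ κ) with hlt | hge
  · -- case A
    rcases Nat.lt_or_ge q' (p ^ κ) with hlt' | hge'
    · exfalso
      have h1 : q ^ m = q' := Nat.ModEq.eq_of_lt_of_lt hmod hlt hlt'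
      have h2 : q ∣ q' := by rw [← h1]; exact dvd_pow_self q (by omega)
      exact hne ((Nat.prime_dvd_prime_iff_eq hq hq').1 h2)
    · omega
  · -- case B
    obtain ⟨u, hu⟩ : ∃ u, a + 1 = m + u := ⟨a + 1 - m, by omega⟩
    have hu1 : 1 ≤ u := by omega
    have hqa := le_of_sig (by omega) hsig
    have hprod : q' * q ^ u ≡ 1 [MOD p ^ κ] := by
      have h1 : q ^ m * q ^ u ≡ q' * q ^ u [MOD p ^ κ] := hmod.mul_right _
      rw [← pow_add, ← hu] at h1
      exact h1.symm.trans (pow_modEq hsig)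
    have hprodle : p ^ κ ≤ q' * q ^ u := by
      have h1 : 1 ≤ q ^ u := Nat.one_le_pow _ _ (by omega)
      have h2 : 3 ≤ q' * q ^ u := by nlinarith
      have h3 : p ^ κ ∣ q' * q ^ u - 1 := (Nat.modEq_iff_dvd' (by omega)).1 hprod.symm
      have h4 := Nat.le_of_dvd (by omega) h3
      omega
    rcases Nat.lt_or_ge u 2 with hu2 | hu2
    · -- `u = 1`, `m = a`
      have hu' : u = 1 := by omega
      subst hu'
      have hma : m = a := by omega
      subst hma
      rw [pow_one] at hprodle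
      rcases Nat.lt_or_ge (c ^ 2) q with hcq | hcq
      · -- `q > c ^ 2`
        obtain ⟨s', hs'⟩ : ∃ s', (q - 1) * s' + 1 = q ^ m := by
          refine ⟨∑ j ∈ range m, q ^ j, ?_⟩
          have := Nat.geomSum_eq (m := q) (by omega) m
          have h5 : (q - 1) ∣ q ^ m - 1 := by
            have := Nat.sub_dvd_pow_sub_pow q 1 m
            rwa [one_pow] at this
          rw [this, Nat.mul_div_cancel' h5]
          have : 1 ≤ q ^ m := Nat.one_le_pow _ _ (by omega)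
          omega
        have h6 : c * p ^ κ = s' + q ^ m := by
          have h7 : (q - 1) * (c * p ^ κ) = (q - 1) * (s' + q ^ m) := by
            have h8 : (q - 1) * (c * p ^ κ) + 1 = q * q ^ m := by rw [hsig]; ring
            have h9 : q * q ^ m = (q - 1) * q ^ m + q ^ m := by
              obtain ⟨w, hw⟩ : ∃ w, q = w + 1 := ⟨q - 1, by omega⟩
              rw [hw]; simp only [Nat.add_sub_cancel]; ring
            rw [mul_add]
            omega
          exact Nat.eq_of_mul_eq_mul_left (by omega) h7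
        have h7 : q * s' + 1 = c * p ^ κ := by
          have h8 : q * s' = (q - 1) * s' + s' := by
            obtain ⟨w, hw⟩ : ∃ w, q = w + 1 := ⟨q - 1, by omega⟩
            rw [hw]; simp only [Nat.add_sub_cancel]; ring
          omega
        have h8 : p ^ κ ∣ q' + s' := by
          rw [← Nat.modEq_zero_iff_dvd]
          have h9 : q' + s' ≡ q ^ m + s' [MOD p ^ κ] := hmod.symm.add_right s'
          refine h9.trans ?_
          rw [add_comm, ← h6, Nat.modEq_zero_iff_dvd]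
          exact Dvd.intro_left c rfl
        have h9 : p ^ κ ≤ q' + s' := Nat.le_of_dvd (by omega) h8
        have h10 : 2 * s' ≤ p ^ κ := by
          by_contra hcon
          push Not at hcon
          have h11 : c * p ^ κ < c * (2 * s') := Nat.mul_lt_mul_of_pos_left hcon (by omega)
          have h12 : c * (2 * s') ≤ c ^ 2 * s' := by nlinarith
          have h13 : c ^ 2 * s' ≤ q * s' := Nat.mul_le_mul_right _ hcq.le
          omega
        have h14 : 2 * q' ≤ c ^ 2 * q' := Nat.mul_le_mul_right _ (by omega)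
        omega
      · calc p ^ κ ≤ q' * q := hprodle
          _ ≤ q' * c ^ 2 := Nat.mul_le_mul_left _ hcq
          _ = c ^ 2 * q' := mul_comm _ _
    · -- `u ≥ 2`
      have h1 : q ^ (u - 1) ≤ c := by
        have h2 : q ^ m * q ^ (u - 1) ≤ q ^ m * c := by
          calc q ^ m * q ^ (u - 1) = q ^ a := by rw [← pow_add]; congr 1; omega
            _ ≤ c * p ^ κ := hqa
            _ ≤ c * q ^ m := Nat.mul_le_mul_left _ hge
            _ = q ^ m * c := mul_comm _ _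
        exact Nat.le_of_mul_le_mul_left h2 (by positivity)
      have h2 : q ≤ c := (Nat.le_self_pow (by omega) q).trans h1
      have h3 : q ^ u ≤ c ^ 2 := by
        calc q ^ u = q ^ (u - 1) * q := by rw [← pow_succ]; congr 1; omega
          _ ≤ c * c := Nat.mul_le_mul h1 h2
          _ = c ^ 2 := (sq c).symm
      calc p ^ κ ≤ q' * q ^ u := hprodle
        _ ≤ q' * c ^ 2 := Nat.mul_le_mul_left _ h3
        _ = c ^ 2 * q' := mul_comm _ _

/-- consequence of the gap principle -/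
theorem gap_ratio {p q q' a c c' κ κ' : ℕ} (hp : p.Prime) (hp2 : p ≠ 2) (hq : q.Prime)
    (hq2 : q ≠ 2) (hq' : q'.Prime) (hq'2 : q' ≠ 2) (hne : q ≠ q')
    (ha : 2 ≤ a) (hc : 2 ≤ c) (hc' : 1 ≤ c')
    (hsig : (q - 1) * (c * p ^ κ) + 1 = q ^ (a + 1))
    (hsig' : (q' - 1) * (c' * p ^ κ') + 1 = q' ^ (a + 1))
    (hgood : c ^ 10 < p ^ κ) (hgood' : c' ^ 10 < p ^ κ') (hκ : κ ≤ κ') :
    8 * a * κ ≤ 11 * κ' := by
  have h1 := gap hp hp2 hq hq2 hq' hq'2 hne ha hc hc' hsig hsig' hgood hgood' hκ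
  have h2 := le_of_sig (by have := hq'.one_lt; omega) hsig'
  have h3 : p ^ (10 * a * κ) ≤ p ^ (2 * a * κ + 11 * κ') := by
    calc p ^ (10 * a * κ) = (p ^ κ) ^ (10 * a) := by rw [← pow_mul]; congr 1; ring
      _ ≤ (c ^ 2 * q') ^ (10 * a) := Nat.pow_le_pow_left h1 _
      _ = (c ^ 10) ^ (2 * a) * (q' ^ a) ^ 10 := by
          rw [mul_pow, ← pow_mul, ← pow_mul, ← pow_mul]
          congr 2 <;> ring
      _ ≤ (p ^ κ) ^ (2 * a) * (c' * p ^ κ') ^ 10 :=
          Nat.mul_le_mul (Nat.pow_le_pow_left hgood.le _) (Nat.pow_le_pow_left h2 _)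
      _ = (p ^ κ) ^ (2 * a) * (c' ^ 10 * (p ^ κ') ^ 10) := by rw [mul_pow]
      _ ≤ (p ^ κ) ^ (2 * a) * (p ^ κ' * (p ^ κ') ^ 10) :=
          Nat.mul_le_mul_left _ (Nat.mul_le_mul_right _ hgood'.le)
      _ = p ^ (2 * a * κ + 11 * κ') := by
          rw [pow_add, ← pow_mul, ← pow_mul, ← pow_add]
          congr 2 <;> ring
  have h4 := (Nat.pow_le_pow_iff_right hp.one_lt).1 h3
  nlinarith

/-- a family of good primes with even exponents -/
structure Fam (p : ℕ) (S : Finset ℕ) (a c κ : ℕ → ℕ) : Prop where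
  prime : ∀ q ∈ S, q.Prime
  ne2 : ∀ q ∈ S, q ≠ 2
  even : ∀ q ∈ S, Even (a q)
  pos : ∀ q ∈ S, 1 ≤ a q
  c2 : ∀ q ∈ S, 2 ≤ c q
  sig : ∀ q ∈ S, (q - 1) * (c q * p ^ κ q) + 1 = q ^ (a q + 1)
  good : ∀ q ∈ S, c q ^ 10 < p ^ κ q

theorem Fam.mono {p : ℕ} {S T : Finset ℕ} {a c κ : ℕ → ℕ} (F : Fam p S a c κ) (h : T ⊆ S) :
    Fam p T a c κ :=
  ⟨fun q hq => F.prime q (h hq), fun q hq => F.ne2 q (h hq), fun q hq => F.even q (h hq),
    fun q hq => F.pos q (h hq), fun q hq => F.c2 q (h hq), fun q hq => F.sig q (h hq),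
    fun q hq => F.good q (h hq)⟩

theorem Fam.two_le {p : ℕ} {S : Finset ℕ} {a c κ : ℕ → ℕ} (F : Fam p S a c κ) {q : ℕ}
    (hq : q ∈ S) : 2 ≤ a q := by
  have h1 := F.even q hq
  have h2 := F.pos q hq
  obtain ⟨j, hj⟩ := h1
  omega

theorem Fam.ratio {p : ℕ} {S : Finset ℕ} {a c κ : ℕ → ℕ} (hp : p.Prime) (hp2 : p ≠ 2)
    (F : Fam p S a c κ) {q q' : ℕ} (hq : q ∈ S) (hq' : q' ∈ S) (hne : q ≠ q')
    (haa : a q = a q') (hκ : κ q ≤ κ q') : 16 * κ q ≤ 11 * κ q' := by
  have h1 := F.sig q hq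
  have h2 := F.sig q' hq'
  rw [← haa] at h2
  have h3 := gap_ratio hp hp2 (F.prime q hq) (F.ne2 q hq) (F.prime q' hq') (F.ne2 q' hq') hne
    (F.two_le hq) (F.c2 q hq) (by have := F.c2 q' hq'; omega) h1 h2 (F.good q hq)
    (F.good q' hq') hκ
  have h4 := F.two_le hq
  nlinarith

/-- few primes in a window with small exponents -/
theorem count_small {p : ℕ} {S : Finset ℕ} {a c κ : ℕ → ℕ} (hp : p.Prime) (hp2 : p ≠ 2)
    (F : Fam p S a c κ) (κ0 A : ℕ) (hw : ∀ q ∈ S, κ0 ≤ κ q ∧ κ q < 2 * κ0)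
    (hA : ∀ q ∈ S, a q ≤ A) : S.card ≤ A := by
  classical
  have hfib : ∀ b ∈ Finset.Icc 1 (A / 2), #{q ∈ S | a q / 2 = b} ≤ 2 := by
    intro b _
    by_contra hcon
    push Not at hcon
    set T := {q ∈ S | a q / 2 = b} with hT
    have hTne : T.Nonempty := Finset.card_pos.1 (by omega)
    have hTS : ∀ q ∈ T, q ∈ S := fun q hq => (Finset.mem_filter.1 hq).1
    have hTa : ∀ q ∈ T, ∀ q' ∈ T, a q = a q' := by
      intro q hq q' hq'
      have h1 := (Finset.mem_filter.1 hq).2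
      have h2 := (Finset.mem_filter.1 hq').2
      obtain ⟨j, hj⟩ := F.even q (hTS q hq)
      obtain ⟨j', hj'⟩ := F.even q' (hTS q' hq')
      omega
    obtain ⟨m1, hm1, hmin⟩ := Finset.exists_min_image T κ hTne
    obtain ⟨m2, hm2, hmax⟩ := Finset.exists_max_image T κ hTne
    have hcard : 0 < ((T.erase m1).erase m2).card := by
      have h1 := Finset.card_erase_of_mem hm1
      have h2 := Finset.pred_card_le_card_erase (s := T.erase m1) (a := m2)
      omega
    obtain ⟨m3, hm3⟩ := Finset.card_pos.1 hcard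
    have h31 : m3 ≠ m2 := Finset.ne_of_mem_erase hm3
    have h32 : m3 ≠ m1 := Finset.ne_of_mem_erase (Finset.mem_of_mem_erase hm3)
    have h3T : m3 ∈ T := Finset.mem_of_mem_erase (Finset.mem_of_mem_erase hm3)
    have r1 := F.ratio hp hp2 (hTS _ hm1) (hTS _ h3T) h32.symm (hTa _ hm1 _ h3T) (hmin _ h3T)
    have r2 := F.ratio hp hp2 (hTS _ h3T) (hTS _ hm2) h31 (hTa _ h3T _ hm2) (hmax _ h3T)
    have w1 := hw m1 (hTS _ hm1)
    have w2 := hw m2 (hTS _ hm2)
    omega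
  have hmaps : ∀ q ∈ S, a q / 2 ∈ Finset.Icc 1 (A / 2) := by
    intro q hq
    have h1 := F.two_le hq
    have h2 := hA q hq
    rw [Finset.mem_Icc]
    constructor
    · omega
    · exact Nat.div_le_div_right h2
  have h := Finset.card_le_mul_card_image_of_maps_to hmaps 2 hfib
  rw [Nat.card_Icc] at h
  omega

/-- few primes in a window with large exponents -/
theorem count_large {p : ℕ} {S : Finset ℕ} {a c κ : ℕ → ℕ} (hp : p.Prime) (hp2 : p ≠ 2)
    (F : Fam p S a c κ) (κ0 A t : ℕ) (hw : ∀ q ∈ S, κ0 ≤ κ q ∧ κ q < 2 * κ0)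
    (hA : ∀ q ∈ S, A < a q) (ht : p ≤ 2 ^ t) (htA : 22 * t ≤ 10 * (A + 1)) : S.card < t := by
  classical
  have hFp : Fact p.Prime := ⟨hp⟩
  by_contra hcon
  push Not at hcon
  obtain ⟨T0, hT0S, hT0⟩ := Finset.exists_subset_card_eq hcon
  have hκ1 : ∀ q ∈ S, 1 ≤ κ q := fun q hq =>
    kappa_pos (by have := F.c2 q hq; omega) (F.good q hq)
  have hnd : ∀ q ∈ S, ¬ p ∣ q := fun q hq => not_dvd hp (hκ1 q hq) (F.sig q hq)
  have hroot : ∀ q ∈ S, q ^ (p - 1) ≡ 1 [MOD p ^ κ0] := by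
    intro q hq
    have h1 := root hp hp2 (F.prime q hq) (F.ne2 q hq) (F.pos q hq)
      (by have := F.c2 q hq; omega) (F.sig q hq) (F.good q hq)
    exact h1.of_dvd (pow_dvd_pow p (hw q hq).1)
  have hq10 : ∀ q ∈ S, q ^ (10 * (A + 1)) ≤ p ^ (22 * κ0) := by
    intro q hq
    have h1 := le_of_sig (F.prime q hq).one_lt (F.sig q hq)
    have h2 := (hw q hq).2
    calc q ^ (10 * (A + 1)) ≤ q ^ (10 * a q) :=
          Nat.pow_le_pow_right (F.prime q hq).pos (by have := hA q hq; omega)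
      _ = (q ^ a q) ^ 10 := by rw [← pow_mul, mul_comm]
      _ ≤ (c q * p ^ κ q) ^ 10 := Nat.pow_le_pow_left h1 _
      _ = c q ^ 10 * (p ^ κ q) ^ 10 := mul_pow _ _ _
      _ ≤ p ^ κ q * (p ^ κ q) ^ 10 := Nat.mul_le_mul_right _ (F.good q hq).le
      _ = p ^ (11 * κ q) := by rw [← pow_succ', ← pow_mul, mul_comm]
      _ ≤ p ^ (22 * κ0) := Nat.pow_le_pow_right hp.pos (by omega)
  -- properties of products over subsets
  have hsub : ∀ T ∈ T0.powerset, ∀ q ∈ T, q ∈ S := fun T hT q hq =>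
    hT0S (Finset.mem_powerset.1 hT hq)
  have hprodnd : ∀ T ∈ T0.powerset, ¬ p ∣ ∏ q ∈ T, q := by
    intro T hT h
    obtain ⟨q, hq, hpq⟩ := (Prime.dvd_finsetProd_iff hp.prime _).1 h
    exact hnd q (hsub T hT q hq) hpq
  have hprodroot : ∀ T ∈ T0.powerset, (∏ q ∈ T, q) ^ (p - 1) ≡ 1 [MOD p ^ κ0] := by
    intro T hT
    rw [← Finset.prod_pow]
    have : ∀ U : Finset ℕ, (∀ q ∈ U, q ∈ S) → ∏ q ∈ U, q ^ (p - 1) ≡ 1 [MOD p ^ κ0] := by
      intro U
      induction U using Finset.induction_on with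
      | empty => intro _; simp [Nat.ModEq.refl]
      | insert x U hx ih =>
        intro hU
        rw [Finset.prod_insert hx]
        have h1 := hroot x (hU x (Finset.mem_insert_self _ _))
        have h2 := ih (fun q hq => hU q (Finset.mem_insert_of_mem hq))
        simpa using h1.mul h2
    exact this T (hsub T hT)
  have hprodlt : ∀ T ∈ T0.powerset, ∏ q ∈ T, q < p ^ κ0 := by
    intro T hT
    have h1 : (∏ q ∈ T, q) ^ (10 * (A + 1)) ≤ (p ^ κ0) ^ (10 * (A + 1)) := by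
      rw [← Finset.prod_pow]
      calc ∏ q ∈ T, q ^ (10 * (A + 1)) ≤ ∏ _q ∈ T, p ^ (22 * κ0) :=
            Finset.prod_le_prod' (fun q hq => hq10 q (hsub T hT q hq))
        _ = p ^ (22 * κ0 * T.card) := by rw [Finset.prod_const, ← pow_mul]
        _ ≤ p ^ (κ0 * (10 * (A + 1))) := by
            apply Nat.pow_le_pow_right hp.pos
            have h2 : T.card ≤ t := by
              rw [← hT0]; exact Finset.card_le_card (Finset.mem_powerset.1 hT)
            calc 22 * κ0 * T.card = κ0 * (22 * T.card) := by ring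
              _ ≤ κ0 * (10 * (A + 1)) := Nat.mul_le_mul_left _ (by omega)
        _ = (p ^ κ0) ^ (10 * (A + 1)) := by rw [pow_mul]
    have h2 : ∏ q ∈ T, q ≤ p ^ κ0 := (Nat.pow_le_pow_iff_left (by omega)).1 h1
    rcases Nat.lt_or_ge (∏ q ∈ T, q) (p ^ κ0) with h | h
    · exact h
    · exfalso
      have h3 : ∏ q ∈ T, q = p ^ κ0 := le_antisymm h2 h
      have hκ0 : 1 ≤ κ0 := by
        have ht1 : 1 ≤ t := by
          rcases Nat.eq_zero_or_pos t with h0 | h0
          · rw [h0, pow_zero] at ht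
            have := hp.two_le
            omega
          · exact h0
        have : T0.Nonempty := Finset.card_pos.1 (by omega)
        obtain ⟨q, hq⟩ := this
        have := hw q (hT0S hq)
        omega
      exact hprodnd T hT (by rw [h3]; exact dvd_pow_self p (by omega))
  have hprime : ∀ T ∈ T0.powerset, (∏ q ∈ T, q).primeFactors = T := by
    intro T hT
    exact Nat.primeFactors_prod (fun q hq => F.prime q (hsub T hT q hq))
  -- the injection into the nonzero residues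
  have hmaps : ∀ T ∈ T0.powerset, ((∏ q ∈ T, q : ℕ) : ZMod p) ∈
      (Finset.univ.erase (0 : ZMod p)) := by
    intro T hT
    rw [Finset.mem_erase]
    refine ⟨?_, Finset.mem_univ _⟩
    rw [Ne, ZMod.natCast_eq_zero_iff]
    exact hprodnd T hT
  have hinj : ∀ T ∈ T0.powerset, ∀ T' ∈ T0.powerset,
      ((∏ q ∈ T, q : ℕ) : ZMod p) = ((∏ q ∈ T', q : ℕ) : ZMod p) → T = T' := by
    intro T hT T' hT' h
    have h1 : (∏ q ∈ T, q) ≡ (∏ q ∈ T', q) [MOD p] := (ZMod.natCast_eq_natCast_iff _ _ _).1 h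
    have h2 := lift hp hp2 (hprodnd T hT) h1 (hprodroot T hT) (hprodroot T' hT')
    have h3 := Nat.ModEq.eq_of_lt_of_lt h2 (hprodlt T hT) (hprodlt T' hT')
    rw [← hprime T hT, ← hprime T' hT', h3]
  have hle := Finset.card_le_card_of_injOn (s := T0.powerset)
    (t := Finset.univ.erase (0 : ZMod p)) (fun T => ((∏ q ∈ T, q : ℕ) : ZMod p)) hmaps
    (fun T hT T' hT' h => hinj T hT T' hT' h)
  rw [Finset.card_powerset, hT0, Finset.card_erase_of_mem (Finset.mem_univ _),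
    Finset.card_univ, ZMod.card] at hle
  have := hp.two_le
  omega

/-- few primes in a window -/
theorem count {p : ℕ} {S : Finset ℕ} {a c κ : ℕ → ℕ} (hp : p.Prime) (hp2 : p ≠ 2)
    (F : Fam p S a c κ) (κ0 t : ℕ) (hw : ∀ q ∈ S, κ0 ≤ κ q ∧ κ q < 2 * κ0)
    (ht : p ≤ 2 ^ t) : 5 * S.card ≤ 16 * t := by
  classical
  set A := 11 * t / 5 with hA
  have h1 : (S.filter (fun q => a q ≤ A)).card ≤ A :=
    count_small hp hp2 (F.mono (Finset.filter_subset _ _)) κ0 A
      (fun q hq => hw q (Finset.mem_filter.1 hq).1) (fun q hq => (Finset.mem_filter.1 hq).2)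
  have h2 : (S.filter (fun q => ¬ a q ≤ A)).card < t :=
    count_large hp hp2 (F.mono (Finset.filter_subset _ _)) κ0 A t
      (fun q hq => hw q (Finset.mem_filter.1 hq).1)
      (fun q hq => not_le.1 (Finset.mem_filter.1 hq).2) ht (by omega)
  have h3 := Finset.card_filter_add_card_filter_not (s := S) (fun q => a q ≤ A)
  omega

/-- the sum of the exponents of `p` over good primes -/
theorem sum_kappa {p : ℕ} {S : Finset ℕ} {a c κ : ℕ → ℕ} (hp : p.Prime) (hp2 : p ≠ 2)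
    (F : Fam p S a c κ) (t X : ℕ) (hX : ∀ q ∈ S, κ q ≤ X) (ht : p ≤ 2 ^ t) :
    5 * ∑ q ∈ S, κ q ≤ 32 * t * X := by
  classical
  induction X using Nat.strong_induction_on generalizing S with
  | _ X ih =>
    rcases Nat.eq_zero_or_pos X with h0 | hpos
    · have : ∑ q ∈ S, κ q = 0 := by
        apply Finset.sum_eq_zero
        intro q hq
        have := hX q hq
        omega
      rw [this]
      omega
    · have h1 := ih (X / 2) (by omega) (S := S.filter (fun q => κ q ≤ X / 2))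
        (F.mono (Finset.filter_subset _ _)) (fun q hq => (Finset.mem_filter.1 hq).2)
      have h2 : 5 * (S.filter (fun q => ¬ κ q ≤ X / 2)).card ≤ 16 * t :=
        count hp hp2 (F.mono (Finset.filter_subset _ _)) (X / 2 + 1) t
          (fun q hq => by
            have h3 := Finset.mem_filter.1 hq
            have h4 := hX q h3.1
            have h5 := h3.2
            constructor <;> omega) ht
      have h3 : ∑ q ∈ S.filter (fun q => ¬ κ q ≤ X / 2), κ q ≤
          (S.filter (fun q => ¬ κ q ≤ X / 2)).card * X := by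
        rw [← smul_eq_mul]
        exact Finset.sum_le_card_nsmul _ _ _ (fun q hq => hX q (Finset.mem_filter.1 hq).1)
      rw [← Finset.sum_filter_add_sum_filter_not S (fun q => κ q ≤ X / 2) κ]
      have h4 : 2 * (X / 2) ≤ X := Nat.mul_div_le X 2
      nlinarith

end Pool.Agent.Lib.MP_f02ea4_nt.IdxK
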