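import Pool.Agent.Lib.MP_f02ea4_nt.LPDefs
import Pool.Agent.Lib.MP_f02ea4_nt.IdxGood

/-! Task T1: good families with `1 ≤ c`. -/

set_option autoImplicit false

namespace Pool.Agent.Lib.MP_f02ea4_nt.LP

open Finset
open Pool.Agent.Lib.MP_f02ea4_nt.IdxK (ord root lift not_dvd kappa_pos pow_modEq le_of_sig gap_ratio)

/-- T1a -/
theorem gap1 {p q q' a c' κ κ' : ℕ} (hp : p.Prime) (hp2 : p ≠ 2) (hq : q.Prime) (hq2 : q ≠ 2)
    (hq' : q'.Prime) (hq'2 : q' ≠ 2) (hne : q ≠ q')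
    (ha : 2 ≤ a) (hc' : 1 ≤ c') (hκ1 : 1 ≤ κ)
    (hsig : (q - 1) * (1 * p ^ κ) + 1 = q ^ (a + 1))
    (hsig' : (q' - 1) * (c' * p ^ κ') + 1 = q' ^ (a + 1))
    (hgood' : c' ^ 10 < p ^ κ') (hκ : κ ≤ κ') :
    p ^ κ ≤ q' := by
  have hFp : Fact p.Prime := ⟨hp⟩
  have hgood : 1 ^ 10 < p ^ κ := by
    rw [one_pow]
    exact Nat.one_lt_pow (by omega) hp.one_lt
  have hord := ord hp hp2 hq hq2 (by omega) (by omega) hsig hgood
  have hord' := ord hp hp2 hq' hq'2 (by omega) hc' hsig' hgood'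
  have hpq := not_dvd hp hκ1 hsig
  -- `q' = q ^ m` in `ZMod p`
  have hprim : IsPrimitiveRoot (q : ZMod p) (a + 1) := by
    rw [← hord]; exact IsPrimitiveRoot.orderOf _
  have hq'1 : (q' : ZMod p) ^ (a + 1) = 1 := by rw [← hord']; exact pow_orderOf_eq_one _
  obtain ⟨m, hm, hqm⟩ := hprim.eq_pow_of_pow_eq_one hq'1
  have hm1 : 1 ≤ m := by
    rcases Nat.eq_zero_or_pos m with h | h
    · rw [h, pow_zero] at hqm
      rw [← hqm, orderOf_one] at hord'
      omega
    · exact h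
  have hmodp : q ^ m ≡ q' [MOD p] := by
    rw [← ZMod.natCast_eq_natCast_iff]
    push_cast
    exact hqm
  have hroot := root hp hp2 hq hq2 (by omega) (by omega) hsig hgood
  have hroot' := root hp hp2 hq' hq'2 (by omega) hc' hsig' hgood'
  have hroot'' : q' ^ (p - 1) ≡ 1 [MOD p ^ κ] := hroot'.of_dvd (pow_dvd_pow p hκ)
  have hrootm : (q ^ m) ^ (p - 1) ≡ 1 [MOD p ^ κ] := by
    rw [← pow_mul, mul_comm, pow_mul]
    have := hroot.pow m
    rwa [one_pow] at this
  have hmod : q ^ m ≡ q' [MOD p ^ κ] :=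
    lift hp hp2 (fun h => hpq (hp.dvd_of_dvd_pow h)) hmodp hrootm hroot''
  have hqa : q ^ a ≤ 1 * p ^ κ := le_of_sig hq.one_lt hsig
  rw [one_mul] at hqa
  have hqa' : q ^ a ≠ p ^ κ := by
    intro h
    have h1 : p ∣ q ^ a := by
      rw [h]
      exact dvd_pow_self p (by omega)
    exact hpq (hp.dvd_of_dvd_pow h1)
  have hlt : q ^ m < p ^ κ := by
    have h1 : q ^ m ≤ q ^ a := Nat.pow_le_pow_right hq.pos (by omega)
    omega
  by_contra hcon
  push Not at hcon
  have h1 : q ^ m = q' := Nat.ModEq.eq_of_lt_of_lt hmod hlt hcon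
  have h2 : q ∣ q' := by rw [← h1]; exact dvd_pow_self q (by omega)
  exact hne ((Nat.prime_dvd_prime_iff_eq hq hq').1 h2)

theorem Fam1.mono {p : ℕ} {S T : Finset ℕ} {a c κ : ℕ → ℕ} (F : Fam1 p S a c κ) (h : T ⊆ S) :
    Fam1 p T a c κ :=
  ⟨fun q hq => F.prime q (h hq), fun q hq => F.ne2 q (h hq), fun q hq => F.even q (h hq),
    fun q hq => F.pos q (h hq), fun q hq => F.c1 q (h hq), fun q hq => F.sig q (h hq),
    fun q hq => F.good q (h hq)⟩

theorem Fam1.two_le {p : ℕ} {S : Finset ℕ} {a c κ : ℕ → ℕ} (F : Fam1 p S a c κ) {q : ℕ}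
    (hq : q ∈ S) : 2 ≤ a q := by
  have h1 := F.even q hq
  have h2 := F.pos q hq
  obtain ⟨j, hj⟩ := h1
  omega

/-- T1b -/
theorem Fam1.ratio {p : ℕ} {S : Finset ℕ} {a c κ : ℕ → ℕ} (hp : p.Prime) (hp2 : p ≠ 2)
    (F : Fam1 p S a c κ) {q q' : ℕ} (hq : q ∈ S) (hq' : q' ∈ S) (hne : q ≠ q')
    (haa : a q = a q') (hκ : κ q ≤ κ q') : 16 * κ q ≤ 11 * κ q' := by
  have h1 := F.sig q hq
  have h2 := F.sig q' hq'
  rw [← haa] at h2
  have h4 := F.two_le hq
  have hc1 := F.c1 q hq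
  rcases Nat.lt_or_ge 1 (c q) with hc | hc
  · have h3 := gap_ratio hp hp2 (F.prime q hq) (F.ne2 q hq) (F.prime q' hq') (F.ne2 q' hq') hne
      h4 hc (F.c1 q' hq') h1 h2 (F.good q hq) (F.good q' hq') hκ
    nlinarith
  · have hceq : c q = 1 := le_antisymm hc hc1
    rw [hceq] at h1
    have h3 := gap1 hp hp2 (F.prime q hq) (F.ne2 q hq) (F.prime q' hq') (F.ne2 q' hq') hne
      h4 (F.c1 q' hq') (kappa_pos hc1 (F.good q hq)) h1 h2 (F.good q' hq') hκ
    have h5 := le_of_sig (F.prime q' hq').one_lt h2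
    have hgood' := F.good q' hq'
    have h6 : p ^ (10 * a q * κ q) ≤ p ^ (11 * κ q') := by
      calc p ^ (10 * a q * κ q) = (p ^ κ q) ^ (10 * a q) := by rw [← pow_mul]; congr 1; ring
        _ ≤ q' ^ (10 * a q) := Nat.pow_le_pow_left h3 _
        _ = (q' ^ a q) ^ 10 := by rw [← pow_mul]; congr 1; ring
        _ ≤ (c q' * p ^ κ q') ^ 10 := Nat.pow_le_pow_left h5 _
        _ = c q' ^ 10 * (p ^ κ q') ^ 10 := by rw [mul_pow]
        _ ≤ p ^ κ q' * (p ^ κ q') ^ 10 := Nat.mul_le_mul_right _ hgood'.le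
        _ = p ^ (11 * κ q') := by
            rw [← pow_mul, ← pow_add]
            congr 1
            ring
    have h7 := (Nat.pow_le_pow_iff_right hp.one_lt).1 h6
    nlinarith

/-- few primes in a window with small exponents -/
private theorem T1_count_small {p : ℕ} {S : Finset ℕ} {a c κ : ℕ → ℕ} (hp : p.Prime) (hp2 : p ≠ 2)
    (F : Fam1 p S a c κ) (κ0 A : ℕ) (hw : ∀ q ∈ S, κ0 ≤ κ q ∧ κ q < 2 * κ0)
    (hA : ∀ q ∈ S, a q ≤ A) : S.card ≤ A := by
  classical
  have hfib : ∀ b ∈ Finset.Icc 1 (A / 2), #{q ∈ S | a q / 2 = b} ≤ 2 := by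
    intro b _
    by_contra hcon
    push Not at hcon
    set T := {q ∈ S | a q / 2 = b} with hT
    have hTne : T.Nonempty := Finset.card_pos.1 (by omega)
    have hTS : ∀ q ∈ T, q ∈ S := fun q hq => (Finset.mem_filter.1 hq).1
    have hTa : ∀ q ∈ T, ∀ q' ∈ T, a q = a q' := by
      intro q hq q' hq'
      have h1 := (Finset.mem_filter.1 hq).2
      have h2 := (Finset.mem_filter.1 hq').2
      obtain ⟨j, hj⟩ := F.even q (hTS q hq)
      obtain ⟨j', hj'⟩ := F.even q' (hTS q' hq')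
      omega
    obtain ⟨m1, hm1, hmin⟩ := Finset.exists_min_image T κ hTne
    obtain ⟨m2, hm2, hmax⟩ := Finset.exists_max_image T κ hTne
    have hcard : 0 < ((T.erase m1).erase m2).card := by
      have h1 := Finset.card_erase_of_mem hm1
      have h2 := Finset.pred_card_le_card_erase (s := T.erase m1) (a := m2)
      omega
    obtain ⟨m3, hm3⟩ := Finset.card_pos.1 hcard
    have h31 : m3 ≠ m2 := Finset.ne_of_mem_erase hm3
    have h32 : m3 ≠ m1 := Finset.ne_of_mem_erase (Finset.mem_of_mem_erase hm3)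
    have h3T : m3 ∈ T := Finset.mem_of_mem_erase (Finset.mem_of_mem_erase hm3)
    have r1 := F.ratio hp hp2 (hTS _ hm1) (hTS _ h3T) h32.symm (hTa _ hm1 _ h3T) (hmin _ h3T)
    have r2 := F.ratio hp hp2 (hTS _ h3T) (hTS _ hm2) h31 (hTa _ h3T _ hm2) (hmax _ h3T)
    have w1 := hw m1 (hTS _ hm1)
    have w2 := hw m2 (hTS _ hm2)
    omega
  have hmaps : ∀ q ∈ S, a q / 2 ∈ Finset.Icc 1 (A / 2) := by
    intro q hq
    have h1 := F.two_le hq
    have h2 := hA q hq
    rw [Finset.mem_Icc]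
    constructor
    · omega
    · exact Nat.div_le_div_right h2
  have h := Finset.card_le_mul_card_image_of_maps_to hmaps 2 hfib
  rw [Nat.card_Icc] at h
  omega

/-- few primes in a window with large exponents -/
private theorem T1_count_large {p : ℕ} {S : Finset ℕ} {a c κ : ℕ → ℕ} (hp : p.Prime) (hp2 : p ≠ 2)
    (F : Fam1 p S a c κ) (κ0 A t : ℕ) (hw : ∀ q ∈ S, κ0 ≤ κ q ∧ κ q < 2 * κ0)
    (hA : ∀ q ∈ S, A < a q) (ht : p ≤ 2 ^ t) (htA : 22 * t ≤ 10 * (A + 1)) : S.card < t := by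
  classical
  have hFp : Fact p.Prime := ⟨hp⟩
  by_contra hcon
  push Not at hcon
  obtain ⟨T0, hT0S, hT0⟩ := Finset.exists_subset_card_eq hcon
  have hκ1 : ∀ q ∈ S, 1 ≤ κ q := fun q hq =>
    kappa_pos (by have := F.c1 q hq; omega) (F.good q hq)
  have hnd : ∀ q ∈ S, ¬ p ∣ q := fun q hq => not_dvd hp (hκ1 q hq) (F.sig q hq)
  have hroot : ∀ q ∈ S, q ^ (p - 1) ≡ 1 [MOD p ^ κ0] := by
    intro q hq
    have h1 := root hp hp2 (F.prime q hq) (F.ne2 q hq) (F.pos q hq)
      (by have := F.c1 q hq; omega) (F.sig q hq) (F.good q hq)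
    exact h1.of_dvd (pow_dvd_pow p (hw q hq).1)
  have hq10 : ∀ q ∈ S, q ^ (10 * (A + 1)) ≤ p ^ (22 * κ0) := by
    intro q hq
    have h1 := le_of_sig (F.prime q hq).one_lt (F.sig q hq)
    have h2 := (hw q hq).2
    calc q ^ (10 * (A + 1)) ≤ q ^ (10 * a q) :=
          Nat.pow_le_pow_right (F.prime q hq).pos (by have := hA q hq; omega)
      _ = (q ^ a q) ^ 10 := by rw [← pow_mul, mul_comm]
      _ ≤ (c q * p ^ κ q) ^ 10 := Nat.pow_le_pow_left h1 _
      _ = c q ^ 10 * (p ^ κ q) ^ 10 := mul_pow _ _ _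
      _ ≤ p ^ κ q * (p ^ κ q) ^ 10 := Nat.mul_le_mul_right _ (F.good q hq).le
      _ = p ^ (11 * κ q) := by rw [← pow_succ', ← pow_mul, mul_comm]
      _ ≤ p ^ (22 * κ0) := Nat.pow_le_pow_right hp.pos (by omega)
  -- properties of products over subsets
  have hsub : ∀ T ∈ T0.powerset, ∀ q ∈ T, q ∈ S := fun T hT q hq =>
    hT0S (Finset.mem_powerset.1 hT hq)
  have hprodnd : ∀ T ∈ T0.powerset, ¬ p ∣ ∏ q ∈ T, q := by
    intro T hT h
    obtain ⟨q, hq, hpq⟩ := (Prime.dvd_finsetProd_iff hp.prime _).1 h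
    exact hnd q (hsub T hT q hq) hpq
  have hprodroot : ∀ T ∈ T0.powerset, (∏ q ∈ T, q) ^ (p - 1) ≡ 1 [MOD p ^ κ0] := by
    intro T hT
    rw [← Finset.prod_pow]
    have : ∀ U : Finset ℕ, (∀ q ∈ U, q ∈ S) → ∏ q ∈ U, q ^ (p - 1) ≡ 1 [MOD p ^ κ0] := by
      intro U
      induction U using Finset.induction_on with
      | empty => intro _; simp [Nat.ModEq.refl]
      | insert x U hx ih =>
        intro hU
        rw [Finset.prod_insert hx]
        have h1 := hroot x (hU x (Finset.mem_insert_self _ _))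
        have h2 := ih (fun q hq => hU q (Finset.mem_insert_of_mem hq))
        simpa using h1.mul h2
    exact this T (hsub T hT)
  have hprodlt : ∀ T ∈ T0.powerset, ∏ q ∈ T, q < p ^ κ0 := by
    intro T hT
    have h1 : (∏ q ∈ T, q) ^ (10 * (A + 1)) ≤ (p ^ κ0) ^ (10 * (A + 1)) := by
      rw [← Finset.prod_pow]
      calc ∏ q ∈ T, q ^ (10 * (A + 1)) ≤ ∏ _q ∈ T, p ^ (22 * κ0) :=
            Finset.prod_le_prod' (fun q hq => hq10 q (hsub T hT q hq))
        _ = p ^ (22 * κ0 * T.card) := by rw [Finset.prod_const, ← pow_mul]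
        _ ≤ p ^ (κ0 * (10 * (A + 1))) := by
            apply Nat.pow_le_pow_right hp.pos
            have h2 : T.card ≤ t := by
              rw [← hT0]; exact Finset.card_le_card (Finset.mem_powerset.1 hT)
            calc 22 * κ0 * T.card = κ0 * (22 * T.card) := by ring
              _ ≤ κ0 * (10 * (A + 1)) := Nat.mul_le_mul_left _ (by omega)
        _ = (p ^ κ0) ^ (10 * (A + 1)) := by rw [pow_mul]
    have h2 : ∏ q ∈ T, q ≤ p ^ κ0 := (Nat.pow_le_pow_iff_left (by omega)).1 h1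
    rcases Nat.lt_or_ge (∏ q ∈ T, q) (p ^ κ0) with h | h
    · exact h
    · exfalso
      have h3 : ∏ q ∈ T, q = p ^ κ0 := le_antisymm h2 h
      have hκ0 : 1 ≤ κ0 := by
        have ht1 : 1 ≤ t := by
          rcases Nat.eq_zero_or_pos t with h0 | h0
          · rw [h0, pow_zero] at ht
            have := hp.two_le
            omega
          · exact h0
        have : T0.Nonempty := Finset.card_pos.1 (by omega)
        obtain ⟨q, hq⟩ := this
        have := hw q (hT0S hq)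
        omega
      exact hprodnd T hT (by rw [h3]; exact dvd_pow_self p (by omega))
  have hprime : ∀ T ∈ T0.powerset, (∏ q ∈ T, q).primeFactors = T := by
    intro T hT
    exact Nat.primeFactors_prod (fun q hq => F.prime q (hsub T hT q hq))
  -- the injection into the nonzero residues
  have hmaps : ∀ T ∈ T0.powerset, ((∏ q ∈ T, q : ℕ) : ZMod p) ∈
      (Finset.univ.erase (0 : ZMod p)) := by
    intro T hT
    rw [Finset.mem_erase]
    refine ⟨?_, Finset.mem_univ _⟩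
    rw [Ne, ZMod.natCast_eq_zero_iff]
    exact hprodnd T hT
  have hinj : ∀ T ∈ T0.powerset, ∀ T' ∈ T0.powerset,
      ((∏ q ∈ T, q : ℕ) : ZMod p) = ((∏ q ∈ T', q : ℕ) : ZMod p) → T = T' := by
    intro T hT T' hT' h
    have h1 : (∏ q ∈ T, q) ≡ (∏ q ∈ T', q) [MOD p] := (ZMod.natCast_eq_natCast_iff _ _ _).1 h
    have h2 := lift hp hp2 (hprodnd T hT) h1 (hprodroot T hT) (hprodroot T' hT')
    have h3 := Nat.ModEq.eq_of_lt_of_lt h2 (hprodlt T hT) (hprodlt T' hT')
    rw [← hprime T hT, ← hprime T' hT', h3]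
  have hle := Finset.card_le_card_of_injOn (s := T0.powerset)
    (t := Finset.univ.erase (0 : ZMod p)) (fun T => ((∏ q ∈ T, q : ℕ) : ZMod p)) hmaps
    (fun T hT T' hT' h => hinj T hT T' hT' h)
  rw [Finset.card_powerset, hT0, Finset.card_erase_of_mem (Finset.mem_univ _),
    Finset.card_univ, ZMod.card] at hle
  have := hp.two_le
  omega

/-- few primes in a window -/
private theorem T1_count {p : ℕ} {S : Finset ℕ} {a c κ : ℕ → ℕ} (hp : p.Prime) (hp2 : p ≠ 2)
    (F : Fam1 p S a c κ) (κ0 t : ℕ) (hw : ∀ q ∈ S, κ0 ≤ κ q ∧ κ q < 2 * κ0)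
    (ht : p ≤ 2 ^ t) : 5 * S.card ≤ 16 * t := by
  classical
  set A := 11 * t / 5 with hA
  have h1 : (S.filter (fun q => a q ≤ A)).card ≤ A :=
    T1_count_small hp hp2 (F.mono (Finset.filter_subset _ _)) κ0 A
      (fun q hq => hw q (Finset.mem_filter.1 hq).1) (fun q hq => (Finset.mem_filter.1 hq).2)
  have h2 : (S.filter (fun q => ¬ a q ≤ A)).card < t :=
    T1_count_large hp hp2 (F.mono (Finset.filter_subset _ _)) κ0 A t
      (fun q hq => hw q (Finset.mem_filter.1 hq).1)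
      (fun q hq => not_le.1 (Finset.mem_filter.1 hq).2) ht (by omega)
  have h3 := Finset.card_filter_add_card_filter_not (s := S) (fun q => a q ≤ A)
  omega

/-- the sum of the exponents of `p` over good primes -/
theorem sum_kappa1 {p : ℕ} {S : Finset ℕ} {a c κ : ℕ → ℕ} (hp : p.Prime) (hp2 : p ≠ 2)
    (F : Fam1 p S a c κ) (t X : ℕ) (hX : ∀ q ∈ S, κ q ≤ X) (ht : p ≤ 2 ^ t) :
    5 * ∑ q ∈ S, κ q ≤ 32 * t * X := by
  classical
  induction X using Nat.strong_induction_on generalizing S with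
  | _ X ih =>
    rcases Nat.eq_zero_or_pos X with h0 | hpos
    · have : ∑ q ∈ S, κ q = 0 := by
        apply Finset.sum_eq_zero
        intro q hq
        have := hX q hq
        omega
      rw [this]
      omega
    · have h1 := ih (X / 2) (by omega) (S := S.filter (fun q => κ q ≤ X / 2))
        (F.mono (Finset.filter_subset _ _)) (fun q hq => (Finset.mem_filter.1 hq).2)
      have h2 : 5 * (S.filter (fun q => ¬ κ q ≤ X / 2)).card ≤ 16 * t :=
        T1_count hp hp2 (F.mono (Finset.filter_subset _ _)) (X / 2 + 1) t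
          (fun q hq => by
            have h3 := Finset.mem_filter.1 hq
            have h4 := hX q h3.1
            have h5 := h3.2
            constructor <;> omega) ht
      have h3 : ∑ q ∈ S.filter (fun q => ¬ κ q ≤ X / 2), κ q ≤
          (S.filter (fun q => ¬ κ q ≤ X / 2)).card * X := by
        rw [← smul_eq_mul]
        exact Finset.sum_le_card_nsmul _ _ _ (fun q hq => hX q (Finset.mem_filter.1 hq).1)
      rw [← Finset.sum_filter_add_sum_filter_not S (fun q => κ q ≤ X / 2) κ]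
      have h4 : 2 * (X / 2) ≤ X := Nat.mul_div_le X 2
      nlinarith

end Pool.Agent.Lib.MP_f02ea4_nt.LP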