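import Pool.Agent.Lib.MP_f02ea4_nt.HBSelect

set_option autoImplicit false

/-!
# The chain of known primes and known components

`S` is the set of primes, `X p` the component belonging to `p`, `s p` its divisor sum.
A state is a pair `A`, `B` of disjoint subsets of `S`: for the primes in `A` the component is
known, for the primes in `B` only the prime is known.
-/

namespace Pool.Agent.Lib.MP_f02ea4_nt.HB

open Finset

/-- the data of an odd perfect number -/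
structure Cfg (S : Finset ℕ) (X s : ℕ → ℕ) : Prop where
  ge3 : ∀ p ∈ S, 3 ≤ p
  odd : ∀ p ∈ S, p % 2 = 1
  Xge : ∀ p ∈ S, p ≤ X p
  sX : ∀ p ∈ S, (p - 1) * s p + 1 = p * X p
  prod : ∏ p ∈ S, s p = 2 * ∏ p ∈ S, X p
  Xodd : (∏ p ∈ S, X p) % 2 = 1
  inj : ∀ p ∈ S, ∀ q ∈ S, p * X p = q * X q → p = q

/-- denominator of a state -/
def D (s : ℕ → ℕ) (A B : Finset ℕ) : ℕ := (∏ p ∈ A, s p) * ∏ p ∈ B, p

/-- numerator of a state -/
def M (X : ℕ → ℕ) (A B : Finset ℕ) : ℕ := 2 * (∏ p ∈ A, X p) * ∏ p ∈ B, (p - 1)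

variable {S : Finset ℕ} {X s : ℕ → ℕ}

lemma Cfg.x_sub (h : Cfg S X s) {p : ℕ} (hp : p ∈ S) : p * X p - 1 = (p - 1) * s p := by
  have := h.sX p hp; omega

lemma Cfg.x_ge (h : Cfg S X s) {p : ℕ} (hp : p ∈ S) : p * p ≤ p * X p :=
  Nat.mul_le_mul_left _ (h.Xge p hp)

lemma Cfg.x_ge2 (h : Cfg S X s) {p : ℕ} (hp : p ∈ S) : 2 ≤ p * X p := by
  have h1 := h.x_ge hp
  have h2 := h.ge3 p hp
  nlinarith

lemma Cfg.X_pos (h : Cfg S X s) {p : ℕ} (hp : p ∈ S) : 0 < X p := by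
  have h1 := h.Xge p hp
  have h2 := h.ge3 p hp
  omega

lemma Cfg.lt_s (h : Cfg S X s) {p : ℕ} (hp : p ∈ S) : X p < s p := by
  have h1 := h.sX p hp
  have h2 := h.ge3 p hp
  have h3 := h.Xge p hp
  obtain ⟨u, rfl⟩ : ∃ u, p = u + 1 := ⟨p - 1, by omega⟩
  simp only [Nat.add_sub_cancel] at h1
  by_contra hcon
  push Not at hcon
  have : u * s (u + 1) ≤ u * X (u + 1) := Nat.mul_le_mul_left _ hcon
  nlinarith

lemma Cfg.s_pos (h : Cfg S X s) {p : ℕ} (hp : p ∈ S) : 0 < s p :=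
  lt_of_le_of_lt (Nat.zero_le _) (h.lt_s hp)

lemma Cfg.two_s (h : Cfg S X s) {p : ℕ} (hp : p ∈ S) : 2 * s p ≤ p * X p := by
  have h1 := h.sX p hp
  have h2 := h.ge3 p hp
  obtain ⟨u, rfl⟩ : ∃ u, p = u + 3 := ⟨p - 3, by omega⟩
  have : (u + 3 - 1) * s (u + 3) = u * s (u + 3) + 2 * s (u + 3) := by
    have : u + 3 - 1 = u + 2 := by omega
    rw [this]; ring
  have h4 : 0 ≤ u * s (u + 3) := Nat.zero_le _
  omega

lemma Cfg.D_pos (h : Cfg S X s) {A B : Finset ℕ} (hA : A ⊆ S) (hB : B ⊆ S) : 0 < D s A B := by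
  unfold D
  apply Nat.mul_pos
  · exact Finset.prod_pos (fun p hp => h.s_pos (hA hp))
  · exact Finset.prod_pos (fun p hp => by have := h.ge3 p (hB hp); omega)

lemma Cfg.M_pos (h : Cfg S X s) {A B : Finset ℕ} (hA : A ⊆ S) (hB : B ⊆ S) : 0 < M X A B := by
  unfold M
  apply Nat.mul_pos
  · apply Nat.mul_pos (by norm_num)
    exact Finset.prod_pos (fun p hp => h.X_pos (hA hp))
  · exact Finset.prod_pos (fun p hp => by have := h.ge3 p (hB hp); omega)

/-- the numerator and the denominator of a state are different, except at the end -/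
lemma Cfg.M_ne_D (h : Cfg S X s) {A B : Finset ℕ} (hA : A ⊆ S) (hB : B ⊆ S) (hne : A ≠ S) :
    M X A B ≠ D s A B := by
  intro heq
  rcases B.eq_empty_or_nonempty with hB0 | hBne
  · subst hB0
    unfold M D at heq
    simp only [Finset.prod_empty, mul_one] at heq
    have hs := h.prod
    rw [← Finset.prod_sdiff hA, ← Finset.prod_sdiff hA, ← heq] at hs
    have h2 : (∏ p ∈ S \ A, s p) * (2 * ∏ p ∈ A, X p) =
        (∏ p ∈ S \ A, X p) * (2 * ∏ p ∈ A, X p) := by rw [hs]; ring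
    have h3 : 0 < 2 * ∏ p ∈ A, X p := by
      apply Nat.mul_pos (by norm_num)
      exact Finset.prod_pos (fun p hp => h.X_pos (hA hp))
    have h4 := Nat.eq_of_mul_eq_mul_right h3 h2
    have hne2 : (S \ A).Nonempty := by
      rw [Finset.sdiff_nonempty]
      intro hSA
      exact hne (Finset.Subset.antisymm hA hSA)
    have h5 : ∏ p ∈ S \ A, X p < ∏ p ∈ S \ A, s p :=
      Finset.prod_lt_prod_of_nonempty
        (fun p hp => h.X_pos (Finset.mem_sdiff.1 hp).1)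
        (fun p hp => h.lt_s (Finset.mem_sdiff.1 hp).1) hne2
    omega
  · -- 4 divides M but not D
    obtain ⟨q, hq⟩ := hBne
    have h4M : 4 ∣ M X A B := by
      unfold M
      have h2 : 2 ∣ ∏ p ∈ B, (p - 1) := by
        refine dvd_trans ?_ (Finset.dvd_prod_of_mem (fun p => p - 1) hq)
        have := h.odd q (hB hq)
        have := h.ge3 q (hB hq)
        omega
      obtain ⟨t, ht⟩ := h2
      rw [ht]
      exact ⟨(∏ p ∈ A, X p) * t, by ring⟩
    rw [heq] at h4M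
    unfold D at h4M
    have hBodd : Nat.Coprime 4 (∏ p ∈ B, p) := by
      apply Nat.Coprime.prod_right
      intro p hp
      have := h.odd p (hB hp)
      have h2 : Nat.Coprime 2 p := by
        rw [Nat.coprime_two_left, Nat.odd_iff]; exact this
      have : (4 : ℕ) = 2 ^ 2 := by norm_num
      rw [this]
      exact Nat.Coprime.pow_left 2 h2
    have h5 : 4 ∣ ∏ p ∈ A, s p := hBodd.dvd_of_dvd_mul_right h4M
    have h6 : 4 ∣ 2 * ∏ p ∈ S, X p := by
      rw [← h.prod, ← Finset.prod_sdiff hA]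
      exact Dvd.dvd.mul_left h5 _
    have := h.Xodd
    omega

/-- the basic identity of a state -/
lemma Cfg.ident (h : Cfg S X s) {A B : Finset ℕ} (hA : A ⊆ S) (hB : B ⊆ S) (hAB : Disjoint A B) :
    (D s A B * ∏ p ∈ S \ A, (p * X p - 1)) * ∏ p ∈ S \ (A ∪ B), p =
      (M X A B * ∏ p ∈ S \ A, p * X p) * ∏ p ∈ S \ (A ∪ B), (p - 1) := by
  have hsub : B ⊆ S \ A := fun p hp =>
    Finset.mem_sdiff.2 ⟨hB hp, fun h1 => Finset.disjoint_left.1 hAB h1 hp⟩
  have e1 : S \ (A ∪ B) = (S \ A) \ B := by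
    ext p; simp [and_assoc]
  have e2 : ∏ p ∈ S \ A, (p * X p - 1) = (∏ p ∈ S \ A, (p - 1)) * ∏ p ∈ S \ A, s p := by
    rw [← Finset.prod_mul_distrib]
    apply Finset.prod_congr rfl
    intro p hp
    exact h.x_sub (Finset.mem_sdiff.1 hp).1
  have e3 : ∏ p ∈ S \ A, p * X p = (∏ p ∈ S \ A, p) * ∏ p ∈ S \ A, X p :=
    Finset.prod_mul_distrib
  have e4 : (∏ p ∈ S \ A, s p) * ∏ p ∈ A, s p = 2 * ((∏ p ∈ S \ A, X p) * ∏ p ∈ A, X p) := by
    rw [Finset.prod_sdiff hA, Finset.prod_sdiff hA, h.prod]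
  have e5 : ∏ p ∈ S \ A, (p - 1) = (∏ p ∈ (S \ A) \ B, (p - 1)) * ∏ p ∈ B, (p - 1) :=
    (Finset.prod_sdiff hsub).symm
  have e6 : ∏ p ∈ S \ A, p = (∏ p ∈ (S \ A) \ B, p) * ∏ p ∈ B, p :=
    (Finset.prod_sdiff hsub).symm
  rw [e2, e3, e1, e5, e6]
  unfold D M
  calc _ = ((∏ p ∈ S \ A, s p) * ∏ p ∈ A, s p) * ((∏ p ∈ B, p) *
        (∏ p ∈ (S \ A) \ B, (p - 1)) * (∏ p ∈ B, (p - 1)) * ∏ p ∈ (S \ A) \ B, p) := by ring
    _ = _ := by rw [e4]; ring

lemma Cfg.whole1 (h : Cfg S X s) {A B : Finset ℕ} (hA : A ⊆ S) (hB : B ⊆ S) (hAB : Disjoint A B) :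
    M X A B * ∏ p ∈ S \ (A ∪ B), (p - 1) ≤ D s A B * ∏ p ∈ S \ (A ∪ B), p := by
  have h1 := h.ident hA hB hAB
  have h2 : ∏ p ∈ S \ A, (p * X p - 1) ≤ ∏ p ∈ S \ A, p * X p :=
    Finset.prod_le_prod' (fun p _ => Nat.sub_le _ _)
  have h3 : 0 < ∏ p ∈ S \ A, p * X p :=
    Finset.prod_pos (fun p hp => by have := h.x_ge2 (Finset.mem_sdiff.1 hp).1; omega)
  apply Nat.le_of_mul_le_mul_left _ h3
  calc _ = (M X A B * ∏ p ∈ S \ A, p * X p) * ∏ p ∈ S \ (A ∪ B), (p - 1) := by ring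
    _ = (D s A B * ∏ p ∈ S \ A, (p * X p - 1)) * ∏ p ∈ S \ (A ∪ B), p := h1.symm
    _ ≤ (D s A B * ∏ p ∈ S \ A, p * X p) * ∏ p ∈ S \ (A ∪ B), p :=
        Nat.mul_le_mul_right _ (Nat.mul_le_mul_left _ h2)
    _ = _ := by ring

lemma Cfg.whole2 (h : Cfg S X s) {A B : Finset ℕ} (hA : A ⊆ S) (hB : B ⊆ S) (hAB : Disjoint A B) :
    D s A B * ∏ p ∈ S \ A, (p * X p - 1) ≤ M X A B * ∏ p ∈ S \ A, p * X p := by
  have h1 := h.ident hA hB hAB
  have h2 : ∏ p ∈ S \ (A ∪ B), (p - 1) ≤ ∏ p ∈ S \ (A ∪ B), p :=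
    Finset.prod_le_prod' (fun p _ => Nat.sub_le _ _)
  have h3 : 0 < ∏ p ∈ S \ (A ∪ B), (p - 1) :=
    Finset.prod_pos (fun p hp => by have := h.ge3 p (Finset.mem_sdiff.1 hp).1; omega)
  apply Nat.le_of_mul_le_mul_right _ h3
  rw [← h1]
  exact Nat.mul_le_mul_left _ h2

/-- `∏ (1 - 1/p²) ≥ 2/3` over distinct integers `p ≥ 3` -/
lemma prod_sq (T : Finset ℕ) (hT : ∀ p ∈ T, 3 ≤ p) :
    2 * ∏ p ∈ T, (p * p : ℕ) ≤ 3 * ∏ p ∈ T, (p * p - 1) := by
  -- compare with the product over `Icc 3 K`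
  obtain ⟨K, hK, hK2⟩ : ∃ K, T ⊆ Finset.Icc 3 K ∧ 2 ≤ K := by
    refine ⟨T.sup id + 2, ?_, by omega⟩
    intro p hp
    have : p ≤ T.sup id := Finset.le_sup (f := id) hp
    exact Finset.mem_Icc.2 ⟨hT p hp, by omega⟩
  have tele : ∀ K, 2 ≤ K → 3 * K * ∏ p ∈ Finset.Icc 3 K, (p * p - 1) =
      2 * (K + 1) * ∏ p ∈ Finset.Icc 3 K, (p * p : ℕ) := by
    intro K hK
    induction K, hK using Nat.le_induction with
    | base => simp
    | succ K hK ih =>
      rw [← Finset.insert_Icc_right_eq_Icc_add_one (by omega : 3 ≤ K + 1),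
        Finset.prod_insert (by simp), Finset.prod_insert (by simp)]
      have e : (K + 1) * (K + 1) - 1 = K * (K + 2) := by
        have : (K + 1) * (K + 1) = K * (K + 2) + 1 := by ring
        omega
      rw [e]
      calc _ = (K + 1) * (K + 2) * (3 * K * ∏ p ∈ Finset.Icc 3 K, (p * p - 1)) := by ring
        _ = _ := by rw [ih]; ring
  have h1 := tele K hK2
  rw [← Finset.prod_sdiff hK, ← Finset.prod_sdiff hK] at h1
  have h2 : ∏ p ∈ Finset.Icc 3 K \ T, (p * p - 1) ≤ ∏ p ∈ Finset.Icc 3 K \ T, (p * p : ℕ) :=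
    Finset.prod_le_prod' (fun p _ => Nat.sub_le _ _)
  have h3 : 0 < ∏ p ∈ Finset.Icc 3 K \ T, (p * p : ℕ) :=
    Finset.prod_pos (fun p hp => by
      have := (Finset.mem_Icc.1 (Finset.mem_sdiff.1 hp).1).1
      positivity)
  have h4 : 0 < K * ∏ p ∈ Finset.Icc 3 K \ T, (p * p : ℕ) := by positivity
  apply Nat.le_of_mul_le_mul_left _ h4
  calc K * (∏ p ∈ Finset.Icc 3 K \ T, (p * p : ℕ)) * (2 * ∏ p ∈ T, (p * p : ℕ))
      ≤ 2 * (K + 1) * ((∏ p ∈ Finset.Icc 3 K \ T, (p * p : ℕ)) * ∏ p ∈ T, (p * p : ℕ)) := by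
        nlinarith [Nat.zero_le ((∏ p ∈ Finset.Icc 3 K \ T, (p * p : ℕ)) * ∏ p ∈ T, (p * p : ℕ))]
    _ = 3 * K * ((∏ p ∈ Finset.Icc 3 K \ T, (p * p - 1)) * ∏ p ∈ T, (p * p - 1)) := h1.symm
    _ ≤ 3 * K * ((∏ p ∈ Finset.Icc 3 K \ T, (p * p : ℕ)) * ∏ p ∈ T, (p * p - 1)) :=
        Nat.mul_le_mul_left _ (Nat.mul_le_mul_right _ h2)
    _ = _ := by ring

/-- `D ≤ (3/2) M` for every state -/
lemma Cfg.D_le (h : Cfg S X s) {A B : Finset ℕ} (hA : A ⊆ S) (hB : B ⊆ S) (hAB : Disjoint A B) :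
    2 * D s A B ≤ 3 * M X A B := by
  have h1 := h.whole2 hA hB hAB
  have h2 := prod_sq (S \ A) (fun p hp => h.ge3 p (Finset.mem_sdiff.1 hp).1)
  -- ∏ (x-1)/x ≥ ∏ (p²-1)/p²
  have h3 : (∏ p ∈ S \ A, p * X p) * ∏ p ∈ S \ A, (p * p - 1) ≤
      (∏ p ∈ S \ A, (p * X p - 1)) * ∏ p ∈ S \ A, (p * p : ℕ) := by
    rw [← Finset.prod_mul_distrib, ← Finset.prod_mul_distrib]
    apply Finset.prod_le_prod'
    intro p hp
    have h4 := h.x_ge (Finset.mem_sdiff.1 hp).1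
    have h5 : 1 ≤ p * p := by
      have := h.ge3 p (Finset.mem_sdiff.1 hp).1
      nlinarith
    obtain ⟨c, hc⟩ := Nat.exists_eq_add_of_le h5
    obtain ⟨d, hd⟩ := Nat.exists_eq_add_of_le h4
    rw [hd, hc]
    have e1 : 1 + c - 1 = c := by omega
    have e2 : 1 + c + d - 1 = c + d := by omega
    rw [e1, e2]
    nlinarith
  have hP : 0 < ∏ p ∈ S \ A, p * X p :=
    Finset.prod_pos (fun p hp => by have := h.x_ge2 (Finset.mem_sdiff.1 hp).1; omega)
  have hQ : 0 < ∏ p ∈ S \ A, (p * p : ℕ) :=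
    Finset.prod_pos (fun p hp => by
      have := h.ge3 p (Finset.mem_sdiff.1 hp).1
      positivity)
  have hPQ : 0 < (∏ p ∈ S \ A, p * X p) * ∏ p ∈ S \ A, (p * p : ℕ) := by positivity
  apply Nat.le_of_mul_le_mul_right _ hPQ
  calc 2 * D s A B * ((∏ p ∈ S \ A, p * X p) * ∏ p ∈ S \ A, (p * p : ℕ))
      = D s A B * (∏ p ∈ S \ A, p * X p) * (2 * ∏ p ∈ S \ A, (p * p : ℕ)) := by ring
    _ ≤ D s A B * (∏ p ∈ S \ A, p * X p) * (3 * ∏ p ∈ S \ A, (p * p - 1)) :=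
        Nat.mul_le_mul_left _ h2
    _ = 3 * D s A B * ((∏ p ∈ S \ A, p * X p) * ∏ p ∈ S \ A, (p * p - 1)) := by ring
    _ ≤ 3 * D s A B * ((∏ p ∈ S \ A, (p * X p - 1)) * ∏ p ∈ S \ A, (p * p : ℕ)) :=
        Nat.mul_le_mul_left _ h3
    _ = 3 * (D s A B * ∏ p ∈ S \ A, (p * X p - 1)) * ∏ p ∈ S \ A, (p * p : ℕ) := by ring
    _ ≤ 3 * (M X A B * ∏ p ∈ S \ A, p * X p) * ∏ p ∈ S \ A, (p * p : ℕ) :=
        Nat.mul_le_mul_right _ (Nat.mul_le_mul_left _ h1)
    _ = _ := by ring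

/-- A state reached by the chain. -/
structure Good (S : Finset ℕ) (X s : ℕ → ℕ) (A B : Finset ℕ) : Prop where
  hA : A ⊆ S
  hB : B ⊆ S
  disj : Disjoint A B
  init : ∀ p ∈ A, ∀ q ∈ S \ A, p * X p ≤ q * X q
  bound : D s A B + 1 ≤ 2 ^ 2 ^ (2 * A.card + B.card)

lemma good_empty : Good S X s ∅ ∅ := by
  refine ⟨by simp, by simp, by simp, by simp, by simp [D]⟩

/-- Type (1) step: new primes. -/
lemma Good.step1 (h : Cfg S X s) {A B : Finset ℕ} (g : Good S X s A B)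
    (hDM : D s A B < M X A B) : ∃ C ⊆ S \ (A ∪ B), C.Nonempty ∧ Good S X s A (B ∪ C) := by
  obtain ⟨C, hC1, hC2, -, hC4, hC5, -⟩ := select (S \ (A ∪ B)) (fun p => p) (h.D_pos g.hA g.hB) hDM
    (fun p hp => by have := h.ge3 p (Finset.mem_sdiff.1 hp).1; omega)
    (fun p _ q _ hpq => hpq) (h.whole1 g.hA g.hB g.disj)
  refine ⟨C, hC1, hC2, g.hA, ?_, ?_, g.init, ?_⟩
  · intro p hp
    rcases Finset.mem_union.1 hp with h1 | h1
    · exact g.hB h1
    · exact (Finset.mem_sdiff.1 (hC1 h1)).1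
  · rw [Finset.disjoint_union_right]
    refine ⟨g.disj, ?_⟩
    rw [Finset.disjoint_left]
    intro p hp hp2
    exact (Finset.mem_sdiff.1 (hC1 hp2)).2 (Finset.mem_union_left _ hp)
  · have hBC : Disjoint B C := by
      rw [Finset.disjoint_left]
      intro p hp hp2
      exact (Finset.mem_sdiff.1 (hC1 hp2)).2 (Finset.mem_union_right _ hp)
    have e1 : D s A (B ∪ C) = D s A B * ∏ p ∈ C, p := by
      unfold D
      rw [Finset.prod_union hBC]; ring
    rw [e1, Finset.card_union_of_disjoint hBC]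
    have e2 : 2 ^ (2 * A.card + (B.card + C.card)) = 2 ^ (2 * A.card + B.card) * 2 ^ C.card := by
      rw [← pow_add]; congr 1; ring
    rw [e2, pow_mul]
    exact le_trans hC5 (Nat.pow_le_pow_left g.bound _)

/-- The second kind of step: the next components `C`. -/
lemma Good.step2 (h : Cfg S X s) {A B : Finset ℕ} (g : Good S X s A B)
    (hMD : M X A B < D s A B) : ∃ C ⊆ S \ A, C.Nonempty ∧
      (∀ p ∈ C, ∀ q ∈ (S \ A) \ C, p * X p ≤ q * X q) ∧
      D s A B * ∏ p ∈ C, s p < D s A B ^ 2 ^ C.card ∧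
      ∀ C' ⊆ C, (∀ p ∈ C', ∀ q ∈ C \ C', p * X p ≤ q * X q) →
        2 * (D s A B : ℝ) * ∏ p ∈ C', ((p * X p : ℕ) : ℝ) <
          3 * (Real.exp ((C \ C').card : ℝ) * (D s A B : ℝ) ^ (2 ^ C'.card)) := by
  obtain ⟨C, hC1, hC2, hC3, hC4, hC5, hC6⟩ := select (S \ A) (fun p => p * X p)
    (h.M_pos g.hA g.hB) hMD
    (fun p hp => h.x_ge2 (Finset.mem_sdiff.1 hp).1)
    (fun p hp q hq hpq => h.inj p (Finset.mem_sdiff.1 hp).1 q (Finset.mem_sdiff.1 hq).1 hpq)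
    (h.whole2 g.hA g.hB g.disj)
  have hD0 := h.D_pos g.hA g.hB
  have hDle := h.D_le g.hA g.hB g.disj
  refine ⟨C, hC1, hC2, hC3, ?_, ?_⟩
  · -- 2^c ∏ s ≤ ∏ x
    have h1 : 2 ^ C.card * ∏ p ∈ C, s p ≤ ∏ p ∈ C, p * X p := by
      rw [← Finset.prod_const, ← Finset.prod_mul_distrib]
      exact Finset.prod_le_prod' (fun p hp => h.two_s (Finset.mem_sdiff.1 (hC1 hp)).1)
    have hc : 1 ≤ C.card := Finset.card_pos.2 hC2
    have h2 : 2 * ∏ p ∈ C, s p ≤ ∏ p ∈ C, p * X p := by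
      refine le_trans (Nat.mul_le_mul_right _ ?_) h1
      calc 2 = 2 ^ 1 := by norm_num
        _ ≤ 2 ^ C.card := Nat.pow_le_pow_right (by norm_num) hc
    have h3 : (M X A B + 1) ^ 2 ^ C.card ≤ D s A B ^ 2 ^ C.card := Nat.pow_le_pow_left hMD _
    have h4 : M X A B * ∏ p ∈ C, p * X p < D s A B ^ 2 ^ C.card :=
      lt_of_lt_of_le (Nat.lt_of_succ_le hC5) h3
    have h5 : 4 * (D s A B * ∏ p ∈ C, s p) ≤ 3 * (M X A B * ∏ p ∈ C, p * X p) := by
      calc 4 * (D s A B * ∏ p ∈ C, s p) = (2 * D s A B) * (2 * ∏ p ∈ C, s p) := by ring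
        _ ≤ (3 * M X A B) * ∏ p ∈ C, p * X p := Nat.mul_le_mul hDle h2
        _ = _ := by ring
    omega
  · intro C' hC' hini
    have h1 := hC6 C' hC' hini
    have h2 : ((M X A B : ℝ) + 1) ≤ (D s A B : ℝ) := by exact_mod_cast hMD
    have h3 : ((M X A B : ℝ) + 1) ^ (2 ^ C'.card) ≤ (D s A B : ℝ) ^ (2 ^ C'.card) :=
      pow_le_pow_left₀ (by positivity) h2 _
    have h4 : 2 * (D s A B : ℝ) ≤ 3 * (M X A B : ℝ) := by exact_mod_cast hDle
    have h5 : (0 : ℝ) ≤ ∏ p ∈ C', ((p * X p : ℕ) : ℝ) := by positivity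
    have h6 : (0 : ℝ) < Real.exp ((C \ C').card : ℝ) := Real.exp_pos _
    calc 2 * (D s A B : ℝ) * ∏ p ∈ C', ((p * X p : ℕ) : ℝ)
        ≤ 3 * (M X A B : ℝ) * ∏ p ∈ C', ((p * X p : ℕ) : ℝ) := mul_le_mul_of_nonneg_right h4 h5
      _ = 3 * ((M X A B : ℝ) * ∏ p ∈ C', ((p * X p : ℕ) : ℝ)) := by ring
      _ < 3 * (Real.exp ((C \ C').card : ℝ) * ((M X A B : ℝ) + 1) ^ (2 ^ C'.card)) := by
          linarith
      _ ≤ _ := by
          have := mul_le_mul_of_nonneg_left h3 h6.le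
          linarith

/-- the state after the second kind of step -/
lemma Good.next2 (h : Cfg S X s) {A B C : Finset ℕ} (g : Good S X s A B)
    (hC1 : C ⊆ S \ A)
    (hC3 : ∀ p ∈ C, ∀ q ∈ (S \ A) \ C, p * X p ≤ q * X q)
    (hC4 : D s A B * ∏ p ∈ C, s p < D s A B ^ 2 ^ C.card) :
    Good S X s (A ∪ C) (B \ C) := by
  have hAC : Disjoint A C := by
    rw [Finset.disjoint_left]
    intro p hp hp2
    exact (Finset.mem_sdiff.1 (hC1 hp2)).2 hp
  refine ⟨?_, ?_, ?_, ?_, ?_⟩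
  · intro p hp
    rcases Finset.mem_union.1 hp with h1 | h1
    · exact g.hA h1
    · exact (Finset.mem_sdiff.1 (hC1 h1)).1
  · intro p hp
    exact g.hB (Finset.mem_sdiff.1 hp).1
  · rw [Finset.disjoint_left]
    intro p hp hp2
    rcases Finset.mem_union.1 hp with h1 | h1
    · exact Finset.disjoint_left.1 g.disj h1 (Finset.mem_sdiff.1 hp2).1
    · exact (Finset.mem_sdiff.1 hp2).2 h1
  · intro p hp q hq
    obtain ⟨hq1, hq2⟩ := Finset.mem_sdiff.1 hq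
    have hqA : q ∉ A := fun h1 => hq2 (Finset.mem_union_left _ h1)
    have hqC : q ∉ C := fun h1 => hq2 (Finset.mem_union_right _ h1)
    rcases Finset.mem_union.1 hp with h1 | h1
    · exact g.init p h1 q (Finset.mem_sdiff.2 ⟨hq1, hqA⟩)
    · exact hC3 p h1 q (Finset.mem_sdiff.2 ⟨Finset.mem_sdiff.2 ⟨hq1, hqA⟩, hqC⟩)
  · have h1 : D s (A ∪ C) (B \ C) ≤ D s A B * ∏ p ∈ C, s p := by
      unfold D
      rw [Finset.prod_union hAC]
      have h2 : ∏ p ∈ B \ C, p ≤ ∏ p ∈ B, p := by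
        apply Finset.prod_le_prod_of_subset_of_one_le' Finset.sdiff_subset
        intro p hp _
        have := h.ge3 p (g.hB hp); omega
      calc (∏ p ∈ A, s p) * (∏ p ∈ C, s p) * ∏ p ∈ B \ C, p
          ≤ (∏ p ∈ A, s p) * (∏ p ∈ C, s p) * ∏ p ∈ B, p := Nat.mul_le_mul_left _ h2
        _ = _ := by ring
    have h3 : D s A B ^ 2 ^ C.card ≤ (2 ^ 2 ^ (2 * A.card + B.card)) ^ 2 ^ C.card :=
      Nat.pow_le_pow_left (by have := g.bound; omega) _
    have h4 : 2 * A.card + B.card + C.card ≤ 2 * (A ∪ C).card + (B \ C).card := by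
      rw [Finset.card_union_of_disjoint hAC]
      have := Finset.le_card_sdiff C B
      omega
    have h5 : (2 ^ 2 ^ (2 * A.card + B.card)) ^ 2 ^ C.card ≤
        2 ^ 2 ^ (2 * (A ∪ C).card + (B \ C).card) := by
      rw [← pow_mul, ← pow_add]
      exact Nat.pow_le_pow_right (by norm_num) (Nat.pow_le_pow_right (by norm_num) h4)
    omega

/-- The chain reaches a state with at least two unknown components from which the next step
finds all but at most one of them. -/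
theorem Cfg.critical (h : Cfg S X s) (hS : 2 ≤ S.card) :
    ∃ A B, Good S X s A B ∧ A.card + 2 ≤ S.card ∧ M X A B < D s A B ∧
      ∃ C ⊆ S \ A, C.Nonempty ∧ S.card ≤ A.card + C.card + 1 ∧
      (∀ p ∈ C, ∀ q ∈ (S \ A) \ C, p * X p ≤ q * X q) ∧
      D s A B * ∏ p ∈ C, s p < D s A B ^ 2 ^ C.card ∧
      ∀ C' ⊆ C, (∀ p ∈ C', ∀ q ∈ C \ C', p * X p ≤ q * X q) →
        2 * (D s A B : ℝ) * ∏ p ∈ C', ((p * X p : ℕ) : ℝ) <
          3 * (Real.exp ((C \ C').card : ℝ) * (D s A B : ℝ) ^ (2 ^ C'.card)) := by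
  -- induction on the number of steps left
  have key : ∀ n : ℕ, ∀ A B : Finset ℕ, Good S X s A B → A.card + 2 ≤ S.card →
      2 * S.card - (2 * A.card + B.card) ≤ n →
      ∃ A B, Good S X s A B ∧ A.card + 2 ≤ S.card ∧ M X A B < D s A B ∧
      ∃ C ⊆ S \ A, C.Nonempty ∧ S.card ≤ A.card + C.card + 1 ∧
      (∀ p ∈ C, ∀ q ∈ (S \ A) \ C, p * X p ≤ q * X q) ∧
      D s A B * ∏ p ∈ C, s p < D s A B ^ 2 ^ C.card ∧
      ∀ C' ⊆ C, (∀ p ∈ C', ∀ q ∈ C \ C', p * X p ≤ q * X q) →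
        2 * (D s A B : ℝ) * ∏ p ∈ C', ((p * X p : ℕ) : ℝ) <
          3 * (Real.exp ((C \ C').card : ℝ) * (D s A B : ℝ) ^ (2 ^ C'.card)) := by
    intro n
    induction n with
    | zero =>
      intro A B g hA hn
      exfalso
      have h1 : A.card + B.card ≤ S.card := by
        rw [← Finset.card_union_of_disjoint g.disj]
        exact Finset.card_le_card (Finset.union_subset g.hA g.hB)
      omega
    | succ n ih =>
      intro A B g hA hn
      have h1 : A.card + B.card ≤ S.card := by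
        rw [← Finset.card_union_of_disjoint g.disj]
        exact Finset.card_le_card (Finset.union_subset g.hA g.hB)
      have hne : A ≠ S := by
        intro h2; rw [h2] at hA; omega
      rcases lt_trichotomy (M X A B) (D s A B) with hlt | heq | hgt
      · obtain ⟨C, hC1, hC2, hC3, hC4, hC5⟩ := g.step2 h hlt
        by_cases hcase : S.card ≤ A.card + C.card + 1
        · exact ⟨A, B, g, hA, hlt, C, hC1, hC2, hcase, hC3, hC4, hC5⟩
        · push Not at hcase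
          have hAC : Disjoint A C := by
            rw [Finset.disjoint_left]
            intro p hp hp2
            exact (Finset.mem_sdiff.1 (hC1 hp2)).2 hp
          have hcA : (A ∪ C).card = A.card + C.card := Finset.card_union_of_disjoint hAC
          have hc1 := Finset.card_pos.2 hC2
          apply ih (A ∪ C) (B \ C) (g.next2 h hC1 hC3 hC4) (by omega)
          have := Finset.le_card_sdiff C B
          omega
      · exact absurd heq (h.M_ne_D g.hA g.hB hne)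
      · obtain ⟨C, hC1, hC2, hC3⟩ := g.step1 h hgt
        apply ih A (B ∪ C) hC3 hA
        have hBC : Disjoint B C := by
          rw [Finset.disjoint_left]
          intro p hp hp2
          exact (Finset.mem_sdiff.1 (hC1 hp2)).2 (Finset.mem_union_right _ hp)
        rw [Finset.card_union_of_disjoint hBC]
        have := Finset.card_pos.2 hC2
        omega
  exact key _ ∅ ∅ good_empty (by simpa using hS) le_rfl

end Pool.Agent.Lib.MP_f02ea4_nt.HB
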