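import Pool.Agent.Lib.MP_f02ea4_nt.Mg.G002

/-! Index of odd perfect numbers: structure. -/

set_option autoImplicit false

namespace Pool.Agent.Lib.MP_f02ea4_nt.Idx

open Finset
open ArithmeticFunction (sigma)

lemma geom {r : ℕ} (hr : r.Prime) (e : ℕ) : (r - 1) * sigma 1 (r ^ e) + 1 = r ^ (e + 1) := by
  rw [ArithmeticFunction.sigma_one_apply_prime_pow hr]
  have key : ∀ m, (r - 1) * ∑ k ∈ range m, r ^ k + 1 = r ^ m := by
    intro m
    induction m with
    | zero => simp
    | succ m ih =>
      rw [Finset.sum_range_succ, Nat.mul_add, Nat.add_right_comm, ih, pow_succ]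
      obtain ⟨q, hq⟩ : ∃ q, r = q + 1 := ⟨r - 1, by have := hr.pos; omega⟩
      rw [hq, Nat.add_sub_cancel]
      ring
  exact key (e + 1)

lemma sigma_even {r e : ℕ} (hr : r.Prime) (hodd : Odd r) (he : Odd e) :
    Even (sigma 1 (r ^ e)) := by
  rw [ArithmeticFunction.sigma_one_apply_prime_pow hr]
  have key : ∀ c : ℕ, Even (∑ k ∈ range (2 * c), r ^ k) := by
    intro c
    induction c with
    | zero => simp
    | succ c ih =>
      rw [show 2 * (c + 1) = 2 * c + 1 + 1 by ring, Finset.sum_range_succ, Finset.sum_range_succ,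
        add_assoc]
      exact ih.add (hodd.pow.add_odd hodd.pow)
  obtain ⟨c, hc⟩ := he
  rw [show e + 1 = 2 * (c + 1) by omega]
  exact key (c + 1)

/-- All the data attached to a prime power component of an odd perfect number. -/
structure Data (N p k M i : ℕ) (F W f : ℕ → ℕ) : Prop where
  hp3 : 3 ≤ p
  hM0 : M ≠ 0
  hi2 : 2 ≤ i
  hi4 : ¬ 4 ∣ i
  hidiv : sigma 1 M / p ^ k = i
  hrprime : ∀ r ∈ M.primeFactors, r.Prime
  hr3 : ∀ r ∈ M.primeFactors, 3 ≤ r
  he1 : ∀ r ∈ M.primeFactors, 1 ≤ M.factorization r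
  hσr : ∀ r ∈ M.primeFactors, (r - 1) * (p ^ F r * W r) + 1 = r ^ (M.factorization r + 1)
  hW1 : ∀ r ∈ M.primeFactors, 1 ≤ W r
  hWp : ∀ r ∈ M.primeFactors, ¬ p ∣ W r
  hWdvd : ∏ r ∈ M.primeFactors, W r ∣ i
  hpar : ∀ r ∈ M.primeFactors, Even (M.factorization r) ∨ Even (W r)
  hfval : ∀ r ∈ M.primeFactors, f r + i.factorization r = M.factorization r
  hfdvd : ∀ r, r ^ f r ∣ p ^ (k + 1) - 1
  hkP : (k : ℝ) * Real.log p ≤ Real.log 2 + ∑ r ∈ M.primeFactors, (f r : ℝ) * Real.log r
  hsum1 : ∑ r ∈ M.primeFactors.filter (fun r => W r = 1), (f r : ℝ) * Real.log r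
      ≤ Real.log i + 2 * Real.log ((k : ℝ) + 1)
  hlogW : ∑ r ∈ M.primeFactors.filter (fun r => ¬ W r = 1), Real.log (W r : ℝ) ≤ Real.log i
  hlogN : Real.log N ≤ Real.log i + 2 * (k * Real.log p)

theorem exists_data {N p k M : ℕ} (hN : Odd N) (hperf : Nat.Perfect N) (hp : p.Prime)
    (hpM : ¬ p ∣ M) (hNM : N = p ^ k * M) (hk : 1 ≤ k) :
    p ^ k ∣ sigma 1 M ∧ ∃ (i : ℕ) (F W f : ℕ → ℕ), Data N p k M i F W f := by
  have hN0 : N ≠ 0 := hperf.2.ne'
  have hpN : p ∣ N := by rw [hNM]; exact Dvd.dvd.mul_right (dvd_pow_self _ (by omega)) _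
  have hM0 : M ≠ 0 := by rintro h0; exact hN0 (by rw [hNM, h0, mul_zero])
  have hpodd : Odd p := Odd.of_dvd_nat hN hpN
  have hp3 : 3 ≤ p := by
    have h2 := hp.two_le
    rcases hpodd with ⟨c, hc⟩; omega
  have hMN : M ∣ N := ⟨p ^ k, by rw [hNM, mul_comm]⟩
  have hModd : Odd M := Odd.of_dvd_nat hN hMN
  have hcop : Nat.Coprime (p ^ k) M :=
    Nat.Coprime.pow_left k ((Nat.Prime.coprime_iff_not_dvd hp).mpr hpM)
  have hσN : sigma 1 N = 2 * N := by
    rw [ArithmeticFunction.sigma_one_apply]
    exact (Nat.perfect_iff_sum_divisors_eq_two_mul hperf.2).mp hperf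
  set X := sigma 1 (p ^ k) with hX
  have hmul : X * sigma 1 M = 2 * (p ^ k * M) := by
    rw [hX, ← ArithmeticFunction.isMultiplicative_sigma.map_mul_of_coprime hcop, ← hNM, hσN]
  have hgp : (p - 1) * X + 1 = p ^ (k + 1) := geom hp k
  have hpX : ¬ p ∣ X := by
    intro hd
    have h1 : p ∣ (p - 1) * X := Dvd.dvd.mul_left hd _
    have h2 : p ∣ p ^ (k + 1) := dvd_pow_self _ (by omega)
    rw [← hgp] at h2
    have := Nat.dvd_one.mp ((Nat.dvd_add_right h1).mp h2)
    omega
  have hcop2 : Nat.Coprime (p ^ k) X :=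
    Nat.Coprime.pow_left k ((Nat.Prime.coprime_iff_not_dvd hp).mpr hpX)
  have hdM : p ^ k ∣ sigma 1 M := by
    apply hcop2.dvd_of_dvd_mul_left
    rw [hmul]
    exact Dvd.dvd.mul_left (dvd_mul_right _ _) _
  refine ⟨hdM, ?_⟩
  obtain ⟨i, hi⟩ := hdM
  have hpk : 0 < p ^ k := pow_pos hp.pos k
  have hidiv : sigma 1 M / p ^ k = i := by rw [hi, Nat.mul_div_cancel_left _ hpk]
  have hXi : X * i = 2 * M := by
    rw [hi] at hmul
    have : p ^ k * (X * i) = p ^ k * (2 * M) := by
      calc _ = X * (p ^ k * i) := by ring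
        _ = _ := by rw [hmul]; ring
    exact Nat.eq_of_mul_eq_mul_left hpk this
  have hi1 : 1 ≤ i := by
    rcases Nat.eq_zero_or_pos i with h0 | h0
    · rw [h0, mul_zero] at hXi; omega
    · exact h0
  have hX0 : X ≠ 0 := by
    intro h0; rw [h0, zero_mul] at hXi; omega
  -- the components
  set F : ℕ → ℕ := fun r => (sigma 1 (r ^ M.factorization r)).factorization p with hF
  set W : ℕ → ℕ := fun r => sigma 1 (r ^ M.factorization r) / p ^ F r with hWdef
  have hFW : ∀ r, p ^ F r * W r = sigma 1 (r ^ M.factorization r) := fun r =>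
    Nat.ordProj_mul_ordCompl_eq_self _ p
  have hσne : ∀ r ∈ M.primeFactors, sigma 1 (r ^ M.factorization r) ≠ 0 := by
    intro r hr
    have := (Nat.prime_of_mem_primeFactors hr).pos
    rw [Ne, ArithmeticFunction.sigma_eq_zero]
    positivity
  have hWp : ∀ r ∈ M.primeFactors, ¬ p ∣ W r := fun r hr => Nat.not_dvd_ordCompl hp (hσne r hr)
  have hW1 : ∀ r ∈ M.primeFactors, 1 ≤ W r := by
    intro r hr
    rcases Nat.eq_zero_or_pos (W r) with h0 | h0
    · exact absurd (h0 ▸ dvd_zero p) (hWp r hr)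
    · exact h0
  have hσM : sigma 1 M = ∏ r ∈ M.primeFactors, sigma 1 (r ^ M.factorization r) := by
    rw [ArithmeticFunction.isMultiplicative_sigma.multiplicative_factorization _ hM0]
    rfl
  have hprod : p ^ (∑ r ∈ M.primeFactors, F r) * ∏ r ∈ M.primeFactors, W r = p ^ k * i := by
    rw [← hi, hσM, ← Finset.prod_pow_eq_pow_sum, ← Finset.prod_mul_distrib]
    exact Finset.prod_congr rfl (fun r _ => hFW r)
  have hWcop : Nat.Coprime p (∏ r ∈ M.primeFactors, W r) :=
    Nat.Coprime.prod_right (fun r hr => (Nat.Prime.coprime_iff_not_dvd hp).mpr (hWp r hr))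
  have hWdvd : ∏ r ∈ M.primeFactors, W r ∣ i := by
    have h1 : ∏ r ∈ M.primeFactors, W r ∣ p ^ k * i := Dvd.intro_left _ hprod
    exact (hWcop.symm.pow_right k).dvd_of_dvd_mul_left h1
  have hWi : ∏ r ∈ M.primeFactors, W r ≤ i := Nat.le_of_dvd hi1 hWdvd
  have hi4 : ¬ 4 ∣ i := by
    intro h4
    have h5 : 4 ∣ 2 * M := by rw [← hXi]; exact Dvd.dvd.mul_left h4 _
    obtain ⟨c, hc⟩ := h5
    rcases hModd with ⟨e, he⟩
    omega
  -- properties of each component
  have hrprime : ∀ r ∈ M.primeFactors, r.Prime := fun r hr => Nat.prime_of_mem_primeFactors hr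
  have hrodd : ∀ r ∈ M.primeFactors, Odd r := fun r hr =>
    Odd.of_dvd_nat hN ((Nat.dvd_of_mem_primeFactors hr).trans hMN)
  have hr3 : ∀ r ∈ M.primeFactors, 3 ≤ r := by
    intro r hr
    have h2 := (hrprime r hr).two_le
    rcases hrodd r hr with ⟨c, hc⟩; omega
  have he1 : ∀ r ∈ M.primeFactors, 1 ≤ M.factorization r := fun r hr =>
    (hrprime r hr).factorization_pos_of_dvd hM0 (Nat.dvd_of_mem_primeFactors hr)
  have hσr : ∀ r ∈ M.primeFactors,
      (r - 1) * (p ^ F r * W r) + 1 = r ^ (M.factorization r + 1) := by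
    intro r hr
    rw [hFW r]
    exact geom (hrprime r hr) _
  have hpar : ∀ r ∈ M.primeFactors, Even (M.factorization r) ∨ Even (W r) := by
    intro r hr
    rcases Nat.even_or_odd (M.factorization r) with he | he
    · exact Or.inl he
    · right
      have h1 := sigma_even (hrprime r hr) (hrodd r hr) he
      rw [← hFW r, Nat.even_mul] at h1
      rcases h1 with h1 | h1
      · exact absurd h1 (Nat.not_even_iff_odd.mpr hpodd.pow)
      · exact h1
  -- the exponents in `σ(p^k)`
  set f : ℕ → ℕ := fun r => X.factorization r with hf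
  have hfval : ∀ r ∈ M.primeFactors, f r + i.factorization r = M.factorization r := by
    intro r hr
    have h1 : (X * i).factorization r = (2 * M).factorization r := by rw [hXi]
    rw [Nat.factorization_mul hX0 (by omega), Nat.factorization_mul (by norm_num) hM0] at h1
    simp only [Finsupp.add_apply] at h1
    have h2 : (2 : ℕ).factorization r = 0 := by
      apply Nat.factorization_eq_zero_of_not_dvd
      intro hd
      have := Nat.le_of_dvd (by norm_num) hd
      have := hr3 r hr
      omega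
    rw [h2, zero_add] at h1
    exact h1
  have hdX : X ∣ p ^ (k + 1) - 1 := ⟨p - 1, by rw [← hgp, Nat.add_sub_cancel, mul_comm]⟩
  have hpk1 : p ^ (k + 1) - 1 ≠ 0 := by
    have : 1 < p ^ (k + 1) := Nat.one_lt_pow (by omega) hp.one_lt
    omega
  have hfdvd : ∀ r, r ^ f r ∣ p ^ (k + 1) - 1 := fun r => (Nat.ordProj_dvd X r).trans hdX
  have h2S : 2 ∉ M.primeFactors := by
    intro h
    have := hr3 2 h
    omega
  have hXprod : X ≤ 2 * ∏ r ∈ M.primeFactors, r ^ f r := by
    have h1 : X.factorization.prod (fun a b => a ^ b) = X := Nat.prod_factorization_pow_eq_self hX0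
    have hsub : X.factorization.support ⊆ insert 2 M.primeFactors := by
      intro r hr
      rw [Nat.support_factorization] at hr
      have hrp := Nat.prime_of_mem_primeFactors hr
      have h3 : r ∣ 2 * M := (Nat.dvd_of_mem_primeFactors hr).trans ⟨i, hXi.symm⟩
      rw [mem_insert]
      rcases (hrp.dvd_mul).mp h3 with h4 | h4
      · left; exact (Nat.prime_dvd_prime_iff_eq hrp Nat.prime_two).mp h4
      · right; exact Nat.mem_primeFactors.mpr ⟨hrp, h4, hM0⟩
    rw [Finsupp.prod_of_support_subset _ hsub _ (fun r _ => pow_zero r),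
      Finset.prod_insert h2S] at h1
    have h2 : X.factorization 2 ≤ 1 := by
      by_contra hc
      push Not at hc
      have h3 : 2 ^ 2 ∣ X :=
        (Nat.pow_dvd_pow 2 hc).trans (Nat.ordProj_dvd X 2)
      have h4 : 2 ^ 2 ∣ 2 * M := h3.trans ⟨i, hXi.symm⟩
      obtain ⟨c, hc⟩ := h4
      have : M = 2 * c := by omega
      rcases hModd with ⟨e, he⟩
      omega
    calc X = 2 ^ X.factorization 2 * ∏ r ∈ M.primeFactors, r ^ X.factorization r := h1.symm
      _ ≤ 2 ^ 1 * ∏ r ∈ M.primeFactors, r ^ X.factorization r :=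
          Nat.mul_le_mul_right _ (Nat.pow_le_pow_right (by norm_num) h2)
      _ = _ := by rw [pow_one]
  -- type 1
  have h1 : ∏ r ∈ M.primeFactors.filter (fun r => W r = 1), r ^ (f r) ≤ i * (k + 1) ^ 2 := by
    have hik : i * (k + 1) ^ 2 ≠ 0 := by positivity
    apply Nat.le_of_dvd (by positivity)
    apply Finset.prod_dvd_of_isRelPrime
    · intro r hr s hs hrs
      rw [mem_coe, mem_filter] at hr hs
      have hco : Nat.Coprime r s := (Nat.coprime_primes (hrprime r hr.1) (hrprime s hs.1)).mpr hrs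
      exact Nat.coprime_iff_isRelPrime.mp (Nat.Coprime.pow _ _ hco)
    · intro r hr
      rw [mem_filter] at hr
      obtain ⟨hrS, hrW⟩ := hr
      have hσ1 := hσr r hrS
      rw [hrW, mul_one] at hσ1
      have hF1 : 1 ≤ F r := by
        rcases Nat.eq_zero_or_pos (F r) with h0 | h0
        · rw [h0, pow_zero, mul_one] at hσ1
          have h3 : r * r ≤ r ^ (M.factorization r + 1) := by
            rw [← sq]
            exact Nat.pow_le_pow_right (hrprime r hrS).pos (by have := he1 r hrS; omega)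
          have := hr3 r hrS
          nlinarith [Nat.sub_add_cancel (hrprime r hrS).pos]
        · exact h0
      have hev : Even (M.factorization r) := by
        rcases hpar r hrS with he | he
        · exact he
        · rw [hrW] at he
          exact absurd he (by decide)
      have he2 : 2 ≤ M.factorization r := by
        have := he1 r hrS
        rcases hev with ⟨c, hc⟩; omega
      have h3 := comp_one hp (hrprime r hrS) (hr3 r hrS) (he1 r hrS) hF1
        (show 1 ≤ k + 1 by omega) hσ1
      have h4 : f r ≤ (p ^ (k + 1) - 1).factorization r :=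
        (Nat.factorization_le_iff_dvd hX0 hpk1).mpr hdX r
      have h5 := hfval r hrS
      rw [(hrprime r hrS).pow_dvd_iff_le_factorization hik,
        Nat.factorization_mul (by omega) (by positivity), Nat.factorization_pow]
      simp only [Finsupp.add_apply, Finsupp.smul_apply, smul_eq_mul]
      omega
  -- `i ≥ 2`
  have hi2 : 2 ≤ i := by
    by_contra hc
    have hi11 : i = 1 := by omega
    have hall : M.primeFactors.filter (fun r => W r = 1) = M.primeFactors := by
      rw [Finset.filter_eq_self]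
      intro r hr
      have h3 : W r ≤ ∏ r ∈ M.primeFactors, W r := Finset.single_le_prod' hW1 hr
      have := hW1 r hr
      omega
    rw [hall, hi11, one_mul] at h1
    have h2 : X ≤ 2 * (k + 1) ^ 2 := hXprod.trans (Nat.mul_le_mul_left _ h1)
    rw [hi11, mul_one] at hXi hi
    rw [hX, ArithmeticFunction.sigma_one_apply_prime_pow hp] at h2 hXi
    exact small_case hp3 hk hModd hXi h2 hi
  -- logarithms
  have hir : (2 : ℝ) ≤ i := by exact_mod_cast hi2
  have hp3r : (3 : ℝ) ≤ p := by exact_mod_cast hp3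
  have hP : (1 : ℝ) ≤ Real.log p := log_three_ge_one.trans (Real.log_le_log (by norm_num) hp3r)
  have hI : Real.log 2 ≤ Real.log i := Real.log_le_log (by norm_num) hir
  have hpX2 : p ^ k ≤ X := by
    rw [hX, ArithmeticFunction.sigma_one_apply_prime_pow hp, Finset.sum_range_succ]
    omega
  have hkP : (k : ℝ) * Real.log p ≤ Real.log 2 + ∑ r ∈ M.primeFactors, (f r : ℝ) * Real.log r := by
    have h3 : ((p ^ k : ℕ) : ℝ) ≤ ((2 * ∏ r ∈ M.primeFactors, r ^ f r : ℕ) : ℝ) := by
      exact_mod_cast hpX2.trans hXprod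
    have h4 := Real.log_le_log (by exact_mod_cast hpk) h3
    have h5 : Real.log ((∏ r ∈ M.primeFactors, r ^ f r : ℕ) : ℝ)
        = ∑ r ∈ M.primeFactors, (f r : ℝ) * Real.log r := by
      push_cast
      rw [Real.log_prod (fun r hr => by
        have := (hrprime r hr).pos
        positivity)]
      exact Finset.sum_congr rfl (fun r _ => by rw [Real.log_pow])
    have h6 : ((∏ r ∈ M.primeFactors, r ^ f r : ℕ) : ℝ) ≠ 0 := by
      have : (∏ r ∈ M.primeFactors, r ^ f r : ℕ) ≠ 0 :=
        Finset.prod_ne_zero_iff.mpr (fun r hr => by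
          have := (hrprime r hr).pos
          positivity)
      exact_mod_cast this
    rw [Nat.cast_mul, Real.log_mul (by norm_num) h6, h5] at h4
    push_cast at h4
    rw [Real.log_pow] at h4
    exact h4
  have hsum1 : ∑ r ∈ M.primeFactors.filter (fun r => W r = 1), (f r : ℝ) * Real.log r
      ≤ Real.log i + 2 * Real.log ((k : ℝ) + 1) := by
    have h3 : ((∏ r ∈ M.primeFactors.filter (fun r => W r = 1), r ^ f r : ℕ) : ℝ)
        ≤ ((i * (k + 1) ^ 2 : ℕ) : ℝ) := by exact_mod_cast h1
    have h6 : (0 : ℝ) < ((∏ r ∈ M.primeFactors.filter (fun r => W r = 1), r ^ f r : ℕ) : ℝ) := by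
      have : 0 < (∏ r ∈ M.primeFactors.filter (fun r => W r = 1), r ^ f r : ℕ) :=
        Finset.prod_pos (fun r hr => by
          have := (hrprime r (mem_filter.mp hr).1).pos
          positivity)
      exact_mod_cast this
    have h4 := Real.log_le_log h6 h3
    have h5 : Real.log ((∏ r ∈ M.primeFactors.filter (fun r => W r = 1), r ^ f r : ℕ) : ℝ)
        = ∑ r ∈ M.primeFactors.filter (fun r => W r = 1), (f r : ℝ) * Real.log r := by
      push_cast
      rw [Real.log_prod (fun r hr => by
        have := (hrprime r (mem_filter.mp hr).1).pos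
        positivity)]
      exact Finset.sum_congr rfl (fun r _ => by rw [Real.log_pow])
    rw [h5] at h4
    refine h4.trans (le_of_eq ?_)
    push_cast
    rw [Real.log_mul (by positivity) (by positivity), Real.log_pow]
    push_cast
    ring
  have hlogW : ∑ r ∈ M.primeFactors.filter (fun r => ¬ W r = 1), Real.log (W r : ℝ)
      ≤ Real.log i := by
    have hle : ∑ r ∈ M.primeFactors.filter (fun r => ¬ W r = 1), Real.log (W r : ℝ)
        ≤ ∑ r ∈ M.primeFactors, Real.log (W r : ℝ) := by
      apply Finset.sum_le_sum_of_subset_of_nonneg (Finset.filter_subset _ _)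
      intro r hr _
      apply Real.log_nonneg
      exact_mod_cast hW1 r hr
    refine hle.trans ?_
    rw [← Real.log_prod (fun r hr => by
        have := hW1 r hr
        positivity)]
    have h4 : (∏ r ∈ M.primeFactors, (W r : ℝ)) ≤ i := by exact_mod_cast hWi
    have h5 : (0 : ℝ) < ∏ r ∈ M.primeFactors, (W r : ℝ) := Finset.prod_pos (fun r hr => by
      have := hW1 r hr
      positivity)
    exact Real.log_le_log h5 h4
  -- `N ≤ i * p ^ (2 k)`
  have hNle : N ≤ i * (p ^ k * p ^ k) := by
    have h3 : 2 * X ≤ 3 * p ^ k := by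
      have h4 : p ^ (k + 1) = p * p ^ k := by rw [pow_succ']
      rw [h4] at hgp
      obtain ⟨b, hb⟩ : ∃ b, p = b + 1 := ⟨p - 1, by omega⟩
      have hb2 : 2 ≤ b := by omega
      rw [show p - 1 = b by omega] at hgp
      have h5 : b * X + 1 = b * p ^ k + p ^ k := by
        calc b * X + 1 = p * p ^ k := hgp
          _ = (b + 1) * p ^ k := by rw [← hb]
          _ = _ := by ring
      nlinarith
    have h4 : 2 * N ≤ 2 * (i * (p ^ k * p ^ k)) := by
      calc 2 * N = p ^ k * (2 * M) := by rw [hNM]; ring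
        _ = p ^ k * (X * i) := by rw [hXi]
        _ ≤ p ^ k * ((2 * p ^ k) * i) := by
            apply Nat.mul_le_mul_left
            apply Nat.mul_le_mul_right
            omega
        _ = _ := by ring
    omega
  have hNr : (N : ℝ) ≤ i * ((p : ℝ) ^ k * (p : ℝ) ^ k) := by exact_mod_cast hNle
  have hN1 : (0 : ℝ) < N := by exact_mod_cast Nat.pos_of_ne_zero hN0
  have hlogN : Real.log N ≤ Real.log i + 2 * (k * Real.log p) := by
    refine (Real.log_le_log hN1 hNr).trans (le_of_eq ?_)
    rw [Real.log_mul (by positivity) (by positivity), Real.log_mul (by positivity) (by positivity),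
      Real.log_pow]
    ring
  exact ⟨i, F, W, f, ⟨hp3, hM0, hi2, hi4, hidiv, hrprime, hr3, he1, hσr, hW1, hWp, hWdvd, hpar,
    hfval, hfdvd, hkP, hsum1, hlogW, hlogN⟩⟩

end Pool.Agent.Lib.MP_f02ea4_nt.Idx
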