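import Mathlib

/-! Largest prime factor of an odd perfect number: definitions. -/

set_option autoImplicit false

namespace Pool.Agent.Lib.MP_f02ea4_nt.LP

open Finset Real

/-! ### T1: good families with `1 ≤ c` -/

/-- a family of good primes with even exponents (here `c = 1` is allowed) -/
structure Fam1 (p : ℕ) (S : Finset ℕ) (a c κ : ℕ → ℕ) : Prop where
  prime : ∀ q ∈ S, q.Prime
  ne2 : ∀ q ∈ S, q ≠ 2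
  even : ∀ q ∈ S, Even (a q)
  pos : ∀ q ∈ S, 1 ≤ a q
  c1 : ∀ q ∈ S, 1 ≤ c q
  sig : ∀ q ∈ S, (q - 1) * (c q * p ^ κ q) + 1 = q ^ (a q + 1)
  good : ∀ q ∈ S, c q ^ 10 < p ^ κ q

/-! ### the data -/

/-- arithmetic data attached to `P ∥ N`, `q ^ b ∥ N`, `P ∣ σ(q ^ b)` -/
structure Data (q b m C f P : ℕ) (S : Finset ℕ) (e s g h d : ℕ → ℕ) : Prop where
  hq : q.Prime
  hq2 : q ≠ 2
  hb : 2 ≤ b
  hm : 1 ≤ m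
  hC : 1 ≤ C
  sigq : (q - 1) * (m * P) + 1 = q ^ (b + 1)
  hf : q ^ f ≤ 2 * m
  prime : ∀ r ∈ S, r.Prime
  ne2 : ∀ r ∈ S, r ≠ 2
  even : ∀ r ∈ S, Even (e r)
  pos : ∀ r ∈ S, 1 ≤ e r
  s1 : ∀ r ∈ S, 1 ≤ s r
  nd : ∀ r ∈ S, ¬ q ∣ s r
  sig : ∀ r ∈ S, (r - 1) * (s r * q ^ g r) + 1 = r ^ (e r + 1)
  prod : ∏ r ∈ S, s r ≤ C
  sum : f + ∑ r ∈ S, g r = b
  hdvd : ∀ r ∈ S, r ^ h r ∣ P + 1
  he : ∀ r ∈ S, e r = h r + d r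
  hd : ∀ r ∈ S, r ^ d r ≤ m * C

end Pool.Agent.Lib.MP_f02ea4_nt.LP
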