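import Pool.Agent.Lib.MP_f02ea4_nt.SigmaBasics
import Pool.Agent.Lib.MP_f02ea4_nt.LPDefs

/-! Largest prime factor of an odd perfect number: T11b, T11c. -/

set_option autoImplicit false

namespace Pool.Agent.Lib.MP_f02ea4_nt.LP

open Finset Real
open ArithmeticFunction (sigma)

private theorem T11_sigma {N : ℕ} (hperf : Nat.Perfect N) : sigma 1 N = 2 * N := by
  rw [ArithmeticFunction.sigma_one_apply]
  exact (Nat.perfect_iff_sum_divisors_eq_two_mul hperf.2).1 hperf

/-- T11b -/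
theorem exists_payer {N P : ℕ} (hN : Odd N) (hperf : Nat.Perfect N) (hP : P.Prime)
    (hPN : N.factorization P = 1) :
    ∃ q, q.Prime ∧ q ∣ N ∧ P ∣ sigma 1 (q ^ N.factorization q) := by
  have hs := T11_sigma hperf
  have hN0 : N ≠ 0 := hperf.2.ne'
  have hPdvd : P ∣ N := by
    apply Nat.dvd_of_factorization_pos
    rw [hPN]; exact one_ne_zero
  set M := N / P ^ N.factorization P with hMdef
  have hNM : P ^ N.factorization P * M = N := Nat.ordProj_mul_ordCompl_eq_self N P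
  have hPM : ¬ P ∣ M := Nat.not_dvd_ordCompl hP hN0
  rw [hPN] at hNM
  have hcop : Nat.Coprime (P ^ 1) M :=
    Nat.Coprime.pow_left 1 ((Nat.Prime.coprime_iff_not_dvd hP).2 hPM)
  have hM0 : 0 < M := by
    rcases Nat.eq_zero_or_pos M with h | h
    · rw [h, mul_zero] at hNM; exact absurd hNM.symm hN0
    · exact h
  have h1 : P ∣ Sb.sg (P ^ 1) * Sb.sg M := by
    rw [← Sb.sg_mul hcop, hNM]
    show P ∣ sigma 1 N
    rw [hs]
    exact Dvd.dvd.mul_left hPdvd 2
  have h2 : P ∣ Sb.sg M := by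
    rcases (Nat.Prime.dvd_mul hP).1 h1 with h | h
    · exact absurd h ((Nat.Prime.coprime_iff_not_dvd hP).1 (Sb.coprime_sg_pow hP 1))
    · exact h
  obtain ⟨p, a, M', hp, ha, hM', hMM, hcop', hdv⟩ := Sb.exists_payer hP M hM0 h2
  have hpM : p ∣ M := by
    rw [hMM]
    exact Dvd.dvd.mul_right (dvd_pow_self p ha.ne') M'
  have hpP : p ≠ P := by
    rintro rfl
    exact hPM hpM
  have hpN : p ∣ N := by
    rw [← hNM]
    exact Dvd.dvd.mul_left hpM _
  refine ⟨p, hp, hpN, ?_⟩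
  have hfac : N.factorization p = a := by
    have hpM' : ¬ p ∣ M' := by
      intro h
      have h3 : Nat.Coprime p M' := Nat.Coprime.coprime_dvd_left (dvd_pow_self p ha.ne') hcop'
      exact ((Nat.Prime.coprime_iff_not_dvd hp).1 h3) h
    rw [← hNM, hMM, Nat.factorization_mul (by simp [hP.ne_zero])
      (Nat.mul_ne_zero (pow_ne_zero a hp.ne_zero) hM'.ne'),
      Nat.factorization_mul (pow_ne_zero a hp.ne_zero) hM'.ne']
    rw [pow_one]
    simp only [Finsupp.add_apply]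
    rw [Nat.Prime.factorization hP, Nat.Prime.factorization_pow hp,
      Nat.factorization_eq_zero_of_not_dvd hpM']
    simp [Ne.symm hpP]
  rw [hfac]
  exact hdv

/-- T11c -/
theorem pow_four_le {N P : ℕ} (hN : Odd N) (hperf : Nat.Perfect N) (hP : P.Prime)
    (hPN : 2 ≤ N.factorization P) : P ^ 4 ≤ 2 * N := by
  have hs := T11_sigma hperf
  have hN0 : N ≠ 0 := hperf.2.ne'
  set k := N.factorization P with hk
  set M := N / P ^ k with hMdef
  have hNM : P ^ k * M = N := Nat.ordProj_mul_ordCompl_eq_self N P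
  have hPM : ¬ P ∣ M := Nat.not_dvd_ordCompl hP hN0
  have hcop : Nat.Coprime (P ^ k) M :=
    Nat.Coprime.pow_left k ((Nat.Prime.coprime_iff_not_dvd hP).2 hPM)
  have hM0 : 0 < M := by
    rcases Nat.eq_zero_or_pos M with h | h
    · rw [h, mul_zero] at hNM; exact absurd hNM.symm hN0
    · exact h
  have h1 : Sb.sg (P ^ k) * Sb.sg M = 2 * N := by
    rw [← Sb.sg_mul hcop, hNM]
    exact hs
  have h2 : P ^ k ∣ Sb.sg M := by
    have h3 : P ^ k ∣ Sb.sg (P ^ k) * Sb.sg M := by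
      rw [h1, ← hNM]
      exact Dvd.dvd.mul_left (Dvd.intro _ rfl) 2
    exact Nat.Coprime.dvd_of_dvd_mul_left
      (Nat.Coprime.pow_left k (Sb.coprime_sg_pow hP k)) h3
  have h4 : P ^ k ≤ Sb.sg M := Nat.le_of_dvd (Sb.sg_pos hM0) h2
  have h5 : P ^ k ≤ Sb.sg (P ^ k) := Sb.le_sg (pow_pos hP.pos k)
  calc P ^ 4 ≤ P ^ (k + k) := Nat.pow_le_pow_right hP.pos (by omega)
    _ = P ^ k * P ^ k := pow_add P k k
    _ ≤ Sb.sg (P ^ k) * Sb.sg M := Nat.mul_le_mul h5 h4
    _ = 2 * N := h1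

end Pool.Agent.Lib.MP_f02ea4_nt.LP
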