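import Pool.Agent.Lib.MP_f02ea4_nt.SigmaBasics
import Pool.Agent.Lib.MP_f02ea4_nt.LP_T11b

/-! The bound `P ^ 3 < 3 N` of Acquaah and Konyagin for the prime factors `P` of an odd perfect
number `N`. -/

set_option autoImplicit false

namespace Pool.Agent.Lib.MP_f02ea4_nt.LP

open Finset
open ArithmeticFunction (sigma)

private theorem ak_geom {q : ℕ} (hq : 1 ≤ q) (b : ℕ) :
    (q - 1) * (∑ i ∈ range b, q ^ i) + 1 = q ^ b := by
  obtain ⟨u, rfl⟩ : ∃ u, q = u + 1 := ⟨q - 1, by omega⟩
  simp only [Nat.add_sub_cancel]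
  induction b with
  | zero => simp
  | succ b ih => rw [sum_range_succ, pow_succ, ← ih]; ring_nf

/-- The arithmetic core. -/
private theorem ak_core {P q b M d σ : ℕ} (hq : q.Prime) (hq2 : Odd q) (hPodd : Odd P)
    (hMo : Odd M) (hqM : ¬ q ∣ M)
    (h1 : d * P = ∑ i ∈ range (b + 1), q ^ i)
    (h2 : (P + 1) * d * σ = 2 * (q ^ b * M)) :
    P ^ 3 < 3 * (P * (q ^ b * M)) := by
  have hq3 : 3 ≤ q := by
    have := hq.two_le
    obtain ⟨k, hk⟩ := hq2
    omega
  have hP0 : 0 < P := hPodd.pos
  have hM0 : 0 < M := hMo.pos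
  have hgeom := ak_geom (by omega : 1 ≤ q) (b + 1)
  rw [← h1] at hgeom
  have hd0 : 0 < d := by
    rcases Nat.eq_zero_or_pos d with h | h
    · subst h
      simp at h2
      have := pow_pos hq.pos b
      omega
    · exact h
  have hσ0 : 0 < σ := by
    rcases Nat.eq_zero_or_pos σ with h | h
    · subst h
      simp at h2
      have := pow_pos hq.pos b
      omega
    · exact h
  by_cases hqP : q ∣ P + 1
  · -- `q ∣ P + 1`
    obtain ⟨s, t, hqt, hst⟩ := Nat.exists_eq_pow_mul_and_not_dvd (n := P + 1) (by omega) q hq.ne_one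
    have hs1 : 1 ≤ s := by
      rcases Nat.eq_zero_or_pos s with h | h
      · subst h
        rw [pow_zero, one_mul] at hst
        rw [hst] at hqP
        exact absurd hqP hqt
      · exact h
    have hcopqt : Nat.Coprime q t := (Nat.Prime.coprime_iff_not_dvd hq).2 hqt
    have ht0 : 0 < t := by
      rcases Nat.eq_zero_or_pos t with h | h
      · subst h; simp at hqt
      · exact h
    -- `t` is even
    have hteven : 2 ∣ t := by
      have h3 : 2 ∣ q ^ s * t := by
        rw [← hst]
        obtain ⟨k, hk⟩ := hPodd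
        exact ⟨k + 1, by omega⟩
      rcases (Nat.Prime.dvd_mul Nat.prime_two).1 h3 with h | h
      · exfalso
        have := Nat.Prime.dvd_of_dvd_pow Nat.prime_two h
        obtain ⟨k, hk⟩ := hq2
        omega
      · exact h
    have h2' : q ^ s * (t * d * σ) = 2 * (q ^ b * M) := by
      rw [← h2, hst]; ring
    -- `s ≤ b`
    have hsb : s ≤ b := by
      by_contra hlt
      push Not at hlt
      have h3 : q ^ (b + 1) ∣ 2 * (q ^ b * M) := by
        rw [← h2']
        exact Dvd.dvd.mul_right (pow_dvd_pow q hlt) _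
      have h4 : q ^ b * q ∣ q ^ b * (2 * M) := by
        rw [← pow_succ]
        convert h3 using 1
        ring
      have h5 : q ∣ 2 * M := Nat.dvd_of_mul_dvd_mul_left (pow_pos hq.pos b) h4
      rcases (Nat.Prime.dvd_mul hq).1 h5 with h | h
      · have := Nat.le_of_dvd (by norm_num) h
        omega
      · exact hqM h
    -- `q ^ s ∣ d + S_s`
    have hsplit : ∑ i ∈ range (b + 1), q ^ i =
        (∑ i ∈ range s, q ^ i) + q ^ s * (∑ i ∈ range (b + 1 - s), q ^ i) := by
      have : b + 1 = s + (b + 1 - s) := by omega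
      conv_lhs => rw [this]
      rw [sum_range_add, mul_sum]
      congr 1
      apply sum_congr rfl
      intro i _
      rw [pow_add]
    set S := ∑ i ∈ range s, q ^ i with hS
    have hdS : q ^ s ∣ d + S := by
      have h3 : d * (P + 1) = d + S + q ^ s * (∑ i ∈ range (b + 1 - s), q ^ i) := by
        rw [mul_add, h1, hsplit]; ring
      have h4 : q ^ s ∣ d * (P + 1) := by
        rw [hst]
        exact ⟨d * t, by ring⟩
      rw [h3] at h4
      exact (Nat.dvd_add_left (Dvd.intro _ rfl)).1 h4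
    have hgs := ak_geom (by omega : 1 ≤ q) s
    rw [← hS] at hgs
    have hdle : q ^ s ≤ d + S := Nat.le_of_dvd (by omega) hdS
    -- lower bound for `d`
    obtain ⟨u, rfl⟩ : ∃ u, q = u + 2 := ⟨q - 2, by omega⟩
    have hu1 : 1 ≤ u := by omega
    have e1 : u + 2 - 1 = u + 1 := by omega
    rw [e1] at hgs hgeom
    have hd1 : u * (u + 2) ^ s < (u + 1) * d := by
      have h3 : (u + 1) * (u + 2) ^ s ≤ (u + 1) * (d + S) := Nat.mul_le_mul_left _ hdle
      nlinarith
    have hqb : u * (u + 2) ^ s * P < (u + 2) * (u + 2) ^ b := by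
      have h3 : u * (u + 2) ^ s * P ≤ (u + 1) * d * P := Nat.mul_le_mul_right _ hd1.le
      rw [pow_succ] at hgeom
      nlinarith
    -- `t ∣ 2 M`
    have htM : t ∣ 2 * M := by
      have h3 : t ∣ (u + 2) ^ b * (2 * M) := by
        have h4 : t ∣ 2 * ((u + 2) ^ b * M) := by
          rw [← h2']
          exact ⟨(u + 2) ^ s * (d * σ), by ring⟩
        convert h4 using 1
        ring
      exact Nat.Coprime.dvd_of_dvd_mul_left (Nat.Coprime.symm (Nat.Coprime.pow_left b hcopqt)) h3
    obtain ⟨k, hk⟩ := htM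
    have hkodd : Odd k := by
      obtain ⟨t', rfl⟩ := hteven
      have h3 : M = t' * k := by
        have : 2 * M = 2 * (t' * k) := by rw [hk]; ring
        omega
      rw [h3] at hMo
      exact (Nat.odd_mul.1 hMo).2
    have hk3 : 3 ≤ k := by
      by_contra hlt
      push Not at hlt
      have hk1 : k = 1 := by
        obtain ⟨j, hj⟩ := hkodd
        omega
      subst hk1
      rw [mul_one] at hk
      -- `q ^ s * d * σ = q ^ b`
      have h3 : (u + 2) ^ s * d * σ = (u + 2) ^ b := by
        have h4 : t * ((u + 2) ^ s * d * σ) = t * (u + 2) ^ b := by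
          calc t * ((u + 2) ^ s * d * σ) = (u + 2) ^ s * (t * d * σ) := by ring
            _ = 2 * ((u + 2) ^ b * M) := h2'
            _ = (u + 2) ^ b * (2 * M) := by ring
            _ = (u + 2) ^ b * t := by rw [hk]
            _ = t * (u + 2) ^ b := by ring
        exact Nat.eq_of_mul_eq_mul_left ht0 h4
      have h4 : d ∣ (u + 2) ^ b := by
        rw [← h3]
        exact ⟨(u + 2) ^ s * σ, by ring⟩
      obtain ⟨j, -, hj⟩ := (Nat.dvd_prime_pow hq).1 h4
      have hqdS : (u + 2) ∣ d + S := (dvd_pow_self (u + 2) (by omega : s ≠ 0)).trans hdS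
      have hS1 : ∃ w, S = 1 + (u + 2) * w := by
        refine ⟨∑ i ∈ range (s - 1), (u + 2) ^ i, ?_⟩
        rw [hS]
        have : s = (s - 1) + 1 := by omega
        conv_lhs => rw [this]
        rw [sum_range_succ', pow_zero, mul_sum, add_comm]
        congr 1
        apply sum_congr rfl
        intro i _
        rw [pow_succ]; ring
      obtain ⟨w, hw⟩ := hS1
      rcases Nat.eq_zero_or_pos j with h | h
      · subst h
        rw [pow_zero] at hj
        rw [hj, hw] at hqdS
        have h5 : (u + 2) ∣ 2 := by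
          have h6 : 1 + (1 + (u + 2) * w) = 2 + (u + 2) * w := by ring
          rw [h6] at hqdS
          exact (Nat.dvd_add_left (Dvd.intro _ rfl)).1 hqdS
        have := Nat.le_of_dvd (by norm_num) h5
        omega
      · have h5 : (u + 2) ∣ d := by
          rw [hj]; exact dvd_pow_self _ h.ne'
        have h6 : (u + 2) ∣ S := (Nat.dvd_add_right h5).1 hqdS
        rw [hw] at h6
        have h7 : (u + 2) ∣ 1 := (Nat.dvd_add_left (Dvd.intro _ rfl)).1 h6
        have := Nat.le_of_dvd (by norm_num) h7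
        omega
    -- the final computation
    have hM3 : 3 * t ≤ 2 * M := by
      rw [hk]
      nlinarith
    have h5 : 3 * u * (P ^ 2 * (P + 1)) < 2 * (u + 2) * (P * ((u + 2) ^ b * M)) := by
      calc 3 * u * (P ^ 2 * (P + 1)) = P * (u * (u + 2) ^ s * P) * (3 * t) := by rw [hst]; ring
        _ < P * ((u + 2) * (u + 2) ^ b) * (3 * t) := by
            apply Nat.mul_lt_mul_of_pos_right _ (by omega)
            exact Nat.mul_lt_mul_of_pos_left hqb hP0
        _ ≤ P * ((u + 2) * (u + 2) ^ b) * (2 * M) := Nat.mul_le_mul_left _ hM3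
        _ = 2 * (u + 2) * (P * ((u + 2) ^ b * M)) := by ring
    have h6 : P ^ 3 < P ^ 2 * (P + 1) := by nlinarith [pow_pos hP0 2]
    set X := P * ((u + 2) ^ b * M) with hX
    set Y := P ^ 2 * (P + 1) with hY
    have h7 : 2 * (u + 2) * P ^ 3 ≤ 9 * u * Y := by
      have : 2 * (u + 2) * P ^ 3 ≤ 9 * u * P ^ 3 := Nat.mul_le_mul_right _ (by omega)
      exact this.trans (Nat.mul_le_mul_left _ h6.le)
    have h8 : 2 * (u + 2) * P ^ 3 < 2 * (u + 2) * (3 * X) := by
      calc 2 * (u + 2) * P ^ 3 ≤ 9 * u * Y := h7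
        _ = 3 * (3 * u * Y) := by ring
        _ < 3 * (2 * (u + 2) * X) := by omega
        _ = _ := by ring
    exact Nat.lt_of_mul_lt_mul_left h8
  · -- `q ∤ P + 1`
    have hcop : Nat.Coprime (P + 1) (q ^ b) :=
      (Nat.Coprime.pow_left b ((Nat.Prime.coprime_iff_not_dvd hq).2 hqP)).symm
    have hdv : P + 1 ∣ 2 * M := by
      have h3 : P + 1 ∣ q ^ b * (2 * M) := by
        have h4 : P + 1 ∣ 2 * (q ^ b * M) := by
          rw [← h2]
          exact ⟨d * σ, by ring⟩
        convert h4 using 1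
        ring
      exact Nat.Coprime.dvd_of_dvd_mul_left hcop h3
    have hle : P + 1 ≤ 2 * M := Nat.le_of_dvd (by omega) hdv
    obtain ⟨u, rfl⟩ : ∃ u, q = u + 2 := ⟨q - 2, by omega⟩
    have e1 : u + 2 - 1 = u + 1 := by omega
    rw [e1, pow_succ] at hgeom
    have h3 : (u + 1) * P < (u + 2) ^ b * (u + 2) := by
      have h4 : (u + 1) * (1 * P) ≤ (u + 1) * (d * P) :=
        Nat.mul_le_mul_left _ (Nat.mul_le_mul_right _ hd0)
      rw [one_mul] at h4
      omega
    have h4 : 2 * P < 3 * (u + 2) ^ b := by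
      have h5 : (u + 2) * (2 * P) ≤ 3 * ((u + 1) * P) := by nlinarith
      have h6 : (u + 2) * (2 * P) < (u + 2) * (3 * (u + 2) ^ b) := by
        calc (u + 2) * (2 * P) ≤ 3 * ((u + 1) * P) := h5
          _ < 3 * ((u + 2) ^ b * (u + 2)) := by omega
          _ = _ := by ring
      exact Nat.lt_of_mul_lt_mul_left h6
    have h5 : 2 * P ^ 3 < 2 * (3 * (P * ((u + 2) ^ b * M))) := by
      calc 2 * P ^ 3 = P * (2 * P) * P := by ring
        _ < P * (2 * P) * (P + 1) := by
            apply Nat.mul_lt_mul_of_pos_left (by omega)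
            positivity
        _ ≤ P * (3 * (u + 2) ^ b) * (P + 1) :=
            Nat.mul_le_mul_right _ (Nat.mul_le_mul_left _ h4.le)
        _ ≤ P * (3 * (u + 2) ^ b) * (2 * M) := Nat.mul_le_mul_left _ hle
        _ = _ := by ring
    exact Nat.lt_of_mul_lt_mul_left h5

private theorem ak_sigma {N : ℕ} (hperf : Nat.Perfect N) : sigma 1 N = 2 * N := by
  rw [ArithmeticFunction.sigma_one_apply]
  exact (Nat.perfect_iff_sum_divisors_eq_two_mul hperf.2).1 hperf

/-- Acquaah and Konyagin: `P ^ 3 < 3 N` for each prime factor `P` of an odd perfect number. -/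
theorem ak {N P : ℕ} (hN : Odd N) (hperf : Nat.Perfect N) (hP : P.Prime) (hPN : P ∣ N) :
    P ^ 3 < 3 * N := by
  have hN0 : N ≠ 0 := hperf.2.ne'
  have hPodd : Odd P := hN.of_dvd_nat hPN
  have hs := ak_sigma hperf
  rcases Nat.lt_or_ge (N.factorization P) 2 with h1 | h1
  · have hfP : N.factorization P = 1 := by
      have := hP.factorization_pos_of_dvd hN0 hPN
      omega
    obtain ⟨q, hq, hqN, d, hd⟩ := exists_payer hN hperf hP hfP
    set b := N.factorization q with hb
    have hb1 : 1 ≤ b := hq.factorization_pos_of_dvd hN0 hqN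
    have hqP : q ≠ P := by
      rintro rfl
      have h2 : Nat.Coprime q (sigma 1 (q ^ b)) := by
        have := Sb.coprime_sg_pow hq b
        simpa [Sb.sg] using this
      have h3 : q ∣ sigma 1 (q ^ b) := ⟨d, hd⟩
      exact ((Nat.Prime.coprime_iff_not_dvd hq).1 h2) h3
    set N' := N / q ^ b with hN'
    have hNN' : q ^ b * N' = N := Nat.ordProj_mul_ordCompl_eq_self N q
    have hqN' : ¬ q ∣ N' := Nat.not_dvd_ordCompl hq hN0
    have hPN' : P ∣ N' := by
      have : P ∣ q ^ b * N' := by rw [hNN']; exact hPN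
      rcases (Nat.Prime.dvd_mul hP).1 this with h | h
      · exact absurd ((Nat.prime_dvd_prime_iff_eq hP hq).1 (hP.dvd_of_dvd_pow h)).symm hqP
      · exact h
    obtain ⟨M, hM⟩ := hPN'
    have hM' : N = P * (q ^ b * M) := by rw [← hNN', hM]; ring
    have hMo : Odd M := hN.of_dvd_nat ⟨P * q ^ b, by rw [hM']; ring⟩
    have hqM : ¬ q ∣ M := fun h => hqN' (by rw [hM]; exact Dvd.dvd.mul_left h P)
    have hPM : ¬ P ∣ M := by
      rintro ⟨k, hk⟩
      have h2 : P ^ 2 ∣ N := ⟨q ^ b * k, by rw [hM', hk]; ring⟩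
      have h3 := (hP.pow_dvd_iff_le_factorization hN0).1 h2
      omega
    have hcop1 : Nat.Coprime (q ^ b) (P * M) := by
      apply Nat.Coprime.pow_left
      rw [Nat.Prime.coprime_iff_not_dvd hq]
      intro h
      rcases (Nat.Prime.dvd_mul hq).1 h with h | h
      · exact hqP ((Nat.prime_dvd_prime_iff_eq hq hP).1 h)
      · exact hqM h
    have hcop2 : Nat.Coprime P M := (Nat.Prime.coprime_iff_not_dvd hP).2 hPM
    have hmul := ArithmeticFunction.isMultiplicative_sigma (k := 1)
    have hsN : sigma 1 (q ^ b) * ((P + 1) * sigma 1 M) = 2 * N := by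
      rw [← hs, hM', show P * (q ^ b * M) = q ^ b * (P * M) by ring,
        hmul.map_mul_of_coprime hcop1, hmul.map_mul_of_coprime hcop2]
      congr 2
      have h3 := ArithmeticFunction.sigma_one_apply_prime_pow (i := 1) hP
      rw [pow_one] at h3
      rw [h3]
      simp [sum_range_succ, add_comm]
    rw [hM'] at hsN ⊢
    apply ak_core (d := d) (σ := sigma 1 M) hq (hN.of_dvd_nat hqN) hPodd hMo hqM
    · rw [mul_comm, ← hd, ArithmeticFunction.sigma_one_apply_prime_pow hq]
    · have h4 : P * ((P + 1) * d * sigma 1 M) = P * (2 * (q ^ b * M)) := by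
        calc P * ((P + 1) * d * sigma 1 M) = (P * d) * ((P + 1) * sigma 1 M) := by ring
          _ = sigma 1 (q ^ b) * ((P + 1) * sigma 1 M) := by rw [hd]
          _ = _ := by rw [hsN]; ring
      exact Nat.eq_of_mul_eq_mul_left hP.pos h4
  · have h2 := pow_four_le hN hperf hP h1
    have h3 := hP.two_le
    have h4 : 2 * P ^ 3 ≤ P ^ 4 := by
      rw [pow_succ P 3, mul_comm]
      exact Nat.mul_le_mul_left _ h3
    have := hperf.2
    omega

end Pool.Agent.Lib.MP_f02ea4_nt.LP
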