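import Mathlib
import Pool.Agent.Lib.MP_f02ea4_nt.Mg.G002

/-!
Two consecutive Pade approximants are not proportional.
-/

set_option autoImplicit false

namespace Pool.Agent.Lib.MP_f02ea4_nt.Fin

open Finset Polynomial

section hom

variable {R S : Type*} [CommRing R] [CommRing S] (f : R →+* S)

lemma map_Ps (r m : ℕ) (a d : R) : f (Ps r m a d) = Ps r m (f a) (f d) := by
  unfold Ps
  rw [map_sum]
  apply Finset.sum_congr rfl
  intro j _
  simp

lemma map_Qs (r m : ℕ) (a d : R) : f (Qs r m a d) = Qs r m (f a) (f d) := by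
  unfold Qs
  rw [map_sum]
  apply Finset.sum_congr rfl
  intro j _
  simp

end hom

/-- The remainder divided by `X ^ (2r+1)`. -/
noncomputable def sr (r m : ℕ) : ℤ[X] :=
  ∑ j ∈ Ico (2 * r + 1) (m + r + 1), ((m + r).choose j : ℤ[X]) * (g r j : ℤ[X]) * (-1) ^ j *
    X ^ (j - (2 * r + 1))

lemma rem_eq (r m : ℕ) : Rem r m (1 : ℤ[X]) X = X ^ (2 * r + 1) * sr r m := by
  unfold Rem sr
  rw [Finset.mul_sum]
  apply Finset.sum_congr rfl
  intro j hj
  rw [Finset.mem_Ico] at hj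
  have : (X : ℤ[X]) ^ j = X ^ (2 * r + 1) * X ^ (j - (2 * r + 1)) := by
    rw [← pow_add]
    congr 1
    omega
  rw [neg_pow, this, one_pow]
  ring

lemma sr_eval_zero {r m : ℕ} (h : r + 1 ≤ m) :
    (sr r m).eval 0 = -((m + r).choose (2 * r + 1) : ℤ) * (-1) ^ r := by
  unfold sr
  rw [Polynomial.eval_finset_sum, Finset.sum_eq_single (2 * r + 1)]
  · simp [g_top, pow_succ, pow_mul]
  · intro j hj hne
    rw [Finset.mem_Ico] at hj
    have : j - (2 * r + 1) ≠ 0 := by omega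
    simp [this]
  · intro h'
    rw [Finset.mem_Ico] at h'
    omega

lemma Ps_eval_zero (r m : ℕ) : (Ps r m (1 : ℤ[X]) X).eval 0 = ((2 * r).choose r : ℤ) := by
  unfold Ps
  rw [Polynomial.eval_finset_sum, Finset.sum_eq_single 0]
  · simp [g_zero]
  · intro j _ hne
    simp [hne]
  · simp

lemma natDegree_Ps (r m : ℕ) : (Ps r m (1 : ℤ[X]) X).natDegree ≤ r := by
  unfold Ps
  apply Polynomial.natDegree_sum_le_of_forall_le
  intro j hj
  rw [Finset.mem_range] at hj
  have h1 : ((m + r).choose j : ℤ[X]) * (g r j : ℤ[X]) * (-X) ^ j * 1 ^ (r - j)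
      = C (((m + r).choose j : ℤ) * g r j * (-1) ^ j) * X ^ j := by
    rw [neg_pow]
    simp
    ring
  rw [h1]
  exact (Polynomial.natDegree_C_mul_X_pow_le _ _).trans (by omega)

lemma natDegree_Qs (r m : ℕ) : (Qs r m (1 - X : ℤ[X]) X).natDegree ≤ r := by
  unfold Qs
  apply Polynomial.natDegree_sum_le_of_forall_le
  intro k hk
  rw [Finset.mem_range] at hk
  have h1 : ((2 * r - k).choose r : ℤ[X]) * ((m + r).choose k : ℤ[X]) * X ^ k * (1 - X) ^ (r - k)
      = C (((2 * r - k).choose r : ℤ) * ((m + r).choose k : ℤ)) * (X ^ k * (1 - X) ^ (r - k)) := by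
    simp
    ring
  rw [h1]
  refine (Polynomial.natDegree_C_mul_le _ _).trans ?_
  refine (Polynomial.natDegree_mul_le).trans ?_
  have h2 : (1 - X : ℤ[X]).natDegree ≤ 1 := by
    refine (Polynomial.natDegree_sub_le _ _).trans ?_
    simp
  have h3 : ((1 - X : ℤ[X]) ^ (r - k)).natDegree ≤ (r - k) * 1 :=
    (Polynomial.natDegree_pow_le).trans (Nat.mul_le_mul_left _ h2)
  have h4 : (X ^ k : ℤ[X]).natDegree ≤ k := by simp
  omega

/-- The determinant polynomial is a nonzero multiple of a power of `X`. -/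
lemma det_poly {r m : ℕ} (h : r + 1 ≤ m) : ∃ c : ℤ, c ≠ 0 ∧
    Ps r m (1 : ℤ[X]) X * Qs (r + 1) m (1 - X) X - Ps (r + 1) m (1 : ℤ[X]) X * Qs r m (1 - X) X
      = C c * X ^ (2 * r + 1) := by
  set F := Ps r m (1 : ℤ[X]) X * Qs (r + 1) m (1 - X) X -
    Ps (r + 1) m (1 : ℤ[X]) X * Qs r m (1 - X) X with hF
  have p0 := pade r m (by omega) (1 : ℤ[X]) X
  have p1 := pade (r + 1) m h (1 : ℤ[X]) X
  rw [rem_eq, one_pow, one_mul] at p0 p1
  have e1 : (1 - X) ^ m * F = X ^ (2 * r + 1) *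
      (X ^ 2 * Ps r m 1 X * sr (r + 1) m - Ps (r + 1) m 1 X * sr r m) := by
    have : (1 - X) ^ m * F = Ps r m (1 : ℤ[X]) X * ((1 - X) ^ m * Qs (r + 1) m (1 - X) X) -
        Ps (r + 1) m (1 : ℤ[X]) X * ((1 - X) ^ m * Qs r m (1 - X) X) := by
      rw [hF]; ring
    rw [this, p0, p1]
    rw [show 2 * (r + 1) + 1 = (2 * r + 1) + 2 by ring, pow_add]
    ring
  have hX : ¬ (X : ℤ[X]) ∣ (1 - X) ^ m := by
    rw [Polynomial.X_dvd_iff, Polynomial.coeff_zero_eq_eval_zero]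
    simp
  have hd : (X : ℤ[X]) ^ (2 * r + 1) ∣ F :=
    Polynomial.prime_X.pow_dvd_of_dvd_mul_left _ hX ⟨_, e1⟩
  obtain ⟨G, hG⟩ := hd
  have hXne : (X : ℤ[X]) ^ (2 * r + 1) ≠ 0 := pow_ne_zero _ Polynomial.X_ne_zero
  have e2 : (1 - X) ^ m * G = X ^ 2 * Ps r m 1 X * sr (r + 1) m - Ps (r + 1) m 1 X * sr r m := by
    apply mul_left_cancel₀ hXne
    rw [← e1, hG]
    ring
  have e3 : G.eval 0 = ((2 * (r + 1)).choose (r + 1) : ℤ) *
      (((m + r).choose (2 * r + 1) : ℤ) * (-1) ^ r) := by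
    have := congrArg (Polynomial.eval 0) e2
    simp only [Polynomial.eval_mul, Polynomial.eval_pow, Polynomial.eval_sub, Polynomial.eval_one,
      Polynomial.eval_X, Ps_eval_zero, sr_eval_zero h] at this
    simp only [sub_zero, one_pow, one_mul] at this
    rw [this]
    ring
  have hG0 : G.eval 0 ≠ 0 := by
    rw [e3]
    have h1 : 0 < (2 * (r + 1)).choose (r + 1) := Nat.choose_pos (by omega)
    have h2 : 0 < (m + r).choose (2 * r + 1) := Nat.choose_pos (by omega)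
    have h3 : ((-1 : ℤ)) ^ r ≠ 0 := by positivity
    have h1' : ((2 * (r + 1)).choose (r + 1) : ℤ) ≠ 0 := by exact_mod_cast h1.ne'
    have h2' : ((m + r).choose (2 * r + 1) : ℤ) ≠ 0 := by exact_mod_cast h2.ne'
    exact mul_ne_zero h1' (mul_ne_zero h2' h3)
  have hGne : G ≠ 0 := by
    rintro rfl
    simp at hG0
  have hFdeg : F.natDegree ≤ 2 * r + 1 := by
    rw [hF]
    refine (Polynomial.natDegree_sub_le _ _).trans ?_
    have a1 := natDegree_Ps r m
    have a2 := natDegree_Ps (r + 1) m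
    have a3 := natDegree_Qs r m
    have a4 := natDegree_Qs (r + 1) m
    apply max_le
    · exact (Polynomial.natDegree_mul_le).trans (by omega)
    · exact (Polynomial.natDegree_mul_le).trans (by omega)
  have hGdeg : G.natDegree = 0 := by
    have h1 := Polynomial.natDegree_mul hXne hGne
    rw [← hG, Polynomial.natDegree_X_pow] at h1
    omega
  refine ⟨G.eval 0, hG0, ?_⟩
  rw [hG]
  have := Polynomial.eq_C_of_natDegree_eq_zero hGdeg
  rw [Polynomial.coeff_zero_eq_eval_zero] at this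
  rw [← this]
  ring

/-- Nonvanishing of the determinant at a nonzero point of a field of characteristic zero. -/
lemma det_ne {F : Type*} [Field F] [CharZero F] {r m : ℕ} (h : r + 1 ≤ m) {x : F} (hx : x ≠ 0) :
    Ps r m 1 x * Qs (r + 1) m (1 - x) x ≠ Ps (r + 1) m 1 x * Qs r m (1 - x) x := by
  obtain ⟨c, hc, he⟩ := det_poly h
  set f : ℤ[X] →+* F := (Polynomial.aeval x).toRingHom with hf
  have hfX : f X = x := by simp [hf]
  have e1 := congrArg f he
  rw [map_sub, map_mul, map_mul, map_Ps, map_Ps, map_Qs, map_Qs, map_mul, map_pow, map_sub,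
    map_one, hfX] at e1
  intro h2
  rw [h2, sub_self] at e1
  have h3 : f (C c) = (c : F) := by simp [hf]
  rw [h3] at e1
  have h4 : (c : F) ≠ 0 := by exact_mod_cast hc
  exact (mul_ne_zero h4 (pow_ne_zero _ hx)) e1.symm

lemma Ps_homog {F : Type*} [Field F] (r m : ℕ) {a d : F} (ha : a ≠ 0) :
    Ps r m a d = a ^ r * Ps r m 1 (d / a) := by
  unfold Ps
  rw [Finset.mul_sum]
  apply Finset.sum_congr rfl
  intro j hj
  rw [Finset.mem_range] at hj
  have : a ^ r = a ^ (r - j) * a ^ j := by rw [← pow_add]; congr 1; omega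
  rw [this, ← neg_div, div_pow, one_pow]
  field_simp

lemma Qs_homog {F : Type*} [Field F] (r m : ℕ) {a d : F} (ha : a ≠ 0) :
    Qs r m (a - d) d = a ^ r * Qs r m (1 - d / a) (d / a) := by
  unfold Qs
  rw [Finset.mul_sum]
  apply Finset.sum_congr rfl
  intro j hj
  rw [Finset.mem_range] at hj
  have h1 : a ^ r = a ^ (r - j) * a ^ j := by rw [← pow_add]; congr 1; omega
  have h2 : a - d = a * (1 - d / a) := by field_simp
  rw [h1, h2, mul_pow, div_pow]
  field_simp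

/-- Homogeneous form of the nonvanishing. -/
lemma det_ne_homog {F : Type*} [Field F] [CharZero F] {r m : ℕ} (h : r + 1 ≤ m) {a d : F}
    (ha : a ≠ 0) (hd : d ≠ 0) :
    Ps r m a d * Qs (r + 1) m (a - d) d ≠ Ps (r + 1) m a d * Qs r m (a - d) d := by
  rw [Ps_homog r m ha, Ps_homog (r + 1) m ha, Qs_homog r m ha, Qs_homog (r + 1) m ha]
  have h1 := det_ne (F := F) h (div_ne_zero hd ha)
  intro h2
  apply h1
  have h3 : a ^ (2 * r + 1) ≠ 0 := pow_ne_zero _ ha
  apply mul_left_cancel₀ h3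
  calc a ^ (2 * r + 1) * (Ps r m 1 (d / a) * Qs (r + 1) m (1 - d / a) (d / a))
      = a ^ r * Ps r m 1 (d / a) * (a ^ (r + 1) * Qs (r + 1) m (1 - d / a) (d / a)) := by ring
    _ = a ^ (r + 1) * Ps (r + 1) m 1 (d / a) * (a ^ r * Qs r m (1 - d / a) (d / a)) := h2
    _ = _ := by ring

/-- The linear form `β₂ α^m P - α₂ β^m Q`. -/
def Ef {R : Type*} [CommRing R] (r m : ℕ) (a d a2 b2 : R) : R :=
  b2 * (a ^ m * Ps r m a d) - a2 * ((a - d) ^ m * Qs r m (a - d) d)

lemma map_Ef {R S : Type*} [CommRing R] [CommRing S] (f : R →+* S) (r m : ℕ) (a d a2 b2 : R) :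
    f (Ef r m a d a2 b2) = Ef r m (f a) (f d) (f a2) (f b2) := by
  unfold Ef
  rw [map_sub, map_mul, map_mul, map_mul, map_mul, map_pow, map_pow, map_Ps, map_Qs, map_sub]

/-- One of two consecutive linear forms does not vanish. -/
lemma Ef_ne {F : Type*} [Field F] [CharZero F] {r m : ℕ} (h : r + 1 ≤ m) {a d a2 b2 : F}
    (ha : a ≠ 0) (hb : a - d ≠ 0) (hd : d ≠ 0) (ha2 : a2 ≠ 0) (hb2 : b2 ≠ 0) :
    Ef r m a d a2 b2 ≠ 0 ∨ Ef (r + 1) m a d a2 b2 ≠ 0 := by
  by_contra hcon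
  push Not at hcon
  obtain ⟨h1, h2⟩ := hcon
  unfold Ef at h1 h2
  rw [sub_eq_zero] at h1 h2
  apply det_ne_homog h ha hd
  have h3 : (b2 * a ^ m * (a2 * (a - d) ^ m)) ≠ 0 :=
    mul_ne_zero (mul_ne_zero hb2 (pow_ne_zero _ ha)) (mul_ne_zero ha2 (pow_ne_zero _ hb))
  apply mul_left_cancel₀ h3
  calc b2 * a ^ m * (a2 * (a - d) ^ m) * (Ps r m a d * Qs (r + 1) m (a - d) d)
      = (b2 * (a ^ m * Ps r m a d)) * (a2 * ((a - d) ^ m * Qs (r + 1) m (a - d) d)) := by ring
    _ = (a2 * ((a - d) ^ m * Qs r m (a - d) d)) * (b2 * (a ^ m * Ps (r + 1) m a d)) := by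
        rw [h1, h2]
    _ = _ := by ring

end Pool.Agent.Lib.MP_f02ea4_nt.Fin
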