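import Mathlib
import Pool.Agent.Lib.MP_f02ea4_nt.FinDet

/-! Index of odd perfect numbers: pigeonhole, congruence and Pade part of the local bound. -/

set_option autoImplicit false

namespace Pool.Agent.Lib.MP_f02ea4_nt.Idx

open Finset

/-- pigeonhole -/
lemma pigeon (d κ U V : ℕ) (hd : 0 < d) (h : d < (U + 1) * (V + 1)) :
    ∃ α α' t : ℕ, α ≤ U ∧ α' ≤ U ∧ t ≤ V ∧ (t ≠ 0 ∨ α ≠ α') ∧ α ≡ α' + κ * t [MOD d] := by
  have : NeZero d := ⟨hd.ne'⟩
  have hcard : (Finset.univ : Finset (ZMod d)).card < (range (U + 1) ×ˢ range (V + 1)).card := by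
    rw [card_univ, ZMod.card, card_product, card_range, card_range]; exact h
  obtain ⟨x, hx, y, hy, hxy, he⟩ := Finset.exists_ne_map_eq_of_card_lt_of_maps_to hcard
    (f := fun z : ℕ × ℕ => ((z.1 : ZMod d) - κ * z.2)) (fun _ _ => mem_coe.mpr (mem_univ _))
  wlog hle : y.2 ≤ x.2 generalizing x y
  · exact this y hy x hx hxy.symm he.symm (by omega)
  rw [mem_product, mem_range, mem_range] at hx hy
  refine ⟨x.1, y.1, x.2 - y.2, by omega, by omega, by omega, ?_, ?_⟩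
  · by_contra hcon
    push Not at hcon
    apply hxy
    ext
    · exact hcon.2
    · omega
  · rw [← ZMod.natCast_eq_natCast_iff]
    push_cast [Nat.cast_sub hle]
    linear_combination he

lemma modq {p q c κ a f d α α' t : ℕ} (hp : 1 ≤ p) (hq : 1 ≤ q)
    (hsig : (q - 1) * (c * p ^ κ) + 1 = q ^ (a + 1)) (hf : f ≤ a + 1)
    (hpd : q ^ f ∣ p ^ d - 1) (hm : α ≡ α' + κ * t [MOD d]) :
    ((q : ℤ) ^ f) ∣ (p : ℤ) ^ α * ((c : ℤ) * (1 - q)) ^ t - (p : ℤ) ^ α' := by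
  have h1 : ((q ^ f : ℕ) : ℤ) ∣ (p : ℤ) ^ α * ((c : ℤ) * (1 - q)) ^ t - (p : ℤ) ^ α' := by
    rw [← ZMod.intCast_zmod_eq_zero_iff_dvd]
    have hP : ((p : ZMod (q ^ f))) ^ d = 1 := by
      have h2 : ((p ^ d - 1 : ℕ) : ZMod (q ^ f)) = 0 := by
        rw [ZMod.natCast_eq_zero_iff]; exact hpd
      rw [Nat.cast_sub (Nat.one_le_pow _ _ hp)] at h2
      push_cast at h2
      linear_combination h2
    have hz : ((c : ZMod (q ^ f)) * (1 - q)) * (p : ZMod (q ^ f)) ^ κ = 1 := by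
      have h2 : ((q ^ (a + 1) : ℕ) : ZMod (q ^ f)) = 0 := by
        rw [ZMod.natCast_eq_zero_iff]; exact pow_dvd_pow _ hf
      rw [← hsig] at h2
      push_cast [Nat.cast_sub hq] at h2
      linear_combination -h2
    have hpow : (p : ZMod (q ^ f)) ^ α = (p : ZMod (q ^ f)) ^ (α' + κ * t) :=
      pow_eq_pow_of_modEq hm hP
    push_cast
    rw [hpow, pow_add, pow_mul]
    have h3 : ((p : ZMod (q ^ f)) ^ κ) ^ t * ((c : ZMod (q ^ f)) * (1 - q)) ^ t = 1 := by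
      rw [← mul_pow, mul_comm, hz, one_pow]
    linear_combination ((p : ZMod (q ^ f)) ^ α') * h3
  push_cast at h1
  exact h1

/-- divisibility gives size -/
lemma size_of_dvd {q f : ℕ} {z : ℤ} (h : ((q : ℤ) ^ f) ∣ z) (hz : z ≠ 0) :
    (q : ℝ) ^ f ≤ |(z : ℝ)| := by
  have h1 : (q : ℤ) ^ f ≤ |z| := by
    have := Int.le_of_dvd (abs_pos.mpr hz) ((dvd_abs _ _).mpr h)
    exact this
  exact_mod_cast h1

lemma abs_Ps_le (s t q : ℕ) (hq : 1 ≤ q) :
    |Fin.Ps s t (1 : ℤ) (q : ℤ)| ≤ 2 ^ t * (16 * q) ^ s := by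
  unfold Fin.Ps
  calc |∑ j ∈ range (s + 1), ((t + s).choose j : ℤ) * (Fin.g s j : ℤ) * (-(q : ℤ)) ^ j
          * 1 ^ (s - j)|
      ≤ ∑ j ∈ range (s + 1), |((t + s).choose j : ℤ) * (Fin.g s j : ℤ) * (-(q : ℤ)) ^ j
          * 1 ^ (s - j)| := Finset.abs_sum_le_sum_abs _ _
    _ ≤ ∑ j ∈ range (s + 1), ((t + s).choose j : ℤ) * (8 * q) ^ s := by
        apply Finset.sum_le_sum
        intro j hj
        rw [mem_range] at hj
        rw [one_pow, mul_one, abs_mul, abs_mul, abs_pow, abs_neg, Nat.abs_cast, Nat.abs_cast,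
          mul_assoc]
        apply mul_le_mul_of_nonneg_left _ (by positivity)
        calc |Fin.g s j| * (q : ℤ) ^ j ≤ (4 ^ s * 2 ^ j) * (q : ℤ) ^ j :=
              mul_le_mul_of_nonneg_right (Fin.g_abs_le s j) (by positivity)
          _ ≤ (4 ^ s * 2 ^ s) * (q : ℤ) ^ s := by
              have h1 : (2 : ℤ) ^ j ≤ 2 ^ s := pow_le_pow_right₀ (by norm_num) (by omega)
              have h2 : (q : ℤ) ^ j ≤ (q : ℤ) ^ s :=
                pow_le_pow_right₀ (by exact_mod_cast hq) (by omega)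
              apply mul_le_mul _ h2 (by positivity) (by positivity)
              exact mul_le_mul_of_nonneg_left h1 (by positivity)
          _ = (8 * q) ^ s := by rw [← mul_pow, ← mul_pow]; norm_num
    _ = (∑ j ∈ range (s + 1), ((t + s).choose j : ℤ)) * (8 * q) ^ s := by rw [Finset.sum_mul]
    _ ≤ 2 ^ (t + s) * (8 * q) ^ s := by
        apply mul_le_mul_of_nonneg_right _ (by positivity)
        have h1 : ∑ j ∈ range (s + 1), (t + s).choose j ≤ 2 ^ (t + s) := by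
          rw [← Nat.sum_range_choose]
          apply Finset.sum_le_sum_of_subset
          intro x hx
          rw [mem_range] at *
          omega
        exact_mod_cast h1
    _ = 2 ^ t * (16 * q) ^ s := by
        rw [pow_add, mul_assoc, ← mul_pow]; ring_nf

lemma abs_Qs_le (s t q : ℕ) (hq : 1 ≤ q) :
    |Fin.Qs s t (1 - (q : ℤ)) (q : ℤ)| ≤ 2 ^ t * (8 * q) ^ s := by
  unfold Fin.Qs
  calc |∑ k ∈ range (s + 1), ((2 * s - k).choose s : ℤ) * ((t + s).choose k : ℤ) * (q : ℤ) ^ k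
          * (1 - (q : ℤ)) ^ (s - k)|
      ≤ ∑ k ∈ range (s + 1), |((2 * s - k).choose s : ℤ) * ((t + s).choose k : ℤ) * (q : ℤ) ^ k
          * (1 - (q : ℤ)) ^ (s - k)| := Finset.abs_sum_le_sum_abs _ _
    _ ≤ ∑ k ∈ range (s + 1), ((t + s).choose k : ℤ) * (4 * q) ^ s := by
        apply Finset.sum_le_sum
        intro k hk
        rw [mem_range] at hk
        rw [abs_mul, abs_mul, abs_mul, abs_pow, abs_pow, Nat.abs_cast, Nat.abs_cast, Nat.abs_cast]
        have h1 : ((2 * s - k).choose s : ℤ) ≤ 4 ^ s := by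
          have h1 : (2 * s - k).choose s ≤ 2 ^ (2 * s - k) := Nat.choose_le_two_pow _ _
          have h2 : 2 ^ (2 * s - k) ≤ 2 ^ (2 * s) := Nat.pow_le_pow_right (by norm_num) (by omega)
          have h3 : (2 : ℕ) ^ (2 * s) = 4 ^ s := by rw [pow_mul]; norm_num
          have h4 : (2 * s - k).choose s ≤ 4 ^ s := by omega
          exact_mod_cast h4
        have hq' : (1 : ℤ) ≤ q := by exact_mod_cast hq
        have h2 : |1 - (q : ℤ)| ≤ q := by rw [abs_le]; constructor <;> linarith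
        have h3 : |1 - (q : ℤ)| ^ (s - k) ≤ (q : ℤ) ^ (s - k) :=
          pow_le_pow_left₀ (abs_nonneg _) h2 _
        calc ((2 * s - k).choose s : ℤ) * ((t + s).choose k : ℤ) * (q : ℤ) ^ k
              * |1 - (q : ℤ)| ^ (s - k)
            ≤ 4 ^ s * ((t + s).choose k : ℤ) * (q : ℤ) ^ k * (q : ℤ) ^ (s - k) := by
              gcongr
          _ = ((t + s).choose k : ℤ) * (4 ^ s * ((q : ℤ) ^ k * (q : ℤ) ^ (s - k))) := by ring
          _ = ((t + s).choose k : ℤ) * (4 * q) ^ s := by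
              rw [← pow_add, show k + (s - k) = s by omega, ← mul_pow]
    _ = (∑ k ∈ range (s + 1), ((t + s).choose k : ℤ)) * (4 * q) ^ s := by rw [Finset.sum_mul]
    _ ≤ 2 ^ (t + s) * (4 * q) ^ s := by
        apply mul_le_mul_of_nonneg_right _ (by positivity)
        have h1 : ∑ j ∈ range (s + 1), (t + s).choose j ≤ 2 ^ (t + s) := by
          rw [← Nat.sum_range_choose]
          apply Finset.sum_le_sum_of_subset
          intro x hx
          rw [mem_range] at *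
          omega
        exact_mod_cast h1
    _ = 2 ^ t * (8 * q) ^ s := by
        rw [pow_add, mul_assoc, ← mul_pow]; ring_nf

/-- Pade step: `q ^ f ∣ B P - A Q`, nonzero for one of two values of `s`. -/
lemma pade_step {q f t r : ℕ} {A B : ℤ} (hq : 1 ≤ q) (hA : A ≠ 0) (hB : B ≠ 0)
    (hr : f ≤ 2 * r + 1) (ht : r + 1 ≤ t)
    (hdvd : ((q : ℤ) ^ f) ∣ B * (1 - (q : ℤ)) ^ t - A) :
    ∃ s, r ≤ s ∧ s ≤ r + 1 ∧ (q : ℝ) ^ f ≤ |(B : ℝ)| * (2 ^ t * (16 * q) ^ s)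
      + |(A : ℝ)| * (2 ^ t * (8 * q) ^ s) := by
  have key : ∀ s, r ≤ s → s ≤ r + 1 →
      ((q : ℤ) ^ f) ∣ B * Fin.Ps s t (1 : ℤ) (q : ℤ) - A * Fin.Qs s t (1 - (q : ℤ)) (q : ℤ) := by
    intro s hs1 hs2
    have hp := Fin.pade s t (by omega) (1 : ℤ) (q : ℤ)
    rw [one_pow, one_mul] at hp
    have hrem : ((q : ℤ) ^ f) ∣ Fin.Rem s t (1 : ℤ) (q : ℤ) := by
      unfold Fin.Rem
      apply Finset.dvd_sum
      intro j hj
      rw [mem_Ico] at hj
      rw [neg_pow]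
      have h1 : ((q : ℤ) ^ f) ∣ (q : ℤ) ^ j := pow_dvd_pow _ (by omega)
      exact Dvd.dvd.mul_right (Dvd.dvd.mul_left (Dvd.dvd.mul_left h1 _) _) _
    have h2 : B * Fin.Ps s t (1 : ℤ) (q : ℤ) - A * Fin.Qs s t (1 - (q : ℤ)) (q : ℤ)
        = (B * (1 - (q : ℤ)) ^ t - A) * Fin.Qs s t (1 - (q : ℤ)) (q : ℤ)
          - B * Fin.Rem s t (1 : ℤ) (q : ℤ) := by
      linear_combination (-B) * hp
    rw [h2]
    exact dvd_sub (Dvd.dvd.mul_right hdvd _) (Dvd.dvd.mul_left hrem _)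
  have hne : ∃ s, r ≤ s ∧ s ≤ r + 1 ∧
      B * Fin.Ps s t (1 : ℤ) (q : ℤ) - A * Fin.Qs s t (1 - (q : ℤ)) (q : ℤ) ≠ 0 := by
    by_contra hcon
    push Not at hcon
    have h0 := hcon r le_rfl (by omega)
    have h1 := hcon (r + 1) (by omega) le_rfl
    have hqQ : (q : ℚ) ≠ 0 := by positivity
    have hdet := Fin.det_ne_homog (F := ℚ) (r := r) (m := t) ht (a := 1) (d := (q : ℚ))
      one_ne_zero hqQ
    apply hdet
    have hP : ∀ s, Fin.Ps s t (1 : ℚ) (q : ℚ) = ((Fin.Ps s t (1 : ℤ) (q : ℤ) : ℤ) : ℚ) := by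
      intro s
      have := Fin.map_Ps (Int.castRingHom ℚ) s t (1 : ℤ) (q : ℤ)
      simp at this
      exact this.symm
    have hQ : ∀ s, Fin.Qs s t (1 - (q : ℚ)) (q : ℚ)
        = ((Fin.Qs s t (1 - (q : ℤ)) (q : ℤ) : ℤ) : ℚ) := by
      intro s
      have := Fin.map_Qs (Int.castRingHom ℚ) s t (1 - (q : ℤ)) (q : ℤ)
      simp at this
      exact this.symm
    rw [hP, hP, hQ, hQ]
    have h3 : Fin.Ps r t (1 : ℤ) (q : ℤ) * Fin.Qs (r + 1) t (1 - (q : ℤ)) (q : ℤ)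
        = Fin.Ps (r + 1) t (1 : ℤ) (q : ℤ) * Fin.Qs r t (1 - (q : ℤ)) (q : ℤ) := by
      apply mul_left_cancel₀ (mul_ne_zero hA hB)
      linear_combination (A * Fin.Qs (r + 1) t (1 - (q : ℤ)) (q : ℤ)) * h0
        - (A * Fin.Qs r t (1 - (q : ℤ)) (q : ℤ)) * h1
    exact_mod_cast h3
  obtain ⟨s, hs1, hs2, hs3⟩ := hne
  refine ⟨s, hs1, hs2, (size_of_dvd (key s hs1 hs2) hs3).trans ?_⟩
  push_cast
  have hP : |((Fin.Ps s t (1 : ℤ) (q : ℤ) : ℤ) : ℝ)| ≤ 2 ^ t * (16 * q) ^ s := by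
    exact_mod_cast abs_Ps_le s t q hq
  have hQ : |((Fin.Qs s t (1 - (q : ℤ)) (q : ℤ) : ℤ) : ℝ)| ≤ 2 ^ t * (8 * q) ^ s := by
    exact_mod_cast abs_Qs_le s t q hq
  refine (abs_sub _ _).trans ?_
  rw [abs_mul, abs_mul]
  exact add_le_add (mul_le_mul_of_nonneg_left hP (abs_nonneg _))
    (mul_le_mul_of_nonneg_left hQ (abs_nonneg _))

end Pool.Agent.Lib.MP_f02ea4_nt.Idx
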