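import Pool.Agent.Lib.MP_f02ea4_nt.LPDefs
import Pool.Agent.Lib.MP_f02ea4_nt.Mg.G013
import Pool.Agent.Lib.MP_f02ea4_nt.Mg.G014

/-! Largest prime factor of an odd perfect number: T9. -/

set_option autoImplicit false

namespace Pool.Agent.Lib.MP_f02ea4_nt.LP

open Finset Real


/-- logarithmic form of T5 -/
private theorem T9_det_log {g a m n : ℕ} {q W : ℤ} (hg : 1 ≤ g) (hga : g + 1 ≤ a) (hm : 1 ≤ m)
    (hn : 1 ≤ n)
    (hW : 2 ≤ W.natAbs) (h1 : (n : ℤ) ∣ W * q ^ g - 1) (h2 : (n : ℤ) ∣ q ^ a + m * q - (m + 1)) :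
    log (n : ℝ) ≤ (a : ℝ) ^ 2 + a * (3 / 2 + log (m : ℝ)) + 2 * a * log (W.natAbs : ℝ) := by
  have h := det_bound hg (by omega : g ≤ a) hm hW h1 h2
  have hmr : (1 : ℝ) ≤ m := by exact_mod_cast hm
  have hnr : (1 : ℝ) ≤ n := by exact_mod_cast hn
  have hgr : (1 : ℝ) ≤ g := by exact_mod_cast hg
  have hgar : (g : ℝ) ≤ a := by exact_mod_cast (by omega : g ≤ a)
  have ha0 : (0 : ℝ) < a := by linarith
  have hWr : (2 : ℝ) ≤ W.natAbs := by exact_mod_cast hW
  have hlm : 0 ≤ log (m : ℝ) := Real.log_nonneg hmr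
  have hlW : 0 ≤ log (W.natAbs : ℝ) := Real.log_nonneg (by linarith)
  set k := (a + g - 1) / g with hk
  have hgk : g * k ≤ 2 * a := by
    have : g * k ≤ a + g - 1 := Nat.mul_div_le _ _
    omega
  have hfact : log ((g.factorial : ℕ) : ℝ) ≤ (a : ℝ) ^ 2 := by
    have h3 : ((g.factorial : ℕ) : ℝ) ≤ (g : ℝ) ^ g := by exact_mod_cast Nat.factorial_le_pow g
    have h4 := Real.log_le_log (by exact_mod_cast Nat.factorial_pos g) h3
    rw [Real.log_pow] at h4
    have h5 : log (g : ℝ) ≤ g := by
      have := Real.log_le_sub_one_of_pos (show (0 : ℝ) < g by linarith)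
      linarith
    calc log ((g.factorial : ℕ) : ℝ) ≤ g * log (g : ℝ) := h4
      _ ≤ g * g := mul_le_mul_of_nonneg_left h5 (by linarith)
      _ ≤ a * a := mul_le_mul hgar hgar (by linarith) (by linarith)
      _ = a ^ 2 := (sq _).symm
  have h6 : (n : ℝ) ≤ (g.factorial : ℝ) * ((2 * m + 2) * (W.natAbs : ℝ) ^ k) ^ g := by
    exact_mod_cast h
  have h7 := Real.log_le_log (by linarith) h6
  rw [Real.log_mul (by positivity) (by positivity), Real.log_pow,
    Real.log_mul (by positivity) (by positivity), Real.log_pow] at h7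
  have h8 : log (2 * (m : ℝ) + 2) ≤ 3 / 2 + log (m : ℝ) := by
    have h9 : log (2 * (m : ℝ) + 2) ≤ log (4 * (m : ℝ)) :=
      Real.log_le_log (by positivity) (by linarith)
    rw [Real.log_mul (by norm_num) (by positivity)] at h9
    have h10 : log (4 : ℝ) ≤ 3 / 2 := by
      have h11 : log (4 : ℝ) = 2 * log 2 := by
        rw [show (4 : ℝ) = 2 ^ 2 by norm_num, Real.log_pow]; norm_num
      have := Real.log_two_lt_d9
      rw [h11]; linarith
    linarith
  have h12 : (g : ℝ) * (log (2 * (m : ℝ) + 2) + k * log (W.natAbs : ℝ))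
      ≤ a * (3 / 2 + log (m : ℝ)) + 2 * a * log (W.natAbs : ℝ) := by
    have h13 : (g : ℝ) * log (2 * (m : ℝ) + 2) ≤ a * (3 / 2 + log (m : ℝ)) := by
      calc (g : ℝ) * log (2 * (m : ℝ) + 2) ≤ g * (3 / 2 + log (m : ℝ)) :=
            mul_le_mul_of_nonneg_left h8 (by linarith)
        _ ≤ a * (3 / 2 + log (m : ℝ)) := mul_le_mul_of_nonneg_right hgar (by linarith)
    have h14 : (g : ℝ) * k ≤ 2 * a := by exact_mod_cast hgk
    have h15 : (g : ℝ) * k * log (W.natAbs : ℝ) ≤ 2 * a * log (W.natAbs : ℝ) :=
      mul_le_mul_of_nonneg_right h14 hlW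
    calc (g : ℝ) * (log (2 * (m : ℝ) + 2) + k * log (W.natAbs : ℝ))
        = g * log (2 * (m : ℝ) + 2) + g * k * log (W.natAbs : ℝ) := by ring
      _ ≤ _ := add_le_add h13 h15
  linarith

/-- T9 -/
theorem bounded_b {q b m C f P : ℕ} {S : Finset ℕ} {e s g h d : ℕ → ℕ}
    (D : Data q b m C f P S e s g h d) :
    log q ≤ 20 * ((b : ℝ) + 1) ^ 3 * (1 + log ((m * C : ℕ) : ℝ)) := by
  obtain ⟨hq, hq2, hb, hm, hC, sigq, hf, hprime, hne2, heven, hpos, hs1, hnd, hsig, hprod, hsum,
    hdvd, he, hd⟩ := D
  have hmr : (1 : ℝ) ≤ m := by exact_mod_cast hm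
  have hCr : (1 : ℝ) ≤ C := by exact_mod_cast hC
  have hbr : (2 : ℝ) ≤ b := by exact_mod_cast hb
  have hq3 : 3 ≤ q := by have := hq.two_le; omega
  have hq3r : (3 : ℝ) ≤ q := by exact_mod_cast hq3
  have hq0 : (0 : ℝ) < q := by linarith
  have hL0 : 0 ≤ log (q : ℝ) := Real.log_nonneg (by linarith)
  have hFe : log ((m * C : ℕ) : ℝ) = log (m : ℝ) + log (C : ℝ) := by
    rw [Nat.cast_mul, Real.log_mul (by positivity) (by positivity)]
  set F := log ((m * C : ℕ) : ℝ) with hFdef
  set L := log (q : ℝ) with hLdef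
  have hlogm : 0 ≤ log (m : ℝ) := Real.log_nonneg hmr
  have hlogC : 0 ≤ log (C : ℝ) := Real.log_nonneg hCr
  have hmF : log (m : ℝ) ≤ F := by rw [hFe]; linarith
  have hCF : log (C : ℝ) ≤ F := by rw [hFe]; linarith
  have hF0 : 0 ≤ F := by linarith
  set A : ℝ := (b : ℝ) + 1 with hA
  have hA3 : 3 ≤ A := by rw [hA]; linarith
  have hA2 : 3 * A ≤ A ^ 2 := by
    rw [sq]; exact mul_le_mul_of_nonneg_right hA3 (by linarith)
  have hA23 : 3 * A ^ 2 ≤ A ^ 3 := by
    have h1 : A ^ 3 = A * A ^ 2 := by ring
    rw [h1]; exact mul_le_mul_of_nonneg_right hA3 (by positivity)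
  have hA27 : 27 ≤ A ^ 3 := by linarith
  have hAF2 : 3 * A * F ≤ A ^ 2 * F := mul_le_mul_of_nonneg_right hA2 hF0
  have hAF3 : 3 * A ^ 2 * F ≤ A ^ 3 * F := mul_le_mul_of_nonneg_right hA23 hF0
  have hAF27 : 27 * F ≤ A ^ 3 * F := mul_le_mul_of_nonneg_right hA27 hF0
  have hgoal : 20 * A ^ 3 * (1 + F) = 20 * A ^ 3 + 20 * (A ^ 3 * F) := by ring
  rw [hgoal]
  by_cases hall : ∀ r ∈ S, g r = 0
  · have h0 : ∑ r ∈ S, g r = 0 := Finset.sum_eq_zero hall
    have hfb : f = b := by omega
    rw [hfb] at hf
    have h1 : (q : ℝ) ^ b ≤ 2 * m := by exact_mod_cast hf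
    have h2 := Real.log_le_log (by positivity) h1
    rw [Real.log_pow, Real.log_mul (by norm_num) (by positivity)] at h2
    have h3 : log (2 : ℝ) ≤ 1 := by have := Real.log_two_lt_d9; linarith
    have h4 : 1 * L ≤ b * L := mul_le_mul_of_nonneg_right (by linarith) hL0
    linarith
  · push Not at hall
    obtain ⟨r, hrS, hgr⟩ := hall
    have hg1 : 1 ≤ g r := Nat.one_le_iff_ne_zero.2 hgr
    have hgb : g r ≤ b := by
      have := Finset.single_le_sum (f := g) (fun _ _ => Nat.zero_le _) hrS
      omega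
    have hr := hprime r hrS
    have hr2 := hne2 r hrS
    have hr3 : 3 ≤ r := by have := hr.two_le; omega
    have hr3r : (3 : ℝ) ≤ r := by exact_mod_cast hr3
    have hr0 : (0 : ℝ) < r := by linarith
    have hs1r : (1 : ℝ) ≤ s r := by exact_mod_cast hs1 r hrS
    have hsr := hsig r hrS
    have hlogr : 0 ≤ log (r : ℝ) := Real.log_nonneg (by linarith)
    have hlogs : 0 ≤ log (s r : ℝ) := Real.log_nonneg hs1r
    have hsC : s r ≤ C := by
      refine le_trans ?_ hprod
      exact Finset.single_le_prod' (f := s) (fun i hi => hs1 i hi) hrS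
    have hlogsF : log (s r : ℝ) ≤ F := by
      have h1 : log (s r : ℝ) ≤ log (C : ℝ) :=
        Real.log_le_log (by linarith) (by exact_mod_cast hsC)
      linarith
    -- size of r ^ e
    have hsz : ((g r : ℕ) : ℝ) * L + log (s r : ℝ) ≤ (e r : ℝ) * log (r : ℝ) + 1 / 2 := by
      have h1 : 2 * (s r * q ^ g r) ≤ 3 * r ^ e r := by
        have h3 : r - 1 + 1 = r := by omega
        have h2 : (r - 1) * (s r * q ^ g r) + 1 = r ^ e r * r := by
          rw [hsr, pow_succ]
        obtain ⟨u, hu⟩ : ∃ u, r = u + 3 := ⟨r - 3, by omega⟩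
        have h3 : r - 1 = u + 2 := by omega
        rw [h3] at h2
        by_contra hcon
        push Not at hcon
        have h4 : (u + 2) * (3 * r ^ e r) < (u + 2) * (2 * (s r * q ^ g r)) :=
          Nat.mul_lt_mul_of_pos_left hcon (by omega)
        have h5 : (u + 2) * (2 * (s r * q ^ g r)) + 2 = 2 * (r ^ e r * r) := by
          rw [← h2]; ring
        have h6 : 2 * (r ^ e r * r) ≤ (u + 2) * (3 * r ^ e r) := by
          have : 2 * r ≤ (u + 2) * 3 := by omega
          calc 2 * (r ^ e r * r) = (2 * r) * r ^ e r := by ring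
            _ ≤ ((u + 2) * 3) * r ^ e r := Nat.mul_le_mul_right _ this
            _ = (u + 2) * (3 * r ^ e r) := by ring
        omega
      have h1r : (s r : ℝ) * (q : ℝ) ^ g r ≤ (3 / 2) * (r : ℝ) ^ e r := by
        have : (2 : ℝ) * (s r * q ^ g r) ≤ 3 * r ^ e r := by exact_mod_cast h1
        linarith
      have h2 : log ((s r : ℝ) * (q : ℝ) ^ g r) ≤ log ((3 / 2) * (r : ℝ) ^ e r) :=
        Real.log_le_log (by positivity) h1r
      rw [Real.log_mul (by positivity) (by positivity),
        Real.log_mul (by positivity) (by positivity), Real.log_pow, Real.log_pow] at h2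
      have h3 : log (3 / 2 : ℝ) ≤ 1 / 2 := by
        have := Real.log_le_sub_one_of_pos (show (0 : ℝ) < 3 / 2 by norm_num)
        linarith
      linarith
    have her : (e r : ℝ) * log (r : ℝ) ≤ h r * log (r : ℝ) + F := by
      have h1 : (d r : ℝ) * log (r : ℝ) ≤ F := by
        have h2 : ((r : ℝ)) ^ d r ≤ ((m * C : ℕ) : ℝ) := by exact_mod_cast hd r hrS
        have h3 := Real.log_le_log (by positivity) h2
        rwa [Real.log_pow] at h3
      rw [he r hrS]
      push_cast
      linarith
    have hg1r : (1 : ℝ) ≤ g r := by exact_mod_cast hg1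
    have hLg : 1 * L ≤ g r * L := mul_le_mul_of_nonneg_right hg1r hL0
    have hLh : L ≤ h r * log (r : ℝ) + F + 1 / 2 := by linarith
    rcases Nat.eq_zero_or_pos (h r) with hh0 | hh0
    · rw [hh0] at hLh
      push_cast at hLh
      linarith
    · have hrh : r ∣ r ^ h r := dvd_pow_self r hh0.ne'
      have hrP : r ∣ P + 1 := hrh.trans (hdvd r hrS)
      have hrZ : (r ^ h r : ℕ) ∣ P + 1 := hdvd r hrS
      -- the two integer relations
      have hq1 : ((q - 1 : ℕ) : ℤ) = (q : ℤ) - 1 := by
        have : 1 ≤ q := by omega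
        push_cast [Nat.cast_sub this]; ring
      have hr1 : ((r - 1 : ℕ) : ℤ) = (r : ℤ) - 1 := by
        have : 1 ≤ r := by omega
        push_cast [Nat.cast_sub this]; ring
      have hsigqZ : ((q : ℤ) - 1) * (m * P) + 1 = (q : ℤ) ^ (b + 1) := by
        rw [← hq1]; exact_mod_cast sigq
      have hsigrZ : ((r : ℤ) - 1) * (s r * (q : ℤ) ^ g r) + 1 = (r : ℤ) ^ (e r + 1) := by
        rw [← hr1]; exact_mod_cast hsr
      have hrel2 : ∀ n : ℕ, n ∣ P + 1 →
          (n : ℤ) ∣ (q : ℤ) ^ (b + 1) + m * q - (m + 1) := by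
        intro n hn
        have hnZ : (n : ℤ) ∣ (P : ℤ) + 1 := by exact_mod_cast hn
        have : (q : ℤ) ^ (b + 1) + m * q - (m + 1) = ((P : ℤ) + 1) * (((q : ℤ) - 1) * m) := by
          rw [← hsigqZ]; ring
        rw [this]
        exact Dvd.dvd.mul_right hnZ _
      -- T5 with W = s (1 - r)
      have hWabs : ((s r : ℤ) * (1 - (r : ℤ))).natAbs = s r * (r - 1) := by
        rw [Int.natAbs_mul, Int.natAbs_natCast]
        congr 1
        omega
      have hb1 := T9_det_log (g := g r) (a := b + 1) (m := m) (n := r ^ h r) (q := (q : ℤ))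
        (W := (s r : ℤ) * (1 - (r : ℤ))) hg1 (by omega) hm (Nat.one_le_pow _ _ hr.pos)
        (by
          rw [hWabs]
          calc 2 ≤ 1 * (r - 1) := by omega
            _ ≤ s r * (r - 1) := Nat.mul_le_mul_right _ (hs1 r hrS))
        (by
          have h1 : (s r : ℤ) * (1 - (r : ℤ)) * (q : ℤ) ^ g r - 1 = -((r : ℤ) ^ (e r + 1)) := by
            rw [← hsigrZ]; ring
          rw [h1]
          apply (dvd_neg).2
          push_cast
          exact pow_dvd_pow _ (by have := he r hrS; omega))
        (hrel2 _ hrZ)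
      rw [hWabs] at hb1
      have hWlog : log (((s r * (r - 1) : ℕ)) : ℝ) ≤ F + log (r : ℝ) := by
        have h1 : (((s r * (r - 1) : ℕ)) : ℝ) ≤ (s r : ℝ) * r := by
          exact_mod_cast Nat.mul_le_mul_left (s r) (Nat.sub_le r 1)
        have h2 : 0 < s r * (r - 1) := Nat.mul_pos (hs1 r hrS) (by omega)
        have h3 := Real.log_le_log (by exact_mod_cast h2) h1
        rw [Real.log_mul (by positivity) (by positivity)] at h3
        linarith
      have hlogrh : log (((r ^ h r : ℕ)) : ℝ) = h r * log (r : ℝ) := by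
        rw [Nat.cast_pow, Real.log_pow]
      rw [hlogrh] at hb1
      have hbcast : ((b + 1 : ℕ) : ℝ) = A := by rw [hA]; push_cast; ring
      rw [hbcast] at hb1
      have hAF0 : 0 ≤ A * F := by positivity
      have hb1' : (h r : ℝ) * log (r : ℝ) ≤ A ^ 2 + A * (3 / 2 + F) + 2 * A * (F + log (r : ℝ)) := by
        have h1 : A * (3 / 2 + log (m : ℝ)) ≤ A * (3 / 2 + F) :=
          mul_le_mul_of_nonneg_left (by linarith) (by linarith)
        have h2 : 2 * A * log (((s r * (r - 1) : ℕ)) : ℝ) ≤ 2 * A * (F + log (r : ℝ)) :=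
          mul_le_mul_of_nonneg_left hWlog (by linarith)
        linarith
      -- bound for log r
      have hlr : log (r : ℝ) ≤ 2 * A ^ 2 + 3 / 2 * A + 3 * A * F := by
        rcases Nat.lt_or_ge (s r) 2 with hs2 | hs2
        · have hseq : s r = 1 := by have := hs1 r hrS; omega
          rw [hseq] at hsigrZ
          have hgeo : ∑ t ∈ range (b + 1), (q : ℤ) ^ t = m * P := by
            have h1 := mul_geom_sum (q : ℤ) (b + 1)
            have h2 : ((q : ℤ) - 1) * (∑ t ∈ range (b + 1), (q : ℤ) ^ t)
                = ((q : ℤ) - 1) * (m * P) := by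
              rw [h1, ← hsigqZ]; ring
            have h3 : ((q : ℤ) - 1) ≠ 0 := by
              have : (3 : ℤ) ≤ q := by exact_mod_cast hq3
              omega
            exact mul_left_cancel₀ h3 h2
          have h6 := circ_bound (g := g r) (a := b + 1) (m := m) (n := r) (q := (q : ℤ)) hg1
            (by omega) hm
            (by
              have h1 : (q : ℤ) ^ g r - 1 = (r : ℤ) * ((q : ℤ) ^ g r - (r : ℤ) ^ e r) := by
                have h2 : ((r : ℤ) - 1) * (1 * (q : ℤ) ^ g r) + 1 = (r : ℤ) ^ e r * r := by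
                  rw [← pow_succ]; exact_mod_cast hsigrZ
                linear_combination -h2
              rw [h1]
              exact Dvd.intro _ rfl)
            (by
              rw [hgeo]
              have h1 : (m : ℤ) * P + m = ((P : ℤ) + 1) * m := by ring
              rw [h1]
              exact Dvd.dvd.mul_right (by exact_mod_cast hrP) _)
          have h7 : (r : ℝ) ≤ ((g r).factorial : ℝ) * (((b + 1 : ℕ) : ℝ) + m) ^ g r := by
            exact_mod_cast h6
          rw [hbcast] at h7
          have h8 := Real.log_le_log hr0 h7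
          rw [Real.log_mul (by positivity) (by positivity), Real.log_pow] at h8
          have hgA : (g r : ℝ) ≤ A := by
            have : (g r : ℝ) ≤ b := by exact_mod_cast hgb
            rw [hA]; linarith
          have hfact : log (((g r).factorial : ℕ) : ℝ) ≤ A ^ 2 := by
            have h3 : (((g r).factorial : ℕ) : ℝ) ≤ (g r : ℝ) ^ g r := by
              exact_mod_cast Nat.factorial_le_pow (g r)
            have h4 := Real.log_le_log (by exact_mod_cast Nat.factorial_pos (g r)) h3
            rw [Real.log_pow] at h4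
            have h5 : log (g r : ℝ) ≤ g r := by
              have := Real.log_le_sub_one_of_pos (show (0 : ℝ) < g r by linarith)
              linarith
            calc log (((g r).factorial : ℕ) : ℝ) ≤ g r * log (g r : ℝ) := h4
              _ ≤ g r * g r := mul_le_mul_of_nonneg_left h5 (by linarith)
              _ ≤ A * A := mul_le_mul hgA hgA (by linarith) (by linarith)
              _ = A ^ 2 := (sq _).symm
          have h9 : log (A + m) ≤ 1 + A + F := by
            have h10 : A + m ≤ 2 * A * m := by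
              have h17 : A * 1 ≤ A * m := mul_le_mul_of_nonneg_left hmr (by linarith)
              have h18 : 1 * (m : ℝ) ≤ A * m := mul_le_mul_of_nonneg_right (by linarith) (by linarith)
              linarith
            have h11 := Real.log_le_log (by positivity) h10
            rw [Real.log_mul (by positivity) (by positivity),
              Real.log_mul (by norm_num) (by positivity)] at h11
            have h12 := Real.log_two_lt_d9
            have h13 := Real.log_le_sub_one_of_pos (show (0 : ℝ) < A by linarith)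
            linarith
          have h14 : (g r : ℝ) * log (A + m) ≤ A * (1 + A + F) := by
            calc (g r : ℝ) * log (A + m) ≤ g r * (1 + A + F) :=
                  mul_le_mul_of_nonneg_left h9 (by linarith)
              _ ≤ A * (1 + A + F) := mul_le_mul_of_nonneg_right hgA (by linarith)
          have h15 : A * (1 + A + F) = A + A ^ 2 + A * F := by ring
          have h16 : 3 * A * F = 3 * (A * F) := by ring
          rw [h16]
          linarith
        · have hb2 := T9_det_log (g := g r) (a := b + 1) (m := m) (n := r) (q := (q : ℤ))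
            (W := (s r : ℤ)) hg1 (by omega) hm (by omega)
            (by rw [Int.natAbs_natCast]; exact hs2)
            (by
              have h1 : (s r : ℤ) * (q : ℤ) ^ g r - 1
                  = (r : ℤ) * (s r * (q : ℤ) ^ g r - (r : ℤ) ^ e r) := by
                have h2 : ((r : ℤ) - 1) * (s r * (q : ℤ) ^ g r) + 1 = (r : ℤ) ^ e r * r := by
                  rw [← pow_succ]; exact hsigrZ
                linear_combination -h2
              rw [h1]
              exact Dvd.intro _ rfl)
            (hrel2 _ hrP)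
          rw [Int.natAbs_natCast, hbcast] at hb2
          have h1 : A * (3 / 2 + log (m : ℝ)) ≤ A * (3 / 2 + F) :=
            mul_le_mul_of_nonneg_left (by linarith) (by linarith)
          have h2 : 2 * A * log (s r : ℝ) ≤ 2 * A * F :=
            mul_le_mul_of_nonneg_left hlogsF (by linarith)
          have h3 : A * (3 / 2 + F) = 3 / 2 * A + A * F := by ring
          have h4 : 2 * A * F = 2 * (A * F) := by ring
          have h5 : 3 * A * F = 3 * (A * F) := by ring
          have h6 : 0 ≤ A ^ 2 := by positivity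
          rw [h5]
          rw [h3] at h1
          rw [h4] at h2
          linarith
      have h2A : 2 * A * (F + log (r : ℝ)) ≤ 2 * A * (F + (2 * A ^ 2 + 3 / 2 * A + 3 * A * F)) :=
        mul_le_mul_of_nonneg_left (by linarith) (by linarith)
      have hexp : 2 * A * (F + (2 * A ^ 2 + 3 / 2 * A + 3 * A * F))
          = 2 * (A * F) + 4 * A ^ 3 + 3 * A ^ 2 + 6 * (A ^ 2 * F) := by ring
      have hx1 : 3 * A * F = 3 * (A * F) := by ring
      have hx2 : 3 * A ^ 2 * F = 3 * (A ^ 2 * F) := by ring
      have hx3 : A * (3 / 2 + F) = 3 / 2 * A + A * F := by ring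
      rw [hx1] at hAF2
      rw [hx2] at hAF3
      rw [hx3] at hb1'
      rw [hexp] at h2A
      have hA3F : 0 ≤ A ^ 3 * F := by positivity
      linarith

end Pool.Agent.Lib.MP_f02ea4_nt.LP
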