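import Mathlib

/-! Largest prime factor of an odd perfect number: determinant bounds. -/

set_option autoImplicit false

namespace Pool.Agent.Lib.MP_f02ea4_nt.Lp

open Finset

/-- the determinant is at most the product of the row sums -/
lemma abs_det_le {n : ℕ} (M : Matrix (Fin n) (Fin n) ℤ) :
    |M.det| ≤ ∏ i, ∑ j, |M i j| := by
  rw [Matrix.det_apply]
  refine (Finset.abs_sum_le_sum_abs _ _).trans ?_
  rw [Finset.prod_univ_sum]
  have h1 : ∀ σ : Equiv.Perm (Fin n), |Equiv.Perm.sign σ • ∏ i, M (σ i) i|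
      = ∏ i, |M i (σ⁻¹ i)| := by
    intro σ
    have h2 : ∏ i, |M (σ i) i| = ∏ i, |M i (σ⁻¹ i)| := by
      rw [← Equiv.prod_comp σ (fun i => |M i (σ⁻¹ i)|)]
      simp
    rw [← h2, ← Finset.abs_prod]
    rcases Int.units_eq_one_or (Equiv.Perm.sign σ) with h | h <;> rw [h] <;> simp
  rw [Finset.sum_congr rfl (fun σ _ => h1 σ)]
  have h3 : ∑ σ : Equiv.Perm (Fin n), ∏ i, |M i (σ⁻¹ i)|
      = ∑ f ∈ (Finset.univ.image (fun σ : Equiv.Perm (Fin n) => (fun i => σ⁻¹ i))),
        ∏ i, |M i (f i)| := by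
    rw [Finset.sum_image]
    intro σ _ τ _ hst
    have : σ⁻¹ = τ⁻¹ := by
      ext i
      exact congrArg _ (congrFun hst i)
    exact inv_injective this
  rw [h3]
  apply Finset.sum_le_sum_of_subset_of_nonneg
  · intro f _
    rw [Fintype.mem_piFinset]
    intro i
    exact Finset.mem_univ _
  · intro f _ _
    exact Finset.prod_nonneg (fun i _ => abs_nonneg _)

/-- a kernel vector modulo `R` with first entry `1` -/
lemma dvd_det {n : ℕ} (hn : 0 < n) (R : ℤ) (M : Matrix (Fin n) (Fin n) ℤ) (v : Fin n → ℤ)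
    (hv : v ⟨0, hn⟩ = 1) (h : ∀ i, R ∣ ∑ j, M i j * v j) : R ∣ M.det := by
  have h1 : M.adjugate.mulVec (M.mulVec v) ⟨0, hn⟩ = M.det := by
    rw [Matrix.mulVec_mulVec, Matrix.adjugate_mul, Matrix.smul_mulVec, Matrix.one_mulVec]
    simp [hv]
  rw [← h1]
  unfold Matrix.mulVec dotProduct
  apply Finset.dvd_sum
  intro i _
  apply Dvd.dvd.mul_left
  exact h i

lemma size_det {n : ℕ} {R : ℕ} {M : Matrix (Fin n) (Fin n) ℤ} (h : (R : ℤ) ∣ M.det)
    (hne : M.det ≠ 0) : (R : ℤ) ≤ ∏ i, ∑ j, |M i j| := by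
  refine le_trans ?_ (abs_det_le M)
  exact Int.le_of_dvd (abs_pos.mpr hne) ((dvd_abs _ _).mpr h)

/-- maximum principle -/
lemma exists_max {n : ℕ} (hn : 0 < n) (w : Fin n → ℝ) : ∃ i, ∀ j, w j ≤ w i := by
  have : Nonempty (Fin n) := ⟨⟨0, hn⟩⟩
  obtain ⟨i, _, hi⟩ := Finset.exists_max_image Finset.univ w Finset.univ_nonempty
  exact ⟨i, fun j => hi j (Finset.mem_univ j)⟩

lemma det_ne_of {n : ℕ} (M : Matrix (Fin n) (Fin n) ℤ)
    (h : ∀ w : Fin n → ℝ, (∀ i, ∑ j, (M i j : ℝ) * w j = 0) → w = 0) : M.det ≠ 0 := by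
  intro h0
  have h1 : (M.map (Int.cast : ℤ → ℝ)).det = 0 := by
    have := Int.cast_det M (R := ℝ)
    rw [h0] at this
    simpa using this.symm
  obtain ⟨w, hw0, hw⟩ := Matrix.exists_mulVec_eq_zero_iff.mpr h1
  apply hw0
  apply h w
  intro i
  have := congrFun hw i
  simpa [Matrix.mulVec, dotProduct] using this

lemma sum_div (a g : ℕ) (hg : 1 ≤ g) : ∑ i ∈ range g, (a + i) / g = a := by
  induction a with
  | zero =>
    apply Finset.sum_eq_zero
    intro i hi
    rw [mem_range] at hi
    rw [zero_add]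
    exact Nat.div_eq_of_lt hi
  | succ a ih =>
    have h1 : ∑ i ∈ range g, (a + 1 + i) / g = ∑ i ∈ range g, (a + (i + 1)) / g := by
      apply Finset.sum_congr rfl
      intro i _
      congr 1
      omega
    have h2 : ∑ i ∈ range (g + 1), (a + i) / g = ∑ i ∈ range g, (a + (i + 1)) / g
        + (a + 0) / g := Finset.sum_range_succ' (fun i => (a + i) / g) g
    have h3 : ∑ i ∈ range (g + 1), (a + i) / g = ∑ i ∈ range g, (a + i) / g + (a + g) / g :=
      Finset.sum_range_succ _ _
    have h4 : (a + g) / g = a / g + 1 := Nat.add_div_right a (by omega)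
    rw [h1]
    rw [ih, h4] at h3
    rw [h3, add_zero] at h2
    omega

/-- Determinant bound: `U q^g = 1` and `q^a + m q = m + 1` modulo `R`, `|U| ≥ 2`. -/
theorem det_bound {R a g m q : ℕ} {U : ℤ} (hU : 2 ≤ |U|) (hg : 1 ≤ g) (hga : g ≤ a)
    (h1 : (R : ℤ) ∣ U * (q : ℤ) ^ g - 1)
    (h2 : (R : ℤ) ∣ (q : ℤ) ^ a + m * q - (m + 1)) :
    (R : ℤ) ≤ |U| ^ a * (2 * m + 2) ^ g := by
  have hgpos : 0 < g := hg
  set k : Fin g → ℕ := fun i => (a + i) / g with hk
  have hk1 : ∀ i, 1 ≤ k i := by
    intro i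
    rw [hk]
    exact (Nat.one_le_div_iff hgpos).mpr (by omega)
  set M : Matrix (Fin g) (Fin g) ℤ := fun i j =>
    (if (j : ℕ) = (a + i) % g then 1 else 0)
      + (if (j : ℕ) = (i + 1) % g then (m : ℤ) * U ^ (k i - (i + 1) / g) else 0)
      - (if j = i then ((m : ℤ) + 1) * U ^ k i else 0) with hM
  have hdiv : ∀ i : Fin g, ((i : ℕ) + 1) / g ≤ 1 := by
    intro i
    have : ((i : ℕ) + 1) / g ≤ g / g := Nat.div_le_div_right (by omega)
    rwa [Nat.div_self hgpos] at this
  -- sum against a vector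
  have hsum : ∀ {S : Type} [CommRing S] (i : Fin g) (w : ℕ → S),
      ∑ j : Fin g, ((M i j : ℤ) : S) * w j = w ((a + i) % g)
        + (m : S) * (U : S) ^ (k i - (i + 1) / g) * w ((i + 1) % g)
        - ((m : S) + 1) * (U : S) ^ k i * w i := by
    intro S _ i w
    have e1 : ∀ (c : ℕ) (hc : c < g) (z : S), ∑ j : Fin g, (if (j : ℕ) = c then z else 0) * w j
        = z * w c := by
      intro c hc z
      rw [Finset.sum_eq_single (⟨c, hc⟩ : Fin g)]
      · simp
      · intro b _ hb
        rw [if_neg, zero_mul]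
        intro h
        apply hb
        ext
        exact h
      · intro h; exact absurd (Finset.mem_univ _) h
    have e2 : ∀ j : Fin g, ((M i j : ℤ) : S) * w j
        = (if (j : ℕ) = (a + i) % g then (1 : S) else 0) * w j
          + (if (j : ℕ) = (i + 1) % g then (m : S) * (U : S) ^ (k i - (i + 1) / g) else 0) * w j
          - (if (j : ℕ) = (i : ℕ) then ((m : S) + 1) * (U : S) ^ k i else 0) * w j := by
      intro j
      rw [hM]
      simp only [Fin.ext_iff]
      push_cast
      ring
    rw [Finset.sum_congr rfl (fun j _ => e2 j), Finset.sum_sub_distrib, Finset.sum_add_distrib,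
      e1 _ (Nat.mod_lt _ hgpos), e1 _ (Nat.mod_lt _ hgpos), e1 _ i.2, one_mul]
  have hdvd : (R : ℤ) ∣ M.det := by
    apply dvd_det hgpos (R : ℤ) M (fun j => (q : ℤ) ^ (j : ℕ)) (by simp)
    intro i
    have h3 := hsum (S := ℤ) i (fun j => (q : ℤ) ^ j)
    simp only [Int.cast_id] at h3
    rw [h3]
    rw [← ZMod.intCast_zmod_eq_zero_iff_dvd]
    have e1 : (U : ZMod R) * (q : ZMod R) ^ g = 1 := by
      have := (ZMod.intCast_zmod_eq_zero_iff_dvd _ R).mpr h1
      push_cast at this
      linear_combination this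
    have e2 : (q : ZMod R) ^ a + m * q = m + 1 := by
      have := (ZMod.intCast_zmod_eq_zero_iff_dvd _ R).mpr h2
      push_cast at this
      linear_combination this
    push_cast
    have e3 : (q : ZMod R) ^ ((a + i) % g) = (U : ZMod R) ^ k i * (q : ZMod R) ^ (a + i) := by
      have h4 : (q : ZMod R) ^ (a + (i : ℕ))
          = ((q : ZMod R) ^ g) ^ k i * (q : ZMod R) ^ ((a + i) % g) := by
        rw [← pow_mul, ← pow_add]
        congr 1
        rw [hk]
        exact (Nat.div_add_mod _ _).symm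
      rw [h4, ← mul_assoc, ← mul_pow, e1, one_pow, one_mul]
    have e4 : (U : ZMod R) ^ (k i - (i + 1) / g) * (q : ZMod R) ^ (((i : ℕ) + 1) % g)
        = (U : ZMod R) ^ k i * (q : ZMod R) ^ ((i : ℕ) + 1) := by
      have h4 : (q : ZMod R) ^ ((i : ℕ) + 1)
          = ((q : ZMod R) ^ g) ^ ((i + 1) / g) * (q : ZMod R) ^ (((i : ℕ) + 1) % g) := by
        rw [← pow_mul, ← pow_add]
        congr 1
        exact (Nat.div_add_mod _ _).symm
      have h5 : (U : ZMod R) ^ k i = (U : ZMod R) ^ (k i - (i + 1) / g)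
          * (U : ZMod R) ^ (((i : ℕ) + 1) / g) := by
        rw [← pow_add]
        congr 1
        have := hk1 i
        have := hdiv i
        omega
      rw [h4, h5]
      have h6 : (U : ZMod R) ^ (((i : ℕ) + 1) / g) * ((q : ZMod R) ^ g) ^ (((i : ℕ) + 1) / g)
          = 1 := by rw [← mul_pow, e1, one_pow]
      linear_combination (-((U : ZMod R) ^ (k i - (i + 1) / g)
        * (q : ZMod R) ^ (((i : ℕ) + 1) % g))) * h6
    rw [e3]
    have e5 : (m : ZMod R) * (U : ZMod R) ^ (k i - (i + 1) / g)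
        * (q : ZMod R) ^ (((i : ℕ) + 1) % g)
        = m * ((U : ZMod R) ^ k i * (q : ZMod R) ^ ((i : ℕ) + 1)) := by
      rw [mul_assoc, e4]
    rw [e5, pow_add, pow_succ]
    linear_combination ((U : ZMod R) ^ k i * (q : ZMod R) ^ (i : ℕ)) * e2
  have hne : M.det ≠ 0 := by
    apply det_ne_of
    intro w hw
    obtain ⟨i, hi⟩ := exists_max hgpos (fun j => |w j|)
    set w' : ℕ → ℝ := fun j => if h : j < g then w ⟨j, h⟩ else 0 with hw'
    have hww : ∀ j : Fin g, w' j = w j := by
      intro j; rw [hw']; simp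
    have h3 := hsum (S := ℝ) i w'
    have h4 : ∑ j : Fin g, ((M i j : ℤ) : ℝ) * w' j = 0 := by
      rw [← hw i]
      apply Finset.sum_congr rfl
      intro j _
      rw [hww]
    rw [h4] at h3
    have hb : ∀ c : ℕ, |w' c| ≤ |w i| := by
      intro c
      rw [hw']
      by_cases hc : c < g
      · simp only [hc, dif_pos]; exact hi _
      · simp only [hc, dif_neg, not_false_eq_true, abs_zero]; exact abs_nonneg _
    have hUr : (2 : ℝ) ≤ |(U : ℝ)| := by exact_mod_cast hU
    have hUk : (2 : ℝ) ≤ |(U : ℝ)| ^ k i := by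
      calc (2 : ℝ) ≤ |(U : ℝ)| ^ 1 := by rw [pow_one]; exact hUr
        _ ≤ |(U : ℝ)| ^ k i := pow_le_pow_right₀ (by linarith) (hk1 i)
    have hUk2 : |(U : ℝ)| ^ (k i - (i + 1) / g) ≤ |(U : ℝ)| ^ k i :=
      pow_le_pow_right₀ (by linarith) (Nat.sub_le _ _)
    have h5 : ((m : ℝ) + 1) * (U : ℝ) ^ k i * w i = w' ((a + i) % g)
        + (m : ℝ) * (U : ℝ) ^ (k i - (i + 1) / g) * w' ((i + 1) % g) := by
      rw [hww] at h3; linarith
    have h6 : ((m : ℝ) + 1) * |(U : ℝ)| ^ k i * |w i| ≤ |w i| + m * |(U : ℝ)| ^ k i * |w i| := by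
      have h7 := congrArg abs h5
      rw [abs_mul, abs_mul, abs_pow, abs_of_nonneg (by positivity : (0 : ℝ) ≤ (m : ℝ) + 1)] at h7
      rw [h7]
      refine (abs_add_le _ _).trans ?_
      rw [abs_mul, abs_mul, abs_pow, Nat.abs_cast]
      apply add_le_add (hb _)
      apply mul_le_mul _ (hb _) (abs_nonneg _) (by positivity)
      exact mul_le_mul_of_nonneg_left hUk2 (by positivity)
    have h7 : |w i| ≤ 0 := by nlinarith [abs_nonneg (w i)]
    funext j
    have h8 := (hi j).trans h7
    simpa using abs_eq_zero.mp (le_antisymm h8 (abs_nonneg _))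
  have hsz := size_det hdvd hne
  refine hsz.trans ?_
  have hUpos : (0 : ℤ) ≤ |U| := abs_nonneg _
  have hrow : ∀ i, ∑ j, |M i j| ≤ (2 * (m : ℤ) + 2) * |U| ^ k i := by
    intro i
    have hone : (1 : ℤ) ≤ |U| ^ k i := one_le_pow₀ (by omega)
    have e1 : ∀ (c : ℕ) (hc : c < g) (z : ℤ), ∑ j : Fin g, |(if (j : ℕ) = c then z else 0)|
        = |z| := by
      intro c hc z
      rw [Finset.sum_eq_single (⟨c, hc⟩ : Fin g)]
      · simp
      · intro b _ hb
        rw [if_neg, abs_zero]
        intro h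
        apply hb
        ext
        exact h
      · intro h; exact absurd (Finset.mem_univ _) h
    have hUk2 : |U| ^ (k i - (i + 1) / g) ≤ |U| ^ k i :=
      pow_le_pow_right₀ (by omega) (Nat.sub_le _ _)
    calc ∑ j, |M i j| ≤ ∑ j : Fin g, (|(if (j : ℕ) = (a + i) % g then (1 : ℤ) else 0)|
          + |(if (j : ℕ) = (i + 1) % g then (m : ℤ) * U ^ (k i - (i + 1) / g) else 0)|
          + |(if (j : ℕ) = (i : ℕ) then ((m : ℤ) + 1) * U ^ k i else 0)|) := by
          apply Finset.sum_le_sum
          intro j _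
          rw [hM]
          simp only [Fin.ext_iff]
          refine (abs_sub _ _).trans ?_
          exact add_le_add (abs_add_le _ _) le_rfl
      _ = 1 + (m : ℤ) * |U| ^ (k i - (i + 1) / g) + ((m : ℤ) + 1) * |U| ^ k i := by
          rw [Finset.sum_add_distrib, Finset.sum_add_distrib, e1 _ (Nat.mod_lt _ hgpos),
            e1 _ (Nat.mod_lt _ hgpos), e1 _ i.2, abs_one, abs_mul, abs_mul, abs_pow, abs_pow,
            Nat.abs_cast, abs_of_nonneg (by positivity : (0 : ℤ) ≤ (m : ℤ) + 1)]
      _ ≤ (2 * (m : ℤ) + 2) * |U| ^ k i := by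
          have : (m : ℤ) * |U| ^ (k i - (i + 1) / g) ≤ m * |U| ^ k i :=
            mul_le_mul_of_nonneg_left hUk2 (by positivity)
          linarith
  calc ∏ i, ∑ j, |M i j| ≤ ∏ i : Fin g, (2 * (m : ℤ) + 2) * |U| ^ k i := by
        apply Finset.prod_le_prod
        · intro i _
          exact Finset.sum_nonneg (fun j _ => abs_nonneg _)
        · intro i _
          exact hrow i
    _ = |U| ^ a * (2 * m + 2) ^ g := by
        rw [Finset.prod_mul_distrib, Finset.prod_const, Finset.card_univ, Fintype.card_fin,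
          Finset.prod_pow_eq_pow_sum, mul_comm]
        congr 2
        rw [← sum_div a g hg, Finset.sum_range]

/-- Circulant bound: `q^g = 1` and `1 + q + ... + q^(a-1) + m = 0` modulo `R`. -/
theorem circ_bound {R g a m q : ℕ} (hg : 1 ≤ g) (hm : 1 ≤ m)
    (h1 : (R : ℤ) ∣ (q : ℤ) ^ g - 1)
    (h2 : (R : ℤ) ∣ ∑ t ∈ range a, (q : ℤ) ^ t + m) :
    (R : ℤ) ≤ (a + m) ^ g := by
  have hgpos : 0 < g := hg
  set M : Matrix (Fin g) (Fin g) ℤ := fun i j =>
    ∑ t ∈ range a, (if (j : ℕ) = (t + i) % g then 1 else 0)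
      + (if j = i then (m : ℤ) else 0) with hM
  have hsum : ∀ {S : Type} [CommRing S] (i : Fin g) (w : ℕ → S),
      ∑ j : Fin g, ((M i j : ℤ) : S) * w j = ∑ t ∈ range a, w ((t + i) % g) + (m : S) * w i := by
    intro S _ i w
    have e1 : ∀ (c : ℕ) (hc : c < g) (z : S), ∑ j : Fin g, (if (j : ℕ) = c then z else 0) * w j
        = z * w c := by
      intro c hc z
      rw [Finset.sum_eq_single (⟨c, hc⟩ : Fin g)]
      · simp
      · intro b _ hb
        rw [if_neg, zero_mul]
        intro h
        apply hb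
        ext
        exact h
      · intro h; exact absurd (Finset.mem_univ _) h
    have e2 : ∀ j : Fin g, ((M i j : ℤ) : S) * w j
        = ∑ t ∈ range a, (if (j : ℕ) = (t + i) % g then (1 : S) else 0) * w j
          + (if (j : ℕ) = (i : ℕ) then (m : S) else 0) * w j := by
      intro j
      rw [hM]
      simp only [Fin.ext_iff]
      push_cast
      rw [add_mul, Finset.sum_mul]
    rw [Finset.sum_congr rfl (fun j _ => e2 j), Finset.sum_add_distrib, Finset.sum_comm, e1 _ i.2]
    congr 1
    apply Finset.sum_congr rfl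
    intro t _
    rw [e1 _ (Nat.mod_lt _ hgpos), one_mul]
  have hdvd : (R : ℤ) ∣ M.det := by
    apply dvd_det hgpos (R : ℤ) M (fun j => (q : ℤ) ^ (j : ℕ)) (by simp)
    intro i
    have h3 := hsum (S := ℤ) i (fun j => (q : ℤ) ^ j)
    simp only [Int.cast_id] at h3
    rw [h3]
    rw [← ZMod.intCast_zmod_eq_zero_iff_dvd]
    have e1 : (q : ZMod R) ^ g = 1 := by
      have := (ZMod.intCast_zmod_eq_zero_iff_dvd _ R).mpr h1
      push_cast at this
      linear_combination this
    have e2 : ∑ t ∈ range a, (q : ZMod R) ^ t + m = 0 := by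
      have := (ZMod.intCast_zmod_eq_zero_iff_dvd _ R).mpr h2
      push_cast at this
      exact this
    push_cast
    have e3 : ∀ t ∈ range a, (q : ZMod R) ^ ((t + (i : ℕ)) % g)
        = (q : ZMod R) ^ (i : ℕ) * (q : ZMod R) ^ t := by
      intro t _
      have h4 : (q : ZMod R) ^ (t + (i : ℕ))
          = ((q : ZMod R) ^ g) ^ ((t + i) / g) * (q : ZMod R) ^ ((t + i) % g) := by
        rw [← pow_mul, ← pow_add]
        congr 1
        exact (Nat.div_add_mod _ _).symm
      rw [e1, one_pow, one_mul] at h4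
      rw [← h4, pow_add, mul_comm]
    rw [Finset.sum_congr rfl e3, ← Finset.mul_sum]
    linear_combination ((q : ZMod R) ^ (i : ℕ)) * e2
  have hmr : (1 : ℝ) ≤ m := by exact_mod_cast hm
  have hne : M.det ≠ 0 := by
    apply det_ne_of
    intro w hw
    set w' : ℕ → ℝ := fun j => if h : j < g then w ⟨j, h⟩ else 0 with hw'
    have hww : ∀ j : Fin g, w' j = w j := by
      intro j; rw [hw']; simp
    -- extended periodically
    set z : ℕ → ℝ := fun n => w' (n % g) with hz
    have hzper : ∀ n, z (n % g) = z n := by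
      intro n
      rw [hz]
      simp only [Nat.mod_mod]
    have hrel : ∀ n, ∑ t ∈ range a, z (t + n) + m * z n = 0 := by
      intro n
      have h3 := hsum (S := ℝ) ⟨n % g, Nat.mod_lt _ hgpos⟩ w'
      have h4 : ∑ j : Fin g, ((M ⟨n % g, Nat.mod_lt _ hgpos⟩ j : ℤ) : ℝ) * w' j = 0 := by
        rw [← hw ⟨n % g, Nat.mod_lt _ hgpos⟩]
        apply Finset.sum_congr rfl
        intro j _
        rw [hww]
      rw [h4] at h3
      rw [h3]
      simp only [hz]
      congr 1
      apply Finset.sum_congr rfl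
      intro t _
      congr 1
      rw [Nat.add_mod t n g, Nat.add_mod t (n % g) g, Nat.mod_mod]
    have hstep : ∀ n, z (a + n) + m * z (n + 1) = (m + 1) * z n := by
      intro n
      have h3 := hrel n
      have h4 := hrel (n + 1)
      have h5 : ∑ t ∈ range (a + 1), z (t + n) = ∑ t ∈ range a, z (t + n) + z (a + n) :=
        Finset.sum_range_succ _ _
      have h6 : ∑ t ∈ range (a + 1), z (t + n) = ∑ t ∈ range a, z (t + 1 + n) + z (0 + n) :=
        Finset.sum_range_succ' (fun t => z (t + n)) a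
      have h7 : ∑ t ∈ range a, z (t + 1 + n) = ∑ t ∈ range a, z (t + (n + 1)) := by
        apply Finset.sum_congr rfl
        intro t _
        congr 1
        omega
      rw [zero_add] at h6
      linarith
    obtain ⟨i, hi⟩ := exists_max hgpos w
    have hmax : ∀ n, z n ≤ w i := by
      intro n
      have h3 : z n = w ⟨n % g, Nat.mod_lt _ hgpos⟩ := by
        rw [hz]
        exact hww ⟨n % g, Nat.mod_lt _ hgpos⟩
      rw [h3]
      exact hi _
    have hzi : z i = w i := by
      rw [hz]
      simp only [Nat.mod_eq_of_lt i.2]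
      exact hww i
    have hconst : ∀ n, z (i + n) = w i := by
      intro n
      induction n with
      | zero => rw [add_zero]; exact hzi
      | succ n ih =>
        have h3 := hstep (i + n)
        rw [ih] at h3
        have h4 := hmax (a + (i + n))
        have h5 := hmax (i + n + 1)
        have h6 : z (i + n + 1) = w i := by nlinarith
        rw [← add_assoc]; exact h6
    have h8 := hrel i
    have h9 : ∀ t ∈ range a, z (t + i) = w i := by
      intro t _
      rw [add_comm]; exact hconst t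
    rw [Finset.sum_congr rfl h9, Finset.sum_const, card_range, hzi, nsmul_eq_mul] at h8
    have hi0 : w i = 0 := by
      have h10 : ((a : ℝ) + m) * w i = 0 := by linarith
      rcases mul_eq_zero.mp h10 with h11 | h11
      · exfalso
        have : (0 : ℝ) ≤ a := Nat.cast_nonneg a
        linarith
      · exact h11
    funext j
    have h10 := hconst ((g - i) + j)
    have h11 : z (i + ((g - i) + j)) = w j := by
      rw [hz]
      have h12 : (i + ((g - i) + (j : ℕ))) % g = j := by
        have : i + ((g - i) + (j : ℕ)) = g + j := by omega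
        rw [this, Nat.add_mod_left, Nat.mod_eq_of_lt j.2]
      simp only [h12]
      exact hww j
    rw [← h11, h10, hi0]
    rfl
  have hsz := size_det hdvd hne
  refine hsz.trans ?_
  have hrow : ∀ i, ∑ j, |M i j| ≤ (a : ℤ) + m := by
    intro i
    have h3 := hsum (S := ℤ) i (fun _ => 1)
    simp only [Int.cast_id, mul_one, Finset.sum_const, card_range, nsmul_eq_mul] at h3
    rw [← h3]
    apply le_of_eq
    apply Finset.sum_congr rfl
    intro j _
    apply abs_of_nonneg
    rw [hM]
    apply add_nonneg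
    · apply Finset.sum_nonneg
      intro t _
      split_ifs <;> norm_num
    · split_ifs
      · positivity
      · norm_num
  calc ∏ i, ∑ j, |M i j| ≤ ∏ i : Fin g, ((a : ℤ) + m) := by
        apply Finset.prod_le_prod
        · intro i _
          exact Finset.sum_nonneg (fun j _ => abs_nonneg _)
        · intro i _
          exact hrow i
    _ = (a + m) ^ g := by
        rw [Finset.prod_const, Finset.card_univ, Fintype.card_fin]

end Pool.Agent.Lib.MP_f02ea4_nt.Lp
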