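import Pool.Agent.Lib.MP_f02ea4_nt.IdxPig

/-! Index of odd perfect numbers: the local bound. -/

set_option autoImplicit false

namespace Pool.Agent.Lib.MP_f02ea4_nt.Idx

open Finset Real

/-- the box of the pigeonhole argument -/
lemma box (d : ℕ) (P X : ℝ) (hP : 0 < P) (hX : 0 < X) :
    ∃ U V : ℕ, d < (U + 1) * (V + 1) ∧ (U : ℝ) * P ≤ sqrt (d * P * X)
      ∧ (V : ℝ) * X ≤ sqrt (d * P * X) := by
  set Y := sqrt (d * P * X) with hY
  have hY0 : 0 ≤ Y := sqrt_nonneg _
  have hYY : Y * Y = d * P * X := mul_self_sqrt (by positivity)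
  refine ⟨⌊Y / P⌋₊, ⌊Y / X⌋₊, ?_, ?_, ?_⟩
  · have h1 : Y / P < (⌊Y / P⌋₊ : ℝ) + 1 := Nat.lt_floor_add_one _
    have h2 : Y / X < (⌊Y / X⌋₊ : ℝ) + 1 := Nat.lt_floor_add_one _
    have h3 : Y < ((⌊Y / P⌋₊ : ℝ) + 1) * P := (div_lt_iff₀ hP).mp h1
    have h4 : Y < ((⌊Y / X⌋₊ : ℝ) + 1) * X := (div_lt_iff₀ hX).mp h2
    have h5 : Y * Y < (((⌊Y / P⌋₊ : ℝ) + 1) * P) * (((⌊Y / X⌋₊ : ℝ) + 1) * X) :=
      mul_lt_mul'' h3 h4 hY0 hY0
    have h6 : (d : ℝ) < ((⌊Y / P⌋₊ : ℝ) + 1) * ((⌊Y / X⌋₊ : ℝ) + 1) := by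
      rw [hYY] at h5
      by_contra hc
      push Not at hc
      have h7 : (((⌊Y / P⌋₊ : ℝ) + 1) * ((⌊Y / X⌋₊ : ℝ) + 1)) * (P * X) ≤ d * (P * X) :=
        mul_le_mul_of_nonneg_right hc (by positivity)
      linarith
    exact_mod_cast h6
  · exact (le_div_iff₀ hP).mp (Nat.floor_le (by positivity))
  · exact (le_div_iff₀ hX).mp (Nat.floor_le (by positivity))

lemma pow_le_exp {x : ℝ} (hx : 0 < x) (n : ℕ) {Y : ℝ} (h : (n : ℝ) * log x ≤ Y) :
    x ^ n ≤ exp Y := by
  rw [← log_le_iff_le_exp (by positivity), log_pow]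
  exact h

/-- from a size bound to a logarithmic bound -/
lemma mul_log_le {q : ℝ} (hq : 0 < q) (f : ℕ) {z Y : ℝ} (h : q ^ f ≤ z) (hz : z ≤ exp Y) :
    (f : ℝ) * log q ≤ Y := by
  rw [← log_pow, log_le_iff_le_exp (by positivity)]
  exact h.trans hz

/-- the case of a small prime `q` -/
lemma local_small {p q c κ a f d : ℕ} (hp : p.Prime) (hp2 : p ≠ 2) (hq : q.Prime) (hq2 : q ≠ 2)
    (hc : 2 ≤ c) (hsig : (q - 1) * (c * p ^ κ) + 1 = q ^ (a + 1))
    (hf : f ≤ a + 1) (hd : 2 ≤ d) (hpd : q ^ f ∣ p ^ d - 1) :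
    (f : ℝ) * log q ≤ log 2 + 2 * sqrt (d * log p * (log c + log q)) := by
  have hp3 : 3 ≤ p := by have := hp.two_le; omega
  have hq3 : 3 ≤ q := by have := hq.two_le; omega
  have hpr : (3 : ℝ) ≤ p := by exact_mod_cast hp3
  have hqr : (3 : ℝ) ≤ q := by exact_mod_cast hq3
  have hcr : (2 : ℝ) ≤ c := by exact_mod_cast hc
  have hP : 0 < log p := log_pos (by linarith)
  have hC : 0 < log c := log_pos (by linarith)
  have hl : 0 < log q := log_pos (by linarith)
  obtain ⟨U, V, hUV, hU, hV⟩ := box d (log p) (log c + log q) hP (by linarith)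
  obtain ⟨α, α', t, hα, hα', ht, hne, hmod⟩ := pigeon d κ U V (by omega) hUV
  have hdvd := modq (p := p) (q := q) (c := c) (κ := κ) (a := a) (f := f) (d := d)
    (by omega) (by omega) hsig hf hpd hmod
  set Y := sqrt (d * log p * (log c + log q)) with hY
  have hY0 : 0 ≤ Y := sqrt_nonneg _
  have hpodd : Odd p := hp.odd_of_ne_two hp2
  have hqodd : Odd q := hq.odd_of_ne_two hq2
  have hnz : (p : ℤ) ^ α * ((c : ℤ) * (1 - q)) ^ t - (p : ℤ) ^ α' ≠ 0 := by
    intro h0
    rcases Nat.eq_zero_or_pos t with ht0 | ht0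
    · rw [ht0, pow_zero, mul_one, sub_eq_zero] at h0
      have h1 : p ^ α = p ^ α' := by exact_mod_cast h0
      have := Nat.pow_right_injective hp.two_le h1
      rcases hne with h | h
      · exact h ht0
      · exact h this
    · have h1 : Even ((p : ℤ) ^ α * ((c : ℤ) * (1 - q)) ^ t) := by
        apply Even.mul_left
        apply Even.pow_of_ne_zero _ (by omega)
        apply Even.mul_left
        have : Odd (q : ℤ) := by exact_mod_cast hqodd
        exact Odd.sub_odd odd_one this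
      have h2 : Odd ((p : ℤ) ^ α') := by
        have : Odd (p : ℤ) := by exact_mod_cast hpodd
        exact this.pow
      rw [sub_eq_zero] at h0
      rw [h0] at h1
      exact (Int.not_even_iff_odd.mpr h2) h1
  have hsize := size_of_dvd hdvd hnz
  have hb1 : (p : ℝ) ^ α ≤ exp Y := by
    apply pow_le_exp (by linarith)
    have : (α : ℝ) ≤ U := by exact_mod_cast hα
    exact (mul_le_mul_of_nonneg_right this hP.le).trans hU
  have hb2 : (p : ℝ) ^ α' ≤ exp Y := by
    apply pow_le_exp (by linarith)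
    have : (α' : ℝ) ≤ U := by exact_mod_cast hα'
    exact (mul_le_mul_of_nonneg_right this hP.le).trans hU
  have hb3 : ((c : ℝ) * q) ^ t ≤ exp Y := by
    apply pow_le_exp (by positivity)
    rw [log_mul (by positivity) (by positivity)]
    have : (t : ℝ) ≤ V := by exact_mod_cast ht
    exact (mul_le_mul_of_nonneg_right this (by linarith)).trans hV
  have hbound : |(((p : ℤ) ^ α * ((c : ℤ) * (1 - q)) ^ t - (p : ℤ) ^ α' : ℤ) : ℝ)|
      ≤ exp (log 2 + 2 * Y) := by
    push_cast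
    refine (abs_sub _ _).trans ?_
    rw [abs_mul, abs_pow, abs_pow, abs_pow, abs_mul, Nat.abs_cast, Nat.abs_cast]
    have h1 : |1 - (q : ℝ)| ≤ q := by rw [abs_le]; constructor <;> linarith
    have h2 : ((c : ℝ) * |1 - (q : ℝ)|) ^ t ≤ ((c : ℝ) * q) ^ t := by
      apply pow_le_pow_left₀ (by positivity)
      exact mul_le_mul_of_nonneg_left h1 (by positivity)
    have h3 : (1 : ℝ) ≤ exp Y := one_le_exp hY0
    rw [exp_add, exp_log (by norm_num), two_mul Y, exp_add]
    have h4 : (p : ℝ) ^ α * ((c : ℝ) * |1 - (q : ℝ)|) ^ t ≤ exp Y * exp Y :=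
      mul_le_mul hb1 (h2.trans hb3) (by positivity) (by positivity)
    nlinarith
  exact mul_log_le (by linarith) f hsize hbound

/-- the case of a large prime `q` -/
lemma local_large {p q c κ a f d : ℕ} (hp : p.Prime) (hp2 : p ≠ 2) (hq : q.Prime) (hq2 : q ≠ 2)
    (hc : 2 ≤ c) (hpc : ¬ p ∣ c) (hsig : (q - 1) * (c * p ^ κ) + 1 = q ^ (a + 1))
    (hf : f ≤ a + 1) (hd : 2 ≤ d) (hpd : q ^ f ∣ p ^ d - 1) (hl15 : 15 ≤ log q)
    (hY1 : 1 ≤ sqrt (d * log p * log c)) :
    (f : ℝ) * log q ≤ 12 * sqrt (d * log p * log c) := by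
  have hp3 : 3 ≤ p := by have := hp.two_le; omega
  have hq3 : 3 ≤ q := by have := hq.two_le; omega
  have hpr : (3 : ℝ) ≤ p := by exact_mod_cast hp3
  have hqr : (3 : ℝ) ≤ q := by exact_mod_cast hq3
  have hcr : (2 : ℝ) ≤ c := by exact_mod_cast hc
  have hP : 0 < log p := log_pos (by linarith)
  have hC : 0 < log c := log_pos (by linarith)
  have hl : 0 < log q := log_pos (by linarith)
  have hlog2 : log 2 ≤ log c := log_le_log (by norm_num) hcr
  have hlog2a : (0.6931471803 : ℝ) < log 2 := log_two_gt_d9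
  have hlog2b : log 2 < (0.6931471808 : ℝ) := log_two_lt_d9
  obtain ⟨U, V, hUV, hU, hV⟩ := box d (log p) (log c) hP hC
  obtain ⟨α, α', t, hα, hα', ht, hne, hmod⟩ := pigeon d κ U V (by omega) hUV
  have hdvd := modq (p := p) (q := q) (c := c) (κ := κ) (a := a) (f := f) (d := d)
    (by omega) (by omega) hsig hf hpd hmod
  set Y := sqrt (d * log p * log c) with hY
  have hY0 : 0 ≤ Y := sqrt_nonneg _
  have hpodd : Odd p := hp.odd_of_ne_two hp2
  have hqodd : Odd q := hq.odd_of_ne_two hq2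
  have hb1 : (p : ℝ) ^ α ≤ exp Y := by
    apply pow_le_exp (by linarith)
    have : (α : ℝ) ≤ U := by exact_mod_cast hα
    exact (mul_le_mul_of_nonneg_right this hP.le).trans hU
  have hb2 : (p : ℝ) ^ α' ≤ exp Y := by
    apply pow_le_exp (by linarith)
    have : (α' : ℝ) ≤ U := by exact_mod_cast hα'
    exact (mul_le_mul_of_nonneg_right this hP.le).trans hU
  have htY : (t : ℝ) * log c ≤ Y := by
    have : (t : ℝ) ≤ V := by exact_mod_cast ht
    exact (mul_le_mul_of_nonneg_right this hC.le).trans hV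
  have hb3 : (c : ℝ) ^ t ≤ exp Y := pow_le_exp (by positivity) t htY
  -- `A` and `B`
  set A : ℤ := (p : ℤ) ^ α' with hA
  set B : ℤ := (p : ℤ) ^ α * (c : ℤ) ^ t with hB
  have hA0 : (0 : ℝ) < A := by rw [hA]; push_cast; positivity
  have hB0 : (0 : ℝ) < B := by rw [hB]; push_cast; positivity
  have hAe : (A : ℝ) ≤ exp Y := by rw [hA]; push_cast; exact hb2
  have hBe : (B : ℝ) ≤ exp (2 * Y) := by
    rw [hB, two_mul, exp_add]; push_cast
    exact mul_le_mul hb1 hb3 (by positivity) (by positivity)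
  have hAe2 : (A : ℝ) ≤ exp (2 * Y) := hAe.trans (exp_le_exp.mpr (by linarith))
  have hAZ : A ≠ 0 := by intro h; rw [h] at hA0; simp at hA0
  have hBZ : B ≠ 0 := by intro h; rw [h] at hB0; simp at hB0
  have hdvd' : ((q : ℤ) ^ f) ∣ B * (1 - (q : ℤ)) ^ t - A := by
    have : B * (1 - (q : ℤ)) ^ t - A
        = (p : ℤ) ^ α * ((c : ℤ) * (1 - q)) ^ t - (p : ℤ) ^ α' := by
      rw [hA, hB, mul_pow]; ring
    rw [this]; exact hdvd
  rcases Nat.eq_zero_or_pos f with hf0 | hf0
  · rw [hf0]; simp only [Nat.cast_zero, zero_mul]; linarith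
  rcases Nat.eq_zero_or_pos t with ht0 | ht0
  · -- `t = 0`
    have hnz : B * (1 - (q : ℤ)) ^ t - A ≠ 0 := by
      intro h0
      rw [hA, hB, ht0, pow_zero, mul_one, pow_zero, mul_one, sub_eq_zero] at h0
      have h1 : p ^ α = p ^ α' := by exact_mod_cast h0
      have := Nat.pow_right_injective hp.two_le h1
      rcases hne with h | h
      · exact h ht0
      · exact h this
    have hsize := size_of_dvd hdvd' hnz
    have hbound : |((B * (1 - (q : ℤ)) ^ t - A : ℤ) : ℝ)| ≤ exp (2 * Y) := by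
      rw [ht0, pow_zero, mul_one, Int.cast_sub]
      exact abs_sub_le_of_nonneg_of_le hB0.le hBe hA0.le hAe2
    have := mul_log_le (by linarith) f hsize hbound
    linarith
  -- `t ≥ 1`: `q ≤ exp (2 Y)`
  have hBA : B - A ≠ 0 := by
    intro h0
    rw [hA, hB, sub_eq_zero] at h0
    have h1 : p ^ α * c ^ t = p ^ α' := by exact_mod_cast h0
    have h2 : c ∣ p ^ α' := by
      rw [← h1]
      exact Dvd.dvd.mul_left (dvd_pow_self _ (by omega)) _
    obtain ⟨j, hj1, hj2⟩ := (Nat.dvd_prime_pow hp).mp h2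
    rcases Nat.eq_zero_or_pos j with h3 | h3
    · rw [h3, pow_zero] at hj2; omega
    · exact hpc (by rw [hj2]; exact dvd_pow_self _ (by omega))
  have hlY : log q ≤ 2 * Y := by
    have h1 : ((q : ℤ) ^ 1) ∣ B - A := by
      have h2 : (q : ℤ) ∣ B * (1 - (q : ℤ)) ^ t - A := (dvd_pow_self _ (by omega)).trans hdvd'
      have h3 : (q : ℤ) ∣ (1 - (q : ℤ)) ^ t - 1 := by
        have h4 : (1 - (q : ℤ)) - 1 ∣ (1 - (q : ℤ)) ^ t - 1 ^ t := sub_dvd_pow_sub_pow _ _ _
        rw [one_pow] at h4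
        exact (Dvd.intro (-1) (by ring)).trans h4
      rw [pow_one]
      have h5 : B - A = (B * (1 - (q : ℤ)) ^ t - A) - B * ((1 - (q : ℤ)) ^ t - 1) := by ring
      rw [h5]
      exact dvd_sub h2 (Dvd.dvd.mul_left h3 _)
    have hsize := size_of_dvd h1 hBA
    have hbound : |((B - A : ℤ) : ℝ)| ≤ exp (2 * Y) := by
      rw [Int.cast_sub]
      exact abs_sub_le_of_nonneg_of_le hB0.le hBe hA0.le hAe2
    have := mul_log_le (by linarith) 1 hsize hbound
    simpa using this
  rcases Nat.lt_or_ge f 7 with hf7 | hf7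
  · have h1 : (f : ℝ) ≤ 6 := by
      have : f ≤ 6 := by omega
      exact_mod_cast this
    nlinarith
  set r := f / 2 with hr
  rcases Nat.lt_or_ge r t with hrt | hrt
  · -- Pade
    obtain ⟨s, hs1, hs2, hs3⟩ := pade_step (f := f) (t := t) (r := r) (A := A) (B := B)
      (by omega : 1 ≤ q) hAZ hBZ (by omega) hrt hdvd'
    have hq0 : (0 : ℝ) < q := by linarith
    have h1 : (q : ℝ) ^ f ≤ exp (2 * Y) * (2 ^ t * (2 * (16 * q) ^ s)) := by
      refine hs3.trans ?_
      rw [abs_of_pos hA0, abs_of_pos hB0]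
      have h2 : (8 * (q : ℝ)) ^ s ≤ (16 * q) ^ s := by
        apply pow_le_pow_left₀ (by positivity); linarith
      have h3 : (B : ℝ) * (2 ^ t * (16 * q) ^ s) ≤ exp (2 * Y) * (2 ^ t * (16 * q) ^ s) :=
        mul_le_mul_of_nonneg_right hBe (by positivity)
      have h4 : (A : ℝ) * (2 ^ t * (8 * q) ^ s) ≤ exp (2 * Y) * (2 ^ t * (16 * q) ^ s) := by
        apply mul_le_mul hAe2 _ (by positivity) (by positivity)
        exact mul_le_mul_of_nonneg_left h2 (by positivity)
      linarith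
    have h2 := log_le_log (by positivity) h1
    have h16 : log (16 : ℝ) = 4 * log 2 := by
      rw [show (16 : ℝ) = 2 ^ (4 : ℕ) by norm_num, log_pow]; norm_num
    rw [log_pow, log_mul (by positivity) (by positivity), log_exp,
      log_mul (by positivity) (by positivity), log_pow, log_mul (by norm_num) (by positivity),
      log_pow, log_mul (by norm_num) (by positivity), h16] at h2
    have htl : (t : ℝ) * log 2 ≤ Y :=
      (mul_le_mul_of_nonneg_left hlog2 (by positivity)).trans htY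
    have hs8 : (s : ℝ) ≤ (5 / 8) * f := by
      have : 8 * s ≤ 5 * f := by omega
      have h5 : (8 : ℝ) * s ≤ 5 * f := by exact_mod_cast this
      linarith
    have hf7r : (7 : ℝ) ≤ f := by exact_mod_cast hf7
    have h6 : (s : ℝ) * (4 * log 2) ≤ (5 / 8) * f * (4 * log 2) :=
      mul_le_mul_of_nonneg_right hs8 (by linarith)
    have h7 : (s : ℝ) * log q ≤ (5 / 8) * f * log q :=
      mul_le_mul_of_nonneg_right hs8 hl.le
    have h8 : (f : ℝ) * log 2 ≤ f * 0.6931471808 :=
      mul_le_mul_of_nonneg_left hlog2b.le (by positivity)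
    have h9 : (f : ℝ) * 15 ≤ f * log q := mul_le_mul_of_nonneg_left hl15 (by positivity)
    have h10 : (3 / 8) * (f * log q) ≤ 3 * Y + log 2 + (5 / 2) * (f * log 2) := by
      linarith
    linarith
  · -- `t ≤ r`
    have hnz : B * (1 - (q : ℤ)) ^ t - A ≠ 0 := by
      intro h0
      have h1 : Even (B * (1 - (q : ℤ)) ^ t) := by
        apply Even.mul_left
        apply Even.pow_of_ne_zero _ (by omega)
        have : Odd (q : ℤ) := by exact_mod_cast hqodd
        exact Odd.sub_odd odd_one this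
      have h2 : Odd A := by
        have : Odd (p : ℤ) := by exact_mod_cast hpodd
        exact this.pow
      rw [sub_eq_zero] at h0
      rw [h0] at h1
      exact (Int.not_even_iff_odd.mpr h2) h1
    have hsize := size_of_dvd hdvd' hnz
    have hpowt : ((q : ℝ) - 1) ^ t + 1 ≤ (q : ℝ) ^ r := by
      have h1 : (q - 1) ^ t < q ^ t := Nat.pow_lt_pow_left (by omega) (by omega)
      have h2 : q ^ t ≤ q ^ r := Nat.pow_le_pow_right (by omega) hrt
      have h3 : (q - 1) ^ t + 1 ≤ q ^ r := by omega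
      have h4 : (((q - 1) ^ t + 1 : ℕ) : ℝ) ≤ ((q ^ r : ℕ) : ℝ) := by exact_mod_cast h3
      push_cast [Nat.cast_sub (show 1 ≤ q by omega)] at h4
      exact h4
    have hbound : |((B * (1 - (q : ℤ)) ^ t - A : ℤ) : ℝ)| ≤ exp (2 * Y) * (q : ℝ) ^ r := by
      push_cast
      refine (abs_sub _ _).trans ?_
      rw [abs_mul, abs_pow, abs_of_pos hA0, abs_of_pos hB0]
      have h1 : |1 - (q : ℝ)| = q - 1 := by rw [abs_sub_comm, abs_of_pos (by linarith)]
      rw [h1]
      have h2 : (B : ℝ) * (q - 1) ^ t ≤ exp (2 * Y) * (q - 1) ^ t :=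
        mul_le_mul_of_nonneg_right hBe (pow_nonneg (by linarith) _)
      have h3 : exp (2 * Y) * (((q : ℝ) - 1) ^ t + 1) ≤ exp (2 * Y) * (q : ℝ) ^ r :=
        mul_le_mul_of_nonneg_left hpowt (exp_pos _).le
      linarith
    have h1 := hsize.trans hbound
    have h2 : (q : ℝ) ^ (f - r) ≤ exp (2 * Y) := by
      have h3 : (q : ℝ) ^ f = (q : ℝ) ^ (f - r) * (q : ℝ) ^ r := by
        rw [← pow_add]; congr 1; omega
      rw [h3] at h1
      exact le_of_mul_le_mul_right h1 (by positivity)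
    have h3 := mul_log_le (by linarith) (f - r) h2 le_rfl
    have h4 : (f : ℝ) ≤ 2 * ((f - r : ℕ) : ℝ) := by
      have : f ≤ 2 * (f - r) := by omega
      exact_mod_cast this
    have h5 : (f : ℝ) * log q ≤ 2 * ((f - r : ℕ) : ℝ) * log q :=
      mul_le_mul_of_nonneg_right h4 hl.le
    linarith

/-- The local bound. -/
theorem local_bound {p q c κ a f d : ℕ} (hp : p.Prime) (hp2 : p ≠ 2) (hq : q.Prime) (hq2 : q ≠ 2)
    (hc : 2 ≤ c) (hpc : ¬ p ∣ c) (hsig : (q - 1) * (c * p ^ κ) + 1 = q ^ (a + 1))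
    (hf : f ≤ a + 1) (hd : 2 ≤ d) (hpd : q ^ f ∣ p ^ d - 1) :
    (f : ℝ) * Real.log q ≤ 12 * Real.sqrt (d * Real.log p * Real.log c) := by
  have hp3 : 3 ≤ p := by have := hp.two_le; omega
  have hpr : (3 : ℝ) ≤ p := by exact_mod_cast hp3
  have hcr : (2 : ℝ) ≤ c := by exact_mod_cast hc
  have hdr : (2 : ℝ) ≤ d := by exact_mod_cast hd
  have hP1 : 1 ≤ log p := by
    have he : exp 1 < (2.7182818286 : ℝ) := exp_one_lt_d9
    rw [le_log_iff_exp_le (by linarith)]
    linarith
  have hlog2 : log 2 ≤ log c := log_le_log (by norm_num) hcr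
  have hlog2a : (0.6931471803 : ℝ) < log 2 := log_two_gt_d9
  have hlog2b : log 2 < (0.6931471808 : ℝ) := log_two_lt_d9
  have hC : 0 < log c := by linarith
  set Y := sqrt (d * log p * log c) with hY
  have hY0 : 0 ≤ Y := sqrt_nonneg _
  have hYY : Y * Y = d * log p * log c := mul_self_sqrt (by positivity)
  have hdP : (2 : ℝ) ≤ d * log p := by nlinarith
  have hY1 : 1 ≤ Y := by
    by_contra hcon
    push Not at hcon
    have h1 : Y * Y < 1 := by nlinarith
    rw [hYY] at h1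
    nlinarith
  rcases le_or_gt 15 (log q) with h15 | h15
  · exact local_large hp hp2 hq hq2 hc hpc hsig hf hd hpd h15 hY1
  · have h1 := local_small hp hp2 hq hq2 hc hsig hf hd hpd
    have h2 : sqrt (d * log p * (log c + log q)) ≤ 5 * Y := by
      rw [sqrt_le_left (by positivity)]
      have h3 : (5 * Y) ^ 2 = 25 * (d * log p * log c) := by rw [mul_pow, sq Y, hYY]; norm_num
      rw [h3]
      have h4 : log q ≤ 24 * log c := by linarith
      nlinarith
    linarith

end Pool.Agent.Lib.MP_f02ea4_nt.Idx
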