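import Mathlib

/-! # Euler-free robust Steuerwald theorem: growth lemma -/

namespace Pool.Agent.OPNEF

open Finset

/-- If `1 + 1/B ≤ R ≤ ∏ u/(u-1)` with all `u ≥ y` then `y ≤ |U| (B+1)`. -/
lemma mul_lem (U : Finset ℕ) {y B : ℕ} (hy : 2 ≤ y) (hU : ∀ u ∈ U, y ≤ u) (hB : 0 < B) {R : ℝ}
    (hR : R ≤ ∏ u ∈ U, ((u : ℝ) / (u - 1))) (h1 : 1 + 1 / (B : ℝ) ≤ R) :
    y ≤ U.card * (B + 1) := by
  by_contra hcon
  push Not at hcon
  have hyR : (2 : ℝ) ≤ y := by exact_mod_cast hy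
  have hBR : (0 : ℝ) < B := by exact_mod_cast hB
  set r := U.card with hr
  have hcon' : (r : ℝ) * (B + 1) < y := by exact_mod_cast hcon
  have h2 : ∏ u ∈ U, ((u : ℝ) / (u - 1)) ≤ ((y : ℝ) / (y - 1)) ^ r := by
    rw [hr, ← Finset.prod_const]
    apply Finset.prod_le_prod
    · intro u hu
      have : (y : ℝ) ≤ u := by exact_mod_cast hU u hu
      apply div_nonneg <;> linarith
    · intro u hu
      have : (y : ℝ) ≤ u := by exact_mod_cast hU u hu
      rw [div_le_div_iff₀ (by linarith) (by linarith)]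
      nlinarith
  have h3 : (1 : ℝ) - r / y ≤ (((y : ℝ) - 1) / y) ^ r := by
    have h4 : (-2 : ℝ) ≤ -(1 / y) := by
      have : 1 / (y : ℝ) ≤ 1 := by
        rw [div_le_one (by linarith)]
        linarith
      linarith
    have h5 := one_add_mul_le_pow h4 r
    have h6 : (1 : ℝ) + -(1 / y) = ((y : ℝ) - 1) / y := by
      field_simp
      ring
    rw [h6] at h5
    refine le_trans (le_of_eq ?_) h5
    ring
  have h7 : (((y : ℝ) / (y - 1)) ^ r) * ((((y : ℝ) - 1) / y) ^ r) = 1 := by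
    rw [← mul_pow]
    have : ((y : ℝ) / (y - 1)) * (((y : ℝ) - 1) / y) = 1 := by
      have : (y : ℝ) - 1 ≠ 0 := by linarith
      field_simp
    rw [this, one_pow]
  have hry : (r : ℝ) < y := by
    have : (r : ℝ) ≤ r * (B + 1) := by
      have : (0 : ℝ) ≤ r := Nat.cast_nonneg r
      nlinarith
    linarith
  have h8 : (0 : ℝ) < 1 - r / y := by
    rw [sub_pos, div_lt_one (by linarith)]
    exact hry
  have h9 : (1 + 1 / (B : ℝ)) * (1 - r / y) ≤ 1 := by
    calc (1 + 1 / (B : ℝ)) * (1 - r / y) ≤ (((y : ℝ) / (y - 1)) ^ r) * ((((y : ℝ) - 1) / y) ^ r) := by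
          apply mul_le_mul ((h1.trans hR).trans h2) h3 h8.le
          apply pow_nonneg
          apply div_nonneg <;> linarith
      _ = 1 := h7
  have h10 : (B + 1) * ((y : ℝ) - r) ≤ B * y := by
    have hy0 : (0 : ℝ) < y := by linarith
    have e1 : (1 + 1 / (B : ℝ)) * (1 - r / y) = (B + 1) * ((y : ℝ) - r) / (B * y) := by
      field_simp
    rw [e1, div_le_one (by positivity)] at h9
    exact h9
  nlinarith

/-- the factor `1 + 1/z + 1/z^2` is at most `z/(z-1)` -/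
lemma F_le {z : ℕ} (hz : 2 ≤ z) : (((z ^ 2 + z + 1 : ℕ) : ℝ)) / ((z ^ 2 : ℕ) : ℝ) ≤ (z : ℝ) / (z - 1) := by
  have hzR : (2 : ℝ) ≤ z := by exact_mod_cast hz
  push_cast
  rw [div_le_div_iff₀ (by positivity) (by linarith)]
  nlinarith

section
variable {p a B0 I0 : ℕ} {Z : Finset ℕ}

/-- hypotheses of the growth lemma -/
structure GH (p a B0 I0 : ℕ) (Z : Finset ℕ) : Prop where
  hp : p.Prime
  hp3 : 3 ≤ p
  ha : 1 ≤ a
  hpZ : p ∉ Z
  hZ : ∀ z ∈ Z, 3 ≤ z
  hB0 : 0 < B0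
  he : (p ^ (a + 1) - 1) * (B0 * ∏ z ∈ Z, (z ^ 2 + z + 1)) =
      (p - 1) * p ^ a * (I0 * ∏ z ∈ Z, z ^ 2)
  hpadic : ¬ p ^ (a + 1) ∣ ∏ z ∈ Z, (z ^ 2 + z + 1)

lemma prodF (F : ℕ → ℕ) {J : Finset ℕ} (hJ : J ⊆ Z) :
    (∏ z ∈ Z, F z) = (∏ z ∈ J, F z) * ∏ z ∈ Z \ J, F z := by
  rw [mul_comm, Finset.prod_sdiff hJ]

lemma prodZ_le (J : Finset ℕ) :
    ∏ z ∈ Z \ J, z ^ 2 ≤ ∏ z ∈ Z \ J, (z ^ 2 + z + 1) :=
  Finset.prod_le_prod' fun z _ => by omega

lemma GH.quot_le (h : GH p a B0 I0 Z) (J : Finset ℕ) :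
    ((∏ z ∈ Z \ J, (z ^ 2 + z + 1) : ℕ) : ℝ) / ((∏ z ∈ Z \ J, z ^ 2 : ℕ) : ℝ) ≤
      ∏ z ∈ Z \ J, ((z : ℝ) / (z - 1)) := by
  rw [Nat.cast_prod, Nat.cast_prod, ← Finset.prod_div_distrib]
  apply Finset.prod_le_prod
  · intro z _
    positivity
  · intro z hz
    exact F_le (by have := h.hZ z (Finset.mem_sdiff.1 hz).1; omega)

lemma GH.G_pos (h : GH p a B0 I0 Z) (J : Finset ℕ) : 0 < ∏ z ∈ Z \ J, z ^ 2 :=
  Finset.prod_pos fun z hz => by
    have := h.hZ z (Finset.mem_sdiff.1 hz).1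
    positivity

/-- dichotomy when `p` is used -/
lemma GH.true_step (h : GH p a B0 I0 Z) {J : Finset ℕ} (hJ : J ⊆ Z) {B : ℕ}
    (hB : B = (B0 * ∏ z ∈ J, (z ^ 2 + z + 1)) * p) :
    p ^ (a + 1) ≤ B ∨ ((Z \ J).Nonempty ∧ ∀ y, 2 ≤ y → (∀ z ∈ Z \ J, y ≤ z) →
      y ≤ (Z \ J).card * (B + 1)) := by
  classical
  have hp := h.hp.pos
  set P := p ^ (a + 1) with hP
  have hP0 : 0 < P := pow_pos hp _
  set I := (p - 1) * (I0 * ∏ z ∈ J, z ^ 2) with hI
  set F' := ∏ z ∈ Z \ J, (z ^ 2 + z + 1) with hF'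
  set G' := ∏ z ∈ Z \ J, z ^ 2 with hG'
  have hF0 : 0 < F' := Finset.prod_pos fun z _ => by positivity
  have hG0 : 0 < G' := h.G_pos J
  have hGF : G' ≤ F' := prodZ_le J
  have hB0 : 0 < B := by
    rw [hB]
    have : 0 < ∏ z ∈ J, (z ^ 2 + z + 1) := Finset.prod_pos fun z _ => by positivity
    have := h.hB0
    positivity
  have he : (P - 1) * (B * F') = P * (I * G') := by
    have h1 := h.he
    rw [prodF (fun z => z ^ 2 + z + 1) hJ, prodF (fun z => z ^ 2) hJ] at h1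
    rw [hB, hI, hP]
    calc (p ^ (a + 1) - 1) * ((B0 * ∏ z ∈ J, (z ^ 2 + z + 1)) * p * F')
        = p * ((p ^ (a + 1) - 1) * (B0 * ((∏ z ∈ J, (z ^ 2 + z + 1)) * F'))) := by ring
      _ = p * ((p - 1) * p ^ a * (I0 * ((∏ z ∈ J, z ^ 2) * G'))) := by rw [h1]
      _ = _ := by ring
  rcases lt_trichotomy I B with hlt | heq | hgt
  · left
    have h1 : (P - 1) * (B * F') ≤ P * ((B - 1) * F') := by
      rw [he]
      apply Nat.mul_le_mul_left
      exact Nat.mul_le_mul (by omega) hGF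
    have h2 : F' * ((P - 1) * B) ≤ F' * (P * (B - 1)) := by
      calc F' * ((P - 1) * B) = (P - 1) * (B * F') := by ring
        _ ≤ P * ((B - 1) * F') := h1
        _ = _ := by ring
    have h3 : (P - 1) * B ≤ P * (B - 1) := Nat.le_of_mul_le_mul_left h2 hF0
    obtain ⟨P', hP'⟩ : ∃ P', P = P' + 1 := ⟨P - 1, by omega⟩
    obtain ⟨B', hB'⟩ : ∃ B', B = B' + 1 := ⟨B - 1, by omega⟩
    rw [hP', hB'] at h3 ⊢
    simp only [Nat.add_sub_cancel] at h3
    nlinarith
  · exfalso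
    rw [heq] at he
    have h1 : (P - 1) * F' = P * G' := by
      have : B * ((P - 1) * F') = B * (P * G') := by
        calc B * ((P - 1) * F') = (P - 1) * (B * F') := by ring
          _ = P * (B * G') := he
          _ = _ := by ring
      exact Nat.eq_of_mul_eq_mul_left hB0 this
    have h2 : P ∣ (P - 1) * F' := by
      rw [h1]
      exact dvd_mul_right _ _
    have h3 : Nat.Coprime P (P - 1) := by
      obtain ⟨P', hP'⟩ : ∃ P', P = P' + 1 := ⟨P - 1, by omega⟩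
      rw [hP', Nat.add_sub_cancel]
      simp
    have h4 : P ∣ F' := h3.dvd_of_dvd_mul_left h2
    exact h.hpadic (h4.trans (Finset.prod_dvd_prod_of_subset _ _ _ Finset.sdiff_subset))
  · right
    have hBR : (0 : ℝ) < B := by exact_mod_cast hB0
    have hFR : (0 : ℝ) < F' := by exact_mod_cast hF0
    have hGR : (0 : ℝ) < G' := by exact_mod_cast hG0
    have hPR : (0 : ℝ) < P := by exact_mod_cast hP0
    have heR : ((P : ℝ) - 1) * (B * F') = P * (I * G') := by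
      have h5 := congrArg (fun n : ℕ => (n : ℝ)) he
      push_cast [Nat.cast_sub (show 1 ≤ P by omega)] at h5
      exact h5
    have h6 : (I : ℝ) / B ≤ F' / G' := by
      rw [div_le_div_iff₀ hBR hGR]
      have : (P : ℝ) * (I * G') ≤ P * (F' * B) := by
        rw [← heR]
        nlinarith [mul_pos hBR hFR]
      exact le_of_mul_le_mul_left this hPR
    have h7 : 1 + 1 / (B : ℝ) ≤ (I : ℝ) / B := by
      rw [le_div_iff₀ hBR]
      have : (B : ℝ) + 1 ≤ I := by exact_mod_cast hgt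
      have e : (1 + 1 / (B : ℝ)) * B = B + 1 := by field_simp
      rw [e]
      exact this
    refine ⟨?_, ?_⟩
    · rw [Finset.nonempty_iff_ne_empty]
      intro hemp
      rw [hemp] at hF' hG'
      simp only [Finset.prod_empty] at hF' hG'
      rw [hF', hG'] at h6
      have : (0 : ℝ) < 1 / (B : ℝ) := by positivity
      norm_num at h6
      linarith
    · intro y hy hyz
      exact mul_lem (Z \ J) hy hyz hB0 (h6.trans (h.quot_le J)) h7

/-- dichotomy when `p` is not used -/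
lemma GH.false_step (h : GH p a B0 I0 Z) {J : Finset ℕ} (hJ : J ⊆ Z) {B : ℕ}
    (hB : B = B0 * ∏ z ∈ J, (z ^ 2 + z + 1)) :
    ∀ y, 2 ≤ y → y ≤ p → (∀ z ∈ Z \ J, y ≤ z) → y ≤ (Z.card + 1) * (B + 1) := by
  classical
  intro y hy hyp hyz
  have hp := h.hp.pos
  have hp3 := h.hp3
  set Q := (p - 1) * p ^ a with hQ
  have hPQ : Q < p ^ (a + 1) - 1 ∧ (p ^ (a + 1) - 1) * (p - 1) ≤ Q * p := by
    obtain ⟨q, hq⟩ : ∃ q, p = q + 1 := ⟨p - 1, by omega⟩
    have h1 : 2 ≤ p ^ a := by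
      calc 2 ≤ p := by omega
        _ = p ^ 1 := (pow_one p).symm
        _ ≤ p ^ a := Nat.pow_le_pow_right hp h.ha
    rw [hQ, pow_succ, hq, Nat.add_sub_cancel]
    rw [hq] at h1
    set R := (q + 1) ^ a
    have h2 : R * (q + 1) = q * R + R := by ring
    constructor
    · omega
    · calc (R * (q + 1) - 1) * q ≤ (R * (q + 1)) * q := Nat.mul_le_mul_right _ (Nat.sub_le _ _)
        _ = q * R * (q + 1) := by ring
  set P := p ^ (a + 1) with hP
  set I := (I0 * ∏ z ∈ J, z ^ 2) with hI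
  set F' := ∏ z ∈ Z \ J, (z ^ 2 + z + 1) with hF'
  set G' := ∏ z ∈ Z \ J, z ^ 2 with hG'
  have hF0 : 0 < F' := Finset.prod_pos fun z _ => by positivity
  have hG0 : 0 < G' := h.G_pos J
  have hGF : G' ≤ F' := prodZ_le J
  have hB0 : 0 < B := by
    rw [hB]
    have : 0 < ∏ z ∈ J, (z ^ 2 + z + 1) := Finset.prod_pos fun z _ => by positivity
    have := h.hB0
    positivity
  have hQ0 : 0 < Q := by
    rw [hQ]
    have : 0 < p - 1 := by omega
    positivity
  have he : (P - 1) * (B * F') = Q * (I * G') := by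
    have h1 := h.he
    rw [prodF (fun z => z ^ 2 + z + 1) hJ, prodF (fun z => z ^ 2) hJ] at h1
    rw [hB, hI, hP, hQ]
    calc (p ^ (a + 1) - 1) * ((B0 * ∏ z ∈ J, (z ^ 2 + z + 1)) * F')
        = ((p ^ (a + 1) - 1) * (B0 * ((∏ z ∈ J, (z ^ 2 + z + 1)) * F'))) := by ring
      _ = ((p - 1) * p ^ a * (I0 * ((∏ z ∈ J, z ^ 2) * G'))) := by rw [h1]
      _ = _ := by ring
  have hgt : B < I := by
    by_contra hcon
    push Not at hcon
    have h1 : Q * (I * G') ≤ Q * (B * F') := Nat.mul_le_mul_left _ (Nat.mul_le_mul hcon hGF)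
    have h2 : Q * (B * F') < (P - 1) * (B * F') := Nat.mul_lt_mul_of_pos_right hPQ.1 (by positivity)
    omega
  have hBR : (0 : ℝ) < B := by exact_mod_cast hB0
  have hFR : (0 : ℝ) < F' := by exact_mod_cast hF0
  have hGR : (0 : ℝ) < G' := by exact_mod_cast hG0
  have hQR : (0 : ℝ) < Q := by exact_mod_cast hQ0
  have hpR : (3 : ℝ) ≤ p := by exact_mod_cast hp3
  have h7 : 1 + 1 / (B : ℝ) ≤ (I : ℝ) / B := by
    rw [le_div_iff₀ hBR]
    have : (B : ℝ) + 1 ≤ I := by exact_mod_cast hgt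
    have e : (1 + 1 / (B : ℝ)) * B = B + 1 := by field_simp
    rw [e]
    exact this
  have h6 : (I : ℝ) / B ≤ ((p : ℝ) / (p - 1)) * (F' / G') := by
    rw [div_mul_div_comm, div_le_div_iff₀ hBR (by nlinarith)]
    -- `I (p-1) G' ≤ p F' B`
    have e1 : (I * ((p - 1) * G')) * Q ≤ (p * F' * B) * Q := by
      calc (I * ((p - 1) * G')) * Q = (p - 1) * (Q * (I * G')) := by ring
        _ = (p - 1) * ((P - 1) * (B * F')) := by rw [he]
        _ = ((P - 1) * (p - 1)) * (B * F') := by ring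
        _ ≤ (Q * p) * (B * F') := Nat.mul_le_mul_right _ hPQ.2
        _ = _ := by ring
    have e2 : I * ((p - 1) * G') ≤ p * F' * B := Nat.le_of_mul_le_mul_right e1 hQ0
    have e3 : ((I * ((p - 1) * G') : ℕ) : ℝ) ≤ ((p * F' * B : ℕ) : ℝ) := by exact_mod_cast e2
    push_cast [Nat.cast_sub (show 1 ≤ p by omega)] at e3
    exact e3
  have hpn : p ∉ Z \ J := fun hmem => h.hpZ (Finset.mem_sdiff.1 hmem).1
  have h8 : (I : ℝ) / B ≤ ∏ u ∈ insert p (Z \ J), ((u : ℝ) / (u - 1)) := by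
    rw [Finset.prod_insert hpn]
    refine h6.trans ?_
    apply mul_le_mul_of_nonneg_left (h.quot_le J)
    apply div_nonneg <;> linarith
  have h9 := mul_lem (insert p (Z \ J)) hy (by
    intro u hu
    rw [Finset.mem_insert] at hu
    rcases hu with rfl | hu
    · exact hyp
    · exact hyz u hu) hB0 h8 h7
  rw [Finset.card_insert_of_notMem hpn] at h9
  refine h9.trans (Nat.mul_le_mul_right _ ?_)
  have := Finset.card_le_card (Finset.sdiff_subset : Z \ J ⊆ Z)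
  omega

lemma card_aux {Z J : Finset ℕ} {y n : ℕ} (hy : y ∈ Z \ J) (hn : (Z \ J).card = n + 1) :
    (Z \ insert y J).card = n := by
  have h1 : Z \ insert y J = (Z \ J).erase y := by
    ext x
    simp only [Finset.mem_sdiff, Finset.mem_insert, Finset.mem_erase, not_or]
    tauto
  rw [h1, Finset.card_erase_of_mem hy, hn, Nat.add_sub_cancel]

lemma two_sq_le {z : ℕ} (hz : 3 ≤ z) : z ^ 2 + z + 1 ≤ 2 * z ^ 2 := by nlinarith

/-- numeric step -/
lemma num_cube {c B y : ℕ} (hB : 1 ≤ B) (hy3 : 3 ≤ y) (hy : y ≤ (c + 1) * (B + 1)) :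
    3 * (c + 1) * (B * (y ^ 2 + y + 1)) ≤ (3 * (c + 1) * B) ^ 3 := by
  have h1 : y ≤ 2 * (c + 1) * B := by nlinarith
  calc 3 * (c + 1) * (B * (y ^ 2 + y + 1)) ≤ 3 * (c + 1) * (B * (2 * y ^ 2)) := by
        gcongr
        exact two_sq_le hy3
    _ ≤ 3 * (c + 1) * (B * (2 * (2 * (c + 1) * B) ^ 2)) := by gcongr
    _ = 24 * ((c + 1) * B) ^ 3 := by ring
    _ ≤ 27 * ((c + 1) * B) ^ 3 := Nat.mul_le_mul_right _ (by norm_num)
    _ = _ := by ring

lemma num_sq {c B p : ℕ} (hB : 1 ≤ B) (hy : p ≤ (c + 1) * (B + 1)) :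
    3 * (c + 1) * (B * p) ≤ (3 * (c + 1) * B) ^ 2 := by
  have h1 : p ≤ 2 * (c + 1) * B := by nlinarith
  calc 3 * (c + 1) * (B * p) ≤ 3 * (c + 1) * (B * (2 * (c + 1) * B)) := by gcongr
    _ = 6 * ((c + 1) * B) ^ 2 := by ring
    _ ≤ 9 * ((c + 1) * B) ^ 2 := Nat.mul_le_mul_right _ (by norm_num)
    _ = _ := by ring

/-- stage with `p` used -/
lemma GH.stage_true (h : GH p a B0 I0 Z) : ∀ n : ℕ, ∀ J ⊆ Z, (Z \ J).card = n →
    3 * (Z.card + 1) * ((B0 * ∏ z ∈ J, (z ^ 2 + z + 1)) * p) ≤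
      (3 * (Z.card + 1) * B0) ^ (2 * 3 ^ J.card) →
    p ^ (a + 1) ≤ (3 * (Z.card + 1) * B0) ^ (2 * 3 ^ Z.card) := by
  classical
  intro n
  induction n with
  | zero =>
    intro J hJ hn hb
    rcases h.true_step hJ rfl with h1 | ⟨⟨z, hz⟩, -⟩
    · have h2 : J = Z := by
        apply Finset.Subset.antisymm hJ
        rw [Finset.card_eq_zero, Finset.sdiff_eq_empty_iff_subset] at hn
        exact hn
      rw [h2] at hb h1
      refine h1.trans (le_trans ?_ hb)
      exact Nat.le_mul_of_pos_left _ (by positivity)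
    · rw [Finset.card_eq_zero] at hn
      rw [hn] at hz
      exact absurd hz (Finset.notMem_empty _)
  | succ n ih =>
    intro J hJ hn hb
    have hB00 := h.hB0
    have hK : 1 ≤ 3 * (Z.card + 1) * B0 := Nat.one_le_iff_ne_zero.2 (by positivity)
    rcases h.true_step hJ rfl with h1 | ⟨hne, h1⟩
    · refine h1.trans (le_trans ?_ (hb.trans ?_))
      · exact Nat.le_mul_of_pos_left _ (by positivity)
      · apply Nat.pow_le_pow_right hK
        have := Finset.card_le_card hJ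
        exact Nat.mul_le_mul_left _ (Nat.pow_le_pow_right (by norm_num) this)
    · set y := (Z \ J).min' hne with hy
      have hyZ : y ∈ Z \ J := Finset.min'_mem _ _
      have hyZ' := Finset.mem_sdiff.1 hyZ
      have hy3 : 3 ≤ y := h.hZ y hyZ'.1
      have h2 := h1 y (by omega) (fun z hz => Finset.min'_le _ _ hz)
      have hcard : (Z \ J).card ≤ Z.card := Finset.card_le_card Finset.sdiff_subset
      have h3 : y ≤ (Z.card + 1) * ((B0 * ∏ z ∈ J, (z ^ 2 + z + 1)) * p + 1) :=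
        h2.trans (Nat.mul_le_mul_right _ (by omega))
      apply ih (insert y J) (Finset.insert_subset hyZ'.1 hJ)
      · exact card_aux hyZ hn
      · rw [Finset.prod_insert hyZ'.2, Finset.card_insert_of_notMem hyZ'.2]
        have hpos : 0 < (B0 * ∏ z ∈ J, (z ^ 2 + z + 1)) * p := by
          have : 0 < ∏ z ∈ J, (z ^ 2 + z + 1) := Finset.prod_pos fun z _ => by positivity
          have := h.hp.pos
          positivity
        have h4 := num_cube hpos hy3 h3
        calc 3 * (Z.card + 1) * ((B0 * ((y ^ 2 + y + 1) * ∏ z ∈ J, (z ^ 2 + z + 1))) * p)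
            = 3 * (Z.card + 1) * ((B0 * ∏ z ∈ J, (z ^ 2 + z + 1)) * p * (y ^ 2 + y + 1)) := by ring
          _ ≤ (3 * (Z.card + 1) * ((B0 * ∏ z ∈ J, (z ^ 2 + z + 1)) * p)) ^ 3 := h4
          _ ≤ ((3 * (Z.card + 1) * B0) ^ (2 * 3 ^ J.card)) ^ 3 := Nat.pow_le_pow_left hb 3
          _ = (3 * (Z.card + 1) * B0) ^ (2 * 3 ^ (J.card + 1)) := by
              rw [← pow_mul]
              congr 1
              ring

/-- stage with `p` not used -/
lemma GH.stage_false (h : GH p a B0 I0 Z) : ∀ n : ℕ, ∀ J ⊆ Z, (Z \ J).card = n →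
    3 * (Z.card + 1) * (B0 * ∏ z ∈ J, (z ^ 2 + z + 1)) ≤
      (3 * (Z.card + 1) * B0) ^ (3 ^ J.card) →
    p ^ (a + 1) ≤ (3 * (Z.card + 1) * B0) ^ (2 * 3 ^ Z.card) := by
  classical
  intro n
  induction n with
  | zero =>
    intro J hJ hn hb
    have hB00 := h.hB0
    have hemp : Z \ J = ∅ := Finset.card_eq_zero.1 hn
    have h1 := h.false_step hJ rfl p (by have := h.hp3; omega) le_rfl (by
      intro z hz
      rw [hemp] at hz
      exact absurd hz (Finset.notMem_empty _))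
    have hpos : 0 < (B0 * ∏ z ∈ J, (z ^ 2 + z + 1)) := by
      have : 0 < ∏ z ∈ J, (z ^ 2 + z + 1) := Finset.prod_pos fun z _ => by positivity
      positivity
    apply h.stage_true 0 J hJ hn
    calc 3 * (Z.card + 1) * ((B0 * ∏ z ∈ J, (z ^ 2 + z + 1)) * p)
        ≤ (3 * (Z.card + 1) * (B0 * ∏ z ∈ J, (z ^ 2 + z + 1))) ^ 2 := num_sq hpos h1
      _ ≤ ((3 * (Z.card + 1) * B0) ^ (3 ^ J.card)) ^ 2 := Nat.pow_le_pow_left hb 2
      _ = _ := by rw [← pow_mul]; congr 1; ring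
  | succ n ih =>
    intro J hJ hn hb
    have hB00 := h.hB0
    have hpos : 0 < (B0 * ∏ z ∈ J, (z ^ 2 + z + 1)) := by
      have : 0 < ∏ z ∈ J, (z ^ 2 + z + 1) := Finset.prod_pos fun z _ => by positivity
      positivity
    have hne : (Z \ J).Nonempty := by
      rw [← Finset.card_pos]
      omega
    set y := (Z \ J).min' hne with hy
    have hyZ : y ∈ Z \ J := Finset.min'_mem _ _
    have hyZ' := Finset.mem_sdiff.1 hyZ
    have hy3 : 3 ≤ y := h.hZ y hyZ'.1
    rcases le_or_gt p y with hle | hlt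
    · have h1 := h.false_step hJ rfl p (by have := h.hp3; omega) le_rfl (by
        intro z hz
        exact hle.trans (Finset.min'_le _ _ hz))
      apply h.stage_true (n + 1) J hJ hn
      calc 3 * (Z.card + 1) * ((B0 * ∏ z ∈ J, (z ^ 2 + z + 1)) * p)
          ≤ (3 * (Z.card + 1) * (B0 * ∏ z ∈ J, (z ^ 2 + z + 1))) ^ 2 := num_sq hpos h1
        _ ≤ ((3 * (Z.card + 1) * B0) ^ (3 ^ J.card)) ^ 2 := Nat.pow_le_pow_left hb 2
        _ = _ := by rw [← pow_mul]; congr 1; ring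
    · have h1 := h.false_step hJ rfl y (by omega) hlt.le (fun z hz => Finset.min'_le _ _ hz)
      apply ih (insert y J) (Finset.insert_subset hyZ'.1 hJ)
      · exact card_aux hyZ hn
      · rw [Finset.prod_insert hyZ'.2, Finset.card_insert_of_notMem hyZ'.2]
        have h4 := num_cube hpos hy3 h1
        calc 3 * (Z.card + 1) * (B0 * ((y ^ 2 + y + 1) * ∏ z ∈ J, (z ^ 2 + z + 1)))
            = 3 * (Z.card + 1) * ((B0 * ∏ z ∈ J, (z ^ 2 + z + 1)) * (y ^ 2 + y + 1)) := by ring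
          _ ≤ (3 * (Z.card + 1) * (B0 * ∏ z ∈ J, (z ^ 2 + z + 1))) ^ 3 := h4
          _ ≤ ((3 * (Z.card + 1) * B0) ^ (3 ^ J.card)) ^ 3 := Nat.pow_le_pow_left hb 3
          _ = (3 * (Z.card + 1) * B0) ^ (3 ^ (J.card + 1)) := by
              rw [← pow_mul]
              congr 1

/-- T6 growth -/
theorem GH.growth (h : GH p a B0 I0 Z) :
    p ^ (a + 1) ≤ (3 * (Z.card + 1) * B0) ^ (2 * 3 ^ Z.card) := by
  classical
  apply h.stage_false (Z \ ∅).card ∅ (Finset.empty_subset _) rfl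
  simp

end

end Pool.Agent.OPNEF
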