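import Mathlib

/-! # Euler-free robust Steuerwald theorem: numerics -/

namespace Pool.Agent.OPNEF

lemma three_k_le (k : ℕ) : 3 * k + 1 ≤ 27 ^ k := by
  induction k with
  | zero => simp
  | succ k ih =>
    rw [pow_succ]
    omega

/-- T7 numerics -/
theorem numerics {p a k n B0 X D : ℕ} {Y : ℝ} (hD : 1 ≤ D) (hn : n ≤ 3 * k) (hB0 : 1 ≤ B0)
    (hX1 : 1 ≤ X) (hY : Y = (a + 1) * Real.log p) (hp : 3 ≤ p)
    (hg : p ^ (a + 1) ≤ (3 * (n + 1) * B0) ^ (2 * 3 ^ n))
    (hB : B0 ^ 2 ≤ (2 * D) ^ 2 * (D ^ 3 * X ^ 3) ^ 5)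
    (hX : X ≤ 2 * D ∨ X ≤ a + 1 ∨ Real.log X ^ 2 ≤ 4 * ((a + 1) * Real.log p) * Real.log D) :
    Y ≤ 1000 * 729 ^ k * (1 + Real.log D) := by
  set L := Real.log D with hL
  have hL0 : 0 ≤ L := Real.log_nonneg (by exact_mod_cast hD)
  set x := Real.log X with hx
  have hx0 : 0 ≤ x := Real.log_nonneg (by exact_mod_cast hX1)
  set K : ℝ := 27 ^ k with hK
  have hK1 : 1 ≤ K := one_le_pow₀ (by norm_num)
  have hK2 : (729 : ℝ) ^ k = K ^ 2 := by
    rw [hK, ← pow_mul, mul_comm k 2, pow_mul]
    norm_num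
  have hkK : 3 * (k : ℝ) + 1 ≤ K := by
    have := three_k_le k
    rw [hK]
    exact_mod_cast this
  have hlog2 : Real.log 2 < 0.7 := by
    have := Real.log_two_lt_d9
    linarith
  have hlog2' : 0 < Real.log 2 := Real.log_pos (by norm_num)
  have hlog3 : (1.09 : ℝ) < Real.log 3 := by
    have := Real.log_three_gt_d9
    linarith
  have hlog3' : Real.log 3 < 1.1 := by
    have := Real.log_three_lt_d9
    linarith
  have hDR : (1 : ℝ) ≤ D := by exact_mod_cast hD
  have hXR : (1 : ℝ) ≤ X := by exact_mod_cast hX1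
  have hBR : (1 : ℝ) ≤ B0 := by exact_mod_cast hB0
  -- `B0`
  have hb : Real.log B0 ≤ Real.log 2 + 8.5 * L + 7.5 * x := by
    have h1 : (B0 : ℝ) ^ 2 ≤ (2 * D) ^ 2 * ((D : ℝ) ^ 3 * X ^ 3) ^ 5 := by exact_mod_cast hB
    have h2 := Real.log_le_log (by positivity) h1
    rw [Real.log_pow, Real.log_mul (by positivity) (by positivity), Real.log_pow, Real.log_pow,
      Real.log_mul (by positivity) (by positivity), Real.log_mul (by positivity) (by positivity),
      Real.log_pow, Real.log_pow] at h2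
    push_cast at h2
    linarith
  -- the growth bound
  have hgY : Y ≤ 2 * K * (Real.log 3 + Real.log (n + 1) + Real.log B0) := by
    have h1 : (p : ℝ) ^ (a + 1) ≤ (3 * (n + 1) * B0) ^ (2 * 3 ^ n) := by exact_mod_cast hg
    have hp0 : (0 : ℝ) < p := by
      have : 0 < p := by omega
      exact_mod_cast this
    have h2 := Real.log_le_log (by positivity) h1
    rw [Real.log_pow, Real.log_pow, Real.log_mul (by positivity) (by positivity),
      Real.log_mul (by positivity) (by positivity)] at h2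
    push_cast at h2
    rw [← hY] at h2
    refine h2.trans ?_
    have h3 : (3 : ℝ) ^ n ≤ K := by
      calc (3 : ℝ) ^ n ≤ 3 ^ (3 * k) := pow_le_pow_right₀ (by norm_num) hn
        _ = K := by rw [pow_mul]; norm_num [hK]
    have h4 : 0 ≤ Real.log 3 + Real.log ((n : ℝ) + 1) + Real.log B0 := by
      have : 0 ≤ Real.log ((n : ℝ) + 1) := Real.log_nonneg (by
        have : (0 : ℝ) ≤ n := Nat.cast_nonneg n
        linarith)
      have : 0 ≤ Real.log (B0 : ℝ) := Real.log_nonneg hBR
      linarith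
    exact mul_le_mul_of_nonneg_right (by linarith) h4
  have hn1 : Real.log ((n : ℝ) + 1) ≤ K - 1 := by
    have h1 : (n : ℝ) ≤ 3 * k := by exact_mod_cast hn
    have h2 := Real.log_le_sub_one_of_pos (show (0 : ℝ) < (n : ℝ) + 1 by positivity)
    linarith
  have hmain : Y ≤ 2 * K * (1.8 * K + 8.5 * L + 7.5 * x) := by
    refine hgY.trans ?_
    apply mul_le_mul_of_nonneg_left _ (by linarith)
    nlinarith
  have hYa : (a : ℝ) + 1 ≤ Y := by
    rw [hY]
    have h1 : Real.log 3 ≤ Real.log p := Real.log_le_log (by norm_num) (by exact_mod_cast hp)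
    have h2 : (0 : ℝ) ≤ a := Nat.cast_nonneg a
    nlinarith
  have hKL : K * L ≤ K ^ 2 * L := by
    have : K ≤ K ^ 2 := by nlinarith
    exact mul_le_mul_of_nonneg_right this hL0
  have hKK : K ≤ K ^ 2 := by nlinarith
  rw [hK2]
  rcases hX with h | h | h
  · have h1 : x ≤ Real.log 2 + L := by
      have h2 : (X : ℝ) ≤ 2 * D := by exact_mod_cast h
      have h3 := Real.log_le_log (by positivity) h2
      rw [Real.log_mul (by norm_num) (by positivity)] at h3
      exact h3
    have h2 : Y ≤ 2 * K * (1.8 * K + 8.5 * L + 7.5 * (0.7 + L)) := by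
      refine hmain.trans ?_
      apply mul_le_mul_of_nonneg_left _ (by linarith)
      linarith
    nlinarith
  · have h1 : x ≤ Real.log ((a : ℝ) + 1) := by
      have h2 : (X : ℝ) ≤ (a : ℝ) + 1 := by exact_mod_cast h
      exact Real.log_le_log (by positivity) h2
    have h2 : Real.log ((a : ℝ) + 1) ≤ Y / (30 * K) + (K + 2.5) := by
      have h3 : Real.log (((a : ℝ) + 1) / (30 * K)) ≤ ((a : ℝ) + 1) / (30 * K) - 1 :=
        Real.log_le_sub_one_of_pos (by positivity)
      rw [Real.log_div (by positivity) (by positivity), Real.log_mul (by norm_num) (by positivity)] at h3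
      have h4 : Real.log K ≤ K - 1 := Real.log_le_sub_one_of_pos (by linarith)
      have h5 : Real.log 30 ≤ 3.5 := by
        have h6 : Real.log 32 = 5 * Real.log 2 := by
          rw [show (32 : ℝ) = 2 ^ 5 by norm_num, Real.log_pow]
          norm_num
        have h7 : Real.log 30 ≤ Real.log 32 := Real.log_le_log (by norm_num) (by norm_num)
        linarith
      have h8 : ((a : ℝ) + 1) / (30 * K) ≤ Y / (30 * K) := by
        apply div_le_div_of_nonneg_right hYa (by positivity)
      linarith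
    have h3 : 15 * K * x ≤ Y / 2 + 15 * K * (K + 2.5) := by
      calc 15 * K * x ≤ 15 * K * (Y / (30 * K) + (K + 2.5)) := by
            apply mul_le_mul_of_nonneg_left (h1.trans h2) (by positivity)
        _ = Y / 2 + 15 * K * (K + 2.5) := by
            field_simp
            ring
    nlinarith
  · have h0 : x ^ 2 ≤ 4 * Y * L := by
      rw [hY]
      exact h
    have hY0 : 0 ≤ Y := by
      have : (0 : ℝ) ≤ a := Nat.cast_nonneg a
      linarith
    have h3 : 15 * K * x ≤ Y / 2 + 450 * K ^ 2 * L := by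
      have h4 : (15 * K * x) ^ 2 ≤ (Y / 2 + 450 * K ^ 2 * L) ^ 2 := by
        have h5 : (15 * K * x) ^ 2 ≤ 900 * K ^ 2 * Y * L := by
          calc (15 * K * x) ^ 2 = 225 * K ^ 2 * x ^ 2 := by ring
            _ ≤ 225 * K ^ 2 * (4 * Y * L) := by
                apply mul_le_mul_of_nonneg_left h0 (by positivity)
            _ = _ := by ring
        nlinarith [sq_nonneg (Y / 2 - 450 * K ^ 2 * L)]
      exact (abs_le_of_sq_le_sq' h4 (by positivity)).2
    nlinarith

end Pool.Agent.OPNEF
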