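import Pool.Agent.Lib.MP_f02ea4_nt.EF_Top
import Pool.Agent.Lib.MP_f02ea4_nt.EF_Growth
import Pool.Agent.Lib.MP_f02ea4_nt.EF_Num

/-! # Euler-free robust Steuerwald theorem: assembly -/

namespace Pool.Agent.OPNEF

open Finset ArithmeticFunction

variable {p a D : ℕ} {S : Finset ℕ}

lemma sq_le_five {w : ℕ} (hw : 5 ≤ w) : (w ^ 2 + w + 1) ^ 2 ≤ w ^ 5 := by
  have h1 : 5 * (w ^ 2 + w + 1) ≤ 7 * w ^ 2 := by nlinarith
  have h2 : 25 * (w ^ 2 + w + 1) ^ 2 ≤ 49 * w ^ 4 := by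
    calc 25 * (w ^ 2 + w + 1) ^ 2 = (5 * (w ^ 2 + w + 1)) ^ 2 := by ring
      _ ≤ (7 * w ^ 2) ^ 2 := Nat.pow_le_pow_left h1 2
      _ = _ := by ring
  have h3 : 25 * (5 * w ^ 4) ≤ 25 * w ^ 5 := by
    have : 5 * w ^ 4 ≤ w * w ^ 4 := Nat.mul_le_mul_right _ hw
    calc 25 * (5 * w ^ 4) ≤ 25 * (w * w ^ 4) := Nat.mul_le_mul_left _ this
      _ = _ := by ring
  have h4 : 0 ≤ w ^ 4 := Nat.zero_le _
  omega

lemma Dat.prod_split (F : ℕ → ℕ) : ∏ s ∈ S, F s = (∏ s ∈ Pu S, F s) * ∏ s ∈ Zs S, F s := by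
  classical
  have hsub : Pu S ⊆ S := Finset.filter_subset _ _
  rw [Zs, mul_comm, Finset.prod_sdiff hsub]

/-- bound for `p ^ (a+1)` -/
theorem Dat.bound (h : Dat p a D S) {k : ℕ} (hk : (S.filter (fun s => s % 3 = 1)).card ≤ k) :
    ((a : ℝ) + 1) * Real.log p ≤ 1000 * 729 ^ k * (1 + Real.log D) := by
  classical
  have hDpos := D_pos h
  set B0 := sigma 1 D * ∏ w ∈ Pu S, (w ^ 2 + w + 1) with hB0
  set I0 := 2 * D * ∏ w ∈ Pu S, w ^ 2 with hI0
  have hσ0 : 0 < sigma 1 D := by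
    rw [sigma_one_apply]
    exact Finset.sum_pos (fun d hd => Nat.pos_of_mem_divisors hd)
      ⟨1, Nat.one_mem_divisors.2 hDpos.ne'⟩
  have hB0pos : 0 < B0 := by
    have : 0 < ∏ w ∈ Pu S, (w ^ 2 + w + 1) := Finset.prod_pos fun z _ => by positivity
    rw [hB0]
    positivity
  have hgeom := geom h.hp a
  have hGH : GH p a B0 I0 (Zs S) := by
    refine ⟨h.hp, h.hp2, h.ha, ?_, ?_, hB0pos, ?_, ?_⟩
    · intro hmem
      exact h.hpS (Finset.mem_sdiff.1 hmem).1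
    · intro z hz
      have := h.hS2 z (Finset.mem_sdiff.1 hz).1
      omega
    · have h1 := h.he
      rw [Dat.prod_split (S := S) (fun s => s ^ 2 + s + 1), Dat.prod_split (S := S) (fun s => s ^ 2)] at h1
      have h2 : p ^ (a + 1) - 1 = (p - 1) * sigma 1 (p ^ a) := by omega
      rw [h2, hB0, hI0]
      calc (p - 1) * sigma 1 (p ^ a) *
            (sigma 1 D * (∏ w ∈ Pu S, (w ^ 2 + w + 1)) * ∏ z ∈ Zs S, (z ^ 2 + z + 1))
          = (p - 1) * (sigma 1 (p ^ a) * sigma 1 D *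
            ((∏ w ∈ Pu S, (w ^ 2 + w + 1)) * ∏ z ∈ Zs S, (z ^ 2 + z + 1))) := by ring
        _ = _ := by rw [h1]; ring
    · intro hd
      have h1 : ∏ z ∈ Zs S, (z ^ 2 + z + 1) ∣ 2 * (p ^ a * D * ∏ s ∈ S, s ^ 2) :=
        (Finset.prod_dvd_prod_of_subset _ _ _ Finset.sdiff_subset).trans h.prod_dvd
      have h2 := hd.trans h1
      have h3 : 2 * (p ^ a * D * ∏ s ∈ S, s ^ 2) = p ^ a * (2 * D * ∏ s ∈ S, s ^ 2) := by ring
      rw [h3, pow_succ] at h2
      have h4 : p ∣ 2 * D * ∏ s ∈ S, s ^ 2 :=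
        (Nat.mul_dvd_mul_iff_left (pow_pos h.hp.pos a)).1 h2
      rcases (h.hp.dvd_mul).1 h4 with h5 | h5
      · rcases (h.hp.dvd_mul).1 h5 with h6 | h6
        · have := Nat.le_of_dvd (by norm_num) h6
          have := h.hp2
          omega
        · have := Nat.Coprime.eq_one_of_dvd h.hpD h6
          exact h.hp.one_lt.ne' this
      · obtain ⟨s, hs, hps⟩ := (Prime.dvd_finsetProd_iff h.hp.prime _).1 h5
        have := (Nat.prime_dvd_prime_iff_eq h.hp (h.hS s hs)).1 (h.hp.dvd_of_dvd_pow hps)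
        exact h.hpS (this ▸ hs)
  have hgrow := hGH.growth
  have hcard : (Zs S).card ≤ 3 * k := (card_Zs h).trans (Nat.mul_le_mul_left _ hk)
  -- the largest efficient element
  set Ef := (Pu S).filter (fun w => A p w ^ 3 ≤ w) with hEf
  obtain ⟨X, hX1, hXle, hXtop⟩ : ∃ X : ℕ, 1 ≤ X ∧ (∀ w ∈ Pu S, A p w ^ 3 ≤ w → w ≤ X) ∧
      (X ≤ 2 * D ∨ X ≤ a + 1 ∨ Real.log X ^ 2 ≤ 4 * ((a + 1) * Real.log p) * Real.log D) := by
    rcases Ef.eq_empty_or_nonempty with hemp | hne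
    · refine ⟨1, le_rfl, ?_, Or.inl (by omega)⟩
      intro w hw hw3
      have : w ∈ Ef := Finset.mem_filter.2 ⟨hw, hw3⟩
      rw [hemp] at this
      exact absurd this (Finset.notMem_empty _)
    · have hmem := Finset.max'_mem Ef hne
      have hmem' := (Finset.mem_filter.1 hmem).1
      refine ⟨Ef.max' hne, ?_, ?_, top h hmem'⟩
      · have := h.hS2 _ (mem_Pu.1 hmem').1
        omega
      · intro w hw hw3
        exact Finset.le_max' Ef w (Finset.mem_filter.2 ⟨hw, hw3⟩)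
  have hB : B0 ^ 2 ≤ (2 * D) ^ 2 * (D ^ 3 * X ^ 3) ^ 5 := by
    rw [hB0, mul_pow]
    apply Nat.mul_le_mul (Nat.pow_le_pow_left (sigma_D_le h) 2)
    calc (∏ w ∈ Pu S, (w ^ 2 + w + 1)) ^ 2 = ∏ w ∈ Pu S, (w ^ 2 + w + 1) ^ 2 :=
          (Finset.prod_pow _ _ _).symm
      _ ≤ ∏ w ∈ Pu S, w ^ 5 := Finset.prod_le_prod' fun w hw =>
          sq_le_five (h.hS2 w (mem_Pu.1 hw).1)
      _ = (∏ w ∈ Pu S, w) ^ 5 := Finset.prod_pow _ _ _
      _ ≤ _ := Nat.pow_le_pow_left (prod_Pu h hX1 hXle) 5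
  exact numerics hDpos hcard hB0pos hX1 rfl h.hp2 hgrow hB hXtop

/-- Construction of the data. -/
theorem dat_of {N p a D m : ℕ} (hN : N.Perfect) (hodd : Odd N) (h : N = p ^ a * D * m ^ 2)
    (hp : p.Prime) (ha : 1 ≤ a) (hm : Squarefree m) (hpD : p.Coprime D) (hpm : p.Coprime m)
    (hDm : D.Coprime m) (h3 : ¬ 3 ∣ m) : Dat p a D m.primeFactors := by
  have hoddN : Odd (p ^ a * D * m ^ 2) := h ▸ hodd
  have hodd1 : Odd (p ^ a * D) := (Nat.odd_mul.1 hoddN).1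
  have hoddm : Odd m := by
    have := (Nat.odd_mul.1 hoddN).2
    exact this.of_dvd_nat (dvd_pow_self m two_ne_zero)
  have hoddD : Odd D := (Nat.odd_mul.1 hodd1).2
  have hoddp : Odd p := by
    have := (Nat.odd_mul.1 hodd1).1
    exact this.of_dvd_nat (dvd_pow_self p (by omega))
  refine ⟨hp, ?_, ha, hoddD, ?_, ?_, ?_, hpD, ?_, ?_⟩
  · have := hp.two_le
    obtain ⟨j, hj⟩ := hoddp
    omega
  · intro s hs
    exact Nat.prime_of_mem_primeFactors hs
  · intro s hs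
    have hsp := Nat.prime_of_mem_primeFactors hs
    have hsd := Nat.dvd_of_mem_primeFactors hs
    have hso : Odd s := hoddm.of_dvd_nat hsd
    have h2 := hsp.two_le
    have h33 : s ≠ 3 := fun e => h3 (e ▸ hsd)
    have h4 : s ≠ 4 := by
      rintro rfl
      exact absurd hso (by decide)
    obtain ⟨j, hj⟩ := hso
    omega
  · intro hmem
    have := Nat.dvd_of_mem_primeFactors hmem
    exact hp.one_lt.ne' (Nat.Coprime.eq_one_of_dvd hpm this)
  · intro s hs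
    exact Nat.Coprime.coprime_dvd_left (Nat.dvd_of_mem_primeFactors hs) hDm.symm
  · have h1 : sigma 1 N = 2 * N := by
      rw [sigma_one_apply]
      exact (Nat.perfect_iff_sum_divisors_eq_two_mul hN.2).1 hN
    rw [h] at h1
    have hc1 : Nat.Coprime (p ^ a * D) (m ^ 2) := by
      apply Nat.Coprime.pow_right
      exact Nat.Coprime.mul_left (Nat.Coprime.pow_left a hpm) hDm
    rw [isMultiplicative_sigma.map_mul_of_coprime hc1,
      isMultiplicative_sigma.map_mul_of_coprime (Nat.Coprime.pow_left a hpD),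
      OPNRS.sigma_sq hm] at h1
    rw [h1, Finset.prod_pow, Nat.prod_primeFactors_of_squarefree hm]

end Pool.Agent.OPNEF
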