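import Pool.Agent.Lib.MP_f02ea4_nt.RS_T

/-! # Euler-free robust Steuerwald theorem: pure elements -/

namespace Pool.Agent.OPNEF

open Finset ArithmeticFunction

/-- The data: `N = p ^ a * D * ∏ s ∈ S, s ^ 2` is an odd perfect number, `p`, `D`, `S` pairwise
coprime, `3 ∉ S`. -/
structure Dat (p a D : ℕ) (S : Finset ℕ) : Prop where
  hp : p.Prime
  hp2 : 3 ≤ p
  ha : 1 ≤ a
  hD : Odd D
  hS : ∀ s ∈ S, s.Prime
  hS2 : ∀ s ∈ S, 5 ≤ s
  hpS : p ∉ S
  hpD : Nat.Coprime p D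
  hDS : ∀ s ∈ S, Nat.Coprime s D
  he : sigma 1 (p ^ a) * sigma 1 D * ∏ s ∈ S, (s ^ 2 + s + 1) =
    2 * (p ^ a * D * ∏ s ∈ S, s ^ 2)

/-- elements of `S2` paying some element of `S` -/
def E2 (S : Finset ℕ) : Finset ℕ :=
  S.filter (fun w => w % 3 = 2 ∧ ∃ t ∈ S, t ∣ w ^ 2 + w + 1)

/-- pure elements of `S2` -/
def Pu (S : Finset ℕ) : Finset ℕ :=
  S.filter (fun w => w % 3 = 2 ∧ ¬ ∃ t ∈ S, t ∣ w ^ 2 + w + 1)

/-- The special nodes -/
def Zs (S : Finset ℕ) : Finset ℕ := S \ Pu S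

/-- The cofactor -/
def A (p w : ℕ) : ℕ := (w ^ 2 + w + 1) / p ^ (w ^ 2 + w + 1).factorization p

variable {p a D : ℕ} {S : Finset ℕ}

lemma mem_Pu {w : ℕ} : w ∈ Pu S ↔ w ∈ S ∧ w % 3 = 2 ∧ ¬ ∃ t ∈ S, t ∣ w ^ 2 + w + 1 := by
  simp [Pu]

lemma Dat.ne {h : Dat p a D S} {s : ℕ} (hs : s ∈ S) : s ≠ p := fun e => h.hpS (e ▸ hs)

lemma Dat.odd (h : Dat p a D S) {s : ℕ} (hs : s ∈ S) : Odd s := by
  rcases (h.hS s hs).eq_two_or_odd' with h2 | h2
  · have := h.hS2 s hs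
    omega
  · exact h2

lemma Dat.mod (h : Dat p a D S) {s : ℕ} (hs : s ∈ S) : s % 3 = 1 ∨ s % 3 = 2 := by
  have h5 := h.hS2 s hs
  have hsp := h.hS s hs
  have : s % 3 ≠ 0 := by
    intro h0
    have := (Nat.prime_dvd_prime_iff_eq Nat.prime_three hsp).1 (Nat.dvd_of_mod_eq_zero h0)
    omega
  omega

lemma Dat.t_mod (h : Dat p a D S) {t s : ℕ} (ht : t ∈ S) (hd : t ∣ s ^ 2 + s + 1) :
    t % 3 = 1 := by
  have h5 := h.hS2 t ht
  exact OPNRS.mod_three (h.hS t ht) hd (by omega)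

lemma Dat.w_not_dvd (h : Dat p a D S) {w : ℕ} (hw : w ∈ S) (hw2 : w % 3 = 2) :
    ¬ w ∣ ∏ s ∈ S, (s ^ 2 + s + 1) := by
  intro hd
  obtain ⟨s, -, hs⟩ := (Prime.dvd_finsetProd_iff (h.hS w hw).prime _).1 hd
  have := h.t_mod hw hs
  omega

/-- `t ^ 3` does not divide `2 N`. -/
lemma Dat.not_cube (h : Dat p a D S) {t : ℕ} (ht : t ∈ S) :
    ¬ t ^ 3 ∣ 2 * (p ^ a * D * ∏ s ∈ S, s ^ 2) := by
  classical
  intro hd
  have htp := h.hS t ht
  rw [← Finset.mul_prod_erase S (fun s => s ^ 2) ht] at hd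
  have h1 : 2 * (p ^ a * D * (t ^ 2 * ∏ s ∈ S.erase t, s ^ 2)) =
      t ^ 2 * (2 * (p ^ a * D * ∏ s ∈ S.erase t, s ^ 2)) := by ring
  rw [h1, pow_succ] at hd
  have h2 : t ∣ 2 * (p ^ a * D * ∏ s ∈ S.erase t, s ^ 2) :=
    (Nat.mul_dvd_mul_iff_left (pow_pos htp.pos 2)).1 hd
  rcases (htp.dvd_mul).1 h2 with h3 | h3
  · have := Nat.le_of_dvd (by norm_num) h3
    have := h.hS2 t ht
    omega
  rcases (htp.dvd_mul).1 h3 with h4 | h4
  · rcases (htp.dvd_mul).1 h4 with h5 | h5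
    · have := (Nat.prime_dvd_prime_iff_eq htp h.hp).1 (htp.dvd_of_dvd_pow h5)
      exact h.hpS (this ▸ ht)
    · have := Nat.Coprime.eq_one_of_dvd (h.hDS t ht) h5
      exact htp.one_lt.ne' this
  · obtain ⟨s, hs, hts⟩ := (Prime.dvd_finsetProd_iff htp.prime _).1 h4
    rw [Finset.mem_erase] at hs
    have := (Nat.prime_dvd_prime_iff_eq htp (h.hS s hs.2)).1 (htp.dvd_of_dvd_pow hts)
    exact hs.1 this.symm

lemma Dat.prod_dvd (h : Dat p a D S) :
    ∏ s ∈ S, (s ^ 2 + s + 1) ∣ 2 * (p ^ a * D * ∏ s ∈ S, s ^ 2) := by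
  rw [← h.he]
  exact dvd_mul_left _ _

/-- every element of `S` is paid by at most two elements of `S` -/
lemma Dat.card_payers (h : Dat p a D S) {t : ℕ} (ht : t ∈ S) :
    (S.filter (fun s => t ∣ s ^ 2 + s + 1)).card ≤ 2 := by
  by_contra hcon
  push Not at hcon
  apply h.not_cube ht
  refine dvd_trans ?_ h.prod_dvd
  have h1 : t ^ (S.filter (fun s => t ∣ s ^ 2 + s + 1)).card ∣
      ∏ s ∈ S.filter (fun s => t ∣ s ^ 2 + s + 1), (s ^ 2 + s + 1) := by
    rw [← Finset.prod_const]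
    apply Finset.prod_dvd_prod_of_dvd
    intro s hs
    exact (Finset.mem_filter.1 hs).2
  exact (pow_dvd_pow t hcon).trans
    (h1.trans (Finset.prod_dvd_prod_of_subset _ _ _ (Finset.filter_subset _ _)))

/-- T1 -/
theorem card_Zs (h : Dat p a D S) : (Zs S).card ≤ 3 * (S.filter (fun s => s % 3 = 1)).card := by
  classical
  have hsub : Zs S ⊆ S.filter (fun s => s % 3 = 1) ∪ E2 S := by
    intro s hs
    rw [Zs, Finset.mem_sdiff] at hs
    rw [Finset.mem_union, Finset.mem_filter, E2, Finset.mem_filter]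
    rcases h.mod hs.1 with h1 | h1
    · exact Or.inl ⟨hs.1, h1⟩
    · right
      refine ⟨hs.1, h1, ?_⟩
      by_contra hcon
      exact hs.2 (mem_Pu.2 ⟨hs.1, h1, hcon⟩)
  have hE : (E2 S).card ≤ 2 * (S.filter (fun s => s % 3 = 1)).card := by
    have hex : ∀ w ∈ E2 S, ∃ t ∈ S, t ∣ w ^ 2 + w + 1 := by
      intro w hw
      rw [E2, Finset.mem_filter] at hw
      exact hw.2.2
    choose! f hf hfd using hex
    apply Finset.card_le_mul_card_image_of_maps_to (f := f)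
    · intro w hw
      rw [Finset.mem_filter]
      exact ⟨hf w hw, h.t_mod (hf w hw) (hfd w hw)⟩
    · intro t ht
      rw [Finset.mem_filter] at ht
      refine le_trans (Finset.card_le_card ?_) (h.card_payers ht.1)
      intro w hw
      rw [Finset.mem_filter] at hw ⊢
      have hwS : w ∈ S := by
        have := hw.1
        rw [E2, Finset.mem_filter] at this
        exact this.1
      exact ⟨hwS, hw.2 ▸ hfd w hw.1⟩
  have := (Finset.card_le_card hsub).trans (Finset.card_union_le _ _)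
  omega

theorem A_spec (w : ℕ) : w ^ 2 + w + 1 = p ^ (w ^ 2 + w + 1).factorization p * A p w :=
  (Nat.ordProj_mul_ordCompl_eq_self _ _).symm

lemma A_dvd (w : ℕ) : A p w ∣ w ^ 2 + w + 1 := Nat.ordCompl_dvd _ _

lemma A_pos (w : ℕ) : 0 < A p w := Nat.ordCompl_pos p (by positivity)

lemma A_coprime (hp : p.Prime) (w : ℕ) : Nat.Coprime p (A p w) :=
  Nat.coprime_ordCompl hp (by positivity)

lemma odd_F (w : ℕ) : Odd (w ^ 2 + w + 1) := by
  have : Even (w * (w + 1)) := Nat.even_mul_succ_self w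
  have h2 : w ^ 2 + w + 1 = w * (w + 1) + 1 := by ring
  rw [h2]
  exact this.add_one

/-- T2 -/
theorem prod_A_dvd (h : Dat p a D S) : ∏ w ∈ Pu S, A p w ∣ D := by
  have h1 : ∏ w ∈ Pu S, A p w ∣ 2 * (p ^ a * D * ∏ s ∈ S, s ^ 2) :=
    (Finset.prod_dvd_prod_of_dvd _ _ fun w _ => A_dvd w).trans
      ((Finset.prod_dvd_prod_of_subset _ _ _ (Finset.filter_subset _ _)).trans h.prod_dvd)
  have h2 : 2 * (p ^ a * D * ∏ s ∈ S, s ^ 2) = (2 * p ^ a * ∏ s ∈ S, s ^ 2) * D := by ring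
  rw [h2] at h1
  refine Nat.Coprime.dvd_of_dvd_mul_left ?_ h1
  apply Nat.Coprime.prod_left
  intro w hw
  rw [mem_Pu] at hw
  have hodd : Odd (A p w) := (odd_F w).of_dvd_nat (A_dvd w)
  apply Nat.Coprime.mul_right
  · apply Nat.Coprime.mul_right
    · exact (Nat.coprime_two_right).2 hodd
    · exact Nat.Coprime.pow_right a (A_coprime h.hp w).symm
  · apply Nat.Coprime.prod_right
    intro s hs
    apply Nat.Coprime.pow_right
    rw [Nat.coprime_comm, (h.hS s hs).coprime_iff_not_dvd]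
    intro hd
    exact hw.2.2 ⟨s, hs, hd.trans (A_dvd w)⟩

lemma D_pos (h : Dat p a D S) : 0 < D := h.hD.pos

/-- `p ^ b ≤ w + w' + 1`. -/
lemma pow_le (hp : p.Prime) {w w' b : ℕ} (hw : w % 3 = 2) (hlt : w < w')
    (h1 : p ^ b ∣ w ^ 2 + w + 1) (h2 : p ^ b ∣ w' ^ 2 + w' + 1) : p ^ b ≤ w + w' + 1 := by
  rcases Nat.eq_zero_or_pos b with rfl | hb
  · simp
  obtain ⟨d, rfl⟩ : ∃ d, w' = w + d := ⟨w' - w, by omega⟩
  have hd : 0 < d := by omega
  have h3 : p ^ b ∣ d * (2 * w + d + 1) := by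
    have : (w + d) ^ 2 + (w + d) + 1 = (w ^ 2 + w + 1) + d * (2 * w + d + 1) := by ring
    rw [this] at h2
    exact (Nat.dvd_add_right h1).1 h2
  have hpn : p ∣ w ^ 2 + w + 1 := (dvd_pow_self p hb.ne').trans h1
  by_cases hpd : p ∣ d
  · -- then `p` does not divide the other factor
    have hnd : ¬ p ∣ 2 * w + d + 1 := by
      intro h4
      have h5 : p ∣ 2 * w + 1 := by
        have : 2 * w + d + 1 = (2 * w + 1) + d := by ring
        rw [this] at h4
        exact (Nat.dvd_add_left hpd).1 h4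
      have h6 : p ∣ 3 := by
        have h7 : p ∣ 4 * (w ^ 2 + w + 1) := dvd_mul_of_dvd_right hpn 4
        have h8 : 4 * (w ^ 2 + w + 1) = (2 * w + 1) * (2 * w + 1) + 3 := by ring
        rw [h8] at h7
        exact (Nat.dvd_add_right (dvd_mul_of_dvd_left h5 _)).1 h7
      have h9 : p = 3 := (Nat.prime_dvd_prime_iff_eq hp Nat.prime_three).1 h6
      rw [h9] at hpn
      have : (w ^ 2 + w + 1) % 3 = 1 := by
        simp [Nat.add_mod, Nat.pow_mod, hw]
      omega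
    have h10 : Nat.Coprime (p ^ b) (2 * w + d + 1) :=
      Nat.Coprime.pow_left b ((hp.coprime_iff_not_dvd).2 hnd)
    have h11 : p ^ b ∣ d := h10.dvd_of_dvd_mul_right h3
    have := Nat.le_of_dvd hd h11
    omega
  · have h10 : Nat.Coprime (p ^ b) d :=
      Nat.Coprime.pow_left b ((hp.coprime_iff_not_dvd).2 hpd)
    have h11 : p ^ b ∣ 2 * w + d + 1 := h10.dvd_of_dvd_mul_left h3
    have := Nat.le_of_dvd (by omega) h11
    omega

/-- T3 -/
theorem gap (h : Dat p a D S) {w w' : ℕ} (hw : w ∈ Pu S) (hw' : w' ∈ Pu S) (hlt : w < w')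
    (h1 : A p w ^ 3 ≤ w) (h2 : A p w' ^ 3 ≤ w') : w ^ 3 ≤ w' ^ 2 := by
  rw [mem_Pu] at hw hw'
  have h5 := h.hS2 w hw.1
  set b := (w ^ 2 + w + 1).factorization p with hb
  set b' := (w' ^ 2 + w' + 1).factorization p with hb'
  have hs := A_spec (p := p) w
  have hs' := A_spec (p := p) w'
  rw [← hb] at hs
  rw [← hb'] at hs'
  set α := A p w
  set α' := A p w'
  rcases le_or_gt b b' with hle | hgt
  · have h3 : p ^ b ≤ w + w' + 1 := pow_le h.hp hw.2.1 hlt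
      (by rw [hs]; exact dvd_mul_right _ _)
      (by rw [hs']; exact (pow_dvd_pow p hle).trans (dvd_mul_right _ _))
    have h4 : w ^ 2 + w + 1 ≤ (w + w' + 1) * α := by
      rw [hs]
      exact Nat.mul_le_mul_right _ h3
    have hα : 0 < α := A_pos w
    rcases Nat.lt_or_ge α 2 with h6 | h6
    · have h7 : α = 1 := by omega
      rw [h7] at h4
      have h8 : w ^ 2 ≤ w' := by omega
      calc w ^ 3 ≤ w ^ 4 := Nat.pow_le_pow_right (by omega) (by norm_num)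
        _ = (w ^ 2) ^ 2 := by ring
        _ ≤ w' ^ 2 := Nat.pow_le_pow_left h8 2
    · have h7 : 4 * α ≤ w := by
        calc 4 * α = 2 ^ 2 * α := by norm_num
          _ ≤ α ^ 2 * α := Nat.mul_le_mul_right _ (Nat.pow_le_pow_left h6 2)
          _ = α ^ 3 := by ring
          _ ≤ w := h1
      have h8 : 2 * α ^ 2 ≤ w := by
        calc 2 * α ^ 2 ≤ α * α ^ 2 := Nat.mul_le_mul_right _ h6
          _ = α ^ 3 := by ring
          _ ≤ w := h1
      have h9 : 3 * w ^ 2 ≤ 4 * (w' * α) := by nlinarith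
      have h10 : 9 * w ^ 4 ≤ 16 * (w' ^ 2 * α ^ 2) := by
        calc 9 * w ^ 4 = (3 * w ^ 2) ^ 2 := by ring
          _ ≤ (4 * (w' * α)) ^ 2 := Nat.pow_le_pow_left h9 2
          _ = _ := by ring
      have h11 : 9 * w ^ 4 ≤ 8 * (w' ^ 2 * w) := by
        calc 9 * w ^ 4 ≤ 16 * (w' ^ 2 * α ^ 2) := h10
          _ = 8 * (w' ^ 2 * (2 * α ^ 2)) := by ring
          _ ≤ 8 * (w' ^ 2 * w) := by gcongr
      have h12 : w * (8 * w ^ 3) ≤ w * (8 * w' ^ 2) := by nlinarith [pow_pos (show 0 < w by omega) 4]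
      have h13 : 8 * w ^ 3 ≤ 8 * w' ^ 2 := Nat.le_of_mul_le_mul_left h12 (by omega)
      omega
  · exfalso
    have h3 : p ^ b' ≤ w + w' + 1 := pow_le h.hp hw.2.1 hlt
      (by rw [hs]; exact (pow_dvd_pow p hgt.le).trans (dvd_mul_right _ _))
      (by rw [hs']; exact dvd_mul_right _ _)
    have h4 : w' ^ 2 + w' + 1 ≤ (2 * w') * α' := by
      rw [hs']
      exact Nat.mul_le_mul_right _ (by omega)
    have h6 : w' + 1 ≤ 2 * α' := by
      by_contra hcon
      push Not at hcon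
      have : 2 * α' ≤ w' := by omega
      nlinarith
    have h7 : 3 ≤ α' := by omega
    have h8 : 9 * α' ≤ α' ^ 3 := by
      calc 9 * α' = 3 ^ 2 * α' := by norm_num
        _ ≤ α' ^ 2 * α' := Nat.mul_le_mul_right _ (Nat.pow_le_pow_left h7 2)
        _ = α' ^ 3 := by ring
    omega

/-- products of rapidly growing sets -/
lemma prod_grow (F : Finset ℕ) : ∀ X : ℕ, (∀ w ∈ F, 1 ≤ w) → (∀ w ∈ F, w ≤ X) →
    (∀ w ∈ F, ∀ w' ∈ F, w < w' → w ^ 3 ≤ w' ^ 2) → 1 ≤ X → ∏ w ∈ F, w ≤ X ^ 3 := by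
  classical
  induction F using Finset.induction_on_max with
  | empty =>
    intro X _ _ _ hX
    simp only [Finset.prod_empty]
    exact Nat.one_le_pow _ _ hX
  | insert m F hm ih =>
    intro X h1 h2 h3 hX
    rw [Finset.prod_insert (fun hmem => lt_irrefl _ (hm m hmem))]
    have hm1 : 1 ≤ m := h1 m (Finset.mem_insert_self _ _)
    have hmX : m ≤ X := h2 m (Finset.mem_insert_self _ _)
    have h4 : ∏ w ∈ F, w ≤ m ^ 2 := by
      rcases F.eq_empty_or_nonempty with rfl | hne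
      · simp only [Finset.prod_empty]
        exact Nat.one_le_pow _ _ hm1
      · set m' := F.max' hne
        have hm' : m' ∈ F := F.max'_mem hne
        have h5 := ih m' (fun w hw => h1 w (Finset.mem_insert_of_mem hw))
          (fun w hw => F.le_max' w hw)
          (fun w hw w' hw' => h3 w (Finset.mem_insert_of_mem hw) w' (Finset.mem_insert_of_mem hw'))
          (h1 m' (Finset.mem_insert_of_mem hm'))
        exact h5.trans (h3 m' (Finset.mem_insert_of_mem hm') m (Finset.mem_insert_self _ _)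
          (hm m' hm'))
    calc m * ∏ w ∈ F, w ≤ m * m ^ 2 := Nat.mul_le_mul_left _ h4
      _ = m ^ 3 := by ring
      _ ≤ X ^ 3 := Nat.pow_le_pow_left hmX 3

/-- T5 -/
theorem prod_Pu (h : Dat p a D S) {X : ℕ} (hX0 : 1 ≤ X)
    (hX : ∀ w ∈ Pu S, A p w ^ 3 ≤ w → w ≤ X) :
    ∏ w ∈ Pu S, w ≤ D ^ 3 * X ^ 3 := by
  rw [← Finset.prod_filter_mul_prod_filter_not (Pu S) (fun w => ¬ A p w ^ 3 ≤ w) (fun w => w)]
  have h1 : ∏ w ∈ (Pu S).filter (fun w => ¬ A p w ^ 3 ≤ w), w ≤ D ^ 3 := by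
    calc ∏ w ∈ (Pu S).filter (fun w => ¬ A p w ^ 3 ≤ w), w
        ≤ ∏ w ∈ (Pu S).filter (fun w => ¬ A p w ^ 3 ≤ w), A p w ^ 3 :=
          Finset.prod_le_prod' fun w hw => by
            have := (Finset.mem_filter.1 hw).2
            omega
      _ ≤ ∏ w ∈ Pu S, A p w ^ 3 := by
          apply Finset.prod_le_prod_of_subset_of_one_le' (Finset.filter_subset _ _)
          intro w _ _
          exact Nat.one_le_pow _ _ (A_pos w)
      _ = (∏ w ∈ Pu S, A p w) ^ 3 := Finset.prod_pow _ _ _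
      _ ≤ D ^ 3 := Nat.pow_le_pow_left (Nat.le_of_dvd (D_pos h) (prod_A_dvd h)) 3
  have h2 : ∏ w ∈ (Pu S).filter (fun w => ¬ ¬ A p w ^ 3 ≤ w), w ≤ X ^ 3 := by
    apply prod_grow _ X _ _ _ hX0
    · intro w hw
      rw [Finset.mem_filter, mem_Pu] at hw
      exact (h.hS w hw.1.1).pos
    · intro w hw
      rw [Finset.mem_filter] at hw
      exact hX w hw.1 (not_not.1 hw.2)
    · intro w hw w' hw' hlt
      rw [Finset.mem_filter] at hw hw'
      exact gap h hw.1 hw'.1 hlt (not_not.1 hw.2) (not_not.1 hw'.2)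
  exact Nat.mul_le_mul h1 h2

end Pool.Agent.OPNEF
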