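import Pool.Agent.Lib.MP_f02ea4_nt.EF_Pure

/-! # Euler-free robust Steuerwald theorem: the largest efficient element -/

namespace Pool.Agent.OPNEF

open Finset ArithmeticFunction

variable {p a D : ℕ} {S : Finset ℕ}

/-- Counting monomials among the roots of unity modulo a prime. -/
lemma count_monomials {w p A n : ℕ} (hw : w.Prime) (hp : p.Prime) (hA : 2 ≤ A)
    (hpA : ¬ p ∣ A) (hn : 0 < n) (h1 : (p : ZMod w) ^ n = 1) (h2 : (A : ZMod w) ^ n = 1) :
    Real.log w ^ 2 ≤ 4 * (n * Real.log p) * Real.log A := by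
  classical
  have := Fact.mk hw
  have hp2 := hp.two_le
  have hLp : 0 < Real.log p := Real.log_pos (by exact_mod_cast hp2)
  have hLA : 0 < Real.log A := Real.log_pos (by exact_mod_cast hA)
  have hLw : 0 ≤ Real.log w := Real.log_nonneg (by exact_mod_cast hw.one_lt.le)
  have hwp : ¬ w ∣ p := by
    intro hd
    have : (p : ZMod w) = 0 := (ZMod.natCast_eq_zero_iff p w).2 hd
    rw [this, zero_pow hn.ne'] at h1
    exact zero_ne_one h1
  have hwA : ¬ w ∣ A := by
    intro hd
    have : (A : ZMod w) = 0 := (ZMod.natCast_eq_zero_iff A w).2 hd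
    rw [this, zero_pow hn.ne'] at h2
    exact zero_ne_one h2
  set u := ⌊Real.log w / (2 * Real.log p)⌋₊ with hu
  set v := ⌊Real.log w / (2 * Real.log A)⌋₊ with hv
  -- the monomials are `< w`
  have hlt : ∀ i ≤ u, ∀ j ≤ v, p ^ i * A ^ j < w := by
    intro i hi j hj
    have hne : p ^ i * A ^ j ≠ w := by
      intro he
      have : w ∣ p ^ i * A ^ j := by rw [he]
      rcases (hw.dvd_mul).1 this with h | h
      · exact hwp (hw.dvd_of_dvd_pow h)
      · exact hwA (hw.dvd_of_dvd_pow h)
    refine lt_of_le_of_ne ?_ hne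
    have h3 : Real.log ((p ^ i * A ^ j : ℕ) : ℝ) ≤ Real.log w := by
      push_cast
      rw [Real.log_mul (by positivity) (by positivity), Real.log_pow, Real.log_pow]
      have h4 : (i : ℝ) ≤ Real.log w / (2 * Real.log p) :=
        le_trans (by exact_mod_cast hi) (Nat.floor_le (by positivity))
      have h5 : (j : ℝ) ≤ Real.log w / (2 * Real.log A) :=
        le_trans (by exact_mod_cast hj) (Nat.floor_le (by positivity))
      rw [le_div_iff₀ (by positivity)] at h4 h5
      nlinarith
    have h6 : ((p ^ i * A ^ j : ℕ) : ℝ) ≤ w := by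
      refine (Real.log_le_log_iff ?_ ?_).1 h3
      · have : 0 < p ^ i * A ^ j := by positivity
        exact_mod_cast this
      · exact_mod_cast hw.pos
    exact_mod_cast h6
  -- injection
  have hcard : (u + 1) * (v + 1) ≤ n := by
    have h3 : ((Finset.range (u + 1) ×ˢ Finset.range (v + 1)).image
        (fun ij : ℕ × ℕ => ((p ^ ij.1 * A ^ ij.2 : ℕ) : ZMod w))).card = (u + 1) * (v + 1) := by
      rw [Finset.card_image_of_injOn, Finset.card_product, Finset.card_range, Finset.card_range]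
      rintro ⟨i, j⟩ hij ⟨i', j'⟩ hij' heq
      simp only [Finset.coe_product, Set.mem_prod, Finset.coe_range, Set.mem_Iio] at hij hij'
      have h4 := hlt i (by omega) j (by omega)
      have h5 := hlt i' (by omega) j' (by omega)
      have h6 : p ^ i * A ^ j = p ^ i' * A ^ j' := by
        have := (ZMod.natCast_eq_natCast_iff' _ _ _).1 heq
        rwa [Nat.mod_eq_of_lt h4, Nat.mod_eq_of_lt h5] at this
      have hA0 : A ≠ 0 := by omega
      have h7 : i = i' := by
        have := congrArg (fun n => n.factorization p) h6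
        rw [Nat.factorization_mul (by positivity) (by positivity),
          Nat.factorization_mul (by positivity) (by positivity)] at this
        simp only [Nat.factorization_pow, Finsupp.coe_add, Finsupp.coe_smul, Pi.add_apply,
          Pi.smul_apply, smul_eq_mul, hp.factorization_self,
          Nat.factorization_eq_zero_of_not_dvd hpA] at this
        omega
      subst h7
      have h8 : A ^ j = A ^ j' := Nat.eq_of_mul_eq_mul_left (by positivity) h6
      have h9 : j = j' := Nat.pow_right_injective hA h8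
      rw [h9]
    rw [← h3]
    have h4 : ((Finset.range (u + 1) ×ˢ Finset.range (v + 1)).image
        (fun ij : ℕ × ℕ => ((p ^ ij.1 * A ^ ij.2 : ℕ) : ZMod w))) ⊆
        (Polynomial.nthRoots n (1 : ZMod w)).toFinset := by
      intro x hx
      rw [Finset.mem_image] at hx
      obtain ⟨⟨i, j⟩, -, rfl⟩ := hx
      rw [Multiset.mem_toFinset, Polynomial.mem_nthRoots hn]
      push_cast
      rw [mul_pow, ← pow_mul, ← pow_mul, mul_comm i n, mul_comm j n, pow_mul, pow_mul, h1, h2]
      simp
    refine (Finset.card_le_card h4).trans ?_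
    exact (Multiset.toFinset_card_le _).trans (Polynomial.card_nthRoots n 1)
  have h5 : Real.log w / (2 * Real.log p) < u + 1 := Nat.lt_floor_add_one _
  have h6 : Real.log w / (2 * Real.log A) < v + 1 := Nat.lt_floor_add_one _
  have h7 : ((u : ℝ) + 1) * (v + 1) ≤ n := by exact_mod_cast hcard
  have h8 : Real.log w / (2 * Real.log p) * (Real.log w / (2 * Real.log A)) ≤ n := by
    refine le_trans ?_ h7
    apply mul_le_mul h5.le h6.le (by positivity) (by positivity)
  rw [div_mul_div_comm, div_le_iff₀ (by positivity)] at h8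
  nlinarith

lemma sigma_D_le (h : Dat p a D S) : sigma 1 D ≤ 2 * D := by
  have h0 : 0 < p ^ a * ∏ s ∈ S, s ^ 2 := by
    have hp := h.hp.pos
    have : 0 < ∏ s ∈ S, s ^ 2 := Finset.prod_pos fun s hs => pow_pos (h.hS s hs).pos 2
    positivity
  have h1 : ∏ s ∈ S, s ^ 2 ≤ ∏ s ∈ S, (s ^ 2 + s + 1) :=
    Finset.prod_le_prod' fun s _ => by omega
  have h2 : p ^ a ≤ sigma 1 (p ^ a) := by
    rw [sigma_one_apply_prime_pow h.hp]
    exact Finset.single_le_sum (f := fun k => p ^ k) (fun _ _ => Nat.zero_le _)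
      (Finset.mem_range.2 (Nat.lt_succ_self a))
  by_contra hlt
  push Not at hlt
  have h3 : 2 * D * (p ^ a * ∏ s ∈ S, s ^ 2) <
      sigma 1 D * (sigma 1 (p ^ a) * ∏ s ∈ S, (s ^ 2 + s + 1)) :=
    Nat.mul_lt_mul_of_lt_of_le hlt (Nat.mul_le_mul h2 h1)
      (lt_of_lt_of_le h0 (Nat.mul_le_mul h2 h1))
  have h4 := h.he
  have h5 : sigma 1 D * (sigma 1 (p ^ a) * ∏ s ∈ S, (s ^ 2 + s + 1)) =
      2 * D * (p ^ a * ∏ s ∈ S, s ^ 2) := by
    calc _ = sigma 1 (p ^ a) * sigma 1 D * ∏ s ∈ S, (s ^ 2 + s + 1) := by ring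
      _ = _ := by rw [h4]; ring
  omega

/-- `(p - 1) σ(p^a) = p^(a+1) - 1` -/
lemma geom (hp : p.Prime) (a : ℕ) : (p - 1) * sigma 1 (p ^ a) + 1 = p ^ (a + 1) := by
  rw [sigma_one_apply_prime_pow hp]
  obtain ⟨q, rfl⟩ : ∃ q, p = q + 1 := ⟨p - 1, by have := hp.one_lt; omega⟩
  rw [Nat.add_sub_cancel]
  induction a + 1 with
  | zero => simp
  | succ n ih =>
    rw [Finset.sum_range_succ, pow_succ]
    nlinarith

/-- T4 -/
theorem top (h : Dat p a D S) {w : ℕ} (hw : w ∈ Pu S) :
    w ≤ 2 * D ∨ w ≤ a + 1 ∨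
      Real.log w ^ 2 ≤ 4 * ((a + 1) * Real.log p) * Real.log D := by
  have hw' := hw
  rw [mem_Pu] at hw
  have hwp := h.hS w hw.1
  have := Fact.mk hwp
  have hDpos := D_pos h
  by_cases hσ : w ∣ sigma 1 D
  · left
    have h0 : 0 < sigma 1 D := by
      rw [sigma_one_apply]
      exact Finset.sum_pos (fun d hd => Nat.pos_of_mem_divisors hd)
        ⟨1, Nat.one_mem_divisors.2 hDpos.ne'⟩
    exact (Nat.le_of_dvd h0 hσ).trans (sigma_D_le h)
  right
  -- `w ^ 2 ∣ σ(p^a)`
  have h1 : w ^ 2 ∣ sigma 1 (p ^ a) := by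
    have h2 : w ^ 2 ∣ sigma 1 (p ^ a) * sigma 1 D * ∏ s ∈ S, (s ^ 2 + s + 1) := by
      rw [h.he]
      exact dvd_mul_of_dvd_right (dvd_mul_of_dvd_right
        (Finset.dvd_prod_of_mem (fun s => s ^ 2) hw.1) _) _
    have h3 : Nat.Coprime (w ^ 2) (∏ s ∈ S, (s ^ 2 + s + 1)) :=
      Nat.Coprime.pow_left 2 ((hwp.coprime_iff_not_dvd).2 (h.w_not_dvd hw.1 hw.2.1))
    have h4 : Nat.Coprime (w ^ 2) (sigma 1 D) :=
      Nat.Coprime.pow_left 2 ((hwp.coprime_iff_not_dvd).2 hσ)
    exact h4.dvd_of_dvd_mul_right (h3.dvd_of_dvd_mul_right h2)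
  obtain ⟨c, hc⟩ : w ^ 2 ∣ (p - 1) * sigma 1 (p ^ a) := dvd_mul_of_dvd_right h1 _
  have hg := geom h.hp a
  rw [hc] at hg
  -- `p ^ (a+1) = w ^ 2 * c + 1`
  set b := (w ^ 2 + w + 1).factorization p with hb
  have hs := A_spec (p := p) w
  rw [← hb] at hs
  set α := A p w with hα
  have hαpos : 0 < α := A_pos w
  have hpz : ((p : ZMod w)) ^ (a + 1) = 1 := by
    have := congrArg (fun n : ℕ => (n : ZMod w)) hg
    push_cast at this
    rw [← this]
    simp
  rcases Nat.lt_or_ge α 2 with h6 | h6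
  · left
    have h7 : α = 1 := by omega
    rw [h7, mul_one] at hs
    -- `(1 + w + w^2)^(a+1) ≡ 1 mod w^2`
    have h8 : ((w : ZMod (w ^ 2)) ^ 2 + w + 1) ^ (a + 1) = 1 := by
      have e1 : ((w : ZMod (w ^ 2)) ^ 2 + w + 1) = (p : ZMod (w ^ 2)) ^ b := by
        have := congrArg (fun n : ℕ => (n : ZMod (w ^ 2))) hs
        push_cast at this
        exact this
      have e2 : (p : ZMod (w ^ 2)) ^ (a + 1) = 1 := by
        have := congrArg (fun n : ℕ => (n : ZMod (w ^ 2))) hg
        push_cast at this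
        rw [← this]
        have e3 : ((w : ZMod (w ^ 2)) ^ 2) = 0 := by
          have := ZMod.natCast_self (w ^ 2)
          push_cast at this
          exact this
        rw [e3]
        simp
      rw [e1, ← pow_mul, mul_comm b (a + 1), pow_mul, e2, one_pow]
    have h9 : ∀ n : ℕ, ((w : ZMod (w ^ 2)) ^ 2 + w + 1) ^ n = 1 + n * w := by
      have e3 : ((w : ZMod (w ^ 2)) ^ 2) = 0 := by
        have := ZMod.natCast_self (w ^ 2)
        push_cast at this
        exact this
      intro n
      induction n with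
      | zero => simp
      | succ n ih =>
        rw [pow_succ _ n, ih, e3]
        push_cast
        linear_combination (n : ZMod (w ^ 2)) * e3
    rw [h9] at h8
    have h10 : (((a + 1) * w : ℕ) : ZMod (w ^ 2)) = 0 := by
      push_cast
      push_cast at h8
      linear_combination h8
    rw [ZMod.natCast_eq_zero_iff, pow_two] at h10
    have h11 : w ∣ a + 1 := (Nat.mul_dvd_mul_iff_right hwp.pos).1 h10
    exact Nat.le_of_dvd (Nat.succ_pos a) h11
  · right
    have h7 : ((α : ZMod w)) ^ (a + 1) = 1 := by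
      have e1 : (p : ZMod w) ^ b * α = 1 := by
        have := congrArg (fun n : ℕ => (n : ZMod w)) hs
        push_cast at this
        rw [← this]
        simp
      have e2 : ((p : ZMod w) ^ b * α) ^ (a + 1) = 1 := by rw [e1, one_pow]
      rw [mul_pow, ← pow_mul, mul_comm b (a + 1), pow_mul, hpz, one_pow, one_mul] at e2
      exact e2
    have hpα : ¬ p ∣ α := (h.hp.coprime_iff_not_dvd).1 (A_coprime h.hp w)
    have h8 := count_monomials hwp h.hp h6 hpα (Nat.succ_pos a) hpz h7
    push_cast at h8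
    have h9 : α ≤ D := by
      have e1 : A p w ∣ ∏ w ∈ Pu S, A p w := Finset.dvd_prod_of_mem _ hw'
      exact Nat.le_of_dvd hDpos (e1.trans (prod_A_dvd h))
    have h10 : Real.log α ≤ Real.log D :=
      Real.log_le_log (by exact_mod_cast hαpos) (by exact_mod_cast h9)
    have hLp : 0 ≤ Real.log p := Real.log_nonneg (by exact_mod_cast h.hp.one_lt.le)
    refine h8.trans ?_
    gcongr

end Pool.Agent.OPNEF
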