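import Mathlib
import Pool.Agent.Lib.MP_f02ea4_nt.Mg.G002

/-!
Odd perfect numbers `N = p ^ a * (q_1 ... q_k) ^ (2 b)`: basic facts.
-/

set_option autoImplicit false

namespace Pool.Agent.Lib.MP_f02ea4_nt.Equ

open Finset Pool.Agent.Lib.MP_f02ea4_nt.Rad

/-- The situation studied: `N` odd perfect with special prime `p`, every other prime factor
having exponent `2 * b`. -/
structure ECtx (N p b : ℕ) : Prop where
  odd : N % 2 = 1
  perf : N.Perfect
  pmem : p ∈ N.primeFactors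
  eqe : ∀ q ∈ N.primeFactors, q ≠ p → N.factorization q = 2 * b

lemma sg_eq_geom (q b : ℕ) : sg q (2 * b) = ∑ i ∈ range (2 * b + 1), q ^ i := rfl

lemma geom_mul (q n : ℕ) : ((q : ℤ) - 1) * ((∑ i ∈ range n, q ^ i : ℕ) : ℤ) = (q : ℤ) ^ n - 1 := by
  push_cast
  rw [mul_comm]
  exact geom_sum_mul _ _

/-- splitting of a geometric sum -/
lemma geom_split {q : ℕ} (hq : 2 ≤ q) (k l : ℕ) :
    ∑ i ∈ range (k * l), q ^ i = (∑ i ∈ range k, q ^ i) * ∑ j ∈ range l, (q ^ k) ^ j := by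
  have h1 := geom_mul q (k * l)
  have h2 := geom_mul q k
  have h3 := geom_mul (q ^ k) l
  push_cast at h1 h2 h3 ⊢
  have hq1 : ((q : ℤ) - 1) ≠ 0 := by
    have : (2 : ℤ) ≤ q := by exact_mod_cast hq
    omega
  have h4 : ((q : ℤ) - 1) * (∑ i ∈ range (k * l), (q : ℤ) ^ i) =
      ((q : ℤ) - 1) * ((∑ i ∈ range k, (q : ℤ) ^ i) * ∑ j ∈ range l, ((q : ℤ) ^ k) ^ j) := by
    rw [h1, ← mul_assoc, h2, h3, pow_mul]
  have h5 := mul_left_cancel₀ hq1 h4
  exact_mod_cast h5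

namespace ECtx

variable {N p b : ℕ} (C : ECtx N p b)

include C

lemma npos : 0 < N := C.perf.2

lemma pprime : p.Prime := Nat.prime_of_mem_primeFactors C.pmem

lemma mem {s : ℕ} (hs : s.Prime) (h : s ∣ N) : s ∈ N.primeFactors :=
  Nat.mem_primeFactors.2 ⟨hs, h, C.npos.ne'⟩

lemma odd_of_mem {s : ℕ} (h : s ∈ N.primeFactors) : s % 2 = 1 := by
  obtain ⟨k, hk⟩ := Nat.dvd_of_mem_primeFactors h
  have := C.odd
  rw [hk, Nat.mul_mod] at this
  rcases Nat.mod_two_eq_zero_or_one s with h | h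
  · rw [h] at this; simp at this
  · exact h

lemma p_ne_two : p ≠ 2 := by
  have := C.odd_of_mem C.pmem
  omega

/-- An odd prime dividing the divisor sum of a component divides `N`. -/
lemma dvd_of_sg {q s : ℕ} (hq : q ∈ N.primeFactors) (hs : s.Prime) (hs2 : s ≠ 2)
    (h : s ∣ sg q (N.factorization q)) : s ∣ N := by
  have h1 : s ∣ 2 * N := by
    rw [← perfect_eq C.perf]
    exact dvd_trans h (Finset.dvd_prod_of_mem (fun q => sg q (N.factorization q)) hq)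
  rcases (Nat.Prime.dvd_mul hs).1 h1 with h2 | h2
  · exact absurd ((Nat.prime_dvd_prime_iff_eq hs Nat.prime_two).1 h2) hs2
  · exact h2

/-- Capacity: powers of an odd prime `s` dividing the divisor sums of distinct components. -/
lemma cap {s : ℕ} (hs : s.Prime) (hs2 : s ≠ 2) (Q : Finset ℕ) (hQ : Q ⊆ N.primeFactors)
    (k : ℕ → ℕ) (h : ∀ q ∈ Q, s ^ (k q) ∣ sg q (N.factorization q)) :
    ∑ q ∈ Q, k q ≤ N.factorization s := by
  have h1 : s ^ (∑ q ∈ Q, k q) ∣ 2 * N := by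
    rw [← perfect_eq C.perf, ← Finset.prod_pow_eq_pow_sum]
    exact dvd_trans (Finset.prod_dvd_prod_of_dvd _ _ h) (Finset.prod_dvd_prod_of_subset _ _ _ hQ)
  have hco : Nat.Coprime (s ^ (∑ q ∈ Q, k q)) 2 := by
    apply Nat.Coprime.pow_left
    exact (Nat.coprime_primes hs Nat.prime_two).2 hs2
  have h2 : s ^ (∑ q ∈ Q, k q) ∣ N := hco.dvd_of_dvd_mul_left h1
  exact (hs.pow_dvd_iff_le_factorization C.npos.ne').1 h2

lemma fac_le {s : ℕ} (hs : s.Prime) (hsp : s ≠ p) : N.factorization s ≤ 2 * b := by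
  by_cases h : s ∣ N
  · exact (C.eqe s (C.mem hs h) hsp).le
  · rw [Nat.factorization_eq_zero_of_not_dvd h]; omega

end ECtx

/-! ### A prime divisor of `2 b + 1` different from the special prime -/

/-- `x = p ^ M * y` with `y` congruent to `1` modulo `p`. -/
def Rp (p x : ℕ) : Prop := ∃ M y : ℕ, x = p ^ M * y ∧ (y : ZMod p) = 1

lemma Rp_one (p : ℕ) : Rp p 1 := ⟨0, 1, by simp, by simp⟩

lemma Rp_mul {p x y : ℕ} (hx : Rp p x) (hy : Rp p y) : Rp p (x * y) := by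
  obtain ⟨M, u, rfl, hu⟩ := hx
  obtain ⟨L, v, rfl, hv⟩ := hy
  exact ⟨M + L, u * v, by ring, by push_cast; rw [hu, hv, one_mul]⟩

lemma Rp_prod {p : ℕ} (S : Finset ℕ) (f : ℕ → ℕ) (h : ∀ q ∈ S, Rp p (f q)) :
    Rp p (∏ q ∈ S, f q) := by
  classical
  induction S using Finset.induction_on with
  | empty => simpa using Rp_one p
  | insert a S ha ih =>
    rw [Finset.prod_insert ha]
    exact Rp_mul (h a (Finset.mem_insert_self _ _))
      (ih (fun q hq => h q (Finset.mem_insert_of_mem hq)))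

/-- `∑_{j<p} Q^j = p * (1 + p * _)` for `Q = 1 mod p`, `p` odd prime -/
lemma geom_p {p Q : ℕ} (hp : p.Prime) (hp2 : p % 2 = 1) (hQ : Q % p = 1) :
    ∃ y, ∑ j ∈ range p, Q ^ j = p * y ∧ (y : ZMod p) = 1 := by
  obtain ⟨t, ht⟩ : ∃ t, Q = 1 + p * t := ⟨Q / p, by
    have := Nat.mod_add_div Q p
    omega⟩
  -- Q ^ j = 1 + j p t + p ^ 2 * _
  have h1 : ∀ j : ℕ, ∃ u, Q ^ j = 1 + j * (p * t) + p ^ 2 * u := by
    intro j
    induction j with
    | zero => exact ⟨0, by simp⟩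
    | succ j ih =>
      obtain ⟨u, hu⟩ := ih
      refine ⟨j * t ^ 2 + u * (1 + p * t), ?_⟩
      rw [pow_succ, hu, ht]
      push_cast
      ring
  choose u hu using h1
  obtain ⟨m, hm⟩ : ∃ m, p = 2 * m + 1 := ⟨p / 2, by omega⟩
  have h2 : ∑ j ∈ range p, j = p * m := by
    have h3 := Finset.sum_range_id_mul_two p
    have h4 : p - 1 = 2 * m := by omega
    rw [h4] at h3
    have h5 : (∑ j ∈ range p, j) * 2 = (p * m) * 2 := by rw [h3]; ring
    exact Nat.eq_of_mul_eq_mul_right (by norm_num) h5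
  refine ⟨1 + p * (m * t) + p * ∑ j ∈ range p, u j, ?_, ?_⟩
  · rw [Finset.sum_congr rfl (fun j _ => hu j), Finset.sum_add_distrib, Finset.sum_add_distrib,
      ← Finset.sum_mul, ← Finset.mul_sum, h2]
    simp
    ring
  · push_cast
    simp

lemma geom_pp {p q : ℕ} (hp : p.Prime) (hp2 : p % 2 = 1) (hq2 : 2 ≤ q) (hq : q % p = 1) (m : ℕ) :
    ∃ y, ∑ j ∈ range (p ^ m), q ^ j = p ^ m * y ∧ (y : ZMod p) = 1 := by
  induction m with
  | zero => exact ⟨1, by simp, by simp⟩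
  | succ m ih =>
    obtain ⟨y, hy, hy1⟩ := ih
    have h1 : (q ^ p ^ m) % p = 1 := by
      rw [Nat.pow_mod, hq, one_pow]
      exact Nat.mod_eq_of_lt hp.one_lt
    obtain ⟨z, hz, hz1⟩ := geom_p hp hp2 h1
    refine ⟨y * z, ?_, by push_cast; rw [hy1, hz1, one_mul]⟩
    rw [pow_succ, geom_split hq2, hy, hz]
    ring

lemma Rp_geom {p q : ℕ} (hp : p.Prime) (hp2 : p % 2 = 1) (hq2 : 2 ≤ q) (m : ℕ) :
    Rp p (∑ j ∈ range (p ^ m), q ^ j) := by
  haveI := Fact.mk hp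
  by_cases hq : q % p = 1
  · obtain ⟨y, hy, hy1⟩ := geom_pp hp hp2 hq2 hq m
    exact ⟨m, y, hy, hy1⟩
  · refine ⟨0, _, by rw [pow_zero, one_mul], ?_⟩
    have h1 := geom_mul q (p ^ m)
    have h2 : ((q : ZMod p) - 1) * (((∑ i ∈ range (p ^ m), q ^ i : ℕ)) : ZMod p) =
        (q : ZMod p) ^ (p ^ m) - 1 := by
      have h3 := congrArg (Int.cast : ℤ → ZMod p) h1
      push_cast at h3 ⊢
      exact h3
    rw [ZMod.pow_card_pow] at h2
    have h3 : (q : ZMod p) - 1 ≠ 0 := by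
      intro h4
      apply hq
      have h5 : (q : ZMod p) = ((1 : ℕ) : ZMod p) := by
        push_cast
        exact sub_eq_zero.1 h4
      have h6 := (ZMod.natCast_eq_natCast_iff' q 1 p).1 h5
      rw [h6]
      exact Nat.mod_eq_of_lt hp.one_lt
    exact mul_left_cancel₀ h3 (by rw [h2, mul_one])

lemma unique_pow {p M L y z : ℕ} (hp : p.Prime) (hy : ¬ p ∣ y) (hz : ¬ p ∣ z)
    (h : p ^ M * y = p ^ L * z) : y = z := by
  rcases lt_trichotomy M L with h1 | h1 | h1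
  · exfalso
    obtain ⟨d, rfl⟩ : ∃ d, L = M + 1 + d := ⟨L - M - 1, by omega⟩
    apply hy
    have h2 : p ^ M * y = p ^ M * (p * (p ^ d * z)) := by rw [h]; ring
    have h3 := Nat.eq_of_mul_eq_mul_left (pow_pos hp.pos _) h2
    rw [h3]
    exact Dvd.intro _ rfl
  · subst h1
    exact Nat.eq_of_mul_eq_mul_left (pow_pos hp.pos _) h
  · exfalso
    obtain ⟨d, rfl⟩ : ∃ d, M = L + 1 + d := ⟨M - L - 1, by omega⟩
    apply hz
    have h2 : p ^ L * (p * (p ^ d * y)) = p ^ L * z := by rw [← h]; ring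
    have h3 := Nat.eq_of_mul_eq_mul_left (pow_pos hp.pos _) h2
    rw [← h3]
    exact Dvd.intro _ rfl

/-- There is a prime `ℓ ≠ p` dividing `2 b + 1`. -/
lemma ECtx.exists_ell {N p b : ℕ} (C : ECtx N p b) (hb : 1 ≤ b) :
    ∃ ℓ, ℓ.Prime ∧ ℓ ∣ 2 * b + 1 ∧ ℓ ≠ p := by
  by_contra hcon
  push Not at hcon
  have hp := C.pprime
  haveI := Fact.mk hp
  have hp2 := C.odd_of_mem C.pmem
  obtain ⟨m, hm⟩ : ∃ m, 2 * b + 1 = p ^ m :=
    ⟨_, Nat.eq_prime_pow_of_unique_prime_dvd (by omega) (fun {d} hd hd2 => hcon d hd hd2)⟩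
  have hm0 : m ≠ 0 := by
    rintro rfl
    simp at hm
    omega
  -- the divisor sums
  have h1 : Rp p (∏ q ∈ N.primeFactors, sg q (N.factorization q)) := by
    apply Rp_prod
    intro q hq
    have hq2 := (Nat.prime_of_mem_primeFactors hq).two_le
    by_cases hqp : q = p
    · rw [hqp]
      refine ⟨0, _, by rw [pow_zero, one_mul], ?_⟩
      unfold sg
      rw [Finset.sum_range_succ']
      push_cast
      simp
    · rw [C.eqe q hq hqp, sg_eq_geom, hm]
      exact Rp_geom hp hp2 hq2 m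
  rw [perfect_eq C.perf] at h1
  obtain ⟨M, y, hMy, hy⟩ := h1
  -- the number itself
  have hprodN : ∏ q ∈ N.primeFactors, q ^ (N.factorization q) = N :=
    Nat.prod_factorization_pow_eq_self C.npos.ne'
  rw [← Finset.mul_prod_erase _ _ C.pmem] at hprodN
  obtain ⟨Z, hZ⟩ : ∃ Z, Z = ∏ q ∈ N.primeFactors.erase p, q ^ (N.factorization q) := ⟨_, rfl⟩
  rw [← hZ] at hprodN
  have hZ1 : (Z : ZMod p) = 1 := by
    rw [hZ]
    push_cast
    apply Finset.prod_eq_one
    intro q hq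
    obtain ⟨hqp, hqN⟩ := Finset.mem_erase.1 hq
    rw [C.eqe q hqN hqp]
    have hq0 : (q : ZMod p) ≠ 0 := by
      intro h2
      rw [ZMod.natCast_eq_zero_iff] at h2
      exact hqp ((Nat.prime_dvd_prime_iff_eq hp (Nat.prime_of_mem_primeFactors hqN)).1 h2).symm
    have h3 : (q : ZMod p) ^ (2 * b + 1) = q := by
      rw [hm, ZMod.pow_card_pow]
    rw [pow_succ] at h3
    exact mul_right_cancel₀ hq0 (by rw [h3, one_mul])
  have h4 : p ^ M * y = p ^ (N.factorization p) * (2 * Z) := by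
    rw [← hMy]
    conv_lhs => rw [← hprodN]
    ring
  have hyd : ¬ p ∣ y := by
    intro h5
    rw [← ZMod.natCast_eq_zero_iff, hy] at h5
    exact one_ne_zero h5
  have hzd : ¬ p ∣ 2 * Z := by
    intro h5
    rcases hp.dvd_mul.1 h5 with h6 | h6
    · have := (Nat.prime_dvd_prime_iff_eq hp Nat.prime_two).1 h6
      omega
    · rw [← ZMod.natCast_eq_zero_iff, hZ1] at h6
      exact one_ne_zero h6
  have h5 := unique_pow hp hyd hzd h4
  rw [h5] at hy
  push_cast at hy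
  rw [hZ1, mul_one] at hy
  have h6 : ((1 : ℕ) : ZMod p) = 0 := by
    push_cast
    have : (2 : ZMod p) - 1 = 0 := by rw [hy]; ring
    calc (1 : ZMod p) = 2 - 1 := by norm_num
      _ = 0 := this
  rw [ZMod.natCast_eq_zero_iff] at h6
  exact hp.one_lt.ne' (Nat.dvd_one.1 h6)

end Pool.Agent.Lib.MP_f02ea4_nt.Equ
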