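import Mathlib

/-!
Gap principles: few small numbers are roots of unity of a given order modulo a prime power.
-/

set_option autoImplicit false

namespace Pool.Agent.Lib.MP_f02ea4_nt.Equ

open Finset

/-- At most `n` residues modulo a power of an odd prime are `n`-th roots of unity. -/
lemma card_roots_le {p α n : ℕ} (hp : p.Prime) (hp2 : p ≠ 2) (hn : 0 < n) (V : Finset ℕ)
    (hV : ∀ v ∈ V, v < p ^ α) (hr : ∀ v ∈ V, ((v : ZMod (p ^ α))) ^ n = 1) : V.card ≤ n := by
  classical
  haveI : NeZero (p ^ α) := ⟨(pow_pos hp.pos _).ne'⟩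
  haveI := ZMod.isCyclic_units_of_prime_pow p hp hp2 α
  have h1 := IsCyclic.card_pow_eq_one_le (α := (ZMod (p ^ α))ˣ) hn
  refine le_trans ?_ h1
  let f : ℕ → (ZMod (p ^ α))ˣ := fun v =>
    if h : ((v : ZMod (p ^ α))) ^ n = 1 then Units.ofPowEqOne _ n h hn.ne' else 1
  have hf : ∀ v ∈ V, ((f v : (ZMod (p ^ α))ˣ) : ZMod (p ^ α)) = v := by
    intro v hv
    simp only [f, hr v hv, dite_true]
    rfl
  apply Finset.card_le_card_of_injOn f
  · intro v hv
    simp only [Finset.coe_filter, Finset.mem_univ, true_and, Set.mem_setOf_eq]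
    apply Units.ext
    rw [Units.val_pow_eq_pow_val, hf v hv, hr v hv, Units.val_one]
  · intro v hv w hw hvw
    have h2 : (v : ZMod (p ^ α)) = (w : ZMod (p ^ α)) := by
      rw [← hf v hv, ← hf w hw, hvw]
    have h3 := (ZMod.natCast_eq_natCast_iff' v w (p ^ α)).1 h2
    rw [Nat.mod_eq_of_lt (hV v hv), Nat.mod_eq_of_lt (hV w hw)] at h3
    exact h3

/-- Gap principle 1, general form: primes below the `h`-th root of a prime `s` that are
`n`-th roots of unity modulo `s`. -/
lemma gap_count {s n h : ℕ} (hs : s.Prime) (hs2 : s ≠ 2) (hn : 0 < n)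
    (W : Finset ℕ) (hW : ∀ q ∈ W, q.Prime ∧ q ^ h < s ∧ (q : ZMod s) ^ n = 1) (hne : W.Nonempty) :
    (W.card + h - 1).choose h ≤ n := by
  classical
  have hprime : ∀ f ∈ W.finsuppAntidiag h, ∀ q ∈ f.support, q.Prime := by
    intro f hf q hq
    exact (hW q ((Finset.mem_finsuppAntidiag.1 hf).2 hq)).1
  have hc := Finset.card_finsuppAntidiag_nat_eq_choose (s := W) h
  obtain ⟨V, hVdef⟩ : ∃ V, V = (W.finsuppAntidiag h).image (fun f => f.prod (fun q e => q ^ e)) :=
    ⟨_, rfl⟩
  have hVcard : V.card = (W.card + h - 1).choose h := by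
    rw [hVdef, Finset.card_image_of_injOn, hc]
    intro f hf g hg hfg
    have h2 := Nat.prod_pow_factorization_eq_self (hprime f hf)
    have h3 := Nat.prod_pow_factorization_eq_self (hprime g hg)
    rw [← h2, ← h3]
    simp only at hfg
    rw [hfg]
  -- maximal element
  obtain ⟨M, hM, hMmax⟩ := Finset.exists_max_image W id hne
  have hprodle : ∀ f ∈ W.finsuppAntidiag h, f.prod (fun q e => q ^ e) ≤ M ^ h := by
    intro f hf
    obtain ⟨hf1, hf2⟩ := Finset.mem_finsuppAntidiag.1 hf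
    rw [Finsupp.prod_of_support_subset f hf2 _ (by simp)]
    calc ∏ q ∈ W, q ^ f q ≤ ∏ q ∈ W, M ^ f q :=
          Finset.prod_le_prod' (fun q hq => Nat.pow_le_pow_left (hMmax q hq) _)
      _ = M ^ (∑ q ∈ W, f q) := Finset.prod_pow_eq_pow_sum _ _ _
      _ = M ^ h := by rw [hf1]
  have hs1 : s ^ 1 = s := pow_one s
  have hroot := card_roots_le (α := 1) hs hs2 hn V (by
      intro v hv
      rw [hVdef, Finset.mem_image] at hv
      obtain ⟨f, hf, rfl⟩ := hv
      rw [hs1]
      exact lt_of_le_of_lt (hprodle f hf) (hW M hM).2.1) (by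
      intro v hv
      rw [hVdef, Finset.mem_image] at hv
      obtain ⟨f, hf, rfl⟩ := hv
      obtain ⟨hf1, hf2⟩ := Finset.mem_finsuppAntidiag.1 hf
      rw [Finsupp.prod_of_support_subset f hf2 _ (by simp)]
      push_cast
      rw [← Finset.prod_pow]
      apply Finset.prod_eq_one
      intro q hq
      have h5 := (hW q hq).2.2
      rw [← pow_mul, mul_comm, pow_mul]
      have h6 : (q : ZMod (s ^ 1)) ^ n = 1 := by
        have h7 : s ^ 1 = s := pow_one s
        rw [← h7] at h5
        exact h5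
      rw [h6, one_pow])
  rw [hVcard] at hroot
  exact hroot

/-- Gap principle 1: more than `h` primes below the `h`-th root of a prime `s` cannot all be
`n`-th roots of unity modulo `s`, if `n < C(2h, h)`. -/
lemma gap_one {s n h : ℕ} (hs : s.Prime) (hs2 : s ≠ 2) (hn : 0 < n) (hh : n < (2 * h).choose h)
    (W : Finset ℕ) (hW : ∀ q ∈ W, q.Prime ∧ q ^ h < s ∧ (q : ZMod s) ^ n = 1) : W.card ≤ h := by
  by_contra hcon
  push Not at hcon
  have h1 := gap_count hs hs2 hn W hW (Finset.card_pos.1 (by omega))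
  have h2 : (2 * h).choose h ≤ (W.card + h - 1).choose h := Nat.choose_le_choose _ (by omega)
  omega

/-- Gap principle 1 with monomials of degree three. -/
lemma gap_three {s n : ℕ} (hs : s.Prime) (hs2 : s ≠ 2) (hn : 0 < n)
    (W : Finset ℕ) (hW : ∀ q ∈ W, q.Prime ∧ q ^ 3 < s ∧ (q : ZMod s) ^ n = 1) :
    W.card ^ 3 ≤ 6 * n := by
  rcases Finset.eq_empty_or_nonempty W with h0 | hne
  · rw [h0]; simp
  have h1 := gap_count hs hs2 hn W hW hne
  have h2 := Nat.descFactorial_eq_factorial_mul_choose (W.card + 3 - 1) 3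
  have h3 : 1 ≤ W.card := Finset.card_pos.2 hne
  obtain ⟨m, hm⟩ : ∃ m, W.card = m + 1 := ⟨W.card - 1, by omega⟩
  rw [hm] at h1 h2 ⊢
  have e1 : m + 1 + 3 - 1 = m + 3 := by omega
  rw [e1] at h1 h2
  have h4 : (m + 3).descFactorial 3 = (m + 3) * (m + 2) * (m + 1) := by
    simp [Nat.descFactorial]
    ring
  rw [h4] at h2
  have h5 : Nat.factorial 3 = 6 := rfl
  rw [h5] at h2
  calc (m + 1) ^ 3 ≤ (m + 3) * (m + 2) * (m + 1) := by
        have : (m + 1) ^ 3 = (m + 1) * (m + 1) * (m + 1) := by ring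
        rw [this]
        exact Nat.mul_le_mul (Nat.mul_le_mul (by omega) (by omega)) le_rfl
    _ ≤ 6 * n := by omega

/-- Gap principle 2. -/
lemma gap_two {p α n q q' I J : ℕ} (hp : p.Prime) (hp2 : p ≠ 2) (hn : 0 < n)
    (hq : q.Prime) (hq' : q'.Prime) (hne : q ≠ q')
    (h1 : (q : ZMod (p ^ α)) ^ n = 1) (h2 : (q' : ZMod (p ^ α)) ^ n = 1)
    (hIJ : n < (I + 1) * (J + 1)) : p ^ α ≤ q ^ I * q' ^ J := by
  classical
  by_contra hcon
  push Not at hcon
  obtain ⟨V, hVdef⟩ : ∃ V, V = ((Finset.range (I + 1)) ×ˢ (Finset.range (J + 1))).image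
      (fun ij : ℕ × ℕ => q ^ ij.1 * q' ^ ij.2) := ⟨_, rfl⟩
  have hfac : ∀ i j : ℕ, (q ^ i * q' ^ j).factorization q = i ∧
      (q ^ i * q' ^ j).factorization q' = j := by
    intro i j
    have e1 : q ^ i ≠ 0 := (pow_pos hq.pos _).ne'
    have e2 : q' ^ j ≠ 0 := (pow_pos hq'.pos _).ne'
    rw [Nat.factorization_mul e1 e2, hq.factorization_pow, hq'.factorization_pow]
    simp [hne, hne.symm]
  have hVcard : V.card = (I + 1) * (J + 1) := by
    rw [hVdef, Finset.card_image_of_injOn]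
    · simp
    · rintro ⟨i, j⟩ _ ⟨i', j'⟩ _ hij
      simp only at hij
      have h3 := hfac i j
      have h4 := hfac i' j'
      rw [hij] at h3
      ext
      · exact h3.1.symm.trans h4.1
      · exact h3.2.symm.trans h4.2
  have h3 := card_roots_le hp hp2 hn V (by
      intro v hv
      rw [hVdef, Finset.mem_image] at hv
      obtain ⟨⟨i, j⟩, hij, rfl⟩ := hv
      simp only [Finset.mem_product, Finset.mem_range] at hij
      refine lt_of_le_of_lt ?_ hcon
      exact Nat.mul_le_mul (Nat.pow_le_pow_right hq.pos (by omega))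
        (Nat.pow_le_pow_right hq'.pos (by omega))) (by
      intro v hv
      rw [hVdef, Finset.mem_image] at hv
      obtain ⟨⟨i, j⟩, hij, rfl⟩ := hv
      push_cast
      rw [mul_pow, ← pow_mul, ← pow_mul, mul_comm i n, mul_comm j n, pow_mul, pow_mul, h1, h2]
      simp)
  rw [hVcard] at h3
  omega

end Pool.Agent.Lib.MP_f02ea4_nt.Equ
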