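import Mathlib
import Pool.Agent.Lib.MP_f02ea4_nt.EqBasic
import Pool.Agent.Lib.MP_f02ea4_nt.EqGap

/-!
Odd perfect numbers `N = p ^ a * (q_1 ... q_k) ^ (2 b)`: the counting argument.
-/

set_option autoImplicit false

namespace Pool.Agent.Lib.MP_f02ea4_nt.Equ

open Finset Pool.Agent.Lib.MP_f02ea4_nt.Rad

/-- `A k l q = (q ^ (k l) - 1) / (q ^ k - 1)` -/
def A (k l q : ℕ) : ℕ := ∑ j ∈ range l, (q ^ k) ^ j

lemma A_pos {k l q : ℕ} (hl : 1 ≤ l) : 0 < A k l q := by
  unfold A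
  obtain ⟨m, rfl⟩ : ∃ m, l = m + 1 := ⟨l - 1, by omega⟩
  rw [Finset.sum_range_succ']
  simp

lemma A_dvd {k l q : ℕ} (hq : 2 ≤ q) : A k l q ∣ ∑ i ∈ range (k * l), q ^ i := by
  rw [geom_split hq]
  exact Dvd.intro_left _ rfl

lemma A_root {k l q m : ℕ} (h : m ∣ A k l q) : (q : ZMod m) ^ (k * l) = 1 := by
  have h1 := geom_mul (q ^ k) l
  have h2 : (((q ^ k : ℕ) : ZMod m) - 1) * ((A k l q : ℕ) : ZMod m) = ((q ^ k : ℕ) : ZMod m) ^ l - 1 := by
    have h3 := congrArg (Int.cast : ℤ → ZMod m) h1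
    unfold A
    push_cast at h3 ⊢
    exact h3
  rw [(ZMod.natCast_eq_zero_iff (A k l q) m).2 h, mul_zero] at h2
  push_cast at h2
  rw [← pow_mul] at h2
  exact (sub_eq_zero.1 h2.symm)

lemma A_prime {k l q s : ℕ} (hl : l.Prime) (hs : s.Prime) (h : s ∣ A k l q) :
    s = l ∨ s % l = 1 := by
  haveI := Fact.mk hs
  have h0 : ((A k l q : ℕ) : ZMod s) = 0 := (ZMod.natCast_eq_zero_iff _ s).2 h
  have h1 := A_root h
  rw [pow_mul] at h1
  by_cases hx : ((q : ZMod s)) ^ k = 1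
  · left
    unfold A at h0
    push_cast at h0
    rw [hx] at h0
    simp only [one_pow, Finset.sum_const, Finset.card_range, nsmul_eq_mul, mul_one] at h0
    rw [ZMod.natCast_eq_zero_iff] at h0
    exact (Nat.prime_dvd_prime_iff_eq hs hl).1 h0
  · right
    haveI := Fact.mk hl
    have hord : orderOf ((q : ZMod s) ^ k) = l := orderOf_eq_prime h1 hx
    have hne : (q : ZMod s) ^ k ≠ 0 := by
      intro h2
      rw [h2, zero_pow hl.ne_zero] at h1
      exact zero_ne_one h1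
    have hd := ZMod.orderOf_dvd_card_sub_one hne
    rw [hord] at hd
    obtain ⟨c, hc⟩ := hd
    have hs2 := hs.two_le
    have h3 : s = 1 + l * c := by omega
    rw [h3, Nat.add_mul_mod_self_left]
    exact Nat.mod_eq_of_lt hl.one_lt

lemma A_big {k l q : ℕ} (hq : 1 ≤ q) (hl : 3 ≤ l) : q ^ (2 * (k * l)) ≤ (A k l q) ^ 3 := by
  have h1 : (q ^ k) ^ (l - 1) ≤ A k l q := by
    unfold A
    exact Finset.single_le_sum (f := fun j => (q ^ k) ^ j) (fun i _ => Nat.zero_le _)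
      (Finset.mem_range.2 (by omega))
  calc q ^ (2 * (k * l)) ≤ q ^ (k * (l - 1) * 3) := by
        apply Nat.pow_le_pow_right hq
        obtain ⟨m, rfl⟩ : ∃ m, l = m + 3 := ⟨l - 3, by omega⟩
        have h2 : m + 3 - 1 = m + 2 := by omega
        rw [h2]
        nlinarith [Nat.zero_le (k * m)]
    _ = ((q ^ k) ^ (l - 1)) ^ 3 := by rw [← pow_mul, ← pow_mul, mul_assoc]
    _ ≤ _ := Nat.pow_le_pow_left h1 3

lemma sg_odd_of_odd {q b : ℕ} (hq : q % 2 = 1) : sg q (2 * b) % 2 = 1 := by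
  have := sum_mod2 hq (2 * b + 1)
  rw [sg_eq_geom, this]
  omega

/-- The data: `2 b + 1 = k * l` with `l ≠ p` prime. -/
structure LCtx (N p b k l : ℕ) : Prop extends ECtx N p b where
  lprime : l.Prime
  kl : 2 * b + 1 = k * l
  lp : l ≠ p

namespace LCtx

variable {N p b k l : ℕ} (C : LCtx N p b k l)

/-- the primes equal to `l` or `1` modulo `l` -/
def T (N p l : ℕ) : Finset ℕ := (N.primeFactors.erase p).filter (fun s => s = l ∨ s % l = 1)

/-- the other primes -/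
def R (N p l : ℕ) : Finset ℕ := (N.primeFactors.erase p).filter (fun s => ¬ (s = l ∨ s % l = 1))

include C

lemma l_ge : 3 ≤ l := by
  have h1 := C.lprime.two_le
  have h2 : l ≠ 2 := by
    rintro rfl
    have := C.kl
    omega
  omega

lemma mem_R {q : ℕ} (h : q ∈ R N p l) : q ∈ N.primeFactors ∧ q ≠ p ∧ q.Prime ∧ 3 ≤ q ∧
    N.factorization q = 2 * b ∧ q % 2 = 1 := by
  obtain ⟨h1, -⟩ := Finset.mem_filter.1 h
  obtain ⟨h2, h3⟩ := Finset.mem_erase.1 h1
  have h4 := Nat.prime_of_mem_primeFactors h3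
  have h5 := C.odd_of_mem h3
  have h6 := h4.two_le
  exact ⟨h3, h2, h4, by omega, C.eqe q h3 h2, h5⟩

lemma mem_T {q : ℕ} (h : q ∈ T N p l) : q ∈ N.primeFactors ∧ q ≠ p ∧ q.Prime ∧ 3 ≤ q ∧
    N.factorization q = 2 * b ∧ q % 2 = 1 := by
  obtain ⟨h1, -⟩ := Finset.mem_filter.1 h
  obtain ⟨h2, h3⟩ := Finset.mem_erase.1 h1
  have h4 := Nat.prime_of_mem_primeFactors h3
  have h5 := C.odd_of_mem h3
  have h6 := h4.two_le
  exact ⟨h3, h2, h4, by omega, C.eqe q h3 h2, h5⟩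

lemma card_split : N.primeFactors.card = 1 + (T N p l).card + (R N p l).card := by
  have h1 := Finset.card_filter_add_card_filter_not (s := N.primeFactors.erase p)
    (fun s => s = l ∨ s % l = 1)
  have h2 := Finset.card_erase_of_mem C.pmem
  have h3 : 0 < N.primeFactors.card := Finset.card_pos.2 ⟨p, C.pmem⟩
  unfold T R
  omega

lemma T_card : (T N p l).card ≤ 2 * b + 1 := by
  classical
  have hsub : T N p l ⊆ insert l ((N.primeFactors.erase p).filter (fun s => s % l = 1)) := by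
    intro s hs
    obtain ⟨h1, h2⟩ := Finset.mem_filter.1 hs
    rcases h2 with h2 | h2
    · rw [h2]; exact Finset.mem_insert_self _ _
    · exact Finset.mem_insert_of_mem (Finset.mem_filter.2 ⟨h1, h2⟩)
  have h1 := Finset.card_le_card hsub
  have h2 := Finset.card_insert_le l ((N.primeFactors.erase p).filter (fun s => s % l = 1))
  have h3 := C.cap C.lprime (by have := C.l_ge; omega)
    ((N.primeFactors.erase p).filter (fun s => s % l = 1))
    (fun q hq => (Finset.mem_erase.1 (Finset.mem_filter.1 hq).1).2) (fun _ => 1) (by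
      intro q hq
      obtain ⟨h3, h4⟩ := Finset.mem_filter.1 hq
      obtain ⟨h5, h6⟩ := Finset.mem_erase.1 h3
      rw [pow_one, C.eqe q h6 h5, sg_eq_geom, C.kl, ← ZMod.natCast_eq_zero_iff]
      push_cast
      have h7 : (q : ZMod l) = 1 := by
        have h8 : (q : ZMod l) = ((1 : ℕ) : ZMod l) := by
          rw [ZMod.natCast_eq_natCast_iff', h4]
          exact (Nat.mod_eq_of_lt C.lprime.one_lt).symm
        rw [h8]; simp
      rw [h7]
      simp)
  simp only [Finset.sum_const, smul_eq_mul, mul_one] at h3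
  have h4 := C.fac_le C.lprime C.lp
  omega

lemma A_dvd_sg {q : ℕ} (hq : q ∈ R N p l) : A k l q ∣ sg q (N.factorization q) := by
  obtain ⟨h1, h2, h3, h4, h5, h6⟩ := C.mem_R hq
  rw [h5, sg_eq_geom, C.kl]
  exact A_dvd (by omega)

lemma A_primeFactors {q : ℕ} (hq : q ∈ R N p l) : (A k l q).primeFactors ⊆ insert p (T N p l) := by
  intro s hs
  have hsp := Nat.prime_of_mem_primeFactors hs
  have hsd := Nat.dvd_of_mem_primeFactors hs
  obtain ⟨h1, h2, h3, h4, h5, h6⟩ := C.mem_R hq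
  have h7 := dvd_trans hsd (C.A_dvd_sg hq)
  have hs2 : s ≠ 2 := by
    rintro rfl
    rw [h5] at h7
    have := sg_odd_of_odd (b := b) h6
    omega
  have h8 := C.dvd_of_sg h1 hsp hs2 h7
  rw [Finset.mem_insert]
  by_cases hp : s = p
  · exact Or.inl hp
  · right
    exact Finset.mem_filter.2 ⟨Finset.mem_erase.2 ⟨hp, C.mem hsp h8⟩, A_prime C.lprime hsp hsd⟩

lemma p_not_mem_T : p ∉ T N p l := by
  intro h
  exact (C.mem_T h).2.1 rfl

lemma A_fac {q : ℕ} (hq : q ∈ R N p l) :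
    A k l q = p ^ (A k l q).factorization p * ∏ s ∈ T N p l, s ^ (A k l q).factorization s := by
  classical
  have hA : A k l q ≠ 0 := (A_pos C.lprime.one_lt.le).ne'
  have h1 := Nat.prod_factorization_pow_eq_self hA
  rw [← Finset.prod_insert (f := fun s => s ^ (A k l q).factorization s) (C.p_not_mem_T),
    ← Finset.prod_subset (C.A_primeFactors hq)]
  · exact h1.symm
  · intro s _ hs
    have h2 : (A k l q).factorization s = 0 := by
      rw [← Nat.support_factorization] at hs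
      exact Finsupp.notMem_support_iff.1 hs
    rw [h2, pow_zero]

/-- capacity of `s ∈ T` -/
lemma cap_T {s : ℕ} (hs : s ∈ T N p l) (Q : Finset ℕ) (hQ : Q ⊆ R N p l) :
    ∑ q ∈ Q, (A k l q).factorization s ≤ 2 * b := by
  obtain ⟨h1, h2, h3, h4, h5, h6⟩ := C.mem_T hs
  rw [← h5]
  apply C.cap h3 (by omega) Q (fun q hq => (C.mem_R (hQ hq)).1)
  intro q hq
  exact dvd_trans (Nat.ordProj_dvd _ _) (C.A_dvd_sg (hQ hq))

/-- the primes in `R` with large power of `p` -/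
def U (N p b k l : ℕ) : Finset ℕ :=
  (R N p l).filter (fun q => q ^ (2 * b + 1) ≤ (p ^ (A k l q).factorization p) ^ 3)

/-- the primes in `R` with a large prime factor -/
def B2 (N p k l h : ℕ) : Finset ℕ :=
  (R N p l).filter (fun q => ∃ s ∈ T N p l, s ∣ A k l q ∧ q ^ h < s)

/-- the remaining primes in `R` -/
def B1 (N p b k l h : ℕ) : Finset ℕ :=
  (R N p l).filter (fun q => ¬ (q ^ (2 * b + 1) ≤ (p ^ (A k l q).factorization p) ^ 3) ∧
    ∀ s ∈ T N p l, s ∣ A k l q → s ≤ q ^ h)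

lemma R_card (h : ℕ) : (R N p l).card ≤
    (U N p b k l).card + (B1 N p b k l h).card + (B2 N p k l h).card := by
  classical
  have h1 : R N p l ⊆ (U N p b k l ∪ B1 N p b k l h) ∪ B2 N p k l h := by
    intro q hq
    simp only [U, B1, B2, Finset.mem_union, Finset.mem_filter]
    by_cases h2 : q ^ (2 * b + 1) ≤ (p ^ (A k l q).factorization p) ^ 3
    · exact Or.inl (Or.inl ⟨hq, h2⟩)
    · by_cases h3 : ∃ s ∈ T N p l, s ∣ A k l q ∧ q ^ h < s
      · exact Or.inr ⟨hq, h3⟩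
      · push Not at h3
        exact Or.inl (Or.inr ⟨hq, h2, h3⟩)
  have h2 := Finset.card_le_card h1
  have h3 := Finset.card_union_le (U N p b k l ∪ B1 N p b k l h) (B2 N p k l h)
  have h4 := Finset.card_union_le (U N p b k l) (B1 N p b k l h)
  omega

lemma B1_card (h : ℕ) : (B1 N p b k l h).card ≤ 6 * b * h := by
  classical
  have hsub : B1 N p b k l h ⊆ R N p l := Finset.filter_subset _ _
  have h1 : ∀ q ∈ B1 N p b k l h,
      2 * b + 1 ≤ 3 * h * ∑ s ∈ T N p l, (A k l q).factorization s := by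
    intro q hq
    obtain ⟨hqR, h2, h3⟩ := Finset.mem_filter.1 hq
    obtain ⟨g1, g2, g3, g4, g5, g6⟩ := C.mem_R hqR
    obtain ⟨H, hH⟩ : ∃ H, H = ∑ s ∈ T N p l, (A k l q).factorization s := ⟨_, rfl⟩
    rw [← hH]
    have hB : ∏ s ∈ T N p l, s ^ (A k l q).factorization s ≤ q ^ (h * H) := by
      rw [hH, Finset.mul_sum, ← Finset.prod_pow_eq_pow_sum]
      apply Finset.prod_le_prod'
      intro s hs
      rw [pow_mul]
      by_cases h4 : (A k l q).factorization s = 0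
      · rw [h4]; simp
      · apply Nat.pow_le_pow_left
        exact h3 s hs (Nat.dvd_of_factorization_pos h4)
    have hA := A_big (k := k) (l := l) (q := q) (by omega) C.l_ge
    rw [C.A_fac hqR, mul_pow] at hA
    rw [← C.kl] at hA
    push Not at h2
    have h5 : (∏ s ∈ T N p l, s ^ (A k l q).factorization s) ^ 3 ≤ q ^ (3 * h * H) := by
      calc _ ≤ (q ^ (h * H)) ^ 3 := Nat.pow_le_pow_left hB 3
        _ = _ := by rw [← pow_mul]; congr 1; ring
    have h6 : q ^ (2 * (2 * b + 1)) = q ^ (2 * b + 1) * q ^ (2 * b + 1) := by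
      rw [two_mul, pow_add]
    by_contra hcon
    push Not at hcon
    have h7 : q ^ (3 * h * H) ≤ q ^ (2 * b + 1) := Nat.pow_le_pow_right (by omega) (by omega)
    have h8 : (∏ s ∈ T N p l, s ^ (A k l q).factorization s) ^ 3 ≤ q ^ (2 * b + 1) :=
      le_trans h5 h7
    have h9 : 0 < (∏ s ∈ T N p l, s ^ (A k l q).factorization s) ^ 3 := by
      apply pow_pos
      exact Finset.prod_pos (fun s hs => pow_pos (C.mem_T hs).2.2.1.pos _)
    have h10 : (p ^ (A k l q).factorization p) ^ 3 *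
        (∏ s ∈ T N p l, s ^ (A k l q).factorization s) ^ 3 <
        q ^ (2 * b + 1) * q ^ (2 * b + 1) :=
      Nat.mul_lt_mul_of_lt_of_le h2 h8 (pow_pos g3.pos _)
    rw [h6] at hA
    omega
  have h2 : (B1 N p b k l h).card * (2 * b + 1) ≤
      ∑ q ∈ B1 N p b k l h, 3 * h * ∑ s ∈ T N p l, (A k l q).factorization s := by
    rw [← smul_eq_mul]
    exact Finset.card_nsmul_le_sum _ _ _ h1
  have h3 : ∑ q ∈ B1 N p b k l h, 3 * h * ∑ s ∈ T N p l, (A k l q).factorization s =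
      3 * h * ∑ s ∈ T N p l, ∑ q ∈ B1 N p b k l h, (A k l q).factorization s := by
    rw [← Finset.mul_sum, Finset.sum_comm]
  have h4 : ∑ s ∈ T N p l, ∑ q ∈ B1 N p b k l h, (A k l q).factorization s ≤
      (T N p l).card * (2 * b) := by
    rw [← smul_eq_mul]
    exact Finset.sum_le_card_nsmul _ _ _ (fun s hs => C.cap_T hs _ hsub)
  have h5 : (T N p l).card * (2 * b) ≤ (2 * b + 1) * (2 * b) := Nat.mul_le_mul_right _ C.T_card
  have h6 : (B1 N p b k l h).card * (2 * b + 1) ≤ (6 * b * h) * (2 * b + 1) := by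
    calc _ ≤ 3 * h * ((2 * b + 1) * (2 * b)) := by
          rw [h3] at h2
          exact le_trans h2 (Nat.mul_le_mul_left _ (le_trans h4 h5))
      _ = _ := by ring
  exact Nat.le_of_mul_le_mul_right h6 (by omega)

lemma B2_card {h : ℕ} (hh : 2 * b + 1 < (2 * h).choose h) :
    (B2 N p k l h).card ≤ (2 * b + 1) * h := by
  classical
  have h1 : B2 N p k l h ⊆ (T N p l).biUnion
      (fun s => (R N p l).filter (fun q => s ∣ A k l q ∧ q ^ h < s)) := by
    intro q hq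
    obtain ⟨h2, s, hs, h3⟩ := Finset.mem_filter.1 hq
    exact Finset.mem_biUnion.2 ⟨s, hs, Finset.mem_filter.2 ⟨h2, h3⟩⟩
  have h2 := Finset.card_le_card h1
  have h3 : ((T N p l).biUnion
      (fun s => (R N p l).filter (fun q => s ∣ A k l q ∧ q ^ h < s))).card ≤
      (T N p l).card * h := by
    apply Finset.card_biUnion_le_card_mul
    intro s hs
    obtain ⟨g1, g2, g3, g4, g5, g6⟩ := C.mem_T hs
    apply gap_one g3 (by omega) (n := 2 * b + 1) (by omega) hh
    intro q hq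
    obtain ⟨h4, h5, h6⟩ := Finset.mem_filter.1 hq
    refine ⟨(C.mem_R h4).2.2.1, h6, ?_⟩
    rw [C.kl]
    exact A_root h5
  exact le_trans h2 (le_trans h3 (Nat.mul_le_mul_right _ C.T_card))

/-- the primes in `U` grow fast -/
lemma U_gap {G : ℕ} (hG : 30 * G < 2 * b + 1) (hb : 1 ≤ b) {q q' : ℕ}
    (hq : q ∈ U N p b k l) (hq' : q' ∈ U N p b k l) (hlt : q < q') : q ^ G < q' := by
  obtain ⟨h1, h2⟩ := Finset.mem_filter.1 hq
  obtain ⟨h1', h2'⟩ := Finset.mem_filter.1 hq'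
  obtain ⟨g1, g2, g3, g4, g5, g6⟩ := C.mem_R h1
  obtain ⟨g1', g2', g3', g4', g5', g6'⟩ := C.mem_R h1'
  obtain ⟨α, hα⟩ : ∃ α, α = min ((A k l q).factorization p) ((A k l q').factorization p) := ⟨_, rfl⟩
  have hd1 : p ^ α ∣ A k l q :=
    dvd_trans (pow_dvd_pow p (by rw [hα]; exact min_le_left _ _)) (Nat.ordProj_dvd _ _)
  have hd2 : p ^ α ∣ A k l q' :=
    dvd_trans (pow_dvd_pow p (by rw [hα]; exact min_le_right _ _)) (Nat.ordProj_dvd _ _)
  have hr1 := A_root hd1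
  have hr2 := A_root hd2
  rw [← C.kl] at hr1 hr2
  have hgap := gap_two (I := (2 * b + 1) / 6) (J := 5) C.pprime C.p_ne_two (by omega) g3 g3'
    hlt.ne hr1 hr2 (by omega)
  have h3 : q ^ (2 * b + 1) ≤ (p ^ α) ^ 3 := by
    rcases le_total ((A k l q).factorization p) ((A k l q').factorization p) with h | h
    · rw [hα, min_eq_left h]; exact h2
    · rw [hα, min_eq_right h]
      exact le_trans (Nat.pow_le_pow_left hlt.le _) h2'
  by_contra hcon
  push Not at hcon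
  have h4 : (p ^ α) ^ 3 ≤ q ^ (3 * ((2 * b + 1) / 6) + 15 * G) := by
    calc (p ^ α) ^ 3 ≤ (q ^ ((2 * b + 1) / 6) * q' ^ 5) ^ 3 := Nat.pow_le_pow_left hgap 3
      _ ≤ (q ^ ((2 * b + 1) / 6) * (q ^ G) ^ 5) ^ 3 :=
          Nat.pow_le_pow_left (Nat.mul_le_mul_left _ (Nat.pow_le_pow_left hcon 5)) 3
      _ = _ := by
          rw [← pow_mul, ← pow_add, ← pow_mul]
          congr 1
          ring
  have h5 := le_trans h3 h4
  have h6 : 2 * b + 1 ≤ 3 * ((2 * b + 1) / 6) + 15 * G := (Nat.pow_le_pow_iff_right (by omega)).1 h5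
  omega

end LCtx

/-- a finite set with large gaps has a very large ratio of the sizes of its elements -/
lemma big_ratio (G m : ℕ) : ∀ U : Finset ℕ, U.card = m + 1 →
    (∀ q ∈ U, ∀ q' ∈ U, q < q' → q ^ G < q') → ∃ q ∈ U, ∃ q' ∈ U, q ^ G ^ m ≤ q' := by
  classical
  induction m with
  | zero =>
    intro U hU _
    obtain ⟨q, hq⟩ : U.Nonempty := Finset.card_pos.1 (by omega)
    exact ⟨q, hq, q, hq, by simp⟩
  | succ m ih =>
    intro U hU hgap
    obtain ⟨M, hM, hmax⟩ := Finset.exists_max_image U id (Finset.card_pos.1 (by omega))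
    obtain ⟨q, hq, q', hq', hqq'⟩ := ih (U.erase M) (by rw [Finset.card_erase_of_mem hM]; omega)
      (fun q hq q' hq' => hgap q (Finset.mem_erase.1 hq).2 q' (Finset.mem_erase.1 hq').2)
    obtain ⟨hqM, hqU⟩ := Finset.mem_erase.1 hq
    obtain ⟨hqM', hqU'⟩ := Finset.mem_erase.1 hq'
    have h4 : q' < M := lt_of_le_of_ne (hmax q' hqU') hqM'
    refine ⟨q, hqU, M, hM, ?_⟩
    calc q ^ G ^ (m + 1) = (q ^ G ^ m) ^ G := by rw [← pow_mul, ← pow_succ]
      _ ≤ q' ^ G := Nat.pow_le_pow_left hqq' _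
      _ ≤ M := (hgap q' hqU' M hM h4).le

namespace LCtx

variable {N p b k l : ℕ} (C : LCtx N p b k l)

include C

lemma U_card (hb : 300 ≤ b) (hup : N ^ 8 < 2 ^ (7 * 4 ^ N.primeFactors.card)) {G u w : ℕ}
    (hG : 30 * G < 2 * b + 1) (hu : 1 ≤ u) (hGw : 2 ^ w ≤ G ^ u) (hw : w ≤ 9 * u + 1) :
    w * (U N p b k l).card ≤ 2 * u * N.primeFactors.card := by
  by_cases h0 : (U N p b k l).card = 0
  · rw [h0]; omega
  obtain ⟨m, hm⟩ : ∃ m, (U N p b k l).card = m + 1 := ⟨(U N p b k l).card - 1, by omega⟩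
  obtain ⟨q₀, hq₀, q, hq, hqq⟩ := big_ratio G m _ hm
    (fun q hq q' hq' h => C.U_gap hG (by omega) hq hq' h)
  have g0 := (C.mem_R (Finset.mem_filter.1 hq₀).1).2.2.2.1
  have hq3 : 2 ^ G ^ m ≤ q := le_trans (Nat.pow_le_pow_left (by omega) _) hqq
  obtain ⟨g1, g2, g3, g4, g5, g6⟩ := C.mem_R (Finset.mem_filter.1 hq).1
  have h1 : q ^ (2 * b) ∣ N := by
    rw [← g5]; exact Nat.ordProj_dvd _ _
  have h2 : q ^ (2 * b) ≤ N := Nat.le_of_dvd C.npos h1
  have h3 : 2 ^ (G ^ m * (2 * b) * 8) < 2 ^ (7 * 4 ^ N.primeFactors.card) := by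
    calc 2 ^ (G ^ m * (2 * b) * 8) = ((2 ^ G ^ m) ^ (2 * b)) ^ 8 := by
          rw [← pow_mul, ← pow_mul, mul_assoc]
      _ ≤ (q ^ (2 * b)) ^ 8 := Nat.pow_le_pow_left (Nat.pow_le_pow_left hq3 _) _
      _ ≤ N ^ 8 := Nat.pow_le_pow_left h2 _
      _ < _ := hup
  have h4 : G ^ m * (2 * b) * 8 < 7 * 4 ^ N.primeFactors.card :=
    (Nat.pow_lt_pow_iff_right (by norm_num)).1 h3
  have h5 : G ^ m * 4800 ≤ G ^ m * (2 * b) * 8 := by
    rw [mul_assoc]
    exact Nat.mul_le_mul_left _ (by omega)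
  have h6 : G ^ m * 2 ^ 9 < 4 ^ N.primeFactors.card := by
    have : (2 : ℕ) ^ 9 = 512 := by norm_num
    omega
  have h7 : (G ^ m * 2 ^ 9) ^ u < (4 ^ N.primeFactors.card) ^ u := Nat.pow_lt_pow_left h6 (by omega)
  have h8 : 2 ^ (w * m + 9 * u) ≤ (G ^ m * 2 ^ 9) ^ u := by
    rw [mul_pow, ← pow_mul, ← pow_mul, pow_add, mul_comm m u, pow_mul G, pow_mul 2 w]
    exact Nat.mul_le_mul_right _ (Nat.pow_le_pow_left hGw _)
  have h9 : 2 ^ (w * m + 9 * u) < 2 ^ (2 * u * N.primeFactors.card) := by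
    calc _ < (4 ^ N.primeFactors.card) ^ u := lt_of_le_of_lt h8 h7
      _ = _ := by
        rw [show (4 : ℕ) = 2 ^ 2 by norm_num, ← pow_mul, ← pow_mul]
        congr 1
        ring
  have h10 := (Nat.pow_lt_pow_iff_right (by norm_num)).1 h9
  rw [hm, mul_add, mul_one]
  omega

theorem omega_le (hb : 300 ≤ b) (hup : N ^ 8 < 2 ^ (7 * 4 ^ N.primeFactors.card)) {G u w : ℕ}
    (hG : 30 * G < 2 * b + 1) (hu : 1 ≤ u) (hGw : 2 ^ w ≤ G ^ u) (hw : w ≤ 9 * u + 1)
    {h : ℕ} (hh : 2 * b + 1 < (2 * h).choose h) :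
    w * N.primeFactors.card ≤
      2 * u * N.primeFactors.card + w * (2 * b + 2 + 6 * b * h + (2 * b + 1) * h) := by
  have h1 := C.card_split
  have h2 := C.T_card
  have h3 := C.R_card h
  have h4 := C.B1_card h
  have h5 := C.B2_card hh
  have h6 := C.U_card hb hup hG hu hGw hw
  have h7 : N.primeFactors.card ≤ (U N p b k l).card +
      (2 * b + 2 + 6 * b * h + (2 * b + 1) * h) := by omega
  calc w * N.primeFactors.card ≤ w * ((U N p b k l).card +
      (2 * b + 2 + 6 * b * h + (2 * b + 1) * h)) := Nat.mul_le_mul_left _ h7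
    _ ≤ _ := by rw [mul_add]; omega

end LCtx

end Pool.Agent.Lib.MP_f02ea4_nt.Equ
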