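import Mathlib
import Pool.Agent.Lib.MP_f02ea4_nt.EqMain

/-!
Odd perfect numbers `N = p ^ a * (q_1 ... q_k) ^ (2 b)`: a bound for `k` linear in `b`.
-/

set_option autoImplicit false

namespace Pool.Agent.Lib.MP_f02ea4_nt.Equ

open Finset Pool.Agent.Lib.MP_f02ea4_nt.Rad

lemma A_lt {k l q : ℕ} (hk : 1 ≤ k) (hq : 2 ≤ q) : A k l q < q ^ (k * l) := by
  unfold A
  rw [pow_mul]
  apply Nat.geomSum_lt
  · calc 2 ≤ q := hq
      _ = q ^ 1 := (pow_one q).symm
      _ ≤ q ^ k := Nat.pow_le_pow_right (by omega) hk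
  · intro j hj
    exact Finset.mem_range.1 hj

namespace LCtx

variable {N p b k l : ℕ} (C : LCtx N p b k l)

/-- the primes `t ∈ T` which are large compared with `q` -/
def T2 (N p k l q : ℕ) : Finset ℕ := (T N p l).filter (fun t => t ∣ A k l q ∧ q ^ 3 < t)

/-- the others -/
def T1 (N p k l q : ℕ) : Finset ℕ := (T N p l).filter (fun t => ¬ (t ∣ A k l q ∧ q ^ 3 < t))

/-- the part of `A q` from a set of primes -/
def P (k l q : ℕ) (S : Finset ℕ) : ℕ := ∏ t ∈ S, t ^ (A k l q).factorization t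

/-- `q` with many small prime factors of `A q` -/
def C1 (N p b k l : ℕ) : Finset ℕ :=
  (R N p l).filter (fun q => q ^ (2 * b + 1) < (P k l q (T1 N p k l q)) ^ 6)

/-- `q` with many large prime factors of `A q` -/
def C2 (N p k l D : ℕ) : Finset ℕ :=
  (R N p l).filter (fun q => D ≤ (T2 N p k l q).card)

/-- the pairs with a large prime power -/
def Gs (N p k l g t : ℕ) : Finset ℕ :=
  (R N p l).filter (fun q => q ^ 3 < t ∧ q ^ g < t ^ (A k l q).factorization t)

/-- `q` such that `A q` is divisible by a large power of a large prime -/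
def C3 (N p k l g : ℕ) : Finset ℕ := (T N p l).biUnion (Gs N p k l g)

include C

lemma P_pos {q : ℕ} {S : Finset ℕ} (hS : S ⊆ T N p l) : 0 < P k l q S :=
  Finset.prod_pos (fun t ht => pow_pos (C.mem_T (hS ht)).2.2.1.pos _)

lemma A_fac' {q : ℕ} (hq : q ∈ R N p l) :
    A k l q = p ^ (A k l q).factorization p *
      (P k l q (T1 N p k l q) * P k l q (T2 N p k l q)) := by
  have h1 := C.A_fac hq
  have h2 : ∏ s ∈ T N p l, s ^ (A k l q).factorization s =
      P k l q (T1 N p k l q) * P k l q (T2 N p k l q) := by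
    unfold P T1 T2
    rw [mul_comm]
    exact (Finset.prod_filter_mul_prod_filter_not _ _ _).symm
  rw [← h2]
  exact h1

lemma R_cover {D g : ℕ} (hDg : 6 * (g * D) ≤ 2 * b + 1) :
    R N p l ⊆ (U N p b k l ∪ C1 N p b k l) ∪ (C2 N p k l D ∪ C3 N p k l g) := by
  classical
  intro q hq
  by_contra hcon
  simp only [Finset.mem_union, not_or] at hcon
  obtain ⟨⟨hU, hC1⟩, hC2, hC3⟩ := hcon
  have h1 : (p ^ (A k l q).factorization p) ^ 3 < q ^ (2 * b + 1) := by
    by_contra h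
    exact hU (Finset.mem_filter.2 ⟨hq, not_lt.1 h⟩)
  have h2 : (P k l q (T1 N p k l q)) ^ 6 ≤ q ^ (2 * b + 1) := by
    by_contra h
    exact hC1 (Finset.mem_filter.2 ⟨hq, not_le.1 h⟩)
  have h3 : (T2 N p k l q).card < D := by
    by_contra h
    exact hC2 (Finset.mem_filter.2 ⟨hq, not_lt.1 h⟩)
  obtain ⟨g1, g2, g3, g4, g5, g6⟩ := C.mem_R hq
  have h4 : P k l q (T2 N p k l q) ≤ q ^ (g * D) := by
    calc P k l q (T2 N p k l q) ≤ ∏ t ∈ T2 N p k l q, q ^ g := by
          apply Finset.prod_le_prod'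
          intro t ht
          obtain ⟨ht1, ht2, ht3⟩ := Finset.mem_filter.1 ht
          by_contra h
          exact hC3 (Finset.mem_biUnion.2 ⟨t, ht1,
            Finset.mem_filter.2 ⟨hq, ht3, not_le.1 h⟩⟩)
      _ = q ^ (g * (T2 N p k l q).card) := by rw [Finset.prod_const, ← pow_mul]
      _ ≤ _ := Nat.pow_le_pow_right (by omega) (Nat.mul_le_mul_left _ h3.le)
  have h5 : (P k l q (T2 N p k l q)) ^ 6 ≤ q ^ (2 * b + 1) := by
    calc _ ≤ (q ^ (g * D)) ^ 6 := Nat.pow_le_pow_left h4 6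
      _ = q ^ (g * D * 6) := by rw [← pow_mul]
      _ ≤ _ := Nat.pow_le_pow_right (by omega) (by omega)
  have h6 := A_big (k := k) (l := l) (q := q) (by omega) C.l_ge
  rw [← C.kl, C.A_fac' hq] at h6
  obtain ⟨x, hx⟩ : ∃ x, x = p ^ (A k l q).factorization p := ⟨_, rfl⟩
  obtain ⟨y, hy⟩ : ∃ y, y = P k l q (T1 N p k l q) := ⟨_, rfl⟩
  obtain ⟨z, hz⟩ : ∃ z, z = P k l q (T2 N p k l q) := ⟨_, rfl⟩
  obtain ⟨w, hw⟩ : ∃ w, w = q ^ (2 * b + 1) := ⟨_, rfl⟩
  have hw2 : q ^ (2 * (2 * b + 1)) = w * w := by rw [hw, two_mul, pow_add]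
  have hy0 : 0 < y := by rw [hy]; exact C.P_pos (Finset.filter_subset _ _)
  have hz0 : 0 < z := by rw [hz]; exact C.P_pos (Finset.filter_subset _ _)
  rw [← hx, ← hw] at h1
  rw [← hy, ← hw] at h2
  rw [← hz, ← hw] at h5
  rw [← hx, ← hy, ← hz, hw2] at h6
  -- w^2 ≤ x^3 (yz)^3 < w (yz)^3, so w < (yz)^3, w^2 < (yz)^6 ≤ w^2
  have h7 : w * w < w * (y * z) ^ 3 := by
    calc w * w ≤ (x * (y * z)) ^ 3 := h6
      _ = x ^ 3 * (y * z) ^ 3 := by rw [mul_pow]
      _ < w * (y * z) ^ 3 := Nat.mul_lt_mul_of_pos_right h1 (by positivity)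
  have h8 : w < (y * z) ^ 3 := Nat.lt_of_mul_lt_mul_left h7
  have h9 : w * w < w * w := by
    calc w * w < (y * z) ^ 3 * (y * z) ^ 3 := Nat.mul_lt_mul'' h8 h8
      _ = y ^ 6 * z ^ 6 := by ring
      _ ≤ w * w := Nat.mul_le_mul h2 h5
  exact lt_irrefl _ h9

lemma C1_card : (C1 N p b k l).card ≤ 36 * b := by
  classical
  have hsub : C1 N p b k l ⊆ R N p l := Finset.filter_subset _ _
  have h1 : ∀ q ∈ C1 N p b k l,
      2 * b + 1 ≤ 18 * ∑ s ∈ T N p l, (A k l q).factorization s := by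
    intro q hq
    obtain ⟨hqR, h2⟩ := Finset.mem_filter.1 hq
    obtain ⟨g1, g2, g3, g4, g5, g6⟩ := C.mem_R hqR
    obtain ⟨H, hH⟩ : ∃ H, H = ∑ s ∈ T N p l, (A k l q).factorization s := ⟨_, rfl⟩
    rw [← hH]
    have hB : P k l q (T1 N p k l q) ≤ q ^ (3 * H) := by
      calc P k l q (T1 N p k l q) ≤ ∏ s ∈ T1 N p k l q, (q ^ 3) ^ (A k l q).factorization s := by
            apply Finset.prod_le_prod'
            intro s hs
            obtain ⟨hs1, hs2⟩ := Finset.mem_filter.1 hs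
            by_cases h4 : (A k l q).factorization s = 0
            · rw [h4]; simp
            · apply Nat.pow_le_pow_left
              by_contra h5
              exact hs2 ⟨Nat.dvd_of_factorization_pos h4, not_le.1 h5⟩
        _ = (q ^ 3) ^ (∑ s ∈ T1 N p k l q, (A k l q).factorization s) :=
            Finset.prod_pow_eq_pow_sum _ _ _
        _ ≤ (q ^ 3) ^ H := by
            apply Nat.pow_le_pow_right (pow_pos g3.pos _)
            rw [hH]
            exact Finset.sum_le_sum_of_subset (Finset.filter_subset _ _)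
        _ = _ := by rw [← pow_mul]
    have h5 : q ^ (2 * b + 1) < q ^ (3 * H * 6) := by
      calc _ < (P k l q (T1 N p k l q)) ^ 6 := h2
        _ ≤ (q ^ (3 * H)) ^ 6 := Nat.pow_le_pow_left hB 6
        _ = _ := by rw [← pow_mul]
    have h6 := (Nat.pow_lt_pow_iff_right (by omega)).1 h5
    omega
  have h2 : (C1 N p b k l).card * (2 * b + 1) ≤
      ∑ q ∈ C1 N p b k l, 18 * ∑ s ∈ T N p l, (A k l q).factorization s := by
    rw [← smul_eq_mul]
    exact Finset.card_nsmul_le_sum _ _ _ h1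
  have h3 : ∑ q ∈ C1 N p b k l, 18 * ∑ s ∈ T N p l, (A k l q).factorization s =
      18 * ∑ s ∈ T N p l, ∑ q ∈ C1 N p b k l, (A k l q).factorization s := by
    rw [← Finset.mul_sum, Finset.sum_comm]
  have h4 : ∑ s ∈ T N p l, ∑ q ∈ C1 N p b k l, (A k l q).factorization s ≤
      (T N p l).card * (2 * b) := by
    rw [← smul_eq_mul]
    exact Finset.sum_le_card_nsmul _ _ _ (fun s hs => C.cap_T hs _ hsub)
  have h5 : (T N p l).card * (2 * b) ≤ (2 * b + 1) * (2 * b) := Nat.mul_le_mul_right _ C.T_card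
  have h6 : (C1 N p b k l).card * (2 * b + 1) ≤ (36 * b) * (2 * b + 1) := by
    calc _ ≤ 18 * ((2 * b + 1) * (2 * b)) := by
          rw [h3] at h2
          exact le_trans h2 (Nat.mul_le_mul_left _ (le_trans h4 h5))
      _ = _ := by ring
  exact Nat.le_of_mul_le_mul_right h6 (by omega)

lemma C2_card {D : ℕ} (hD : 1 ≤ D) (hn : 6 * (2 * b + 1) < (15 * D) ^ 3) :
    (C2 N p k l D).card ≤ 15 * (2 * b + 1) := by
  classical
  -- each t has fewer than 15 D partners
  have h1 : ∀ t ∈ T N p l, ((C2 N p k l D).filter (fun q => t ∣ A k l q ∧ q ^ 3 < t)).card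
      ≤ 15 * D := by
    intro t ht
    obtain ⟨g1, g2, g3, g4, g5, g6⟩ := C.mem_T ht
    have h2 := gap_three g3 (by omega) (n := 2 * b + 1) (by omega)
      ((C2 N p k l D).filter (fun q => t ∣ A k l q ∧ q ^ 3 < t)) (by
        intro q hq
        obtain ⟨h3, h4, h5⟩ := Finset.mem_filter.1 hq
        refine ⟨(C.mem_R (Finset.mem_filter.1 h3).1).2.2.1, h5, ?_⟩
        rw [C.kl]
        exact A_root h4)
    have h3 := lt_of_le_of_lt h2 hn
    exact (lt_of_pow_lt_pow_left₀ 3 (by omega) h3).le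
  have h2 : (C2 N p k l D).card * D ≤ ∑ q ∈ C2 N p k l D, (T2 N p k l q).card := by
    rw [← smul_eq_mul]
    exact Finset.card_nsmul_le_sum _ _ _ (fun q hq => (Finset.mem_filter.1 hq).2)
  have h3 : ∑ q ∈ C2 N p k l D, (T2 N p k l q).card =
      ∑ t ∈ T N p l, ((C2 N p k l D).filter (fun q => t ∣ A k l q ∧ q ^ 3 < t)).card := by
    simp only [T2, Finset.card_filter]
    exact Finset.sum_comm
  have h4 : ∑ t ∈ T N p l, ((C2 N p k l D).filter (fun q => t ∣ A k l q ∧ q ^ 3 < t)).card ≤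
      (T N p l).card * (15 * D) := by
    rw [← smul_eq_mul]
    exact Finset.sum_le_card_nsmul _ _ _ h1
  have h5 : (T N p l).card * (15 * D) ≤ (2 * b + 1) * (15 * D) := Nat.mul_le_mul_right _ C.T_card
  have h6 : (C2 N p k l D).card * D ≤ (15 * (2 * b + 1)) * D := by
    calc _ ≤ (2 * b + 1) * (15 * D) := by rw [h3] at h2; exact le_trans h2 (le_trans h4 h5)
      _ = _ := by ring
  exact Nat.le_of_mul_le_mul_right h6 hD

lemma k_pos : 1 ≤ k := by
  rcases Nat.eq_zero_or_pos k with h | h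
  · have := C.kl
    rw [h] at this
    omega
  · exact h

/-- Two primes with large powers of `t` -/
lemma Gs_gap {g I J G t : ℕ} (ht : t ∈ T N p l) (hIJ : 2 * b + 1 < (I + 1) * (J + 1))
    (hg : I + G * J ≤ g) {q q' : ℕ} (hq : q ∈ Gs N p k l g t) (hq' : q' ∈ Gs N p k l g t)
    (hlt : q < q') : q ^ G < q' := by
  obtain ⟨h1, h2, h3⟩ := Finset.mem_filter.1 hq
  obtain ⟨h1', h2', h3'⟩ := Finset.mem_filter.1 hq'
  obtain ⟨g1, g2, g3, g4, g5, g6⟩ := C.mem_R h1
  obtain ⟨g1', g2', g3', g4', g5', g6'⟩ := C.mem_R h1'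
  obtain ⟨t1, t2, t3, t4, t5, t6⟩ := C.mem_T ht
  obtain ⟨α, hα⟩ : ∃ α, α = min ((A k l q).factorization t) ((A k l q').factorization t) := ⟨_, rfl⟩
  have hd1 : t ^ α ∣ A k l q :=
    dvd_trans (pow_dvd_pow t (by rw [hα]; exact min_le_left _ _)) (Nat.ordProj_dvd _ _)
  have hd2 : t ^ α ∣ A k l q' :=
    dvd_trans (pow_dvd_pow t (by rw [hα]; exact min_le_right _ _)) (Nat.ordProj_dvd _ _)
  have hr1 := A_root hd1
  have hr2 := A_root hd2
  rw [← C.kl] at hr1 hr2
  have hgap := gap_two (I := I) (J := J) t3 (by omega) (by omega) g3 g3' hlt.ne hr1 hr2 hIJ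
  have h4 : q ^ g < t ^ α := by
    rcases le_total ((A k l q).factorization t) ((A k l q').factorization t) with h | h
    · rw [hα, min_eq_left h]; exact h3
    · rw [hα, min_eq_right h]
      exact lt_of_le_of_lt (Nat.pow_le_pow_left hlt.le _) h3'
  by_contra hcon
  push Not at hcon
  have h5 : t ^ α ≤ q ^ g := by
    calc t ^ α ≤ q ^ I * q' ^ J := hgap
      _ ≤ q ^ I * (q ^ G) ^ J := Nat.mul_le_mul_left _ (Nat.pow_le_pow_left hcon _)
      _ = q ^ (I + G * J) := by rw [← pow_mul, ← pow_add]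
      _ ≤ _ := Nat.pow_le_pow_right (by omega) hg
  omega

lemma Gs_card {g I J G m t : ℕ} (ht : t ∈ T N p l) (hIJ : 2 * b + 1 < (I + 1) * (J + 1))
    (hg : I + G * J ≤ g) (hm : 2 * b + 1 ≤ 3 * G ^ m) : (Gs N p k l g t).card ≤ m := by
  by_contra hcon
  push Not at hcon
  obtain ⟨W, hW, hWc⟩ := Finset.exists_subset_card_eq (Nat.succ_le_of_lt hcon)
  obtain ⟨q₀, hq₀, q, hq, hqq⟩ := big_ratio G m W hWc
    (fun q hq q' hq' h => C.Gs_gap ht hIJ hg (hW hq) (hW hq') h)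
  obtain ⟨h1, h2, h3⟩ := Finset.mem_filter.1 (hW hq)
  obtain ⟨h1', h2', h3'⟩ := Finset.mem_filter.1 (hW hq₀)
  obtain ⟨g1, g2, g3, g4, g5, g6⟩ := C.mem_R h1'
  obtain ⟨t1, t2, t3, t4, t5, t6⟩ := C.mem_T ht
  have hv : 1 ≤ (A k l q₀).factorization t := by
    by_contra h
    have h0 : (A k l q₀).factorization t = 0 := by omega
    rw [h0, pow_zero] at h3'
    have := pow_pos g3.pos g
    omega
  have h4 : t ∣ A k l q₀ := Nat.dvd_of_factorization_pos (by omega)
  have h5 : t ≤ A k l q₀ := Nat.le_of_dvd (A_pos C.lprime.one_lt.le) h4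
  have h6 : A k l q₀ < q₀ ^ (k * l) := A_lt C.k_pos g3.two_le
  have h7 : q₀ ^ (G ^ m * 3) < q₀ ^ (k * l) := by
    calc q₀ ^ (G ^ m * 3) = (q₀ ^ G ^ m) ^ 3 := by rw [pow_mul]
      _ ≤ q ^ 3 := Nat.pow_le_pow_left hqq 3
      _ < t := h2
      _ < _ := lt_of_le_of_lt h5 h6
  have h8 := (Nat.pow_lt_pow_iff_right (by omega)).1 h7
  rw [← C.kl] at h8
  omega

/-- The bound in terms of an auxiliary parameter `D`. -/
theorem omega_lin {D : ℕ} (hD : 4 ≤ D) (hD1 : 288 * D ^ 3 ≤ 2 * b + 1)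
    (hD2 : 2 * (2 * b + 1) < 1125 * D ^ 3) :
    N.primeFactors.card ≤ (U N p b k l).card + (2 * b + 2 + 36 * b + 20 * (2 * b + 1)) := by
  classical
  obtain ⟨g, hg⟩ : ∃ g, g = (2 * b + 1) / (6 * D) := ⟨_, rfl⟩
  have hgD : 6 * (g * D) ≤ 2 * b + 1 := by
    have := Nat.div_mul_le_self (2 * b + 1) (6 * D)
    rw [← hg] at this
    calc 6 * (g * D) = g * (6 * D) := by ring
      _ ≤ _ := this
  obtain ⟨I, hI⟩ : ∃ I, I = (2 * b + 1) / (12 * D + 1) := ⟨_, rfl⟩
  have hIJ : 2 * b + 1 < (I + 1) * (12 * D + 1) := by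
    rw [hI]
    exact (Nat.div_lt_iff_lt_mul (by omega)).1 (Nat.lt_succ_self _)
  have hIg : I + (2 * D) * (12 * D) ≤ g := by
    rw [hg, Nat.le_div_iff_mul_le (by omega)]
    have h1 := Nat.div_mul_le_self (2 * b + 1) (12 * D + 1)
    rw [← hI] at h1
    have h2 : 2 * ((I + 2 * D * (12 * D)) * (6 * D)) = I * (12 * D) + 288 * D ^ 3 := by ring
    have h3 : I * (12 * D + 1) = I * (12 * D) + I := by ring
    omega
  have hG5 : 2 * b + 1 ≤ 3 * (2 * D) ^ 5 := by
    have h1 : 3 * (2 * D) ^ 5 = 96 * D ^ 2 * D ^ 3 := by ring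
    have h2 : 16 ≤ D ^ 2 := by nlinarith
    have h3 : 96 * 16 * D ^ 3 ≤ 96 * D ^ 2 * D ^ 3 :=
      Nat.mul_le_mul_right _ (Nat.mul_le_mul_left _ h2)
    omega
  have h1 := C.R_cover (D := D) (g := g) hgD
  have h2 := Finset.card_le_card h1
  have h3 := Finset.card_union_le (U N p b k l ∪ C1 N p b k l) (C2 N p k l D ∪ C3 N p k l g)
  have h4 := Finset.card_union_le (U N p b k l) (C1 N p b k l)
  have h5 := Finset.card_union_le (C2 N p k l D) (C3 N p k l g)
  have h6 := C.C1_card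
  have h7 := C.C2_card (D := D) (by omega) (by
    have : (15 * D) ^ 3 = 3 * (1125 * D ^ 3) := by ring
    omega)
  have h8 : (C3 N p k l g).card ≤ (T N p l).card * 5 := by
    apply Finset.card_biUnion_le_card_mul
    intro t ht
    exact C.Gs_card ht hIJ hIg hG5
  have h9 := C.T_card
  have h10 := C.card_split
  omega

end LCtx

/-- existence of the parameter -/
lemma exists_D {n : ℕ} (hn : 36000 ≤ n) : ∃ D, 4 ≤ D ∧ 288 * D ^ 3 ≤ n ∧ 2 * n < 1125 * D ^ 3 := by
  classical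
  have hex : ∃ D, 2 * n < 1125 * D ^ 3 := ⟨n, by
    have : n ≤ n ^ 3 := Nat.le_self_pow (by norm_num) n
    have h0 : 0 < n ^ 3 := by positivity
    omega⟩
  obtain ⟨D, hD, hmin⟩ : ∃ D, 2 * n < 1125 * D ^ 3 ∧ ∀ D', D' < D → ¬ 2 * n < 1125 * D' ^ 3 :=
    ⟨Nat.find hex, Nat.find_spec hex, fun D' h => Nat.find_min hex h⟩
  have h5 : 5 ≤ D := by
    by_contra h
    push Not at h
    have h1 : D ^ 3 ≤ 4 ^ 3 := Nat.pow_le_pow_left (by omega) 3
    norm_num at h1
    omega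
  refine ⟨D, by omega, ?_, hD⟩
  have h1 := hmin (D - 1) (by omega)
  push Not at h1
  obtain ⟨e, rfl⟩ : ∃ e, D = e + 5 := ⟨D - 5, by omega⟩
  have e1 : e + 5 - 1 = e + 4 := by omega
  rw [e1] at h1
  have h2 : 2 * (288 * (e + 5) ^ 3) ≤ 1125 * (e + 4) ^ 3 := by
    nlinarith [Nat.zero_le e, Nat.zero_le (e ^ 2), Nat.zero_le (e ^ 3)]
  omega

/-- An odd perfect number all of whose even exponents equal `2 b`, `b ≥ 300`, has at most
`100 b` distinct prime factors. -/
theorem equal_exponents (N b : ℕ) (hodd : Odd N) (hperf : N.Perfect) (hb : 300 ≤ b)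
    (h : ∀ q : ℕ, q.Prime → q ∣ N → Even (N.factorization q) → N.factorization q = 2 * b)
    (hup : N ^ 8 < 2 ^ (7 * 4 ^ N.primeFactors.card)) :
    N.primeFactors.card ≤ 100 * b := by
  obtain ⟨p, hp, hp4, ha4, hev⟩ := Pool.Agent.Lib.MP_f02ea4_nt.Rad.euler hodd hperf
  have C : ECtx N p b := ⟨Nat.odd_iff.1 hodd, hperf, hp, fun q hq hqp =>
    h q (Nat.prime_of_mem_primeFactors hq) (Nat.dvd_of_mem_primeFactors hq)
      (Nat.even_iff.2 (hev q hq hqp))⟩
  obtain ⟨l, hl, ⟨k, hk⟩, hlp⟩ := C.exists_ell (by omega)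
  have D : LCtx N p b k l := { toECtx := C, lprime := hl, kl := by rw [hk, mul_comm], lp := hlp }
  rcases lt_or_ge (2 * b + 1) 924 with c1 | c1
  · have h1 := D.omega_le hb hup (G := 20) (u := 4) (w := 17) (h := 6) (by omega) (by norm_num)
      (by norm_num) (by norm_num) (lt_of_lt_of_eq c1 (by decide))
    omega
  rcases lt_or_ge (2 * b + 1) 3432 with c2 | c2
  · have h1 := D.omega_le hb hup (G := 30) (u := 10) (w := 49) (h := 7) (by omega) (by norm_num)
      (by norm_num) (by norm_num) (lt_of_lt_of_eq c2 (by decide))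
    omega
  rcases lt_or_ge (2 * b + 1) 12870 with c3 | c3
  · have h1 := D.omega_le hb hup (G := 64) (u := 1) (w := 6) (h := 8) (by omega) (by norm_num)
      (by norm_num) (by norm_num) (lt_of_lt_of_eq c3 (by decide))
    omega
  rcases lt_or_ge (2 * b + 1) 48620 with c4 | c4
  · have h1 := D.omega_le hb hup (G := 256) (u := 1) (w := 8) (h := 9) (by omega) (by norm_num)
      (by norm_num) (by norm_num) (lt_of_lt_of_eq c4 (by decide))
    omega
  obtain ⟨d, hd4, hd1, hd2⟩ := exists_D (n := 2 * b + 1) (by omega)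
  have h1 := D.omega_lin hd4 hd1 hd2
  have h2 := D.U_card hb hup (G := 1024) (u := 1) (w := 10) (by omega) (by norm_num)
      (by norm_num) (by norm_num)
  omega

end Pool.Agent.Lib.MP_f02ea4_nt.Equ
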