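import Mathlib
import Pool.Agent.Lib.MP_f02ea4_nt.EqLin
import Pool.Agent.Lib.MP_f02ea4_nt.Mg.G005

/-!
If `N` is an odd perfect number all of whose even exponents are equal to `2 b`, with
`b ≥ 300`, then `N` has at most `100 b` distinct prime factors, and `N < 2 ^ 4 ^ (100 b)`.
-/

set_option autoImplicit false

namespace Pool.Agent.Lib.MP_f02ea4_nt.EqResult

/-- All even exponents equal. -/
theorem equal_exponents (N b : ℕ) (hodd : Odd N) (hperf : N.Perfect) (hb : 300 ≤ b)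
    (h : ∀ q : ℕ, q.Prime → q ∣ N → Even (N.factorization q) → N.factorization q = 2 * b) :
    N.primeFactors.card ≤ 100 * b ∧ N < 2 ^ 4 ^ (100 * b) := by
  have hup := Pool.Agent.Lib.MP_f02ea4_nt.EqUpper.upper N hodd hperf
  have h1 := Pool.Agent.Lib.MP_f02ea4_nt.Equ.equal_exponents N b hodd hperf hb h hup
  refine ⟨h1, ?_⟩
  have h2 : (4 : ℕ) ^ N.primeFactors.card ≤ 4 ^ (100 * b) := Nat.pow_le_pow_right (by norm_num) h1
  have h3 : N ^ 8 < (2 ^ 4 ^ (100 * b)) ^ 8 := by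
    calc N ^ 8 < 2 ^ (7 * 4 ^ N.primeFactors.card) := hup
      _ ≤ 2 ^ (4 ^ (100 * b) * 8) := Nat.pow_le_pow_right (by norm_num) (by omega)
      _ = _ := by rw [pow_mul]
  exact lt_of_pow_lt_pow_left₀ 8 (Nat.zero_le _) h3

end Pool.Agent.Lib.MP_f02ea4_nt.EqResult
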