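import Mathlib
import Pool.Agent.Lib.MP_f02ea4_nt.ExcZ

/-!
Explicit bound for the sum of the reciprocals of the admissible primes up to about `10 ^ 6`.
-/

set_option autoImplicit false

namespace Pool.Agent.Lib.MP_f02ea4_nt.Exc

open Finset

/-- Admissible residues modulo `2730`. -/
def resList : List ℕ := [
  1, 17, 19, 31, 41, 43, 47, 59, 71, 73, 83, 89, 97, 101, 103, 127, 131, 157, 167, 173, 181,
  187, 197, 199, 209, 223, 227, 229, 239, 241, 251, 253, 257, 271, 281, 283, 293, 307, 311, 313,
  323, 337, 349, 353, 379, 383, 391, 397, 407, 409, 421, 433, 437, 439, 449, 461, 463, 467, 479,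
  491, 493, 509, 517, 521, 547, 551, 563, 577, 587, 589, 593, 617, 619, 629, 631, 643, 647, 649,
  661, 671, 673, 677, 691, 701, 703, 713, 719, 727, 733, 743, 761, 769, 773, 787, 797, 799, 803,
  811, 817, 827, 829, 839, 853, 857, 859, 869, 881, 883, 899, 901, 911, 929, 937, 941, 943, 953,
  967, 979, 983, 1007, 1009, 1013, 1021, 1037, 1039, 1051, 1063, 1067, 1081, 1091, 1093, 1097,
  1109, 1111, 1123, 1133, 1139, 1151, 1163, 1177, 1181, 1189, 1193, 1207, 1217, 1219, 1223,
  1237, 1247, 1249, 1259, 1273, 1279, 1289, 1291, 1301, 1307, 1319, 1321, 1331, 1333, 1343,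
  1349, 1357, 1363, 1373, 1399, 1403, 1427, 1429, 1441, 1447, 1457, 1471, 1483, 1487, 1489,
  1499, 1501, 1513, 1529, 1531, 1541, 1553, 1559, 1567, 1571, 1583, 1597, 1601, 1609, 1613,
  1627, 1637, 1639, 1643, 1657, 1669, 1679, 1681, 1697, 1709, 1711, 1721, 1723, 1727, 1739,
  1741, 1753, 1763, 1769, 1783, 1793, 1811, 1819, 1837, 1847, 1853, 1861, 1867, 1877, 1879,
  1889, 1891, 1903, 1909, 1919, 1921, 1931, 1949, 1951, 1961, 1973, 1987, 1991, 1993, 2003,
  2017, 2021, 2029, 2033, 2047, 2059, 2071, 2077, 2087, 2099, 2101, 2113, 2117, 2129, 2131,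
  2143, 2147, 2159, 2173, 2183, 2189, 2201, 2203, 2227, 2231, 2243, 2257, 2267, 2269, 2273,
  2281, 2287, 2299, 2309, 2311, 2329, 2339, 2341, 2351, 2357, 2371, 2381, 2383, 2393, 2399,
  2407, 2411, 2413, 2423, 2437, 2441, 2449, 2467, 2477, 2491, 2497, 2507, 2519, 2521, 2533,
  2537, 2539, 2549, 2563, 2567, 2579, 2581, 2591, 2593, 2617, 2621, 2623, 2633, 2647, 2651,
  2659, 2663, 2677, 2689, 2693, 2701, 2719, 2729]

/-- Admissibility test. -/
def adm (n : ℕ) : Bool := Nat.gcd (n * F n) ZF == 1

/-- Scaled sum of reciprocals of the admissible numbers in the `k`-th block of length `2730`. -/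
def blockSum (k : ℕ) : ℕ :=
  (resList.map fun a => if adm (2730 * k + a) = true then 10 ^ 12 / (2730 * k + a) + 1 else 0).sum

lemma resList_length : resList.length = 320 := by decide +kernel

lemma resList_nodup : resList.Nodup := by decide +kernel

lemma res_check : ((List.range 2730).all fun a =>
    !(Nat.gcd a 2730 == 1) || (F a % 7 == 0) || (F a % 13 == 0) || resList.elem a) = true := by
  decide +kernel

lemma blockSum_total : ((List.range 364).map fun k => blockSum (k + 3)).sum = 72113645758 := by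
  decide +kernel

lemma harm_total : ((List.range 1927).map fun k => 10 ^ 12 / (k + 367) + 1).sum = 1833835491469 := by
  decide +kernel

end Pool.Agent.Lib.MP_f02ea4_nt.Exc
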