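import Mathlib
import Pool.Agent.Lib.MP_f02ea4_nt.Mg.G002

/-!
Basic facts about an odd perfect number `N` with special prime `p`, all of whose even
exponents equal `2` except possibly the one of a number `r`.
-/

set_option autoImplicit false

namespace Pool.Agent.Lib.MP_f02ea4_nt.Exc

open Finset Pool.Agent.Lib.MP_f02ea4_nt.Rad

/-- `F q = q ^ 2 + q + 1`. -/
def F (q : ℕ) : ℕ := q * q + q + 1

lemma F_pos (q : ℕ) : 0 < F q := by unfold F; positivity

lemma sg_two (q : ℕ) : sg q 2 = F q := by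
  unfold sg F
  simp [Finset.sum_range_succ]
  ring

lemma F_odd (q : ℕ) : F q % 2 = 1 := by
  unfold F
  rcases Nat.even_or_odd' q with ⟨k, rfl | rfl⟩
  · have : (2 * k) * (2 * k) + 2 * k + 1 = 2 * (2 * k ^ 2 + k) + 1 := by ring
    omega
  · have : (2 * k + 1) * (2 * k + 1) + (2 * k + 1) + 1 = 2 * (2 * k ^ 2 + 3 * k + 1) + 1 := by ring
    omega

/-- A prime dividing `q ^ 2 + q + 1` is `3` or `1` mod `3`. -/
lemma F_mod3 {s q : ℕ} (hs : s.Prime) (h : s ∣ F q) : s = 3 ∨ s % 3 = 1 := by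
  haveI := Fact.mk hs
  have h0 : ((q : ZMod s)) ^ 2 + q + 1 = 0 := by
    have := (ZMod.natCast_eq_zero_iff (F q) s).2 h
    unfold F at this
    push_cast at this
    linear_combination this
  by_cases h1 : (q : ZMod s) = 1
  · left
    rw [h1] at h0
    have h3 : ((3 : ℕ) : ZMod s) = 0 := by
      push_cast
      linear_combination h0
    rw [ZMod.natCast_eq_zero_iff] at h3
    exact (Nat.prime_dvd_prime_iff_eq hs Nat.prime_three).1 h3
  · right
    have hcube : (q : ZMod s) ^ 3 = 1 := by linear_combination ((q : ZMod s) - 1) * h0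
    have hord : orderOf (q : ZMod s) = 3 := orderOf_eq_prime hcube h1
    have hne : (q : ZMod s) ≠ 0 := by
      intro h2
      rw [h2] at hcube
      simp at hcube
    have hd := ZMod.orderOf_dvd_card_sub_one hne
    rw [hord] at hd
    have := hs.two_le
    omega

lemma three_dvd_F {q : ℕ} (h : q % 3 = 1) : 3 ∣ F q := by
  unfold F
  have : (q * q + q + 1) % 3 = 0 := by
    simp [Nat.add_mod, Nat.mul_mod, h]
  omega

lemma three_not_dvd_F {q : ℕ} (h : q % 3 = 2) : ¬ 3 ∣ F q := by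
  unfold F
  have : (q * q + q + 1) % 3 = 1 := by
    simp [Nat.add_mod, Nat.mul_mod, h]
  omega

/-- The situation studied: `N` odd perfect with special prime `p`, every other prime factor
except possibly `r` having exponent `2`. -/
structure Ctx (N p r : ℕ) : Prop where
  odd : N % 2 = 1
  perf : N.Perfect
  pmem : p ∈ N.primeFactors
  p4 : p % 4 = 1
  a4 : N.factorization p % 4 = 1
  two : ∀ q ∈ N.primeFactors, q ≠ p → q ≠ r → N.factorization q = 2
  ev : ∀ q ∈ N.primeFactors, q ≠ p → N.factorization q % 2 = 0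

namespace Ctx

variable {N p r : ℕ} (C : Ctx N p r)

include C

lemma npos : 0 < N := C.perf.2

lemma pprime : p.Prime := Nat.prime_of_mem_primeFactors C.pmem

lemma mem {s : ℕ} (hs : s.Prime) (h : s ∣ N) : s ∈ N.primeFactors :=
  Nat.mem_primeFactors.2 ⟨hs, h, C.npos.ne'⟩

lemma ne_two {s : ℕ} (h : s ∣ N) : s ≠ 2 := by
  rintro rfl
  have := C.odd
  omega

lemma odd_of_dvd {s : ℕ} (h : s ∣ N) : s % 2 = 1 := by
  obtain ⟨k, hk⟩ := h
  have := C.odd
  rw [hk, Nat.mul_mod] at this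
  rcases Nat.mod_two_eq_zero_or_one s with h | h
  · rw [h] at this; simp at this
  · exact h

/-- An odd prime dividing the divisor sum of a component divides `N`. -/
lemma dvd_of_sg {q s : ℕ} (hq : q ∈ N.primeFactors) (hs : s.Prime) (hs2 : s ≠ 2)
    (h : s ∣ sg q (N.factorization q)) : s ∣ N := by
  have h1 : s ∣ 2 * N := by
    rw [← perfect_eq C.perf]
    exact dvd_trans h (Finset.dvd_prod_of_mem (fun q => sg q (N.factorization q)) hq)
  rcases (Nat.Prime.dvd_mul hs).1 h1 with h2 | h2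
  · exact absurd ((Nat.prime_dvd_prime_iff_eq hs Nat.prime_two).1 h2) hs2
  · exact h2

/-- A prime factor of `q ^ 2 + q + 1` divides `N` when `q` is an ordinary prime factor. -/
lemma nS {q s : ℕ} (hq : q ∈ N.primeFactors) (hqp : q ≠ p) (hqr : q ≠ r) (hs : s.Prime)
    (h : s ∣ F q) : s ∣ N := by
  refine C.dvd_of_sg hq hs ?_ ?_
  · rintro rfl
    have := F_odd q
    omega
  · rw [C.two q hq hqp hqr, sg_two]
    exact h

lemma sg_odd_exp (x k : ℕ) : (x + 1) ∣ sg x (2 * k + 1) := by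
  unfold sg
  have : ∀ k : ℕ, (x + 1) ∣ ∑ i ∈ range (2 * k + 2), x ^ i := by
    intro k
    induction k with
    | zero => simp [Finset.sum_range_succ]; rw [add_comm]
    | succ k ih =>
      rw [show 2 * (k + 1) + 2 = (2 * k + 2) + 1 + 1 by ring, Finset.sum_range_succ,
        Finset.sum_range_succ]
      have h2 : x ^ (2 * k + 2) + x ^ (2 * k + 2 + 1) = (x + 1) * x ^ (2 * k + 2) := by ring
      rw [add_assoc, h2]
      exact dvd_add ih (Dvd.intro _ rfl)
  exact this k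

/-- An odd prime factor of `p + 1` divides `N`. -/
lemma nP {s : ℕ} (hs : s.Prime) (hs2 : s ≠ 2) (h : s ∣ p + 1) : s ∣ N := by
  refine C.dvd_of_sg C.pmem hs hs2 ?_
  have h4 := C.a4
  obtain ⟨k, hk⟩ : ∃ k, N.factorization p = 2 * k + 1 := ⟨(N.factorization p) / 2, by omega⟩
  rw [hk]
  exact dvd_trans h (C.sg_odd_exp p k)

/-- Capacity: powers of an odd prime `s` dividing the divisor sums of distinct components. -/
lemma cap {s : ℕ} (hs : s.Prime) (hs2 : s ≠ 2) (Q : Finset ℕ) (hQ : Q ⊆ N.primeFactors)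
    (k : ℕ → ℕ) (h : ∀ q ∈ Q, s ^ (k q) ∣ sg q (N.factorization q)) :
    ∑ q ∈ Q, k q ≤ N.factorization s := by
  have h1 : s ^ (∑ q ∈ Q, k q) ∣ 2 * N := by
    rw [← perfect_eq C.perf, ← Finset.prod_pow_eq_pow_sum]
    exact dvd_trans (Finset.prod_dvd_prod_of_dvd _ _ h) (Finset.prod_dvd_prod_of_subset _ _ _ hQ)
  have hco : Nat.Coprime (s ^ (∑ q ∈ Q, k q)) 2 := by
    apply Nat.Coprime.pow_left
    exact (Nat.coprime_primes hs Nat.prime_two).2 hs2
  have h2 : s ^ (∑ q ∈ Q, k q) ∣ N := hco.dvd_of_dvd_mul_left h1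
  exact (hs.pow_dvd_iff_le_factorization C.npos.ne').1 h2

lemma cap_card {s : ℕ} (hs : s.Prime) (hs2 : s ≠ 2) (Q : Finset ℕ) (hQ : Q ⊆ N.primeFactors)
    (h : ∀ q ∈ Q, s ∣ sg q (N.factorization q)) :
    Q.card ≤ N.factorization s := by
  have := C.cap hs hs2 Q hQ (fun _ => 1) (by simpa using h)
  simpa using this

end Ctx

/-- Inverse abundancy of a prime power. -/
noncomputable def gi (N q : ℕ) : ℚ := (q : ℚ) ^ (N.factorization q) / (sg q (N.factorization q) : ℚ)

lemma sg_posQ (q e : ℕ) : (0 : ℚ) < (sg q e : ℚ) := by exact_mod_cast sg_pos q e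

lemma gi_nonneg (N q : ℕ) : 0 ≤ gi N q := by
  unfold gi
  have := sg_posQ q (N.factorization q)
  positivity

lemma gi_le_one (N q : ℕ) : gi N q ≤ 1 := by
  unfold gi
  rw [div_le_one (sg_posQ _ _)]
  exact_mod_cast pow_le_sg q (N.factorization q)

lemma sg_mul_sub (q e : ℕ) : (sg q e : ℚ) * ((q : ℚ) - 1) = (q : ℚ) ^ (e + 1) - 1 := by
  unfold sg
  push_cast
  exact geom_sum_mul _ _

lemma gi_lower (N : ℕ) {q : ℕ} (hq : q.Prime) : 1 - 1 / (q : ℚ) ≤ gi N q := by
  unfold gi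
  have h1 := sg_posQ q (N.factorization q)
  have hq0 : (0 : ℚ) < q := by exact_mod_cast hq.pos
  rw [le_div_iff₀ h1]
  have h2 := sg_mul_sub q (N.factorization q)
  have h3 : (1 - 1 / (q : ℚ)) * (sg q (N.factorization q) : ℚ)
      = ((sg q (N.factorization q) : ℚ) * ((q : ℚ) - 1)) / q := by
    field_simp
  rw [h3, h2, pow_succ, div_le_iff₀ hq0]
  linarith

lemma gi_two {N q : ℕ} (h : N.factorization q = 2) : gi N q = (q : ℚ) ^ 2 / (F q : ℚ) := by
  unfold gi
  rw [h, sg_two]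

lemma gi_upper {N q : ℕ} (hq : q.Prime) (h : 1 ≤ N.factorization q) :
    gi N q ≤ (q : ℚ) / (q + 1) := by
  unfold gi
  have hq0 : (0 : ℚ) < q := by exact_mod_cast hq.pos
  rw [div_le_div_iff₀ (sg_posQ _ _) (by linarith)]
  obtain ⟨e, he⟩ : ∃ e, N.factorization q = e + 1 := ⟨N.factorization q - 1, by omega⟩
  rw [he]
  have h2 : ((q : ℚ) ^ e + q ^ (e + 1)) ≤ (sg q (e + 1) : ℚ) := by
    unfold sg
    push_cast
    rw [Finset.sum_range_succ, Finset.sum_range_succ]
    have : (0 : ℚ) ≤ ∑ x ∈ range e, (q : ℚ) ^ x := Finset.sum_nonneg (fun i _ => by positivity)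
    linarith
  have h3 : (q : ℚ) ^ (e + 1) * (q + 1) = q * ((q : ℚ) ^ e + q ^ (e + 1)) := by ring
  rw [h3]
  exact mul_le_mul_of_nonneg_left h2 hq0.le

lemma prod_gi {N : ℕ} (hN : N.Perfect) : ∏ q ∈ N.primeFactors, gi N q = 1 / 2 := by
  unfold gi
  rw [Finset.prod_div_distrib]
  have h1 : (∏ q ∈ N.primeFactors, ((q : ℚ) ^ (N.factorization q))) = (N : ℚ) := by
    have := Nat.prod_factorization_pow_eq_self hN.2.ne'
    rw [Finsupp.prod, Nat.support_factorization] at this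
    exact_mod_cast this
  have h2 : (∏ q ∈ N.primeFactors, (sg q (N.factorization q) : ℚ)) = 2 * (N : ℚ) := by
    have := perfect_eq hN
    exact_mod_cast this
  rw [h1, h2]
  have : (N : ℚ) ≠ 0 := by exact_mod_cast hN.2.ne'
  field_simp

/-- The product of the upper bounds over some primes dividing `N` is at least `1/2`. -/
lemma half_le {N : ℕ} (hN : N.Perfect) {T : Finset ℕ} (hT : T ⊆ N.primeFactors) (u : ℕ → ℚ)
    (hu : ∀ q ∈ T, gi N q ≤ u q) : 1 / 2 ≤ ∏ q ∈ T, u q := by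
  rw [← prod_gi hN, ← Finset.prod_sdiff hT]
  calc _ ≤ 1 * ∏ q ∈ T, gi N q := by
        apply mul_le_mul_of_nonneg_right
        · exact Finset.prod_le_one (fun q _ => gi_nonneg N q) (fun q _ => gi_le_one N q)
        · exact Finset.prod_nonneg (fun q _ => gi_nonneg N q)
    _ = ∏ q ∈ T, gi N q := one_mul _
    _ ≤ _ := Finset.prod_le_prod (fun q _ => gi_nonneg N q) hu

/-- `∏ (1 - 1/q) ≥ 1 - ∑ 1/q`. -/
lemma one_sub_sum_le (R : Finset ℕ) : 1 - ∑ q ∈ R, 1 / (q : ℚ) ≤ ∏ q ∈ R, (1 - 1 / (q : ℚ)) := by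
  classical
  induction R using Finset.induction_on with
  | empty => simp
  | insert a R ha ih =>
    rw [Finset.sum_insert ha, Finset.prod_insert ha]
    have h1 : (0 : ℚ) ≤ 1 / (a : ℚ) := by positivity
    have h1' : 1 / (a : ℚ) ≤ 1 := by
      rcases Nat.eq_zero_or_pos a with h | h
      · subst h; simp
      · rw [div_le_one (by exact_mod_cast h)]; exact_mod_cast h
    have h2 : 0 ≤ ∑ q ∈ R, 1 / (q : ℚ) := Finset.sum_nonneg (fun q _ => by positivity)
    have h3 : (1 - 1 / (a : ℚ)) * (1 - ∑ q ∈ R, 1 / (q : ℚ)) ≤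
        (1 - 1 / (a : ℚ)) * ∏ q ∈ R, (1 - 1 / (q : ℚ)) :=
      mul_le_mul_of_nonneg_left ih (by linarith)
    have h4 := mul_nonneg h1 h2
    linarith [h3, h4, sq_nonneg (1 / (a : ℚ))]

/-- Main upper-bound tool: if the prime factors of `N` lie in `A ∪ R` then
`∏_A g * (1 - ∑_R 1/q) ≤ 1/2` for lower bounds `g` of the inverse abundancies. -/
lemma key {N : ℕ} (hN : N.Perfect) (A R : Finset ℕ) (hsub : N.primeFactors ⊆ A ∪ R)
    (g : ℕ → ℚ) (hg0 : ∀ q ∈ A, 0 ≤ g q) (hg1 : ∀ q ∈ A, g q ≤ 1)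
    (hg : ∀ q ∈ A, q ∈ N.primeFactors → g q ≤ gi N q) :
    (∏ q ∈ A, g q) * (1 - ∑ q ∈ R, 1 / (q : ℚ)) ≤ 1 / 2 := by
  classical
  have hA0 : 0 ≤ ∏ q ∈ A, g q := Finset.prod_nonneg hg0
  have hR : ∏ q ∈ R, (1 - 1 / (q : ℚ)) ≤ ∏ q ∈ (N.primeFactors \ A), gi N q := by
    have hss : (N.primeFactors \ A) ⊆ R := by
      intro q hq
      rw [Finset.mem_sdiff] at hq
      have := hsub hq.1
      rw [Finset.mem_union] at this
      tauto
    rw [← Finset.prod_sdiff hss]
    have h01 : ∀ q : ℕ, 0 ≤ 1 - 1 / (q : ℚ) ∧ 1 - 1 / (q : ℚ) ≤ 1 := by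
      intro q
      constructor
      · have : 1 / (q : ℚ) ≤ 1 := by
          rcases Nat.eq_zero_or_pos q with h | h
          · subst h; simp
          · rw [div_le_one (by exact_mod_cast h)]; exact_mod_cast h
        linarith
      · have : 0 ≤ 1 / (q : ℚ) := by positivity
        linarith
    calc _ ≤ 1 * ∏ q ∈ (N.primeFactors \ A), (1 - 1 / (q : ℚ)) := by
          apply mul_le_mul_of_nonneg_right
          · exact Finset.prod_le_one (fun q _ => (h01 q).1) (fun q _ => (h01 q).2)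
          · exact Finset.prod_nonneg (fun q _ => (h01 q).1)
      _ = ∏ q ∈ (N.primeFactors \ A), (1 - 1 / (q : ℚ)) := one_mul _
      _ ≤ _ := Finset.prod_le_prod (fun q _ => (h01 q).1) (fun q hq =>
          gi_lower N (Nat.prime_of_mem_primeFactors (Finset.mem_sdiff.1 hq).1))
  have hAA : ∏ q ∈ A, g q ≤ ∏ q ∈ (N.primeFactors ∩ A), gi N q := by
    rw [← Finset.prod_sdiff (Finset.inter_subset_right (s₁ := N.primeFactors) (s₂ := A))]
    calc _ ≤ 1 * ∏ q ∈ (N.primeFactors ∩ A), g q := by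
          apply mul_le_mul_of_nonneg_right
          · exact Finset.prod_le_one (fun q hq => hg0 q (Finset.mem_sdiff.1 hq).1)
              (fun q hq => hg1 q (Finset.mem_sdiff.1 hq).1)
          · exact Finset.prod_nonneg (fun q hq => hg0 q (Finset.mem_inter.1 hq).2)
      _ = ∏ q ∈ (N.primeFactors ∩ A), g q := one_mul _
      _ ≤ _ := Finset.prod_le_prod (fun q hq => hg0 q (Finset.mem_inter.1 hq).2)
          (fun q hq => hg q (Finset.mem_inter.1 hq).2 (Finset.mem_inter.1 hq).1)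
  have hfin : (∏ q ∈ (N.primeFactors ∩ A), gi N q) * ∏ q ∈ (N.primeFactors \ A), gi N q = 1 / 2 := by
    rw [← prod_gi hN]
    rw [Finset.prod_inter_mul_prod_sdiff]
  have h1 := one_sub_sum_le R
  calc _ ≤ (∏ q ∈ A, g q) * ∏ q ∈ R, (1 - 1 / (q : ℚ)) := mul_le_mul_of_nonneg_left h1 hA0
    _ ≤ (∏ q ∈ A, g q) * ∏ q ∈ (N.primeFactors \ A), gi N q := mul_le_mul_of_nonneg_left hR hA0
    _ ≤ (∏ q ∈ (N.primeFactors ∩ A), gi N q) * ∏ q ∈ (N.primeFactors \ A), gi N q :=
        mul_le_mul_of_nonneg_right hAA (Finset.prod_nonneg (fun q _ => gi_nonneg N q))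
    _ = 1 / 2 := hfin

end Pool.Agent.Lib.MP_f02ea4_nt.Exc
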