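import Mathlib
import Pool.Agent.Lib.MP_f02ea4_nt.ExcBasic

/-!
Uniqueness of small roots of `x^2+x+1` modulo a prime power within a class modulo `3`, and the
resulting bound for sums of reciprocals.
-/

set_option autoImplicit false

namespace Pool.Agent.Lib.MP_f02ea4_nt.Exc

open Finset

lemma not_both {s q q' : ℕ} (hs : s.Prime) (hs3 : s % 3 = 1) (hlt : q' < q) (h : s ∣ F q)
    (h1 : s ∣ q - q') (h2 : s ∣ q + q' + 1) : False := by
  have h3 : s ∣ 2 * q + 1 := by
    have h5 : s ∣ (q - q') + (q + q' + 1) := dvd_add h1 h2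
    have h6 : (q - q') + (q + q' + 1) = 2 * q + 1 := by omega
    rwa [h6] at h5
  have h7 : s ∣ 4 * F q := Dvd.dvd.mul_left h 4
  have h8 : 4 * F q = (2 * q + 1) * (2 * q + 1) + 3 := by unfold F; ring
  rw [h8] at h7
  have h9 : s ∣ 3 := (Nat.dvd_add_right (Dvd.dvd.mul_left h3 _)).1 h7
  have := (Nat.prime_dvd_prime_iff_eq hs Nat.prime_three).1 h9
  omega

lemma pow_mod3 {s : ℕ} (hs3 : s % 3 = 1) (k : ℕ) : s ^ k % 3 = 1 := by
  rw [Nat.pow_mod, hs3]; simp

/-- At most one root of `x^2+x+1` below the prime power `s^k` in the class `c` modulo `3`. -/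
lemma unique_root {s k q q' c : ℕ} (hs : s.Prime) (hs3 : s % 3 = 1) (hc : c = 1 ∨ c = 2)
    (hq : q % 3 = c) (hq' : q' % 3 = c) (h : s ^ k ∣ F q) (h' : s ^ k ∣ F q')
    (hlt : q < s ^ k) (hlt' : q' < s ^ k) : q = q' := by
  wlog hle : q' ≤ q generalizing q q' with H
  · exact (H hq' hq h' h hlt' hlt (by omega)).symm
  rcases Nat.eq_or_lt_of_le hle with heq | hlt2
  · exact heq.symm
  exfalso
  rcases Nat.eq_zero_or_pos k with hk | hk
  · subst hk; simp at hlt hlt'; omega
  have hs1 : s ∣ F q := dvd_trans (dvd_pow_self s hk.ne') h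
  have hprod : s ^ k ∣ (q - q') * (q + q' + 1) := by
    have h2 : (q - q') * (q + q' + 1) = F q - F q' := by
      unfold F
      obtain ⟨j, rfl⟩ := Nat.exists_eq_add_of_lt hlt2
      have : q' + j + 1 - q' = j + 1 := by omega
      rw [this]
      symm
      apply Nat.sub_eq_of_eq_add
      ring
    rw [h2]
    exact Nat.dvd_sub h h'
  by_cases h1 : s ∣ q - q'
  · have h2 : ¬ s ∣ q + q' + 1 := fun h2 => not_both hs hs3 hlt2 hs1 h1 h2
    have hco : Nat.Coprime (s ^ k) (q + q' + 1) :=
      Nat.Coprime.pow_left _ ((Nat.Prime.coprime_iff_not_dvd hs).2 h2)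
    have h3 : s ^ k ∣ q - q' := hco.dvd_of_dvd_mul_right hprod
    have := Nat.le_of_dvd (by omega) h3
    omega
  · have hco : Nat.Coprime (s ^ k) (q - q') :=
      Nat.Coprime.pow_left _ ((Nat.Prime.coprime_iff_not_dvd hs).2 h1)
    have h3 : s ^ k ∣ q + q' + 1 := hco.dvd_of_dvd_mul_left hprod
    obtain ⟨m, hm⟩ := h3
    have hm1 : m = 1 := by
      have h4 : m < 2 := by
        by_contra hcon
        have h5 : s ^ k * 2 ≤ s ^ k * m := Nat.mul_le_mul_left _ (by omega)
        omega
      have h6 : m ≠ 0 := by rintro rfl; omega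
      omega
    rw [hm1, mul_one] at hm
    have := pow_mod3 hs3 k
    rcases hc with rfl | rfl <;> omega

/-- Sum of reciprocals of a set of numbers dominated by powers of `s`. -/
lemma dom_sum {s c : ℕ} (hs : s.Prime) (hs3 : s % 3 = 1) (hc : c = 1 ∨ c = 2) (D : Finset ℕ)
    (hD3 : ∀ q ∈ D, q % 3 = c) (hDom : ∀ q ∈ D, ∃ a, s ^ a ∣ F q ∧ q < s ^ a)
    (B j : ℕ) (hB : ∀ q ∈ D, B ≤ q) (hB0 : 0 < B) (hj : s ^ (j - 1) ≤ B) :
    ∑ q ∈ D, 1 / (q : ℚ) ≤ 1 / B + (1 / (s : ℚ)) ^ j * (s / (s - 1)) := by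
  classical
  have hs1 : 1 < s := hs.one_lt
  have hs1Q : (1 : ℚ) < s := by exact_mod_cast hs1
  have hinj : Set.InjOn (fun q => Nat.log s q) (D : Set ℕ) := by
    intro q hq q' hq' heq
    simp only at heq
    have hq0 : q ≠ 0 := by have := hB q hq; omega
    have hq0' : q' ≠ 0 := by have := hB q' hq'; omega
    have key : ∀ x ∈ D, s ^ (Nat.log s x + 1) ∣ F x ∧ x < s ^ (Nat.log s x + 1) := by
      intro x hx
      have hx0 : x ≠ 0 := by have := hB x hx; omega
      refine ⟨?_, Nat.lt_pow_succ_log_self hs1 x⟩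
      obtain ⟨a, ha1, ha2⟩ := hDom x hx
      have h1 : s ^ Nat.log s x ≤ x := Nat.pow_log_le_self s hx0
      have h2 : s ^ Nat.log s x < s ^ a := lt_of_le_of_lt h1 ha2
      have h3 : Nat.log s x < a := (Nat.pow_lt_pow_iff_right hs1).1 h2
      exact dvd_trans (pow_dvd_pow s h3) ha1
    obtain ⟨h1, h2⟩ := key q hq
    obtain ⟨h1', h2'⟩ := key q' hq'
    rw [← heq] at h1' h2'
    exact unique_root hs hs3 hc (hD3 q hq) (hD3 q' hq') h1 h1' h2 h2'
  have hsum1 : ∑ q ∈ D.filter (fun q => q < s ^ j), 1 / (q : ℚ) ≤ 1 / B := by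
    have hcard : (D.filter (fun q => q < s ^ j)).card ≤ 1 := by
      rw [Finset.card_le_one]
      intro a ha b hb
      rw [Finset.mem_filter] at ha hb
      have h0a : B ≤ a := hB a ha.1
      have h0b : B ≤ b := hB b hb.1
      have hla : Nat.log s a = j - 1 := by
        rcases Nat.eq_zero_or_pos j with hj0 | hj0
        · subst hj0; simp at ha; omega
        · rw [Nat.log_eq_iff (Or.inr ⟨hs1, by omega⟩)]
          refine ⟨by omega, ?_⟩
          rw [Nat.sub_add_cancel hj0]; exact ha.2
      have hlb : Nat.log s b = j - 1 := by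
        rcases Nat.eq_zero_or_pos j with hj0 | hj0
        · subst hj0; simp at hb; omega
        · rw [Nat.log_eq_iff (Or.inr ⟨hs1, by omega⟩)]
          refine ⟨by omega, ?_⟩
          rw [Nat.sub_add_cancel hj0]; exact hb.2
      exact hinj ha.1 hb.1 (by simp only [hla, hlb])
    calc ∑ q ∈ D.filter (fun q => q < s ^ j), 1 / (q : ℚ)
        ≤ ∑ _q ∈ D.filter (fun q => q < s ^ j), 1 / (B : ℚ) := by
          apply Finset.sum_le_sum
          intro q hq
          have h1 : B ≤ q := hB q (Finset.mem_filter.1 hq).1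
          have h2 : (B : ℚ) ≤ q := by exact_mod_cast h1
          have h3 : (0 : ℚ) < B := by exact_mod_cast hB0
          exact one_div_le_one_div_of_le h3 h2
      _ = (D.filter (fun q => q < s ^ j)).card * (1 / (B : ℚ)) := by
          rw [Finset.sum_const, nsmul_eq_mul]
      _ ≤ 1 * (1 / (B : ℚ)) := by
          apply mul_le_mul_of_nonneg_right _ (by positivity)
          exact_mod_cast hcard
      _ = 1 / B := one_mul _
  have hsum2 : ∑ q ∈ D.filter (fun q => ¬ q < s ^ j), 1 / (q : ℚ)
      ≤ (1 / (s : ℚ)) ^ j * (s / (s - 1)) := by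
    set E := D.filter (fun q => ¬ q < s ^ j) with hE
    have hsub : ∀ q ∈ E, q ∈ D ∧ s ^ j ≤ q := by
      intro q hq
      rw [hE, Finset.mem_filter] at hq
      exact ⟨hq.1, by omega⟩
    obtain ⟨M, hM⟩ : ∃ M, ∀ q ∈ E, Nat.log s q < M := by
      refine ⟨(E.sup (fun q => Nat.log s q)) + 1, fun q hq => ?_⟩
      exact Nat.lt_succ_of_le (Finset.le_sup (f := fun q => Nat.log s q) hq)
    calc ∑ q ∈ E, 1 / (q : ℚ) ≤ ∑ q ∈ E, (1 / (s : ℚ)) ^ (Nat.log s q) := by
          apply Finset.sum_le_sum
          intro q hq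
          have h0 : q ≠ 0 := by
            have := hB q (hsub q hq).1
            omega
          have h1 : s ^ Nat.log s q ≤ q := Nat.pow_log_le_self s h0
          have h2 : ((s : ℚ)) ^ Nat.log s q ≤ q := by exact_mod_cast h1
          rw [one_div_pow]
          exact one_div_le_one_div_of_le (by positivity) h2
      _ = ∑ i ∈ E.image (fun q => Nat.log s q), (1 / (s : ℚ)) ^ i := by
          rw [Finset.sum_image]
          intro a ha b hb hab
          exact hinj (hsub a ha).1 (hsub b hb).1 hab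
      _ ≤ ∑ i ∈ Finset.Ico j M, (1 / (s : ℚ)) ^ i := by
          apply Finset.sum_le_sum_of_subset_of_nonneg
          · intro i hi
            rw [Finset.mem_image] at hi
            obtain ⟨q, hq, rfl⟩ := hi
            rw [Finset.mem_Ico]
            refine ⟨?_, hM q hq⟩
            exact Nat.le_log_of_pow_le hs1 (hsub q hq).2
          · intro i _ _
            positivity
      _ ≤ (1 / (s : ℚ)) ^ j / (1 - 1 / s) := by
          apply geom_sum_Ico_le_of_lt_one
          · positivity
          · rw [div_lt_one (by linarith)]; exact hs1Q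
      _ = (1 / (s : ℚ)) ^ j * (s / (s - 1)) := by
          have h1 : (s : ℚ) ≠ 0 := by linarith
          have h2 : (s : ℚ) - 1 ≠ 0 := by linarith
          rw [div_eq_mul_inv]
          congr 1
          field_simp
  rw [← Finset.sum_filter_add_sum_filter_not D (fun q => q < s ^ j)]
  linarith

/-- If all prime factors of `F q` are among `x, y`, then `q` is dominated by a power of one. -/
lemma two_dom {q x y : ℕ} (hx : x.Prime) (hy : y.Prime)
    (h : ∀ s, s.Prime → s ∣ F q → s = x ∨ s = y) :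
    q < x ^ ((F q).factorization x) ∨ q < y ^ ((F q).factorization y) := by
  by_contra hcon
  push Not at hcon
  obtain ⟨h1, h2⟩ := hcon
  have hF0 : F q ≠ 0 := (F_pos q).ne'
  have hdvd : F q ∣ x ^ ((F q).factorization x) * y ^ ((F q).factorization y) := by
    rw [← Nat.factorization_le_iff_dvd hF0
      (mul_ne_zero (pow_ne_zero _ hx.ne_zero) (pow_ne_zero _ hy.ne_zero))]
    intro s
    by_cases hs : s.Prime
    · by_cases hsd : s ∣ F q
      · rw [Nat.factorization_mul (pow_ne_zero _ hx.ne_zero) (pow_ne_zero _ hy.ne_zero),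
          Finsupp.add_apply]
        rcases h s hs hsd with rfl | rfl
        · rw [hs.factorization_pow]
          simp
        · rw [hs.factorization_pow (k := (F q).factorization s)]
          simp
      · rw [Nat.factorization_eq_zero_of_not_dvd hsd]
        exact Nat.zero_le _
    · rw [Nat.factorization_eq_zero_of_not_prime _ hs]
      exact Nat.zero_le _
  have hle := Nat.le_of_dvd (Nat.mul_pos (pow_pos hx.pos _) (pow_pos hy.pos _)) hdvd
  have h3 : x ^ ((F q).factorization x) * y ^ ((F q).factorization y) ≤ q * q :=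
    Nat.mul_le_mul h1 h2
  unfold F at hle
  unfold F at h3
  omega

lemma one_dom {q x : ℕ} (hx : x.Prime) (h : ∀ s, s.Prime → s ∣ F q → s = x) :
    q < x ^ ((F q).factorization x) := by
  rcases two_dom hx hx (fun s hs hd => Or.inl (h s hs hd)) with h | h <;> exact h

end Pool.Agent.Lib.MP_f02ea4_nt.Exc
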