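import Mathlib
import Pool.Agent.Lib.MP_f02ea4_nt.ExcDom

/-!
The case `3 ∤ N`.
-/

set_option autoImplicit false

namespace Pool.Agent.Lib.MP_f02ea4_nt.Exc

open Finset Pool.Agent.Lib.MP_f02ea4_nt.Rad

/-- Sum over a set of primes `2` mod `3` whose `F` is supported on `x, y`. -/
lemma pair_sum {x y : ℕ} (hx : x.Prime) (hy : y.Prime) (hx3 : x % 3 = 1) (hy3 : y % 3 = 1)
    (R : Finset ℕ) (hR3 : ∀ q ∈ R, q % 3 = 2)
    (hR : ∀ q ∈ R, ∀ s, s.Prime → s ∣ F q → s = x ∨ s = y)
    (B j k : ℕ) (hB : ∀ q ∈ R, B ≤ q) (hB0 : 0 < B) (hj : x ^ (j - 1) ≤ B)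
    (hk : y ^ (k - 1) ≤ B) :
    ∑ q ∈ R, 1 / (q : ℚ) ≤ (1 / B + (1 / (x : ℚ)) ^ j * (x / (x - 1))) +
      (1 / B + (1 / (y : ℚ)) ^ k * (y / (y - 1))) := by
  classical
  set Dx := R.filter (fun q => q < x ^ ((F q).factorization x)) with hDx
  set Dy := R.filter (fun q => q < y ^ ((F q).factorization y)) with hDy
  have hsub : R ⊆ Dx ∪ Dy := by
    intro q hq
    rw [Finset.mem_union, hDx, hDy, Finset.mem_filter, Finset.mem_filter]
    rcases two_dom hx hy (hR q hq) with h | h
    · left; exact ⟨hq, h⟩
    · right; exact ⟨hq, h⟩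
  have h1 : ∑ q ∈ Dx, 1 / (q : ℚ) ≤ 1 / B + (1 / (x : ℚ)) ^ j * (x / (x - 1)) := by
    apply dom_sum hx hx3 (Or.inr rfl) Dx
    · intro q hq; exact hR3 q (Finset.mem_filter.1 hq).1
    · intro q hq
      exact ⟨(F q).factorization x, Nat.ordProj_dvd _ _, (Finset.mem_filter.1 hq).2⟩
    · intro q hq; exact hB q (Finset.mem_filter.1 hq).1
    · exact hB0
    · exact hj
  have h2 : ∑ q ∈ Dy, 1 / (q : ℚ) ≤ 1 / B + (1 / (y : ℚ)) ^ k * (y / (y - 1)) := by
    apply dom_sum hy hy3 (Or.inr rfl) Dy
    · intro q hq; exact hR3 q (Finset.mem_filter.1 hq).1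
    · intro q hq
      exact ⟨(F q).factorization y, Nat.ordProj_dvd _ _, (Finset.mem_filter.1 hq).2⟩
    · intro q hq; exact hB q (Finset.mem_filter.1 hq).1
    · exact hB0
    · exact hk
  calc ∑ q ∈ R, 1 / (q : ℚ) ≤ ∑ q ∈ Dx ∪ Dy, 1 / (q : ℚ) := by
        apply Finset.sum_le_sum_of_subset_of_nonneg hsub
        intro i _ _
        positivity
    _ ≤ ∑ q ∈ Dx, 1 / (q : ℚ) + ∑ q ∈ Dy, 1 / (q : ℚ) := by
        rw [← Finset.sum_union_inter]
        have : 0 ≤ ∑ q ∈ Dx ∩ Dy, 1 / (q : ℚ) := Finset.sum_nonneg (fun q _ => by positivity)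
        linarith
    _ ≤ _ := add_le_add h1 h2

/-- Same with a single prime. -/
lemma single_sum {x : ℕ} (hx : x.Prime) (hx3 : x % 3 = 1)
    (R : Finset ℕ) (hR3 : ∀ q ∈ R, q % 3 = 2)
    (hR : ∀ q ∈ R, ∀ s, s.Prime → s ∣ F q → s = x)
    (B j : ℕ) (hB : ∀ q ∈ R, B ≤ q) (hB0 : 0 < B) (hj : x ^ (j - 1) ≤ B) :
    ∑ q ∈ R, 1 / (q : ℚ) ≤ 1 / B + (1 / (x : ℚ)) ^ j * (x / (x - 1)) := by
  apply dom_sum hx hx3 (Or.inr rfl) R hR3
  · intro q hq
    exact ⟨(F q).factorization x, Nat.ordProj_dvd _ _, one_dom hx (hR q hq)⟩
  · exact hB
  · exact hB0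
  · exact hj

lemma inv_pred_le {x m : ℕ} (hm : 1 < m) (h : m ≤ x) :
    (1 / (x : ℚ)) ^ 1 * (x / (x - 1)) ≤ 1 / ((m : ℚ) - 1) := by
  have h1 : (1 : ℚ) < m := by exact_mod_cast hm
  have h2 : (m : ℚ) ≤ x := by exact_mod_cast h
  have h3 : (1 / (x : ℚ)) ^ 1 * (x / (x - 1)) = 1 / ((x : ℚ) - 1) := by
    have : (x : ℚ) ≠ 0 := by linarith
    have : (x : ℚ) - 1 ≠ 0 := by linarith
    field_simp
  rw [h3]
  exact one_div_le_one_div_of_le (by linarith) (by linarith)

lemma one_sub_inv_mono {x m : ℕ} (hm : 0 < m) (h : m ≤ x) :
    1 - 1 / (m : ℚ) ≤ 1 - 1 / (x : ℚ) := by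
  have h1 : (0 : ℚ) < m := by exact_mod_cast hm
  have h2 : (m : ℚ) ≤ x := by exact_mod_cast h
  have := one_div_le_one_div_of_le h1 h2
  linarith

lemma gi_ge (N : ℕ) {q m : ℕ} (hq : q.Prime) (hm : 0 < m) (h : m ≤ q) :
    1 - 1 / (m : ℚ) ≤ gi N q :=
  (one_sub_inv_mono hm h).trans (gi_lower N hq)

/-- There is no odd perfect number of the considered shape that is prime to `3`. -/
theorem caseA {N p r : ℕ} (C : Ctx N p r) (h3 : ¬ 3 ∣ N) : False := by
  classical
  have hp := C.pprime
  have hpN : p ∣ N := Nat.dvd_of_mem_primeFactors C.pmem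
  have hne3 : ∀ q ∈ N.primeFactors, q ≠ 3 := by
    rintro q hq rfl
    exact h3 (Nat.dvd_of_mem_primeFactors hq)
  have hpr3 : ∀ q ∈ N.primeFactors, q % 3 = 1 ∨ q % 3 = 2 := by
    intro q hq
    have h1 := hne3 q hq
    have h2 : ¬ 3 ∣ q := by
      intro h
      exact h1 ((Nat.prime_dvd_prime_iff_eq Nat.prime_three (Nat.prime_of_mem_primeFactors hq)).1
        h).symm
    omega
  -- the special prime
  have hp3 : p % 3 = 1 := by
    rcases hpr3 p C.pmem with h | h
    · exact h
    · exfalso
      exact h3 (C.nP Nat.prime_three (by norm_num) (by omega))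
  have hp13 : 13 ≤ p := by
    have := C.p4
    have := hp.two_le
    omega
  -- ordinary primes
  have hS3 : ∀ q ∈ N.primeFactors, q ≠ p → q ≠ r → q % 3 = 2 := by
    intro q hq hqp hqr
    rcases hpr3 q hq with h | h
    · exfalso
      exact h3 (C.nS hq hqp hqr Nat.prime_three (three_dvd_F h))
    · exact h
  have hsupp : ∀ q ∈ N.primeFactors, q ≠ p → q ≠ r → ∀ s, s.Prime → s ∣ F q →
      s = p ∨ (s = r ∧ s % 3 = 1 ∧ s ∈ N.primeFactors) := by
    intro q hq hqp hqr s hs hsd
    have h1 : s ∣ N := C.nS hq hqp hqr hs hsd
    have h2 := C.mem hs h1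
    have h4 : s % 3 = 1 := by
      rcases F_mod3 hs hsd with h | h
      · exact absurd h (hne3 s h2)
      · exact h
    by_cases h5 : s = p
    · exact Or.inl h5
    · by_cases h6 : s = r
      · exact Or.inr ⟨h6, h4, h2⟩
      · have := hS3 s h2 h5 h6
        omega
  set S := N.primeFactors.filter (fun q => q ≠ p ∧ q ≠ r) with hS
  have memS : ∀ q ∈ S, q ∈ N.primeFactors ∧ q ≠ p ∧ q ≠ r := by
    intro q hq
    rw [hS, Finset.mem_filter] at hq
    exact hq
  have hodd : ∀ q ∈ N.primeFactors, q % 2 = 1 := fun q hq =>
    C.odd_of_dvd (Nat.dvd_of_mem_primeFactors hq)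
  by_cases hr : r ∈ N.primeFactors ∧ r % 3 = 1 ∧ r ≠ p
  · obtain ⟨hrm, hr3, hrp⟩ := hr
    have hrprime := Nat.prime_of_mem_primeFactors hrm
    have hr2 := hodd r hrm
    have hr7 : 7 ≤ r := by
      have := hrprime.two_le
      omega
    have hS3' : ∀ q ∈ S, q % 3 = 2 := fun q hq => by
      obtain ⟨h1, h2, h4⟩ := memS q hq
      exact hS3 q h1 h2 h4
    have hsuppS : ∀ q ∈ S, ∀ s, s.Prime → s ∣ F q → s = p ∨ s = r := fun q hq s hs hsd => by
      obtain ⟨h1, h2, h4⟩ := memS q hq
      rcases hsupp q h1 h2 h4 s hs hsd with h | h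
      · exact Or.inl h
      · exact Or.inr h.1
    by_cases h5 : 5 ∈ S
    · have h31 : r = 31 := by
        rcases hsuppS 5 h5 31 (by norm_num) (by norm_num [F]) with h | h
        · exfalso
          have := C.p4
          omega
        · exact h.symm
      subst h31
      have hR11 : ∀ q ∈ S.erase 5, 11 ≤ q := by
        intro q hq
        rw [Finset.mem_erase] at hq
        have h1 := hS3' q hq.2
        have h2 := hodd q (memS q hq.2).1
        have h4 := hq.1
        omega
      have hsum := pair_sum hp hrprime hp3 hr3 (S.erase 5)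
        (fun q hq => hS3' q (Finset.mem_of_mem_erase hq))
        (fun q hq => hsuppS q (Finset.mem_of_mem_erase hq)) 11 1 1 hR11 (by norm_num)
        (by norm_num) (by norm_num)
      have hpt := inv_pred_le (x := p) (m := 13) (by norm_num) hp13
      have h5p : (5 : ℕ) ≠ p := by omega
      have hkey := key C.perf {p, 31, 5} (S.erase 5) (by
          intro q hq
          rw [Finset.mem_union]
          by_cases h6 : q = p
          · left; simp [h6]
          · by_cases h7 : q = 31
            · left; simp [h7]
            · by_cases h8 : q = 5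
              · left; simp [h8]
              · right
                rw [Finset.mem_erase, hS, Finset.mem_filter]
                exact ⟨h8, hq, h6, h7⟩)
        (fun q => if q = p then 12 / 13 else if q = 31 then 30 / 31 else 25 / 31)
        (by intro q _; split_ifs <;> norm_num)
        (by intro q _; split_ifs <;> norm_num)
        (by
          intro q hq hqN
          have h9 := gi_lower N (Nat.prime_of_mem_primeFactors hqN)
          split_ifs with h10 h11
          · subst h10
            have := gi_ge N (Nat.prime_of_mem_primeFactors hqN) (m := 13) (by norm_num) hp13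
            norm_num at this ⊢
            linarith
          · subst h11
            norm_num at h9 ⊢
            linarith
          · have h12 : q = 5 := by
              simp only [Finset.mem_insert, Finset.mem_singleton] at hq
              tauto
            subst h12
            have h13 := memS 5 h5
            rw [gi_two (C.two 5 h13.1 h13.2.1 h13.2.2)]
            norm_num [F])
      rw [Finset.prod_insert, Finset.prod_insert, Finset.prod_singleton] at hkey
      · simp only [if_true] at hkey
        rw [if_neg (by omega : ¬ (31 : ℕ) = p), if_neg (by omega : ¬ (5 : ℕ) = p)] at hkey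
        norm_num at hkey hsum hpt
        linarith
      · simp
      · simp only [Finset.mem_insert, Finset.mem_singleton]
        omega
    · have hS11 : ∀ q ∈ S, 11 ≤ q := by
        intro q hq
        have h1 := hS3' q hq
        have h2 := hodd q (memS q hq).1
        have h4 : q ≠ 5 := by rintro rfl; exact h5 hq
        omega
      have hcov : N.primeFactors ⊆ {p, r} ∪ S := by
        intro q hq
        rw [Finset.mem_union]
        by_cases h6 : q = p
        · left; simp [h6]
        · by_cases h7 : q = r
          · left; simp [h7]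
          · right
            rw [hS, Finset.mem_filter]
            exact ⟨hq, h6, h7⟩
      have hpt := inv_pred_le (x := p) (m := 13) (by norm_num) hp13
      by_cases hr7' : r = 7
      · subst hr7'
        have hsum := pair_sum hp hrprime hp3 hr3 S hS3' hsuppS 11 1 2 hS11 (by norm_num)
          (by norm_num) (by norm_num)
        have hkey := key C.perf {p, 7} S hcov
          (fun q => if q = p then 12 / 13 else 6 / 7)
          (by intro q _; split_ifs <;> norm_num)
          (by intro q _; split_ifs <;> norm_num)
          (by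
            intro q hq hqN
            have h9 := gi_lower N (Nat.prime_of_mem_primeFactors hqN)
            split_ifs with h10
            · subst h10
              have := gi_ge N (Nat.prime_of_mem_primeFactors hqN) (m := 13) (by norm_num) hp13
              norm_num at this ⊢
              linarith
            · have h12 : q = 7 := by
                simp only [Finset.mem_insert, Finset.mem_singleton] at hq
                tauto
              subst h12
              norm_num at h9 ⊢
              linarith)
        rw [Finset.prod_insert (by simp only [Finset.mem_singleton]; omega),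
          Finset.prod_singleton] at hkey
        simp only [if_true] at hkey
        rw [if_neg (by omega : ¬ (7 : ℕ) = p)] at hkey
        norm_num at hkey hsum hpt
        linarith
      · have hr13 : 13 ≤ r := by omega
        have hrt := inv_pred_le (x := r) (m := 13) (by norm_num) hr13
        have hsum := pair_sum hp hrprime hp3 hr3 S hS3' hsuppS 11 1 1 hS11 (by norm_num)
          (by norm_num) (by norm_num)
        have hkey := key C.perf {p, r} S hcov
          (fun _ => 12 / 13)
          (by intro q _; norm_num)
          (by intro q _; norm_num)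
          (by
            intro q hq hqN
            have h9 := gi_lower N (Nat.prime_of_mem_primeFactors hqN)
            have h13 : 13 ≤ q := by
              simp only [Finset.mem_insert, Finset.mem_singleton] at hq
              rcases hq with rfl | rfl
              · exact hp13
              · exact hr13
            have := gi_ge N (Nat.prime_of_mem_primeFactors hqN) (m := 13) (by norm_num) h13
            norm_num at this ⊢
            linarith)
        rw [Finset.prod_insert (by simp only [Finset.mem_singleton]; omega),
          Finset.prod_singleton] at hkey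
        norm_num at hkey hsum hpt hrt
        linarith
  · -- all of `S` is `p`-dominated
    have hS3' : ∀ q ∈ S, q % 3 = 2 := fun q hq => by
      obtain ⟨h1, h2, h4⟩ := memS q hq
      exact hS3 q h1 h2 h4
    have hsuppS : ∀ q ∈ S, ∀ s, s.Prime → s ∣ F q → s = p := fun q hq s hs hsd => by
      obtain ⟨h1, h2, h4⟩ := memS q hq
      rcases hsupp q h1 h2 h4 s hs hsd with h | ⟨h, h', h''⟩
      · exact h
      · by_contra h6
        subst h
        exact hr ⟨h'', h', h6⟩
    have hS5 : ∀ q ∈ S, 5 ≤ q := by
      intro q hq
      have h1 := hS3' q hq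
      have h2 := hodd q (memS q hq).1
      omega
    have hsum := single_sum hp hp3 S hS3' hsuppS 5 1 hS5 (by norm_num) (by norm_num)
    have hpt := inv_pred_le (x := p) (m := 13) (by norm_num) hp13
    have hkey := key C.perf {p, r} S (by
        intro q hq
        rw [Finset.mem_union]
        by_cases h6 : q = p
        · left; simp [h6]
        · by_cases h7 : q = r
          · left; simp [h7]
          · right
            rw [hS, Finset.mem_filter]
            exact ⟨hq, h6, h7⟩)
      (fun q => if q = p then 12 / 13 else 4 / 5)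
      (by intro q _; split_ifs <;> norm_num)
      (by intro q _; split_ifs <;> norm_num)
      (by
        intro q hq hqN
        have h9 := gi_lower N (Nat.prime_of_mem_primeFactors hqN)
        split_ifs with h10
        · subst h10
          have := gi_ge N (Nat.prime_of_mem_primeFactors hqN) (m := 13) (by norm_num) hp13
          norm_num at this ⊢
          linarith
        · have h12 : 5 ≤ q := by
            have h1 := hodd q hqN
            have h2 := hne3 q hqN
            have h4 := (Nat.prime_of_mem_primeFactors hqN).two_le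
            omega
          have := gi_ge N (Nat.prime_of_mem_primeFactors hqN) (m := 5) (by norm_num) h12
          norm_num at this ⊢
          linarith)
    have hprod : (12 / 13 : ℚ) * (4 / 5) ≤
        ∏ q ∈ ({p, r} : Finset ℕ), (if q = p then 12 / 13 else 4 / 5 : ℚ) := by
      by_cases h : p = r
      · subst h
        simp
        norm_num
      · rw [Finset.prod_insert (by simpa using h), Finset.prod_singleton]
        simp only [if_true]
        rw [if_neg (fun h' => h h'.symm)]
    have h0 : (0 : ℚ) ≤ 1 - ∑ q ∈ S, 1 / (q : ℚ) := by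
      norm_num at hsum hpt ⊢
      linarith
    have h1 := mul_le_mul_of_nonneg_right hprod h0
    norm_num at hkey hsum hpt h1
    linarith

end Pool.Agent.Lib.MP_f02ea4_nt.Exc
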