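import Mathlib
import Pool.Agent.Lib.MP_f02ea4_nt.ExcCaseA
import Pool.Agent.Lib.MP_f02ea4_nt.ExcPrime

/-!
Certificates (factor chains) showing that a small prime cannot divide `N`.
-/

set_option autoImplicit false

namespace Pool.Agent.Lib.MP_f02ea4_nt.Exc

open Finset Pool.Agent.Lib.MP_f02ea4_nt.Rad

/-- Ordinary primes congruent to `1` modulo `3`. -/
def S1 (N p r : ℕ) : Finset ℕ := N.primeFactors.filter (fun q => q ≠ p ∧ q ≠ r ∧ q % 3 = 1)

/-- Ordinary primes congruent to `2` modulo `3`. -/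
def S2 (N p r : ℕ) : Finset ℕ := N.primeFactors.filter (fun q => q ≠ p ∧ q ≠ r ∧ q % 3 = 2)

lemma mem_S1 {N p r q : ℕ} : q ∈ S1 N p r ↔ q ∈ N.primeFactors ∧ q ≠ p ∧ q ≠ r ∧ q % 3 = 1 := by
  unfold S1
  rw [Finset.mem_filter]

lemma mem_S2 {N p r q : ℕ} : q ∈ S2 N p r ↔ q ∈ N.primeFactors ∧ q ≠ p ∧ q ≠ r ∧ q % 3 = 2 := by
  unfold S2
  rw [Finset.mem_filter]

/-- Factor chain certificates. -/
inductive Tr : Type
  | full : Tr
  | ab : Tr
  | last (u m : ℕ) : Tr
  | fS (u v : ℕ) (t : Tr) : Tr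
  | fB (u v : ℕ) (t1 t2 : Tr) : Tr
  | gS (v : ℕ) (t : Tr) : Tr

/-- Numerator of the abundancy of known components. -/
def abNum (U : List ℕ) : ℕ := (U.map F).prod

/-- Denominator. -/
def abDen (U : List ℕ) : ℕ := (U.map (fun q => q * q)).prod

/-- Checker for certificates; `L` lists known members of `S1`, `U` known ordinary primes,
`P` is the special prime, or `0` if not known, or `1` if it is known not to be `1` mod `3`. -/
def run (cap r : ℕ) : Tr → List ℕ → List ℕ → ℕ → Bool
  | Tr.full, L, _, _ => Nat.blt cap L.length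
  | Tr.ab, _, U, P => decide U.Nodup &&
      Nat.blt (2 * abDen U * (r * r) * (if 2 ≤ P then P else 1))
        (abNum U * F r * (if 2 ≤ P then P + 1 else 1))
  | Tr.last u m, L, U, P => Nat.ble cap L.length && U.elem u && (F u % m == 0) && Nat.ble 2 m &&
      (Nat.gcd m (3 * r * (if 2 ≤ P then P else 1) * L.prod) == 1) && (!(P == 0) || (m % 4 == 3))
  | Tr.fS u v t, L, U, P => U.elem u && (F u % v == 0) && isP v && (v % 3 == 1) && !(v == r) &&
      !(L.elem v) && ((!(P == 0) && !(v == P)) || !(v % 4 == 1)) && run cap r t (v :: L) (v :: U) P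
  | Tr.fB u v t1 t2, L, U, P => U.elem u && (F u % v == 0) && isP v && (v % 3 == 1) && !(v == r) &&
      !(L.elem v) && (P == 0) && run cap r t1 (v :: L) (v :: U) 0 && run cap r t2 L U v
  | Tr.gS v t, L, U, P => Nat.ble 2 P && ((P + 1) % v == 0) && isP v && (v % 2 == 1) &&
      !(v == r) && !(v % 3 == 0) && (if v % 3 = 1 then !(L.elem v) else true) &&
      run cap r t (if v % 3 = 1 then v :: L else L) (v :: U) P

/-- Invariant of the checker. -/
structure Inv (N p r : ℕ) (L U : List ℕ) (P : ℕ) : Prop where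
  nd : L.Nodup
  l1 : ∀ u ∈ L, u ∈ S1 N p r
  u1 : ∀ u ∈ U, u ∈ N.primeFactors ∧ u ≠ p ∧ u ≠ r
  hP : P = 0 ∨ (2 ≤ P ∧ P = p) ∨ (P = 1 ∧ p % 3 ≠ 1)

lemma exists_three_mod_four (m : ℕ) (h : m % 4 = 3) : ∃ v, v.Prime ∧ v ∣ m ∧ v % 4 = 3 := by
  induction m using Nat.strong_induction_on with
  | _ m ih =>
    have hm1 : m ≠ 1 := by rintro rfl; omega
    have hp := Nat.minFac_prime hm1
    have hd := Nat.minFac_dvd m
    obtain ⟨k, hk⟩ := hd
    rcases hp.eq_two_or_odd with h2 | h2
    · rw [h2] at hk; omega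
    · rcases (by omega : m.minFac % 4 = 1 ∨ m.minFac % 4 = 3) with h4 | h4
      · have hk4 : k % 4 = 3 := by
          rw [hk, Nat.mul_mod, h4] at h
          omega
        have hlt : k < m := by
          have h5 := hp.two_le
          have h6 : 0 < k := by
            rcases Nat.eq_zero_or_pos k with h | h
            · subst h; omega
            · exact h
          calc k < 2 * k := by omega
            _ ≤ m.minFac * k := Nat.mul_le_mul_right _ h5
            _ = m := hk.symm
        obtain ⟨v, h7, h8, h9⟩ := ih k hlt hk4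
        exact ⟨v, h7, by rw [hk]; exact Dvd.dvd.mul_left h8 _, h9⟩
      · exact ⟨m.minFac, hp, Nat.minFac_dvd m, h4⟩

lemma gi_two_le {N q : ℕ} (hq : q.Prime) (h : 2 ≤ N.factorization q) :
    gi N q ≤ (q : ℚ) ^ 2 / (F q : ℚ) := by
  unfold gi
  have hq0 : (0 : ℚ) < q := by exact_mod_cast hq.pos
  have hF0 : (0 : ℚ) < (F q : ℚ) := by exact_mod_cast F_pos q
  rw [div_le_div_iff₀ (sg_posQ _ _) hF0]
  obtain ⟨e, he⟩ : ∃ e, N.factorization q = e + 2 := ⟨N.factorization q - 2, by omega⟩
  rw [he]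
  have h2 : ((q : ℚ) ^ e + q ^ (e + 1) + q ^ (e + 2)) ≤ (sg q (e + 2) : ℚ) := by
    unfold sg
    push_cast
    rw [Finset.sum_range_succ, Finset.sum_range_succ, Finset.sum_range_succ]
    have : (0 : ℚ) ≤ ∑ x ∈ range e, (q : ℚ) ^ x := Finset.sum_nonneg (fun i _ => by positivity)
    linarith
  have h3 : (q : ℚ) ^ (e + 2) * (F q : ℚ) = q ^ 2 * ((q : ℚ) ^ e + q ^ (e + 1) + q ^ (e + 2)) := by
    unfold F
    push_cast
    ring
  rw [h3]
  exact mul_le_mul_of_nonneg_left h2 (by positivity)

variable {N p r : ℕ}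

/-- Known components cannot be abundant. -/
lemma ab_false (C : Ctx N p r) (hr : r ∈ N.primeFactors) (hrp : r ≠ p) {L U : List ℕ} {P : ℕ}
    (I : Inv N p r L U P) (hnd : U.Nodup)
    (h : 2 * abDen U * (r * r) * (if 2 ≤ P then P else 1) <
        abNum U * F r * (if 2 ≤ P then P + 1 else 1)) : False := by
  classical
  have hrpr := Nat.prime_of_mem_primeFactors hr
  have hr2 : 2 ≤ N.factorization r := by
    have h1 := C.ev r hr hrp
    have h2 : 0 < N.factorization r := hrpr.factorization_pos_of_dvd C.npos.ne'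
      (Nat.dvd_of_mem_primeFactors hr)
    omega
  have hrU : r ∉ U.toFinset := by
    intro h1
    rw [List.mem_toFinset] at h1
    exact (I.u1 r h1).2.2 rfl
  have hpU : p ∉ U.toFinset := by
    intro h1
    rw [List.mem_toFinset] at h1
    exact (I.u1 p h1).2.1 rfl
  have hUsub : U.toFinset ⊆ N.primeFactors := by
    intro q hq
    rw [List.mem_toFinset] at hq
    exact (I.u1 q hq).1
  have hprodU : ∏ q ∈ U.toFinset, ((q : ℚ) ^ 2 / (F q : ℚ)) = (abDen U : ℚ) / (abNum U : ℚ) := by
    rw [List.prod_toFinset _ hnd]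
    unfold abDen abNum
    clear h hUsub hpU hrU I hnd
    induction U with
    | nil => simp
    | cons a U ih =>
      rw [List.map_cons, List.prod_cons, ih, List.map_cons, List.prod_cons, List.map_cons,
        List.prod_cons]
      push_cast
      rw [mul_div_mul_comm]
      ring
  have hnumpos : (0 : ℚ) < (abNum U : ℚ) := by
    have : 0 < abNum U := by
      unfold abNum
      apply List.prod_pos
      intro a ha
      rw [List.mem_map] at ha
      obtain ⟨b, _, rfl⟩ := ha
      exact F_pos b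
    exact_mod_cast this
  have hFr : (0 : ℚ) < (F r : ℚ) := by exact_mod_cast F_pos r
  have hpU2 : ∀ q ∈ U, q ≠ p := fun q hq => (I.u1 q hq).2.1
  by_cases hP : 2 ≤ P
  · have hPp : P = p := by rcases I.hP with h1 | h1 | h1 <;> omega
    subst hPp
    rw [if_pos hP, if_pos hP] at h
    have hpp := C.pprime
    have hp0 : (0 : ℚ) < P := by exact_mod_cast hpp.pos
    have hT : insert P (insert r U.toFinset) ⊆ N.primeFactors := by
      intro q hq
      rw [Finset.mem_insert, Finset.mem_insert] at hq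
      rcases hq with rfl | rfl | hq
      · exact C.pmem
      · exact hr
      · exact hUsub hq
    have h1 := half_le C.perf hT (fun q => if q = P then (P : ℚ) / (P + 1) else (q : ℚ) ^ 2 / (F q : ℚ))
      (by
        intro q hq
        rw [Finset.mem_insert, Finset.mem_insert] at hq
        split_ifs with h2
        · subst h2
          apply gi_upper hpp
          have := C.a4
          omega
        · rcases hq with rfl | rfl | hq
          · exact absurd rfl h2
          · exact gi_two_le hrpr hr2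
          · rw [List.mem_toFinset] at hq
            obtain ⟨h3, h4, h5⟩ := I.u1 q hq
            rw [gi_two (C.two q h3 h4 h5)])
    rw [Finset.prod_insert, Finset.prod_insert hrU] at h1
    · rw [if_pos rfl, if_neg hrp] at h1
      have h2 : ∏ q ∈ U.toFinset, (if q = P then (P : ℚ) / (P + 1) else (q : ℚ) ^ 2 / (F q : ℚ))
          = (abDen U : ℚ) / (abNum U : ℚ) := by
        rw [← hprodU]
        apply Finset.prod_congr rfl
        intro q hq
        rw [List.mem_toFinset] at hq
        rw [if_neg (hpU2 q hq)]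
      rw [h2, div_mul_div_comm, div_mul_div_comm, div_le_div_iff₀ (by norm_num) (by positivity)] at h1
      have h3 : (abNum U * F r * (P + 1) : ℚ) ≤ 2 * abDen U * (r * r) * P := by
        nlinarith [h1]
      have h4 : abNum U * F r * (P + 1) ≤ 2 * abDen U * (r * r) * P := by exact_mod_cast h3
      omega
    · rw [Finset.mem_insert]
      push Not
      exact ⟨fun h => hrp h.symm, hpU⟩
  · rw [if_neg hP, if_neg hP] at h
    have hT : insert r U.toFinset ⊆ N.primeFactors := by
      intro q hq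
      rw [Finset.mem_insert] at hq
      rcases hq with rfl | hq
      · exact hr
      · exact hUsub hq
    have h1 := half_le C.perf hT (fun q => (q : ℚ) ^ 2 / (F q : ℚ))
      (by
        intro q hq
        rw [Finset.mem_insert] at hq
        rcases hq with rfl | hq
        · exact gi_two_le hrpr hr2
        · rw [List.mem_toFinset] at hq
          obtain ⟨h3, h4, h5⟩ := I.u1 q hq
          rw [gi_two (C.two q h3 h4 h5)])
    rw [Finset.prod_insert hrU, hprodU, div_mul_div_comm,
      div_le_div_iff₀ (by norm_num) (by positivity)] at h1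
    have h3 : (abNum U * F r : ℚ) ≤ 2 * abDen U * (r * r) := by
      nlinarith [h1]
    have h4 : abNum U * F r ≤ 2 * abDen U * (r * r) := by exact_mod_cast h3
    omega

/-- Soundness of the checker. -/
theorem run_sound (C : Ctx N p r) (hr : r ∈ N.primeFactors) (hrp : r ≠ p) {cap : ℕ}
    (hcap : (S1 N p r).card ≤ cap) (t : Tr) :
    ∀ (L U : List ℕ) (P : ℕ), Inv N p r L U P → run cap r t L U P = true → False := by
  classical
  have hlen : ∀ L : List ℕ, L.Nodup → (∀ u ∈ L, u ∈ S1 N p r) → L.length ≤ cap := by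
    intro L h1 h2
    rw [← List.toFinset_card_of_nodup h1]
    refine le_trans (Finset.card_le_card ?_) hcap
    intro q hq
    exact h2 q (List.mem_toFinset.1 hq)
  induction t with
  | full =>
    intro L U P I h
    have h1 := hlen L I.nd I.l1
    simp only [run] at h
    have h2 : cap < L.length := by
      simpa [Nat.blt_eq] using h
    omega
  | ab =>
    intro L U P I h
    simp only [run, Bool.and_eq_true, decide_eq_true_eq, Nat.blt_eq] at h
    exact ab_false C hr hrp I h.1 h.2
  | last u m =>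
    intro L U P I h
    simp only [run, Bool.and_eq_true, Bool.or_eq_true, beq_iff_eq, Bool.not_eq_true',
      beq_eq_false_iff_ne, List.elem_eq_mem, decide_eq_true_eq, Nat.ble_eq] at h
    obtain ⟨⟨⟨⟨⟨h1, h2⟩, h3⟩, h4⟩, h5⟩, h6⟩ := h
    obtain ⟨hu1, hu2, hu3⟩ := I.u1 u h2
    have hmF : m ∣ F u := Nat.dvd_of_mod_eq_zero h3
    obtain ⟨v, hv, hvm, hv4⟩ : ∃ v, v.Prime ∧ v ∣ m ∧ (P = 0 → v % 4 = 3) := by
      by_cases h0 : P = 0
      · obtain ⟨v, hv1, hv2, hv3⟩ := exists_three_mod_four m (by tauto)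
        exact ⟨v, hv1, hv2, fun _ => hv3⟩
      · exact ⟨m.minFac, Nat.minFac_prime (by omega), Nat.minFac_dvd m, fun h => absurd h h0⟩
    have hvF : v ∣ F u := dvd_trans hvm hmF
    have hco : ∀ x, x ∣ (3 * r * (if 2 ≤ P then P else 1) * L.prod) → ¬ v ∣ x := by
      intro x hx hvx
      have h7 : v ∣ Nat.gcd m (3 * r * (if 2 ≤ P then P else 1) * L.prod) :=
        Nat.dvd_gcd hvm (dvd_trans hvx hx)
      rw [h5] at h7
      exact hv.one_lt.ne' (Nat.dvd_one.1 h7)
    have hv3 : v ≠ 3 := by
      rintro rfl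
      exact hco 3 (Dvd.intro _ (by ring : 3 * (r * (if 2 ≤ P then P else 1) * L.prod) = _)) dvd_rfl
    have hvr : v ≠ r := by
      rintro rfl
      exact hco v (Dvd.intro _ (by ring : v * (3 * (if 2 ≤ P then P else 1) * L.prod) = _)) dvd_rfl
    have hvL : v ∉ L := by
      intro hvL
      exact hco v (Dvd.dvd.mul_left (List.dvd_prod hvL) _) dvd_rfl
    have hv31 : v % 3 = 1 := by
      rcases F_mod3 hv hvF with h | h
      · exact absurd h hv3
      · exact h
    have hvp : v ≠ p := by
      rintro rfl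
      rcases I.hP with h | h | h
      · have := hv4 h
        have := C.p4
        omega
      · apply hco v ?_ dvd_rfl
        rw [if_pos h.1, h.2]
        exact Dvd.intro _ (by ring : v * (3 * r * L.prod) = _)
      · exact h.2 hv31
    have hvS : v ∈ S1 N p r := by
      rw [mem_S1]
      exact ⟨C.mem hv (C.nS hu1 hu2 hu3 hv hvF), hvp, hvr, hv31⟩
    have h8 := hlen (v :: L) (List.nodup_cons.2 ⟨hvL, I.nd⟩) (by
      intro x hx
      rw [List.mem_cons] at hx
      rcases hx with rfl | hx
      · exact hvS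
      · exact I.l1 x hx)
    rw [List.length_cons] at h8
    omega
  | fS u v t ih =>
    intro L U P I h
    simp only [run, Bool.and_eq_true, Bool.or_eq_true, beq_iff_eq, Bool.not_eq_true',
      beq_eq_false_iff_ne, List.elem_eq_mem, decide_eq_true_eq, decide_eq_false_iff_not] at h
    obtain ⟨⟨⟨⟨⟨⟨⟨h1, h2⟩, h3⟩, h4⟩, h5⟩, h6⟩, h7⟩, h8⟩ := h
    obtain ⟨hu1, hu2, hu3⟩ := I.u1 u h1
    have hv := isP_prime h3
    have hvF : v ∣ F u := Nat.dvd_of_mod_eq_zero h2
    have hvp : v ≠ p := by
      rintro rfl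
      rcases h7 with h7 | h7
      · rcases I.hP with h | h | h
        · exact h7.1 h
        · exact h7.2 h.2.symm
        · exact h.2 h4
      · exact h7 C.p4
    have hvN := C.mem hv (C.nS hu1 hu2 hu3 hv hvF)
    refine ih (v :: L) (v :: U) P ⟨List.nodup_cons.2 ⟨h6, I.nd⟩, ?_, ?_, I.hP⟩ h8
    · intro x hx
      rw [List.mem_cons] at hx
      rcases hx with rfl | hx
      · exact mem_S1.2 ⟨hvN, hvp, h5, h4⟩
      · exact I.l1 x hx
    · intro x hx
      rw [List.mem_cons] at hx
      rcases hx with rfl | hx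
      · exact ⟨hvN, hvp, h5⟩
      · exact I.u1 x hx
  | fB u v t1 t2 ih1 ih2 =>
    intro L U P I h
    simp only [run, Bool.and_eq_true, Bool.or_eq_true, beq_iff_eq, Bool.not_eq_true',
      beq_eq_false_iff_ne, List.elem_eq_mem, decide_eq_true_eq, decide_eq_false_iff_not] at h
    obtain ⟨⟨⟨⟨⟨⟨⟨⟨h1, h2⟩, h3⟩, h4⟩, h5⟩, h6⟩, h7⟩, h8⟩, h9⟩ := h
    obtain ⟨hu1, hu2, hu3⟩ := I.u1 u h1
    have hv := isP_prime h3
    have hvF : v ∣ F u := Nat.dvd_of_mod_eq_zero h2
    have hvN := C.mem hv (C.nS hu1 hu2 hu3 hv hvF)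
    by_cases hvp : v = p
    · refine ih2 L U v ⟨I.nd, I.l1, I.u1, Or.inr (Or.inl ⟨hv.two_le, hvp⟩)⟩ h9
    · refine ih1 (v :: L) (v :: U) 0 ⟨List.nodup_cons.2 ⟨h6, I.nd⟩, ?_, ?_, Or.inl rfl⟩ h8
      · intro x hx
        rw [List.mem_cons] at hx
        rcases hx with rfl | hx
        · exact mem_S1.2 ⟨hvN, hvp, h5, h4⟩
        · exact I.l1 x hx
      · intro x hx
        rw [List.mem_cons] at hx
        rcases hx with rfl | hx
        · exact ⟨hvN, hvp, h5⟩
        · exact I.u1 x hx
  | gS v t ih =>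
    intro L U P I h
    simp only [run, Bool.and_eq_true, beq_iff_eq, Bool.not_eq_true',
      beq_eq_false_iff_ne, List.elem_eq_mem, Nat.ble_eq] at h
    obtain ⟨⟨⟨⟨⟨⟨⟨h1, h2⟩, h3⟩, h4⟩, h5⟩, h6⟩, h7⟩, h8⟩ := h
    have hPp : P = p := by rcases I.hP with h | h | h <;> omega
    have hv := isP_prime h3
    have hvP : v ∣ p + 1 := by rw [← hPp]; exact Nat.dvd_of_mod_eq_zero h2
    have hvp : v ≠ p := by
      rintro rfl
      have h9 : v ∣ 1 := (Nat.dvd_add_right (dvd_refl v)).1 hvP
      exact hv.one_lt.ne' (Nat.dvd_one.1 h9)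
    have hvN := C.mem hv (C.nP hv (by omega) hvP)
    by_cases h10 : v % 3 = 1
    · rw [if_pos h10] at h7 h8
      have h11 : v ∉ L := by simpa using h7
      refine ih (v :: L) (v :: U) P ⟨List.nodup_cons.2 ⟨h11, I.nd⟩, ?_, ?_, I.hP⟩ h8
      · intro x hx
        rw [List.mem_cons] at hx
        rcases hx with rfl | hx
        · exact mem_S1.2 ⟨hvN, hvp, h5, h10⟩
        · exact I.l1 x hx
      · intro x hx
        rw [List.mem_cons] at hx
        rcases hx with rfl | hx
        · exact ⟨hvN, hvp, h5⟩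
        · exact I.u1 x hx
    · rw [if_neg h10] at h8
      refine ih L (v :: U) P ⟨I.nd, I.l1, ?_, I.hP⟩ h8
      intro x hx
      rw [List.mem_cons] at hx
      rcases hx with rfl | hx
      · exact ⟨hvN, hvp, h5⟩
      · exact I.u1 x hx

/-- Sufficient test for compositeness. -/
def notP (q : ℕ) : Bool := !(smallPrimes.elem q) && !(Nat.gcd q P25 == 1)

lemma small_mem : ∀ q < 98, q.Prime → q ∈ smallPrimes := by decide +kernel

lemma notP_spec {q : ℕ} (hq : q.Prime) : notP q = false := by
  unfold notP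
  by_cases h : q < 98
  · have := small_mem q h hq
    simp [List.elem_eq_mem, this]
  · have := not_dvd_P25 hq (by omega)
    simp [this]

/-- Lookup of a certificate. -/
def look (q : ℕ) : List (ℕ × Tr) → Tr
  | [] => Tr.full
  | (a, t) :: l => if a = q then t else look q l

/-- All primes `2` mod `3` below `B` outside `X` are excluded. -/
def chk2 (cap r : ℕ) (L U : List ℕ) (P B : ℕ) (X : List ℕ) (certs : List (ℕ × Tr)) : Bool :=
  (List.range B).all fun q => !(q % 3 == 2) || (q == 2) || notP q || (q == r) || X.elem q ||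
    run cap r (look q certs) L (q :: U) P

/-- All primes `1` mod `3` below `B` not in `L` are excluded. -/
def chk1 (cap r : ℕ) (L U : List ℕ) (P B : ℕ) (certs : List (ℕ × Tr)) : Bool :=
  (List.range B).all fun q => !(q % 3 == 1) || (q == 1) || notP q || (q == r) || (q == P) ||
    L.elem q ||
    run cap r (look q certs) (q :: L) (q :: U) P

lemma chk2_spec (C : Ctx N p r) (hr : r ∈ N.primeFactors) (hrp : r ≠ p) {cap : ℕ}
    (hcap : (S1 N p r).card ≤ cap) {L U : List ℕ} {P B : ℕ} {X : List ℕ}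
    {certs : List (ℕ × Tr)}
    (I : Inv N p r L U P) (h : chk2 cap r L U P B X certs = true) :
    ∀ q ∈ S2 N p r, q ∉ X → B ≤ q := by
  intro q hq hqX
  by_contra hlt
  push Not at hlt
  rw [mem_S2] at hq
  unfold chk2 at h
  rw [List.all_eq_true] at h
  have h1 := h q (List.mem_range.2 hlt)
  have h2 := notP_spec (Nat.prime_of_mem_primeFactors hq.1)
  have h3 := C.ne_two (Nat.dvd_of_mem_primeFactors hq.1)
  simp only [Bool.or_eq_true, beq_iff_eq, Bool.not_eq_true', beq_eq_false_iff_ne, h2,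
    List.elem_eq_mem, decide_eq_true_eq] at h1
  rcases h1 with ((((h1 | h1) | h1) | h1) | h1) | h1
  · exact h1 hq.2.2.2
  · exact h3 h1
  · exact absurd h1 (by simp)
  · exact hq.2.2.1 h1
  · exact hqX h1
  · refine run_sound C hr hrp hcap _ L (q :: U) P ⟨I.nd, I.l1, ?_, I.hP⟩ h1
    intro x hx
    rw [List.mem_cons] at hx
    rcases hx with rfl | hx
    · exact ⟨hq.1, hq.2.1, hq.2.2.1⟩
    · exact I.u1 x hx

lemma chk1_spec (C : Ctx N p r) (hr : r ∈ N.primeFactors) (hrp : r ≠ p) {cap : ℕ}
    (hcap : (S1 N p r).card ≤ cap) {L U : List ℕ} {P B : ℕ} {certs : List (ℕ × Tr)}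
    (I : Inv N p r L U P) (h : chk1 cap r L U P B certs = true) :
    ∀ q ∈ S1 N p r, q ∉ L → B ≤ q := by
  intro q hq hqL
  by_contra hlt
  push Not at hlt
  rw [mem_S1] at hq
  unfold chk1 at h
  rw [List.all_eq_true] at h
  have h1 := h q (List.mem_range.2 hlt)
  have h2 := notP_spec (Nat.prime_of_mem_primeFactors hq.1)
  simp only [Bool.or_eq_true, beq_iff_eq, Bool.not_eq_true', beq_eq_false_iff_ne, h2,
    List.elem_eq_mem, decide_eq_true_eq] at h1
  rcases h1 with (((((h1 | h1) | h1) | h1) | h1) | h1) | h1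
  · exact h1 hq.2.2.2
  · exact (Nat.prime_of_mem_primeFactors hq.1).one_lt.ne' h1
  · exact absurd h1 (by simp)
  · exact hq.2.2.1 h1
  · have hqp := (Nat.prime_of_mem_primeFactors hq.1).two_le
    rcases I.hP with h | h | h
    · omega
    · exact hq.2.1 (by rw [h1]; exact h.2)
    · omega
  · exact hqL h1
  · refine run_sound C hr hrp hcap _ (q :: L) (q :: U) P
      ⟨List.nodup_cons.2 ⟨hqL, I.nd⟩, ?_, ?_, I.hP⟩ h1
    · intro x hx
      rw [List.mem_cons] at hx
      rcases hx with rfl | hx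
      · exact mem_S1.2 hq
      · exact I.l1 x hx
    · intro x hx
      rw [List.mem_cons] at hx
      rcases hx with rfl | hx
      · exact ⟨hq.1, hq.2.1, hq.2.2.1⟩
      · exact I.u1 x hx

end Pool.Agent.Lib.MP_f02ea4_nt.Exc
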