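import Mathlib
import Pool.Agent.Lib.MP_f02ea4_nt.ExcTree

/-!
The final estimate used in all subcases of the case `9 ‖ N`.
-/

set_option autoImplicit false

namespace Pool.Agent.Lib.MP_f02ea4_nt.Exc

open Finset Pool.Agent.Lib.MP_f02ea4_nt.Rad

variable {N p r : ℕ}

/-- Members of `S2` whose `F` is divisible by `t`. -/
def Ht (N p r t : ℕ) : Finset ℕ := (S2 N p r).filter (fun q => t ∣ F q)

/-- Members of `S2` whose `F` has no prime factor in `S1`. -/
def Zs (N p r : ℕ) : Finset ℕ := (S2 N p r).filter (fun q => ¬ ∃ t ∈ S1 N p r, t ∣ F q)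

lemma Ht_le_two (C : Ctx N p r) {t : ℕ} (ht : t ∈ S1 N p r) : (Ht N p r t).card ≤ 2 := by
  rw [mem_S1] at ht
  obtain ⟨h1, h2, h3, h4⟩ := ht
  have h5 := C.cap_card (Nat.prime_of_mem_primeFactors h1)
    (C.ne_two (Nat.dvd_of_mem_primeFactors h1)) (Ht N p r t) (by
      intro q hq
      unfold Ht at hq
      rw [Finset.mem_filter, mem_S2] at hq
      exact hq.1.1) (by
      intro q hq
      unfold Ht at hq
      rw [Finset.mem_filter, mem_S2] at hq
      rw [C.two q hq.1.1 hq.1.2.1 hq.1.2.2.1, sg_two]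
      exact hq.2)
  rw [C.two t h1 h2 h3] at h5
  exact h5

lemma Ht_le_one (C : Ctx N p r) {t u : ℕ} (ht : t ∈ S1 N p r) (hu : u ∈ N.primeFactors)
    (hu2 : u ∉ S2 N p r) (hd : t ∣ sg u (N.factorization u)) : (Ht N p r t).card ≤ 1 := by
  classical
  rw [mem_S1] at ht
  obtain ⟨h1, h2, h3, h4⟩ := ht
  have hun : u ∉ Ht N p r t := by
    intro h
    unfold Ht at h
    rw [Finset.mem_filter] at h
    exact hu2 h.1
  have h5 := C.cap_card (Nat.prime_of_mem_primeFactors h1)
    (C.ne_two (Nat.dvd_of_mem_primeFactors h1)) (insert u (Ht N p r t)) (by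
      intro q hq
      rw [Finset.mem_insert] at hq
      rcases hq with rfl | hq
      · exact hu
      · unfold Ht at hq
        rw [Finset.mem_filter, mem_S2] at hq
        exact hq.1.1) (by
      intro q hq
      rw [Finset.mem_insert] at hq
      rcases hq with rfl | hq
      · exact hd
      · unfold Ht at hq
        rw [Finset.mem_filter, mem_S2] at hq
        rw [C.two q hq.1.1 hq.1.2.1 hq.1.2.2.1, sg_two]
        exact hq.2)
  rw [C.two t h1 h2 h3, Finset.card_insert_of_notMem hun] at h5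
  omega

lemma Zs_supp (C : Ctx N p r) {q s : ℕ} (hq : q ∈ Zs N p r) (hs : s.Prime) (hd : s ∣ F q) :
    s = p ∨ s = r := by
  unfold Zs at hq
  rw [Finset.mem_filter, mem_S2] at hq
  obtain ⟨⟨h1, h2, h3, h4⟩, h5⟩ := hq
  have hsN := C.mem hs (C.nS h1 h2 h3 hs hd)
  have h6 : s % 3 = 1 := by
    rcases F_mod3 hs hd with h | h
    · subst h
      exact absurd hd (three_not_dvd_F h4)
    · exact h
  by_contra hcon
  push Not at hcon
  exact h5 ⟨s, mem_S1.2 ⟨hsN, hcon.1, hcon.2, h6⟩, hd⟩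

lemma W3 (C : Ctx N p r) {v : ℕ} (hv : v.Prime) (hv3 : v % 3 = 1) (hd : v ∣ N) :
    v = p ∨ (v ≠ p ∧ v = r) ∨ v ∈ S1 N p r := by
  by_cases h1 : v = p
  · exact Or.inl h1
  · by_cases h2 : v = r
    · exact Or.inr (Or.inl ⟨h1, h2⟩)
    · exact Or.inr (Or.inr (mem_S1.2 ⟨C.mem hv hd, h1, h2, hv3⟩))

/-- Final estimate. -/
theorem finish (C : Ctx N p r) (hrp : r ≠ p)
    (h3p : 3 ≠ p) (h3r : 3 ≠ r) {cap : ℕ}
    (hcap : (S1 N p r).card ≤ cap) (L : List ℕ) (hnd : L.Nodup) (hLS : ∀ t ∈ L, t ∈ S1 N p r)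
    (hL1 : ∀ t ∈ L, (Ht N p r t).card ≤ 1) (T0 B0 : ℕ) (hT0 : 0 < T0) (hB0 : 0 < B0)
    (hT : ∀ q ∈ S1 N p r, q ∉ L → T0 ≤ q) (hB : ∀ q ∈ S2 N p r, B0 ≤ q)
    (z : ℚ) (hz : ∑ q ∈ Zs N p r, 1 / (q : ℚ) ≤ z) (gp gr : ℚ) (hgp0 : 0 ≤ gp) (hgp1 : gp ≤ 1)
    (hgr0 : 0 ≤ gr) (hgr1 : gr ≤ 1) (hgp : gp ≤ gi N p) (hgr : gr ≤ gi N r) :
    gp * (gr * ((abDen (3 :: L) : ℚ) / (abNum (3 :: L) : ℚ))) *
      (1 - (((cap - L.length : ℕ) : ℚ) / T0 + ((L.length + 2 * (cap - L.length) : ℕ) : ℚ) / B0 + z))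
      ≤ 1 / 2 := by
  classical
  set u := cap - L.length with hu
  have hT0Q : (0 : ℚ) < T0 := by exact_mod_cast hT0
  have hB0Q : (0 : ℚ) < B0 := by exact_mod_cast hB0
  have hLsub : L.toFinset ⊆ S1 N p r := fun q hq => hLS q (List.mem_toFinset.1 hq)
  have hLc : L.toFinset.card = L.length := List.toFinset_card_of_nodup hnd
  have hlen : L.length ≤ cap := by
    rw [← hLc]
    exact le_trans (Finset.card_le_card hLsub) hcap
  have hSc : (S1 N p r \ L.toFinset).card ≤ u := by
    rw [Finset.card_sdiff_of_subset hLsub, hLc]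
    omega
  -- sum over the unknown part of S1
  have hsum1 : ∑ q ∈ S1 N p r \ L.toFinset, 1 / (q : ℚ) ≤ (u : ℚ) / T0 := by
    calc ∑ q ∈ S1 N p r \ L.toFinset, 1 / (q : ℚ) ≤ ∑ _q ∈ S1 N p r \ L.toFinset, 1 / (T0 : ℚ) := by
          apply Finset.sum_le_sum
          intro q hq
          rw [Finset.mem_sdiff, List.mem_toFinset] at hq
          have h1 := hT q hq.1 hq.2
          have h2 : (T0 : ℚ) ≤ q := by exact_mod_cast h1
          exact one_div_le_one_div_of_le hT0Q h2
      _ = ((S1 N p r \ L.toFinset).card : ℚ) * (1 / (T0 : ℚ)) := by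
          rw [Finset.sum_const, nsmul_eq_mul]
      _ ≤ (u : ℚ) * (1 / (T0 : ℚ)) := by
          apply mul_le_mul_of_nonneg_right _ (by positivity)
          exact_mod_cast hSc
      _ = (u : ℚ) / T0 := by ring
  -- count of H
  set H := (S2 N p r).filter (fun q => ∃ t ∈ S1 N p r, t ∣ F q) with hH
  have hHc : H.card ≤ L.length + 2 * u := by
    have h1 : H ⊆ (S1 N p r).biUnion (fun t => Ht N p r t) := by
      intro q hq
      rw [hH, Finset.mem_filter] at hq
      obtain ⟨h2, t, h3, h4⟩ := hq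
      rw [Finset.mem_biUnion]
      refine ⟨t, h3, ?_⟩
      unfold Ht
      rw [Finset.mem_filter]
      exact ⟨h2, h4⟩
    calc H.card ≤ ((S1 N p r).biUnion (fun t => Ht N p r t)).card := Finset.card_le_card h1
      _ ≤ ∑ t ∈ S1 N p r, (Ht N p r t).card := Finset.card_biUnion_le
      _ = ∑ t ∈ S1 N p r \ L.toFinset, (Ht N p r t).card + ∑ t ∈ L.toFinset, (Ht N p r t).card := by
          rw [Finset.sum_sdiff hLsub]
      _ ≤ ∑ t ∈ S1 N p r \ L.toFinset, 2 + ∑ t ∈ L.toFinset, 1 := by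
          apply add_le_add
          · apply Finset.sum_le_sum
            intro t ht
            exact Ht_le_two C (Finset.mem_sdiff.1 ht).1
          · apply Finset.sum_le_sum
            intro t ht
            exact hL1 t (List.mem_toFinset.1 ht)
      _ ≤ L.length + 2 * u := by
          rw [Finset.sum_const, Finset.sum_const, hLc]
          simp only [smul_eq_mul]
          omega
  have hsumH : ∑ q ∈ H, 1 / (q : ℚ) ≤ ((L.length + 2 * u : ℕ) : ℚ) / B0 := by
    calc ∑ q ∈ H, 1 / (q : ℚ) ≤ ∑ _q ∈ H, 1 / (B0 : ℚ) := by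
          apply Finset.sum_le_sum
          intro q hq
          rw [hH, Finset.mem_filter] at hq
          have h1 := hB q hq.1
          have h2 : (B0 : ℚ) ≤ q := by exact_mod_cast h1
          exact one_div_le_one_div_of_le hB0Q h2
      _ = (H.card : ℚ) * (1 / (B0 : ℚ)) := by
          rw [Finset.sum_const, nsmul_eq_mul]
      _ ≤ ((L.length + 2 * u : ℕ) : ℚ) * (1 / (B0 : ℚ)) := by
          apply mul_le_mul_of_nonneg_right _ (by positivity)
          exact_mod_cast hHc
      _ = ((L.length + 2 * u : ℕ) : ℚ) / B0 := by ring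
  have hsum2 : ∑ q ∈ S2 N p r, 1 / (q : ℚ) ≤ ((L.length + 2 * u : ℕ) : ℚ) / B0 + z := by
    rw [← Finset.sum_filter_add_sum_filter_not (S2 N p r) (fun q => ∃ t ∈ S1 N p r, t ∣ F q)]
    exact add_le_add hsumH hz
  -- the key inequality
  have hkey := key C.perf (insert p (insert r (3 :: L).toFinset))
    ((S1 N p r \ L.toFinset) ∪ S2 N p r) (by
      intro q hq
      rw [Finset.mem_union, Finset.mem_insert, Finset.mem_insert, List.mem_toFinset, List.mem_cons,
        Finset.mem_union, Finset.mem_sdiff, List.mem_toFinset]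
      by_cases h1 : q = p
      · left; left; exact h1
      by_cases h2 : q = r
      · left; right; left; exact h2
      rcases (by omega : q % 3 = 0 ∨ q % 3 = 1 ∨ q % 3 = 2) with h | h | h
      · left; right; right; left
        exact ((Nat.prime_dvd_prime_iff_eq Nat.prime_three (Nat.prime_of_mem_primeFactors hq)).1
          (Nat.dvd_of_mod_eq_zero h)).symm
      · by_cases h4 : q ∈ L
        · left; right; right; right; exact h4
        · right; left
          exact ⟨mem_S1.2 ⟨hq, h1, h2, h⟩, h4⟩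
      · right; right
        exact mem_S2.2 ⟨hq, h1, h2, h⟩)
    (fun q => if q = p then gp else if q = r then gr else (q : ℚ) ^ 2 / (F q : ℚ))
    (by
      intro q _
      split_ifs
      · exact hgp0
      · exact hgr0
      · positivity)
    (by
      intro q _
      split_ifs
      · exact hgp1
      · exact hgr1
      · have hF0 : (0 : ℚ) < (F q : ℚ) := by exact_mod_cast F_pos q
        rw [div_le_one hF0]
        unfold F
        push_cast
        have : (0 : ℚ) ≤ q := by positivity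
        nlinarith)
    (by
      intro q hq hqN
      split_ifs with h1 h2
      · rw [h1]; exact hgp
      · rw [h2]; exact hgr
      · rw [Finset.mem_insert, Finset.mem_insert, List.mem_toFinset, List.mem_cons] at hq
        rw [gi_two (C.two q hqN h1 h2)])
  have h3L : 3 ∉ L := by
    intro h
    have := (mem_S1.1 (hLS 3 h)).2.2.2
    omega
  have hnd3 : (3 :: L).Nodup := List.nodup_cons.2 ⟨h3L, hnd⟩
  have hrL : r ∉ (3 :: L).toFinset := by
    rw [List.mem_toFinset, List.mem_cons]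
    push Not
    exact ⟨h3r.symm, fun h => (mem_S1.1 (hLS r h)).2.2.1 rfl⟩
  have hpL : p ∉ insert r (3 :: L).toFinset := by
    rw [Finset.mem_insert, List.mem_toFinset, List.mem_cons]
    push Not
    exact ⟨hrp.symm, h3p.symm, fun h => (mem_S1.1 (hLS p h)).2.1 rfl⟩
  have hneq : ∀ q ∈ (3 :: L), q ≠ p ∧ q ≠ r := by
    intro q hq
    rw [List.mem_cons] at hq
    rcases hq with rfl | hq
    · exact ⟨h3p, h3r⟩
    · have := mem_S1.1 (hLS q hq)
      exact ⟨this.2.1, this.2.2.1⟩
  have hprodU : ∏ q ∈ (3 :: L).toFinset,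
      (if q = p then gp else if q = r then gr else (q : ℚ) ^ 2 / (F q : ℚ))
      = (abDen (3 :: L) : ℚ) / (abNum (3 :: L) : ℚ) := by
    rw [List.prod_toFinset _ hnd3]
    unfold abDen abNum
    generalize (3 :: L) = M at hneq
    clear hnd3 hrL hpL hkey
    induction M with
    | nil => simp
    | cons a M ih =>
      have h1 := hneq a (by simp)
      rw [List.map_cons, List.prod_cons, ih (fun q hq => hneq q (by simp [hq])), List.map_cons,
        List.prod_cons, List.map_cons, List.prod_cons, if_neg h1.1, if_neg h1.2]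
      push_cast
      rw [mul_div_mul_comm]
      ring
  rw [Finset.prod_insert hpL, Finset.prod_insert hrL, hprodU, if_pos rfl, if_neg hrp,
    if_pos rfl] at hkey
  have hsumR : ∑ q ∈ (S1 N p r \ L.toFinset) ∪ S2 N p r, 1 / (q : ℚ) ≤
      (u : ℚ) / T0 + ((L.length + 2 * u : ℕ) : ℚ) / B0 + z := by
    have h1 : ∑ q ∈ (S1 N p r \ L.toFinset) ∪ S2 N p r, 1 / (q : ℚ) ≤
        ∑ q ∈ (S1 N p r \ L.toFinset), 1 / (q : ℚ) + ∑ q ∈ S2 N p r, 1 / (q : ℚ) := by
      rw [← Finset.sum_union_inter]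
      have : 0 ≤ ∑ q ∈ (S1 N p r \ L.toFinset) ∩ S2 N p r, 1 / (q : ℚ) :=
        Finset.sum_nonneg (fun q _ => by positivity)
      linarith
    linarith
  refine le_trans (mul_le_mul_of_nonneg_left ?_ ?_) hkey
  · linarith
  · apply mul_nonneg hgp0
    apply mul_nonneg hgr0
    positivity

end Pool.Agent.Lib.MP_f02ea4_nt.Exc
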