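import Mathlib
import Pool.Agent.Lib.MP_f02ea4_nt.ExcFinish

/-!
Certificates for the subcases of the case `9 ‖ N`.
-/

set_option autoImplicit false

namespace Pool.Agent.Lib.MP_f02ea4_nt.Exc

/-- Certificates for primes `2` mod `3`, subcase Al. -/
def c2Al : List (ℕ × Tr) := [
  (5, Tr.ab),
  (11, Tr.ab),
  (17, Tr.ab),
  (23, Tr.ab),
  (29, (Tr.last 29 67)),
  (41, (Tr.last 41 1723)),
  (47, (Tr.last 47 2257)),
  (53, (Tr.last 53 409)),
  (59, (Tr.last 59 3541)),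
  (71, (Tr.last 71 5113)),
  (83, (Tr.last 83 367)),
  (89, (Tr.last 89 8011)),
  (101, (Tr.last 101 10303)),
  (113, (Tr.last 113 991)),
  (131, (Tr.last 131 17293)),
  (137, (Tr.last 137 2701)),
  (149, (Tr.last 149 3193)),
  (167, (Tr.last 167 28057)),
  (173, (Tr.last 173 30103)),
  (179, (Tr.last 179 4603)),
  (191, (Tr.last 191 31)),
  (197, (Tr.last 197 2053))]

lemma chk2Al : chk2 2 127 [7, 19] [3, 7, 19] 13 200 [107] c2Al = true := by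
  decide +kernel

lemma chk2Alb : chk2 2 127 [7, 19] [3, 7, 19] 13 107 [] c2Al = true := by
  decide +kernel

/-- Certificates for primes `2` mod `3`, subcase Be. -/
def c2Be : List (ℕ × Tr) := [
  (5, Tr.ab),
  (11, Tr.ab),
  (17, Tr.ab),
  (23, (Tr.fS 23 79 Tr.ab)),
  (29, (Tr.fS 29 67 Tr.ab)),
  (41, (Tr.fS 41 1723 (Tr.last 1723 990151))),
  (47, (Tr.fS 47 37 Tr.ab)),
  (53, (Tr.fS 53 409 (Tr.last 409 55897))),
  (59, (Tr.fS 59 3541 (Tr.last 3541 11581))),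
  (71, (Tr.fS 71 5113 (Tr.last 5113 8715961))),
  (83, (Tr.fS 83 367 (Tr.last 367 3463))),
  (89, (Tr.fS 89 8011 (Tr.last 8011 1645747))),
  (101, (Tr.fS 101 10303 (Tr.last 10303 35387371))),
  (107, (Tr.fS 107 127 (Tr.last 127 5419))),
  (113, (Tr.fS 113 991 (Tr.last 991 277))),
  (131, (Tr.fS 131 17293 (Tr.last 17293 7668337))),
  (137, (Tr.fS 137 37 (Tr.last 37 67))),
  (149, (Tr.fS 149 31 (Tr.last 149 103))),
  (167, (Tr.fS 167 28057 (Tr.last 28057 20185213))),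
  (173, (Tr.fS 173 30103 (Tr.last 30103 15898609))),
  (179, (Tr.fS 179 4603 (Tr.last 4603 1009153))),
  (191, (Tr.fS 191 31 (Tr.last 31 331))),
  (197, (Tr.fS 197 2053 (Tr.last 2053 200803)))]

/-- Certificates for primes `1` mod `3`, subcase Be. -/
def c1Be : List (ℕ × Tr) := [
  (31, (Tr.last 31 331)),
  (37, (Tr.last 37 67)),
  (43, (Tr.last 43 631)),
  (61, (Tr.last 61 97)),
  (67, (Tr.last 67 31)),
  (73, (Tr.last 73 1801)),
  (79, (Tr.last 79 43)),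
  (97, (Tr.last 97 3169)),
  (103, (Tr.last 103 3571)),
  (109, (Tr.last 109 571)),
  (127, (Tr.last 127 5419)),
  (139, (Tr.last 139 499)),
  (151, (Tr.last 151 1093)),
  (157, (Tr.last 157 8269)),
  (163, (Tr.last 163 67)),
  (181, (Tr.last 181 10981)),
  (193, (Tr.last 193 1783)),
  (199, (Tr.last 199 13267))]

lemma chk2Be : chk2 2 19 [7] [3, 7] 13 200 [] c2Be = true := by
  decide +kernel

lemma chk1Be : chk1 2 19 [7] [3, 7] 13 200 c1Be = true := by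
  decide +kernel

/-- Certificates for primes `2` mod `3`, subcase Ga. -/
def c2Ga : List (ℕ × Tr) := [
  (5, Tr.ab),
  (11, (Tr.fS 11 19 Tr.ab)),
  (17, (Tr.fS 17 307 (Tr.fS 307 43 (Tr.last 43 631)))),
  (23, (Tr.fS 23 79 (Tr.fS 79 43 (Tr.last 43 631)))),
  (29, (Tr.fS 29 67 (Tr.fS 67 31 (Tr.last 31 331)))),
  (41, (Tr.fS 41 1723 (Tr.fS 1723 990151 (Tr.last 990151 326799997651)))),
  (47, (Tr.fS 47 37 (Tr.fS 47 61 (Tr.last 37 67)))),
  (53, (Tr.fS 53 409 (Tr.fS 409 55897 (Tr.last 55897 148787167)))),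
  (59, (Tr.fS 59 3541 (Tr.fS 3541 19 (Tr.last 19 127)))),
  (71, (Tr.fS 71 5113 (Tr.fS 5113 8715961 (Tr.last 8715961 3617523089023)))),
  (83, (Tr.fS 83 19 (Tr.fS 19 127 (Tr.last 83 367)))),
  (89, (Tr.fS 89 8011 (Tr.fS 8011 1645747 (Tr.last 1645747 902828277919)))),
  (101, (Tr.fS 101 10303 (Tr.fS 10303 5827 (Tr.last 10303 6073)))),
  (107, (Tr.fS 107 127 (Tr.fS 127 5419 (Tr.last 5419 9790327)))),
  (113, (Tr.fS 113 991 (Tr.fS 991 277 (Tr.last 277 3667)))),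
  (131, (Tr.fS 131 17293 (Tr.fS 17293 7668337 (Tr.last 7668337 19601133337969)))),
  (137, (Tr.fS 137 37 (Tr.fS 37 67 (Tr.last 67 31)))),
  (149, (Tr.fS 149 31 (Tr.fS 149 103 (Tr.last 31 331)))),
  (167, (Tr.fS 167 28057 (Tr.fS 28057 20185213 (Tr.last 20185213 803634800869)))),
  (173, (Tr.fS 173 30103 (Tr.fS 30103 19 (Tr.last 19 127)))),
  (179, (Tr.fS 179 4603 (Tr.fS 4603 1009153 (Tr.last 1009153 339463595521)))),
  (191, (Tr.fS 191 31 (Tr.fS 31 331 (Tr.last 331 5233)))),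
  (197, (Tr.fS 197 19 (Tr.fS 19 127 (Tr.last 197 2053))))]

/-- Certificates for primes `1` mod `3`, subcase Ga. -/
def c1Ga : List (ℕ × Tr) := [
  (19, (Tr.fS 19 127 (Tr.last 127 5419))),
  (31, (Tr.fS 31 331 (Tr.last 331 5233))),
  (37, (Tr.fS 37 67 (Tr.last 67 31))),
  (43, (Tr.fS 43 631 (Tr.last 631 132931))),
  (61, (Tr.fS 61 97 (Tr.last 97 3169))),
  (67, (Tr.fS 67 31 (Tr.last 31 331))),
  (73, (Tr.fS 73 1801 (Tr.last 1801 154543))),
  (79, (Tr.fS 79 43 (Tr.last 43 631))),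
  (97, (Tr.fS 97 3169 (Tr.last 3169 3348577))),
  (103, (Tr.fS 103 3571 (Tr.last 3571 25159))),
  (109, (Tr.fS 109 571 (Tr.last 571 15553))),
  (127, (Tr.fS 127 5419 (Tr.last 5419 9790327))),
  (139, (Tr.fS 139 499 (Tr.last 499 11881))),
  (151, (Tr.fS 151 1093 (Tr.last 1093 398581))),
  (157, (Tr.fS 157 8269 (Tr.last 8269 3256411))),
  (163, (Tr.fS 163 19 (Tr.last 163 67))),
  (181, (Tr.fS 181 79 (Tr.last 79 43))),
  (193, (Tr.fS 193 1783 (Tr.last 1783 1060291))),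
  (199, (Tr.fS 199 13267 (Tr.last 13267 8382217)))]

lemma chk2Ga : chk2 2 7 [] [3] 13 200 [] c2Ga = true := by
  decide +kernel

lemma chk1Ga : chk1 2 7 [] [3] 13 200 c1Ga = true := by
  decide +kernel

/-- Certificates for primes `2` mod `3`, subcase De. -/
def c2De : List (ℕ × Tr) := [
  (5, Tr.ab),
  (11, (Tr.last 11 133)),
  (17, (Tr.last 17 307)),
  (23, (Tr.last 23 553)),
  (29, (Tr.last 29 67)),
  (41, (Tr.last 41 1723)),
  (47, (Tr.last 47 37)),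
  (53, (Tr.last 53 2863)),
  (59, (Tr.last 59 3541)),
  (71, (Tr.last 71 5113)),
  (83, (Tr.last 83 6973)),
  (89, (Tr.last 89 8011)),
  (101, (Tr.last 101 10303)),
  (107, (Tr.last 107 889)),
  (113, (Tr.last 113 991)),
  (131, (Tr.last 131 17293)),
  (137, (Tr.last 137 18907)),
  (149, (Tr.last 149 721)),
  (167, (Tr.last 167 28057)),
  (173, (Tr.last 173 30103)),
  (179, (Tr.last 179 32221)),
  (191, (Tr.last 191 7)),
  (197, (Tr.last 197 39007))]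

lemma chk2De : chk2 2 331 [13, 31] [3, 13, 31] 61 200 [] c2De = true := by
  decide +kernel

/-- Certificates for primes `2` mod `3`, subcase Ep. -/
def c2Ep : List (ℕ × Tr) := [
  (5, Tr.ab),
  (11, (Tr.fS 11 7 Tr.ab)),
  (17, (Tr.fS 17 307 (Tr.last 307 31519))),
  (23, (Tr.fS 23 7 (Tr.last 7 19))),
  (29, (Tr.fS 29 67 (Tr.last 67 49))),
  (41, (Tr.fS 41 1723 (Tr.last 1723 990151))),
  (47, (Tr.fS 47 37 (Tr.last 37 469))),
  (53, (Tr.fS 53 7 (Tr.last 7 19))),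
  (59, (Tr.fS 59 3541 (Tr.last 3541 4180741))),
  (71, (Tr.fS 71 5113 (Tr.last 5113 8715961))),
  (83, (Tr.fS 83 19 (Tr.last 19 127))),
  (89, (Tr.fS 89 8011 (Tr.last 8011 1645747))),
  (101, (Tr.fS 101 10303 (Tr.last 10303 35387371))),
  (107, (Tr.fS 107 7 (Tr.last 7 19))),
  (113, (Tr.fS 113 991 (Tr.last 991 1939))),
  (131, (Tr.fS 131 17293 (Tr.last 17293 7668337))),
  (137, (Tr.fS 137 7 (Tr.last 7 19))),
  (149, (Tr.fS 149 7 (Tr.last 7 19))),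
  (167, (Tr.fS 167 28057 (Tr.last 28057 20185213))),
  (173, (Tr.fS 173 30103 (Tr.last 30103 302073571))),
  (179, (Tr.fS 179 7 (Tr.last 7 19))),
  (191, (Tr.fS 191 7 (Tr.last 7 19))),
  (197, (Tr.fS 197 19 (Tr.last 19 127)))]

/-- Certificates for primes `1` mod `3`, subcase Ep. -/
def c1Ep : List (ℕ × Tr) := [
  (7, (Tr.last 7 19)),
  (19, (Tr.last 19 127)),
  (37, (Tr.last 37 469)),
  (43, (Tr.last 43 631)),
  (67, (Tr.last 67 49)),
  (73, (Tr.last 73 1801)),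
  (79, (Tr.last 79 2107)),
  (97, (Tr.last 97 3169)),
  (103, (Tr.last 103 3571)),
  (109, (Tr.last 109 3997)),
  (127, (Tr.last 127 5419)),
  (139, (Tr.last 139 499)),
  (151, (Tr.last 151 7651)),
  (157, (Tr.last 157 8269)),
  (163, (Tr.last 163 8911)),
  (181, (Tr.last 181 10981)),
  (193, (Tr.last 193 12481)),
  (199, (Tr.last 199 13267))]

lemma chk2Ep : chk2 2 31 [13] [3, 13] 61 200 [] c2Ep = true := by
  decide +kernel

lemma chk1Ep : chk1 2 31 [13] [3, 13] 61 200 c1Ep = true := by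
  decide +kernel

/-- Certificates for primes `2` mod `3`, subcase Ze. -/
def c2Ze : List (ℕ × Tr) := [
  (5, Tr.ab),
  (11, Tr.ab),
  (17, (Tr.last 17 307)),
  (23, (Tr.last 23 79)),
  (29, (Tr.last 29 67)),
  (41, (Tr.last 41 1723)),
  (47, (Tr.last 47 37)),
  (53, (Tr.last 53 409)),
  (59, (Tr.last 59 3541)),
  (71, (Tr.last 71 5113)),
  (83, (Tr.last 83 6973)),
  (89, (Tr.last 89 8011)),
  (101, (Tr.last 101 10303)),
  (107, (Tr.last 107 127)),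
  (113, (Tr.last 113 991)),
  (131, (Tr.last 131 17293)),
  (137, (Tr.last 137 2701)),
  (149, (Tr.last 149 3193)),
  (167, (Tr.last 167 28057)),
  (173, (Tr.last 173 30103)),
  (179, (Tr.last 179 4603)),
  (191, (Tr.last 191 31)),
  (197, (Tr.last 197 39007))]

lemma chk2Ze : chk2 2 7 [13, 61] [3, 13, 61] 97 200 [] c2Ze = true := by
  decide +kernel

/-- Certificates for primes `2` mod `3`, subcase Et. -/
def c2Et : List (ℕ × Tr) := [
  (5, (Tr.last 5 31)),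
  (11, (Tr.fS 11 7 Tr.full)),
  (17, (Tr.last 17 307)),
  (23, (Tr.fS 23 7 Tr.full)),
  (29, (Tr.last 29 67)),
  (41, (Tr.last 41 1723)),
  (47, (Tr.fB 47 37 Tr.full (Tr.gS 19 Tr.full))),
  (53, (Tr.last 53 2863)),
  (59, (Tr.fB 59 3541 Tr.full (Tr.gS 7 Tr.full))),
  (71, (Tr.fB 71 5113 Tr.full (Tr.gS 2557 Tr.full))),
  (83, (Tr.fS 83 19 Tr.full)),
  (89, (Tr.last 89 8011)),
  (101, (Tr.last 101 10303)),
  (107, (Tr.fS 107 7 Tr.full)),
  (113, (Tr.last 113 991)),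
  (131, (Tr.fB 131 17293 Tr.full (Tr.gS 8647 Tr.full))),
  (137, (Tr.last 137 18907)),
  (149, (Tr.last 149 22351)),
  (167, (Tr.fB 167 28057 Tr.full (Tr.gS 14029 Tr.full))),
  (173, (Tr.last 173 30103)),
  (179, (Tr.fS 179 7 Tr.full)),
  (191, (Tr.fS 191 7 Tr.full)),
  (197, (Tr.last 197 39007))]

lemma chk2Et : chk2 2 97 [13, 61] [3, 13, 61] 0 200 [] c2Et = true := by
  decide +kernel

/-- Certificates for primes `2` mod `3`, subcase Th. -/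
def c2Th : List (ℕ × Tr) := [
  (5, (Tr.fS 5 31 Tr.ab)),
  (11, (Tr.fS 11 7 Tr.ab)),
  (17, (Tr.fS 17 307 (Tr.last 307 31519))),
  (23, (Tr.fS 23 7 (Tr.last 7 19))),
  (29, (Tr.fS 29 67 (Tr.last 67 1519))),
  (41, (Tr.fS 41 1723 (Tr.last 1723 990151))),
  (47, (Tr.fB 47 37 (Tr.fS 37 7 Tr.full) (Tr.gS 19 (Tr.last 19 127)))),
  (53, (Tr.fS 53 7 (Tr.last 7 19))),
  (59, (Tr.fB 59 3541 (Tr.fS 3541 19 Tr.full) (Tr.gS 7 (Tr.last 7 19)))),
  (71, (Tr.fB 71 5113 (Tr.fB 5113 8715961 Tr.full (Tr.gS 47 (Tr.last 47 37))) (Tr.gS 2557 (Tr.last 2557 12901)))),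
  (83, (Tr.fS 83 19 (Tr.last 19 127))),
  (89, (Tr.fS 89 8011 (Tr.last 8011 1645747))),
  (101, (Tr.fS 101 10303 (Tr.last 10303 35387371))),
  (107, (Tr.fS 107 7 (Tr.last 7 19))),
  (113, (Tr.fS 113 991 (Tr.last 991 1939))),
  (131, (Tr.fB 131 17293 (Tr.fB 17293 7668337 Tr.full (Tr.gS 23 (Tr.last 23 553))) (Tr.gS 8647 (Tr.last 8647 24926419)))),
  (137, (Tr.fS 137 7 (Tr.last 7 19))),
  (149, (Tr.fS 149 7 (Tr.last 7 19))),
  (167, (Tr.fB 167 28057 (Tr.fB 28057 20185213 Tr.full (Tr.gS 7 Tr.full)) (Tr.gS 14029 (Tr.last 14029 65608957)))),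
  (173, (Tr.fS 173 30103 (Tr.last 30103 302073571))),
  (179, (Tr.fS 179 7 (Tr.last 7 19))),
  (191, (Tr.fS 191 7 (Tr.last 7 19))),
  (197, (Tr.fS 197 19 (Tr.last 19 127)))]

/-- Certificates for primes `1` mod `3`, subcase Th. -/
def c1Th : List (ℕ × Tr) := [
  (7, (Tr.last 7 19)),
  (19, (Tr.last 19 127)),
  (31, (Tr.last 31 331)),
  (37, (Tr.fS 37 7 Tr.full)),
  (43, (Tr.last 43 631)),
  (67, (Tr.last 67 1519)),
  (73, (Tr.fB 73 1801 Tr.full (Tr.gS 17 (Tr.last 17 307)))),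
  (79, (Tr.last 79 2107)),
  (97, (Tr.fB 97 3169 Tr.full (Tr.gS 5 (Tr.last 5 31)))),
  (103, (Tr.last 103 3571)),
  (109, (Tr.fS 109 7 Tr.full)),
  (127, (Tr.last 127 5419)),
  (139, (Tr.last 139 499)),
  (151, (Tr.last 151 7651)),
  (157, (Tr.fB 157 8269 Tr.full (Tr.gS 5 (Tr.last 5 31)))),
  (163, (Tr.last 163 8911)),
  (181, (Tr.fS 181 79 Tr.full)),
  (193, (Tr.fS 193 7 Tr.full)),
  (199, (Tr.last 199 13267))]

lemma chk2Th : chk2 2 61 [13] [3, 13] 0 200 [] c2Th = true := by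
  decide +kernel

lemma chk1Th : chk1 2 61 [13] [3, 13] 0 200 c1Th = true := by
  decide +kernel

/-- Certificates for primes `2` mod `3`, subcase Io. -/
def c2Io : List (ℕ × Tr) := [
  (5, (Tr.fS 5 31 Tr.ab)),
  (11, (Tr.fS 11 7 (Tr.fS 7 19 Tr.ab))),
  (17, (Tr.fS 17 307 (Tr.fS 307 43 (Tr.last 43 631)))),
  (23, (Tr.fS 23 7 (Tr.fS 7 19 Tr.ab))),
  (29, (Tr.fS 29 67 (Tr.fS 67 7 (Tr.last 7 19)))),
  (41, (Tr.fS 41 1723 (Tr.fS 1723 990151 (Tr.last 990151 326799997651)))),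
  (47, (Tr.fB 47 37 (Tr.fS 37 7 (Tr.last 7 19)) (Tr.gS 19 (Tr.fS 47 61 (Tr.last 61 97))))),
  (53, (Tr.fS 53 7 (Tr.fS 7 19 (Tr.last 19 127)))),
  (59, (Tr.fB 59 3541 (Tr.fS 3541 19 (Tr.last 19 127)) (Tr.gS 7 (Tr.gS 11 Tr.ab)))),
  (71, (Tr.fB 71 5113 (Tr.fB 5113 8715961 (Tr.fS 8715961 7 Tr.full) (Tr.gS 47 (Tr.fS 47 37 (Tr.last 47 61)))) (Tr.gS 2557 (Tr.fS 2557 7 (Tr.last 7 19))))),
  (83, (Tr.fS 83 19 (Tr.fS 19 127 (Tr.last 83 367)))),
  (89, (Tr.fS 89 8011 (Tr.fS 8011 1645747 (Tr.last 1645747 902828277919)))),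
  (101, (Tr.fS 101 10303 (Tr.fS 10303 5827 (Tr.last 5827 870763)))),
  (107, (Tr.fS 107 7 (Tr.fS 7 19 (Tr.last 107 127)))),
  (113, (Tr.fS 113 991 (Tr.fS 991 7 (Tr.last 7 19)))),
  (131, (Tr.fB 131 17293 (Tr.fB 17293 7668337 (Tr.fB 7668337 801337 Tr.full (Tr.last 7668337 24460537)) (Tr.gS 23 (Tr.fS 23 7 (Tr.last 7 19)))) (Tr.gS 8647 (Tr.fS 8647 7 (Tr.last 7 19))))),
  (137, (Tr.fS 137 7 (Tr.fS 7 19 (Tr.last 19 127)))),
  (149, (Tr.fS 149 7 (Tr.fS 7 19 (Tr.last 19 127)))),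
  (167, (Tr.fB 167 28057 (Tr.fB 28057 20185213 (Tr.fS 20185213 283 Tr.full) (Tr.gS 7 (Tr.last 7 19))) (Tr.gS 14029 (Tr.fS 14029 19 (Tr.last 19 127))))),
  (173, (Tr.fS 173 30103 (Tr.fS 30103 19 (Tr.last 19 127)))),
  (179, (Tr.fS 179 7 (Tr.fS 7 19 (Tr.last 19 127)))),
  (191, (Tr.fS 191 7 (Tr.fS 7 19 (Tr.last 191 31)))),
  (197, (Tr.fS 197 19 (Tr.fS 19 127 (Tr.last 127 5419))))]

/-- Certificates for primes `1` mod `3`, subcase Io. -/
def c1Io : List (ℕ × Tr) := [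
  (7, (Tr.fS 7 19 (Tr.last 19 127))),
  (19, (Tr.fS 19 127 (Tr.last 127 5419))),
  (31, (Tr.fS 31 331 (Tr.last 331 36631))),
  (37, (Tr.fS 37 7 (Tr.last 7 19))),
  (43, (Tr.fS 43 631 (Tr.last 631 132931))),
  (61, (Tr.fB 61 97 (Tr.fB 97 3169 Tr.full (Tr.gS 5 (Tr.last 5 31))) (Tr.gS 7 (Tr.last 7 19)))),
  (67, (Tr.fS 67 7 (Tr.last 7 19))),
  (73, (Tr.fB 73 1801 (Tr.fS 1801 7 Tr.full) (Tr.gS 17 (Tr.gS 53 (Tr.fS 53 7 (Tr.last 7 19)))))),
  (79, (Tr.fS 79 7 (Tr.last 7 19))),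
  (97, (Tr.fB 97 3169 (Tr.fB 3169 3348577 Tr.full (Tr.gS 1674289 Tr.full)) (Tr.gS 5 (Tr.fS 5 31 Tr.ab)))),
  (103, (Tr.fS 103 3571 (Tr.last 3571 25159))),
  (109, (Tr.fS 109 7 (Tr.last 7 19))),
  (127, (Tr.fS 127 5419 (Tr.last 5419 9790327))),
  (139, (Tr.fS 139 499 (Tr.last 499 83167))),
  (151, (Tr.fS 151 7 (Tr.last 7 19))),
  (157, (Tr.fB 157 8269 (Tr.fS 8269 7 Tr.full) (Tr.gS 5 (Tr.fS 5 31 Tr.ab)))),
  (163, (Tr.fS 163 7 (Tr.last 7 19))),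
  (181, (Tr.fS 181 79 (Tr.last 181 139))),
  (193, (Tr.fS 193 7 (Tr.last 7 19))),
  (199, (Tr.fS 199 13267 (Tr.last 13267 58675519)))]

lemma chk2Io : chk2 2 13 [] [3] 0 200 [] c2Io = true := by
  decide +kernel

lemma chk1Io : chk1 2 13 [] [3] 0 200 c1Io = true := by
  decide +kernel

/-- Certificates for primes `2` mod `3`, subcase Bi. -/
def c2Bi : List (ℕ × Tr) := [
  (5, (Tr.last 5 31)),
  (11, (Tr.last 11 133)),
  (17, (Tr.last 17 307)),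
  (23, (Tr.last 23 553)),
  (29, (Tr.last 29 67)),
  (41, (Tr.last 41 1723)),
  (47, (Tr.last 47 37)),
  (53, (Tr.last 53 2863)),
  (59, (Tr.last 59 3541)),
  (71, (Tr.last 71 5113)),
  (83, (Tr.last 83 6973)),
  (89, (Tr.last 89 8011)),
  (101, (Tr.last 101 10303)),
  (107, (Tr.last 107 889)),
  (113, (Tr.last 113 991)),
  (131, (Tr.last 131 17293)),
  (137, (Tr.last 137 18907)),
  (149, (Tr.last 149 22351)),
  (167, (Tr.last 167 28057)),
  (173, (Tr.last 173 30103)),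
  (179, (Tr.last 179 32221)),
  (191, (Tr.last 191 217)),
  (197, (Tr.last 197 39007)),
  (227, (Tr.last 227 51757)),
  (233, (Tr.last 233 54523)),
  (239, (Tr.last 239 57361)),
  (251, (Tr.last 251 63253)),
  (257, (Tr.last 257 1087)),
  (263, (Tr.last 263 5341)),
  (269, (Tr.last 269 5587)),
  (281, (Tr.last 281 79243)),
  (293, (Tr.last 293 86143)),
  (311, (Tr.last 311 97033)),
  (317, (Tr.last 317 100807)),
  (347, (Tr.last 347 9289)),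
  (353, (Tr.last 353 124963)),
  (359, (Tr.last 359 129241)),
  (383, (Tr.last 383 147073)),
  (389, (Tr.last 389 151711)),
  (401, (Tr.last 401 161203)),
  (419, (Tr.last 419 13537)),
  (431, (Tr.last 431 186193)),
  (443, (Tr.last 443 196693)),
  (449, (Tr.last 449 202051)),
  (461, (Tr.last 461 212983)),
  (467, (Tr.last 467 218557)),
  (479, (Tr.last 479 229921)),
  (491, (Tr.last 491 241573))]

lemma chk2Bi : chk2 1 61 [13] [3, 13] 1 500 [] c2Bi = true := by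
  decide +kernel

/-- Certificates for primes `2` mod `3`, subcase Bj. -/
def c2Bj : List (ℕ × Tr) := [
  (5, (Tr.fS 5 31 Tr.ab)),
  (11, (Tr.fS 11 7 (Tr.last 11 19))),
  (17, (Tr.fS 17 307 (Tr.last 307 31519))),
  (23, (Tr.fS 23 7 (Tr.last 7 19))),
  (29, (Tr.fS 29 67 (Tr.last 67 1519))),
  (41, (Tr.fS 41 1723 (Tr.last 1723 990151))),
  (47, (Tr.fS 47 37 (Tr.last 47 61))),
  (53, (Tr.fS 53 7 (Tr.last 7 19))),
  (59, (Tr.fS 59 3541 (Tr.last 3541 4180741))),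
  (71, (Tr.fS 71 5113 (Tr.last 5113 8715961))),
  (83, (Tr.fS 83 19 (Tr.last 19 127))),
  (89, (Tr.fS 89 8011 (Tr.last 8011 1645747))),
  (101, (Tr.fS 101 10303 (Tr.last 10303 35387371))),
  (107, (Tr.fS 107 7 (Tr.last 7 19))),
  (113, (Tr.fS 113 991 (Tr.last 991 1939))),
  (131, (Tr.fS 131 17293 (Tr.last 17293 7668337))),
  (137, (Tr.fS 137 7 (Tr.last 7 19))),
  (149, (Tr.fS 149 7 (Tr.last 7 19))),
  (167, (Tr.fS 167 28057 (Tr.last 28057 20185213))),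
  (173, (Tr.fS 173 30103 (Tr.last 30103 302073571))),
  (179, (Tr.fS 179 7 (Tr.last 7 19))),
  (191, (Tr.fS 191 7 (Tr.last 7 19))),
  (197, (Tr.fS 197 19 (Tr.last 19 127)))]

/-- Certificates for primes `1` mod `3`, subcase Bj. -/
def c1Bj : List (ℕ × Tr) := [
  (7, (Tr.last 7 19)),
  (19, (Tr.last 19 127)),
  (31, (Tr.last 31 331)),
  (37, (Tr.last 37 469)),
  (43, (Tr.last 43 631)),
  (61, (Tr.last 61 97)),
  (67, (Tr.last 67 1519)),
  (73, (Tr.last 73 1801)),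
  (79, (Tr.last 79 2107)),
  (97, (Tr.last 97 3169)),
  (103, (Tr.last 103 3571)),
  (109, (Tr.last 109 3997)),
  (127, (Tr.last 127 5419)),
  (139, (Tr.last 139 499)),
  (151, (Tr.last 151 7651)),
  (157, (Tr.last 157 8269)),
  (163, (Tr.last 163 8911)),
  (181, (Tr.last 181 10981)),
  (193, (Tr.last 193 12481)),
  (199, (Tr.last 199 13267))]

lemma chk2Bj : chk2 1 13 [] [3] 1 200 [] c2Bj = true := by
  decide +kernel

lemma chk1Bj : chk1 1 13 [] [3] 1 200 c1Bj = true := by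
  decide +kernel

end Pool.Agent.Lib.MP_f02ea4_nt.Exc
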