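import Mathlib
import Pool.Agent.Lib.MP_f02ea4_nt.ExcCert

/-!
The case `9 ‖ N`.
-/

set_option autoImplicit false

namespace Pool.Agent.Lib.MP_f02ea4_nt.Exc

open Finset Pool.Agent.Lib.MP_f02ea4_nt.Rad

lemma Zs_sub {N p r q : ℕ} (h : q ∈ Zs N p r) : q ∈ S2 N p r := by
  unfold Zs at h
  exact (Finset.mem_filter.1 h).1


lemma caseAl {N : ℕ} (C : Ctx N 13 127) (h3m : 3 ∈ N.primeFactors)
    (hcap : (S1 N 13 127).card ≤ 2) (hr : 127 ∈ N.primeFactors) (h7 : 7 ∈ S1 N 13 127) (h19 : 19 ∈ S1 N 13 127) : False := by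
  have hrp : 127 ≠ 13 := by norm_num
  have h3p : 3 ≠ 13 := by norm_num
  have h3S : 3 ∈ N.primeFactors ∧ 3 ≠ 13 ∧ 3 ≠ 127 := ⟨h3m, h3p, by norm_num⟩
  have e3 : N.factorization 3 = 2 := C.two 3 h3S.1 h3S.2.1 h3S.2.2
  have m7 := mem_S1.1 h7
  have m19 := mem_S1.1 h19
  have I : Inv N 13 127 [7, 19] [3, 7, 19] 13 := by
    refine ⟨by decide, ?_, ?_, Or.inr (Or.inl ⟨by norm_num, rfl⟩)⟩
    · intro u hu
      simp only [List.mem_cons, List.not_mem_nil, or_false] at hu
      rcases hu with rfl | rfl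
      · exact h7
      · exact h19
    · intro u hu
      simp only [List.mem_cons, List.not_mem_nil, or_false] at hu
      rcases hu with rfl | rfl | rfl
      · exact h3S
      · exact ⟨m7.1, m7.2.1, m7.2.2.1⟩
      · exact ⟨m19.1, m19.2.1, m19.2.2.1⟩
  have hB : ∀ q ∈ S2 N 13 127, 107 ≤ q := fun q hq =>
    chk2_spec C hr hrp hcap I chk2Alb q hq (by simp)
  have hBZ : ∀ q ∈ Zs N 13 127, 200 ≤ q := by
    intro q hq
    refine chk2_spec C hr hrp hcap I chk2Al q (Zs_sub hq) ?_
    intro hX
    rw [List.mem_singleton] at hX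
    subst hX
    unfold Zs at hq
    exact (Finset.mem_filter.1 hq).2 ⟨7, h7, by norm_num [F]⟩
  have hT : ∀ q ∈ S1 N 13 127, q ∉ ([7, 19] : List ℕ) → 200 ≤ q := by
    classical
    intro q hq hqL
    exfalso
    have h1 : insert q ([7, 19] : List ℕ).toFinset ⊆ S1 N 13 127 := by
      intro x hx
      rw [Finset.mem_insert, List.mem_toFinset] at hx
      rcases hx with rfl | hx
      · exact hq
      · exact I.l1 x hx
    have h2 := Finset.card_le_card h1
    rw [Finset.card_insert_of_notMem (by rwa [List.mem_toFinset]),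
      List.toFinset_card_of_nodup I.nd] at h2
    simp only [List.length_cons, List.length_nil] at h2
    omega
  have c7 : (Ht N 13 127 7).card ≤ 1 := by
    refine Ht_le_one C h7 C.pmem (fun h => (mem_S2.1 h).2.1 rfl) ?_
    have h4 := C.a4
    obtain ⟨k, hk⟩ : ∃ k, N.factorization 13 = 2 * k + 1 := ⟨(N.factorization 13) / 2, by omega⟩
    rw [hk]
    exact dvd_trans (by norm_num) (C.sg_odd_exp 13 k)
  have c19 : (Ht N 13 127 19).card ≤ 1 := by
    refine Ht_le_one C h19 m7.1 (fun h => absurd (mem_S2.1 h).2.2.2 (by norm_num)) ?_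
    rw [C.two 7 m7.1 m7.2.1 m7.2.2.1, sg_two]
    norm_num [F]
  have hL1 : ∀ t ∈ ([7, 19] : List ℕ), (Ht N 13 127 t).card ≤ 1 := by
    intro t ht
    simp only [List.mem_cons, List.not_mem_nil, or_false] at ht
    rcases ht with rfl | rfl
    · exact c7
    · exact c19
  have hz := pair_sum (x := 13) (y := 127) C.pprime (Nat.prime_of_mem_primeFactors hr) (by norm_num)
    (by norm_num) (Zs N 13 127) (fun q hq => (mem_S2.1 (Zs_sub hq)).2.2.2)
    (fun q hq s hs hd => Zs_supp C hq hs hd) 200 3 2 hBZ (by norm_num) (by norm_num) (by norm_num)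
  have hgp := gi_ge N C.pprime (m := 13) (by norm_num) le_rfl
  have hgr := gi_ge N (Nat.prime_of_mem_primeFactors hr) (m := 127) (by norm_num) le_rfl
  have hfin := finish C hrp h3p (by norm_num) hcap [7, 19] (by decide) I.l1 hL1 200 107
    (by norm_num) (by norm_num) hT hB (713647 / 67608450) (by
      refine le_trans hz ?_
      norm_num) (12 / 13) (126 / 127) (by norm_num) (by norm_num) (by norm_num)
    (by norm_num) (by norm_num at hgp ⊢; linarith) (by norm_num at hgr ⊢; linarith)
  norm_num [abDen, abNum, F] at hfin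

lemma caseBe {N : ℕ} (C : Ctx N 13 19) (h3m : 3 ∈ N.primeFactors)
    (hcap : (S1 N 13 19).card ≤ 2) (hr : 19 ∈ N.primeFactors) (h7 : 7 ∈ S1 N 13 19) : False := by
  have hrp : 19 ≠ 13 := by norm_num
  have h3p : 3 ≠ 13 := by norm_num
  have h3S : 3 ∈ N.primeFactors ∧ 3 ≠ 13 ∧ 3 ≠ 19 := ⟨h3m, h3p, by norm_num⟩
  have e3 : N.factorization 3 = 2 := C.two 3 h3S.1 h3S.2.1 h3S.2.2
  have m7 := mem_S1.1 h7
  have I : Inv N 13 19 [7] [3, 7] 13 := by
    refine ⟨by decide, ?_, ?_, Or.inr (Or.inl ⟨by norm_num, rfl⟩)⟩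
    · intro u hu
      simp only [List.mem_cons, List.not_mem_nil, or_false] at hu
      subst hu; exact h7
    · intro u hu
      simp only [List.mem_cons, List.not_mem_nil, or_false] at hu
      rcases hu with rfl | rfl
      · exact h3S
      · exact ⟨m7.1, m7.2.1, m7.2.2.1⟩
  have hB : ∀ q ∈ S2 N 13 19, 200 ≤ q := fun q hq =>
    chk2_spec C hr hrp hcap I chk2Be q hq (by simp)
  have hBZ : ∀ q ∈ Zs N 13 19, 200 ≤ q := fun q hq => hB q (Zs_sub hq)
  have hT : ∀ q ∈ S1 N 13 19, q ∉ ([7] : List ℕ) → 200 ≤ q := fun q hq hqL =>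
    chk1_spec C hr hrp hcap I chk1Be q hq hqL
  have c7 : (Ht N 13 19 7).card ≤ 1 := by
    refine Ht_le_one C h7 C.pmem (fun h => (mem_S2.1 h).2.1 rfl) ?_
    have h4 := C.a4
    obtain ⟨k, hk⟩ : ∃ k, N.factorization 13 = 2 * k + 1 := ⟨(N.factorization 13) / 2, by omega⟩
    rw [hk]
    exact dvd_trans (by norm_num) (C.sg_odd_exp 13 k)
  have hL1 : ∀ t ∈ ([7] : List ℕ), (Ht N 13 19 t).card ≤ 1 := by
    intro t ht
    simp only [List.mem_cons, List.not_mem_nil, or_false] at ht
    subst ht; exact c7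
  have hz := pair_sum (x := 13) (y := 19) C.pprime (Nat.prime_of_mem_primeFactors hr) (by norm_num)
    (by norm_num) (Zs N 13 19) (fun q hq => (mem_S2.1 (Zs_sub hq)).2.2.2)
    (fun q hq s hs hd => Zs_supp C hq hs hd) 200 3 2 hBZ (by norm_num) (by norm_num) (by norm_num)
  have hgp := gi_ge N C.pprime (m := 13) (by norm_num) le_rfl
  have hgr := gi_ge N (Nat.prime_of_mem_primeFactors hr) (m := 19) (by norm_num) le_rfl
  have hfin := finish C hrp h3p (by norm_num) hcap [7] (by decide) I.l1 hL1 200 200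
    (by norm_num) (by norm_num) hT hB (19387 / 1444950) (by
      refine le_trans hz ?_
      norm_num) (12 / 13) (18 / 19) (by norm_num) (by norm_num) (by norm_num)
    (by norm_num) (by norm_num at hgp ⊢; linarith) (by norm_num at hgr ⊢; linarith)
  norm_num [abDen, abNum, F] at hfin

lemma caseGa {N : ℕ} (C : Ctx N 13 7) (h3m : 3 ∈ N.primeFactors)
    (hcap : (S1 N 13 7).card ≤ 2) (hr : 7 ∈ N.primeFactors) : False := by
  have hrp : 7 ≠ 13 := by norm_num
  have h3p : 3 ≠ 13 := by norm_num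
  have h3S : 3 ∈ N.primeFactors ∧ 3 ≠ 13 ∧ 3 ≠ 7 := ⟨h3m, h3p, by norm_num⟩
  have e3 : N.factorization 3 = 2 := C.two 3 h3S.1 h3S.2.1 h3S.2.2
  have I : Inv N 13 7 [] [3] 13 := by
    refine ⟨by decide, ?_, ?_, Or.inr (Or.inl ⟨by norm_num, rfl⟩)⟩
    · intro u hu
      simp only [List.mem_cons, List.not_mem_nil, or_false] at hu

    · intro u hu
      simp only [List.mem_cons, List.not_mem_nil, or_false] at hu
      subst hu; exact h3S
  have hB : ∀ q ∈ S2 N 13 7, 200 ≤ q := fun q hq =>
    chk2_spec C hr hrp hcap I chk2Ga q hq (by simp)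
  have hBZ : ∀ q ∈ Zs N 13 7, 200 ≤ q := fun q hq => hB q (Zs_sub hq)
  have hT : ∀ q ∈ S1 N 13 7, q ∉ ([] : List ℕ) → 200 ≤ q := fun q hq hqL =>
    chk1_spec C hr hrp hcap I chk1Ga q hq hqL
  have hL1 : ∀ t ∈ ([] : List ℕ), (Ht N 13 7 t).card ≤ 1 := by
    intro t ht
    simp only [List.mem_cons, List.not_mem_nil, or_false] at ht

  have hz := pair_sum (x := 13) (y := 7) C.pprime (Nat.prime_of_mem_primeFactors hr) (by norm_num)
    (by norm_num) (Zs N 13 7) (fun q hq => (mem_S2.1 (Zs_sub hq)).2.2.2)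
    (fun q hq s hs hd => Zs_supp C hq hs hd) 200 3 3 hBZ (by norm_num) (by norm_num) (by norm_num)
  have hgp := gi_ge N C.pprime (m := 13) (by norm_num) le_rfl
  have hgr := gi_ge N (Nat.prime_of_mem_primeFactors hr) (m := 7) (by norm_num) le_rfl
  have hfin := finish C hrp h3p (by norm_num) hcap [] (by decide) I.l1 hL1 200 200
    (by norm_num) (by norm_num) hT hB (5753 / 414050) (by
      refine le_trans hz ?_
      norm_num) (12 / 13) (6 / 7) (by norm_num) (by norm_num) (by norm_num)
    (by norm_num) (by norm_num at hgp ⊢; linarith) (by norm_num at hgr ⊢; linarith)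
  norm_num [abDen, abNum, F] at hfin

lemma caseDe {N : ℕ} (C : Ctx N 61 331) (h3m : 3 ∈ N.primeFactors)
    (hcap : (S1 N 61 331).card ≤ 2) (hr : 331 ∈ N.primeFactors) (h13 : 13 ∈ S1 N 61 331) (h31 : 31 ∈ S1 N 61 331) : False := by
  have hrp : 331 ≠ 61 := by norm_num
  have h3p : 3 ≠ 61 := by norm_num
  have h3S : 3 ∈ N.primeFactors ∧ 3 ≠ 61 ∧ 3 ≠ 331 := ⟨h3m, h3p, by norm_num⟩
  have e3 : N.factorization 3 = 2 := C.two 3 h3S.1 h3S.2.1 h3S.2.2
  have m13 := mem_S1.1 h13
  have m31 := mem_S1.1 h31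
  have I : Inv N 61 331 [13, 31] [3, 13, 31] 61 := by
    refine ⟨by decide, ?_, ?_, Or.inr (Or.inl ⟨by norm_num, rfl⟩)⟩
    · intro u hu
      simp only [List.mem_cons, List.not_mem_nil, or_false] at hu
      rcases hu with rfl | rfl
      · exact h13
      · exact h31
    · intro u hu
      simp only [List.mem_cons, List.not_mem_nil, or_false] at hu
      rcases hu with rfl | rfl | rfl
      · exact h3S
      · exact ⟨m13.1, m13.2.1, m13.2.2.1⟩
      · exact ⟨m31.1, m31.2.1, m31.2.2.1⟩
  have hB : ∀ q ∈ S2 N 61 331, 200 ≤ q := fun q hq =>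
    chk2_spec C hr hrp hcap I chk2De q hq (by simp)
  have hBZ : ∀ q ∈ Zs N 61 331, 200 ≤ q := fun q hq => hB q (Zs_sub hq)
  have hT : ∀ q ∈ S1 N 61 331, q ∉ ([13, 31] : List ℕ) → 200 ≤ q := by
    classical
    intro q hq hqL
    exfalso
    have h1 : insert q ([13, 31] : List ℕ).toFinset ⊆ S1 N 61 331 := by
      intro x hx
      rw [Finset.mem_insert, List.mem_toFinset] at hx
      rcases hx with rfl | hx
      · exact hq
      · exact I.l1 x hx
    have h2 := Finset.card_le_card h1
    rw [Finset.card_insert_of_notMem (by rwa [List.mem_toFinset]),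
      List.toFinset_card_of_nodup I.nd] at h2
    simp only [List.length_cons, List.length_nil] at h2
    omega
  have c13 : (Ht N 61 331 13).card ≤ 1 := by
    refine Ht_le_one C h13 h3m (fun h => absurd (mem_S2.1 h).2.2.2 (by norm_num)) ?_
    rw [e3, sg_two]
    norm_num [F]
  have c31 : (Ht N 61 331 31).card ≤ 1 := by
    refine Ht_le_one C h31 C.pmem (fun h => (mem_S2.1 h).2.1 rfl) ?_
    have h4 := C.a4
    obtain ⟨k, hk⟩ : ∃ k, N.factorization 61 = 2 * k + 1 := ⟨(N.factorization 61) / 2, by omega⟩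
    rw [hk]
    exact dvd_trans (by norm_num) (C.sg_odd_exp 61 k)
  have hL1 : ∀ t ∈ ([13, 31] : List ℕ), (Ht N 61 331 t).card ≤ 1 := by
    intro t ht
    simp only [List.mem_cons, List.not_mem_nil, or_false] at ht
    rcases ht with rfl | rfl
    · exact c13
    · exact c31
  have hz := pair_sum (x := 61) (y := 331) C.pprime (Nat.prime_of_mem_primeFactors hr) (by norm_num)
    (by norm_num) (Zs N 61 331) (fun q hq => (mem_S2.1 (Zs_sub hq)).2.2.2)
    (fun q hq s hs hd => Zs_supp C hq hs hd) 200 2 1 hBZ (by norm_num) (by norm_num) (by norm_num)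
  have hgp := gi_ge N C.pprime (m := 61) (by norm_num) le_rfl
  have hgr := gi_ge N (Nat.prime_of_mem_primeFactors hr) (m := 331) (by norm_num) le_rfl
  have hfin := finish C hrp h3p (by norm_num) hcap [13, 31] (by decide) I.l1 hL1 200 200
    (by norm_num) (by norm_num) hT hB (1339 / 100650) (by
      refine le_trans hz ?_
      norm_num) (60 / 61) (330 / 331) (by norm_num) (by norm_num) (by norm_num)
    (by norm_num) (by norm_num at hgp ⊢; linarith) (by norm_num at hgr ⊢; linarith)
  norm_num [abDen, abNum, F] at hfin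

lemma caseEp {N : ℕ} (C : Ctx N 61 31) (h3m : 3 ∈ N.primeFactors)
    (hcap : (S1 N 61 31).card ≤ 2) (hr : 31 ∈ N.primeFactors) (h13 : 13 ∈ S1 N 61 31) : False := by
  have hrp : 31 ≠ 61 := by norm_num
  have h3p : 3 ≠ 61 := by norm_num
  have h3S : 3 ∈ N.primeFactors ∧ 3 ≠ 61 ∧ 3 ≠ 31 := ⟨h3m, h3p, by norm_num⟩
  have e3 : N.factorization 3 = 2 := C.two 3 h3S.1 h3S.2.1 h3S.2.2
  have m13 := mem_S1.1 h13
  have I : Inv N 61 31 [13] [3, 13] 61 := by
    refine ⟨by decide, ?_, ?_, Or.inr (Or.inl ⟨by norm_num, rfl⟩)⟩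
    · intro u hu
      simp only [List.mem_cons, List.not_mem_nil, or_false] at hu
      subst hu; exact h13
    · intro u hu
      simp only [List.mem_cons, List.not_mem_nil, or_false] at hu
      rcases hu with rfl | rfl
      · exact h3S
      · exact ⟨m13.1, m13.2.1, m13.2.2.1⟩
  have hB : ∀ q ∈ S2 N 61 31, 200 ≤ q := fun q hq =>
    chk2_spec C hr hrp hcap I chk2Ep q hq (by simp)
  have hBZ : ∀ q ∈ Zs N 61 31, 200 ≤ q := fun q hq => hB q (Zs_sub hq)
  have hT : ∀ q ∈ S1 N 61 31, q ∉ ([13] : List ℕ) → 200 ≤ q := fun q hq hqL =>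
    chk1_spec C hr hrp hcap I chk1Ep q hq hqL
  have c13 : (Ht N 61 31 13).card ≤ 1 := by
    refine Ht_le_one C h13 h3m (fun h => absurd (mem_S2.1 h).2.2.2 (by norm_num)) ?_
    rw [e3, sg_two]
    norm_num [F]
  have hL1 : ∀ t ∈ ([13] : List ℕ), (Ht N 61 31 t).card ≤ 1 := by
    intro t ht
    simp only [List.mem_cons, List.not_mem_nil, or_false] at ht
    subst ht; exact c13
  have hz := pair_sum (x := 61) (y := 31) C.pprime (Nat.prime_of_mem_primeFactors hr) (by norm_num)
    (by norm_num) (Zs N 61 31) (fun q hq => (mem_S2.1 (Zs_sub hq)).2.2.2)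
    (fun q hq s hs hd => Zs_supp C hq hs hd) 200 2 2 hBZ (by norm_num) (by norm_num) (by norm_num)
  have hgp := gi_ge N C.pprime (m := 61) (by norm_num) le_rfl
  have hgr := gi_ge N (Nat.prime_of_mem_primeFactors hr) (m := 31) (by norm_num) le_rfl
  have hfin := finish C hrp h3p (by norm_num) hcap [13] (by decide) I.l1 hL1 200 200
    (by norm_num) (by norm_num) hT hB (1073 / 94550) (by
      refine le_trans hz ?_
      norm_num) (60 / 61) (30 / 31) (by norm_num) (by norm_num) (by norm_num)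
    (by norm_num) (by norm_num at hgp ⊢; linarith) (by norm_num at hgr ⊢; linarith)
  norm_num [abDen, abNum, F] at hfin

lemma caseZe {N : ℕ} (C : Ctx N 97 7) (h3m : 3 ∈ N.primeFactors)
    (hcap : (S1 N 97 7).card ≤ 2) (hr : 7 ∈ N.primeFactors) (h13 : 13 ∈ S1 N 97 7) (h61 : 61 ∈ S1 N 97 7) : False := by
  have hrp : 7 ≠ 97 := by norm_num
  have h3p : 3 ≠ 97 := by norm_num
  have h3S : 3 ∈ N.primeFactors ∧ 3 ≠ 97 ∧ 3 ≠ 7 := ⟨h3m, h3p, by norm_num⟩
  have e3 : N.factorization 3 = 2 := C.two 3 h3S.1 h3S.2.1 h3S.2.2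
  have m13 := mem_S1.1 h13
  have m61 := mem_S1.1 h61
  have I : Inv N 97 7 [13, 61] [3, 13, 61] 97 := by
    refine ⟨by decide, ?_, ?_, Or.inr (Or.inl ⟨by norm_num, rfl⟩)⟩
    · intro u hu
      simp only [List.mem_cons, List.not_mem_nil, or_false] at hu
      rcases hu with rfl | rfl
      · exact h13
      · exact h61
    · intro u hu
      simp only [List.mem_cons, List.not_mem_nil, or_false] at hu
      rcases hu with rfl | rfl | rfl
      · exact h3S
      · exact ⟨m13.1, m13.2.1, m13.2.2.1⟩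
      · exact ⟨m61.1, m61.2.1, m61.2.2.1⟩
  have hB : ∀ q ∈ S2 N 97 7, 200 ≤ q := fun q hq =>
    chk2_spec C hr hrp hcap I chk2Ze q hq (by simp)
  have hBZ : ∀ q ∈ Zs N 97 7, 200 ≤ q := fun q hq => hB q (Zs_sub hq)
  have hT : ∀ q ∈ S1 N 97 7, q ∉ ([13, 61] : List ℕ) → 200 ≤ q := by
    classical
    intro q hq hqL
    exfalso
    have h1 : insert q ([13, 61] : List ℕ).toFinset ⊆ S1 N 97 7 := by
      intro x hx
      rw [Finset.mem_insert, List.mem_toFinset] at hx
      rcases hx with rfl | hx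
      · exact hq
      · exact I.l1 x hx
    have h2 := Finset.card_le_card h1
    rw [Finset.card_insert_of_notMem (by rwa [List.mem_toFinset]),
      List.toFinset_card_of_nodup I.nd] at h2
    simp only [List.length_cons, List.length_nil] at h2
    omega
  have c13 : (Ht N 97 7 13).card ≤ 1 := by
    refine Ht_le_one C h13 h3m (fun h => absurd (mem_S2.1 h).2.2.2 (by norm_num)) ?_
    rw [e3, sg_two]
    norm_num [F]
  have c61 : (Ht N 97 7 61).card ≤ 1 := by
    refine Ht_le_one C h61 m13.1 (fun h => absurd (mem_S2.1 h).2.2.2 (by norm_num)) ?_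
    rw [C.two 13 m13.1 m13.2.1 m13.2.2.1, sg_two]
    norm_num [F]
  have hL1 : ∀ t ∈ ([13, 61] : List ℕ), (Ht N 97 7 t).card ≤ 1 := by
    intro t ht
    simp only [List.mem_cons, List.not_mem_nil, or_false] at ht
    rcases ht with rfl | rfl
    · exact c13
    · exact c61
  have hz := pair_sum (x := 97) (y := 7) C.pprime (Nat.prime_of_mem_primeFactors hr) (by norm_num)
    (by norm_num) (Zs N 97 7) (fun q hq => (mem_S2.1 (Zs_sub hq)).2.2.2)
    (fun q hq s hs hd => Zs_supp C hq hs hd) 200 2 3 hBZ (by norm_num) (by norm_num) (by norm_num)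
  have hgp := gi_ge N C.pprime (m := 97) (by norm_num) le_rfl
  have hgr := gi_ge N (Nat.prime_of_mem_primeFactors hr) (m := 7) (by norm_num) le_rfl
  have hfin := finish C hrp h3p (by norm_num) hcap [13, 61] (by decide) I.l1 hL1 200 200
    (by norm_num) (by norm_num) hT hB (154097 / 11407200) (by
      refine le_trans hz ?_
      norm_num) (96 / 97) (6 / 7) (by norm_num) (by norm_num) (by norm_num)
    (by norm_num) (by norm_num at hgp ⊢; linarith) (by norm_num at hgr ⊢; linarith)
  norm_num [abDen, abNum, F] at hfin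

lemma caseEt {N p : ℕ} (C : Ctx N p 97) (h3m : 3 ∈ N.primeFactors)
    (hcap : (S1 N p 97).card ≤ 2) (hr : 97 ∈ N.primeFactors) (h13 : 13 ∈ S1 N p 97) (h61 : 61 ∈ S1 N p 97)
    (hp3 : p % 3 = 1) (hp37 : 37 ≤ p) (hrp : 97 ≠ p) : False := by
  have h3p : 3 ≠ p := by omega
  have h3S : 3 ∈ N.primeFactors ∧ 3 ≠ p ∧ 3 ≠ 97 := ⟨h3m, h3p, by norm_num⟩
  have e3 : N.factorization 3 = 2 := C.two 3 h3S.1 h3S.2.1 h3S.2.2
  have m13 := mem_S1.1 h13
  have m61 := mem_S1.1 h61
  have I : Inv N p 97 [13, 61] [3, 13, 61] 0 := by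
    refine ⟨by decide, ?_, ?_, Or.inl rfl⟩
    · intro u hu
      simp only [List.mem_cons, List.not_mem_nil, or_false] at hu
      rcases hu with rfl | rfl
      · exact h13
      · exact h61
    · intro u hu
      simp only [List.mem_cons, List.not_mem_nil, or_false] at hu
      rcases hu with rfl | rfl | rfl
      · exact h3S
      · exact ⟨m13.1, m13.2.1, m13.2.2.1⟩
      · exact ⟨m61.1, m61.2.1, m61.2.2.1⟩
  have hB : ∀ q ∈ S2 N p 97, 200 ≤ q := fun q hq =>
    chk2_spec C hr hrp hcap I chk2Et q hq (by simp)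
  have hBZ : ∀ q ∈ Zs N p 97, 200 ≤ q := fun q hq => hB q (Zs_sub hq)
  have hT : ∀ q ∈ S1 N p 97, q ∉ ([13, 61] : List ℕ) → 200 ≤ q := by
    classical
    intro q hq hqL
    exfalso
    have h1 : insert q ([13, 61] : List ℕ).toFinset ⊆ S1 N p 97 := by
      intro x hx
      rw [Finset.mem_insert, List.mem_toFinset] at hx
      rcases hx with rfl | hx
      · exact hq
      · exact I.l1 x hx
    have h2 := Finset.card_le_card h1
    rw [Finset.card_insert_of_notMem (by rwa [List.mem_toFinset]),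
      List.toFinset_card_of_nodup I.nd] at h2
    simp only [List.length_cons, List.length_nil] at h2
    omega
  have c13 : (Ht N p 97 13).card ≤ 1 := by
    refine Ht_le_one C h13 h3m (fun h => absurd (mem_S2.1 h).2.2.2 (by norm_num)) ?_
    rw [e3, sg_two]
    norm_num [F]
  have c61 : (Ht N p 97 61).card ≤ 1 := by
    refine Ht_le_one C h61 m13.1 (fun h => absurd (mem_S2.1 h).2.2.2 (by norm_num)) ?_
    rw [C.two 13 m13.1 m13.2.1 m13.2.2.1, sg_two]
    norm_num [F]
  have hL1 : ∀ t ∈ ([13, 61] : List ℕ), (Ht N p 97 t).card ≤ 1 := by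
    intro t ht
    simp only [List.mem_cons, List.not_mem_nil, or_false] at ht
    rcases ht with rfl | rfl
    · exact c13
    · exact c61
  have hz := pair_sum (x := p) (y := 97) C.pprime (Nat.prime_of_mem_primeFactors hr) hp3
    (by norm_num) (Zs N p 97) (fun q hq => (mem_S2.1 (Zs_sub hq)).2.2.2)
    (fun q hq s hs hd => Zs_supp C hq hs hd) 200 1 2 hBZ (by norm_num) (by norm_num) (by norm_num)
  have hpt := inv_pred_le (x := p) (m := 37) (by norm_num) hp37
  have hgp := gi_ge N C.pprime (m := 37) (by norm_num) hp37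
  have hgr := gi_ge N (Nat.prime_of_mem_primeFactors hr) (m := 97) (by norm_num) le_rfl
  have hfin := finish C hrp h3p (by norm_num) hcap [13, 61] (by decide) I.l1 hL1 200 200
    (by norm_num) (by norm_num) hT hB (26459 / 698400) (by
      refine le_trans hz ?_
      norm_num at hpt ⊢; linarith) (36 / 37) (96 / 97) (by norm_num) (by norm_num) (by norm_num)
    (by norm_num) (by norm_num at hgp ⊢; linarith) (by norm_num at hgr ⊢; linarith)
  norm_num [abDen, abNum, F] at hfin

lemma caseTh {N p : ℕ} (C : Ctx N p 61) (h3m : 3 ∈ N.primeFactors)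
    (hcap : (S1 N p 61).card ≤ 2) (hr : 61 ∈ N.primeFactors) (h13 : 13 ∈ S1 N p 61)
    (hp3 : p % 3 = 1) (hp37 : 37 ≤ p) (hrp : 61 ≠ p) : False := by
  have h3p : 3 ≠ p := by omega
  have h3S : 3 ∈ N.primeFactors ∧ 3 ≠ p ∧ 3 ≠ 61 := ⟨h3m, h3p, by norm_num⟩
  have e3 : N.factorization 3 = 2 := C.two 3 h3S.1 h3S.2.1 h3S.2.2
  have m13 := mem_S1.1 h13
  have I : Inv N p 61 [13] [3, 13] 0 := by
    refine ⟨by decide, ?_, ?_, Or.inl rfl⟩
    · intro u hu
      simp only [List.mem_cons, List.not_mem_nil, or_false] at hu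
      subst hu; exact h13
    · intro u hu
      simp only [List.mem_cons, List.not_mem_nil, or_false] at hu
      rcases hu with rfl | rfl
      · exact h3S
      · exact ⟨m13.1, m13.2.1, m13.2.2.1⟩
  have hB : ∀ q ∈ S2 N p 61, 200 ≤ q := fun q hq =>
    chk2_spec C hr hrp hcap I chk2Th q hq (by simp)
  have hBZ : ∀ q ∈ Zs N p 61, 200 ≤ q := fun q hq => hB q (Zs_sub hq)
  have hT : ∀ q ∈ S1 N p 61, q ∉ ([13] : List ℕ) → 200 ≤ q := fun q hq hqL =>
    chk1_spec C hr hrp hcap I chk1Th q hq hqL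
  have c13 : (Ht N p 61 13).card ≤ 1 := by
    refine Ht_le_one C h13 h3m (fun h => absurd (mem_S2.1 h).2.2.2 (by norm_num)) ?_
    rw [e3, sg_two]
    norm_num [F]
  have hL1 : ∀ t ∈ ([13] : List ℕ), (Ht N p 61 t).card ≤ 1 := by
    intro t ht
    simp only [List.mem_cons, List.not_mem_nil, or_false] at ht
    subst ht; exact c13
  have hz := pair_sum (x := p) (y := 61) C.pprime (Nat.prime_of_mem_primeFactors hr) hp3
    (by norm_num) (Zs N p 61) (fun q hq => (mem_S2.1 (Zs_sub hq)).2.2.2)
    (fun q hq s hs hd => Zs_supp C hq hs hd) 200 1 2 hBZ (by norm_num) (by norm_num) (by norm_num)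
  have hpt := inv_pred_le (x := p) (m := 37) (by norm_num) hp37
  have hgp := gi_ge N C.pprime (m := 37) (by norm_num) hp37
  have hgr := gi_ge N (Nat.prime_of_mem_primeFactors hr) (m := 61) (by norm_num) le_rfl
  have hfin := finish C hrp h3p (by norm_num) hcap [13] (by decide) I.l1 hL1 200 200
    (by norm_num) (by norm_num) hT hB (2089 / 54900) (by
      refine le_trans hz ?_
      norm_num at hpt ⊢; linarith) (36 / 37) (60 / 61) (by norm_num) (by norm_num) (by norm_num)
    (by norm_num) (by norm_num at hgp ⊢; linarith) (by norm_num at hgr ⊢; linarith)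
  norm_num [abDen, abNum, F] at hfin

lemma caseIo {N p : ℕ} (C : Ctx N p 13) (h3m : 3 ∈ N.primeFactors)
    (hcap : (S1 N p 13).card ≤ 2) (hr : 13 ∈ N.primeFactors)
    (hp3 : p % 3 = 1) (hp37 : 37 ≤ p) (hrp : 13 ≠ p) : False := by
  have h3p : 3 ≠ p := by omega
  have h3S : 3 ∈ N.primeFactors ∧ 3 ≠ p ∧ 3 ≠ 13 := ⟨h3m, h3p, by norm_num⟩
  have e3 : N.factorization 3 = 2 := C.two 3 h3S.1 h3S.2.1 h3S.2.2
  have I : Inv N p 13 [] [3] 0 := by
    refine ⟨by decide, ?_, ?_, Or.inl rfl⟩
    · intro u hu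
      simp only [List.mem_cons, List.not_mem_nil, or_false] at hu

    · intro u hu
      simp only [List.mem_cons, List.not_mem_nil, or_false] at hu
      subst hu; exact h3S
  have hB : ∀ q ∈ S2 N p 13, 200 ≤ q := fun q hq =>
    chk2_spec C hr hrp hcap I chk2Io q hq (by simp)
  have hBZ : ∀ q ∈ Zs N p 13, 200 ≤ q := fun q hq => hB q (Zs_sub hq)
  have hT : ∀ q ∈ S1 N p 13, q ∉ ([] : List ℕ) → 200 ≤ q := fun q hq hqL =>
    chk1_spec C hr hrp hcap I chk1Io q hq hqL
  have hL1 : ∀ t ∈ ([] : List ℕ), (Ht N p 13 t).card ≤ 1 := by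
    intro t ht
    simp only [List.mem_cons, List.not_mem_nil, or_false] at ht

  have hz := pair_sum (x := p) (y := 13) C.pprime (Nat.prime_of_mem_primeFactors hr) hp3
    (by norm_num) (Zs N p 13) (fun q hq => (mem_S2.1 (Zs_sub hq)).2.2.2)
    (fun q hq s hs hd => Zs_supp C hq hs hd) 200 1 3 hBZ (by norm_num) (by norm_num) (by norm_num)
  have hpt := inv_pred_le (x := p) (m := 37) (by norm_num) hp37
  have hgp := gi_ge N C.pprime (m := 37) (by norm_num) hp37
  have hgr := gi_ge N (Nat.prime_of_mem_primeFactors hr) (m := 13) (by norm_num) le_rfl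
  have hfin := finish C hrp h3p (by norm_num) hcap [] (by decide) I.l1 hL1 200 200
    (by norm_num) (by norm_num) hT hB (5821 / 152100) (by
      refine le_trans hz ?_
      norm_num at hpt ⊢; linarith) (36 / 37) (12 / 13) (by norm_num) (by norm_num) (by norm_num)
    (by norm_num) (by norm_num at hgp ⊢; linarith) (by norm_num at hgr ⊢; linarith)
  norm_num [abDen, abNum, F] at hfin

lemma caseBi {N p : ℕ} (C : Ctx N p 61) (h3m : 3 ∈ N.primeFactors)
    (hcap : (S1 N p 61).card ≤ 1) (hr : 61 ∈ N.primeFactors) (h13 : 13 ∈ S1 N p 61)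
    (hp3 : p % 3 = 2) (hp5 : 5 ≤ p) : False := by
  have hrp : 61 ≠ p := by omega
  have h3p : 3 ≠ p := by omega
  have h3S : 3 ∈ N.primeFactors ∧ 3 ≠ p ∧ 3 ≠ 61 := ⟨h3m, h3p, by norm_num⟩
  have e3 : N.factorization 3 = 2 := C.two 3 h3S.1 h3S.2.1 h3S.2.2
  have m13 := mem_S1.1 h13
  have I : Inv N p 61 [13] [3, 13] 1 := by
    refine ⟨by decide, ?_, ?_, Or.inr (Or.inr ⟨rfl, by omega⟩)⟩
    · intro u hu
      simp only [List.mem_cons, List.not_mem_nil, or_false] at hu
      subst hu; exact h13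
    · intro u hu
      simp only [List.mem_cons, List.not_mem_nil, or_false] at hu
      rcases hu with rfl | rfl
      · exact h3S
      · exact ⟨m13.1, m13.2.1, m13.2.2.1⟩
  have hB : ∀ q ∈ S2 N p 61, 500 ≤ q := fun q hq =>
    chk2_spec C hr hrp hcap I chk2Bi q hq (by simp)
  have hBZ : ∀ q ∈ Zs N p 61, 500 ≤ q := fun q hq => hB q (Zs_sub hq)
  have hT : ∀ q ∈ S1 N p 61, q ∉ ([13] : List ℕ) → 500 ≤ q := by
    classical
    intro q hq hqL
    exfalso
    have h1 : insert q ([13] : List ℕ).toFinset ⊆ S1 N p 61 := by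
      intro x hx
      rw [Finset.mem_insert, List.mem_toFinset] at hx
      rcases hx with rfl | hx
      · exact hq
      · exact I.l1 x hx
    have h2 := Finset.card_le_card h1
    rw [Finset.card_insert_of_notMem (by rwa [List.mem_toFinset]),
      List.toFinset_card_of_nodup I.nd] at h2
    simp only [List.length_cons, List.length_nil] at h2
    omega
  have c13 : (Ht N p 61 13).card ≤ 1 := by
    refine Ht_le_one C h13 h3m (fun h => absurd (mem_S2.1 h).2.2.2 (by norm_num)) ?_
    rw [e3, sg_two]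
    norm_num [F]
  have hL1 : ∀ t ∈ ([13] : List ℕ), (Ht N p 61 t).card ≤ 1 := by
    intro t ht
    simp only [List.mem_cons, List.not_mem_nil, or_false] at ht
    subst ht; exact c13
  have hz := single_sum (x := 61) (Nat.prime_of_mem_primeFactors hr)
    (by norm_num) (Zs N p 61) (fun q hq => (mem_S2.1 (Zs_sub hq)).2.2.2)
    (fun q hq s hs hd => by
      rcases Zs_supp C hq hs hd with h | h
      · exfalso
        have h1 := (mem_S2.1 (Zs_sub hq)).2.2.2
        rcases F_mod3 hs hd with h2 | h2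
        · rw [h2] at hd
          exact three_not_dvd_F h1 hd
        · omega
      · exact h) 500 2 hBZ (by norm_num) (by norm_num)
  have hgp := gi_ge N C.pprime (m := 5) (by norm_num) hp5
  have hgr := gi_ge N (Nat.prime_of_mem_primeFactors hr) (m := 61) (by norm_num) le_rfl
  have hfin := finish C hrp h3p (by norm_num) hcap [13] (by decide) I.l1 hL1 500 500
    (by norm_num) (by norm_num) hT hB (52 / 22875) (by
      refine le_trans hz ?_
      norm_num) (4 / 5) (60 / 61) (by norm_num) (by norm_num) (by norm_num)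
    (by norm_num) (by norm_num at hgp ⊢; linarith) (by norm_num at hgr ⊢; linarith)
  norm_num [abDen, abNum, F] at hfin

lemma caseBj {N p : ℕ} (C : Ctx N p 13) (h3m : 3 ∈ N.primeFactors)
    (hcap : (S1 N p 13).card ≤ 1) (hr : 13 ∈ N.primeFactors)
    (hp3 : p % 3 = 2) (hp5 : 5 ≤ p) : False := by
  have hrp : 13 ≠ p := by omega
  have h3p : 3 ≠ p := by omega
  have h3S : 3 ∈ N.primeFactors ∧ 3 ≠ p ∧ 3 ≠ 13 := ⟨h3m, h3p, by norm_num⟩
  have e3 : N.factorization 3 = 2 := C.two 3 h3S.1 h3S.2.1 h3S.2.2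
  have I : Inv N p 13 [] [3] 1 := by
    refine ⟨by decide, ?_, ?_, Or.inr (Or.inr ⟨rfl, by omega⟩)⟩
    · intro u hu
      simp only [List.mem_cons, List.not_mem_nil, or_false] at hu

    · intro u hu
      simp only [List.mem_cons, List.not_mem_nil, or_false] at hu
      subst hu; exact h3S
  have hB : ∀ q ∈ S2 N p 13, 200 ≤ q := fun q hq =>
    chk2_spec C hr hrp hcap I chk2Bj q hq (by simp)
  have hBZ : ∀ q ∈ Zs N p 13, 200 ≤ q := fun q hq => hB q (Zs_sub hq)
  have hT : ∀ q ∈ S1 N p 13, q ∉ ([] : List ℕ) → 200 ≤ q := fun q hq hqL =>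
    chk1_spec C hr hrp hcap I chk1Bj q hq hqL
  have hL1 : ∀ t ∈ ([] : List ℕ), (Ht N p 13 t).card ≤ 1 := by
    intro t ht
    simp only [List.mem_cons, List.not_mem_nil, or_false] at ht

  have hz := single_sum (x := 13) (Nat.prime_of_mem_primeFactors hr)
    (by norm_num) (Zs N p 13) (fun q hq => (mem_S2.1 (Zs_sub hq)).2.2.2)
    (fun q hq s hs hd => by
      rcases Zs_supp C hq hs hd with h | h
      · exfalso
        have h1 := (mem_S2.1 (Zs_sub hq)).2.2.2
        rcases F_mod3 hs hd with h2 | h2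
        · rw [h2] at hd
          exact three_not_dvd_F h1 hd
        · omega
      · exact h) 200 3 hBZ (by norm_num) (by norm_num)
  have hgp := gi_ge N C.pprime (m := 5) (by norm_num) hp5
  have hgr := gi_ge N (Nat.prime_of_mem_primeFactors hr) (m := 13) (by norm_num) le_rfl
  have hfin := finish C hrp h3p (by norm_num) hcap [] (by decide) I.l1 hL1 200 200
    (by norm_num) (by norm_num) hT hB (557 / 101400) (by
      refine le_trans hz ?_
      norm_num) (4 / 5) (12 / 13) (by norm_num) (by norm_num) (by norm_num)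
    (by norm_num) (by norm_num at hgp ⊢; linarith) (by norm_num at hgr ⊢; linarith)
  norm_num [abDen, abNum, F] at hfin

/-- There is no odd perfect number of the considered shape exactly divisible by `9`. -/
theorem caseB0 {N p r : ℕ} (C : Ctx N p r) (h3r : r ≠ 3) (h3m : 3 ∈ N.primeFactors) : False := by
  classical
  have hp := C.pprime
  have hp4 := C.p4
  have h3p : 3 ≠ p := by omega
  have e3 : N.factorization 3 = 2 := C.two 3 h3m h3p h3r.symm
  have nS3 : ∀ {s : ℕ}, s.Prime → s ∣ F 3 → s ∣ N := fun hs hd =>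
    C.nS h3m h3p h3r.symm hs hd
  have nS1 : ∀ {u s : ℕ}, u ∈ S1 N p r → s.Prime → s ∣ F u → s ∣ N := fun hu hs hd =>
    C.nS (mem_S1.1 hu).1 (mem_S1.1 hu).2.1 (mem_S1.1 hu).2.2.1 hs hd
  have h13 : 13 ∣ N := nS3 (by norm_num) (by norm_num [F])
  have hS1sub : S1 N p r ⊆ N.primeFactors := fun q hq => (mem_S1.1 hq).1
  have h3S1 : ∀ q ∈ S1 N p r, 3 ∣ sg q (N.factorization q) := by
    intro q hq
    have h := mem_S1.1 hq
    rw [C.two q h.1 h.2.1 h.2.2.1, sg_two]
    exact three_dvd_F h.2.2.2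
  have hpodd := C.odd_of_dvd (Nat.dvd_of_mem_primeFactors C.pmem)
  rcases (by
    have h1 : ¬ 3 ∣ p := fun h =>
      h3p ((Nat.prime_dvd_prime_iff_eq Nat.prime_three hp).1 h)
    omega : p % 3 = 1 ∨ p % 3 = 2) with hp3 | hp3
  · have hcap : (S1 N p r).card ≤ 2 := by
      have := C.cap_card Nat.prime_three (by norm_num) (S1 N p r) hS1sub h3S1
      rwa [e3] at this
    have hp13 : 13 ≤ p := by
      have := hp.two_le
      omega
    have hp25 : p ≠ 25 := by
      intro h
      rw [h] at hp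
      exact absurd hp (by norm_num)
    have three : ∀ a b c : ℕ, a ≠ b → a ≠ c → b ≠ c → a ∈ S1 N p r → b ∈ S1 N p r →
        c ∈ S1 N p r → False := by
      intro a b c hab hac hbc ha hb hc
      have h1 : ({a, b, c} : Finset ℕ) ⊆ S1 N p r := by
        intro x hx
        simp only [Finset.mem_insert, Finset.mem_singleton] at hx
        rcases hx with rfl | rfl | rfl <;> assumption
      have h2 := Finset.card_le_card h1
      rw [Finset.card_eq_three.2 ⟨a, b, c, hab, hac, hbc, rfl⟩] at h2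
      omega
    have inr : ∀ v : ℕ, v.Prime → v ∣ N → v = r → r ∈ N.primeFactors := fun v hv hd h =>
      h ▸ C.mem hv hd
    have pr7 : Nat.Prime 7 := by norm_num
    have pr13 : Nat.Prime 13 := by norm_num
    have pr19 : Nat.Prime 19 := by norm_num
    have pr31 : Nat.Prime 31 := by norm_num
    have pr61 : Nat.Prime 61 := by norm_num
    have pr97 : Nat.Prime 97 := by norm_num
    have pr127 : Nat.Prime 127 := by norm_num
    have pr331 : Nat.Prime 331 := by norm_num
    rcases W3 C pr13 (by norm_num) h13 with h | ⟨hnp, h⟩ | h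
    · subst h
      have h7 : 7 ∣ N := C.nP pr7 (by norm_num) (by norm_num)
      rcases W3 C pr7 (by norm_num) h7 with h | ⟨_, h⟩ | h
      · omega
      · subst h
        exact caseGa C h3m hcap (C.mem pr7 h7)
      · have h19 : 19 ∣ N := nS1 h pr19 (by norm_num [F])
        rcases W3 C pr19 (by norm_num) h19 with h' | ⟨_, h'⟩ | h'
        · omega
        · subst h'
          exact caseBe C h3m hcap (C.mem pr19 h19) h
        · have h127 : 127 ∣ N := nS1 h' pr127 (by norm_num [F])
          rcases W3 C pr127 (by norm_num) h127 with h'' | ⟨_, h''⟩ | h''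
          · omega
          · subst h''
            exact caseAl C h3m hcap (C.mem pr127 h127) h h'
          · exact three 7 19 127 (by norm_num) (by norm_num) (by norm_num) h h' h''
    · subst h
      exact caseIo C h3m hcap (C.mem pr13 h13) hp3 (by omega) hnp
    · have h61 : 61 ∣ N := nS1 h pr61 (by norm_num [F])
      rcases W3 C pr61 (by norm_num) h61 with h' | ⟨hnp, h'⟩ | h'
      · subst h'
        have h31 : 31 ∣ N := C.nP pr31 (by norm_num) (by norm_num)
        rcases W3 C pr31 (by norm_num) h31 with h'' | ⟨_, h''⟩ | h''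
        · omega
        · subst h''
          exact caseEp C h3m hcap (C.mem pr31 h31) h
        · have h331 : 331 ∣ N := nS1 h'' pr331 (by norm_num [F])
          rcases W3 C pr331 (by norm_num) h331 with h4 | ⟨_, h4⟩ | h4
          · omega
          · subst h4
            exact caseDe C h3m hcap (C.mem pr331 h331) h h''
          · exact three 13 31 331 (by norm_num) (by norm_num) (by norm_num) h h'' h4
      · subst h'
        have := (mem_S1.1 h).2.1
        exact caseTh C h3m hcap (C.mem pr61 h61) h hp3 (by omega) hnp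
      · have h97 : 97 ∣ N := nS1 h' pr97 (by norm_num [F])
        rcases W3 C pr97 (by norm_num) h97 with h'' | ⟨hnp, h''⟩ | h''
        · subst h''
          have h7 : 7 ∣ N := C.nP pr7 (by norm_num) (by norm_num)
          rcases W3 C pr7 (by norm_num) h7 with h4 | ⟨_, h4⟩ | h4
          · omega
          · subst h4
            exact caseZe C h3m hcap (C.mem pr7 h7) h h'
          · exact three 13 61 7 (by norm_num) (by norm_num) (by norm_num) h h' h4
        · subst h''
          have h5 := (mem_S1.1 h).2.1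
          have h6 := (mem_S1.1 h').2.1
          exact caseEt C h3m hcap (C.mem pr97 h97) h h' hp3 (by omega) hnp
        · exact three 13 61 97 (by norm_num) (by norm_num) (by norm_num) h h' h''
  · have hcap : (S1 N p r).card ≤ 1 := by
      have hpn : p ∉ S1 N p r := fun h => (mem_S1.1 h).2.1 rfl
      have := C.cap_card Nat.prime_three (by norm_num) (insert p (S1 N p r)) (by
        intro q hq
        rw [Finset.mem_insert] at hq
        rcases hq with rfl | hq
        · exact C.pmem
        · exact hS1sub hq) (by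
        intro q hq
        rw [Finset.mem_insert] at hq
        rcases hq with rfl | hq
        · have h4 := C.a4
          obtain ⟨k, hk⟩ : ∃ k, N.factorization q = 2 * k + 1 :=
            ⟨(N.factorization q) / 2, by omega⟩
          rw [hk]
          exact dvd_trans (by omega) (C.sg_odd_exp q k)
        · exact h3S1 q hq)
      rw [e3, Finset.card_insert_of_notMem hpn] at this
      omega
    have hp5 : 5 ≤ p := by
      have := hp.two_le
      omega
    have pr13 : Nat.Prime 13 := by norm_num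
    have pr61 : Nat.Prime 61 := by norm_num
    rcases W3 C pr13 (by norm_num) h13 with h | ⟨hnp, h⟩ | h
    · omega
    · subst h
      exact caseBj C h3m hcap (C.mem pr13 h13) hp3 hp5
    · have h61 : 61 ∣ N := nS1 h pr61 (by norm_num [F])
      rcases W3 C pr61 (by norm_num) h61 with h' | ⟨hnp, h'⟩ | h'
      · omega
      · subst h'
        exact caseBi C h3m hcap (C.mem pr61 h61) h hp3 hp5
      · have h1 : ({13, 61} : Finset ℕ) ⊆ S1 N p r := by
          intro x hx
          simp only [Finset.mem_insert, Finset.mem_singleton] at hx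
          rcases hx with rfl | rfl <;> assumption
        have h2 := Finset.card_le_card h1
        rw [Finset.card_pair (by norm_num)] at h2
        omega

/-- There is no odd perfect number of the considered shape exactly divisible by `9`. -/
theorem caseB {N p r : ℕ} (C : Ctx N p r) (h3 : N.factorization 3 = 2) : False := by
  have h3m : 3 ∈ N.primeFactors := by
    rw [← Nat.support_factorization, Finsupp.mem_support_iff]
    omega
  by_cases h : r = 3
  · have C' : Ctx N p 0 := by
      refine ⟨C.odd, C.perf, C.pmem, C.p4, C.a4, ?_, C.ev⟩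
      intro q hq hqp _
      by_cases hq3 : q = 3
      · rw [hq3]; exact h3
      · exact C.two q hq hqp (by rw [h]; exact hq3)
    exact caseB0 C' (by norm_num) h3m
  · exact caseB0 C h h3m

end Pool.Agent.Lib.MP_f02ea4_nt.Exc
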