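import Mathlib
import Pool.Agent.Lib.MP_f02ea4_nt.ExcClosure
import Pool.Agent.Lib.MP_f02ea4_nt.ExcAdm

/-!
Counting argument in the case where the exceptional prime is `3`.
-/

set_option autoImplicit false

namespace Pool.Agent.Lib.MP_f02ea4_nt.Exc

open Finset Pool.Agent.Lib.MP_f02ea4_nt.Rad

variable {N p : ℕ}

/-- Ordinary primes. -/
def So (N p : ℕ) : Finset ℕ := N.primeFactors.filter (fun q => q ≠ p ∧ q ≠ 3)

/-- Ordinary primes `q` with a prime factor of `F q` in `S1`. -/
def Xs (N p : ℕ) : Finset ℕ := (So N p).filter (fun q => ∃ t ∈ S1 N p 3, t ∣ F q)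

/-- The other ordinary primes. -/
def Xc (N p : ℕ) : Finset ℕ := (So N p).filter (fun q => ¬ ∃ t ∈ S1 N p 3, t ∣ F q)

lemma mem_So {q : ℕ} : q ∈ So N p ↔ q ∈ N.primeFactors ∧ q ≠ p ∧ q ≠ 3 := by
  unfold So; rw [Finset.mem_filter]

lemma So_big (C : Ctx N p 3) (h4 : 4 ≤ N.factorization 3) {q : ℕ} (hq : q ∈ N.primeFactors)
    (h3 : q ≠ 3) : 10001 ≤ q := by
  by_contra h
  have hp := Nat.prime_of_mem_primeFactors hq
  have hd := Nat.dvd_of_mem_primeFactors hq
  have h2 := C.ne_two hd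
  have h5 : 5 ≤ q := by
    have := hp.two_le
    have h6 : q ≠ 4 := by rintro rfl; exact absurd hp (by norm_num)
    omega
  exact no_small C h4 hp h5 (by omega) hd

lemma S1_card_le (C : Ctx N p 3) : (S1 N p 3).card ≤ N.factorization 3 := by
  apply C.cap_card Nat.prime_three (by norm_num) (S1 N p 3)
  · intro q hq; exact (mem_S1.1 hq).1
  · intro q hq
    have h := mem_S1.1 hq
    rw [C.two q h.1 h.2.1 h.2.2.1, sg_two]
    exact three_dvd_F h.2.2.2

lemma Xs_card_le (C : Ctx N p 3) : (Xs N p).card ≤ 2 * N.factorization 3 := by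
  classical
  have h1 : Xs N p ⊆ (S1 N p 3).biUnion (fun t => (So N p).filter (fun q => t ∣ F q)) := by
    intro q hq
    unfold Xs at hq
    rw [Finset.mem_filter] at hq
    obtain ⟨h2, t, h3, h4⟩ := hq
    rw [Finset.mem_biUnion]
    exact ⟨t, h3, Finset.mem_filter.2 ⟨h2, h4⟩⟩
  calc (Xs N p).card ≤ _ := Finset.card_le_card h1
    _ ≤ ∑ t ∈ S1 N p 3, ((So N p).filter (fun q => t ∣ F q)).card := Finset.card_biUnion_le
    _ ≤ ∑ t ∈ S1 N p 3, 2 := by
        apply Finset.sum_le_sum
        intro t ht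
        rw [mem_S1] at ht
        obtain ⟨h1, h2, h3, h4⟩ := ht
        have h5 := C.cap_card (Nat.prime_of_mem_primeFactors h1)
          (C.ne_two (Nat.dvd_of_mem_primeFactors h1)) ((So N p).filter (fun q => t ∣ F q)) (by
            intro q hq
            rw [Finset.mem_filter, mem_So] at hq
            exact hq.1.1) (by
            intro q hq
            rw [Finset.mem_filter, mem_So] at hq
            rw [C.two q hq.1.1 hq.1.2.1 hq.1.2.2, sg_two]
            exact hq.2)
        rw [C.two t h1 h2 h3] at h5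
        exact h5
    _ = 2 * (S1 N p 3).card := by rw [Finset.sum_const, smul_eq_mul, mul_comm]
    _ ≤ 2 * N.factorization 3 := Nat.mul_le_mul_left _ (S1_card_le C)

lemma nine_not_dvd {q : ℕ} (h : q % 3 = 1) : ¬ 9 ∣ F q := by
  obtain ⟨m, hm⟩ : ∃ m, q = 3 * m + 1 := ⟨q / 3, by omega⟩
  have h1 : F q = 9 * (m * m + m) + 3 := by
    unfold F; rw [hm]; ring
  omega

/-- A prime-to-`S1` value is dominated by the special prime. -/
lemma Xc_dom (C : Ctx N p 3) (h4 : 4 ≤ N.factorization 3) {q : ℕ} (hq : q ∈ Xc N p) :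
    ∃ a, p ^ a ∣ F q ∧ q < p ^ a := by
  refine ⟨(F q).factorization p, Nat.ordProj_dvd _ _, ?_⟩
  have hp := C.pprime
  unfold Xc at hq
  rw [Finset.mem_filter, mem_So] at hq
  obtain ⟨⟨h1, h2, h3⟩, h5⟩ := hq
  have hbig := So_big C h4 h1 h3
  have hF0 : F q ≠ 0 := (F_pos q).ne'
  have hsupp : ∀ s, s.Prime → s ∣ F q → s = 3 ∨ s = p := by
    intro s hs hd
    rcases F_mod3 hs hd with h | h
    · exact Or.inl h
    · right
      by_contra hsp
      exact h5 ⟨s, mem_S1.2 ⟨C.mem hs (C.nS h1 h2 h3 hs hd), hsp, by omega, h⟩, hd⟩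
  have hv3 : (F q).factorization 3 ≤ 1 := by
    rcases (by
      have h6 : ¬ 3 ∣ q := fun h =>
        h3 ((Nat.prime_dvd_prime_iff_eq Nat.prime_three (Nat.prime_of_mem_primeFactors h1)).1 h).symm
      omega : q % 3 = 1 ∨ q % 3 = 2) with h | h
    · by_contra h7
      have h8 : 3 ^ 2 ∣ F q := (Nat.prime_three.pow_dvd_iff_le_factorization hF0).2 (by omega)
      exact nine_not_dvd h h8
    · rw [Nat.factorization_eq_zero_of_not_dvd (three_not_dvd_F h)]
      omega
  have hdvd : F q ∣ 3 ^ ((F q).factorization 3) * p ^ ((F q).factorization p) := by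
    rw [← Nat.factorization_le_iff_dvd hF0
      (mul_ne_zero (pow_ne_zero _ (by norm_num)) (pow_ne_zero _ hp.ne_zero))]
    intro s
    by_cases hs : s.Prime
    · by_cases hsd : s ∣ F q
      · rw [Nat.factorization_mul (pow_ne_zero _ (by norm_num)) (pow_ne_zero _ hp.ne_zero),
          Finsupp.add_apply]
        rcases hsupp s hs hsd with rfl | rfl
        · rw [hs.factorization_pow]
          simp
        · rw [hs.factorization_pow (k := (F q).factorization s)]
          simp
      · rw [Nat.factorization_eq_zero_of_not_dvd hsd]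
        exact Nat.zero_le _
    · rw [Nat.factorization_eq_zero_of_not_prime _ hs]
      exact Nat.zero_le _
  have hle := Nat.le_of_dvd (Nat.mul_pos (pow_pos (by norm_num) _) (pow_pos hp.pos _)) hdvd
  have h9 : 3 ^ ((F q).factorization 3) ≤ 3 ^ 1 := Nat.pow_le_pow_right (by norm_num) hv3
  have h10 : F q ≤ 3 * p ^ ((F q).factorization p) := by
    calc F q ≤ 3 ^ ((F q).factorization 3) * p ^ ((F q).factorization p) := hle
      _ ≤ 3 ^ 1 * p ^ ((F q).factorization p) := Nat.mul_le_mul_right _ h9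
      _ = _ := by ring
  have h11 : 3 * q < F q := by
    unfold F
    nlinarith
  omega

lemma Xc_sum (C : Ctx N p 3) (h4 : 4 ≤ N.factorization 3) :
    ∑ q ∈ Xc N p, 1 / (q : ℚ) ≤ 4 / 10000 := by
  classical
  have hp := C.pprime
  have hp4 := C.p4
  have hp3 := p_mod3 C
  have hpbig := So_big C h4 C.pmem (by omega)
  have hpt := inv_pred_le (x := p) (m := 10001) (by norm_num) hpbig
  have hmem : ∀ q ∈ Xc N p, q ∈ N.primeFactors ∧ q ≠ p ∧ q ≠ 3 := by
    intro q hq
    unfold Xc at hq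
    rw [Finset.mem_filter, mem_So] at hq
    exact hq.1
  have hcls : ∀ c, (c = 1 ∨ c = 2) →
      ∑ q ∈ (Xc N p).filter (fun q => q % 3 = c), 1 / (q : ℚ) ≤ 2 / 10000 := by
    intro c hc
    have := dom_sum hp hp3 hc ((Xc N p).filter (fun q => q % 3 = c))
      (fun q hq => (Finset.mem_filter.1 hq).2)
      (fun q hq => Xc_dom C h4 (Finset.mem_filter.1 hq).1) 10001 1
      (fun q hq => by
        have h1 := hmem q (Finset.mem_filter.1 hq).1
        exact So_big C h4 h1.1 h1.2.2) (by norm_num) (by norm_num)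
    norm_num at this hpt ⊢
    linarith
  have h1 := hcls 1 (Or.inl rfl)
  have h2 := hcls 2 (Or.inr rfl)
  have h3 : ∑ q ∈ Xc N p, 1 / (q : ℚ) = ∑ q ∈ (Xc N p).filter (fun q => q % 3 = 1), 1 / (q : ℚ) +
      ∑ q ∈ (Xc N p).filter (fun q => q % 3 = 2), 1 / (q : ℚ) := by
    rw [← Finset.sum_filter_add_sum_filter_not (Xc N p) (fun q => q % 3 = 1)]
    congr 1
    apply Finset.sum_congr _ (fun _ _ => rfl)
    apply Finset.filter_congr
    intro q hq
    have h4 := hmem q hq
    have h6 : ¬ 3 ∣ q := fun h =>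
      h4.2.2 ((Nat.prime_dvd_prime_iff_eq Nat.prime_three
        (Nat.prime_of_mem_primeFactors h4.1)).1 h).symm
    omega
  rw [h3]
  linarith

/-- The reciprocals of the ordinary primes have a large sum. -/
lemma So_sum (C : Ctx N p 3) (h4 : 4 ≤ N.factorization 3) :
    (28747 / 100000 : ℚ) ≤ ∑ q ∈ So N p, 1 / (q : ℚ) := by
  classical
  have hp := C.pprime
  have hp4 := C.p4
  have h3m : 3 ∈ N.primeFactors := by
    rw [← Nat.support_factorization, Finsupp.mem_support_iff]
    omega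
  have h3p : (3 : ℕ) ≠ p := by omega
  have hpbig := So_big C h4 C.pmem (by omega)
  have hbig : ∀ q ∈ So N p, 10001 ≤ q := fun q hq => by
    rw [mem_So] at hq
    exact So_big C h4 hq.1 hq.2.2
  -- the product over ordinary primes
  have hsplit : N.primeFactors = insert p (insert 3 (So N p)) := by
    ext q
    rw [Finset.mem_insert, Finset.mem_insert, mem_So]
    constructor
    · intro h
      by_cases h1 : q = p
      · exact Or.inl h1
      · by_cases h2 : q = 3
        · exact Or.inr (Or.inl h2)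
        · exact Or.inr (Or.inr ⟨h, h1, h2⟩)
    · rintro (rfl | rfl | h)
      · exact C.pmem
      · exact h3m
      · exact h.1
  have h3S : 3 ∉ So N p := fun h => (mem_So.1 h).2.2 rfl
  have hpS : p ∉ insert 3 (So N p) := by
    rw [Finset.mem_insert]
    push Not
    exact ⟨fun h => h3p h.symm, fun h => (mem_So.1 h).2.1 rfl⟩
  have hprod := prod_gi C.perf
  rw [hsplit, Finset.prod_insert hpS, Finset.prod_insert h3S] at hprod
  have hg3 := gi_ge N Nat.prime_three (m := 3) (by norm_num) le_rfl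
  have hgp := gi_ge N hp (m := 10001) (by norm_num) hpbig
  norm_num at hg3 hgp
  have hP0 : 0 ≤ ∏ q ∈ So N p, gi N q := Finset.prod_nonneg (fun q _ => gi_nonneg N q)
  have hPle : ∏ q ∈ So N p, gi N q ≤ 750075 / 1000000 := by
    have h1 : (10000 / 10001 : ℚ) * ((2 / 3) * ∏ q ∈ So N p, gi N q) ≤ 1 / 2 := by
      rw [← hprod]
      apply mul_le_mul hgp _ (by positivity) (gi_nonneg N p)
      exact mul_le_mul_of_nonneg_right hg3 hP0
    linarith
  have hPlow : ∏ q ∈ So N p, (1 - 1 / (q : ℚ)) ≤ 750075 / 1000000 := by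
    refine le_trans (Finset.prod_le_prod ?_ ?_) hPle
    · intro q hq
      have h1 := hbig q hq
      have h2 : (10001 : ℚ) ≤ q := by exact_mod_cast h1
      have : 1 / (q : ℚ) ≤ 1 := by
        rw [div_le_one (by linarith)]; linarith
      linarith
    · intro q hq
      exact gi_lower N (Nat.prime_of_mem_primeFactors (mem_So.1 hq).1)
  -- pass to the reals
  set s : ℚ := ∑ q ∈ So N p, 1 / (q : ℚ) with hs
  by_contra hcon
  push Not at hcon
  have hexp : Real.exp (-(∑ q ∈ So N p, 1 / ((q : ℝ) - 1))) ≤ ∏ q ∈ So N p, (1 - 1 / (q : ℝ)) := by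
    rw [← Finset.sum_neg_distrib, Real.exp_sum]
    apply Finset.prod_le_prod (fun q _ => (Real.exp_pos _).le)
    intro q hq
    have h1 := hbig q hq
    have h2 : (10001 : ℝ) ≤ q := by exact_mod_cast h1
    have h3 : 0 < (q : ℝ) - 1 := by linarith
    have h4 : (q : ℝ) / (q - 1) ≤ Real.exp (1 / ((q : ℝ) - 1)) := by
      have h5 := Real.add_one_le_exp (1 / ((q : ℝ) - 1))
      have h6 : (q : ℝ) / (q - 1) = 1 / ((q : ℝ) - 1) + 1 := by
        field_simp
        ring
      linarith
    rw [Real.exp_neg]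
    have h7 : 1 - 1 / (q : ℝ) = ((q : ℝ) / (q - 1))⁻¹ := by
      have : (q : ℝ) ≠ 0 := by linarith
      field_simp
    rw [h7]
    have h8 : 0 < (q : ℝ) / (q - 1) := by positivity
    exact inv_anti₀ h8 h4
  have hsum1 : ∑ q ∈ So N p, 1 / ((q : ℝ) - 1) ≤ (10001 / 10000 : ℝ) * (s : ℝ) := by
    rw [hs]
    push_cast
    rw [Finset.mul_sum]
    apply Finset.sum_le_sum
    intro q hq
    have h1 := hbig q hq
    have h2 : (10001 : ℝ) ≤ q := by exact_mod_cast h1
    rw [div_le_iff₀ (by linarith)]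
    have h3 : (q : ℝ) ≠ 0 := by linarith
    have h4 : (10001 / 10000 : ℝ) * (1 / (q : ℝ)) * (q - 1) = 10001 / 10000 * (1 - 1 / q) := by
      field_simp
    rw [h4]
    have h5 : 1 / (q : ℝ) ≤ 1 / 10001 := one_div_le_one_div_of_le (by norm_num) h2
    norm_num at h5 ⊢
    linarith
  have hs2 : (s : ℝ) < 28747 / 100000 := by
    have h : (s : ℝ) < ((28747 / 100000 : ℚ) : ℝ) := Rat.cast_lt.2 hcon
    push_cast at h
    exact h
  have hsum2 : ∑ q ∈ So N p, 1 / ((q : ℝ) - 1) ≤ 2875 / 10000 := by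
    norm_num at hsum1 hs2 ⊢
    linarith
  have hP : ∏ q ∈ So N p, (1 - 1 / (q : ℝ)) ≤ 750075 / 1000000 := by
    have : ((∏ q ∈ So N p, (1 - 1 / (q : ℚ)) : ℚ) : ℝ) ≤ ((750075 / 1000000 : ℚ) : ℝ) := by
      exact_mod_cast hPlow
    push_cast at this
    exact this
  have h9 : Real.exp (-(2875 / 10000 : ℝ)) ≤ 750075 / 1000000 := by
    refine le_trans (Real.exp_le_exp.2 ?_) (hexp.trans hP)
    linarith
  have h10 : Real.exp (2875 / 10000 : ℝ) ≤ 13331 / 10000 := by
    have h11 := Real.exp_bound' (x := (2875 / 10000 : ℝ)) (by norm_num) (by norm_num)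
      (n := 6) (by norm_num)
    refine h11.trans ?_
    norm_num [Finset.sum_range_succ, Nat.factorial]
  rw [Real.exp_neg] at h9
  have h12 : (10000 / 13331 : ℝ) ≤ (Real.exp (2875 / 10000 : ℝ))⁻¹ := by
    rw [show (10000 / 13331 : ℝ) = (13331 / 10000 : ℝ)⁻¹ by norm_num]
    exact inv_anti₀ (Real.exp_pos _) h10
  norm_num at h9 h12
  linarith

end Pool.Agent.Lib.MP_f02ea4_nt.Exc
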