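import Mathlib
import Pool.Agent.Lib.MP_f02ea4_nt.ExcCount

/-!
Lower bounds for the exponent of `3` and for the number of prime factors.
-/

set_option autoImplicit false

namespace Pool.Agent.Lib.MP_f02ea4_nt.Exc

open Finset Pool.Agent.Lib.MP_f02ea4_nt.Rad

variable {N p : ℕ}

lemma ZF_dvd {l : ℕ} (hl : l.Prime) (h5 : 5 ≤ l) (hle : l ≤ 10000) : l ∣ ZF := by
  have h1 := ZF_check
  rw [List.all_eq_true] at h1
  have h2 := h1 l (List.mem_range.2 (by omega))
  simp only [Bool.or_eq_true, beq_iff_eq, notP_spec hl, Bool.false_eq_true, or_false,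
    Nat.ble_eq] at h2
  rcases h2 with h2 | h2
  · omega
  · exact Nat.dvd_of_mod_eq_zero h2

lemma F_mod (q m : ℕ) (l : ℕ) (h : l ∣ m) : F (q % m) % l = F q % l := by
  have h1 : q % m % l = q % l := Nat.mod_mod_of_dvd q h
  unfold F
  simp [Nat.add_mod, Nat.mul_mod, h1]

lemma So_res (C : Ctx N p 3) (h4 : 4 ≤ N.factorization 3) {q : ℕ} (hq : q ∈ So N p) :
    q % 2730 ∈ resList := by
  rw [mem_So] at hq
  obtain ⟨h1, h2, h3⟩ := hq
  have hbig := So_big C h4 h1 h3
  have hprime := Nat.prime_of_mem_primeFactors h1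
  have h5 := res_check
  rw [List.all_eq_true] at h5
  have h6 := h5 (q % 2730) (List.mem_range.2 (Nat.mod_lt _ (by norm_num)))
  have h7 : Nat.gcd (q % 2730) 2730 = 1 := by
    rw [← Nat.gcd_rec, Nat.gcd_comm]
    apply (Nat.Prime.coprime_iff_not_dvd hprime).2
    intro hd
    have := Nat.le_of_dvd (by norm_num) hd
    omega
  have h7F : ¬ 7 ∣ F q := fun hd => no_small C h4 (by norm_num : Nat.Prime 7) (by norm_num)
    (by norm_num) (C.nS h1 h2 h3 (by norm_num) hd)
  have h13F : ¬ 13 ∣ F q := fun hd => no_small C h4 (by norm_num : Nat.Prime 13) (by norm_num)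
    (by norm_num) (C.nS h1 h2 h3 (by norm_num) hd)
  have h8 := F_mod q 2730 7 (by norm_num)
  have h9 := F_mod q 2730 13 (by norm_num)
  simp only [Bool.or_eq_true, beq_iff_eq, Bool.not_eq_true', beq_eq_false_iff_ne, h7, h8, h9,
    List.elem_eq_mem, decide_eq_true_eq] at h6
  rcases h6 with ((h6 | h6) | h6) | h6
  · exact absurd rfl h6
  · exact absurd (Nat.dvd_of_mod_eq_zero h6) h7F
  · exact absurd (Nat.dvd_of_mod_eq_zero h6) h13F
  · exact h6

lemma So_adm (C : Ctx N p 3) (h4 : 4 ≤ N.factorization 3) {q : ℕ} (hq : q ∈ So N p) :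
    adm q = true := by
  rw [mem_So] at hq
  obtain ⟨h1, h2, h3⟩ := hq
  have hprime := Nat.prime_of_mem_primeFactors h1
  unfold adm
  rw [beq_iff_eq]
  by_contra hg
  obtain ⟨s, hs, hsd⟩ := Nat.exists_prime_and_dvd hg
  have h5 : s ∣ q * F q := dvd_trans hsd (Nat.gcd_dvd_left _ _)
  have h6 : s ∣ ZF := dvd_trans hsd (Nat.gcd_dvd_right _ _)
  have h7 := ZF_spec C h4 s hs h6
  rcases (Nat.Prime.dvd_mul hs).1 h5 with h | h
  · have := (Nat.prime_dvd_prime_iff_eq hs hprime).1 h
    subst this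
    exact h7 (Nat.dvd_of_mem_primeFactors h1)
  · exact h7 (C.nS h1 h2 h3 hs h)

/-- A set of admissible numbers. -/
structure Adm (X : Finset ℕ) : Prop where
  res : ∀ q ∈ X, q % 2730 ∈ resList
  adm : ∀ q ∈ X, adm q = true
  big : ∀ q ∈ X, 10001 ≤ q

lemma fiber_inj (X : Finset ℕ) (k : ℕ) :
    Set.InjOn (fun q => q % 2730) ((X.filter (fun q => q / 2730 = k) : Finset ℕ) : Set ℕ) := by
  intro a ha b hb hab
  simp only [Finset.coe_filter, Set.mem_ofPred_eq] at ha hb hab
  have h1 := Nat.div_add_mod a 2730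
  have h2 := Nat.div_add_mod b 2730
  rw [ha.2] at h1
  rw [hb.2] at h2
  omega

lemma fiber_card {X : Finset ℕ} (hX : Adm X) (k : ℕ) :
    (X.filter (fun q => q / 2730 = k)).card ≤ 320 := by
  classical
  rw [← Finset.card_image_of_injOn (fiber_inj X k), ← resList_length,
    ← List.toFinset_card_of_nodup resList_nodup]
  apply Finset.card_le_card
  intro a ha
  rw [Finset.mem_image] at ha
  obtain ⟨q, hq, rfl⟩ := ha
  rw [List.mem_toFinset]
  exact hX.res q (Finset.mem_filter.1 hq).1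

lemma blockSum_eq (k : ℕ) : blockSum k = ∑ a ∈ resList.toFinset,
    (if adm (2730 * k + a) = true then 10 ^ 12 / (2730 * k + a) + 1 else 0) := by
  unfold blockSum
  rw [List.sum_toFinset _ resList_nodup]

lemma fiber_block {X : Finset ℕ} (hX : Adm X) (k : ℕ) :
    ∑ q ∈ X.filter (fun q => q / 2730 = k), 1 / (q : ℚ) ≤ (blockSum k : ℚ) / 10 ^ 12 := by
  classical
  have h1 : ∑ q ∈ X.filter (fun q => q / 2730 = k), 1 / (q : ℚ) ≤
      ∑ a ∈ (X.filter (fun q => q / 2730 = k)).image (fun q => q % 2730),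
        ((if adm (2730 * k + a) = true then 10 ^ 12 / (2730 * k + a) + 1 else 0 : ℕ) : ℚ)
          / 10 ^ 12 := by
    rw [Finset.sum_image (fiber_inj X k)]
    apply Finset.sum_le_sum
    intro q hq
    rw [Finset.mem_filter] at hq
    have h2 := Nat.div_add_mod q 2730
    rw [hq.2] at h2
    rw [h2, if_pos (hX.adm q hq.1)]
    have hq0 : 0 < q := by have := hX.big q hq.1; omega
    have hq0Q : (0 : ℚ) < q := by exact_mod_cast hq0
    rw [div_le_div_iff₀ hq0Q (by norm_num), one_mul]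
    have h3 : 10 ^ 12 ≤ (10 ^ 12 / q + 1) * q := by
      have h5 := Nat.div_add_mod (10 ^ 12) q
      have h6 := Nat.mod_lt (10 ^ 12) hq0
      have h7 : (10 ^ 12 / q + 1) * q = q * (10 ^ 12 / q) + q := by ring
      omega
    exact_mod_cast h3
  refine h1.trans ?_
  have h2 : ((blockSum k : ℕ) : ℚ) / 10 ^ 12 = ∑ a ∈ resList.toFinset,
      ((if adm (2730 * k + a) = true then 10 ^ 12 / (2730 * k + a) + 1 else 0 : ℕ) : ℚ)
          / 10 ^ 12 := by
    rw [← Finset.sum_div, ← Nat.cast_sum, ← blockSum_eq]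
  rw [h2]
  apply Finset.sum_le_sum_of_subset_of_nonneg
  · intro a ha
    rw [Finset.mem_image] at ha
    obtain ⟨q, hq, rfl⟩ := ha
    rw [List.mem_toFinset]
    exact hX.res q (Finset.mem_filter.1 hq).1
  · intro a _ _
    exact div_nonneg (Nat.cast_nonneg _) (by norm_num)

lemma sum_map_range (f : ℕ → ℕ) (n : ℕ) :
    ((List.range n).map f).sum = ∑ k ∈ Finset.range n, f k := by
  rw [Finset.sum_range]
  induction n with
  | zero => simp
  | succ n ih => rw [List.range_succ, List.map_append, List.sum_append, ih,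
      Fin.sum_univ_castSucc]; simp

lemma split_range (f : ℕ → ℚ) (a b c n m : ℕ) (hn : n = a + (b + c)) (hm : m = a + b) :
    ∑ k ∈ Finset.range n, f k = ∑ k ∈ Finset.range a, f k +
      (∑ k ∈ Finset.range b, f (k + a) + ∑ k ∈ Finset.range c, f (k + m)) := by
  subst hn hm
  rw [Finset.sum_range_add, Finset.sum_range_add]
  congr 1
  congr 1
  · apply Finset.sum_congr rfl
    intro k _
    rw [add_comm a k]
  · apply Finset.sum_congr rfl
    intro k _
    rw [show a + (b + k) = k + (a + b) by ring]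

/-- A set of admissible numbers with large reciprocal sum has many elements. -/
theorem adm_card {X : Finset ℕ} (hX : Adm X) (hs : (28707 / 100000 : ℚ) ≤ ∑ q ∈ X, 1 / (q : ℚ)) :
    616000 ≤ X.card := by
  classical
  set Y : ℕ := 2730 * 2294 with hY
  have hYQ : (0 : ℚ) < (Y : ℚ) := by rw [hY]; norm_num
  -- split at Y
  have h1 : ∑ q ∈ X, 1 / (q : ℚ) ≤ (X.card : ℚ) / Y +
      ∑ q ∈ X.filter (fun q => q < Y), (1 / (q : ℚ) - 1 / Y) := by
    have h2 : ∑ q ∈ X, (1 / (q : ℚ) - 1 / Y) ≤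
        ∑ q ∈ X.filter (fun q => q < Y), (1 / (q : ℚ) - 1 / Y) := by
      rw [← Finset.sum_filter_add_sum_filter_not X (fun q => q < Y)]
      have h3 : ∑ q ∈ X.filter (fun q => ¬ q < Y), (1 / (q : ℚ) - 1 / Y) ≤ 0 := by
        apply Finset.sum_nonpos
        intro q hq
        rw [Finset.mem_filter] at hq
        have h4 : (Y : ℚ) ≤ q := by exact_mod_cast (not_lt.1 hq.2)
        have := one_div_le_one_div_of_le hYQ h4
        linarith
      linarith
    rw [Finset.sum_sub_distrib] at h2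
    rw [Finset.sum_const, nsmul_eq_mul] at h2
    have h5 : (X.card : ℚ) / Y = X.card * (1 / Y) := by ring
    rw [h5]
    linarith
  -- fibre decomposition
  have h2 : ∑ q ∈ X.filter (fun q => q < Y), (1 / (q : ℚ) - 1 / Y) =
      ∑ k ∈ Finset.range 2294, ∑ q ∈ (X.filter (fun q => q < Y)).filter (fun q => q / 2730 = k),
        (1 / (q : ℚ) - 1 / Y) := by
    symm
    apply Finset.sum_fiberwise_of_maps_to
    intro q hq
    rw [Finset.mem_filter] at hq
    rw [Finset.mem_range]
    have := hq.2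
    rw [hY] at this
    omega
  have hX' : Adm (X.filter (fun q => q < Y)) :=
    ⟨fun q hq => hX.res q (Finset.mem_filter.1 hq).1,
      fun q hq => hX.adm q (Finset.mem_filter.1 hq).1,
      fun q hq => hX.big q (Finset.mem_filter.1 hq).1⟩
  set X' := X.filter (fun q => q < Y) with hX'def
  have hlow : ∀ k, ∑ q ∈ X'.filter (fun q => q / 2730 = k), (1 / (q : ℚ) - 1 / Y) ≤
      (blockSum k : ℚ) / 10 ^ 12 := by
    intro k
    refine le_trans (Finset.sum_le_sum (fun q _ => ?_)) (fiber_block hX' k)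
    have : (0 : ℚ) ≤ 1 / Y := by positivity
    linarith
  have hlow0 : ∀ k < 3, ∑ q ∈ X'.filter (fun q => q / 2730 = k), (1 / (q : ℚ) - 1 / Y) = 0 := by
    intro k hk
    apply Finset.sum_eq_zero
    intro q hq
    exfalso
    rw [Finset.mem_filter] at hq
    have := hX'.big q hq.1
    omega
  have hhigh : ∀ k : ℕ, 1 ≤ k → k < 2294 →
      ∑ q ∈ X'.filter (fun q => q / 2730 = k), (1 / (q : ℚ) - 1 / Y) ≤
        320 * (1 / (2730 * (k : ℚ)) - 1 / Y) := by
    intro k hk0 hk1
    have hk0Q : (1 : ℚ) ≤ k := by exact_mod_cast hk0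
    have hpos : (0 : ℚ) ≤ 1 / (2730 * (k : ℚ)) - 1 / Y := by
      have h3 : (2730 * (k : ℚ)) ≤ Y := by
        rw [hY]; push_cast
        have : (k : ℚ) ≤ 2294 := by exact_mod_cast hk1.le
        linarith
      have := one_div_le_one_div_of_le (by linarith : (0 : ℚ) < 2730 * (k : ℚ)) h3
      linarith
    calc _ ≤ ∑ _q ∈ X'.filter (fun q => q / 2730 = k), (1 / (2730 * (k : ℚ)) - 1 / Y) := by
          apply Finset.sum_le_sum
          intro q hq
          rw [Finset.mem_filter] at hq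
          have h4 : 2730 * k ≤ q := by
            have := hq.2
            omega
          have h5 : (2730 * (k : ℚ)) ≤ q := by exact_mod_cast h4
          have := one_div_le_one_div_of_le (by linarith : (0 : ℚ) < 2730 * (k : ℚ)) h5
          linarith
      _ = ((X'.filter (fun q => q / 2730 = k)).card : ℚ) * (1 / (2730 * (k : ℚ)) - 1 / Y) := by
          rw [Finset.sum_const, nsmul_eq_mul]
      _ ≤ 320 * (1 / (2730 * (k : ℚ)) - 1 / Y) := by
          apply mul_le_mul_of_nonneg_right _ hpos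
          exact_mod_cast fiber_card hX' k
  have hsplit : ∑ k ∈ Finset.range 2294, ∑ q ∈ X'.filter (fun q => q / 2730 = k),
        (1 / (q : ℚ) - 1 / Y) =
      ∑ k ∈ Finset.range 3, ∑ q ∈ X'.filter (fun q => q / 2730 = k), (1 / (q : ℚ) - 1 / Y) +
      (∑ k ∈ Finset.range 364, ∑ q ∈ X'.filter (fun q => q / 2730 = k + 3),
        (1 / (q : ℚ) - 1 / Y) +
      ∑ k ∈ Finset.range 1927, ∑ q ∈ X'.filter (fun q => q / 2730 = k + 367),
        (1 / (q : ℚ) - 1 / Y)) :=
    split_range (fun k => ∑ q ∈ X'.filter (fun q => q / 2730 = k), (1 / (q : ℚ) - 1 / Y))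
      3 364 1927 2294 367 (by norm_num) (by norm_num)
  have hA : ∑ k ∈ Finset.range 3, ∑ q ∈ X'.filter (fun q => q / 2730 = k),
      (1 / (q : ℚ) - 1 / Y) = 0 :=
    Finset.sum_eq_zero (fun k hk => hlow0 k (Finset.mem_range.1 hk))
  have hB : ∑ k ∈ Finset.range 364, ∑ q ∈ X'.filter (fun q => q / 2730 = k + 3),
      (1 / (q : ℚ) - 1 / Y) ≤ 72113645758 / 10 ^ 12 := by
    refine (Finset.sum_le_sum (fun k _ => hlow (k + 3))).trans ?_
    have h3 := blockSum_total
    rw [sum_map_range] at h3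
    rw [← Finset.sum_div, ← Nat.cast_sum, h3]
    norm_num
  have hC : ∑ k ∈ Finset.range 1927, ∑ q ∈ X'.filter (fun q => q / 2730 = k + 367),
      (1 / (q : ℚ) - 1 / Y) ≤ 320 * (1833835491469 / 10 ^ 12 / 2730 - 1927 / Y) := by
    have h3 : ∀ k ∈ Finset.range 1927, ∑ q ∈ X'.filter (fun q => q / 2730 = k + 367),
        (1 / (q : ℚ) - 1 / Y) ≤
          320 * ((((10 ^ 12 / (k + 367) + 1 : ℕ) : ℚ) / 10 ^ 12) / 2730 - 1 / Y) := by
      intro k hk
      rw [Finset.mem_range] at hk
      refine (hhigh (k + 367) (by omega) (by omega)).trans ?_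
      apply mul_le_mul_of_nonneg_left _ (by norm_num)
      apply sub_le_sub_right
      have hkpos : 0 < k + 367 := by omega
      have hkQ : (0 : ℚ) < ((k + 367 : ℕ) : ℚ) := by exact_mod_cast hkpos
      have h5 : 10 ^ 12 ≤ (10 ^ 12 / (k + 367) + 1) * (k + 367) := by
        have h5 := Nat.div_add_mod (10 ^ 12) (k + 367)
        have h6 := Nat.mod_lt (10 ^ 12) hkpos
        have h7 : (10 ^ 12 / (k + 367) + 1) * (k + 367) =
          (k + 367) * (10 ^ 12 / (k + 367)) + (k + 367) := by ring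
        omega
      have h6 : (10 ^ 12 : ℚ) ≤ ((10 ^ 12 / (k + 367) + 1 : ℕ) : ℚ) * ((k + 367 : ℕ) : ℚ) := by
        exact_mod_cast h5
      have h7 : 1 / (2730 * (((k + 367 : ℕ) : ℚ))) = 1 / ((k + 367 : ℕ) : ℚ) / 2730 := by
        field_simp
      rw [h7]
      apply div_le_div_of_nonneg_right _ (by norm_num)
      rw [div_le_div_iff₀ hkQ (by norm_num), one_mul]
      exact h6
    refine (Finset.sum_le_sum h3).trans ?_
    rw [← Finset.mul_sum, Finset.sum_sub_distrib, ← Finset.sum_div, ← Finset.sum_div,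
      ← Nat.cast_sum]
    have h4 := harm_total
    rw [sum_map_range] at h4
    rw [h4, Finset.sum_const, Finset.card_range, nsmul_eq_mul]
    norm_num
  rw [h2, hsplit, hA] at h1
  have hfin : (28707 / 100000 : ℚ) ≤ (X.card : ℚ) / Y + (0 + (72113645758 / 10 ^ 12 +
      320 * (1833835491469 / 10 ^ 12 / 2730 - 1927 / Y))) := by
    linarith
  rw [hY] at hfin
  push_cast at hfin
  have hfin2 : (616000 : ℚ) ≤ X.card := by
    norm_num at hfin
    linarith
  exact_mod_cast hfin2

/-- Summary of the case of the exceptional prime `3`. -/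
theorem three_main (C : Ctx N p 3) (h4 : 4 ≤ N.factorization 3) :
    308000 ≤ N.factorization 3 ∧ 616000 ≤ N.primeFactors.card ∧
      ∀ q ∈ N.primeFactors, q = 3 ∨ 10000 < q := by
  classical
  have hX : Adm (Xs N p) := by
    have hsub : ∀ q ∈ Xs N p, q ∈ So N p := fun q hq => by
      unfold Xs at hq
      exact (Finset.mem_filter.1 hq).1
    exact ⟨fun q hq => So_res C h4 (hsub q hq), fun q hq => So_adm C h4 (hsub q hq),
      fun q hq => So_big C h4 (mem_So.1 (hsub q hq)).1 (mem_So.1 (hsub q hq)).2.2⟩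
  have hsum : (28707 / 100000 : ℚ) ≤ ∑ q ∈ Xs N p, 1 / (q : ℚ) := by
    have h1 := So_sum C h4
    have h2 := Xc_sum C h4
    have h3 : ∑ q ∈ So N p, 1 / (q : ℚ) = ∑ q ∈ Xs N p, 1 / (q : ℚ) + ∑ q ∈ Xc N p, 1 / (q : ℚ) := by
      unfold Xs Xc
      rw [Finset.sum_filter_add_sum_filter_not]
    linarith
  have hc := adm_card hX hsum
  have hk := Xs_card_le C
  refine ⟨by omega, ?_, ?_⟩
  · refine hc.trans (Finset.card_le_card ?_)
    intro q hq
    unfold Xs at hq
    exact (mem_So.1 (Finset.mem_filter.1 hq).1).1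
  · intro q hq
    by_cases h : q = 3
    · exact Or.inl h
    · right
      have := So_big C h4 hq h
      omega

end Pool.Agent.Lib.MP_f02ea4_nt.Exc
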