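import Mathlib
import Pool.Agent.Lib.MP_f02ea4_nt.ExcPrime

/-!
Lucas certificates for the primes above `10 ^ 8` needed in the factor chains.
-/

set_option autoImplicit false

namespace Pool.Agent.Lib.MP_f02ea4_nt.Exc

/-- Modular power by repeated squaring; `f` is the number of steps. -/
def pm (n : ℕ) : ℕ → ℕ → ℕ → ℕ → ℕ
  | 0, _, _, acc => acc
  | f + 1, a, e, acc => if e = 0 then acc else
      pm n f (a * a % n) (e / 2) (if e % 2 = 1 then acc * a % n else acc)

lemma pm_spec (n : ℕ) : ∀ (f a e acc : ℕ), e < 2 ^ f →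
    ((pm n f a e acc : ℕ) : ZMod n) = (acc : ZMod n) * (a : ZMod n) ^ e := by
  intro f
  induction f with
  | zero =>
    intro a e acc he
    have : e = 0 := by simpa using he
    subst this
    simp [pm]
  | succ f ih =>
    intro a e acc he
    unfold pm
    by_cases h0 : e = 0
    · subst h0
      simp
    · rw [if_neg h0, ih _ _ _ (by rw [pow_succ] at he; omega)]
      have hmod : ∀ x : ℕ, ((x % n : ℕ) : ZMod n) = (x : ZMod n) := fun x => ZMod.natCast_mod x n
      rw [hmod]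
      push_cast
      by_cases h1 : e % 2 = 1
      · rw [if_pos h1, hmod]
        push_cast
        have h2 : e = 2 * (e / 2) + 1 := by omega
        conv_rhs => rw [h2]
        rw [pow_succ, pow_mul, pow_two]
        ring
      · rw [if_neg h1]
        have h2 : e = 2 * (e / 2) := by omega
        conv_rhs => rw [h2]
        rw [pow_mul, pow_two]

/-- Check of a Lucas certificate. -/
def luc (known : List ℕ) (n a : ℕ) (fs : List ℕ) : Bool :=
  Nat.ble 2 n && Nat.blt n (2 ^ 100) && (fs.prod == n - 1) &&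
    (fs.all fun f => isP f || known.elem f) && (pm n 100 a (n - 1) 1 == 1) &&
    (fs.all fun f => !(pm n 100 a ((n - 1) / f) 1 % n == 1))

lemma luc_prime {known : List ℕ} (hk : ∀ x ∈ known, x.Prime) {n a : ℕ} {fs : List ℕ}
    (h : luc known n a fs = true) : n.Prime := by
  unfold luc at h
  simp only [Bool.and_eq_true, beq_iff_eq, List.all_eq_true, Bool.or_eq_true,
    Bool.not_eq_true', beq_eq_false_iff_ne, Nat.ble_eq, Nat.blt_eq, List.elem_eq_mem,
    decide_eq_true_eq] at h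
  obtain ⟨⟨⟨⟨⟨h1, h2⟩, h3⟩, h4⟩, h5⟩, h6⟩ := h
  have hfp : ∀ f ∈ fs, f.Prime := by
    intro f hf
    rcases h4 f hf with h | h
    · exact isP_prime h
    · exact hk f h
  apply lucas_primality n (a : ZMod n)
  · have h7 := pm_spec n 100 a (n - 1) 1 (by omega)
    rw [h5] at h7
    push_cast at h7
    rw [one_mul] at h7
    exact h7.symm
  · intro q hq hqd hcon
    have hqf : q ∈ fs := by
      rw [← h3] at hqd
      obtain ⟨f, hf, hqf⟩ := (Prime.dvd_prod_iff hq.prime).1 hqd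
      have := (Nat.prime_dvd_prime_iff_eq hq (hfp f hf)).1 hqf
      rw [this]; exact hf
    apply h6 q hqf
    have h8 : (n - 1) / q < 2 ^ 100 := lt_of_le_of_lt (Nat.div_le_self _ _) (by omega)
    have h7 := pm_spec n 100 a ((n - 1) / q) 1 h8
    push_cast at h7
    rw [one_mul, hcon] at h7
    have h9 : ((pm n 100 a ((n - 1) / q) 1 : ℕ) : ZMod n) = ((1 : ℕ) : ZMod n) := by
      rw [h7]; simp
    rw [ZMod.natCast_eq_natCast_iff'] at h9
    rw [h9]
    exact Nat.mod_eq_of_lt (by omega)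

/-- Check of a list of Lucas certificates. -/
def lucAll : List (ℕ × ℕ × List ℕ) → List ℕ → Bool
  | [], _ => true
  | (n, a, fs) :: l, known => luc known n a fs && lucAll l (n :: known)

lemma lucAll_prime : ∀ (l : List (ℕ × ℕ × List ℕ)) (known : List ℕ), (∀ x ∈ known, x.Prime) →
    lucAll l known = true → ∀ c ∈ l, (c.1).Prime := by
  intro l
  induction l with
  | nil => intro _ _ _ c hc; simp at hc
  | cons c l ih =>
    intro known hk h x hx
    obtain ⟨n, a, fs⟩ := c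
    simp only [lucAll, Bool.and_eq_true] at h
    have hn := luc_prime hk h.1
    rw [List.mem_cons] at hx
    rcases hx with rfl | hx
    · exact hn
    · refine ih (n :: known) ?_ h.2 x hx
      intro y hy
      rw [List.mem_cons] at hy
      rcases hy with rfl | hy
      · exact hn
      · exact hk y hy

/-- The certificates. -/
def lucData : List (ℕ × ℕ × List ℕ) := [
  (141611311, 3, [2, 3, 3, 5, 229, 6871]),
  (167747527, 3, [2, 3, 3, 9319307]),
  (201252871, 33, [2, 3, 3, 3, 5, 7, 13, 8191]),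
  (206993827, 2, [2, 3, 3, 3, 13, 71, 4153]),
  (252478351, 3, [2, 3, 3, 3, 5, 5, 29, 6449]),
  (383917969, 11, [2, 2, 2, 2, 3, 3, 3, 3, 7, 101, 419]),
  (546952519, 6, [2, 3, 3, 7, 43, 157, 643]),
  (783679219, 7, [2, 3, 7, 2309, 8081]),
  (863376517, 5, [2, 2, 3, 3, 3, 29, 181, 1523]),
  (1086523849, 7, [2, 2, 2, 3, 3, 3, 5030203]),
  (1254024721, 7, [2, 2, 2, 2, 3, 3, 3, 5, 13, 17, 37, 71]),
  (1405674499, 3, [2, 3, 599, 391117]),
  (1735887607, 6, [2, 3, 101, 1531, 1871]),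
  (3542102761, 19, [2, 2, 2, 3, 5, 7, 59, 71471]),
  (3605102401, 21, [2, 2, 2, 2, 2, 2, 3, 5, 5, 37, 53, 383]),
  (5253388687, 7, [2, 3, 3, 7, 7, 7, 13, 29, 37, 61]),
  (7141457761, 17, [2, 2, 2, 2, 2, 3, 5, 359, 41443]),
  (7210204801, 11, [2, 2, 2, 2, 2, 2, 2, 3, 5, 5, 37, 53, 383]),
  (45475972561, 26, [2, 2, 2, 2, 3, 3, 3, 3, 3, 5, 19, 123121]),
  (51746601091, 12, [2, 3, 5, 7841, 219983]),
  (127757313379, 3, [2, 3, 3, 79, 89843399]),
  (156297611269, 6, [2, 2, 3, 3, 23, 31, 37, 199, 827]),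
  (157084701307, 2, [2, 3, 13, 13, 23, 677, 9949]),
  (162596599327, 3, [2, 3, 3, 7, 19, 23, 241, 12253]),
  (15303992663, 7, [2, 7, 19, 5869, 9803]),
  (183647911957, 2, [2, 2, 3, 15303992663]),
  (248542644169, 22, [2, 2, 2, 3, 3, 7, 13, 67, 179, 3163]),
  (361627896169, 17, [2, 2, 2, 3, 3, 3, 3, 7, 11, 167, 43399]),
  (467463643147, 3, [2, 3, 3, 401, 64763597]),
  (732411841519, 13, [2, 3, 3, 7, 29, 1217, 164701]),
  (934415109937, 15, [2, 2, 2, 2, 3, 3, 7, 11, 43, 151, 12979]),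
  (2676595927, 5, [2, 3, 9311, 47911]),
  (1220527742713, 5, [2, 2, 2, 3, 19, 2676595927]),
  (2310069116833, 10, [2, 2, 2, 2, 2, 3, 34429, 698923]),
  (2729513937247, 3, [2, 3, 7649, 59474309]),
  (3737657091169, 37, [2, 2, 2, 2, 2, 3, 3, 7, 11, 13, 19, 151, 4519]),
  (4639357996981, 2, [2, 2, 3, 5, 7, 23, 31, 71, 113, 1931]),
  (6316403818789, 2, [2, 2, 3, 3, 7, 19, 37, 139, 179, 1433]),
  (9784371625351, 7, [2, 3, 5, 5, 7, 19, 1901, 257993]),
  (10770261108769, 11, [2, 2, 2, 2, 2, 3, 3, 3, 3, 3, 7, 17, 43, 270679]),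
  (12632807637577, 11, [2, 2, 2, 3, 3, 7, 19, 37, 139, 179, 1433]),
  (17160148541719, 3, [2, 3, 3, 7, 13, 17, 19, 773, 41959]),
  (18501685126471, 3, [2, 3, 3, 5, 7, 13, 257, 2729, 3221]),
  (19489335480469, 6, [2, 2, 3, 3, 7, 19, 1597, 2548813]),
  (25918638646231, 7, [2, 3, 3, 3, 5, 11, 103, 2969, 28537]),
  (29113352596021, 2, [2, 2, 3, 5, 7, 7, 11, 19, 37, 733, 1747]),
  (37802824794541, 14, [2, 2, 3, 3, 3, 5, 13, 37, 41, 53, 66977]),
  (38809022422969, 23, [2, 2, 2, 3, 3, 7, 31, 79, 157, 271, 739]),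
  (49536694086301, 6, [2, 2, 3, 3, 5, 5, 23, 37, 97, 191, 3491]),
  (479983680551, 11, [2, 5, 5, 11, 17, 269, 190837]),
  (51838237499509, 2, [2, 2, 3, 3, 3, 479983680551]),
  (60569355989161, 11, [2, 2, 2, 3, 3, 3, 5, 17, 3671, 898661]),
  (88494794232391, 19, [2, 3, 3, 3, 5, 7, 13, 31, 37, 233, 13477]),
  (115787574797077, 11, [2, 2, 3, 3, 3, 7, 13, 89, 223, 277, 2143]),
  (123791398919371, 3, [2, 3, 3, 5, 7, 13, 13, 19, 151, 181, 2239]),
  (169903266199921, 26, [2, 2, 2, 2, 3, 3, 3, 5, 11, 4751, 1505117]),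
  (3598413655147, 2, [2, 3, 64327, 9323233]),
  (172723855447057, 5, [2, 2, 2, 2, 3, 3598413655147]),
  (214995112007761, 13, [2, 2, 2, 2, 3, 3, 5, 7, 487, 5039, 17383]),
  (265273064140519, 3, [2, 3, 3, 7, 19, 73, 3067, 494917]),
  (307747777673827, 7, [2, 3, 3, 7, 37, 43, 1061, 1446901]),
  (366460039026901, 6, [2, 2, 3, 3, 5, 5, 7, 13, 19, 277, 850177]),
  (614103753692521, 31, [2, 2, 2, 3, 3, 5, 7, 13, 449, 6373, 6551]),
  (709155685217401, 13, [2, 2, 2, 3, 5, 5, 67, 67, 137, 283, 6791]),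
  (726861328545151, 3, [2, 3, 3, 5, 5, 17, 67, 6833, 207541]),
  (1677150610196419, 7, [2, 3, 3, 3, 7, 47, 71867, 1313569]),
  (2518805647672021, 6, [2, 2, 3, 3, 5, 7, 37, 1259, 4603, 9323]),
  (2938219421449111, 6, [2, 3, 5, 17, 19, 9689, 31295471]),
  (12936340807657, 5, [2, 2, 2, 3, 7, 31, 79, 157, 271, 739]),
  (502046740475516480187065977, 11, [2, 2, 2, 3, 3, 7, 31, 79, 157, 271, 739, 12936340807657]),
  (426221617, 5, [2, 2, 2, 2, 3, 101, 87917]),
  (31569564887726519955659499919, 3, [2, 3, 3, 7, 37, 43, 229, 1051, 1061, 426221617, 1446901])]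

lemma lucData_ok : lucAll lucData [] = true := by
  decide +kernel

/-- The certified large primes. -/
def bigPrimes : List ℕ := lucData.map (fun c => c.1)

lemma bigPrimes_prime : ∀ q ∈ bigPrimes, q.Prime := by
  intro q hq
  unfold bigPrimes at hq
  rw [List.mem_map] at hq
  obtain ⟨c, hc, rfl⟩ := hq
  exact lucAll_prime lucData [] (by simp) lucData_ok c hc

end Pool.Agent.Lib.MP_f02ea4_nt.Exc
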