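import Mathlib
import Pool.Agent.Lib.MP_f02ea4_nt.ExcCaseB
import Pool.Agent.Lib.MP_f02ea4_nt.ExcFinal

/-!
Odd perfect numbers all of whose even prime exponents equal `2`, with at most one exception.

If `N` is an odd perfect number and `r` is a number such that every prime `q ≠ r` that divides
`N` with an even exponent has exponent exactly `2`, then `r = 3`, `3 ^ 308000` divides `N`,
`N` has at least `616000` distinct prime factors, and every prime factor of `N` other than `3`
exceeds `10 ^ 4`.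
-/

set_option autoImplicit false

namespace Pool.Agent.Lib.MP_f02ea4_nt.ExcResult

open Pool.Agent.Lib.MP_f02ea4_nt.Exc

theorem one_exceptional_exponent (N : ℕ) (hodd : Odd N) (hperf : N.Perfect) (r : ℕ)
    (h : ∀ q : ℕ, q.Prime → q ∣ N → q ≠ r → Even (N.factorization q) → N.factorization q = 2) :
    r = 3 ∧ 3 ^ 308000 ∣ N ∧ 616000 ≤ N.primeFactors.card ∧
      ∀ q : ℕ, q.Prime → q ∣ N → q = 3 ∨ 10 ^ 4 < q := by
  obtain ⟨p, hp, hp4, ha4, hev⟩ := Pool.Agent.Lib.MP_f02ea4_nt.Rad.euler hodd hperf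
  have C : Ctx N p r := by
    refine ⟨Nat.odd_iff.1 hodd, hperf, hp, hp4, ha4, ?_, hev⟩
    intro q hq hqp hqr
    exact h q (Nat.prime_of_mem_primeFactors hq) (Nat.dvd_of_mem_primeFactors hq) hqr
      (Nat.even_iff.2 (hev q hq hqp))
  have h3N : 3 ∣ N := by
    by_contra h3
    exact caseA C h3
  have h3m : 3 ∈ N.primeFactors := C.mem Nat.prime_three h3N
  have h3p : (3 : ℕ) ≠ p := by omega
  have hne2 : N.factorization 3 ≠ 2 := fun h2 => caseB C h2
  have hr : r = 3 := by
    by_contra hr
    exact hne2 (C.two 3 h3m h3p (fun h => hr h.symm))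
  subst hr
  have h3ev := hev 3 h3m h3p
  have h3pos : 0 < N.factorization 3 :=
    Nat.prime_three.factorization_pos_of_dvd hperf.2.ne' h3N
  have h4 : 4 ≤ N.factorization 3 := by omega
  obtain ⟨h5, h6, h7⟩ := three_main C h4
  refine ⟨rfl, ?_, h6, ?_⟩
  · exact (Nat.prime_three.pow_dvd_iff_le_factorization hperf.2.ne').2 h5
  · intro q hq hqN
    exact h7 q (C.mem hq hqN)

end Pool.Agent.Lib.MP_f02ea4_nt.ExcResult
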