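import Mathlib
import Pool.Agent.Lib.MP_f02ea4_nt.ExcTree
import Pool.Agent.Lib.MP_f02ea4_nt.ExcPratt

/-!
The case where the exceptional prime is `3`: special prime `1` mod `12`, and `7 ∤ N`.
-/

set_option autoImplicit false

namespace Pool.Agent.Lib.MP_f02ea4_nt.Exc

open Finset Pool.Agent.Lib.MP_f02ea4_nt.Rad

variable {N p : ℕ}

lemma sg_cast_mul (m q e : ℕ) :
    ((sg q e : ℕ) : ZMod m) * ((q : ZMod m) - 1) = (q : ZMod m) ^ (e + 1) - 1 := by
  unfold sg
  push_cast
  exact geom_sum_mul _ _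

lemma not_sq_two : ¬ IsSquare (2 : ZMod 3) := by decide

/-- The special prime is `1` modulo `3`. -/
lemma p_mod3 (C : Ctx N p 3) : p % 3 = 1 := by
  have hp := C.pprime
  have hp4 := C.p4
  have := Fact.mk hp
  have h1 : p ∣ ∏ q ∈ N.primeFactors, sg q (N.factorization q) := by
    rw [perfect_eq C.perf]
    exact Dvd.dvd.mul_left (Nat.dvd_of_mem_primeFactors C.pmem) 2
  obtain ⟨q, hq, hd⟩ := (Prime.dvd_finsetProd_iff hp.prime _).1 h1
  have h0 : ((sg q (N.factorization q) : ℕ) : ZMod p) = 0 := (ZMod.natCast_eq_zero_iff _ _).2 hd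
  by_cases hqp : q = p
  · exfalso
    have h2 := sg_cast_mul p q (N.factorization q)
    rw [h0, zero_mul, hqp] at h2
    simp at h2
  by_cases hq3 : q = 3
  · have hev := C.ev q hq hqp
    obtain ⟨k, hk⟩ : ∃ k, N.factorization q = 2 * k := ⟨(N.factorization q) / 2, by omega⟩
    have h2 := sg_cast_mul p q (N.factorization q)
    rw [h0, zero_mul, hk, hq3] at h2
    have h3 : ((3 : ℕ) : ZMod p) * ((3 : ZMod p) ^ k) ^ 2 = 1 := by
      push_cast at h2 ⊢
      rw [← pow_mul, mul_comm, ← pow_succ, mul_comm k 2]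
      linear_combination -h2
    have hsq : IsSquare ((3 : ℕ) : ZMod p) := by
      have hne : ((3 : ZMod p) ^ k) ≠ 0 := by
        intro h
        rw [h] at h3
        simp at h3
      refine ⟨((3 : ZMod p) ^ k)⁻¹, ?_⟩
      have h4 : ((3 : ℕ) : ZMod p) = (((3 : ZMod p) ^ k) ^ 2)⁻¹ := eq_inv_of_mul_eq_one_left h3
      rw [h4, pow_two, mul_inv]
    have : Fact (Nat.Prime 3) := ⟨Nat.prime_three⟩
    have h5 := (ZMod.exists_sq_eq_prime_iff_of_mod_four_eq_one hp4 (by norm_num : (3 : ℕ) ≠ 2)).1 hsq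
    have hp3 : p % 3 ≠ 2 := by
      intro h6
      have h7 : (p : ZMod 3) = 2 := by
        have := ZMod.natCast_mod p 3
        rw [h6] at this
        rw [← this]
        rfl
      rw [h7] at h5
      exact not_sq_two h5
    have hp30 : p % 3 ≠ 0 := by
      intro h6
      have := (Nat.prime_dvd_prime_iff_eq Nat.prime_three hp).1 (Nat.dvd_of_mod_eq_zero h6)
      omega
    omega
  · rw [C.two q hq hqp hq3, sg_two] at hd
    rcases F_mod3 hp hd with h | h
    · omega
    · exact h

lemma p_mod12 (C : Ctx N p 3) : p % 12 = 1 := by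
  have := p_mod3 C
  have := C.p4
  omega

lemma gi_le_of_le {N q k : ℕ} (h : k ≤ N.factorization q) :
    gi N q ≤ (q : ℚ) ^ k / (sg q k : ℚ) := by
  unfold gi
  rw [div_le_div_iff₀ (sg_posQ _ _) (sg_posQ _ _)]
  obtain ⟨e, he⟩ := Nat.exists_eq_add_of_le h
  rw [he]
  have h2 : q ^ (k + e) * sg q k ≤ q ^ k * sg q (k + e) := by
    rw [pow_add, mul_assoc]
    apply Nat.mul_le_mul_left
    unfold sg
    rw [Finset.mul_sum, Finset.range_eq_Ico, Finset.range_eq_Ico]
    calc ∑ i ∈ Ico 0 (k + 1), q ^ e * q ^ i = ∑ i ∈ Ico 0 (k + 1), q ^ (i + e) := by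
          apply Finset.sum_congr rfl
          intro i _
          rw [pow_add, mul_comm]
      _ = ∑ i ∈ Ico (0 + e) (k + 1 + e), q ^ i := Finset.sum_Ico_add' (fun i => q ^ i) 0 (k + 1) e
      _ ≤ ∑ i ∈ Ico 0 (k + e + 1), q ^ i := by
          apply Finset.sum_le_sum_of_subset
          apply Finset.Ico_subset_Ico <;> omega
  exact_mod_cast h2

/-- Checker for factor chains when the exceptional prime is `3` with exponent at least `4`. -/
def run3 : Tr → List ℕ → ℕ → Bool
  | Tr.full, _, _ => false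
  | Tr.last _ _, _, _ => false
  | Tr.ab, U, P => decide U.Nodup &&
      Nat.blt (2 * 81 * abDen U * (if 2 ≤ P then P else 1))
        (121 * abNum U * (if 2 ≤ P then P + 1 else 1))
  | Tr.fS u v t, U, P => U.elem u && (F u % v == 0) && isP v && !(v == 3) &&
      (!(v % 12 == 1) || (!(P == 0) && !(v == P))) && run3 t (v :: U) P
  | Tr.fB u v t1 t2, U, P => U.elem u && (F u % v == 0) && isP v && !(v == 3) && (P == 0) &&
      run3 t1 (v :: U) 0 && run3 t2 U v
  | Tr.gS v t, U, P => Nat.ble 2 P && ((P + 1) % v == 0) && isP v && (v % 2 == 1) &&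
      !(v == 3) && run3 t (v :: U) P

/-- Invariant for `run3`. -/
structure Inv3 (N p : ℕ) (U : List ℕ) (P : ℕ) : Prop where
  u1 : ∀ u ∈ U, u ∈ N.primeFactors ∧ u ≠ p ∧ u ≠ 3
  hP : P = 0 ∨ (2 ≤ P ∧ P = p)

lemma ab_false3 (C : Ctx N p 3) (h4 : 4 ≤ N.factorization 3) {U : List ℕ} {P : ℕ}
    (I : Inv3 N p U P) (hnd : U.Nodup)
    (h : 2 * 81 * abDen U * (if 2 ≤ P then P else 1) <
        121 * abNum U * (if 2 ≤ P then P + 1 else 1)) : False := by
  classical
  have h3m : 3 ∈ N.primeFactors := by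
    rw [← Nat.support_factorization, Finsupp.mem_support_iff]
    omega
  have hp4 := C.p4
  have h3p : 3 ≠ p := by omega
  have h3U : 3 ∉ U.toFinset := by
    intro h1
    rw [List.mem_toFinset] at h1
    exact (I.u1 3 h1).2.2 rfl
  have hpU : p ∉ U.toFinset := by
    intro h1
    rw [List.mem_toFinset] at h1
    exact (I.u1 p h1).2.1 rfl
  have hUsub : U.toFinset ⊆ N.primeFactors := by
    intro q hq
    rw [List.mem_toFinset] at hq
    exact (I.u1 q hq).1
  have hprodU : ∏ q ∈ U.toFinset, ((q : ℚ) ^ 2 / (F q : ℚ)) = (abDen U : ℚ) / (abNum U : ℚ) := by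
    rw [List.prod_toFinset _ hnd]
    unfold abDen abNum
    clear h hUsub hpU h3U I hnd
    induction U with
    | nil => simp
    | cons a U ih =>
      rw [List.map_cons, List.prod_cons, ih, List.map_cons, List.prod_cons, List.map_cons,
        List.prod_cons]
      push_cast
      rw [mul_div_mul_comm]
      ring
  have hnumpos : (0 : ℚ) < (abNum U : ℚ) := by
    have : 0 < abNum U := by
      unfold abNum
      apply List.prod_pos
      intro a ha
      rw [List.mem_map] at ha
      obtain ⟨b, _, rfl⟩ := ha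
      exact F_pos b
    exact_mod_cast this
  have hg3 : gi N 3 ≤ 81 / 121 := by
    have h5 := gi_le_of_le h4
    have h6 : sg 3 4 = 121 := by decide
    rw [h6] at h5
    norm_num at h5 ⊢
    exact h5
  have hpp := C.pprime
  have hp0 : (0 : ℚ) < p := by exact_mod_cast hpp.pos
  have hT : insert p (insert 3 U.toFinset) ⊆ N.primeFactors := by
    intro q hq
    rw [Finset.mem_insert, Finset.mem_insert] at hq
    rcases hq with rfl | rfl | hq
    · exact C.pmem
    · exact h3m
    · exact hUsub hq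
  have hgp : gi N p ≤ (p : ℚ) / (p + 1) := gi_upper hpp (by have := C.a4; omega)
  have h1 := half_le C.perf hT
    (fun q => if q = p then (p : ℚ) / (p + 1) else if q = 3 then 81 / 121 else
      (q : ℚ) ^ 2 / (F q : ℚ))
    (by
      intro q hq
      rw [Finset.mem_insert, Finset.mem_insert] at hq
      split_ifs with h2 h5
      · rw [h2]; exact hgp
      · rw [h5]; exact hg3
      · rcases hq with hq | hq | hq
        · exact absurd hq h2
        · exact absurd hq h5
        · rw [List.mem_toFinset] at hq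
          obtain ⟨h6, h7, h8⟩ := I.u1 q hq
          rw [gi_two (C.two q h6 h7 h8)])
  rw [Finset.prod_insert, Finset.prod_insert h3U] at h1
  · rw [if_pos rfl, if_neg h3p, if_pos rfl] at h1
    have h2 : ∏ q ∈ U.toFinset, (if q = p then (p : ℚ) / (p + 1) else if q = 3 then 81 / 121 else
        (q : ℚ) ^ 2 / (F q : ℚ)) = (abDen U : ℚ) / (abNum U : ℚ) := by
      rw [← hprodU]
      apply Finset.prod_congr rfl
      intro q hq
      rw [List.mem_toFinset] at hq
      rw [if_neg (I.u1 q hq).2.1, if_neg (I.u1 q hq).2.2]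
    rw [h2, div_mul_div_comm, div_mul_div_comm, div_le_div_iff₀ (by norm_num) (by positivity)] at h1
    have h7 : (121 * abNum U * (p + 1) : ℚ) ≤ 2 * 81 * abDen U * p := by
      nlinarith [h1]
    have h8 : 121 * abNum U * (p + 1) ≤ 2 * 81 * abDen U * p := by exact_mod_cast h7
    by_cases hP : 2 ≤ P
    · rw [if_pos hP, if_pos hP] at h
      have hPp : P = p := by rcases I.hP with h9 | h9 <;> omega
      rw [hPp] at h
      omega
    · rw [if_neg hP, if_neg hP, mul_one, mul_one] at h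
      have h9 : 2 * 81 * abDen U * p < 121 * abNum U * p :=
        Nat.mul_lt_mul_of_pos_right h hpp.pos
      have h10 : 121 * abNum U * (p + 1) = 121 * abNum U * p + 121 * abNum U := by ring
      omega
  · rw [Finset.mem_insert]
    push Not
    exact ⟨fun h => h3p h.symm, hpU⟩

/-- Soundness of `run3`. -/
theorem run3_sound (C : Ctx N p 3) (h4 : 4 ≤ N.factorization 3) (t : Tr) :
    ∀ (U : List ℕ) (P : ℕ), Inv3 N p U P → run3 t U P = true → False := by
  classical
  have hp12 := p_mod12 C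
  induction t with
  | full => intro U P _ h; simp [run3] at h
  | last u m => intro U P _ h; simp [run3] at h
  | ab =>
    intro U P I h
    simp only [run3, Bool.and_eq_true, decide_eq_true_eq, Nat.blt_eq] at h
    exact ab_false3 C h4 I h.1 h.2
  | fS u v t ih =>
    intro U P I h
    simp only [run3, Bool.and_eq_true, Bool.or_eq_true, beq_iff_eq, Bool.not_eq_true',
      beq_eq_false_iff_ne, List.elem_eq_mem, decide_eq_true_eq] at h
    obtain ⟨⟨⟨⟨⟨h1, h2⟩, h3⟩, h5⟩, h6⟩, h7⟩ := h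
    obtain ⟨hu1, hu2, hu3⟩ := I.u1 u h1
    have hv := isP_prime h3
    have hvF : v ∣ F u := Nat.dvd_of_mod_eq_zero h2
    have hvN := C.mem hv (C.nS hu1 hu2 hu3 hv hvF)
    have hvp : v ≠ p := by
      rintro rfl
      rcases h6 with h6 | h6
      · exact h6 hp12
      · rcases I.hP with h | h
        · exact h6.1 h
        · exact h6.2 h.2.symm
    refine ih (v :: U) P ⟨?_, I.hP⟩ h7
    intro x hx
    rw [List.mem_cons] at hx
    rcases hx with rfl | hx
    · exact ⟨hvN, hvp, h5⟩
    · exact I.u1 x hx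
  | fB u v t1 t2 ih1 ih2 =>
    intro U P I h
    simp only [run3, Bool.and_eq_true, beq_iff_eq, Bool.not_eq_true',
      beq_eq_false_iff_ne, List.elem_eq_mem, decide_eq_true_eq] at h
    obtain ⟨⟨⟨⟨⟨⟨h1, h2⟩, h3⟩, h5⟩, h6⟩, h7⟩, h8⟩ := h
    obtain ⟨hu1, hu2, hu3⟩ := I.u1 u h1
    have hv := isP_prime h3
    have hvF : v ∣ F u := Nat.dvd_of_mod_eq_zero h2
    have hvN := C.mem hv (C.nS hu1 hu2 hu3 hv hvF)
    by_cases hvp : v = p
    · exact ih2 U v ⟨I.u1, Or.inr ⟨hv.two_le, hvp⟩⟩ h8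
    · refine ih1 (v :: U) 0 ⟨?_, Or.inl rfl⟩ h7
      intro x hx
      rw [List.mem_cons] at hx
      rcases hx with rfl | hx
      · exact ⟨hvN, hvp, h5⟩
      · exact I.u1 x hx
  | gS v t ih =>
    intro U P I h
    simp only [run3, Bool.and_eq_true, beq_iff_eq, Bool.not_eq_true',
      beq_eq_false_iff_ne, Nat.ble_eq] at h
    obtain ⟨⟨⟨⟨⟨h1, h2⟩, h3⟩, h5⟩, h6⟩, h7⟩ := h
    have hPp : P = p := by rcases I.hP with h | h <;> omega
    have hv := isP_prime h3
    have hvP : v ∣ p + 1 := by rw [← hPp]; exact Nat.dvd_of_mod_eq_zero h2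
    have hvp : v ≠ p := by
      rintro rfl
      have h9 : v ∣ 1 := (Nat.dvd_add_right (dvd_refl v)).1 hvP
      exact hv.one_lt.ne' (Nat.dvd_one.1 h9)
    have hvN := C.mem hv (C.nP hv (by omega) hvP)
    refine ih (v :: U) P ⟨?_, I.hP⟩ h7
    intro x hx
    rw [List.mem_cons] at hx
    rcases hx with rfl | hx
    · exact ⟨hvN, hvp, h6⟩
    · exact I.u1 x hx

/-- Certificate for `7`. -/
def tree7 : Tr :=
  .fS 7 19 (.fS 19 127 (.fS 127 5419 (.fS 5419 31 (.fS 31 331
    (.fB 5419 313
      (.fB 313 181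
        (.fS 181 79 (.fS 79 43 (.fS 181 139 .ab)))
        (.gS 13 .ab))
      (.gS 157 (.fS 5419 1009 (.fS 1009 37 (.fS 37 67 .ab)))))))))

lemma tree7_ok : run3 tree7 [7] 0 = true := by
  decide +kernel

/-- `7` does not divide `N`. -/
theorem not7 (C : Ctx N p 3) (h4 : 4 ≤ N.factorization 3) : ¬ 7 ∣ N := by
  intro h
  have hp12 := p_mod12 C
  refine run3_sound C h4 tree7 [7] 0 ⟨?_, Or.inl rfl⟩ tree7_ok
  intro u hu
  rw [List.mem_singleton] at hu
  subst hu
  exact ⟨C.mem (by norm_num) h, by omega, by norm_num⟩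

end Pool.Agent.Lib.MP_f02ea4_nt.Exc
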