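import Mathlib
import Pool.Agent.Lib.MP_f02ea4_nt.FinDet

/-!
Size of the linear forms at a complex place.
-/

set_option autoImplicit false

namespace Pool.Agent.Lib.MP_f02ea4_nt.Fin

open Finset

lemma g_norm_le (r j : ℕ) : ‖((g r j : ℤ) : ℂ)‖ ≤ 4 ^ r * 2 ^ j := by
  rw [Complex.norm_intCast]
  exact_mod_cast g_abs_le r j

lemma g_norm_le' {r j : ℕ} (h : r < j) : ‖((g r j : ℤ) : ℂ)‖ ≤ 2 ^ j := by
  rw [Complex.norm_intCast]
  exact_mod_cast g_abs_le' h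

lemma norm_Ps_le (r m : ℕ) (a d : ℂ) (hd : ‖d‖ ≤ 2) (A : ℝ) (hA : ‖a‖ ≤ A) :
    ‖a ^ m * Ps r m a d‖ ≤ 4 ^ r * (A + 4) ^ (m + r) := by
  have hA0 : 0 ≤ A := (norm_nonneg a).trans hA
  have h1 : ‖a ^ m * Ps r m a d‖ ≤ ∑ j ∈ range (r + 1),
      ((m + r).choose j : ℝ) * (4 ^ r * 2 ^ j) * 2 ^ j * A ^ (m + r - j) := by
    have e : a ^ m * Ps r m a d = ∑ j ∈ range (r + 1),
        ((m + r).choose j : ℂ) * (g r j : ℂ) * (-d) ^ j * a ^ (m + r - j) := by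
      unfold Ps
      rw [Finset.mul_sum]
      apply Finset.sum_congr rfl
      intro j hj
      rw [Finset.mem_range] at hj
      rw [show m + r - j = m + (r - j) by omega, pow_add]
      ring
    rw [e]
    refine (norm_sum_le _ _).trans ?_
    apply Finset.sum_le_sum
    intro j _
    rw [norm_mul, norm_mul, norm_mul, norm_pow, norm_pow, norm_neg, Complex.norm_natCast]
    gcongr
    exact g_norm_le r j
  refine h1.trans ?_
  have h2 : (A + 4) ^ (m + r) = ∑ j ∈ range (m + r + 1), 4 ^ j * A ^ (m + r - j) *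
      ((m + r).choose j : ℝ) := by
    rw [add_comm A 4, add_pow]
  rw [h2, Finset.mul_sum]
  calc ∑ j ∈ range (r + 1), ((m + r).choose j : ℝ) * (4 ^ r * 2 ^ j) * 2 ^ j * A ^ (m + r - j)
      = ∑ j ∈ range (r + 1), 4 ^ r * (4 ^ j * A ^ (m + r - j) * ((m + r).choose j : ℝ)) := by
        apply Finset.sum_congr rfl
        intro j _
        have : (4 : ℝ) ^ j = 2 ^ j * 2 ^ j := by rw [← mul_pow]; norm_num
        rw [this]
        ring
    _ ≤ _ := by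
        apply Finset.sum_le_sum_of_subset_of_nonneg
        · intro x hx
          rw [Finset.mem_range] at *
          omega
        · intro j _ _
          positivity

lemma norm_Rem_le (r m : ℕ) (hm : r + 1 ≤ m) (a d : ℂ) (hd : ‖d‖ ≤ 2) (A : ℝ) (hA : ‖a‖ ≤ A)
    (hA4 : 4 ≤ A) :
    ‖Rem r m a d‖ ≤ 2 ^ (m + r) * 4 ^ (2 * r + 1) * A ^ (m - r - 1) := by
  have hA0 : 0 ≤ A := by linarith
  unfold Rem
  calc ‖∑ j ∈ Ico (2 * r + 1) (m + r + 1), ((m + r).choose j : ℂ) * (g r j : ℂ) * (-d) ^ j *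
        a ^ (m + r - j)‖
      ≤ ∑ j ∈ Ico (2 * r + 1) (m + r + 1), ‖((m + r).choose j : ℂ) * (g r j : ℂ) * (-d) ^ j *
        a ^ (m + r - j)‖ := norm_sum_le _ _
    _ ≤ ∑ j ∈ Ico (2 * r + 1) (m + r + 1), ((m + r).choose j : ℝ) *
        (4 ^ (2 * r + 1) * A ^ (m - r - 1)) := by
        apply Finset.sum_le_sum
        intro j hj
        rw [Finset.mem_Ico] at hj
        rw [norm_mul, norm_mul, norm_mul, norm_pow, norm_pow, norm_neg, Complex.norm_natCast]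
        have h1 : ‖((g r j : ℤ) : ℂ)‖ ≤ 2 ^ j := g_norm_le' (by omega)
        have h2 : ‖d‖ ^ j ≤ 2 ^ j := pow_le_pow_left₀ (norm_nonneg d) hd j
        have h3 : ‖a‖ ^ (m + r - j) ≤ A ^ (m + r - j) := pow_le_pow_left₀ (norm_nonneg a) hA _
        have h4 : (4 : ℝ) ^ j * A ^ (m + r - j) ≤ 4 ^ (2 * r + 1) * A ^ (m - r - 1) := by
          have e1 : (4 : ℝ) ^ j = 4 ^ (2 * r + 1) * 4 ^ (j - (2 * r + 1)) := by
            rw [← pow_add]; congr 1; omega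
          have e2 : A ^ (m - r - 1) = A ^ (j - (2 * r + 1)) * A ^ (m + r - j) := by
            rw [← pow_add]; congr 1; omega
          rw [e1, e2, mul_assoc]
          gcongr
        calc ((m + r).choose j : ℝ) * ‖((g r j : ℤ) : ℂ)‖ * ‖d‖ ^ j * ‖a‖ ^ (m + r - j)
            ≤ ((m + r).choose j : ℝ) * 2 ^ j * 2 ^ j * A ^ (m + r - j) := by gcongr
          _ = ((m + r).choose j : ℝ) * (4 ^ j * A ^ (m + r - j)) := by
              have : (4 : ℝ) ^ j = 2 ^ j * 2 ^ j := by rw [← mul_pow]; norm_num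
              rw [this]
              ring
          _ ≤ _ := by gcongr
    _ = (∑ j ∈ Ico (2 * r + 1) (m + r + 1), ((m + r).choose j : ℝ)) *
        (4 ^ (2 * r + 1) * A ^ (m - r - 1)) := by rw [Finset.sum_mul]
    _ ≤ 2 ^ (m + r) * (4 ^ (2 * r + 1) * A ^ (m - r - 1)) := by
        gcongr
        have h1 : ∑ j ∈ Ico (2 * r + 1) (m + r + 1), (m + r).choose j ≤ 2 ^ (m + r) := by
          rw [← Nat.sum_range_choose]
          apply Finset.sum_le_sum_of_subset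
          intro x hx
          rw [Finset.mem_Ico] at hx
          rw [Finset.mem_range]
          omega
        exact_mod_cast h1
    _ = _ := by ring

/-- Size of the linear form. -/
lemma norm_Ef_le (r m : ℕ) (hm : r + 1 ≤ m) (a d a2 : ℂ) (hd : ‖d‖ ≤ 2) (x1 x2 : ℝ)
    (hx1 : 5 ≤ x1) (hx2 : 1 ≤ x2) (ha : ‖a‖ ≤ x1 + 1) (ha2 : ‖a2‖ ≤ x2 + 1) :
    ‖Ef r m a d a2 (a2 - d)‖ ≤ 2 * 4 ^ r * (2 * x1) ^ (m + r) +
      2 * x2 * (2 ^ (m + r) * 4 ^ (2 * r + 1) * (2 * x1) ^ (m - r - 1)) := by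
  have e : Ef r m a d a2 (a2 - d) = -(d * (a ^ m * Ps r m a d)) - a2 * Rem r m a d := by
    unfold Ef
    rw [pade r m (by omega)]
    ring
  rw [e]
  have h1 := norm_Ps_le r m a d hd (x1 + 1) ha
  have h2 := norm_Rem_le r m hm a d hd (x1 + 1) ha (by linarith)
  calc ‖-(d * (a ^ m * Ps r m a d)) - a2 * Rem r m a d‖
      ≤ ‖-(d * (a ^ m * Ps r m a d))‖ + ‖a2 * Rem r m a d‖ := norm_sub_le _ _
    _ = ‖d‖ * ‖a ^ m * Ps r m a d‖ + ‖a2‖ * ‖Rem r m a d‖ := by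
        rw [norm_neg, norm_mul d, norm_mul a2]
    _ ≤ 2 * (4 ^ r * (x1 + 1 + 4) ^ (m + r)) +
        (x2 + 1) * (2 ^ (m + r) * 4 ^ (2 * r + 1) * (x1 + 1) ^ (m - r - 1)) := by gcongr
    _ ≤ 2 * (4 ^ r * (2 * x1) ^ (m + r)) +
        (2 * x2) * (2 ^ (m + r) * 4 ^ (2 * r + 1) * (2 * x1) ^ (m - r - 1)) := by
        gcongr <;> linarith
    _ = _ := by ring

/-- Size of the linear form for the two relevant values of `r`. -/
lemma norm_Ef_le' (μ r : ℕ) (hμ : 1 ≤ μ) (hr : r = μ - 1 ∨ r = μ) (a d a2 : ℂ) (hd : ‖d‖ ≤ 2)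
    (x1 x2 : ℝ) (hx1 : 5 ≤ x1) (hx2 : 1 ≤ x2) (hx : x2 ≤ x1 ^ (2 * μ + 2))
    (ha : ‖a‖ ≤ x1 + 1) (ha2 : ‖a2‖ ≤ x2 + 1) :
    ‖Ef r (2 * μ) a d a2 (a2 - d)‖ ≤ 2 ^ (8 * μ + 3) * x1 ^ (3 * μ + 2) := by
  have h0 := norm_Ef_le r (2 * μ) (by omega) a d a2 hd x1 x2 hx1 hx2 ha ha2
  refine h0.trans ?_
  have hx0 : (0 : ℝ) < x1 := by linarith
  have hone : (1 : ℝ) ≤ x1 := by linarith
  have step : 2 * 4 ^ r * (2 * x1) ^ (2 * μ + r) +
      2 * x2 * (2 ^ (2 * μ + r) * 4 ^ (2 * r + 1) * (2 * x1) ^ (2 * μ - r - 1)) ≤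
      2 * 4 ^ r * (2 * x1) ^ (2 * μ + r) + 2 * x1 ^ (2 * μ + 2) *
        (2 ^ (2 * μ + r) * 4 ^ (2 * r + 1) * (2 * x1) ^ (2 * μ - r - 1)) := by gcongr
  refine step.trans ?_
  have e4 : ∀ n : ℕ, (4 : ℝ) ^ n = 2 ^ (2 * n) := fun n => by rw [pow_mul]; norm_num
  have e1 : 2 * 4 ^ r * (2 * x1) ^ (2 * μ + r) = 2 ^ (1 + 2 * r + (2 * μ + r)) * x1 ^ (2 * μ + r) := by
    rw [e4, mul_pow, pow_add 2 (1 + 2 * r), pow_add 2 1]
    ring
  have e2 : 2 * x1 ^ (2 * μ + 2) *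
        (2 ^ (2 * μ + r) * 4 ^ (2 * r + 1) * (2 * x1) ^ (2 * μ - r - 1)) =
      2 ^ (1 + (2 * μ + r) + 2 * (2 * r + 1) + (2 * μ - r - 1)) *
        x1 ^ (2 * μ + 2 + (2 * μ - r - 1)) := by
    rw [e4, mul_pow, pow_add 2 (1 + (2 * μ + r) + 2 * (2 * r + 1)), pow_add 2 (1 + (2 * μ + r)),
      pow_add 2 1, pow_add x1 (2 * μ + 2)]
    ring
  rw [e1, e2]
  have b1 : (2 : ℝ) ^ (1 + 2 * r + (2 * μ + r)) * x1 ^ (2 * μ + r) ≤
      2 ^ (8 * μ + 2) * x1 ^ (3 * μ + 2) := by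
    apply mul_le_mul
    · exact pow_le_pow_right₀ (by norm_num) (by omega)
    · exact pow_le_pow_right₀ hone (by omega)
    · positivity
    · positivity
  have b2 : (2 : ℝ) ^ (1 + (2 * μ + r) + 2 * (2 * r + 1) + (2 * μ - r - 1)) *
        x1 ^ (2 * μ + 2 + (2 * μ - r - 1)) ≤ 2 ^ (8 * μ + 2) * x1 ^ (3 * μ + 2) := by
    apply mul_le_mul
    · exact pow_le_pow_right₀ (by norm_num) (by omega)
    · exact pow_le_pow_right₀ hone (by omega)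
    · positivity
    · positivity
  calc _ ≤ 2 ^ (8 * μ + 2) * x1 ^ (3 * μ + 2) + 2 ^ (8 * μ + 2) * x1 ^ (3 * μ + 2) :=
        add_le_add b1 b2
    _ = _ := by rw [show 8 * μ + 3 = (8 * μ + 2) + 1 by ring, pow_succ]; ring

end Pool.Agent.Lib.MP_f02ea4_nt.Fin
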