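import Mathlib
import Pool.Agent.Lib.MP_f02ea4_nt.FinDet

/-!
Norms of the linear forms in the cyclotomic field: divisibility and size.
-/

set_option autoImplicit false

namespace Pool.Agent.Lib.MP_f02ea4_nt.Fin

open Finset Polynomial NumberField

variable (l : ℕ) [hl : Fact l.Prime]

instance cycInst : IsCyclotomicExtension {l} ℚ (CyclotomicField l ℚ) :=
  CyclotomicField.isCyclotomicExtension l ℚ

/-- The chosen primitive root of unity in the ring of integers. -/
noncomputable def zt : 𝓞 (CyclotomicField l ℚ) :=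
  (IsCyclotomicExtension.zeta_spec l ℚ (CyclotomicField l ℚ)).toInteger

lemma zt_pow : (zt l) ^ l = 1 := by
  have h := (IsCyclotomicExtension.zeta_spec l ℚ (CyclotomicField l ℚ)).toInteger_isPrimitiveRoot
  exact h.pow_eq_one

/-- Ring homomorphisms to `ZMod T` from roots of the cyclotomic polynomial. -/
lemma exists_hom {T : ℕ} (y : ZMod T) (hy : ∑ i ∈ range l, y ^ i = 0) :
    ∃ f : 𝓞 (CyclotomicField l ℚ) →+* ZMod T, f (zt l) = y := by
  have hz := IsCyclotomicExtension.zeta_spec l ℚ (CyclotomicField l ℚ)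
  set pb := hz.integralPowerBasis with hpb
  have hgen : pb.gen = zt l := by
    rw [hpb, IsPrimitiveRoot.integralPowerBasis_gen]
    rfl
  have hmin : minpoly ℤ pb.gen = cyclotomic l ℤ := by
    rw [hpb, IsPrimitiveRoot.integralPowerBasis_gen, ← RingOfIntegers.minpoly_coe]
    exact (cyclotomic_eq_minpoly hz hl.out.pos).symm
  have hy' : aeval y (minpoly ℤ pb.gen) = 0 := by
    rw [hmin, cyclotomic_prime, map_sum]
    simpa using hy
  refine ⟨(pb.lift y hy').toRingHom, ?_⟩
  rw [← hgen]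
  exact pb.lift_gen y hy'

/-- If `E` is killed by two different reductions modulo `T`, its norm is divisible by `T ^ 2`. -/
lemma sq_dvd_norm {T : ℕ} (hT : 0 < T) {y y' : ZMod T}
    (hu : IsUnit (y - y')) (f f' : 𝓞 (CyclotomicField l ℚ) →+* ZMod T) (hf : f (zt l) = y)
    (hf' : f' (zt l) = y') (E : 𝓞 (CyclotomicField l ℚ)) (h1 : f E = 0) (h2 : f' E = 0) :
    ((T : ℤ)) ^ 2 ∣ Algebra.norm ℤ E := by
  haveI : NeZero T := ⟨hT.ne'⟩
  set F : 𝓞 (CyclotomicField l ℚ) →+* ZMod T × ZMod T := f.prod f' with hF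
  have hsurj : Function.Surjective F := by
    rintro ⟨a, b⟩
    obtain ⟨u, hu'⟩ := hu
    set c1 : ZMod T := (a - b) * (↑u⁻¹ : ZMod T) with hc1
    set c0 : ZMod T := a - c1 * y with hc0
    refine ⟨((c0.val : ℕ) : 𝓞 (CyclotomicField l ℚ)) +
      ((c1.val : ℕ) : 𝓞 (CyclotomicField l ℚ)) * zt l, ?_⟩
    rw [hF]
    ext
    · simp only [RingHom.prod_apply]
      rw [map_add, map_mul, map_natCast, map_natCast, hf, ZMod.natCast_zmod_val,
        ZMod.natCast_zmod_val, hc0]
      ring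
    · simp only [RingHom.prod_apply]
      rw [map_add, map_mul, map_natCast, map_natCast, hf', ZMod.natCast_zmod_val,
        ZMod.natCast_zmod_val, hc0]
      have : c1 * (y - y') = a - b := by
        rw [hc1, ← hu', mul_assoc, Units.inv_mul, mul_one]
      linear_combination -this
  have hE : E ∈ RingHom.ker F := by
    rw [RingHom.mem_ker, hF, RingHom.prod_apply, h1, h2]
    rfl
  have h3 := Ideal.absNorm_dvd_norm_of_mem hE
  have h4 : Ideal.absNorm (RingHom.ker F) = T ^ 2 := by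
    rw [Ideal.absNorm_apply, Submodule.cardQuot_apply]
    rw [Nat.card_congr (RingHom.quotientKerEquivOfSurjective hsurj).toEquiv, Nat.card_prod,
      Nat.card_zmod, sq]
  rw [h4] at h3
  exact_mod_cast h3

/-- Size of the norm from sizes of the conjugates. -/
lemma norm_le {U : ℝ} (E : 𝓞 (CyclotomicField l ℚ))
    (h : ∀ σ : CyclotomicField l ℚ →ₐ[ℚ] ℂ, ‖σ (E : CyclotomicField l ℚ)‖ ≤ U) :
    |((Algebra.norm ℤ E : ℤ) : ℝ)| ≤ U ^ (l - 1) := by
  have h1 : (((Algebra.norm ℤ E : ℤ) : ℚ)) = Algebra.norm ℚ (E : CyclotomicField l ℚ) :=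
    Algebra.coe_norm_int E
  have h2 := Algebra.norm_eq_prod_embeddings ℚ ℂ (E : CyclotomicField l ℚ)
  rw [← h1] at h2
  have h3 : ‖(((Algebra.norm ℤ E : ℤ) : ℂ))‖ ≤ U ^ (l - 1) := by
    have h4 : (((Algebra.norm ℤ E : ℤ) : ℂ)) = ∏ σ : CyclotomicField l ℚ →ₐ[ℚ] ℂ,
        σ (E : CyclotomicField l ℚ) := by
      rw [← h2]
      simp
    rw [h4, norm_prod]
    calc ∏ σ : CyclotomicField l ℚ →ₐ[ℚ] ℂ, ‖σ (E : CyclotomicField l ℚ)‖
        ≤ ∏ _σ : CyclotomicField l ℚ →ₐ[ℚ] ℂ, U :=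
          Finset.prod_le_prod (fun _ _ => norm_nonneg _) (fun σ _ => h σ)
      _ = U ^ (l - 1) := by
          rw [Finset.prod_const, Finset.card_univ, AlgHom.card,
            IsCyclotomicExtension.Rat.finrank l, Nat.totient_prime hl.out]
  rwa [Complex.norm_intCast] at h3

end Pool.Agent.Lib.MP_f02ea4_nt.Fin
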