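import Mathlib
import Pool.Agent.Lib.MP_f02ea4_nt.FinNorm
import Pool.Agent.Lib.MP_f02ea4_nt.FinBound

/-!
The main Diophantine lemma: two integers `q1`, `q2` with `q2` a large power of `q1` cannot have
`Φ_l(q1)`, `Φ_l(q2)` composed of the same primes in nearly the same proportions.
-/

set_option autoImplicit false

namespace Pool.Agent.Lib.MP_f02ea4_nt.Fin

open Finset NumberField

/-- `1 + q + ... + q^(l-1)`. -/
def Phi (l q : ℕ) : ℕ := ∑ i ∈ range l, q ^ i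

section zmod

variable {l T : ℕ} [hl : Fact l.Prime]

omit hl in
lemma root_pow {y : ZMod T} (hy : ∑ i ∈ range l, y ^ i = 0) : y ^ l = 1 := by
  have := geom_sum_mul y l
  rw [hy, zero_mul] at this
  exact (sub_eq_zero.1 this.symm)

lemma root_mul {y : ZMod T} (hy : ∑ i ∈ range l, y ^ i = 0) : y ^ (l - 1) * y = 1 := by
  rw [← pow_succ, Nat.sub_add_cancel hl.out.pos, root_pow hy]

/-- The inverse of a root is a root. -/
lemma root_inv {y : ZMod T} (hy : ∑ i ∈ range l, y ^ i = 0) :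
    ∑ i ∈ range l, (y ^ (l - 1)) ^ i = 0 := by
  have h1 := root_mul hy
  have h2 : y ^ (l - 1) * ∑ i ∈ range l, (y ^ (l - 1)) ^ i = 0 := by
    rw [Finset.mul_sum, ← hy, ← Finset.sum_range_reflect (fun i => y ^ i)]
    apply Finset.sum_congr rfl
    intro i hi
    rw [Finset.mem_range] at hi
    have h4 : y ^ i * (y ^ (l - 1)) ^ i = 1 := by
      rw [← mul_pow, mul_comm, h1, one_pow]
    have h5 : y ^ (l - 1) = y ^ (l - 1 - i) * y ^ i := by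
      rw [← pow_add]; congr 1; omega
    calc y ^ (l - 1) * (y ^ (l - 1)) ^ i
        = y ^ (l - 1 - i) * (y ^ i * (y ^ (l - 1)) ^ i) := by
          rw [← mul_assoc, ← h5]
      _ = _ := by rw [h4, mul_one]
  calc ∑ i ∈ range l, (y ^ (l - 1)) ^ i
      = (y ^ (l - 1) * y) * ∑ i ∈ range l, (y ^ (l - 1)) ^ i := by rw [h1, one_mul]
    _ = y * (y ^ (l - 1) * ∑ i ∈ range l, (y ^ (l - 1)) ^ i) := by ring
    _ = 0 := by rw [h2, mul_zero]

/-- The difference of a root and its inverse is a unit. -/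
lemma root_unit {y : ZMod T} (hl2 : l ≠ 2) (hy : ∑ i ∈ range l, y ^ i = 0)
    (hcop : Nat.Coprime l T) : IsUnit (y - y ^ (l - 1)) := by
  have hodd : Odd l := hl.out.odd_of_ne_two hl2
  have hlu : IsUnit ((l : ℕ) : ZMod T) := (ZMod.isUnit_iff_coprime l T).2 hcop
  have d1 : (y - 1) ∣ ((l : ℕ) : ZMod T) := by
    have h1 : (y - 1) ∣ ∑ i ∈ range l, (y ^ i - 1) :=
      Finset.dvd_sum (fun i _ => sub_one_dvd_pow_sub_one y i)
    rw [Finset.sum_sub_distrib, hy, zero_sub, dvd_neg] at h1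
    simpa using h1
  have d2 : (y ^ 2 - 1) ∣ (y - 1) := by
    obtain ⟨k, hk⟩ := hodd
    have h1 : y = (y ^ 2) ^ (k + 1) := by
      rw [← pow_mul, show 2 * (k + 1) = l + 1 by omega, pow_succ, root_pow hy, one_mul]
    conv_rhs => rw [h1]
    exact sub_one_dvd_pow_sub_one _ _
  have u2 : IsUnit (y ^ 2 - 1) := isUnit_of_dvd_unit (d2.trans d1) hlu
  have h3 : (y - y ^ (l - 1)) ∣ (y ^ 2 - 1) := by
    refine ⟨y, ?_⟩
    rw [sub_mul, root_mul hy]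
    ring
  exact isUnit_of_dvd_unit h3 u2

end zmod

section main

variable {l : ℕ} [hl : Fact l.Prime]

/-- The algebraic integer used. -/
noncomputable def El (l : ℕ) [Fact l.Prime] (r m q1 q2 : ℕ) : 𝓞 (CyclotomicField l ℚ) :=
  Ef r m ((q1 : 𝓞 (CyclotomicField l ℚ)) - zt l ^ (l - 1)) (zt l - zt l ^ (l - 1))
    ((q2 : 𝓞 (CyclotomicField l ℚ)) - zt l ^ (l - 1)) ((q2 : 𝓞 (CyclotomicField l ℚ)) - zt l)

lemma Ef_zero1 {R : Type*} [CommRing R] {r m : ℕ} {a d a2 : R} (h : (a - d) ^ m = 0) :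
    Ef r m a d a2 0 = 0 := by
  unfold Ef
  rw [h]
  ring

lemma Ef_zero2 {R : Type*} [CommRing R] {r m : ℕ} {a d b2 : R} (h : a ^ m = 0) :
    Ef r m a d 0 b2 = 0 := by
  unfold Ef
  rw [h]
  ring

lemma El_norm_dvd (hl2 : l ≠ 2) {r m q1 q2 T : ℕ} (hT : 0 < T) (hcop : Nat.Coprime l T)
    (h1 : T ∣ Phi l q2) (h2 : (T : ℤ) ∣ ((q1 : ℤ) - q2) ^ m) :
    ((T : ℤ)) ^ 2 ∣ Algebra.norm ℤ (El l r m q1 q2) := by
  set y : ZMod T := (q2 : ZMod T) with hy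
  have hy0 : ∑ i ∈ range l, y ^ i = 0 := by
    have := (ZMod.natCast_eq_zero_iff (Phi l q2) T).2 h1
    unfold Phi at this
    push_cast at this
    exact this
  have hdiff : ((q1 : ZMod T) - y) ^ m = 0 := by
    have := (ZMod.intCast_zmod_eq_zero_iff_dvd (((q1 : ℤ) - q2) ^ m) T).2 h2
    push_cast at this
    exact this
  obtain ⟨f, hf⟩ := exists_hom l y hy0
  obtain ⟨f', hf'⟩ := exists_hom l (y ^ (l - 1)) (root_inv hy0)
  have hu := root_unit hl2 hy0 hcop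
  apply sq_dvd_norm l hT hu f f' hf hf'
  · unfold El
    rw [map_Ef]
    simp only [map_sub, map_pow, map_natCast, hf]
    rw [← hy, sub_self]
    apply Ef_zero1
    rw [show ((q1 : ZMod T) - y ^ (l - 1) - (y - y ^ (l - 1))) = (q1 : ZMod T) - y by ring]
    exact hdiff
  · unfold El
    rw [map_Ef]
    simp only [map_sub, map_pow, map_natCast, hf']
    have h3 : (y ^ (l - 1)) ^ (l - 1) = y := by
      have h4 := root_mul hy0
      have h5 := root_mul (root_inv hy0)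
      calc (y ^ (l - 1)) ^ (l - 1) = (y ^ (l - 1)) ^ (l - 1) * (y ^ (l - 1) * y) := by
            rw [h4, mul_one]
        _ = ((y ^ (l - 1)) ^ (l - 1) * y ^ (l - 1)) * y := by ring
        _ = y := by rw [h5, one_mul]
    rw [h3, ← hy, sub_self]
    apply Ef_zero2
    exact hdiff

lemma El_size {μ r q1 q2 : ℕ} (hμ : 1 ≤ μ) (hr : r = μ - 1 ∨ r = μ) (hq1 : 5 ≤ q1) (hq2 : 1 ≤ q2)
    (h : q2 ≤ q1 ^ (2 * μ + 2)) :
    |((Algebra.norm ℤ (El l r (2 * μ) q1 q2) : ℤ) : ℝ)| ≤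
      (2 ^ (8 * μ + 3) * (q1 : ℝ) ^ (3 * μ + 2)) ^ (l - 1) := by
  apply norm_le
  intro σ
  have hcoe : ((El l r (2 * μ) q1 q2 : 𝓞 (CyclotomicField l ℚ)) : CyclotomicField l ℚ) =
      Ef r (2 * μ) ((q1 : CyclotomicField l ℚ) - (zt l : CyclotomicField l ℚ) ^ (l - 1))
        ((zt l : CyclotomicField l ℚ) - (zt l : CyclotomicField l ℚ) ^ (l - 1))
        ((q2 : CyclotomicField l ℚ) - (zt l : CyclotomicField l ℚ) ^ (l - 1))
        ((q2 : CyclotomicField l ℚ) - (zt l : CyclotomicField l ℚ)) := by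
    have h := map_Ef (algebraMap (𝓞 (CyclotomicField l ℚ)) (CyclotomicField l ℚ)) r (2 * μ)
      ((q1 : 𝓞 (CyclotomicField l ℚ)) - zt l ^ (l - 1)) (zt l - zt l ^ (l - 1))
      ((q2 : 𝓞 (CyclotomicField l ℚ)) - zt l ^ (l - 1)) ((q2 : 𝓞 (CyclotomicField l ℚ)) - zt l)
    simp only [map_sub, map_pow, map_natCast] at h
    exact h
  rw [hcoe]
  set z : ℂ := σ (zt l : CyclotomicField l ℚ) with hz
  have hzl : z ^ l = 1 := by
    rw [hz, ← map_pow]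
    have : ((zt l : CyclotomicField l ℚ)) ^ l = 1 := by
      have h := congrArg (algebraMap (𝓞 (CyclotomicField l ℚ)) (CyclotomicField l ℚ)) (zt_pow l)
      rwa [map_pow, map_one] at h
    rw [this, map_one]
  have hz1 : ‖z‖ = 1 := Complex.norm_eq_one_of_pow_eq_one hzl hl.out.ne_zero
  have hmap : σ (Ef r (2 * μ) ((q1 : CyclotomicField l ℚ) - (zt l : CyclotomicField l ℚ) ^ (l - 1))
        ((zt l : CyclotomicField l ℚ) - (zt l : CyclotomicField l ℚ) ^ (l - 1))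
        ((q2 : CyclotomicField l ℚ) - (zt l : CyclotomicField l ℚ) ^ (l - 1))
        ((q2 : CyclotomicField l ℚ) - (zt l : CyclotomicField l ℚ))) =
      Ef r (2 * μ) ((q1 : ℂ) - z ^ (l - 1)) (z - z ^ (l - 1)) ((q2 : ℂ) - z ^ (l - 1))
        (((q2 : ℂ) - z ^ (l - 1)) - (z - z ^ (l - 1))) := by
    have := map_Ef (σ : CyclotomicField l ℚ →+* ℂ) r (2 * μ)
      ((q1 : CyclotomicField l ℚ) - (zt l : CyclotomicField l ℚ) ^ (l - 1))
        ((zt l : CyclotomicField l ℚ) - (zt l : CyclotomicField l ℚ) ^ (l - 1))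
        ((q2 : CyclotomicField l ℚ) - (zt l : CyclotomicField l ℚ) ^ (l - 1))
        ((q2 : CyclotomicField l ℚ) - (zt l : CyclotomicField l ℚ))
    simp only [map_sub, map_pow, map_natCast] at this
    have e : ((q2 : ℂ) - z ^ (l - 1)) - (z - z ^ (l - 1)) = (q2 : ℂ) - z := by ring
    rw [e]
    exact this
  rw [hmap]
  have hzp : ‖z ^ (l - 1)‖ = 1 := by rw [norm_pow, hz1, one_pow]
  apply norm_Ef_le' μ r hμ hr _ _ _ _ (q1 : ℝ) (q2 : ℝ)
  · exact_mod_cast hq1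
  · exact_mod_cast hq2
  · exact_mod_cast h
  · calc ‖(q1 : ℂ) - z ^ (l - 1)‖ ≤ ‖(q1 : ℂ)‖ + ‖z ^ (l - 1)‖ := norm_sub_le _ _
      _ = (q1 : ℝ) + 1 := by rw [hzp, Complex.norm_natCast]
  · calc ‖(q2 : ℂ) - z ^ (l - 1)‖ ≤ ‖(q2 : ℂ)‖ + ‖z ^ (l - 1)‖ := norm_sub_le _ _
      _ = (q2 : ℝ) + 1 := by rw [hzp, Complex.norm_natCast]
  · calc ‖z - z ^ (l - 1)‖ ≤ ‖z‖ + ‖z ^ (l - 1)‖ := norm_sub_le _ _
      _ = 2 := by rw [hzp, hz1]; norm_num

lemma El_ne (hl2 : l ≠ 2) {μ q1 q2 : ℕ} (hμ : 1 ≤ μ) (hq1 : 2 ≤ q1) (hq2 : 2 ≤ q2) :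
    El l (μ - 1) (2 * μ) q1 q2 ≠ 0 ∨ El l μ (2 * μ) q1 q2 ≠ 0 := by
  have hprim := (IsCyclotomicExtension.zeta_spec l ℚ
    (CyclotomicField l ℚ)).toInteger_isPrimitiveRoot
  set ζ : CyclotomicField l ℚ := (zt l : CyclotomicField l ℚ) with hζ
  have hζp : IsPrimitiveRoot ζ l := IsCyclotomicExtension.zeta_spec l ℚ (CyclotomicField l ℚ)
  have hζl : ζ ^ l = 1 := hζp.pow_eq_one
  have hnat : ∀ q : ℕ, 2 ≤ q → ∀ n : ℕ, (q : CyclotomicField l ℚ) - ζ ^ n ≠ 0 := by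
    intro q hq n h0
    have h1 : (q : CyclotomicField l ℚ) = ζ ^ n := sub_eq_zero.1 h0
    have h2 : ((q ^ l : ℕ) : CyclotomicField l ℚ) = ((1 : ℕ) : CyclotomicField l ℚ) := by
      push_cast
      rw [h1, ← pow_mul, mul_comm, pow_mul, hζl, one_pow]
    have h3 : q ^ l = 1 := by exact_mod_cast h2
    have h4 : 1 < q ^ l := Nat.one_lt_pow hl.out.ne_zero (by omega)
    omega
  have hl3 : 3 ≤ l := by
    have := hl.out.two_le
    omega
  have hd : ζ - ζ ^ (l - 1) ≠ 0 := by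
    intro h0
    have h1 : ζ ^ 1 = ζ ^ (l - 1) := by rw [pow_one]; exact sub_eq_zero.1 h0
    have h2 := hζp.pow_inj (by omega) (by omega) h1
    omega
  have hcoe : ∀ r, ((El l r (2 * μ) q1 q2 : 𝓞 (CyclotomicField l ℚ)) : CyclotomicField l ℚ) =
      Ef r (2 * μ) ((q1 : CyclotomicField l ℚ) - ζ ^ (l - 1)) (ζ - ζ ^ (l - 1))
        ((q2 : CyclotomicField l ℚ) - ζ ^ (l - 1)) ((q2 : CyclotomicField l ℚ) - ζ) := by
    intro r
    have h := map_Ef (algebraMap (𝓞 (CyclotomicField l ℚ)) (CyclotomicField l ℚ)) r (2 * μ)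
      ((q1 : 𝓞 (CyclotomicField l ℚ)) - zt l ^ (l - 1)) (zt l - zt l ^ (l - 1))
      ((q2 : 𝓞 (CyclotomicField l ℚ)) - zt l ^ (l - 1)) ((q2 : 𝓞 (CyclotomicField l ℚ)) - zt l)
    simp only [map_sub, map_pow, map_natCast] at h
    exact h
  have hmain := Ef_ne (F := CyclotomicField l ℚ) (r := μ - 1) (m := 2 * μ) (by omega)
    (a := (q1 : CyclotomicField l ℚ) - ζ ^ (l - 1)) (d := ζ - ζ ^ (l - 1))
    (a2 := (q2 : CyclotomicField l ℚ) - ζ ^ (l - 1)) (b2 := (q2 : CyclotomicField l ℚ) - ζ)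
    (hnat q1 hq1 _) (by
      have := hnat q1 hq1 1
      rw [pow_one] at this
      intro h0
      apply this
      rw [← h0]
      ring) hd (hnat q2 hq2 _) (by
      have := hnat q2 hq2 1
      rwa [pow_one] at this)
  rw [show μ - 1 + 1 = μ by omega] at hmain
  rcases hmain with h | h
  · left
    intro h0
    apply h
    rw [← hcoe, h0]
    exact map_zero (algebraMap (𝓞 (CyclotomicField l ℚ)) (CyclotomicField l ℚ))
  · right
    intro h0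
    apply h
    rw [← hcoe, h0]
    exact map_zero (algebraMap (𝓞 (CyclotomicField l ℚ)) (CyclotomicField l ℚ))

/-- The main Diophantine lemma. -/
theorem main_lemma (hl2 : l ≠ 2) {μ q1 q2 T : ℕ} (hμ : 8 ≤ μ) (hq1 : 2 ^ 34 ≤ q1)
    (hlow : q1 ^ (2 * μ) ≤ q2) (hup : q2 ≤ q1 ^ (2 * μ + 2)) (hT : 0 < T)
    (hcop : Nat.Coprime l T) (h1 : T ∣ Phi l q2) (h2 : (T : ℤ) ∣ ((q1 : ℤ) - q2) ^ (2 * μ))
    (hbig : q1 ^ (14 * μ * (l - 1)) ≤ T ^ 8) : False := by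
  have hq1' : 5 ≤ q1 := le_trans (by norm_num) hq1
  have hq2' : 2 ≤ q2 := by
    refine le_trans ?_ hlow
    calc 2 ≤ q1 := by omega
      _ = q1 ^ 1 := (pow_one _).symm
      _ ≤ q1 ^ (2 * μ) := Nat.pow_le_pow_right (by omega) (by omega)
  obtain ⟨r, hr, hne⟩ : ∃ r, (r = μ - 1 ∨ r = μ) ∧ El l r (2 * μ) q1 q2 ≠ 0 := by
    rcases El_ne hl2 (μ := μ) (q1 := q1) (q2 := q2) (by omega) (by omega) hq2' with h | h
    · exact ⟨_, Or.inl rfl, h⟩
    · exact ⟨_, Or.inr rfl, h⟩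
  have hdvd := El_norm_dvd hl2 (r := r) hT hcop h1 h2
  have hsize := El_size (l := l) (μ := μ) (r := r) (q1 := q1) (q2 := q2) (by omega) hr hq1'
    (by omega) hup
  have hn0 : Algebra.norm ℤ (El l r (2 * μ) q1 q2) ≠ 0 := Algebra.norm_ne_zero_iff.2 hne
  have hle : ((T : ℤ)) ^ 2 ≤ |Algebra.norm ℤ (El l r (2 * μ) q1 q2)| := by
    apply Int.le_of_dvd (abs_pos.2 hn0)
    exact (dvd_abs _ _).2 hdvd
  have hle' : ((T : ℝ)) ^ 2 ≤ (2 ^ (8 * μ + 3) * (q1 : ℝ) ^ (3 * μ + 2)) ^ (l - 1) := by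
    refine le_trans ?_ hsize
    rw [← Int.cast_abs]
    exact_mod_cast hle
  have hnat : T ^ 2 ≤ (2 ^ (8 * μ + 3) * q1 ^ (3 * μ + 2)) ^ (l - 1) := by exact_mod_cast hle'
  have h8 : T ^ 8 ≤ ((2 ^ (8 * μ + 3) * q1 ^ (3 * μ + 2)) ^ (l - 1)) ^ 4 := by
    rw [show T ^ 8 = (T ^ 2) ^ 4 by rw [← pow_mul]]
    exact Nat.pow_le_pow_left hnat 4
  have h9 : (q1 ^ (14 * μ)) ^ (l - 1) ≤ ((2 ^ (8 * μ + 3) * q1 ^ (3 * μ + 2)) ^ 4) ^ (l - 1) := by
    calc (q1 ^ (14 * μ)) ^ (l - 1) = q1 ^ (14 * μ * (l - 1)) := by rw [← pow_mul]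
      _ ≤ T ^ 8 := hbig
      _ ≤ _ := h8
      _ = _ := by rw [← pow_mul, ← pow_mul, mul_comm (l - 1) 4]
  have hl1 : l - 1 ≠ 0 := by
    have := hl.out.two_le
    omega
  have h10 : q1 ^ (14 * μ) ≤ (2 ^ (8 * μ + 3) * q1 ^ (3 * μ + 2)) ^ 4 :=
    (Nat.pow_le_pow_iff_left hl1).1 h9
  have h11 : q1 ^ (14 * μ) = q1 ^ (2 * μ - 8) * q1 ^ (12 * μ + 8) := by
    rw [← pow_add]; congr 1; omega
  have h12 : (2 ^ (8 * μ + 3) * q1 ^ (3 * μ + 2)) ^ 4 = 2 ^ (32 * μ + 12) * q1 ^ (12 * μ + 8) := by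
    rw [mul_pow, ← pow_mul, ← pow_mul]
    congr 2 <;> ring
  rw [h11, h12] at h10
  have h13 : q1 ^ (2 * μ - 8) ≤ 2 ^ (32 * μ + 12) :=
    Nat.le_of_mul_le_mul_right h10 (by positivity)
  have h14 : (2 ^ 34) ^ (2 * μ - 8) ≤ q1 ^ (2 * μ - 8) := Nat.pow_le_pow_left hq1 _
  rw [← pow_mul] at h14
  have h15 := (Nat.pow_le_pow_iff_right (by norm_num : 1 < 2)).1 (h14.trans h13)
  omega

end main

end Pool.Agent.Lib.MP_f02ea4_nt.Fin
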