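import Mathlib
import Pool.Agent.Lib.MP_f02ea4_nt.FinMain

/-!
Counting the integers `q` for which all prime factors of `1 + q + ... + q^(l-1)` lie in a given
finite set.
-/

set_option autoImplicit false

namespace Pool.Agent.Lib.MP_f02ea4_nt.Fin

open Finset

/-- A sparse set has at most 12 elements. -/
lemma card_le_twelve (S : Finset ℕ) (h2 : ∀ q ∈ S, 2 ≤ q)
    (hgap : ∀ a ∈ S, ∀ b ∈ S, a < b → a ^ 7 < b ^ 4)
    (hfar : ∀ a ∈ S, ∀ b ∈ S, a < b → 2 ^ 34 ≤ a → b < a ^ 16) : S.card ≤ 12 := by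
  by_contra hcon
  push Not at hcon
  obtain ⟨S', hS', hcard⟩ := Finset.exists_subset_card_eq (show 13 ≤ S.card by omega)
  set e := S'.orderEmbOfFin hcard with he
  have hmem : ∀ i, e i ∈ S := fun i => hS' (Finset.orderEmbOfFin_mem _ _ _)
  have hlt : ∀ i j : Fin 13, i < j → e i < e j := fun i j hij => e.strictMono hij
  set L : Fin 13 → ℝ := fun i => Real.log (e i) with hL
  have hpos : ∀ i, (0 : ℝ) < (e i : ℝ) := by
    intro i
    have := h2 _ (hmem i)
    have h3 : 0 < e i := by omega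
    exact_mod_cast h3
  have step : ∀ i j : Fin 13, i < j → 7 * L i < 4 * L j := by
    intro i j hij
    have h1 := hgap _ (hmem i) _ (hmem j) (hlt i j hij)
    have h3 : ((e i : ℝ)) ^ 7 < (e j : ℝ) ^ 4 := by exact_mod_cast h1
    have h4 := Real.log_lt_log (by have := hpos i; positivity) h3
    rw [Real.log_pow, Real.log_pow] at h4
    exact_mod_cast h4
  have hL0 : Real.log 2 ≤ L 0 := by
    apply Real.log_le_log (by norm_num)
    exact_mod_cast h2 _ (hmem 0)
  have hlog2 : 0 < Real.log 2 := Real.log_pos (by norm_num)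
  have s0 := step 0 1 (by decide)
  have s1 := step 1 2 (by decide)
  have s2 := step 2 3 (by decide)
  have s3 := step 3 4 (by decide)
  have s4 := step 4 5 (by decide)
  have s5 := step 5 6 (by decide)
  have s6 := step 6 7 (by decide)
  have s7 := step 7 8 (by decide)
  have s8 := step 8 9 (by decide)
  have s9 := step 9 10 (by decide)
  have s10 := step 10 11 (by decide)
  have s11 := step 11 12 (by decide)
  have h7 : 34 * Real.log 2 ≤ L 7 := by linarith
  have h7' : 2 ^ 34 ≤ e 7 := by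
    have h8 : Real.log ((2 : ℝ) ^ 34) ≤ Real.log (e 7) := by
      rw [Real.log_pow]
      exact_mod_cast h7
    have h9 := (Real.log_le_log_iff (by positivity) (hpos 7)).1 h8
    exact_mod_cast h9
  have h12 := hfar _ (hmem 7) _ (hmem 12) (hlt 7 12 (by decide)) h7'
  have h13 : ((e 12 : ℝ)) < (e 7 : ℝ) ^ 16 := by exact_mod_cast h12
  have h14 := Real.log_lt_log (hpos 12) h13
  rw [Real.log_pow] at h14
  have h15 : L 12 < 16 * L 7 := by exact_mod_cast h14
  linarith

lemma Phi_pos (l q : ℕ) (hl : 0 < l) : 0 < Phi l q := by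
  unfold Phi
  calc 0 < q ^ 0 := by simp
    _ ≤ ∑ i ∈ range l, q ^ i :=
      Finset.single_le_sum (f := fun i => q ^ i) (fun _ _ => Nat.zero_le _)
        (Finset.mem_range.2 hl)

lemma Phi_ge (l q : ℕ) (hl : 0 < l) : q ^ (l - 1) ≤ Phi l q := by
  unfold Phi
  exact Finset.single_le_sum (f := fun i => q ^ i) (fun _ _ => Nat.zero_le _)
        (Finset.mem_range.2 (by omega))

lemma Phi_mono (l : ℕ) {a b : ℕ} (h : a ≤ b) : Phi l a ≤ Phi l b := by
  unfold Phi
  exact Finset.sum_le_sum (fun i _ => Nat.pow_le_pow_left h i)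

/-- Roots of unity modulo powers of a prime are determined modulo the prime. -/
lemma lift_dvd {l t y q1 q2 : ℕ} (hl : l.Prime) (ht : t.Prime) (htl : t ≠ l)
    (h1 : t ^ y ∣ Phi l q1) (h2 : t ^ y ∣ Phi l q2) (h : q1 % t = q2 % t) (hy : t ∣ Phi l q2) :
    ((t ^ y : ℕ) : ℤ) ∣ (q1 : ℤ) - q2 := by
  have key : ∀ q : ℕ, t ^ y ∣ Phi l q → ((t ^ y : ℕ) : ℤ) ∣ (q : ℤ) ^ l - 1 := by
    intro q hq
    have h3 : (∑ i ∈ range l, (q : ℤ) ^ i) * ((q : ℤ) - 1) = (q : ℤ) ^ l - 1 := geom_sum_mul _ _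
    rw [← h3]
    apply Dvd.dvd.mul_right
    have : ((Phi l q : ℕ) : ℤ) = ∑ i ∈ range l, (q : ℤ) ^ i := by
      unfold Phi
      push_cast
      rfl
    rw [← this]
    exact_mod_cast hq
  have h3 : ((t ^ y : ℕ) : ℤ) ∣ (q1 : ℤ) ^ l - (q2 : ℤ) ^ l := by
    have := dvd_sub (key q1 h1) (key q2 h2)
    simpa using this
  rw [← geom_sum₂_mul] at h3
  have hcop : IsCoprime ((t ^ y : ℕ) : ℤ)
      (∑ i ∈ range l, (q1 : ℤ) ^ i * (q2 : ℤ) ^ (l - 1 - i)) := by
    push_cast
    apply IsCoprime.pow_left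
    have htp : Prime (t : ℤ) := Nat.prime_iff_prime_int.1 ht
    rw [(Int.prime_iff_natAbs_prime.2 (by simpa using ht) : Prime (t : ℤ)).coprime_iff_not_dvd]
    intro hd
    haveI := Fact.mk ht
    have e1 : (((∑ i ∈ range l, (q1 : ℤ) ^ i * (q2 : ℤ) ^ (l - 1 - i)) : ℤ) : ZMod t) = 0 :=
      (ZMod.intCast_zmod_eq_zero_iff_dvd _ t).2 hd
    have e2 : (q1 : ZMod t) = (q2 : ZMod t) := by
      rw [ZMod.natCast_eq_natCast_iff']
      exact h
    push_cast at e1
    rw [e2] at e1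
    have e3 : ∀ i ∈ range l, (q2 : ZMod t) ^ i * (q2 : ZMod t) ^ (l - 1 - i) =
        (q2 : ZMod t) ^ (l - 1) := by
      intro i hi
      rw [Finset.mem_range] at hi
      rw [← pow_add]
      congr 1
      omega
    rw [Finset.sum_congr rfl e3, Finset.sum_const, Finset.card_range, nsmul_eq_mul] at e1
    rcases mul_eq_zero.1 e1 with h4 | h4
    · rw [ZMod.natCast_eq_zero_iff] at h4
      exact htl ((Nat.prime_dvd_prime_iff_eq ht hl).1 h4)
    · have h5 : (q2 : ZMod t) = 0 := by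
        by_contra hne
        exact (pow_ne_zero _ hne) h4
      have h6 : ((Phi l q2 : ℕ) : ZMod t) = 0 := (ZMod.natCast_eq_zero_iff _ _).2 hy
      unfold Phi at h6
      push_cast at h6
      rw [h5] at h6
      obtain ⟨k, hk⟩ : ∃ k, l = k + 1 := ⟨l - 1, by have := hl.pos; omega⟩
      rw [hk, Finset.sum_range_succ'] at h6
      simp at h6
  exact hcop.dvd_of_dvd_mul_left h3

/-- Exponent of `t` in `Phi l q`. -/
noncomputable def xv (l q t : ℕ) : ℕ := (Phi l q).factorization t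

/-- The common part. -/
noncomputable def Tm (l : ℕ) (B : Finset ℕ) (m q1 q2 : ℕ) : ℕ :=
  ∏ t ∈ B, t ^ (min (xv l q2 t) (m * xv l q1 t))

/-- Residue part of the class of `q`. -/
noncomputable def rho (l q t : ℕ) : ℕ := if t ∣ Phi l q then q % t else 1

/-- Profile part of the class of `q`. -/
noncomputable def prof (l s q t : ℕ) : ℕ := Nat.log (Phi l q) (t ^ (8 * s * xv l q t))

section

variable {l : ℕ} (hl : l.Prime) (hl2 : l ≠ 2) (B : Finset ℕ) (hB : ∀ t ∈ B, t.Prime ∧ t ≠ l)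

include hl

lemma Phi_eq {q : ℕ} (hq : ∀ t, t.Prime → t ∣ Phi l q → t ∈ B) :
    ∏ t ∈ B, t ^ xv l q t = Phi l q := by
  have h0 := (Phi_pos l q hl.pos).ne'
  have h1 := Nat.prod_factorization_pow_eq_self h0
  conv_rhs => rw [← h1]
  rw [Finsupp.prod]
  symm
  apply Finset.prod_subset
  · intro t ht
    rw [Nat.support_factorization, Nat.mem_primeFactors] at ht
    exact hq t ht.1 ht.2.1
  · intro t _ ht
    rw [Finsupp.notMem_support_iff] at ht
    rw [ht, pow_zero]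

include hB

omit hl in
lemma Tm_pos (m q1 q2 : ℕ) : 0 < Tm l B m q1 q2 :=
  Finset.prod_pos (fun t ht => Nat.pow_pos (hB t ht).1.pos)

lemma Tm_coprime (m q1 q2 : ℕ) : Nat.Coprime l (Tm l B m q1 q2) := by
  unfold Tm
  apply Nat.Coprime.prod_right
  intro t ht
  apply Nat.Coprime.pow_right
  exact (Nat.coprime_primes hl (hB t ht).1).2 (fun h => (hB t ht).2 h.symm)

omit hB in
lemma Tm_dvd_Phi {m q1 q2 : ℕ} (hq : ∀ t, t.Prime → t ∣ Phi l q2 → t ∈ B) :
    Tm l B m q1 q2 ∣ Phi l q2 := by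
  rw [← Phi_eq hl B hq]
  unfold Tm
  apply Finset.prod_dvd_prod_of_dvd
  intro t _
  exact pow_dvd_pow _ (min_le_left _ _)

lemma Tm_dvd_diff {m q1 q2 : ℕ} (hm : 1 ≤ m) (hrho : ∀ t ∈ B, rho l q1 t = rho l q2 t) :
    ((Tm l B m q1 q2 : ℕ) : ℤ) ∣ ((q1 : ℤ) - q2) ^ m := by
  unfold Tm
  push_cast
  apply Finset.prod_dvd_of_coprime
  · intro a ha b hb hab
    have h1 := (hB a ha).1
    have h2 := (hB b hb).1
    apply IsCoprime.pow
    have h3 : Nat.Coprime a b := (Nat.coprime_primes h1 h2).2 hab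
    exact Nat.isCoprime_iff_coprime.2 h3
  · intro t ht
    obtain ⟨htp, htl⟩ := hB t ht
    have h0 : ∀ q, Phi l q ≠ 0 := fun q => (Phi_pos l q hl.pos).ne'
    by_cases hz : min (xv l q2 t) (m * xv l q1 t) = 0
    · rw [hz, pow_zero]
      exact one_dvd _
    · have hx1 : xv l q1 t ≠ 0 := by
        intro h; rw [h] at hz; simp at hz
      have hx2 : xv l q2 t ≠ 0 := by
        intro h; rw [h] at hz; simp at hz
      have hd1 : t ∣ Phi l q1 := Nat.dvd_of_factorization_pos hx1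
      have hd2 : t ∣ Phi l q2 := Nat.dvd_of_factorization_pos hx2
      have hr := hrho t ht
      unfold rho at hr
      rw [if_pos hd1, if_pos hd2] at hr
      have h3 := lift_dvd (y := min (xv l q1 t) (xv l q2 t)) hl htp htl
        ((htp.pow_dvd_iff_le_factorization (h0 q1)).2 (min_le_left _ _))
        ((htp.pow_dvd_iff_le_factorization (h0 q2)).2 (min_le_right _ _)) hr hd2
      have h4 := pow_dvd_pow_of_dvd h3 m
      refine dvd_trans ?_ h4
      push_cast
      rw [← pow_mul]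
      apply pow_dvd_pow
      rcases le_total (xv l q1 t) (xv l q2 t) with h | h
      · rw [min_eq_left h, mul_comm]
        exact min_le_right _ _
      · rw [min_eq_right h]
        refine (min_le_left _ _).trans ?_
        exact Nat.le_mul_of_pos_right _ (by omega)

omit hB in
lemma prof_sum_le {q : ℕ} (hq2 : 2 ≤ q) (hq : ∀ t, t.Prime → t ∣ Phi l q → t ∈ B)
    (hB' : ∀ t ∈ B, 0 < t) :
    ∑ t ∈ B, prof l B.card q t ≤ 8 * B.card := by
  have hP : 1 < Phi l q := by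
    have h1 := Phi_ge l q hl.pos
    have h2 : q ^ 1 ≤ q ^ (l - 1) := Nat.pow_le_pow_right (by omega) (by have := hl.two_le; omega)
    rw [pow_one] at h2
    omega
  have h1 : Phi l q ^ (∑ t ∈ B, prof l B.card q t) ≤ Phi l q ^ (8 * B.card) := by
    rw [← Finset.prod_pow_eq_pow_sum]
    calc ∏ t ∈ B, Phi l q ^ prof l B.card q t ≤ ∏ t ∈ B, t ^ (8 * B.card * xv l q t) := by
          apply Finset.prod_le_prod' 
          intro t ht
          exact Nat.pow_log_le_self _ (Nat.pow_pos (hB' t ht)).ne'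
      _ = (∏ t ∈ B, t ^ xv l q t) ^ (8 * B.card) := by
          rw [← Finset.prod_pow]
          apply Finset.prod_congr rfl
          intro t _
          rw [← pow_mul, mul_comm]
      _ = _ := by rw [Phi_eq hl B hq]
  exact (Nat.pow_le_pow_iff_right hP).1 h1

omit hB in
lemma prof_sum_ge {q : ℕ} (hq2 : 2 ≤ q) (hq : ∀ t, t.Prime → t ∣ Phi l q → t ∈ B) :
    7 * B.card ≤ ∑ t ∈ B, prof l B.card q t := by
  have hP : 1 < Phi l q := by
    have h1 := Phi_ge l q hl.pos
    have h2 : q ^ 1 ≤ q ^ (l - 1) := Nat.pow_le_pow_right (by omega) (by have := hl.two_le; omega)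
    rw [pow_one] at h2
    omega
  have h1 : Phi l q ^ (8 * B.card) ≤ Phi l q ^ (∑ t ∈ B, prof l B.card q t + B.card) := by
    calc Phi l q ^ (8 * B.card) = (∏ t ∈ B, t ^ xv l q t) ^ (8 * B.card) := by
          rw [Phi_eq hl B hq]
      _ = ∏ t ∈ B, t ^ (8 * B.card * xv l q t) := by
          rw [← Finset.prod_pow]
          apply Finset.prod_congr rfl
          intro t _
          rw [← pow_mul, mul_comm]
      _ ≤ ∏ t ∈ B, Phi l q ^ (prof l B.card q t + 1) := by
          apply Finset.prod_le_prod'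
          intro t _
          exact (Nat.lt_pow_succ_log_self hP _).le
      _ = Phi l q ^ (∑ t ∈ B, prof l B.card q t + B.card) := by
          rw [Finset.prod_pow_eq_pow_sum, Finset.sum_add_distrib]
          simp
  have := (Nat.pow_le_pow_iff_right hP).1 h1
  omega

/-- The common part is large. -/
lemma Tm_big {m q1 q2 W : ℕ} (hs : 0 < B.card) (hq12 : 2 ≤ q1)
    (hq1 : ∀ t, t.Prime → t ∣ Phi l q1 → t ∈ B)
    (hprof : ∀ t ∈ B, prof l B.card q1 t = prof l B.card q2 t)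
    (hW1 : W ≤ Phi l q2) (hW2 : W ≤ Phi l q1 ^ m) (hW0 : 0 < W) :
    W ^ 7 ≤ Tm l B m q1 q2 ^ 8 := by
  have h1 : (W ^ 7) ^ B.card ≤ (Tm l B m q1 q2 ^ 8) ^ B.card := by
    calc (W ^ 7) ^ B.card = W ^ (7 * B.card) := by rw [← pow_mul]
      _ ≤ W ^ (∑ t ∈ B, prof l B.card q1 t) :=
          Nat.pow_le_pow_right hW0 (prof_sum_ge hl B hq12 hq1)
      _ = ∏ t ∈ B, W ^ prof l B.card q1 t := by rw [Finset.prod_pow_eq_pow_sum]
      _ ≤ ∏ t ∈ B, t ^ (min (xv l q2 t) (m * xv l q1 t) * (8 * B.card)) := by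
          apply Finset.prod_le_prod'
          intro t ht
          have htp := (hB t ht).1.pos
          have a1 : Phi l q1 ^ prof l B.card q1 t ≤ t ^ (8 * B.card * xv l q1 t) :=
            Nat.pow_log_le_self _ (Nat.pow_pos htp).ne'
          have a2 : Phi l q2 ^ prof l B.card q2 t ≤ t ^ (8 * B.card * xv l q2 t) :=
            Nat.pow_log_le_self _ (Nat.pow_pos htp).ne'
          rcases le_total (xv l q2 t) (m * xv l q1 t) with h | h
          · rw [min_eq_left h, hprof t ht, mul_comm (xv l q2 t)]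
            exact (Nat.pow_le_pow_left hW1 _).trans a2
          · rw [min_eq_right h]
            calc W ^ prof l B.card q1 t ≤ (Phi l q1 ^ m) ^ prof l B.card q1 t :=
                  Nat.pow_le_pow_left hW2 _
              _ = (Phi l q1 ^ prof l B.card q1 t) ^ m := by
                  rw [← pow_mul, ← pow_mul, mul_comm]
              _ ≤ (t ^ (8 * B.card * xv l q1 t)) ^ m := Nat.pow_le_pow_left a1 m
              _ = _ := by rw [← pow_mul]; congr 1; ring
      _ = (Tm l B m q1 q2 ^ 8) ^ B.card := by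
          unfold Tm
          rw [← pow_mul, ← Finset.prod_pow]
          apply Finset.prod_congr rfl
          intro t _
          rw [← pow_mul]
  exact (Nat.pow_le_pow_iff_left hs.ne').1 h1

include hl2

/-- Gap principle. -/
lemma gap {q1 q2 : ℕ} (hs : 0 < B.card) (hq12 : 2 ≤ q1) (hlt : q1 < q2)
    (hq1 : ∀ t, t.Prime → t ∣ Phi l q1 → t ∈ B)
    (hrho : ∀ t ∈ B, rho l q1 t = rho l q2 t)
    (hprof : ∀ t ∈ B, prof l B.card q1 t = prof l B.card q2 t) : q1 ^ 7 < q2 ^ 4 := by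
  have h1 := Tm_dvd_diff hl B hB (m := 1) le_rfl hrho
  rw [pow_one] at h1
  have h2 := Tm_big hl B hB (m := 1) (W := Phi l q1) hs hq12 hq1 hprof (Phi_mono l hlt.le)
    (by rw [pow_one]) (Phi_pos l q1 hl.pos)
  have h3 : Tm l B 1 q1 q2 < q2 := by
    have h4 : ((Tm l B 1 q1 q2 : ℕ) : ℤ) ∣ (q2 : ℤ) - q1 := by
      have := (dvd_neg (a := ((Tm l B 1 q1 q2 : ℕ) : ℤ))).2 h1
      rwa [neg_sub] at this
    have h5 := Int.le_of_dvd (by omega) h4
    omega
  have hl3 : 3 ≤ l := by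
    have := hl.two_le
    omega
  have h6 : q1 ^ 14 ≤ Phi l q1 ^ 7 := by
    calc q1 ^ 14 = (q1 ^ 2) ^ 7 := by rw [← pow_mul]
      _ ≤ (q1 ^ (l - 1)) ^ 7 := Nat.pow_le_pow_left (Nat.pow_le_pow_right (by omega) (by omega)) 7
      _ ≤ _ := Nat.pow_le_pow_left (Phi_ge l q1 hl.pos) 7
  have h7 : Tm l B 1 q1 q2 ^ 8 < q2 ^ 8 := Nat.pow_lt_pow_left h3 (by norm_num)
  have h8 : (q1 ^ 7) ^ 2 < (q2 ^ 4) ^ 2 := by
    have e1 : (q1 ^ 7) ^ 2 = q1 ^ 14 := by rw [← pow_mul]
    have e2 : (q2 ^ 4) ^ 2 = q2 ^ 8 := by rw [← pow_mul]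
    rw [e1, e2]
    omega
  exact lt_of_pow_lt_pow_left₀ 2 (Nat.zero_le _) h8

/-- Large solutions in a class are not too far apart. -/
lemma far {q1 q2 : ℕ} (hs : 0 < B.card) (hlt : q1 < q2) (hq1b : 2 ^ 34 ≤ q1)
    (hq1 : ∀ t, t.Prime → t ∣ Phi l q1 → t ∈ B)
    (hq2 : ∀ t, t.Prime → t ∣ Phi l q2 → t ∈ B)
    (hrho : ∀ t ∈ B, rho l q1 t = rho l q2 t)
    (hprof : ∀ t ∈ B, prof l B.card q1 t = prof l B.card q2 t) : q2 < q1 ^ 16 := by
  by_contra hcon
  push Not at hcon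
  haveI : Fact l.Prime := ⟨hl⟩
  have hq12 : 2 ≤ q1 := le_trans (by norm_num) hq1b
  set M := Nat.log q1 q2 with hM
  have hM1 : q1 ^ M ≤ q2 := Nat.pow_log_le_self q1 (by omega)
  have hM2 : q2 < q1 ^ (M + 1) := Nat.lt_pow_succ_log_self (by omega) q2
  have hM16 : 16 ≤ M := by
    have := (Nat.pow_lt_pow_iff_right (by omega : 1 < q1)).1 (lt_of_le_of_lt hcon hM2)
    omega
  set μ := M / 2 with hμ
  have hμ8 : 8 ≤ μ := by omega
  have hlow : q1 ^ (2 * μ) ≤ q2 := (Nat.pow_le_pow_right (by omega) (by omega)).trans hM1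
  have hup : q2 ≤ q1 ^ (2 * μ + 2) :=
    hM2.le.trans (Nat.pow_le_pow_right (by omega) (by omega))
  have hbig := Tm_big hl B hB (m := 2 * μ) (q2 := q2) (W := (q1 ^ (2 * μ)) ^ (l - 1)) hs hq12 hq1
    hprof (by
      calc (q1 ^ (2 * μ)) ^ (l - 1) ≤ q2 ^ (l - 1) := Nat.pow_le_pow_left hlow _
        _ ≤ _ := Phi_ge l q2 hl.pos) (by
      calc (q1 ^ (2 * μ)) ^ (l - 1) = (q1 ^ (l - 1)) ^ (2 * μ) := by
            rw [← pow_mul, ← pow_mul, mul_comm]
        _ ≤ _ := Nat.pow_le_pow_left (Phi_ge l q1 hl.pos) _) (by positivity)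
  refine main_lemma (l := l) hl2 hμ8 hq1b hlow hup (Tm_pos B hB (2 * μ) q1 q2)
    (Tm_coprime hl B hB _ _ _) (Tm_dvd_Phi hl B hq2)
    (Tm_dvd_diff hl B hB (by omega) hrho) ?_
  refine le_trans (le_of_eq ?_) hbig
  rw [← pow_mul, ← pow_mul]
  congr 1
  ring

end

end Pool.Agent.Lib.MP_f02ea4_nt.Fin
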