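import Mathlib
import Pool.Agent.Lib.MP_f02ea4_nt.FinCount

/-!
The number of classes, and the final count.
-/

set_option autoImplicit false

namespace Pool.Agent.Lib.MP_f02ea4_nt.Fin

open Finset

/-- Functions with bounded sum: at most `24 ^ s` of them. -/
lemma card_profiles (ι : Type*) [Fintype ι] [DecidableEq ι] :
    ((Fintype.piFinset (fun _ : ι => range (8 * Fintype.card ι + 1))).filter
      (fun b => ∑ t, b t ≤ 8 * Fintype.card ι)).card ≤ 24 ^ Fintype.card ι := by
  classical
  set s := Fintype.card ι with hs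
  set W := (Fintype.piFinset (fun _ : ι => range (8 * s + 1))).filter
      (fun b => ∑ t, b t ≤ 8 * s) with hW
  have h1 : (W.card : ℝ) * (8 / 9) ^ (8 * s) ≤ 9 ^ s := by
    calc (W.card : ℝ) * (8 / 9) ^ (8 * s) = ∑ _b ∈ W, ((8 : ℝ) / 9) ^ (8 * s) := by
          rw [Finset.sum_const, nsmul_eq_mul]
      _ ≤ ∑ b ∈ W, ((8 : ℝ) / 9) ^ (∑ t, b t) := by
          apply Finset.sum_le_sum
          intro b hb
          rw [hW, Finset.mem_filter] at hb
          exact pow_le_pow_of_le_one (by norm_num) (by norm_num) hb.2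
      _ ≤ ∑ b ∈ Fintype.piFinset (fun _ : ι => range (8 * s + 1)), ((8 : ℝ) / 9) ^ (∑ t, b t) := by
          apply Finset.sum_le_sum_of_subset_of_nonneg (Finset.filter_subset _ _)
          intro b _ _
          positivity
      _ = ∑ b ∈ Fintype.piFinset (fun _ : ι => range (8 * s + 1)),
            ∏ t, ((8 : ℝ) / 9) ^ (b t) := by
          apply Finset.sum_congr rfl
          intro b _
          rw [Finset.prod_pow_eq_pow_sum]
      _ = ∏ _t : ι, ∑ j ∈ range (8 * s + 1), ((8 : ℝ) / 9) ^ j := by
          rw [Finset.prod_univ_sum]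
      _ ≤ ∏ _t : ι, (9 : ℝ) := by
          apply Finset.prod_le_prod
          · intro t _
            positivity
          · intro t _
            rw [geom_sum_eq (by norm_num)]
            rw [div_le_iff_of_neg (by norm_num)]
            have : (0 : ℝ) ≤ (8 / 9) ^ (8 * s + 1) := by positivity
            linarith
      _ = 9 ^ s := by rw [Finset.prod_const, Finset.card_univ]
  have h2 : (W.card : ℝ) ≤ 24 ^ s := by
    have h3 : (0 : ℝ) < (9 / 8) ^ (8 * s) := by positivity
    calc (W.card : ℝ) = (W.card : ℝ) * (8 / 9) ^ (8 * s) * (9 / 8) ^ (8 * s) := by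
          rw [mul_assoc, ← mul_pow]
          norm_num
      _ ≤ 9 ^ s * (9 / 8) ^ (8 * s) := mul_le_mul_of_nonneg_right h1 h3.le
      _ = (9 * (9 / 8) ^ 8) ^ s := by rw [mul_pow, pow_mul]
      _ ≤ 24 ^ s := by
          apply pow_le_pow_left₀ (by positivity)
          norm_num
  exact_mod_cast h2

/-- At most `l` residues with `x ^ l = 1` modulo a prime. -/
lemma card_residues {l t : ℕ} (hl : 0 < l) (ht : t.Prime) :
    ((range t).filter (fun x => x ^ l % t = 1)).card ≤ l := by
  classical
  have : Fact t.Prime := ⟨ht⟩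
  calc ((range t).filter (fun x => x ^ l % t = 1)).card
      ≤ ((Polynomial.nthRoots l (1 : ZMod t)).toFinset).card := by
        apply Finset.card_le_card_of_injOn (fun x : ℕ => (x : ZMod t))
        · intro x hx
          rw [Finset.mem_coe, Finset.mem_filter] at hx
          rw [Finset.mem_coe, Multiset.mem_toFinset, Polynomial.mem_nthRoots hl]
          have h1 : ((x ^ l : ℕ) : ZMod t) = ((1 : ℕ) : ZMod t) := by
            rw [ZMod.natCast_eq_natCast_iff', hx.2, Nat.mod_eq_of_lt ht.one_lt]
          push_cast at h1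
          exact h1
        · intro x hx y hy hxy
          rw [Finset.mem_coe, Finset.mem_filter, Finset.mem_range] at hx hy
          have h1 := (ZMod.natCast_eq_natCast_iff' x y t).1 hxy
          rwa [Nat.mod_eq_of_lt hx.1, Nat.mod_eq_of_lt hy.1] at h1
    _ ≤ Multiset.card (Polynomial.nthRoots l (1 : ZMod t)) := Multiset.toFinset_card_le _
    _ ≤ l := Polynomial.card_nthRoots l 1

lemma rho_mem {l q t : ℕ} (ht : t.Prime) :
    rho l q t ∈ (range t).filter (fun x => x ^ l % t = 1) := by
  rw [Finset.mem_filter, Finset.mem_range]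
  unfold rho
  split_ifs with h
  · refine ⟨Nat.mod_lt _ ht.pos, ?_⟩
    rw [← Nat.pow_mod]
    have h1 : ((q : ZMod t)) ^ l = 1 := by
      have h2 := geom_sum_mul (q : ZMod t) l
      have h3 : ((Phi l q : ℕ) : ZMod t) = 0 := (ZMod.natCast_eq_zero_iff _ _).2 h
      unfold Phi at h3
      push_cast at h3
      rw [h3, zero_mul] at h2
      exact (sub_eq_zero.1 h2.symm)
    have h4 : ((q ^ l : ℕ) : ZMod t) = ((1 : ℕ) : ZMod t) := by
      push_cast
      exact h1
    rw [ZMod.natCast_eq_natCast_iff', Nat.mod_eq_of_lt ht.one_lt] at h4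
    exact h4
  · refine ⟨ht.one_lt, ?_⟩
    rw [one_pow, Nat.mod_eq_of_lt ht.one_lt]

/-- The number of `q` for which all prime factors of `1 + q + ... + q^(l-1)` lie in a set `B`
of primes different from `l` is at most `12 (24 l)^|B|`. -/
theorem sunit_count {l : ℕ} (hl : l.Prime) (hl2 : l ≠ 2) (B : Finset ℕ)
    (hB : ∀ t ∈ B, t.Prime ∧ t ≠ l) (A : Finset ℕ) (hA2 : ∀ q ∈ A, 2 ≤ q)
    (hA : ∀ q ∈ A, ∀ t, t.Prime → t ∣ Phi l q → t ∈ B) :
    A.card ≤ 12 * (24 * l) ^ B.card := by
  classical
  rcases Nat.eq_zero_or_pos B.card with hs0 | hs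
  · have hAe : A = ∅ := by
      rw [Finset.eq_empty_iff_forall_notMem]
      intro q hq
      have hne : Phi l q ≠ 1 := by
        have h1 := Phi_ge l q hl.pos
        have h2 : q ^ 1 ≤ q ^ (l - 1) :=
          Nat.pow_le_pow_right (by have := hA2 q hq; omega) (by have := hl.two_le; omega)
        rw [pow_one] at h2
        have := hA2 q hq
        omega
      obtain ⟨t, ht, htd⟩ := Nat.exists_prime_and_dvd hne
      have := hA q hq t ht htd
      rw [Finset.card_eq_zero] at hs0
      rw [hs0] at this
      simp at this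
    rw [hAe]
    simp
  · set cls : ℕ → ({x // x ∈ B} → ℕ) × ({x // x ∈ B} → ℕ) :=
      fun q => (fun t => rho l q t.1, fun t => prof l B.card q t.1) with hcls
    have hfib : ∀ c ∈ A.image cls, (A.filter (fun x => cls x = c)).card ≤ 12 := by
      intro c _
      have same : ∀ a ∈ A.filter (fun x => cls x = c), ∀ b ∈ A.filter (fun x => cls x = c),
          (∀ t ∈ B, rho l a t = rho l b t) ∧ (∀ t ∈ B, prof l B.card a t = prof l B.card b t) := by
        intro a ha b hb
        rw [Finset.mem_filter] at ha hb
        have h1 : cls a = cls b := ha.2.trans hb.2.symm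
        rw [hcls] at h1
        simp only [Prod.mk.injEq] at h1
        refine ⟨fun t ht => ?_, fun t ht => ?_⟩
        · exact congrFun h1.1 ⟨t, ht⟩
        · exact congrFun h1.2 ⟨t, ht⟩
      apply card_le_twelve
      · intro q hq
        exact hA2 q (Finset.mem_filter.1 hq).1
      · intro a ha b hb hab
        have h1 := same a ha b hb
        exact gap hl hl2 B hB hs (hA2 a (Finset.mem_filter.1 ha).1) hab
          (hA a (Finset.mem_filter.1 ha).1) h1.1 h1.2
      · intro a ha b hb hab hbig
        have h1 := same a ha b hb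
        exact far hl hl2 B hB hs hab hbig (hA a (Finset.mem_filter.1 ha).1)
          (hA b (Finset.mem_filter.1 hb).1) h1.1 h1.2
    have h1 := Finset.card_le_mul_card_image A 12 hfib
    have hcardB : Fintype.card {x // x ∈ B} = B.card := Fintype.card_coe B
    have h2 : (A.image cls) ⊆
        (Fintype.piFinset (fun t : {x // x ∈ B} => (range t.1).filter (fun x => x ^ l % t.1 = 1)))
        ×ˢ ((Fintype.piFinset (fun _ : {x // x ∈ B} =>
            range (8 * Fintype.card {x // x ∈ B} + 1))).filter
          (fun b => ∑ t, b t ≤ 8 * Fintype.card {x // x ∈ B})) := by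
      intro c hc
      rw [Finset.mem_image] at hc
      obtain ⟨q, hq, rfl⟩ := hc
      have hsum : ∑ t : {x // x ∈ B}, prof l B.card q t.1 ≤ 8 * B.card := by
        have e : ∑ t : {x // x ∈ B}, prof l B.card q t.1 = ∑ t ∈ B, prof l B.card q t :=
          Finset.sum_coe_sort B (fun t => prof l B.card q t)
        rw [e]
        exact prof_sum_le hl B (hA2 q hq) (hA q hq) (fun t ht => (hB t ht).1.pos)
      rw [Finset.mem_product]
      refine ⟨?_, ?_⟩
      · rw [Fintype.mem_piFinset]
        intro t
        exact rho_mem (hB t.1 t.2).1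
      · rw [Finset.mem_filter, Fintype.mem_piFinset, hcardB]
        refine ⟨?_, hsum⟩
        intro t
        rw [Finset.mem_range, Nat.lt_succ_iff]
        exact (Finset.single_le_sum (f := fun t : {x // x ∈ B} => prof l B.card q t.1)
          (fun _ _ => Nat.zero_le _) (Finset.mem_univ t)).trans hsum
    have h3 := Finset.card_le_card h2
    rw [Finset.card_product] at h3
    have h4 : (Fintype.piFinset (fun t : {x // x ∈ B} =>
        (range t.1).filter (fun x => x ^ l % t.1 = 1))).card ≤ l ^ B.card := by
      rw [Fintype.card_piFinset]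
      calc ∏ t : {x // x ∈ B}, ((range t.1).filter (fun x => x ^ l % t.1 = 1)).card
          ≤ ∏ _t : {x // x ∈ B}, l :=
            Finset.prod_le_prod' (fun t _ => card_residues hl.pos (hB t.1 t.2).1)
        _ = l ^ B.card := by rw [Finset.prod_const, Finset.card_univ, hcardB]
    have h5 := card_profiles {x // x ∈ B}
    rw [hcardB] at h5 h3
    calc A.card ≤ 12 * (A.image cls).card := h1
      _ ≤ 12 * (l ^ B.card * 24 ^ B.card) :=
          Nat.mul_le_mul_left _ (h3.trans (Nat.mul_le_mul h4 h5))
      _ = 12 * (24 * l) ^ B.card := by rw [mul_pow, mul_comm (l ^ _)]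

end Pool.Agent.Lib.MP_f02ea4_nt.Fin
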