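import Mathlib
import Pool.Agent.Lib.MP_f02ea4_nt.FinClass
import Pool.Agent.Lib.MP_f02ea4_nt.Mg.G005
import Pool.Agent.Lib.MP_f02ea4_nt.Mg.G002

/-!
Application to odd perfect numbers.
-/

set_option autoImplicit false

namespace Pool.Agent.Lib.MP_f02ea4_nt.Fin

open Finset Pool.Agent.Lib.MP_f02ea4_nt.Rad

/-- Prime factors of `1 + q + ... + q^(l-1)`. -/
lemma prime_dvd_Phi {l t q : ℕ} (hl : l.Prime) (ht : t.Prime) (h : t ∣ Phi l q) :
    (t = l ∧ q % l = 1) ∨ t % l = 1 := by
  have : Fact t.Prime := ⟨ht⟩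
  have h0 : ∑ i ∈ range l, (q : ZMod t) ^ i = 0 := by
    have := (ZMod.natCast_eq_zero_iff (Phi l q) t).2 h
    unfold Phi at this
    push_cast at this
    exact this
  have hpow : (q : ZMod t) ^ l = 1 := by
    have h2 := geom_sum_mul (q : ZMod t) l
    rw [h0, zero_mul] at h2
    exact (sub_eq_zero.1 h2.symm)
  by_cases h1 : (q : ZMod t) = 1
  · left
    rw [h1] at h0
    simp only [one_pow, Finset.sum_const, Finset.card_range, nsmul_eq_mul, mul_one] at h0
    rw [ZMod.natCast_eq_zero_iff] at h0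
    have h2 : t = l := (Nat.prime_dvd_prime_iff_eq ht hl).1 h0
    subst h2
    refine ⟨rfl, ?_⟩
    have h3 : ((q : ℕ) : ZMod t) = ((1 : ℕ) : ZMod t) := by
      push_cast
      exact h1
    rw [ZMod.natCast_eq_natCast_iff', Nat.mod_eq_of_lt ht.one_lt] at h3
    exact h3
  · right
    have : Fact l.Prime := ⟨hl⟩
    have hord : orderOf (q : ZMod t) = l := orderOf_eq_prime hpow h1
    have hne : (q : ZMod t) ≠ 0 := by
      intro h2
      rw [h2, zero_pow hl.ne_zero] at hpow
      exact zero_ne_one hpow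
    have hd := ZMod.orderOf_dvd_card_sub_one hne
    rw [hord] at hd
    obtain ⟨k, hk⟩ := hd
    have h2 : t = l * k + 1 := by
      have := ht.two_le
      omega
    rw [h2, Nat.mul_add_mod, Nat.mod_eq_of_lt hl.one_lt]

lemma Phi_dvd_sg {l q e : ℕ} (h : l ∣ e + 1) : Phi l q ∣ sg q e := by
  obtain ⟨k, hk⟩ := h
  unfold sg Phi
  rw [hk]
  refine ⟨∑ j ∈ range k, (q ^ l) ^ j, ?_⟩
  have key : ∀ k : ℕ, ∑ i ∈ range (l * k), q ^ i =
      (∑ i ∈ range l, q ^ i) * ∑ j ∈ range k, (q ^ l) ^ j := by
    intro k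
    induction k with
    | zero => simp
    | succ k ih =>
      rw [Nat.mul_succ, Finset.sum_range_add, ih, Finset.sum_range_succ, mul_add]
      congr 1
      rw [Finset.sum_mul]
      apply Finset.sum_congr rfl
      intro i _
      rw [pow_add, pow_mul]
      ring
  exact key k

section

variable {N l : ℕ} (hodd : Odd N) (hperf : N.Perfect) (hl : l.Prime) (hl2 : l ≠ 2)

include hodd hperf

omit hodd in
lemma prime_dvd_N {q t : ℕ} (hq : q ∈ N.primeFactors) (ht : t.Prime) (ht2 : t ≠ 2)
    (h : t ∣ sg q (N.factorization q)) : t ∈ N.primeFactors := by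
  have h1 : t ∣ 2 * N := by
    rw [← perfect_eq hperf]
    exact dvd_trans h (Finset.dvd_prod_of_mem (fun q => sg q (N.factorization q)) hq)
  rw [Nat.mem_primeFactors]
  refine ⟨ht, ?_, hperf.2.ne'⟩
  rcases (Nat.Prime.dvd_mul ht).1 h1 with h2 | h2
  · exact absurd ((Nat.prime_dvd_prime_iff_eq ht Nat.prime_two).1 h2) ht2
  · exact h2

include hl hl2

omit hodd in
lemma card_ord_le :
    (N.primeFactors.filter (fun q => q % l = 1 ∧ l ∣ N.factorization q + 1)).card ≤
      N.factorization l := by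
  set D := N.primeFactors.filter (fun q => q % l = 1 ∧ l ∣ N.factorization q + 1) with hD
  have h1 : l ^ D.card ∣ 2 * N := by
    rw [← perfect_eq hperf]
    refine dvd_trans ?_ (Finset.prod_dvd_prod_of_subset D N.primeFactors _
      (Finset.filter_subset _ _))
    rw [← Finset.prod_const]
    apply Finset.prod_dvd_prod_of_dvd
    intro q hq
    rw [hD, Finset.mem_filter] at hq
    refine dvd_trans ?_ (Phi_dvd_sg hq.2.2)
    have : Fact l.Prime := ⟨hl⟩
    rw [← ZMod.natCast_eq_zero_iff]
    unfold Phi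
    push_cast
    have h3 : ((q : ℕ) : ZMod l) = ((1 : ℕ) : ZMod l) := by
      rw [ZMod.natCast_eq_natCast_iff', Nat.mod_eq_of_lt hl.one_lt]
      exact hq.2.1
    rw [h3]
    simp
  have h2 : Nat.Coprime (l ^ D.card) 2 :=
    Nat.Coprime.pow_left _ ((Nat.coprime_primes hl Nat.prime_two).2 hl2)
  have h3 : l ^ D.card ∣ N := h2.dvd_of_dvd_mul_left h1
  exact (hl.pow_dvd_iff_le_factorization hperf.2.ne').1 h3

lemma card_K_le :
    (N.primeFactors.filter (fun q => q % l = 1 ∨ ¬ l ∣ N.factorization q + 1)).card ≤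
      (N.primeFactors.filter (fun q => ¬ l ∣ N.factorization q + 1)).card + N.factorization l := by
  classical
  refine le_trans ?_ (Nat.add_le_add_left (card_ord_le hperf hl hl2) _)
  refine le_trans (Finset.card_le_card ?_) (Finset.card_union_le _ _)
  intro q hq
  rw [Finset.mem_filter] at hq
  rw [Finset.mem_union, Finset.mem_filter, Finset.mem_filter]
  tauto

lemma card_A_le :
    (N.primeFactors.filter (fun q => ¬ q % l = 1 ∧ l ∣ N.factorization q + 1)).card ≤
      12 * (24 * l) ^ (N.primeFactors.filter (fun t => t % l = 1)).card := by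
  apply sunit_count hl hl2
  · intro t ht
    rw [Finset.mem_filter] at ht
    refine ⟨Nat.prime_of_mem_primeFactors ht.1, ?_⟩
    intro h
    rw [h, Nat.mod_self] at ht
    exact absurd ht.2 (by norm_num)
  · intro q hq
    exact (Nat.prime_of_mem_primeFactors (Finset.mem_filter.1 hq).1).two_le
  · intro q hq t ht htd
    rw [Finset.mem_filter] at hq
    have h1 : t % l = 1 := by
      rcases prime_dvd_Phi hl ht htd with h | h
      · exact absurd h.2 hq.2.1
      · exact h
    rw [Finset.mem_filter]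
    refine ⟨prime_dvd_N hperf hq.1 ht ?_ (dvd_trans htd (Phi_dvd_sg hq.2.2)), h1⟩
    rintro rfl
    have hl3 : 2 < l := by
      have := hl.two_le
      omega
    rw [Nat.mod_eq_of_lt hl3] at h1
    omega

lemma omega_le :
    N.primeFactors.card ≤ 13 * (24 * l) ^
      (N.primeFactors.filter (fun q => q % l = 1 ∨ ¬ l ∣ N.factorization q + 1)).card := by
  classical
  set K := N.primeFactors.filter (fun q => q % l = 1 ∨ ¬ l ∣ N.factorization q + 1) with hK
  have h1 := card_A_le hodd hperf hl hl2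
  have h2 : (N.primeFactors.filter (fun t => t % l = 1)).card ≤ K.card := by
    apply Finset.card_le_card
    intro q hq
    rw [hK]
    rw [Finset.mem_filter] at *
    exact ⟨hq.1, Or.inl hq.2⟩
  have hlpos := hl.pos
  have h3 : 12 * (24 * l) ^ (N.primeFactors.filter (fun t => t % l = 1)).card ≤
      12 * (24 * l) ^ K.card :=
    Nat.mul_le_mul_left _ (Nat.pow_le_pow_right (by omega) h2)
  have h4 : K.card ≤ (24 * l) ^ K.card := (Nat.lt_pow_self (by omega)).le
  have h5 : N.primeFactors.card ≤ K.card +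
      (N.primeFactors.filter (fun q => ¬ q % l = 1 ∧ l ∣ N.factorization q + 1)).card := by
    refine le_trans (Finset.card_le_card ?_) (Finset.card_union_le _ _)
    intro q hq
    rw [Finset.mem_union, hK, Finset.mem_filter, Finset.mem_filter]
    tauto
  omega

/-- The final bound. -/
theorem few_exceptions :
    (N.primeFactors.filter (fun q => q % l = 1 ∨ ¬ l ∣ N.factorization q + 1)).card ≤
      (N.primeFactors.filter (fun q => ¬ l ∣ N.factorization q + 1)).card + N.factorization l ∧
    N < 2 ^ 4 ^ (13 * (24 * l) ^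
      (N.primeFactors.filter (fun q => q % l = 1 ∨ ¬ l ∣ N.factorization q + 1)).card) := by
  refine ⟨card_K_le hodd hperf hl hl2, ?_⟩
  have hup := Pool.Agent.Lib.MP_f02ea4_nt.EqUpper.upper N hodd hperf
  have h1 := omega_le hodd hperf hl hl2
  set k := 13 * (24 * l) ^
      (N.primeFactors.filter (fun q => q % l = 1 ∨ ¬ l ∣ N.factorization q + 1)).card with hk
  have h2 : (4 : ℕ) ^ N.primeFactors.card ≤ 4 ^ k := Nat.pow_le_pow_right (by norm_num) h1
  have h3 : N ^ 8 < (2 ^ 4 ^ k) ^ 8 := by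
    calc N ^ 8 < 2 ^ (7 * 4 ^ N.primeFactors.card) := hup
      _ ≤ 2 ^ (4 ^ k * 8) := Nat.pow_le_pow_right (by norm_num) (by omega)
      _ = _ := by rw [pow_mul]
  exact lt_of_pow_lt_pow_left₀ 8 (Nat.zero_le _) h3

end

end Pool.Agent.Lib.MP_f02ea4_nt.Fin
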