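import Mathlib
import Pool.Agent.Lib.MP_f02ea4_nt.FinApp

/-!
Several primes `l` at once: an odd perfect number `N` has at most
`K0 + sum over l in L of 12 (24 l) ^ b_l` prime factors, where `b_l` is the number of prime factors
`1` modulo `l` and `K0` the number of prime factors `q` such that no `l` in `L` satisfies
`l ∣ e_q + 1` and `q ≠ 1` modulo `l`.
-/

set_option autoImplicit false

namespace Pool.Agent.Lib.MP_f02ea4_nt.Fin

open Finset Pool.Agent.Lib.MP_f02ea4_nt.Rad

theorem omega_multi {N : ℕ} (hodd : Odd N) (hperf : N.Perfect) (L : Finset ℕ)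
    (hL : ∀ l ∈ L, l.Prime ∧ l ≠ 2) :
    N.primeFactors.card ≤
      (N.primeFactors.filter (fun q => ∀ l ∈ L, q % l = 1 ∨ ¬ l ∣ N.factorization q + 1)).card +
      ∑ l ∈ L, 12 * (24 * l) ^ (N.primeFactors.filter (fun t => t % l = 1)).card := by
  classical
  have h1 : N.primeFactors ⊆
      (N.primeFactors.filter (fun q => ∀ l ∈ L, q % l = 1 ∨ ¬ l ∣ N.factorization q + 1)) ∪
      L.biUnion (fun l => N.primeFactors.filter
        (fun q => ¬ q % l = 1 ∧ l ∣ N.factorization q + 1)) := by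
    intro q hq
    rw [Finset.mem_union, Finset.mem_filter, Finset.mem_biUnion]
    by_cases h : ∀ l ∈ L, q % l = 1 ∨ ¬ l ∣ N.factorization q + 1
    · exact Or.inl ⟨hq, h⟩
    · right
      push Not at h
      obtain ⟨l, hl, h2, h3⟩ := h
      exact ⟨l, hl, Finset.mem_filter.2 ⟨hq, h2, h3⟩⟩
  refine le_trans (Finset.card_le_card h1) (le_trans (Finset.card_union_le _ _) ?_)
  refine Nat.add_le_add_left (le_trans Finset.card_biUnion_le ?_) _
  apply Finset.sum_le_sum
  intro l hl
  exact card_A_le hodd hperf (hL l hl).1 (hL l hl).2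

lemma two_le_prod {S : Finset ℕ} {f : ℕ → ℕ} (hS : S.Nonempty) (hf : ∀ x ∈ S, 2 ≤ f x) :
    2 ≤ ∏ x ∈ S, f x := by
  obtain ⟨a, ha⟩ := hS
  calc 2 ≤ f a := hf a ha
    _ ≤ ∏ x ∈ S, f x := Finset.single_le_prod' (f := f) (fun i hi => le_trans (by norm_num) (hf i hi)) ha

lemma sum_le_prod {S : Finset ℕ} {f : ℕ → ℕ} (hf : ∀ x ∈ S, 2 ≤ f x) :
    ∑ x ∈ S, f x ≤ ∏ x ∈ S, f x := by
  classical
  induction S using Finset.induction_on with
  | empty => simp
  | insert a S ha ih =>
    rw [Finset.sum_insert ha, Finset.prod_insert ha]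
    have h1 : 2 ≤ f a := hf a (Finset.mem_insert_self a S)
    have h2 : ∀ x ∈ S, 2 ≤ f x := fun x hx => hf x (Finset.mem_insert_of_mem hx)
    have h3 := ih h2
    rcases S.eq_empty_or_nonempty with h | h
    · subst h
      simp
    · have h4 := two_le_prod h h2
      nlinarith

/-- The bound for an odd modulus `M`. -/
theorem few_exceptions_mod {N M K : ℕ} (hodd : Odd N) (hperf : N.Perfect) (hM : Odd M)
    (hK : (N.primeFactors.filter (fun q =>
      ¬ (1 < (N.factorization q + 1).gcd M ∧ (q - 1).gcd M = 1))).card ≤ K) :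
    N < 2 ^ 4 ^ (13 * (24 * M) ^ K) := by
  classical
  set E := N.primeFactors.filter (fun q =>
      ¬ (1 < (N.factorization q + 1).gcd M ∧ (q - 1).gcd M = 1)) with hE
  have hM0 : M ≠ 0 := by
    rintro rfl
    exact absurd hM (by decide)
  have hMpos : 0 < M := Nat.pos_of_ne_zero hM0
  set L := M.primeFactors with hLdef
  have hL : ∀ l ∈ L, l.Prime ∧ l ≠ 2 := by
    intro l hl
    refine ⟨Nat.prime_of_mem_primeFactors hl, ?_⟩
    rintro rfl
    have := Nat.dvd_of_mem_primeFactors hl
    rw [← even_iff_two_dvd] at this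
    exact (Nat.not_even_iff_odd.2 hM) this
  -- primes one modulo `l` are exceptional
  have hb : ∀ l ∈ L, N.primeFactors.filter (fun t => t % l = 1) ⊆ E := by
    intro l hl q hq
    rw [Finset.mem_filter] at hq
    rw [hE, Finset.mem_filter]
    refine ⟨hq.1, ?_⟩
    rintro ⟨-, h2⟩
    have hq1 : 1 ≤ q := (Nat.prime_of_mem_primeFactors hq.1).one_le
    have h3 : l ∣ q - 1 := by
      rw [← Nat.modEq_iff_dvd' hq1]
      show 1 % l = q % l
      rw [hq.2, Nat.mod_eq_of_lt (hL l hl).1.one_lt]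
    have h4 : l ∣ (q - 1).gcd M := Nat.dvd_gcd h3 (Nat.dvd_of_mem_primeFactors hl)
    rw [h2] at h4
    exact (hL l hl).1.one_lt.ne' (Nat.dvd_one.1 h4)
  have hK0 : N.primeFactors.filter (fun q => ∀ l ∈ L, q % l = 1 ∨
      ¬ l ∣ N.factorization q + 1) ⊆ E := by
    intro q hq
    rw [Finset.mem_filter] at hq
    rw [hE, Finset.mem_filter]
    refine ⟨hq.1, ?_⟩
    rintro ⟨h1, h2⟩
    obtain ⟨l, hl, hld⟩ := Nat.exists_prime_and_dvd (n := (N.factorization q + 1).gcd M)
      (by omega)
    have hlM : l ∣ M := hld.trans (Nat.gcd_dvd_right _ _)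
    have hlL : l ∈ L := Nat.mem_primeFactors.2 ⟨hl, hlM, hM0⟩
    rcases hq.2 l hlL with h3 | h3
    · have h4 := hb l hlL (Finset.mem_filter.2 ⟨hq.1, h3⟩)
      rw [hE, Finset.mem_filter] at h4
      exact h4.2 ⟨h1, h2⟩
    · exact h3 (hld.trans (Nat.gcd_dvd_left _ _))
  have hom := omega_multi hodd hperf L hL
  -- `K` is positive
  have hKpos : 1 ≤ K := by
    refine le_trans ?_ hK
    rw [Nat.succ_le_iff, Finset.card_pos]
    by_contra hemp
    rw [Finset.not_nonempty_iff_eq_empty] at hemp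
    have hN1 : N ≠ 1 := by
      rintro rfl
      have := hperf.1
      simp at this
    obtain ⟨q, hq, hqN⟩ := Nat.exists_prime_and_dvd hN1
    have hqm : q ∈ N.primeFactors := Nat.mem_primeFactors.2 ⟨hq, hqN, hperf.2.ne'⟩
    have hqE : q ∉ E := by
      rw [hemp]
      exact Finset.notMem_empty q
    rw [hE, Finset.mem_filter] at hqE
    push Not at hqE
    obtain ⟨h1, h2⟩ := hqE hqm
    obtain ⟨l, hl, hld⟩ := Nat.exists_prime_and_dvd (n := (N.factorization q + 1).gcd M)
      (by omega)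
    have hlM : l ∣ M := hld.trans (Nat.gcd_dvd_right _ _)
    have hlL : l ∈ L := Nat.mem_primeFactors.2 ⟨hl, hlM, hM0⟩
    have hP : Phi l q ≠ 1 := by
      unfold Phi
      have h5 : ∑ i ∈ range 2, q ^ i ≤ ∑ i ∈ range l, q ^ i :=
        Finset.sum_le_sum_of_subset (by
          intro x hx
          rw [Finset.mem_range] at *
          have := hl.two_le
          omega)
      have h6 : ∑ i ∈ range 2, q ^ i = 1 + q := by
        simp [Finset.sum_range_succ]
      have := hq.two_le
      omega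
    obtain ⟨t, ht, htd⟩ := Nat.exists_prime_and_dvd hP
    have ht1 : t % l = 1 := by
      rcases prime_dvd_Phi hl ht htd with h | h
      · exfalso
        have h4 := hb l hlL (Finset.mem_filter.2 ⟨hqm, h.2⟩)
        rw [hemp] at h4
        exact Finset.notMem_empty q h4
      · exact h
    have ht2 : t ≠ 2 := by
      rintro rfl
      have h3 := (hL l hlL).2
      have h4 := hl.two_le
      rw [Nat.mod_eq_of_lt (by omega)] at ht1
      omega
    have htN : t ∈ N.primeFactors := prime_dvd_N hperf hqm ht ht2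
      (dvd_trans htd (Phi_dvd_sg (hld.trans (Nat.gcd_dvd_left _ _))))
    have h4 := hb l hlL (Finset.mem_filter.2 ⟨htN, ht1⟩)
    rw [hemp] at h4
    exact Finset.notMem_empty t h4
  have h1 : (N.primeFactors.filter (fun q => ∀ l ∈ L, q % l = 1 ∨
      ¬ l ∣ N.factorization q + 1)).card ≤ K := (Finset.card_le_card hK0).trans hK
  have h2 : ∑ l ∈ L, 12 * (24 * l) ^ (N.primeFactors.filter (fun t => t % l = 1)).card ≤
      12 * (24 * M) ^ K := by
    calc ∑ l ∈ L, 12 * (24 * l) ^ (N.primeFactors.filter (fun t => t % l = 1)).card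
        ≤ ∑ l ∈ L, 12 * 24 ^ K * l ^ K := by
          apply Finset.sum_le_sum
          intro l hl
          have h3 : (N.primeFactors.filter (fun t => t % l = 1)).card ≤ K :=
            (Finset.card_le_card (hb l hl)).trans hK
          have h4 : 0 < l := (hL l hl).1.pos
          rw [mul_assoc, ← mul_pow]
          exact Nat.mul_le_mul_left _ (Nat.pow_le_pow_right (by omega) h3)
      _ = 12 * 24 ^ K * ∑ l ∈ L, l ^ K := by rw [Finset.mul_sum]
      _ ≤ 12 * 24 ^ K * ∏ l ∈ L, l ^ K := by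
          apply Nat.mul_le_mul_left
          apply sum_le_prod
          intro l hl
          calc 2 ≤ l := (hL l hl).1.two_le
            _ = l ^ 1 := (pow_one l).symm
            _ ≤ l ^ K := Nat.pow_le_pow_right (hL l hl).1.pos hKpos
      _ ≤ 12 * 24 ^ K * M ^ K := by
          apply Nat.mul_le_mul_left
          rw [Finset.prod_pow]
          exact Nat.pow_le_pow_left (Nat.le_of_dvd hMpos (Nat.prod_primeFactors_dvd M)) K
      _ = 12 * (24 * M) ^ K := by rw [mul_pow]; ring
  have h3 : K ≤ (24 * M) ^ K := (Nat.lt_pow_self (by omega)).le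
  have h4 : N.primeFactors.card ≤ 13 * (24 * M) ^ K := by omega
  have hup := Pool.Agent.Lib.MP_f02ea4_nt.EqUpper.upper N hodd hperf
  set k := 13 * (24 * M) ^ K with hk
  have h5 : (4 : ℕ) ^ N.primeFactors.card ≤ 4 ^ k := Nat.pow_le_pow_right (by norm_num) h4
  have h6 : N ^ 8 < (2 ^ 4 ^ k) ^ 8 := by
    calc N ^ 8 < 2 ^ (7 * 4 ^ N.primeFactors.card) := hup
      _ ≤ 2 ^ (4 ^ k * 8) := Nat.pow_le_pow_right (by norm_num) (by omega)
      _ = _ := by rw [pow_mul]
  exact lt_of_pow_lt_pow_left₀ 8 (Nat.zero_le _) h6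

end Pool.Agent.Lib.MP_f02ea4_nt.Fin
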