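import Mathlib
import Pool.Agent.Lib.MP_f02ea4_nt.FinClass

/-!
The counting theorem when `l` itself is allowed among the primes: integers `q = 1` modulo `l`.
-/

set_option autoImplicit false

namespace Pool.Agent.Lib.MP_f02ea4_nt.Fin

open Finset

/-- A sparse set has at most 12 elements (larger threshold). -/
lemma card_le_twelve' (S : Finset ℕ) (h2 : ∀ q ∈ S, 2 ≤ q)
    (hgap : ∀ a ∈ S, ∀ b ∈ S, a < b → a ^ 7 < b ^ 4)
    (hfar : ∀ a ∈ S, ∀ b ∈ S, a < b → 2 ^ 46 ≤ a → b < a ^ 16) : S.card ≤ 12 := by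
  by_contra hcon
  push Not at hcon
  obtain ⟨S', hS', hcard⟩ := Finset.exists_subset_card_eq (show 13 ≤ S.card by omega)
  set e := S'.orderEmbOfFin hcard with he
  have hmem : ∀ i, e i ∈ S := fun i => hS' (Finset.orderEmbOfFin_mem _ _ _)
  have hlt : ∀ i j : Fin 13, i < j → e i < e j := fun i j hij => e.strictMono hij
  set L : Fin 13 → ℝ := fun i => Real.log (e i) with hL
  have hpos : ∀ i, (0 : ℝ) < (e i : ℝ) := by
    intro i
    have := h2 _ (hmem i)
    have h3 : 0 < e i := by omega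
    exact_mod_cast h3
  have step : ∀ i j : Fin 13, i < j → 7 * L i < 4 * L j := by
    intro i j hij
    have h1 := hgap _ (hmem i) _ (hmem j) (hlt i j hij)
    have h3 : ((e i : ℝ)) ^ 7 < (e j : ℝ) ^ 4 := by exact_mod_cast h1
    have h4 := Real.log_lt_log (by have := hpos i; positivity) h3
    rw [Real.log_pow, Real.log_pow] at h4
    exact_mod_cast h4
  have hL0 : Real.log 2 ≤ L 0 := by
    apply Real.log_le_log (by norm_num)
    exact_mod_cast h2 _ (hmem 0)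
  have hlog2 : 0 < Real.log 2 := Real.log_pos (by norm_num)
  have s0 := step 0 1 (by decide)
  have s1 := step 1 2 (by decide)
  have s2 := step 2 3 (by decide)
  have s3 := step 3 4 (by decide)
  have s4 := step 4 5 (by decide)
  have s5 := step 5 6 (by decide)
  have s6 := step 6 7 (by decide)
  have s7 := step 7 8 (by decide)
  have s8 := step 8 9 (by decide)
  have s9 := step 9 10 (by decide)
  have s10 := step 10 11 (by decide)
  have s11 := step 11 12 (by decide)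
  have h7 : 46 * Real.log 2 ≤ L 7 := by linarith
  have h7' : 2 ^ 46 ≤ e 7 := by
    have h8 : Real.log ((2 : ℝ) ^ 46) ≤ Real.log (e 7) := by
      rw [Real.log_pow]
      exact_mod_cast h7
    have h9 := (Real.log_le_log_iff (by positivity) (hpos 7)).1 h8
    exact_mod_cast h9
  have h12 := hfar _ (hmem 7) _ (hmem 12) (hlt 7 12 (by decide)) h7'
  have h13 : ((e 12 : ℝ)) < (e 7 : ℝ) ^ 16 := by exact_mod_cast h12
  have h14 := Real.log_lt_log (hpos 12) h13
  rw [Real.log_pow] at h14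
  have h15 : L 12 < 16 * L 7 := by exact_mod_cast h14
  linarith

lemma sq_le_three_pow {l : ℕ} (hl : 3 ≤ l) : l ^ 2 ≤ 3 ^ (l - 1) := by
  obtain ⟨k, rfl⟩ : ∃ k, l = k + 3 := ⟨l - 3, by omega⟩
  rw [show k + 3 - 1 = k + 2 by omega]
  induction k with
  | zero => norm_num
  | succ k ih =>
    have h1 := ih (by omega)
    have h2 : 3 ^ (k + 1 + 2) = 3 * 3 ^ (k + 2) := by ring
    rw [h2]
    nlinarith [h1]

/-- The main Diophantine lemma with a loss of a factor `l`. -/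
theorem main_lemma' {l : ℕ} [hl : Fact l.Prime] (hl2 : l ≠ 2) {μ q1 q2 T : ℕ} (hμ : 8 ≤ μ)
    (hq1 : 2 ^ 46 ≤ q1)
    (hlow : q1 ^ (2 * μ) ≤ q2) (hup : q2 ≤ q1 ^ (2 * μ + 2)) (hT : 0 < T)
    (hcop : Nat.Coprime l T) (h1 : T ∣ Phi l q2) (h2 : (T : ℤ) ∣ ((q1 : ℤ) - q2) ^ (2 * μ))
    (hbig : q1 ^ (14 * μ * (l - 1)) ≤ l ^ (14 * μ) * T ^ 8) : False := by
  have hq1' : 5 ≤ q1 := le_trans (by norm_num) hq1
  have hq2' : 2 ≤ q2 := by
    refine le_trans ?_ hlow
    calc 2 ≤ q1 := by omega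
      _ = q1 ^ 1 := (pow_one _).symm
      _ ≤ q1 ^ (2 * μ) := Nat.pow_le_pow_right (by omega) (by omega)
  obtain ⟨r, hr, hne⟩ : ∃ r, (r = μ - 1 ∨ r = μ) ∧ El l r (2 * μ) q1 q2 ≠ 0 := by
    rcases El_ne hl2 (μ := μ) (q1 := q1) (q2 := q2) (by omega) (by omega) hq2' with h | h
    · exact ⟨_, Or.inl rfl, h⟩
    · exact ⟨_, Or.inr rfl, h⟩
  have hdvd := El_norm_dvd hl2 (r := r) hT hcop h1 h2
  have hsize := El_size (l := l) (μ := μ) (r := r) (q1 := q1) (q2 := q2) (by omega) hr hq1'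
    (by omega) hup
  have hn0 : Algebra.norm ℤ (El l r (2 * μ) q1 q2) ≠ 0 := Algebra.norm_ne_zero_iff.2 hne
  have hle : ((T : ℤ)) ^ 2 ≤ |Algebra.norm ℤ (El l r (2 * μ) q1 q2)| := by
    apply Int.le_of_dvd (abs_pos.2 hn0)
    exact (dvd_abs _ _).2 hdvd
  have hle' : ((T : ℝ)) ^ 2 ≤ (2 ^ (8 * μ + 3) * (q1 : ℝ) ^ (3 * μ + 2)) ^ (l - 1) := by
    refine le_trans ?_ hsize
    rw [← Int.cast_abs]
    exact_mod_cast hle
  have hnat : T ^ 2 ≤ (2 ^ (8 * μ + 3) * q1 ^ (3 * μ + 2)) ^ (l - 1) := by exact_mod_cast hle'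
  have h8 : T ^ 8 ≤ ((2 ^ (8 * μ + 3) * q1 ^ (3 * μ + 2)) ^ (l - 1)) ^ 4 := by
    rw [show T ^ 8 = (T ^ 2) ^ 4 by rw [← pow_mul]]
    exact Nat.pow_le_pow_left hnat 4
  have hl3 : 3 ≤ l := by
    have := hl.out.two_le
    omega
  have hlp : l ^ (14 * μ) ≤ (2 ^ (12 * μ)) ^ (l - 1) := by
    calc l ^ (14 * μ) = (l ^ 2) ^ (7 * μ) := by rw [← pow_mul]; congr 1; ring
      _ ≤ (3 ^ (l - 1)) ^ (7 * μ) := Nat.pow_le_pow_left (sq_le_three_pow hl3) _
      _ = ((3 ^ 7) ^ μ) ^ (l - 1) := by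
          rw [← pow_mul, ← pow_mul, ← pow_mul]; congr 1; ring
      _ ≤ ((2 ^ 12) ^ μ) ^ (l - 1) :=
          Nat.pow_le_pow_left (Nat.pow_le_pow_left (by norm_num) _) _
      _ = (2 ^ (12 * μ)) ^ (l - 1) := by rw [← pow_mul (2 : ℕ) 12 μ]
  have h9 : (q1 ^ (14 * μ)) ^ (l - 1) ≤
      (2 ^ (12 * μ) * (2 ^ (8 * μ + 3) * q1 ^ (3 * μ + 2)) ^ 4) ^ (l - 1) := by
    calc (q1 ^ (14 * μ)) ^ (l - 1) = q1 ^ (14 * μ * (l - 1)) := by rw [← pow_mul]
      _ ≤ l ^ (14 * μ) * T ^ 8 := hbig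
      _ ≤ (2 ^ (12 * μ)) ^ (l - 1) * ((2 ^ (8 * μ + 3) * q1 ^ (3 * μ + 2)) ^ (l - 1)) ^ 4 :=
          Nat.mul_le_mul hlp h8
      _ = _ := by rw [mul_pow (2 ^ (12 * μ)), ← pow_mul, ← pow_mul, ← pow_mul, mul_comm (l - 1) 4]
  have hl1 : l - 1 ≠ 0 := by omega
  have h10 : q1 ^ (14 * μ) ≤ 2 ^ (12 * μ) * (2 ^ (8 * μ + 3) * q1 ^ (3 * μ + 2)) ^ 4 :=
    (Nat.pow_le_pow_iff_left hl1).1 h9
  have h11 : q1 ^ (14 * μ) = q1 ^ (2 * μ - 8) * q1 ^ (12 * μ + 8) := by
    rw [← pow_add]; congr 1; omega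
  have h12 : 2 ^ (12 * μ) * (2 ^ (8 * μ + 3) * q1 ^ (3 * μ + 2)) ^ 4 =
      2 ^ (44 * μ + 12) * q1 ^ (12 * μ + 8) := by
    rw [mul_pow, ← pow_mul, ← pow_mul, ← mul_assoc, ← pow_add]
    congr 2 <;> ring
  rw [h11, h12] at h10
  have h13 : q1 ^ (2 * μ - 8) ≤ 2 ^ (44 * μ + 12) :=
    Nat.le_of_mul_le_mul_right h10 (by positivity)
  have h14 : (2 ^ 46) ^ (2 * μ - 8) ≤ q1 ^ (2 * μ - 8) := Nat.pow_le_pow_left hq1 _
  rw [← pow_mul] at h14
  have h15 := (Nat.pow_le_pow_iff_right (by norm_num : 1 < 2)).1 (h14.trans h13)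
  omega

/-- The part of `Phi l q` prime to `l`. -/
def Gq (l q : ℕ) : ℕ := Phi l q / l

section

variable {l : ℕ} (hl : l.Prime) (hl2 : l ≠ 2)

include hl hl2

/-- For `q = 1` modulo the odd prime `l`, `Phi l q = l * m` with `m` prime to `l`. -/
lemma Phi_one {q : ℕ} (hq : q % l = 1) : Phi l q = l * Gq l q ∧ ¬ l ∣ Gq l q := by
  have hl3 : 3 ≤ l := by
    have := hl.two_le
    omega
  obtain ⟨k, hk⟩ : ∃ k, q = 1 + l * k := ⟨q / l, by
    have := Nat.div_add_mod q l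
    omega⟩
  -- `Phi l q = l + l^2 * c`
  have key : ∀ n : ℕ, ∃ c, ∑ i ∈ range n, (1 + l * k) ^ i = n + l * k * (n * (n - 1) / 2) + l ^ 2 * c := by
    intro n
    have hpow : ∀ i : ℕ, ∃ d, (1 + l * k) ^ i = 1 + l * k * i + l ^ 2 * d := by
      intro i
      induction i with
      | zero => exact ⟨0, by simp⟩
      | succ i ih =>
        obtain ⟨d, hd⟩ := ih
        refine ⟨k ^ 2 * i + d + l * k * d, ?_⟩
        rw [pow_succ, hd]
        ring
    induction n with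
    | zero => exact ⟨0, by simp⟩
    | succ n ih =>
      obtain ⟨c, hc⟩ := ih
      obtain ⟨d, hd⟩ := hpow n
      refine ⟨c + d, ?_⟩
      rw [Finset.sum_range_succ, hc, hd]
      have h1 : (n + 1) * (n + 1 - 1) / 2 = n * (n - 1) / 2 + n := by
        rcases Nat.eq_zero_or_pos n with h | h
        · subst h; simp
        · obtain ⟨m, rfl⟩ : ∃ m, n = m + 1 := ⟨n - 1, by omega⟩
          rw [show m + 1 + 1 - 1 = m + 1 by omega, show m + 1 - 1 = m by omega]
          rw [show (m + 1 + 1) * (m + 1) = (m + 1) * m + 2 * (m + 1) by ring]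
          omega
      rw [h1]
      ring
  obtain ⟨c, hc⟩ := key l
  have hodd : l % 2 = 1 := (hl.eq_two_or_odd).resolve_left hl2
  obtain ⟨j, hj⟩ : ∃ j, l = 2 * j + 1 := ⟨l / 2, by omega⟩
  have h2 : l * (l - 1) / 2 = l * j := by
    rw [hj, show 2 * j + 1 - 1 = 2 * j by omega, show (2 * j + 1) * (2 * j) = 2 * ((2 * j + 1) * j) by ring]
    omega
  have h3 : Phi l q = l * (1 + l * (k * j + c)) := by
    unfold Phi
    rw [hk, hc, h2]
    ring
  have h4 : Gq l q = 1 + l * (k * j + c) := by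
    unfold Gq
    rw [h3, Nat.mul_div_cancel_left _ hl.pos]
  refine ⟨by rw [h4, h3], ?_⟩
  rw [h4]
  intro h5
  have h6 : l ∣ 1 := (Nat.dvd_add_left (Dvd.intro _ rfl)).1 h5
  exact hl.one_lt.ne' (Nat.dvd_one.1 h6)

lemma Gq_pos {q : ℕ} (hq : q % l = 1) : 0 < Gq l q := by
  obtain ⟨h1, -⟩ := Phi_one hl hl2 hq
  have h2 := Phi_pos l q hl.pos
  rcases Nat.eq_zero_or_pos (Gq l q) with h | h
  · rw [h, mul_zero] at h1
    omega
  · exact h

lemma Gq_gt {q : ℕ} (hq : q % l = 1) (hq2 : 2 ≤ q) : 1 < Gq l q := by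
  obtain ⟨h1, -⟩ := Phi_one hl hl2 hq
  have h2 : l < Phi l q := by
    unfold Phi
    have hl3 : 3 ≤ l := by
      have := hl.two_le
      omega
    calc l = ∑ _i ∈ range l, 1 := by simp
      _ < ∑ i ∈ range l, q ^ i := by
        apply Finset.sum_lt_sum
        · intro i _
          exact Nat.one_le_pow _ _ (by omega)
        · exact ⟨1, Finset.mem_range.2 (by omega), by rw [pow_one]; omega⟩
  by_contra hcon
  push Not at hcon
  have : l * Gq l q ≤ l * 1 := Nat.mul_le_mul_left _ hcon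
  omega

/-- `Gq` is the product of its prime powers. -/
lemma Gq_eq (B : Finset ℕ) (hB : ∀ t ∈ B, t.Prime ∧ t ≠ l) {q : ℕ} (hq : q % l = 1)
    (hA : ∀ t, t.Prime → t ∣ Phi l q → t = l ∨ t ∈ B) :
    ∏ t ∈ B, t ^ xv l q t = Gq l q := by
  obtain ⟨h1, h2⟩ := Phi_one hl hl2 hq
  have h0 := (Gq_pos hl hl2 hq).ne'
  have h3 := Nat.prod_factorization_pow_eq_self h0
  have hx : ∀ t ∈ B, xv l q t = (Gq l q).factorization t := by
    intro t ht
    unfold xv
    rw [h1, Nat.factorization_mul hl.ne_zero h0, Finsupp.add_apply, hl.factorization,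
      Finsupp.single_apply, if_neg (fun h => (hB t ht).2 h.symm), zero_add]
  rw [Finset.prod_congr rfl (fun t ht => by rw [hx t ht])]
  conv_rhs => rw [← h3]
  rw [Finsupp.prod]
  symm
  apply Finset.prod_subset
  · intro t ht
    rw [Nat.support_factorization, Nat.mem_primeFactors] at ht
    rcases hA t ht.1 (by rw [h1]; exact Dvd.dvd.mul_left ht.2.1 l) with h | h
    · exact absurd (h ▸ ht.2.1) h2
    · exact h
  · intro t _ ht
    rw [Finsupp.notMem_support_iff] at ht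
    rw [ht, pow_zero]

/-- Profile part of the class of `q`, for `q = 1` modulo `l`. -/
noncomputable def prof' (l s q t : ℕ) : ℕ := Nat.log (Gq l q) (t ^ (8 * s * xv l q t))

lemma prof_sum_le' (B : Finset ℕ) (hB : ∀ t ∈ B, t.Prime ∧ t ≠ l) {q : ℕ} (hq : q % l = 1)
    (hq2 : 2 ≤ q) (hA : ∀ t, t.Prime → t ∣ Phi l q → t = l ∨ t ∈ B) :
    ∑ t ∈ B, prof' l B.card q t ≤ 8 * B.card := by
  have hP := Gq_gt hl hl2 hq hq2
  have h1 : Gq l q ^ (∑ t ∈ B, prof' l B.card q t) ≤ Gq l q ^ (8 * B.card) := by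
    rw [← Finset.prod_pow_eq_pow_sum]
    calc ∏ t ∈ B, Gq l q ^ prof' l B.card q t ≤ ∏ t ∈ B, t ^ (8 * B.card * xv l q t) := by
          apply Finset.prod_le_prod'
          intro t ht
          exact Nat.pow_log_le_self _ (Nat.pow_pos (hB t ht).1.pos).ne'
      _ = (∏ t ∈ B, t ^ xv l q t) ^ (8 * B.card) := by
          rw [← Finset.prod_pow]
          apply Finset.prod_congr rfl
          intro t _
          rw [← pow_mul, mul_comm]
      _ = _ := by rw [Gq_eq hl hl2 B hB hq hA]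
  exact (Nat.pow_le_pow_iff_right hP).1 h1

lemma prof_sum_ge' (B : Finset ℕ) (hB : ∀ t ∈ B, t.Prime ∧ t ≠ l) {q : ℕ} (hq : q % l = 1)
    (hq2 : 2 ≤ q) (hA : ∀ t, t.Prime → t ∣ Phi l q → t = l ∨ t ∈ B) :
    7 * B.card ≤ ∑ t ∈ B, prof' l B.card q t := by
  have hP := Gq_gt hl hl2 hq hq2
  have h1 : Gq l q ^ (8 * B.card) ≤ Gq l q ^ (∑ t ∈ B, prof' l B.card q t + B.card) := by
    calc Gq l q ^ (8 * B.card) = (∏ t ∈ B, t ^ xv l q t) ^ (8 * B.card) := by
          rw [Gq_eq hl hl2 B hB hq hA]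
      _ = ∏ t ∈ B, t ^ (8 * B.card * xv l q t) := by
          rw [← Finset.prod_pow]
          apply Finset.prod_congr rfl
          intro t _
          rw [← pow_mul, mul_comm]
      _ ≤ ∏ t ∈ B, Gq l q ^ (prof' l B.card q t + 1) := by
          apply Finset.prod_le_prod'
          intro t _
          exact (Nat.lt_pow_succ_log_self hP _).le
      _ = Gq l q ^ (∑ t ∈ B, prof' l B.card q t + B.card) := by
          rw [Finset.prod_pow_eq_pow_sum, Finset.sum_add_distrib]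
          simp
  have := (Nat.pow_le_pow_iff_right hP).1 h1
  omega

/-- The common part is large. -/
lemma Tm_big' (B : Finset ℕ) (hB : ∀ t ∈ B, t.Prime ∧ t ≠ l) {m q1 q2 W : ℕ} (hs : 0 < B.card)
    (hq1 : q1 % l = 1) (hq12 : 2 ≤ q1)
    (hA1 : ∀ t, t.Prime → t ∣ Phi l q1 → t = l ∨ t ∈ B)
    (hprof : ∀ t ∈ B, prof' l B.card q1 t = prof' l B.card q2 t)
    (hW1 : W ≤ Gq l q2) (hW2 : W ≤ Gq l q1 ^ m) (hW0 : 0 < W) :
    W ^ 7 ≤ Tm l B m q1 q2 ^ 8 := by
  have h1 : (W ^ 7) ^ B.card ≤ (Tm l B m q1 q2 ^ 8) ^ B.card := by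
    calc (W ^ 7) ^ B.card = W ^ (7 * B.card) := by rw [← pow_mul]
      _ ≤ W ^ (∑ t ∈ B, prof' l B.card q1 t) :=
          Nat.pow_le_pow_right hW0 (prof_sum_ge' hl hl2 B hB hq1 hq12 hA1)
      _ = ∏ t ∈ B, W ^ prof' l B.card q1 t := by rw [Finset.prod_pow_eq_pow_sum]
      _ ≤ ∏ t ∈ B, t ^ (min (xv l q2 t) (m * xv l q1 t) * (8 * B.card)) := by
          apply Finset.prod_le_prod'
          intro t ht
          have htp := (hB t ht).1.pos
          have a1 : Gq l q1 ^ prof' l B.card q1 t ≤ t ^ (8 * B.card * xv l q1 t) :=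
            Nat.pow_log_le_self _ (Nat.pow_pos htp).ne'
          have a2 : Gq l q2 ^ prof' l B.card q2 t ≤ t ^ (8 * B.card * xv l q2 t) :=
            Nat.pow_log_le_self _ (Nat.pow_pos htp).ne'
          rcases le_total (xv l q2 t) (m * xv l q1 t) with h | h
          · rw [min_eq_left h, hprof t ht, mul_comm (xv l q2 t)]
            exact (Nat.pow_le_pow_left hW1 _).trans a2
          · rw [min_eq_right h]
            calc W ^ prof' l B.card q1 t ≤ (Gq l q1 ^ m) ^ prof' l B.card q1 t :=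
                  Nat.pow_le_pow_left hW2 _
              _ = (Gq l q1 ^ prof' l B.card q1 t) ^ m := by
                  rw [← pow_mul, ← pow_mul, mul_comm]
              _ ≤ (t ^ (8 * B.card * xv l q1 t)) ^ m := Nat.pow_le_pow_left a1 m
              _ = _ := by rw [← pow_mul]; congr 1; ring
      _ = (Tm l B m q1 q2 ^ 8) ^ B.card := by
          unfold Tm
          rw [← pow_mul, ← Finset.prod_pow]
          apply Finset.prod_congr rfl
          intro t _
          rw [← pow_mul]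
  exact (Nat.pow_le_pow_iff_left hs.ne').1 h1

omit hl2 in
lemma Tm_dvd_Phi' (B : Finset ℕ) (hB : ∀ t ∈ B, t.Prime ∧ t ≠ l) {m q1 q2 : ℕ} :
    Tm l B m q1 q2 ∣ Phi l q2 := by
  have h0 := (Phi_pos l q2 hl.pos).ne'
  unfold Tm
  apply Finset.prod_dvd_of_isRelPrime
  · intro a ha b hb hab
    rw [Function.onFun, ← Nat.coprime_iff_isRelPrime]
    exact Nat.Coprime.pow _ _ ((Nat.coprime_primes (hB a ha).1 (hB b hb).1).2 hab)
  · intro t ht
    refine dvd_trans (pow_dvd_pow _ (min_le_left _ _)) ?_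
    exact ((hB t ht).1.pow_dvd_iff_le_factorization h0).2 le_rfl

/-- Gap principle for `q = 1` modulo `l`. -/
lemma gap' (B : Finset ℕ) (hB : ∀ t ∈ B, t.Prime ∧ t ≠ l) {q1 q2 : ℕ} (hs : 0 < B.card)
    (hm1 : q1 % l = 1) (hm2 : q2 % l = 1) (hq12 : 2 ≤ q1) (hlt : q1 < q2)
    (hA1 : ∀ t, t.Prime → t ∣ Phi l q1 → t = l ∨ t ∈ B)
    (hrho : ∀ t ∈ B, rho l q1 t = rho l q2 t)
    (hprof : ∀ t ∈ B, prof' l B.card q1 t = prof' l B.card q2 t) : q1 ^ 7 < q2 ^ 4 := by
  have h1 := Tm_dvd_diff hl B hB (m := 1) le_rfl hrho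
  rw [pow_one] at h1
  obtain ⟨hP1, -⟩ := Phi_one hl hl2 hm1
  obtain ⟨hP2, -⟩ := Phi_one hl hl2 hm2
  have hGle : Gq l q1 ≤ Gq l q2 := by
    have h2 := Phi_mono l hlt.le
    rw [hP1, hP2] at h2
    exact Nat.le_of_mul_le_mul_left h2 hl.pos
  have h2 := Tm_big' hl hl2 B hB (m := 1) (W := Gq l q1) hs hm1 hq12 hA1 hprof hGle
    (by rw [pow_one]) (Gq_pos hl hl2 hm1)
  have h3 : l * Tm l B 1 q1 q2 < q2 := by
    have h4 : ((Tm l B 1 q1 q2 : ℕ) : ℤ) ∣ (q2 : ℤ) - q1 := by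
      have := (dvd_neg (a := ((Tm l B 1 q1 q2 : ℕ) : ℤ))).2 h1
      rwa [neg_sub] at this
    have h5 : ((l : ℕ) : ℤ) ∣ (q2 : ℤ) - q1 := by
      have h6 : (q1 : ℤ) ≡ q2 [ZMOD (l : ℤ)] := by
        rw [Int.natCast_modEq_iff]
        show q1 % l = q2 % l
        rw [hm1, hm2]
      exact h6.dvd
    have hcop : IsCoprime ((l : ℕ) : ℤ) ((Tm l B 1 q1 q2 : ℕ) : ℤ) :=
      Nat.isCoprime_iff_coprime.2 (Tm_coprime hl B hB 1 q1 q2)
    have h6 := hcop.mul_dvd h5 h4
    have h7 := Int.le_of_dvd (by omega) h6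
    have h8 : ((l * Tm l B 1 q1 q2 : ℕ) : ℤ) ≤ (q2 : ℤ) - q1 := by push_cast; exact h7
    omega
  have hl3 : 3 ≤ l := by
    have := hl.two_le
    omega
  have h6 : q1 ^ 14 ≤ Phi l q1 ^ 7 := by
    calc q1 ^ 14 = (q1 ^ 2) ^ 7 := by rw [← pow_mul]
      _ ≤ (q1 ^ (l - 1)) ^ 7 := Nat.pow_le_pow_left (Nat.pow_le_pow_right (by omega) (by omega)) 7
      _ ≤ _ := Nat.pow_le_pow_left (Phi_ge l q1 hl.pos) 7
  have h7 : (l * Tm l B 1 q1 q2) ^ 8 < q2 ^ 8 := Nat.pow_lt_pow_left h3 (by norm_num)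
  have h9 : Phi l q1 ^ 7 ≤ (l * Tm l B 1 q1 q2) ^ 8 := by
    rw [hP1, mul_pow, mul_pow]
    apply Nat.mul_le_mul (Nat.pow_le_pow_right hl.pos (by norm_num)) h2
  have h8 : (q1 ^ 7) ^ 2 < (q2 ^ 4) ^ 2 := by
    have e1 : (q1 ^ 7) ^ 2 = q1 ^ 14 := by rw [← pow_mul]
    have e2 : (q2 ^ 4) ^ 2 = q2 ^ 8 := by rw [← pow_mul]
    rw [e1, e2]
    omega
  exact lt_of_pow_lt_pow_left₀ 2 (Nat.zero_le _) h8

omit hl2 in
/-- Upper bound for `Phi`. -/
lemma Phi_le_two {q : ℕ} (hq : 2 ≤ q) : Phi l q ≤ 2 * q ^ (l - 1) := by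
  have hl1 := hl.pos
  obtain ⟨n, hn⟩ : ∃ n, l = n + 1 := ⟨l - 1, by omega⟩
  rw [hn]
  unfold Phi
  rw [show n + 1 - 1 = n by omega]
  induction n generalizing l with
  | zero => simp
  | succ n ih =>
    rw [Finset.sum_range_succ]
    have h1 : ∑ i ∈ range (n + 1), q ^ i ≤ 2 * q ^ n := by
      clear ih hn hl1 hl
      induction n with
      | zero => simp
      | succ n ih =>
        rw [Finset.sum_range_succ]
        have : 2 * q ^ n ≤ q ^ (n + 1) := by rw [pow_succ, mul_comm]; exact Nat.mul_le_mul_left _ hq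
        omega
    have : 2 * q ^ n ≤ q ^ (n + 1) := by rw [pow_succ, mul_comm]; exact Nat.mul_le_mul_left _ hq
    omega

/-- Large solutions in a class are not too far apart, for `q = 1` modulo `l`. -/
lemma far' (B : Finset ℕ) (hB : ∀ t ∈ B, t.Prime ∧ t ≠ l) {q1 q2 : ℕ} (hs : 0 < B.card)
    (hm1 : q1 % l = 1) (hm2 : q2 % l = 1) (hlt : q1 < q2) (hq1b : 2 ^ 46 ≤ q1)
    (hA1 : ∀ t, t.Prime → t ∣ Phi l q1 → t = l ∨ t ∈ B)
    (hrho : ∀ t ∈ B, rho l q1 t = rho l q2 t)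
    (hprof : ∀ t ∈ B, prof' l B.card q1 t = prof' l B.card q2 t) : q2 < q1 ^ 16 := by
  by_contra hcon
  push Not at hcon
  haveI : Fact l.Prime := ⟨hl⟩
  have hq12 : 2 ≤ q1 := le_trans (by norm_num) hq1b
  set M := Nat.log q1 q2 with hM
  have hM1 : q1 ^ M ≤ q2 := Nat.pow_log_le_self q1 (by omega)
  have hM2 : q2 < q1 ^ (M + 1) := Nat.lt_pow_succ_log_self (by omega) q2
  have hM16 : 16 ≤ M := by
    have := (Nat.pow_lt_pow_iff_right (by omega : 1 < q1)).1 (lt_of_le_of_lt hcon hM2)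
    omega
  set μ := M / 2 with hμ
  have hμ8 : 8 ≤ μ := by omega
  have hlow : q1 ^ (2 * μ) ≤ q2 := (Nat.pow_le_pow_right (by omega) (by omega)).trans hM1
  have hup : q2 ≤ q1 ^ (2 * μ + 2) :=
    hM2.le.trans (Nat.pow_le_pow_right (by omega) (by omega))
  obtain ⟨hP1, -⟩ := Phi_one hl hl2 hm1
  obtain ⟨hP2, -⟩ := Phi_one hl hl2 hm2
  have hl3 : 3 ≤ l := by
    have := hl.two_le
    omega
  have hGpos := Gq_pos hl hl2 hm1
  have hW1 : Gq l q1 ^ (2 * μ) ≤ Gq l q2 := by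
    -- `l * G1^(2 mu) ≤ l^(2 mu) G1^(2mu) / (3^(2mu - 1))`
    have h1 : Phi l q1 ^ (2 * μ) ≤ 4 ^ μ * q2 ^ (l - 1) := by
      calc Phi l q1 ^ (2 * μ) ≤ (2 * q1 ^ (l - 1)) ^ (2 * μ) :=
            Nat.pow_le_pow_left (Phi_le_two hl hq12) _
        _ = 4 ^ μ * (q1 ^ (2 * μ)) ^ (l - 1) := by
            rw [mul_pow, pow_mul 2 2 μ]
            norm_num
            rw [← pow_mul, ← pow_mul, mul_comm]
        _ ≤ 4 ^ μ * q2 ^ (l - 1) :=
            Nat.mul_le_mul_left _ (Nat.pow_le_pow_left hlow _)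
    have h2 : q2 ^ (l - 1) ≤ l * Gq l q2 := by
      rw [← hP2]
      exact Phi_ge l q2 hl.pos
    rw [hP1, mul_pow] at h1
    have h3 : 4 ^ μ * l ≤ l ^ (2 * μ) := by
      have h4 : 4 ^ μ ≤ l ^ (2 * μ - 1) := by
        calc 4 ^ μ ≤ 3 ^ (2 * μ - 1) := by
              obtain ⟨n, hn⟩ : ∃ n, μ = n + 2 := ⟨μ - 2, by omega⟩
              rw [hn, show 2 * (n + 2) - 1 = 2 * n + 3 by omega, pow_add, pow_add, pow_mul]
              apply Nat.mul_le_mul (Nat.pow_le_pow_left (by norm_num) _) (by norm_num)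
          _ ≤ l ^ (2 * μ - 1) := Nat.pow_le_pow_left hl3 _
      calc 4 ^ μ * l ≤ l ^ (2 * μ - 1) * l := Nat.mul_le_mul_right _ h4
        _ = l ^ (2 * μ) := by rw [← pow_succ]; congr 1; omega
    have h5 : (4 ^ μ * l) * Gq l q1 ^ (2 * μ) ≤ (4 ^ μ * l) * Gq l q2 := by
      calc (4 ^ μ * l) * Gq l q1 ^ (2 * μ) ≤ l ^ (2 * μ) * Gq l q1 ^ (2 * μ) :=
            Nat.mul_le_mul_right _ h3
        _ ≤ 4 ^ μ * q2 ^ (l - 1) := h1
        _ ≤ 4 ^ μ * (l * Gq l q2) := Nat.mul_le_mul_left _ h2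
        _ = _ := by ring
    exact Nat.le_of_mul_le_mul_left h5 (by positivity)
  have hbig := Tm_big' hl hl2 B hB (m := 2 * μ) (q2 := q2) (W := Gq l q1 ^ (2 * μ)) hs hm1 hq12 hA1
    hprof hW1 le_rfl (by positivity)
  refine main_lemma' (l := l) hl2 hμ8 hq1b hlow hup (Tm_pos B hB (2 * μ) q1 q2)
    (Tm_coprime hl B hB _ _ _) (Tm_dvd_Phi' hl B hB)
    (Tm_dvd_diff hl B hB (by omega) hrho) ?_
  calc q1 ^ (14 * μ * (l - 1)) = (q1 ^ (l - 1)) ^ (14 * μ) := by rw [← pow_mul, mul_comm]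
    _ ≤ Phi l q1 ^ (14 * μ) := Nat.pow_le_pow_left (Phi_ge l q1 hl.pos) _
    _ = l ^ (14 * μ) * Gq l q1 ^ (14 * μ) := by rw [hP1, mul_pow]
    _ = l ^ (14 * μ) * (Gq l q1 ^ (2 * μ)) ^ 7 := by
        rw [← pow_mul]
        congr 2
        ring
    _ ≤ _ := Nat.mul_le_mul_left _ hbig

/-- Count for `q = 1` modulo `l`. -/
theorem count_one (B : Finset ℕ) (hB : ∀ t ∈ B, t.Prime ∧ t ≠ l) (A : Finset ℕ)
    (hA2 : ∀ q ∈ A, 2 ≤ q) (hAm : ∀ q ∈ A, q % l = 1)
    (hA : ∀ q ∈ A, ∀ t, t.Prime → t ∣ Phi l q → t = l ∨ t ∈ B) :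
    A.card ≤ 12 * (24 * l) ^ B.card := by
  classical
  rcases Nat.eq_zero_or_pos B.card with hs0 | hs
  · have hAe : A = ∅ := by
      rw [Finset.eq_empty_iff_forall_notMem]
      intro q hq
      obtain ⟨h1, h2⟩ := Phi_one hl hl2 (hAm q hq)
      have h3 := Gq_gt hl hl2 (hAm q hq) (hA2 q hq)
      obtain ⟨t, ht, htd⟩ := Nat.exists_prime_and_dvd (by omega : Gq l q ≠ 1)
      rcases hA q hq t ht (by rw [h1]; exact Dvd.dvd.mul_left htd l) with h | h
      · exact h2 (h ▸ htd)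
      · rw [Finset.card_eq_zero] at hs0
        rw [hs0] at h
        simp at h
    rw [hAe]
    simp
  · set cls : ℕ → ({x // x ∈ B} → ℕ) × ({x // x ∈ B} → ℕ) :=
      fun q => (fun t => rho l q t.1, fun t => prof' l B.card q t.1) with hcls
    have hfib : ∀ c ∈ A.image cls, (A.filter (fun x => cls x = c)).card ≤ 12 := by
      intro c _
      have same : ∀ a ∈ A.filter (fun x => cls x = c), ∀ b ∈ A.filter (fun x => cls x = c),
          (∀ t ∈ B, rho l a t = rho l b t) ∧ (∀ t ∈ B, prof' l B.card a t = prof' l B.card b t) := by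
        intro a ha b hb
        rw [Finset.mem_filter] at ha hb
        have h1 : cls a = cls b := ha.2.trans hb.2.symm
        rw [hcls] at h1
        simp only [Prod.mk.injEq] at h1
        refine ⟨fun t ht => ?_, fun t ht => ?_⟩
        · exact congrFun h1.1 ⟨t, ht⟩
        · exact congrFun h1.2 ⟨t, ht⟩
      apply card_le_twelve'
      · intro q hq
        exact hA2 q (Finset.mem_filter.1 hq).1
      · intro a ha b hb hab
        have h1 := same a ha b hb
        exact gap' hl hl2 B hB hs (hAm a (Finset.mem_filter.1 ha).1) (hAm b (Finset.mem_filter.1 hb).1)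
          (hA2 a (Finset.mem_filter.1 ha).1) hab
          (hA a (Finset.mem_filter.1 ha).1) h1.1 h1.2
      · intro a ha b hb hab hbig
        have h1 := same a ha b hb
        exact far' hl hl2 B hB hs (hAm a (Finset.mem_filter.1 ha).1) (hAm b (Finset.mem_filter.1 hb).1)
          hab hbig (hA a (Finset.mem_filter.1 ha).1) h1.1 h1.2
    have h1 := Finset.card_le_mul_card_image A 12 hfib
    have hcardB : Fintype.card {x // x ∈ B} = B.card := Fintype.card_coe B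
    have h2 : (A.image cls) ⊆
        (Fintype.piFinset (fun t : {x // x ∈ B} => (range t.1).filter (fun x => x ^ l % t.1 = 1)))
        ×ˢ ((Fintype.piFinset (fun _ : {x // x ∈ B} =>
            range (8 * Fintype.card {x // x ∈ B} + 1))).filter
          (fun b => ∑ t, b t ≤ 8 * Fintype.card {x // x ∈ B})) := by
      intro c hc
      rw [Finset.mem_image] at hc
      obtain ⟨q, hq, rfl⟩ := hc
      have hsum : ∑ t : {x // x ∈ B}, prof' l B.card q t.1 ≤ 8 * B.card := by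
        have e : ∑ t : {x // x ∈ B}, prof' l B.card q t.1 = ∑ t ∈ B, prof' l B.card q t :=
          Finset.sum_coe_sort B (fun t => prof' l B.card q t)
        rw [e]
        exact prof_sum_le' hl hl2 B hB (hAm q hq) (hA2 q hq) (hA q hq)
      rw [Finset.mem_product]
      refine ⟨?_, ?_⟩
      · rw [Fintype.mem_piFinset]
        intro t
        exact rho_mem (hB t.1 t.2).1
      · rw [Finset.mem_filter, Fintype.mem_piFinset, hcardB]
        refine ⟨?_, hsum⟩
        intro t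
        rw [Finset.mem_range, Nat.lt_succ_iff]
        exact (Finset.single_le_sum (f := fun t : {x // x ∈ B} => prof' l B.card q t.1)
          (fun _ _ => Nat.zero_le _) (Finset.mem_univ t)).trans hsum
    have h3 := Finset.card_le_card h2
    rw [Finset.card_product] at h3
    have h4 : (Fintype.piFinset (fun t : {x // x ∈ B} =>
        (range t.1).filter (fun x => x ^ l % t.1 = 1))).card ≤ l ^ B.card := by
      rw [Fintype.card_piFinset]
      calc ∏ t : {x // x ∈ B}, ((range t.1).filter (fun x => x ^ l % t.1 = 1)).card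
          ≤ ∏ _t : {x // x ∈ B}, l :=
            Finset.prod_le_prod' (fun t _ => card_residues hl.pos (hB t.1 t.2).1)
        _ = l ^ B.card := by rw [Finset.prod_const, Finset.card_univ, hcardB]
    have h5 := card_profiles {x // x ∈ B}
    rw [hcardB] at h5 h3
    calc A.card ≤ 12 * (A.image cls).card := h1
      _ ≤ 12 * (l ^ B.card * 24 ^ B.card) :=
          Nat.mul_le_mul_left _ (h3.trans (Nat.mul_le_mul h4 h5))
      _ = 12 * (24 * l) ^ B.card := by rw [mul_pow, mul_comm (l ^ _)]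

/-- The number of `q ≥ 2` for which all prime factors of `1 + q + ... + q^(l-1)` lie in a given
finite set `E` is at most `12 (24 l)^|E|`. -/
theorem sunit_count_all (E : Finset ℕ) (A : Finset ℕ) (hA2 : ∀ q ∈ A, 2 ≤ q)
    (hA : ∀ q ∈ A, ∀ t, t.Prime → t ∣ Phi l q → t ∈ E) :
    A.card ≤ 12 * (24 * l) ^ E.card := by
  classical
  set B := (E.filter (fun t => t.Prime)).erase l with hBdef
  have hB : ∀ t ∈ B, t.Prime ∧ t ≠ l := by
    intro t ht
    rw [hBdef, Finset.mem_erase, Finset.mem_filter] at ht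
    exact ⟨ht.2.2, ht.1⟩
  have hBE : B.card ≤ E.card := Finset.card_le_card
    ((Finset.erase_subset _ _).trans (Finset.filter_subset _ _))
  have hlpos := hl.pos
  have hl3 : 3 ≤ l := by
    have := hl.two_le
    omega
  have hmemB : ∀ q ∈ A, ∀ t, t.Prime → t ∣ Phi l q → t = l ∨ t ∈ B := by
    intro q hq t ht htd
    by_cases h : t = l
    · exact Or.inl h
    · right
      rw [hBdef, Finset.mem_erase, Finset.mem_filter]
      exact ⟨h, hA q hq t ht htd, ht⟩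
  have hnot : ∀ q, ¬ q % l = 1 → ¬ l ∣ Phi l q := by
    intro q hq hd
    haveI := Fact.mk hl
    have h0 : ∑ i ∈ range l, (q : ZMod l) ^ i = 0 := by
      have := (ZMod.natCast_eq_zero_iff (Phi l q) l).2 hd
      unfold Phi at this
      push_cast at this
      exact this
    have h1 := geom_sum_mul (q : ZMod l) l
    rw [h0, zero_mul] at h1
    have h2 : (q : ZMod l) ^ l = 1 := (sub_eq_zero.1 h1.symm)
    rw [ZMod.pow_card] at h2
    apply hq
    have h3 : ((q : ℕ) : ZMod l) = ((1 : ℕ) : ZMod l) := by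
      push_cast
      exact h2
    rw [ZMod.natCast_eq_natCast_iff', Nat.mod_eq_of_lt hl.one_lt] at h3
    exact h3
  have h1 := count_one hl hl2 B hB (A.filter (fun q => q % l = 1))
    (fun q hq => hA2 q (Finset.mem_filter.1 hq).1) (fun q hq => (Finset.mem_filter.1 hq).2)
    (fun q hq => hmemB q (Finset.mem_filter.1 hq).1)
  have h2 := sunit_count hl hl2 B hB (A.filter (fun q => ¬ q % l = 1))
    (fun q hq => hA2 q (Finset.mem_filter.1 hq).1)
    (fun q hq t ht htd => by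
      rcases hmemB q (Finset.mem_filter.1 hq).1 t ht htd with h | h
      · exact absurd (h ▸ htd) (hnot q (Finset.mem_filter.1 hq).2)
      · exact h)
  have h3 := Finset.card_filter_add_card_filter_not (s := A) (fun q => q % l = 1)
  by_cases hlE : (A.filter (fun q => q % l = 1)).Nonempty
  · obtain ⟨q, hq⟩ := hlE
    rw [Finset.mem_filter] at hq
    have h4 := (Phi_one hl hl2 hq.2).1
    have h5 : l ∈ E := hA q hq.1 l hl (by rw [h4]; exact Dvd.intro _ rfl)
    have h6 : B.card + 1 ≤ E.card := by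
      have h7 : B.card < E.card := by
        apply Finset.card_lt_card
        rw [Finset.ssubset_iff_of_subset
          ((Finset.erase_subset _ _).trans (Finset.filter_subset _ _))]
        exact ⟨l, h5, Finset.notMem_erase l _⟩
      omega
    calc A.card ≤ 12 * (24 * l) ^ B.card + 12 * (24 * l) ^ B.card := by omega
      _ ≤ 12 * ((24 * l) ^ B.card * (24 * l)) := by
          have : 0 < (24 * l) ^ B.card := by positivity
          nlinarith
      _ = 12 * (24 * l) ^ (B.card + 1) := by rw [pow_succ]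
      _ ≤ 12 * (24 * l) ^ E.card :=
          Nat.mul_le_mul_left _ (Nat.pow_le_pow_right (by omega) h6)
  · rw [Finset.not_nonempty_iff_eq_empty] at hlE
    rw [hlE, Finset.card_empty] at h3
    calc A.card ≤ 12 * (24 * l) ^ B.card := by omega
      _ ≤ 12 * (24 * l) ^ E.card :=
          Nat.mul_le_mul_left _ (Nat.pow_le_pow_right (by omega) hBE)

end

end Pool.Agent.Lib.MP_f02ea4_nt.Fin
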