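import Mathlib
import Pool.Agent.Lib.MP_f02ea4_nt.FinMulti
import Pool.Agent.Lib.MP_f02ea4_nt.FinOne

/-!
Factor chains of bounded length.  The prime factors of an odd perfect number `N` carry ranks
`0, ..., D`; a prime `q` of positive rank has a prime `l ∣ M`, `l ∣ e_q + 1`, such that all prime
factors of `1 + q + ... + q^(l-1)` have lower rank.  Then the number of prime factors is bounded in
terms of `M`, `D` and the number of primes of rank `0`.
-/

set_option autoImplicit false

namespace Pool.Agent.Lib.MP_f02ea4_nt.Fin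

open Finset Pool.Agent.Lib.MP_f02ea4_nt.Rad

/-- One step: primes all of whose `Phi l q` (some prime `l ∣ M`) has support in `E`. -/
theorem step_card {M : ℕ} (hM : Odd M) (E A : Finset ℕ) (hA2 : ∀ q ∈ A, 2 ≤ q)
    (hA : ∀ q ∈ A, q ∉ E → ∃ l, l.Prime ∧ l ∣ M ∧ ∀ t, t.Prime → t ∣ Phi l q → t ∈ E) :
    A.card ≤ 13 * (24 * M) ^ E.card := by
  classical
  have hM0 : M ≠ 0 := by
    rintro rfl
    exact absurd hM (by decide)
  have hMpos : 0 < M := Nat.pos_of_ne_zero hM0
  set L := M.primeFactors with hLdef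
  have hL : ∀ l ∈ L, l.Prime ∧ l ≠ 2 := by
    intro l hl
    refine ⟨Nat.prime_of_mem_primeFactors hl, ?_⟩
    rintro rfl
    have := Nat.dvd_of_mem_primeFactors hl
    rw [← even_iff_two_dvd] at this
    exact (Nat.not_even_iff_odd.2 hM) this
  set B := fun l => A.filter (fun q => ∀ t, t.Prime → t ∣ Phi l q → t ∈ E) with hB
  have hcard : ∀ l ∈ L, (B l).card ≤ 12 * (24 * l) ^ E.card := by
    intro l hl
    apply sunit_count_all (hL l hl).1 (hL l hl).2
    · intro q hq
      exact hA2 q (Finset.mem_filter.1 hq).1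
    · intro q hq
      exact (Finset.mem_filter.1 hq).2
  have hsub : A ⊆ E ∪ L.biUnion B := by
    intro q hq
    rw [Finset.mem_union]
    by_cases h : q ∈ E
    · exact Or.inl h
    · right
      obtain ⟨l, hl, hlM, h1⟩ := hA q hq h
      rw [Finset.mem_biUnion]
      exact ⟨l, Nat.mem_primeFactors.2 ⟨hl, hlM, hM0⟩, Finset.mem_filter.2 ⟨hq, h1⟩⟩
  rcases Nat.eq_zero_or_pos E.card with hE0 | hEpos
  · -- nothing at all
    rw [Finset.card_eq_zero] at hE0
    have hAe : A = ∅ := by
      rw [Finset.eq_empty_iff_forall_notMem]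
      intro q hq
      obtain ⟨l, hl, -, h1⟩ := hA q hq (by rw [hE0]; exact Finset.notMem_empty q)
      have hP : Phi l q ≠ 1 := by
        unfold Phi
        have h5 : ∑ i ∈ range 2, q ^ i ≤ ∑ i ∈ range l, q ^ i :=
          Finset.sum_le_sum_of_subset (by
            intro x hx
            rw [Finset.mem_range] at *
            have := hl.two_le
            omega)
        have h6 : ∑ i ∈ range 2, q ^ i = 1 + q := by
          simp [Finset.sum_range_succ]
        have := hA2 q hq
        omega
      obtain ⟨t, ht, htd⟩ := Nat.exists_prime_and_dvd hP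
      have := h1 t ht htd
      rw [hE0] at this
      exact Finset.notMem_empty t this
    rw [hAe]
    simp
  · have h1 : A.card ≤ E.card + ∑ l ∈ L, 12 * (24 * l) ^ E.card := by
      refine le_trans (Finset.card_le_card hsub) (le_trans (Finset.card_union_le _ _) ?_)
      refine Nat.add_le_add_left (le_trans Finset.card_biUnion_le ?_) _
      exact Finset.sum_le_sum hcard
    have h2 : ∑ l ∈ L, 12 * (24 * l) ^ E.card ≤ 12 * (24 * M) ^ E.card := by
      calc ∑ l ∈ L, 12 * (24 * l) ^ E.card
          = 12 * 24 ^ E.card * ∑ l ∈ L, l ^ E.card := by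
            rw [Finset.mul_sum]
            apply Finset.sum_congr rfl
            intro l _
            rw [mul_pow]
            ring
        _ ≤ 12 * 24 ^ E.card * ∏ l ∈ L, l ^ E.card := by
            apply Nat.mul_le_mul_left
            apply sum_le_prod
            intro l hl
            calc 2 ≤ l := (hL l hl).1.two_le
              _ = l ^ 1 := (pow_one l).symm
              _ ≤ l ^ E.card := Nat.pow_le_pow_right (hL l hl).1.pos hEpos
        _ ≤ 12 * 24 ^ E.card * M ^ E.card := by
            apply Nat.mul_le_mul_left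
            rw [Finset.prod_pow]
            exact Nat.pow_le_pow_left (Nat.le_of_dvd hMpos (Nat.prod_primeFactors_dvd M)) _
        _ = 12 * (24 * M) ^ E.card := by rw [mul_pow]; ring
    have h3 : E.card ≤ (24 * M) ^ E.card := (Nat.lt_pow_self (by omega)).le
    omega

/-- The growth function. -/
lemma F_mono {M : ℕ} (hM : 0 < M) {x y : ℕ} (h : x ≤ y) :
    13 * (24 * M) ^ x ≤ 13 * (24 * M) ^ y :=
  Nat.mul_le_mul_left _ (Nat.pow_le_pow_right (by omega) h)

lemma F_iter_ge {M : ℕ} (hM : 0 < M) (n K : ℕ) : K ≤ (fun x => 13 * (24 * M) ^ x)^[n] K := by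
  induction n with
  | zero => simp
  | succ n ih =>
    rw [Function.iterate_succ_apply']
    have h3 : ∀ x : ℕ, x ≤ 13 * (24 * M) ^ x := by
      intro x
      have : x ≤ (24 * M) ^ x := (Nat.lt_pow_self (by omega)).le
      omega
    exact ih.trans (h3 _)

lemma F_iter_ge_one {M : ℕ} (hM : 0 < M) {n K : ℕ} (hn : 0 < n) :
    13 * (24 * M) ^ K ≤ (fun x => 13 * (24 * M) ^ x)^[n] K := by
  obtain ⟨m, rfl⟩ : ∃ m, n = m + 1 := ⟨n - 1, by omega⟩
  rw [Function.iterate_succ_apply']
  exact F_mono hM (F_iter_ge hM m K)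

/-- The number of prime factors in terms of ranks. -/
theorem omega_rank {N M K D : ℕ} (hodd : Odd N) (hperf : N.Perfect) (hM : Odd M) (r : ℕ → ℕ)
    (h0 : (N.primeFactors.filter (fun q => r q = 0)).card ≤ K)
    (hr : ∀ q ∈ N.primeFactors, r q ≤ D ∧ (0 < r q → ∃ l, l.Prime ∧ l ∣ M ∧
      l ∣ N.factorization q + 1 ∧ ∀ t, t.Prime → t ∣ Phi l q → r t < r q)) :
    N.primeFactors.card ≤ (fun x => 13 * (24 * M) ^ x)^[D] K := by
  classical
  have hM0 : M ≠ 0 := by
    rintro rfl
    exact absurd hM (by decide)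
  have hMpos : 0 < M := Nat.pos_of_ne_zero hM0
  have key : ∀ i : ℕ, (N.primeFactors.filter (fun q => r q ≤ i)).card ≤
      (fun x => 13 * (24 * M) ^ x)^[i] K := by
    intro i
    induction i with
    | zero =>
      refine le_trans (Finset.card_le_card ?_) h0
      intro q hq
      rw [Finset.mem_filter] at *
      exact ⟨hq.1, by omega⟩
    | succ i ih =>
      rw [Function.iterate_succ_apply']
      refine le_trans ?_ (F_mono hMpos ih)
      apply step_card hM
      · intro q hq
        exact (Nat.prime_of_mem_primeFactors (Finset.mem_filter.1 hq).1).two_le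
      · intro q hq hqE
        rw [Finset.mem_filter] at hq hqE
        have h1 : r q = i + 1 := by
          by_contra h2
          exact hqE ⟨hq.1, by omega⟩
        obtain ⟨l, hl, hlM, hle, h3⟩ := (hr q hq.1).2 (by omega)
        refine ⟨l, hl, hlM, ?_⟩
        intro t ht htd
        rw [Finset.mem_filter]
        have hl2 : l ≠ 2 := by
          rintro rfl
          rw [← even_iff_two_dvd] at hlM
          exact (Nat.not_even_iff_odd.2 hM) hlM
        have ht2 : t ≠ 2 := by
          rintro rfl
          rcases prime_dvd_Phi hl ht htd with h | h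
          · exact hl2 h.1.symm
          · have h4 := hl.two_le
            rw [Nat.mod_eq_of_lt (by omega)] at h
            omega
        refine ⟨prime_dvd_N hperf hq.1 ht ht2 (dvd_trans htd (Phi_dvd_sg hle)), ?_⟩
        have := h3 t ht htd
        omega
  refine le_trans (Finset.card_le_card ?_) (key D)
  intro q hq
  rw [Finset.mem_filter]
  exact ⟨hq, (hr q hq).1⟩

lemma upper_of_card {N k : ℕ} (hodd : Odd N) (hperf : N.Perfect) (h : N.primeFactors.card ≤ k) :
    N < 2 ^ 4 ^ k := by
  have hup := Pool.Agent.Lib.MP_f02ea4_nt.EqUpper.upper N hodd hperf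
  have h5 : (4 : ℕ) ^ N.primeFactors.card ≤ 4 ^ k := Nat.pow_le_pow_right (by norm_num) h
  have h6 : N ^ 8 < (2 ^ 4 ^ k) ^ 8 := by
    calc N ^ 8 < 2 ^ (7 * 4 ^ N.primeFactors.card) := hup
      _ ≤ 2 ^ (4 ^ k * 8) := Nat.pow_le_pow_right (by norm_num) (by omega)
      _ = _ := by rw [pow_mul]
  exact lt_of_pow_lt_pow_left₀ 8 (Nat.zero_le _) h6

end Pool.Agent.Lib.MP_f02ea4_nt.Fin
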