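import Mathlib
import Pool.Agent.Lib.MP_f02ea4_nt.FinCover

/-!
Odd perfect numbers with bounded factor chains outside few primes.

Let `N` be an odd perfect number with exponents `e_q` (`q ∣ N`), `M` odd, `K` and `D` natural
numbers.  Suppose that

(a) the prime factors `q` of `N` have ranks `r q` in `{0, ..., D}`, at most `K` of them rank `0`, and
each `q` of positive rank has a prime `l ∣ M` with `l ∣ e_q + 1` such that all prime factors of
`1 + q + ... + q ^ (l - 1)` have rank smaller than `r q`; or

(b) `D ≥ 1`, `M` is prime, and the number of `q ∣ N` with `M ∤ e_q + 1` plus the exponent of `M` in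
`N` is at most `K`.

Then `N < 2 ^ 4 ^ F^[D] K`, where `F x = 13 (24 M) ^ x`.

Case (a) with `D = 1` and `r q = 0` exactly for the `q` failing the condition contains: at most `K`
primes `q ∣ N` fail the condition `gcd (e_q + 1, M) > 1` and `gcd (q - 1, M) = 1`
(`few_exceptions_mod` in `FinMulti.lean`).
-/

set_option autoImplicit false

namespace Pool.Agent.Lib.MP_f02ea4_nt.FewExceptionsShelf

theorem result (N M K D : ℕ) (hodd : Odd N) (hperf : N.Perfect) (hM : Odd M)
    (hK : (∃ r : ℕ → ℕ, (N.primeFactors.filter (fun q => r q = 0)).card ≤ K ∧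
        ∀ q ∈ N.primeFactors, r q ≤ D ∧ (0 < r q →
          ∃ l ∈ M.primeFactors, l ∣ N.factorization q + 1 ∧
            ∀ t ∈ (∑ i ∈ Finset.range l, q ^ i).primeFactors, r t < r q)) ∨
      (0 < D ∧ M.Prime ∧ (N.primeFactors.filter (fun q => ¬ M ∣ N.factorization q + 1)).card +
        N.factorization M ≤ K)) :
    N < 2 ^ 4 ^ ((fun x => 13 * (24 * M) ^ x)^[D] K) := by
  rcases hK with ⟨r, h0, hr⟩ | ⟨hD, hp, hK⟩
  · apply Pool.Agent.Lib.MP_f02ea4_nt.Fin.upper_of_card hodd hperf
    apply Pool.Agent.Lib.MP_f02ea4_nt.Fin.omega_rank hodd hperf hM r h0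
    intro q hq
    refine ⟨(hr q hq).1, ?_⟩
    intro hpos
    obtain ⟨l, hl, h1, h2⟩ := (hr q hq).2 hpos
    have hlp := Nat.prime_of_mem_primeFactors hl
    refine ⟨l, hlp, Nat.dvd_of_mem_primeFactors hl, h1, ?_⟩
    intro t ht htd
    apply h2
    rw [Nat.mem_primeFactors]
    exact ⟨ht, htd, (Pool.Agent.Lib.MP_f02ea4_nt.Fin.Phi_pos l q hlp.pos).ne'⟩
  · have hM2 : M ≠ 2 := by
      rintro rfl
      exact absurd hM (by decide)
    obtain ⟨h1, h2⟩ :=
      Pool.Agent.Lib.MP_f02ea4_nt.Fin.few_exceptions hodd hperf hp hM2
    refine lt_of_lt_of_le h2 ?_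
    have hpos := hp.pos
    refine Nat.pow_le_pow_right (by norm_num) (Nat.pow_le_pow_right (by norm_num) ?_)
    refine le_trans ?_ (Pool.Agent.Lib.MP_f02ea4_nt.Fin.F_iter_ge_one (K := K) hpos hD)
    exact Pool.Agent.Lib.MP_f02ea4_nt.Fin.F_mono hpos (h1.trans hK)

end Pool.Agent.Lib.MP_f02ea4_nt.FewExceptionsShelf

/-
claim text of the shelved hand-in FewExceptions:
Proves: Let M be odd, K, D natural numbers, F(x) = 13 (24 M)^x with D-th iterate F^D, and N an odd perfect number with exact exponents e_q (q | N). Suppose (a) the primes q | N have ranks in {0,...,D}, at most K of them rank 0, and each q of positive rank has a prime l | M with l | e_q + 1 such that all prime factors of 1 + q + ... + q^(l-1) have rank less than that of q; or (b) D >= 1, M is prime and #{q | N : M does not divide e_q + 1} + (the exponent of M in N) <= K. Then N < 2^(4^(F^D(K))).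
Definitions: none
Relation: Partial result on Q1, unconditional; it does not decide whether an odd perfect number exists. By (b), for every odd prime l and all k, B only finitely many (explicitly bounded) odd perfect N with l^(B+1) not dividing N have all but k exponents = -1 mod l. (a): D = 0 is Dickson/Nielsen; D = 1 replaces omega(N) by the size of a vertex cover of the graph q -> t and contains: at most K primes q | N fail [gcd(e_q + 1, M) > 1 and gcd(q - 1, M) = 1]; general D: factor chains outside K primes have length <= D. Known: if all even exponents are = -1 mod l then l^4 | N (Kanold), none for l = 3 (McDaniel) and a few l; finiteness for equal even exponents (Yamada); with k exceptions and the rest in a finite set, only a bounded prime factor (Yamada). Finiteness for D = 1 could also be drawn from Evertse's 1984 count of S-unit solutions with Nielsen's N < 2^(4^omega); both are proved here, the first with 12 (24 l)^s.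
-/
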