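import Pool.Agent.Lib.MP_f02ea4_nt.Mg.G004

set_option autoImplicit false

namespace Pool.Agent.Lib.MP_f02ea4_nt.HB

open Finset

/-- enumeration of a finset in increasing order of `w` -/
lemma enum (w : ℕ → ℕ) (n : ℕ) : ∀ T : Finset ℕ, T.card = n →
    ∃ g : ℕ → ℕ, Set.InjOn g (range n : Finset ℕ) ∧ T = (range n).image g ∧
      ∀ i j, i ≤ j → j < n → w (g i) ≤ w (g j) := by
  induction n with
  | zero =>
    intro T hT
    refine ⟨fun _ => 0, ?_, ?_, ?_⟩
    · simp
    · rw [Finset.card_eq_zero.1 hT]; simp
    · intro i j _ h; omega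
  | succ n ih =>
    intro T hT
    have hne : T.Nonempty := by
      rw [← Finset.card_pos]; omega
    obtain ⟨p, hp, hmax⟩ := Finset.exists_max_image T w hne
    obtain ⟨g, hg1, hg2, hg3⟩ := ih (T.erase p) (by rw [Finset.card_erase_of_mem hp]; omega)
    have hgp : ∀ i < n, g i ∈ T.erase p := by
      intro i hi
      rw [hg2]; exact Finset.mem_image_of_mem _ (Finset.mem_range.2 hi)
    refine ⟨fun i => if i < n then g i else p, ?_, ?_, ?_⟩
    · intro i hi j hj hij
      have hi' : i < n + 1 := by simpa using hi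
      have hj' : j < n + 1 := by simpa using hj
      simp only at hij
      split_ifs at hij with h1 h2 h2
      · exact hg1 (by simpa using h1) (by simpa using h2) hij
      · exact absurd hij (Finset.mem_erase.1 (hgp i h1)).1
      · exact absurd hij.symm (Finset.mem_erase.1 (hgp j h2)).1
      · omega
    · rw [Finset.range_add_one, Finset.image_insert]
      have e1 : (range n).image (fun i => if i < n then g i else p) = T.erase p := by
        rw [hg2]
        apply Finset.image_congr
        intro i hi
        have : i < n := by simpa using hi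
        simp [this]
      rw [e1]
      simp [Finset.insert_erase hp]
    · intro i j hij hj
      simp only
      split_ifs with h1 h2 h2
      · exact hg3 i j hij h2
      · exact hmax _ (Finset.mem_erase.1 (hgp i h1)).2
      · omega
      · exact le_rfl

/-- The selection step of the chain. -/
lemma select {a b : ℕ} (T : Finset ℕ) (w : ℕ → ℕ) (ha : 0 < a) (hab : a < b)
    (hw : ∀ p ∈ T, 2 ≤ w p) (hinj : ∀ p ∈ T, ∀ q ∈ T, w p = w q → p = q)
    (hT : b * ∏ p ∈ T, (w p - 1) ≤ a * ∏ p ∈ T, w p) :
    ∃ C ⊆ T, C.Nonempty ∧ (∀ p ∈ C, ∀ q ∈ T \ C, w p ≤ w q) ∧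
      b * ∏ p ∈ C, (w p - 1) ≤ a * ∏ p ∈ C, w p ∧
      a * ∏ p ∈ C, w p + 1 ≤ (a + 1) ^ 2 ^ C.card ∧
      ∀ C' ⊆ C, (∀ p ∈ C', ∀ q ∈ C \ C', w p ≤ w q) →
        (a : ℝ) * ∏ p ∈ C', (w p : ℝ) <
          Real.exp ((C \ C').card : ℝ) * ((a : ℝ) + 1) ^ (2 ^ C'.card) := by
  obtain ⟨g, hg1, hg2, hg3⟩ := enum w T.card T rfl
  have hginj : ∀ i < T.card, ∀ j < T.card, g i = g j → i = j := by
    intro i hi j hj h
    exact hg1 (by simpa using hi) (by simpa using hj) h
  have hgmem : ∀ i < T.card, g i ∈ T := by
    intro i hi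
    rw [hg2]; exact Finset.mem_image_of_mem _ (Finset.mem_range.2 hi)
  -- products over initial segments
  have hprod : ∀ (f : ℕ → ℕ) (i : ℕ), i ≤ T.card →
      ∏ p ∈ (range i).image g, f p = ∏ l ∈ range i, f (g l) := by
    intro f i hi
    apply Finset.prod_image
    intro a ha b hb h
    have ha' : a < i := by simpa using ha
    have hb' : b < i := by simpa using hb
    exact hginj a (by omega) b (by omega) h
  have hcard : ∀ i ≤ T.card, ((range i).image g).card = i := by
    intro i hi
    rw [Finset.card_image_of_injOn, Finset.card_range]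
    intro a ha b hb h
    have ha' : a < i := by simpa using ha
    have hb' : b < i := by simpa using hb
    exact hginj a (by omega) b (by omega) h
  have hex : ∃ m, b * ∏ l ∈ range m, (w (g l) - 1) ≤ a * ∏ l ∈ range m, w (g l) := by
    refine ⟨T.card, ?_⟩
    rw [← hprod (fun p => w p - 1) T.card le_rfl, ← hprod w T.card le_rfl, ← hg2]
    exact hT
  classical
  obtain ⟨m, hm, hmin⟩ : ∃ m, (b * ∏ l ∈ range m, (w (g l) - 1) ≤ a * ∏ l ∈ range m, w (g l)) ∧
      ∀ i < m, a * ∏ l ∈ range i, w (g l) < b * ∏ l ∈ range i, (w (g l) - 1) := by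
    refine ⟨Nat.find hex, Nat.find_spec hex, ?_⟩
    intro i hi
    have := Nat.find_min hex hi
    push Not at this
    exact this
  have hmT : m ≤ T.card := by
    by_contra h
    push Not at h
    have h1 := hmin T.card h
    rw [← hprod (fun p => w p - 1) T.card le_rfl, ← hprod w T.card le_rfl, ← hg2] at h1
    omega
  have hm1 : 1 ≤ m := by
    by_contra h
    have h0 : m = 0 := by omega
    subst h0
    simp at hm
    omega
  have hw2 : ∀ i < m, 2 ≤ w (g i) := fun i hi => hw _ (hgmem i (by omega))
  have hmono : ∀ i, i + 1 < m → w (g i) ≤ w (g (i + 1)) :=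
    fun i hi => hg3 i (i + 1) (by omega) (by omega)
  refine ⟨(range m).image g, ?_, ?_, ?_, ?_, ?_, ?_⟩
  · intro p hp
    obtain ⟨i, hi, rfl⟩ := Finset.mem_image.1 hp
    exact hgmem i (by have := Finset.mem_range.1 hi; omega)
  · exact ⟨g 0, Finset.mem_image_of_mem _ (Finset.mem_range.2 (by omega))⟩
  · intro p hp q hq
    obtain ⟨i, hi, rfl⟩ := Finset.mem_image.1 hp
    obtain ⟨hq1, hq2⟩ := Finset.mem_sdiff.1 hq
    rw [hg2] at hq1
    obtain ⟨j, hj, rfl⟩ := Finset.mem_image.1 hq1
    have hi' := Finset.mem_range.1 hi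
    have hj' := Finset.mem_range.1 hj
    apply hg3 i j _ hj'
    by_contra h
    exact hq2 (Finset.mem_image_of_mem _ (Finset.mem_range.2 (by omega)))
  · rw [hprod (fun p => w p - 1) m hmT, hprod w m hmT]
    exact hm
  · rw [hprod w m hmT, hcard m hmT]
    exact hb_full (fun l => w (g l)) ha (by omega) hw2 hmono hm hmin
  · intro C' hC' hini
    have hC'eq : C' = (range C'.card).image g := by
      have hle : C'.card ≤ m := by
        have := Finset.card_le_card hC'
        rw [hcard m hmT] at this
        exact this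
      have hcc := hcard C'.card (by omega)
      by_contra hne
      have hnsub : ¬ (C' ⊆ (range C'.card).image g) := by
        intro hsub
        exact hne (Finset.eq_of_subset_of_card_le hsub (by rw [hcc]))
      have hnsub2 : ¬ ((range C'.card).image g ⊆ C') := by
        intro hsub
        exact hne (Finset.eq_of_subset_of_card_le hsub (by rw [hcc])).symm
      obtain ⟨p, hp1, hp2⟩ := Finset.not_subset.1 hnsub
      obtain ⟨q, hq1, hq2⟩ := Finset.not_subset.1 hnsub2
      have hpC := hC' hp1
      obtain ⟨i, hi, hi2⟩ := Finset.mem_image.1 hpC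
      obtain ⟨j, hj, hj2⟩ := Finset.mem_image.1 hq1
      have hi' := Finset.mem_range.1 hi
      have hj' := Finset.mem_range.1 hj
      have hqC : q ∈ (range m).image g := by
        rw [← hj2]; exact Finset.mem_image_of_mem _ (Finset.mem_range.2 (by omega))
      have h1 := hini p hp1 q (Finset.mem_sdiff.2 ⟨hqC, hq2⟩)
      have hij : C'.card ≤ i := by
        by_contra h
        push Not at h
        apply hp2
        rw [← hi2]; exact Finset.mem_image_of_mem _ (Finset.mem_range.2 h)
      have h2 := hg3 j i (by omega) (by omega)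
      rw [hi2, hj2] at h2
      have h3 : p = q := by
        apply hinj p _ q _ (le_antisymm h1 h2)
        · rw [← hi2]; exact hgmem i (by omega)
        · rw [← hj2]; exact hgmem j (by omega)
      rw [h3] at hp1
      exact hq2 hp1
    have hle : C'.card ≤ m := by
      have := Finset.card_le_card hC'
      rw [hcard m hmT] at this
      exact this
    have h := HB.hb (fun l => w (g l)) ha (by omega : 0 < b) hw2 hmono hm hmin hle
    have e1 : ∏ p ∈ C', (w p : ℝ) = ∏ l ∈ range C'.card, (w (g l) : ℝ) := by
      have h1 := hprod w C'.card (by omega)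
      rw [← hC'eq] at h1
      exact_mod_cast h1
    have e2 : (((range m).image g \ C').card : ℝ) = (m : ℝ) - C'.card := by
      rw [Finset.card_sdiff_of_subset hC', hcard m hmT, Nat.cast_sub hle]
    rw [e1, e2]
    have e3 : ((G a C'.card : ℕ) : ℝ) = ((a : ℝ) + 1) ^ (2 ^ C'.card) := by
      unfold G; push_cast; ring
    rw [e3] at h
    exact h

end Pool.Agent.Lib.MP_f02ea4_nt.HB
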