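import Mathlib
import Pool.Agent.Lib.MP_f02ea4_nt.SigmaBasics

/-!
# Two prime power components of an odd perfect number

If `N = p ^ k * q ^ l * R` is an odd perfect number, `p ≠ q` primes not dividing `R`, `k, l ≥ 1`,
then `(p ^ k * q ^ l) ^ 5 < 864 * N ^ 4`.
-/

set_option autoImplicit false

namespace Pool.Agent.Lib.MP_f02ea4_nt.IdxTwo

open Pool.Agent.Lib.MP_f02ea4_nt.Sb Finset

/-- the numerical core -/
theorem core {p k u V Q : ℕ} (hp : 3 ≤ p) (hk : 2 ≤ k) (hk3 : k ≠ 3) (hu : u ≤ k) (hV : 1 ≤ V)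
    (h1 : Q ≤ 2 * (p ^ u * V * p)) (h2 : 2 * p ^ k ≤ 3 * (p ^ u * Q)) :
    p ^ k * Q ≤ 54 * (p ^ u * V) ^ 4 := by
  have hpos : 0 < p := by omega
  -- `p ^ (k-1) ≤ 3 p ^ (2u) V`
  have h3 : p ^ (k - 1) ≤ 3 * (p ^ (2 * u) * V) := by
    have h4 : 2 * p ^ k ≤ 6 * (p ^ (2 * u) * V * p) := by
      calc 2 * p ^ k ≤ 3 * (p ^ u * Q) := h2
        _ ≤ 3 * (p ^ u * (2 * (p ^ u * V * p))) :=
            Nat.mul_le_mul_left _ (Nat.mul_le_mul_left _ h1)
        _ = 6 * (p ^ (2 * u) * V * p) := by rw [two_mul u, pow_add]; ring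
    have h5 : p ^ k = p ^ (k - 1) * p := by rw [← pow_succ]; congr 1; omega
    rw [h5] at h4
    have h6 : p ^ (k - 1) * p ≤ 3 * (p ^ (2 * u) * V) * p := by
      calc p ^ (k - 1) * p ≤ 3 * (p ^ (2 * u) * V * p) := by omega
        _ = _ := by ring
    exact Nat.le_of_mul_le_mul_right h6 hpos
  -- `P Q ≤ 2 p ^ (k+u+1) V`
  have h7 : p ^ k * Q ≤ 2 * (p ^ (k + u + 1) * V) := by
    calc p ^ k * Q ≤ p ^ k * (2 * (p ^ u * V * p)) := Nat.mul_le_mul_left _ h1
      _ = 2 * (p ^ (k + u + 1) * V) := by rw [pow_succ, pow_add]; ring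
  refine h7.trans ?_
  have hV3 : 1 ≤ V ^ 3 := Nat.one_le_pow _ _ hV
  suffices h : p ^ (k + u + 1) ≤ 27 * (p ^ (4 * u) * V ^ 3) by
    calc 2 * (p ^ (k + u + 1) * V) ≤ 2 * (27 * (p ^ (4 * u) * V ^ 3) * V) :=
          Nat.mul_le_mul_left _ (Nat.mul_le_mul_right _ h)
      _ = 54 * (p ^ u * V) ^ 4 := by rw [mul_pow, ← pow_mul, mul_comm u 4]; ring
  rcases Nat.lt_or_ge (k - 1) (2 * u) with hlt | hge
  · -- `2u ≥ k`
    have h8 : k + u + 1 ≤ 4 * u ∨ (k = 2 ∧ u = 1) := by omega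
    rcases h8 with h8 | ⟨h8, h9⟩
    · calc p ^ (k + u + 1) ≤ p ^ (4 * u) := Nat.pow_le_pow_right hpos h8
        _ = 1 * (p ^ (4 * u) * 1) := by ring
        _ ≤ 27 * (p ^ (4 * u) * V ^ 3) :=
            Nat.mul_le_mul (by norm_num) (Nat.mul_le_mul_left _ hV3)
    · subst h8; subst h9
      calc p ^ (2 + 1 + 1) = 1 * (p ^ (4 * 1) * 1) := by ring
        _ ≤ 27 * (p ^ (4 * 1) * V ^ 3) :=
            Nat.mul_le_mul (by norm_num) (Nat.mul_le_mul_left _ hV3)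
  · -- `2u ≤ k - 1`
    have h8 : p ^ (k - 1 - 2 * u) ≤ 3 * V := by
      have h9 : p ^ (2 * u) * p ^ (k - 1 - 2 * u) ≤ p ^ (2 * u) * (3 * V) := by
        calc p ^ (2 * u) * p ^ (k - 1 - 2 * u) = p ^ (k - 1) := by
              rw [← pow_add]; congr 1; omega
          _ ≤ 3 * (p ^ (2 * u) * V) := h3
          _ = _ := by ring
      exact Nat.le_of_mul_le_mul_left h9 (by positivity)
    have h9 : p ^ (3 * (k - 1 - 2 * u)) ≤ 27 * V ^ 3 := by
      calc p ^ (3 * (k - 1 - 2 * u)) = (p ^ (k - 1 - 2 * u)) ^ 3 := by rw [← pow_mul]; ring_nf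
        _ ≤ (3 * V) ^ 3 := Nat.pow_le_pow_left h8 3
        _ = 27 * V ^ 3 := by ring
    have h10 : k + u + 1 ≤ 4 * u + 3 * (k - 1 - 2 * u) := by omega
    calc p ^ (k + u + 1) ≤ p ^ (4 * u + 3 * (k - 1 - 2 * u)) := Nat.pow_le_pow_right hpos h10
      _ = p ^ (4 * u) * p ^ (3 * (k - 1 - 2 * u)) := pow_add _ _ _
      _ ≤ p ^ (4 * u) * (27 * V ^ 3) := Nat.mul_le_mul_left _ h9
      _ = _ := by ring

/-- the congruence -/
theorem congr {p q k l c c' κ lam u v : ℕ} (hp : p.Prime) (hq : q.Prime) (hpq : p ≠ q)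
    (hQ : sg (q ^ l) = c * p ^ κ) (hP : sg (p ^ k) = c' * q ^ lam)
    (hu : u + κ = k) (hv : v + lam = l) : q ^ lam ∣ p ^ (u + 1) + c * (q - 1) := by
  have h1 := sg_pow hq l
  have h2 := sg_pow hp k
  have h3 : p ^ κ * (p ^ (u + 1) + c * (q - 1)) = (p - 1) * sg (p ^ k) + q ^ (l + 1) := by
    rw [← h1, hQ, mul_add, ← pow_add]
    have h4 : κ + (u + 1) = k + 1 := by omega
    rw [h4, ← h2]
    ring
  have h4 : q ^ lam ∣ p ^ κ * (p ^ (u + 1) + c * (q - 1)) := by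
    rw [h3, hP]
    exact dvd_add (Dvd.dvd.mul_left (Dvd.intro_left c' rfl) _) (pow_dvd_pow q (by omega))
  have hcop : Nat.Coprime (q ^ lam) (p ^ κ) :=
    Nat.Coprime.pow _ _ ((Nat.coprime_primes hq hp).2 hpq.symm)
  exact hcop.dvd_of_dvd_mul_left h4

/-- alternative -/
theorem alt {p q k l c c' κ lam u v : ℕ} (hp : p.Prime) (hq : q.Prime) (hpq : p ≠ q)
    (_hq2 : q ≠ 2) (hc : 1 ≤ c)
    (hQ : sg (q ^ l) = c * p ^ κ) (hP : sg (p ^ k) = c' * q ^ lam)
    (hu : u + κ = k) (hv : v + lam = l) :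
    q ^ l ≤ 2 * (p ^ u * q ^ v * p) ∨ p ^ k ≤ 2 * (p ^ u * q ^ v * q) := by
  have h1 := congr hp hq hpq hQ hP hu hv
  have h2 : q ^ lam ≤ p ^ (u + 1) + c * (q - 1) :=
    Nat.le_of_dvd (by have := hp.pos; positivity) h1
  have hql : q ^ l = q ^ v * q ^ lam := by rw [← pow_add, hv]
  have hpk : p ^ k = p ^ u * p ^ κ := by rw [← pow_add, hu]
  rcases Nat.lt_or_ge (p ^ (u + 1)) (c * (q - 1)) with hlt | hge
  · right
    have h3 : q ^ lam ≤ 2 * (c * (q - 1)) := by omega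
    have h4 := sg_pow hq l
    rw [hQ] at h4
    have h5 : q ^ lam * p ^ κ ≤ q ^ lam * (2 * q ^ (v + 1)) := by
      calc q ^ lam * p ^ κ ≤ 2 * (c * (q - 1)) * p ^ κ := Nat.mul_le_mul_right _ h3
        _ = 2 * ((q - 1) * (c * p ^ κ)) := by ring
        _ ≤ 2 * q ^ (l + 1) := by omega
        _ = q ^ lam * (2 * q ^ (v + 1)) := by
            rw [← hv]
            rw [show v + lam + 1 = lam + (v + 1) by ring, pow_add q lam]
            ring
    have h6 : p ^ κ ≤ 2 * q ^ (v + 1) := Nat.le_of_mul_le_mul_left h5 (by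
      have := hq.pos; positivity)
    rw [hpk]
    calc p ^ u * p ^ κ ≤ p ^ u * (2 * q ^ (v + 1)) := Nat.mul_le_mul_left _ h6
      _ = _ := by rw [pow_succ]; ring
  · left
    have h3 : q ^ lam ≤ 2 * p ^ (u + 1) := by omega
    rw [hql]
    calc q ^ v * q ^ lam ≤ q ^ v * (2 * p ^ (u + 1)) := Nat.mul_le_mul_left _ h3
      _ = _ := by rw [pow_succ]; ring

/-- the case `k = 1`, `u = 0` -/
theorem one {p q l c c' lam v : ℕ} (hp : p.Prime) (hq : q.Prime) (hpq : p ≠ q)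
    (hq2 : q ≠ 2) (hc : 1 ≤ c)
    (hQ : sg (q ^ l) = c * p ^ 1) (hP : sg (p ^ 1) = c' * q ^ lam)
    (hv : v + lam = l) : p ^ 1 ≤ 2 * (p ^ 0 * q ^ v * q) := by
  have h1 := congr (k := 1) (u := 0) hp hq hpq hQ hP (by omega) hv
  have hq3 : 3 ≤ q := by have := hq.two_le; omega
  have h2 : q ^ lam ∣ p + 1 := by
    rw [sg_prime hp] at hP
    rw [hP]
    exact Dvd.intro_left c' rfl
  have h3 : 2 ≤ c * (q - 1) := by
    calc 2 = 1 * 2 := by ring
      _ ≤ c * (q - 1) := Nat.mul_le_mul hc (by omega)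
  have h4 : q ^ lam ∣ c * (q - 1) - 1 := by
    have h5 : p ^ (0 + 1) + c * (q - 1) = (p + 1) + (c * (q - 1) - 1) := by
      rw [zero_add, pow_one]; omega
    rw [h5] at h1
    exact (Nat.dvd_add_right h2).1 h1
  have h5 : q ^ lam ≤ c * (q - 1) := by
    have := Nat.le_of_dvd (by omega) h4
    omega
  have h6 := sg_pow hq l
  rw [hQ, pow_one] at h6
  have h7 : q ^ lam * p ≤ q ^ lam * q ^ (v + 1) := by
    calc q ^ lam * p ≤ c * (q - 1) * p := Nat.mul_le_mul_right _ h5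
      _ = (q - 1) * (c * p) := by ring
      _ ≤ q ^ (l + 1) := by omega
      _ = q ^ lam * q ^ (v + 1) := by rw [← pow_add]; congr 1; omega
  have h8 : p ≤ q ^ (v + 1) := Nat.le_of_mul_le_mul_left h7 (by positivity)
  rw [pow_one, pow_zero, one_mul, ← pow_succ]
  omega

theorem sg_perfect {N : ℕ} (hperf : Nat.Perfect N) : sg N = 2 * N := by
  rw [sg, ArithmeticFunction.sigma_one_apply]
  exact (Nat.perfect_iff_sum_divisors_eq_two_mul hperf.2).1 hperf

theorem two_sg_le {q l : ℕ} (hq : q.Prime) (hq2 : q ≠ 2) : 2 * sg (q ^ l) ≤ 3 * q ^ l := by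
  have h1 := sg_pow hq l
  have hq3 : 3 ≤ q := by have := hq.two_le; omega
  obtain ⟨w, rfl⟩ : ∃ w, q = w + 3 := ⟨q - 3, by omega⟩
  rw [pow_succ] at h1
  simp only [Nat.add_sub_cancel, show w + 3 - 1 = w + 2 by omega] at h1
  by_contra hcon
  push Not at hcon
  have h2 : (w + 2) * (3 * (w + 3) ^ l) < (w + 2) * (2 * sg ((w + 3) ^ l)) :=
    Nat.mul_lt_mul_of_pos_left hcon (by omega)
  have h3 : (w + 2) * (2 * sg ((w + 3) ^ l)) = 2 * ((w + 2) * sg ((w + 3) ^ l)) := by ring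
  have h4 : (w + 2) * (3 * (w + 3) ^ l) = 2 * ((w + 3) ^ l * (w + 3)) + w * (w + 3) ^ l := by ring
  omega

theorem two_dvd_sg {q l : ℕ} (hq : q.Prime) (hq2 : q ≠ 2) (hl : Odd l) : 2 ∣ sg (q ^ l) := by
  rw [sg, ArithmeticFunction.sigma_one_apply_prime_pow hq, ← ZMod.natCast_eq_zero_iff]
  push_cast
  have hqo : (q : ZMod 2) = 1 := ZMod.natCast_eq_one_iff_odd.2 (hq.odd_of_ne_two hq2)
  rw [hqo]
  simp only [one_pow, Finset.sum_const, Finset.card_range, nsmul_eq_mul, mul_one]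
  have : Even (l + 1) := hl.add_one
  rw [ZMod.natCast_eq_zero_iff]
  exact even_iff_two_dvd.1 this

theorem four_dvd_sg_cube {q : ℕ} (hq : q.Prime) (hq2 : q ≠ 2) : 4 ∣ sg (q ^ 3) := by
  have h1 : sg (q ^ 3) = (1 + q) * (1 + q ^ 2) := by
    rw [sg, ArithmeticFunction.sigma_one_apply_prime_pow hq]
    simp [Finset.sum_range_succ]
    ring
  rw [h1]
  have ho := hq.odd_of_ne_two hq2
  have h2 : 2 ∣ 1 + q := by
    have := ho.add_one
    rw [add_comm]
    exact even_iff_two_dvd.1 this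
  have h3 : 2 ∣ 1 + q ^ 2 := by
    have := (ho.pow (n := 2)).add_one
    rw [add_comm]
    exact even_iff_two_dvd.1 this
  have := Nat.mul_dvd_mul h2 h3
  simpa using this

theorem final {p q k l u v : ℕ} (hp3 : 3 ≤ p) (hq3 : 3 ≤ q) (hk : 1 ≤ k) (hl : 1 ≤ l)
    (hk3 : k ≠ 3) (hl3 : l ≠ 3) (hkl : ¬ (k = 1 ∧ l = 1)) (hu : u ≤ k) (hv : v ≤ l)
    (halt : q ^ l ≤ 2 * (p ^ u * q ^ v * p) ∨ p ^ k ≤ 2 * (p ^ u * q ^ v * q))
    (h1 : 2 * p ^ k ≤ 3 * (p ^ u * q ^ l)) (h2 : 2 * q ^ l ≤ 3 * (q ^ v * p ^ k))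
    (hk1 : k = 1 → u = 0 → p ^ k ≤ 2 * (p ^ u * q ^ v * q))
    (hl1 : l = 1 → v = 0 → q ^ l ≤ 2 * (p ^ u * q ^ v * p)) :
    p ^ k * q ^ l ≤ 54 * (p ^ u * q ^ v) ^ 4 := by
  have hpp : 0 < p := by omega
  have hqp : 0 < q := by omega
  have hU : 1 ≤ p ^ u := Nat.one_le_pow _ _ hpp
  have hV : 1 ≤ q ^ v := Nat.one_le_pow _ _ hqp
  have caseP : 2 ≤ k → q ^ l ≤ 2 * (p ^ u * q ^ v * p) →
      p ^ k * q ^ l ≤ 54 * (p ^ u * q ^ v) ^ 4 := fun hk2 h => core hp3 hk2 hk3 hu hV h h1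
  have caseQ : 2 ≤ l → p ^ k ≤ 2 * (p ^ u * q ^ v * q) →
      p ^ k * q ^ l ≤ 54 * (p ^ u * q ^ v) ^ 4 := by
    intro hl2 h
    have := core (p := q) (k := l) (u := v) (V := p ^ u) (Q := p ^ k) hq3 hl2 hl3 hv hU
      (by rw [mul_comm (q ^ v) (p ^ u)]; exact h) h2
    rw [mul_comm (q ^ l) (p ^ k), mul_comm (q ^ v) (p ^ u)] at this
    exact this
  -- the case `k = 1 = u`
  have caseK : k = 1 → u = 1 → q ^ l ≤ 2 * (p ^ u * q ^ v * p) →
      p ^ k * q ^ l ≤ 54 * (p ^ u * q ^ v) ^ 4 := by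
    rintro rfl rfl h
    rw [pow_one] at h ⊢
    have hV3 : 1 ≤ q ^ v ^ 1 * 1 := by simpa using hV
    calc p * q ^ l ≤ p * (2 * (p * q ^ v * p)) := Nat.mul_le_mul_left _ h
      _ = 2 * (p ^ 3 * q ^ v) := by ring
      _ ≤ 54 * (p ^ 4 * (q ^ v) ^ 4) := by
          apply Nat.mul_le_mul (by norm_num)
          apply Nat.mul_le_mul (Nat.pow_le_pow_right hpp (by norm_num))
          exact Nat.le_self_pow (by norm_num) _
      _ = 54 * (p * q ^ v) ^ 4 := by rw [mul_pow]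
  have caseL : l = 1 → v = 1 → p ^ k ≤ 2 * (p ^ u * q ^ v * q) →
      p ^ k * q ^ l ≤ 54 * (p ^ u * q ^ v) ^ 4 := by
    rintro rfl rfl h
    rw [pow_one] at h ⊢
    calc p ^ k * q ≤ (2 * (p ^ u * q * q)) * q := Nat.mul_le_mul_right _ h
      _ = 2 * (p ^ u * q ^ 3) := by ring
      _ ≤ 54 * ((p ^ u) ^ 4 * q ^ 4) := by
          apply Nat.mul_le_mul (by norm_num)
          apply Nat.mul_le_mul (Nat.le_self_pow (by norm_num) _)
          exact Nat.pow_le_pow_right hqp (by norm_num)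
      _ = 54 * (p ^ u * q) ^ 4 := by rw [mul_pow]
  rcases Nat.lt_or_ge k 2 with hk2 | hk2
  · have hk' : k = 1 := by omega
    have hl2 : 2 ≤ l := by
      by_contra h
      exact hkl ⟨hk', by omega⟩
    rcases Nat.eq_zero_or_pos u with hu0 | hu1
    · exact caseQ hl2 (hk1 hk' hu0)
    · have hu' : u = 1 := by omega
      rcases halt with h | h
      · exact caseK hk' hu' h
      · exact caseQ hl2 h
  · rcases Nat.lt_or_ge l 2 with hl2 | hl2
    · have hl' : l = 1 := by omega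
      rcases Nat.eq_zero_or_pos v with hv0 | hv1
      · exact caseP hk2 (hl1 hl' hv0)
      · have hv' : v = 1 := by omega
        rcases halt with h | h
        · exact caseP hk2 h
        · exact caseL hl' hv' h
    · rcases halt with h | h
      · exact caseP hk2 h
      · exact caseQ hl2 h

/-- Two prime power components of an odd perfect number. -/
theorem two_comp {N p q k l R : ℕ} (hN : Odd N) (hperf : Nat.Perfect N) (hp : p.Prime)
    (hq : q.Prime) (hpq : p ≠ q) (hk : 1 ≤ k) (hl : 1 ≤ l) (hpR : ¬ p ∣ R) (hqR : ¬ q ∣ R)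
    (hNR : N = p ^ k * q ^ l * R) : (p ^ k * q ^ l) ^ 5 < 864 * N ^ 4 := by
  have hs := sg_perfect hperf
  have hR0 : R ≠ 0 := by rintro rfl; exact hpR (dvd_zero p)
  have hcopQR : Nat.Coprime (q ^ l) R :=
    Nat.Coprime.pow_left l ((Nat.Prime.coprime_iff_not_dvd hq).2 hqR)
  have hcopPR : Nat.Coprime (p ^ k) R :=
    Nat.Coprime.pow_left k ((Nat.Prime.coprime_iff_not_dvd hp).2 hpR)
  have hcopPQ : Nat.Coprime (p ^ k) (q ^ l) :=
    Nat.Coprime.pow _ _ ((Nat.coprime_primes hp hq).2 hpq)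
  have hsig : sg (p ^ k) * sg (q ^ l) * sg R = 2 * (p ^ k * q ^ l * R) := by
    rw [← sg_mul hcopPQ, ← sg_mul (Nat.Coprime.mul_left hcopPR hcopQR), ← hNR, hs]
  have hP0 : 0 < p ^ k := pow_pos hp.pos k
  have hQ0 : 0 < q ^ l := pow_pos hq.pos l
  have hNo := hN
  rw [hNR] at hNo
  have hPo := (Nat.odd_mul.1 (Nat.odd_mul.1 hNo).1).1
  have hQo := (Nat.odd_mul.1 (Nat.odd_mul.1 hNo).1).2
  have hp2 : p ≠ 2 := by
    rintro rfl
    have : Even (2 ^ k) := Nat.even_pow.2 ⟨even_two, by omega⟩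
    exact (Nat.not_even_iff_odd.2 hPo) this
  have hq2 : q ≠ 2 := by
    rintro rfl
    have : Even (2 ^ l) := Nat.even_pow.2 ⟨even_two, by omega⟩
    exact (Nat.not_even_iff_odd.2 hQo) this
  have hp3 : 3 ≤ p := by have := hp.two_le; omega
  have hq3 : 3 ≤ q := by have := hq.two_le; omega
  have hsP := sg_pos hP0
  have hsQ := sg_pos hQ0
  have hsR := sg_pos (Nat.pos_of_ne_zero hR0)
  -- not divisible by four
  have h4 : ¬ 4 ∣ sg (p ^ k) * sg (q ^ l) * sg R := by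
    rw [hsig]
    intro h
    have h5 : 2 * 2 ∣ 2 * (p ^ k * q ^ l * R) := by simpa using h
    have h6 := Nat.dvd_of_mul_dvd_mul_left (by norm_num) h5
    exact (Nat.not_even_iff_odd.2 hNo) (even_iff_two_dvd.2 h6)
  have hk3 : k ≠ 3 := by
    rintro rfl
    exact h4 (Dvd.dvd.mul_right (Dvd.dvd.mul_right (four_dvd_sg_cube hp hp2) _) _)
  have hl3 : l ≠ 3 := by
    rintro rfl
    exact h4 (Dvd.dvd.mul_right (Dvd.dvd.mul_left (four_dvd_sg_cube hq hq2) _) _)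
  have hkl : ¬ (k = 1 ∧ l = 1) := by
    rintro ⟨rfl, rfl⟩
    apply h4
    have h5 := Nat.mul_dvd_mul (two_dvd_sg hp hp2 odd_one) (two_dvd_sg hq hq2 odd_one)
    exact Dvd.dvd.mul_right (by simpa using h5) _
  -- valuations
  set κ := (sg (q ^ l)).factorization p with hκ
  set lam := (sg (p ^ k)).factorization q with hlam
  set u := (sg R).factorization p with hu
  set v := (sg R).factorization q with hv
  have hval : ∀ r : ℕ, (sg (p ^ k)).factorization r + (sg (q ^ l)).factorization r +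
      (sg R).factorization r = (2 : ℕ).factorization r + ((p ^ k).factorization r +
        (q ^ l).factorization r + R.factorization r) := by
    intro r
    have h5 : (sg (p ^ k) * sg (q ^ l) * sg R).factorization r =
        (2 * (p ^ k * q ^ l * R)).factorization r := by rw [hsig]
    rw [Nat.factorization_mul (by positivity) hsR.ne', Nat.factorization_mul hsP.ne' hsQ.ne',
      Nat.factorization_mul (by norm_num) (by positivity),
      Nat.factorization_mul (by positivity) hR0, Nat.factorization_mul hP0.ne' hQ0.ne'] at h5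
    simpa using h5
  have h2f : ∀ r : ℕ, r ≠ 2 → (2 : ℕ).factorization r = 0 := by
    intro r hr
    rw [Nat.Prime.factorization Nat.prime_two]
    exact Finsupp.single_eq_of_ne hr
  have hcoppP := coprime_sg_pow hp k
  have hcopqQ := coprime_sg_pow hq l
  have huκ : u + κ = k := by
    have h5 := hval p
    rw [h2f p hp2, Nat.factorization_eq_zero_of_not_dvd
      ((Nat.Prime.coprime_iff_not_dvd hp).1 hcoppP),
      Nat.factorization_eq_zero_of_not_dvd hpR, hp.factorization_pow, hq.factorization_pow,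
      Finsupp.single_eq_same, Finsupp.single_eq_of_ne hpq] at h5
    omega
  have hvlam : v + lam = l := by
    have h5 := hval q
    rw [h2f q hq2, Nat.factorization_eq_zero_of_not_dvd
      ((Nat.Prime.coprime_iff_not_dvd hq).1 hcopqQ),
      Nat.factorization_eq_zero_of_not_dvd hqR, hp.factorization_pow, hq.factorization_pow,
      Finsupp.single_eq_same, Finsupp.single_eq_of_ne hpq.symm] at h5
    omega
  obtain ⟨c, hc⟩ : ∃ c, sg (q ^ l) = c * p ^ κ :=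
    ⟨_, by rw [mul_comm]; exact (Nat.ordProj_mul_ordCompl_eq_self (sg (q ^ l)) p).symm⟩
  obtain ⟨c', hc'⟩ : ∃ c', sg (p ^ k) = c' * q ^ lam :=
    ⟨_, by rw [mul_comm]; exact (Nat.ordProj_mul_ordCompl_eq_self (sg (p ^ k)) q).symm⟩
  have hc1 : 1 ≤ c := by
    rcases Nat.eq_zero_or_pos c with h | h
    · rw [h, zero_mul] at hc; omega
    · exact h
  have hc1' : 1 ≤ c' := by
    rcases Nat.eq_zero_or_pos c' with h | h
    · rw [h, zero_mul] at hc'; omega
    · exact h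
  -- `U V ≤ σ(R) < 2 R`
  have hUV : p ^ u * q ^ v ≤ sg R := by
    apply Nat.le_of_dvd hsR
    apply Nat.Coprime.mul_dvd_of_dvd_of_dvd
    · exact Nat.Coprime.pow _ _ ((Nat.coprime_primes hp hq).2 hpq)
    · exact Nat.ordProj_dvd _ _
    · exact Nat.ordProj_dvd _ _
  have hR2 : sg R < 2 * R := by
    have h5 : p ^ k < sg (p ^ k) := by
      have h6 := sg_pow hp k
      by_contra h
      push Not at h
      have h7 : (p - 1) * sg (p ^ k) ≤ (p - 1) * p ^ k := Nat.mul_le_mul_left _ h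
      have h8 : p ^ (k + 1) = (p - 1) * p ^ k + p ^ k := by
        obtain ⟨w, hw⟩ : ∃ w, p = w + 1 := ⟨p - 1, by omega⟩
        rw [hw]; simp only [Nat.add_sub_cancel]; ring
      have h9 : 3 ≤ p ^ k := by
        calc 3 ≤ p := hp3
          _ ≤ p ^ k := Nat.le_self_pow (by omega) p
      omega
    have h6 : q ^ l ≤ sg (q ^ l) := le_sg hQ0
    by_contra h
    push Not at h
    have h7 : p ^ k * q ^ l * (2 * R) < sg (p ^ k) * sg (q ^ l) * sg R := by
      calc p ^ k * q ^ l * (2 * R) ≤ p ^ k * sg (q ^ l) * sg R :=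
            Nat.mul_le_mul (Nat.mul_le_mul_left _ h6) h
        _ < sg (p ^ k) * sg (q ^ l) * sg R :=
            Nat.mul_lt_mul_of_pos_right (Nat.mul_lt_mul_of_pos_right h5 hsQ) hsR
    rw [hsig] at h7
    have : p ^ k * q ^ l * (2 * R) = 2 * (p ^ k * q ^ l * R) := by ring
    omega
  have halt := alt hp hq hpq hq2 hc1 hc hc' huκ hvlam
  have hPle : 2 * p ^ k ≤ 3 * (p ^ u * q ^ l) := by
    have h5 : p ^ κ ≤ sg (q ^ l) := by rw [hc]; exact Nat.le_mul_of_pos_left _ hc1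
    have h6 := two_sg_le (l := l) hq hq2
    calc 2 * p ^ k = p ^ u * (2 * p ^ κ) := by rw [← huκ, pow_add]; ring
      _ ≤ p ^ u * (3 * q ^ l) := Nat.mul_le_mul_left _ (by omega)
      _ = _ := by ring
  have hQle : 2 * q ^ l ≤ 3 * (q ^ v * p ^ k) := by
    have h5 : q ^ lam ≤ sg (p ^ k) := by rw [hc']; exact Nat.le_mul_of_pos_left _ hc1'
    have h6 := two_sg_le (l := k) hp hp2
    calc 2 * q ^ l = q ^ v * (2 * q ^ lam) := by rw [← hvlam, pow_add]; ring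
      _ ≤ q ^ v * (3 * p ^ k) := Nat.mul_le_mul_left _ (by omega)
      _ = _ := by ring
  have hk1 : k = 1 → u = 0 → p ^ k ≤ 2 * (p ^ u * q ^ v * q) := by
    intro h5 h6
    have h7 : κ = 1 := by omega
    rw [h7] at hc
    rw [h5] at hc' ⊢
    rw [h6]
    exact one hp hq hpq hq2 hc1 hc hc' hvlam
  have hl1 : l = 1 → v = 0 → q ^ l ≤ 2 * (p ^ u * q ^ v * p) := by
    intro h5 h6
    have h7 : lam = 1 := by omega
    rw [h7] at hc'
    rw [h5] at hc ⊢
    rw [h6, mul_comm (p ^ u) (q ^ 0)]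
    exact one hq hp hpq.symm hp2 hc1' hc' hc huκ
  have hfin := final hp3 hq3 hk hl hk3 hl3 hkl (by omega) (by omega) halt hPle hQle hk1 hl1
  -- conclusion
  have h5 : p ^ k * q ^ l < 864 * R ^ 4 := by
    have h6 : (p ^ u * q ^ v) ^ 4 < (2 * R) ^ 4 :=
      Nat.pow_lt_pow_left (lt_of_le_of_lt hUV hR2) (by norm_num)
    calc p ^ k * q ^ l ≤ 54 * (p ^ u * q ^ v) ^ 4 := hfin
      _ < 54 * (2 * R) ^ 4 := Nat.mul_lt_mul_of_pos_left h6 (by norm_num)
      _ = 864 * R ^ 4 := by ring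
  calc (p ^ k * q ^ l) ^ 5 = (p ^ k * q ^ l) ^ 4 * (p ^ k * q ^ l) := by ring
    _ < (p ^ k * q ^ l) ^ 4 * (864 * R ^ 4) := Nat.mul_lt_mul_of_pos_left h5 (by positivity)
    _ = 864 * N ^ 4 := by rw [hNR]; ring

end Pool.Agent.Lib.MP_f02ea4_nt.IdxTwo
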