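import Mathlib
import Pool.Agent.Lib.MP_f02ea4_nt.SigmaBasics

/-!
# The `k`-th largest prime factor of an odd perfect number

If `k` distinct primes, all at least `w`, divide an odd perfect number `N`, then
`w ^ (2 * k + 1) ≤ 16 * k * N`.

Write `N = I * R` with `I` the product of the `k` prime powers exactly dividing `N`,
`J = gcd I (σ I)`, `I = J * L`, `σ I = J * K`.  The number `L` is not `1`, it divides `σ R` and
`K` divides `2 * R`.  If `L` has two prime factors then `w ^ 2 ≤ L ≤ 2 * R`.  If `L = l` is a prime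
then `K = l + j` with `w * j ≤ 2 * k * l`, and a prime power `p ^ a` exactly dividing `R` with
`σ (p ^ a) = c * l` shares with `K` at most `2 * c * j`; hence `R` is at least about
`l ^ 2 / (8 * j)`.
-/

namespace Pool.Agent.Lib.MP_f02ea4_nt.KthLargest

open Finset Pool.Agent.Lib.MP_f02ea4_nt.Sb

theorem comp_bound {p w e : ℕ} (hp : p.Prime) (hw : w ≤ p) (hw1 : 1 ≤ w) :
    ((w : ℤ) - 1) * (sg (p ^ e) : ℤ) ≤ w * ((p ^ e : ℕ) : ℤ) := by
  have h := sg_pow_int hp e
  have hp2 : (2 : ℤ) ≤ p := by exact_mod_cast hp.two_le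
  have hwp : (w : ℤ) ≤ p := by exact_mod_cast hw
  have hw1' : (1 : ℤ) ≤ w := by exact_mod_cast hw1
  have hpe : (0 : ℤ) < (p : ℤ) ^ e := by positivity
  have h1 : ((p : ℤ) - 1) * ((w - 1) * (sg (p ^ e) : ℤ)) ≤ ((p : ℤ) - 1) * (w * (p : ℤ) ^ e) := by
    have h2 : ((p : ℤ) - 1) * (sg (p ^ e) : ℤ) ≤ p * (p : ℤ) ^ e := by
      have : (p : ℤ) ^ (e + 1) = p * (p : ℤ) ^ e := by ring
      linarith
    have h3 : ((w : ℤ) - 1) * (((p : ℤ) - 1) * (sg (p ^ e) : ℤ)) ≤
        ((w : ℤ) - 1) * (p * (p : ℤ) ^ e) := mul_le_mul_of_nonneg_left h2 (by omega)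
    have h4 : ((w : ℤ) - 1) * p ≤ ((p : ℤ) - 1) * w := by nlinarith
    have h5 : (((w : ℤ) - 1) * p) * (p : ℤ) ^ e ≤ (((p : ℤ) - 1) * w) * (p : ℤ) ^ e :=
      mul_le_mul_of_nonneg_right h4 hpe.le
    nlinarith
  push_cast
  exact le_of_mul_le_mul_left h1 (by omega)

theorem prod_bound (S : Finset ℕ) (e : ℕ → ℕ) (w : ℕ) (hS : ∀ p ∈ S, p.Prime ∧ w ≤ p)
    (hw : S.card < w) :
    ((w : ℤ) - S.card) * (∏ p ∈ S, (sg (p ^ e p) : ℤ)) ≤ w * ∏ p ∈ S, ((p ^ e p : ℕ) : ℤ) := by
  classical
  induction S using Finset.induction_on with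
  | empty => simp
  | insert t S ht ih =>
    rw [Finset.prod_insert ht, Finset.prod_insert ht, Finset.card_insert_of_notMem ht]
    rw [Finset.card_insert_of_notMem ht] at hw
    have ih' := ih (fun p hp => hS p (Finset.mem_insert_of_mem hp)) (by omega)
    have ht' := hS t (Finset.mem_insert_self t S)
    have hc := comp_bound (e := e t) ht'.1 ht'.2 (by omega)
    have hwk : (S.card : ℤ) + 1 < w := by exact_mod_cast hw
    set A : ℤ := (sg (t ^ e t) : ℤ) with hA
    set B : ℤ := ∏ p ∈ S, (sg (p ^ e p) : ℤ) with hB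
    set a : ℤ := ((t ^ e t : ℕ) : ℤ) with ha
    set b : ℤ := ∏ p ∈ S, ((p ^ e p : ℕ) : ℤ) with hb
    have hA0 : 0 ≤ A := by rw [hA]; exact Int.natCast_nonneg _
    have hB0 : 0 ≤ B := by rw [hB]; exact Finset.prod_nonneg (fun p _ => Int.natCast_nonneg _)
    have ha0 : 0 ≤ a := by rw [ha]; exact Int.natCast_nonneg _
    have hw0 : (0 : ℤ) < w := by omega
    have hk0 : (0 : ℤ) ≤ S.card := Int.natCast_nonneg _
    have h1 : (((w : ℤ) - 1) * A) * (((w : ℤ) - S.card) * B) ≤ (w * a) * (w * b) := by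
      apply mul_le_mul hc ih'
      · exact mul_nonneg (by omega) hB0
      · exact mul_nonneg hw0.le ha0
    have h2 : (w : ℤ) * (w - (S.card + 1)) ≤ (w - 1) * (w - S.card) := by nlinarith
    have h3 : ((w : ℤ) * (w - (S.card + 1))) * (A * B) ≤ ((w - 1) * (w - S.card)) * (A * B) :=
      mul_le_mul_of_nonneg_right h2 (mul_nonneg hA0 hB0)
    have h4 : (w : ℤ) * ((w - (S.card + 1)) * (A * B)) ≤ w * (w * (a * b)) := by nlinarith
    push_cast
    exact le_of_mul_le_mul_left h4 hw0

theorem key {I R w k : ℕ} (hI : 1 < I) (hR : 0 < R) (hRo : Odd R)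
    (hs : sg I * sg R = 2 * (I * R)) (hu : Unit2 R)
    (hw : ∀ p, p.Prime → p ∣ I → w ≤ p) (hkw : 2 * k < w) (hk : 1 ≤ k)
    (hb : ((w : ℤ) - k) * (sg I : ℤ) ≤ w * I) : w ^ 2 ≤ 16 * k * R := by
  have hI0 : 0 < I := by omega
  have hJ : 0 < Nat.gcd I (sg I) := Nat.gcd_pos_of_pos_left _ hI0
  obtain ⟨L, hL⟩ := Nat.gcd_dvd_left I (sg I)
  obtain ⟨K, hK⟩ := Nat.gcd_dvd_right I (sg I)
  have hLK : Nat.Coprime L K := by
    have := Nat.coprime_div_gcd_div_gcd hJ
    rwa [Nat.div_eq_of_eq_mul_right hJ hL, Nat.div_eq_of_eq_mul_right hJ hK] at this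
  set J := Nat.gcd I (sg I) with hJdef
  have hL0 : 0 < L := by
    rcases Nat.eq_zero_or_pos L with h | h
    · rw [h, mul_zero] at hL; omega
    · exact h
  have hIs : I + 1 ≤ sg I := by
    rw [sg, ArithmeticFunction.sigma_one_apply]
    have h1 : ({1, I} : Finset ℕ) ⊆ I.divisors := by
      intro x hx
      rw [Finset.mem_insert, Finset.mem_singleton] at hx
      rcases hx with rfl | rfl
      · exact Nat.one_mem_divisors.2 hI0.ne'
      · exact Nat.mem_divisors_self _ hI0.ne'
    calc I + 1 = ∑ x ∈ ({1, I} : Finset ℕ), x := by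
          rw [Finset.sum_pair (by omega)]; ring
      _ ≤ ∑ x ∈ I.divisors, x := Finset.sum_le_sum_of_subset h1
  have hKL : L < K := by
    by_contra h
    push Not at h
    have : J * K ≤ J * L := Nat.mul_le_mul_left _ h
    omega
  have hsR : sg R ≤ 2 * R := hu.self
  have hsR0 : 0 < sg R := sg_pos hR
  -- the bound for `K`
  have hb' : ((w : ℤ) - k) * K ≤ w * L := by
    have hJz : (0 : ℤ) < J := by exact_mod_cast hJ
    have h1 : (J : ℤ) * (((w : ℤ) - k) * K) ≤ J * (w * L) := by
      have e1 : (sg I : ℤ) = J * K := by exact_mod_cast hK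
      have e2 : (I : ℤ) = J * L := by exact_mod_cast hL
      rw [e1, e2] at hb
      nlinarith
    exact le_of_mul_le_mul_left h1 hJz
  obtain ⟨j, hj⟩ : ∃ j, K = L + j := ⟨K - L, by omega⟩
  have hj1 : 1 ≤ j := by omega
  have hkw' : (2 : ℤ) * k < w := by exact_mod_cast hkw
  have hwj : w * j ≤ 2 * k * L := by
    have hK2 : (K : ℤ) ≤ 2 * L := by
      have hL0' : (0 : ℤ) ≤ L := Int.natCast_nonneg _
      have hK0' : (0 : ℤ) ≤ K := Int.natCast_nonneg _
      by_contra h
      push Not at h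
      nlinarith
    have : (w : ℤ) * j ≤ 2 * k * L := by
      have hjz : (K : ℤ) = L + j := by exact_mod_cast hj
      have hk0 : (0 : ℤ) ≤ k := Int.natCast_nonneg _
      nlinarith
    exact_mod_cast this
  -- divisibilities
  have hmain : K * sg R = 2 * (L * R) := by
    have h1 : J * (K * sg R) = J * (2 * (L * R)) := by
      calc J * (K * sg R) = sg I * sg R := by rw [hK]; ring
        _ = 2 * (I * R) := hs
        _ = 2 * ((J * L) * R) := by rw [← hL]
        _ = J * (2 * (L * R)) := by ring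
    exact Nat.eq_of_mul_eq_mul_left hJ h1
  have hLR : L ∣ sg R := hLK.dvd_of_dvd_mul_left ⟨2 * R, by rw [hmain]; ring⟩
  have hKR : K ∣ 2 * R := hLK.symm.dvd_of_dvd_mul_left ⟨sg R, by rw [hmain]; ring⟩
  have hL1 : L ≠ 1 := by
    rintro rfl
    have h1 : w * j ≥ w := Nat.le_mul_of_pos_right w (by omega)
    omega
  have hLI : L ∣ I := ⟨J, by rw [hL]; ring⟩
  have hl := Nat.minFac_prime hL1
  have hlL := Nat.minFac_dvd L
  have hwl : w ≤ L.minFac := hw _ hl (hlL.trans hLI)
  obtain ⟨L', hL'⟩ := hlL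
  rcases eq_or_ne L' 1 with h1 | h1
  swap
  · -- `L` is not prime
    have h2 := Nat.minFac_prime h1
    have h3 : w ≤ L'.minFac := hw _ h2 (((Nat.minFac_dvd L').trans ⟨L.minFac, by
      conv_lhs => rw [hL']
      ring⟩).trans hLI)
    have hL'0 : 0 < L' := by
      rcases Nat.eq_zero_or_pos L' with h | h
      · rw [h, mul_zero] at hL'; omega
      · exact h
    have h4 : L'.minFac ≤ L' := Nat.minFac_le hL'0
    calc w ^ 2 = w * w := by ring
      _ ≤ L.minFac * L' := Nat.mul_le_mul hwl (h3.trans h4)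
      _ = L := hL'.symm
      _ ≤ sg R := Nat.le_of_dvd hsR0 hLR
      _ ≤ 2 * R := hsR
      _ ≤ 16 * k * R := Nat.mul_le_mul_right _ (by omega)
  · -- `L` is prime
    rw [h1, mul_one] at hL'
    rw [← hL'] at hl hwl
    obtain ⟨p, a, M, hp, ha, hM, hRM, hcop, hpr⟩ := exists_payer hl R hR hLR
    have hp3 : 3 ≤ p := by
      have h2' : p ≠ 2 := by
        rintro rfl
        have : 2 ∣ R := by rw [hRM]; exact Dvd.dvd.mul_right (dvd_pow_self 2 ha.ne') M
        rcases hRo with ⟨t, ht⟩
        omega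
      have := hp.two_le
      omega
    have hpa : 0 < p ^ a := pow_pos hp.pos a
    obtain ⟨c, hc⟩ := hpr
    have hc0 : 1 ≤ c := by
      rcases Nat.eq_zero_or_pos c with h0 | h0
      · rw [h0, mul_zero] at hc
        have := le_sg hpa
        omega
      · exact h0
    obtain ⟨v, hv, hg⟩ := (Nat.dvd_prime_pow hp).1 (Nat.gcd_dvd_right K (p ^ a))
    -- `K ≤ 2 M p ^ v`
    have hK2 : K ≤ 2 * M * p ^ v := by
      rw [← hg]
      apply Nat.le_of_dvd
      · exact Nat.mul_pos (by omega) (Nat.gcd_pos_of_pos_right _ hpa)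
      · rw [← Nat.gcd_mul_left]
        apply Nat.dvd_gcd (Dvd.intro_left _ rfl)
        have : 2 * M * p ^ a = 2 * R := by rw [hRM]; ring
        rw [this]; exact hKR
    -- `p ^ v ≤ 2 c j`
    have hpv : p ^ v ≤ 2 * (c * j) := by
      have hpz : (3 : ℤ) ≤ p := by exact_mod_cast hp3
      have hcz : (1 : ℤ) ≤ c := by exact_mod_cast hc0
      have hjz : (1 : ℤ) ≤ j := by exact_mod_cast hj1
      have h2 : ((p : ℤ)) ^ v ∣ (c * (p - 1)) * L + 1 := by
        have h3 := sg_pow_int hp a
        rw [hc] at h3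
        push_cast at h3
        have h4 : ((c : ℤ) * (p - 1)) * L + 1 = (p : ℤ) ^ (a + 1) := by
          rw [← h3]; ring
        rw [h4]
        exact pow_dvd_pow _ (by omega)
      have h3 : ((p : ℤ)) ^ v ∣ (L : ℤ) + j := by
        have : p ^ v ∣ L + j := by rw [← hg, ← hj]; exact Nat.gcd_dvd_left _ _
        exact_mod_cast this
      have h4 : ((p : ℤ)) ^ v ∣ (c * (p - 1)) * j - 1 := by
        have : ((c : ℤ) * (p - 1)) * j - 1 = (c * (p - 1)) * (L + j) - ((c * (p - 1)) * L + 1) := by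
          ring
        rw [this]
        exact dvd_sub (Dvd.dvd.mul_left h3 _) h2
      obtain ⟨h, hh⟩ := h4
      have hcj : (1 : ℤ) ≤ c * j := by
        have : (1 : ℤ) * 1 ≤ c * j := mul_le_mul hcz hjz (by norm_num) (by omega)
        omega
      have hrew : ((c : ℤ) * (p - 1)) * j - 1 = (p - 1) * (c * j) - 1 := by ring
      have hpos : (0 : ℤ) < (c * (p - 1)) * j - 1 := by
        rw [hrew]
        have : (2 : ℤ) * 1 ≤ (p - 1) * (c * j) :=
          mul_le_mul (by omega) hcj (by norm_num) (by omega)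
        omega
      have hPv : (0 : ℤ) < (p : ℤ) ^ v := by positivity
      have hh0 : 0 < h := by
        by_contra hcon
        push Not at hcon
        have : (p : ℤ) ^ v * h ≤ 0 := mul_nonpos_of_nonneg_of_nonpos hPv.le hcon
        omega
      have hmod : ((p : ℤ) - 1) ∣ h + 1 := by
        have h5 : ((p : ℤ) - 1) ∣ (p : ℤ) ^ v - 1 := by
          simpa using sub_dvd_pow_sub_pow (p : ℤ) 1 v
        have h6 : h + 1 = ((p : ℤ) - 1) * (c * j) - h * ((p : ℤ) ^ v - 1) := by
          linear_combination -hh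
        rw [h6]
        exact dvd_sub (Dvd.intro _ rfl) (Dvd.dvd.mul_left h5 h)
      have hle : (p : ℤ) - 1 ≤ h + 1 := Int.le_of_dvd (by omega) hmod
      have h7 : (p : ℤ) ^ v ≤ 2 * (c * j) := by
        have h8 : (p : ℤ) ^ v * (p - 2) ≤ (p - 1) * (c * j) := by
          have := mul_le_mul_of_nonneg_left (show (p : ℤ) - 2 ≤ h by omega) hPv.le
          rw [hrew] at hh
          omega
        have h9 : ((p : ℤ) - 1) * (c * j) ≤ (2 * (c * j)) * (p - 2) := by
          have : (0 : ℤ) ≤ (c * j) * (p - 3) := mul_nonneg (by omega) (by omega)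
          nlinarith
        exact le_of_mul_le_mul_right (h8.trans h9) (by omega)
      exact_mod_cast h7
    have h3 : sg (p ^ a) ≤ 2 * p ^ a := hu _ M hRM hcop
    rw [hc] at h3
    have h5 : L ≤ 4 * (c * j) * M := by
      calc L ≤ K := hKL.le
        _ ≤ 2 * M * p ^ v := hK2
        _ ≤ 2 * M * (2 * (c * j)) := Nat.mul_le_mul_left _ hpv
        _ = 4 * (c * j) * M := by ring
    have h6 : L * L ≤ 8 * j * R := by
      calc L * L ≤ L * (4 * (c * j) * M) := Nat.mul_le_mul_left _ h5
        _ = (4 * j * M) * (L * c) := by ring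
        _ ≤ (4 * j * M) * (2 * p ^ a) := Nat.mul_le_mul_left _ h3
        _ = 8 * j * R := by rw [hRM]; ring
    have h7 : L * (w * L) ≤ L * (16 * k * R) := by
      calc L * (w * L) = w * (L * L) := by ring
        _ ≤ w * (8 * j * R) := Nat.mul_le_mul_left _ h6
        _ = 8 * R * (w * j) := by ring
        _ ≤ 8 * R * (2 * k * L) := Nat.mul_le_mul_left _ hwj
        _ = L * (16 * k * R) := by ring
    have h8 : w * L ≤ 16 * k * R := Nat.le_of_mul_le_mul_left h7 hL0
    calc w ^ 2 = w * w := by ring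
      _ ≤ w * L := Nat.mul_le_mul_left _ hwl
      _ ≤ 16 * k * R := h8

/-- The product of `k` distinct integers at least `w`. -/
theorem dist_prod (k : ℕ) : ∀ (S : Finset ℕ) (w : ℕ), S.card = k → (∀ p ∈ S, w ≤ p) →
    w ^ k * (2 * w + k * (k - 1)) ≤ 2 * w * ∏ p ∈ S, p := by
  induction k with
  | zero =>
    intro S w hc hw
    rw [Finset.card_eq_zero] at hc
    subst hc
    simp
  | succ k ih =>
    intro S w hc hw
    have hne : S.Nonempty := by
      rw [← Finset.card_pos]; omega
    set m := S.max' hne with hm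
    have hmS : m ∈ S := Finset.max'_mem S hne
    have hsub : S ⊆ Finset.Icc w m := by
      intro x hx
      exact Finset.mem_Icc.2 ⟨hw x hx, Finset.le_max' S x hx⟩
    have hcard := Finset.card_le_card hsub
    rw [hc, Nat.card_Icc] at hcard
    have hwm := hw m hmS
    have hm' : w + k ≤ m := by omega
    have hc' : (S.erase m).card = k := by rw [Finset.card_erase_of_mem hmS]; omega
    have h1 := ih (S.erase m) w hc' (fun p hp => hw p (Finset.mem_of_mem_erase hp))
    rw [← Finset.mul_prod_erase S (fun p => p) hmS]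
    calc w ^ (k + 1) * (2 * w + (k + 1) * (k + 1 - 1))
        ≤ (w + k) * (w ^ k * (2 * w + k * (k - 1))) := by
          rw [Nat.add_sub_cancel]
          have h2 : w * (2 * w + (k + 1) * k) ≤ (w + k) * (2 * w + k * (k - 1)) := by
            rcases Nat.eq_zero_or_pos k with h | h
            · subst h; simp
            · obtain ⟨l, rfl⟩ : ∃ l, k = l + 1 := ⟨k - 1, by omega⟩
              rw [Nat.add_sub_cancel]
              nlinarith [Nat.zero_le (l * (l * l)), Nat.zero_le (l * l), Nat.zero_le l]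
          calc w ^ (k + 1) * (2 * w + (k + 1) * k)
              = w ^ k * (w * (2 * w + (k + 1) * k)) := by ring
            _ ≤ w ^ k * ((w + k) * (2 * w + k * (k - 1))) := Nat.mul_le_mul_left _ h2
            _ = (w + k) * (w ^ k * (2 * w + k * (k - 1))) := by ring
      _ ≤ m * (2 * w * ∏ p ∈ S.erase m, p) := Nat.mul_le_mul hm' h1
      _ = 2 * w * (m * ∏ p ∈ S.erase m, p) := by ring

theorem decomp {N : ℕ} (hN : N ≠ 0) {S : Finset ℕ} (hS : S ⊆ N.primeFactors) :
    ∃ R, N = (∏ t ∈ S, t ^ (N.factorization t)) * R ∧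
      Nat.Coprime (∏ t ∈ S, t ^ (N.factorization t)) R ∧
      sg (∏ t ∈ S, t ^ (N.factorization t)) = ∏ t ∈ S, sg (t ^ (N.factorization t)) := by
  refine ⟨∏ t ∈ N.primeFactors \ S, t ^ (N.factorization t), ?_, ?_, ?_⟩
  · have h1 : ∏ t ∈ N.primeFactors, t ^ (N.factorization t) = N :=
      Nat.prod_factorization_pow_eq_self hN
    rw [mul_comm, Finset.prod_sdiff hS, h1]
  · apply Nat.Coprime.prod_left
    intro s hs
    apply Nat.Coprime.prod_right
    intro t ht
    apply Nat.Coprime.pow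
    rw [Finset.mem_sdiff] at ht
    rw [Nat.coprime_primes (Nat.prime_of_mem_primeFactors (hS hs))
      (Nat.prime_of_mem_primeFactors ht.1)]
    rintro rfl
    exact ht.2 hs
  · apply ArithmeticFunction.IsMultiplicative.map_prod _ ArithmeticFunction.isMultiplicative_sigma
    intro s hs t ht hst
    apply Nat.Coprime.pow
    exact (Nat.coprime_primes (Nat.prime_of_mem_primeFactors (hS hs))
      (Nat.prime_of_mem_primeFactors (hS ht))).2 hst

theorem no_two {N s t : ℕ} (hodd : Odd N) (hs : sg N = 2 * N) (hsN : s ∈ N.primeFactors)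
    (htN : t ∈ N.primeFactors) (hst : s ≠ t) (es : N.factorization s = 1)
    (et : N.factorization t = 1) : False := by
  have hN : 0 < N := hodd.pos
  have hsub : ({s, t} : Finset ℕ) ⊆ N.primeFactors := by
    intro x hx
    rw [Finset.mem_insert, Finset.mem_singleton] at hx
    rcases hx with rfl | rfl
    · exact hsN
    · exact htN
  obtain ⟨R, h1, h2, h3⟩ := decomp hN.ne' hsub
  have hsp := Nat.prime_of_mem_primeFactors hsN
  have htp := Nat.prime_of_mem_primeFactors htN
  have e1 : sg N = sg (∏ t ∈ ({s, t} : Finset ℕ), t ^ (N.factorization t)) * sg R := by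
    rw [← sg_mul h2, ← h1]
  rw [h3, Finset.prod_pair hst, es, et, sg_prime hsp, sg_prime htp, hs] at e1
  have hso : Odd s := Odd.of_dvd_nat hodd (Nat.dvd_of_mem_primeFactors hsN)
  have hto : Odd t := Odd.of_dvd_nat hodd (Nat.dvd_of_mem_primeFactors htN)
  obtain ⟨a, ha⟩ := hso
  obtain ⟨b, hb⟩ := hto
  have e2 : 2 * N = 2 * (2 * ((a + 1) * (b + 1) * sg R)) := by
    rw [e1, ha, hb]; ring
  obtain ⟨c, hc⟩ := hodd
  omega

theorem main {N w : ℕ} {S : Finset ℕ} (hodd : Odd N) (hs : sg N = 2 * N)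
    (hS : S ⊆ N.primeFactors) (hne : S.Nonempty) (hw : ∀ p ∈ S, w ≤ p) :
    w ^ (2 * S.card + 1) ≤ 16 * S.card * N := by
  classical
  have hN : 0 < N := hodd.pos
  obtain ⟨R, hIR, hcop, hsI⟩ := decomp hN.ne' hS
  have hprime : ∀ p ∈ S, p.Prime := fun p hp => Nat.prime_of_mem_primeFactors (hS hp)
  have he : ∀ p ∈ S, 1 ≤ N.factorization p := fun p hp =>
    (hprime p hp).factorization_pos_of_dvd hN.ne' (Nat.dvd_of_mem_primeFactors (hS hp))
  have hk : 1 ≤ S.card := hne.card_pos
  have hR : 0 < R := by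
    rcases Nat.eq_zero_or_pos R with h | h
    · rw [h, mul_zero] at hIR; omega
    · exact h
  rcases Nat.eq_zero_or_pos w with hw0 | hw0
  · subst hw0
    rw [zero_pow (by omega)]
    exact Nat.zero_le _
  -- a lower bound for `I`
  have hIlow : w ^ (2 * S.card - 1) ≤ ∏ t ∈ S, t ^ (N.factorization t) ∧
      (w ≤ 2 * S.card → w ^ (2 * S.card) ≤ 8 * ∏ t ∈ S, t ^ (N.factorization t)) := by
    by_cases hex : ∃ s ∈ S, N.factorization s = 1
    · obtain ⟨s, hsS, hes⟩ := hex
      have h2 : ∀ t ∈ S.erase s, 2 ≤ N.factorization t := by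
        intro t ht
        have ht' := Finset.mem_of_mem_erase ht
        have h3 := he t ht'
        by_contra h4
        exact no_two hodd hs (hS hsS) (hS ht') (Finset.ne_of_mem_erase ht).symm hes (by omega)
      have h3 : (∏ t ∈ S, t) * w ^ (S.card - 1) ≤ ∏ t ∈ S, t ^ (N.factorization t) := by
        rw [← Finset.mul_prod_erase S _ hsS, ← Finset.mul_prod_erase S
          (fun t => t ^ (N.factorization t)) hsS, hes, pow_one, mul_assoc]
        apply Nat.mul_le_mul_left
        rw [← Finset.card_erase_of_mem hsS, ← Finset.prod_const, ← Finset.prod_mul_distrib]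
        apply Finset.prod_le_prod'
        intro t ht
        calc t * w ≤ t * t := Nat.mul_le_mul_left _ (hw t (Finset.mem_of_mem_erase ht))
          _ = t ^ 2 := by ring
          _ ≤ t ^ (N.factorization t) := Nat.pow_le_pow_right
              (hprime t (Finset.mem_of_mem_erase ht)).pos (h2 t ht)
      have h4 : w ^ S.card ≤ ∏ t ∈ S, t := by
        rw [← Finset.prod_const]
        exact Finset.prod_le_prod' hw
      constructor
      · calc w ^ (2 * S.card - 1) = w ^ S.card * w ^ (S.card - 1) := by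
              rw [← pow_add]; congr 1; omega
          _ ≤ (∏ t ∈ S, t) * w ^ (S.card - 1) := Nat.mul_le_mul_right _ h4
          _ ≤ _ := h3
      · intro hwk
        have h5 := dist_prod S.card S w rfl hw
        refine le_trans ?_ (Nat.mul_le_mul_left 8 h3)
        obtain ⟨l, hl⟩ : ∃ l, S.card = l + 1 := ⟨S.card - 1, by omega⟩
        rw [hl, Nat.add_sub_cancel] at h5 ⊢
        rw [hl] at hwk
        have h6 : w * w ≤ 4 * (2 * w + (l + 1) * l) := by
          rcases Nat.lt_or_ge w 8 with h8 | h8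
          · have : w * w ≤ 8 * w := Nat.mul_le_mul_right _ (by omega)
            nlinarith [Nat.zero_le ((l + 1) * l)]
          · have h9 : w * (w - 8) ≤ (2 * (l + 1)) * (2 * l) := Nat.mul_le_mul hwk (by omega)
            obtain ⟨u, rfl⟩ : ∃ u, w = u + 8 := ⟨w - 8, by omega⟩
            rw [Nat.add_sub_cancel] at h9
            nlinarith
        have h7 : w * w ^ (2 * (l + 1)) ≤ w * (8 * ((∏ t ∈ S, t) * w ^ l)) := by
          calc w * w ^ (2 * (l + 1)) = (w ^ l * w ^ (l + 1)) * (w * w) := by ring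
            _ ≤ (w ^ l * w ^ (l + 1)) * (4 * (2 * w + (l + 1) * l)) := Nat.mul_le_mul_left _ h6
            _ = 4 * w ^ l * (w ^ (l + 1) * (2 * w + (l + 1) * l)) := by ring
            _ ≤ 4 * w ^ l * (2 * w * ∏ t ∈ S, t) := Nat.mul_le_mul_left _ h5
            _ = w * (8 * ((∏ t ∈ S, t) * w ^ l)) := by ring
        exact Nat.le_of_mul_le_mul_left h7 hw0
    · push Not at hex
      have h3 : w ^ (2 * S.card) ≤ ∏ t ∈ S, t ^ (N.factorization t) := by
        rw [pow_mul, ← Finset.prod_const]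
        apply Finset.prod_le_prod'
        intro t ht
        calc w ^ 2 ≤ t ^ 2 := Nat.pow_le_pow_left (hw t ht) 2
          _ ≤ t ^ (N.factorization t) := Nat.pow_le_pow_right (hprime t ht).pos (by
              have := he t ht
              have := hex t ht
              omega)
      exact ⟨(Nat.pow_le_pow_right hw0 (by omega)).trans h3, fun _ => by omega⟩
  set I := ∏ t ∈ S, t ^ (N.factorization t) with hI
  rcases Nat.lt_or_ge (2 * S.card) w with hlt | hge
  · have hI1 : 1 < I := by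
      obtain ⟨s, hsS⟩ := hne
      have h1 : s ^ (N.factorization s) ∣ I := Finset.dvd_prod_of_mem (fun t => t ^ (N.factorization t)) hsS
      have hI0 : 0 < I := Finset.prod_pos (fun t ht => pow_pos (hprime t ht).pos _)
      have h2 := Nat.le_of_dvd hI0 h1
      have h3 : 1 < s ^ (N.factorization s) :=
        Nat.one_lt_pow (by have := he s hsS; omega) (hprime s hsS).one_lt
      omega
    have hRo : Odd R := Odd.of_dvd_nat hodd ⟨I, by rw [hIR]; ring⟩
    have hsIR : sg I * sg R = 2 * (I * R) := by rw [← sg_mul hcop, ← hIR, hs]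
    have hu : Unit2 R := by
      have h1 := Unit2.of_perfect hN hs
      rw [hIR] at h1
      exact h1.right hcop
    have hwI : ∀ p, p.Prime → p ∣ I → w ≤ p := by
      intro p hp hpI
      obtain ⟨t, ht, hpt⟩ := (Prime.dvd_finsetProd_iff hp.prime _).1 hpI
      have h1 := hp.dvd_of_dvd_pow hpt
      rw [(Nat.prime_dvd_prime_iff_eq hp (hprime t ht)).1 h1]
      exact hw t ht
    have hb : ((w : ℤ) - S.card) * (sg I : ℤ) ≤ w * I := by
      have h1 := prod_bound S N.factorization w (fun p hp => ⟨hprime p hp, hw p hp⟩) (by omega)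
      rw [hsI, hI]
      push_cast at h1 ⊢
      exact h1
    have h1 := key hI1 hR hRo hsIR hu hwI hlt hk hb
    calc w ^ (2 * S.card + 1) = w ^ (2 * S.card - 1) * w ^ 2 := by
          rw [← pow_add]; congr 1; omega
      _ ≤ I * (16 * S.card * R) := Nat.mul_le_mul hIlow.1 h1
      _ = 16 * S.card * N := by rw [hIR]; ring
  · have h1 := hIlow.2 hge
    calc w ^ (2 * S.card + 1) = w * w ^ (2 * S.card) := by ring
      _ ≤ (2 * S.card) * (8 * I) := Nat.mul_le_mul hge h1
      _ = 16 * S.card * (I * 1) := by ring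
      _ ≤ 16 * S.card * (I * R) := Nat.mul_le_mul_left _ (Nat.mul_le_mul_left _ hR)
      _ = 16 * S.card * N := by rw [← hIR]

/-- If `N` is an odd perfect number and `S` is a nonempty set of `k` prime factors of `N`, all at
least `w`, then `w ^ (2 * k + 1) ≤ 16 * k * N`; that is, the `k`-th largest prime factor of `N` is
at most `(16 * k * N) ^ (1 / (2 * k + 1))`. -/
theorem result (N : ℕ) (hodd : Odd N) (hperf : Nat.Perfect N) (S : Finset ℕ) (hne : S.Nonempty)
    (hS : ∀ p ∈ S, p.Prime ∧ p ∣ N) (w : ℕ) (hw : ∀ p ∈ S, w ≤ p) :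
    w ^ (2 * S.card + 1) ≤ 16 * S.card * N := by
  have hN : 0 < N := hodd.pos
  have hs : sg N = 2 * N := by
    rw [sg, ArithmeticFunction.sigma_one_apply]
    exact (Nat.perfect_iff_sum_divisors_eq_two_mul hN).1 hperf
  exact main hodd hs (fun p hp => Nat.mem_primeFactors.2 ⟨(hS p hp).1, (hS p hp).2, hN.ne'⟩) hne hw

end Pool.Agent.Lib.MP_f02ea4_nt.KthLargest
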