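import Pool.Agent.Lib.MP_f02ea4_nt.IdxLocal

/-! Largest prime factor of an odd perfect number: the local bound. -/

set_option autoImplicit false

namespace Pool.Agent.Lib.MP_f02ea4_nt.Lp

open Finset Real
open Pool.Agent.Lib.MP_f02ea4_nt.Idx

lemma sq_dvd_pow (r : ℤ) (t : ℕ) : r ^ 2 ∣ (1 - r) ^ t - 1 + t * r := by
  induction t with
  | zero => simp
  | succ t ih =>
    have h : (1 - r) ^ (t + 1) - 1 + ((t + 1 : ℕ) : ℤ) * r
        = (1 - r) * ((1 - r) ^ t - 1 + t * r) + t * r ^ 2 := by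
      push_cast; ring
    rw [h]
    exact dvd_add (Dvd.dvd.mul_left ih _) (dvd_mul_left _ _)

/-- the core of the local bound -/
theorem core {r f t : ℕ} {A B : ℤ} {Y : ℝ} (hr : r.Prime) (hr2 : r ≠ 2) (hf : 2 ≤ f)
    (hA : A ≠ 0) (hB : B ≠ 0) (hAY : |(A : ℝ)| ≤ exp Y) (hBY : |(B : ℝ)| ≤ exp Y) (hY : 0 ≤ Y)
    (hdvd : ((r : ℤ) ^ f) ∣ B * (1 - (r : ℤ)) ^ t - A) (hne : B * (1 - (r : ℤ)) ^ t - A ≠ 0) :
    (f : ℝ) * log r ≤ 20 * (Y + t + 1) := by
  have hr3 : 3 ≤ r := by have := hr.two_le; omega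
  have hrr : (3 : ℝ) ≤ r := by exact_mod_cast hr3
  have hl : 0 < log r := log_pos (by linarith)
  have hlog2a : (0.6931471803 : ℝ) < log 2 := log_two_gt_d9
  have hlog2b : log 2 < (0.6931471808 : ℝ) := log_two_lt_d9
  have ht0 : (0 : ℝ) ≤ t := Nat.cast_nonneg t
  have habs : |1 - (r : ℝ)| = r - 1 := by rw [abs_sub_comm, abs_of_pos (by linarith)]
  have hexp : exp (log 2 + Y) = 2 * exp Y := by rw [exp_add, exp_log (by norm_num)]
  rcases lt_or_ge (log r) 17 with h17 | h17
  · -- small `r`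
    have hsize := size_of_dvd hdvd hne
    have hb : |((B * (1 - (r : ℤ)) ^ t - A : ℤ) : ℝ)| ≤ exp (log 2 + Y + t * log r) := by
      push_cast
      refine (abs_sub _ _).trans ?_
      rw [abs_mul, abs_pow, habs, exp_add, hexp, exp_nat_mul, exp_log (by linarith)]
      have h1 : ((r : ℝ) - 1) ^ t ≤ (r : ℝ) ^ t := pow_le_pow_left₀ (by linarith) (by linarith) _
      have h2 : (1 : ℝ) ≤ (r : ℝ) ^ t := one_le_pow₀ (by linarith)
      have h3 : |(B : ℝ)| * ((r : ℝ) - 1) ^ t ≤ exp Y * (r : ℝ) ^ t :=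
        mul_le_mul hBY h1 (pow_nonneg (by linarith) _) (exp_pos _).le
      have h4 : exp Y ≤ exp Y * (r : ℝ) ^ t := le_mul_of_one_le_right (exp_pos _).le h2
      linarith
    have h1 := mul_log_le (by linarith) f hsize hb
    have h2 : (t : ℝ) * log r ≤ t * 17 := mul_le_mul_of_nonneg_left h17.le ht0
    linarith
  rcases Nat.lt_or_ge (f / 2) t with hrt | hrt
  swap
  · -- `t ≤ f / 2`
    have hsize := size_of_dvd hdvd hne
    have hpow : ((r : ℝ) - 1) ^ t + 1 ≤ (r : ℝ) ^ (f / 2) := by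
      rcases Nat.eq_zero_or_pos t with h0 | h0
      · rw [h0, pow_zero]
        have h1 : (r : ℝ) ^ 1 ≤ (r : ℝ) ^ (f / 2) :=
          pow_le_pow_right₀ (by linarith) (by omega)
        rw [pow_one] at h1
        linarith
      · have h1 : (r - 1) ^ t < r ^ t := Nat.pow_lt_pow_left (by omega) (by omega)
        have h2 : r ^ t ≤ r ^ (f / 2) := Nat.pow_le_pow_right (by omega) hrt
        have h3 : (r - 1) ^ t + 1 ≤ r ^ (f / 2) := by omega
        have h4 : (((r - 1) ^ t + 1 : ℕ) : ℝ) ≤ ((r ^ (f / 2) : ℕ) : ℝ) := by exact_mod_cast h3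
        push_cast [Nat.cast_sub (show 1 ≤ r by omega)] at h4
        exact h4
    have hb : |((B * (1 - (r : ℤ)) ^ t - A : ℤ) : ℝ)| ≤ exp Y * (r : ℝ) ^ (f / 2) := by
      push_cast
      refine (abs_sub _ _).trans ?_
      rw [abs_mul, abs_pow, habs]
      have h2 : |(B : ℝ)| * (r - 1) ^ t ≤ exp Y * (r - 1) ^ t :=
        mul_le_mul_of_nonneg_right hBY (pow_nonneg (by linarith) _)
      have h3 : exp Y * (((r : ℝ) - 1) ^ t + 1) ≤ exp Y * (r : ℝ) ^ (f / 2) :=
        mul_le_mul_of_nonneg_left hpow (exp_pos _).le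
      linarith
    have h1 := hsize.trans hb
    have h2 : (r : ℝ) ^ (f - f / 2) ≤ exp Y := by
      have h3 : (r : ℝ) ^ f = (r : ℝ) ^ (f - f / 2) * (r : ℝ) ^ (f / 2) := by
        rw [← pow_add]; congr 1; omega
      rw [h3] at h1
      exact le_of_mul_le_mul_right h1 (by positivity)
    have h3 := mul_log_le (by linarith) (f - f / 2) h2 le_rfl
    have h4 : (f : ℝ) ≤ 2 * ((f - f / 2 : ℕ) : ℝ) := by
      have : f ≤ 2 * (f - f / 2) := by omega
      exact_mod_cast this
    have h5 : (f : ℝ) * log r ≤ 2 * ((f - f / 2 : ℕ) : ℝ) * log r :=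
      mul_le_mul_of_nonneg_right h4 hl.le
    linarith
  rcases Nat.lt_or_ge f 3 with hf3 | hf3
  · -- `f = 2`
    have hf2 : f = 2 := by omega
    subst hf2
    by_cases hAB : B = A
    · have h1 : (r : ℤ) ^ 2 ∣ B * (t * r) := by
        have h2 := Dvd.dvd.mul_left (sq_dvd_pow (r : ℤ) t) B
        have h3 : B * (t * r) = B * ((1 - (r : ℤ)) ^ t - 1 + t * r)
            - (B * (1 - (r : ℤ)) ^ t - A) := by rw [← hAB]; ring
        rw [h3]
        exact dvd_sub h2 hdvd
      have h2 : ((r : ℤ) ^ 1) ∣ B * t := by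
        have h3 : (r : ℤ) * r ∣ (B * t) * r := by
          have : (B * t) * (r : ℤ) = B * (t * r) := by ring
          rw [this, ← sq]; exact h1
        rw [pow_one]
        exact Int.dvd_of_mul_dvd_mul_right (by omega) h3
      have ht1 : 1 ≤ t := by omega
      have htr : (1 : ℝ) ≤ t := by exact_mod_cast ht1
      have hnz : B * (t : ℤ) ≠ 0 := mul_ne_zero hB (by omega)
      have hsize := size_of_dvd h2 hnz
      have hb : |((B * (t : ℤ) : ℤ) : ℝ)| ≤ exp (Y + t) := by
        push_cast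
        rw [abs_mul, Nat.abs_cast, exp_add]
        apply mul_le_mul hBY _ ht0 (exp_pos _).le
        have := add_one_le_exp (t : ℝ)
        linarith
      have h3 := mul_log_le (by linarith) 1 hsize hb
      push_cast at h3 ⊢
      linarith
    · have hAB' : B - A ≠ 0 := sub_ne_zero.mpr hAB
      have h1 : ((r : ℤ) ^ 1) ∣ B - A := by
        have h2 : (r : ℤ) ∣ B * (1 - (r : ℤ)) ^ t - A := (dvd_pow_self _ (by omega)).trans hdvd
        have h3 : (r : ℤ) ∣ (1 - (r : ℤ)) ^ t - 1 := by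
          have h4 : (1 - (r : ℤ)) - 1 ∣ (1 - (r : ℤ)) ^ t - 1 ^ t := sub_dvd_pow_sub_pow _ _ _
          rw [one_pow] at h4
          exact (Dvd.intro (-1) (by ring)).trans h4
        rw [pow_one]
        have h5 : B - A = (B * (1 - (r : ℤ)) ^ t - A) - B * ((1 - (r : ℤ)) ^ t - 1) := by ring
        rw [h5]
        exact dvd_sub h2 (Dvd.dvd.mul_left h3 _)
      have hsize := size_of_dvd h1 hAB'
      have hb : |((B - A : ℤ) : ℝ)| ≤ exp (log 2 + Y) := by
        push_cast
        refine (abs_sub _ _).trans ?_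
        rw [hexp]; linarith
      have h3 := mul_log_le (by linarith) 1 hsize hb
      push_cast at h3 ⊢
      linarith
  · -- Pade
    obtain ⟨s, hs1, hs2, hs3⟩ := pade_step (q := r) (f := f) (t := t) (r := f / 2) (A := A)
      (B := B) (by omega : 1 ≤ r) hA hB (by omega) hrt hdvd
    have hq0 : (0 : ℝ) < r := by linarith
    have h1 : (r : ℝ) ^ f ≤ exp Y * (2 ^ t * (2 * (16 * r) ^ s)) := by
      refine hs3.trans ?_
      have h2 : (8 * (r : ℝ)) ^ s ≤ (16 * r) ^ s := by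
        apply pow_le_pow_left₀ (by positivity); linarith
      have h3 : |(B : ℝ)| * (2 ^ t * (16 * r) ^ s) ≤ exp Y * (2 ^ t * (16 * r) ^ s) :=
        mul_le_mul_of_nonneg_right hBY (by positivity)
      have h4 : |(A : ℝ)| * (2 ^ t * (8 * r) ^ s) ≤ exp Y * (2 ^ t * (16 * r) ^ s) := by
        apply mul_le_mul hAY _ (by positivity) (by positivity)
        exact mul_le_mul_of_nonneg_left h2 (by positivity)
      linarith
    have h2 := log_le_log (by positivity) h1
    have h16 : log (16 : ℝ) = 4 * log 2 := by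
      rw [show (16 : ℝ) = 2 ^ (4 : ℕ) by norm_num, log_pow]; norm_num
    rw [log_pow, log_mul (by positivity) (by positivity), log_exp,
      log_mul (by positivity) (by positivity), log_pow, log_mul (by norm_num) (by positivity),
      log_pow, log_mul (by norm_num) (by positivity), h16] at h2
    have htl : (t : ℝ) * log 2 ≤ t * 0.6931471808 := mul_le_mul_of_nonneg_left hlog2b.le ht0
    have hs8 : (s : ℝ) ≤ (3 / 4) * f := by
      have : 4 * s ≤ 3 * f := by omega
      have h5 : (4 : ℝ) * s ≤ 3 * f := by exact_mod_cast this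
      linarith
    have hf3r : (3 : ℝ) ≤ f := by exact_mod_cast hf3
    have h6 : (s : ℝ) * (4 * log 2) ≤ (3 / 4) * f * (4 * log 2) :=
      mul_le_mul_of_nonneg_right hs8 (by linarith)
    have h7 : (s : ℝ) * log r ≤ (3 / 4) * f * log r :=
      mul_le_mul_of_nonneg_right hs8 hl.le
    have h8 : (f : ℝ) * log 2 ≤ f * 0.6931471808 :=
      mul_le_mul_of_nonneg_left hlog2b.le (by positivity)
    have h9 : (f : ℝ) * 17 ≤ f * log r := mul_le_mul_of_nonneg_left h17 (by positivity)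
    have h10 : (1 / 4) * (f * log r) ≤ Y + t * 0.6931471808 + log 2 + 3 * (f * log 2) := by
      linarith
    linarith

/-- The local bound: a component `r ^ e ∥ N` with `σ(r ^ e) = s q ^ g`. -/
theorem local_two {q r m s a g h e : ℕ} (hq : q.Prime) (hq2 : q ≠ 2) (hr : r.Prime) (hr2 : r ≠ 2)
    (hm : 1 ≤ m) (hs : 1 ≤ s) (hsig : (r - 1) * (s * q ^ g) + 1 = r ^ (e + 1))
    (hh : h ≤ e + 1) (hh2 : 2 ≤ h) (hcong : r ^ h ∣ q ^ a + (q - 1) * m - 1)
    (hga : g ≤ a) (hbig : (9 / 10 : ℝ) * (g * log q) ≤ h * log r)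
    (hg : 16000 ≤ g) (hF : 16000 * log m ≤ g * log q) :
    (g : ℝ) ^ 2 * log q ≤ 4000 * a * log (2 * s) := by
  have hq3 : 3 ≤ q := by have := hq.two_le; omega
  have hqr : (3 : ℝ) ≤ q := by exact_mod_cast hq3
  have hmr : (1 : ℝ) ≤ m := by exact_mod_cast hm
  have hsr : (1 : ℝ) ≤ s := by exact_mod_cast hs
  have hgr : (16000 : ℝ) ≤ g := by exact_mod_cast hg
  have hgar : (g : ℝ) ≤ a := by exact_mod_cast hga
  have hL : 0 < log q := log_pos (by linarith)
  have hL1 : 1 ≤ log q := by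
    have he : exp 1 < (2.7182818286 : ℝ) := exp_one_lt_d9
    rw [le_log_iff_exp_le (by linarith)]
    linarith
  have hlm : 0 ≤ log m := log_nonneg hmr
  have hls : 0 ≤ log s := log_nonneg hsr
  have hlog2a : (0.6931471803 : ℝ) < log 2 := log_two_gt_d9
  have hlog2b : log 2 < (0.6931471808 : ℝ) := log_two_lt_d9
  have hg0 : (0 : ℝ) < g := by linarith
  -- Dirichlet
  obtain ⟨j, k, hk0, hk1, hjk⟩ := Real.exists_int_int_abs_mul_sub_le ((a : ℝ) / g)
    (n := 50) (by norm_num)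
  have hk0r : (1 : ℝ) ≤ k := by exact_mod_cast hk0
  have hk1r : (k : ℝ) ≤ 50 := by exact_mod_cast hk1
  have hag : 1 ≤ (a : ℝ) / g := by rw [le_div_iff₀ hg0]; linarith
  rw [abs_le] at hjk
  norm_num at hjk
  obtain ⟨hj1, hj2⟩ := hjk
  have hj0 : 0 < j := by
    have h1 : (0 : ℝ) < j := by nlinarith
    exact_mod_cast h1
  obtain ⟨lam, rfl⟩ : ∃ lam : ℕ, k = lam := ⟨k.toNat, by omega⟩
  obtain ⟨β, rfl⟩ : ∃ β : ℕ, j = β := ⟨j.toNat, by omega⟩
  have hβ0 : 1 ≤ β := by omega
  push_cast at hj1 hj2 hk0r hk1r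
  have hβ1 : (β : ℝ) * g ≤ 51 * a := by
    have h1 : (β : ℝ) ≤ lam * ((a : ℝ) / g) + 1 / 51 := by linarith
    have h2 : (lam : ℝ) * ((a : ℝ) / g) ≤ 50 * ((a : ℝ) / g) :=
      mul_le_mul_of_nonneg_right hk1r (by linarith)
    have h3 : (β : ℝ) ≤ 51 * ((a : ℝ) / g) := by linarith
    have h4 : (β : ℝ) * g ≤ 51 * ((a : ℝ) / g) * g := mul_le_mul_of_nonneg_right h3 hg0.le
    have h5 : 51 * ((a : ℝ) / g) * g = 51 * a := by field_simp
    linarith
  have h51a : (lam : ℝ) * a - β * g ≤ g / 51 := by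
    have h1 : ((lam : ℝ) * ((a : ℝ) / g) - β) * g ≤ 1 / 51 * g :=
      mul_le_mul_of_nonneg_right (by linarith) hg0.le
    have h2 : ((lam : ℝ) * ((a : ℝ) / g) - β) * g = lam * a - β * g := by field_simp
    linarith
  have h51b : (β : ℝ) * g - lam * a ≤ g / 51 := by
    have h1 : (β - (lam : ℝ) * ((a : ℝ) / g)) * g ≤ 1 / 51 * g :=
      mul_le_mul_of_nonneg_right (by linarith) hg0.le
    have h2 : (β - (lam : ℝ) * ((a : ℝ) / g)) * g = β * g - lam * a := by field_simp
    linarith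
  set αp : ℕ := lam * a - β * g with hαp
  set αm : ℕ := β * g - lam * a with hαm
  have hα : lam * a + αm = β * g + αp := by omega
  have hαpr : (αp : ℝ) ≤ g / 51 := by
    rcases le_total (β * g) (lam * a) with h1 | h1
    · rw [hαp]; push_cast [Nat.cast_sub h1]; linarith
    · have : αp = 0 := by omega
      rw [this]; push_cast; positivity
  have hαmr : (αm : ℝ) ≤ g / 51 := by
    rcases le_total (lam * a) (β * g) with h1 | h1
    · rw [hαm]; push_cast [Nat.cast_sub h1]; linarith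
    · have : αm = 0 := by omega
      rw [this]; push_cast; positivity
  -- the congruence
  set A : ℤ := (q : ℤ) ^ αp with hA
  set B : ℤ := (1 - ((q : ℤ) - 1) * m) ^ lam * (s : ℤ) ^ β * (q : ℤ) ^ αm with hB
  have hdvd : ((r : ℤ) ^ h) ∣ B * (1 - (r : ℤ)) ^ β - A := by
    have h1 : ((r ^ h : ℕ) : ℤ) ∣ B * (1 - (r : ℤ)) ^ β - A := by
      rw [← ZMod.intCast_zmod_eq_zero_iff_dvd]
      have e1 : (q : ZMod (r ^ h)) ^ a = 1 - ((q : ZMod (r ^ h)) - 1) * m := by
        have h2 : ((q ^ a + (q - 1) * m - 1 : ℕ) : ZMod (r ^ h)) = 0 := by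
          rw [ZMod.natCast_eq_zero_iff]; exact hcong
        have h3 : 1 ≤ q ^ a + (q - 1) * m := by
          have := Nat.one_le_pow a q (by omega)
          omega
        rw [Nat.cast_sub h3] at h2
        push_cast [Nat.cast_sub (show 1 ≤ q by omega)] at h2
        linear_combination h2
      have e2 : ((s : ZMod (r ^ h)) * (1 - r)) * (q : ZMod (r ^ h)) ^ g = 1 := by
        have h2 : ((r ^ (e + 1) : ℕ) : ZMod (r ^ h)) = 0 := by
          rw [ZMod.natCast_eq_zero_iff]; exact pow_dvd_pow _ hh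
        rw [← hsig] at h2
        push_cast [Nat.cast_sub (show 1 ≤ r by have := hr.two_le; omega)] at h2
        linear_combination -h2
      rw [hA, hB]
      push_cast
      rw [← e1, ← pow_mul]
      have e3 : (q : ZMod (r ^ h)) ^ (a * lam) * (q : ZMod (r ^ h)) ^ αm
          = ((q : ZMod (r ^ h)) ^ g) ^ β * (q : ZMod (r ^ h)) ^ αp := by
        rw [← pow_add, ← pow_mul, ← pow_add]
        congr 1
        rw [mul_comm a lam, mul_comm g β]; exact hα
      have e4 : ((s : ZMod (r ^ h)) * (1 - r)) ^ β * ((q : ZMod (r ^ h)) ^ g) ^ β = 1 := by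
        rw [← mul_pow, e2, one_pow]
      have e5 : (q : ZMod (r ^ h)) ^ (a * lam) * (s : ZMod (r ^ h)) ^ β * (q : ZMod (r ^ h)) ^ αm
          * (1 - (r : ZMod (r ^ h))) ^ β - (q : ZMod (r ^ h)) ^ αp
          = ((s : ZMod (r ^ h)) * (1 - r)) ^ β * ((q : ZMod (r ^ h)) ^ (a * lam)
            * (q : ZMod (r ^ h)) ^ αm) - (q : ZMod (r ^ h)) ^ αp := by
        rw [mul_pow]; ring
      rw [e5, e3]
      linear_combination (q : ZMod (r ^ h)) ^ αp * e4
    push_cast at h1
    exact h1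
  have hYpos : (0 : ℤ) < ((q : ℤ) - 1) * m - 1 := by
    have h1 : (2 : ℤ) ≤ (q : ℤ) - 1 := by omega
    have h2 : (1 : ℤ) ≤ m := by exact_mod_cast hm
    nlinarith
  have hAZ : A ≠ 0 := by rw [hA]; positivity
  have hBZ : B ≠ 0 := by
    rw [hB]
    have h1 : (1 - ((q : ℤ) - 1) * m) ^ lam ≠ 0 := pow_ne_zero _ (by omega)
    have h2 : (s : ℤ) ^ β ≠ 0 := pow_ne_zero _ (by omega)
    have h3 : (q : ℤ) ^ αm ≠ 0 := pow_ne_zero _ (by omega)
    exact mul_ne_zero (mul_ne_zero h1 h2) h3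
  have hrodd : Odd (r : ℤ) := by exact_mod_cast hr.odd_of_ne_two hr2
  have hqodd : Odd (q : ℤ) := by exact_mod_cast hq.odd_of_ne_two hq2
  have hne : B * (1 - (r : ℤ)) ^ β - A ≠ 0 := by
    intro h0
    have h1 : Even (B * (1 - (r : ℤ)) ^ β) := by
      apply Even.mul_left
      apply Even.pow_of_ne_zero _ (by omega)
      exact Odd.sub_odd odd_one hrodd
    have h2 : Odd A := hqodd.pow
    rw [sub_eq_zero] at h0
    rw [h0] at h1
    exact (Int.not_even_iff_odd.mpr h2) h1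
  -- sizes
  set Y : ℝ := 50 * (log q + log m) + β * log s + g / 51 * log q with hY
  have hY0 : 0 ≤ Y := by positivity
  have hAY : |(A : ℝ)| ≤ exp Y := by
    rw [hA]
    push_cast
    rw [abs_pow, Nat.abs_cast]
    apply pow_le_exp (by linarith)
    have h1 : (αp : ℝ) * log q ≤ g / 51 * log q := mul_le_mul_of_nonneg_right hαpr hL.le
    have h2 : 0 ≤ (β : ℝ) * log s := by positivity
    linarith
  have hBY : |(B : ℝ)| ≤ exp Y := by
    rw [hB]
    push_cast
    rw [abs_mul, abs_mul, abs_pow, abs_pow, abs_pow, Nat.abs_cast, Nat.abs_cast]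
    have h1 : |1 - ((q : ℝ) - 1) * m| ≤ q * m := by
      rw [abs_le]; constructor <;> nlinarith
    have h2 : |1 - ((q : ℝ) - 1) * m| ^ lam ≤ exp (50 * (log q + log m)) := by
      have h3 : |1 - ((q : ℝ) - 1) * m| ^ lam ≤ ((q : ℝ) * m) ^ lam :=
        pow_le_pow_left₀ (abs_nonneg _) h1 _
      refine h3.trans (pow_le_exp (by positivity) lam ?_)
      rw [log_mul (by positivity) (by positivity)]
      exact mul_le_mul_of_nonneg_right hk1r (by linarith)
    have h3 : (s : ℝ) ^ β ≤ exp (β * log s) := pow_le_exp (by linarith) β le_rfl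
    have h4 : (q : ℝ) ^ αm ≤ exp (g / 51 * log q) :=
      pow_le_exp (by linarith) αm (mul_le_mul_of_nonneg_right hαmr hL.le)
    rw [hY, exp_add, exp_add]
    exact mul_le_mul (mul_le_mul h2 h3 (by positivity) (exp_pos _).le) h4 (by positivity)
      (by positivity)
  have hc := core hr hr2 hh2 hAZ hBZ hAY hBY hY0 hdvd hne
  -- conclusion
  have hgl : 16000 * log q ≤ g * log q := mul_le_mul_of_nonneg_right hgr hL.le
  have hβr : (0 : ℝ) ≤ β := Nat.cast_nonneg _
  have h1 : (9 / 10 : ℝ) * (g * log q) ≤ 20 * (Y + β + 1) := hbig.trans hc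
  have h2 : (38 / 100 : ℝ) * (g * log q) ≤ 20 * (β * (1 + log s)) := by
    rw [hY] at h1
    linarith
  have h3 : 1 + log s ≤ (3 / 2) * log (2 * s) := by
    rw [log_mul (by norm_num) (by linarith)]
    linarith
  have h4 : (38 / 100 : ℝ) * (g * log q) ≤ 30 * (β * log (2 * s)) := by
    have := mul_le_mul_of_nonneg_left h3 hβr
    linarith
  have h5 : (38 / 100 : ℝ) * (g * log q) * g ≤ 30 * (β * log (2 * s)) * g :=
    mul_le_mul_of_nonneg_right h4 hg0.le
  have hl2s : 0 ≤ log (2 * s) := log_nonneg (by linarith)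
  have h6 : (β : ℝ) * g * log (2 * s) ≤ 51 * a * log (2 * s) :=
    mul_le_mul_of_nonneg_right hβ1 hl2s
  have h7 : (38 / 100 : ℝ) * (g ^ 2 * log q) ≤ 1530 * (a * log (2 * s)) := by nlinarith
  nlinarith

end Pool.Agent.Lib.MP_f02ea4_nt.Lp
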