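import Mathlib

/-! # Odd perfect numbers `D * m ^ 2` with `m` squarefree: robust form of Steuerwald's theorem -/

namespace Pool.Agent.OPNRS

open Finset ArithmeticFunction

/-- prime divisors of `q^2+q+1` are `3` or `1 mod 3` -/
lemma mod_three {p q : ℕ} (hp : p.Prime) (h : p ∣ q ^ 2 + q + 1) (h3 : p ≠ 3) : p % 3 = 1 := by
  have := Fact.mk hp
  have h0 : ((q : ZMod p)) ^ 2 + q + 1 = 0 := by
    have := (ZMod.natCast_eq_zero_iff (q ^ 2 + q + 1) p).2 h
    push_cast at this
    exact this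
  have h1 : ((q : ZMod p)) ^ 3 = 1 := by
    linear_combination ((q : ZMod p) - 1) * h0
  have h2 : ((q : ZMod p)) ≠ 1 := by
    intro hq
    rw [hq] at h0
    have h33 : ((3 : ℕ) : ZMod p) = 0 := by
      push_cast
      linear_combination h0
    rw [ZMod.natCast_eq_zero_iff] at h33
    exact h3 ((Nat.prime_dvd_prime_iff_eq hp Nat.prime_three).1 h33)
  have hne : ((q : ZMod p)) ≠ 0 := by
    intro hq
    rw [hq] at h1
    norm_num at h1
  have ho : orderOf ((q : ZMod p)) = 3 := by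
    have := Fact.mk Nat.prime_three
    exact orderOf_eq_prime h1 h2
  have hd := ZMod.orderOf_dvd_card_sub_one hne
  rw [ho] at hd
  have := hp.two_le
  omega

lemma sigma_sq {m : ℕ} (hm : Squarefree m) :
    sigma 1 (m ^ 2) = ∏ p ∈ m.primeFactors, (p ^ 2 + p + 1) := by
  conv_lhs => rw [← Nat.prod_primeFactors_of_squarefree hm]
  rw [← Finset.prod_pow, isMultiplicative_sigma.map_prod]
  · apply Finset.prod_congr rfl
    intro p hp
    rw [sigma_one_apply_prime_pow (Nat.prime_of_mem_primeFactors hp)]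
    simp [Finset.sum_range_succ]
    ring
  · intro a ha b hb hab
    have hpa := Nat.prime_of_mem_primeFactors (by simpa using ha)
    have hpb := Nat.prime_of_mem_primeFactors (by simpa using hb)
    exact Nat.Coprime.pow 2 2 ((Nat.coprime_primes hpa hpb).2 hab)

lemma main_eq {N D m : ℕ} (hN : N.Perfect) (h : N = D * m ^ 2) (hm : Squarefree m)
    (hc : D.Coprime m) :
    sigma 1 D * ∏ p ∈ m.primeFactors, (p ^ 2 + p + 1) = 2 * (D * m ^ 2) := by
  rw [← sigma_sq hm, ← isMultiplicative_sigma.map_mul_of_coprime (Nat.Coprime.pow_right 2 hc),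
    ← h, sigma_one_apply]
  exact (Nat.perfect_iff_sum_divisors_eq_two_mul hN.2).1 hN

lemma sigma_le {D m : ℕ} (hm : Squarefree m)
    (he : sigma 1 D * ∏ p ∈ m.primeFactors, (p ^ 2 + p + 1) = 2 * (D * m ^ 2)) :
    sigma 1 D ≤ 2 * D := by
  have hm0 : 0 < m ^ 2 := by
    have := hm.ne_zero
    positivity
  have h1 : m ^ 2 ≤ ∏ p ∈ m.primeFactors, (p ^ 2 + p + 1) := by
    conv_lhs => rw [← Nat.prod_primeFactors_of_squarefree hm]
    rw [← Finset.prod_pow]
    exact Finset.prod_le_prod' fun p _ => by omega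
  by_contra hlt
  push Not at hlt
  have : 2 * D * m ^ 2 < sigma 1 D * ∏ p ∈ m.primeFactors, (p ^ 2 + p + 1) :=
    Nat.mul_lt_mul_of_lt_of_le hlt h1 (lt_of_lt_of_le hm0 h1)
  rw [he] at this
  linarith [this, mul_assoc 2 D (m ^ 2)]

/-- `D` is at least `5` -/
lemma five_le {D m : ℕ} (hoddN : Odd (D * m ^ 2))
    (he : sigma 1 D * ∏ p ∈ m.primeFactors, (p ^ 2 + p + 1) = 2 * (D * m ^ 2)) : 5 ≤ D := by
  have hD : Odd D := (Nat.odd_mul.1 hoddN).1
  have hprod : Odd (∏ p ∈ m.primeFactors, (p ^ 2 + p + 1)) := by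
    apply Finset.prod_induction _ Odd (fun a b ha hb => ha.mul hb) odd_one
    intro p hp
    have : Even (p * (p + 1)) := Nat.even_mul_succ_self p
    have h2 : p ^ 2 + p + 1 = p * (p + 1) + 1 := by ring
    rw [h2]
    exact this.add_one
  by_contra hlt
  push Not at hlt
  have hcase : D = 1 ∨ D = 3 := by
    obtain ⟨k, hk⟩ := hD
    omega
  rcases hcase with rfl | rfl
  · simp only [sigma_one, one_mul] at he
    rw [he] at hprod
    exact (Nat.not_odd_iff_even.2 (even_two_mul _)) hprod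
  · have hs : sigma 1 3 = 4 := by
      have := sigma_one_apply_prime_pow (i := 1) Nat.prime_three
      simpa [Finset.sum_range_succ] using this
    rw [hs] at he
    have h2 : 2 * ∏ p ∈ m.primeFactors, (p ^ 2 + p + 1) = 3 * m ^ 2 := by linarith
    have hod : Odd (3 * m ^ 2) := hoddN
    rw [← h2] at hod
    exact (Nat.not_odd_iff_even.2 (even_two_mul _)) hod

/-- number of primes `1 mod 3` -/
lemma card_le {D m : ℕ} (hoddN : Odd (D * m ^ 2))
    (he : sigma 1 D * ∏ p ∈ m.primeFactors, (p ^ 2 + p + 1) = 2 * (D * m ^ 2)) :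
    (m.primeFactors.filter (fun p => p % 3 = 1)).card ≤ (D * m ^ 2).factorization 3 := by
  have hN0 : D * m ^ 2 ≠ 0 := by
    rintro h
    rw [h] at hoddN
    exact absurd hoddN (by decide)
  rw [← Nat.prime_three.pow_dvd_iff_le_factorization hN0]
  have h1 : 3 ^ (m.primeFactors.filter (fun p => p % 3 = 1)).card ∣
      ∏ p ∈ m.primeFactors.filter (fun p => p % 3 = 1), (p ^ 2 + p + 1) := by
    rw [← Finset.prod_const]
    apply Finset.prod_dvd_prod_of_dvd
    intro p hp
    rw [Finset.mem_filter] at hp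
    have h3 := hp.2
    apply Nat.dvd_of_mod_eq_zero
    simp [Nat.add_mod, Nat.pow_mod, h3]
  have h2 : 3 ^ (m.primeFactors.filter (fun p => p % 3 = 1)).card ∣ 2 * (D * m ^ 2) := by
    rw [← he]
    exact (h1.trans (Finset.prod_dvd_prod_of_subset _ _ _ (Finset.filter_subset _ _))).trans
      (dvd_mul_left _ _)
  exact Nat.Coprime.dvd_of_dvd_mul_left (Nat.Coprime.pow_left _ (by norm_num)) h2

/-- two factors -/
lemma two_factors {ι : Type*} [DecidableEq ι] {s : Finset ι} {f : ι → ℕ} {P : ℕ} (hP : P.Prime)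
    (h : P ^ 2 ∣ ∏ i ∈ s, f i) (h1 : ∀ i ∈ s, ¬ P ^ 2 ∣ f i) :
    ∃ i ∈ s, ∃ j ∈ s, i ≠ j ∧ P ∣ f i ∧ P ∣ f j := by
  obtain ⟨i, hi, hid⟩ := (Prime.dvd_finsetProd_iff hP.prime _).1 ((dvd_pow_self P two_ne_zero).trans h)
  rw [← Finset.mul_prod_erase s f hi] at h
  by_cases hr : P ∣ ∏ x ∈ s.erase i, f x
  · obtain ⟨j, hj, hjd⟩ := (Prime.dvd_finsetProd_iff hP.prime _).1 hr
    rw [Finset.mem_erase] at hj
    exact ⟨i, hi, j, hj.2, hj.1.symm, hid, hjd⟩
  · exfalso
    have hc : Nat.Coprime (P ^ 2) (∏ x ∈ s.erase i, f x) :=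
      Nat.Coprime.pow_left 2 ((hP.coprime_iff_not_dvd).2 hr)
    exact h1 i hi (hc.dvd_of_dvd_mul_right h)

/-- the arithmetic contradiction -/
lemma no_two {P r s : ℕ} (hP : P.Prime) (hP3 : P % 3 = 1) (hr : r % 3 = 1) (hs : s % 3 = 1)
    (hrs : r < s) (hsP : s ≤ P) (h1 : P ∣ r ^ 2 + r + 1) (h2 : P ∣ s ^ 2 + s + 1) : False := by
  have hsP' : s < P := by
    rcases hsP.lt_or_eq with h | h
    · exact h
    · exfalso
      subst h
      have h3 : s ∣ 1 := by
        have : s ^ 2 + s + 1 = s * (s + 1) + 1 := by ring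
        rw [this] at h2
        exact (Nat.dvd_add_right (dvd_mul_right s (s + 1))).1 h2
      exact hP.one_lt.ne' (Nat.dvd_one.1 h3)
  obtain ⟨d, rfl⟩ : ∃ d, s = r + d := ⟨s - r, by omega⟩
  have h3 : P ∣ d * (2 * r + d + 1) := by
    have : (r + d) ^ 2 + (r + d) + 1 = (r ^ 2 + r + 1) + d * (2 * r + d + 1) := by ring
    rw [this] at h2
    exact (Nat.dvd_add_right h1).1 h2
  rcases (hP.dvd_mul).1 h3 with h | h
  · exact absurd (Nat.le_of_dvd (by omega) h) (by omega)
  · have h4 : 3 ∣ 2 * r + d + 1 := by omega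
    have hc : Nat.Coprime P 3 := by
      rw [Nat.coprime_comm, Nat.prime_three.coprime_iff_not_dvd]
      omega
    have h5 : P * 3 ∣ 2 * r + d + 1 := hc.mul_dvd_of_dvd_of_dvd h h4
    have := Nat.le_of_dvd (by omega) h5
    omega

/-- `sigma D = 2 K` with `K` odd, `K ≤ D` and `K * ∏ (p^2+p+1) = D m^2`. -/
lemma exists_K {D m : ℕ} (hoddN : Odd (D * m ^ 2)) (hm : Squarefree m)
    (he : sigma 1 D * ∏ p ∈ m.primeFactors, (p ^ 2 + p + 1) = 2 * (D * m ^ 2)) :
    ∃ K, sigma 1 D = 2 * K ∧ Odd K ∧ K ≤ D ∧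
      K * ∏ p ∈ m.primeFactors, (p ^ 2 + p + 1) = D * m ^ 2 := by
  have hprod : Odd (∏ p ∈ m.primeFactors, (p ^ 2 + p + 1)) := by
    apply Finset.prod_induction _ Odd (fun a b ha hb => ha.mul hb) odd_one
    intro p hp
    have : Even (p * (p + 1)) := Nat.even_mul_succ_self p
    have h2 : p ^ 2 + p + 1 = p * (p + 1) + 1 := by ring
    rw [h2]
    exact this.add_one
  have hev : 2 ∣ sigma 1 D := by
    have h1 : 2 ∣ sigma 1 D * ∏ p ∈ m.primeFactors, (p ^ 2 + p + 1) := by
      rw [he]; exact dvd_mul_right _ _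
    exact (Nat.coprime_two_left.2 hprod).dvd_of_dvd_mul_right h1
  obtain ⟨K, hK⟩ := hev
  have hKe : K * ∏ p ∈ m.primeFactors, (p ^ 2 + p + 1) = D * m ^ 2 := by
    rw [hK, mul_assoc] at he
    exact Nat.eq_of_mul_eq_mul_left (by norm_num) he
  refine ⟨K, hK, ?_, ?_, hKe⟩
  · rw [← hKe] at hoddN
    exact (Nat.odd_mul.1 hoddN).1
  · have := sigma_le hm he
    omega

/-- The square of the product of the primes `2 mod 3` divides `K`. -/
lemma w_dvd {D m K : ℕ}
    (hKe : K * ∏ p ∈ m.primeFactors, (p ^ 2 + p + 1) = D * m ^ 2) :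
    (∏ p ∈ m.primeFactors.filter (fun p => p % 3 = 2), p) ^ 2 ∣ K := by
  rw [← Finset.prod_pow]
  apply Finset.prod_dvd_of_isRelPrime
  · intro a ha b hb hab
    simp only [Finset.coe_filter, Set.mem_ofPred_eq] at ha hb
    have hpa := Nat.prime_of_mem_primeFactors ha.1
    have hpb := Nat.prime_of_mem_primeFactors hb.1
    show IsRelPrime (a ^ 2) (b ^ 2)
    rw [← Nat.coprime_iff_isRelPrime]
    exact Nat.Coprime.pow 2 2 ((Nat.coprime_primes hpa hpb).2 hab)
  · intro p hp
    rw [Finset.mem_filter] at hp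
    have hpp := Nat.prime_of_mem_primeFactors hp.1
    have hd : p ^ 2 ∣ K * ∏ p ∈ m.primeFactors, (p ^ 2 + p + 1) := by
      rw [hKe]
      exact (pow_dvd_pow_of_dvd (Nat.dvd_of_mem_primeFactors hp.1) 2).trans (dvd_mul_left _ _)
    refine Nat.Coprime.dvd_of_dvd_mul_right ?_ hd
    apply Nat.Coprime.pow_left
    rw [hpp.coprime_iff_not_dvd]
    intro hdv
    obtain ⟨q, hq, hq2⟩ := (Prime.dvd_finsetProd_iff hpp.prime _).1 hdv
    have := mod_three hpp hq2 (by omega)
    omega

/-- bound for the primes `2 mod 3` -/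
lemma w_bound {D m K : ℕ} (hodd : Odd K) (hKD : K ≤ D)
    (hKe : K * ∏ p ∈ m.primeFactors, (p ^ 2 + p + 1) = D * m ^ 2) :
    (∏ p ∈ m.primeFactors.filter (fun p => p % 3 = 2), p) ^ 2 ≤ D :=
  (Nat.le_of_dvd hodd.pos (w_dvd hKe)).trans hKD

lemma two_bound {D m K p : ℕ} (hodd : Odd K) (hKD : K ≤ D)
    (hKe : K * ∏ p ∈ m.primeFactors, (p ^ 2 + p + 1) = D * m ^ 2)
    (hp : p ∈ m.primeFactors) (hp3 : p % 3 = 2) : p ^ 2 ≤ D := by
  refine (Nat.le_of_dvd hodd.pos ?_).trans hKD
  exact (pow_dvd_pow_of_dvd (Finset.dvd_prod_of_mem (fun p => p)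
    (Finset.mem_filter.2 ⟨hp, hp3⟩)) 2).trans (w_dvd hKe)

/-- Every prime factor of `m` is at most `D + √D + 1`. -/
lemma prime_bound {D m p : ℕ} (hoddN : Odd (D * m ^ 2)) (hm : Squarefree m)
    (he : sigma 1 D * ∏ p ∈ m.primeFactors, (p ^ 2 + p + 1) = 2 * (D * m ^ 2))
    (hp : p ∈ m.primeFactors) : (p : ℝ) ≤ D + √D + 1 := by
  have hD := five_le hoddN he
  obtain ⟨K, -, hKodd, hKD, hKe⟩ := exists_K hoddN hm he
  have hD' : (5 : ℝ) ≤ D := by exact_mod_cast hD
  have hs3 : (2 : ℝ) ≤ √D := by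
    apply Real.le_sqrt_of_sq_le
    linarith
  have hs0 := Real.sq_sqrt (show (0 : ℝ) ≤ D by positivity)
  have hA2 : ∀ q ∈ m.primeFactors, q % 3 = 2 → (q : ℝ) ≤ √D := by
    intro q hq hq3
    apply Real.le_sqrt_of_sq_le
    exact_mod_cast two_bound hKodd hKD hKe hq hq3
  have hmod : p % 3 = 0 ∨ p % 3 = 1 ∨ p % 3 = 2 := by omega
  rcases hmod with h | h | h
  · have : p = 3 := ((Nat.prime_dvd_prime_iff_eq Nat.prime_three
      (Nat.prime_of_mem_primeFactors hp)).1 (Nat.dvd_of_mod_eq_zero h)).symm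
    subst this
    push_cast
    linarith
  · -- the largest prime `1 mod 3`
    set A := m.primeFactors.filter (fun p => p % 3 = 1) with hA
    have hpA : p ∈ A := by rw [hA, Finset.mem_filter]; exact ⟨hp, h⟩
    have hAne : A.Nonempty := ⟨p, hpA⟩
    set P := A.max' hAne with hPdef
    have hPA : P ∈ A := A.max'_mem hAne
    have hpP : p ≤ P := A.le_max' p hpA
    have hP1 : P ∈ m.primeFactors ∧ P % 3 = 1 := by
      rw [hA, Finset.mem_filter] at hPA
      exact hPA
    have hPp : P.Prime := Nat.prime_of_mem_primeFactors hP1.1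
    suffices hPb : (P : ℝ) ≤ D + √D + 1 from
      le_trans (by exact_mod_cast hpP) hPb
    by_cases hdvd : P ∣ K
    · have h3 : P ≤ D := (Nat.le_of_dvd hKodd.pos hdvd).trans hKD
      have h4 : (P : ℝ) ≤ D := by exact_mod_cast h3
      linarith
    · have h5 : P ^ 2 ∣ ∏ p ∈ m.primeFactors, (p ^ 2 + p + 1) := by
        have hd : P ^ 2 ∣ K * ∏ p ∈ m.primeFactors, (p ^ 2 + p + 1) := by
          rw [hKe]
          exact (pow_dvd_pow_of_dvd (Nat.dvd_of_mem_primeFactors hP1.1) 2).trans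
            (dvd_mul_left _ _)
        exact Nat.Coprime.dvd_of_dvd_mul_left
          (Nat.Coprime.pow_left 2 ((hPp.coprime_iff_not_dvd).2 hdvd)) hd
      by_cases hex : ∃ q ∈ m.primeFactors, q % 3 ≠ 1 ∧ P ∣ q ^ 2 + q + 1
      · obtain ⟨q, hq, hq1, hq2⟩ := hex
        have hPle : P ≤ q ^ 2 + q + 1 := Nat.le_of_dvd (by positivity) hq2
        have hPle' : (P : ℝ) ≤ (q : ℝ) ^ 2 + q + 1 := by exact_mod_cast hPle
        have hq' : q % 3 = 0 ∨ q % 3 = 2 := by omega
        rcases hq' with h0 | h0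
        · have : q = 3 := ((Nat.prime_dvd_prime_iff_eq Nat.prime_three
            (Nat.prime_of_mem_primeFactors hq)).1 (Nat.dvd_of_mod_eq_zero h0)).symm
          subst this
          have hP13 : P = 13 := (Nat.prime_dvd_prime_iff_eq hPp (by norm_num)).1 hq2
          by_cases hD12 : 12 ≤ D
          · rw [hP13]
            have : (12 : ℝ) ≤ D := by exact_mod_cast hD12
            push_cast
            linarith
          · exfalso
            have h61 : 61 ∣ D * m ^ 2 := by
              rw [← hKe]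
              apply Dvd.dvd.mul_left
              have h1 : P ^ 2 + P + 1 ∣ ∏ p ∈ m.primeFactors, (p ^ 2 + p + 1) :=
                Finset.dvd_prod_of_mem (fun p => p ^ 2 + p + 1) hP1.1
              rw [hP13] at h1
              exact dvd_trans (by decide) h1
            have h61p : Nat.Prime 61 := by norm_num
            rcases (h61p.dvd_mul).1 h61 with h2 | h2
            · have := Nat.le_of_dvd (by omega) h2
              omega
            · have h61m : 61 ∈ m.primeFactors :=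
                Nat.mem_primeFactors.2 ⟨h61p, h61p.dvd_of_dvd_pow h2, hm.ne_zero⟩
              have h61A : 61 ∈ A := by
                rw [hA, Finset.mem_filter]
                exact ⟨h61m, by norm_num⟩
              have := A.le_max' 61 h61A
              omega
        · have h6 := hA2 q hq h0
          have h7 : (q : ℝ) ^ 2 ≤ D := by
            exact_mod_cast two_bound hKodd hKD hKe hq h0
          linarith
      · exfalso
        push Not at hex
        -- only the primes `1 mod 3` pay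
        have h8 : P ^ 2 ∣ ∏ p ∈ A, (p ^ 2 + p + 1) := by
          have hsplit := Finset.prod_filter_mul_prod_filter_not m.primeFactors
            (fun p => p % 3 = 1) (fun p => p ^ 2 + p + 1)
          rw [← hsplit] at h5
          refine Nat.Coprime.dvd_of_dvd_mul_right ?_ h5
          apply Nat.Coprime.pow_left
          rw [hPp.coprime_iff_not_dvd]
          intro hdv
          obtain ⟨q, hq, hq2⟩ := (Prime.dvd_finsetProd_iff hPp.prime _).1 hdv
          rw [Finset.mem_filter] at hq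
          exact hex q hq.1 hq.2 hq2
        have hle : ∀ q ∈ A, q ≤ P := fun q hq => A.le_max' q hq
        have hself : ¬ P ∣ P ^ 2 + P + 1 := by
          intro h9
          have : P ^ 2 + P + 1 = P * (P + 1) + 1 := by ring
          rw [this] at h9
          exact hPp.one_lt.ne' (Nat.dvd_one.1 ((Nat.dvd_add_right (dvd_mul_right P (P + 1))).1 h9))
        obtain ⟨i, hi, j, hj, hij, hid, hjd⟩ := two_factors hPp h8 (by
          intro q hq hq2
          have hqP := hle q hq
          rcases hqP.lt_or_eq with hlt | heq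
          · have h10 := Nat.le_of_dvd (by positivity) hq2
            have h11 : 1 ≤ q := (Nat.prime_of_mem_primeFactors (Finset.mem_filter.1 hq).1).pos
            have h12 : (q + 1) ^ 2 ≤ P ^ 2 := Nat.pow_le_pow_left hlt 2
            nlinarith
          · rw [heq] at hq2
            exact hself ((dvd_pow_self P two_ne_zero).trans hq2))
        have hi3 : i % 3 = 1 := (Finset.mem_filter.1 hi).2
        have hj3 : j % 3 = 1 := (Finset.mem_filter.1 hj).2
        rcases lt_or_gt_of_ne hij with hlt | hlt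
        · exact no_two hPp hP1.2 hi3 hj3 hlt (hle j hj) hid hjd
        · exact no_two hPp hP1.2 hj3 hi3 hlt (hle i hi) hjd hid
  · have := hA2 p hp h
    linarith

/-- Square of the bound. -/
lemma prime_sq_le {D m p : ℕ} (hoddN : Odd (D * m ^ 2)) (hm : Squarefree m)
    (he : sigma 1 D * ∏ p ∈ m.primeFactors, (p ^ 2 + p + 1) = 2 * (D * m ^ 2))
    (hp : p ∈ m.primeFactors) : p ^ 2 ≤ 3 * D ^ 2 := by
  have hD := five_le hoddN he
  have hD' : (5 : ℝ) ≤ D := by exact_mod_cast hD
  have h1 := prime_bound hoddN hm he hp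
  have hs0 := Real.sq_sqrt (show (0 : ℝ) ≤ D by positivity)
  have hs1 := Real.sqrt_nonneg (D : ℝ)
  have h2 : √(D : ℝ) ≤ 0.7 * D - 1.2 := by
    rw [Real.sqrt_le_left (by linarith)]
    nlinarith
  have h3 : (p : ℝ) ≤ 1.7 * D := by linarith
  have h4 : (p : ℝ) ^ 2 ≤ 3 * (D : ℝ) ^ 2 := by
    have hp0 : (0 : ℝ) ≤ p := Nat.cast_nonneg p
    nlinarith
  exact_mod_cast h4

lemma m_split {m : ℕ} (hm : Squarefree m) :
    m = (∏ p ∈ m.primeFactors.filter (fun p => p % 3 = 2), p) *
      ((∏ p ∈ m.primeFactors.filter (fun p => p % 3 = 1), p) *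
        (∏ p ∈ m.primeFactors.filter (fun p => p % 3 = 0), p)) := by
  conv_lhs => rw [← Nat.prod_primeFactors_of_squarefree hm]
  rw [← Finset.prod_filter_mul_prod_filter_not m.primeFactors (fun p => p % 3 = 2) (fun p => p)]
  congr 1
  rw [← Finset.prod_filter_mul_prod_filter_not
    (m.primeFactors.filter (fun p => ¬ p % 3 = 2)) (fun p => p % 3 = 1) (fun p => p),
    Finset.filter_filter, Finset.filter_filter]
  congr 1
  · apply Finset.prod_congr _ (fun _ _ => rfl)
    apply Finset.filter_congr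
    intro p _
    omega
  · apply Finset.prod_congr _ (fun _ _ => rfl)
    apply Finset.filter_congr
    intro p _
    omega

lemma filter_zero {m : ℕ} : m.primeFactors.filter (fun p => p % 3 = 0) ⊆ {3} := by
  intro p hp
  rw [Finset.mem_filter] at hp
  rw [Finset.mem_singleton]
  exact ((Nat.prime_dvd_prime_iff_eq Nat.prime_three
    (Nat.prime_of_mem_primeFactors hp.1)).1 (Nat.dvd_of_mod_eq_zero hp.2)).symm

/-- size of `m` -/
lemma m_bound {D m t : ℕ} (hoddN : Odd (D * m ^ 2)) (hm : Squarefree m)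
    (he : sigma 1 D * ∏ p ∈ m.primeFactors, (p ^ 2 + p + 1) = 2 * (D * m ^ 2))
    (ht : (∏ p ∈ m.primeFactors.filter (fun p => p % 3 = 0), p) ^ 2 ≤ t) :
    m ^ 2 ≤ D * ((3 * D ^ 2) ^ (m.primeFactors.filter (fun p => p % 3 = 1)).card * t) := by
  obtain ⟨K, -, hKodd, hKD, hKe⟩ := exists_K hoddN hm he
  have hw := w_bound hKodd hKD hKe
  have hA1 : (∏ p ∈ m.primeFactors.filter (fun p => p % 3 = 1), p) ^ 2 ≤
      (3 * D ^ 2) ^ (m.primeFactors.filter (fun p => p % 3 = 1)).card := by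
    rw [← Finset.prod_pow]
    calc (∏ p ∈ m.primeFactors.filter (fun p => p % 3 = 1), p ^ 2)
        ≤ ∏ p ∈ m.primeFactors.filter (fun p => p % 3 = 1), 3 * D ^ 2 :=
          Finset.prod_le_prod' fun p hp => prime_sq_le hoddN hm he (Finset.mem_filter.1 hp).1
      _ = _ := by
          rw [Finset.prod_const]
  have hsplit := m_split hm
  set w := ∏ p ∈ m.primeFactors.filter (fun p => p % 3 = 2), p
  set a := ∏ p ∈ m.primeFactors.filter (fun p => p % 3 = 1), p
  set b := ∏ p ∈ m.primeFactors.filter (fun p => p % 3 = 0), p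
  calc m ^ 2 = w ^ 2 * (a ^ 2 * b ^ 2) := by rw [hsplit]; ring
    _ ≤ D * ((3 * D ^ 2) ^ (m.primeFactors.filter (fun p => p % 3 = 1)).card * t) := by
        gcongr

lemma filter_zero_sq {m : ℕ} :
    (∏ p ∈ m.primeFactors.filter (fun p => p % 3 = 0), p) ^ 2 ≤ 9 := by
  have : (∏ p ∈ m.primeFactors.filter (fun p => p % 3 = 0), p) ≤ 3 := by
    calc (∏ p ∈ m.primeFactors.filter (fun p => p % 3 = 0), p) ≤ ∏ p ∈ ({3} : Finset ℕ), p :=
          Finset.prod_le_prod_of_subset_of_one_le' filter_zero (fun i hi _ => by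
            rw [Finset.mem_singleton] at hi; omega)
      _ = 3 := by simp
  exact Nat.pow_le_pow_left this 2

lemma filter_zero_one {m : ℕ} (h3 : ¬ 3 ∣ m) :
    (∏ p ∈ m.primeFactors.filter (fun p => p % 3 = 0), p) ^ 2 ≤ 1 := by
  have hA0 : m.primeFactors.filter (fun p => p % 3 = 0) = ∅ := by
    rw [Finset.filter_eq_empty_iff]
    intro p hp hp3
    have : p = 3 := ((Nat.prime_dvd_prime_iff_eq Nat.prime_three
      (Nat.prime_of_mem_primeFactors hp)).1 (Nat.dvd_of_mod_eq_zero hp3)).symm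
    subst this
    exact h3 (Nat.dvd_of_mem_primeFactors hp)
  rw [hA0]
  simp

lemma sum_three_mod (v : ℕ) : (∑ k ∈ Finset.range (v + 1), 3 ^ k) % 4 ≠ 2 := by
  have h : ∀ n : ℕ, ((∑ k ∈ Finset.range (n + 1), 3 ^ k) % 4 = 1 ∧ 3 ^ (n + 1) % 4 = 3) ∨
      ((∑ k ∈ Finset.range (n + 1), 3 ^ k) % 4 = 0 ∧ 3 ^ (n + 1) % 4 = 1) := by
    intro n
    induction n with
    | zero => left; decide
    | succ n ih =>
      rw [Finset.sum_range_succ]
      rcases ih with ⟨h1, h2⟩ | ⟨h1, h2⟩
      · right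
        rw [pow_succ]
        omega
      · left
        rw [pow_succ]
        omega
  rcases h v with h1 | h1 <;> omega

/-- If `3 ∤ m` then `5 * 3 ^ v ≤ D`. -/
lemma three_pow_le {D m v : ℕ} (hoddN : Odd (D * m ^ 2)) (hm : Squarefree m)
    (he : sigma 1 D * ∏ p ∈ m.primeFactors, (p ^ 2 + p + 1) = 2 * (D * m ^ 2))
    (hv : v = D.factorization 3) : 5 * 3 ^ v ≤ D := by
  have hD := five_le hoddN he
  obtain ⟨K, hK, hKodd, -, -⟩ := exists_K hoddN hm he
  have h1 : 3 ^ v ∣ D := hv ▸ Nat.ordProj_dvd D 3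
  obtain ⟨c, hc⟩ := h1
  have hDodd : Odd D := (Nat.odd_mul.1 hoddN).1
  have hcodd : Odd c := by
    rw [hc] at hDodd
    exact (Nat.odd_mul.1 hDodd).2
  have hc3 : ¬ 3 ∣ c := by
    have h2 := Nat.not_dvd_ordCompl Nat.prime_three (n := D) (by omega)
    have h3 : D / 3 ^ D.factorization 3 = c := by
      rw [← hv, hc, Nat.mul_div_cancel_left _ (by positivity)]
    rwa [h3] at h2
  have hc1 : c ≠ 1 := by
    rintro rfl
    rw [mul_one] at hc
    rw [hc, sigma_one_apply_prime_pow Nat.prime_three] at hK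
    have h4 := sum_three_mod v
    obtain ⟨j, hj⟩ := hKodd
    omega
  have hc5 : 5 ≤ c := by
    by_contra hlt
    obtain ⟨j, hj⟩ := hcodd
    have : c = 3 := by omega
    rw [this] at hc3
    exact hc3 dvd_rfl
  calc 5 * 3 ^ v = 3 ^ v * 5 := by ring
    _ ≤ 3 ^ v * c := Nat.mul_le_mul_left _ hc5
    _ = D := hc.symm

end Pool.Agent.OPNRS
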