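import Pool.Agent.Lib.MP_f02ea4_nt.RS_T

/-! # Odd perfect numbers `q * C * m ^ 2`: the Euler prime `q` may be left out -/

namespace Pool.Agent.OPNRS

open Finset ArithmeticFunction

lemma le_sigma {n : ℕ} : n ≤ sigma 1 n := by
  rcases Nat.eq_zero_or_pos n with rfl | hn
  · simp
  · rw [sigma_one_apply]
    exact Finset.single_le_sum (f := fun d => d) (fun _ _ => Nat.zero_le _)
      (Nat.mem_divisors_self n hn.ne')

lemma lt_sigma {n : ℕ} (hn : 1 < n) : n + 1 ≤ sigma 1 n := by
  rw [sigma_one_apply]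
  have h1 : ∑ d ∈ ({1, n} : Finset ℕ), d ≤ ∑ d ∈ n.divisors, d := by
    apply Finset.sum_le_sum_of_subset
    intro d hd
    rw [Finset.mem_insert, Finset.mem_singleton] at hd
    rw [Nat.mem_divisors]
    rcases hd with rfl | rfl
    · exact ⟨one_dvd _, by omega⟩
    · exact ⟨dvd_rfl, by omega⟩
  rw [Finset.sum_pair (by omega)] at h1
  omega

lemma sigma_mul_eq {A B : ℕ} (hP : (A * B).Perfect) (hc : A.Coprime B) :
    sigma 1 A * sigma 1 B = 2 * (A * B) := by
  rw [← isMultiplicative_sigma.map_mul_of_coprime hc, sigma_one_apply]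
  exact (Nat.perfect_iff_sum_divisors_eq_two_mul hP.2).1 hP

/-- No proper unitary divisor is closed. -/
lemma closed {A B : ℕ} (hP : (A * B).Perfect) (hc : A.Coprime B) (hA : 1 < A) (hB : 1 < B) :
    ∃ x, x.Prime ∧ x ∣ A ∧ x ∣ sigma 1 B := by
  by_contra hcon
  push Not at hcon
  have hco : A.Coprime (sigma 1 B) := by
    rw [Nat.coprime_iff_gcd_eq_one]
    by_contra hne
    obtain ⟨x, hx, hxd⟩ := Nat.exists_prime_and_dvd hne
    exact hcon x hx (hxd.trans (Nat.gcd_dvd_left _ _)) (hxd.trans (Nat.gcd_dvd_right _ _))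
  have he := sigma_mul_eq hP hc
  have hd : A ∣ sigma 1 A := by
    refine hco.dvd_of_dvd_mul_right ?_
    rw [he]
    exact (dvd_mul_right A B).trans (dvd_mul_left _ 2)
  obtain ⟨j, hj⟩ := hd
  have hlt := lt_sigma hA
  have hj2 : 2 ≤ j := by
    by_contra hj1
    have : j = 0 ∨ j = 1 := by omega
    rcases this with rfl | rfl <;> omega
  have hB1 := lt_sigma hB
  rw [hj, mul_assoc] at he
  have h1 : j * sigma 1 B = 2 * B := by
    have : A * (j * sigma 1 B) = A * (2 * B) := by rw [he]; ring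
    exact Nat.eq_of_mul_eq_mul_left (by omega) this
  have h2 : 2 * sigma 1 B ≤ 2 * B := by
    rw [← h1]
    exact Nat.mul_le_mul_right _ hj2
  omega

lemma sigma_le_left {A B : ℕ} (hP : (A * B).Perfect) (hc : A.Coprime B) :
    sigma 1 A ≤ 2 * A := by
  have he := sigma_mul_eq hP hc
  have hB0 : 0 < B := Nat.pos_of_ne_zero fun h => by
    have := hP.2
    rw [h, mul_zero] at this
    exact lt_irrefl 0 this
  have h1 : sigma 1 A * B ≤ 2 * A * B := by
    calc sigma 1 A * B ≤ sigma 1 A * sigma 1 B := Nat.mul_le_mul_left _ le_sigma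
      _ = 2 * (A * B) := he
      _ = 2 * A * B := by ring
  exact Nat.le_of_mul_le_mul_right h1 hB0

lemma sigma_prime {q : ℕ} (hq : q.Prime) : sigma 1 q = q + 1 := by
  have := sigma_one_apply_prime_pow (i := 1) hq
  simp [Finset.sum_range_succ] at this
  omega

lemma sigma_prod_sq {s : Finset ℕ} (hs : ∀ p ∈ s, p.Prime) :
    sigma 1 ((∏ p ∈ s, p) ^ 2) = ∏ p ∈ s, (p ^ 2 + p + 1) := by
  rw [← Finset.prod_pow, isMultiplicative_sigma.map_prod]
  · apply Finset.prod_congr rfl
    intro p hp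
    rw [sigma_one_apply_prime_pow (hs p hp)]
    simp [Finset.sum_range_succ]
    ring
  · intro a ha b hb hab
    exact Nat.Coprime.pow 2 2 ((Nat.coprime_primes (hs a (by simpa using ha))
      (hs b (by simpa using hb))).2 hab)

/-- The Euler prime is not `3`. -/
lemma q_ne_three {q C m : ℕ} (hqC : q.Coprime C) (hD : (q * C).Coprime m)
    (hodd : Odd (q * C * m ^ 2)) (hN : (q * C * m ^ 2).Perfect) : q ≠ 3 := by
  rintro rfl
  have h1 : (3 * (C * m ^ 2)).Perfect := by
    have : 3 * (C * m ^ 2) = 3 * C * m ^ 2 := by ring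
    rw [this]; exact hN
  have hc : Nat.Coprime 3 (C * m ^ 2) := by
    apply Nat.Coprime.mul_right hqC
    exact Nat.Coprime.pow_right 2 (Nat.Coprime.coprime_mul_right hD)
  have he := sigma_mul_eq h1 hc
  rw [sigma_prime Nat.prime_three] at he
  obtain ⟨j, hj⟩ := hodd
  have h2 : 3 * (C * m ^ 2) = 2 * j + 1 := by rw [← hj]; ring
  rw [h2] at he
  omega

/-- the elements of `V = {q} ∪ {p ∣ m, p ≡ 1 mod 3}` grow at most by squaring -/
lemma gap {q C m : ℕ} (hq : q.Prime) (hqC : q.Coprime C) (hD : (q * C).Coprime m)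
    (hm : Squarefree m) (hodd : Odd (q * C * m ^ 2)) (hN : (q * C * m ^ 2).Perfect)
    (Y : ℕ) (hY : ∃ x ∈ insert q (m.primeFactors.filter (fun p => p % 3 = 1)), Y < x) :
    ∃ x ∈ insert q (m.primeFactors.filter (fun p => p % 3 = 1)),
      Y < x ∧ x + 1 ≤ (max Y (2 * C + 1) + 1) ^ 2 := by
  classical
  set Z := max Y (2 * C + 1) with hZ
  have hm0 := hm.ne_zero
  have hqodd : Odd q := (Nat.odd_mul.1 (Nat.odd_mul.1 hodd).1).1
  have hCodd : Odd C := (Nat.odd_mul.1 (Nat.odd_mul.1 hodd).1).2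
  have hCpos : 0 < C := hCodd.pos
  have hmodd : Odd m := (Nat.odd_pow_iff (by norm_num)).1 (Nat.odd_mul.1 hodd).2
  have hZY : Y ≤ Z := le_max_left _ _
  have hZC : 2 * C + 1 ≤ Z := le_max_right _ _
  have hq3 := q_ne_three hqC hD hodd hN
  have hNe : sigma 1 (q * C) * ∏ p ∈ m.primeFactors, (p ^ 2 + p + 1) = 2 * (q * C * m ^ 2) :=
    main_eq hN rfl hm hD
  have hqm : ¬ q ∣ m := by
    intro h
    exact hq.one_lt.ne' (Nat.dvd_one.1 (by
      have := Nat.dvd_gcd (dvd_mul_right q C) h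
      rwa [Nat.Coprime.gcd_eq_one hD] at this))
  -- the inner and outer primes
  set I := m.primeFactors.filter (fun p => (p % 3 = 1 ∧ Y < p) ∨ (p % 3 = 2 ∧ Z < p)) with hI
  set O := m.primeFactors.filter (fun p => ¬ ((p % 3 = 1 ∧ Y < p) ∨ (p % 3 = 2 ∧ Z < p))) with hO
  have hIp : ∀ p ∈ I, p.Prime := fun p hp =>
    Nat.prime_of_mem_primeFactors (Finset.mem_filter.1 hp).1
  have hOp : ∀ p ∈ O, p.Prime := fun p hp =>
    Nat.prime_of_mem_primeFactors (Finset.mem_filter.1 hp).1
  have hmIO : m = (∏ p ∈ I, p) * ∏ p ∈ O, p := by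
    conv_lhs => rw [← Nat.prod_primeFactors_of_squarefree hm]
    rw [hI, hO, Finset.prod_filter_mul_prod_filter_not]
  set qa := if Y < q then q else 1 with hqa
  set qb := if Y < q then 1 else q with hqb
  have hqab : qa * qb = q := by
    rw [hqa, hqb]; split_ifs <;> simp
  set A := qa * (∏ p ∈ I, p) ^ 2 with hA
  set B := qb * C * (∏ p ∈ O, p) ^ 2 with hB
  have hAB : q * C * m ^ 2 = A * B := by
    rw [hA, hB, hmIO, ← hqab]
    ring
  have hIO : (∏ p ∈ I, p).Coprime (∏ p ∈ O, p) := by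
    have := hm
    rw [hmIO] at this
    exact Nat.coprime_of_squarefree_mul this
  have hIm : (∏ p ∈ I, p) ∣ m := ⟨_, hmIO⟩
  have hOm : (∏ p ∈ O, p) ∣ m := ⟨_, by rw [mul_comm]; exact hmIO⟩
  have hqaq : qa ∣ q := ⟨_, hqab.symm⟩
  have hqbq : qb ∣ q := ⟨_, by rw [mul_comm]; exact hqab.symm⟩
  have hqm' : q.Coprime m := (hq.coprime_iff_not_dvd).2 hqm
  have hCm : C.Coprime m := Nat.Coprime.coprime_mul_left hD
  have hqaqb : qa.Coprime qb := by
    rw [hqa, hqb]; split_ifs <;> simp
  have hc : A.Coprime B := by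
    rw [hA, hB]
    apply Nat.Coprime.mul_left
    · apply Nat.Coprime.mul_right
      · apply Nat.Coprime.mul_right hqaqb
        exact Nat.Coprime.coprime_dvd_left hqaq hqC
      · apply Nat.Coprime.pow_right
        exact Nat.Coprime.coprime_dvd_left hqaq (Nat.Coprime.coprime_dvd_right hOm hqm')
    · apply Nat.Coprime.pow_left
      apply Nat.Coprime.mul_right
      · apply Nat.Coprime.mul_right
        · exact (Nat.Coprime.coprime_dvd_left hqbq (Nat.Coprime.coprime_dvd_right hIm hqm')).symm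
        · exact (Nat.Coprime.coprime_dvd_right hIm hCm).symm
      · exact Nat.Coprime.pow_right 2 hIO
  have hIpos : 0 < ∏ p ∈ I, p := Finset.prod_pos fun p hp => (hIp p hp).pos
  have hOpos : 0 < ∏ p ∈ O, p := Finset.prod_pos fun p hp => (hOp p hp).pos
  have hA1 : 1 < A := by
    obtain ⟨x, hx, hxY⟩ := hY
    rw [Finset.mem_insert] at hx
    rcases hx with rfl | hx
    · rw [hA, hqa, if_pos hxY]
      have : 1 ≤ (∏ p ∈ I, p) ^ 2 := Nat.one_le_pow _ _ hIpos
      nlinarith [hq.two_le]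
    · rw [Finset.mem_filter] at hx
      have hxI : x ∈ I := by
        rw [hI, Finset.mem_filter]
        exact ⟨hx.1, Or.inl ⟨hx.2, hxY⟩⟩
      have h1 : x ∣ ∏ p ∈ I, p := Finset.dvd_prod_of_mem (fun p => p) hxI
      have h2 := Nat.le_of_dvd hIpos h1
      have h3 := (hIp x hxI).two_le
      have h4 : 1 ≤ qa := by
        rw [hqa]; split_ifs
        · exact hq.pos
        · exact le_rfl
      rw [hA]
      nlinarith
  have hBpos : 0 < B := by
    rw [hB, hqb]
    split_ifs
    · positivity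
    · have := hq.pos
      positivity
  have hB1 : 1 < B := by
    by_contra hB1
    have hB1' : B = 1 := by omega
    rw [hB] at hB1'
    have hqbC : qb * C = 1 := Nat.eq_one_of_mul_eq_one_right hB1'
    have hqb1 : qb = 1 := Nat.eq_one_of_mul_eq_one_right hqbC
    have hC1 : C = 1 := Nat.eq_one_of_mul_eq_one_left hqbC
    have hO1 : ∏ p ∈ O, p = 1 := by
      have := Nat.eq_one_of_mul_eq_one_left hB1'
      exact (pow_eq_one_iff.1 this).resolve_right two_ne_zero
    have hOe : O = ∅ := by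
      by_contra hne
      obtain ⟨x, hx⟩ := Finset.nonempty_iff_ne_empty.2 hne
      have h1 : x ∣ ∏ p ∈ O, p := Finset.dvd_prod_of_mem (fun p => p) hx
      rw [hO1] at h1
      exact (hOp x hx).one_lt.ne' (Nat.dvd_one.1 h1)
    have h3m : ¬ 3 ∣ m := by
      intro h
      have : 3 ∈ O := by
        rw [hO, Finset.mem_filter]
        refine ⟨Nat.mem_primeFactors.2 ⟨Nat.prime_three, h, hm0⟩, ?_⟩
        norm_num
      rw [hOe] at this
      simp at this
    have h3N : ¬ 3 ∣ 2 * (q * C * m ^ 2) := by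
      intro h
      rw [hC1, mul_one] at h
      rcases (Nat.prime_three.dvd_mul).1 h with h | h
      · norm_num at h
      · rcases (Nat.prime_three.dvd_mul).1 h with h | h
        · exact hq3 ((Nat.prime_dvd_prime_iff_eq Nat.prime_three hq).1 h).symm
        · exact h3m (Nat.prime_three.dvd_of_dvd_pow h)
    -- all primes of `m` are `2 mod 3`
    have hall : ∀ p ∈ m.primeFactors, p % 3 = 2 := by
      intro p hp
      have hpp := Nat.prime_of_mem_primeFactors hp
      by_contra hne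
      have : p % 3 = 0 ∨ p % 3 = 1 := by omega
      rcases this with h | h
      · have h3 : 3 ∣ p := Nat.dvd_of_mod_eq_zero h
        exact h3m (h3.trans (Nat.dvd_of_mem_primeFactors hp))
      · apply h3N
        rw [← hNe]
        apply Dvd.dvd.mul_left
        have h5 : p ^ 2 + p + 1 ∣ ∏ p ∈ m.primeFactors, (p ^ 2 + p + 1) :=
          Finset.dvd_prod_of_mem (fun p => p ^ 2 + p + 1) hp
        refine dvd_trans ?_ h5
        apply Nat.dvd_of_mod_eq_zero
        simp [Nat.add_mod, Nat.pow_mod, h]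
    -- `q` divides some `F w`
    have hq1 : q ∣ sigma 1 (q * C) * ∏ p ∈ m.primeFactors, (p ^ 2 + p + 1) := by
      rw [hNe]
      exact Dvd.dvd.mul_left ((dvd_mul_right q C).mul_right _) 2
    rw [hC1, mul_one, sigma_prime hq] at hq1
    have hqF : ∃ w ∈ m.primeFactors, q ∣ w ^ 2 + w + 1 := by
      rcases (hq.dvd_mul).1 hq1 with h | h
      · exfalso
        have h1 : q ∣ 1 := (Nat.dvd_add_right (dvd_refl q)).1 h
        exact hq.one_lt.ne' (Nat.dvd_one.1 h1)
      · exact (Prime.dvd_finsetProd_iff hq.prime _).1 h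
    obtain ⟨w, hw, hqw⟩ := hqF
    have hw3 := hall w hw
    obtain ⟨K, hK, hKodd, hKD, hKe⟩ := exists_K hodd hm hNe
    rw [hC1, mul_one, sigma_prime hq] at hK
    have hwK : w ^ 2 ≤ K := by
      refine Nat.le_of_dvd hKodd.pos ?_
      exact (pow_dvd_pow_of_dvd (Finset.dvd_prod_of_mem (fun p => p)
        (Finset.mem_filter.2 ⟨hw, hw3⟩)) 2).trans (w_dvd hKe)
    have hqle := Nat.le_of_dvd (by positivity) hqw
    have hwodd : Odd w := hmodd.of_dvd_nat (Nat.dvd_of_mem_primeFactors hw)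
    obtain ⟨j, hj⟩ := hwodd
    have hw5 : 3 ≤ w := by
      have := (Nat.prime_of_mem_primeFactors hw).two_le
      omega
    nlinarith
  obtain ⟨x, hx, hxA, hxB⟩ := closed (hAB ▸ hN) hc hA1 hB1
  -- sigma of `B`
  have hsB : sigma 1 B = sigma 1 qb * sigma 1 C * ∏ p ∈ O, (p ^ 2 + p + 1) := by
    rw [hB, isMultiplicative_sigma.map_mul_of_coprime, isMultiplicative_sigma.map_mul_of_coprime,
      sigma_prod_sq hOp]
    · exact Nat.Coprime.coprime_dvd_left hqbq hqC
    · apply Nat.Coprime.pow_right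
      apply Nat.Coprime.mul_left
      · exact Nat.Coprime.coprime_dvd_left hqbq (Nat.Coprime.coprime_dvd_right hOm hqm')
      · exact Nat.Coprime.coprime_dvd_right hOm hCm
  have hsC : sigma 1 C ≤ 2 * C := by
    have h1 : (C * (q * m ^ 2)).Perfect := by
      have : C * (q * m ^ 2) = q * C * m ^ 2 := by ring
      rw [this]; exact hN
    exact sigma_le_left h1 (Nat.Coprime.mul_right hqC.symm (Nat.Coprime.pow_right 2 hCm))
  have hsCpos : 0 < sigma 1 C := by
    have : 0 < C := hCpos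
    exact lt_of_lt_of_le this le_sigma
  have hxodd : x ≠ 2 := by
    rintro rfl
    have h1 : 2 ∣ q * C * m ^ 2 := by rw [hAB]; exact hxA.mul_right B
    obtain ⟨j, hj⟩ := hodd
    omega
  rw [hsB] at hxB
  -- cases for `x ∣ sigma B`
  have hcase : (qb = q ∧ ¬ Y < q ∧ x ∣ q + 1) ∨ x ≤ 2 * C ∨ ∃ p ∈ O, x ∣ p ^ 2 + p + 1 := by
    rcases (hx.dvd_mul).1 hxB with h | h
    · rcases (hx.dvd_mul).1 h with h | h
      · by_cases hYq : Y < q
        · exfalso
          rw [hqb, if_pos hYq] at h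
          simp at h
          exact hx.one_lt.ne' h
        · left
          have hqbq' : qb = q := by rw [hqb, if_neg hYq]
          rw [hqbq', sigma_prime hq] at h
          exact ⟨hqbq', hYq, h⟩
      · right; left
        exact (Nat.le_of_dvd hsCpos h).trans hsC
    · right; right
      exact (Prime.dvd_finsetProd_iff hx.prime _).1 h
  have hOle : ∀ p ∈ O, p ≤ Z := by
    intro p hp
    rw [hO, Finset.mem_filter] at hp
    obtain ⟨hpm, hpn⟩ := hp
    push Not at hpn
    have hp3 : p % 3 = 0 ∨ p % 3 = 1 ∨ p % 3 = 2 := by omega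
    rcases hp3 with h | h | h
    · have : p = 3 := ((Nat.prime_dvd_prime_iff_eq Nat.prime_three
        (Nat.prime_of_mem_primeFactors hpm)).1 (Nat.dvd_of_mod_eq_zero h)).symm
      omega
    · exact (hpn.1 h).trans hZY
    · exact hpn.2 h
  -- the bound for `x`
  have hxle : x + 1 ≤ (Z + 1) ^ 2 := by
    rcases hcase with ⟨-, hYq, h⟩ | h | ⟨p, hp, h⟩
    · have h1 := Nat.le_of_dvd (by omega) h
      nlinarith
    · nlinarith
    · have h1 := Nat.le_of_dvd (by positivity) h
      have h2 := hOle p hp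
      nlinarith
  -- cases for `x ∣ A`
  rw [hA] at hxA
  rcases (hx.dvd_mul).1 hxA with h | h
  · by_cases hYq : Y < q
    · rw [hqa, if_pos hYq] at h
      have : x = q := (Nat.prime_dvd_prime_iff_eq hx hq).1 h
      subst this
      exact ⟨x, Finset.mem_insert_self _ _, hYq, hxle⟩
    · exfalso
      rw [hqa, if_neg hYq] at h
      exact hx.one_lt.ne' (Nat.dvd_one.1 h)
  · have h1 := hx.dvd_of_dvd_pow h
    obtain ⟨p, hp, hxp⟩ := (Prime.dvd_finsetProd_iff hx.prime _).1 h1
    have hxp' : x = p := (Nat.prime_dvd_prime_iff_eq hx (hIp p hp)).1 hxp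
    subst hxp'
    rw [hI, Finset.mem_filter] at hp
    rcases hp.2 with h2 | h2
    · exact ⟨x, Finset.mem_insert_of_mem (Finset.mem_filter.2 ⟨hp.1, h2.1⟩), h2.2, hxle⟩
    · exfalso
      rcases hcase with ⟨-, hYq, h3⟩ | h3 | ⟨r, hr, h3⟩
      · -- `x ∣ q + 1` with `q ≤ Y < x`
        have h4 := Nat.le_of_dvd (by omega) h3
        have h5 : x = q + 1 := by omega
        obtain ⟨j, hj⟩ := hqodd
        have h6 : 2 ∣ x := ⟨j + 1, by omega⟩
        exact hxodd ((Nat.prime_dvd_prime_iff_eq Nat.prime_two hx).1 h6).symm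
      · omega
      · have h4 := mod_three hx h3 (by omega)
        omega

end Pool.Agent.OPNRS
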