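import Pool.Agent.Lib.MP_f02ea4_nt.RS_U

/-! # Odd perfect numbers `q * C * m ^ 2`: bound in terms of `C` -/

namespace Pool.Agent.OPNRS

open Finset ArithmeticFunction

/-- Squaring growth. -/
lemma squaring (z : ℕ) : ∀ (n : ℕ) (V : Finset ℕ), V.card = n →
    (∀ Y : ℕ, (∃ x ∈ V, Y < x) → ∃ x ∈ V, Y < x ∧ x + 1 ≤ (max Y z + 1) ^ 2) →
    (∀ x ∈ V, x + 1 ≤ (z + 1) ^ 2 ^ n) ∧ (∏ x ∈ V, (x + 1)) * (z + 1) ^ 2 ≤ (z + 1) ^ 2 ^ (n + 1) := by
  intro n
  induction n with
  | zero =>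
    intro V hV _
    rw [Finset.card_eq_zero] at hV
    subst hV
    simp
  | succ n ih =>
    intro V hV hgap
    have hne : V.Nonempty := by
      rw [← Finset.card_pos]; omega
    set t := V.max' hne with ht
    have htV : t ∈ V := V.max'_mem hne
    have hle : ∀ x ∈ V, x ≤ t := fun x hx => V.le_max' x hx
    have hcard : (V.erase t).card = n := by
      rw [Finset.card_erase_of_mem htV]; omega
    obtain ⟨h1, h2⟩ := ih (V.erase t) hcard (by
      rintro Y ⟨x, hx, hYx⟩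
      rw [Finset.mem_erase] at hx
      obtain ⟨y, hy, hYy, hyle⟩ := hgap Y ⟨x, hx.2, hYx⟩
      by_cases hyt : y = t
      · rw [hyt] at hyle
        have hxt : x ≤ t := hle x hx.2
        exact ⟨x, Finset.mem_erase.2 hx, hYx, by omega⟩
      · exact ⟨y, Finset.mem_erase.2 ⟨hyt, hy⟩, hYy, hyle⟩)
    -- the bound for `t`
    have htb : t + 1 ≤ (z + 1) ^ 2 ^ (n + 1) := by
      rcases Nat.eq_zero_or_pos t with h0 | h0
      · rw [h0]
        exact Nat.one_le_pow _ _ (by omega)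
      · -- `Y` = the maximum of the rest
        obtain ⟨Y, hYt, hYb, hYmax⟩ : ∃ Y, Y < t ∧ max Y z + 1 ≤ (z + 1) ^ 2 ^ n ∧
            ∀ x ∈ V.erase t, x ≤ Y := by
          by_cases hne2 : (V.erase t).Nonempty
          · refine ⟨(V.erase t).max' hne2, ?_, ?_, fun x hx => Finset.le_max' _ x hx⟩
            · have h3 := (V.erase t).max'_mem hne2
              rw [Finset.mem_erase] at h3
              exact lt_of_le_of_ne (hle _ h3.2) h3.1
            · have h3 := h1 _ ((V.erase t).max'_mem hne2)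
              have h4 : z + 1 ≤ (z + 1) ^ 2 ^ n := Nat.le_self_pow (by positivity) _
              rcases le_total ((V.erase t).max' hne2) z with h5 | h5
              · rw [max_eq_right h5]; exact h4
              · rw [max_eq_left h5]; exact h3
          · refine ⟨0, h0, ?_, ?_⟩
            · have h4 : z + 1 ≤ (z + 1) ^ 2 ^ n := Nat.le_self_pow (by positivity) _
              simpa using h4
            · intro x hx
              exact absurd ⟨x, hx⟩ hne2
        obtain ⟨y, hy, hYy, hyle⟩ := hgap Y ⟨t, htV, hYt⟩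
        have hyt : y = t := by
          by_contra hne3
          have := hYmax y (Finset.mem_erase.2 ⟨hne3, hy⟩)
          omega
        rw [hyt] at hyle
        calc t + 1 ≤ (max Y z + 1) ^ 2 := hyle
          _ ≤ ((z + 1) ^ 2 ^ n) ^ 2 := Nat.pow_le_pow_left hYb 2
          _ = (z + 1) ^ 2 ^ (n + 1) := by rw [← pow_mul, ← pow_succ]
    refine ⟨fun x hx => (Nat.succ_le_succ (hle x hx)).trans htb, ?_⟩
    rw [← Finset.mul_prod_erase V (fun x => x + 1) htV]
    calc (t + 1) * (∏ x ∈ V.erase t, (x + 1)) * (z + 1) ^ 2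
        = (t + 1) * ((∏ x ∈ V.erase t, (x + 1)) * (z + 1) ^ 2) := by ring
      _ ≤ (z + 1) ^ 2 ^ (n + 1) * (z + 1) ^ 2 ^ (n + 1) := Nat.mul_le_mul htb h2
      _ = (z + 1) ^ 2 ^ (n + 1 + 1) := by rw [← pow_add]; ring_nf

/-- `N < (2C+2)^(2^(k+3))`. -/
lemma q_bound {q C m : ℕ} (hq : q.Prime) (hqC : q.Coprime C) (hD : (q * C).Coprime m)
    (hm : Squarefree m) (hodd : Odd (q * C * m ^ 2)) (hN : (q * C * m ^ 2).Perfect) :
    q * C * m ^ 2 < (2 * C + 2) ^ 2 ^ ((m.primeFactors.filter (fun p => p % 3 = 1)).card + 3) := by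
  classical
  set A := m.primeFactors.filter (fun p => p % 3 = 1) with hA
  set k := A.card with hk
  have hNe : sigma 1 (q * C) * ∏ p ∈ m.primeFactors, (p ^ 2 + p + 1) = 2 * (q * C * m ^ 2) :=
    main_eq hN rfl hm hD
  have hCpos : 0 < C := ((Nat.odd_mul.1 (Nat.odd_mul.1 hodd).1).2).pos
  have hqA : q ∉ A := by
    intro h
    have h1 := Nat.dvd_of_mem_primeFactors (Finset.mem_filter.1 h).1
    exact hq.one_lt.ne' (Nat.dvd_one.1 (by
      have := Nat.dvd_gcd (dvd_mul_right q C) h1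
      rwa [Nat.Coprime.gcd_eq_one hD] at this))
  have hcard : (insert q A).card = k + 1 := Finset.card_insert_of_notMem hqA
  obtain ⟨-, h1⟩ := squaring (2 * C + 1) (k + 1) (insert q A) hcard
    (fun Y hY => gap hq hqC hD hm hodd hN Y hY)
  rw [Finset.prod_insert hqA] at h1
  obtain ⟨K, -, hKodd, hKD, hKe⟩ := exists_K hodd hm hNe
  have hw := w_bound hKodd hKD hKe
  have hb := filter_zero_sq (m := m)
  have hsplit := m_split hm
  rw [← hA] at hsplit
  set w := ∏ p ∈ m.primeFactors.filter (fun p => p % 3 = 2), p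
  set a := ∏ p ∈ A, p
  set b := ∏ p ∈ m.primeFactors.filter (fun p => p % 3 = 0), p
  have ha : a ≤ ∏ p ∈ A, (p + 1) := Finset.prod_le_prod' fun p _ => Nat.le_succ p
  set S := (q + 1) * ∏ p ∈ A, (p + 1) with hS
  have hqa : q * a ≤ S := Nat.mul_le_mul (Nat.le_succ q) ha
  have hN1 : q * C * m ^ 2 ≤ 9 * C ^ 2 * S ^ 2 := by
    calc q * C * m ^ 2 = q * C * (w ^ 2 * (a ^ 2 * b ^ 2)) := by rw [hsplit]; ring
      _ ≤ q * C * (q * C * (a ^ 2 * 9)) := by gcongr
      _ = 9 * C ^ 2 * (q * a) ^ 2 := by ring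
      _ ≤ 9 * C ^ 2 * S ^ 2 := by gcongr
  have e1 : 2 * C + 1 + 1 = 2 * C + 2 := by ring
  rw [e1] at h1
  set T := 2 * C + 2 with hT
  have h2 : (S * T ^ 2) ^ 2 ≤ T ^ 2 ^ (k + 3) := by
    calc (S * T ^ 2) ^ 2 ≤ (T ^ 2 ^ (k + 1 + 1)) ^ 2 := Nat.pow_le_pow_left h1 2
      _ = T ^ 2 ^ (k + 3) := by rw [← pow_mul, ← pow_succ]
  have h3 : 9 * C ^ 2 < T ^ 4 := by
    have h5 : T ^ 4 = (T ^ 2) ^ 2 := by ring
    have h6 : 4 * C ^ 2 ≤ T ^ 2 := by rw [hT]; nlinarith
    have h7 : 4 ≤ T := by omega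
    have h8 : 16 ≤ T ^ 2 := by nlinarith
    rw [h5]
    nlinarith
  have hSpos : 0 < S ^ 2 := by positivity
  calc q * C * m ^ 2 ≤ 9 * C ^ 2 * S ^ 2 := hN1
    _ < T ^ 4 * S ^ 2 := Nat.mul_lt_mul_of_pos_right h3 hSpos
    _ = (S * T ^ 2) ^ 2 := by ring
    _ ≤ T ^ 2 ^ (k + 3) := h2

/-- `2^k ≤ C ^ (log 2 / log 3)` or `k ≤ 2`. -/
lemma two_pow_le {C k : ℕ} (hC : 0 < C) (h : 3 ^ k ≤ C ∨ k ≤ 2) :
    (2 : ℝ) ^ k ≤ 4 * (C : ℝ) ^ (Real.logb 3 2) := by
  have hC1 : (1 : ℝ) ≤ C := by exact_mod_cast hC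
  have hlog : 0 ≤ Real.logb 3 2 := Real.logb_nonneg (by norm_num) (by norm_num)
  have h1 : (1 : ℝ) ≤ (C : ℝ) ^ (Real.logb 3 2) := Real.one_le_rpow hC1 hlog
  rcases h with h | h
  · have h2 : (2 : ℝ) ^ k = ((3 : ℝ) ^ k) ^ (Real.logb 3 2) := by
      rw [← Real.rpow_natCast 3 k, ← Real.rpow_mul (by norm_num), mul_comm (k : ℝ),
        Real.rpow_mul (by norm_num), Real.rpow_logb (by norm_num) (by norm_num) (by norm_num),
        Real.rpow_natCast]
    have h3 : ((3 : ℝ) ^ k) ^ (Real.logb 3 2) ≤ (C : ℝ) ^ (Real.logb 3 2) := by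
      apply Real.rpow_le_rpow (by positivity) _ hlog
      exact_mod_cast h
    rw [h2]
    linarith
  · have h2 : (2 : ℝ) ^ k ≤ 2 ^ 2 := pow_le_pow_right₀ (by norm_num) h
    linarith

/-- the logarithmic form -/
lemma log_q_bound {q C m : ℕ} (hq : q.Prime) (hqC : q.Coprime C) (hD : (q * C).Coprime m)
    (hm : Squarefree m) (hodd : Odd (q * C * m ^ 2)) (hN : (q * C * m ^ 2).Perfect) :
    Real.log ((q * C * m ^ 2 : ℕ)) ≤ 32 * (C : ℝ) ^ (Real.logb 3 2) * Real.log (2 * C + 2) := by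
  have hNe : sigma 1 (q * C) * ∏ p ∈ m.primeFactors, (p ^ 2 + p + 1) = 2 * (q * C * m ^ 2) :=
    main_eq hN rfl hm hD
  have hCpos : 0 < C := ((Nat.odd_mul.1 (Nat.odd_mul.1 hodd).1).2).pos
  have hb := q_bound hq hqC hD hm hodd hN
  have hcard := card_le hodd hNe
  set k := (m.primeFactors.filter (fun p => p % 3 = 1)).card with hk
  have hm0 := hm.ne_zero
  have hq3 := q_ne_three hqC hD hodd hN
  have h3 : 3 ^ k ≤ C ∨ k ≤ 2 := by
    by_cases h3m : 3 ∣ m
    · right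
      have h3D : ¬ 3 ∣ q * C := fun hd => Nat.not_coprime_of_dvd_of_dvd (by norm_num) hd h3m hD
      have h4 : (q * C).factorization 3 = 0 := Nat.factorization_eq_zero_of_not_dvd h3D
      have h5 : m.factorization 3 = 1 := by
        have h6 := (Nat.squarefree_iff_factorization_le_one hm0).1 hm 3
        have h7 := (Nat.Prime.dvd_iff_one_le_factorization Nat.prime_three hm0).1 h3m
        omega
      rw [Nat.factorization_mul (by have := hq.pos; positivity) (by positivity)] at hcard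
      simp [h4, h5] at hcard
      exact hcard
    · left
      have h5 : (q * C * m ^ 2).factorization 3 = C.factorization 3 := by
        rw [Nat.factorization_mul (by have := hq.pos; positivity) (by positivity),
          Nat.factorization_mul hq.ne_zero hCpos.ne']
        have h6 : q.factorization 3 = 0 := by
          apply Nat.factorization_eq_zero_of_not_dvd
          intro h
          exact hq3 ((Nat.prime_dvd_prime_iff_eq Nat.prime_three hq).1 h).symm
        simp [Nat.factorization_eq_zero_of_not_dvd h3m, h6]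
      rw [h5] at hcard
      exact (Nat.pow_le_pow_right (by norm_num) hcard).trans (Nat.ordProj_le 3 hCpos.ne')
  have h4 := two_pow_le hCpos h3
  have hNpos : (0 : ℝ) < ((q * C * m ^ 2 : ℕ) : ℝ) := by
    have : 0 < q * C * m ^ 2 := hN.2
    exact_mod_cast this
  have h5 : (((q * C * m ^ 2 : ℕ)) : ℝ) ≤ ((2 * C + 2 : ℕ) : ℝ) ^ (2 ^ (k + 3)) := by
    exact_mod_cast hb.le
  have h6 := Real.log_le_log hNpos h5
  rw [Real.log_pow] at h6
  push_cast at h6
  push_cast
  have hL : 0 ≤ Real.log (2 * (C : ℝ) + 2) := Real.log_nonneg (by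
    have : (0 : ℝ) ≤ C := Nat.cast_nonneg C
    linarith)
  calc Real.log (q * C * (m : ℝ) ^ 2) ≤ 2 ^ (k + 3) * Real.log (2 * (C : ℝ) + 2) := h6
    _ = 8 * 2 ^ k * Real.log (2 * (C : ℝ) + 2) := by ring
    _ ≤ 8 * (4 * (C : ℝ) ^ (Real.logb 3 2)) * Real.log (2 * (C : ℝ) + 2) := by gcongr
    _ = 32 * (C : ℝ) ^ (Real.logb 3 2) * Real.log (2 * (C : ℝ) + 2) := by ring

end Pool.Agent.OPNRS
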