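import Mathlib

/-!
Elementary number theory for the radical bound of odd perfect numbers.
Throughout `F s = s ^ 2 + s + 1`.
-/

set_option autoImplicit false

namespace Pool.Agent.Lib.MP_f02ea4_nt.Rad

/-- `F s = s ^ 2 + s + 1`, the sum of divisors of the square of a prime `s`. -/
def F (s : ℕ) : ℕ := s ^ 2 + s + 1

lemma F_pos (s : ℕ) : 0 < F s := by unfold F; positivity

lemma F_odd (s : ℕ) : F s % 2 = 1 := by
  unfold F
  rcases Nat.even_or_odd' s with ⟨k, rfl | rfl⟩
  · have : (2 * k) ^ 2 + 2 * k + 1 = 2 * (2 * k ^ 2 + k) + 1 := by ring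
    omega
  · have : (2 * k + 1) ^ 2 + (2 * k + 1) + 1 = 2 * (2 * k ^ 2 + 3 * k + 1) + 1 := by ring
    omega

/-- A prime dividing `s ^ 2 + s + 1` is `3` or `1` mod `3`. -/
lemma mod3 {r s : ℕ} (hr : r.Prime) (h : r ∣ F s) : r = 3 ∨ r % 3 = 1 := by
  haveI := Fact.mk hr
  have h0 : ((s : ZMod r)) ^ 2 + s + 1 = 0 := by
    have := (ZMod.natCast_eq_zero_iff (F s) r).2 h
    unfold F at this
    push_cast at this
    exact this
  by_cases h1 : (s : ZMod r) = 1
  · left
    rw [h1] at h0
    have h3 : ((3 : ℕ) : ZMod r) = 0 := by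
      push_cast
      linear_combination h0
    rw [ZMod.natCast_eq_zero_iff] at h3
    exact (Nat.prime_dvd_prime_iff_eq hr Nat.prime_three).1 h3
  · right
    have hcube : (s : ZMod r) ^ 3 = 1 := by linear_combination ((s : ZMod r) - 1) * h0
    have hord : orderOf (s : ZMod r) = 3 := orderOf_eq_prime hcube h1
    have hne : (s : ZMod r) ≠ 0 := by
      intro h2
      rw [h2] at hcube
      simp at hcube
    have hd := ZMod.orderOf_dvd_card_sub_one hne
    rw [hord] at hd
    have := hr.two_le
    omega

/-- Two roots of `x ^ 2 + x + 1` modulo `r` differ or sum to `-1`. -/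
lemma two_roots {r s t : ℕ} (hr : r.Prime) (hs : r ∣ F s) (ht : r ∣ F t) (hlt : t < s) :
    r ∣ s + t + 1 ∨ r ∣ s - t := by
  have h1 : r ∣ (s + t + 1) * (s - t) := by
    have h2 : (s + t + 1) * (s - t) = F s - F t := by
      unfold F
      obtain ⟨k, rfl⟩ := Nat.exists_eq_add_of_lt hlt
      have : t + k + 1 - t = k + 1 := by omega
      rw [this]
      symm
      apply Nat.sub_eq_of_eq_add
      ring
    rw [h2]
    exact Nat.dvd_sub hs ht
  exact (Nat.Prime.dvd_mul hr).1 h1

lemma two_roots_le {r s t : ℕ} (hr : r.Prime) (hs : r ∣ F s) (ht : r ∣ F t) (hlt : t < s) :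
    r ≤ 2 * s + 1 := by
  rcases two_roots hr hs ht hlt with h | h
  · have := Nat.le_of_dvd (by omega) h
    omega
  · have := Nat.le_of_dvd (by omega) h
    omega

/-- The version with residues modulo `3`. -/
lemma two_roots_mod3 {r s t : ℕ} (hr : r.Prime) (hs : r ∣ F s) (ht : r ∣ F t) (hlt : t < s)
    (hr3 : r % 3 = 1) (hs3 : s % 3 = 1) (ht3 : t % 3 = 1) :
    3 * r ≤ 2 * s + 1 := by
  rcases two_roots hr hs ht hlt with h | h
  · obtain ⟨k, hk⟩ := h
    have hk3 : k % 3 = 0 := by
      have h1 : (r * k) % 3 = k % 3 := by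
        rw [Nat.mul_mod, hr3]; simp
      rw [← hk] at h1
      omega
    have hk0 : k ≠ 0 := by
      rintro rfl
      omega
    have hk1 : 3 ≤ k := by omega
    have : r * 3 ≤ r * k := Nat.mul_le_mul_left r hk1
    omega
  · obtain ⟨k, hk⟩ := h
    have hk3 : k % 3 = 0 := by
      have h1 : (r * k) % 3 = k % 3 := by
        rw [Nat.mul_mod, hr3]; simp
      rw [← hk] at h1
      omega
    have hk0 : k ≠ 0 := by
      rintro rfl
      omega
    have hk1 : 3 ≤ k := by omega
    have : r * 3 ≤ r * k := Nat.mul_le_mul_left r hk1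
    omega

/-- `r ∣ F u` and `u ∣ F r` force `r ^ 2 + u ^ 2 + r + u + 1 = 5 * r * u` (Vieta descent). -/
lemma mills : ∀ n r u : ℕ, r + u ≤ n → 0 < r → 0 < u → r ∣ F u → u ∣ F r →
    r ^ 2 + u ^ 2 + r + u + 1 = 5 * r * u := by
  intro n
  induction n with
  | zero => intro r u h hr hu; omega
  | succ n ih =>
    intro r u hn hr hu h1 h2
    -- symmetric reduction to `u ≤ r`
    wlog hur : u ≤ r generalizing r u with H
    · have := H u r (by omega) hu hr h2 h1 (by omega)
      linarith
    rcases Nat.eq_or_lt_of_le hur with heq | hlt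
    · subst heq
      have h3 : u ∣ 1 := by
        have : F u = u * (u + 1) + 1 := by unfold F; ring
        rw [this] at h1
        exact (Nat.dvd_add_right (Dvd.intro _ rfl)).1 h1
      have : u = 1 := Nat.dvd_one.1 h3
      subst this
      norm_num
    · -- `u < r`; put `r' = F u / r`
      obtain ⟨r', hr'⟩ := h1
      have hr'pos : 0 < r' := by
        rcases Nat.eq_zero_or_pos r' with h | h
        · rw [h] at hr'; have := F_pos u; omega
        · exact h
      have hr'lt : r' ≤ u := by
        by_contra hcon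
        have h5 : u + 1 ≤ r' := by omega
        have h6 : u + 1 ≤ r := by omega
        have h7 : (u + 1) * (u + 1) ≤ r * r' := Nat.mul_le_mul h6 h5
        rw [← hr'] at h7
        unfold F at h7
        nlinarith
      -- `u ∣ F r'`
      have h8 : u ∣ F r' := by
        -- `r ^ 2 * F r' = (r r')^2 + r (r r') + r^2 ≡ 1 + r + r^2`
        have hco : Nat.Coprime u r := by
          have : Nat.Coprime u (F u) := by
            have h9 : F u = u * (u + 1) + 1 := by unfold F; ring
            rw [h9]
            simp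
          rw [hr'] at this
          exact Nat.Coprime.coprime_mul_right_right this
        have h10 : u ∣ r ^ 2 * F r' := by
          have h11 : r ^ 2 * F r' = (F u) ^ 2 + r * F u + r ^ 2 := by
            rw [hr']; unfold F; ring
          have h12 : (F u) ^ 2 + r * F u + r ^ 2
              = u * ((u + 1) * (F u + 1 + r)) + F r := by
            have : F u = u * (u + 1) + 1 := by unfold F; ring
            rw [this]; unfold F; ring
          rw [h11, h12]
          exact Dvd.dvd.add (Dvd.intro _ rfl) h2
        exact (Nat.Coprime.dvd_of_dvd_mul_left (Nat.Coprime.pow_right 2 hco) h10)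
      have h13 : r' ∣ F u := ⟨r, by rw [hr']; ring⟩
      have h14 := ih u r' (by omega) hu hr'pos h8 h13
      -- h14 : u^2 + r'^2 + u + r' + 1 = 5 u r'
      have h15 : r * r' = u ^ 2 + u + 1 := by rw [← hr']; rfl
      -- r'^2 + r' + r r' = 5 u r'  → r' + 1 + r = 5 u
      have h16 : r' * (r' + 1 + r) = r' * (5 * u) := by
        nlinarith
      have h17 : r' + 1 + r = 5 * u := Nat.eq_of_mul_eq_mul_left hr'pos h16
      nlinarith

end Pool.Agent.Lib.MP_f02ea4_nt.Rad
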