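import Mathlib
import Pool.Agent.Lib.MP_f02ea4_nt.RadNT

set_option autoImplicit false

namespace Pool.Agent.Lib.MP_f02ea4_nt.Rad

lemma F_le (s : ℕ) (hs : 2 ≤ s) : F s ≤ 2 * s ^ 2 := by
  unfold F; nlinarith

lemma v_odd {v q p : ℕ} (hv : v * q = F p) : v % 2 = 1 := by
  have h1 := F_odd p
  rw [← hv] at h1
  rcases Nat.even_or_odd v with h | h
  · exfalso
    have : Even (v * q) := h.mul_right q
    rw [Nat.even_iff] at this
    omega
  · exact Nat.odd_iff.1 h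

/-- A prime `r ∣ q + 1` with `p ∣ F r` and `q ∣ F p` is at least about `q ^ (1/3)`. -/
lemma lg {p q v r : ℕ} (hp2 : 2 ≤ p) (hv : v * q = F p) (hv3 : 3 ≤ v)
    (hr : 2 ≤ r) (h1 : r ∣ q + 1) (h2 : p ∣ F r) : q ≤ 16 * r ^ 3 := by
  obtain ⟨x, hx⟩ := h2
  have hxpos : 0 < x := by
    rcases Nat.eq_zero_or_pos x with h | h
    · rw [h] at hx; have := F_pos r; omega
    · exact h
  have hd : r ∣ 1 + x + (1 + v) * x ^ 2 := by
    have e1 : x ^ 2 * (v * (q + 1)) = (F r) ^ 2 + x * F r + (1 + v) * x ^ 2 := by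
      have : v * (q + 1) = F p + v := by rw [← hv]; ring
      rw [this, hx]; unfold F; ring
    have e2 : (F r) ^ 2 + x * F r + (1 + v) * x ^ 2
        = r * ((r + 1) * (F r + 1 + x)) + (1 + x + (1 + v) * x ^ 2) := by
      unfold F; ring
    have e3 : r ∣ x ^ 2 * (v * (q + 1)) := Dvd.dvd.mul_left (Dvd.dvd.mul_left h1 v) _
    rw [e1, e2] at e3
    exact (Nat.dvd_add_right (Dvd.intro _ rfl)).1 e3
  have hle := Nat.le_of_dvd (by positivity) hd
  have hle2 : r ≤ 2 * v * x ^ 2 := by nlinarith [Nat.one_le_iff_ne_zero.2 hxpos.ne']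
  have hF := F_le r hr
  -- p^2 r ≤ 2 v (p x)^2 = 2 v F^2 ≤ 8 v r^4
  have h3 : p ^ 2 * r ≤ 8 * v * r ^ 4 := by
    calc p ^ 2 * r ≤ p ^ 2 * (2 * v * x ^ 2) := Nat.mul_le_mul_left _ hle2
      _ = 2 * v * (p * x) ^ 2 := by ring
      _ = 2 * v * (F r) ^ 2 := by rw [hx]
      _ ≤ 2 * v * (2 * r ^ 2) ^ 2 := Nat.mul_le_mul_left _ (Nat.pow_le_pow_left hF 2)
      _ = 8 * v * r ^ 4 := by ring
  have h4 : p ^ 2 ≤ 8 * v * r ^ 3 := by
    have : p ^ 2 * r ≤ (8 * v * r ^ 3) * r := by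
      calc p ^ 2 * r ≤ 8 * v * r ^ 4 := h3
        _ = (8 * v * r ^ 3) * r := by ring
    exact Nat.le_of_mul_le_mul_right this (by omega)
  have h5 := F_le p hp2
  have h6 : v * q ≤ v * (16 * r ^ 3) := by
    rw [hv]; nlinarith
  exact Nat.le_of_mul_le_mul_left h6 (by omega)

/-- Polynomial inequality used in `lh_size`. -/
lemma lh_poly (a d : ℤ) (ha : 0 ≤ a) (hd : 0 ≤ d) :
    0 < (4 * (100 + a) ^ 4 - 32 * (100 + a) ^ 3 - 33 * (100 + a) ^ 2 - 2 * (100 + a) - 1)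
        * (3 * (100 + a) + d) ^ 2
      - (5 * (2 * (100 + a) ^ 2 - 1) * ((100 + a) + 1) * ((100 + a) ^ 2 + (100 + a) + 1)
        + 6 * ((100 + a) ^ 2 + (100 + a) + 1) ^ 2) * (3 * (100 + a) + d)
      - 6 * ((100 + a) ^ 2 + (100 + a) + 1) ^ 2 := by
  ring_nf
  positivity

/-- Size contradiction used in `lh`. -/
lemma lh_size (P R V X T : ℤ) (hxZ : P * X = R ^ 2 + R + 1)
    (hAZ : 2 * T * R ^ 2 = P ^ 2 + P + 1 + V)
    (hleZ : R ^ 2 ≤ (1 + V) * X ^ 2 + X + 1 + R * (X + 2))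
    (hvTZ : V ≤ T) (hTZ : 5 ≤ T) (hrZ : 100 ≤ R) (hpZ : 0 < P) (hv3Z : 3 ≤ V) : False := by
  have hP3 : 3 * R ≤ P := by
    by_contra h
    push Not at h
    have h1 : P ^ 2 + P + 1 ≤ 9 * R ^ 2 := by nlinarith
    have h2 : 0 ≤ 2 * R ^ 2 - 1 := by nlinarith
    have h3 := mul_le_mul_of_nonneg_right hTZ h2
    nlinarith
  have h9 : 0 < 2 * R ^ 2 - 1 := by nlinarith
  have h5 : 5 * (1 + V) * (2 * R ^ 2 - 1) ≤ 6 * (P ^ 2 + P + 1) := by
    have h6 : P ^ 2 + P + 1 = 2 * T * R ^ 2 - V := by linarith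
    have h7 : T * (2 * R ^ 2 - 1) ≤ P ^ 2 + P + 1 := by rw [h6]; nlinarith
    have h8 : 5 * (1 + V) ≤ 6 * T := by linarith
    nlinarith [mul_le_mul_of_nonneg_right h8 h9.le]
  have h10 : R ^ 2 * P ^ 2 ≤ (1 + V) * (R ^ 2 + R + 1) ^ 2 + P * (R ^ 2 + R + 1) + P ^ 2
      + R * P * (R ^ 2 + R + 1) + 2 * R * P ^ 2 := by
    have h11 : P ^ 2 * R ^ 2 ≤ P ^ 2 * ((1 + V) * X ^ 2 + X + 1 + R * (X + 2)) :=
      mul_le_mul_of_nonneg_left hleZ (sq_nonneg P)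
    have h12 : P ^ 2 * ((1 + V) * X ^ 2 + X + 1 + R * (X + 2))
        = (1 + V) * (P * X) ^ 2 + P * (P * X) + P ^ 2 + R * P * (P * X) + 2 * R * P ^ 2 := by ring
    rw [h12, hxZ] at h11
    linarith
  have h13 : 5 * (2 * R ^ 2 - 1) * (R ^ 2 * P ^ 2 - P * (R ^ 2 + R + 1) - P ^ 2
      - R * P * (R ^ 2 + R + 1) - 2 * R * P ^ 2)
      ≤ 6 * (P ^ 2 + P + 1) * (R ^ 2 + R + 1) ^ 2 := by
    have h14 : R ^ 2 * P ^ 2 - P * (R ^ 2 + R + 1) - P ^ 2 - R * P * (R ^ 2 + R + 1)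
        - 2 * R * P ^ 2 ≤ (1 + V) * (R ^ 2 + R + 1) ^ 2 := by linarith
    have h15 := mul_le_mul_of_nonneg_left h14 (by linarith : (0 : ℤ) ≤ 5 * (2 * R ^ 2 - 1))
    have h16 := mul_le_mul_of_nonneg_right h5 (sq_nonneg (R ^ 2 + R + 1))
    linarith
  obtain ⟨a, ha, rfl⟩ : ∃ a : ℤ, 0 ≤ a ∧ R = 100 + a := ⟨R - 100, by linarith, by ring⟩
  obtain ⟨d, hd, rfl⟩ : ∃ d : ℤ, 0 ≤ d ∧ P = 3 * (100 + a) + d :=
    ⟨P - 3 * (100 + a), by linarith, by ring⟩
  have key := lh_poly a d ha hd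
  linarith

/-- `r ^ 2 ∣ q + 1`, `p ∣ F r`, `q ∣ F p` is impossible for large `p`. -/
lemma lh {p q v r t : ℕ} (hv : v * q = F p) (hv3 : 3 ≤ v)
    (hq : q + 1 = 2 * (r ^ 2 * t)) (h2 : p ∣ F r) : p ≤ 20000 := by
  by_contra hcon
  push Not at hcon
  obtain ⟨x, hx⟩ := h2
  have hxpos : 0 < x := by
    rcases Nat.eq_zero_or_pos x with h | h
    · rw [h] at hx; have := F_pos r; omega
    · exact h
  have htpos : 0 < t := by
    rcases Nat.eq_zero_or_pos t with h | h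
    · rw [h] at hq; omega
    · exact h
  have hr100 : 100 ≤ r := by
    by_contra h
    push Not at h
    have h1 : p ≤ F r := by rw [hx]; exact Nat.le_mul_of_pos_right _ hxpos
    have h2 : F r ≤ 99 ^ 2 + 99 + 1 := by unfold F; nlinarith
    omega
  have hvo := v_odd hv
  have hA : 2 * (v * t) * r ^ 2 = p ^ 2 + p + 1 + v := by
    have : v * (q + 1) = F p + v := by rw [← hv]; ring
    rw [hq] at this
    unfold F at this
    nlinarith
  have hd : r ^ 2 ∣ (1 + v) * x ^ 2 + x + 1 + r * (x + 2) := by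
    have e1 : x ^ 2 * (v * (q + 1)) = (F r) ^ 2 + x * F r + (1 + v) * x ^ 2 := by
      have : v * (q + 1) = F p + v := by rw [← hv]; ring
      rw [this, hx]; unfold F; ring
    have e2 : (F r) ^ 2 + x * F r + (1 + v) * x ^ 2
        = r ^ 2 * (r ^ 2 + 2 * r + 3 + x) + ((1 + v) * x ^ 2 + x + 1 + r * (x + 2)) := by
      unfold F; ring
    have e3 : r ^ 2 ∣ x ^ 2 * (v * (q + 1)) := by
      rw [hq]; exact ⟨x ^ 2 * v * 2 * t, by ring⟩
    rw [e1, e2] at e3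
    exact (Nat.dvd_add_right (Dvd.intro _ rfl)).1 e3
  have hle := Nat.le_of_dvd (by positivity) hd
  by_cases hT : 5 ≤ v * t
  · -- size contradiction
    have hvT : v ≤ v * t := Nat.le_mul_of_pos_right _ htpos
    have hxZ : (p : ℤ) * x = (r : ℤ) ^ 2 + r + 1 := by
      have := hx
      unfold F at this
      exact_mod_cast this.symm
    have hAZ : 2 * ((v : ℤ) * t) * r ^ 2 = (p : ℤ) ^ 2 + p + 1 + v := by exact_mod_cast hA
    have hleZ : (r : ℤ) ^ 2 ≤ (1 + v) * x ^ 2 + x + 1 + r * (x + 2) := by exact_mod_cast hle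
    exact lh_size p r v x (v * t) hxZ hAZ hleZ (by exact_mod_cast hvT) (by exact_mod_cast hT)
      (by exact_mod_cast hr100) (by exact_mod_cast (by omega : 0 < p)) (by exact_mod_cast hv3)
  · -- `v = 3`, `t = 1`
    push Not at hT
    have hv' : v = 3 := by
      have : v ≤ v * t := Nat.le_mul_of_pos_right _ htpos
      omega
    subst hv'
    have ht' : t = 1 := by omega
    subst ht'
    have h6 : 6 * r ^ 2 = p ^ 2 + p + 4 := by nlinarith
    have h7 : p ∣ 76 := by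
      have e2 : 6 * F r = p * (p + 1) + (6 * r + 10) := by unfold F; nlinarith
      have e3 : p ∣ 6 * r + 10 := by
        have : p ∣ 6 * F r := by rw [hx]; exact ⟨6 * x, by ring⟩
        rw [e2] at this
        exact (Nat.dvd_add_right (Dvd.intro _ rfl)).1 this
      have e4 : 36 * F r = (6 * r + 10) * (6 * r - 4) + 76 := by
        obtain ⟨a, rfl⟩ : ∃ a, r = a + 1 := ⟨r - 1, by omega⟩
        have : 6 * (a + 1) - 4 = 6 * a + 2 := by omega
        rw [this]; unfold F; ring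
      have e5 : p ∣ 36 * F r := by rw [hx]; exact ⟨36 * x, by ring⟩
      rw [e4] at e5
      exact (Nat.dvd_add_right (Dvd.dvd.mul_right e3 _)).1 e5
    have := Nat.le_of_dvd (by norm_num) h7
    omega

end Pool.Agent.Lib.MP_f02ea4_nt.Rad
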