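import Mathlib
import Pool.Agent.Lib.MP_f02ea4_nt.RadNT2

set_option autoImplicit false

namespace Pool.Agent.Lib.MP_f02ea4_nt.Rad

/-- `r₁ r₂ ≡ 1` when `r₁ + r₂ + 1 ≡ 0` and `F r₂ ≡ 0`. -/
lemma prod_alpha {p r1 r2 : ℕ} (h : p ∣ r1 + r2 + 1) (h2 : p ∣ F r2) :
    (r1 * r2 : ℤ) ≡ 1 [ZMOD p] := by
  have e1 : ((r1 : ℤ) + r2 + 1) ≡ 0 [ZMOD p] := by
    have : (p : ℤ) ∣ (r1 : ℤ) + r2 + 1 := by exact_mod_cast h
    exact (Int.modEq_zero_iff_dvd).2 this
  have e2 : ((r2 : ℤ) ^ 2 + r2 + 1) ≡ 0 [ZMOD p] := by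
    have : (p : ℤ) ∣ (r2 : ℤ) ^ 2 + r2 + 1 := by
      unfold F at h2; exact_mod_cast h2
    exact (Int.modEq_zero_iff_dvd).2 this
  have e3 : (r1 * r2 : ℤ) = 1 + (r2 * ((r1 : ℤ) + r2 + 1) - ((r2 : ℤ) ^ 2 + r2 + 1)) := by ring
  rw [e3]
  calc (1 + (r2 * ((r1 : ℤ) + r2 + 1) - ((r2 : ℤ) ^ 2 + r2 + 1)) : ℤ)
      ≡ 1 + (r2 * 0 - 0) [ZMOD p] := by
        gcongr
    _ = 1 := by ring

lemma vq_mod {p q v : ℕ} (hv : v * q = F p) : ((v : ℤ) * (q + 1)) ≡ 1 + v [ZMOD p] := by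
  have : ((v : ℤ) * (q + 1)) = 1 + v + p * (p + 1) := by
    have h : ((v : ℤ) * q) = (p : ℤ) ^ 2 + p + 1 := by unfold F at hv; exact_mod_cast hv
    linear_combination h
  rw [this]
  calc (1 + v + p * (p + 1) : ℤ) ≡ 1 + v + 0 [ZMOD p] := by
        gcongr
        exact (Int.modEq_zero_iff_dvd).2 (Dvd.intro _ rfl)
    _ = 1 + v := by ring

/-- Two odd payers of `p` cannot both divide `q + 1`. -/
lemma gg {p q v r1 r2 : ℕ} (hp7 : 7 ≤ p) (hpo : p % 2 = 1) (hv : v * q = F p) (hv3 : 3 ≤ v)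
    (hr1 : r1.Prime) (hr2 : r2.Prime) (hlt : r2 < r1) (h23 : 3 ≤ r2) (hp : p.Prime)
    (hqe : q % 2 = 1)
    (h1 : r1 ∣ q + 1) (h2 : r2 ∣ q + 1) (hp1 : p ∣ F r1) (hp2 : p ∣ F r2) : False := by
  have hr1o : r1 % 2 = 1 := by
    rcases hr1.eq_two_or_odd with h | h
    · omega
    · exact h
  have hr2o : r2 % 2 = 1 := by
    rcases hr2.eq_two_or_odd with h | h
    · omega
    · exact h
  have hco : Nat.Coprime r1 r2 := (Nat.coprime_primes hr1 hr2).2 (by omega)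
  obtain ⟨w, hw⟩ := Nat.Coprime.mul_dvd_of_dvd_of_dvd hco h1 h2
  have hw2 : 2 ≤ w := by
    by_contra h
    push Not at h
    interval_cases w
    · omega
    · have : (r1 * r2 * 1) % 2 = 1 := by
        rw [mul_one, Nat.mul_mod, hr1o, hr2o]
      omega
  have hvw : v * (q + 1) = p ^ 2 + p + 1 + v := by
    have : v * (q + 1) = F p + v := by rw [← hv]; ring
    rw [this]; unfold F; ring
  have hmod := vq_mod hv
  have hmod2 : ((v : ℤ) * w) * (r1 * r2) ≡ 1 + v [ZMOD p] := by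
    have : ((v : ℤ) * w) * (r1 * r2) = (v : ℤ) * (q + 1) := by
      have : ((q : ℤ) + 1) = r1 * r2 * w := by exact_mod_cast hw
      rw [this]; ring
    rw [this]; exact hmod
  rcases two_roots hp hp1 hp2 hlt with hα | hβ
  · have hprod := prod_alpha hα hp2
    have h3 : ((v : ℤ) * w) ≡ 1 + v [ZMOD p] := by
      calc ((v : ℤ) * w) = ((v : ℤ) * w) * 1 := by ring
        _ ≡ ((v : ℤ) * w) * (r1 * r2) [ZMOD p] := Int.ModEq.mul_left _ hprod.symm
        _ ≡ 1 + v [ZMOD p] := hmod2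
    have h4 : (p : ℤ) ∣ (v : ℤ) * w - (1 + v) := (Int.modEq_iff_dvd).1 h3.symm
    have h5 : (p : ℤ) ≤ (v : ℤ) * w - (1 + v) := by
      apply Int.le_of_dvd _ h4
      have : (3 : ℤ) ≤ v := by exact_mod_cast hv3
      have : (2 : ℤ) ≤ w := by exact_mod_cast hw2
      nlinarith
    have h6 : p + 1 + v ≤ v * w := by
      have : (p : ℤ) + 1 + v ≤ v * w := by linarith
      exact_mod_cast this
    have h7 : r1 * r2 * (p + 1 + v) ≤ p ^ 2 + p + 1 + v := by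
      calc r1 * r2 * (p + 1 + v) ≤ r1 * r2 * (v * w) := Nat.mul_le_mul_left _ h6
        _ = v * (q + 1) := by rw [hw]; ring
        _ = _ := hvw
    have h8 : r1 * r2 < p := by
      by_contra h
      push Not at h
      have : p * (p + 1 + v) ≤ r1 * r2 * (p + 1 + v) := Nat.mul_le_mul_right _ h
      nlinarith
    have h9 : p ≤ r1 + r2 + 1 := Nat.le_of_dvd (by omega) hα
    nlinarith
  · -- β
    obtain ⟨k, hk⟩ := hβ
    have hk2 : 2 ≤ k := by
      by_contra h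
      push Not at h
      interval_cases k
      · omega
      · have : (r1 - r2) % 2 = 1 := by rw [hk, mul_one]; exact hpo
        omega
    have hr1b : r2 + 2 * p ≤ r1 := by
      have : p * 2 ≤ p * k := Nat.mul_le_mul_left _ hk2
      omega
    have hr1Z : (r1 : ℤ) = r2 + p * k := by
      have : r1 = r2 + p * k := by omega
      exact_mod_cast this
    have hF2 : (p : ℤ) ∣ (r2 : ℤ) ^ 2 + r2 + 1 := by unfold F at hp2; exact_mod_cast hp2
    have h3 : ((v : ℤ) * w) ≡ (1 + v) * r2 [ZMOD p] := by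
      -- multiply hmod2 by r2
      have e1 : ((v : ℤ) * w) * (r1 * r2) * r2 ≡ (1 + v) * r2 [ZMOD p] := by
        gcongr
      have e2 : ((v : ℤ) * w) * (r1 * r2) * r2 ≡ (v : ℤ) * w [ZMOD p] := by
        obtain ⟨m, hm⟩ := hF2
        have : ((v : ℤ) * w) - ((v : ℤ) * w) * (r1 * r2) * r2
            = p * (-((v : ℤ) * w) * (k * r2 ^ 2 + m * (r2 - 1))) := by
          rw [hr1Z]
          linear_combination (-((v : ℤ) * w) * (r2 - 1)) * hm
        exact (Int.modEq_iff_dvd).2 ⟨_, this⟩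
      exact e2.symm.trans e1
    have hFr2 : p ≤ 2 * r2 ^ 2 := by
      have h4 := Nat.le_of_dvd (F_pos r2) hp2
      have h5 := F_le r2 (by omega)
      omega
    by_cases hc : (1 + v) * r2 ≤ v * w
    · have h4 : 2 * p * r2 * ((1 + v) * r2) ≤ p ^ 2 + p + 1 + v := by
        calc 2 * p * r2 * ((1 + v) * r2) ≤ r1 * r2 * (v * w) := by
              apply Nat.mul_le_mul _ hc
              apply Nat.mul_le_mul_right
              omega
          _ = v * (q + 1) := by rw [hw]; ring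
          _ = _ := hvw
      have h5 : p * ((1 + v) * p) ≤ p ^ 2 + p + 1 + v := by
        calc p * ((1 + v) * p) ≤ p * ((1 + v) * (2 * r2 ^ 2)) :=
              Nat.mul_le_mul_left _ (Nat.mul_le_mul_left _ hFr2)
          _ = 2 * p * r2 * ((1 + v) * r2) := by ring
          _ ≤ _ := h4
      have h6 : v * 49 ≤ v * p ^ 2 := Nat.mul_le_mul_left _ (by nlinarith)
      have h7 : 3 * p ^ 2 ≤ v * p ^ 2 := Nat.mul_le_mul_right _ hv3
      have h8 : v * p ^ 2 ≤ p + 1 + v := by nlinarith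
      nlinarith
    · push Not at hc
      have h4 : (p : ℤ) ∣ (1 + v) * r2 - v * w := (Int.modEq_iff_dvd).1 h3
      have h5 : (p : ℤ) ≤ (1 + v) * r2 - v * w := by
        apply Int.le_of_dvd _ h4
        have : (v : ℤ) * w < (1 + v) * r2 := by exact_mod_cast hc
        linarith
      have h6 : p + v * w ≤ (1 + v) * r2 := by
        have : (p : ℤ) + v * w ≤ (1 + v) * r2 := by linarith
        exact_mod_cast this
      have h7 : 2 * p * r2 * (2 * v) ≤ p ^ 2 + p + 1 + v := by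
        calc 2 * p * r2 * (2 * v) ≤ r1 * r2 * (w * v) := by
              apply Nat.mul_le_mul
              · apply Nat.mul_le_mul_right
                omega
              · exact Nat.mul_le_mul_right _ hw2
          _ = v * (q + 1) := by rw [hw]; ring
          _ = _ := hvw
      have h8 : 3 * (1 + v) ≤ 4 * v := by omega
      have h9 : 3 * (1 + v) * r2 * p ≤ p ^ 2 + p + 1 + v := by
        calc 3 * (1 + v) * r2 * p ≤ 4 * v * r2 * p := by gcongr
          _ = 2 * p * r2 * (2 * v) := by ring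
          _ ≤ _ := h7
      have h10 : p + v * 2 ≤ (1 + v) * r2 := by
        have : v * 2 ≤ v * w := Nat.mul_le_mul_left _ hw2
        omega
      have h11 : 3 * (p + v * 2) * p ≤ 3 * (1 + v) * r2 * p := by
        calc 3 * (p + v * 2) * p ≤ 3 * ((1 + v) * r2) * p := by gcongr
          _ = _ := by ring
      nlinarith

/-- Large `q + 1`-payer `r₁` and smaller payer `r₂` of `p`: then `(1 + v)(1 + r₂)` is large. -/
lemma gks {p q v r1 r2 : ℕ} (hp : p.Prime) (hp100 : 100 ≤ p) (hp3 : p % 3 = 1)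
    (hv : v * q = F p) (hv3 : 3 ≤ v)
    (hr1 : r1.Prime) (hr2 : r2.Prime) (hlt : r2 < r1) (h23 : 3 ≤ r2)
    (hr13 : r1 % 3 = 1) (hr23 : r2 % 3 = 1)
    (h1 : r1 ∣ q + 1) (hp1 : p ∣ F r1) (hp2 : p ∣ F r2) : p ≤ 3 * ((1 + v) * (1 + r2)) := by
  by_contra hcon
  push Not at hcon
  have hpo : p % 2 = 1 := by
    rcases hp.eq_two_or_odd with h | h
    · omega
    · exact h
  have hr1o : r1 % 2 = 1 := by
    rcases hr1.eq_two_or_odd with h | h
    · omega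
    · exact h
  have hr2o : r2 % 2 = 1 := by
    rcases hr2.eq_two_or_odd with h | h
    · omega
    · exact h
  obtain ⟨w', hw'⟩ := h1
  have hvw : v * (q + 1) = p ^ 2 + p + 1 + v := by
    have : v * (q + 1) = F p + v := by rw [← hv]; ring
    rw [this]; unfold F; ring
  have hvp : 12 * v ≤ p := by nlinarith
  have hmod := vq_mod hv
  have hmod2 : ((v : ℤ) * w') * r1 ≡ 1 + v [ZMOD p] := by
    have : ((v : ℤ) * w') * r1 = (v : ℤ) * (q + 1) := by
      have : ((q : ℤ) + 1) = r1 * w' := by exact_mod_cast hw'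
      rw [this]; ring
    rw [this]; exact hmod
  have hF2 : (p : ℤ) ∣ (r2 : ℤ) ^ 2 + r2 + 1 := by unfold F at hp2; exact_mod_cast hp2
  rcases two_roots hp hp1 hp2 hlt with hα | hβ
  · have h3p := two_roots_mod3 hp hp1 hp2 hlt hp3 hr13 hr23
    have hprod := prod_alpha hα hp2
    have h3 : ((v : ℤ) * w') ≡ (1 + v) * r2 [ZMOD p] := by
      calc ((v : ℤ) * w') = ((v : ℤ) * w') * 1 := by ring
        _ ≡ ((v : ℤ) * w') * (r1 * r2) [ZMOD p] := Int.ModEq.mul_left _ hprod.symm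
        _ = (((v : ℤ) * w') * r1) * r2 := by ring
        _ ≡ (1 + v) * r2 [ZMOD p] := by gcongr
    have hwlt : v * w' < p := by
      by_contra h
      push Not at h
      have h5 : r1 * p ≤ p ^ 2 + p + 1 + v := by
        calc r1 * p ≤ r1 * (v * w') := Nat.mul_le_mul_left _ h
          _ = v * (q + 1) := by rw [hw']; ring
          _ = _ := hvw
      nlinarith
    have hrlt : (1 + v) * r2 < p := by nlinarith
    have heq : v * w' = (1 + v) * r2 := by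
      have h6 : (v * w') % p = ((1 + v) * r2) % p := by
        have : ((v * w' : ℕ) : ℤ) ≡ (((1 + v) * r2 : ℕ) : ℤ) [ZMOD (p : ℤ)] := by
          push_cast; exact h3
        exact (Int.natCast_modEq_iff).1 this
      rwa [Nat.mod_eq_of_lt hwlt, Nat.mod_eq_of_lt hrlt] at h6
    have hvr2 : v ∣ r2 := by
      have h7 : v ∣ (1 + v) * r2 := ⟨w', heq.symm⟩
      have h8 : Nat.Coprime v (1 + v) := by
        rw [add_comm]; simp
      exact h8.dvd_of_dvd_mul_left h7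
    have hveq : v = r2 := by
      rcases (Nat.dvd_prime hr2).1 hvr2 with h | h
      · omega
      · exact h
    have h9 : p ≤ F r2 := Nat.le_of_dvd (F_pos r2) hp2
    unfold F at h9
    rw [hveq] at hcon
    nlinarith
  · obtain ⟨k, hk⟩ := hβ
    have hk2 : 2 ≤ k := by
      by_contra h
      push Not at h
      interval_cases k
      · omega
      · have : (r1 - r2) % 2 = 1 := by rw [hk, mul_one]; exact hpo
        omega
    have hr1b : r2 + 2 * p ≤ r1 := by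
      have : p * 2 ≤ p * k := Nat.mul_le_mul_left _ hk2
      omega
    have hr1Z : (r1 : ℤ) = r2 + p * k := by
      have : r1 = r2 + p * k := by omega
      exact_mod_cast this
    -- `v w' + (1 + v) (1 + r2) ≡ 0`
    have h3 : (p : ℤ) ∣ (v : ℤ) * w' + (1 + v) * (1 + r2) := by
      obtain ⟨m, hm⟩ := hF2
      obtain ⟨n, hn⟩ := (Int.modEq_iff_dvd).1 hmod2
      -- (1 + v) - v w' r1 = p n
      -- v w' r2 ≡ 1 + v,  times r2^2 : v w' r2^3 ≡ (1+v) r2^2 ; r2^3 ≡ 1, r2^2 ≡ -(1+r2)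
      refine ⟨-(v * w') * (m * (r2 - 1)) + (1 + v) * m - n * r2 ^ 2 - v * w' * k * r2 ^ 2, ?_⟩
      rw [hr1Z] at hn
      linear_combination (-(v * w' : ℤ) * (r2 - 1) + (1 + v)) * hm - (r2 : ℤ) ^ 2 * hn
    have h4 : p ≤ v * w' + (1 + v) * (1 + r2) := by
      have : p ∣ v * w' + (1 + v) * (1 + r2) := by exact_mod_cast h3
      exact Nat.le_of_dvd (by positivity) this
    have h5 : 2 * p * (v * w') ≤ p ^ 2 + p + 1 + v := by
      calc 2 * p * (v * w') ≤ r1 * (v * w') := Nat.mul_le_mul_right _ (by omega)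
        _ = v * (q + 1) := by rw [hw']; ring
        _ = _ := hvw
    have h6 : 2 * p ≤ 3 * (v * w') := by omega
    nlinarith

/-- `r₂ ∣ F p` and `p ∣ F r₂`. -/
lemma vr2 {p r2 : ℕ} (hr2 : 2 ≤ r2) (hp2 : p ∣ F r2) (h : r2 ∣ F p) : p ^ 2 ≤ 12 * r2 ^ 3 := by
  obtain ⟨x, hx⟩ := hp2
  have hxpos : 0 < x := by
    rcases Nat.eq_zero_or_pos x with h | h
    · rw [h] at hx; have := F_pos r2; omega
    · exact h
  have hd : r2 ∣ x ^ 2 + x + 1 := by
    have e1 : x ^ 2 * F p = (F r2) ^ 2 + x * F r2 + x ^ 2 := by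
      rw [hx]; unfold F; ring
    have e2 : (F r2) ^ 2 + x * F r2 + x ^ 2
        = r2 * ((r2 + 1) * (F r2 + 1 + x)) + (x ^ 2 + x + 1) := by
      unfold F; ring
    have e3 : r2 ∣ x ^ 2 * F p := Dvd.dvd.mul_left h _
    rw [e1, e2] at e3
    exact (Nat.dvd_add_right (Dvd.intro _ rfl)).1 e3
  have hle := Nat.le_of_dvd (by positivity) hd
  have hle2 : r2 ≤ 3 * x ^ 2 := by nlinarith
  have hF := F_le r2 hr2
  have h3 : p ^ 2 * r2 ≤ 12 * r2 ^ 3 * r2 := by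
    calc p ^ 2 * r2 ≤ p ^ 2 * (3 * x ^ 2) := Nat.mul_le_mul_left _ hle2
      _ = 3 * (p * x) ^ 2 := by ring
      _ = 3 * (F r2) ^ 2 := by rw [hx]
      _ ≤ 3 * (2 * r2 ^ 2) ^ 2 := Nat.mul_le_mul_left _ (Nat.pow_le_pow_left hF 2)
      _ = 12 * r2 ^ 3 * r2 := by ring
  exact Nat.le_of_mul_le_mul_right h3 (by omega)

/-- `r ∣ q + 1` with `p ^ 2 ∣ F r`: the cofactor is large. -/
lemma n1g {p q v r x : ℕ} (hp100 : 100 ≤ p) (hv : v * q = F p)
    (h1 : r ∣ q + 1) (hx : F r = x * p ^ 2) (hx0 : 0 < x) : p ≤ 4 * (x * (1 + v)) := by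
  by_contra hcon
  push Not at hcon
  have hvw : v * (q + 1) = p ^ 2 + p + 1 + v := by
    have : v * (q + 1) = F p + v := by rw [← hv]; ring
    rw [this]; unfold F; ring
  have hd : r ∣ 1 + x * (p + 1 + v) := by
    have e1 : r ∣ x * (v * (q + 1)) := Dvd.dvd.mul_left (Dvd.dvd.mul_left h1 v) _
    have e2 : x * (v * (q + 1)) = r * (r + 1) + (1 + x * (p + 1 + v)) := by
      rw [hvw]
      have : x * (p ^ 2 + p + 1 + v) = x * p ^ 2 + x * (p + 1 + v) := by ring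
      rw [this, ← hx]; unfold F; ring
    rw [e2] at e1
    exact (Nat.dvd_add_right (Dvd.intro _ rfl)).1 e1
  obtain ⟨w, hw⟩ := hd
  unfold F at hx
  -- w^2 ≥ x + 1
  have hw1 : x < w ^ 2 := by
    by_contra h
    push Not at h
    have h2 : (1 + x * (p + 1 + v)) ^ 2 ≤ x * r ^ 2 := by
      rw [hw]
      calc (r * w) ^ 2 = r ^ 2 * w ^ 2 := by ring
        _ ≤ r ^ 2 * x := Nat.mul_le_mul_left _ h
        _ = x * r ^ 2 := by ring
    have h3 : x * r ^ 2 ≤ (x * p) ^ 2 := by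
      have : r ^ 2 ≤ x * p ^ 2 := by rw [← hx]; nlinarith
      calc x * r ^ 2 ≤ x * (x * p ^ 2) := Nat.mul_le_mul_left _ this
        _ = (x * p) ^ 2 := by ring
    have h4 : x * p < 1 + x * (p + 1 + v) := by nlinarith
    have h5 : (x * p) ^ 2 < (1 + x * (p + 1 + v)) ^ 2 := Nat.pow_lt_pow_left h4 (by norm_num)
    omega
  have h6 : (x + 1) * r ^ 2 ≤ (1 + x * (p + 1 + v)) ^ 2 := by
    rw [hw]
    calc (x + 1) * r ^ 2 ≤ w ^ 2 * r ^ 2 := Nat.mul_le_mul_right _ hw1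
      _ = (r * w) ^ 2 := by ring
  -- real inequalities
  have h7 : 4 * (1 + x * (p + 1 + v)) ≤ 4 * (x * p) + p + 4 := by nlinarith
  have h8 : 16 * ((x + 1) * r ^ 2) ≤ (4 * (x * p) + p + 4) ^ 2 := by
    calc 16 * ((x + 1) * r ^ 2) ≤ 16 * (1 + x * (p + 1 + v)) ^ 2 := Nat.mul_le_mul_left _ h6
      _ = (4 * (1 + x * (p + 1 + v))) ^ 2 := by ring
      _ ≤ _ := Nat.pow_le_pow_left h7 2
  -- bound on r
  have hxp : 4 * x ≤ p := by nlinarith
  have hr : 2 * r ≤ p ^ 2 / 8 * 2 := by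
    by_contra h
    push Not at h
    have h9 : p ^ 2 / 8 + 1 ≤ r := by omega
    have h10 : p ^ 2 < 8 * r := by omega
    have h11 : r ^ 2 ≤ x * p ^ 2 := by rw [← hx]; nlinarith
    have h12 : p ^ 2 * p ^ 2 < 64 * r ^ 2 := by nlinarith
    have h13 : p ^ 2 * p ^ 2 < 64 * (x * p ^ 2) := by omega
    have h14 : p ^ 2 < 64 * x := by
      have : p ^ 2 * p ^ 2 < (64 * x) * p ^ 2 := by nlinarith
      exact lt_of_mul_lt_mul_right this (Nat.zero_le _)
    nlinarith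
  have hr8 : 8 * r ≤ p ^ 2 := by omega
  have e : (x + 1) * r ^ 2 + (x + 1) * (r + 1) = (x + 1) * (x * p ^ 2) := by rw [← hx]; ring
  -- 16 (x+1) x p^2 ≤ (4xp+p+4)^2 + 16 (x+1)(r+1)
  have h15 : 16 * ((x + 1) * (x * p ^ 2)) ≤ (4 * (x * p) + p + 4) ^ 2
      + 16 * ((x + 1) * (r + 1)) := by omega
  -- expand : 16x^2p^2 + 16 x p^2 ≤ 16x^2p^2 + p^2 + 16 + 8xp^2 + 32 xp + 8p + 16(x+1)(r+1)
  have h16 : 8 * (x * p ^ 2) ≤ p ^ 2 + 16 + 32 * (x * p) + 8 * p + 16 * ((x + 1) * (r + 1)) := by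
    nlinarith
  have h17 : 16 * ((x + 1) * (r + 1)) ≤ 32 * (x * (r + 1)) := by nlinarith
  have h18 : 32 * (x * (r + 1)) ≤ 4 * (x * p ^ 2) + 32 * x := by nlinarith
  have h19 : 4 * (x * p ^ 2) ≤ p ^ 2 + 16 + 32 * (x * p) + 8 * p + 32 * x := by omega
  have h20 : p ^ 2 ≤ x * p ^ 2 := Nat.le_mul_of_pos_left _ hx0
  have h21 : 100 * (x * p) ≤ x * p ^ 2 := by nlinarith
  have h22 : 100 * x ≤ x * p := by nlinarith
  have h23 : 100 * p ≤ p ^ 2 := by nlinarith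
  nlinarith

/-- Exponent four payer `r ^ 4` of `p` with `r ^ 2 ∣ q + 1`. -/
lemma four_sq {p q v r : ℕ} (hp2 : 2 ≤ p) (hv : v * q = F p) (hv3 : 3 ≤ v) (hr : 2 ≤ r)
    (h1 : r ^ 2 ∣ q + 1) (h2 : p ∣ r ^ 4 + r ^ 3 + r ^ 2 + r + 1) : q ≤ 171 * r ^ 6 := by
  obtain ⟨x, hx⟩ := h2
  have hxpos : 0 < x := by
    rcases Nat.eq_zero_or_pos x with h | h
    · rw [h] at hx; simp at hx
    · exact h
  have hd : r ^ 2 ∣ (2 * r + 1) + x * (r + 1) + (1 + v) * x ^ 2 := by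
    have e1 : x ^ 2 * (v * (q + 1)) = (p * x) ^ 2 + x * (p * x) + (1 + v) * x ^ 2 := by
      have : v * (q + 1) = F p + v := by rw [← hv]; ring
      rw [this]; unfold F; ring
    have e2 : (p * x) ^ 2 + x * (p * x) + (1 + v) * x ^ 2
        = r ^ 2 * ((r ^ 2 + r + 1) * (p * x + (r + 1)) + 1 + x * (r ^ 2 + r + 1))
          + ((2 * r + 1) + x * (r + 1) + (1 + v) * x ^ 2) := by
      rw [← hx]; ring
    have e3 : r ^ 2 ∣ x ^ 2 * (v * (q + 1)) := Dvd.dvd.mul_left (Dvd.dvd.mul_left h1 v) _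
    rw [e1, e2] at e3
    exact (Nat.dvd_add_right (Dvd.intro _ rfl)).1 e3
  have hle := Nat.le_of_dvd (by positivity) hd
  have hG : r ^ 4 + r ^ 3 + r ^ 2 + r + 1 ≤ 2 * r ^ 4 := by
    obtain ⟨a, rfl⟩ : ∃ a, r = a + 2 := ⟨r - 2, by omega⟩
    ring_nf
    nlinarith [Nat.zero_le (a ^ 3), Nat.zero_le (a ^ 4), Nat.zero_le (a ^ 2), Nat.zero_le a]
  have hle2 : r ^ 2 ≤ 16 * (1 + v) * x ^ 2 := by
    by_contra h
    push Not at h
    have h3 : 8 * x ≤ r := by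
      by_contra h4
      push Not at h4
      nlinarith
    nlinarith
  have h3 : p ^ 2 * r ^ 2 ≤ 64 * (1 + v) * r ^ 6 * r ^ 2 := by
    calc p ^ 2 * r ^ 2 ≤ p ^ 2 * (16 * (1 + v) * x ^ 2) := Nat.mul_le_mul_left _ hle2
      _ = 16 * (1 + v) * (p * x) ^ 2 := by ring
      _ = 16 * (1 + v) * (r ^ 4 + r ^ 3 + r ^ 2 + r + 1) ^ 2 := by rw [hx]
      _ ≤ 16 * (1 + v) * (2 * r ^ 4) ^ 2 := Nat.mul_le_mul_left _ (Nat.pow_le_pow_left hG 2)
      _ = 64 * (1 + v) * r ^ 6 * r ^ 2 := by ring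
  have h4 : p ^ 2 ≤ 64 * (1 + v) * r ^ 6 := Nat.le_of_mul_le_mul_right h3 (by positivity)
  have h5 := F_le p hp2
  have h6 : v * q ≤ v * (171 * r ^ 6) := by
    rw [hv]
    have h7 : 3 * (1 + v) ≤ 4 * v := by omega
    have h8 : 3 * (2 * p ^ 2) ≤ 128 * (4 * v) * r ^ 6 := by
      calc 3 * (2 * p ^ 2) ≤ 3 * (2 * (64 * (1 + v) * r ^ 6)) := by gcongr
        _ = 128 * (3 * (1 + v)) * r ^ 6 := by ring
        _ ≤ 128 * (4 * v) * r ^ 6 := by gcongr
    nlinarith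
  exact Nat.le_of_mul_le_mul_left h6 (by omega)

/-- Exponent four payer `r ^ 4` of `p` with `r ∣ q + 1`. -/
lemma four_one {p q v r : ℕ} (hp2 : 2 ≤ p) (hv : v * q = F p) (hv3 : 3 ≤ v) (hr : 2 ≤ r)
    (h1 : r ∣ q + 1) (h2 : p ∣ r ^ 4 + r ^ 3 + r ^ 2 + r + 1) : q ≤ 16 * r ^ 7 := by
  obtain ⟨x, hx⟩ := h2
  have hxpos : 0 < x := by
    rcases Nat.eq_zero_or_pos x with h | h
    · rw [h] at hx; simp at hx
    · exact h
  have hd : r ∣ 1 + x + (1 + v) * x ^ 2 := by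
    have e1 : x ^ 2 * (v * (q + 1)) = (p * x) ^ 2 + x * (p * x) + (1 + v) * x ^ 2 := by
      have : v * (q + 1) = F p + v := by rw [← hv]; ring
      rw [this]; unfold F; ring
    have e2 : (p * x) ^ 2 + x * (p * x) + (1 + v) * x ^ 2
        = r * ((r ^ 3 + r ^ 2 + r + 1) * (p * x + 1) + x * (r ^ 3 + r ^ 2 + r + 1))
          + (1 + x + (1 + v) * x ^ 2) := by
      rw [← hx]; ring
    have e3 : r ∣ x ^ 2 * (v * (q + 1)) := Dvd.dvd.mul_left (Dvd.dvd.mul_left h1 v) _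
    rw [e1, e2] at e3
    exact (Nat.dvd_add_right (Dvd.intro _ rfl)).1 e3
  have hle := Nat.le_of_dvd (by positivity) hd
  have hG : r ^ 4 + r ^ 3 + r ^ 2 + r + 1 ≤ 2 * r ^ 4 := by
    obtain ⟨a, rfl⟩ : ∃ a, r = a + 2 := ⟨r - 2, by omega⟩
    ring_nf
    nlinarith [Nat.zero_le (a ^ 3), Nat.zero_le (a ^ 4), Nat.zero_le (a ^ 2), Nat.zero_le a]
  have hle2 : r ≤ 2 * v * x ^ 2 := by nlinarith [Nat.one_le_iff_ne_zero.2 hxpos.ne']
  have h3 : p ^ 2 * r ≤ 8 * v * r ^ 7 * r := by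
    calc p ^ 2 * r ≤ p ^ 2 * (2 * v * x ^ 2) := Nat.mul_le_mul_left _ hle2
      _ = 2 * v * (p * x) ^ 2 := by ring
      _ = 2 * v * (r ^ 4 + r ^ 3 + r ^ 2 + r + 1) ^ 2 := by rw [hx]
      _ ≤ 2 * v * (2 * r ^ 4) ^ 2 := Nat.mul_le_mul_left _ (Nat.pow_le_pow_left hG 2)
      _ = 8 * v * r ^ 7 * r := by ring
  have h4 : p ^ 2 ≤ 8 * v * r ^ 7 := Nat.le_of_mul_le_mul_right h3 (by omega)
  have h5 := F_le p hp2
  have h6 : v * q ≤ v * (16 * r ^ 7) := by
    rw [hv]; nlinarith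
  exact Nat.le_of_mul_le_mul_left h6 (by omega)

end Pool.Agent.Lib.MP_f02ea4_nt.Rad
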