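import Mathlib
import Pool.Agent.Lib.MP_f02ea4_nt.RadNT3

set_option autoImplicit false

namespace Pool.Agent.Lib.MP_f02ea4_nt.Rad

open Finset

/-- The configuration attached to an odd perfect number `N = q * p ^ 2 * M ^ 2` with `q ∣ F p`. -/
structure Cfg where
  q : ℕ
  p : ℕ
  v : ℕ
  c : ℕ
  W : ℕ
  sH : ℕ
  E : ℕ
  Q : ℕ
  S : Finset ℕ
  hq : q.Prime
  hp : p.Prime
  hQ : q + 1 = 2 * Q
  hq4 : q % 4 = 1
  hv : v * q = F p
  hv3 : 3 ≤ v
  hp3 : p % 3 = 1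
  hSp : ∀ s ∈ S, s.Prime
  hS3 : ∀ s ∈ S, 3 ≤ s
  hpS : p ∉ S
  eq1 : v * (∏ s ∈ S, F s) * sH = p ^ 2 * c
  eq2 : (∏ s ∈ S, s) ^ 2 * W = Q * c
  hW : ∀ s ∈ S, ¬ s ∣ W
  hc : 0 < c
  hE : 0 < E
  hW0 : 0 < W
  hsH0 : 0 < sH
  hWE : W ≤ E ^ 4
  hsH : sH ≤ 2 * W
  hab : ∀ T ⊆ S, ∏ s ∈ T, F s ≤ 2 * ∏ s ∈ T, s ^ 2
  hpH : p ∣ sH → ∃ r b, r.Prime ∧ 2 ≤ b ∧ Q.factorization r + c.factorization r = 2 * b ∧
    r ∉ S ∧ p ∣ ∑ i ∈ range (2 * b + 1), r ^ i ∧ r ^ (b - 1) ≤ E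

namespace Cfg

variable (C : Cfg)

lemma Qpos : 0 < C.Q := by
  have := C.hQ; have := C.hq.two_le; omega

lemma Qodd : C.Q % 2 = 1 := by
  have := C.hQ; have := C.hq4; omega

lemma p7 : 7 ≤ C.p := by
  have h1 := C.hp3
  have h2 := C.hp.two_le
  have h3 : C.p ≠ 4 := by
    intro h
    have := C.hp
    rw [h] at this
    exact absurd this (by norm_num)
  omega

lemma vpos : 0 < C.v := by have := C.hv3; omega

lemma pnv : ¬ C.p ∣ C.v := by
  intro h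
  have h1 : C.p ∣ F C.p := by rw [← C.hv]; exact Dvd.dvd.mul_right h _
  have h2 : F C.p = C.p * (C.p + 1) + 1 := by unfold F; ring
  rw [h2] at h1
  have := (Nat.dvd_add_right (Dvd.intro _ rfl)).1 h1
  exact C.hp.one_lt.ne' (Nat.dvd_one.1 this)

lemma self_not_dvd_F {s : ℕ} (hs : 2 ≤ s) : ¬ s ∣ F s := by
  intro h1
  have h2 : F s = s * (s + 1) + 1 := by unfold F; ring
  rw [h2] at h1
  have := (Nat.dvd_add_right (Dvd.intro _ rfl)).1 h1
  have := Nat.dvd_one.1 this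
  omega

lemma typ {s : ℕ} (hs : s ∈ C.S) : (C.Q.factorization s = 0 ∧ C.c.factorization s = 2) ∨
    (C.Q.factorization s = 1 ∧ C.c.factorization s = 1) ∨
    (C.Q.factorization s = 2 ∧ C.c.factorization s = 0) := by
  have hsp := C.hSp s hs
  have h1 : (C.Q * C.c).factorization s = 2 := by
    rw [← C.eq2]
    have hprod0 : (∏ s ∈ C.S, s) ≠ 0 := Finset.prod_ne_zero_iff.2 (fun t ht => (C.hSp t ht).ne_zero)
    rw [Nat.factorization_mul (pow_ne_zero _ hprod0) C.hW0.ne', Nat.factorization_pow]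
    have h2 : (∏ s ∈ C.S, s).factorization s = 1 := by
      rw [Nat.factorization_prod (fun t ht => (C.hSp t ht).ne_zero)]
      rw [Finsupp.finsetSum_apply]
      rw [Finset.sum_eq_single s]
      · exact hsp.factorization_self
      · intro t ht hts
        rw [Nat.factorization_eq_zero_of_not_dvd]
        intro hd
        exact hts ((Nat.prime_dvd_prime_iff_eq hsp (C.hSp t ht)).1 hd).symm
      · intro h; exact absurd hs h
    have h3 : C.W.factorization s = 0 := Nat.factorization_eq_zero_of_not_dvd (C.hW s hs)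
    simp [h2, h3]
  rw [Nat.factorization_mul C.Qpos.ne' C.hc.ne'] at h1
  simp only [Finsupp.coe_add, Pi.add_apply] at h1
  omega

lemma dvd_prod {r : ℕ} (hr : r.Prime) {T : Finset ℕ} (h : r ∣ ∏ s ∈ T, F s) :
    ∃ t ∈ T, r ∣ F t := (Prime.dvd_finsetProd_iff hr.prime _).1 h

lemma sq_dvd_prod {r : ℕ} (hr : r.Prime) {T : Finset ℕ} (h : r ^ 2 ∣ ∏ s ∈ T, F s) :
    (∃ t ∈ T, r ^ 2 ∣ F t) ∨ (∃ t ∈ T, ∃ u ∈ T, u < t ∧ r ∣ F t ∧ r ∣ F u) := by
  obtain ⟨t, ht, h1⟩ := dvd_prod hr (dvd_trans (dvd_pow_self r two_ne_zero) h)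
  by_cases h2 : r ^ 2 ∣ F t
  · exact Or.inl ⟨t, ht, h2⟩
  · right
    rw [← Finset.mul_prod_erase T F ht] at h
    obtain ⟨a, ha⟩ := h1
    have hra : ¬ r ∣ a := by
      rintro ⟨b, rfl⟩
      exact h2 ⟨b, by rw [ha]; ring⟩
    rw [ha, pow_two, mul_assoc] at h
    have h3 : r ∣ a * ∏ x ∈ T.erase t, F x := Nat.dvd_of_mul_dvd_mul_left hr.pos h
    have h4 := ((Nat.Prime.dvd_mul hr).1 h3).resolve_left hra
    obtain ⟨u, hu, h5⟩ := dvd_prod hr h4
    have hut : u ≠ t := (Finset.mem_erase.1 hu).1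
    have huT := (Finset.mem_erase.1 hu).2
    have h1 : r ∣ F t := ⟨a, ha⟩
    rcases lt_or_gt_of_ne hut with h6 | h6
    · exact ⟨t, ht, u, huT, h6, h1, h5⟩
    · exact ⟨u, huT, t, ht, h6, h5, h1⟩

/-- payment of a prime dividing `c` -/
lemma pay {r : ℕ} (hr : r.Prime) (h : r ∣ C.c) :
    r ∣ C.v ∨ r ∣ C.sH ∨ ∃ t ∈ C.S, r ∣ F t := by
  have h1 : r ∣ C.v * (∏ s ∈ C.S, F s) * C.sH := by rw [C.eq1]; exact Dvd.dvd.mul_left h _
  rcases (Nat.Prime.dvd_mul hr).1 h1 with h2 | h2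
  · rcases (Nat.Prime.dvd_mul hr).1 h2 with h3 | h3
    · exact Or.inl h3
    · exact Or.inr (Or.inr (dvd_prod hr h3))
  · exact Or.inr (Or.inl h2)

lemma payG {s : ℕ} (hs : s ∈ C.S) (h : C.c.factorization s = 1) :
    s ∣ C.v ∨ s ∣ C.sH ∨ ∃ t ∈ C.S, s ∣ F t :=
  C.pay (C.hSp s hs) (Nat.dvd_of_factorization_pos (by omega))

lemma payK {s : ℕ} (hs : s ∈ C.S) (h : C.c.factorization s = 2) :
    s ∣ C.v ∨ s ∣ C.sH ∨ (∃ t ∈ C.S, s ^ 2 ∣ F t) ∨
      (∃ t ∈ C.S, ∃ u ∈ C.S, u < t ∧ s ∣ F t ∧ s ∣ F u) := by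
  have hsp := C.hSp s hs
  by_cases h1 : s ∣ C.v
  · exact Or.inl h1
  by_cases h2 : s ∣ C.sH
  · exact Or.inr (Or.inl h2)
  right; right
  have h3 : s ^ 2 ∣ C.c := (hsp.pow_dvd_iff_le_factorization C.hc.ne').2 (by omega)
  have h4 : s ^ 2 ∣ C.v * (∏ s ∈ C.S, F s) * C.sH := by rw [C.eq1]; exact Dvd.dvd.mul_left h3 _
  have h5 : Nat.Coprime (s ^ 2) C.sH := Nat.Coprime.pow_left 2 ((Nat.Prime.coprime_iff_not_dvd hsp).2 h2)
  have h6 : Nat.Coprime (s ^ 2) C.v := Nat.Coprime.pow_left 2 ((Nat.Prime.coprime_iff_not_dvd hsp).2 h1)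
  have h7 : s ^ 2 ∣ C.v * (∏ s ∈ C.S, F s) := h5.dvd_of_dvd_mul_right h4
  have h8 : s ^ 2 ∣ ∏ s ∈ C.S, F s := h6.dvd_of_dvd_mul_left h7
  exact sq_dvd_prod hsp h8

/-- primes `2 mod 3` in `S` are only paid by `sH` -/
lemma payG_two {s : ℕ} (hs : s ∈ C.S) (h : C.c.factorization s = 1) (h2 : s % 3 = 2) :
    s ∣ C.sH := by
  have hsp := C.hSp s hs
  rcases C.payG hs h with h1 | h1 | ⟨t, _, h1⟩
  · have h3 : s ∣ F C.p := by rw [← C.hv]; exact Dvd.dvd.mul_right h1 _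
    rcases mod3 hsp h3 with h4 | h4 <;> omega
  · exact h1
  · rcases mod3 hsp h1 with h4 | h4 <;> omega

lemma payK_two {s : ℕ} (hs : s ∈ C.S) (h : C.c.factorization s = 2) (h2 : s % 3 = 2) :
    s ^ 2 ∣ C.sH := by
  have hsp := C.hSp s hs
  have h3 : s ^ 2 ∣ C.c := (hsp.pow_dvd_iff_le_factorization C.hc.ne').2 (by omega)
  have h4 : s ^ 2 ∣ C.v * (∏ s ∈ C.S, F s) * C.sH := by rw [C.eq1]; exact Dvd.dvd.mul_left h3 _
  have h5 : ¬ s ∣ C.v * (∏ s ∈ C.S, F s) := by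
    intro h6
    rcases (Nat.Prime.dvd_mul hsp).1 h6 with h7 | h7
    · have h8 : s ∣ F C.p := by rw [← C.hv]; exact Dvd.dvd.mul_right h7 _
      rcases mod3 hsp h8 with h9 | h9 <;> omega
    · obtain ⟨t, _, h8⟩ := dvd_prod hsp h7
      rcases mod3 hsp h8 with h9 | h9 <;> omega
  have h6 : Nat.Coprime (s ^ 2) (C.v * (∏ s ∈ C.S, F s)) :=
    Nat.Coprime.pow_left 2 ((Nat.Prime.coprime_iff_not_dvd hsp).2 h5)
  exact h6.dvd_of_dvd_mul_left h4

/-- payments of `p` -/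
lemma pay_p : C.p ^ 2 ∣ C.sH ∨ (C.p ∣ C.sH ∧ ∃ r ∈ C.S, C.p ∣ F r) ∨
    (∃ r ∈ C.S, C.p ^ 2 ∣ F r) ∨
    (∃ r ∈ C.S, ∃ s ∈ C.S, s < r ∧ C.p ∣ F r ∧ C.p ∣ F s) := by
  have h1 : C.p ^ 2 ∣ C.v * (∏ s ∈ C.S, F s) * C.sH := by rw [C.eq1]; exact Dvd.intro _ rfl
  have h2 : Nat.Coprime (C.p ^ 2) C.v :=
    Nat.Coprime.pow_left 2 ((Nat.Prime.coprime_iff_not_dvd C.hp).2 C.pnv)
  rw [mul_assoc] at h1
  have h3 : C.p ^ 2 ∣ (∏ s ∈ C.S, F s) * C.sH := h2.dvd_of_dvd_mul_left h1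
  by_cases h4 : C.p ∣ C.sH
  · by_cases h5 : C.p ^ 2 ∣ C.sH
    · exact Or.inl h5
    · right; left
      refine ⟨h4, ?_⟩
      obtain ⟨a, ha⟩ := h4
      have hpa : ¬ C.p ∣ a := by
        rintro ⟨b, rfl⟩
        exact h5 ⟨b, by rw [ha]; ring⟩
      have h6 : C.p * C.p ∣ C.p * ((∏ s ∈ C.S, F s) * a) := by
        have : C.p * ((∏ s ∈ C.S, F s) * a) = (∏ s ∈ C.S, F s) * C.sH := by rw [ha]; ring
        rw [this, ← pow_two]; exact h3
      have h7 : C.p ∣ (∏ s ∈ C.S, F s) * a := Nat.dvd_of_mul_dvd_mul_left C.hp.pos h6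
      have h8 := ((Nat.Prime.dvd_mul C.hp).1 h7).resolve_right hpa
      exact dvd_prod C.hp h8
  · have h5 : Nat.Coprime (C.p ^ 2) C.sH :=
      Nat.Coprime.pow_left 2 ((Nat.Prime.coprime_iff_not_dvd C.hp).2 h4)
    have h6 : C.p ^ 2 ∣ ∏ s ∈ C.S, F s := h5.dvd_of_dvd_mul_right h3
    rcases sq_dvd_prod C.hp h6 with h7 | h7
    · exact Or.inr (Or.inr (Or.inl h7))
    · exact Or.inr (Or.inr (Or.inr h7))

/-! ### logarithms -/

lemma fsum {n : ℕ} (hn : n ≠ 0) (T : Finset ℕ) (hT : ∀ s ∈ T, s.Prime) :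
    ∑ s ∈ T, (n.factorization s : ℝ) * Real.log s ≤ Real.log n := by
  have h1 : ∏ s ∈ T, s ^ (n.factorization s) ∣ n := by
    apply Finset.prod_dvd_of_isRelPrime
    · intro a ha b hb hab
      exact Nat.coprime_iff_isRelPrime.1 (((Nat.coprime_primes (hT a ha) (hT b hb)).2 hab).pow _ _)
    · intro s _
      exact Nat.ordProj_dvd n s
  have h2 : ((∏ s ∈ T, s ^ (n.factorization s) : ℕ) : ℝ) ≤ n := by
    exact_mod_cast Nat.le_of_dvd (Nat.pos_of_ne_zero hn) h1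
  have h3 : (0 : ℝ) < ((∏ s ∈ T, s ^ (n.factorization s) : ℕ) : ℝ) := by
    exact_mod_cast Finset.prod_pos (fun s hs => pow_pos (hT s hs).pos _)
  have h4 := Real.log_le_log h3 h2
  push_cast at h4
  rw [Real.log_prod (fun s hs => by
    have := (hT s hs).pos
    positivity)] at h4
  simpa [Real.log_pow] using h4

lemma log_le {a b : ℕ} (ha : 0 < a) (h : a ≤ b) : Real.log a ≤ Real.log b :=
  Real.log_le_log (by exact_mod_cast ha) (by exact_mod_cast h)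

lemma log_nonneg' (a : ℕ) : 0 ≤ Real.log a := Real.log_natCast_nonneg a

/-- `x ∣ F t` gives `log x ≤ 2 log t + log 2`. -/
lemma pF {x t : ℕ} (ht : 2 ≤ t) (hx : 0 < x) (h : x ∣ F t) :
    Real.log x ≤ 2 * Real.log t + Real.log 2 := by
  have h1 : x ≤ 2 * t ^ 2 := (Nat.le_of_dvd (F_pos t) h).trans (F_le t ht)
  have h2 := log_le hx h1
  push_cast at h2
  rw [Real.log_mul (by norm_num) (by positivity), Real.log_pow] at h2
  push_cast at h2
  linarith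

lemma pF2 {x y t : ℕ} (ht : 2 ≤ t) (hx : 0 < x) (hy : 0 < y) (h : x * y ∣ F t) :
    Real.log x + Real.log y ≤ 2 * Real.log t + Real.log 2 := by
  have h1 := pF ht (Nat.mul_pos hx hy) h
  push_cast at h1
  rw [Real.log_mul (by positivity) (by positivity)] at h1
  exact h1

lemma pF2s {x t : ℕ} (ht : 2 ≤ t) (hx : 0 < x) (h : x ^ 2 ∣ F t) :
    2 * Real.log x ≤ 2 * Real.log t + Real.log 2 := by
  have h1 := pF ht (pow_pos hx 2) h
  push_cast at h1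
  rw [Real.log_pow] at h1
  push_cast at h1
  exact h1

lemma pF3 {x y z t : ℕ} (ht : 2 ≤ t) (hx : 0 < x) (hy : 0 < y) (hz : 0 < z)
    (h : x * y * z ∣ F t) :
    Real.log x + Real.log y + Real.log z ≤ 2 * Real.log t + Real.log 2 := by
  have h1 := pF2 ht (Nat.mul_pos hx hy) hz h
  push_cast at h1
  rw [Real.log_mul (by positivity) (by positivity)] at h1
  exact h1

/-- `x ^ 2 * y ∣ F t` -/
lemma pF21 {x y t : ℕ} (ht : 2 ≤ t) (hx : 0 < x) (hy : 0 < y) (h : x ^ 2 * y ∣ F t) :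
    2 * Real.log x + Real.log y ≤ 2 * Real.log t + Real.log 2 := by
  have h1 := pF2 ht (pow_pos hx 2) hy h
  push_cast at h1
  rw [Real.log_pow] at h1
  push_cast at h1
  exact h1

lemma pH {x : ℕ} (hx : 0 < x) (h : x ∣ C.sH) :
    Real.log x ≤ 4 * Real.log C.E + Real.log 2 := by
  have h1 : x ≤ 2 * C.E ^ 4 := by
    have h2 := Nat.le_of_dvd C.hsH0 h
    have h3 := C.hsH
    have h4 := C.hWE
    omega
  have h2 := log_le hx h1
  push_cast at h2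
  have := C.hE
  rw [Real.log_mul (by norm_num) (by positivity), Real.log_pow] at h2
  push_cast at h2
  linarith

lemma pH2 {x : ℕ} (hx : 0 < x) (h : x ^ 2 ∣ C.sH) :
    2 * Real.log x ≤ 4 * Real.log C.E + Real.log 2 := by
  have h1 := C.pH (pow_pos hx 2) h
  push_cast at h1
  rw [Real.log_pow] at h1
  push_cast at h1
  exact h1

lemma pV {x : ℕ} (hx : 0 < x) (h : x ∣ C.v) : Real.log x ≤ Real.log C.v :=
  log_le hx (Nat.le_of_dvd C.vpos h)

/-- log form of `v q = p ^ 2 + p + 1` -/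
lemma vq1 : 2 * Real.log C.p ≤ Real.log C.v + Real.log C.q := by
  have h1 : C.p ^ 2 ≤ C.v * C.q := by rw [C.hv]; unfold F; nlinarith
  have h2 := log_le (pow_pos C.hp.pos 2) h1
  push_cast at h2
  have h3 := C.vpos
  have h4 := C.hq.pos
  rw [Real.log_mul (by positivity) (by positivity), Real.log_pow] at h2
  push_cast at h2
  exact h2

lemma vq2 : Real.log C.v + Real.log C.q ≤ 2 * Real.log C.p + Real.log 2 := by
  have h1 : C.v * C.q ∣ F C.p := by rw [C.hv]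
  exact pF2 C.hp.two_le C.vpos C.hq.pos h1

lemma Qle : Real.log C.Q ≤ Real.log C.q := by
  apply log_le C.Qpos
  have := C.hQ; have := C.hq.two_le; omega

/-- sums over one, two, three, four distinct primes of `S` for `c` and for `Q`. -/
lemma s1 {n : ℕ} (hn : n ≠ 0) {a : ℕ} (ha : a.Prime) :
    (n.factorization a : ℝ) * Real.log a ≤ Real.log n := by
  have := fsum hn {a} (by simpa using ha)
  simpa using this

lemma s2 {n : ℕ} (hn : n ≠ 0) {a b : ℕ} (ha : a.Prime) (hb : b.Prime) (hab : a ≠ b) :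
    (n.factorization a : ℝ) * Real.log a + (n.factorization b : ℝ) * Real.log b ≤ Real.log n := by
  have := fsum hn {a, b} (by simp [ha, hb])
  rw [Finset.sum_pair hab] at this
  exact this

lemma s3 {n : ℕ} (hn : n ≠ 0) {a b c : ℕ} (ha : a.Prime) (hb : b.Prime) (hc : c.Prime)
    (hab : a ≠ b) (hac : a ≠ c) (hbc : b ≠ c) :
    (n.factorization a : ℝ) * Real.log a + (n.factorization b : ℝ) * Real.log b
      + (n.factorization c : ℝ) * Real.log c ≤ Real.log n := by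
  have := fsum hn {a, b, c} (by simp [ha, hb, hc])
  rw [Finset.sum_insert (by simp [hab, hac]), Finset.sum_pair hbc] at this
  linarith

lemma s4 {n : ℕ} (hn : n ≠ 0) {a b c d : ℕ} (ha : a.Prime) (hb : b.Prime) (hc : c.Prime)
    (hd : d.Prime) (hab : a ≠ b) (hac : a ≠ c) (had : a ≠ d) (hbc : b ≠ c) (hbd : b ≠ d)
    (hcd : c ≠ d) :
    (n.factorization a : ℝ) * Real.log a + (n.factorization b : ℝ) * Real.log b
      + (n.factorization c : ℝ) * Real.log c + (n.factorization d : ℝ) * Real.log d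
      ≤ Real.log n := by
  have := fsum hn {a, b, c, d} (by simp [ha, hb, hc, hd])
  rw [Finset.sum_insert (by simp [hab, hac, had]), Finset.sum_insert (by simp [hbc, hbd]),
    Finset.sum_pair hcd] at this
  linarith

end Cfg

end Pool.Agent.Lib.MP_f02ea4_nt.Rad
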