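import Mathlib
import Pool.Agent.Lib.MP_f02ea4_nt.RadCfg

set_option autoImplicit false

namespace Pool.Agent.Lib.MP_f02ea4_nt.Rad

namespace Cfg

variable (C : Cfg)

/-- `6 Q ≤ p ^ 2 + p + 4`. -/
lemma Qsmall : 6 * C.Q ≤ C.p ^ 2 + C.p + 4 := by
  have h1 := C.hv
  have h2 := C.hv3
  have h3 := C.hQ
  unfold F at h1
  have h4 : 3 * C.q ≤ C.v * C.q := Nat.mul_le_mul_right _ h2
  omega

/-- A prime whose square divides `Q` is not large. -/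
lemma hbig {t : ℕ} (h : t ^ 2 ∣ C.Q) (ht : 3 * C.p ≤ 4 * t + 3) : False := by
  have h1 := Nat.le_of_dvd C.Qpos h
  have h2 := C.Qsmall
  have h3 := C.p7
  nlinarith

/-- `p r₁ ≤ F r₂`, `r₂ < r₁ ≤ F s`, `r₂ s ^ 2 ≤ Q` is impossible. -/
lemma constA {r1 r2 s : ℕ} (h1 : C.p * r1 ∣ F r2) (h2 : r2 < r1) (h3 : r1 ∣ F s)
    (hs : 1 ≤ s) (h4 : r2 * s ^ 2 ∣ C.Q) : False := by
  have h5 := Nat.le_of_dvd (F_pos _) h1
  have h6 := Nat.le_of_dvd (F_pos _) h3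
  have h7 := Nat.le_of_dvd C.Qpos h4
  have h8 := C.Qsmall
  have h9 := C.p7
  unfold F at h5 h6
  have h10 : C.p ≤ r2 + 1 := by
    by_contra h
    push Not at h
    nlinarith
  have h11 : r2 ≤ 2 * s ^ 2 := by nlinarith
  have h12 : r2 * r2 ≤ 2 * (r2 * s ^ 2) := by nlinarith
  nlinarith

/-- `r₂ < r₁`, `p r₁ ∣ F r₂`, `r₂ ∣ F s`, `r₁ s ^ 2 ∣ Q` is impossible. -/
lemma constC {r1 r2 s : ℕ} (h1 : C.p * r1 ∣ F r2) (h2 : r2 < r1) (h3 : r2 ∣ F s)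
    (hs : 1 ≤ s) (h4 : r1 * s ^ 2 ∣ C.Q) : False := by
  have h5 := Nat.le_of_dvd (F_pos _) h1
  have h6 := Nat.le_of_dvd (F_pos _) h3
  have h7 := Nat.le_of_dvd C.Qpos h4
  have h8 := C.Qsmall
  have h9 := C.p7
  unfold F at h5 h6
  have h10 : C.p ≤ r2 + 1 := by
    by_contra h
    push Not at h
    nlinarith
  have h11 : r2 ≤ 2 * s ^ 2 + 1 := by nlinarith
  have h12 : r1 * r2 ≤ 2 * (r1 * s ^ 2) + r1 := by nlinarith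
  nlinarith

/-- `r ∣ F t`, `r t ^ 2 ∣ Q` with `2 r ≥ 3 p - 1`. -/
lemma constB {r t : ℕ} (h3 : r ∣ F t) (ht : 1 ≤ t) (h4 : r * t ^ 2 ∣ C.Q)
    (h5 : 3 * C.p ≤ 2 * r + 1) : False := by
  have h6 := Nat.le_of_dvd (F_pos _) h3
  have h7 := Nat.le_of_dvd C.Qpos h4
  have h8 := C.Qsmall
  have h9 := C.p7
  unfold F at h6
  have h11 : r ≤ 2 * t ^ 2 + 1 := by nlinarith
  have h12 : r * r ≤ 2 * (r * t ^ 2) + r := by nlinarith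
  nlinarith

/-- `s₁ s₂ ^ 2 ∣ Q`, `r ∣ F s₂`, `r ≤ 2 s₁ + 1`, `2 r ≥ 3 p - 1`. -/
lemma constF {r s1 s2 : ℕ} (h3 : r ∣ F s2) (hs : 1 ≤ s2) (h4 : s1 * s2 ^ 2 ∣ C.Q)
    (h5 : 3 * C.p ≤ 2 * r + 1) (h6 : r ≤ 2 * s1 + 1) : False := by
  have h6 := Nat.le_of_dvd (F_pos _) h3
  have h7 := Nat.le_of_dvd C.Qpos h4
  have h8 := C.Qsmall
  have h9 := C.p7
  unfold F at h6
  have h11 : r ≤ 2 * s2 ^ 2 + 1 := by nlinarith
  have h12 : s1 * r ≤ 2 * (s1 * s2 ^ 2) + s1 := by nlinarith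
  nlinarith

/-- `s ∣ F t`, `s t ^ 2 ∣ Q` with `4 s + 3 ≥ 3 p` and `p` large. -/
lemma constG {s t : ℕ} (h3 : s ∣ F t) (ht : 1 ≤ t) (h4 : s * t ^ 2 ∣ C.Q)
    (h5 : 3 * C.p ≤ 4 * s + 3) (hp : 100 ≤ C.p) : False := by
  have h6 := Nat.le_of_dvd (F_pos _) h3
  have h7 := Nat.le_of_dvd C.Qpos h4
  have h8 := C.Qsmall
  unfold F at h6
  have h11 : s ≤ 2 * t ^ 2 + 1 := by nlinarith
  have h12 : s * s ≤ 2 * (s * t ^ 2) + s := by nlinarith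
  nlinarith

/-- `p ^ 2 u ^ 2 ∣ F r`, `r ∣ F u`, `r ∣ Q`. -/
lemma constD {r u : ℕ} (h1 : C.p ^ 2 * u ^ 2 ∣ F r) (h2 : r ∣ F u) (h3 : r ∣ C.Q)
    (hu : 1 ≤ u) (hr : 3 ≤ r) : False := by
  have h5 := Nat.le_of_dvd (F_pos _) h1
  have h6 := Nat.le_of_dvd (F_pos _) h2
  have h7 := Nat.le_of_dvd C.Qpos h3
  have h8 := C.Qsmall
  have h9 := C.p7
  unfold F at h5 h6
  have h11 : r ≤ 2 * u ^ 2 + 1 := by nlinarith
  -- p^2 (r - 1) ≤ 2 (r^2 + r + 1)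
  have h12 : C.p ^ 2 * r ≤ 2 * (r ^ 2 + r + 1) + C.p ^ 2 := by
    have : C.p ^ 2 * r ≤ C.p ^ 2 * (2 * u ^ 2 + 1) := Nat.mul_le_mul_left _ h11
    nlinarith
  -- 6 r ≤ p^2 + p + 4
  have h13 : 6 * r ≤ C.p ^ 2 + C.p + 4 := by omega
  have h14 : 2 * (C.p + 4) ≤ C.p ^ 2 := by nlinarith
  have h15 : 4 * r ≤ C.p ^ 2 := by omega
  have h16 : 49 ≤ C.p ^ 2 := by nlinarith
  obtain ⟨a, rfl⟩ : ∃ a, r = a + 3 := ⟨r - 3, by omega⟩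
  have h17 : 4 * (a + 3) * (a + 2) ≤ C.p ^ 2 * (a + 2) := Nat.mul_le_mul_right _ h15
  have h18 : 49 * (a + 2) ≤ C.p ^ 2 * (a + 2) := Nat.mul_le_mul_right _ h16
  nlinarith

/-- If `p ^ 2 ∣ F r` then `2 r + 1 ≥ 3 p`. -/
lemma x3 {r : ℕ} (h : C.p ^ 2 ∣ F r) : 3 * C.p ≤ 2 * r + 1 := by
  obtain ⟨x, hx⟩ := h
  have h9 := C.p7
  have hodd := F_odd r
  have hx1 : x ≠ 1 := by
    rintro rfl
    unfold F at hx
    have h1 : r < C.p := by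
      by_contra h
      push Not at h
      nlinarith
    have h2 : C.p < r + 1 := by
      by_contra h
      push Not at h
      nlinarith
    omega
  have hx2 : x % 2 = 1 := by
    rcases Nat.even_or_odd x with h | h
    · exfalso
      have : Even (C.p ^ 2 * x) := h.mul_left _
      rw [← hx, Nat.even_iff] at this
      omega
    · exact Nat.odd_iff.1 h
  have hx3 : 3 ≤ x := by omega
  by_contra h
  push Not at h
  have h1 : C.p ^ 2 * 3 ≤ F r := by rw [hx]; exact Nat.mul_le_mul_left _ hx3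
  unfold F at h1
  nlinarith

end Cfg

end Pool.Agent.Lib.MP_f02ea4_nt.Rad
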