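import Mathlib
import Pool.Agent.Lib.MP_f02ea4_nt.RadConst

set_option autoImplicit false

namespace Pool.Agent.Lib.MP_f02ea4_nt.Rad

namespace Cfg

variable (C : Cfg)

/-- The negation of the bound `q ^ 2 ≤ 2 ^ 96 * c * v * E ^ 10`. -/
def Bad : Prop :=
  Real.log C.c + Real.log C.v + 10 * Real.log C.E + 96 * Real.log 2 < 2 * Real.log C.q

variable {C}

lemma l2pos : 0 < Real.log 2 := Real.log_pos (by norm_num)

lemma Bad.lq (h : C.Bad) : 48 * Real.log 2 < Real.log C.q := by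
  unfold Bad at h
  have h1 := log_nonneg' C.c
  have h2 := log_nonneg' C.v
  have h3 := log_nonneg' C.E
  linarith

lemma Bad.lp (h : C.Bad) : 23 * Real.log 2 < Real.log C.p := by
  have h1 := h.lq
  have h2 := C.vq2
  have h3 := log_nonneg' C.v
  have h4 := l2pos
  linarith

lemma gt_of_log {a k : ℕ} (ha : (k : ℝ) * Real.log 2 < Real.log a) : 2 ^ k < a := by
  by_contra h
  push Not at h
  have h2pos := l2pos
  rcases Nat.eq_zero_or_pos a with h0 | h0
  · rw [h0] at ha
    simp at ha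
    have : (0 : ℝ) ≤ (k : ℝ) * Real.log 2 := by positivity
    linarith
  · have h1 := log_le h0 h
    push_cast at h1
    rw [Real.log_pow] at h1
    linarith

lemma Bad.p_big (h : C.Bad) : 20000 < C.p := by
  have h1 := h.lp
  have h2 : 2 ^ 23 < C.p := gt_of_log (by push_cast; exact h1)
  have : (20000 : ℕ) < 2 ^ 23 := by norm_num
  omega

lemma Bad.p100 (h : C.Bad) : 100 ≤ C.p := by have := h.p_big; omega

lemma big_log {a b : ℕ} (h : a ≤ 2 * b + 1) (hb : 1 ≤ b) (ha : 0 < a) :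
    Real.log a ≤ Real.log b + 2 * Real.log 2 := by
  have h1 : a ≤ 4 * b := by omega
  have h2 := log_le ha h1
  push_cast at h2
  rw [Real.log_mul (by norm_num) (by positivity)] at h2
  have h4 : Real.log 4 = 2 * Real.log 2 := by
    rw [show (4 : ℝ) = 2 ^ 2 by norm_num, Real.log_pow]; norm_num
  linarith

lemma mod12 {s : ℕ} (hs : s.Prime) (h3 : s ≠ 3) : s % 3 = 1 ∨ s % 3 = 2 := by
  have h1 : s % 3 ≠ 0 := by
    intro h
    have : 3 ∣ s := Nat.dvd_of_mod_eq_zero h
    exact h3 ((Nat.prime_dvd_prime_iff_eq Nat.prime_three hs).1 this).symm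
  omega

lemma ne3 {r s : ℕ} (h : r ∣ F s) (hr : 13 < r) : s ≠ 3 := by
  rintro rfl
  have : F 3 = 13 := by norm_num [F]
  rw [this] at h
  have := Nat.le_of_dvd (by norm_num) h
  omega

/-- lower bound for a payer of a large prime -/
lemma payer_ge {r s : ℕ} (h : r ∣ F s) (hr : 20000 < r) : 100 ≤ s := by
  by_contra h1
  push Not at h1
  have h2 := Nat.le_of_dvd (F_pos s) h
  have h3 : F s ≤ 99 ^ 2 + 99 + 1 := by unfold F; nlinarith
  omega

variable (C)

lemma dvdQ_sq {t : ℕ} (h : C.Q.factorization t = 2) (ht : t.Prime) : t ^ 2 ∣ C.Q :=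
  (ht.pow_dvd_iff_le_factorization C.Qpos.ne').2 (by omega)

lemma dvdQ_one {t : ℕ} (h : C.Q.factorization t = 1) : t ∣ C.Q :=
  Nat.dvd_of_factorization_pos (by omega)

lemma dvd_q1 {t : ℕ} (h : t ∣ C.Q) : t ∣ C.q + 1 := by
  rw [C.hQ]; exact Dvd.dvd.mul_left h 2

/-- No `h`-type payer of `p`. -/
lemma no_h {r : ℕ} (hr : r.Prime) (hp : C.p ∣ F r) (hbig : 20000 < C.p)
    (h : C.Q.factorization r = 2) : False := by
  obtain ⟨t, ht⟩ := C.dvdQ_sq h hr
  have := lh C.hv C.hv3 (r := r) (t := t) (by rw [C.hQ, ht]) hp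
  omega

/-- A `g`-type payer of `p` is at least about `q ^ (1/3)`. -/
lemma lgl {r : ℕ} (hr : r.Prime) (hp : C.p ∣ F r) (h : C.Q.factorization r = 1) :
    Real.log C.q ≤ 3 * Real.log r + 4 * Real.log 2 := by
  have h1 := lg C.hp.two_le C.hv C.hv3 hr.two_le (C.dvd_q1 (C.dvdQ_one h)) hp
  have h2 := log_le C.hq.pos h1
  have h3 := hr.pos
  push_cast at h2
  rw [Real.log_mul (by norm_num) (by positivity), Real.log_pow] at h2
  have h4 : Real.log 16 = 4 * Real.log 2 := by
    rw [show (16 : ℝ) = 2 ^ 4 by norm_num, Real.log_pow]; norm_num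
  push_cast at h2
  rw [h4] at h2
  linarith

variable {C}

/-- sums with given exponents, for `c` -/
lemma c1 {a i : ℕ} (ha : a.Prime) (hi : C.c.factorization a = i) :
    (i : ℝ) * Real.log a ≤ Real.log C.c := by
  rw [← hi]; exact s1 C.hc.ne' ha

lemma c2 {a b i j : ℕ} (ha : a.Prime) (hb : b.Prime) (hab : a ≠ b)
    (hi : C.c.factorization a = i) (hj : C.c.factorization b = j) :
    (i : ℝ) * Real.log a + (j : ℝ) * Real.log b ≤ Real.log C.c := by
  rw [← hi, ← hj]; exact s2 C.hc.ne' ha hb hab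

lemma c3 {a b d i j k : ℕ} (ha : a.Prime) (hb : b.Prime) (hd : d.Prime) (hab : a ≠ b)
    (had : a ≠ d) (hbd : b ≠ d)
    (hi : C.c.factorization a = i) (hj : C.c.factorization b = j) (hk : C.c.factorization d = k) :
    (i : ℝ) * Real.log a + (j : ℝ) * Real.log b + (k : ℝ) * Real.log d ≤ Real.log C.c := by
  rw [← hi, ← hj, ← hk]; exact s3 C.hc.ne' ha hb hd hab had hbd

lemma c4 {a b d e i j k l : ℕ} (ha : a.Prime) (hb : b.Prime) (hd : d.Prime) (he : e.Prime)
    (hab : a ≠ b) (had : a ≠ d) (hae : a ≠ e) (hbd : b ≠ d) (hbe : b ≠ e) (hde : d ≠ e)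
    (hi : C.c.factorization a = i) (hj : C.c.factorization b = j) (hk : C.c.factorization d = k)
    (hl : C.c.factorization e = l) :
    (i : ℝ) * Real.log a + (j : ℝ) * Real.log b + (k : ℝ) * Real.log d + (l : ℝ) * Real.log e
      ≤ Real.log C.c := by
  rw [← hi, ← hj, ← hk, ← hl]; exact s4 C.hc.ne' ha hb hd he hab had hae hbd hbe hde

/-- sums with given exponents, for `Q` -/
lemma q1 {a i : ℕ} (ha : a.Prime) (hi : C.Q.factorization a = i) :
    (i : ℝ) * Real.log a ≤ Real.log C.q := by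
  rw [← hi]; exact (s1 C.Qpos.ne' ha).trans C.Qle

lemma q2 {a b i j : ℕ} (ha : a.Prime) (hb : b.Prime) (hab : a ≠ b)
    (hi : C.Q.factorization a = i) (hj : C.Q.factorization b = j) :
    (i : ℝ) * Real.log a + (j : ℝ) * Real.log b ≤ Real.log C.q := by
  rw [← hi, ← hj]; exact (s2 C.Qpos.ne' ha hb hab).trans C.Qle

lemma q3 {a b d i j k : ℕ} (ha : a.Prime) (hb : b.Prime) (hd : d.Prime) (hab : a ≠ b)
    (had : a ≠ d) (hbd : b ≠ d)
    (hi : C.Q.factorization a = i) (hj : C.Q.factorization b = j) (hk : C.Q.factorization d = k) :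
    (i : ℝ) * Real.log a + (j : ℝ) * Real.log b + (k : ℝ) * Real.log d ≤ Real.log C.q := by
  rw [← hi, ← hj, ← hk]; exact (s3 C.Qpos.ne' ha hb hd hab had hbd).trans C.Qle

/-- product of a `g`-type prime and the square of an `h`-type prime divides `Q` -/
lemma dvdQ_gh {a b : ℕ} (ha : a.Prime) (hb : b.Prime) (hab : a ≠ b)
    (hi : C.Q.factorization a = 1) (hj : C.Q.factorization b = 2) : a * b ^ 2 ∣ C.Q := by
  apply Nat.Coprime.mul_dvd_of_dvd_of_dvd
  · exact Nat.Coprime.pow_right 2 ((Nat.coprime_primes ha hb).2 hab)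
  · exact C.dvdQ_one hi
  · exact C.dvdQ_sq hj hb

end Cfg

end Pool.Agent.Lib.MP_f02ea4_nt.Rad
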