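import Mathlib
import Pool.Agent.Lib.MP_f02ea4_nt.RadBad

set_option autoImplicit false

namespace Pool.Agent.Lib.MP_f02ea4_nt.Rad

namespace Cfg

variable {C : Cfg}

/-- `s` pays a large `k`-type prime; single or double. -/
lemma bigpayer {r : ℕ} (hr : r.Prime)
    (h : (∃ t ∈ C.S, r ^ 2 ∣ F t) ∨ (∃ t ∈ C.S, ∃ u ∈ C.S, u < t ∧ r ∣ F t ∧ r ∣ F u)) :
    ∃ t ∈ C.S, r ∣ F t ∧ r ≤ 2 * t + 1 ∧ t ≠ r ∧
      (r ^ 2 ∣ F t ∨ ∃ u ∈ C.S, u < t ∧ u ≠ r ∧ r ∣ F u) := by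
  rcases h with ⟨t, ht, h1⟩ | ⟨t, ht, u, hu, hut, h1, h2⟩
  · refine ⟨t, ht, dvd_trans (dvd_pow_self r two_ne_zero) h1, ?_, ?_, Or.inl h1⟩
    · have h2 := Nat.le_of_dvd (F_pos t) h1
      unfold F at h2
      by_contra h3
      push Not at h3
      nlinarith
    · rintro rfl
      exact self_not_dvd_F hr.two_le (dvd_trans (dvd_pow_self t two_ne_zero) h1)
  · refine ⟨t, ht, h1, two_roots_le hr h1 h2 hut, ?_, Or.inr ⟨u, hu, hut, ?_, h2⟩⟩
    · rintro rfl; exact self_not_dvd_F hr.two_le h1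
    · rintro rfl; exact self_not_dvd_F hr.two_le h2

lemma case_kk (h : C.Bad) {r1 r2 : ℕ} (h1 : r1 ∈ C.S) (h2 : r2 ∈ C.S) (hlt : r2 < r1)
    (hp1 : C.p ∣ F r1) (hp2 : C.p ∣ F r2)
    (t1c : C.c.factorization r1 = 2)
    (t2q : C.Q.factorization r2 = 0) (t2c : C.c.factorization r2 = 2) : False := by
  have hp := C.hp
  have hr1 := C.hSp r1 h1
  have hr2 := C.hSp r2 h2
  have hpb := h.p_big
  have hlp := h.lp
  have hl2 := l2pos
  have vq1 := C.vq1
  have vq2 := C.vq2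
  have hv0 := log_nonneg' C.v
  have hE0 := log_nonneg' C.E
  have hr1ge := payer_ge hp1 hpb
  have hr2ge := payer_ge hp2 hpb
  have hle1 := two_roots_le hp hp1 hp2 hlt
  have L1 : Real.log C.p ≤ Real.log r1 + 2 * Real.log 2 := big_log hle1 (by omega) hp.pos
  have L2 : Real.log C.p ≤ 2 * Real.log r2 + Real.log 2 := pF hr2.two_le hp.pos hp2
  have hne : r1 ≠ r2 := by omega
  have cc := c2 hr1 hr2 hne t1c t2c
  norm_num at cc
  have hbad := h
  unfold Bad at hbad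
  rcases mod12 hr1 (by omega) with m1 | m1
  swap
  · have := C.pH2 hr1.pos (C.payK_two h1 t1c m1)
    linarith
  rcases mod12 hr2 (by omega) with m2 | m2
  swap
  · have := C.pH2 hr2.pos (C.payK_two h2 t2c m2)
    linarith
  have h3p := two_roots_mod3 hp hp1 hp2 hlt C.hp3 m1 m2
  rcases C.payK h1 t1c with hV | hH | hS
  · have := C.pV hr1.pos hV
    linarith
  · have := C.pH hr1.pos hH
    linarith
  obtain ⟨t, ht, htF, htb, htr1, -⟩ := bigpayer hr1 hS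
  have htp := C.hSp t ht
  have Lt : Real.log r1 ≤ Real.log t + 2 * Real.log 2 := big_log htb htp.one_lt.le hr1.pos
  rcases C.typ ht with ⟨tq, tc⟩ | ⟨tq, tc⟩ | ⟨tq, tc⟩
  · -- k
    by_cases ht2 : t = r2
    · subst ht2
      linarith
    · have cc := c3 hr1 hr2 htp hne (Ne.symm htr1) (Ne.symm ht2) t1c t2c tc
      norm_num at cc
      linarith
  · -- g
    have ht2 : t ≠ r2 := by rintro rfl; omega
    have cc := c3 hr1 hr2 htp hne (Ne.symm htr1) (Ne.symm ht2) t1c t2c tc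
    norm_num at cc
    linarith
  · -- h
    exact C.hbig (C.dvdQ_sq tq htp) (by omega)

end Cfg

end Pool.Agent.Lib.MP_f02ea4_nt.Rad
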