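import Mathlib
import Pool.Agent.Lib.MP_f02ea4_nt.RadKK

set_option autoImplicit false

namespace Pool.Agent.Lib.MP_f02ea4_nt.Rad

namespace Cfg

variable {C : Cfg}

/-- distinct primes dividing the same number -/
lemma mul_dvd2 {a b n : ℕ} (ha : a.Prime) (hb : b.Prime) (hab : a ≠ b) (h1 : a ∣ n) (h2 : b ∣ n) :
    a * b ∣ n :=
  Nat.Coprime.mul_dvd_of_dvd_of_dvd ((Nat.coprime_primes ha hb).2 hab) h1 h2

lemma mul_dvd3 {a b c n : ℕ} (ha : a.Prime) (hb : b.Prime) (hc : c.Prime) (hab : a ≠ b)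
    (hac : a ≠ c) (hbc : b ≠ c) (h1 : a ∣ n) (h2 : b ∣ n) (h3 : c ∣ n) : a * b * c ∣ n := by
  apply Nat.Coprime.mul_dvd_of_dvd_of_dvd _ (mul_dvd2 ha hb hab h1 h2) h3
  exact Nat.Coprime.mul_left ((Nat.coprime_primes ha hc).2 hac) ((Nat.coprime_primes hb hc).2 hbc)

lemma sq_mul_dvd {a b n : ℕ} (ha : a.Prime) (hb : b.Prime) (hab : a ≠ b) (h1 : a ^ 2 ∣ n)
    (h2 : b ∣ n) : a ^ 2 * b ∣ n :=
  Nat.Coprime.mul_dvd_of_dvd_of_dvd
    (Nat.Coprime.pow_left 2 ((Nat.coprime_primes ha hb).2 hab)) h1 h2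

lemma case_kg (h : C.Bad) {r1 r2 : ℕ} (h1 : r1 ∈ C.S) (h2 : r2 ∈ C.S) (hlt : r2 < r1)
    (hp1 : C.p ∣ F r1) (hp2 : C.p ∣ F r2)
    (t1c : C.c.factorization r1 = 2)
    (t2q : C.Q.factorization r2 = 1) (t2c : C.c.factorization r2 = 1) : False := by
  have hp := C.hp
  have hr1 := C.hSp r1 h1
  have hr2 := C.hSp r2 h2
  have hpr1 : C.p ≠ r1 := by rintro h; exact C.hpS (h ▸ h1)
  have hpr2 : C.p ≠ r2 := by rintro h; exact C.hpS (h ▸ h2)
  have hpb := h.p_big
  have hlp := h.lp
  have hlq := h.lq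
  have hl2 := l2pos
  have vq1 := C.vq1
  have vq2 := C.vq2
  have hv0 := log_nonneg' C.v
  have hE0 := log_nonneg' C.E
  have hr1ge := payer_ge hp1 hpb
  have hr2ge := payer_ge hp2 hpb
  have hle1 := two_roots_le hp hp1 hp2 hlt
  have L1 : Real.log C.p ≤ Real.log r1 + 2 * Real.log 2 := big_log hle1 (by omega) hp.pos
  have L2 : Real.log C.p ≤ 2 * Real.log r2 + Real.log 2 := pF hr2.two_le hp.pos hp2
  have G2 := C.lgl hr2 hp2 t2q
  have hne : r1 ≠ r2 := by omega
  have cc := c2 hr1 hr2 hne t1c t2c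
  norm_num at cc
  have hbad := h
  unfold Bad at hbad
  rcases mod12 hr1 (by omega) with m1 | m1
  swap
  · have := C.pH2 hr1.pos (C.payK_two h1 t1c m1)
    linarith
  rcases mod12 hr2 (by omega) with m2 | m2
  swap
  · have := C.pH hr2.pos (C.payG_two h2 t2c m2)
    linarith
  have h3p := two_roots_mod3 hp hp1 hp2 hlt C.hp3 m1 m2
  rcases C.payK h1 t1c with hV | hH | hS
  · have := C.pV hr1.pos hV
    linarith
  · have := C.pH hr1.pos hH
    linarith
  obtain ⟨s, hs, hsF, hsb, hsr1, hD⟩ := bigpayer hr1 hS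
  have hsp := C.hSp s hs
  have Ls : Real.log r1 ≤ Real.log s + 2 * Real.log 2 := big_log hsb hsp.one_lt.le hr1.pos
  rcases C.typ hs with ⟨sq, sc⟩ | ⟨sq, sc⟩ | ⟨sq, sc⟩
  · -- s is k-type
    have hsr2 : s ≠ r2 := by rintro rfl; omega
    have cc := c3 hr1 hr2 hsp hne (Ne.symm hsr1) (Ne.symm hsr2) t1c t2c sc
    norm_num at cc
    linarith
  · -- s is g-type
    by_cases hsr2 : s = r2
    · -- s = r2
      subst hsr2
      rcases hD with hD | ⟨s2, hs2, hs2lt, hs2r, hs2F⟩
      · have h5 := Nat.le_of_dvd (F_pos _) hD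
        unfold F at h5
        exfalso
        nlinarith
      have hs2p := C.hSp s2 hs2
      have hpr : C.p * r1 ∣ F s := mul_dvd2 hp hr1 hpr1 hp2 hsF
      have L3 := pF2 hsp.two_le hp.pos hr1.pos hpr
      have L4 := pF hs2p.two_le hr1.pos hs2F
      rcases C.typ hs2 with ⟨uq, uc⟩ | ⟨uq, uc⟩ | ⟨uq, uc⟩
      · have cc := c3 hr1 hsp hs2p hne (Ne.symm hs2r) (by omega) t1c sc uc
        norm_num at cc
        linarith
      · have cc := c3 hr1 hsp hs2p hne (Ne.symm hs2r) (by omega) t1c sc uc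
        norm_num at cc
        have hs2ne3 : s2 ≠ 3 := ne3 hs2F (by omega)
        rcases mod12 hs2p hs2ne3 with m3 | m3
        · -- two roots mod r1, all 1 mod 3
          have := two_roots_mod3 hr1 hsF hs2F hs2lt m1 m2 m3
          omega
        · have := C.pH hs2p.pos (C.payG_two hs2 uc m3)
          linarith
      · exact C.constA hpr (by omega) hs2F hs2p.one_lt.le
          (dvdQ_gh hsp hs2p (by omega) sq uq)
    · -- s ≠ r2, g-type
      have cc := c3 hr1 hr2 hsp hne (Ne.symm hsr1) (Ne.symm hsr2) t1c t2c sc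
      norm_num at cc
      -- payment of r2
      rcases C.payG h2 t2c with hV | hH | ⟨t, ht, htF⟩
      · have := C.pV hr2.pos hV
        linarith
      · have := C.pH hr2.pos hH
        linarith
      have htp := C.hSp t ht
      have Lt := pF htp.two_le hr2.pos htF
      have htr2 : t ≠ r2 := by rintro rfl; exact self_not_dvd_F hr2.two_le htF
      by_cases hts : t = s
      · -- s pays r2
        subst hts
        rcases hD with hD | ⟨s2, hs2, hs2lt, hs2r, hs2F⟩
        · have := pF21 hsp.two_le hr1.pos hr2.pos (sq_mul_dvd hr1 hr2 hne hD htF)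
          linarith
        have hs2p := C.hSp s2 hs2
        have L4 := pF hs2p.two_le hr1.pos hs2F
        have hs2t : s2 ≠ t := by omega
        rcases C.typ hs2 with ⟨uq, uc⟩ | ⟨uq, uc⟩ | ⟨uq, uc⟩
        · have hs2r2 : s2 ≠ r2 := by rintro rfl; omega
          have cc := c4 hr1 hr2 hsp hs2p hne (Ne.symm hsr1) (Ne.symm hs2r) (Ne.symm hsr2)
            (Ne.symm hs2r2) (Ne.symm hs2t) t1c t2c sc uc
          norm_num at cc
          linarith
        · by_cases hs2r2 : s2 = r2
          · subst hs2r2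
            have := pF2 hs2p.two_le hp.pos hr1.pos (mul_dvd2 hp hr1 hpr1 hp2 hs2F)
            linarith
          · have cc := c4 hr1 hr2 hsp hs2p hne (Ne.symm hsr1) (Ne.symm hs2r) (Ne.symm hsr2)
              (Ne.symm hs2r2) (Ne.symm hs2t) t1c t2c sc uc
            norm_num at cc
            linarith
        · have hs2r2 : s2 ≠ r2 := by rintro rfl; omega
          have qq := q3 hr2 hsp hs2p (Ne.symm hsr2) (Ne.symm hs2r2) (Ne.symm hs2t) t2q sq uq
          norm_num at qq
          linarith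
      by_cases htr1 : t = r1
      · -- r1 pays r2
        subst htr1
        have hpt : C.p ≠ t := hpr1
        rcases C.payG hs sc with hV | hH | ⟨t', ht', ht'F⟩
        · have := C.pV hsp.pos hV
          linarith
        · have := C.pH hsp.pos hH
          linarith
        have ht'p := C.hSp t' ht'
        have Lt' := pF ht'p.two_le hsp.pos ht'F
        have ht's : t' ≠ s := by rintro rfl; exact self_not_dvd_F hsp.two_le ht'F
        rcases C.typ ht' with ⟨uq, uc⟩ | ⟨uq, uc⟩ | ⟨uq, uc⟩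
        · by_cases ht't : t' = t
          · subst ht't
            have := pF3 hr1.two_le hp.pos hr2.pos hsp.pos
              (mul_dvd3 hp hr2 hsp hpr2 (by rintro h; exact C.hpS (h ▸ hs)) (Ne.symm hsr2)
                hp1 htF ht'F)
            linarith
          · have ht'r2 : t' ≠ r2 := by rintro rfl; omega
            have cc := c4 hr1 hr2 hsp ht'p hne (Ne.symm hsr1) (Ne.symm ht't) (Ne.symm hsr2)
              (Ne.symm ht'r2) (Ne.symm ht's) t1c t2c sc uc
            norm_num at cc
            linarith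
        · have ht't : t' ≠ t := by rintro rfl; omega
          by_cases ht'r2 : t' = r2
          · subst ht'r2
            have := pF2 ht'p.two_le hp.pos hsp.pos
              (mul_dvd2 hp hsp (by rintro h; exact C.hpS (h ▸ hs)) hp2 ht'F)
            linarith
          · have cc := c4 hr1 hr2 hsp ht'p hne (Ne.symm hsr1) (Ne.symm ht't) (Ne.symm hsr2)
              (Ne.symm ht'r2) (Ne.symm ht's) t1c t2c sc uc
            norm_num at cc
            linarith
        · have ht'r2 : t' ≠ r2 := by rintro rfl; omega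
          have qq := q3 hr2 hsp ht'p (Ne.symm hsr2) (Ne.symm ht'r2) (Ne.symm ht's) t2q sq uq
          norm_num at qq
          linarith
      rcases C.typ ht with ⟨uq, uc⟩ | ⟨uq, uc⟩ | ⟨uq, uc⟩
      · have cc := c4 hr1 hr2 hsp htp hne (Ne.symm hsr1) (Ne.symm htr1) (Ne.symm hsr2)
          (Ne.symm htr2) (Ne.symm hts) t1c t2c sc uc
        norm_num at cc
        linarith
      · have cc := c4 hr1 hr2 hsp htp hne (Ne.symm hsr1) (Ne.symm htr1) (Ne.symm hsr2)
          (Ne.symm htr2) (Ne.symm hts) t1c t2c sc uc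
        norm_num at cc
        linarith
      · have qq := q3 hr2 hsp htp (Ne.symm hsr2) (Ne.symm htr2) (Ne.symm hts) t2q sq uq
        norm_num at qq
        linarith
  · -- s is h-type
    exact C.hbig (C.dvdQ_sq sq hsp) (by omega)

end Cfg

end Pool.Agent.Lib.MP_f02ea4_nt.Rad
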