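import Mathlib
import Pool.Agent.Lib.MP_f02ea4_nt.RadKG

set_option autoImplicit false

namespace Pool.Agent.Lib.MP_f02ea4_nt.Rad

namespace Cfg

variable {C : Cfg}

/-- mutual payers `r₁, r₂` both paying `p` force `p ≤ 21`. -/
lemma triple {p r1 r2 : ℕ} (hp : p.Prime) (hlt : r2 < r1) (hr2 : 0 < r2) (h1 : r1 ∣ F r2)
    (h2 : r2 ∣ F r1) (hp1 : p ∣ F r1) (hp2 : p ∣ F r2) : p ≤ 21 := by
  have hm := mills (r1 + r2) r1 r2 le_rfl (by omega) hr2 h1 h2
  have h3 : p ∣ 5 * (r1 * r2) + 1 := by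
    have : F r1 + F r2 = 5 * (r1 * r2) + 1 := by unfold F; linarith
    rw [← this]; exact Dvd.dvd.add hp1 hp2
  rcases two_roots hp hp1 hp2 hlt with hα | hβ
  · have h4 := prod_alpha hα hp2
    have h5 : (p : ℤ) ∣ 6 := by
      have h6 : (p : ℤ) ∣ 5 * (r1 * r2) + 1 := by exact_mod_cast h3
      have h7 : (p : ℤ) ∣ (r1 * r2 : ℤ) - 1 := (Int.modEq_iff_dvd).1 h4.symm
      have : (6 : ℤ) = (5 * (r1 * r2) + 1) - 5 * ((r1 * r2 : ℤ) - 1) := by ring
      rw [this]
      exact Int.dvd_sub h6 (Dvd.dvd.mul_left h7 5)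
    have := Int.le_of_dvd (by norm_num) h5
    omega
  · have h5 : (p : ℤ) ∣ 21 := by
      obtain ⟨a, ha⟩ : (p : ℤ) ∣ 5 * (r1 * r2) + 1 := by exact_mod_cast h3
      obtain ⟨k, hk⟩ := hβ
      have hk' : (r1 : ℤ) = r2 + p * k := by
        have : r1 = r2 + p * k := by omega
        exact_mod_cast this
      obtain ⟨b, hb⟩ : (p : ℤ) ∣ (r2 : ℤ) ^ 2 + r2 + 1 := by unfold F at hp2; exact_mod_cast hp2
      rw [hk'] at ha
      -- 5 r2^2 + 1 = p (a - 5 k r2) ; -5 r2 - 4 = p (a - 5 k r2 - 5 b)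
      -- 21 = 25 (r2^2 + r2 + 1) - (5 r2 + 4)(5 r2 + 1)
      refine ⟨25 * b + (a - 5 * k * r2 - 5 * b) * (5 * r2 + 1), ?_⟩
      linear_combination (20 - 25 * (r2 : ℤ)) * hb + (5 * (r2 : ℤ) + 1) * ha
    have := Int.le_of_dvd (by norm_num) h5
    omega

lemma case_gk (h : C.Bad) {r1 r2 : ℕ} (h1 : r1 ∈ C.S) (h2 : r2 ∈ C.S) (hlt : r2 < r1)
    (hp1 : C.p ∣ F r1) (hp2 : C.p ∣ F r2)
    (t1q : C.Q.factorization r1 = 1) (t1c : C.c.factorization r1 = 1)
    (t2q : C.Q.factorization r2 = 0) (t2c : C.c.factorization r2 = 2) : False := by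
  have hp := C.hp
  have hr1 := C.hSp r1 h1
  have hr2 := C.hSp r2 h2
  have hpr1 : C.p ≠ r1 := by rintro h; exact C.hpS (h ▸ h1)
  have hpr2 : C.p ≠ r2 := by rintro h; exact C.hpS (h ▸ h2)
  have hpb := h.p_big
  have hlp := h.lp
  have hlq := h.lq
  have hl2 := l2pos
  have vq1 := C.vq1
  have vq2 := C.vq2
  have hv0 := log_nonneg' C.v
  have hE0 := log_nonneg' C.E
  have hr1ge := payer_ge hp1 hpb
  have hr2ge := payer_ge hp2 hpb
  have hle1 := two_roots_le hp hp1 hp2 hlt
  have L1 : Real.log C.p ≤ Real.log r1 + 2 * Real.log 2 := big_log hle1 (by omega) hp.pos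
  have L2 : Real.log C.p ≤ 2 * Real.log r2 + Real.log 2 := pF hr2.two_le hp.pos hp2
  have hne : r1 ≠ r2 := by omega
  have cc := c2 hr1 hr2 hne t1c t2c
  norm_num at cc
  have hbad := h
  unfold Bad at hbad
  rcases mod12 hr1 (by omega) with m1 | m1
  swap
  · have := C.pH hr1.pos (C.payG_two h1 t1c m1)
    linarith
  rcases mod12 hr2 (by omega) with m2 | m2
  swap
  · have := C.pH2 hr2.pos (C.payK_two h2 t2c m2)
    linarith
  have h3p := two_roots_mod3 hp hp1 hp2 hlt C.hp3 m1 m2
  -- large cofactor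
  have hB := gks hp h.p100 C.hp3 C.hv C.hv3 hr1 hr2 hlt (by omega) m1 m2
    (C.dvd_q1 (C.dvdQ_one t1q)) hp1 hp2
  have LB : Real.log C.p ≤ Real.log C.v + Real.log r2 + 4 * Real.log 2 := by
    have hb : C.p ≤ 16 * C.v * r2 := by
      have := C.hv3
      calc C.p ≤ 3 * ((1 + C.v) * (1 + r2)) := hB
        _ ≤ 3 * ((2 * C.v) * (2 * r2)) := by gcongr <;> omega
        _ ≤ 16 * C.v * r2 := by nlinarith
    have h3 := log_le hp.pos hb
    push_cast at h3
    have := C.vpos
    have h4 : Real.log 16 = 4 * Real.log 2 := by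
      rw [show (16 : ℝ) = 2 ^ 4 by norm_num, Real.log_pow]; norm_num
    rw [Real.log_mul (by positivity) (by positivity), Real.log_mul (by norm_num) (by positivity),
      h4] at h3
    linarith
  -- payment of r1, common part
  have payr1 : Real.log r1 ≤ Real.log C.v ∨ Real.log r1 ≤ 4 * Real.log C.E + Real.log 2 ∨
      ∃ t ∈ C.S, r1 ∣ F t := by
    rcases C.payG h1 t1c with hV | hH | hS
    · exact Or.inl (C.pV hr1.pos hV)
    · exact Or.inr (Or.inl (C.pH hr1.pos hH))
    · exact Or.inr (Or.inr hS)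
  -- second subcase: r1 and s both pay r2
  have sub2 : ∀ s ∈ C.S, s ≠ r1 → r2 ∣ F r1 → r2 ∣ F s → False := by
    intro s hs hsr1 hF1 hFs
    have hsp := C.hSp s hs
    have hsr2 : s ≠ r2 := by rintro rfl; exact self_not_dvd_F hr2.two_le hFs
    have Ls := pF hsp.two_le hr2.pos hFs
    have Lr1 := pF2 hr1.two_le hp.pos hr2.pos (mul_dvd2 hp hr2 hpr2 hp1 hF1)
    rcases C.typ hs with ⟨sq, sc⟩ | ⟨sq, sc⟩ | ⟨sq, sc⟩
    · have cc := c3 hr1 hr2 hsp hne (Ne.symm hsr1) (Ne.symm hsr2) t1c t2c sc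
      norm_num at cc
      linarith
    · have cc := c3 hr1 hr2 hsp hne (Ne.symm hsr1) (Ne.symm hsr2) t1c t2c sc
      norm_num at cc
      rcases payr1 with hV | hH | ⟨t, ht, htF⟩
      · linarith
      · linarith
      have htp := C.hSp t ht
      have htr1 : t ≠ r1 := by rintro rfl; exact self_not_dvd_F hr1.two_le htF
      have Lt := pF htp.two_le hr1.pos htF
      rcases C.typ ht with ⟨uq, uc⟩ | ⟨uq, uc⟩ | ⟨uq, uc⟩
      · by_cases htr2 : t = r2
        · subst htr2
          have := triple hp hlt hr2.pos htF hF1 hp1 hp2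
          omega
        · have hts : t ≠ s := by rintro rfl; omega
          have cc := c4 hr1 hr2 hsp htp hne (Ne.symm hsr1) (Ne.symm htr1) (Ne.symm hsr2)
            (Ne.symm htr2) (Ne.symm hts) t1c t2c sc uc
          norm_num at cc
          linarith
      · by_cases hts : t = s
        · subst hts
          have := pF2 hsp.two_le hr1.pos hr2.pos (mul_dvd2 hr1 hr2 hne htF hFs)
          linarith
        · have htr2 : t ≠ r2 := by rintro rfl; omega
          have cc := c4 hr1 hr2 hsp htp hne (Ne.symm hsr1) (Ne.symm htr1) (Ne.symm hsr2)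
            (Ne.symm htr2) (Ne.symm hts) t1c t2c sc uc
          norm_num at cc
          linarith
      · exact C.constB htF htp.one_lt.le (dvdQ_gh hr1 htp (Ne.symm htr1) t1q uq) h3p
    · -- s is h-type
      have qq := q2 hr1 hsp (Ne.symm hsr1) t1q sq
      norm_num at qq
      rcases payr1 with hV | hH | ⟨t, ht, htF⟩
      · linarith
      · linarith
      have htp := C.hSp t ht
      have htr1 : t ≠ r1 := by rintro rfl; exact self_not_dvd_F hr1.two_le htF
      have Lt := pF htp.two_le hr1.pos htF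
      rcases C.typ ht with ⟨uq, uc⟩ | ⟨uq, uc⟩ | ⟨uq, uc⟩
      · by_cases htr2 : t = r2
        · subst htr2
          exact C.constC (mul_dvd2 hp hr1 hpr1 hp2 htF) hlt hFs hsp.one_lt.le
            (dvdQ_gh hr1 hsp (Ne.symm hsr1) t1q sq)
        · have cc := c3 hr1 hr2 htp hne (Ne.symm htr1) (Ne.symm htr2) t1c t2c uc
          norm_num at cc
          linarith
      · have hts : t ≠ s := by rintro rfl; omega
        have qq := q3 hr1 htp hsp (Ne.symm htr1) (Ne.symm hsr1) hts t1q uq sq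
        norm_num at qq
        linarith
      · exact C.constB htF htp.one_lt.le (dvdQ_gh hr1 htp (Ne.symm htr1) t1q uq) h3p
  -- third subcase: a big payer t ≠ r1 of r2
  have sub3 : ∀ t ∈ C.S, t ≠ r1 → r2 ∣ F t → r2 ≤ 2 * t + 1 → False := by
    intro t ht htr1 htF htb
    have htp := C.hSp t ht
    have htr2 : t ≠ r2 := by rintro rfl; exact self_not_dvd_F hr2.two_le htF
    have Lt : Real.log r2 ≤ Real.log t + 2 * Real.log 2 := big_log htb htp.one_lt.le hr2.pos
    rcases C.typ ht with ⟨uq, uc⟩ | ⟨uq, uc⟩ | ⟨uq, uc⟩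
    · have cc := c3 hr1 hr2 htp hne (Ne.symm htr1) (Ne.symm htr2) t1c t2c uc
      norm_num at cc
      linarith
    · have cc := c3 hr1 hr2 htp hne (Ne.symm htr1) (Ne.symm htr2) t1c t2c uc
      norm_num at cc
      linarith
    · have qq := q2 hr1 htp (Ne.symm htr1) t1q uq
      norm_num at qq
      linarith
  rcases C.payK h2 t2c with hV | hH | ⟨s, hs, hsF⟩ | ⟨t, ht, u, hu, hut, htF, huF⟩
  · have h5 : r2 ∣ F C.p := by rw [← C.hv]; exact Dvd.dvd.mul_right hV _
    have h6 := vr2 hr2.two_le hp2 h5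
    have h7 := log_le (pow_pos hp.pos 2) h6
    push_cast at h7
    have h8 := hr2.pos
    rw [Real.log_pow, Real.log_mul (by norm_num) (by positivity), Real.log_pow] at h7
    have h9 : Real.log 12 ≤ 4 * Real.log 2 := by
      rw [show (4 : ℝ) * Real.log 2 = Real.log (2 ^ 4) by rw [Real.log_pow]; norm_num]
      exact Real.log_le_log (by norm_num) (by norm_num)
    push_cast at h7
    have := C.pV hr2.pos hV
    linarith
  · have := C.pH hr2.pos hH
    linarith
  · -- single payer
    by_cases hsr1 : s = r1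
    · subst hsr1
      have Lr1 := pF21 hr1.two_le hr2.pos hp.pos (sq_mul_dvd hr2 hp (Ne.symm hpr2) hsF hp1)
      rcases payr1 with hV | hH | ⟨t, ht, htF⟩
      · linarith
      · linarith
      have htp := C.hSp t ht
      have htr1 : t ≠ s := by rintro rfl; exact self_not_dvd_F hr1.two_le htF
      have Lt := pF htp.two_le hr1.pos htF
      rcases C.typ ht with ⟨uq, uc⟩ | ⟨uq, uc⟩ | ⟨uq, uc⟩
      · by_cases htr2 : t = r2
        · subst htr2
          have := pF2 hr2.two_le hp.pos hr1.pos (mul_dvd2 hp hr1 hpr1 hp2 htF)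
          linarith
        · have cc := c3 hr1 hr2 htp hne (Ne.symm htr1) (Ne.symm htr2) t1c t2c uc
          norm_num at cc
          linarith
      · have htr2 : t ≠ r2 := by rintro rfl; omega
        have cc := c3 hr1 hr2 htp hne (Ne.symm htr1) (Ne.symm htr2) t1c t2c uc
        norm_num at cc
        linarith
      · have qq := q2 hr1 htp (Ne.symm htr1) t1q uq
        norm_num at qq
        linarith
    · have h5 := Nat.le_of_dvd (F_pos s) hsF
      unfold F at h5
      refine sub3 s hs hsr1 (dvd_trans (dvd_pow_self r2 two_ne_zero) hsF) ?_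
      by_contra h6
      push Not at h6
      nlinarith
  · by_cases htr1 : t = r1
    · subst htr1
      exact sub2 u hu (by omega) htF huF
    · by_cases hur1 : u = r1
      · subst hur1
        exact sub2 t ht (by omega) huF htF
      · exact sub3 t ht htr1 htF (two_roots_le hr2 htF huF hut)

end Cfg

end Pool.Agent.Lib.MP_f02ea4_nt.Rad
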