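import Mathlib
import Pool.Agent.Lib.MP_f02ea4_nt.RadGK

set_option autoImplicit false

namespace Pool.Agent.Lib.MP_f02ea4_nt.Rad

open Finset

namespace Cfg

variable {C : Cfg}

/-- The path argument: chains of `g`-type payers starting from `s`. -/
lemma path (h : C.Bad) {r s : ℕ} (hrS : r ∈ C.S) (rq : C.Q.factorization r = 0)
    (rc : C.c.factorization r = 2)
    (hp1 : C.p ^ 2 ∣ F r) (hrs : r ^ 2 ∣ F s) :
    ∀ n : ℕ, ∀ Z : Finset ℕ, Z ⊆ C.S →
      (∀ w ∈ Z, C.Q.factorization w = 1 ∧ C.c.factorization w = 1) → s ∈ Z →
      ∀ z ∈ Z, (C.S \ Z).card ≤ n → (∏ w ∈ Z.erase z, w) ∣ ∏ w ∈ Z.erase s, F w → False := by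
  have hp := C.hp
  have hr := C.hSp r hrS
  have hpr : C.p ≠ r := by rintro h; exact C.hpS (h ▸ hrS)
  have hpb := h.p_big
  have hlp := h.lp
  have hlq := h.lq
  have hl2 := l2pos
  have vq1 := C.vq1
  have vq2 := C.vq2
  have hv0 := log_nonneg' C.v
  have hE0 := log_nonneg' C.E
  have hx3 := C.x3 hp1
  have hbad := h
  unfold Bad at hbad
  have Lrp : Real.log C.p ≤ Real.log r := log_le hp.pos (by have := C.p7; omega)
  intro n
  induction n with
  | zero =>
    intro Z hZ hZt hsZ z hz hcard hdvd
    -- same as the successor case but no new element is available; handled by the general lemma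
    have hempty : C.S \ Z = ∅ := by simpa using hcard
    have hSZ : C.S ⊆ Z := Finset.sdiff_eq_empty_iff_subset.1 hempty
    have := (hZt r (hSZ hrS)).1
    omega
  | succ n ih =>
    intro Z hZ hZt hsZ z hz hcard hdvd
    have hsS := hZ hsZ
    have hsp := C.hSp s hsS
    have hzS := hZ hz
    have hzp := C.hSp z hzS
    obtain ⟨sq, sc⟩ := hZt s hsZ
    obtain ⟨zq, zc⟩ := hZt z hz
    have hrZ : r ∉ Z := by
      intro hr'
      have := (hZt r hr').1
      omega
    -- sizes
    have hrs1 : r ≤ s + 1 := by
      have h5 := Nat.le_of_dvd (F_pos s) hrs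
      unfold F at h5
      by_contra h6
      push Not at h6
      nlinarith
    have Lrs : 2 * Real.log r ≤ 2 * Real.log s + Real.log 2 := pF2s hsp.two_le hr.pos hrs
    set P := ∏ w ∈ Z, w with hP
    have hPpos : 0 < P := Finset.prod_pos (fun w hw => (C.hSp w (hZ hw)).pos)
    have hPz : z * ∏ w ∈ Z.erase z, w = P := Finset.mul_prod_erase Z (fun w => w) hz
    have hPs : s * ∏ w ∈ Z.erase s, w = P := Finset.mul_prod_erase Z (fun w => w) hsZ
    have habs : ∏ w ∈ Z.erase s, F w ≤ 2 * (∏ w ∈ Z.erase s, w) ^ 2 := by
      have := C.hab (Z.erase s) ((Finset.erase_subset _ _).trans hZ)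
      rwa [Finset.prod_pow] at this
    have hFpos : 0 < ∏ w ∈ Z.erase s, F w := Finset.prod_pos (fun w _ => F_pos w)
    have key : s ^ 2 ≤ 2 * z * P := by
      have h5 := (Nat.le_of_dvd hFpos hdvd).trans habs
      have h6 : P * s ^ 2 ≤ P * (2 * z * P) := by
        calc P * s ^ 2 = z * (∏ w ∈ Z.erase z, w) * s ^ 2 := by rw [hPz]
          _ ≤ z * (2 * (∏ w ∈ Z.erase s, w) ^ 2) * s ^ 2 := by gcongr
          _ = 2 * z * (s * ∏ w ∈ Z.erase s, w) ^ 2 := by ring
          _ = P * (2 * z * P) := by rw [hPs]; ring
      exact Nat.le_of_mul_le_mul_left h6 hPpos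
    have hlogP : Real.log P = ∑ w ∈ Z, Real.log w := by
      rw [hP]
      push_cast
      exact Real.log_prod (fun w hw => by
        have := (C.hSp w (hZ hw)).pos
        positivity)
    have Lkey : 2 * Real.log s ≤ Real.log 2 + Real.log z + Real.log P := by
      have h5 := log_le (pow_pos hsp.pos 2) key
      push_cast at h5
      have := hzp.pos
      rw [Real.log_pow, Real.log_mul (by positivity) (by positivity),
        Real.log_mul (by norm_num) (by positivity)] at h5
      push_cast at h5
      exact h5
    -- sum for `c`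
    have hcZ : 2 * Real.log r + Real.log P ≤ Real.log C.c := by
      have h5 := fsum C.hc.ne' (insert r Z) (by
        intro w hw
        rcases Finset.mem_insert.1 hw with rfl | hw
        · exact hr
        · exact C.hSp w (hZ hw))
      rw [Finset.sum_insert hrZ, rc] at h5
      have h6 : ∑ w ∈ Z, (C.c.factorization w : ℝ) * Real.log w = ∑ w ∈ Z, Real.log w := by
        apply Finset.sum_congr rfl
        intro w hw
        rw [(hZt w hw).2]
        norm_num
      rw [h6, ← hlogP] at h5
      push_cast at h5
      exact h5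
    rcases C.payG hzS zc with hV | hH | ⟨w, hw, hwF⟩
    · have := C.pV hzp.pos hV
      linarith
    · have := C.pH hzp.pos hH
      linarith [log_nonneg' z]
    have hwp := C.hSp w hw
    have hwz : w ≠ z := by rintro rfl; exact self_not_dvd_F hzp.two_le hwF
    have Lw := pF hwp.two_le hzp.pos hwF
    rcases C.typ hw with ⟨wq, wc⟩ | ⟨wq, wc⟩ | ⟨wq, wc⟩
    · -- k-type
      by_cases hwr : w = r
      · subst hwr
        have hpz : C.p ≠ z := by rintro h; exact C.hpS (h ▸ hzS)
        have := pF21 hwp.two_le hp.pos hzp.pos (sq_mul_dvd hp hzp hpz hp1 hwF)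
        linarith
      · have hwZ : w ∉ Z := by
          intro hw'
          have := (hZt w hw').1
          omega
        have h5 := fsum C.hc.ne' (insert w (insert r Z)) (by
          intro x hx
          rcases Finset.mem_insert.1 hx with rfl | hx
          · exact hwp
          · rcases Finset.mem_insert.1 hx with rfl | hx
            · exact hr
            · exact C.hSp x (hZ hx))
        rw [Finset.sum_insert (by simp [hwr, hwZ]), Finset.sum_insert hrZ, rc, wc] at h5
        have h6 : ∑ w ∈ Z, (C.c.factorization w : ℝ) * Real.log w = ∑ w ∈ Z, Real.log w := by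
          apply Finset.sum_congr rfl
          intro w hw
          rw [(hZt w hw).2]
          norm_num
        rw [h6, ← hlogP] at h5
        push_cast at h5
        linarith
    · -- g-type
      by_cases hwZ : w ∈ Z
      · by_cases hws : w = s
        · subst hws
          have hrz : r ≠ z := by rintro rfl; exact hrZ hz
          have := pF21 hwp.two_le hr.pos hzp.pos (sq_mul_dvd hr hzp hrz hrs hwF)
          linarith
        · -- w in the path, w ≠ s : closes up
          have hz2 : z ∣ ∏ w ∈ Z.erase s, F w :=
            dvd_trans hwF (Finset.dvd_prod_of_mem F (Finset.mem_erase.2 ⟨hws, hwZ⟩))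
          have hco : Nat.Coprime z (∏ w ∈ Z.erase z, w) := by
            apply Nat.Coprime.prod_right
            intro i hi
            have hi' := Finset.mem_erase.1 hi
            exact (Nat.coprime_primes hzp (C.hSp i (hZ hi'.2))).2 (Ne.symm hi'.1)
          have h5 : P ∣ ∏ w ∈ Z.erase s, F w := by
            rw [← hPz]
            exact Nat.Coprime.mul_dvd_of_dvd_of_dvd hco hz2 hdvd
          have h6 := (Nat.le_of_dvd hFpos h5).trans habs
          have h7 : s ^ 2 ≤ 2 * P := by
            have h8 : P * s ^ 2 ≤ P * (2 * P) := by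
              calc P * s ^ 2 ≤ (2 * (∏ w ∈ Z.erase s, w) ^ 2) * s ^ 2 := by gcongr
                _ = 2 * (s * ∏ w ∈ Z.erase s, w) ^ 2 := by ring
                _ = P * (2 * P) := by rw [hPs]; ring
            exact Nat.le_of_mul_le_mul_left h8 hPpos
          have h8 := log_le (pow_pos hsp.pos 2) h7
          push_cast at h8
          rw [Real.log_pow, Real.log_mul (by norm_num) (by positivity)] at h8
          push_cast at h8
          linarith
      · -- new element of the path
        have hws : w ≠ s := by rintro rfl; exact hwZ hsZ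
        refine ih (insert w Z) ?_ ?_ (Finset.mem_insert_of_mem hsZ) w (Finset.mem_insert_self _ _)
          ?_ ?_
        · intro x hx
          rcases Finset.mem_insert.1 hx with rfl | hx
          · exact hw
          · exact hZ hx
        · intro x hx
          rcases Finset.mem_insert.1 hx with rfl | hx
          · exact ⟨wq, wc⟩
          · exact hZt x hx
        · have h5 : (C.S \ insert w Z) = (C.S \ Z).erase w := by
            ext x
            simp only [Finset.mem_sdiff, Finset.mem_insert, Finset.mem_erase]
            tauto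
          rw [h5, Finset.card_erase_of_mem (Finset.mem_sdiff.2 ⟨hw, hwZ⟩)]
          omega
        · rw [Finset.erase_insert hwZ, Finset.erase_insert_of_ne hws,
            Finset.prod_insert (by simp [hwZ])]
          change P ∣ _
          rw [← hPz]
          exact Nat.mul_dvd_mul hwF hdvd
    · -- h-type
      have hwZ : w ∉ Z := by
        intro hw'
        have := (hZt w hw').1
        omega
      -- P * w^2 ∣ Q
      have h5 : P * w ^ 2 ∣ C.Q := by
        apply Nat.Coprime.mul_dvd_of_dvd_of_dvd
        · apply Nat.Coprime.pow_right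
          apply Nat.Coprime.symm
          apply Nat.Coprime.prod_right
          intro i hi
          exact (Nat.coprime_primes hwp (C.hSp i (hZ hi))).2 (by rintro rfl; exact hwZ hi)
        · apply Finset.prod_dvd_of_isRelPrime
          · intro a ha b hb hab
            exact Nat.coprime_iff_isRelPrime.1
              ((Nat.coprime_primes (C.hSp a (hZ ha)) (C.hSp b (hZ hb))).2 hab)
          · intro i hi
            exact C.dvdQ_one (hZt i hi).1
        · exact C.dvdQ_sq wq hwp
      have h6 := Nat.le_of_dvd C.Qpos h5
      have h7 := C.Qsmall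
      have h8 := (Nat.le_of_dvd (F_pos w) hwF).trans (F_le w hwp.two_le)
      have h9 : 2 * z * P ≤ 4 * (P * w ^ 2) := by
        calc 2 * z * P ≤ 2 * (2 * w ^ 2) * P := by gcongr
          _ = 4 * (P * w ^ 2) := by ring
      have h10 : s ^ 2 ≤ 4 * C.Q := by omega
      have h11 : 3 * C.p ≤ 2 * s + 3 := by omega
      have h12 := h.p100
      nlinarith

lemma case_b (h : C.Bad) {r : ℕ} (h1 : r ∈ C.S) (hp1 : C.p ^ 2 ∣ F r)
    (rq : C.Q.factorization r = 0) (rc : C.c.factorization r = 2) : False := by
  have hp := C.hp
  have hr := C.hSp r h1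
  have hpr : C.p ≠ r := by rintro h; exact C.hpS (h ▸ h1)
  have hpF : C.p ∣ F r := dvd_trans (dvd_pow_self _ two_ne_zero) hp1
  have hpb := h.p_big
  have hlp := h.lp
  have hlq := h.lq
  have hl2 := l2pos
  have vq1 := C.vq1
  have vq2 := C.vq2
  have hv0 := log_nonneg' C.v
  have hE0 := log_nonneg' C.E
  have hx3 := C.x3 hp1
  have hrbig : 20000 < r := by omega
  have Lrp : Real.log C.p ≤ Real.log r := log_le hp.pos (by have := C.p7; omega)
  have cc := c1 hr rc
  norm_num at cc
  have hbad := h
  unfold Bad at hbad
  rcases mod12 hr (by omega) with m1 | m1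
  swap
  · have := C.pH2 hr.pos (C.payK_two h1 rc m1)
    linarith
  rcases C.payK h1 rc with hV | hH | ⟨s, hs, hsF⟩ | ⟨t, ht, u, hu, hut, htF, huF⟩
  · have := C.pV hr.pos hV
    linarith
  · have := C.pH hr.pos hH
    linarith
  · -- single payer
    have hsp := C.hSp s hs
    have hsr : s ≠ r := by
      rintro rfl
      exact self_not_dvd_F hr.two_le (dvd_trans (dvd_pow_self s two_ne_zero) hsF)
    have hrs1 : r ≤ s + 1 := by
      have h5 := Nat.le_of_dvd (F_pos s) hsF
      unfold F at h5
      by_contra h6
      push Not at h6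
      nlinarith
    have Lrs : 2 * Real.log r ≤ 2 * Real.log s + Real.log 2 := pF2s hsp.two_le hr.pos hsF
    rcases C.typ hs with ⟨sq, sc⟩ | ⟨sq, sc⟩ | ⟨sq, sc⟩
    · have cc := c2 hr hsp (Ne.symm hsr) rc sc
      norm_num at cc
      linarith
    · refine path h h1 rq rc hp1 hsF _ {s} (by simpa using hs) ?_ (by simp) s (by simp) le_rfl ?_
      · intro w hw
        have : w = s := by simpa using hw
        subst this
        exact ⟨sq, sc⟩
      · simp
    · exact C.hbig (C.dvdQ_sq sq hsp) (by omega)
  · -- two payers
    have htp := C.hSp t ht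
    have hup := C.hSp u hu
    have htr : t ≠ r := by rintro rfl; exact self_not_dvd_F hr.two_le htF
    have hur : u ≠ r := by rintro rfl; exact self_not_dvd_F hr.two_le huF
    have hpt : C.p ≠ t := by rintro h; exact C.hpS (h ▸ ht)
    have htb := two_roots_le hr htF huF hut
    have Lt : Real.log r ≤ Real.log t + 2 * Real.log 2 := big_log htb htp.one_lt.le hr.pos
    have Lu := pF hup.two_le hr.pos huF
    rcases C.typ ht with ⟨tq, tc⟩ | ⟨tq, tc⟩ | ⟨tq, tc⟩
    · have cc := c2 hr htp (Ne.symm htr) rc tc
      norm_num at cc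
      linarith
    swap
    · exact C.hbig (C.dvdQ_sq tq htp) (by omega)
    have cc := c2 hr htp (Ne.symm htr) rc tc
    norm_num at cc
    rcases C.typ hu with ⟨uq, uc⟩ | ⟨uq, uc⟩ | ⟨uq, uc⟩
    · have cc := c3 hr htp hup (Ne.symm htr) (Ne.symm hur) (by omega) rc tc uc
      norm_num at cc
      linarith
    swap
    · exact C.constF huF hup.one_lt.le (dvdQ_gh htp hup (by omega) tq uq) hx3 htb
    have cc := c3 hr htp hup (Ne.symm htr) (Ne.symm hur) (by omega) rc tc uc
    norm_num at cc
    -- second payer of t
    rcases C.payG ht tc with hV | hH | ⟨w, hw, hwF⟩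
    · have := C.pV htp.pos hV
      linarith
    · have := C.pH htp.pos hH
      linarith
    have hwp := C.hSp w hw
    have hwt : w ≠ t := by rintro rfl; exact self_not_dvd_F htp.two_le hwF
    have Lw := pF hwp.two_le htp.pos hwF
    rcases C.typ hw with ⟨wq, wc⟩ | ⟨wq, wc⟩ | ⟨wq, wc⟩
    · by_cases hwr : w = r
      · subst hwr
        have := pF21 hwp.two_le hp.pos htp.pos (sq_mul_dvd hp htp hpt hp1 hwF)
        linarith
      · have cc := c3 hr htp hwp (Ne.symm htr) (Ne.symm hwr) (Ne.symm hwt) rc tc wc
        norm_num at cc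
        linarith
    · by_cases hwu : w = u
      · subst hwu
        have := pF2 hwp.two_le hr.pos htp.pos (mul_dvd2 hr htp (Ne.symm htr) huF hwF)
        linarith
      · have hwr : w ≠ r := by rintro rfl; omega
        have cc := c4 hr htp hup hwp (Ne.symm htr) (Ne.symm hur) (Ne.symm hwr) (by omega)
          (Ne.symm hwt) (Ne.symm hwu) rc tc uc wc
        norm_num at cc
        linarith
    · exact C.constG hwF hwp.one_lt.le (dvdQ_gh htp hwp (Ne.symm hwt) tq wq) (by omega) h.p100

end Cfg

end Pool.Agent.Lib.MP_f02ea4_nt.Rad
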