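import Mathlib
import Pool.Agent.Lib.MP_f02ea4_nt.RadGK

set_option autoImplicit false

namespace Pool.Agent.Lib.MP_f02ea4_nt.Rad

namespace Cfg

variable {C : Cfg}

lemma case_i (h : C.Bad) {r : ℕ} (h1 : r ∈ C.S) (hp1 : C.p ^ 2 ∣ F r)
    (rq : C.Q.factorization r = 1) (rc : C.c.factorization r = 1) : False := by
  have hp := C.hp
  have hr := C.hSp r h1
  have hpr : C.p ≠ r := by rintro h; exact C.hpS (h ▸ h1)
  have hpF : C.p ∣ F r := dvd_trans (dvd_pow_self _ two_ne_zero) hp1
  have hpb := h.p_big
  have hlp := h.lp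
  have hlq := h.lq
  have hl2 := l2pos
  have vq1 := C.vq1
  have vq2 := C.vq2
  have hv0 := log_nonneg' C.v
  have hE0 := log_nonneg' C.E
  have hrge := payer_ge hpF hpb
  have hx3 := C.x3 hp1
  have hrbig : 20000 < r := by omega
  have cc := c1 hr rc
  norm_num at cc
  have hbad := h
  unfold Bad at hbad
  -- the cofactor
  obtain ⟨x, hx⟩ := hp1
  have hx' : F r = x * C.p ^ 2 := by rw [hx]; ring
  have hx0 : 0 < x := by
    rcases Nat.eq_zero_or_pos x with h | h
    · rw [h] at hx; have := F_pos r; omega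
    · exact h
  have hn := n1g h.p100 C.hv (C.dvd_q1 (C.dvdQ_one rq)) hx' hx0
  have Lx : Real.log C.p ≤ Real.log x + Real.log C.v + 3 * Real.log 2 := by
    have hb : C.p ≤ 8 * x * C.v := by
      have := C.hv3
      calc C.p ≤ 4 * (x * (1 + C.v)) := hn
        _ ≤ 4 * (x * (2 * C.v)) := by gcongr; omega
        _ = 8 * x * C.v := by ring
    have h3 := log_le hp.pos hb
    push_cast at h3
    have := C.vpos
    have h4 : Real.log 8 = 3 * Real.log 2 := by
      rw [show (8 : ℝ) = 2 ^ 3 by norm_num, Real.log_pow]; norm_num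
    rw [Real.log_mul (by positivity) (by positivity), Real.log_mul (by norm_num) (by positivity),
      h4] at h3
    linarith
  have Lr : 2 * Real.log C.p + Real.log x ≤ 2 * Real.log r + Real.log 2 :=
    pF21 hr.two_le hp.pos hx0 (by rw [hx])
  rcases mod12 hr (by omega) with m1 | m1
  swap
  · have := C.pH hr.pos (C.payG_two h1 rc m1)
    linarith
  rcases C.payG h1 rc with hV | hH | ⟨u, hu, huF⟩
  · have := C.pV hr.pos hV
    linarith
  · have := C.pH hr.pos hH
    linarith
  have hup := C.hSp u hu
  have hur : u ≠ r := by rintro rfl; exact self_not_dvd_F hr.two_le huF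
  have hpu : C.p ≠ u := by rintro h; exact C.hpS (h ▸ hu)
  have Lu := pF hup.two_le hr.pos huF
  rcases C.typ hu with ⟨uq, uc⟩ | ⟨uq, uc⟩ | ⟨uq, uc⟩
  swap
  · have qq := q2 hr hup (Ne.symm hur) rq uq
    norm_num at qq
    linarith
  swap
  · have qq := q2 hr hup (Ne.symm hur) rq uq
    norm_num at qq
    linarith
  have cc := c2 hr hup (Ne.symm hur) rc uc
  norm_num at cc
  rcases mod12 hup (ne3 huF (by omega)) with m2 | m2
  swap
  · have := C.pH2 hup.pos (C.payK_two hu uc m2)
    linarith
  -- a payer `w ≠ r` of `u` of size at least about `u`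
  have sub : ∀ w ∈ C.S, w ≠ r → u ∣ F w → u ≤ 2 * w + 1 → False := by
    intro w hw hwr hwF hwb
    have hwp := C.hSp w hw
    have hwu : w ≠ u := by rintro rfl; exact self_not_dvd_F hup.two_le hwF
    have Lw : Real.log u ≤ Real.log w + 2 * Real.log 2 := big_log hwb hwp.one_lt.le hup.pos
    rcases C.typ hw with ⟨wq, wc⟩ | ⟨wq, wc⟩ | ⟨wq, wc⟩
    · have cc := c3 hr hup hwp (Ne.symm hur) (Ne.symm hwr) (Ne.symm hwu) rc uc wc
      norm_num at cc
      linarith
    · have qq := q2 hr hwp (Ne.symm hwr) rq wq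
      norm_num at qq
      linarith
    · have qq := q2 hr hwp (Ne.symm hwr) rq wq
      norm_num at qq
      linarith
  -- `r` pays `u`
  have subr : u ∣ F r → False := by
    intro hF
    have hm := mills (r + u) r u le_rfl hr.pos hup.pos huF hF
    have h5 : r ≤ 5 * u := by
      by_contra h6
      push Not at h6
      nlinarith
    have h6 : r ≤ 8 * u := by omega
    have h7 := log_le hr.pos h6
    push_cast at h7
    have := hup.pos
    have h4 : Real.log 8 = 3 * Real.log 2 := by
      rw [show (8 : ℝ) = 2 ^ 3 by norm_num, Real.log_pow]; norm_num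
    rw [Real.log_mul (by positivity) (by positivity), h4] at h7
    linarith
  rcases C.payK hu uc with hV | hH | ⟨w, hw, hwF⟩ | ⟨t, ht, w, hw, hwt, htF, hwF⟩
  · have := C.pV hup.pos hV
    linarith
  · have := C.pH hup.pos hH
    linarith
  · by_cases hwr : w = r
    · subst hwr
      refine C.constD (r := w) (u := u) ?_ huF (C.dvdQ_one rq) hup.one_lt.le (by omega)
      apply Nat.Coprime.mul_dvd_of_dvd_of_dvd
      · exact Nat.Coprime.pow 2 2 ((Nat.coprime_primes hp hup).2 hpu)
      · exact ⟨x, hx⟩
      · exact hwF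
    · have h5 := Nat.le_of_dvd (F_pos w) hwF
      unfold F at h5
      refine sub w hw hwr (dvd_trans (dvd_pow_self u two_ne_zero) hwF) ?_
      by_contra h6
      push Not at h6
      nlinarith
  · by_cases htr : t = r
    · subst htr
      exact subr htF
    · exact sub t ht htr htF (two_roots_le hup htF hwF hwt)

end Cfg

end Pool.Agent.Lib.MP_f02ea4_nt.Rad
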