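import Mathlib
import Pool.Agent.Lib.MP_f02ea4_nt.RadI
import Pool.Agent.Lib.MP_f02ea4_nt.RadB

set_option autoImplicit false

namespace Pool.Agent.Lib.MP_f02ea4_nt.Rad

open Finset

namespace Cfg

variable {C : Cfg}

lemma geom_le {r : ℕ} (hr : 2 ≤ r) (n : ℕ) : ∑ i ∈ range (n + 1), r ^ i ≤ 2 * r ^ n := by
  induction n with
  | zero => simp
  | succ n ih =>
    rw [Finset.sum_range_succ]
    have : 2 * r ^ n ≤ r ^ (n + 1) := by
      rw [pow_succ]
      nlinarith [pow_pos (by omega : 0 < r) n]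
    omega

lemma case_h1 (h : C.Bad) (hpH : C.p ∣ C.sH) {r : ℕ} (h1 : r ∈ C.S) (hpF : C.p ∣ F r) : False := by
  have hp := C.hp
  have hr := C.hSp r h1
  have hpr : C.p ≠ r := by rintro h; exact C.hpS (h ▸ h1)
  have hpb := h.p_big
  have hlp := h.lp
  have hlq := h.lq
  have hl2 := l2pos
  have vq1 := C.vq1
  have vq2 := C.vq2
  have hv0 := log_nonneg' C.v
  have hE0 := log_nonneg' C.E
  have hrge := payer_ge hpF hpb
  have LH := C.pH hp.pos hpH
  have Lr := pF hr.two_le hp.pos hpF
  have hbad := h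
  unfold Bad at hbad
  obtain ⟨r0, b, hr0, hb2, hfac, hr0S, hr0F, hr0E⟩ := C.hpH hpH
  have hr0r : r0 ≠ r := by rintro rfl; exact hr0S h1
  -- log facts on r0
  have L0 : Real.log C.p ≤ 2 * (b : ℝ) * Real.log r0 + Real.log 2 := by
    have h5 := (Nat.le_of_dvd (Finset.sum_pos (fun i _ => pow_pos hr0.pos i) ⟨0, by simp⟩)
      hr0F).trans (geom_le hr0.two_le _)
    have h6 := log_le hp.pos h5
    push_cast at h6
    have := hr0.pos
    rw [Real.log_mul (by norm_num) (by positivity), Real.log_pow] at h6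
    push_cast at h6
    linarith
  have LE : ((b : ℝ) - 1) * Real.log r0 ≤ Real.log C.E := by
    have h6 := log_le (pow_pos hr0.pos _) hr0E
    push_cast at h6
    rw [Real.log_pow, Nat.cast_sub (by omega)] at h6
    push_cast at h6
    exact h6
  have l0 := log_nonneg' r0
  rcases Nat.lt_or_ge b 3 with hb3 | hb3
  · -- b = 2
    have hb : b = 2 := by omega
    subst hb
    norm_num at L0 LE
    have hsum : ∑ i ∈ range (2 * 2 + 1), r0 ^ i = r0 ^ 4 + r0 ^ 3 + r0 ^ 2 + r0 + 1 := by
      simp only [Finset.sum_range_succ, Finset.sum_range_zero]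
      ring
    rw [hsum] at hr0F
    have hQ2 : C.Q.factorization r0 = 0 ∨ C.Q.factorization r0 = 1 ∨ 2 ≤ C.Q.factorization r0 := by
      omega
    rcases hQ2 with hq0 | hq0 | hq0
    · -- all of r0^4 in c
      have hc0 : C.c.factorization r0 = 4 := by omega
      rcases C.typ h1 with ⟨uq, uc⟩ | ⟨uq, uc⟩ | ⟨uq, uc⟩
      · have cc := c2 hr hr0 (Ne.symm hr0r) uc hc0
        norm_num at cc
        linarith
      · have := C.lgl hr hpF uq
        have cc := c2 hr hr0 (Ne.symm hr0r) uc hc0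
        norm_num at cc
        linarith
      · exact C.no_h hr hpF hpb uq
    · have hc0 : C.c.factorization r0 = 3 := by omega
      have hd : r0 ∣ C.q + 1 := C.dvd_q1 (C.dvdQ_one hq0)
      have h5 := four_one hp.two_le C.hv C.hv3 hr0.two_le hd hr0F
      have h6 := log_le C.hq.pos h5
      push_cast at h6
      have := hr0.pos
      have h4 : Real.log 16 = 4 * Real.log 2 := by
        rw [show (16 : ℝ) = 2 ^ 4 by norm_num, Real.log_pow]; norm_num
      rw [Real.log_mul (by norm_num) (by positivity), Real.log_pow, h4] at h6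
      push_cast at h6
      rcases C.typ h1 with ⟨uq, uc⟩ | ⟨uq, uc⟩ | ⟨uq, uc⟩
      · have cc := c2 hr hr0 (Ne.symm hr0r) uc hc0
        norm_num at cc
        linarith
      · have := C.lgl hr hpF uq
        have cc := c2 hr hr0 (Ne.symm hr0r) uc hc0
        norm_num at cc
        linarith
      · exact C.no_h hr hpF hpb uq
    · have hd : r0 ^ 2 ∣ C.q + 1 :=
        C.dvd_q1 ((hr0.pow_dvd_iff_le_factorization C.Qpos.ne').2 hq0)
      have h5 := four_sq hp.two_le C.hv C.hv3 hr0.two_le hd hr0F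
      have h6 := log_le C.hq.pos h5
      push_cast at h6
      have := hr0.pos
      have h4 : Real.log 171 ≤ 8 * Real.log 2 := by
        rw [show (8 : ℝ) * Real.log 2 = Real.log (2 ^ 8) by rw [Real.log_pow]; norm_num]
        exact Real.log_le_log (by norm_num) (by norm_num)
      rw [Real.log_mul (by norm_num) (by positivity), Real.log_pow] at h6
      push_cast at h6
      rcases C.typ h1 with ⟨uq, uc⟩ | ⟨uq, uc⟩ | ⟨uq, uc⟩
      · have cc := c1 hr uc
        norm_num at cc
        linarith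
      · have := C.lgl hr hpF uq
        have cc := c1 hr uc
        norm_num at cc
        linarith
      · exact C.no_h hr hpF hpb uq
  · -- b ≥ 3
    have hb' : (3 : ℝ) ≤ b := by exact_mod_cast hb3
    have L3 : Real.log C.p ≤ 3 * Real.log C.E + Real.log 2 := by nlinarith
    rcases C.typ h1 with ⟨uq, uc⟩ | ⟨uq, uc⟩ | ⟨uq, uc⟩
    · have cc := c1 hr uc
      norm_num at cc
      linarith
    · have := C.lgl hr hpF uq
      have cc := c1 hr uc
      norm_num at cc
      linarith
    · exact C.no_h hr hpF hpb uq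

theorem not_bad (C : Cfg) : ¬ C.Bad := by
  intro h
  have hp := C.hp
  have hpb := h.p_big
  rcases C.pay_p with hH | ⟨hH, r, hr, hrF⟩ | ⟨r, hr, hrF⟩ | ⟨r, hr, s, hs, hsr, hrF, hsF⟩
  · have h1 := C.pH2 hp.pos hH
    have vq1 := C.vq1
    have vq2 := C.vq2
    have hv0 := log_nonneg' C.v
    have hlq := h.lq
    have hl2 := l2pos
    have hc0 := log_nonneg' C.c
    have hbad := h
    unfold Bad at hbad
    linarith
  · exact case_h1 h hH hr hrF
  · rcases C.typ hr with ⟨uq, uc⟩ | ⟨uq, uc⟩ | ⟨uq, uc⟩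
    · exact case_b h hr hrF uq uc
    · exact case_i h hr hrF uq uc
    · exact C.no_h (C.hSp r hr) (dvd_trans (dvd_pow_self _ two_ne_zero) hrF) hpb uq
  · have hrp := C.hSp r hr
    have hsp := C.hSp s hs
    rcases C.typ hr with ⟨rq, rc⟩ | ⟨rq, rc⟩ | ⟨rq, rc⟩
    · rcases C.typ hs with ⟨sq, sc⟩ | ⟨sq, sc⟩ | ⟨sq, sc⟩
      · exact case_kk h hr hs hsr hrF hsF rc sq sc
      · exact case_kg h hr hs hsr hrF hsF rc sq sc
      · exact C.no_h hsp hsF hpb sq
    · rcases C.typ hs with ⟨sq, sc⟩ | ⟨sq, sc⟩ | ⟨sq, sc⟩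
      · exact case_gk h hr hs hsr hrF hsF rq rc sq sc
      · refine gg C.p7 ?_ C.hv C.hv3 hrp hsp hsr (C.hS3 s hs) hp ?_ (C.dvd_q1 (C.dvdQ_one rq))
          (C.dvd_q1 (C.dvdQ_one sq)) hrF hsF
        · rcases hp.eq_two_or_odd with h2 | h2
          · omega
          · exact h2
        · have := C.hq4; omega
      · exact C.no_h hsp hsF hpb sq
    · exact C.no_h hrp hrF hpb rq

end Cfg

end Pool.Agent.Lib.MP_f02ea4_nt.Rad
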