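import Mathlib
import Pool.Agent.Lib.MP_f02ea4_nt.RadH
import Pool.Agent.Lib.MP_f02ea4_nt.Mg.G002

set_option autoImplicit false

namespace Pool.Agent.Lib.MP_f02ea4_nt.Rad

open Finset

lemma geom_two {p : ℕ} (hp : 3 ≤ p) (n : ℕ) : 2 * (∑ i ∈ range n, p ^ i) + 1 ≤ p ^ n := by
  induction n with
  | zero => simp
  | succ n ih =>
    rw [Finset.sum_range_succ, pow_succ]
    nlinarith [pow_pos (by omega : 0 < p) n]

lemma sg_two (p : ℕ) : sg p 2 = F p := by
  unfold sg F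
  simp only [Finset.sum_range_succ, Finset.sum_range_zero]
  ring

lemma sg_one (q : ℕ) : sg q 1 = q + 1 := by
  unfold sg
  simp only [Finset.sum_range_succ, Finset.sum_range_zero]
  ring

/-- A bound of Acquaah and Konyagin type. -/
lemma AK {q p a v m Q : ℕ} (hp : p.Prime) (hp3 : 3 ≤ p) (hQ : q + 1 = 2 * Q)
    (hv : v * q = sg p (2 * a)) (hQm : Q ∣ m) (hpm : m.factorization p = 2 * a) (hm : m ≠ 0)
    (hQ0 : Q ≠ 0) : q ^ 2 ≤ 8 * m := by
  have hv0 : 0 < v := by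
    rcases Nat.eq_zero_or_pos v with h | h
    · rw [h] at hv; have := sg_pos p (2 * a); omega
    · exact h
  set i := Q.factorization p with hi
  have hi2 : i ≤ 2 * a := by
    rw [← hpm]
    exact (Nat.factorization_le_iff_dvd hQ0 hm).2 hQm p
  -- Q = p ^ i * Q'
  have hQ' : p ^ i * (Q / p ^ i) = Q := Nat.ordProj_mul_ordCompl_eq_self Q p
  set Q' := Q / p ^ i with hQ'def
  have hco : Nat.Coprime p Q' := Nat.coprime_ordCompl hp hQ0
  have hdvd : p ^ (2 * a) * Q' ∣ m := by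
    apply Nat.Coprime.mul_dvd_of_dvd_of_dvd
    · exact Nat.Coprime.pow_left _ hco
    · exact (hp.pow_dvd_iff_le_factorization hm).2 (by omega)
    · exact dvd_trans ⟨p ^ i, by rw [← hQ']; ring⟩ hQm
  have hle := Nat.le_of_dvd (Nat.pos_of_ne_zero hm) hdvd
  -- p ^ i ≤ 2 v
  have hpv : p ^ i ≤ 2 * v := by
    have h1 : p ^ i ∣ (∑ j ∈ range i, p ^ j) + v := by
      have h2 : p ^ i ∣ v * (q + 1) := by
        apply Dvd.dvd.mul_left
        rw [hQ, ← hQ']
        exact ⟨2 * Q', by ring⟩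
      have h3 : v * (q + 1) = sg p (2 * a) + v := by rw [← hv]; ring
      have h4 : sg p (2 * a) = (∑ j ∈ range i, p ^ j)
          + ∑ j ∈ range (2 * a + 1 - i), p ^ (i + j) := by
        unfold sg
        rw [← Finset.sum_range_add (fun j => p ^ j)]
        congr 2
        omega
      rw [h3, h4] at h2
      have h5 : p ^ i ∣ ∑ j ∈ range (2 * a + 1 - i), p ^ (i + j) := by
        apply Finset.dvd_sum
        intro j _
        rw [pow_add]
        exact Dvd.intro _ rfl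
      have h6 : (∑ j ∈ range i, p ^ j) + (∑ j ∈ range (2 * a + 1 - i), p ^ (i + j)) + v
          = (∑ j ∈ range (2 * a + 1 - i), p ^ (i + j)) + ((∑ j ∈ range i, p ^ j) + v) := by ring
      rw [h6] at h2
      exact (Nat.dvd_add_right h5).1 h2
    have h2 := Nat.le_of_dvd (by omega) h1
    have h3 := geom_two hp3 i
    omega
  have hgeo : v * q ≤ 2 * p ^ (2 * a) := by
    rw [hv]; exact Cfg.geom_le hp.two_le _
  have h1 : v * (q ^ 2 * p ^ i) ≤ v * (8 * (p ^ (2 * a) * Q') * p ^ i) := by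
    calc v * (q ^ 2 * p ^ i) ≤ v * (q ^ 2 * (2 * v)) := by gcongr
      _ = (v * q) * (2 * v) * q := by ring
      _ ≤ (2 * p ^ (2 * a)) * (2 * v) * (2 * Q) := by gcongr; omega
      _ = v * (8 * (p ^ (2 * a) * Q') * p ^ i) := by rw [← hQ']; ring
  have h2 : q ^ 2 * p ^ i ≤ 8 * (p ^ (2 * a) * Q') * p ^ i := Nat.le_of_mul_le_mul_left h1 hv0
  have h3 : q ^ 2 ≤ 8 * (p ^ (2 * a) * Q') := Nat.le_of_mul_le_mul_right h2 (pow_pos hp.pos i)
  omega

lemma three_dvd_F {p : ℕ} (h : p % 3 = 1) : 3 ∣ F p := by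
  unfold F
  obtain ⟨k, hk⟩ : ∃ k, p = 3 * k + 1 := ⟨p / 3, by omega⟩
  rw [hk]
  exact ⟨3 * k ^ 2 + 3 * k + 1, by ring⟩

/-- `q ∣ F p` implies `p ∤ q + 1` for odd `q` and `p ≥ 5`. -/
lemma p_ndvd {p q v : ℕ} (hp5 : 5 ≤ p) (hpo : p % 2 = 1) (hqo : q % 2 = 1) (hv : v * q = F p) :
    ¬ p ∣ q + 1 := by
  intro h
  have hv0 : 0 < v := by
    rcases Nat.eq_zero_or_pos v with h | h
    · rw [h] at hv; have := F_pos p; omega
    · exact h
  have h1 : p ∣ 1 + v := by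
    have h2 : p ∣ v * (q + 1) := Dvd.dvd.mul_left h v
    have h3 : v * (q + 1) = p * (p + 1) + (1 + v) := by
      have : v * (q + 1) = v * q + v := by ring
      rw [this, hv]; unfold F; ring
    rw [h3] at h2
    exact (Nat.dvd_add_right (Dvd.intro _ rfl)).1 h2
  have h2 := Nat.le_of_dvd (by omega) h1
  obtain ⟨j, hj⟩ := h
  have hj2 : 2 ≤ j := by
    by_contra h
    push Not at h
    interval_cases j <;> omega
  have h3 : p * 2 ≤ q + 1 := by rw [hj]; exact Nat.mul_le_mul_left _ hj2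
  unfold F at hv
  have h4 : (p - 1) * (2 * p - 1) ≤ v * q := Nat.mul_le_mul (by omega) (by omega)
  obtain ⟨b, rfl⟩ : ∃ b, p = b + 5 := ⟨p - 5, by omega⟩
  have e1 : b + 5 - 1 = b + 4 := by omega
  have e2 : 2 * (b + 5) - 1 = 2 * b + 9 := by omega
  rw [e1, e2] at h4
  nlinarith

/-- exponents form of the final inequality -/
lemma final_ineq {N q A B E k : ℕ} (hN : N = q * (A * B * E) ^ 2)
    (h : q ^ 4 ≤ 2 ^ (2 * k) * (A * B * E) ^ 2 * E ^ 10) :
    (q * A * B) ^ 5 ≤ 2 ^ k * N ^ 3 := by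
  have h1 : (q ^ 2) ^ 2 ≤ (2 ^ k * (A * B * E) * E ^ 5) ^ 2 := by
    calc (q ^ 2) ^ 2 = q ^ 4 := by ring
      _ ≤ _ := h
      _ = _ := by ring
  have h2 : q ^ 2 ≤ 2 ^ k * (A * B * E) * E ^ 5 := by
    by_contra h3
    push Not at h3
    have := Nat.pow_lt_pow_left h3 (two_ne_zero)
    omega
  calc (q * A * B) ^ 5 = q ^ 3 * A ^ 5 * B ^ 5 * q ^ 2 := by ring
    _ ≤ q ^ 3 * A ^ 5 * B ^ 5 * (2 ^ k * (A * B * E) * E ^ 5) := Nat.mul_le_mul_left _ h2
    _ = 2 ^ k * N ^ 3 := by rw [hN]; ring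

end Pool.Agent.Lib.MP_f02ea4_nt.Rad
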