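import Mathlib
import Pool.Agent.Lib.MP_f02ea4_nt.RadMain

set_option autoImplicit false

namespace Pool.Agent.Lib.MP_f02ea4_nt.Rad

open Finset

/-- From the logarithmic bound to natural numbers. -/
lemma Cfg.bound (C : Cfg) : C.q ^ 4 ≤ 2 ^ 98 * (C.p ^ 2 * (C.Q * C.c)) * C.E ^ 10 := by
  have h := C.not_bad
  unfold Cfg.Bad at h
  push Not at h
  have hc := C.hc
  have hv := C.vpos
  have hE := C.hE
  have hq := C.hq.pos
  -- q^2 ≤ 2^200 c v E^10
  have h1 : C.q ^ 2 ≤ 2 ^ 96 * (C.c * C.v * C.E ^ 10) := by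
    have h2 : Real.log ((C.q ^ 2 : ℕ) : ℝ) ≤ Real.log ((2 ^ 96 * (C.c * C.v * C.E ^ 10) : ℕ) : ℝ) := by
      simp only [Nat.cast_mul, Nat.cast_pow, Nat.cast_ofNat]
      rw [Real.log_pow, Real.log_mul (by positivity) (by positivity), Real.log_pow,
        Real.log_mul (by positivity) (by positivity), Real.log_mul (by positivity) (by positivity),
        Real.log_pow]
      simp only [Nat.cast_ofNat]
      linarith
    have h3 : (0 : ℝ) < ((C.q ^ 2 : ℕ) : ℝ) := by positivity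
    have h4 : (0 : ℝ) < ((2 ^ 96 * (C.c * C.v * C.E ^ 10) : ℕ) : ℝ) := by positivity
    exact_mod_cast (Real.log_le_log_iff h3 h4).1 h2
  -- v q ≤ 2 p^2, q ≤ 2 Q
  have h2 : C.v * C.q ≤ 2 * C.p ^ 2 := by
    rw [C.hv]; exact F_le _ C.hp.two_le
  have h3 : C.q ≤ 2 * C.Q := by have := C.hQ; omega
  calc C.q ^ 4 = C.q ^ 2 * C.q ^ 2 := by ring
    _ ≤ (2 ^ 96 * (C.c * C.v * C.E ^ 10)) * C.q ^ 2 := Nat.mul_le_mul_right _ h1
    _ = 2 ^ 96 * C.c * C.E ^ 10 * ((C.v * C.q) * C.q) := by ring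
    _ ≤ 2 ^ 96 * C.c * C.E ^ 10 * ((2 * C.p ^ 2) * (2 * C.Q)) := by gcongr
    _ = 2 ^ 98 * (C.p ^ 2 * (C.Q * C.c)) * C.E ^ 10 := by ring

theorem main {N : ℕ} (ho : Odd N) (hN : N.Perfect) :
    (∏ p ∈ N.primeFactors, p) ^ 5 ≤ 2 ^ 49 * N ^ 3 := by
  obtain ⟨q, hqP, hq4, hf4, hfe⟩ := euler ho hN
  have hN0 : N ≠ 0 := hN.2.ne'
  have hNpos : 0 < N := hN.2
  set f := N.factorization with hf
  have hprime : ∀ p ∈ N.primeFactors, p.Prime := fun p hp => Nat.prime_of_mem_primeFactors hp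
  have hqp : q.Prime := hprime q hqP
  have hf0 : ∀ p ∈ N.primeFactors, f p ≠ 0 := by
    intro p hp
    have := (hprime p hp).factorization_pos_of_dvd hN0 (Nat.dvd_of_mem_primeFactors hp)
    rw [hf]
    omega
  have hodd : ∀ p ∈ N.primeFactors, p % 2 = 1 := by
    intro p hp
    have h1 := Nat.dvd_of_mem_primeFactors hp
    rcases (hprime p hp).eq_two_or_odd with h | h
    · rw [h] at h1
      have := Nat.odd_iff.1 ho
      omega
    · exact h
  have hfac : ∏ p ∈ N.primeFactors, p ^ f p = N := Nat.prod_factorization_pow_eq_self hN0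
  have heq := perfect_eq hN
  rw [← hf] at heq
  by_cases hf1 : f q = 1
  swap
  · -- all exponents at least two
    have h2 : ∀ p ∈ N.primeFactors, 2 ≤ f p := by
      intro p hp
      by_cases hpq : p = q
      · subst hpq; omega
      · have := hfe p hp hpq
        have := hf0 p hp
        omega
    have h3 : (∏ p ∈ N.primeFactors, p) ^ 2 ≤ N := by
      rw [← Finset.prod_pow]
      calc ∏ p ∈ N.primeFactors, p ^ 2 ≤ ∏ p ∈ N.primeFactors, p ^ f p :=
            Finset.prod_le_prod' (fun p hp => Nat.pow_le_pow_right (hprime p hp).pos (h2 p hp))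
        _ = N := hfac
    set R := ∏ p ∈ N.primeFactors, p with hR
    have hR1 : R ≤ N := by
      have h4 : 0 < R := Finset.prod_pos (fun p hp => (hprime p hp).pos)
      nlinarith
    calc R ^ 5 = R ^ 2 * R ^ 2 * R := by ring
      _ ≤ N * N * N := by gcongr
      _ = N ^ 3 := by ring
      _ ≤ 2 ^ 49 * N ^ 3 := Nat.le_mul_of_pos_left _ (by positivity)
  -- the exponent of `q` is one
  set P' := N.primeFactors.erase q with hP'
  set S1 := P'.filter (fun p => f p = 2) with hS1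
  set H := P'.filter (fun p => ¬ f p = 2) with hH
  have hP'sub : P' ⊆ N.primeFactors := Finset.erase_subset _ _
  have hS1sub : S1 ⊆ N.primeFactors := (Finset.filter_subset _ _).trans hP'sub
  have hHsub : H ⊆ N.primeFactors := (Finset.filter_subset _ _).trans hP'sub
  have hS1f : ∀ p ∈ S1, f p = 2 := fun p hp => (Finset.mem_filter.1 hp).2
  have hqS1 : ∀ p ∈ S1, p ≠ q := fun p hp => (Finset.mem_erase.1 (Finset.mem_filter.1 hp).1).1
  have hqH : ∀ p ∈ H, p ≠ q := fun p hp => (Finset.mem_erase.1 (Finset.mem_filter.1 hp).1).1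
  have hHf : ∀ p ∈ H, ∃ b, 2 ≤ b ∧ f p = 2 * b := by
    intro p hp
    have h1 := (Finset.mem_filter.1 hp).2
    have h2 := hfe p (hHsub hp) (hqH p hp)
    have h3 := hf0 p (hHsub hp)
    exact ⟨f p / 2, by omega, by omega⟩
  have hdisj : Disjoint S1 H := Finset.disjoint_filter_filter_not _ _ _
  have splitP : ∀ g : ℕ → ℕ, ∏ p ∈ N.primeFactors, g p = g q * ((∏ p ∈ S1, g p) * ∏ p ∈ H, g p) := by
    intro g
    rw [← Finset.mul_prod_erase _ g hqP, ← hP', hS1, hH, Finset.prod_filter_mul_prod_filter_not]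
  set A := ∏ p ∈ S1, p with hA
  set B := ∏ p ∈ H, p with hB
  set W := ∏ p ∈ H, p ^ f p with hW
  set E := ∏ p ∈ H, p ^ (f p / 2 - 1) with hE
  set sH := ∏ p ∈ H, sg p (f p) with hsH
  have hApos : 0 < A := Finset.prod_pos (fun p hp => (hprime p (hS1sub hp)).pos)
  have hBpos : 0 < B := Finset.prod_pos (fun p hp => (hprime p (hHsub hp)).pos)
  have hWpos : 0 < W := Finset.prod_pos (fun p hp => pow_pos (hprime p (hHsub hp)).pos _)
  have hEpos : 0 < E := Finset.prod_pos (fun p hp => pow_pos (hprime p (hHsub hp)).pos _)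
  have hsHpos : 0 < sH := Finset.prod_pos (fun p _ => sg_pos _ _)
  have hWBE : W = (B * E) ^ 2 := by
    rw [hW, hB, hE, ← Finset.prod_mul_distrib, ← Finset.prod_pow]
    apply Finset.prod_congr rfl
    intro p hp
    obtain ⟨b, hb2, hb⟩ := hHf p hp
    rw [hb]
    obtain ⟨c, rfl⟩ : ∃ c, b = c + 1 := ⟨b - 1, by omega⟩
    have : 2 * (c + 1) / 2 - 1 = c := by omega
    rw [this]; ring
  have hWE : W ≤ E ^ 4 := by
    rw [hW, hE, ← Finset.prod_pow]
    apply Finset.prod_le_prod'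
    intro p hp
    obtain ⟨b, hb2, hb⟩ := hHf p hp
    rw [hb, ← pow_mul]
    apply Nat.pow_le_pow_right (hprime p (hHsub hp)).pos
    omega
  have hradeq : ∏ p ∈ N.primeFactors, p = q * A * B := by
    rw [splitP (fun p => p)]; ring
  have hS1sq : ∏ p ∈ S1, p ^ f p = A ^ 2 := by
    rw [hA, ← Finset.prod_pow]
    exact Finset.prod_congr rfl (fun p hp => by rw [hS1f p hp])
  have hNeq : N = q * (A ^ 2 * W) := by
    have h1 := splitP (fun p => p ^ f p)
    rw [hfac, hf1, hS1sq] at h1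
    rw [h1]; ring
  have hS1F : ∏ p ∈ S1, sg p (f p) = ∏ p ∈ S1, F p :=
    Finset.prod_congr rfl (fun p hp => by rw [hS1f p hp, sg_two])
  obtain ⟨Q, hQ⟩ : ∃ Q, q + 1 = 2 * Q := ⟨(q + 1) / 2, by omega⟩
  have hQ0 : Q ≠ 0 := by omega
  have hmain : Q * ((∏ p ∈ S1, F p) * sH) = q * (A ^ 2 * W) := by
    have h1 := splitP (fun p => sg p (f p))
    rw [heq, hf1, hS1F, sg_one, hQ] at h1
    have h2 : 2 * (Q * ((∏ p ∈ S1, F p) * sH)) = 2 * (q * (A ^ 2 * W)) := by
      rw [← hNeq, h1]; ring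
    omega
  have hqQ : ¬ q ∣ Q := by
    intro h
    have := Nat.le_of_dvd (by omega) h
    have := hqp.two_le
    omega
  set m := A ^ 2 * W with hm
  have hm0 : m ≠ 0 := by positivity
  have hQm : Q ∣ m := by
    have h1 : Q ∣ q * m := by rw [← hmain]; exact Dvd.intro _ rfl
    exact (Nat.Coprime.dvd_of_dvd_mul_left ((Nat.Prime.coprime_iff_not_dvd hqp).2 hqQ).symm h1)
  have hmABE : m = (A * B * E) ^ 2 := by rw [hm, hWBE]; ring
  have hqm : N.factorization = (q * m).factorization := by rw [← hNeq]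
  have hmfac : ∀ p, p ≠ q → m.factorization p = f p := by
    intro p hpq
    rw [hf, hqm, Nat.factorization_mul hqp.ne_zero hm0, hqp.factorization]
    simp [Ne.symm hpq]
  have hfinal : q ^ 4 ≤ 2 ^ 98 * m * E ^ 10 → (∏ p ∈ N.primeFactors, p) ^ 5 ≤ 2 ^ 49 * N ^ 3 := by
    intro h
    rw [hradeq]
    apply final_ineq (E := E)
    · rw [← hmABE]; exact hNeq
    · rw [← hmABE]; exact h
  -- the easy case: a payer with `q ≤ 4 E ^ 4`
  have easy : ∀ p a v : ℕ, p.Prime → p ∈ N.primeFactors → p ≠ q → f p = 2 * a →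
      v * q = sg p (2 * a) → q ≤ 4 * E ^ 4 → (∏ p ∈ N.primeFactors, p) ^ 5 ≤ 2 ^ 49 * N ^ 3 := by
    intro p a v hp hpP hpq hfp hv hqE
    have hp3 : 3 ≤ p := by
      have := hodd p hpP; have := hp.two_le; omega
    have h1 := AK hp hp3 hQ hv hQm (by rw [hmfac p hpq, hfp]) hm0 hQ0
    apply hfinal
    calc q ^ 4 = q ^ 2 * q ^ 2 := by ring
      _ ≤ (8 * m) * (4 * E ^ 4) ^ 2 := by gcongr
      _ = 2 ^ 7 * m * E ^ 8 := by ring
      _ ≤ 2 ^ 98 * m * E ^ 10 :=
        Nat.mul_le_mul (Nat.mul_le_mul_right _ (Nat.pow_le_pow_right (by norm_num) (by norm_num)))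
          (Nat.pow_le_pow_right hEpos (by norm_num))
  have hqdvd : q ∣ (∏ p ∈ S1, F p) * sH := by
    have h1 : q ∣ Q * ((∏ p ∈ S1, F p) * sH) := by rw [hmain]; exact Dvd.intro _ rfl
    exact ((Nat.Prime.dvd_mul hqp).1 h1).resolve_left hqQ
  rcases (Nat.Prime.dvd_mul hqp).1 hqdvd with hqF | hqH'
  swap
  · -- q divides sH
    obtain ⟨p, hpH, hqs⟩ := (Prime.dvd_finsetProd_iff hqp.prime _).1 hqH'
    obtain ⟨b, hb2, hb⟩ := hHf p hpH
    obtain ⟨v, hv⟩ := hqs
    rw [hb] at hv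
    have hpp := hprime p (hHsub hpH)
    refine easy p b v hpp (hHsub hpH) (hqH p hpH) hb (by rw [hv]; ring) ?_
    have h1 : q ≤ 2 * p ^ (2 * b) := by
      have h2 : q ≤ sg p (2 * b) := Nat.le_of_dvd (sg_pos _ _) ⟨v, hv⟩
      exact h2.trans (Cfg.geom_le hpp.two_le _)
    have h2 : p ^ (f p / 2 - 1) ≤ E :=
      Nat.le_of_dvd hEpos (Finset.dvd_prod_of_mem (fun p => p ^ (f p / 2 - 1)) hpH)
    have h3 : p ^ (2 * b) ≤ (p ^ (f p / 2 - 1)) ^ 4 := by
      rw [hb, ← pow_mul]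
      apply Nat.pow_le_pow_right hpp.pos
      omega
    have h4 : (p ^ (f p / 2 - 1)) ^ 4 ≤ E ^ 4 := Nat.pow_le_pow_left h2 4
    omega
  -- q divides F p
  obtain ⟨p, hpS1, hqFp⟩ := (Prime.dvd_finsetProd_iff hqp.prime _).1 hqF
  have hpP := hS1sub hpS1
  have hpp := hprime p hpP
  have hpq := hqS1 p hpS1
  have hpo := hodd p hpP
  obtain ⟨v, hv'⟩ := hqFp
  have hv : v * q = F p := by rw [hv']; ring
  have hqlow : q ≤ F p := Nat.le_of_dvd (F_pos p) ⟨v, hv'⟩
  have hp3 : 3 ≤ p := by have := hpp.two_le; omega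
  have hv0 : 0 < v := by
    rcases Nat.eq_zero_or_pos v with h | h
    · rw [h] at hv; have := F_pos p; omega
    · exact h
  -- p = 3
  by_cases hp3' : p = 3
  · have hF3 : F p = 13 := by rw [hp3']; norm_num [F]
    have hq13 : q ≤ 13 := by omega
    apply hfinal
    calc q ^ 4 ≤ 13 ^ 4 := Nat.pow_le_pow_left hq13 4
      _ ≤ 2 ^ 98 * 1 * 1 := by norm_num
      _ ≤ 2 ^ 98 * m * E ^ 10 := by
        gcongr
        · omega
        · exact Nat.one_le_pow _ _ hEpos
  have hp5 : 5 ≤ p := by omega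
  have hpnQ : ¬ p ∣ Q := by
    intro h
    exact p_ndvd hp5 hpo (by omega) hv (by rw [hQ]; exact Dvd.dvd.mul_left h 2)
  rcases Cfg.mod12 hpp hp3' with hpm | hpm
  swap
  · -- p ≡ 2 mod 3 : only H pays p
    refine easy p 1 v hpp hpP hpq (hS1f p hpS1) (by rw [hv, ← sg_two]) ?_
    have h1 : p ^ 2 ∣ Q * ((∏ p ∈ S1, F p) * sH) := by
      rw [hmain]
      apply Dvd.dvd.mul_left
      exact (hpp.pow_dvd_iff_le_factorization hm0).2 (by rw [hmfac p hpq, hS1f p hpS1])
    have h2 : Nat.Coprime (p ^ 2) Q := Nat.Coprime.pow_left 2 ((Nat.Prime.coprime_iff_not_dvd hpp).2 hpnQ)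
    have h3 : Nat.Coprime (p ^ 2) (∏ p ∈ S1, F p) := by
      apply Nat.Coprime.pow_left
      rw [Nat.Prime.coprime_iff_not_dvd hpp]
      intro h
      obtain ⟨t, _, ht⟩ := (Prime.dvd_finsetProd_iff hpp.prime _).1 h
      rcases mod3 hpp ht with h4 | h4 <;> omega
    have h4 : p ^ 2 ∣ sH := h3.dvd_of_dvd_mul_left (h2.dvd_of_dvd_mul_left h1)
    have h5 := Nat.le_of_dvd hsHpos h4
    have h6 : sH ≤ 2 * W := abund hN hHsub
    have h7 := F_le p hpp.two_le
    omega
  -- the configuration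
  have hpoS : p ∉ S1.erase p := Finset.notMem_erase _ _
  have hAp : p * ∏ s ∈ S1.erase p, s = A := Finset.mul_prod_erase S1 (fun p => p) hpS1
  have hFp : F p * ∏ s ∈ S1.erase p, F s = ∏ s ∈ S1, F s := Finset.mul_prod_erase S1 F hpS1
  set S := S1.erase p with hS
  set A' := ∏ s ∈ S, s with hA'
  have hSS1 : S ⊆ S1 := Finset.erase_subset _ _
  have hA'pos : 0 < A' := Finset.prod_pos (fun s hs => (hprime s (hS1sub (hSS1 hs))).pos)
  -- Q v F sH = p^2 A'^2 W
  have heqv : Q * (v * (∏ s ∈ S, F s) * sH) = p ^ 2 * (A' ^ 2 * W) := by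
    have h1 : q * (Q * (v * (∏ s ∈ S, F s) * sH)) = q * (p ^ 2 * (A' ^ 2 * W)) := by
      calc q * (Q * (v * (∏ s ∈ S, F s) * sH)) = Q * (((v * q) * (∏ s ∈ S, F s)) * sH) := by ring
        _ = Q * ((∏ s ∈ S1, F s) * sH) := by rw [hv, hFp]
        _ = q * (A ^ 2 * W) := hmain
        _ = q * (p ^ 2 * (A' ^ 2 * W)) := by rw [← hAp]; ring
    exact Nat.eq_of_mul_eq_mul_left hqp.pos h1
  have hQA' : Q ∣ A' ^ 2 * W := by
    have h1 : Q ∣ p ^ 2 * (A' ^ 2 * W) := by rw [← heqv]; exact Dvd.intro _ rfl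
    have h2 : Nat.Coprime Q (p ^ 2) :=
      (Nat.Coprime.pow_left 2 ((Nat.Prime.coprime_iff_not_dvd hpp).2 hpnQ)).symm
    exact h2.dvd_of_dvd_mul_left h1
  obtain ⟨c, hc⟩ := hQA'
  have hcpos : 0 < c := by
    rcases Nat.eq_zero_or_pos c with h | h
    · rw [h] at hc
      have : 0 < A' ^ 2 * W := by positivity
      omega
    · exact h
  have hv3 : 3 ≤ v := by
    have h1 : 3 ∣ v * q := by rw [hv]; exact three_dvd_F hpm
    rcases (Nat.Prime.dvd_mul Nat.prime_three).1 h1 with h2 | h2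
    · exact Nat.le_of_dvd hv0 h2
    · have := (Nat.prime_dvd_prime_iff_eq Nat.prime_three hqp).1 h2
      omega
  have hSH : ∀ s ∈ S, s ∉ H := fun s hs hsH' =>
    (Finset.disjoint_left.1 hdisj) (hSS1 hs) hsH'
  have hmp : m = p ^ 2 * (Q * c) := by rw [hm, ← hAp, ← hc]; ring
  let C : Cfg :=
    { q := q, p := p, v := v, c := c, W := W, sH := sH, E := E, Q := Q, S := S
      hq := hqp, hp := hpp, hQ := hQ, hq4 := hq4, hv := hv, hv3 := hv3, hp3 := hpm
      hSp := fun s hs => hprime s (hS1sub (hSS1 hs))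
      hS3 := fun s hs => by
        have h1 := hodd s (hS1sub (hSS1 hs))
        have h2 := (hprime s (hS1sub (hSS1 hs))).two_le
        omega
      hpS := hpoS
      eq1 := by
        have h1 : Q * (v * (∏ s ∈ S, F s) * sH) = Q * (p ^ 2 * c) := by
          rw [heqv, hc]; ring
        exact Nat.eq_of_mul_eq_mul_left (by omega) h1
      eq2 := hc
      hW := fun s hs h => by
        obtain ⟨t, ht, h1⟩ := (Prime.dvd_finsetProd_iff (hprime s (hS1sub (hSS1 hs))).prime _).1 h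
        have h2 := (hprime s (hS1sub (hSS1 hs))).dvd_of_dvd_pow h1
        have h3 := (Nat.prime_dvd_prime_iff_eq (hprime s (hS1sub (hSS1 hs))) (hprime t (hHsub ht))).1 h2
        exact hSH s hs (h3 ▸ ht)
      hc := hcpos, hE := hEpos, hW0 := hWpos, hsH0 := hsHpos
      hWE := hWE
      hsH := abund hN hHsub
      hab := fun T hT => by
        have h1 := abund hN (hT.trans (hSS1.trans hS1sub))
        have h2 : ∏ s ∈ T, sg s (N.factorization s) = ∏ s ∈ T, F s :=
          Finset.prod_congr rfl (fun s hs => by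
            have := hS1f s (hSS1 (hT hs))
            rw [← hf, this, sg_two])
        have h3 : ∏ s ∈ T, s ^ (N.factorization s) = ∏ s ∈ T, s ^ 2 :=
          Finset.prod_congr rfl (fun s hs => by
            have := hS1f s (hSS1 (hT hs))
            rw [← hf, this])
        rw [h2, h3] at h1
        exact h1
      hpH := fun h => by
        obtain ⟨r, hrH, hr⟩ := (Prime.dvd_finsetProd_iff hpp.prime _).1 h
        obtain ⟨b, hb2, hb⟩ := hHf r hrH
        refine ⟨r, b, hprime r (hHsub hrH), hb2, ?_, ?_, ?_, ?_⟩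
        · have h1 : (Q * c).factorization r = f r := by
            have h2 := hmfac r (hqH r hrH)
            rw [hmp, Nat.factorization_mul (pow_ne_zero _ hpp.ne_zero) (by positivity),
              Nat.factorization_pow, hpp.factorization] at h2
            have hrp : r ≠ p := by
              rintro rfl
              exact (Finset.disjoint_left.1 hdisj) hpS1 hrH
            simpa [Ne.symm hrp] using h2
          rw [Nat.factorization_mul hQ0 hcpos.ne'] at h1
          simp only [Finsupp.coe_add, Pi.add_apply] at h1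
          omega
        · intro h; exact hSH r h hrH
        · rw [hb] at hr; exact hr
        · have h2 : r ^ (f r / 2 - 1) ≤ E :=
            Nat.le_of_dvd hEpos (Finset.dvd_prod_of_mem (fun p => p ^ (f p / 2 - 1)) hrH)
          have h3 : f r / 2 - 1 = b - 1 := by omega
          rw [h3] at h2
          exact h2 }
  have hb := C.bound
  apply hfinal
  rw [hmp]
  exact hb

end Pool.Agent.Lib.MP_f02ea4_nt.Rad
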