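import Pool.Agent.Lib.MP_f02ea4_nt.RS_T

/-! # Robust Steuerwald theorem for odd perfect numbers -/

namespace Pool.Agent.Lib.MP_f02ea4_nt.RobustSteuerwaldShelf

open Finset ArithmeticFunction Pool.Agent.OPNRS

/-- **Robust Steuerwald theorem.**  Let `N = D * m ^ 2` be an odd perfect number, `m` squarefree
and prime to `D` (so every prime factor of `m` divides `N` exactly twice), and let `k` be the
number of primes `1 mod 3` dividing `m`. -/
theorem result (N D m k : ℕ) (hN : N.Perfect) (hodd : Odd N) (h : N = D * m ^ 2)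
    (hm : Squarefree m) (hc : D.Coprime m)
    (hk : k = (m.primeFactors.filter (fun p => p % 3 = 1)).card) :
    (∀ p : ℕ, p.Prime → p ∣ N → (p : ℝ) ≤ D + √D + 1) ∧
    2 * (∏ p ∈ m.primeFactors.filter (fun p => p % 3 = 2), p) ^ 2 ∣ sigma 1 D ∧
    k ≤ N.factorization 3 ∧
    N ≤ 3 ^ (k + 2) * D ^ (2 * k + 2) ∧
    (¬ 3 ∣ N → N ≤ D ^ 2) ∧
    (m ^ 2) ^ (2 * m.primeFactors.card + 2) ≤
      3 ^ (m.primeFactors.card + 2) * N ^ (2 * m.primeFactors.card + 1) ∧
    Real.log N ≤ 2 * Real.log D ^ 2 + 9 := by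
  have he := main_eq hN h hm hc
  have hoddN : Odd (D * m ^ 2) := h ▸ hodd
  have hD := five_le hoddN he
  have hm0 := hm.ne_zero
  have hN0 : N ≠ 0 := hN.2.ne'
  obtain ⟨K, hK, hKodd, hKD, hKe⟩ := exists_K hoddN hm he
  have hkv : k ≤ N.factorization 3 := by
    rw [hk, h]
    exact card_le hoddN he
  have hsize : N ≤ 3 ^ (k + 2) * D ^ (2 * k + 2) := by
    have h1 := m_bound hoddN hm he filter_zero_sq
    rw [← hk] at h1
    calc N = D * m ^ 2 := h
      _ ≤ D * (D * ((3 * D ^ 2) ^ k * 9)) := Nat.mul_le_mul_left _ h1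
      _ = 3 ^ (k + 2) * D ^ (2 * k + 2) := by rw [mul_pow]; ring
  have hsize3 : ¬ 3 ∣ m → N ≤ 3 ^ k * D ^ (2 * k + 2) := by
    intro h3
    have h1 := m_bound hoddN hm he (filter_zero_one h3)
    rw [← hk] at h1
    calc N = D * m ^ 2 := h
      _ ≤ D * (D * ((3 * D ^ 2) ^ k * 1)) := Nat.mul_le_mul_left _ h1
      _ = 3 ^ k * D ^ (2 * k + 2) := by rw [mul_pow]; ring
  have hkt : k ≤ m.primeFactors.card := hk ▸ Finset.card_filter_le _ _
  refine ⟨?_, ?_, hkv, hsize, ?_, ?_, ?_⟩
  · intro p hp hpN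
    rw [h] at hpN
    rcases (hp.dvd_mul).1 hpN with h1 | h1
    · have h2 : p ≤ D := Nat.le_of_dvd (by omega) h1
      have h3 : (p : ℝ) ≤ D := by exact_mod_cast h2
      have h4 := Real.sqrt_nonneg (D : ℝ)
      linarith
    · exact prime_bound hoddN hm he (Nat.mem_primeFactors.2 ⟨hp, hp.dvd_of_dvd_pow h1, hm0⟩)
  · rw [hK]
    exact Nat.mul_dvd_mul_left 2 (w_dvd hKe)
  · intro h3
    have hk0 : k = 0 := by
      have := Nat.factorization_eq_zero_of_not_dvd h3
      omega
    have h3m : ¬ 3 ∣ m := fun hd =>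
      h3 (h ▸ (hd.trans ((dvd_pow_self m two_ne_zero).trans (dvd_mul_left _ _))))
    have := hsize3 h3m
    rw [hk0] at this
    simpa using this
  · set t := m.primeFactors.card
    have h1 : N ≤ 3 ^ (t + 2) * D ^ (2 * t + 2) := by
      refine hsize.trans (Nat.mul_le_mul ?_ ?_)
      · exact Nat.pow_le_pow_right (by norm_num) (by omega)
      · exact Nat.pow_le_pow_right (by omega) (by omega)
    have h2 : D ^ (2 * t + 2) * (m ^ 2) ^ (2 * t + 2) ≤
        D ^ (2 * t + 2) * (3 ^ (t + 2) * N ^ (2 * t + 1)) := by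
      calc D ^ (2 * t + 2) * (m ^ 2) ^ (2 * t + 2) = N * N ^ (2 * t + 1) := by
            rw [← mul_pow, ← h]; ring
        _ ≤ (3 ^ (t + 2) * D ^ (2 * t + 2)) * N ^ (2 * t + 1) := Nat.mul_le_mul_right _ h1
        _ = _ := by ring
    exact Nat.le_of_mul_le_mul_left h2 (by positivity)
  · have hDpos : (0 : ℝ) < D := by exact_mod_cast (by omega : 0 < D)
    have hNpos : (0 : ℝ) < N := by exact_mod_cast Nat.pos_of_ne_zero hN0
    have hlog3 : (1.09861 : ℝ) < Real.log 3 := by
      have := Real.log_three_gt_d9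
      linarith
    have hlog3' : Real.log 3 < 1.09862 := by
      have := Real.log_three_lt_d9
      linarith
    have hlog5 : (1.6 : ℝ) < Real.log 5 := by
      rw [Real.lt_log_iff_exp_lt (by norm_num)]
      have h1 : Real.exp 1 < 2.7182818286 := Real.exp_one_lt_d9
      have h2 : Real.exp 1.6 ^ 5 < 5 ^ 5 := by
        rw [← Real.exp_nat_mul]
        have h3 : ((5 : ℕ) : ℝ) * 1.6 = ((8 : ℕ) : ℝ) * 1 := by norm_num
        rw [h3, Real.exp_nat_mul]
        calc Real.exp 1 ^ 8 < 2.7182818286 ^ 8 := by gcongr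
          _ < 5 ^ 5 := by norm_num
      exact lt_of_pow_lt_pow_left₀ 5 (by norm_num) h2
    have hk0' : (0 : ℝ) ≤ k := Nat.cast_nonneg k
    by_cases h3 : 3 ∣ m
    · -- `v_3(N) = 2`
      have hv2 : N.factorization 3 = 2 := by
        rw [h, Nat.factorization_mul (by omega) (by positivity)]
        have h3D : ¬ 3 ∣ D := fun hd => Nat.not_coprime_of_dvd_of_dvd (by norm_num) hd h3 hc
        have h4 : D.factorization 3 = 0 := Nat.factorization_eq_zero_of_not_dvd h3D
        have h5 : m.factorization 3 = 1 := by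
          have h6 := (Nat.squarefree_iff_factorization_le_one hm0).1 hm 3
          have h7 := (Nat.Prime.dvd_iff_one_le_factorization Nat.prime_three hm0).1 h3
          omega
        simp [h4, h5]
      have hk2 : (k : ℝ) ≤ 2 := by
        have : k ≤ 2 := hv2 ▸ hkv
        exact_mod_cast this
      have h1 : (N : ℝ) ≤ 3 ^ (k + 2) * (D : ℝ) ^ (2 * k + 2) := by exact_mod_cast hsize
      have h2 := Real.log_le_log hNpos h1
      rw [Real.log_mul (by positivity) (by positivity), Real.log_pow, Real.log_pow] at h2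
      push_cast at h2
      set L := Real.log D
      have hL5 : 1.6 < L :=
        hlog5.trans_le (Real.log_le_log (by norm_num) (by exact_mod_cast hD))
      nlinarith [sq_nonneg (L - 1.5)]
    · have h1 : (N : ℝ) ≤ 3 ^ k * (D : ℝ) ^ (2 * k + 2) := by exact_mod_cast hsize3 h3
      have h2 := Real.log_le_log hNpos h1
      rw [Real.log_mul (by positivity) (by positivity), Real.log_pow, Real.log_pow] at h2
      push_cast at h2
      have hv : N.factorization 3 = D.factorization 3 := by
        rw [h, Nat.factorization_mul (by omega) (by positivity)]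
        simp [Nat.factorization_eq_zero_of_not_dvd h3]
      have h4 := three_pow_le hoddN hm he hv.symm.symm
      have h5 : (5 : ℝ) * 3 ^ (N.factorization 3) ≤ D := by exact_mod_cast h4
      have h6 := Real.log_le_log (by positivity) h5
      rw [Real.log_mul (by norm_num) (by positivity), Real.log_pow] at h6
      have hkv' : (k : ℝ) ≤ (N.factorization 3 : ℕ) := by exact_mod_cast hkv
      set L := Real.log D
      have hL5 : 1.6 < L :=
        hlog5.trans_le (Real.log_le_log (by norm_num) (by exact_mod_cast hD))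
      have h7 : (k : ℝ) * Real.log 3 ≤ L - 1.6 := by nlinarith
      have h8 : (k : ℝ) * 1.09861 ≤ L - 1.6 := by nlinarith
      have h9 : (k : ℝ) ≤ (L - 1.6) * 0.9103 := by nlinarith
      nlinarith

end Pool.Agent.Lib.MP_f02ea4_nt.RobustSteuerwaldShelf
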