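import Mathlib
import Pool.Agent.Lib.MP_f02ea4_nt.SigmaBasics

/-!
# The two largest prime factors of an odd perfect number: definitions
-/

set_option autoImplicit false

namespace Pool.Agent.Lib.MP_f02ea4_nt.TL

open Finset

/-- Arithmetic data attached to an odd perfect number `N = q p ^ b n` with `q ∥ N`, `p ^ b ∥ N`
and `q ∣ σ (p ^ b) = k q`; `σ (r ^ a) = w r * p ^ e r` for the components `r ^ a` of `n`,
`v = ∏ w r`, `q + 1 = p ^ c u`. -/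
structure Cfg (N q p b k v n c u : ℕ) (e w : ℕ → ℕ) : Prop where
  hq : q.Prime
  hp : p.Prime
  q3 : 3 ≤ q
  p3 : 3 ≤ p
  hqp : q ≠ p
  hN : N = q * (p ^ b * n)
  n0 : n ≠ 0
  nodd : Odd n
  pn : ¬ p ∣ n
  qn : ¬ q ∣ n
  hb : 2 ≤ b
  beven : Even b
  k1 : 1 ≤ k
  kodd : Odd k
  pk : ¬ p ∣ k
  sigp : (p - 1) * (k * q) + 1 = p ^ (b + 1)
  even : ∀ r ∈ n.primeFactors, Even (n.factorization r)
  w1 : ∀ r ∈ n.primeFactors, 1 ≤ w r
  pw : ∀ r ∈ n.primeFactors, ¬ p ∣ w r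
  sig : ∀ r ∈ n.primeFactors, (r - 1) * (w r * p ^ e r) + 1 = r ^ (n.factorization r + 1)
  hv : ∏ r ∈ n.primeFactors, w r = v
  sum : c + ∑ r ∈ n.primeFactors, e r = b
  hu : q + 1 = p ^ c * u
  hn : 2 * n = u * (k * v)
  pc : p ^ c ≤ 2 * k
  ak : q ^ 3 * (k * v) ≤ 6 * N
  un : ∀ T ⊆ n.primeFactors, ∏ r ∈ T, (w r * p ^ e r) ≤ 2 * ∏ r ∈ T, r ^ n.factorization r

end Pool.Agent.Lib.MP_f02ea4_nt.TL
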