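import Mathlib
import Pool.Agent.Lib.MP_f02ea4_nt.TLDefs

/-!
# The two largest prime factors of an odd perfect number: first consequences of the data
-/

set_option autoImplicit false

namespace Pool.Agent.Lib.MP_f02ea4_nt.TL

open Finset

variable {N q p b k v n c u : ℕ} {e w : ℕ → ℕ}

theorem Cfg.rprime (_C : Cfg N q p b k v n c u e w) {r : ℕ} (hr : r ∈ n.primeFactors) :
    r.Prime := Nat.prime_of_mem_primeFactors hr

theorem Cfg.r3 (C : Cfg N q p b k v n c u e w) {r : ℕ} (hr : r ∈ n.primeFactors) : 3 ≤ r := by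
  have h1 := (C.rprime hr).two_le
  have h2 : Odd r := Odd.of_dvd_nat C.nodd (Nat.dvd_of_mem_primeFactors hr)
  obtain ⟨x, hx⟩ := h2
  omega

theorem Cfg.a2 (C : Cfg N q p b k v n c u e w) {r : ℕ} (hr : r ∈ n.primeFactors) :
    2 ≤ n.factorization r := by
  have h1 : 1 ≤ n.factorization r :=
    (C.rprime hr).factorization_pos_of_dvd C.n0 (Nat.dvd_of_mem_primeFactors hr)
  obtain ⟨j, hj⟩ := C.even r hr
  omega

theorem Cfg.v1 (C : Cfg N q p b k v n c u e w) : 1 ≤ v := by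
  rw [← C.hv]
  exact Finset.one_le_prod' (fun r hr => C.w1 r hr)

theorem Cfg.podd (C : Cfg N q p b k v n c u e w) : Odd p := by
  rcases C.hp.eq_two_or_odd' with h | h
  · have := C.p3; omega
  · exact h

theorem Cfg.qodd (C : Cfg N q p b k v n c u e w) : Odd q := by
  rcases C.hq.eq_two_or_odd' with h | h
  · have := C.q3; omega
  · exact h

theorem Cfg.kvn (C : Cfg N q p b k v n c u e w) : k * v ∣ n := by
  have h1 : Even (q + 1) := C.qodd.add_one
  have h2 : Even u := by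
    rw [C.hu] at h1
    rcases Nat.even_mul.1 h1 with h | h
    · have := C.podd.pow (n := c)
      exact absurd h (Nat.not_even_iff_odd.2 this)
    · exact h
  obtain ⟨u', hu'⟩ := h2
  refine ⟨u', ?_⟩
  have h3 := C.hn
  rw [hu'] at h3
  have : 2 * n = 2 * (k * v * u') := by rw [h3]; ring
  omega

theorem Cfg.vn (C : Cfg N q p b k v n c u e w) : v ∣ n := (Dvd.intro_left _ rfl).trans C.kvn

theorem Cfg.w_dvd (C : Cfg N q p b k v n c u e w) {r : ℕ} (hr : r ∈ n.primeFactors) :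
    w r ∣ v := by
  rw [← C.hv]
  exact Finset.dvd_prod_of_mem w hr

theorem Cfg.w_le (C : Cfg N q p b k v n c u e w) {r : ℕ} (hr : r ∈ n.primeFactors) :
    w r ≤ v := Nat.le_of_dvd C.v1 (C.w_dvd hr)

theorem Cfg.cop (C : Cfg N q p b k v n c u e w) {r : ℕ} (hr : r ∈ n.primeFactors) :
    Nat.Coprime r (w r) := by
  rw [Nat.Prime.coprime_iff_not_dvd (C.rprime hr)]
  intro h
  have h1 := C.sig r hr
  have h2 : r ∣ (r - 1) * (w r * p ^ e r) := (Dvd.dvd.mul_right h _).mul_left _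
  have h3 : r ∣ (r - 1) * (w r * p ^ e r) + 1 := by rw [h1]; exact dvd_pow_self _ (by omega)
  have h4 := Nat.dvd_one.1 ((Nat.dvd_add_right h2).1 h3)
  exact (C.rprime hr).one_lt.ne' h4

/-- `r ^ x ∣ v` gives `r ^ x * w r ∣ v` -/
theorem Cfg.Lw (C : Cfg N q p b k v n c u e w) {r x : ℕ} (hr : r ∈ n.primeFactors)
    (hx : r ^ x ∣ v) : r ^ x * w r ∣ v :=
  Nat.Coprime.mul_dvd_of_dvd_of_dvd (Nat.Coprime.pow_left x (C.cop hr)) hx (C.w_dvd hr)

theorem Cfg.Lw_le (C : Cfg N q p b k v n c u e w) {r x : ℕ} (hr : r ∈ n.primeFactors)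
    (hx : r ^ x ∣ v) : r ^ x * w r ≤ v := Nat.le_of_dvd C.v1 (C.Lw hr hx)

theorem Cfg.ww (C : Cfg N q p b k v n c u e w) {r t : ℕ} (hr : r ∈ n.primeFactors)
    (ht : t ∈ n.primeFactors) (hrt : r ≠ t) : w r * w t ≤ v := by
  have h1 : w r * w t = ∏ z ∈ ({r, t} : Finset ℕ), w z := by
    rw [Finset.prod_pair hrt]
  rw [h1]
  apply Nat.le_of_dvd C.v1
  rw [← C.hv]
  apply Finset.prod_dvd_prod_of_subset
  intro z hz
  rw [Finset.mem_insert, Finset.mem_singleton] at hz
  rcases hz with rfl | rfl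
  · exact hr
  · exact ht

theorem Cfg.npos (C : Cfg N q p b k v n c u e w) : 0 < n := Nat.pos_of_ne_zero C.n0

theorem Cfg.ppow (C : Cfg N q p b k v n c u e w) (x : ℕ) : 0 < p ^ x :=
  pow_pos C.hp.pos x

/-- `2 k q ≤ 3 p ^ b` -/
theorem Cfg.kq_le (C : Cfg N q p b k v n c u e w) : 2 * (k * q) ≤ 3 * p ^ b := by
  have h := C.sigp
  obtain ⟨m, hm⟩ : ∃ m, p = m + 3 := ⟨p - 3, by have := C.p3; omega⟩
  have h4 : p ^ (b + 1) = p * p ^ b := pow_succ' _ _
  rw [h4] at h
  have h5 : (m + 2) * (k * q) + 1 = (m + 3) * p ^ b := by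
    have : p - 1 = m + 2 := by omega
    rw [this] at h
    rw [h, ← hm]
  generalize k * q = x at h5 ⊢
  generalize p ^ b = y at h5 ⊢
  nlinarith

/-- `p ^ b ≤ k q` -/
theorem Cfg.le_kq (C : Cfg N q p b k v n c u e w) : p ^ b ≤ k * q := by
  have h := C.sigp
  obtain ⟨m, hm⟩ : ∃ m, p = m + 3 := ⟨p - 3, by have := C.p3; omega⟩
  have h4 : p ^ (b + 1) = p * p ^ b := pow_succ' _ _
  rw [h4] at h
  have h5 : (m + 2) * (k * q) + 1 = (m + 3) * p ^ b := by
    have : p - 1 = m + 2 := by omega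
    rw [this] at h
    rw [h, ← hm]
  have h6 := C.ppow b
  generalize k * q = x at h5 ⊢
  generalize p ^ b = y at h5 h6 ⊢
  by_contra hcon
  push Not at hcon
  have : (m + 2) * (x + 1) ≤ (m + 2) * y := Nat.mul_le_mul_left _ hcon
  nlinarith

/-- the local divisibility -/
theorem Cfg.loc (C : Cfg N q p b k v n c u e w) {r : ℕ} (hr : r ∈ n.primeFactors) :
    ∃ j x, n.factorization r = j + x ∧ r ^ x ∣ v ∧ r ^ j ∣ k * (q + 1) ∧
      (x < v.factorization r → j = 0) := by
  have hrp := C.rprime hr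
  have hv0 : v ≠ 0 := by have := C.v1; omega
  have h1 : r ^ n.factorization r ∣ (k * (q + 1)) * v := by
    have h2 : r ^ n.factorization r ∣ 2 * n := (Nat.ordProj_dvd n r).mul_left 2
    rw [C.hn] at h2
    have h3 : u * (k * v) ∣ (k * (q + 1)) * v := ⟨p ^ c, by rw [C.hu]; ring⟩
    exact h2.trans h3
  have hK : k * (q + 1) ≠ 0 := Nat.mul_ne_zero (by have := C.k1; omega) (by omega)
  have h4 : n.factorization r ≤ (k * (q + 1)).factorization r + v.factorization r := by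
    have := (hrp.pow_dvd_iff_le_factorization (Nat.mul_ne_zero hK hv0)).1 h1
    rw [Nat.factorization_mul hK hv0] at this
    simpa using this
  refine ⟨n.factorization r - min (n.factorization r) (v.factorization r),
    min (n.factorization r) (v.factorization r), by omega, ?_, ?_, by omega⟩
  · exact (pow_dvd_pow _ (min_le_right _ _)).trans (Nat.ordProj_dvd v r)
  · exact (pow_dvd_pow _ (by omega)).trans (Nat.ordProj_dvd (k * (q + 1)) r)

/-- `(p - 1) k (q + 1) = p ^ (b + 1) + k (p - 1) - 1` -/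
theorem Cfg.keq (C : Cfg N q p b k v n c u e w) :
    (p - 1) * (k * (q + 1)) = p ^ (b + 1) + k * (p - 1) - 1 := by
  rw [← C.sigp]
  have : (p - 1) * (k * (q + 1)) = (p - 1) * (k * q) + k * (p - 1) := by ring
  omega

end Pool.Agent.Lib.MP_f02ea4_nt.TL
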