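import Mathlib

/-!
# The two largest prime factors of an odd perfect number: elementary inequalities
-/

set_option autoImplicit false

namespace Pool.Agent.Lib.MP_f02ea4_nt.TL

open Finset

/-- a component with `p ∥ σ` -/
theorem beta_ineq {p k r w a x j : ℕ} (hk : 1 ≤ k) (hr : 3 ≤ r) (hw : 1 ≤ w)
    (ha : a = j + x) (hsig : (r - 1) * (w * p) + 1 = r ^ (a + 1))
    (hd : r ^ j ∣ p ^ 2 + p + 1 + k) : p < r ^ x * ((k + 1) * (w * (r * (r - 1)))) := by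
  obtain ⟨r', rfl⟩ : ∃ r', r = r' + 1 := ⟨r - 1, by omega⟩
  simp only [Nat.add_sub_cancel] at *
  have hr' : 2 ≤ r' := by omega
  have h1 : (r' + 1) ^ j ∣ (r' + 1) ^ (a + 1) := pow_dvd_pow _ (by omega)
  have hd' : (((r' + 1) ^ j : ℕ) : ℤ) ∣ ((p : ℤ) ^ 2 + p + 1 + k) := by exact_mod_cast hd
  have h1' : (((r' + 1) ^ j : ℕ) : ℤ) ∣ ((r' : ℤ) + 1) ^ (a + 1) := by exact_mod_cast h1
  have hsig' : (r' : ℤ) * (w * p) + 1 = ((r' : ℤ) + 1) ^ (a + 1) := by exact_mod_cast hsig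
  rw [← hsig'] at h1'
  have h2 : (((r' + 1) ^ j : ℕ) : ℤ) ∣ (k + 1) * (w * r' : ℤ) ^ 2 - w * r' + 1 := by
    have e1 : ((k : ℤ) + 1) * (w * r' : ℤ) ^ 2 - w * r' + 1 =
        (w * r' : ℤ) ^ 2 * ((p : ℤ) ^ 2 + p + 1 + k)
          + ((r' : ℤ) * (w * p) + 1) * (1 - (w * r' : ℤ) * p - w * r') := by ring
    rw [e1]
    exact dvd_add (Dvd.dvd.mul_left hd' _) (Dvd.dvd.mul_right h1' _)
  have hwr : (2 : ℤ) ≤ w * r' := by
    have : 1 * 2 ≤ w * r' := Nat.mul_le_mul hw hr'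
    exact_mod_cast this
  have hk' : (1 : ℤ) ≤ k := by exact_mod_cast hk
  have h3 : (((r' + 1) ^ j : ℕ) : ℤ) ≤ (k + 1) * (w * r' : ℤ) ^ 2 - w * r' + 1 :=
    Int.le_of_dvd (by nlinarith) h2
  have h4 : (((r' + 1) ^ j : ℕ) : ℤ) < (k + 1) * (w * r' : ℤ) ^ 2 := by linarith
  have h5 : (r' + 1) ^ j < (k + 1) * (w * r') ^ 2 := by exact_mod_cast h4
  -- `w r' p < r ^ (a + 1)`
  have h6 : r' * (w * p) < (r' + 1) ^ (a + 1) := by omega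
  have h7 : (r' + 1) ^ (a + 1) = (r' + 1) ^ x * (r' + 1) * (r' + 1) ^ j := by
    rw [ha]; ring
  rw [h7] at h6
  have h8 : (r' + 1) ^ x * (r' + 1) * (r' + 1) ^ j ≤
      (r' + 1) ^ x * (r' + 1) * ((k + 1) * (w * r') ^ 2) := Nat.mul_le_mul_left _ h5.le
  have h9 : r' * w * p < r' * w * ((r' + 1) ^ x * ((k + 1) * (w * ((r' + 1) * r')))) := by
    calc r' * w * p = r' * (w * p) := by ring
      _ < _ := h6
      _ ≤ _ := h8
      _ = _ := by ring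
  exact lt_of_mul_lt_mul_left h9 (Nat.zero_le _)

/-- a component with `p ^ 2 ∥ σ` -/
theorem alpha_ineq {p k r w a x j : ℕ} (hp : 3 ≤ p) (hr : 3 ≤ r) (hw : 1 ≤ w)
    (ha : a = j + x) (hsig : (r - 1) * (w * p ^ 2) + 1 = r ^ (a + 1))
    (hd : r ^ j ∣ p ^ 2 + p + 1 + k) : p ^ 2 < r ^ x * ((p + 1 + k) * r) := by
  obtain ⟨r', rfl⟩ : ∃ r', r = r' + 1 := ⟨r - 1, by omega⟩
  simp only [Nat.add_sub_cancel] at *
  have hr' : 2 ≤ r' := by omega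
  have h1 : (r' + 1) ^ j ∣ (r' + 1) ^ (a + 1) := pow_dvd_pow _ (by omega)
  have hd' : (((r' + 1) ^ j : ℕ) : ℤ) ∣ ((p : ℤ) ^ 2 + p + 1 + k) := by exact_mod_cast hd
  have h1' : (((r' + 1) ^ j : ℕ) : ℤ) ∣ ((r' : ℤ) + 1) ^ (a + 1) := by exact_mod_cast h1
  have hsig' : (r' : ℤ) * (w * p ^ 2) + 1 = ((r' : ℤ) + 1) ^ (a + 1) := by exact_mod_cast hsig
  rw [← hsig'] at h1'
  have h2 : (((r' + 1) ^ j : ℕ) : ℤ) ∣ (p + 1 + k) * (w * r' : ℤ) - 1 := by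
    have e1 : ((p : ℤ) + 1 + k) * (w * r' : ℤ) - 1 =
        (w * r' : ℤ) * ((p : ℤ) ^ 2 + p + 1 + k) - ((r' : ℤ) * (w * p ^ 2) + 1) := by ring
    rw [e1]
    exact dvd_sub (Dvd.dvd.mul_left hd' _) h1'
  have hwr : (2 : ℤ) ≤ w * r' := by
    have : 1 * 2 ≤ w * r' := Nat.mul_le_mul hw hr'
    exact_mod_cast this
  have hp' : (3 : ℤ) ≤ p := by exact_mod_cast hp
  have h3 : (((r' + 1) ^ j : ℕ) : ℤ) ≤ (p + 1 + k) * (w * r' : ℤ) - 1 :=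
    Int.le_of_dvd (by nlinarith) h2
  have h4 : (((r' + 1) ^ j : ℕ) : ℤ) < (p + 1 + k) * (w * r' : ℤ) := by linarith
  have h5 : (r' + 1) ^ j < (p + 1 + k) * (w * r') := by exact_mod_cast h4
  have h6 : r' * (w * p ^ 2) < (r' + 1) ^ (a + 1) := by omega
  have h7 : (r' + 1) ^ (a + 1) = (r' + 1) ^ x * (r' + 1) * (r' + 1) ^ j := by
    rw [ha]; ring
  rw [h7] at h6
  have h8 : (r' + 1) ^ x * (r' + 1) * (r' + 1) ^ j ≤
      (r' + 1) ^ x * (r' + 1) * ((p + 1 + k) * (w * r')) := Nat.mul_le_mul_left _ h5.le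
  have h9 : r' * w * p ^ 2 < r' * w * ((r' + 1) ^ x * ((p + 1 + k) * (r' + 1))) := by
    calc r' * w * p ^ 2 = r' * (w * p ^ 2) := by ring
      _ < _ := h6
      _ ≤ _ := h8
      _ = _ := by ring
  exact lt_of_mul_lt_mul_left h9 (Nat.zero_le _)

/-- a component with exponent `2` -/
theorem two_ineq {p k r w : ℕ} (hr : 3 ≤ r) (hw : 1 ≤ w)
    (hsig : (r - 1) * (w * p) + 1 = r ^ (2 + 1))
    (hd : r ∣ p ^ 2 + p + 1 + k) : r ≤ (k + 3) * w ^ 2 := by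
  obtain ⟨r', rfl⟩ : ∃ r', r = r' + 1 := ⟨r - 1, by omega⟩
  simp only [Nat.add_sub_cancel] at *
  have hr' : 2 ≤ r' := by omega
  have h0 : w * p = (r' + 1) ^ 2 + (r' + 1) + 1 := by
    have : r' * (w * p) = r' * ((r' + 1) ^ 2 + (r' + 1) + 1) := by
      have : r' * (w * p) + 1 = r' * ((r' + 1) ^ 2 + (r' + 1) + 1) + 1 := by
        rw [hsig]; ring
      omega
    exact Nat.eq_of_mul_eq_mul_left (by omega) this
  have h1 : r' + 1 ∣ w ^ 2 * (p ^ 2 + p + 1 + k) := Dvd.dvd.mul_left hd _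
  have h2 : w ^ 2 * (p ^ 2 + p + 1 + k) =
      (r' + 1) * ((r' + 2) * ((r' + 1) ^ 2 + (r' + 1) + 1) + (r' + 2) + w * (r' + 2))
        + (1 + w + (k + 1) * w ^ 2) := by
    have e1 : w ^ 2 * (p ^ 2 + p + 1 + k) = (w * p) ^ 2 + w * (w * p) + (k + 1) * w ^ 2 := by ring
    rw [e1, h0]; ring
  rw [h2] at h1
  have h3 : r' + 1 ∣ 1 + w + (k + 1) * w ^ 2 := (Nat.dvd_add_right (dvd_mul_right _ _)).1 h1
  have h4 := Nat.le_of_dvd (by positivity) h3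
  nlinarith

/-- two components with exponent `2` -/
theorem two_two {p r₁ r₂ w₁ w₂ : ℕ} (hp : p.Prime) (h1p : r₁ < p) (h2p : r₂ < p) (hne : r₁ ≠ r₂)
    (h1 : w₁ * p = r₁ ^ 2 + r₁ + 1) (h2 : w₂ * p = r₂ ^ 2 + r₂ + 1) :
    p ≤ 4 * w₁ ∨ p ≤ 4 * w₂ := by
  have hz1 : (w₁ : ℤ) * p = (r₁ : ℤ) ^ 2 + r₁ + 1 := by exact_mod_cast h1
  have hz2 : (w₂ : ℤ) * p = (r₂ : ℤ) ^ 2 + r₂ + 1 := by exact_mod_cast h2
  have hd : (p : ℤ) ∣ ((r₁ : ℤ) - r₂) * (r₁ + r₂ + 1) := by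
    refine ⟨w₁ - w₂, ?_⟩
    linear_combination hz2 - hz1
  have hpp : Prime (p : ℤ) := Nat.prime_iff_prime_int.1 hp
  have hp0 : (0 : ℤ) < p := by exact_mod_cast hp.pos
  rcases hpp.dvd_mul.1 hd with h | h
  · exfalso
    have h3 : ((r₁ : ℤ) - r₂) = 0 := by
      apply Int.eq_zero_of_abs_lt_dvd h
      rw [abs_lt]
      constructor <;> omega
    omega
  · have h3 := Int.le_of_dvd (by omega) h
    rcases le_total r₁ r₂ with h4 | h4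
    · right
      have h5 : (p : ℤ) ≤ 2 * r₂ + 1 := by omega
      have h6 : (p : ℤ) * p ≤ (4 * w₂) * p := by nlinarith
      have := le_of_mul_le_mul_right h6 hp0
      omega
    · left
      have h5 : (p : ℤ) ≤ 2 * r₁ + 1 := by omega
      have h6 : (p : ℤ) * p ≤ (4 * w₁) * p := by nlinarith
      have := le_of_mul_le_mul_right h6 hp0
      omega

/-- two components with exponent `4` -/
theorem four_four {p r₁ r₂ w₁ w₂ : ℕ} (hp : p.Prime) (h1p : r₁ < p) (h2p : r₂ < p)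
    (hr₁ : r₁.Prime) (hr₂ : r₂.Prime) (hne : r₁ ≠ r₂)
    (h1 : w₁ * p = r₁ ^ 4 + r₁ ^ 3 + r₁ ^ 2 + r₁ + 1)
    (h2 : w₂ * p = r₂ ^ 4 + r₂ ^ 3 + r₂ ^ 2 + r₂ + 1) : p ≤ w₁ * w₂ := by
  have hw₁ : 1 ≤ w₁ := by
    rcases Nat.eq_zero_or_pos w₁ with h | h
    · rw [h, zero_mul] at h1; omega
    · exact h
  have hw₂ : 1 ≤ w₂ := by
    rcases Nat.eq_zero_or_pos w₂ with h | h
    · rw [h, zero_mul] at h2; omega
    · exact h
  have hz1 : (w₁ : ℤ) * p = (r₁ : ℤ) ^ 4 + (r₁ : ℤ) ^ 3 + (r₁ : ℤ) ^ 2 + r₁ + 1 := by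
    exact_mod_cast h1
  have hz2 : (w₂ : ℤ) * p = (r₂ : ℤ) ^ 4 + (r₂ : ℤ) ^ 3 + (r₂ : ℤ) ^ 2 + r₂ + 1 := by
    exact_mod_cast h2
  have hp0 : (0 : ℤ) < p := by exact_mod_cast hp.pos
  have hpp : Prime (p : ℤ) := Nat.prime_iff_prime_int.1 hp
  set x : ℤ := (r₁ : ℤ) with hx
  set y : ℤ := (r₂ : ℤ) with hy
  have hx0 : 2 ≤ x := by rw [hx]; exact_mod_cast hr₁.two_le
  have hy0 : 2 ≤ y := by rw [hy]; exact_mod_cast hr₂.two_le
  have hxp : x < p := by rw [hx]; exact_mod_cast h1p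
  have hyp : y < p := by rw [hy]; exact_mod_cast h2p
  have hxy : x ≠ y := by rw [hx, hy]; exact_mod_cast hne
  have hd : (p : ℤ) ∣ (y - x) * ((y - x ^ 2) * ((y - x ^ 3) * (y - x ^ 4))) := by
    refine ⟨w₂ + w₁ * (-y ^ 3 + (x ^ 3 + x - 1) * y ^ 2 - (x ^ 5 - x + 1) * y
      + (x - 1) * (x ^ 5 + 1)), ?_⟩
    linear_combination (-1 : ℤ) * hz2 - (-y ^ 3 + (x ^ 3 + x - 1) * y ^ 2 - (x ^ 5 - x + 1) * y
      + (x - 1) * (x ^ 5 + 1)) * hz1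
  -- a square larger than `p`
  have big : ∀ (r w : ℕ) (z : ℤ), (w : ℤ) * p = (r : ℤ) ^ 4 + (r : ℤ) ^ 3 + (r : ℤ) ^ 2 + r + 1 →
      0 < z → z < p → (r : ℤ) ^ 2 ≠ z → (p : ℤ) ∣ (r : ℤ) ^ 2 - z → (p : ℤ) ≤ w := by
    intro r w z hw hz hzp hrz hdv
    have h3 : (p : ℤ) ≤ (r : ℤ) ^ 2 := by
      by_contra hcon
      apply hrz
      have h4 : (r : ℤ) ^ 2 - z = 0 := by
        apply Int.eq_zero_of_abs_lt_dvd hdv
        rw [abs_lt]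
        have : (0 : ℤ) ≤ (r : ℤ) ^ 2 := by positivity
        constructor <;> omega
      omega
    have h4 : (p : ℤ) * p ≤ w * p := by
      rw [hw]
      have : (0 : ℤ) ≤ (r : ℤ) := by positivity
      have : (p : ℤ) * p ≤ (r : ℤ) ^ 2 * (r : ℤ) ^ 2 := mul_le_mul h3 h3 hp0.le (by positivity)
      nlinarith [pow_nonneg (show (0 : ℤ) ≤ (r : ℤ) by positivity) 3]
    exact le_of_mul_le_mul_right h4 hp0
  have fin1 : (p : ℤ) ≤ w₁ → p ≤ w₁ * w₂ := by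
    intro h
    have h' : p ≤ w₁ := by exact_mod_cast h
    exact h'.trans (Nat.le_mul_of_pos_right _ hw₂)
  have fin2 : (p : ℤ) ≤ w₂ → p ≤ w₁ * w₂ := by
    intro h
    have h' : p ≤ w₂ := by exact_mod_cast h
    exact h'.trans (Nat.le_mul_of_pos_left _ hw₁)
  rcases hpp.dvd_mul.1 hd with h | h
  · exfalso
    have h3 : y - x = 0 := by
      apply Int.eq_zero_of_abs_lt_dvd h
      rw [abs_lt]
      constructor <;> omega
    apply hxy; omega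
  rcases hpp.dvd_mul.1 h with h | h
  · apply fin1
    apply big r₁ w₁ y hz1 (by omega) hyp
    · intro h3
      have h3' : (r₁ : ℤ) ^ 2 = (r₂ : ℤ) := h3
      have h4 : r₁ ^ 2 = r₂ := by exact_mod_cast h3'
      rw [← h4] at hr₂
      exact Nat.Prime.not_prime_pow (le_refl 2) hr₂
    · have : x ^ 2 - y = -(y - x ^ 2) := by ring
      rw [← hx, this]
      exact (dvd_neg.2 h)
  rcases hpp.dvd_mul.1 h with h | h
  · apply fin2
    apply big r₂ w₂ x hz2 (by omega) hxp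
    · intro h3
      have h3' : (r₂ : ℤ) ^ 2 = (r₁ : ℤ) := h3
      have h4 : r₂ ^ 2 = r₁ := by exact_mod_cast h3'
      rw [← h4] at hr₁
      exact Nat.Prime.not_prime_pow (le_refl 2) hr₁
    · have e : y ^ 2 - x = (y - x ^ 3) * (y + x ^ 3) + x * (x - 1) * (w₁ * p) := by
        rw [hz1]; ring
      rw [← hy, e]
      exact dvd_add (Dvd.dvd.mul_right h _) (Dvd.dvd.mul_left (Dvd.intro_left _ rfl) _)
  · have h3 : (p : ℤ) ∣ x * y - 1 := by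
      have e : x * y - 1 = x * (y - x ^ 4) + (x - 1) * (w₁ * p) := by
        rw [hz1]; ring
      rw [e]
      exact dvd_add (Dvd.dvd.mul_left h _) (Dvd.dvd.mul_left (Dvd.intro_left _ rfl) _)
    have h4 : (p : ℤ) ≤ x * y - 1 := Int.le_of_dvd (by nlinarith) h3
    have h5 : (p : ℤ) ≤ x * y := by omega
    have h6 : (p : ℤ) ^ 4 ≤ (x * y) ^ 4 := pow_le_pow_left₀ hp0.le h5 4
    have h7 : x ^ 4 ≤ w₁ * p := by
      rw [hz1]; nlinarith [pow_pos (show (0 : ℤ) < x by omega) 3, pow_pos (show (0 : ℤ) < x by omega) 2]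
    have h8 : y ^ 4 ≤ w₂ * p := by
      rw [hz2]; nlinarith [pow_pos (show (0 : ℤ) < y by omega) 3, pow_pos (show (0 : ℤ) < y by omega) 2]
    have h9 : (x * y) ^ 4 ≤ (w₁ * p) * (w₂ * p) := by
      rw [mul_pow]
      exact mul_le_mul h7 h8 (by positivity) (by positivity)
    have h10 : (p : ℤ) ^ 2 * (p : ℤ) ^ 2 ≤ (w₁ * w₂) * (p : ℤ) ^ 2 := by
      calc (p : ℤ) ^ 2 * (p : ℤ) ^ 2 = (p : ℤ) ^ 4 := by ring
        _ ≤ _ := h6
        _ ≤ _ := h9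
        _ = _ := by ring
    have h11 : (p : ℤ) ^ 2 ≤ (w₁ * w₂) := le_of_mul_le_mul_right h10 (by positivity)
    have h12 : (p : ℤ) ≤ (p : ℤ) ^ 2 := by nlinarith
    have h13 : (p : ℤ) ≤ w₁ * w₂ := h12.trans h11
    exact_mod_cast h13

/-- the congruence modulo `s ^ 2` -/
theorem A2_ineq {p s b e g k w : ℕ} (hp : 3 ≤ p) (hk : 1 ≤ k) (hw : 1 ≤ w)
    (hsig : s ^ 2 + s + 1 = p ^ e * w) (hb : b = e + g)
    (hd : s ^ 2 ∣ (p ^ (b + 1) + k * (p - 1) - 1)) :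
    s ^ 2 + w ≤ p ^ (g + 1) * (s + 1) + w * (k * (p - 1)) := by
  obtain ⟨m, rfl⟩ : ∃ m, p = m + 1 := ⟨p - 1, by omega⟩
  simp only [Nat.add_sub_cancel] at *
  have hkm : 1 ≤ k * m := Nat.mul_pos hk (by omega)
  have hz : (s : ℤ) ^ 2 + s + 1 = ((m : ℤ) + 1) ^ e * w := by exact_mod_cast hsig
  have hd' : ((s ^ 2 : ℕ) : ℤ) ∣ (((m + 1) ^ (b + 1) + k * m - 1 : ℕ) : ℤ) := by exact_mod_cast hd
  rw [Nat.cast_sub (by omega)] at hd'
  push_cast at hd'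
  have h2 : (s : ℤ) ^ 2 ∣ ((m : ℤ) + 1) ^ (g + 1) * (s + 1) + w * (k * m) - w := by
    have e1 : ((m : ℤ) + 1) ^ (g + 1) * (s + 1) + w * (k * m) - w =
        w * (((m : ℤ) + 1) ^ (b + 1) + k * m - 1) - ((m : ℤ) + 1) ^ (g + 1) * (s : ℤ) ^ 2 := by
      have : ((m : ℤ) + 1) ^ (b + 1) = ((m : ℤ) + 1) ^ (g + 1) * ((m : ℤ) + 1) ^ e := by
        rw [hb]; ring
      rw [this]
      linear_combination ((m : ℤ) + 1) ^ (g + 1) * hz
    rw [e1]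
    exact dvd_sub (Dvd.dvd.mul_left hd' _) (Dvd.intro_left _ rfl)
  have hkm' : (1 : ℤ) ≤ k * m := by exact_mod_cast hkm
  have hw' : (1 : ℤ) ≤ w := by exact_mod_cast hw
  have h3 : (0 : ℤ) < ((m : ℤ) + 1) ^ (g + 1) * (s + 1) := by positivity
  have h4 := Int.le_of_dvd (by nlinarith) h2
  have h5 : (s : ℤ) ^ 2 + w ≤ ((m : ℤ) + 1) ^ (g + 1) * (s + 1) + w * (k * m) := by linarith
  exact_mod_cast h5

end Pool.Agent.Lib.MP_f02ea4_nt.TL
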