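import Mathlib
import Pool.Agent.Lib.MP_f02ea4_nt.TLBasic
import Pool.Agent.Lib.MP_f02ea4_nt.TLPure

/-!
# The case when the payer `p` is the second largest prime and `b = 2`
-/

set_option autoImplicit false

namespace Pool.Agent.Lib.MP_f02ea4_nt.TL

open Finset

variable {N q p b k v n c u : ℕ} {e w : ℕ → ℕ}

/-- a sum equal to two -/
theorem sum_two {S : Finset ℕ} {e : ℕ → ℕ} (h : ∑ r ∈ S, e r = 2) :
    (∃ r ∈ S, e r = 2) ∨ ∃ r₁ ∈ S, ∃ r₂ ∈ S, r₁ ≠ r₂ ∧ e r₁ = 1 ∧ e r₂ = 1 ∧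
      ∀ r ∈ S, r ≠ r₁ → r ≠ r₂ → e r = 0 := by
  classical
  have h0 : ∃ r ∈ S, e r ≠ 0 := by
    by_contra hcon
    push Not at hcon
    rw [Finset.sum_eq_zero hcon] at h
    omega
  obtain ⟨r₁, hr₁, he₁⟩ := h0
  have h1 : e r₁ + ∑ r ∈ S.erase r₁, e r = 2 := by
    rw [Finset.add_sum_erase S e hr₁, h]
  rcases Nat.lt_or_ge (e r₁) 2 with h2 | h2
  · right
    have h3 : e r₁ = 1 := by omega
    have h4 : ∑ r ∈ S.erase r₁, e r = 1 := by omega
    have h5 : ∃ r ∈ S.erase r₁, e r ≠ 0 := by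
      by_contra hcon
      push Not at hcon
      rw [Finset.sum_eq_zero hcon] at h4
      omega
    obtain ⟨r₂, hr₂, he₂⟩ := h5
    have h6 : e r₂ + ∑ r ∈ (S.erase r₁).erase r₂, e r = 1 := by
      rw [Finset.add_sum_erase _ e hr₂, h4]
    refine ⟨r₁, hr₁, r₂, Finset.mem_of_mem_erase hr₂, (Finset.ne_of_mem_erase hr₂).symm, h3,
      by omega, ?_⟩
    intro r hr hr1 hr2
    have h7 : ∑ r ∈ (S.erase r₁).erase r₂, e r = 0 := by omega
    exact Finset.sum_eq_zero_iff.1 h7 r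
      (Finset.mem_erase.2 ⟨hr2, Finset.mem_erase.2 ⟨hr1, hr⟩⟩)
  · left
    exact ⟨r₁, hr₁, by omega⟩

/-- `k q = p² + p + 1` -/
theorem Cfg.kq2 (C : Cfg N q p 2 k v n c u e w) : k * q = p ^ 2 + p + 1 := by
  have h := C.sigp
  obtain ⟨m, rfl⟩ : ∃ m, p = m + 1 := ⟨p - 1, by have := C.p3; omega⟩
  simp only [Nat.add_sub_cancel] at h
  have hm : 0 < m := by have := C.p3; omega
  have h1 : m * (k * q) = m * ((m + 1) ^ 2 + (m + 1) + 1) := by
    have : m * (k * q) + 1 = m * ((m + 1) ^ 2 + (m + 1) + 1) + 1 := by rw [h]; ring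
    omega
  exact Nat.eq_of_mul_eq_mul_left hm h1

theorem Cfg.k_lt (C : Cfg N q p 2 k v n c u e w) (hpq : p < q) : k < p := by
  have h1 := C.kq2
  obtain ⟨x, hx⟩ := C.podd
  obtain ⟨y, hy⟩ := C.qodd
  have h2 : p + 2 ≤ q := by omega
  by_contra hcon
  push Not at hcon
  have h3 : p * (p + 2) ≤ k * q := Nat.mul_le_mul hcon h2
  nlinarith [C.p3]

theorem Cfg.c0 (C : Cfg N q p 2 k v n c u e w) (hpq : p < q) : c = 0 := by
  by_contra hc
  have h1 : p ∣ q + 1 := by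
    rw [C.hu]
    exact (dvd_pow_self p hc).mul_right u
  have h2 : p ∣ k * (q + 1) := h1.mul_left k
  have h3 : k * (q + 1) = p * (p + 1) + (k + 1) := by
    have := C.kq2
    have e1 : k * (q + 1) = k * q + k := by ring
    rw [e1, this]; ring
  rw [h3] at h2
  have h4 : p ∣ k + 1 := (Nat.dvd_add_right (dvd_mul_right _ _)).1 h2
  have h5 := Nat.le_of_dvd (by omega) h4
  have h6 := C.k_lt hpq
  have h7 : p = k + 1 := by omega
  obtain ⟨x, hx⟩ := C.podd
  obtain ⟨y, hy⟩ := C.kodd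
  omega

theorem Cfg.loc2 (C : Cfg N q p 2 k v n c u e w) {r : ℕ} (hr : r ∈ n.primeFactors) :
    ∃ j x, n.factorization r = j + x ∧ r ^ x ∣ v ∧ r ^ j ∣ p ^ 2 + p + 1 + k := by
  obtain ⟨j, x, h1, h2, h3, -⟩ := C.loc hr
  refine ⟨j, x, h1, h2, ?_⟩
  have h4 : k * (q + 1) = p ^ 2 + p + 1 + k := by rw [← C.kq2]; ring
  rwa [h4] at h3

theorem Cfg.pow_le_sig (C : Cfg N q p b k v n c u e w) {r : ℕ} (hr : r ∈ n.primeFactors) :
    r ^ n.factorization r ≤ w r * p ^ e r := by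
  have h1 := C.sig r hr
  have h2 := C.r3 hr
  obtain ⟨m, hm⟩ : ∃ m, r = m + 1 := ⟨r - 1, by omega⟩
  have h3 : r - 1 = m := by omega
  rw [h3, pow_succ] at h1
  have h4 : r ^ n.factorization r * r = r ^ n.factorization r * m + r ^ n.factorization r := by
    conv_lhs => rw [hm]
    rw [hm]; ring
  have h5 : 0 < r ^ n.factorization r := by positivity
  rw [h4] at h1
  by_contra hcon
  push Not at hcon
  have h6 : m * (w r * p ^ e r) ≤ m * r ^ n.factorization r := Nat.mul_le_mul_left _ hcon.le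
  have h7 : m * (w r * p ^ e r + 1) ≤ m * r ^ n.factorization r := Nat.mul_le_mul_left _ hcon
  nlinarith

theorem Cfg.sig_le (C : Cfg N q p b k v n c u e w) {r : ℕ} (hr : r ∈ n.primeFactors) :
    w r * p ^ e r ≤ 2 * r ^ n.factorization r := by
  have h := C.un {r} (Finset.singleton_subset_iff.2 hr)
  simpa using h

/-- the bound in the case of one component with `p² ∣ σ` -/
theorem Cfg.alpha (C : Cfg N q p 2 k v n c u e w) (hpq : p < q)
    (hs : ∀ r ∈ n.primeFactors, r < p) {r : ℕ} (hr : r ∈ n.primeFactors) (her : e r = 2) :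
    p ^ 3 ≤ 64 * v ^ 6 := by
  have hr3 := C.r3 hr
  have hsig := C.sig r hr
  rw [her] at hsig
  obtain ⟨j, x, ha, hx, hj⟩ := C.loc2 hr
  have h1 := alpha_ineq C.p3 hr3 (C.w1 r hr) ha hsig hj
  have h2 := C.k_lt hpq
  have h3 : p < 2 * (r ^ x * r) := by
    have h4 : p * p < p * (2 * (r ^ x * r)) := by
      calc p * p = p ^ 2 := by ring
        _ < _ := h1
        _ ≤ r ^ x * ((2 * p) * r) := Nat.mul_le_mul_left _ (Nat.mul_le_mul_right _ (by omega))
        _ = _ := by ring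
    exact lt_of_mul_lt_mul_left h4 (Nat.zero_le _)
  have h5 := C.pow_le_sig hr
  rw [her] at h5
  have h6 := C.a2 hr
  have h7 : 4 ≤ n.factorization r := by
    by_contra hcon
    have h8 : n.factorization r = 2 := by
      obtain ⟨z, hz⟩ := C.even r hr
      omega
    rw [h8] at hsig
    have h9 := hs r hr
    have hw := C.w1 r hr
    obtain ⟨m, hm⟩ : ∃ m, r = m + 1 := ⟨r - 1, by omega⟩
    have h10 : r - 1 = m := by omega
    rw [h10] at hsig
    have h11 : m * (w r * p ^ 2) = m * (r ^ 2 + r + 1) := by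
      have : m * (w r * p ^ 2) + 1 = m * (r ^ 2 + r + 1) + 1 := by rw [hsig, hm]; ring
      omega
    have h12 := Nat.eq_of_mul_eq_mul_left (by omega) h11
    have h13 : 1 * p ^ 2 ≤ w r * p ^ 2 := Nat.mul_le_mul_right _ hw
    nlinarith
  have h8 : r ^ 4 ≤ w r * p ^ 2 := (Nat.pow_le_pow_right (by omega) h7).trans h5
  have h9 := C.Lw_le hr hx
  have hw := C.w1 r hr
  -- `p² ≤ 16 v⁴`
  have h10 : p ^ 2 * p ^ 2 ≤ (16 * v ^ 4) * p ^ 2 := by
    calc p ^ 2 * p ^ 2 = p ^ 4 := by ring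
      _ ≤ (2 * (r ^ x * r)) ^ 4 := Nat.pow_le_pow_left h3.le 4
      _ = 16 * (r ^ x) ^ 4 * r ^ 4 := by ring
      _ ≤ 16 * (r ^ x) ^ 4 * (w r * p ^ 2) := Nat.mul_le_mul_left _ h8
      _ = 16 * ((r ^ x) ^ 4 * w r ^ 1) * p ^ 2 := by ring
      _ ≤ 16 * ((r ^ x) ^ 4 * w r ^ 4) * p ^ 2 := by
          apply Nat.mul_le_mul_right
          apply Nat.mul_le_mul_left
          apply Nat.mul_le_mul_left
          exact Nat.pow_le_pow_right hw (by norm_num)
      _ = 16 * (r ^ x * w r) ^ 4 * p ^ 2 := by rw [mul_pow]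
      _ ≤ 16 * v ^ 4 * p ^ 2 := by
          apply Nat.mul_le_mul_right
          apply Nat.mul_le_mul_left
          exact Nat.pow_le_pow_left h9 4
  have h11 : p ^ 2 ≤ 16 * v ^ 4 := le_of_mul_le_mul_right h10 (C.ppow 2)
  have h12 : p ≤ 4 * v ^ 2 := by
    have : p ^ 2 ≤ (4 * v ^ 2) ^ 2 := by
      calc p ^ 2 ≤ 16 * v ^ 4 := h11
        _ = _ := by ring
    exact le_of_pow_le_pow_left₀ (by norm_num) (Nat.zero_le _) this
  calc p ^ 3 ≤ (4 * v ^ 2) ^ 3 := Nat.pow_le_pow_left h12 3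
    _ = _ := by ring

end Pool.Agent.Lib.MP_f02ea4_nt.TL
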