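import Mathlib
import Pool.Agent.Lib.MP_f02ea4_nt.TLSecond

/-!
# The case when the payer `p` is the second largest prime and `b = 2`: two components with `p ∥ σ`
-/

set_option autoImplicit false

namespace Pool.Agent.Lib.MP_f02ea4_nt.TL

open Finset

variable {N q p b k v n c u : ℕ} {e w : ℕ → ℕ}

/-- `p < r ^ x (k + 1) w r (r - 1)` -/
theorem Cfg.beta0 (C : Cfg N q p 2 k v n c u e w) {r j x : ℕ} (hr : r ∈ n.primeFactors)
    (her : e r = 1) (ha : n.factorization r = j + x) (hj : r ^ j ∣ p ^ 2 + p + 1 + k) :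
    p < r ^ x * ((k + 1) * (w r * (r * (r - 1)))) := by
  have hsig := C.sig r hr
  rw [her, pow_one] at hsig
  exact beta_ineq C.k1 (C.r3 hr) (C.w1 r hr) ha hsig hj

/-- the same, with `r²` -/
theorem Cfg.beta1 (C : Cfg N q p 2 k v n c u e w) {r j x : ℕ} (hr : r ∈ n.primeFactors)
    (her : e r = 1) (ha : n.factorization r = j + x) (hj : r ^ j ∣ p ^ 2 + p + 1 + k) :
    p < (k + 1) * (r ^ x * w r) * r ^ 2 := by
  have h := C.beta0 hr her ha hj
  calc p < _ := h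
    _ ≤ r ^ x * ((k + 1) * (w r * (r * r))) := by
        apply Nat.mul_le_mul_left
        apply Nat.mul_le_mul_left
        apply Nat.mul_le_mul_left
        apply Nat.mul_le_mul_left
        omega
    _ = _ := by ring

/-- a component with exponent at least six -/
theorem Cfg.beta_six (C : Cfg N q p 2 k v n c u e w) {r : ℕ} (hr : r ∈ n.primeFactors)
    (her : e r = 1) (ha6 : 6 ≤ n.factorization r) : p ^ 3 ≤ 23 * (k ^ 7 * v ^ 6) := by
  obtain ⟨j, x, ha, hx, hj⟩ := C.loc2 hr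
  have h1 := C.beta1 hr her ha hj
  have h2 := C.Lw_le hr hx
  have h3 := C.pow_le_sig hr
  rw [her, pow_one] at h3
  have hr3 := C.r3 hr
  have h4 : r ^ 6 ≤ w r * p := (Nat.pow_le_pow_right (by omega) ha6).trans h3
  have h5 := C.w_le hr
  have hk := C.k1
  have h6 : p < (2 * k) * v * r ^ 2 := by
    calc p < _ := h1
      _ ≤ (2 * k) * v * r ^ 2 := by
        apply Nat.mul_le_mul_right
        exact Nat.mul_le_mul (by omega) h2
  have h7 : p ^ 2 * p ≤ 8 * (k ^ 3 * v ^ 4) * p := by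
    calc p ^ 2 * p = p ^ 3 := by ring
      _ ≤ ((2 * k) * v * r ^ 2) ^ 3 := Nat.pow_le_pow_left h6.le 3
      _ = 8 * k ^ 3 * v ^ 3 * r ^ 6 := by ring
      _ ≤ 8 * k ^ 3 * v ^ 3 * (v * p) :=
          Nat.mul_le_mul_left _ (h4.trans (Nat.mul_le_mul_right _ h5))
      _ = _ := by ring
  have h8 : p ^ 2 ≤ 8 * (k ^ 3 * v ^ 4) := le_of_mul_le_mul_right h7 C.hp.pos
  have h9 : (p ^ 3) ^ 2 ≤ (23 * (k ^ 7 * v ^ 6)) ^ 2 := by
    calc (p ^ 3) ^ 2 = (p ^ 2) ^ 3 := by ring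
      _ ≤ (8 * (k ^ 3 * v ^ 4)) ^ 3 := Nat.pow_le_pow_left h8 3
      _ = 512 * (k ^ 9 * v ^ 12) := by ring
      _ ≤ 529 * (k ^ 14 * v ^ 12) := by
          apply Nat.mul_le_mul (by norm_num)
          apply Nat.mul_le_mul_right
          exact Nat.pow_le_pow_right hk (by norm_num)
      _ = _ := by ring
  exact le_of_pow_le_pow_left₀ (by norm_num) (Nat.zero_le _) h9

/-- expanded divisor sum, exponent two -/
theorem Cfg.sig2 (C : Cfg N q p b k v n c u e w) {r : ℕ} (hr : r ∈ n.primeFactors)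
    (ha : n.factorization r = 2) : w r * p ^ e r = r ^ 2 + r + 1 := by
  have hsig := C.sig r hr
  rw [ha] at hsig
  have hr3 := C.r3 hr
  obtain ⟨m, hm⟩ : ∃ m, r = m + 1 := ⟨r - 1, by omega⟩
  have h10 : r - 1 = m := by omega
  rw [h10] at hsig
  have h11 : m * (w r * p ^ e r) = m * (r ^ 2 + r + 1) := by
    have : m * (w r * p ^ e r) + 1 = m * (r ^ 2 + r + 1) + 1 := by rw [hsig, hm]; ring
    omega
  exact Nat.eq_of_mul_eq_mul_left (by omega) h11

/-- expanded divisor sum, exponent four -/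
theorem Cfg.sig4 (C : Cfg N q p b k v n c u e w) {r : ℕ} (hr : r ∈ n.primeFactors)
    (ha : n.factorization r = 4) : w r * p ^ e r = r ^ 4 + r ^ 3 + r ^ 2 + r + 1 := by
  have hsig := C.sig r hr
  rw [ha] at hsig
  have hr3 := C.r3 hr
  obtain ⟨m, hm⟩ : ∃ m, r = m + 1 := ⟨r - 1, by omega⟩
  have h10 : r - 1 = m := by omega
  rw [h10] at hsig
  have h11 : m * (w r * p ^ e r) = m * (r ^ 4 + r ^ 3 + r ^ 2 + r + 1) := by
    have : m * (w r * p ^ e r) + 1 = m * (r ^ 4 + r ^ 3 + r ^ 2 + r + 1) + 1 := by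
      rw [hsig, hm]; ring
    omega
  exact Nat.eq_of_mul_eq_mul_left (by omega) h11

/-- both exponents equal to two -/
theorem Cfg.beta_two_two (C : Cfg N q p 2 k v n c u e w) (hs : ∀ r ∈ n.primeFactors, r < p)
    {r₁ r₂ : ℕ} (hr₁ : r₁ ∈ n.primeFactors) (hr₂ : r₂ ∈ n.primeFactors) (hne : r₁ ≠ r₂)
    (he₁ : e r₁ = 1) (he₂ : e r₂ = 1) (ha₁ : n.factorization r₁ = 2)
    (ha₂ : n.factorization r₂ = 2) : p ≤ 4 * v := by
  have h1 := C.sig2 hr₁ ha₁
  have h2 := C.sig2 hr₂ ha₂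
  rw [he₁, pow_one] at h1
  rw [he₂, pow_one] at h2
  rcases two_two C.hp (hs r₁ hr₁) (hs r₂ hr₂) hne h1 h2 with h | h
  · exact h.trans (Nat.mul_le_mul_left _ (C.w_le hr₁))
  · exact h.trans (Nat.mul_le_mul_left _ (C.w_le hr₂))

/-- both exponents equal to four -/
theorem Cfg.beta_four_four (C : Cfg N q p 2 k v n c u e w) (hs : ∀ r ∈ n.primeFactors, r < p)
    {r₁ r₂ : ℕ} (hr₁ : r₁ ∈ n.primeFactors) (hr₂ : r₂ ∈ n.primeFactors) (hne : r₁ ≠ r₂)
    (he₁ : e r₁ = 1) (he₂ : e r₂ = 1) (ha₁ : n.factorization r₁ = 4)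
    (ha₂ : n.factorization r₂ = 4) : p ≤ v := by
  have h1 := C.sig4 hr₁ ha₁
  have h2 := C.sig4 hr₂ ha₂
  rw [he₁, pow_one] at h1
  rw [he₂, pow_one] at h2
  exact (four_four C.hp (hs r₁ hr₁) (hs r₂ hr₂) (C.rprime hr₁) (C.rprime hr₂) hne h1 h2).trans
    (C.ww hr₁ hr₂ hne)

/-- exponent two: `p ≤ 2 v` or `p ≤ 32 k² w³` -/
theorem Cfg.two_bound (C : Cfg N q p 2 k v n c u e w) {r : ℕ} (hr : r ∈ n.primeFactors)
    (her : e r = 1) (ha : n.factorization r = 2) : p ≤ 2 * v ∨ p ≤ 32 * (k ^ 2 * w r ^ 3) := by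
  obtain ⟨j, x, hjx, hx, hj⟩ := C.loc2 hr
  have h1 := C.sig2 hr ha
  rw [her, pow_one] at h1
  have hr3 := C.r3 hr
  have hw := C.w1 r hr
  have hk := C.k1
  have h2 : w r * p ≤ 2 * r ^ 2 := by rw [h1]; nlinarith
  rcases Nat.eq_zero_or_pos j with h0 | h0
  · left
    have hx2 : x = 2 := by omega
    rw [hx2] at hx
    have h3 : r ^ 2 ≤ v := Nat.le_of_dvd C.v1 hx
    calc p = 1 * p := by ring
      _ ≤ w r * p := Nat.mul_le_mul_right _ hw
      _ ≤ 2 * r ^ 2 := h2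
      _ ≤ 2 * v := by omega
  · right
    have hd : r ∣ p ^ 2 + p + 1 + k := (dvd_pow_self r (by omega)).trans hj
    have hsig := C.sig r hr
    rw [her, pow_one, ha] at hsig
    have h3 := two_ineq hr3 hw hsig hd
    have h4 : r ≤ 4 * (k * w r ^ 2) := by
      calc r ≤ (k + 3) * w r ^ 2 := h3
        _ ≤ (4 * k) * w r ^ 2 := Nat.mul_le_mul_right _ (by omega)
        _ = _ := by ring
    have h5 : w r * p ≤ w r * (32 * (k ^ 2 * w r ^ 3)) := by
      calc w r * p ≤ 2 * r ^ 2 := h2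
        _ ≤ 2 * (4 * (k * w r ^ 2)) ^ 2 := Nat.mul_le_mul_left _ (Nat.pow_le_pow_left h4 2)
        _ = _ := by ring
    exact le_of_mul_le_mul_left h5 hw

/-- the cofactor: if `e` vanishes outside `r₁, r₂` and `w r₂` is coprime to `r₁` then
`w r₁ * w r₂ ^ 2 ≤ v` -/
theorem Cfg.w_sq (C : Cfg N q p b k v n c u e w) {r₁ r₂ : ℕ} (hr₁ : r₁ ∈ n.primeFactors)
    (hr₂ : r₂ ∈ n.primeFactors) (hne : r₁ ≠ r₂)
    (he : ∀ r ∈ n.primeFactors, r ≠ r₁ → r ≠ r₂ → e r = 0) (hd : ¬ r₁ ∣ w r₂) :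
    w r₁ * w r₂ ^ 2 ≤ v := by
  classical
  set S := n.primeFactors \ {r₁, r₂} with hS
  have hsub : ({r₁, r₂} : Finset ℕ) ⊆ n.primeFactors := by
    intro z hz
    rw [Finset.mem_insert, Finset.mem_singleton] at hz
    rcases hz with rfl | rfl
    · exact hr₁
    · exact hr₂
  have h1 : (∏ r ∈ S, w r) * (w r₁ * w r₂) = v := by
    rw [← C.hv, ← Finset.prod_pair hne, hS, Finset.prod_sdiff hsub]
  have h2 : (∏ r ∈ S, r ^ n.factorization r) *
      (r₁ ^ n.factorization r₁ * r₂ ^ n.factorization r₂) = n := by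
    have h3 : ∏ r ∈ n.primeFactors, r ^ n.factorization r = n :=
      Nat.prod_factorization_pow_eq_self C.n0
    rw [← Finset.prod_pair (f := fun r => r ^ n.factorization r) hne, hS,
      Finset.prod_sdiff hsub, h3]
  have h3 : w r₂ ∣ n := (C.w_dvd hr₂).trans C.vn
  rw [← h2] at h3
  have h4 : Nat.Coprime (w r₂) (r₁ ^ n.factorization r₁ * r₂ ^ n.factorization r₂) := by
    apply Nat.Coprime.mul_right
    · exact Nat.Coprime.pow_right _
        (((Nat.Prime.coprime_iff_not_dvd (C.rprime hr₁)).2 hd).symm)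
    · exact Nat.Coprime.pow_right _ (C.cop hr₂).symm
  have h5 : w r₂ ∣ ∏ r ∈ S, r ^ n.factorization r := h4.dvd_of_dvd_mul_right h3
  have h6 : 0 < ∏ r ∈ S, r ^ n.factorization r := by
    apply Finset.prod_pos
    intro r hr
    have := (C.rprime (Finset.mem_sdiff.1 hr).1).pos
    positivity
  have h7 : w r₂ ≤ ∏ r ∈ S, w r := by
    calc w r₂ ≤ ∏ r ∈ S, r ^ n.factorization r := Nat.le_of_dvd h6 h5
      _ ≤ ∏ r ∈ S, w r := by
        apply Finset.prod_le_prod (fun _ _ => Nat.zero_le _)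
        intro r hr
        rw [hS, Finset.mem_sdiff, Finset.mem_insert, Finset.mem_singleton] at hr
        have h8 := C.pow_le_sig hr.1
        rw [he r hr.1 (fun h => hr.2 (Or.inl h)) (fun h => hr.2 (Or.inr h)), pow_zero,
          mul_one] at h8
        exact h8
  calc w r₁ * w r₂ ^ 2 = w r₂ * (w r₁ * w r₂) := by ring
    _ ≤ (∏ r ∈ S, w r) * (w r₁ * w r₂) := Nat.mul_le_mul_right _ h7
    _ = v := h1

/-- linear combination in logarithms -/
theorem log_comb {p k a d v : ℕ} (hp : 1 ≤ p) (hk : 1 ≤ k) (ha : 1 ≤ a) (hd : 1 ≤ d) (hv : 1 ≤ v)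
    (h1 : p ≤ 32 * (k ^ 2 * a ^ 3)) (h2 : p ≤ 32 * (k ^ 4 * d ^ 7)) (h3 : p * d ^ 5 ≤ 2 * v ^ 4)
    (h4 : a * d ^ 2 ≤ v) : p ^ 3 ≤ 2 ^ 14 * (k ^ 7 * v ^ 6) := by
  have hp' : (0 : ℝ) < p := by exact_mod_cast hp
  have hk' : (0 : ℝ) < k := by exact_mod_cast hk
  have ha' : (0 : ℝ) < a := by exact_mod_cast ha
  have hd' : (0 : ℝ) < d := by exact_mod_cast hd
  have hv' : (0 : ℝ) < v := by exact_mod_cast hv
  have g1 : (p : ℝ) ≤ 2 ^ 5 * (k ^ 2 * a ^ 3) := by exact_mod_cast h1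
  have g2 : (p : ℝ) ≤ 2 ^ 5 * (k ^ 4 * d ^ 7) := by exact_mod_cast h2
  have g3 : (p : ℝ) * d ^ 5 ≤ 2 ^ 1 * v ^ 4 := by
    rw [pow_one]; exact_mod_cast h3
  have g4 : (a : ℝ) * d ^ 2 ≤ v := by exact_mod_cast h4
  have l1 := Real.log_le_log hp' g1
  have l2 := Real.log_le_log hp' g2
  have l3 := Real.log_le_log (by positivity) g3
  have l4 := Real.log_le_log (by positivity) g4
  rw [Real.log_mul (by positivity) (by positivity), Real.log_mul (by positivity) (by positivity),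
    Real.log_pow, Real.log_pow, Real.log_pow] at l1 l2
  rw [Real.log_mul (by positivity) (by positivity), Real.log_mul (by positivity) (by positivity),
    Real.log_pow, Real.log_pow, Real.log_pow] at l3
  rw [Real.log_mul (by positivity) (by positivity), Real.log_pow] at l4
  have hP : 0 ≤ Real.log p := Real.log_nonneg (by exact_mod_cast hp)
  have hl2 : 0 < Real.log 2 := Real.log_pos (by norm_num)
  have goal : Real.log ((p : ℝ) ^ 3) ≤ Real.log (2 ^ 14 * ((k : ℝ) ^ 7 * v ^ 6)) := by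
    rw [Real.log_mul (by positivity) (by positivity), Real.log_mul (by positivity) (by positivity),
      Real.log_pow, Real.log_pow, Real.log_pow, Real.log_pow]
    push_cast at l1 l2 l3 l4 ⊢
    linarith
  have := (Real.log_le_log_iff (by positivity) (by positivity)).1 goal
  exact_mod_cast this

/-- exponents two and four -/
theorem Cfg.beta_two_four (C : Cfg N q p 2 k v n c u e w) (hpq : p < q)
    {r₁ r₂ : ℕ} (hr₁ : r₁ ∈ n.primeFactors) (hr₂ : r₂ ∈ n.primeFactors) (hne : r₁ ≠ r₂)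
    (he : ∀ r ∈ n.primeFactors, r ≠ r₁ → r ≠ r₂ → e r = 0)
    (he₁ : e r₁ = 1) (he₂ : e r₂ = 1) (ha₁ : n.factorization r₁ = 2)
    (ha₂ : n.factorization r₂ = 4) : p ^ 3 ≤ 2 ^ 14 * (k ^ 7 * v ^ 6) := by
  have hv1 := C.v1
  have hk1 := C.k1
  have hkp := C.k_lt hpq
  have hp1 : 1 ≤ p := C.hp.pos
  have hw1 := C.w1 r₁ hr₁
  have hw2 := C.w1 r₂ hr₂
  have hww := C.ww hr₁ hr₂ hne
  -- a bound `p ≤ 8 v ^ 2` suffices
  have fin1 : p ≤ 8 * v ^ 2 → p ^ 3 ≤ 2 ^ 14 * (k ^ 7 * v ^ 6) := by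
    intro h
    calc p ^ 3 ≤ (8 * v ^ 2) ^ 3 := Nat.pow_le_pow_left h 3
      _ = 512 * (1 * v ^ 6) := by ring
      _ ≤ 2 ^ 14 * (k ^ 7 * v ^ 6) := by
        apply Nat.mul_le_mul (by norm_num)
        apply Nat.mul_le_mul_right
        exact Nat.one_le_pow _ _ hk1
  have hvv : v ≤ v ^ 2 := by nlinarith
  rcases C.two_bound hr₁ he₁ ha₁ with hA | hA
  · apply fin1; omega
  obtain ⟨j, x, hjx, hx, hj⟩ := C.loc2 hr₂
  have hsig := C.sig4 hr₂ ha₂
  rw [he₂, pow_one] at hsig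
  have hr3 := C.r3 hr₂
  have h4 : r₂ ^ 4 ≤ w r₂ * p := by rw [hsig]; omega
  have h4' : w r₂ * p ≤ 2 * r₂ ^ 4 := by
    rw [hsig]
    have e1 : r₂ ^ 3 * 3 ≤ r₂ ^ 3 * r₂ := Nat.mul_le_mul_left _ hr3
    have e2 : r₂ ^ 2 * 3 ≤ r₂ ^ 2 * r₂ := Nat.mul_le_mul_left _ hr3
    have e3 : r₂ * 3 ≤ r₂ * r₂ := Nat.mul_le_mul_left _ hr3
    have e4 : r₂ ^ 4 = r₂ ^ 3 * r₂ := by ring
    have e5 : r₂ ^ 3 = r₂ ^ 2 * r₂ := by ring
    have e6 : r₂ ^ 2 = r₂ * r₂ := by ring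
    omega
  have hB := C.beta1 hr₂ he₂ hjx hj
  have hLw := C.Lw_le hr₂ hx
  rcases Nat.lt_or_ge x 2 with hx2 | hx2
  · rcases Nat.eq_zero_or_pos x with hx0 | hx0
    · -- `x = 0`
      rw [hx0, pow_zero, one_mul] at hB
      have h5 : p < 2 * (k * (w r₂ * r₂ ^ 2)) := by
        calc p < _ := hB
          _ ≤ (2 * k) * w r₂ * r₂ ^ 2 := by
            apply Nat.mul_le_mul_right
            apply Nat.mul_le_mul_right
            omega
          _ = _ := by ring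
      have h6 : p * p ≤ (4 * (k ^ 2 * w r₂ ^ 3)) * p := by
        calc p * p = p ^ 2 := by ring
          _ ≤ (2 * (k * (w r₂ * r₂ ^ 2))) ^ 2 := Nat.pow_le_pow_left h5.le 2
          _ = 4 * (k ^ 2 * w r₂ ^ 2) * r₂ ^ 4 := by ring
          _ ≤ 4 * (k ^ 2 * w r₂ ^ 2) * (w r₂ * p) := Nat.mul_le_mul_left _ h4
          _ = _ := by ring
      have h7 : p ≤ 4 * (k ^ 2 * w r₂ ^ 3) := le_of_mul_le_mul_right h6 hp1
      have h8 : p ^ 2 ≤ 128 * (k ^ 4 * v ^ 3) := by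
        calc p ^ 2 = p * p := by ring
          _ ≤ (32 * (k ^ 2 * w r₁ ^ 3)) * (4 * (k ^ 2 * w r₂ ^ 3)) := Nat.mul_le_mul hA h7
          _ = 128 * (k ^ 4 * (w r₁ * w r₂) ^ 3) := by ring
          _ ≤ _ := by
            apply Nat.mul_le_mul_left
            apply Nat.mul_le_mul_left
            exact Nat.pow_le_pow_left hww 3
      have h9 : p ^ 3 * p ≤ 2 ^ 14 * (k ^ 7 * v ^ 6) * p := by
        calc p ^ 3 * p = (p ^ 2) ^ 2 := by ring
          _ ≤ (128 * (k ^ 4 * v ^ 3)) ^ 2 := Nat.pow_le_pow_left h8 2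
          _ = 2 ^ 14 * (k ^ 7 * v ^ 6) * k := by ring
          _ ≤ _ := Nat.mul_le_mul_left _ hkp.le
      exact le_of_mul_le_mul_right h9 hp1
    · -- `x = 1`
      have hx1 : x = 1 := by omega
      rw [hx1, pow_one] at hB hLw
      by_cases hd : r₁ ∣ w r₂
      · have h5 : r₁ ≤ w r₂ := Nat.le_of_dvd hw2 hd
        have h6 : w r₁ * r₁ ≤ v := (Nat.mul_le_mul_left _ h5).trans hww
        have h7 := C.sig2 hr₁ ha₁
        rw [he₁, pow_one] at h7
        have h8 : w r₁ * p ≤ 2 * r₁ ^ 2 := by rw [h7]; nlinarith [C.r3 hr₁]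
        apply fin1
        calc p = 1 * p := by ring
          _ ≤ w r₁ ^ 3 * p := Nat.mul_le_mul_right _ (Nat.one_le_pow _ _ hw1)
          _ = w r₁ ^ 2 * (w r₁ * p) := by ring
          _ ≤ w r₁ ^ 2 * (2 * r₁ ^ 2) := Nat.mul_le_mul_left _ h8
          _ = 2 * (w r₁ * r₁) ^ 2 := by ring
          _ ≤ 2 * v ^ 2 := Nat.mul_le_mul_left _ (Nat.pow_le_pow_left h6 2)
          _ ≤ _ := by omega
      · have h5 := C.w_sq hr₁ hr₂ hne he hd
        have h6 : r₂ ≤ 2 * (k * w r₂ ^ 2) := by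
          have h7 : r₂ ^ 3 * r₂ ≤ r₂ ^ 3 * (2 * (k * w r₂ ^ 2)) := by
            calc r₂ ^ 3 * r₂ = r₂ ^ 4 := by ring
              _ ≤ w r₂ * p := h4
              _ ≤ w r₂ * ((k + 1) * (r₂ * w r₂) * r₂ ^ 2) := Nat.mul_le_mul_left _ hB.le
              _ ≤ w r₂ * ((2 * k) * (r₂ * w r₂) * r₂ ^ 2) := by
                apply Nat.mul_le_mul_left
                apply Nat.mul_le_mul_right
                apply Nat.mul_le_mul_right
                omega
              _ = _ := by ring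
          exact le_of_mul_le_mul_left h7 (by positivity)
        have h7 : p ≤ 32 * (k ^ 4 * w r₂ ^ 7) := by
          have h8 : w r₂ * p ≤ w r₂ * (32 * (k ^ 4 * w r₂ ^ 7)) := by
            calc w r₂ * p ≤ 2 * r₂ ^ 4 := h4'
              _ ≤ 2 * (2 * (k * w r₂ ^ 2)) ^ 4 :=
                Nat.mul_le_mul_left _ (Nat.pow_le_pow_left h6 4)
              _ = _ := by ring
          exact le_of_mul_le_mul_left h8 hw2
        have h8 : p * w r₂ ^ 5 ≤ 2 * v ^ 4 := by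
          calc p * w r₂ ^ 5 = (w r₂ * p) * w r₂ ^ 4 := by ring
            _ ≤ (2 * r₂ ^ 4) * w r₂ ^ 4 := Nat.mul_le_mul_right _ h4'
            _ = 2 * (r₂ * w r₂) ^ 4 := by ring
            _ ≤ _ := Nat.mul_le_mul_left _ (Nat.pow_le_pow_left hLw 4)
        exact log_comb hp1 hk1 hw1 hw2 hv1 hA h7 h8 h5
  · -- `2 ≤ x`
    have h5 : r₂ ^ 2 * w r₂ ≤ v :=
      (Nat.mul_le_mul_right _ (Nat.pow_le_pow_right (by omega) hx2)).trans hLw
    apply fin1
    calc p = 1 * p := by ring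
      _ ≤ w r₂ ^ 3 * p := Nat.mul_le_mul_right _ (Nat.one_le_pow _ _ hw2)
      _ = w r₂ ^ 2 * (w r₂ * p) := by ring
      _ ≤ w r₂ ^ 2 * (2 * r₂ ^ 4) := Nat.mul_le_mul_left _ h4'
      _ = 2 * (r₂ ^ 2 * w r₂) ^ 2 := by ring
      _ ≤ 2 * v ^ 2 := Nat.mul_le_mul_left _ (Nat.pow_le_pow_left h5 2)
      _ ≤ _ := by omega

/-- the case `b = 2`, `p` larger than the prime factors of `n` -/
theorem Cfg.second (C : Cfg N q p 2 k v n c u e w) (hpq : p < q)
    (hs : ∀ r ∈ n.primeFactors, r < p) : p ^ 3 ≤ 2 ^ 14 * (k ^ 7 * v ^ 6) := by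
  have hc := C.c0 hpq
  have hsum := C.sum
  rw [hc, zero_add] at hsum
  have hk1 := C.k1
  have hv1 := C.v1
  have hk7 : 1 ≤ k ^ 7 := Nat.one_le_pow _ _ hk1
  have fin0 : ∀ m, p ^ 3 ≤ m * v ^ 6 → m ≤ 2 ^ 14 → p ^ 3 ≤ 2 ^ 14 * (k ^ 7 * v ^ 6) := by
    intro m h1 h2
    calc p ^ 3 ≤ m * v ^ 6 := h1
      _ = m * (1 * v ^ 6) := by ring
      _ ≤ _ := Nat.mul_le_mul h2 (Nat.mul_le_mul_right _ hk7)
  have hv36 : v ^ 3 ≤ v ^ 6 := Nat.pow_le_pow_right hv1 (by norm_num)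
  rcases sum_two hsum with ⟨r, hr, her⟩ | ⟨r₁, hr₁, r₂, hr₂, hne, he₁, he₂, he⟩
  · exact fin0 64 (C.alpha hpq hs hr her) (by norm_num)
  · by_cases h6 : 6 ≤ n.factorization r₁ ∨ 6 ≤ n.factorization r₂
    · have h7 : p ^ 3 ≤ 23 * (k ^ 7 * v ^ 6) := by
        rcases h6 with h | h
        · exact C.beta_six hr₁ he₁ h
        · exact C.beta_six hr₂ he₂ h
      exact h7.trans (Nat.mul_le_mul_right _ (by norm_num))
    · push Not at h6
      obtain ⟨x, hx⟩ := C.even r₁ hr₁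
      obtain ⟨y, hy⟩ := C.even r₂ hr₂
      have h2 := C.a2 hr₁
      have h3 := C.a2 hr₂
      have h4 : n.factorization r₁ = 2 ∨ n.factorization r₁ = 4 := by omega
      have h5 : n.factorization r₂ = 2 ∨ n.factorization r₂ = 4 := by omega
      rcases h4 with h4 | h4
      · rcases h5 with h5 | h5
        · have h := C.beta_two_two hs hr₁ hr₂ hne he₁ he₂ h4 h5
          apply fin0 64 _ (by norm_num)
          calc p ^ 3 ≤ (4 * v) ^ 3 := Nat.pow_le_pow_left h 3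
            _ = 64 * v ^ 3 := by ring
            _ ≤ _ := Nat.mul_le_mul_left _ hv36
        · exact C.beta_two_four hpq hr₁ hr₂ hne he he₁ he₂ h4 h5
      · rcases h5 with h5 | h5
        · exact C.beta_two_four hpq hr₂ hr₁ hne.symm (fun r hr h1 h2 => he r hr h2 h1) he₂ he₁ h5 h4
        · have h := C.beta_four_four hs hr₁ hr₂ hne he₁ he₂ h4 h5
          apply fin0 1 _ (by norm_num)
          calc p ^ 3 ≤ v ^ 3 := Nat.pow_le_pow_left h 3
            _ ≤ v ^ 6 := hv36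
            _ = _ := by ring

end Pool.Agent.Lib.MP_f02ea4_nt.TL
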