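import Mathlib
import Pool.Agent.Lib.MP_f02ea4_nt.TLDefs

/-! The two largest prime factors of an odd perfect number: the data attached to `P ∥ N`,
`q ^ b ∥ N`, `P ∣ σ(q ^ b)`. -/

set_option autoImplicit false

namespace Pool.Agent.Lib.MP_f02ea4_nt.TL

open Finset Real
open ArithmeticFunction (sigma)

private lemma E_geom {r : ℕ} (hr : r.Prime) (e : ℕ) :
    (r - 1) * sigma 1 (r ^ e) + 1 = r ^ (e + 1) := by
  rw [ArithmeticFunction.sigma_one_apply_prime_pow hr]
  have key : ∀ m, (r - 1) * ∑ k ∈ range m, r ^ k + 1 = r ^ m := by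
    intro m
    induction m with
    | zero => simp
    | succ m ih =>
      rw [Finset.sum_range_succ, Nat.mul_add, Nat.add_right_comm, ih, pow_succ]
      obtain ⟨q, hq⟩ : ∃ q, r = q + 1 := ⟨r - 1, by have := hr.pos; omega⟩
      rw [hq, Nat.add_sub_cancel]
      ring
  exact key (e + 1)

private lemma E_sigma_even {r e : ℕ} (hr : r.Prime) (hodd : Odd r) (he : Odd e) :
    Even (sigma 1 (r ^ e)) := by
  rw [ArithmeticFunction.sigma_one_apply_prime_pow hr]
  have key : ∀ c : ℕ, Even (∑ k ∈ range (2 * c), r ^ k) := by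
    intro c
    induction c with
    | zero => simp
    | succ c ih =>
      rw [show 2 * (c + 1) = 2 * c + 1 + 1 by ring, Finset.sum_range_succ, Finset.sum_range_succ,
        add_assoc]
      exact ih.add (hodd.pow.add_odd hodd.pow)
  obtain ⟨c, hc⟩ := he
  rw [show e + 1 = 2 * (c + 1) by omega]
  exact key (c + 1)

private lemma E_not_dvd {r : ℕ} (hr : r.Prime) (e : ℕ) : ¬ r ∣ sigma 1 (r ^ e) := by
  intro hd
  have h1 : r ∣ (r - 1) * sigma 1 (r ^ e) := Dvd.dvd.mul_left hd _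
  have h2 : r ∣ r ^ (e + 1) := dvd_pow_self _ (by omega)
  rw [← E_geom hr e] at h2
  have := Nat.dvd_one.mp ((Nat.dvd_add_right h1).mp h2)
  exact hr.one_lt.ne' this

/-- the bound `q ^ f ≤ 2 m` -/
private lemma E_qf {q m P f b : ℕ} (hq3 : 3 ≤ q) (hm : 1 ≤ m) (hfb : f ≤ b + 1)
    (hsig : (q - 1) * (m * P) + 1 = q ^ (b + 1)) (hf : q ^ f ∣ P + 1) : q ^ f ≤ 2 * m := by
  obtain ⟨c, rfl⟩ : ∃ c, q = c + 3 := ⟨q - 3, by omega⟩
  rw [show c + 3 - 1 = c + 2 by omega] at hsig
  have h1 : (c + 3) ^ f ∣ (c + 2) * (m * P) + 1 := by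
    rw [hsig]; exact pow_dvd_pow _ hfb
  have h2 : (c + 3) ^ f ∣ (c + 2) * m * (P + 1) := Dvd.dvd.mul_left hf _
  have h3 : (c + 2) * m * (P + 1) = ((c + 2) * (m * P) + 1) + ((c + 2) * m - 1) := by
    have : 1 ≤ (c + 2) * m := Nat.mul_pos (by omega) hm
    have h4 : (c + 2) * m * (P + 1) = (c + 2) * (m * P) + (c + 2) * m := by ring
    omega
  rw [h3] at h2
  obtain ⟨j, hj⟩ := (Nat.dvd_add_right h1).mp h2
  have hm2 : 2 ≤ (c + 2) * m := by nlinarith
  -- `j ≡ -1` modulo `q - 1`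
  have h5 : (c + 2) ∣ j + 1 := by
    have h6 : (c + 3) ^ f ≡ 1 [MOD (c + 2)] := by
      have : c + 3 ≡ 1 [MOD (c + 2)] := by
        have : c + 3 = 1 + (c + 2) := by ring
        rw [this]
        simp [Nat.ModEq]
      simpa using this.pow f
    have h7 : (c + 3) ^ f * j + 1 = (c + 2) * m := by omega
    have h8 : (c + 3) ^ f * j + 1 ≡ 1 * j + 1 [MOD (c + 2)] := (h6.mul_right j).add_right 1
    rw [h7, one_mul] at h8
    have h9 : (c + 2) * m ≡ 0 [MOD (c + 2)] := by simp [Nat.ModEq]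
    exact (Nat.modEq_zero_iff_dvd).mp (h8.symm.trans h9)
  have h10 : c + 2 ≤ j + 1 := Nat.le_of_dvd (by omega) h5
  have h11 : (c + 3) ^ f * (c + 1) ≤ (c + 3) ^ f * j := Nat.mul_le_mul_left _ (by omega)
  by_contra hcon
  push Not at hcon
  have h12 : (2 * m + 1) * (c + 1) ≤ (c + 3) ^ f * (c + 1) :=
    Nat.mul_le_mul_right _ (by omega)
  have h13 : (2 * m + 1) * (c + 1) ≤ (c + 2) * m - 1 := by
    rw [hj]; exact h12.trans h11
  have h14 : (2 * m + 1) * (c + 1) = c * m + (c * m + 2 * m + c + 1) := by ring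
  have h15 : (c + 2) * m = c * m + 2 * m := by ring
  omega

/-- the size of `N` -/
private lemma E_final {N P q m C f M u b : ℕ} (hq3 : 3 ≤ q) (hm1 : 1 ≤ m)
    (hgq : (q - 1) * (m * P) + 1 = q ^ (b + 1)) (hqf : q ^ f ≤ 2 * m) (hu : P + 1 = q ^ f * u)
    (humC : u * (m * C) = 2 * M) (hNM : N = P * (q ^ b * M)) : P ^ 3 * (m * C) ≤ 6 * N := by
  have h3 : 2 * (m * P) ≤ 3 * q ^ b := by
    obtain ⟨c, hc⟩ : ∃ c, q = c + 3 := ⟨q - 3, by omega⟩
    have h4 : q ^ (b + 1) = q * q ^ b := pow_succ' _ _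
    rw [h4] at hgq
    have h5 : (c + 2) * (m * P) + 1 = (c + 3) * q ^ b := by
      have : q - 1 = c + 2 := by omega
      rw [this] at hgq
      rw [hgq, ← hc]
    generalize m * P = x at h5 ⊢
    generalize q ^ b = y at h5 ⊢
    nlinarith
  have h4 : P * C ≤ 4 * M := by
    have h5 : (P + 1) * (m * C) = q ^ f * (2 * M) := by rw [hu, ← humC]; ring
    have h6 : (P + 1) * (m * C) ≤ (2 * m) * (2 * M) := by
      rw [h5]; exact Nat.mul_le_mul_right _ hqf
    have h7 : m * ((P + 1) * C) ≤ m * (4 * M) := by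
      calc m * ((P + 1) * C) = (P + 1) * (m * C) := by ring
        _ ≤ (2 * m) * (2 * M) := h6
        _ = _ := by ring
    have h8 : (P + 1) * C ≤ 4 * M := Nat.le_of_mul_le_mul_left h7 hm1
    exact le_trans (Nat.mul_le_mul_right C (by omega)) h8
  have h5 : 2 * (P ^ 3 * (m * C)) ≤ 2 * (6 * N) := by
    calc 2 * (P ^ 3 * (m * C)) = P * ((2 * (m * P)) * (P * C)) := by ring
      _ ≤ P * ((3 * q ^ b) * (4 * M)) := Nat.mul_le_mul_left _ (Nat.mul_le_mul h3 h4)
      _ = 2 * (6 * (P * (q ^ b * M))) := by ring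
      _ = 2 * (6 * N) := by rw [← hNM]
  omega

/-- existence of the data -/
theorem exists_cfg {N P q : ℕ} (hN : Odd N) (hperf : Nat.Perfect N) (hP : P.Prime)
    (hPN : N.factorization P = 1) (hq : q.Prime) (hqN : q ∣ N)
    (hPq : P ∣ sigma 1 (q ^ N.factorization q)) :
    ∃ m C M f u, ∃ g w : ℕ → ℕ, Cfg N P q (N.factorization q) m C M f u g w := by
  have hN0 : N ≠ 0 := hperf.2.ne'
  have hσN : sigma 1 N = 2 * N := by
    rw [ArithmeticFunction.sigma_one_apply]
    exact (Nat.perfect_iff_sum_divisors_eq_two_mul hperf.2).mp hperf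
  have hPdN : P ∣ N := Nat.dvd_of_factorization_pos (by omega)
  have hPodd : Odd P := Odd.of_dvd_nat hN hPdN
  have hqodd : Odd q := Odd.of_dvd_nat hN hqN
  have hq3 : 3 ≤ q := by
    have := hq.two_le
    rcases hqodd with ⟨c, hc⟩; omega
  have hP3 : 3 ≤ P := by
    have := hP.two_le
    rcases hPodd with ⟨c, hc⟩; omega
  have hσP : sigma 1 P = P + 1 := by
    have h1 := ArithmeticFunction.sigma_one_apply_prime_pow (i := 1) hP
    rw [pow_one] at h1
    rw [h1]
    simp [Finset.sum_range_succ, add_comm]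
  have hqP : q ≠ P := by
    rintro rfl
    rw [hPN, pow_one, hσP] at hPq
    have := Nat.dvd_one.mp ((Nat.dvd_add_right (dvd_refl q)).mp hPq)
    omega
  set b := N.factorization q with hb
  have hb1 : 1 ≤ b := hq.factorization_pos_of_dvd hN0 hqN
  -- decompositions
  obtain ⟨N1, hN1⟩ : ∃ N1, N = P * N1 := hPdN
  have hN10 : N1 ≠ 0 := by rintro rfl; exact hN0 (by rw [hN1, mul_zero])
  have hPN1 : ¬ P ∣ N1 := by
    intro h
    have h1 : P ^ 2 ∣ N := by
      rw [hN1, sq]; exact mul_dvd_mul_left _ h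
    have := (hP.pow_dvd_iff_le_factorization hN0).mp h1
    omega
  have hqbN : q ^ b ∣ N := Nat.ordProj_dvd N q
  have hcopP : Nat.Coprime P N1 := (Nat.Prime.coprime_iff_not_dvd hP).mpr hPN1
  have hqbN1 : q ^ b ∣ N1 := by
    have h1 : Nat.Coprime (q ^ b) P := Nat.Coprime.pow_left b ((Nat.coprime_primes hq hP).mpr hqP)
    rw [hN1] at hqbN
    exact h1.dvd_of_dvd_mul_left hqbN
  obtain ⟨M, hM⟩ := hqbN1
  have hM0 : M ≠ 0 := by rintro rfl; exact hN10 (by rw [hM, mul_zero])
  have hqM : ¬ q ∣ M := by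
    intro h
    have h1 : q ^ (b + 1) ∣ N := by
      rw [hN1, hM, pow_succ]
      exact Dvd.dvd.mul_left (mul_dvd_mul_left _ h) _
    have := (hq.pow_dvd_iff_le_factorization hN0).mp h1
    omega
  have hNM : N = P * (q ^ b * M) := by rw [hN1, hM]
  have hMN : M ∣ N := ⟨P * q ^ b, by rw [hNM]; ring⟩
  have hModd : Odd M := Odd.of_dvd_nat hN hMN
  have hcopq : Nat.Coprime (q ^ b) M :=
    Nat.Coprime.pow_left b ((Nat.Prime.coprime_iff_not_dvd hq).mpr hqM)
  have hσ1 : sigma 1 N = (P + 1) * (sigma 1 (q ^ b) * sigma 1 M) := by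
    rw [hN1, ArithmeticFunction.isMultiplicative_sigma.map_mul_of_coprime hcopP, hσP, hM,
      ArithmeticFunction.isMultiplicative_sigma.map_mul_of_coprime hcopq]
  obtain ⟨m, hm⟩ := hPq
  have hmul : (P + 1) * (sigma 1 (q ^ b) * sigma 1 M) = 2 * N := by rw [← hσ1, hσN]
  have hqb : 0 < q ^ b := pow_pos hq.pos b
  have hkey : (P + 1) * m * sigma 1 M = 2 * q ^ b * M := by
    rw [hm, hNM] at hmul
    have : P * ((P + 1) * m * sigma 1 M) = P * (2 * q ^ b * M) := by
      calc _ = (P + 1) * (P * m * sigma 1 M) := by ring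
        _ = _ := by rw [hmul]; ring
    exact Nat.eq_of_mul_eq_mul_left hP.pos this
  have hm1 : 1 ≤ m := by
    rcases Nat.eq_zero_or_pos m with h0 | h0
    · rw [h0, mul_zero, zero_mul] at hkey
      have : 0 < 2 * q ^ b * M := by positivity
      omega
    · exact h0
  have hgq : (q - 1) * (m * P) + 1 = q ^ (b + 1) := by
    rw [mul_comm m P, ← hm]; exact E_geom hq b
  -- parity
  have hPeven : Even (P + 1) := hPodd.add_one
  have hpar : ∀ X, Even X → ¬ X ∣ sigma 1 (q ^ b) * sigma 1 M := by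
    intro X hX hd
    obtain ⟨x, hx⟩ := hX
    obtain ⟨y, hy⟩ := hPeven
    obtain ⟨z, hz⟩ := hd
    rcases hN with ⟨w, hw⟩
    rw [hz, hy, hx, hw] at hmul
    have : (y + y) * ((x + x) * z) = 4 * (y * x * z) := by ring
    omega
  have hbeven : Even b := by
    by_contra hc
    rw [Nat.not_even_iff_odd] at hc
    exact hpar _ (E_sigma_even hq hqodd hc) (dvd_mul_right _ _)
  have hb2 : 2 ≤ b := by
    rcases hbeven with ⟨c, hc⟩; omega
  have hrprime : ∀ r ∈ M.primeFactors, r.Prime := fun r hr => Nat.prime_of_mem_primeFactors hr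
  have hrodd : ∀ r ∈ M.primeFactors, Odd r := fun r hr =>
    Odd.of_dvd_nat hN ((Nat.dvd_of_mem_primeFactors hr).trans hMN)
  have hr3 : ∀ r ∈ M.primeFactors, 3 ≤ r := by
    intro r hr
    have h2 := (hrprime r hr).two_le
    rcases hrodd r hr with ⟨c, hc⟩; omega
  have hσM : sigma 1 M = ∏ r ∈ M.primeFactors, sigma 1 (r ^ M.factorization r) := by
    rw [ArithmeticFunction.isMultiplicative_sigma.multiplicative_factorization _ hM0]
    rfl
  have he1 : ∀ r ∈ M.primeFactors, 1 ≤ M.factorization r := fun r hr =>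
    (hrprime r hr).factorization_pos_of_dvd hM0 (Nat.dvd_of_mem_primeFactors hr)
  have heven : ∀ r ∈ M.primeFactors, Even (M.factorization r) := by
    intro r hr
    by_contra hc
    rw [Nat.not_even_iff_odd] at hc
    apply hpar _ (E_sigma_even (hrprime r hr) (hrodd r hr) hc)
    apply Dvd.dvd.mul_left
    rw [hσM]
    exact Finset.dvd_prod_of_mem (fun r => sigma 1 (r ^ M.factorization r)) hr
  -- the components
  set F : ℕ → ℕ := fun r => (sigma 1 (r ^ M.factorization r)).factorization q with hF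
  set W : ℕ → ℕ := fun r => sigma 1 (r ^ M.factorization r) / q ^ F r with hWdef
  have hFW : ∀ r, q ^ F r * W r = sigma 1 (r ^ M.factorization r) := fun r =>
    Nat.ordProj_mul_ordCompl_eq_self _ q
  have hσne : ∀ r ∈ M.primeFactors, sigma 1 (r ^ M.factorization r) ≠ 0 := by
    intro r hr
    have := (Nat.prime_of_mem_primeFactors hr).pos
    rw [Ne, ArithmeticFunction.sigma_eq_zero]
    positivity
  have hWq : ∀ r ∈ M.primeFactors, ¬ q ∣ W r := fun r hr => Nat.not_dvd_ordCompl hq (hσne r hr)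
  have hW1 : ∀ r ∈ M.primeFactors, 1 ≤ W r := by
    intro r hr
    rcases Nat.eq_zero_or_pos (W r) with h0 | h0
    · exact absurd (h0 ▸ dvd_zero q) (hWq r hr)
    · exact h0
  set C := ∏ r ∈ M.primeFactors, W r with hC
  have hC1 : 1 ≤ C := Finset.one_le_prod' hW1
  have hσM2 : sigma 1 M = q ^ (∑ r ∈ M.primeFactors, F r) * C := by
    rw [hσM, hC, ← Finset.prod_pow_eq_pow_sum, ← Finset.prod_mul_distrib]
    exact (Finset.prod_congr rfl (fun r _ => hFW r)).symm
  have hCq : ¬ q ∣ C := by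
    intro h
    obtain ⟨r, hr, h2⟩ := (Prime.dvd_finsetProd_iff hq.prime _).mp h
    exact hWq r hr h2
  have hqm : ¬ q ∣ m := by
    intro h
    apply E_not_dvd hq b
    rw [hm]
    exact Dvd.dvd.mul_left h _
  set f := (P + 1).factorization q with hf
  obtain ⟨u, hu⟩ : q ^ f ∣ P + 1 := Nat.ordProj_dvd _ q
  have hqu : ¬ q ∣ u := by
    intro h
    have h1 : q ^ (f + 1) ∣ P + 1 := by
      rw [hu, pow_succ]; exact mul_dvd_mul_left _ h
    have := (hq.pow_dvd_iff_le_factorization (by omega)).mp h1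
    omega
  have hu0 : u ≠ 0 := by rintro rfl; rw [mul_zero] at hu; omega
  have heq : q ^ (f + ∑ r ∈ M.primeFactors, F r) * (u * (m * C)) = q ^ b * (2 * M) := by
    calc _ = (q ^ f * u) * m * (q ^ (∑ r ∈ M.primeFactors, F r) * C) := by rw [pow_add]; ring
      _ = (P + 1) * m * sigma 1 M := by rw [← hu, ← hσM2]
      _ = 2 * q ^ b * M := hkey
      _ = _ := by ring
  have hcopL : Nat.Coprime q (u * (m * C)) := by
    rw [Nat.Prime.coprime_iff_not_dvd hq, hq.dvd_mul, hq.dvd_mul]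
    tauto
  have hcopR : Nat.Coprime q (2 * M) := by
    rw [Nat.Prime.coprime_iff_not_dvd hq, hq.dvd_mul]
    rintro (h | h)
    · have := Nat.le_of_dvd (by norm_num) h; omega
    · exact hqM h
  have hfb : f + ∑ r ∈ M.primeFactors, F r = b := by
    apply le_antisymm
    · apply (Nat.pow_dvd_pow_iff_le_right hq.one_lt).mp
      have : q ^ (f + ∑ r ∈ M.primeFactors, F r) ∣ q ^ b * (2 * M) := ⟨_, heq.symm⟩
      exact (hcopR.pow_left _).dvd_of_dvd_mul_right this
    · apply (Nat.pow_dvd_pow_iff_le_right hq.one_lt).mp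
      have : q ^ b ∣ q ^ (f + ∑ r ∈ M.primeFactors, F r) * (u * (m * C)) := ⟨_, heq⟩
      exact (hcopL.pow_left _).dvd_of_dvd_mul_right this
  have humC : u * (m * C) = 2 * M := by
    rw [hfb] at heq
    exact Nat.eq_of_mul_eq_mul_left hqb heq
  have hmC0 : m * C ≠ 0 := Nat.mul_ne_zero (by omega) (by omega)
  have hqf : q ^ f ≤ 2 * m := E_qf hq3 hm1 (by omega) hgq ⟨u, hu⟩
  have hqPN : sigma 1 (q ^ b) ∣ 2 * N := ⟨(P + 1) * sigma 1 M, by rw [← hmul]; ring⟩
  have hmodd : Odd m := by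
    rcases Nat.even_or_odd m with h | h
    · exfalso
      obtain ⟨x, hx⟩ := h
      apply hpar (2 : ℕ) even_two
      rw [hm, hx]
      exact ⟨P * x * sigma 1 M, by ring⟩
    · exact h
  have hPM : ¬ P ∣ M := fun h => hPN1 (hM ▸ Dvd.dvd.mul_left h _)
  have hUn : Pool.Agent.Lib.MP_f02ea4_nt.Sb.Unit2 N :=
    Pool.Agent.Lib.MP_f02ea4_nt.Sb.Unit2.of_perfect (Nat.pos_of_ne_zero hN0) hσN
  refine ⟨m, C, M, f, u, F, W, hP, hq, hP3, hq3, hqP.symm, hNM, hM0, hModd, hqM, hPM, hb2, hbeven,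
    hm1, hmodd, hqm, hgq, heven, hW1, hWq, ?_, rfl, hfb, hu, humC.symm, hqf,
    E_final hq3 hm1 hgq hqf hu humC hNM, ?_⟩
  · intro r hr
    rw [mul_comm (W r), hFW r]
    exact E_geom (hrprime r hr) _
  · intro T hT
    have h1 : ∏ r ∈ T, (W r * q ^ F r) = sigma 1 (∏ r ∈ T, r ^ M.factorization r) := by
      rw [ArithmeticFunction.IsMultiplicative.map_prod _
        ArithmeticFunction.isMultiplicative_sigma]
      · exact Finset.prod_congr rfl (fun r _ => by rw [mul_comm (W r), hFW r])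
      · intro r hr r' hr' hne
        exact Nat.Coprime.pow _ _ ((Nat.coprime_primes (hrprime r (hT hr))
          (hrprime r' (hT hr'))).2 hne)
    rw [h1]
    apply hUn _ (P * (q ^ b * ∏ r ∈ M.primeFactors \ T, r ^ M.factorization r))
    · have h2 : ∏ r ∈ M.primeFactors, r ^ M.factorization r = M :=
        Nat.prod_factorization_pow_eq_self hM0
      have h3 : (∏ r ∈ M.primeFactors \ T, r ^ M.factorization r) *
          ∏ r ∈ T, r ^ M.factorization r = M := by
        rw [Finset.prod_sdiff hT, h2]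
      rw [hNM]
      calc P * (q ^ b * M) = P * (q ^ b * ((∏ r ∈ M.primeFactors \ T, r ^ M.factorization r) *
          ∏ r ∈ T, r ^ M.factorization r)) := by rw [h3]
        _ = _ := by ring
    · have h4 : (∏ r ∈ T, r ^ M.factorization r) ∣ M := by
        have h2 : ∏ r ∈ M.primeFactors, r ^ M.factorization r = M :=
          Nat.prod_factorization_pow_eq_self hM0
        calc (∏ r ∈ T, r ^ M.factorization r) ∣ ∏ r ∈ M.primeFactors, r ^ M.factorization r :=
              Finset.prod_dvd_prod_of_subset _ _ _ hT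
          _ = M := h2
      apply Nat.Coprime.mul_right
      · exact Nat.Coprime.coprime_dvd_left h4
          (((Nat.Prime.coprime_iff_not_dvd hP).2 hPM).symm)
      apply Nat.Coprime.mul_right
      · exact Nat.Coprime.coprime_dvd_left h4 hcopq.symm
      · apply Nat.Coprime.prod_left
        intro r hr
        apply Nat.Coprime.prod_right
        intro r' hr'
        rw [Finset.mem_sdiff] at hr'
        exact Nat.Coprime.pow _ _ ((Nat.coprime_primes (hrprime r (hT hr))
          (hrprime r' hr'.1)).2 (fun h => hr'.2 (h ▸ hr)))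

end Pool.Agent.Lib.MP_f02ea4_nt.TL
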