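import Mathlib
import Pool.Agent.Lib.MP_f02ea4_nt.TLSecond

/-!
# The case when the second largest prime `s` is not the payer
-/

set_option autoImplicit false

namespace Pool.Agent.Lib.MP_f02ea4_nt.TL

open Finset

variable {N q p b k v n c u : ℕ} {e w : ℕ → ℕ}

/-- splitting off one component -/
theorem Cfg.split (C : Cfg N q p b k v n c u e w) {s : ℕ} (hs : s ∈ n.primeFactors) :
    ∃ n' v' e' : ℕ, n = s ^ n.factorization s * n' ∧ v = w s * v' ∧ b = e s + (c + e') ∧
      p ^ e' * v' ≤ 2 * n' ∧ w s ≤ n' ∧ 1 ≤ n' ∧ 1 ≤ v' := by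
  classical
  refine ⟨∏ r ∈ n.primeFactors.erase s, r ^ n.factorization r,
    ∏ r ∈ n.primeFactors.erase s, w r, ∑ r ∈ n.primeFactors.erase s, e r, ?_, ?_, ?_, ?_, ?_, ?_,
    ?_⟩
  · rw [Finset.mul_prod_erase n.primeFactors (fun r => r ^ n.factorization r) hs]
    exact (Nat.prod_factorization_pow_eq_self C.n0).symm
  · rw [Finset.mul_prod_erase n.primeFactors w hs, C.hv]
  · have h1 := C.sum
    have h2 := Finset.add_sum_erase n.primeFactors e hs
    omega
  · have h1 := C.un (n.primeFactors.erase s) (Finset.erase_subset _ _)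
    rw [Finset.prod_mul_distrib, Finset.prod_pow_eq_pow_sum, mul_comm] at h1
    exact h1
  · have h1 : s ^ n.factorization s * ∏ r ∈ n.primeFactors.erase s, r ^ n.factorization r = n := by
      rw [Finset.mul_prod_erase n.primeFactors (fun r => r ^ n.factorization r) hs]
      exact Nat.prod_factorization_pow_eq_self C.n0
    have h2 : w s ∣ n := (C.w_dvd hs).trans C.vn
    rw [← h1] at h2
    have h3 : w s ∣ ∏ r ∈ n.primeFactors.erase s, r ^ n.factorization r :=
      (Nat.Coprime.pow_right _ (C.cop hs).symm).dvd_of_dvd_mul_left h2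
    apply Nat.le_of_dvd _ h3
    apply Finset.prod_pos
    intro r hr
    have := (C.rprime (Finset.mem_of_mem_erase hr)).pos
    positivity
  · apply Nat.one_le_iff_ne_zero.2
    apply Finset.prod_ne_zero_iff.2
    intro r hr
    have := (C.rprime (Finset.mem_of_mem_erase hr)).pos
    positivity
  · exact Finset.one_le_prod' (fun r hr => C.w1 r (Finset.mem_of_mem_erase hr))

/-- purely arithmetical part of the case `s² ∥ n`: here `K = k n'` -/
theorem third_arith {q p b k c e' es w v' n' s u : ℕ} (hp3 : 3 ≤ p) (hs5 : 5 ≤ s) (hps : p < s)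
    (hk1 : 1 ≤ k) (hw1 : 1 ≤ w) (hwodd : w % 2 = 1) (hv1 : 1 ≤ v') (hn1 : 1 ≤ n')
    (hpp : p.Prime)
    (beven : Even b) (hb : b = es + (c + e')) (hpc : p ^ c ≤ 2 * k) (hpe : p ^ e' * v' ≤ 2 * n')
    (hwn : w ≤ n') (hws : w < s) (hes : 1 ≤ es) (hsig : w * p ^ es = s ^ 2 + s + 1)
    (hu : q + 1 = p ^ c * u)
    (hkeq : (p - 1) * (k * (q + 1)) = p ^ (b + 1) + k * (p - 1) - 1)
    (hd : s ^ 2 ∣ k * (q + 1)) :
    s ≤ 10 * (k * n') ∨ s ^ 2 ≤ 2600 * (k * n') ^ 3 ∨ (p ≤ 2 * n' ∧ s ^ 2 ≤ w * p ^ 3) := by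
  have hkn1 : 1 ≤ k * n' := Nat.mul_pos hk1 hn1
  have hd' : s ^ 2 ∣ p ^ (b + 1) + k * (p - 1) - 1 := by
    rw [← hkeq]; exact hd.mul_left _
  have hA := A2_ineq hp3 hk1 hw1 (hsig.symm.trans (mul_comm _ _)) hb hd'
  set g := c + e' with hg
  -- `p ^ g ≤ 4 k n'`
  have hpg : p ^ g ≤ 4 * (k * n') := by
    have h1 : p ^ e' ≤ 2 * n' := by
      calc p ^ e' = p ^ e' * 1 := by ring
        _ ≤ p ^ e' * v' := Nat.mul_le_mul_left _ hv1
        _ ≤ _ := hpe
    calc p ^ g = p ^ c * p ^ e' := by rw [hg, pow_add]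
      _ ≤ (2 * k) * (2 * n') := Nat.mul_le_mul hpc h1
      _ = _ := by ring
  have hwkn : w * k ≤ k * n' := by
    rw [mul_comm w k]; exact Nat.mul_le_mul_left _ hwn
  have hs2 : s ^ 2 + s + 1 ≤ 2 * s ^ 2 := by nlinarith
  by_cases hcase : s ^ 2 ≤ 2 * (w * (k * (p - 1)))
  · left
    have h1 : s * s ≤ s * (2 * (w * k)) := by
      calc s * s = s ^ 2 := by ring
        _ ≤ 2 * (w * (k * (p - 1))) := hcase
        _ ≤ 2 * (w * (k * s)) := by
          apply Nat.mul_le_mul_left
          apply Nat.mul_le_mul_left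
          apply Nat.mul_le_mul_left
          omega
        _ = _ := by ring
    have h2 : s ≤ 2 * (w * k) := le_of_mul_le_mul_left h1 (by omega)
    omega
  push Not at hcase
  have hB : s ^ 2 < 2 * (p ^ (g + 1) * (s + 1)) := by omega
  rcases Nat.eq_zero_or_pos g with hg0 | hg0
  · -- `g = 0`
    left
    rw [hg0] at hA hB hb
    rw [zero_add, pow_one] at hA hB
    rw [add_zero] at hb
    obtain ⟨z, hz⟩ := beven
    rcases Nat.lt_or_ge es 4 with h4 | h4
    · have hes2 : es = 2 := by omega
      rw [hes2] at hsig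
      have hw3 : 3 ≤ w := by
        by_contra hcon
        have hw' : w = 1 := by omega
        rw [hw', one_mul] at hsig
        have h1 : s ^ 2 < p ^ 2 := by omega
        have h2 : p ^ 2 < s ^ 2 := Nat.pow_lt_pow_left hps (by norm_num)
        omega
      by_contra hcon
      push Not at hcon
      have h5 : 5 * (w * k) < s := by omega
      have h6 : s ^ 2 < p * (s + 1 + w * k) := by
        have h7 : w * (k * (p - 1)) ≤ p * (w * k) := by
          calc w * (k * (p - 1)) ≤ w * (k * p) := by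
                apply Nat.mul_le_mul_left
                apply Nat.mul_le_mul_left
                omega
            _ = _ := by ring
        have h8 : p * (s + 1 + w * k) = p * (s + 1) + p * (w * k) := by ring
        omega
      have h7 : 5 * s ^ 2 < p * (6 * s + 5) := by
        have h8 : 5 * s ^ 2 < p * (5 * s + 5 + 5 * (w * k)) := by
          calc 5 * s ^ 2 < 5 * (p * (s + 1 + w * k)) := by omega
            _ = _ := by ring
        have h9 : p * (5 * s + 5 + 5 * (w * k)) ≤ p * (6 * s + 5) :=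
          Nat.mul_le_mul_left _ (by omega)
        omega
      have h8 : 3 * p ^ 2 ≤ s ^ 2 + s + 1 := by
        rw [← hsig]; exact Nat.mul_le_mul_right _ hw3
      have h9 : 3 * (5 * s ^ 2) ^ 2 < (s ^ 2 + s + 1) * (6 * s + 5) ^ 2 := by
        calc 3 * (5 * s ^ 2) ^ 2 < 3 * (p * (6 * s + 5)) ^ 2 := by
              have := Nat.pow_lt_pow_left h7 (show (2 : ℕ) ≠ 0 by norm_num)
              omega
          _ = (3 * p ^ 2) * (6 * s + 5) ^ 2 := by ring
          _ ≤ _ := Nat.mul_le_mul_right _ h8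
      have e1 : (s ^ 2 + s + 1) * (6 * s + 5) ^ 2 =
          36 * s ^ 4 + 96 * s ^ 3 + 121 * s ^ 2 + 85 * s + 25 := by ring
      have e2 : 3 * (5 * s ^ 2) ^ 2 = 75 * s ^ 4 := by ring
      rw [e1, e2] at h9
      have e3 : s ^ 3 * 5 ≤ s ^ 4 := by
        calc s ^ 3 * 5 ≤ s ^ 3 * s := Nat.mul_le_mul_left _ hs5
          _ = s ^ 4 := by ring
      have e4 : s ^ 2 * 5 ≤ s ^ 3 := by
        calc s ^ 2 * 5 ≤ s ^ 2 * s := Nat.mul_le_mul_left _ hs5
          _ = s ^ 3 := by ring
      have e5 : s * 5 ≤ s ^ 2 := by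
        calc s * 5 ≤ s * s := Nat.mul_le_mul_left _ hs5
          _ = s ^ 2 := by ring
      omega
    · have h1 : p ^ 4 ≤ 2 * s ^ 2 := by
        calc p ^ 4 ≤ p ^ es := Nat.pow_le_pow_right (by omega) h4
          _ = 1 * p ^ es := by ring
          _ ≤ w * p ^ es := Nat.mul_le_mul_right _ hw1
          _ ≤ _ := by rw [hsig]; exact hs2
      by_contra hcon
      push Not at hcon
      have hs11 : 11 ≤ s := by omega
      have h3 : 11 * s < 24 * p := by
        have e1 : 11 * (s + 1) ≤ 12 * s := by omega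
        have this : s * (11 * s) < s * (24 * p) := by
          calc s * (11 * s) = 11 * s ^ 2 := by ring
            _ < 11 * (2 * (p * (s + 1))) := by omega
            _ = 2 * p * (11 * (s + 1)) := by ring
            _ ≤ 2 * p * (12 * s) := Nat.mul_le_mul_left _ e1
            _ = _ := by ring
        exact lt_of_mul_lt_mul_left this (Nat.zero_le _)
      have h4' : (11 * s) ^ 4 < (24 * p) ^ 4 := Nat.pow_lt_pow_left h3 (by norm_num)
      have h5 : 14641 * s ^ 4 < 331776 * (2 * s ^ 2) := by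
        have e1 : (11 * s) ^ 4 = 14641 * s ^ 4 := by ring
        have e2 : (24 * p) ^ 4 = 331776 * p ^ 4 := by ring
        omega
      have h6 : 121 * s ^ 2 ≤ s ^ 4 := by
        have e1 : 121 ≤ s ^ 2 := Nat.pow_le_pow_left hs11 2
        calc 121 * s ^ 2 ≤ s ^ 2 * s ^ 2 := Nat.mul_le_mul_right _ e1
          _ = s ^ 4 := by ring
      have h7 : 0 < s ^ 2 := by positivity
      omega
  · have hB' : 5 * s < 12 * p ^ (g + 1) := by
      have h1 : 5 * (s + 1) ≤ 6 * s := by omega
      have h2 : s * (5 * s) < s * (12 * p ^ (g + 1)) := by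
        have h3 : 5 * (2 * (p ^ (g + 1) * (s + 1))) ≤ s * (12 * p ^ (g + 1)) := by
          calc 5 * (2 * (p ^ (g + 1) * (s + 1))) = 2 * p ^ (g + 1) * (5 * (s + 1)) := by ring
            _ ≤ 2 * p ^ (g + 1) * (6 * s) := Nat.mul_le_mul_left _ h1
            _ = _ := by ring
        calc s * (5 * s) = 5 * s ^ 2 := by ring
          _ < 5 * (2 * (p ^ (g + 1) * (s + 1))) := by omega
          _ ≤ _ := h3
      exact lt_of_mul_lt_mul_left h2 (Nat.zero_le _)
    rcases Nat.lt_or_ge g 2 with hg2 | hg2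
    · -- `g = 1`
      have hg1 : g = 1 := by omega
      rw [hg1] at hB' hpg hb
      rw [pow_one] at hpg
      obtain ⟨z, hz⟩ := beven
      have hcases : es = 1 ∨ es = 3 ∨ 5 ≤ es := by omega
      rcases hcases with h1 | h3 | h5
      · -- `es = 1`
        exfalso
        rw [h1, pow_one] at hsig
        have : w * p ≤ s * s := Nat.mul_le_mul hws.le hps.le
        nlinarith
      · rw [h3] at hsig
        have hce : (c = 1 ∧ e' = 0) ∨ (c = 0 ∧ e' = 1) := by omega
        rcases hce with ⟨hc, he⟩ | ⟨hc, he⟩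
        · -- `p ∣ q + 1`
          right; left
          have h4 : p ∣ k * (q + 1) := by
            rw [hu, hc, pow_one]
            exact (dvd_mul_right p u).mul_left k
          have h5 : p ∣ p ^ (b + 1) + k * (p - 1) - 1 := by rw [← hkeq]; exact h4.mul_left _
          have h6 : p ∣ k + 1 := by
            obtain ⟨m, rfl⟩ : ∃ m, p = m + 1 := ⟨p - 1, by omega⟩
            simp only [Nat.add_sub_cancel] at h5
            have h7 : (m + 1) ^ (b + 1) + k * m - 1 + (k + 1) = (m + 1) * ((m + 1) ^ b + k) := by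
              have h8 : (m + 1) * ((m + 1) ^ b + k) = (m + 1) ^ (b + 1) + k * m + k := by ring
              have h9 : 1 ≤ (m + 1) ^ (b + 1) := Nat.one_le_pow _ _ (by omega)
              omega
            have h8 : m + 1 ∣ (m + 1) ^ (b + 1) + k * m - 1 + (k + 1) := by
              rw [h7]; exact dvd_mul_right _ _
            exact (Nat.dvd_add_right h5).1 h8
          have h7 := Nat.le_of_dvd (by omega) h6
          -- `p ≤ k + 1 ≤ 2 k`
          have h8 : p ≤ 2 * k := by omega
          have h9 : s ^ 2 ≤ 8 * (k * n') ^ 3 := by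
            calc s ^ 2 ≤ w * p ^ 3 := by omega
              _ ≤ n' * (2 * k) ^ 3 := Nat.mul_le_mul hwn (Nat.pow_le_pow_left h8 3)
              _ = 8 * (k ^ 3 * n' ^ 1) := by ring
              _ ≤ 8 * (k ^ 3 * n' ^ 3) := by
                apply Nat.mul_le_mul_left
                apply Nat.mul_le_mul_left
                exact Nat.pow_le_pow_right hn1 (by norm_num)
              _ = _ := by ring
          exact h9.trans (Nat.mul_le_mul_right _ (by norm_num))
        · right; right
          rw [he, pow_one] at hpe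
          refine ⟨?_, by omega⟩
          calc p = p * 1 := by ring
            _ ≤ p * v' := Nat.mul_le_mul_left _ hv1
            _ ≤ _ := hpe
      · -- `5 ≤ es`
        right; left
        have h1 : 25 * p ^ 5 ≤ 31 * s ^ 2 := by
          have h2 : 25 * (s ^ 2 + s + 1) ≤ 31 * s ^ 2 := by nlinarith
          have h3 : p ^ 5 ≤ s ^ 2 + s + 1 := by
            calc p ^ 5 ≤ p ^ es := Nat.pow_le_pow_right (by omega) h5
              _ = 1 * p ^ es := by ring
              _ ≤ w * p ^ es := Nat.mul_le_mul_right _ hw1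
              _ = _ := hsig
          omega
        have h2 : (5 * s) ^ 2 < (12 * p ^ (1 + 1)) ^ 2 := Nat.pow_lt_pow_left hB' (by norm_num)
        have h3 : 25 * s ^ 2 < 144 * p ^ 4 := by
          have e1 : (5 * s) ^ 2 = 25 * s ^ 2 := by ring
          have e2 : (12 * p ^ (1 + 1)) ^ 2 = 144 * p ^ 4 := by ring
          omega
        have h4 : p < 8 := by
          by_contra hcon
          push Not at hcon
          have h5 : p ^ 4 * 8 ≤ p ^ 5 := by
            calc p ^ 4 * 8 ≤ p ^ 4 * p := Nat.mul_le_mul_left _ hcon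
              _ = _ := by ring
          omega
        have h6 : p ^ 4 ≤ 7 * p ^ 3 := by
          calc p ^ 4 = p * p ^ 3 := by ring
            _ ≤ 7 * p ^ 3 := Nat.mul_le_mul_right _ (by omega)
        have h7 : p ^ 3 ≤ 64 * (k * n') ^ 3 := by
          calc p ^ 3 ≤ (4 * (k * n')) ^ 3 := Nat.pow_le_pow_left hpg 3
            _ = _ := by ring
        omega
    · -- `2 ≤ g`
      right; left
      have h1 : (5 * s) ^ 2 < (12 * p ^ (g + 1)) ^ 2 := Nat.pow_lt_pow_left hB' (by norm_num)
      have h2 : 25 * s ^ 2 < 144 * p ^ (2 * (g + 1)) := by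
        have e1 : (5 * s) ^ 2 = 25 * s ^ 2 := by ring
        have e2 : (12 * p ^ (g + 1)) ^ 2 = 144 * p ^ (2 * (g + 1)) := by
          rw [mul_pow, ← pow_mul, mul_comm (g + 1) 2]; norm_num
        omega
      have h3 : p ^ (2 * (g + 1)) ≤ p ^ (3 * g) := Nat.pow_le_pow_right (by omega) (by omega)
      have h4 : p ^ (3 * g) ≤ 64 * (k * n') ^ 3 := by
        calc p ^ (3 * g) = (p ^ g) ^ 3 := by rw [← pow_mul, mul_comm]
          _ ≤ (4 * (k * n')) ^ 3 := Nat.pow_le_pow_left hpg 3
          _ = _ := by ring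
      omega

end Pool.Agent.Lib.MP_f02ea4_nt.TL
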