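import Mathlib
import Pool.Agent.Lib.MP_f02ea4_nt.TLExists
import Pool.Agent.Lib.MP_f02ea4_nt.TLBeta
import Pool.Agent.Lib.MP_f02ea4_nt.TLThird
import Pool.Agent.Lib.MP_f02ea4_nt.KthLargest
import Pool.Agent.Lib.MP_f02ea4_nt.LP_T11b

/-!
# The product of the two largest prime factors of an odd perfect number

For distinct prime factors `x`, `y` of an odd perfect number `N`, `(x y) ^ 13 ≤ 2 ^ 27 N ^ 6`.
-/

set_option autoImplicit false

namespace Pool.Agent.Lib.MP_f02ea4_nt.TL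

open Finset

variable {N q p b k v n c u : ℕ} {e w : ℕ → ℕ}

/-! ### linear combinations of logarithms -/

private theorem conc {q s N : ℕ} (hq : 1 ≤ q) (hs : 1 ≤ s) (hN : 1 ≤ N)
    (h : 13 * (Real.log q + Real.log s) ≤ 27 * Real.log 2 + 6 * Real.log N) :
    (q * s) ^ 13 ≤ 2 ^ 27 * N ^ 6 := by
  have hq' : (0 : ℝ) < q := by exact_mod_cast hq
  have hs' : (0 : ℝ) < s := by exact_mod_cast hs
  have hN' : (0 : ℝ) < N := by exact_mod_cast hN
  have goal : Real.log (((q : ℝ) * s) ^ 13) ≤ Real.log (2 ^ 27 * (N : ℝ) ^ 6) := by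
    rw [Real.log_mul (by positivity) (by positivity), Real.log_pow, Real.log_pow, Real.log_pow,
      Real.log_mul (by positivity) (by positivity)]
    push_cast
    linarith
  have := (Real.log_le_log_iff (by positivity) (by positivity)).1 goal
  exact_mod_cast this

theorem fin1 {q s N : ℕ} (hq : 1 ≤ q) (hs : 1 ≤ s) (hN : 1 ≤ N) (h1 : q ^ 4 ≤ 2 * N)
    (h2 : s ^ 5 ≤ 32 * N) : (q * s) ^ 13 ≤ 2 ^ 27 * N ^ 6 := by
  apply conc hq hs hN
  have hq' : (0 : ℝ) < q := by exact_mod_cast hq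
  have hs' : (0 : ℝ) < s := by exact_mod_cast hs
  have hN' : (0 : ℝ) < N := by exact_mod_cast hN
  have g1 : (q : ℝ) ^ 4 ≤ 2 * N := by exact_mod_cast h1
  have g2 : (s : ℝ) ^ 5 ≤ 2 ^ 5 * N := by exact_mod_cast h2
  have l1 := Real.log_le_log (by positivity) g1
  have l2 := Real.log_le_log (by positivity) g2
  rw [Real.log_mul (by positivity) (by positivity), Real.log_pow] at l1
  rw [Real.log_mul (by positivity) (by positivity), Real.log_pow, Real.log_pow] at l2
  have hL : 0 ≤ Real.log N := Real.log_nonneg (by exact_mod_cast hN)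
  have hl2 : 0 < Real.log 2 := Real.log_pos (by norm_num)
  push_cast at l1 l2
  linarith

theorem fin2 {q s N : ℕ} (hq : 1 ≤ q) (hs : 1 ≤ s) (hN : 1 ≤ N) (h1 : q ^ 2 * s ^ 4 ≤ 8 * N)
    (h2 : q ^ 3 ≤ 8 * N) : (q * s) ^ 13 ≤ 2 ^ 27 * N ^ 6 := by
  apply conc hq hs hN
  have hq' : (0 : ℝ) < q := by exact_mod_cast hq
  have hs' : (0 : ℝ) < s := by exact_mod_cast hs
  have hN' : (0 : ℝ) < N := by exact_mod_cast hN
  have g1 : (q : ℝ) ^ 2 * s ^ 4 ≤ 2 ^ 3 * N := by exact_mod_cast h1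
  have g2 : (q : ℝ) ^ 3 ≤ 2 ^ 3 * N := by exact_mod_cast h2
  have l1 := Real.log_le_log (by positivity) g1
  have l2 := Real.log_le_log (by positivity) g2
  rw [Real.log_mul (by positivity) (by positivity), Real.log_mul (by positivity) (by positivity),
    Real.log_pow, Real.log_pow, Real.log_pow] at l1
  rw [Real.log_mul (by positivity) (by positivity), Real.log_pow, Real.log_pow] at l2
  have hL : 0 ≤ Real.log N := Real.log_nonneg (by exact_mod_cast hN)
  have hl2 : 0 < Real.log 2 := Real.log_pos (by norm_num)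
  push_cast at l1 l2
  linarith

theorem fin3 {q s N : ℕ} (hq : 1 ≤ q) (hs : 1 ≤ s) (hN : 1 ≤ N) (h1 : q ^ 2 * s ^ 3 ≤ 16 * N)
    (h2 : q ^ 3 ≤ 8 * N) : (q * s) ^ 13 ≤ 2 ^ 27 * N ^ 6 := by
  apply conc hq hs hN
  have hq' : (0 : ℝ) < q := by exact_mod_cast hq
  have hs' : (0 : ℝ) < s := by exact_mod_cast hs
  have hN' : (0 : ℝ) < N := by exact_mod_cast hN
  have g1 : (q : ℝ) ^ 2 * s ^ 3 ≤ 2 ^ 4 * N := by exact_mod_cast h1
  have g2 : (q : ℝ) ^ 3 ≤ 2 ^ 3 * N := by exact_mod_cast h2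
  have l1 := Real.log_le_log (by positivity) g1
  have l2 := Real.log_le_log (by positivity) g2
  rw [Real.log_mul (by positivity) (by positivity), Real.log_mul (by positivity) (by positivity),
    Real.log_pow, Real.log_pow, Real.log_pow] at l1
  rw [Real.log_mul (by positivity) (by positivity), Real.log_pow, Real.log_pow] at l2
  have hL : 0 ≤ Real.log N := Real.log_nonneg (by exact_mod_cast hN)
  have hl2 : 0 < Real.log 2 := Real.log_pos (by norm_num)
  push_cast at l1 l2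
  linarith

theorem fin4 {q s N : ℕ} (hq : 1 ≤ q) (hs : 1 ≤ s) (hN : 1 ≤ N)
    (h1 : q ^ 6 * s ^ 8 ≤ 2 ^ 14 * N ^ 3)
    (h2 : q ^ 3 ≤ 8 * N) : (q * s) ^ 13 ≤ 2 ^ 27 * N ^ 6 := by
  apply conc hq hs hN
  have hq' : (0 : ℝ) < q := by exact_mod_cast hq
  have hs' : (0 : ℝ) < s := by exact_mod_cast hs
  have hN' : (0 : ℝ) < N := by exact_mod_cast hN
  have g1 : (q : ℝ) ^ 6 * s ^ 8 ≤ 2 ^ 14 * N ^ 3 := by exact_mod_cast h1
  have g2 : (q : ℝ) ^ 3 ≤ 2 ^ 3 * N := by exact_mod_cast h2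
  have l1 := Real.log_le_log (by positivity) g1
  have l2 := Real.log_le_log (by positivity) g2
  rw [Real.log_mul (by positivity) (by positivity), Real.log_mul (by positivity) (by positivity),
    Real.log_pow, Real.log_pow, Real.log_pow, Real.log_pow] at l1
  rw [Real.log_mul (by positivity) (by positivity), Real.log_pow, Real.log_pow] at l2
  have hL : 0 ≤ Real.log N := Real.log_nonneg (by exact_mod_cast hN)
  have hl2 : 0 < Real.log 2 := Real.log_pos (by norm_num)
  push_cast at l1 l2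
  linarith

theorem fin5 {q s N m w p : ℕ} (hq : 1 ≤ q) (hs : 1 ≤ s) (hN : 1 ≤ N) (hm : 1 ≤ m) (hw : 1 ≤ w)
    (hp : 1 ≤ p) (h1 : m * (q * s) ^ 2 ≤ 2 * N) (h2 : q ^ 3 * w ≤ 8 * N) (h3 : p ≤ 2 * m)
    (h4 : w ≤ m) (h5 : s ^ 2 ≤ w * p ^ 3) : (q * s) ^ 13 ≤ 2 ^ 27 * N ^ 6 := by
  apply conc hq hs hN
  have hq' : (0 : ℝ) < q := by exact_mod_cast hq
  have hs' : (0 : ℝ) < s := by exact_mod_cast hs
  have hN' : (0 : ℝ) < N := by exact_mod_cast hN
  have hm' : (0 : ℝ) < m := by exact_mod_cast hm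
  have hw' : (0 : ℝ) < w := by exact_mod_cast hw
  have hp' : (0 : ℝ) < p := by exact_mod_cast hp
  have g1 : (m : ℝ) * (q * s) ^ 2 ≤ 2 * N := by exact_mod_cast h1
  have g2 : (q : ℝ) ^ 3 * w ≤ 2 ^ 3 * N := by exact_mod_cast h2
  have g3 : (p : ℝ) ≤ 2 * m := by exact_mod_cast h3
  have g4 : (w : ℝ) ≤ m := by exact_mod_cast h4
  have g5 : (s : ℝ) ^ 2 ≤ w * p ^ 3 := by exact_mod_cast h5
  have l1 := Real.log_le_log (by positivity) g1
  have l2 := Real.log_le_log (by positivity) g2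
  have l3 := Real.log_le_log (by positivity) g3
  have l4 := Real.log_le_log (by positivity) g4
  have l5 := Real.log_le_log (by positivity) g5
  rw [Real.log_mul (by positivity) (by positivity), Real.log_mul (by positivity) (by positivity),
    Real.log_pow, Real.log_mul (by positivity) (by positivity)] at l1
  rw [Real.log_mul (by positivity) (by positivity), Real.log_mul (by positivity) (by positivity),
    Real.log_pow, Real.log_pow] at l2
  rw [Real.log_mul (by positivity) (by positivity)] at l3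
  rw [Real.log_mul (by positivity) (by positivity), Real.log_pow, Real.log_pow] at l5
  have hL : 0 ≤ Real.log N := Real.log_nonneg (by exact_mod_cast hN)
  have hl2 : 0 < Real.log 2 := Real.log_pos (by norm_num)
  push_cast at l1 l2 l3 l4 l5
  linarith

theorem fin7 {q N k v p : ℕ} (hq : 1 ≤ q) (hN : 1 ≤ N) (hk : 1 ≤ k) (hv : 1 ≤ v)
    (hp : 1 ≤ p) (h1 : k * q ≤ 2 * p ^ 2) (h2 : q * (v * p ^ 4) ≤ 2 * N)
    (h3 : p ^ 3 ≤ 2 ^ 14 * (k ^ 7 * v ^ 6)) : (q * p) ^ 13 ≤ 2 ^ 27 * N ^ 6 := by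
  apply conc hq hp hN
  have hq' : (0 : ℝ) < q := by exact_mod_cast hq
  have hN' : (0 : ℝ) < N := by exact_mod_cast hN
  have hk' : (0 : ℝ) < k := by exact_mod_cast hk
  have hv' : (0 : ℝ) < v := by exact_mod_cast hv
  have hp' : (0 : ℝ) < p := by exact_mod_cast hp
  have g1 : (k : ℝ) * q ≤ 2 * p ^ 2 := by exact_mod_cast h1
  have g2 : (q : ℝ) * (v * p ^ 4) ≤ 2 * N := by exact_mod_cast h2
  have g3 : (p : ℝ) ^ 3 ≤ 2 ^ 14 * (k ^ 7 * v ^ 6) := by exact_mod_cast h3
  have l1 := Real.log_le_log (by positivity) g1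
  have l2 := Real.log_le_log (by positivity) g2
  have l3 := Real.log_le_log (by positivity) g3
  rw [Real.log_mul (by positivity) (by positivity), Real.log_mul (by positivity) (by positivity),
    Real.log_pow] at l1
  rw [Real.log_mul (by positivity) (by positivity), Real.log_mul (by positivity) (by positivity),
    Real.log_mul (by positivity) (by positivity), Real.log_pow] at l2
  rw [Real.log_mul (by positivity) (by positivity), Real.log_mul (by positivity) (by positivity),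
    Real.log_pow, Real.log_pow, Real.log_pow, Real.log_pow] at l3
  have hL : 0 ≤ Real.log N := Real.log_nonneg (by exact_mod_cast hN)
  have hl2 : 0 < Real.log 2 := Real.log_pos (by norm_num)
  push_cast at l1 l2 l3
  linarith

/-! ### the cases -/

theorem Cfg.Npos (C : Cfg N q p b k v n c u e w) : 1 ≤ N := by
  rw [C.hN]
  exact Nat.mul_pos C.hq.pos (Nat.mul_pos (C.ppow b) C.npos)

theorem Cfg.q3w (C : Cfg N q p b k v n c u e w) {x : ℕ} (hx : x ≤ v) : q ^ 3 * x ≤ 8 * N := by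
  have h1 := C.ak
  have h2 : x ≤ k * v := by
    calc x ≤ v := hx
      _ = 1 * v := by ring
      _ ≤ k * v := Nat.mul_le_mul_right _ C.k1
  calc q ^ 3 * x ≤ q ^ 3 * (k * v) := Nat.mul_le_mul_left _ h2
    _ ≤ 6 * N := h1
    _ ≤ 8 * N := by omega

theorem Cfg.q3N (C : Cfg N q p b k v n c u e w) : q ^ 3 ≤ 8 * N := by
  have := C.q3w (x := 1) C.v1
  omega

/-- the payer is the second largest prime -/
theorem Cfg.case_payer (C : Cfg N q p b k v n c u e w) (hpq : p < q)
    (hs : ∀ r ∈ n.primeFactors, r < p) : (q * p) ^ 13 ≤ 2 ^ 27 * N ^ 6 := by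
  have hb := C.hb
  rcases Nat.lt_or_ge b 4 with h4 | h4
  · have hb2 : b = 2 := by
      obtain ⟨z, hz⟩ := C.beven
      omega
    subst hb2
    have h1 := C.second hpq hs
    have hp3 := C.p3
    refine fin7 C.hq.pos C.Npos C.k1 C.v1 C.hp.pos ?_ ?_ h1
    · rw [C.kq2]; nlinarith
    · have hc := C.c0 hpq
      have hu := C.hu
      rw [hc, pow_zero, one_mul] at hu
      have hn := C.hn
      rw [← hu] at hn
      have h2 : v * p ^ 2 ≤ 2 * n := by
        rw [hn]
        calc v * p ^ 2 ≤ v * (k * q) := Nat.mul_le_mul_left _ (by rw [C.kq2]; omega)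
          _ ≤ (q + 1) * (k * v) := by nlinarith [Nat.zero_le (k * v)]
      calc q * (v * p ^ 4) = q * (p ^ 2 * (v * p ^ 2)) := by ring
        _ ≤ q * (p ^ 2 * (2 * n)) := Nat.mul_le_mul_left _ (Nat.mul_le_mul_left _ h2)
        _ = 2 * (q * (p ^ 2 * n)) := by ring
        _ = 2 * N := by rw [← C.hN]
  · have h1 : p ^ 4 ≤ k * q := (Nat.pow_le_pow_right C.hp.pos h4).trans C.le_kq
    apply fin2 C.hq.pos C.hp.pos C.Npos _ C.q3N
    calc q ^ 2 * p ^ 4 ≤ q ^ 2 * (k * q) := Nat.mul_le_mul_left _ h1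
      _ = q ^ 3 * k := by ring
      _ ≤ q ^ 3 * (k * v) := Nat.mul_le_mul_left _ (Nat.le_mul_of_pos_right _ C.v1)
      _ ≤ 6 * N := C.ak
      _ ≤ 8 * N := by omega

/-- the second largest prime is not the payer -/
theorem Cfg.case_other (C : Cfg N q p b k v n c u e w) {s : ℕ} (hs : s ∈ n.primeFactors)
    (hps : p < s) : (q * s) ^ 13 ≤ 2 ^ 27 * N ^ 6 := by
  have hq1 : 1 ≤ q := C.hq.pos
  have hsp := C.rprime hs
  have hs1 : 1 ≤ s := hsp.pos
  have hN1 := C.Npos
  have hp3 := C.p3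
  have hk1 := C.k1
  have hs5 : 5 ≤ s := by
    have h1 : Odd s := Odd.of_dvd_nat C.nodd (Nat.dvd_of_mem_primeFactors hs)
    obtain ⟨z, hz⟩ := h1
    omega
  obtain ⟨n', v', e', hn', hv', hb', hpe, hwn, hn1, hv1⟩ := C.split hs
  have ha2 := C.a2 hs
  -- `2 k q² s ^ a n' ≤ 3 N`
  have hsize : 2 * (k * (q ^ 2 * (s ^ n.factorization s * n'))) ≤ 3 * N := by
    calc 2 * (k * (q ^ 2 * (s ^ n.factorization s * n'))) = (2 * (k * q)) * (q * n) := by
          rw [← hn']; ring
      _ ≤ (3 * p ^ b) * (q * n) := Nat.mul_le_mul_right _ C.kq_le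
      _ = 3 * (q * (p ^ b * n)) := by ring
      _ = 3 * N := by rw [← C.hN]
  rcases Nat.lt_or_ge (n.factorization s) 4 with h4 | h4
  · have ha : n.factorization s = 2 := by
      obtain ⟨z, hz⟩ := C.even s hs
      omega
    rw [ha] at hsize hn'
    have hsig := C.sig2 hs ha
    have hK : 2 * ((k * n') * (q * s) ^ 2) ≤ 3 * N := by
      calc 2 * ((k * n') * (q * s) ^ 2) = 2 * (k * (q ^ 2 * (s ^ 2 * n'))) := by ring
        _ ≤ _ := hsize
    have hw1 := C.w1 s hs
    have hkn : n' ≤ k * n' := Nat.le_mul_of_pos_left _ hk1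
    have key : s ≤ 10 * (k * n') ∨ s ^ 2 ≤ 2600 * (k * n') ^ 3 ∨
        (p ≤ 2 * n' ∧ s ^ 2 ≤ w s * p ^ 3) := by
      by_cases he0 : e s = 0
      · left
        rw [he0, pow_zero, mul_one] at hsig
        have : s ≤ w s := by rw [hsig]; nlinarith
        omega
      by_cases hws : s ≤ w s
      · left; omega
      push Not at hws
      by_cases hsv : s ∣ v'
      · left
        have h1 := Nat.le_of_dvd hv1 hsv
        have h2 : v' ≤ p ^ e' * v' := Nat.le_mul_of_pos_left _ (C.ppow e')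
        omega
      have hsw : ¬ s ∣ w s := (Nat.Prime.coprime_iff_not_dvd hsp).1 (C.cop hs)
      have hsv2 : ¬ s ∣ v := by
        rw [hv', hsp.dvd_mul]; tauto
      obtain ⟨j, x, hjx, hx, hj, -⟩ := C.loc hs
      have hx0 : x = 0 := by
        by_contra hcon
        exact hsv2 ((dvd_pow_self s hcon).trans hx)
      have hj2 : j = 2 := by omega
      rw [hj2] at hj
      have hwodd : w s % 2 = 1 := by
        have h1 : Odd (w s * p ^ e s) := by
          rw [hsig]
          have h2 : Even (s ^ 2 + s) := by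
            have : s ^ 2 + s = s * (s + 1) := by ring
            rw [this]; exact Nat.even_mul_succ_self s
          exact h2.add_one
        exact Nat.odd_iff.1 (Nat.odd_mul.1 h1).1
      exact third_arith hp3 hs5 hps hk1 hw1 hwodd hv1 hn1 C.hp C.beven hb' C.pc hpe hwn hws
        (by omega) hsig C.hu C.keq hj
    rcases key with h | h | ⟨h, h'⟩
    · apply fin3 hq1 hs1 hN1 _ C.q3N
      calc q ^ 2 * s ^ 3 = (q * s) ^ 2 * s := by ring
        _ ≤ (q * s) ^ 2 * (10 * (k * n')) := Nat.mul_le_mul_left _ h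
        _ = 5 * (2 * ((k * n') * (q * s) ^ 2)) := by ring
        _ ≤ 5 * (3 * N) := Nat.mul_le_mul_left _ hK
        _ ≤ 16 * N := by omega
    · apply fin4 hq1 hs1 hN1 _ C.q3N
      have h1 : 8 * (q ^ 6 * s ^ 8) ≤ 8 * (2 ^ 14 * N ^ 3) := by
        calc 8 * (q ^ 6 * s ^ 8) = 8 * ((q * s) ^ 2) ^ 3 * s ^ 2 := by ring
          _ ≤ 8 * ((q * s) ^ 2) ^ 3 * (2600 * (k * n') ^ 3) := Nat.mul_le_mul_left _ h
          _ = 2600 * (2 * ((k * n') * (q * s) ^ 2)) ^ 3 := by ring
          _ ≤ 2600 * (3 * N) ^ 3 := Nat.mul_le_mul_left _ (Nat.pow_le_pow_left hK 3)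
          _ = 70200 * N ^ 3 := by ring
          _ ≤ (8 * 2 ^ 14) * N ^ 3 := Nat.mul_le_mul_right _ (by norm_num)
          _ = _ := by ring
      omega
    · refine fin5 (m := n') hq1 hs1 hN1 hn1 hw1 C.hp.pos ?_ (C.q3w (C.w_le hs)) h hwn h'
      have h1 : n' * (q * s) ^ 2 ≤ (k * n') * (q * s) ^ 2 := Nat.mul_le_mul_right _ hkn
      omega
  · apply fin2 hq1 hs1 hN1 _ C.q3N
    have h1 : s ^ 4 ≤ s ^ n.factorization s * n' := by
      calc s ^ 4 ≤ s ^ n.factorization s := Nat.pow_le_pow_right hs1 h4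
        _ ≤ _ := Nat.le_mul_of_pos_right _ hn1
    have h2 : 2 * (q ^ 2 * s ^ 4) ≤ 3 * N := by
      calc 2 * (q ^ 2 * s ^ 4) ≤ 2 * (q ^ 2 * (s ^ n.factorization s * n')) :=
            Nat.mul_le_mul_left _ (Nat.mul_le_mul_left _ h1)
        _ ≤ 2 * (k * (q ^ 2 * (s ^ n.factorization s * n'))) :=
            Nat.mul_le_mul_left _ (Nat.le_mul_of_pos_left _ hk1)
        _ ≤ _ := hsize
    omega

/-- the two largest primes -/
theorem two_largest {N q s : ℕ} (hodd : Odd N) (hperf : N.Perfect) (hq : q.Prime) (hqN : q ∣ N)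
    (hs : s.Prime) (hsN : s ∣ N) (hsq : s < q)
    (hmax : ∀ r, r.Prime → r ∣ N → r ≠ q → r ≤ s) : (q * s) ^ 13 ≤ 2 ^ 27 * N ^ 6 := by
  have hN0 : N ≠ 0 := hperf.2.ne'
  have hf : 1 ≤ N.factorization q := hq.factorization_pos_of_dvd hN0 hqN
  rcases Nat.lt_or_ge (N.factorization q) 2 with h2 | h2
  · have h1 : N.factorization q = 1 := by omega
    obtain ⟨p, hp, hpN, hpay⟩ := LP.exists_payer hodd hperf hq h1
    obtain ⟨k, v, n, c, u, e, w, C⟩ := exists_cfg hodd hperf hq h1 hp hpN hpay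
    have hpq : p ≤ s := hmax p hp hpN C.hqp.symm
    have hnN : n ∣ N := ⟨q * p ^ N.factorization p, by
      conv_lhs => rw [C.hN]
      ring⟩
    have hpn : ∀ r ∈ n.primeFactors, r ≠ p := by
      rintro r hr rfl
      exact C.pn (Nat.dvd_of_mem_primeFactors hr)
    have hqn : ∀ r ∈ n.primeFactors, r ≠ q := by
      rintro r hr rfl
      exact C.qn (Nat.dvd_of_mem_primeFactors hr)
    rcases eq_or_ne p s with hps | hps
    · rw [← hps]
      apply C.case_payer (by omega)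
      intro r hr
      have h3 := hmax r (C.rprime hr) ((Nat.dvd_of_mem_primeFactors hr).trans hnN) (hqn r hr)
      have h4 := hpn r hr
      omega
    · apply C.case_other _ (lt_of_le_of_ne hpq hps)
      rw [Nat.mem_primeFactors]
      refine ⟨hs, ?_, C.n0⟩
      have h3 := hsN
      rw [C.hN] at h3
      rcases (Nat.Prime.dvd_mul hs).1 h3 with h4 | h4
      · exact absurd ((Nat.prime_dvd_prime_iff_eq hs hq).1 h4) hsq.ne
      rcases (Nat.Prime.dvd_mul hs).1 h4 with h5 | h5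
      · exact absurd ((Nat.prime_dvd_prime_iff_eq hs hp).1 (hs.dvd_of_dvd_pow h5)) hps.symm
      · exact h5
  · apply fin1 hq.pos hs.pos (Nat.pos_of_ne_zero hN0) (LP.pow_four_le hodd hperf hq h2)
    have h3 := KthLargest.result N hodd hperf {s, q} (by simp) (by
      intro r hr
      rw [Finset.mem_insert, Finset.mem_singleton] at hr
      rcases hr with rfl | rfl
      · exact ⟨hs, hsN⟩
      · exact ⟨hq, hqN⟩) s (by
      intro r hr
      rw [Finset.mem_insert, Finset.mem_singleton] at hr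
      rcases hr with rfl | rfl
      · exact le_refl _
      · exact hsq.le)
    rw [Finset.card_pair hsq.ne] at h3
    norm_num at h3
    exact h3

/-- the main theorem -/
theorem main {N x y : ℕ} (hodd : Odd N) (hperf : N.Perfect) (hx : x.Prime) (hxN : x ∣ N)
    (hy : y.Prime) (hyN : y ∣ N) (hxy : x ≠ y) : (x * y) ^ 13 ≤ 2 ^ 27 * N ^ 6 := by
  classical
  have hN0 : N ≠ 0 := hperf.2.ne'
  -- largest
  have hne : N.primeFactors.Nonempty := ⟨x, Nat.mem_primeFactors.2 ⟨hx, hxN, hN0⟩⟩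
  set q := N.primeFactors.max' hne with hqdef
  have hqm : q ∈ N.primeFactors := Finset.max'_mem _ _
  have hqmax : ∀ r ∈ N.primeFactors, r ≤ q := fun r hr => Finset.le_max' _ r hr
  have hne2 : (N.primeFactors.erase q).Nonempty := by
    rcases eq_or_ne x q with h | h
    · exact ⟨y, Finset.mem_erase.2 ⟨fun h' => hxy (h.trans h'.symm),
        Nat.mem_primeFactors.2 ⟨hy, hyN, hN0⟩⟩⟩
    · exact ⟨x, Finset.mem_erase.2 ⟨h, Nat.mem_primeFactors.2 ⟨hx, hxN, hN0⟩⟩⟩
  set s := (N.primeFactors.erase q).max' hne2 with hsdef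
  have hsm : s ∈ N.primeFactors.erase q := Finset.max'_mem _ _
  have hsmax : ∀ r ∈ N.primeFactors.erase q, r ≤ s := fun r hr => Finset.le_max' _ r hr
  rw [Finset.mem_erase] at hsm
  have hqp := Nat.mem_primeFactors.1 hqm
  have hsp := Nat.mem_primeFactors.1 hsm.2
  have hsq : s < q := lt_of_le_of_ne (hqmax s hsm.2) hsm.1
  have hmain := two_largest hodd hperf hqp.1 hqp.2.1 hsp.1 hsp.2.1 hsq (fun r hr hrN hrq =>
    hsmax r (Finset.mem_erase.2 ⟨hrq, Nat.mem_primeFactors.2 ⟨hr, hrN, hN0⟩⟩))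
  have hle : x * y ≤ q * s := by
    have hx' := Nat.mem_primeFactors.2 ⟨hx, hxN, hN0⟩
    have hy' := Nat.mem_primeFactors.2 ⟨hy, hyN, hN0⟩
    rcases eq_or_ne x q with h | h
    · rw [h]
      apply Nat.mul_le_mul_left
      apply hsmax
      rw [Finset.mem_erase]
      exact ⟨fun h' => hxy (h.trans h'.symm), hy'⟩
    · rw [mul_comm q s]
      exact Nat.mul_le_mul (hsmax x (Finset.mem_erase.2 ⟨h, hx'⟩)) (hqmax y hy')
  exact (Nat.pow_le_pow_left hle 13).trans hmain

end Pool.Agent.Lib.MP_f02ea4_nt.TL
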